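import Pool.Agent.JGL.GL
import Pool.Agent.JG.Cls

/-!
# [JGL-Z3] the central value for the whole class
-/

set_option autoImplicit false

open NumberField IsDedekindDomain Filter Topology
open scoped Classical ComplexConjugate

namespace JGL

open CM27 JZ
open CU (la eE)
open CUL (Nl ez si ta DS Cont LV IsRep rp cr mn mo zw OT GalU W3 W9)
open JL (N1 KD sD Psi6)

variable {D : Eis}

theorem z3_clA (h : JG.ClG D) (h0 : D ≠ 0) : ClA D := by
  refine ⟨h0, h.free, ?_, ?_, ?_⟩
  · rintro ⟨x, hx⟩
    exact h.nsq ⟨x, by rw [hx]; ring⟩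
  · rintro p c hp h6 hD hc ⟨y, hy⟩
    refine h.odd p c hp h6 hc hD y ?_
    have e : c - y ^ 2 = -(y ^ 2 - c) := by ring
    rw [e]
    exact hy.neg_right
  · rintro c hc hD ⟨y, hy⟩
    refine h.two c hc ?_ y ?_
    · rcases hD with hD | hD
      · exact Or.inl hD
      · exact Or.inr (by rw [hD]; ring)
    · have e : c - y ^ 2 = -(y ^ 2 - c) := by ring
      rw [e]
      exact hy.neg_right

theorem z3_three : (3 : Eis) = la ^ 2 * (-CU.om ^ 2) := by decide

theorem z3_mn {Ds k : Eis} (hk : Ds = 1 + 3 * k) : mn Ds = ((k.re + k.im : ℤ) : ZMod 3) := by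
  have r3 : (3 : Eis).re = 3 := rfl
  have i3 : (3 : Eis).im = 0 := rfl
  have r1 : (1 : Eis).re = 1 := rfl
  have i1 : (1 : Eis).im = 0 := rfl
  have h1 : Ds.re = 1 + 3 * k.re := by
    rw [hk, QuadraticAlgebra.re_add, QuadraticAlgebra.re_mul, r3, i3, r1]
    ring
  have h2 : Ds.im = 3 * k.im := by
    rw [hk, QuadraticAlgebra.im_add, QuadraticAlgebra.im_mul, r3, i3, i1]
    ring
  unfold mn
  rw [h1, h2]
  congr 1
  omega

theorem z3_la (x : Eis) (h : ((x.re + x.im : ℤ) : ZMod 3) = 0) : la ∣ x := by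
  rw [CUL.la_dvd_iff]
  rw [ZMod.intCast_zmod_eq_zero_iff_dvd] at h
  exact_mod_cast h

theorem z3_cop (d : Dat D) : ¬ la ∣ d.η * CU.om ^ d.i * d.Ds := by
  intro h
  have hdvd := CUL.la_prime.dvd_or_dvd h
  rcases hdvd with h | h
  · refine CUL.la_prime.not_isUnit (isUnit_of_dvd_unit h ?_)
    refine IsUnit.mul ?_ (CU.om_unit.pow _)
    rcases d.hη with h | h
    · rw [h]; exact isUnit_one
    · rw [h]; exact isUnit_one.neg
  · exact CUL.primary_not_la d.hDs h

theorem z3_D (d : Dat D) {v : ℕ} (hv : d.v = v) : D = la ^ v * (d.η * CU.om ^ d.i * d.Ds) := by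
  have h1 : D = d.η * CU.om ^ d.i * la ^ d.v * d.Ds := d.hD'
  rw [hv] at h1
  refine h1.trans ?_
  ring

/-- the conditions at `λ` -/
theorem z3_clL (h : JG.ClG D) (d : Dat D) (hG : ¬ JG.GoodL D) : ClL d := by
  have hDs0 : (3 : Eis) ∣ d.Ds - 1 := d.hDs
  obtain ⟨k, hk0⟩ := hDs0
  have hk : d.Ds = 1 + 3 * k := by rw [← hk0]; ring
  have hmn := z3_mn hk
  refine ⟨?_, ?_, ?_, ?_⟩
  · intro hv hi
    have hD : D = d.η * d.Ds := by
      have h1 := z3_D d hv
      rw [hi] at h1
      refine h1.trans ?_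
      ring
    have hnl : ¬ la ∣ D := by
      have h1 := z3_cop d
      rw [hi, pow_zero, mul_one, ← hD] at h1
      exact h1
    constructor
    · rintro ⟨hη, hk1⟩
      refine h.la0 hnl (-1) (Or.inr rfl) ?_
      rw [hD, hη, hk]
      have h2 : mn d.Ds = 1 := by
        have h3 := d.hk
        rw [hk1] at h3
        linear_combination h3
      have e : -1 * (1 + 3 * k) - -1 - la ^ 2 = 3 * (CU.om - k) := by
        have e1 : la ^ 2 = -3 * CU.om := by decide
        rw [e1]
        ring
      rw [e, z3_three, pow_succ la 2, mul_assoc]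
      refine mul_dvd_mul_left _ (Dvd.dvd.mul_left (z3_la _ ?_) _)
      have e2 : (CU.om - k).re + (CU.om - k).im = 1 - (k.re + k.im) := by
        have e3 : (CU.om - k).re = 0 - k.re := rfl
        have e4 : (CU.om - k).im = 1 - k.im := rfl
        rw [e3, e4]
        ring
      rw [e2]
      push_cast
      rw [hmn] at h2
      push_cast at h2
      rw [h2]
      ring
    · rintro ⟨hη, hk1⟩
      refine h.la0 hnl 1 (Or.inl rfl) ?_
      rw [hD, hη, hk]
      have h2 : mn d.Ds = 2 := by
        have h3 := d.hk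
        rw [hk1] at h3
        linear_combination h3
      have e : 1 * (1 + 3 * k) - 1 - la ^ 2 = 3 * (CU.om + k) := by
        have e1 : la ^ 2 = -3 * CU.om := by decide
        rw [e1]
        ring
      rw [e, z3_three, pow_succ la 2, mul_assoc]
      refine mul_dvd_mul_left _ (Dvd.dvd.mul_left (z3_la _ ?_) _)
      have e2 : (CU.om + k).re + (CU.om + k).im = 1 + (k.re + k.im) := by
        have e3 : (CU.om + k).re = 0 + k.re := rfl
        have e4 : (CU.om + k).im = 1 + k.im := rfl
        rw [e3, e4]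
        ring
      rw [e2]
      push_cast
      rw [hmn] at h2
      push_cast at h2
      rw [h2]
      decide
  · intro hv
    have h1 : la ∣ d.η * CU.om ^ d.i * d.Ds + 1 := by
      rcases hv with hv | hv
      · exact h.la24 _ (z3_cop d) (Or.inl (z3_D d hv))
      · exact h.la24 _ (z3_cop d) (Or.inr (z3_D d hv))
    rcases d.hη with hη | hη
    · exfalso
      have hom : la ∣ CU.om ^ d.i - 1 := by
        have h2 : CU.om - 1 ∣ CU.om ^ d.i - 1 := by
          simpa using sub_dvd_pow_sub_pow CU.om 1 d.i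
        have h3 : la ∣ CU.om - 1 := ⟨-1, by decide⟩
        exact h3.trans h2
      have h3 : la ∣ 3 := ⟨la * (-CU.om ^ 2), by decide⟩
      rw [hη, hk] at h1
      have h4 : (2 : Eis) = (1 * CU.om ^ d.i * (1 + 3 * k) + 1) - (CU.om ^ d.i - 1) - 3 * (CU.om ^ d.i * k) := by
        ring
      have h5 : la ∣ 2 := by
        rw [h4]
        exact dvd_sub (dvd_sub h1 hom) (h3.mul_right _)
      rw [CUL.la_dvd_iff] at h5
      revert h5
      decide
    · exact hη
  · intro hv hi hk2
    apply hG
    have h2 : mn d.Ds = 0 := by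
      have h3 := d.hk
      rw [hk2] at h3
      linear_combination h3
    have h3 : la ∣ k := by
      refine z3_la _ ?_
      rw [← hmn, h2]
    obtain ⟨k', hk'⟩ := h3
    refine ⟨d.η, d.η * (-CU.om ^ 2 * k'), d.hη, ?_⟩
    have h1 := z3_D d hv
    rw [hi, pow_zero, mul_one, hk, hk'] at h1
    refine h1.trans ?_
    have e3 := z3_three
    calc la ^ 3 * (d.η * (1 + 3 * (la * k'))) = la ^ 3 * (d.η * (1 + (la ^ 2 * (-CU.om ^ 2)) * (la * k'))) := by
          rw [← e3]
      _ = _ := by ring
  · intro hv hi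
    have hla2 : la ^ 2 ∣ (3 : Eis) := ⟨_, z3_three⟩
    have h0 := h.la3 _ (z3_cop d) (z3_D d hv)
    have hi3 := d.hi
    constructor
    · intro hη hi2
      have hi' : d.i = 2 := by
        rcases (by omega : d.i = 1 ∨ d.i = 2) with h1 | h1
        · rw [h1] at hi2
          exact absurd hi2 (by decide)
        · exact h1
      refine h0 1 (Or.inl rfl) ?_
      rw [hη, hi', hk]
      have e : 1 * CU.om ^ 2 * (1 + 3 * k) - (1 + la) = 3 * (-1 + CU.om ^ 2 * k) := by
        have e1 : CU.om ^ 2 - 1 - la = -3 := by decide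
        linear_combination e1
      rw [e]
      exact hla2.mul_right _
    · intro hη hi2
      have hi' : d.i = 1 := by
        rcases (by omega : d.i = 1 ∨ d.i = 2) with h1 | h1
        · exact h1
        · rw [h1] at hi2
          exact absurd hi2 (by decide)
      refine h0 (-1) (Or.inr rfl) ?_
      rw [hη, hi', hk]
      have e : -1 * CU.om ^ 1 * (1 + 3 * k) - (-1 + la) = 3 * (-CU.om * k) := by
        have e1 : -CU.om + 1 - la = 0 := by decide
        linear_combination e1
      rw [e]
      exact hla2.mul_right _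

/-- The statement on the central value for the whole class. -/
theorem lval (h : JG.ClG D) (h0 : D ≠ 0) : JG.LValG D := by
  obtain ⟨d⟩ := exists_Dat (z3_clA h h0)
  by_cases hG : JG.GoodL D
  · exact lval_good d hG
  · exact lval_bad d (z3_clL h d hG) hG

end JGL
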