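import Pool.Agent.JG.HG
import Pool.Agent.JGL.Z3
import Pool.Agent.JZR.CountX
import Pool.Agent.JD.T5
import Pool.Agent.JXD.T5

/-!
# [JGL] the final statements
-/

set_option autoImplicit false

open NumberField IsDedekindDomain Filter Topology
open scoped Classical

namespace JGL

open CM27 CF JZ
open JD (ED jK)

/-- There is no point of order `3`. -/
def No3 (K : Type) [Field K] (_i : DecidableEq K) (E : WeierstrassCurve K) : Prop :=
  ∀ P : E.toAffine.Point, 3 • P = 0 → P = 0

theorem no3_iff {K : Type} [Field K] (i j : DecidableEq K) (E : WeierstrassCurve K) :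
    No3 K i E ↔ No3 K j E := by
  rw [Subsingleton.elim i j]

/-- no point of order `3`, no Tamagawa number divisible by `3` -/
def Prime3 {K : Type} [Field K] [NumberField K] (E : WeierstrassCurve K) : Prop :=
  No3 K (fun a b => Classical.propDecidable (a = b)) E ∧
    ∀ v : HeightOneSpectrum (𝓞 K), ¬ 3 ∣ SBSD.tam E v

/-- The values of the `L`-functions. -/
theorem lvalG : ∀ D : Eis, JG.ClG D → JG.LValG D := fun D h => lval h (JG.nz h)

/-- The conjecture modulo `3`. -/
theorem modThree (E : WeierstrassCurve KK) [E.IsElliptic] (hj : E.j = 0) (h : Prime3 E) :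
    CUE.ModThree E :=
  JG.modThree_j lvalG E hj ((no3_iff _ _ E).1 h.1) h.2

/-- The `3`-part of the conjecture. -/
theorem threePart (E : WeierstrassCurve KK) [E.IsElliptic] (hj : E.j = 0) (h : Prime3 E)
    (hfin : Finite E.toAffine.Point) (hsha : ∀ x : SBSD.Sha E, 3 • x = 0 → x = 0) :
    SBSD3.ThreePartRankZero E :=
  JG.threePart_all lvalG E E.isUnit_Δ.ne_zero (E.j_eq_zero_iff.1 hj) ((no3_iff _ _ E).1 h.1) h.2 hfin hsha

/-- The old classes are contained in the class. -/
theorem clG_of_clX {D : Eis} (h : JX.ClX D) : JG.ClG D := by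
  obtain ⟨h1, h2, h3, h4⟩ := h
  have hdom := eis_isDomain
  have hsq : ∀ p c : Eis, Prime p → D ≠ p ^ 2 * c := by
    rintro p c hp rfl
    exact hp.not_isUnit (h1 p ⟨c, by ring⟩)
  have hla : Prime (CU.la : Eis) := JC.la_prime'
  refine ⟨fun p hp h6 => ?_, ?_, ?_, ?_, ?_, ?_, ?_⟩
  · obtain ⟨c, hc⟩ := h6
    exact hsq p (p ^ 4 * c) hp (by rw [hc]; ring)
  · rintro ⟨x, rfl⟩
    exact h3 x (by rw [sub_self]; exact dvd_zero _)
  · rintro p c hp - - (h | h)
    · exact absurd h (hsq p c hp)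
    · exact absurd (by rw [h]; ring) (hsq p (p ^ 2 * c) hp)
  · rintro c - (h | h) x h8
    · refine h3 x ((show (4 : Eis) ∣ 8 from ⟨2, by norm_num⟩).trans ?_)
      rw [h]
      exact h8
    · exact absurd h (hsq 2 c JC.two_prime)
  · rintro - η hη h5
    exact h4 η hη h5
  · rintro c - (h | h)
    · exact absurd h (hsq _ c hla)
    · exact absurd (by rw [h]; ring) (hsq CU.la (CU.la ^ 2 * c) hla)
  · rintro c - h
    exact absurd (by rw [h]; ring) (hsq CU.la (CU.la * c) hla)

/-- The hypotheses of the theorem, in terms of `D`. -/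
theorem clG_iff {D : Eis} (hD : JZR.SixthPowerFree D) : JG.ClG D ↔ Prime3 (ED (jK D)) := by
  rw [JG.clG_iff]
  exact ⟨fun h => ⟨(no3_iff _ _ _).1 h.2.2.1, h.2.2.2⟩,
    fun h => ⟨hD.1, hD.2, (no3_iff _ _ _).1 h.1, h.2⟩⟩

end JGL
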