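import Pool.Agent.JGL.D0

/-!
# [JGL-D1a] the factorization

PROOF. `CUL.g6_split h0`: `D = la ^ v * b`, `¬ la ∣ b`; `v < 6` (`h6 la`, `CUL.la_prime`). `CU.exists_primary`: `u * b` is primary for a unit `u`; `Ds = u * b`, `b = u' Ds`, the unit `u' = ± 1, ± ω, ± ω²` (`CUL.unit_cases`): `η`, `i`.
`4 Ds` is primary (`4 = 1 + 3`). Every primary `b` is `∏_{p ∈ S} p ^ E p` with primary primes and `E p ≠ 0` (`CUL.primary_induction`: for `p * b`: if `p ∈ S` increase `E p` (`Function.update`), otherwise insert `p` with exponent `1`).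
`-2` is a primary prime (`JL.b3_two`, `JL.b3_twoP`) and divides `4 Ds`, so it divides some `p ∈ S` (`Prime.dvd_finset_prod_iff`), `Prime.dvd_of_dvd_pow`, associated primes which are primary are equal (`CUL.primary_assoc`). `p ∈ S`, `p ≠ -2`, `6 ≤ E p`: `p ^ 6 ∣ 4 Ds`, `p ^ 6` is prime to `4` (`IsCoprime.pow`), so `p ^ 6 ∣ Ds ∣ D`: no.
`4 Ds = (-2) ^ E(-2) * r` with `¬ -2 ∣ r` (product over `S.erase (-2)`) and `4 = (-2)²`: `E(-2) ≥ 2` (otherwise `-2 ∣ r`), and `Ds = (-2) ^ (E(-2) - 2) * r`, so `E(-2) - 2 < 6`.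
-/

set_option autoImplicit false

open NumberField IsDedekindDomain Filter Topology
open scoped Classical ComplexConjugate

namespace JGL

open CM27 JZ
open CU (la eE)
open CUL (Nl ez si ta DS Cont LV IsRep rp cr mn mo zw OT GalU W3 W9)
open JL (N1 KD sD Psi6)

theorem d1a_not_dvd {p : Eis} (hp : Prime p) (hP : Primary p) {S : Finset Eis} {E : Eis → ℕ}
    (hS : ∀ q ∈ S, Prime q ∧ Primary q) (h : p ∉ S) : ¬ p ∣ ∏ q ∈ S, q ^ E q := by
  have := CM27.eis_isDomain
  intro h1
  obtain ⟨q, hq, h2⟩ := (hp.dvd_finsetProd_iff _).1 h1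
  have h3 := hp.dvd_of_dvd_pow h2
  have h4 := CUL.primary_assoc hP (hS q hq).2 (hp.irreducible.associated_of_dvd (hS q hq).1.irreducible h3)
  rw [h4] at h
  exact h hq

theorem d1a_split {b : Eis} (hb : Primary b) : ∃ (S : Finset Eis) (E : Eis → ℕ), (∀ p ∈ S, Prime p ∧ Primary p) ∧
    (∀ p ∈ S, E p ≠ 0) ∧ b = ∏ p ∈ S, p ^ E p := by
  refine CUL.primary_induction (P := fun b => ∃ (S : Finset Eis) (E : Eis → ℕ), (∀ p ∈ S, Prime p ∧ Primary p) ∧
    (∀ p ∈ S, E p ≠ 0) ∧ b = ∏ p ∈ S, p ^ E p) ?_ ?_ hb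
  · exact ⟨∅, fun _ => 1, by simp, by simp, by simp⟩
  · rintro p b hp hP - ⟨S, E, h1, h2, h3⟩
    by_cases hpS : p ∈ S
    · refine ⟨S, Function.update E p (E p + 1), h1, ?_, ?_⟩
      · intro q hq
        by_cases h : q = p
        · subst h
          rw [Function.update_self]
          omega
        · rw [Function.update_of_ne h]
          exact h2 q hq
      · have h5 : ∏ q ∈ S.erase p, q ^ Function.update E p (E p + 1) q = ∏ q ∈ S.erase p, q ^ E q :=
          Finset.prod_congr rfl (fun q hq => by rw [Function.update_of_ne (Finset.ne_of_mem_erase hq)])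
        rw [h3, ← Finset.mul_prod_erase S (fun q => q ^ E q) hpS,
          ← Finset.mul_prod_erase S (fun q => q ^ Function.update E p (E p + 1) q) hpS, h5, Function.update_self, pow_succ]
        ring
    · refine ⟨insert p S, Function.update E p 1, ?_, ?_, ?_⟩
      · intro q hq
        rcases Finset.mem_insert.1 hq with h | h
        · rw [h]
          exact ⟨hp, hP⟩
        · exact h1 q h
      · intro q hq
        by_cases h : q = p
        · subst h
          rw [Function.update_self]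
          omega
        · rw [Function.update_of_ne h]
          exact h2 q ((Finset.mem_insert.1 hq).resolve_left h)
      · have h5 : ∏ q ∈ S, q ^ Function.update E p 1 q = ∏ q ∈ S, q ^ E q :=
          Finset.prod_congr rfl (fun q hq => by rw [Function.update_of_ne (fun h => hpS (by rwa [h] at hq))])
        rw [Finset.prod_insert hpS, h5, Function.update_self, pow_one, h3]

theorem exists_Fac {D : Eis} (h0 : D ≠ 0) (h6 : ∀ p : Eis, Prime p → ¬ p ^ 6 ∣ D) : Nonempty (Fac D) := by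
  have := CM27.eis_isDomain
  obtain ⟨v, b, hDb, hb⟩ := CUL.g6_split h0
  have hv : v < 6 := by
    by_contra hv
    apply h6 la CUL.la_prime
    rw [hDb]
    exact (pow_dvd_pow la (not_lt.1 hv)).mul_right _
  obtain ⟨u, hu, hP⟩ := CU.exists_primary hb
  obtain ⟨u', hu'⟩ := hu.exists_right_inv
  have hb' : b = u' * (u * b) := by linear_combination (-b) * hu'
  have hu1 : IsUnit u' := IsUnit.of_mul_eq_one u (by rw [mul_comm]; exact hu')
  obtain ⟨η, i, hη, hi, hue⟩ : ∃ (η : Eis) (i : ℕ), (η = 1 ∨ η = -1) ∧ i < 3 ∧ u' = η * CU.om ^ i := by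
    rcases CUL.unit_cases hu1 with h | h | h | h | h | h
    · exact ⟨1, 0, Or.inl rfl, by norm_num, by rw [h]; ring⟩
    · exact ⟨-1, 0, Or.inr rfl, by norm_num, by rw [h]; ring⟩
    · exact ⟨1, 1, Or.inl rfl, by norm_num, by rw [h]; ring⟩
    · exact ⟨-1, 1, Or.inr rfl, by norm_num, by rw [h]; ring⟩
    · exact ⟨1, 2, Or.inl rfl, by norm_num, by rw [h]; ring⟩
    · exact ⟨-1, 2, Or.inr rfl, by norm_num, by rw [h]; ring⟩
  obtain ⟨Ds, hDs⟩ : ∃ Ds, Ds = u * b := ⟨_, rfl⟩
  rw [← hDs] at hP hb'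
  have hDD : D = η * CU.om ^ i * la ^ v * Ds := by
    rw [hDb, hb', hue]
    ring
  have hP4 : Primary (4 * Ds) := by
    unfold Primary at hP ⊢
    have h1 : 4 * Ds - 1 = 4 * (Ds - 1) + 3 * 1 := by ring
    rw [h1]
    exact dvd_add (hP.mul_left _) (dvd_mul_right _ _)
  have hDsD : Ds ∣ D := ⟨η * CU.om ^ i * la ^ v, by rw [hDD]; ring⟩
  obtain ⟨S, E, hS, hE, h4⟩ := d1a_split hP4
  have h2 : (-2 : Eis) ∈ S := by
    by_contra h
    apply d1a_not_dvd JL.b3_two JL.b3_twoP hS (E := E) h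
    rw [← h4]
    exact ⟨-2 * Ds, by ring⟩
  have hrest : ∀ p ∈ S, ∃ r : Eis, 4 * Ds = p ^ E p * r ∧ ¬ p ∣ r := by
    intro p hp
    refine ⟨∏ q ∈ S.erase p, q ^ E q, ?_, ?_⟩
    · rw [h4, Finset.mul_prod_erase S (fun q => q ^ E q) hp]
    · exact d1a_not_dvd (hS p hp).1 (hS p hp).2 (fun q hq => hS q (Finset.mem_of_mem_erase hq)) (Finset.notMem_erase p S)
  refine ⟨⟨v, η, i, Ds, S, E, hv, hη, hi, hP, hDD, hS, h2, h4, hE, ?_, ?_⟩⟩
  · intro p hp hp2
    by_contra hE6
    apply h6 p (hS p hp).1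
    obtain ⟨r, hr, -⟩ := hrest p hp
    have h7 : p ^ 6 ∣ 4 * Ds := by
      rw [hr]
      exact (pow_dvd_pow p (not_lt.1 hE6)).mul_right _
    have h8 : ¬ p ∣ 4 := by
      intro h9
      have h10 : (4 : Eis) = (-2) ^ 2 := by norm_num
      rw [h10] at h9
      have h11 := (hS p hp).1.dvd_of_dvd_pow h9
      exact hp2 (CUL.primary_assoc (hS p hp).2 JL.b3_twoP ((hS p hp).1.irreducible.associated_of_dvd JL.b3_two.irreducible h11))
    exact ((hS p hp).1.pow_dvd_of_dvd_mul_left 6 h8 h7).trans hDsD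
  · obtain ⟨r, hr, hnr⟩ := hrest (-2) h2
    have h40 : (4 : Eis) ≠ 0 := by decide
    constructor
    · by_contra hE2
      have h7 : E (-2) = 1 := by
        have := hE (-2) h2
        omega
      rw [h7] at hr
      apply hnr
      refine ⟨Ds, ?_⟩
      have h8 : (-2 : Eis) * ((-2) * Ds) = (-2) * r := by linear_combination hr
      exact (mul_left_cancel₀ (by decide) h8).symm
    · by_contra hE8
      apply h6 (-2) JL.b3_two
      refine Dvd.dvd.trans ?_ hDsD
      obtain ⟨n, hn⟩ : ∃ n, E (-2) = 8 + n := ⟨E (-2) - 8, by omega⟩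
      rw [hn, pow_add] at hr
      refine ⟨(-2) ^ n * r, ?_⟩
      apply mul_left_cancel₀ h40
      rw [hr]
      ring

end JGL
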