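import Pool.Agent.JGL.D0

/-!
# [JGL-D1b] the exact powers of the primes in `D`; parity

PROOF. `fac_rest`: `Finset.mul_prod_erase`; a primary prime `p` does not divide `q ^ k` for another primary prime `q` (`CUL.primary_assoc`, `Prime.dvd_of_dvd_pow`, `Prime.dvd_finset_prod_iff`). `fac_pow`: `p ≠ -2` is prime to `4 = (-2)²`, `η`, `ω`, `λ` (a primary prime does not divide `la`: `CUL.cop_la`): from `fac_rest`: `4 Ds = p ^ E r`, `p ^ E ∣ Ds` (`IsCoprime.dvd_of_dvd_mul_left`), `Ds = p ^ E r'`, `4 r' = r`, `¬ p ∣ r'`.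
`fac_two`: `4 Ds = (-2) ^ E r`, `4 = (-2)²`, cancel. `fac_la`: `c = η ω ^ i Ds`; `la ∣ ω - 1`, `la ∣ Ds - 1` (`la ∣ 3`). `fac_not`: `p ∣ D`, `p` is prime to `η ω ^ i la ^ v`, so `p ∣ Ds ∣ 4 Ds = ∏`, `p` is associated to, hence equal to, an element of `S`.
`parity`: `p` prime. `m = p ^ k m'` with `¬ p ∣ m'` (`m ≠ 0`; finite multiplicity: `exists_eq_pow_mul_and_not_dvd`, `FiniteMultiplicity.of_not_isUnit` or by induction on the norm). If `p ∣ D₁ = p d`: `¬ p ∣ d` (squarefree), `D = p ^ (2 k + 1) (d m'²)`; otherwise `D = p ^ (2 k) (D₁ m'²)`; the exact power is unique: `p ^ a x = p ^ b y`, `¬ p ∣ x`, `¬ p ∣ y` implies `a = b`, `x = y`.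
-/

set_option autoImplicit false

open NumberField IsDedekindDomain Filter Topology
open scoped Classical ComplexConjugate

namespace JGL

open CM27 JZ
open CU (la eE)
open CUL (Nl ez si ta DS Cont LV IsRep rp cr mn mo zw OT GalU W3 W9)
open JL (N1 KD sD Psi6)

variable {D : Eis}

theorem d1b1_not_dvd {p : Eis} (hp : Prime p) (hP : Primary p) {S : Finset Eis} {E : Eis → ℕ}
    (hS : ∀ q ∈ S, Prime q ∧ Primary q) (h : p ∉ S) : ¬ p ∣ ∏ q ∈ S, q ^ E q := by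
  have := CM27.eis_isDomain
  intro h1
  obtain ⟨q, hq, h2⟩ := (hp.dvd_finsetProd_iff _).1 h1
  have h3 := hp.dvd_of_dvd_pow h2
  have h4 := CUL.primary_assoc hP (hS q hq).2 (hp.irreducible.associated_of_dvd (hS q hq).1.irreducible h3)
  rw [h4] at h
  exact h hq

theorem d1b1_unit (F : Fac D) {p x : Eis} (hp : Prime p) (hP : Primary p) (hx : ¬ p ∣ x) :
    ¬ p ∣ F.η * CU.om ^ F.i * la ^ F.v * x := by
  intro h
  rcases hp.dvd_or_dvd h with h | h
  · rcases hp.dvd_or_dvd h with h | h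
    · have hu : IsUnit (F.η * CU.om ^ F.i) := by
        refine IsUnit.mul ?_ (CU.om_unit.pow _)
        rcases F.hη with h | h <;> rw [h]
        · exact isUnit_one
        · exact isUnit_one.neg
      exact hp.not_isUnit (isUnit_of_dvd_unit h hu)
    · have h1 := hp.dvd_of_dvd_pow h
      have h2 := CUL.cop_la hP
      exact hp.not_isUnit (h2.isUnit_of_dvd' dvd_rfl h1)
  · exact hx h

theorem fac_rest (F : Fac D) {p : Eis} (hp : p ∈ F.S) : ∃ r : Eis, 4 * F.Ds = p ^ F.E p * r ∧ ¬ p ∣ r := by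
  refine ⟨∏ q ∈ F.S.erase p, q ^ F.E q, ?_, ?_⟩
  · rw [F.h4, Finset.mul_prod_erase F.S (fun q => q ^ F.E q) hp]
  · exact d1b1_not_dvd (F.hS p hp).1 (F.hS p hp).2 (fun q hq => F.hS q (Finset.mem_of_mem_erase hq)) (Finset.notMem_erase p F.S)

theorem fac_pow (F : Fac D) {p : Eis} (hp : p ∈ F.S) (h2 : p ≠ -2) : ∃ c : Eis, D = p ^ F.E p * c ∧ ¬ p ∣ c := by
  have := CM27.eis_isDomain
  obtain ⟨r, hr, hnr⟩ := fac_rest F hp
  have hpp := (F.hS p hp).1
  have h8 : ¬ p ∣ 4 := by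
    intro h9
    have h10 : (4 : Eis) = (-2) ^ 2 := by norm_num
    rw [h10] at h9
    have h11 := hpp.dvd_of_dvd_pow h9
    exact h2 (CUL.primary_assoc (F.hS p hp).2 JL.b3_twoP (hpp.irreducible.associated_of_dvd JL.b3_two.irreducible h11))
  have h7 : p ^ F.E p ∣ 4 * F.Ds := ⟨r, hr⟩
  obtain ⟨r', hr'⟩ := hpp.pow_dvd_of_dvd_mul_left _ h8 h7
  have h9 : 4 * r' = r := by
    apply mul_left_cancel₀ (pow_ne_zero (F.E p) hpp.ne_zero)
    rw [← hr, hr']
    ring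
  refine ⟨F.η * CU.om ^ F.i * la ^ F.v * r', ?_, ?_⟩
  · have h10 := F.hD
    rw [hr'] at h10
    exact h10.trans (by ring)
  · apply d1b1_unit F hpp (F.hS p hp).2
    intro h10
    apply hnr
    rw [← h9]
    exact h10.mul_left _

theorem fac_two (F : Fac D) : ∃ c : Eis, D = (-2) ^ (F.E (-2) - 2) * c ∧ ¬ (-2 : Eis) ∣ c := by
  have := CM27.eis_isDomain
  obtain ⟨r, hr, hnr⟩ := fac_rest F F.h2
  obtain ⟨n, hn⟩ : ∃ n, F.E (-2) = n + 2 := ⟨F.E (-2) - 2, by have := F.hE2; omega⟩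
  have h40 : (4 : Eis) ≠ 0 := by decide
  have h1 : F.Ds = (-2) ^ n * r := by
    apply mul_left_cancel₀ h40
    rw [hr, hn, pow_add]
    ring
  have h2 : F.E (-2) - 2 = n := by omega
  rw [h2]
  refine ⟨F.η * CU.om ^ F.i * la ^ F.v * r, ?_, ?_⟩
  · have h10 := F.hD
    rw [h1] at h10
    exact h10.trans (by ring)
  · exact d1b1_unit F JL.b3_two JL.b3_twoP hnr

theorem fac_la (F : Fac D) : ∃ c : Eis, D = la ^ F.v * c ∧ la ∣ c - F.η := by
  refine ⟨F.η * CU.om ^ F.i * F.Ds, ?_, ?_⟩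
  · exact F.hD.trans (by ring)
  · have h1 : la ∣ CU.om ^ F.i - 1 := by
      have h2 : la ∣ CU.om - 1 := ⟨-1, by decide⟩
      have h3 := sub_dvd_pow_sub_pow CU.om 1 F.i
      rw [one_pow] at h3
      exact h2.trans h3
    have h2 : la ∣ F.Ds - 1 := by
      have h3 := F.hDs
      unfold Primary at h3
      have h4 : la ∣ 3 := ⟨-CU.om ^ 2 * la, by decide⟩
      exact h4.trans h3
    have h3 : F.η * CU.om ^ F.i * F.Ds - F.η = (F.η * F.Ds) * (CU.om ^ F.i - 1) + F.η * (F.Ds - 1) := by ring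
    rw [h3]
    exact dvd_add (h1.mul_left _) (h2.mul_left _)

theorem fac_not (F : Fac D) {p : Eis} (hp : Prime p) (hP : Primary p) (h : p ∉ F.S) : ¬ p ∣ D := by
  have h1 : ¬ p ∣ F.Ds := by
    intro h1
    apply d1b1_not_dvd hp hP F.hS (E := F.E) h
    rw [← F.h4]
    exact h1.mul_left _
  have h2 := d1b1_unit F hp hP h1
  rwa [← F.hD] at h2

/-- the exact power is unique -/
theorem D1b2_pow {p x y : Eis} (hp : Prime p) (hx : ¬ p ∣ x) (hy : ¬ p ∣ y) {a b : ℕ}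
    (h : p ^ a * x = p ^ b * y) : a = b ∧ x = y := by
  have hdom : IsDomain Eis := eis_isDomain
  have hlt : ∀ (a b : ℕ) (x y : Eis), ¬ p ∣ x → p ^ a * x = p ^ b * y → ¬ a < b := by
    intro a b x y hx h hab
    obtain ⟨c, rfl⟩ := Nat.exists_eq_add_of_lt hab
    apply hx
    have h1 : p ^ a * x = p ^ a * (p * (p ^ c * y)) := by
      rw [h]
      ring
    rw [mul_left_cancel₀ (pow_ne_zero a hp.ne_zero) h1]
    exact dvd_mul_right _ _
  have hab : a = b := by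
    rcases lt_trichotomy a b with h1 | h1 | h1
    · exact absurd h1 (hlt a b x y hx h)
    · exact h1
    · exact absurd h1 (hlt b a y x hy h.symm)
  subst hab
  exact ⟨rfl, mul_left_cancel₀ (pow_ne_zero a hp.ne_zero) h⟩

theorem parity {D₁ m : Eis} (hD : D = D₁ * m ^ 2) (h0 : D ≠ 0) (hs : Squarefree D₁) {p c : Eis} (hp : Prime p) {e : ℕ}
    (hc : D = p ^ e * c) (hpc : ¬ p ∣ c) :
    (¬ p ∣ D₁ ∧ ∃ (k : ℕ) (m' : Eis), e = 2 * k ∧ m = p ^ k * m' ∧ c = D₁ * m' ^ 2) ∨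
    (∃ (k : ℕ) (m' d : Eis), D₁ = p * d ∧ e = 2 * k + 1 ∧ m = p ^ k * m' ∧ c = d * m' ^ 2) := by
  have hdom : IsDomain Eis := eis_isDomain
  have hpid : IsPrincipalIdealRing Eis := eis_pid
  have hm0 : m ≠ 0 := by
    rintro rfl
    apply h0
    rw [hD]
    ring
  obtain ⟨m', hm, hm'⟩ := (FiniteMultiplicity.of_not_isUnit hp.not_isUnit hm0).exists_eq_pow_mul_and_not_dvd
  obtain ⟨k, hk⟩ : ∃ k, k = multiplicity p m := ⟨_, rfl⟩
  rw [← hk] at hm
  by_cases h1 : p ∣ D₁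
  · right
    obtain ⟨d, hd⟩ := h1
    have hpd : ¬ p ∣ d := by
      rintro ⟨d', rfl⟩
      exact hp.not_isUnit (hs p ⟨d', by rw [hd]; ring⟩)
    have hpx : ¬ p ∣ d * m' ^ 2 := by
      intro h
      rcases hp.dvd_or_dvd h with h | h
      · exact hpd h
      · exact hm' (hp.dvd_of_dvd_pow h)
    have h2 : p ^ e * c = p ^ (2 * k + 1) * (d * m' ^ 2) := by
      rw [← hc, hD, hd, hm]
      ring
    obtain ⟨h3, h4⟩ := D1b2_pow hp hpc hpx h2
    exact ⟨k, m', d, hd, h3, hm, h4⟩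
  · left
    refine ⟨h1, k, m', ?_⟩
    have hpx : ¬ p ∣ D₁ * m' ^ 2 := by
      intro h
      rcases hp.dvd_or_dvd h with h | h
      · exact h1 h
      · exact hm' (hp.dvd_of_dvd_pow h)
    have h2 : p ^ e * c = p ^ (2 * k) * (D₁ * m' ^ 2) := by
      rw [← hc, hD, hm]
      ring
    obtain ⟨h3, h4⟩ := D1b2_pow hp hpc hpx h2
    exact ⟨h3, hm, h4⟩

end JGL
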