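import Pool.Agent.JGL.Ba
import Pool.Agent.JGL.D1b
import Pool.Agent.CUT.X1

/-!
# [JGL-D5] the cubic character, the level

PROOF. Lemmas on `cr`: CUL/X1.lean (`CUL.cr_mul`, `cr_congr`, `cr_neg`, `cr_cases`, `cr_one`, `cr_pow`, `cr_symm`), model JL/B3.lean, JL/B5.lean (`b5_cr`, `b5_cr_prod`). `cc_mul`, `cc_per`: termwise. `cc_full`: for `p ∈ S` with `3 ∣ E p` and `¬ p ∣ x`: `cr p x = zw k`, `zw k ^ 3 = 1`. `cc_zw`. `cc_recip`: for a primary prime `p` and `p ∉ S`: `cc p = ∏_{q ∈ S} cr q p ^ E q = ∏ cr p q ^ E q = cr p (4 Ds)`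
(`cc_full`: `¬ q ∣ p`, `cr_symm`, `cr_mul`, `cr_pow`, `F.h4`). `cc_om`: `cr p om = zw (2 mn p)` (see `JL.c3_om`), `mn` is additive on primary elements (`CUL.x1_mn_mul`): `cc om = zw (∑ E p · 2 mn p) = zw (2 mn (4 Ds)) = zw (2 (2 mn (-2) + mn Ds))`, `mn (-2) = -1` or directly `mn 4 = 1`: `zw (2 (1 + mn Ds))`, `2 + 2 x = 2 - x` in `ZMod 3`. `cc_la`: `cr p la = zw (mo p)` (`CUL.sy_la` in CUT/Q.lean), `mo` additive (`CUL.tx1_mo_mul`), `mo 4 = 1`.
`exists_L`: `f = Q.L.f * ∏ p ∈ TT F Q, p` (primary: `CUL.primary_mul`; not a unit: `Q.L.hfu`), `q x = if IsCoprime x f then Q.L.q x else 0`, `c x = if IsCoprime x f then cc F x else 0`, `ep = Q.L.ep`, `k = 2 - mn Ds`. `Sc F ⊆` divisors of `f` (if `¬ p ∣ Q.L.f` then `p ∈ TT`). `q_per`, `c_per`: `IsCoprime` depends only on the class modulo `f`. `q_non`: `x₀` with `Q.L.q x₀ = -1`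
(so `x₀` is coprime to `Q.L.f`: `Q.L.q_zero`), CRT (the primes of `TT` are coprime to `Q.L.f`, so is their product `P`): `x ≡ x₀ mod Q.L.f`, `x ≡ 1 mod P` is coprime to `f`. `q_om`, `q_neg`, `c_om`: units are coprime to `f`.
-/

set_option autoImplicit false

open NumberField IsDedekindDomain Filter Topology
open scoped Classical ComplexConjugate

namespace JGL

open CM27 JZ
open CU (la eE)
open CUL (Nl ez si ta DS Cont LV IsRep rp cr mn mo zw OT GalU W3 W9)
open JL (N1 KD sD Psi6)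

variable {D D₁ : Eis}

theorem D5_hS (F : Fac D) {p : Eis} (hp : p ∈ Sc F) : Prime p ∧ Primary p :=
  F.hS p (Finset.mem_filter.1 hp).1

theorem D5_cr_sy {p x : Eis} (h : ¬ p ∣ x) : cr p x = zw (CU.sy x p) := by
  rcases CUL.cr_cases p x with ⟨-, h3⟩ | ⟨h3, -⟩
  · exact absurd h3 h
  · exact h3

theorem D5_cr_prod {p : Eis} (hp : Prime p) (hP : Primary p) (S : Finset Eis) (E : Eis → ℕ) :
    cr p (∏ q ∈ S, q ^ E q) = ∏ q ∈ S, cr p q ^ E q := by
  induction S using Finset.induction_on with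
  | empty => rw [Finset.prod_empty, Finset.prod_empty, CUL.cr_one hp hP]
  | insert b S hb ih => rw [Finset.prod_insert hb, Finset.prod_insert hb, CUL.cr_mul hp hP, CUL.cr_pow hp hP, ih]

theorem D5_pow {p : Eis} (hp : Primary p) (n : ℕ) :
    Primary (p ^ n) ∧ mn (p ^ n) = (n : ZMod 3) * mn p ∧ mo (p ^ n) = (n : ZMod 3) * mo p := by
  induction n with
  | zero =>
    rw [pow_zero, Nat.cast_zero, zero_mul, zero_mul]
    exact ⟨CUL.primary_one, by decide, by decide⟩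
  | succ n ih =>
    obtain ⟨h1, h2, h3⟩ := ih
    rw [pow_succ, CUL.x1_mn_mul h1 hp, CUL.tx1_mo_mul h1 hp, h2, h3]
    refine ⟨CUL.primary_mul h1 hp, ?_, ?_⟩
    · push_cast
      ring
    · push_cast
      ring

theorem D5_prod (S : Finset Eis) (E : Eis → ℕ) (h : ∀ p ∈ S, Primary p) :
    Primary (∏ p ∈ S, p ^ E p) ∧ mn (∏ p ∈ S, p ^ E p) = ∑ p ∈ S, (E p : ZMod 3) * mn p ∧
      mo (∏ p ∈ S, p ^ E p) = ∑ p ∈ S, (E p : ZMod 3) * mo p := by
  induction S using Finset.induction_on with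
  | empty =>
    rw [Finset.prod_empty, Finset.sum_empty, Finset.sum_empty]
    exact ⟨CUL.primary_one, by decide, by decide⟩
  | insert q S hq ih =>
    obtain ⟨h1, h2, h3⟩ := ih fun p hp => h p (Finset.mem_insert_of_mem hp)
    obtain ⟨h4, h5, h6⟩ := D5_pow (h q (Finset.mem_insert_self q S)) (E q)
    rw [Finset.prod_insert hq, Finset.sum_insert hq, Finset.sum_insert hq, CUL.x1_mn_mul h4 h1,
      CUL.tx1_mo_mul h4 h1, h2, h3, h5, h6]
    exact ⟨CUL.primary_mul h4 h1, rfl, rfl⟩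

theorem cc_mul (F : Fac D) (x y : Eis) : cc F (x * y) = cc F x * cc F y := by
  unfold cc
  rw [← Finset.prod_mul_distrib]
  refine Finset.prod_congr rfl fun p hp => ?_
  rw [CUL.cr_mul (D5_hS F hp).1 (D5_hS F hp).2, mul_pow]

theorem cc_one (F : Fac D) : cc F 1 = 1 := by
  unfold cc
  refine Finset.prod_eq_one fun p hp => ?_
  rw [CUL.cr_one (D5_hS F hp).1 (D5_hS F hp).2, one_pow]

theorem cc_per (F : Fac D) {x y : Eis} (h : ∀ p ∈ Sc F, p ∣ x - y) : cc F x = cc F y := by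
  unfold cc
  refine Finset.prod_congr rfl fun p hp => ?_
  rw [CUL.cr_congr (D5_hS F hp).1 (D5_hS F hp).2 (h p hp)]

theorem cc_zw (F : Fac D) {x : Eis} (h : ∀ p ∈ Sc F, ¬ p ∣ x) : ∃ j : ZMod 3, cc F x = zw j := by
  refine ⟨∑ p ∈ Sc F, (F.E p : ZMod 3) * CU.sy x p, ?_⟩
  unfold cc
  rw [← JL.b3_prod]
  refine Finset.prod_congr rfl fun p hp => ?_
  rw [D5_cr_sy (h p hp), CUL.zw_pow]

theorem cc_full (F : Fac D) {x : Eis} (h : ∀ p ∈ F.S, ¬ p ∣ x) : cc F x = ∏ p ∈ F.S, cr p x ^ F.E p := by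
  unfold cc Sc
  refine Finset.prod_subset (Finset.filter_subset _ _) fun p hp hp' => ?_
  have h3 : 3 ∣ F.E p := by
    by_contra h3
    exact hp' (Finset.mem_filter.2 ⟨hp, h3⟩)
  obtain ⟨k, hk⟩ := h3
  have h4 : ((3 * k : ℕ) : ZMod 3) = 0 := by
    rw [Nat.cast_mul, ZMod.natCast_self, zero_mul]
  rw [D5_cr_sy (h p hp), CUL.zw_pow, hk, h4, zero_mul, CUL.zw_zero]

theorem cc_recip (F : Fac D) {p : Eis} (hp : Prime p) (hP : Primary p) (h : p ∉ F.S) : cc F p = cr p (4 * F.Ds) := by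
  have h1 : ∀ q ∈ F.S, ¬ q ∣ p := by
    intro q hq
    refine CUL.not_dvd_of_ne (F.hS q hq).1 hp (F.hS q hq).2 hP ?_
    rintro rfl
    exact h hq
  rw [cc_full F h1, F.h4, D5_cr_prod hp hP]
  exact Finset.prod_congr rfl fun q hq => by rw [CUL.cr_symm (F.hS q hq).1 (F.hS q hq).2 hp hP]

theorem cc_om (F : Fac D) : cc F CU.om = zw (2 - mn F.Ds) := by
  have h0 : IsUnit CU.om := IsUnit.of_pow_eq_one (n := 3) (by decide) (by norm_num)
  have h1 : ∀ p ∈ F.S, ¬ p ∣ CU.om := fun p hp h => (F.hS p hp).1.not_isUnit (isUnit_of_dvd_unit h h0)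
  have h2 : ∀ p ∈ F.S, cr p CU.om ^ F.E p = zw ((F.E p : ZMod 3) * (2 * mn p)) := by
    intro p hp
    rw [D5_cr_sy (h1 p hp), CUL.sy_om (F.hS p hp).1 (F.hS p hp).2, CUL.zw_pow]
  have h3 := (D5_prod F.S F.E fun p hp => (F.hS p hp).2).2.1
  have h4 : mn 4 = 1 := by decide
  have h5 : Primary (4 : Eis) := by
    unfold Primary
    exact ⟨1, by norm_num⟩
  rw [← F.h4, CUL.x1_mn_mul h5 F.hDs, h4] at h3
  rw [cc_full F h1, Finset.prod_congr rfl h2, JL.b3_prod]
  congr 1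
  have h6 : ∑ p ∈ F.S, (F.E p : ZMod 3) * (2 * mn p) = 2 * (1 + mn F.Ds) := by
    rw [h3, Finset.mul_sum]
    refine Finset.sum_congr rfl fun p _ => ?_
    ring
  rw [h6]
  generalize mn F.Ds = t
  revert t
  decide

theorem cc_la (F : Fac D) : cc F la = zw (1 + mo F.Ds) := by
  have h1 : ∀ p ∈ F.S, ¬ p ∣ la := fun p hp => CUL.tq_not_dvd_la (F.hS p hp).1 (F.hS p hp).2
  have h2 : ∀ p ∈ F.S, cr p la ^ F.E p = zw ((F.E p : ZMod 3) * mo p) := by
    intro p hp
    rw [D5_cr_sy (h1 p hp), CUL.sy_la (F.hS p hp).1 (F.hS p hp).2, CUL.zw_pow]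
  have h3 := (D5_prod F.S F.E fun p hp => (F.hS p hp).2).2.2
  have h4 : mo 4 = 1 := by decide
  have h5 : Primary (4 : Eis) := by
    unfold Primary
    exact ⟨1, by norm_num⟩
  rw [← F.h4, CUL.tx1_mo_mul h5 F.hDs, h4] at h3
  rw [cc_full F h1, Finset.prod_congr rfl h2, JL.b3_prod, h3]

theorem Sc_dvd (F : Fac D) (Q : QD D₁) {p : Eis} (hp : p ∈ Sc F) : p ∣ Q.L.f * ∏ p ∈ TT F Q, p := by
  by_cases h : p ∣ Q.L.f
  · exact h.mul_right _
  · refine Dvd.dvd.mul_left ?_ _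
    exact Finset.dvd_prod_of_mem (fun q : Eis => q) (Finset.mem_filter.2 ⟨hp, h⟩)

theorem D5_cop_congr {f x y : Eis} (h : f ∣ x - y) : IsCoprime x f ↔ IsCoprime y f := by
  obtain ⟨k, hk⟩ := h
  have e : x = y + f * k := by linear_combination hk
  rw [e]
  exact IsCoprime.add_mul_left_left_iff

theorem D5_P (F : Fac D) (Q : QD D₁) : IsCoprime Q.L.f (∏ p ∈ TT F Q, p) := by
  have := eis_isDomain
  have := eis_pid
  refine IsCoprime.prod_right fun p hp => ?_
  have h1 := Finset.mem_filter.1 hp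
  exact (((D5_hS F h1.1).1.irreducible.coprime_iff_not_dvd).2 h1.2).symm

theorem exists_L (F : Fac D) (Q : QD D₁) : ∃ L : Lev, IsL F Q L := by
  have hdom := eis_isDomain
  have hpid := eis_pid
  set P : Eis := ∏ p ∈ TT F Q, p with hPdef
  have hPP : Primary P := (JL.b3_mn_prod (TT F Q) fun p hp =>
    (D5_hS F (Finset.mem_filter.1 hp).1).2).1
  have hcopP : IsCoprime Q.L.f P := D5_P F Q
  have hom : IsUnit CU.om := IsUnit.of_pow_eq_one (n := 3) (by decide) (by norm_num)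
  have hun : ∀ u : Eis, IsUnit u → IsCoprime u (Q.L.f * P) := fun u hu => by
    obtain ⟨v, hv⟩ := hu.exists_left_inv
    exact ⟨v, 0, by rw [hv]; ring⟩
  have hdv : ∀ x : Eis, IsCoprime x (Q.L.f * P) → IsCoprime x Q.L.f := fun x hx =>
    hx.of_isCoprime_of_dvd_right (dvd_mul_right _ _)
  have hSc : ∀ x : Eis, IsCoprime x (Q.L.f * P) → ∀ p ∈ Sc F, ¬ p ∣ x := fun x hx p hp hpx =>
    (D5_hS F hp).1.not_isUnit (hx.isUnit_of_dvd' hpx (Sc_dvd F Q hp))
  refine ⟨{ f := Q.L.f * P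
            q := fun x => if IsCoprime x (Q.L.f * P) then Q.L.q x else 0
            c := fun x => if IsCoprime x (Q.L.f * P) then cc F x else 0
            ep := Q.L.ep
            k := 2 - mn F.Ds
            hf := CUL.primary_mul Q.L.hf hPP
            hfu := fun h => Q.L.hfu (isUnit_of_dvd_unit (dvd_mul_right _ _) h)
            hep := Q.L.hep
            q_zero := fun x hx => if_neg hx
            q_pm := fun x hx => by
              rw [if_pos hx]
              exact Q.L.q_pm x (hdv x hx)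
            q_mul := fun x y => ?_
            q_per := fun x y h => ?_
            q_om := by
              rw [if_pos (hun _ hom)]
              exact Q.L.q_om
            q_neg := by
              rw [if_pos (hun _ isUnit_one.neg)]
              exact Q.L.q_neg
            q_non := ?_
            c_zero := fun x hx => if_neg hx
            c_cube := fun x hx => by
              rw [if_pos hx]
              exact cc_zw F (hSc x hx)
            c_mul := fun x y => ?_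
            c_per := fun x y h => ?_
            c_om := by
              rw [if_pos (hun _ hom)]
              exact cc_om F },
    ⟨rfl, fun x hx => if_pos hx, rfl, rfl, fun x hx => if_pos hx⟩⟩
  · by_cases hx : IsCoprime x (Q.L.f * P)
    · by_cases hy : IsCoprime y (Q.L.f * P)
      · rw [if_pos hx, if_pos hy, if_pos (hx.mul_left hy), Q.L.q_mul]
      · rw [if_neg hy, if_neg (fun h => hy (IsCoprime.mul_left_iff.1 h).2), mul_zero]
    · rw [if_neg hx, if_neg (fun h => hx (IsCoprime.mul_left_iff.1 h).1), zero_mul]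
  · have h1 := D5_cop_congr h
    by_cases hx : IsCoprime x (Q.L.f * P)
    · rw [if_pos hx, if_pos (h1.1 hx)]
      exact Q.L.q_per x y ((dvd_mul_right _ _).trans h)
    · rw [if_neg hx, if_neg (fun hy => hx (h1.2 hy))]
  · obtain ⟨x₀, hx₀⟩ := Q.L.q_non
    obtain ⟨u, v, huv⟩ := hcopP
    have h1 : Q.L.f ∣ (x₀ * (v * P) + u * Q.L.f) - x₀ := ⟨u - x₀ * u, by linear_combination x₀ * huv⟩
    have h2 : P ∣ (x₀ * (v * P) + u * Q.L.f) - 1 := ⟨x₀ * v - v, by linear_combination huv⟩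
    have h3 : Q.L.q (x₀ * (v * P) + u * Q.L.f) = -1 := by rw [Q.L.q_per _ _ h1, hx₀]
    have h4 : IsCoprime (x₀ * (v * P) + u * Q.L.f) Q.L.f := by
      by_contra hc
      rw [Q.L.q_zero _ hc] at h3
      norm_num at h3
    have h5 : IsCoprime (x₀ * (v * P) + u * Q.L.f) P := (D5_cop_congr h2).2 isCoprime_one_left
    exact ⟨_, by rw [if_pos (h4.mul_right h5)]; exact h3⟩
  · by_cases hx : IsCoprime x (Q.L.f * P)
    · by_cases hy : IsCoprime y (Q.L.f * P)
      · rw [if_pos hx, if_pos hy, if_pos (hx.mul_left hy), cc_mul]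
      · rw [if_neg hy, if_neg (fun h => hy (IsCoprime.mul_left_iff.1 h).2), mul_zero]
    · rw [if_neg hx, if_neg (fun h => hx (IsCoprime.mul_left_iff.1 h).1), zero_mul]
  · have h1 := D5_cop_congr h
    by_cases hx : IsCoprime x (Q.L.f * P)
    · rw [if_pos hx, if_pos (h1.1 hx)]
      exact cc_per F fun p hp => (Sc_dvd F Q hp).trans h
    · rw [if_neg hx, if_neg (fun hy => hx (h1.2 hy))]

end JGL
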