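import Pool.Agent.JGL.D4
import Pool.Agent.JGL.D5

/-!
# [JGL-D7] the Hecke character on primary elements

PROOF. Models JL/B5.lean (`b5_qs`, `b5_psv`, `Psi6_span`), JX/B1.lean (`b1_psv`, `Psi6_spanX`). `cr_four`: `4 D = η ω ^ i la ^ v (4 Ds)`, `cr p η = 1`, `cr p ω = zw (2 mn p)` (`CUL.sy_om`), `cr p la = zw (mo p)` (`CUL.sy_la` in CUT/Q.lean), `cr p (4 Ds) = cc F p` (`cc_recip`); `conj (ka (-v) i p) = zw (v mo p - i mn p)`.
`psi_prime`: `emb (psv6 (eE D) v) = qs (eE D) v · cr p (4 D) · emb p` (as in `JL.b5_psv`; `CUL.cs_eq`), `JL.b5_qs`. If `p ∣ D`: both sides are `0`: `p ∈ S` (`fac_not`), `D = p ^ E c` (`fac_pow`), `parity`: either `p ∣ D₁`, so `p ∣ Q.L.f` (`dvd_f_iff`, `dvd_disc_iff`), or `E = 2 k` is `2` or `4` (`E ≠ 0`, `E < 6`), so `p ∈ Sc F` and `p ∣ L.f` (`Sc_dvd`, `hL.hf`): `L.chi p = 0` (`chi_ne_zero_iff` in Ba.lean).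
If `¬ p ∣ D`: `¬ p ∣ D₁`, `p ∉ S` (`fac_pow`), `p` is prime to `L.f` (`p ∣ Q.L.f` iff `p ∣ D₁`; `TT ⊆ S`), `L.q p = Q.L.q p = ± 1`, `= 1` iff `D₁` is a square modulo `p` (`q_prime`) iff `D = D₁ m²` is (`m` is invertible modulo `p`) iff `qs = 1`; `L.c p = cc F p` (`hL.hc`).
`psi_D`: `CUL.primary_induction` as in `JX.Psi6_spanX`; `JG.PsiG = NAB.cm (JG.psvG ..)`, `NAB.cm_one`, `NAB.cm_mul`, `NAB.cm_prime`; at a primary prime `p` and its place `v = (p)`: `JG.psvG`: if `p = -2`, `v = (2)` (`eE (-2) = - eE 2`, the same ideal) the value is `p₂`, `h2`; otherwise `v ≠ (2)` (`2` and `p` would be associated, `p = -2`), `v ≠ (la)` (`p` is primary): `psi_prime`. `L.chi` and `ka` are multiplicative (`chi_mul` in Ba.lean; `CUL.x1_mn_mul`, `CUL.tx1_mo_mul`).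
-/

set_option autoImplicit false

open NumberField IsDedekindDomain Filter Topology
open scoped Classical ComplexConjugate

namespace JGL

open CM27 JZ
open CU (la eE)
open CUL (Nl ez si ta DS Cont LV IsRep rp cr mn mo zw OT GalU W3 W9)
open JL (N1 KD sD Psi6)

variable {D D₁ : Eis}

theorem ka_mul (a i : ZMod 3) {x y : Eis} (hx : Primary x) (hy : Primary y) : ka a i (x * y) = ka a i x * ka a i y := by
  unfold ka
  rw [CUL.tx1_mo_mul hx hy, CUL.x1_mn_mul hx hy, ← CUL.zw_add]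
  congr 1
  ring


theorem cr_four (F : Fac D) {p : Eis} (hp : Prime p) (hP : Primary p) (h : p ∉ F.S) :
    cr p (4 * D) = cc F p * conj (ka (-(F.v : ZMod 3)) F.i p) := by
  have e1 : cr p F.η = 1 := by
    rcases F.hη with h | h
    · rw [h, CUL.cr_one hp hP]
    · rw [h, CUL.cr_neg hp hP, CUL.cr_one hp hP]
  have e2 : cr p CU.om = zw (2 * mn p) := by
    rcases CUL.cr_cases p CU.om with ⟨-, h1⟩ | ⟨h1, -⟩
    · exact absurd (isUnit_of_dvd_unit h1 JL.b4_om) hp.not_isUnit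
    · rw [h1, CUL.sy_om hp hP]
  have e3 : cr p la = zw (mo p) := by
    rcases CUL.cr_cases p la with ⟨-, h1⟩ | ⟨h1, -⟩
    · exact absurd ((CUL.cop_la hP).isUnit_of_dvd' dvd_rfl h1) hp.not_isUnit
    · rw [h1, CUL.sy_la hp hP]
  have e4 : 4 * D = F.η * (CU.om ^ F.i * (la ^ F.v * (4 * F.Ds))) := by
    calc 4 * D = 4 * (F.η * CU.om ^ F.i * la ^ F.v * F.Ds) := by rw [← F.hD]
      _ = _ := by ring
  rw [e4, CUL.cr_mul hp hP, CUL.cr_mul hp hP, CUL.cr_mul hp hP, CUL.cr_pow hp hP, CUL.cr_pow hp hP, e1, e2, e3,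
    one_mul, ← cc_recip F hp hP h, CUL.zw_pow, CUL.zw_pow]
  unfold ka
  rw [CUL.zw_conj]
  have e5 : zw ((F.i : ZMod 3) * (2 * mn p)) * zw ((F.v : ZMod 3) * mo p) =
      zw (-(-(F.v : ZMod 3) * mo p + F.i * mn p)) := by
    rw [← CUL.zw_add]
    congr 1
    have h2 : (2 : ZMod 3) = -1 := by decide
    rw [h2]
    ring
  rw [← e5]
  ring


omit D D₁ in
theorem d7a_ndvd_two {p : Eis} (hp : Prime p) (hP : Primary p) (h2 : p ≠ -2) : ¬ p ∣ 2 := by
  intro h
  have hdom := CM27.eis_isDomain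
  have h3 : p ∣ -2 := (dvd_neg).2 h
  exact h2 (CUL.primary_assoc hP JL.b3_twoP (hp.associated_of_dvd JL.b3_two h3))

theorem psi_prime (F : Fac D) {Q : QD D₁} {L : Lev} (hL : IsL F Q L) {m : Eis} (hD : D = D₁ * m ^ 2) (h0 : D ≠ 0) {p : Eis}
    (hp : Prime p) (hP : Primary p) (h2 : p ≠ -2) (v : HeightOneSpectrum (𝓞 CF.KK)) (hv : v.asIdeal = Ideal.span {eE p}) :
    emb (JL.psv6 (eE D) v) = L.chi p * conj (ka (-(F.v : ZMod 3)) F.i p) * emb p := by
  have hdom := CM27.eis_isDomain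
  have hpid := CM27.eis_pid
  have hp2 := d7a_ndvd_two hp hP h2
  have hex : ∃ b : Eis, Primary b ∧ Prime b ∧ eE b ∈ v.asIdeal := ⟨p, hP, hp, (CUL.x2_mem hv p).2 dvd_rfl⟩
  have h5 : (4 : 𝓞 CF.KK) * eE D = eE (4 * D) := by
    rw [map_mul, map_ofNat]
  unfold JL.psv6
  rw [dif_pos hex, map_mul, map_mul, h5, CUL.cs_eq hp hP (4 * D) v hv, JL.b5_qs D v hv, map_intCast]
  obtain ⟨g1, g2, g3⟩ := hex.choose_spec
  rw [CUL.x2_mem hv] at g3
  have h4 : Associated p hex.choose := hp.associated_of_dvd g2 g3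
  rw [← CUL.primary_assoc hP g1 h4]
  congr 1
  by_cases hpD : p ∣ D
  · rw [if_pos hpD, Int.cast_zero, zero_mul]
    have hpS : p ∈ F.S := by
      by_contra h
      exact fac_not F hp hP h hpD
    obtain ⟨c, hc, hpc⟩ := fac_pow F hpS h2
    have hpf : p ∣ L.f := by
      rcases parity hD h0 Q.sqf hp hc hpc with ⟨-, k, m', hk, -, -⟩ | ⟨k, m', d, hd, -⟩
      · have h6 := F.hE6 p hpS h2
        have h7 := F.hE p hpS
        rw [hL.hf]
        exact Sc_dvd F Q (Finset.mem_filter.2 ⟨hpS, by omega⟩)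
      · rw [hL.hf]
        refine Dvd.dvd.mul_right ?_ _
        rw [dvd_f_iff Q hp hP, dvd_disc_iff Q hp hp2]
        exact ⟨d, hd⟩
    have h8 : L.chi p = 0 := by
      by_contra h9
      exact hp.not_isUnit (((chi_ne_zero_iff L p).1 h9).isUnit_of_dvd' dvd_rfl hpf)
    rw [h8, zero_mul]
  · rw [if_neg hpD]
    have hpD₁ : ¬ p ∣ D₁ := fun h => hpD (by rw [hD]; exact h.mul_right _)
    have hpm : ¬ p ∣ m := fun h => hpD (by rw [hD, pow_two]; exact (h.mul_right _).mul_left _)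
    have hpS : p ∉ F.S := by
      intro h
      obtain ⟨c, hc, -⟩ := fac_pow F h h2
      apply hpD
      rw [hc]
      exact (dvd_pow_self p (F.hE p h)).mul_right c
    have hpf : ¬ p ∣ L.f := by
      rw [hL.hf]
      intro h
      rcases hp.dvd_or_dvd h with h6 | h6
      · rw [dvd_f_iff Q hp hP, dvd_disc_iff Q hp hp2] at h6
        exact hpD₁ h6
      · obtain ⟨q, hq, hpq⟩ := (Prime.dvd_finsetProd_iff hp _).1 h6
        have hqS : q ∈ F.S := (Finset.mem_filter.1 (Finset.mem_filter.1 hq).1).1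
        have h7 := CUL.primary_assoc hP (F.hS q hqS).2 (hp.associated_of_dvd (F.hS q hqS).1 hpq)
        rw [h7] at hpS
        exact hpS hqS
    have hcop : IsCoprime p L.f := (hp.irreducible.coprime_iff_not_dvd).2 hpf
    have hsq : (∃ y : Eis, p ∣ y ^ 2 - D) ↔ ∃ y : Eis, p ∣ y ^ 2 - D₁ := by
      constructor
      · rintro ⟨y, hy⟩
        obtain ⟨u, w', huw⟩ : IsCoprime m p := ((hp.irreducible.coprime_iff_not_dvd).2 hpm).symm
        refine ⟨y * u, ?_⟩
        have e : (y * u) ^ 2 - D₁ = (y ^ 2 - D) * u ^ 2 + p * (-(D₁ * w' * (1 + u * m))) := by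
          linear_combination (u ^ 2) * hD + D₁ * (1 + u * m) * huw
        rw [e]
        exact dvd_add (hy.mul_right _) (dvd_mul_right _ _)
      · rintro ⟨y, hy⟩
        refine ⟨y * m, ?_⟩
        have e : (y * m) ^ 2 - D = (y ^ 2 - D₁) * m ^ 2 := by
          linear_combination -hD
        rw [e]
        exact hy.mul_right _
    have hqs : (if ∃ y : Eis, p ∣ y ^ 2 - D then (1 : ℤ) else -1) = L.q p := by
      rw [hL.hq p hcop]
      have h9 := q_prime Q hp hP h2 hpD₁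
      rw [← hsq] at h9
      by_cases h10 : ∃ y : Eis, p ∣ y ^ 2 - D
      · rw [if_pos h10, h9.2 h10]
      · rw [if_neg h10]
        rcases L.q_pm p hcop with h11 | h11
        · rw [hL.hq p hcop] at h11
          exact absurd (h9.1 h11) h10
        · rw [hL.hq p hcop] at h11
          exact h11.symm
    rw [hqs, cr_four F hp hP hpS, ← mul_assoc]
    unfold Lev.chi
    rw [hL.hc p hcop]


omit D D₁ in
theorem d7b_two {v : HeightOneSpectrum (𝓞 CF.KK)} {p : Eis} (hp : Prime p) (hP : Primary p)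
    (hv : v.asIdeal = Ideal.span {eE p}) (h : v.asIdeal = Ideal.span {eE (2 : Eis)}) : p = -2 := by
  have hdom := CM27.eis_isDomain
  have h1 : eE (2 : Eis) ∈ v.asIdeal := by
    rw [h]
    exact Ideal.mem_span_singleton_self _
  have h2 : p ∣ 2 := (CUL.x2_mem hv 2).1 h1
  have h3 : p ∣ -2 := (dvd_neg).2 h2
  exact CUL.primary_assoc hP JL.b3_twoP (hp.associated_of_dvd JL.b3_two h3)

omit D D₁ in
theorem d7b_la {v : HeightOneSpectrum (𝓞 CF.KK)} {p : Eis} (hp : Prime p) (hP : Primary p)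
    (hv : v.asIdeal = Ideal.span {eE p}) : ¬ v.asIdeal = Ideal.span {eE la} := by
  intro h
  have h1 : eE la ∈ v.asIdeal := by
    rw [h]
    exact Ideal.mem_span_singleton_self _
  have h2 : p ∣ la := (CUL.x2_mem hv la).1 h1
  exact hp.not_isUnit ((CUL.cop_la hP).isUnit_of_dvd' dvd_rfl h2)

theorem psi_D (F : Fac D) {Q : QD D₁} {L : Lev} (hL : IsL F Q L) {m : Eis} (hD : D = D₁ * m ^ 2) (h0 : D ≠ 0) {p₂ pl : Eis}
    (h2 : emb p₂ = L.chi (-2) * conj (ka (-(F.v : ZMod 3)) F.i (-2)) * emb (-2)) {b : Eis} (hb : Primary b) :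
    emb (JG.PsiG D p₂ pl (Ideal.span {eE b})) = L.chi b * conj (ka (-(F.v : ZMod 3)) F.i b) * emb b := by
  refine (CUL.primary_induction (P := fun b => emb (JG.PsiG D p₂ pl (Ideal.span {eE b})) =
    L.chi b * conj (ka (-(F.v : ZMod 3)) F.i b) * emb b ∧ Primary b) ?_ ?_ hb).1
  · have h1 : (Ideal.span {eE 1} : Ideal (𝓞 CF.KK)) = 1 := by
      rw [map_one, Ideal.span_singleton_one, Ideal.one_eq_top]
    have h3 : L.chi 1 = 1 := by
      unfold Lev.chi
      rw [q_one, c_one, Int.cast_one, one_mul]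
    have h4 : ka (-(F.v : ZMod 3)) F.i 1 = 1 := by
      unfold ka
      have e1 : mo 1 = 0 := by decide
      have e2 : mn 1 = 0 := by decide
      rw [e1, e2, mul_zero, mul_zero, add_zero, CUL.zw_zero]
    refine ⟨?_, CU.primary_one⟩
    show emb (JG.PsiG D p₂ pl (Ideal.span {eE 1})) = L.chi 1 * conj (ka (-(F.v : ZMod 3)) F.i 1) * emb 1
    unfold JG.PsiG
    rw [h1, NAB.cm_one, map_one, mul_one, h3, h4, map_one, mul_one]
  · intro p c hp hP hc ih
    obtain ⟨v, hv⟩ := CUL.x2_exists_v hp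
    refine ⟨?_, hP.mul hc⟩
    show emb (JG.PsiG D p₂ pl (Ideal.span {eE (p * c)})) =
      L.chi (p * c) * conj (ka (-(F.v : ZMod 3)) F.i (p * c)) * emb (p * c)
    have h3 : emb (JG.PsiG D p₂ pl (Ideal.span {eE p})) =
        L.chi p * conj (ka (-(F.v : ZMod 3)) F.i p) * emb p := by
      rw [← hv]
      unfold JG.PsiG
      rw [NAB.cm_prime]
      unfold JG.psvG
      by_cases hp2 : p = -2
      · have h5 : v.asIdeal = Ideal.span {eE (2 : Eis)} := by
          rw [hv, hp2, map_neg, Ideal.span_singleton_neg]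
        rw [if_pos h5, hp2]
        exact h2
      · rw [if_neg (fun h5 => hp2 (d7b_two hp hP hv h5)), if_neg (d7b_la hp hP hv)]
        exact psi_prime F hL hD h0 hp hP hp2 v hv
    have h6 : JG.PsiG D p₂ pl (Ideal.span {eE p} * Ideal.span {eE c}) =
        JG.PsiG D p₂ pl (Ideal.span {eE p}) * JG.PsiG D p₂ pl (Ideal.span {eE c}) := by
      unfold JG.PsiG
      rw [NAB.cm_mul]
    rw [CUL.x2_span_mul, h6, map_mul, h3, ih.1, chi_mul, map_mul, ka_mul _ _ hP hc, map_mul]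
    ring


end JGL
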