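import Pool.Agent.JGL.GL1
import Pool.Agent.JL.H2
import Pool.Agent.JX.H1

/-!
# [JGL-GL2] good reduction at `λ`: the data, the continuation
-/

set_option autoImplicit false

open NumberField IsDedekindDomain Filter Topology
open scoped Classical ComplexConjugate

namespace JGL

open CM27 JZ
open CU (la eE)
open CUL (Nl ez si ta DS Cont LV IsRep rp cr mn mo zw OT GalU W3 W9)
open JL (N1 KD sD Psi6)

variable {D : Eis}

theorem gl2_pow {a b : ℕ} {X Y : Eis} (hX : ¬ la ∣ X) (hY : ¬ la ∣ Y) (h : la ^ a * X = la ^ b * Y) : a = b ∧ X = Y := by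
  have := CM27.eis_isDomain
  have h0 : la ≠ 0 := CU.la_prime.ne_zero
  have key : ∀ (a b : ℕ) (X Y : Eis), ¬ la ∣ X → la ^ a * X = la ^ b * Y → b ≤ a := by
    intro a b X Y hX h
    by_contra hlt
    obtain ⟨n, hn⟩ : ∃ n, b = a + (n + 1) := ⟨b - a - 1, by omega⟩
    rw [hn, pow_add, mul_assoc] at h
    have h1 := mul_left_cancel₀ (pow_ne_zero a h0) h
    apply hX
    rw [h1, pow_succ]
    exact ⟨la ^ n * Y, by ring⟩
  have h1 := key a b X Y hX h
  have h2 := key b a Y X hY h.symm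
  have h3 : a = b := le_antisymm h2 h1
  subst h3
  exact ⟨rfl, mul_left_cancel₀ (pow_ne_zero a h0) h⟩

theorem gl2_three (x : Eis) : (3 : Eis) ∣ x ↔ (3 : ℤ) ∣ x.re ∧ (3 : ℤ) ∣ x.im := by
  have e1 : (3 : Eis) = ⟨3, 0⟩ := rfl
  constructor
  · rintro ⟨t, rfl⟩
    rw [e1, QuadraticAlgebra.re_mul, QuadraticAlgebra.im_mul]
    simp only [mul_zero, zero_mul, add_zero]
    exact ⟨dvd_mul_right _ _, dvd_mul_right _ _⟩
  · rintro ⟨⟨a, ha⟩, b, hb⟩
    refine ⟨⟨a, b⟩, ?_⟩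
    rw [e1]
    ext
    · rw [QuadraticAlgebra.re_mul]
      simp only [mul_zero, zero_mul, add_zero]
      exact ha
    · rw [QuadraticAlgebra.im_mul]
      simp only [mul_zero, zero_mul, add_zero]
      exact hb

theorem gl2_fin {η ξ : Eis} (hη : η = 1 ∨ η = -1) (hξ : ξ = 1 ∨ ξ = -1) {i : ℕ} (hi : i < 3)
    (h : (3 : Eis) ∣ η - ξ * CU.om ^ i) : i = 0 ∧ η = ξ := by
  rw [gl2_three] at h
  interval_cases i
  · refine ⟨rfl, ?_⟩
    rcases hη with rfl | rfl <;> rcases hξ with rfl | rfl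
    · rfl
    · exact absurd h (by decide)
    · exact absurd h (by decide)
    · rfl
  · exfalso
    rcases hη with rfl | rfl <;> rcases hξ with rfl | rfl <;> exact absurd h (by decide)
  · exfalso
    rcases hη with rfl | rfl <;> rcases hξ with rfl | rfl <;> exact absurd h (by decide)

theorem gl_data (d : Dat D) (h : JG.GoodL D) : d.v = 3 ∧ d.i = 0 ∧ d.L.k = 2 := by
  have := CM27.eis_isDomain
  obtain ⟨η, c, hη, hD⟩ := h
  have hla1 : ¬ la ∣ 1 := fun h1 => CU.la_prime.not_isUnit (isUnit_of_dvd_one h1)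
  have hηu : ∀ x : Eis, x = 1 ∨ x = -1 → IsUnit x := by
    rintro x (hx | hx)
    · rw [hx]; exact isUnit_one
    · rw [hx]; exact isUnit_one.neg
  have hX : ¬ la ∣ η + la ^ 3 * c := by
    intro h1
    have h2 : la ∣ η := by
      have h3 : η = (η + la ^ 3 * c) - la * (la ^ 2 * c) := by ring
      rw [h3]
      exact dvd_sub h1 (dvd_mul_right _ _)
    exact CU.la_prime.not_isUnit (isUnit_of_dvd_unit h2 (hηu η hη))
  have hY : ¬ la ∣ d.η * CU.om ^ d.i * d.Ds := by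
    intro h1
    rcases CU.la_prime.dvd_or_dvd h1 with h2 | h2
    · exact CU.la_prime.not_isUnit (isUnit_of_dvd_unit h2 ((hηu _ d.hη).mul (CU.om_unit.pow _)))
    · exact CUL.primary_not_la d.hDs h2
  have h1 : la ^ 3 * (η + la ^ 3 * c) = la ^ d.v * (d.η * CU.om ^ d.i * d.Ds) := by
    rw [← hD]
    exact d.hD'.trans (by ring)
  obtain ⟨hv, he⟩ := gl2_pow hX hY h1
  have h3la : (3 : Eis) ∣ la ^ 3 := CUL.x1_three_dvd
  have h2 : (3 : Eis) ∣ η - d.η * CU.om ^ d.i := by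
    have h3 : (3 : Eis) ∣ d.Ds - 1 := d.hDs
    have h4 : η - d.η * CU.om ^ d.i = d.η * CU.om ^ d.i * (d.Ds - 1) - la ^ 3 * c := by linear_combination he
    rw [h4]
    exact dvd_sub (h3.mul_left _) (h3la.mul_right _)
  obtain ⟨hi, hηη⟩ := gl2_fin hη d.hη d.hi h2
  refine ⟨hv.symm, hi, ?_⟩
  have hη2 : η * η = 1 := by
    rcases hη with rfl | rfl
    · ring
    · ring
  have h5 : la ^ 3 ∣ d.Ds - 1 := by
    rw [hi, pow_zero, mul_one, ← hηη] at he
    exact ⟨η * c, by linear_combination (-η) * he - (d.Ds - 1) * hη2⟩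
  have h6 : mn d.Ds = mn 1 := CUL.x1_mn_congr d.hDs h5
  have h7 : mn 1 = 0 := by decide
  rw [d.hk, h6, h7, sub_zero]

theorem gl2_ka (d : Dat D) (h : JG.GoodL D) (x : Eis) : ka (-(d.v : ZMod 3)) d.i x = 1 := by
  obtain ⟨hv, hi, -⟩ := gl_data d h
  have h1 : -((d.v : ℕ) : ZMod 3) = 0 := by rw [hv]; decide
  unfold ka
  rw [h1, hi, Nat.cast_zero, zero_mul, zero_mul, add_zero, CUL.zw_zero]

/-- the values of the Hecke character -/
noncomputable def gl2_P (d : Dat D) (x : Eis) : ℂ := emb (JG.PsiG D d.p₂ d.pl (Ideal.span {eE x}))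

theorem gl2_P_mul (d : Dat D) (x y : Eis) : gl2_P d (x * y) = gl2_P d x * gl2_P d y := by
  unfold gl2_P JG.PsiG
  rw [CUL.x2_span_mul, NAB.cm_mul, map_mul]

theorem gl2_P_unit (d : Dat D) {x : Eis} (hx : IsUnit x) : gl2_P d x = 1 := by
  unfold gl2_P JG.PsiG
  have h1 : (Ideal.span {eE x} : Ideal (𝓞 CF.KK)) = 1 := by
    rw [Ideal.one_eq_top, Ideal.span_singleton_eq_top]
    exact hx.map eE
  rw [h1, NAB.cm_one, map_one]

theorem gl2_P_la (d : Dat D) (h : JG.GoodL D) : gl2_P d la = d.L.chi la * emb la := by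
  obtain ⟨v, hv⟩ := CUL.x2_exists_v CUL.la_prime
  have h1 : JG.psvG D d.p₂ d.pl v = d.pl := by
    unfold JG.psvG
    rw [if_neg, if_pos hv]
    intro h2
    rw [hv] at h2
    have h3 : eE la ∈ (Ideal.span {eE 2} : Ideal (𝓞 CF.KK)) := by
      rw [← h2]
      exact Ideal.mem_span_singleton_self _
    rw [Ideal.mem_span_singleton, CUL.l6_dvd] at h3
    obtain ⟨m, hm⟩ := h3
    have h4 := congrArg QuadraticAlgebra.re hm
    have e1 : (2 : Eis) = ⟨2, 0⟩ := rfl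
    have e2 : (la : Eis).re = 1 := by decide
    rw [e1, e2, QuadraticAlgebra.re_mul] at h4
    simp only [mul_zero, zero_mul, add_zero] at h4
    omega
  unfold gl2_P JG.PsiG
  rw [← hv, NAB.cm_prime, h1, d.pl_eq h]

theorem gl2_P_eq (d : Dat D) (h : JG.GoodL D) {x : Eis} (hx : x ≠ 0) : gl2_P d x = d.L.chi x * emb x := by
  obtain ⟨hv, hi, hk⟩ := gl_data d h
  have hep : d.L.ep = 1 := by rw [d.hep, hv]
  obtain ⟨k, b, rfl, hb⟩ := CUL.g6_split hx
  obtain ⟨u, hu, hP⟩ := CUL.l6_prim hb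
  have h1 : ∀ k : ℕ, gl2_P d (la ^ k) = d.L.chi (la ^ k) * emb (la ^ k) := by
    intro k
    induction k with
    | zero =>
      rw [pow_zero, gl2_P_unit d isUnit_one, gl1_chi_one, map_one, one_mul]
    | succ k ih =>
      rw [pow_succ, gl2_P_mul, ih, gl2_P_la d h, chi_mul, map_mul]
      ring
  have h2 : gl2_P d (u * b) = d.L.chi (u * b) * emb (u * b) := by
    unfold gl2_P
    rw [d.psi _ hP, gl2_ka d h, map_one, mul_one]
  have h3 := gl1_unit d.L hep hk hu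
  rw [gl2_P_mul, gl2_P_unit d hu, one_mul] at h2
  rw [gl2_P_mul, h1, h2, chi_mul, chi_mul, map_mul, map_mul]
  linear_combination (d.L.chi (la ^ k) * emb (la ^ k) * d.L.chi b * emb b) * h3

theorem gl2_gen (I : Ideal (𝓞 CF.KK)) : ∃ b : Eis, I = Ideal.span {eE b} := by
  rcases CUL.l6_cases I with ⟨b, -, h⟩ | ⟨b, -, h⟩
  · exact ⟨b, h⟩
  · exact ⟨b, h⟩

theorem gl2_norm (d : Dat D) (h : JG.GoodL D) (I : Ideal (𝓞 CF.KK)) (hI : I ≠ 0) :
    ‖conj (emb (JG.PsiG D d.p₂ d.pl I))‖ ^ 2 ≤ Ideal.absNorm I := by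
  obtain ⟨b, rfl⟩ := gl2_gen I
  have hb : b ≠ 0 := by
    rintro rfl
    apply hI
    rw [map_zero, Ideal.span_singleton_eq_bot.2 rfl]
    rfl
  have h1 : emb (JG.PsiG D d.p₂ d.pl (Ideal.span {eE b})) = d.L.chi b * emb b := gl2_P_eq d h hb
  rw [h1, Complex.norm_conj, norm_mul, mul_pow, CUL.l6_absNorm, CUL.l6_norm]
  have h2 : ‖d.L.chi b‖ ^ 2 ≤ 1 := pow_le_one₀ (norm_nonneg _) (chi_norm d.L b)
  calc ‖d.L.chi b‖ ^ 2 * ((b.norm.natAbs : ℕ) : ℝ) ≤ 1 * ((b.norm.natAbs : ℕ) : ℝ) :=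
        mul_le_mul_of_nonneg_right h2 (Nat.cast_nonneg _)
    _ = _ := one_mul _

/-- every nonzero ideal has six generators -/
theorem gl2_fiber (I : Ideal (𝓞 CF.KK)) (G : Ideal (𝓞 CF.KK) → ℂ) (h0 : G 0 = 0) :
    ∑' b : (fun x : Eis => (Ideal.span {eE x} : Ideal (𝓞 CF.KK))) ⁻¹' {I}, G (Ideal.span {eE (b : Eis)}) = 6 * G I := by
  have := CM27.eis_isDomain
  have h1 : ∀ b : (fun x : Eis => (Ideal.span {eE x} : Ideal (𝓞 CF.KK))) ⁻¹' {I},
      G (Ideal.span {eE (b : Eis)}) = G I := by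
    rintro ⟨b, hb⟩
    have hb' : Ideal.span {eE b} = I := hb
    show G (Ideal.span {eE b}) = G I
    rw [hb']
  rw [tsum_congr h1]
  by_cases hI : I = 0
  · rw [hI, h0, tsum_zero, mul_zero]
  · obtain ⟨b, hb⟩ := gl2_gen I
    have hb0 : b ≠ 0 := by
      rintro rfl
      apply hI
      rw [hb, map_zero, Ideal.span_singleton_eq_bot.2 rfl]
      rfl
    have h2 : (fun x : Eis => (Ideal.span {eE x} : Ideal (𝓞 CF.KK))) ⁻¹' {I} =
        ((JL.b4U.image (fun ζ => ζ * b) : Finset Eis) : Set Eis) := by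
      ext x
      rw [Finset.mem_coe, Finset.mem_image, Set.mem_preimage, Set.mem_singleton_iff]
      constructor
      · intro hx
        rw [hb] at hx
        have h3 : Associated (eE x) (eE b) := Ideal.span_singleton_eq_span_singleton.1 hx
        have h4 : Associated x b := associated_of_dvd_dvd (CUL.l6_dvd.1 h3.dvd) (CUL.l6_dvd.1 h3.symm.dvd)
        obtain ⟨u, hu⟩ := h4.symm
        exact ⟨(u : Eis), JL.b4_mem.2 u.isUnit, by rw [← hu, mul_comm]⟩
      · rintro ⟨ζ, hζ, rfl⟩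
        have h3 := JL.b4_mem.1 hζ
        rw [hb, CUL.x2_span_mul]
        have h4 : (Ideal.span {eE ζ} : Ideal (𝓞 CF.KK)) = 1 := by
          rw [Ideal.one_eq_top, Ideal.span_singleton_eq_top]
          exact h3.map eE
        rw [h4, one_mul]
    rw [h2]
    have h5 : ∑' _ : ((JL.b4U.image (fun ζ => ζ * b) : Finset Eis) : Set Eis), G I =
        ∑ _ ∈ JL.b4U.image (fun ζ => ζ * b), G I :=
      Finset.tsum_subtype' (JL.b4U.image (fun ζ => ζ * b)) (fun _ => G I)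
    rw [h5, Finset.sum_const, Finset.card_image_of_injective _ (mul_left_injective₀ hb0), JL.b4_card, nsmul_eq_mul]
    norm_num

theorem gl2_tsum (F : Eis → ℂ) (G : Ideal (𝓞 CF.KK) → ℂ) (h0 : G 0 = 0) (hFG : ∀ x, F x = G (Ideal.span {eE x}))
    (hF : Summable F) : ∑' x, F x = 6 * ∑' I, G I := by
  have h1 := hF.hasSum.tsum_fiberwise (fun x : Eis => (Ideal.span {eE x} : Ideal (𝓞 CF.KK)))
  have h2 : (fun I : Ideal (𝓞 CF.KK) => ∑' b : (fun x : Eis => (Ideal.span {eE x} : Ideal (𝓞 CF.KK))) ⁻¹' {I}, F b) =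
      fun I => 6 * G I := by
    funext I
    rw [← gl2_fiber I G h0]
    exact tsum_congr fun b => hFG b
  rw [h2] at h1
  rw [← h1.tsum_eq, tsum_mul_left]

theorem gl2_IL (d : Dat D) (h : JG.GoodL D) (s : ℂ) (hs : 3 / 2 < s.re) :
    DS (fun x => conj (d.L.chi x)) s =
      6 * LSeries (fun n => NAB.IL CF.KK (fun I => conj (emb (JG.PsiG D d.p₂ d.pl I))) n) s := by
  rw [NAB.LSeries_IL CF.KK _ (gl2_norm d h) s hs, DS]
  refine gl2_tsum _ _ ?_ ?_ ?_
  · rw [NAB.itm, if_pos rfl]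
  · intro x
    by_cases hx : x = 0
    · have h1 : d.L.chi x = 0 := by
        by_contra h2
        have h3 := (chi_ne_zero_iff d.L x).1 h2
        rw [hx, isCoprime_zero_left] at h3
        exact d.L.hfu h3
      have h4 : (Ideal.span {eE x} : Ideal (𝓞 CF.KK)) = 0 := by
        rw [hx, map_zero, Ideal.span_singleton_eq_bot.2 rfl]
        rfl
      rw [h1, map_zero, zero_mul, NAB.itm, if_pos h4]
    · have hpos : 0 < ‖emb x‖ := norm_pos_iff.2 (CUL.l2_emb_ne hx)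
      have h4 : (Ideal.span {eE x} : Ideal (𝓞 CF.KK)) ≠ 0 := by
        intro h5
        have h6 : eE x = 0 := Ideal.span_singleton_eq_bot.1 h5
        exact hx (eE.injective (by rw [h6, map_zero]))
      have h1 : emb (JG.PsiG D d.p₂ d.pl (Ideal.span {eE x})) = d.L.chi x * emb x := gl2_P_eq d h hx
      rw [NAB.itm, if_neg h4, h1, map_mul, CUL.l6_absNorm, gs, ← CUL.l6_pow hpos, CUL.l6_norm]
      push_cast
      ring
  · refine CUL.l2_summable _ (C := 1) (fun a => ?_) s hs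
    rw [Complex.norm_conj]
    exact chi_norm d.L a

theorem gl_entire (d : Dat D) (h : JG.GoodL D) : ∃ Φ : ℂ → ℂ, Differentiable ℂ Φ ∧ (∀ s : ℂ, 3 / 2 < s.re →
    Φ s = LSeries (fun n => NAB.IL CF.KK (fun I => conj (emb (JG.PsiG D d.p₂ d.pl I))) n) s) ∧
    ∃ u : ℂ, ‖u‖ = 1 ∧ Φ 1 = u * OmC / (6 * emb d.L.f) * V1 d.L := by
  have := eis_isDomain
  have hf := f_ne d.L
  obtain ⟨Φ, h1, h2⟩ := CUL.cont_of_periodic hf (fun x => conj (d.L.chi x))
    (fun a b hab => by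
      show conj (d.L.chi a) = conj (d.L.chi b)
      rw [chi_per d.L hab]) (CUL.rp_spec hf)
  refine ⟨fun s => Φ s / 6, h1.1.div_const 6, ?_, 1, norm_one, ?_⟩
  · intro s hs
    show Φ s / 6 = _
    rw [h1.2 s hs, gl2_IL d h s hs]
    ring
  · show Φ 1 / 6 = _
    have hOm : OmC ≠ 0 := OmC_ne
    have hE : ∀ z : ℂ, NAB.E1 z = OmC * ez z := by
      intro z
      rw [CUL.ez]
      field_simp
    have h3 : ∑ c ∈ rp d.L.f, conj (d.L.chi c) * NAB.E1 (emb c / emb d.L.f) = OmC * V1 d.L := by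
      unfold V1
      rw [Finset.mul_sum]
      refine Finset.sum_congr rfl fun c _ => ?_
      rw [hE]
      unfold pt
      ring
    rw [h2, h3]
    have hfe : emb d.L.f ≠ 0 := gl1_emb_f d.L
    field_simp

end JGL
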