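import Pool.Agent.JGL.Defs
import Pool.Agent.CUT.Z

/-!
# [JGL-D6a] the Galois action on the cube roots of `λ ^ a ω ^ i`

PROOF. Let `u` be a unit, `F = F9 2 u 0` (CUT/Defs.lean). `CUL.F9_zero_two` (CUT/F2.lean): `F³ = -(27 yw qh xi 2 u)`, `xi 2 u = zw (2 + 2 us u)`, `yw qh² = -3` (`yw_qh`), so `yw qh = ± (w - w²) = ± w emb la` (`emb la = 1 - w`, `w² + w + 1 = 0`): `F³ = ∓ 27 zw (2 us u) emb la` (`zw 3 = 1`).
`CUL.LV_galT` (CUT/G6.lean) for `t = 2`, `S = ∅` (`Adm u ∅ a`, `pr ∅ = 1`, `GalU.dvd` from `M` to `9 * pr ∅`), with `LV (fT 2 u a ∅) / OmC = lT 2 u a ∅ = RT 2 u a ∅ = 9⁻¹ F` (`CUL.tz_empty`, `CUL.lT_empty_eq`, `CUL.RT_empty`) and `fT 2 u a ∅ g = ct 2 u g = zw (2 mo g + us u (2 mn g))`: `ct 2 u g * σ F = F`, `σ F = zw (mo g + us u mn g) F`.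
So for `j = 0, 1` (`us u = 2 j`: `u = 1`, `u = om ^ 2`; `zw (2 us u) = w ^ j`) there is `r_j` (`r_j = ∓ F / 3`) with `r_j³ = w ^ j emb la`, `σ r_j = zw (mo g + 2 j mn g) r_j`. `s₀ = r₀ ^ a (r₁ / r₀) ^ i`: `s₀³ = w ^ i emb la ^ a = s³`, `s = ζ s₀`, `ζ³ = 1`, `σ ζ = ζ` (`CUL.g3_root`). `r_j ≠ 0`.
-/

set_option autoImplicit false

open NumberField IsDedekindDomain Filter Topology
open scoped Classical ComplexConjugate

namespace JGL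

open CM27 JZ
open CU (la eE)
open CUL (Nl ez si ta DS Cont LV IsRep rp cr mn mo zw OT GalU W3 W9)
open JL (N1 KD sD Psi6)

theorem D6a_us_one : CUL.us (1 : Eis) = 0 := by decide

theorem D6a_us_sq : CUL.us (CU.om ^ 2 : Eis) = 2 := by decide

theorem D6a_sq : yw CUL.qh = w * emb la ∨ yw CUL.qh = -(w * emb la) := by
  have h1 : (yw CUL.qh) ^ 2 = (w * emb la) ^ 2 := by
    rw [CUL.yw_qh, CUL.emb_la]
    have h2 := CUL.w2
    linear_combination (-(w ^ 2 - 3 * w + 3)) * h2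
  exact sq_eq_sq_iff_eq_or_eq_neg.1 h1

theorem D6a_F (σ : ℂ ≃+* ℂ) (hσ : σ w = w) {M g : Eis} (hM : M ≠ 0) (h : GalU σ M g) (h9 : 9 ∣ M) {u : Eis}
    (hu : IsUnit u) : σ (CUL.F9 2 u 0) = zw (mo g + CUL.us u * mn g) * CUL.F9 2 u 0 := by
  have ad : CU.Adm u ∅ (fun _ => 1) := ⟨fun p hp => absurd hp (Finset.notMem_empty p),
    fun p hp => absurd hp (Finset.notMem_empty p), hu⟩
  have hpr : CUL.pr ∅ = 1 := by rw [CUL.pr, Finset.prod_empty]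
  have hg : GalU σ (9 * CUL.pr ∅) g := by
    rw [hpr, mul_one]
    exact h.dvd hM h9
  have h1 := CUL.LV_galT σ hσ (t := 2) ad hg
  have h2 : LV (CUL.fT 2 u (fun _ => 1) ∅) / OmC = (9 : ℂ)⁻¹ * CUL.F9 2 u 0 := by
    rw [← CU.tz_empty, CUL.lT_empty_eq ad, CUL.RT_empty _ _ _ hu]
  have h3 : CUL.fT 2 u (fun _ => 1) ∅ g = CUL.ct 2 u g := by
    unfold CUL.fT
    rw [if_pos h.1, Finset.prod_empty, mul_one]
  rw [h2, h3, map_mul, map_inv₀, map_ofNat] at h1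
  have h4 : CUL.ct 2 u g * σ (CUL.F9 2 u 0) = CUL.F9 2 u 0 := by
    have h5 : (9 : ℂ) ≠ 0 := by norm_num
    field_simp at h1
    linear_combination h1
  have h6 : zw (mo g + CUL.us u * mn g) * CUL.ct 2 u g = 1 := by
    unfold CUL.ct
    rw [← CUL.zw_add, ← CUL.zw_zero]
    congr 1
    have h7 : ((2 : ℕ) : ZMod 3) = -1 := by decide
    have h8 : (2 : ZMod 3) = -1 := by decide
    rw [h7, h8]
    ring
  calc σ (CUL.F9 2 u 0) = (zw (mo g + CUL.us u * mn g) * CUL.ct 2 u g) * σ (CUL.F9 2 u 0) := by rw [h6, one_mul]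
    _ = zw (mo g + CUL.us u * mn g) * (CUL.ct 2 u g * σ (CUL.F9 2 u 0)) := by ring
    _ = _ := by rw [h4]

theorem D6a_r (σ : ℂ ≃+* ℂ) (hσ : σ w = w) {M g : Eis} (hM : M ≠ 0) (h : GalU σ M g) (h9 : 9 ∣ M) {u : Eis}
    (hu : IsUnit u) : ∃ r : ℂ, r ^ 3 = w * CUL.xi 2 u * emb la ∧ σ r = zw (mo g + CUL.us u * mn g) * r := by
  have h1 := D6a_F σ hσ hM h h9 hu
  have h2 := CUL.F9_zero_two u
  rcases D6a_sq with h3 | h3
  · refine ⟨-(CUL.F9 2 u 0) / 3, ?_, ?_⟩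
    · rw [h3] at h2
      field_simp
      linear_combination (-1) * h2
    · rw [map_div₀, map_neg, h1, map_ofNat]
      ring
  · refine ⟨CUL.F9 2 u 0 / 3, ?_, ?_⟩
    · rw [h3] at h2
      field_simp
      linear_combination h2
    · rw [map_div₀, h1, map_ofNat]
      ring

theorem gal_cbrt_la (σ : ℂ ≃+* ℂ) (hσ : σ w = w) {M g : Eis} (hM : M ≠ 0) (h : GalU σ M g) (h9 : 9 ∣ M) {s : ℂ} (a i : ℕ)
    (hs : s ^ 3 = emb (CU.om ^ i * la ^ a)) : σ s = zw (a * mo g + 2 * i * mn g) * s := by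
  have hom : emb CU.om = w := by
    rw [emb_apply]
    simp [CU.om]
  have hw0 : w ≠ 0 := by
    intro h0
    have h1 := CUL.w3
    rw [h0] at h1
    norm_num at h1
  have hla : emb la ≠ 0 := CUL.la_ne
  have homU : IsUnit (CU.om ^ 2 : Eis) := (IsUnit.of_pow_eq_one (n := 3) (by decide : (CU.om : Eis) ^ 3 = 1) (by norm_num)).pow 2
  obtain ⟨r₀, h1, h2⟩ := D6a_r σ hσ hM h h9 isUnit_one
  obtain ⟨r₁, h3, h4⟩ := D6a_r σ hσ hM h h9 homU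
  have hx0 : CUL.xi 2 1 = w ^ 2 := by
    unfold CUL.xi
    rw [D6a_us_one]
    unfold CUL.zw
    congr 1
  have hx1 : CUL.xi 2 (CU.om ^ 2) = 1 := by
    unfold CUL.xi
    rw [D6a_us_sq, ← CUL.zw_zero]
    congr 1
  rw [hx0] at h1
  rw [hx1] at h3
  rw [D6a_us_one, zero_mul, add_zero] at h2
  rw [D6a_us_sq] at h4
  have hw3 := CUL.w3
  have h1' : r₀ ^ 3 = emb la := by linear_combination h1 + emb la * hw3
  have h3' : r₁ ^ 3 = w * emb la := by linear_combination h3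
  have hr0 : r₀ ≠ 0 := by
    intro h0
    rw [h0] at h1'
    exact hla (by rw [← h1']; norm_num)
  have hr1 : r₁ ≠ 0 := by
    intro h0
    rw [h0] at h3'
    have : w * emb la = 0 := by rw [← h3']; norm_num
    exact (mul_ne_zero hw0 hla) this
  have hs0 : (r₀ ^ a * (r₁ / r₀) ^ i) ^ 3 = s ^ 3 := by
    rw [hs, map_mul, map_pow, map_pow, hom, mul_pow, ← pow_mul, ← pow_mul, mul_comm a 3, mul_comm i 3, pow_mul,
      pow_mul, div_pow, h1', h3', mul_div_assoc, div_self hla, mul_one, mul_comm]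
  have hne : r₀ ^ a * (r₁ / r₀) ^ i ≠ 0 := mul_ne_zero (pow_ne_zero _ hr0) (pow_ne_zero _ (div_ne_zero hr1 hr0))
  have hzeta : (s / (r₀ ^ a * (r₁ / r₀) ^ i)) ^ 6 = 1 := by
    have h5 : (s / (r₀ ^ a * (r₁ / r₀) ^ i)) ^ 3 = 1 := by
      rw [div_pow, hs0, div_self]
      rw [← hs0]
      exact pow_ne_zero _ hne
    calc (s / (r₀ ^ a * (r₁ / r₀) ^ i)) ^ 6 = ((s / (r₀ ^ a * (r₁ / r₀) ^ i)) ^ 3) ^ 2 := by ring
      _ = 1 := by rw [h5, one_pow]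
  have hfix := CUL.g3_root hzeta σ hσ
  have hquot : σ (r₁ / r₀) = zw (2 * mn g) * (r₁ / r₀) := by
    rw [map_div₀, h2, h4, CUL.zw_add]
    have h6 := CUL.zw_ne (mo g)
    field_simp
  have hσs : σ (r₀ ^ a * (r₁ / r₀) ^ i) = zw (a * mo g + 2 * i * mn g) * (r₀ ^ a * (r₁ / r₀) ^ i) := by
    rw [map_mul, map_pow, map_pow, h2, hquot, mul_pow, mul_pow, CUL.zw_pow, CUL.zw_pow, CUL.zw_add]
    have e : (i : ZMod 3) * (2 * mn g) = 2 * i * mn g := by ring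
    rw [e]
    ring
  have hss : s = (s / (r₀ ^ a * (r₁ / r₀) ^ i)) * (r₀ ^ a * (r₁ / r₀) ^ i) := (div_mul_cancel₀ _ hne).symm
  calc σ s = σ (s / (r₀ ^ a * (r₁ / r₀) ^ i)) * σ (r₀ ^ a * (r₁ / r₀) ^ i) := by
        rw [← map_mul, ← hss]
    _ = (s / (r₀ ^ a * (r₁ / r₀) ^ i)) * (zw (a * mo g + 2 * i * mn g) * (r₀ ^ a * (r₁ / r₀) ^ i)) := by
        rw [hfix, hσs]
    _ = zw (a * mo g + 2 * i * mn g) * ((s / (r₀ ^ a * (r₁ / r₀) ^ i)) * (r₀ ^ a * (r₁ / r₀) ^ i)) := by ring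
    _ = _ := by rw [← hss]

end JGL
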