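import Pool.Agent.JGL.Ba
import Pool.Agent.JGL.D1b

/-!
# [JGL-D4] the quadratic character at the primary primes

PROOF. `qi_prim`: `la ∣ x - 1` for primary `x`, so `sl x = 1`. `dvd_f_iff`: `Q.ram`; a primary prime does not divide `la` (`CUL.cop_la`). `dvd_disc_iff`: `Q.ring`: the discriminant is `D₁` or `4 D₁`, `p ∤ 2`. `q_prime`: `p ∤ 2`, `p ∤ D₁`: `Q.split` and completion of the square: `p ∣ y² - t y + n` iff `p ∣ (2 y - t)² - d`, `d = t² - 4 n = D₁` or `4 D₁`; `2` is invertible modulo `p`.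
`q_two`: `¬ -2 ∣ f`: `Q.ram (-2)`, `Q.split (-2)`: `¬ 2 ∣ t`, so the second case of `Q.ring` (`t = 0`) is impossible: `D₁ = t² - 4 n`.
`hT_D`: (a) `p ≠ -2`: `¬ p ∣ 6` (primary primes: `¬ p ∣ 2` because `p ≠ -2` (`CUL.primary_assoc`, `-2` is a primary prime), `¬ p ∣ 3` (`CU.primary_not_three`)). `D = p ^ E c` (`fac_pow`), `parity`: `p ∣ D₁` is impossible (`dvd_f_iff`, `dvd_disc_iff`), so `E = 2 k`, `E < 6`, `¬ 3 ∣ E`: `E = 2` or `4`, and `c = D₁ m'²` is not a square modulo `p` (fourth part of `ClA`). If `q p = 1` then `D₁ ≡ y²`, `c ≡ (y m')²`: contradiction.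
`q p = ± 1` as `p` is coprime to `f`. (b) `p = -2`: `E(-2) = 2 + j`, `D = (-2) ^ j c` (`fac_two`), `q_two`: `D₁ = t² - 4 n` is odd, so `j` is even (`parity`), `j < 6`, `¬ 3 ∣ 2 + j`: `j = 0` or `2`: `D = c` or `D = 4 c`, `c = D₁ m'²` odd, not a square modulo `8` (last part of `ClA`). If `q(-2) = 1` then `2 ∣ y² - t y + n` and `(2 y - t)² = D₁ + 4 (y² - t y + n) ≡ D₁ mod 8`, `c ≡ ((2 y - t) m')²`: contradiction.
-/

set_option autoImplicit false

open NumberField IsDedekindDomain Filter Topology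
open scoped Classical ComplexConjugate

namespace JGL

open CM27 JZ
open CU (la eE)
open CUL (Nl ez si ta DS Cont LV IsRep rp cr mn mo zw OT GalU W3 W9)
open JL (N1 KD sD Psi6)

variable {D D₁ : Eis}

theorem D4a_la_three : la ∣ (3 : Eis) := ⟨⟨2, 1⟩, by rw [CUL.u7_three]⟩

theorem D4a_not_two {p : Eis} (hp : Prime p) (hP : Primary p) (h2 : p ≠ -2) : ¬ p ∣ 2 := by
  have := eis_isDomain
  intro h
  apply h2
  refine CUL.primary_assoc hP JL.b3_twoP ?_
  exact (hp.dvd_prime_iff_associated JL.b3_two).1 (h.trans ⟨-1, by ring⟩)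

theorem D4a_cop {p x : Eis} (hp : Prime p) (h : ¬ p ∣ x) : IsCoprime p x := by
  have := eis_isDomain
  have := eis_pid
  exact (hp.irreducible.coprime_iff_not_dvd).2 h

theorem D4a_not_la {p : Eis} (hp : Prime p) (hP : Primary p) : ¬ p ∣ la := by
  intro h
  exact hp.not_isUnit ((CUL.cop_la hP).isUnit_of_dvd' dvd_rfl h)

theorem qi_prim (L : Lev) {x : Eis} (hx : Primary x) : L.qi x = L.q x := by
  have h1 : la ∣ x - 1 := D4a_la_three.trans hx
  unfold Lev.qi sl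
  rw [if_pos h1, one_mul, ite_self]

theorem dvd_f_iff (Q : QD D₁) {p : Eis} (hp : Prime p) (hP : Primary p) : p ∣ Q.L.f ↔ p ∣ Q.t ^ 2 - 4 * Q.n := by
  rw [Q.ram p hp]
  constructor
  · exact fun h => Or.inl h
  · rintro (h | ⟨-, h⟩)
    · exact h
    · exact absurd h (D4a_not_la hp hP)

theorem dvd_disc_iff (Q : QD D₁) {p : Eis} (hp : Prime p) (h2 : ¬ p ∣ 2) : p ∣ Q.t ^ 2 - 4 * Q.n ↔ p ∣ D₁ := by
  rcases Q.ring with h | ⟨ht, hn, -⟩
  · rw [h]
  · have h1 : Q.t ^ 2 - 4 * Q.n = 2 * 2 * D₁ := by rw [ht, hn]; ring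
    rw [h1]
    constructor
    · intro h3
      rcases hp.dvd_or_dvd h3 with h4 | h4
      · rcases hp.dvd_or_dvd h4 with h5 | h5
        · exact absurd h5 h2
        · exact absurd h5 h2
      · exact h4
    · exact fun h3 => h3.mul_left _

theorem q_prime (Q : QD D₁) {p : Eis} (hp : Prime p) (hP : Primary p) (h2 : p ≠ -2) (hD : ¬ p ∣ D₁) :
    Q.L.q p = 1 ↔ ∃ y : Eis, p ∣ y ^ 2 - D₁ := by
  have hp2 : ¬ p ∣ 2 := D4a_not_two hp hP h2
  have hd : ¬ p ∣ Q.t ^ 2 - 4 * Q.n := fun h => hD ((dvd_disc_iff Q hp hp2).1 h)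
  have hs := Q.split p hp hd
  rw [qi_prim Q.L hP] at hs
  rw [hs]
  rcases Q.ring with h | ⟨ht, hn, -⟩
  · constructor
    · rintro ⟨y, hy⟩
      refine ⟨2 * y - Q.t, ?_⟩
      have e : (2 * y - Q.t) ^ 2 - D₁ = 4 * (y ^ 2 - Q.t * y + Q.n) := by linear_combination h
      rw [e]
      exact hy.mul_left _
    · rintro ⟨y, hy⟩
      obtain ⟨a, b, hab⟩ := D4a_cop hp hp2
      refine ⟨b * (y + Q.t), ?_⟩
      have e : 2 * 2 * ((b * (y + Q.t)) ^ 2 - Q.t * (b * (y + Q.t)) + Q.n) =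
          (y ^ 2 - D₁) + p * (a * (y + Q.t) * (a * p * (y + Q.t) - 2 * y)) := by
        have hb : 2 * b = 1 - a * p := by linear_combination hab
        have e1 : 2 * 2 * ((b * (y + Q.t)) ^ 2 - Q.t * (b * (y + Q.t)) + Q.n) =
            ((2 * b) * (y + Q.t) - Q.t) ^ 2 - (Q.t ^ 2 - 4 * Q.n) := by ring
        rw [e1, hb]
        linear_combination (-1) * h
      have h3 : p ∣ 2 * 2 * ((b * (y + Q.t)) ^ 2 - Q.t * (b * (y + Q.t)) + Q.n) := by
        rw [e]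
        exact hy.add (dvd_mul_right _ _)
      rcases hp.dvd_or_dvd h3 with h4 | h4
      · rcases hp.dvd_or_dvd h4 with h5 | h5
        · exact absurd h5 hp2
        · exact absurd h5 hp2
      · exact h4
  · have e : ∀ y : Eis, y ^ 2 - Q.t * y + Q.n = y ^ 2 - D₁ := by
      intro y
      rw [ht, hn]
      ring
    simp only [e]

theorem q_two (Q : QD D₁) (hf : ¬ (-2 : Eis) ∣ Q.L.f) : ¬ (2 : Eis) ∣ Q.t ∧ D₁ = Q.t ^ 2 - 4 * Q.n ∧
    (Q.L.q (-2) = 1 ↔ ∃ y : Eis, (2 : Eis) ∣ y ^ 2 - Q.t * y + Q.n) := by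
  have hd : ¬ (-2 : Eis) ∣ Q.t ^ 2 - 4 * Q.n := fun h => hf ((dvd_f_iff Q JL.b3_two JL.b3_twoP).2 h)
  have ht : ¬ (2 : Eis) ∣ Q.t := by
    rintro ⟨c, hc⟩
    apply hd
    rw [hc]
    exact ⟨-2 * c ^ 2 + 2 * Q.n, by ring⟩
  refine ⟨ht, ?_, ?_⟩
  · rcases Q.ring with h | ⟨h, -, -⟩
    · exact h.symm
    · exact absurd (h ▸ dvd_zero _) ht
  · have hs := Q.split (-2) JL.b3_two hd
    rw [qi_prim Q.L JL.b3_twoP] at hs
    rw [hs]
    simp only [neg_dvd]

theorem hT_D (h : ClA D) (F : Fac D) (Q : QD D₁) {m : Eis} (hD : D = D₁ * m ^ 2) {p : Eis} (hp : p ∈ TT F Q) :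
    Prime p ∧ Primary p ∧ ¬ p ∣ Q.L.f ∧ Q.L.q p = -1 := by
  have := eis_isDomain
  rw [TT, Finset.mem_filter, Sc, Finset.mem_filter] at hp
  obtain ⟨⟨hpS, h3⟩, hpf⟩ := hp
  obtain ⟨hpp, hpP⟩ := F.hS p hpS
  refine ⟨hpp, hpP, hpf, ?_⟩
  have hpm := Q.L.q_pm p (D4a_cop hpp hpf)
  refine hpm.resolve_left fun hq => ?_
  by_cases h2 : p = -2
  · subst h2
    obtain ⟨ht, hD1, hiff⟩ := q_two Q hpf
    obtain ⟨y, hy⟩ := hiff.1 hq
    obtain ⟨c, hc, hpc⟩ := fac_two F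
    have hE := F.hE2
    have hodd : ¬ (-2 : Eis) ∣ D₁ := by
      rintro ⟨u, hu⟩
      apply ht
      have h4 : (2 : Eis) ∣ Q.t ^ 2 := ⟨-u + 2 * Q.n, by linear_combination hu - hD1⟩
      exact Q3.prime_two.dvd_of_dvd_pow h4
    rcases parity hD h.1 Q.sqf JL.b3_two hc hpc with ⟨-, k, m', hk, hm, hcm⟩ | ⟨k, m', d, hd, -⟩
    · have hcase : D = c ∨ D = 4 * c := by
        have hk2 : k = 0 ∨ k = 1 := by
          have hk3 : F.E (-2) = 2 * k + 2 := by omega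
          rw [hk3] at h3 hE
          have : k < 3 := by omega
          interval_cases k
          · exact Or.inl rfl
          · exact Or.inr rfl
          · exact absurd (by decide : 3 ∣ 2 * 2 + 2) h3
        rw [hc, hk]
        rcases hk2 with rfl | rfl
        · left
          ring
        · right
          ring
      have h2c : ¬ (2 : Eis) ∣ c := by
        intro h5
        exact hpc (neg_dvd.2 h5)
      refine h.2.2.2.2 c h2c hcase ⟨(2 * y - Q.t) * m', ?_⟩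
      obtain ⟨z, hz⟩ := hy
      refine ⟨z * m' ^ 2, ?_⟩
      rw [hcm]
      linear_combination (4 * m' ^ 2) * hz - m' ^ 2 * hD1
    · exact hodd ⟨d, hd⟩
  · have hp2 : ¬ p ∣ 2 := D4a_not_two hpp hpP h2
    have hp6 : ¬ p ∣ 6 := by
      intro h6
      have e : (6 : Eis) = 2 * 3 := by norm_num
      rw [e] at h6
      rcases hpp.dvd_or_dvd h6 with h7 | h7
      · exact hp2 h7
      · exact CU.primary_not_three hpP hpp h7
    have hpD1 : ¬ p ∣ D₁ := fun h4 => hpf ((dvd_f_iff Q hpp hpP).2 ((dvd_disc_iff Q hpp hp2).2 h4))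
    obtain ⟨c, hc, hpc⟩ := fac_pow F hpS h2
    have hE0 := F.hE p hpS
    have hE6 := F.hE6 p hpS h2
    rcases parity hD h.1 Q.sqf hpp hc hpc with ⟨-, k, m', hk, hm, hcm⟩ | ⟨k, m', d, hd, -⟩
    · have hk3 : k = 1 ∨ k = 2 := by omega
      have hcase : D = p ^ 2 * c ∨ D = p ^ 4 * c := by
        rcases hk3 with h5 | h5
        · left
          rw [h5] at hk
          rw [hk] at hc
          exact hc
        · right
          rw [h5] at hk
          rw [hk] at hc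
          exact hc
      obtain ⟨y, hy⟩ := (q_prime Q hpp hpP h2 hpD1).1 hq
      refine h.2.2.2.1 p c hpp hp6 hcase hpc ⟨y * m', ?_⟩
      have e : (y * m') ^ 2 - c = (y ^ 2 - D₁) * m' ^ 2 := by rw [hcm]; ring
      rw [e]
      exact hy.mul_right _
    · exact hpD1 ⟨d, hd⟩

end JGL
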