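import Pool.Agent.JGL.Q4

/-!
# [JGL-Q5] the quadratic data: the arithmetic modulo `4`, the two cases
-/

set_option autoImplicit false

open scoped Classical ComplexConjugate

namespace JGL

open CM27 JZ
open CU (la eE)
open CUL (pr GalU)
open Q3L (fQ Dec sg c2 MM cx et)
open Q3 (r3 Prim Dd Adm)

theorem q5_four_dvd (x : Eis) : (4 : Eis) ∣ x ↔ (4 : ℤ) ∣ x.re ∧ (4 : ℤ) ∣ x.im := Q3L.k1_dvd 4 Q3L.k1_four x

theorem q5_four_two : (4 : Eis) = 2 * 2 := by norm_num

theorem q5_unit_sq {z : Eis} (hz : IsUnit z) : z ^ 2 = 1 ∨ z ^ 2 = CU.om ^ 2 ∨ z ^ 2 = CU.om := by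
  have h3 : CU.om ^ 3 = 1 := CU.om_cube
  rcases CUL.unit_cases hz with h | h | h | h | h | h
  · left; rw [h]; ring
  · left; rw [h]; ring
  · right; left; rw [h]
  · right; left; rw [h]; ring
  · right; right; rw [h]; linear_combination CU.om * h3
  · right; right; rw [h]; linear_combination CU.om * h3

/-- an odd square modulo `4` -/
theorem q5_odd_sq {m : Eis} (h : ¬ (2 : Eis) ∣ m) : ∃ z : Eis, (z = 1 ∨ z = CU.om ^ 2 ∨ z = CU.om) ∧ (4 : Eis) ∣ m ^ 2 - z := by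
  obtain ⟨z, g, hd⟩ := Q3L.exists_dec h
  refine ⟨z ^ 2, q5_unit_sq hd.2.1, ?_⟩
  have h1 : Prim (g * g) := hd.2.2.mul hd.2.2
  have h2 : Q3.tt (g * g) = 0 := by
    rw [Q3.tt_mul hd.2.2 hd.2.2]
    generalize Q3.tt g = k
    revert k
    decide
  have h3 : (4 : Eis) ∣ g * g - 1 := by
    rcases Q3L.prim_cases h1 with ⟨-, m, hm⟩ | ⟨h4, -⟩
    · exact ⟨m, by rw [hm]; ring⟩
    · rw [h2] at h4
      exact absurd h4 (by decide)
  have e : m ^ 2 - z ^ 2 = z ^ 2 * (g * g - 1) := by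
    rw [hd.1]
    ring
  rw [e]
  exact h3.mul_left _

theorem q5_no (x z : Eis) (hx : x = -1 ∨ x = r3 ∨ x = -r3) (hz : z = 1 ∨ z = CU.om ^ 2 ∨ z = CU.om) : ¬ (4 : Eis) ∣ x - z := by
  rw [q5_four_dvd]
  rcases hx with rfl | rfl | rfl <;> rcases hz with rfl | rfl | rfl <;> decide

/-- not a square modulo `4` -/
theorem q5_nsq {c : Eis} {T : Finset Eis} (hT : Adm c T)
    (hA : (c = 2 ∨ c = -2) ∨ ((c = 1 ∨ c = -1) ∧ (∑ p ∈ T, Q3.tt p) = 1) ∨ (c = -1 ∧ (∑ p ∈ T, Q3.tt p) = 0)) (m : Eis) :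
    ¬ (4 : Eis) ∣ Dd c T - m ^ 2 := by
  have hdom := eis_isDomain
  intro h
  obtain ⟨hPr, hPt⟩ := JL.b2_tt_prod T fun p hp => (hT.1 p hp).2
  unfold Q3.Dd at h
  obtain ⟨P, hP⟩ : ∃ P, P = ∏ p ∈ T, p := ⟨_, rfl⟩
  rw [← hP] at hPr hPt h
  have h2 : (2 : Eis) ∣ c * P - m ^ 2 := (show (2 : Eis) ∣ 4 from ⟨2, by norm_num⟩).trans h
  have hev : (2 : Eis) ∣ m → (4 : Eis) ∣ c * P := by
    rintro ⟨k, hk⟩
    have e : c * P = (c * P - m ^ 2) + 4 * k ^ 2 := by
      rw [hk]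
      ring
    rw [e]
    exact dvd_add h (Dvd.intro _ rfl)
  rcases hA with hc | hA
  · have hm : (2 : Eis) ∣ m := by
      have h3 : (2 : Eis) ∣ m ^ 2 := by
        have e : m ^ 2 = c * P - (c * P - m ^ 2) := by ring
        rw [e]
        refine dvd_sub ?_ h2
        rcases hc with hc | hc
        · rw [hc]
          exact Dvd.intro _ rfl
        · rw [hc]
          exact ⟨-P, by ring⟩
      exact Q3.prime_two.dvd_of_dvd_pow h3
    have h4 := hev hm
    apply hPr.not_two_dvd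
    rw [q5_four_two] at h4
    have h5 : 2 * 2 ∣ 2 * P := by
      rcases hc with hc | hc
      · rw [hc] at h4
        exact h4
      · rw [hc] at h4
        have e : 2 * P = -(-2 * P) := by ring
        rw [e, dvd_neg]
        exact h4
    exact (mul_dvd_mul_iff_left (two_ne_zero)).1 h5
  · have hc : c = 1 ∨ c = -1 := by
      rcases hA with h3 | h3
      · exact h3.1
      · exact Or.inr h3.1
    have hm : ¬ (2 : Eis) ∣ m := by
      intro hm
      have h4 := hev hm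
      apply hPr.not_two_dvd
      have h5 : (4 : Eis) ∣ P := by
        rcases hc with hc | hc
        · rw [hc, one_mul] at h4
          exact h4
        · rw [hc, neg_one_mul, dvd_neg] at h4
          exact h4
      exact (show (2 : Eis) ∣ 4 from ⟨2, by norm_num⟩).trans h5
    obtain ⟨z, hz, hmz⟩ := q5_odd_sq hm
    have h6 : (4 : Eis) ∣ c * P - z := by
      have e : c * P - z = (c * P - m ^ 2) + (m ^ 2 - z) := by ring
      rw [e]
      exact dvd_add h hmz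
    rcases Q3L.prim_cases hPr with ⟨ht, k, hk⟩ | ⟨ht, k, hk⟩
    · have hcm : c = -1 := by
        rcases hA with h3 | h3
        · rw [← hPt, ht] at h3
          exact absurd h3.2 (by decide)
        · exact h3.1
      refine q5_no (-1) z (Or.inl rfl) hz ?_
      have e : -1 - z = (c * P - z) + 4 * k := by
        rw [hcm, hk]
        ring
      rw [e]
      exact dvd_add h6 (Dvd.intro _ rfl)
    · rcases hc with hc | hc
      · refine q5_no r3 z (Or.inr (Or.inl rfl)) hz ?_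
        have e : r3 - z = (c * P - z) - 4 * k := by
          rw [hc, hk]
          ring
        rw [e]
        exact dvd_sub h6 (Dvd.intro _ rfl)
      · refine q5_no (-r3) z (Or.inr (Or.inr rfl)) hz ?_
        have e : -r3 - z = (c * P - z) + 4 * k := by
          rw [hc, hk]
          ring
        rw [e]
        exact dvd_add h6 (Dvd.intro _ rfl)

theorem q5_Dd (c : Eis) (T : Finset Eis) : Dd c T = c * (r3 ^ q4_ep T * pr (T.erase r3)) := by
  rw [← q4_pr]
  rfl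

theorem q5_norm_r3 : r3.norm = 3 := by
  rw [norm_eq]
  decide

theorem q5_prime_r3 {T : Finset Eis} {p : Eis} (hp : Prime p) : p ∣ r3 ^ q4_ep T ↔ (q4_ep T = 1 ∧ p ∣ la) := by
  rcases q4_ep_cases T with ⟨-, e⟩ | ⟨-, e⟩
  · rw [e, pow_one, ← q1_la_assoc.dvd_iff_dvd_right]
    exact ⟨fun h => ⟨rfl, h⟩, fun h => h.2⟩
  · rw [e, pow_zero]
    constructor
    · intro h
      exact absurd (isUnit_of_dvd_one h) hp.not_isUnit
    · intro h
      exact absurd h.1 (by decide)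

/-- `4 c` is a unit times `MM c` -/
theorem q5_MM {c : Eis} (hc : c = 1 ∨ c = -1 ∨ c = 2 ∨ c = -2) : ∃ s : Eis, s * s = 1 ∧ s.norm = 1 ∧ 4 * c = s * MM c := by
  rcases hc with h | h | h | h
  · exact ⟨1, by ring, by rw [norm_eq]; decide, by rw [h, Q3L.MM_one]; ring⟩
  · exact ⟨-1, by ring, by rw [norm_eq]; decide, by rw [h, Q3L.MM_neg_one]; ring⟩
  · exact ⟨1, by ring, by rw [norm_eq]; decide, by rw [h, Q3L.MM_two]; norm_num⟩
  · exact ⟨-1, by ring, by rw [norm_eq]; decide, by rw [h, Q3L.MM_neg_two]; norm_num⟩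

/-- the first case -/
theorem q5_A {c : Eis} {T : Finset Eis} (hT : Adm c T) (hns : ¬ IsSquare (Dd c T))
    (hA : (c = 2 ∨ c = -2) ∨ ((c = 1 ∨ c = -1) ∧ (∑ p ∈ T, Q3.tt p) = 1) ∨ (c = -1 ∧ (∑ p ∈ T, Q3.tt p) = 0)) :
    Nonempty (QD (Dd c T)) := by
  have hdom := eis_isDomain
  have hT' := q4_adm hT
  have hA' : (c = 2 ∨ c = -2) ∨ ((c = 1 ∨ c = -1) ∧ (∑ p ∈ T.erase r3, Q3.tt p) + (q4_ep T : ZMod 2) = 1) ∨
      (c = -1 ∧ (∑ p ∈ T.erase r3, Q3.tt p) + (q4_ep T : ZMod 2) = 0) := by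
    rw [← q4_sum]
    exact hA
  obtain ⟨s, hs, hsn, h4c⟩ := q5_MM hT.2
  have hval : (0 : Eis) ^ 2 - 4 * -Dd c T = s * (MM c * pr (T.erase r3)) * r3 ^ q4_ep T := by
    rw [q5_Dd]
    linear_combination (r3 ^ q4_ep T * pr (T.erase r3)) * h4c
  have h2M : (2 : Eis) ∣ MM c := (show (2 : Eis) ∣ 4 from ⟨2, by norm_num⟩).trans (Q3L.four_dvd_MM c)
  refine q4_main hT hns (q2_QC hT' (q4_ep T) hA') (mul_ne_zero (Q3L.MM_ne c) (Q3L.pr_ne hT')) ?_ ?_ (t := 0) (n := -Dd c T)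
    (Or.inr ⟨rfl, rfl, q5_nsq hT hA⟩) ?_ ?_ ?_
  · intro h
    exact Q3.prime_two.not_isUnit (isUnit_of_dvd_unit (h2M.mul_right _) h)
  · intro h
    rcases CUL.la_prime.dvd_or_dvd h with h1 | h1
    · have h8 : (8 : Eis) = 2 ^ 3 := by norm_num
      have h2 := h1.trans (Q3L.MM_dvd_eight c)
      rw [h8] at h2
      exact q4_la_two (CUL.la_prime.dvd_of_dvd_pow h2)
    · exact q4_la_erase hT h1
  · rw [hval, map_mul, map_mul, map_pow, hsn, one_mul, q5_norm_r3]
  · intro p hp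
    rw [hval, hp.dvd_mul, q5_prime_r3 hp]
    have h1 : p ∣ s * (MM c * pr (T.erase r3)) ↔ p ∣ MM c * pr (T.erase r3) := by
      constructor
      · intro h
        have h3 := h.mul_left s
        rw [← mul_assoc, hs, one_mul] at h3
        exact h3
      · intro h
        exact h.mul_left s
    rw [h1]
  · intro p hp h2 hn
    exfalso
    apply hn
    rw [hval]
    exact (((h2.trans h2M).mul_right _).mul_left s).mul_right _

theorem q5_et_prod (S : Finset Eis) (h : ∀ p ∈ S, Prim p) : et (∏ p ∈ S, p) = ∑ p ∈ S, et p := by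
  induction S using Finset.induction_on with
  | empty =>
    rw [Finset.prod_empty, Finset.sum_empty]
    exact Q3L.et_one
  | insert q S hq ih =>
    have h1 := ih fun p hp => h p (Finset.mem_insert_of_mem hp)
    have h2 := (JL.b2_tt_prod S fun p hp => h p (Finset.mem_insert_of_mem hp)).1
    have h3 := h q (Finset.mem_insert_self q S)
    rw [Finset.prod_insert hq, Finset.sum_insert hq, Q3L.et_mul h3 h2, h1]

/-- roots of `y² - y + n` modulo `2` -/
theorem q5_root (n : Eis) : (∃ y : Eis, (2 : Eis) ∣ y ^ 2 - 1 * y + n) ↔ (2 : ℤ) ∣ n.im := by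
  constructor
  · rintro ⟨y, hy⟩
    rw [Q3L.two_dvd_iff] at hy
    have h1 := hy.2
    rw [pow_two, one_mul, QuadraticAlgebra.im_add, QuadraticAlgebra.im_sub, QuadraticAlgebra.im_mul] at h1
    obtain ⟨k, hk⟩ := h1
    obtain ⟨a, ha⟩ : ∃ a, y.im * y.im + y.im = 2 * a := by
      have h3 : Even (y.im * (y.im + 1)) := Int.even_mul_succ_self y.im
      obtain ⟨a, ha⟩ := h3
      exact ⟨a, by linear_combination ha⟩
    exact ⟨k - y.re * y.im + a, by linear_combination hk + ha⟩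
  · intro h
    by_cases h1 : (2 : ℤ) ∣ n.re
    · refine ⟨0, ?_⟩
      have e : (0 : Eis) ^ 2 - 1 * 0 + n = n := by ring
      rw [e, Q3L.two_dvd_iff]
      exact ⟨h1, h⟩
    · refine ⟨CU.om, ?_⟩
      have e1 : (CU.om ^ 2 - 1 * CU.om : Eis).re = -1 := by decide
      have e2 : (CU.om ^ 2 - 1 * CU.om : Eis).im = -2 := by decide
      rw [Q3L.two_dvd_iff, QuadraticAlgebra.re_add, QuadraticAlgebra.im_add, e1, e2]
      omega

/-- the second case -/
theorem q5_B {T : Finset Eis} (hT : Adm 1 T) (hns : ¬ IsSquare (Dd 1 T)) (hs : (∑ p ∈ T, Q3.tt p) = 0) :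
    Nonempty (QD (Dd 1 T)) := by
  have hdom := eis_isDomain
  have hT' := q4_adm hT
  have hs' : (∑ p ∈ T.erase r3, Q3.tt p) = (q4_ep T : ZMod 2) := by
    rw [q4_sum] at hs
    generalize (∑ p ∈ T.erase r3, Q3.tt p) = a at hs ⊢
    generalize (q4_ep T : ZMod 2) = b at hs ⊢
    revert a b
    decide
  obtain ⟨hPr, hPt⟩ := JL.b2_tt_prod T fun p hp => (hT.1 p hp).2
  rw [hs] at hPt
  obtain ⟨m, hm⟩ : ∃ m : Eis, ∏ p ∈ T, p = 1 + 4 * m := by
    rcases Q3L.prim_cases hPr with ⟨-, m, hm⟩ | ⟨h4, -⟩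
    · exact ⟨m, hm⟩
    · rw [hPt] at h4
      exact absurd h4 (by decide)
  have hval : (1 : Eis) ^ 2 - 4 * -m = pr (T.erase r3) * r3 ^ q4_ep T := by
    have e : (1 : Eis) ^ 2 - 4 * -m = pr T := by
      unfold CUL.pr
      rw [hm]
      ring
    rw [e, q4_pr]
    ring
  have hDd : (1 : Eis) ^ 2 - 4 * -m = Dd 1 T := by
    unfold Q3.Dd
    rw [hm]
    ring
  have het : et (∏ p ∈ T, p) = ∑ p ∈ T.erase r3, et p := by
    rw [q5_et_prod T fun p hp => (hT.1 p hp).2]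
    rcases q4_ep_cases T with ⟨h, -⟩ | ⟨h, -⟩
    · rw [← Finset.add_sum_erase T et h, Q3L.et_r3, zero_add]
    · rw [Finset.erase_eq_of_notMem h]
  have het2 : et (∏ p ∈ T, p) = 0 ↔ (2 : ℤ) ∣ (-m).im := by
    have e : (∏ p ∈ T, p).im = 4 * m.im := by
      rw [hm, QuadraticAlgebra.im_add, QuadraticAlgebra.im_one, zero_add, Q3L.k1_four, QuadraticAlgebra.im_mul]
      ring
    unfold Q3L.et
    rw [e, Int.mul_ediv_cancel_left _ (by norm_num), ZMod.intCast_zmod_eq_zero_iff_dvd, QuadraticAlgebra.im_neg, Int.dvd_neg]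
    exact Iff.rfl
  refine q4_main hT hns (q3_QC hT' hs') (Q3L.pr_ne hT') ?_ (q4_la_erase hT) (t := 1) (n := -m) (Or.inl hDd) ?_ ?_ ?_
  · intro h
    have h1 : T.erase r3 = ∅ := by
      rw [Finset.eq_empty_iff_forall_notMem]
      intro p hp
      exact (hT'.1 p hp).1.not_isUnit (isUnit_of_dvd_unit (Q3L.k3_dvd_pr hp) h)
    rw [h1, Finset.sum_empty] at hs'
    rcases q4_ep_cases T with ⟨-, e⟩ | ⟨h2, -⟩
    · rw [e] at hs'
      exact absurd hs' (by decide)
    · rw [Finset.erase_eq_of_notMem h2] at h1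
      apply hns
      rw [h1]
      exact ⟨1, by unfold Q3.Dd; rw [Finset.prod_empty]⟩
  · rw [hval, map_mul, map_pow, q5_norm_r3]
  · intro p hp
    rw [hval, hp.dvd_mul, q5_prime_r3 hp]
  · intro p hp h2 _
    obtain ⟨e, he⟩ : Associated 2 p := ((hp.dvd_prime_iff_associated Q3.prime_two).1 h2).symm
    have hF : ((sl p : ℤ) : ℂ) ^ q4_ep T * q3_F (T.erase r3) p = sg (∑ p ∈ T.erase r3, et p) := by
      rw [← he, q1_sl_mul, q3_mul hT', q3_unit hT' hs' (Units.isUnit e), q3_two hT', q1_sl_two, Finset.sum_add_distrib, hs',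
        Q3L.sg_add, q3_sg_ep]
      push_cast
      rw [mul_pow]
      have h5 : ((sl (e : Eis) : ℤ) : ℂ) ^ q4_ep T * ((sl (e : Eis) : ℤ) : ℂ) ^ q4_ep T = 1 := by
        rw [← mul_pow, q4_sl_sq (Units.isUnit e), one_pow]
      have h6 : (-1 : ℂ) ^ q4_ep T * (-1) ^ q4_ep T = 1 := by
        rw [← mul_pow]
        norm_num
      linear_combination (sg (∑ x ∈ T.erase r3, et x) * (((sl (e : Eis) : ℤ) : ℂ) ^ q4_ep T * ((sl (e : Eis) : ℤ) : ℂ) ^ q4_ep T)) * h6 +
        sg (∑ x ∈ T.erase r3, et x) * h5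
    rw [hF]
    have hroot : (∃ y : Eis, p ∣ y ^ 2 - 1 * y + -m) ↔ ∃ y : Eis, (2 : Eis) ∣ y ^ 2 - 1 * y + -m := by
      have hass : Associated 2 p := ⟨e, he⟩
      constructor
      · rintro ⟨y, hy⟩
        exact ⟨y, (hass.dvd_iff_dvd_left).2 hy⟩
      · rintro ⟨y, hy⟩
        exact ⟨y, (hass.dvd_iff_dvd_left).1 hy⟩
    rw [hroot, q5_root, ← het2, het]
    constructor
    · intro h
      apply Q3L.sg_inj
      rw [h, Q3L.sg_zero]
    · intro h
      rw [h, Q3L.sg_zero]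

end JGL
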