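import Pool.Agent.JGL.D4
import Pool.Agent.JGL.D5

/-!
# [JGL-D8] the value at `2`

PROOF. (1) `good2_iff`: `-2 ∣ L.f` fails iff `JG.Good2 D`. If `¬ -2 ∣ L.f` (`hL.hf`): `¬ -2 ∣ Q.L.f` and `-2 ∉ TT`, so `-2 ∉ Sc F`, `3 ∣ E(-2)`, `E(-2) ∈ {3, 6}`; `q_two` (D4.lean): `D₁ = t² - 4 n` odd; `fac_two`, `parity`: `E(-2) - 2` is even: `E(-2) = 6`, `D = 16 c`, `m = 4 m'`, `c = D₁ m'² = (t m')² + 4 (- n m'²)`, `m'` odd (`¬ -2 ∣ c`): `s = t m'`, `c' = -n m'²`.
Conversely `D = 16 (s² + 4 c')`, `s` odd: `E(-2) - 2 = 4` (exact power of `-2`, `fac_two`), so `3 ∣ E(-2)`, `-2 ∉ Sc F`; `parity`: `D₁` is odd (`4` is even), `m = 4 m'`, `D₁ m'² = s² + 4 c'`, so `D₁` is a square modulo `4` (`m'` is invertible modulo `4`), the second case of `Q.ring` is impossible, `t² - 4 n = D₁` is odd, `¬ -2 ∣ Q.L.f` (`dvd_f_iff`); `-2` is prime, so it does not divide `L.f`.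
(2) `¬ Good2 D`: `-2 ∣ L.f`, `L.chi (-2) = 0` (`chi_ne_zero_iff`), `p₂ = 0`. (3) `Good2 D`: as in (1) `D = 16 (s² + 4 c')` with `s = t m'`, `c' = -n m'²`. `e = L.q (-2) = Q.L.q (-2) = ± 1`; `e = 1` iff `2 ∣ y² - t y + n` for some `y` (`q_two`) iff `2 ∣ c' - x² - s x` for some `x`: `x = - m' y`: `c' - x² - s x = - m'² (n + y² - t y)`; `m'` is invertible modulo `2`.
`ζ`: `L.c (-2) conj (ka (-v) i (-2)) = zw k` and `zw k = emb (CU.om ^ k.val)` (`cc_zw`; `ζ = CU.om ^ k.val`, `emb CU.om = w`). `p₂ = -2 e ζ`. `ζ = 1` iff `2 ∣ s - 1`: `E(-2) = 6`, `4 Ds = (-2) ^ 6 r` (`fac_rest`), `cc F (-2) = ∏_{q ∈ S, q ≠ -2} cr q (-2) ^ E q = cr (-2) r` (terms with `3 ∣ E q`: `zw k ^ 3 = 1`; `CUL.cr_symm`, `cr_mul`, `cr_pow`, `r = ∏_{q ∈ S.erase (-2)} q ^ E q`),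
`conj (ka (-v) i (-2)) = zw (v mo(-2) - i mn(-2)) = cr (-2) (ω ^ i la ^ v)` (`cr p ω = zw (2 mn p)`, `cr p la = zw (mo p)` for primary primes `p`), and `η ω ^ i la ^ v r = 4 D / (-2)^6 = D / 16 = s² + 4 c'`, `cr (-2) η = 1`: `zw k = cr (-2) (s² + 4 c') = cr (-2) s ^ 2` (`cr_congr`). `cr (-2) s = zw (sy s (-2)) = 1` iff `2 ∣ s - 1`: `s ≡ 1, ω, ω² mod 2` (`s` odd) and `cr (-2) 1 = 1`, `cr (-2) ω = zw (2 mn (-2)) = zw 1`, `cr (-2) (ω²) = zw 2`.
-/

set_option autoImplicit false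

open NumberField IsDedekindDomain Filter Topology
open scoped Classical ComplexConjugate

namespace JGL

open CM27 JZ
open CU (la eE)
open CUL (Nl ez si ta DS Cont LV IsRep rp cr mn mo zw OT GalU W3 W9)
open JL (N1 KD sD Psi6)

variable {D D₁ : Eis}

theorem D8a_dvd (x : Eis) : (-2 : Eis) ∣ x ↔ (2 : Eis) ∣ x := neg_dvd

theorem D8a_unique {p x y : Eis} (hp : Prime p) {a b : ℕ} (h : p ^ a * x = p ^ b * y) (hx : ¬ p ∣ x) (hy : ¬ p ∣ y) :
    a = b := by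
  have hdom : IsDomain Eis := emb_injective.isDomain emb
  rcases lt_trichotomy a b with h1 | h1 | h1
  · exfalso
    obtain ⟨k, rfl⟩ := Nat.exists_eq_add_of_lt h1
    have h2 : p ^ a * x = p ^ a * (p * (p ^ k * y)) := by
      rw [h]
      ring
    have h3 := mul_left_cancel₀ (pow_ne_zero a hp.ne_zero) h2
    exact hx ⟨_, h3⟩
  · exact h1
  · exfalso
    obtain ⟨k, rfl⟩ := Nat.exists_eq_add_of_lt h1
    have h2 : p ^ b * y = p ^ b * (p * (p ^ k * x)) := by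
      rw [← h]
      ring
    have h3 := mul_left_cancel₀ (pow_ne_zero b hp.ne_zero) h2
    exact hy ⟨_, h3⟩

/-- `-2` divides the level iff it divides the quadratic part or is in `TT` -/
theorem D8a_dvd_f (F : Fac D) {Q : QD D₁} {L : Lev} (hL : IsL F Q L) :
    (-2 : Eis) ∣ L.f ↔ (-2 : Eis) ∣ Q.L.f ∨ (-2 : Eis) ∈ TT F Q := by
  have hdom : IsDomain Eis := emb_injective.isDomain emb
  rw [hL.hf]
  constructor
  · intro h
    rcases JL.b3_two.dvd_or_dvd h with h1 | h1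
    · exact Or.inl h1
    · right
      obtain ⟨q, hq, h2⟩ := (JL.b3_two.dvd_finset_prod_iff _).1 h1
      have hqS : q ∈ F.S := (Finset.mem_filter.1 (Finset.mem_filter.1 hq).1).1
      obtain ⟨q1, q2⟩ := F.hS q hqS
      have h3 : Associated (-2 : Eis) q := (JL.b3_two.dvd_prime_iff_associated q1).1 h2
      rw [CUL.primary_assoc JL.b3_twoP q2 h3]
      exact hq
  · rintro (h | h)
    · exact h.mul_right _
    · exact (Finset.dvd_prod_of_mem _ h).mul_left _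

theorem good2_iff (F : Fac D) {Q : QD D₁} {L : Lev} (hL : IsL F Q L) {m : Eis} (hD : D = D₁ * m ^ 2) (h0 : D ≠ 0) :
    ¬ (-2 : Eis) ∣ L.f ↔ JG.Good2 D := by
  have hdom : IsDomain Eis := emb_injective.isDomain emb
  have hpid : IsPrincipalIdealRing Eis := eis_pid
  obtain ⟨c, hc, hc2⟩ := fac_two F
  have hE := F.hE2
  have hpow : ∀ x : Eis, (16 : Eis) * x = (-2) ^ 4 * x := by
    intro x
    ring
  rw [D8a_dvd_f F hL]
  constructor
  · intro h
    push Not at h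
    obtain ⟨h1, h2⟩ := h
    have h3 : 3 ∣ F.E (-2) := by
      by_contra h4
      exact h2 (Finset.mem_filter.2 ⟨Finset.mem_filter.2 ⟨F.h2, h4⟩, h1⟩)
    obtain ⟨ht, hD1, -⟩ := q_two Q h1
    rcases parity hD h0 Q.sqf JL.b3_two hc hc2 with ⟨-, k, m', e1, e2, e3⟩ | ⟨k, m', d, e1, -, -, -⟩
    · have hE6 : F.E (-2) - 2 = 4 := by omega
      have hk : k = 2 := by omega
      refine ⟨Q.t * m', -Q.n * m' ^ 2, ?_, ?_⟩
      · intro h4
        rcases Q3.prime_two.dvd_or_dvd h4 with h5 | h5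
        · exact ht h5
        · apply hc2
          rw [D8a_dvd, e3]
          exact (h5.trans (dvd_pow_self m' two_ne_zero)).mul_left D₁
      · rw [hpow, hc, hE6, e3]
        linear_combination (16 * m' ^ 2) * hD1
    · exfalso
      apply ht
      have h4 : (2 : Eis) ∣ Q.t ^ 2 := by
        have h5 : Q.t ^ 2 = 2 * (-d + 2 * Q.n) := by
          linear_combination e1 - hD1
        exact ⟨_, h5⟩
      exact Q3.prime_two.dvd_of_dvd_pow h4
  · rintro ⟨s, c', hs, hD'⟩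
    set u : Eis := s ^ 2 + 4 * c' with hu
    have hu2 : ¬ (-2 : Eis) ∣ u := by
      rw [D8a_dvd]
      intro h1
      apply hs
      apply Q3.prime_two.dvd_of_dvd_pow (n := 2)
      have h2 : s ^ 2 = u - 2 * (2 * c') := by rw [hu]; ring
      rw [h2]
      exact dvd_sub h1 (dvd_mul_right _ _)
    have hDu : D = (-2) ^ 4 * u := by rw [hD', hpow]
    have hE4 : F.E (-2) - 2 = 4 := by
      apply D8a_unique JL.b3_two _ hc2 hu2
      rw [← hc, ← hDu]
    rcases parity hD h0 Q.sqf JL.b3_two hDu hu2 with ⟨g1, k, m', e1, e2, e3⟩ | ⟨k, m', d, e1, e2, -, -⟩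
    · have hm' : IsCoprime m' (2 : Eis) := by
        apply ((Q3.prime_two.irreducible.coprime_iff_not_dvd).2 ?_).symm
        intro h1
        apply hu2
        rw [D8a_dvd, e3]
        exact (h1.trans (dvd_pow_self m' two_ne_zero)).mul_left D₁
      have hm4 : IsCoprime m' (4 : Eis) := by
        have h1 : (4 : Eis) = 2 ^ 2 := by norm_num
        rw [h1]
        exact hm'.pow_right
      obtain ⟨α, β, hαβ⟩ := hm4
      have hsq : (4 : Eis) ∣ D₁ - (α * s) ^ 2 := by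
        have h1 : D₁ * m' ^ 2 = s ^ 2 + 4 * c' := by rw [← e3]
        refine ⟨D₁ * (2 * α * m' * β + 4 * β ^ 2) + α ^ 2 * c', ?_⟩
        have h2 : (α * m' + β * 4) ^ 2 = 1 := by rw [hαβ, one_pow]
        linear_combination (-D₁) * h2 + α ^ 2 * h1
      have hring : Q.t ^ 2 - 4 * Q.n = D₁ := by
        rcases Q.ring with h1 | ⟨-, -, h1⟩
        · exact h1
        · exact absurd hsq (h1 _)
      have hf : ¬ (-2 : Eis) ∣ Q.L.f := by
        rw [dvd_f_iff Q JL.b3_two JL.b3_twoP, hring]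
        exact g1
      push Not
      refine ⟨hf, ?_⟩
      intro h1
      have h2 := (Finset.mem_filter.1 (Finset.mem_filter.1 h1).1).2
      apply h2
      have h3 : F.E (-2) = 6 := by omega
      rw [h3]
      norm_num
    · omega

omit D D₁ in
theorem d8b_two : Prime (-2 : Eis) ∧ Primary (-2 : Eis) := ⟨JL.b3_two, JL.b3_twoP⟩

theorem d8b_cube (p a : Eis) (h : ¬ p ∣ a) : cr p a ^ 3 = 1 := by
  rcases CUL.cr_cases p a with ⟨-, h1⟩ | ⟨h1, -⟩
  · exact absurd h1 h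
  · rw [h1, CUL.zw_pow]
    have h2 : ((3 : ℕ) : ZMod 3) = 0 := by decide
    rw [h2, zero_mul, CUL.zw_zero]

theorem d8b_om : cr (-2) CU.om = zw 1 := by
  rcases CUL.cr_cases (-2) CU.om with ⟨-, h1⟩ | ⟨h1, -⟩
  · exact absurd (isUnit_of_dvd_unit h1 JL.b4_om) d8b_two.1.not_isUnit
  · rw [h1, CUL.sy_om d8b_two.1 d8b_two.2]
    congr 1

theorem d8b_la : cr (-2) la = zw (mo (-2)) := by
  rcases CUL.cr_cases (-2) la with ⟨-, h1⟩ | ⟨h1, -⟩
  · exact absurd (((CUL.cop_la d8b_two.2).isUnit_of_dvd' dvd_rfl h1)) d8b_two.1.not_isUnit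
  · rw [h1, CUL.sy_la d8b_two.1 d8b_two.2]

theorem d8b_odd {x : Eis} (h : ¬ (2 : Eis) ∣ x) :
    (2 : Eis) ∣ x - 1 ∨ (2 : Eis) ∣ x - CU.om ∨ (2 : Eis) ∣ x - CU.om ^ 2 := by
  rw [Q3L.k1_dvd 2 Q3L.k1_twoE] at h
  have h1 : (x - 1).re = x.re - 1 ∧ (x - 1).im = x.im := by
    have : (1 : Eis).re = 1 ∧ (1 : Eis).im = 0 := by decide
    refine ⟨?_, ?_⟩
    · rw [QuadraticAlgebra.re_sub, this.1]
    · rw [QuadraticAlgebra.im_sub, this.2, sub_zero]
  have h2 : (x - CU.om).re = x.re ∧ (x - CU.om).im = x.im - 1 := by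
    have : (CU.om : Eis).re = 0 ∧ (CU.om : Eis).im = 1 := by decide
    refine ⟨?_, ?_⟩
    · rw [QuadraticAlgebra.re_sub, this.1, sub_zero]
    · rw [QuadraticAlgebra.im_sub, this.2]
  have h3 : (x - CU.om ^ 2).re = x.re + 1 ∧ (x - CU.om ^ 2).im = x.im + 1 := by
    have : (CU.om ^ 2 : Eis).re = -1 ∧ (CU.om ^ 2 : Eis).im = -1 := by decide
    refine ⟨?_, ?_⟩
    · rw [QuadraticAlgebra.re_sub, this.1, sub_neg_eq_add]
    · rw [QuadraticAlgebra.im_sub, this.2, sub_neg_eq_add]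
  rw [Q3L.k1_dvd 2 Q3L.k1_twoE, Q3L.k1_dvd 2 Q3L.k1_twoE, Q3L.k1_dvd 2 Q3L.k1_twoE, h1.1, h1.2, h2.1, h2.2,
    h3.1, h3.2]
  omega

theorem d8b_zw_inj0 {j : ZMod 3} (h : zw j = 1) : j = 0 := CUL.zw_inj (by rw [h, CUL.zw_zero])

theorem d8b_cr_one {x : Eis} (h : ¬ (2 : Eis) ∣ x) : cr (-2) x = 1 ↔ (2 : Eis) ∣ x - 1 := by
  have h2 : ∀ y : Eis, (2 : Eis) ∣ y → (-2 : Eis) ∣ y := fun y hy => (neg_dvd).2 hy
  constructor
  · intro h1
    rcases d8b_odd h with h3 | h3 | h3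
    · exact h3
    · rw [CUL.cr_congr d8b_two.1 d8b_two.2 (h2 _ h3), d8b_om] at h1
      exact absurd (d8b_zw_inj0 h1) (by decide)
    · rw [CUL.cr_congr d8b_two.1 d8b_two.2 (h2 _ h3), CUL.cr_pow d8b_two.1 d8b_two.2, d8b_om, CUL.zw_pow] at h1
      exact absurd (d8b_zw_inj0 h1) (by decide)
  · intro h1
    rw [CUL.cr_congr d8b_two.1 d8b_two.2 (h2 _ h1), CUL.cr_one d8b_two.1 d8b_two.2]

theorem d8b_cr_prod {S : Finset Eis} (E : Eis → ℕ) :
    cr (-2) (∏ q ∈ S, q ^ E q) = ∏ q ∈ S, cr (-2) q ^ E q := by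
  induction S using Finset.induction_on with
  | empty => rw [Finset.prod_empty, Finset.prod_empty, CUL.cr_one d8b_two.1 d8b_two.2]
  | insert b S hb ih =>
    rw [Finset.prod_insert hb, Finset.prod_insert hb, CUL.cr_mul d8b_two.1 d8b_two.2, ih,
      CUL.cr_pow d8b_two.1 d8b_two.2]

/-- the value of the cubic character at `-2` if `3 ∣ E(-2)` -/
theorem d8b_cc (F : Fac D) (h3 : 3 ∣ F.E (-2)) : cc F (-2) = cr (-2) (∏ q ∈ F.S.erase (-2), q ^ F.E q) := by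
  rw [d8b_cr_prod]
  have hsub : Sc F ⊆ F.S.erase (-2) := by
    intro q hq
    obtain ⟨h1, h2⟩ := Finset.mem_filter.1 hq
    refine Finset.mem_erase.2 ⟨?_, h1⟩
    rintro rfl
    exact h2 h3
  rw [← Finset.prod_subset hsub]
  · unfold cc
    refine Finset.prod_congr rfl fun q hq => ?_
    have h1 := F.hS q (Finset.mem_filter.1 hq).1
    rw [CUL.cr_symm h1.1 h1.2 d8b_two.1 d8b_two.2]
  · intro q hq hq'
    obtain ⟨h1, h2⟩ := Finset.mem_erase.1 hq
    have h4 : 3 ∣ F.E q := by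
      by_contra h5
      exact hq' (Finset.mem_filter.2 ⟨h2, h5⟩)
    obtain ⟨n, hn⟩ := h4
    have h5 : ¬ (-2 : Eis) ∣ q := by
      intro h6
      have hdom := CM27.eis_isDomain
      have h7 : Associated (-2 : Eis) q := d8b_two.1.associated_of_dvd (F.hS q h2).1 h6
      exact h1 (CUL.primary_assoc d8b_two.2 (F.hS q h2).2 h7).symm
    rw [hn, pow_mul, d8b_cube _ _ h5, one_pow]

theorem exists_p2 (F : Fac D) {Q : QD D₁} {L : Lev} (hL : IsL F Q L) {m : Eis} (hD : D = D₁ * m ^ 2) (h0 : D ≠ 0) :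
    ∃ p₂ : Eis, JG.Val2 D p₂ ∧ emb p₂ = L.chi (-2) * conj (ka (-(F.v : ZMod 3)) F.i (-2)) * emb (-2) := by
  have hdom := CM27.eis_isDomain
  have hpid := CM27.eis_pid
  by_cases hG : JG.Good2 D
  swap
  · refine ⟨0, Or.inl ⟨hG, rfl⟩, ?_⟩
    have h1 : (-2 : Eis) ∣ L.f := by
      by_contra h2
      exact hG ((good2_iff F hL hD h0).1 h2)
    have h2 : L.chi (-2) = 0 := by
      by_contra h3
      have h4 := (chi_ne_zero_iff L (-2)).1 h3
      exact d8b_two.1.not_isUnit (h4.isUnit_of_dvd' dvd_rfl h1)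
    rw [h2, map_zero, zero_mul, zero_mul]
  have hf : ¬ (-2 : Eis) ∣ L.f := (good2_iff F hL hD h0).2 hG
  have hcop : IsCoprime (-2 : Eis) L.f := (d8b_two.1.irreducible.coprime_iff_not_dvd).2 hf
  have hQf : ¬ (-2 : Eis) ∣ Q.L.f := fun h => hf (by rw [hL.hf]; exact h.mul_right _)
  have hTT : (-2 : Eis) ∉ TT F Q := fun h => hf (by
    rw [hL.hf]
    exact (Finset.dvd_prod_of_mem (fun q : Eis => q) h).mul_left _)
  have h3 : 3 ∣ F.E (-2) := by
    by_contra h4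
    exact hTT (Finset.mem_filter.2 ⟨Finset.mem_filter.2 ⟨F.h2, h4⟩, hQf⟩)
  obtain ⟨ht, hD₁, hq⟩ := q_two Q hQf
  have h2p : Prime (2 : Eis) := Q3.prime_two
  have hD₁odd : ¬ (-2 : Eis) ∣ D₁ := by
    rw [neg_dvd]
    intro h4
    have h5 : (2 : Eis) ∣ Q.t ^ 2 := by
      have h6 : Q.t ^ 2 = D₁ + 2 * (2 * Q.n) := by linear_combination -hD₁
      rw [h6]
      exact dvd_add h4 (dvd_mul_right _ _)
    exact ht (h2p.dvd_of_dvd_pow h5)
  obtain ⟨c, hc, hc2⟩ := fac_two F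
  rcases parity hD h0 Q.sqf d8b_two.1 hc hc2 with ⟨-, k, m', hk, hm', hcm⟩ | ⟨k, m', d, hd, -⟩
  swap
  · exact absurd ⟨d, hd⟩ hD₁odd
  have hE6 : F.E (-2) = 6 := by
    obtain ⟨h5, h6⟩ := F.hE2
    omega
  have hm2 : ¬ (2 : Eis) ∣ m' := by
    intro h4
    apply hc2
    rw [neg_dvd, hcm, pow_two]
    exact (h4.mul_right _).mul_left _
  have hD16 : D = 16 * ((Q.t * m') ^ 2 + 4 * (-Q.n * m' ^ 2)) := by
    have e1 : D = (-2) ^ 4 * c := by
      rw [hE6] at hc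
      exact hc
    linear_combination e1 + 16 * hcm + 16 * m' ^ 2 * hD₁
  have hs : ¬ (2 : Eis) ∣ Q.t * m' := fun h4 => (h2p.dvd_or_dvd h4).elim ht hm2
  -- the cubic part
  obtain ⟨j, hj⟩ : ∃ j : ZMod 3, cc F (-2) * conj (ka (-(F.v : ZMod 3)) F.i (-2)) = zw j := by
    have h4 : ∀ p ∈ Sc F, ¬ p ∣ (-2 : Eis) := by
      intro p hp h5
      obtain ⟨h6, h7⟩ := Finset.mem_filter.1 hp
      have h8 : Associated p (-2 : Eis) := (F.hS p h6).1.associated_of_dvd d8b_two.1 h5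
      have h9 := CUL.primary_assoc (F.hS p h6).2 d8b_two.2 h8
      rw [h9] at h7
      exact h7 h3
    obtain ⟨j, hj⟩ := cc_zw F h4
    refine ⟨j - (-(F.v : ZMod 3) * mo (-2) + F.i * mn (-2)), ?_⟩
    unfold ka
    rw [hj, CUL.zw_conj, ← CUL.zw_add, sub_eq_add_neg]
  have hval : zw j = cr (-2) (Q.t * m') ^ 2 := by
    have e1 : CU.om ^ F.i * la ^ F.v * (F.η * ∏ q ∈ F.S.erase (-2), q ^ F.E q) =
        (Q.t * m') ^ 2 + (-2) * (2 * (Q.n * m' ^ 2)) := by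
      have e2 : (64 : Eis) * (CU.om ^ F.i * la ^ F.v * (F.η * ∏ q ∈ F.S.erase (-2), q ^ F.E q)) =
          64 * ((Q.t * m') ^ 2 + (-2) * (2 * (Q.n * m' ^ 2))) := by
        have e3 : 4 * F.Ds = (-2) ^ 6 * ∏ q ∈ F.S.erase (-2), q ^ F.E q := by
          rw [F.h4, ← Finset.mul_prod_erase F.S _ F.h2, hE6]
        have e4 : 4 * D = 64 * ((Q.t * m') ^ 2 + (-2) * (2 * (Q.n * m' ^ 2))) := by
          linear_combination 4 * hD16
        rw [← e4]
        calc (64 : Eis) * (CU.om ^ F.i * la ^ F.v * (F.η * ∏ q ∈ F.S.erase (-2), q ^ F.E q)) =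
            F.η * CU.om ^ F.i * la ^ F.v * ((-2) ^ 6 * ∏ q ∈ F.S.erase (-2), q ^ F.E q) := by ring
          _ = 4 * (F.η * CU.om ^ F.i * la ^ F.v * F.Ds) := by rw [← e3]; ring
          _ = 4 * D := by rw [← F.hD]
      exact mul_left_cancel₀ (by decide) e2
    have e5 : cr (-2) (CU.om ^ F.i * la ^ F.v) = conj (ka (-(F.v : ZMod 3)) F.i (-2)) := by
      rw [CUL.cr_mul d8b_two.1 d8b_two.2, CUL.cr_pow d8b_two.1 d8b_two.2, CUL.cr_pow d8b_two.1 d8b_two.2,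
        d8b_om, d8b_la, CUL.zw_pow, CUL.zw_pow, ← CUL.zw_add]
      unfold ka
      rw [CUL.zw_conj]
      congr 1
      have h6 : mn (-2) = -1 := by decide
      rw [h6]
      ring
    have e6 : cr (-2) F.η = 1 := by
      rcases F.hη with h | h
      · rw [h, CUL.cr_one d8b_two.1 d8b_two.2]
      · rw [h, CUL.cr_neg d8b_two.1 d8b_two.2, CUL.cr_one d8b_two.1 d8b_two.2]
    rw [← hj, d8b_cc F h3, ← e5, ← CUL.cr_pow d8b_two.1 d8b_two.2, mul_comm]
    have e7 : cr (-2) (CU.om ^ F.i * la ^ F.v * (F.η * ∏ q ∈ F.S.erase (-2), q ^ F.E q)) =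
        cr (-2) (CU.om ^ F.i * la ^ F.v) * cr (-2) (∏ q ∈ F.S.erase (-2), q ^ F.E q) := by
      rw [CUL.cr_mul d8b_two.1 d8b_two.2, CUL.cr_mul d8b_two.1 d8b_two.2 F.η, e6, one_mul]
    rw [← e7, e1]
    refine CUL.cr_congr d8b_two.1 d8b_two.2 ?_
    rw [add_sub_cancel_left]
    exact dvd_mul_right _ _
  have hj0 : j = 0 ↔ (2 : Eis) ∣ Q.t * m' - 1 := by
    rw [← d8b_cr_one hs]
    have h4 : ¬ (-2 : Eis) ∣ Q.t * m' := by rwa [neg_dvd]
    have h5 := d8b_cube _ _ h4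
    constructor
    · intro h6
      rw [h6, CUL.zw_zero] at hval
      calc cr (-2) (Q.t * m') = cr (-2) (Q.t * m') ^ 3 * (cr (-2) (Q.t * m') ^ 2)⁻¹ * 1 := by
            rw [← hval, h5, inv_one, mul_one, mul_one]
            calc cr (-2) (Q.t * m') = cr (-2) (Q.t * m') * cr (-2) (Q.t * m') ^ 2 := by rw [← hval, mul_one]
              _ = cr (-2) (Q.t * m') ^ 3 := by ring
              _ = 1 := h5
        _ = 1 := by rw [← hval, h5, inv_one, mul_one, mul_one]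
    · intro h6
      rw [h6, one_pow] at hval
      exact d8b_zw_inj0 hval
  have hLq : L.q (-2) = Q.L.q (-2) := hL.hq _ hcop
  have hpm := L.q_pm _ hcop
  have hom : emb (CU.om ^ j.val) = zw j := by
    rw [map_pow, CUL.emb_om]
    rfl
  refine ⟨-2 * (L.q (-2) : Eis) * CU.om ^ j.val, Or.inr ⟨Q.t * m', -Q.n * m' ^ 2, (L.q (-2) : Eis),
    CU.om ^ j.val, hs, hD16, rfl, ?_, ?_, ?_, ?_⟩, ?_⟩
  · rcases hpm with h | h
    · left; rw [h, Int.cast_one]
    · right; rw [h, Int.cast_neg, Int.cast_one]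
  · have h4 : ((L.q (-2) : Eis) = 1) ↔ Q.L.q (-2) = 1 := by
      rw [← hLq]
      rcases hpm with h | h
      · rw [h]
        simp
      · rw [h]
        constructor
        · intro h5
          exact absurd h5 (by decide)
        · intro h5
          exact absurd h5 (by decide)
    rw [h4, hq]
    constructor
    · rintro ⟨y, hy⟩
      refine ⟨-m' * y, ?_⟩
      have e : -Q.n * m' ^ 2 - (-m' * y) ^ 2 - Q.t * m' * (-m' * y) =
          (y ^ 2 - Q.t * y + Q.n) * (-m' ^ 2) := by ring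
      rw [e]
      exact hy.mul_right _
    · rintro ⟨x, hx⟩
      obtain ⟨u, w', huw⟩ : IsCoprime m' (2 : Eis) := ((h2p.irreducible.coprime_iff_not_dvd).2 hm2).symm
      refine ⟨-x * u, ?_⟩
      have e : (-x * u) ^ 2 - Q.t * (-x * u) + Q.n =
          (-Q.n * m' ^ 2 - x ^ 2 - Q.t * m' * x) * (-u ^ 2) + 2 * (w' * (-Q.t * x * u +
            Q.n * (1 + m' * u) + 2 * Q.t * x * u)) := by
        linear_combination (-(-Q.t * x * u + Q.n * (1 + m' * u) + 2 * Q.t * x * u)) * huw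
      rw [e]
      exact dvd_add (hx.mul_right _) (dvd_mul_right _ _)
  · rw [← pow_mul, mul_comm, pow_mul]
    have : CU.om ^ 3 = (1 : Eis) := by decide
    rw [this, one_pow]
  · rw [← hj0]
    constructor
    · intro h4
      rw [h4, map_one] at hom
      exact d8b_zw_inj0 hom.symm
    · intro h4
      rw [h4]
      rfl
  · have h4 : L.chi (-2) * conj (ka (-(F.v : ZMod 3)) F.i (-2)) = (L.q (-2) : ℂ) * zw j := by
      unfold Lev.chi
      rw [hL.hc _ hcop, mul_assoc, hj]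
    rw [h4, map_mul, map_mul, hom, map_intCast, map_neg, map_ofNat]
    ring


end JGL
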