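import Pool.Agent.JGL.D3
import Pool.Agent.JGL.D5

/-!
# [JGL-D9] the value at `λ`

PROOF. `q_la_D`: `L.q la = Q.L.q la` (`hL.hq`, `la_cop` in Ba.lean), `L.ep = Q.L.ep`. `fac_la`: `D = la ^ v c`, `la ∣ c - η` (so `¬ la ∣ c`); `parity` (`CUL.la_prime`): `ep = 0`: `¬ la ∣ D₁` (`Q.lam`), `c = D₁ m'²`, `sl c = sl D₁ (sl m')² = sl D₁` (`sl m' = ± 1`), so `sl D₁ = sl η = η`; `qla_even`. `ep = 1`: `D₁ = la d`, `c = d m'²`, `sl d = η`; `qla_odd`. `ep_D`: `parity`, `Q.lam`, `Q.L.hep`.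
`exists_pl`: if `¬ GoodL D`: `pl = 0`. Otherwise `D = la ^ 3 (η' + la ^ 3 c')`: `v = 3` (exact power, `fac_la`), `η ω ^ i Ds = η' + la ^ 3 c'` (cancel), so modulo `3` (`Ds ≡ 1`, `3 ∣ la ^ 3`): `3 ∣ η ω ^ i - η'`, so `i = 0`, `η' = η` (`i < 3`, six units are different modulo `3`). `ep = 1`, `L.q la = - η` (`hq`).
`la ^ 3 = -3 (1 + 2 ω)`. `c' ≡ n mod la` for an `n ∈ {0, 1, -1}`: `c' = n + la y`, `(1 + 2 ω) la = -3 ω² ...` is divisible by `3`: `Ds = 1 + η la ^ 3 c' ≡ 1 - 3 η n (1 + 2 ω) mod 9`, so `mo Ds = - η n` in `ZMod 3` (`mo b = (b.re - 1) / 3`). `L.c la = cc F la = zw (1 + mo Ds) = zw (1 - η n)` (`cc_la`, `hL.hc`).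
`pl = - η ω ^ j la`, `j = (1 - η n).val`: `emb pl = L.chi la * emb la`. `pl (star pl) = 3` (units; `la (star la) = 3`), `pl + star pl = -3 n`: six cases `(η, n)`, `decide`: e.g. `n = 0`: `ω la = ω - ω²`, trace `0`; `η n = 1`: `- η la`, trace `-3 η = -3 n`; `η n = -1`: `- η ω² la = - η (ω² - 1)`, trace `3 η = -3 n`.
-/

set_option autoImplicit false

open NumberField IsDedekindDomain Filter Topology
open scoped Classical ComplexConjugate

namespace JGL

open CM27 JZ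
open CU (la eE)
open CUL (Nl ez si ta DS Cont LV IsRep rp cr mn mo zw OT GalU W3 W9)
open JL (N1 KD sD Psi6)

variable {D D₁ : Eis}

omit D D₁ in
theorem d9_la_unit {u : Eis} (hu : IsUnit u) : ¬ la ∣ u :=
  fun h => CUL.la_prime.not_isUnit (isUnit_of_dvd_unit h hu)

theorem d9_eta_unit (F : Fac D) : IsUnit F.η := by
  rcases F.hη with h | h
  · rw [h]; exact isUnit_one
  · rw [h]; exact isUnit_one.neg

/-- the exact power of `la` -/
theorem d9_exact {p x y : Eis} (hp : Prime p) {a b : ℕ} (h : p ^ a * x = p ^ b * y) (hx : ¬ p ∣ x) (hy : ¬ p ∣ y) :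
    a = b ∧ x = y := by
  have hdom := CM27.eis_isDomain
  have key : ∀ (a b : ℕ) (x y : Eis), p ^ a * x = p ^ b * y → ¬ p ∣ x → a ≤ b → a = b ∧ x = y := by
    intro a b x y h hx hab
    obtain ⟨k, rfl⟩ := Nat.exists_eq_add_of_le hab
    have h1 : x = p ^ k * y := by
      have h2 : p ^ a * x = p ^ a * (p ^ k * y) := by rw [h, pow_add]; ring
      exact mul_left_cancel₀ (pow_ne_zero a hp.ne_zero) h2
    rcases Nat.eq_zero_or_pos k with rfl | hk
    · refine ⟨rfl, ?_⟩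
      rw [h1, pow_zero, one_mul]
    · exfalso
      apply hx
      rw [h1]
      exact (dvd_pow_self p hk.ne').mul_right y
  rcases le_total a b with hab | hab
  · exact key a b x y h hx hab
  · obtain ⟨h1, h2⟩ := key b a y x h.symm hy hab
    exact ⟨h1.symm, h2.symm⟩

theorem d9_cases (F : Fac D) {m : Eis} (Q : QD D₁) (hD : D = D₁ * m ^ 2) (h0 : D ≠ 0) :
    ∃ c m' : Eis, la ∣ c - F.η ∧ ¬ la ∣ m' ∧
      ((Q.L.ep = 0 ∧ F.v % 2 = 0 ∧ c = D₁ * m' ^ 2) ∨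
        (∃ d : Eis, Q.L.ep = 1 ∧ F.v % 2 = 1 ∧ D₁ = la * d ∧ c = d * m' ^ 2)) := by
  obtain ⟨c, hc, hcη⟩ := fac_la F
  have hcl : ¬ la ∣ c := by
    intro h
    apply d9_la_unit (d9_eta_unit F)
    have h1 : F.η = c - (c - F.η) := by ring
    rw [h1]
    exact dvd_sub h hcη
  rcases parity hD h0 Q.sqf CUL.la_prime hc hcl with ⟨h1, k, m', hk, -, hcm⟩ | ⟨k, m', d, hd, hk, -, hcm⟩
  · refine ⟨c, m', hcη, ?_, Or.inl ⟨?_, ?_, hcm⟩⟩
    · intro h2
      apply hcl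
      rw [hcm, pow_two]
      exact (h2.mul_right _).mul_left _
    · rcases Q.L.hep with h2 | h2
      · exact h2
      · exact absurd (Q.lam.2 h2) h1
    · omega
  · refine ⟨c, m', hcη, ?_, Or.inr ⟨d, Q.lam.1 ⟨d, hd⟩, ?_, hd, hcm⟩⟩
    · intro h2
      apply hcl
      rw [hcm, pow_two]
      exact (h2.mul_right _).mul_left _
    · omega

theorem d9_sl_eta (F : Fac D) : ((sl F.η : ℤ) : Eis) = F.η := by
  rcases F.hη with h | h
  · rw [h]
    have h1 : sl 1 = 1 := by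
      unfold sl
      rw [if_pos (by rw [sub_self]; exact dvd_zero _)]
    rw [h1, Int.cast_one]
  · rw [h]
    have h1 : sl (-1) = -1 := by
      unfold sl
      rw [if_neg, if_pos (by rw [neg_add_cancel]; exact dvd_zero _)]
      rw [CUL.la_dvd_iff]
      decide
    rw [h1, Int.cast_neg, Int.cast_one]

theorem d9_sl_sq {m' : Eis} (h : ¬ la ∣ m') : sl (m' ^ 2) = 1 := by
  rw [pow_two, sl_mul]
  rcases sl_cases m' with ⟨h1, -⟩ | ⟨-, h1⟩ | ⟨-, h1⟩
  · exact absurd h1 h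
  · rw [h1]; norm_num
  · rw [h1]; norm_num

theorem ep_D (F : Fac D) {Q : QD D₁} {L : Lev} (hL : IsL F Q L) {m : Eis} (hD : D = D₁ * m ^ 2) (h0 : D ≠ 0) :
    L.ep = F.v % 2 := by
  obtain ⟨c, m', -, -, ⟨h1, h2, -⟩ | ⟨d, h1, h2, -⟩⟩ := d9_cases F Q hD h0
  · rw [hL.hep, h1, h2]
  · rw [hL.hep, h1, h2]


theorem q_la_D (F : Fac D) {Q : QD D₁} {L : Lev} (hL : IsL F Q L) {m : Eis} (hD : D = D₁ * m ^ 2) (h0 : D ≠ 0) :
    (L.q la : Eis) = if L.ep = 0 then F.η else -F.η := by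
  obtain ⟨c, m', hc, hm, h⟩ := d9_cases F Q hD h0
  have hq : L.q la = Q.L.q la := hL.hq _ (la_cop L)
  have hs : sl c = sl F.η := sl_congr hc
  rcases h with ⟨h1, -, h3⟩ | ⟨d, h1, -, h3, h4⟩
  · have h5 : Q.L.q la = sl F.η := by
      have h6 : sl c = sl D₁ := by
        have h7 := congrArg sl h3
        rw [sl_mul, d9_sl_sq hm, mul_one] at h7
        exact h7
      rw [qla_even Q h1, ← h6, hs]
    rw [hL.hep, h1, if_pos rfl, hq, h5, d9_sl_eta]
  · have h5 : Q.L.q la = -sl F.η := by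
      have h6 : sl c = sl d := by
        have h7 := congrArg sl h4
        rw [sl_mul, d9_sl_sq hm, mul_one] at h7
        exact h7
      rw [qla_odd Q h1 h3, ← h6, hs]
    rw [hL.hep, h1, if_neg (by norm_num), hq, h5, Int.cast_neg, d9_sl_eta]


theorem exists_pl (F : Fac D) {Q : QD D₁} {L : Lev} (hL : IsL F Q L) {m : Eis} (hD : D = D₁ * m ^ 2) (h0 : D ≠ 0) :
    ∃ pl : Eis, JG.ValL D pl ∧ (JG.GoodL D → emb pl = L.chi la * emb la) := by
  have hdom := CM27.eis_isDomain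
  by_cases hG : JG.GoodL D
  swap
  · exact ⟨0, Or.inl ⟨hG, rfl⟩, fun h => absurd h hG⟩
  obtain ⟨η', c', hη', hDG⟩ := id hG
  have hη'u : IsUnit η' := by
    rcases hη' with h | h
    · rw [h]; exact isUnit_one
    · rw [h]; exact isUnit_one.neg
  have h3la : (3 : Eis) ∣ la ^ 3 := ⟨⟨-1, -2⟩, by decide⟩
  have hx : ¬ la ∣ F.η * CU.om ^ F.i * F.Ds := by
    intro h
    rcases CUL.la_prime.dvd_or_dvd h with h1 | h1
    · exact d9_la_unit ((d9_eta_unit F).mul (JL.b4_om.pow _)) h1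
    · exact CUL.primary_not_la F.hDs h1
  have hy : ¬ la ∣ η' + la ^ 3 * c' := by
    intro h
    apply d9_la_unit hη'u
    have h1 : η' = (η' + la ^ 3 * c') - la * (la ^ 2 * c') := by ring
    rw [h1]
    exact dvd_sub h (dvd_mul_right _ _)
  have hex : la ^ F.v * (F.η * CU.om ^ F.i * F.Ds) = la ^ 3 * (η' + la ^ 3 * c') := by
    rw [← hDG]
    calc la ^ F.v * (F.η * CU.om ^ F.i * F.Ds) = F.η * CU.om ^ F.i * la ^ F.v * F.Ds := by ring
      _ = D := F.hD.symm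
  obtain ⟨hv, hxy⟩ := d9_exact CUL.la_prime hex hx hy
  -- the unit
  have h3 : (3 : Eis) ∣ F.η * CU.om ^ F.i - η' := by
    obtain ⟨s, hs⟩ := F.hDs
    obtain ⟨r, hr⟩ := h3la
    have e : F.η * CU.om ^ F.i - η' = 3 * (r * c' - F.η * CU.om ^ F.i * s) := by
      linear_combination (-(F.η * CU.om ^ F.i)) * hs + hxy + c' * hr
    rw [e]
    exact dvd_mul_right _ _
  have h3' := (Q3L.k1_dvd 3 (by decide : (3 : Eis) = ⟨3, 0⟩) _).1 h3
  have hun : F.i = 0 ∧ η' = F.η := by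
    have hi := F.hi
    have hi' : F.i = 0 ∨ F.i = 1 ∨ F.i = 2 := by omega
    rcases hi' with h1 | h1 | h1 <;> rcases F.hη with h2 | h2 <;> rcases hη' with h4 | h4 <;>
      rw [h1, h2, h4] at h3' <;> first
        | exact absurd h3' (by decide)
        | exact ⟨h1, by rw [h2, h4]⟩
  obtain ⟨hi0, hηη⟩ := hun
  have hη2 : F.η * F.η = 1 := by
    rcases F.hη with h | h <;> rw [h] <;> norm_num
  have hDs : F.Ds = 1 + F.η * la ^ 3 * c' := by
    rw [hi0, pow_zero, mul_one, hηη] at hxy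
    linear_combination F.η * hxy + (1 - F.Ds) * hη2
  have hep : L.ep = 1 := by
    rw [ep_D F hL hD h0, hv]
  have hqla := q_la_D F hL hD h0
  rw [hep, if_neg (by norm_num)] at hqla
  have hqC : (L.q la : ℂ) = emb (-F.η) := by
    rw [← hqla, map_intCast]
  -- the residue of `c'`
  obtain ⟨n, hn, y, hy'⟩ : ∃ n : ℤ, (n = 0 ∨ n = 1 ∨ n = -1) ∧ la ∣ c' - n := by
    rcases sl_cases c' with ⟨h1, -⟩ | ⟨h1, -⟩ | ⟨h1, -⟩
    · exact ⟨0, Or.inl rfl, by rw [Int.cast_zero, sub_zero]; exact h1⟩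
    · exact ⟨1, Or.inr (Or.inl rfl), by rw [Int.cast_one]; exact h1⟩
    · exact ⟨-1, Or.inr (Or.inr rfl), by rw [Int.cast_neg, Int.cast_one, sub_neg_eq_add]; exact h1⟩
  have hDs' : F.Ds = 1 + F.η * (⟨-3, -6⟩ * (n : Eis) + ⟨-9, -9⟩ * y) := by
    have e1 : la ^ 3 = (⟨-3, -6⟩ : Eis) := by decide
    have e2 : (⟨-3, -6⟩ : Eis) * la = ⟨-9, -9⟩ := by decide
    rw [hDs, e1]
    linear_combination (F.η * ⟨-3, -6⟩) * hy' + F.η * y * e2
  have hc : L.c la = zw (1 + mo F.Ds) := by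
    rw [hL.hc _ (la_cop L), cc_la]
  have hre : ∀ (ε k : ℤ), F.η = (ε : Eis) → n = k → mo F.Ds = ((-(ε * k) : ℤ) : ZMod 3) := by
    intro ε k hε hk
    have e3 : F.Ds.re = 1 + ε * (-3 * k + (-9 * y.re + 9 * y.im)) := by
      rw [hDs', hε, hk]
      simp only [QuadraticAlgebra.re_add, QuadraticAlgebra.re_mul, QuadraticAlgebra.im_mul,
        QuadraticAlgebra.re_intCast, QuadraticAlgebra.im_intCast, QuadraticAlgebra.re_one,
        QuadraticAlgebra.im_add, Int.cast_id]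
      ring
    unfold mo
    have e4 : (F.Ds.re - 1) / 3 = -(ε * k) + 3 * (ε * (-y.re + y.im)) := by
      have e5 : F.Ds.re - 1 = 3 * (-(ε * k) + 3 * (ε * (-y.re + y.im))) := by rw [e3]; ring
      rw [e5, Int.mul_ediv_cancel_left _ (by norm_num)]
    rw [e4]
    push_cast
    have h30 : (3 : ZMod 3) = 0 := by decide
    rw [h30]
    ring
  have hzw : ∀ j : ZMod 3, zw j = emb (CU.om ^ j.val) := by
    intro j
    rw [map_pow, CUL.emb_om]
    rfl
  have main : ∀ (ε k : ℤ) (j : ZMod 3), F.η = (ε : Eis) → n = k → (1 + ((-(ε * k) : ℤ) : ZMod 3)) = j →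
      (-(ε : Eis) * CU.om ^ j.val * la) * star (-(ε : Eis) * CU.om ^ j.val * la) = 3 →
      (-(ε : Eis) * CU.om ^ j.val * la) + star (-(ε : Eis) * CU.om ^ j.val * la) = -3 * (k : Eis) →
      ∃ pl : Eis, JG.ValL D pl ∧ (JG.GoodL D → emb pl = L.chi la * emb la) := by
    intro ε k j hε hk hj h5 h6
    refine ⟨-(ε : Eis) * CU.om ^ j.val * la, Or.inr ⟨η', c', n, hη', hDG, hn, ⟨y, hy'⟩, h5, ?_⟩, fun _ => ?_⟩
    · rw [h6, hk]
    · unfold Lev.chi
      rw [hc, hre ε k hε hk, hj, hqC, hzw, hε, map_mul, map_mul, map_neg]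
  rcases F.hη with h | h <;> rcases hn with h' | h' | h'
  · exact main 1 0 1 (by rw [h, Int.cast_one]) h' (by decide) (by decide) (by decide)
  · exact main 1 1 0 (by rw [h, Int.cast_one]) h' (by decide) (by decide) (by decide)
  · exact main 1 (-1) 2 (by rw [h, Int.cast_one]) h' (by decide) (by decide) (by decide)
  · exact main (-1) 0 1 (by rw [h, Int.cast_neg, Int.cast_one]) h' (by decide) (by decide) (by decide)
  · exact main (-1) 1 2 (by rw [h, Int.cast_neg, Int.cast_one]) h' (by decide) (by decide) (by decide)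
  · exact main (-1) (-1) 0 (by rw [h, Int.cast_neg, Int.cast_one]) h' (by decide) (by decide) (by decide)


end JGL
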