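import Pool.Agent.JGL.T
import Pool.Agent.JZ.I2
import Pool.Agent.Q3.QR1

/-!
# [JGL-U2] `x` and `U` are units at the torsion points outside of the residue characteristic (also at `2`)

`B` a valuation ring of `ℂ`, `p` a prime of `Eis` with `B.valuation (emb p) < 1`, not dividing `3`; `z` not in the lattice, `m z` in the lattice, `m` coprime to `p` and not divisible by `la`.
`u2_int`: `B.valuation (xw z) ≤ 1`. If `¬ p ∣ 2`: `JZ.i2_main` (`B.valuation 2 = 1`, `B.valuation (emb m) = 1`: `JZ.i2_unit`). If `p ∣ 2`: `B.valuation 2 < 1`, `m` is coprime to `2` (`p` is associated to `2`).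
Doubling: `xw (2 z) = (xw z ^ 4 - 2 xw z) / (4 xw z ^ 3 + 1)` (`yw ^ 2 = 4 xw ^ 3 + 1`; from `JZ.i1_line` with `u = v`, or see `CM27`/`CUL` for a duplication formula). If `|x(z)| > 1` then `|x(2z)| = |x|^4 / |4 x^3 + 1| > |x|` (`|4 x³ + 1| ≤ max(|4| |x|³, 1) < |x|³`). So `|x(2^k z)|` is strictly increasing;
but `2^k ≡ 1 mod m` for some `k > 0` (finite quotient; `m ≠ 0`), `x(2^k z) = x(z)`: contradiction.
`u2_x`: if `|x(z)| < 1` then `|x(λ z)| = |x³ + 1| / (|λ|² |x|²) > 1` (`xw_la`, `B.valuation (emb la) = 1`), and `λ z` is of the same kind (as in `JZ.x_unit`): contradiction.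
`u2_x3`: `xw (λ z) (λ² x²) = x³ + 1` and `|x(λ z)| = 1`.
`u2_U`: `ym² = 4 xm³ + 1`, `xm³ = xw³`. If `¬ p ∣ 2`: `(ym - th)(ym + th) = ym² + 3 = 4 (xw³ + 1)` is a unit and both factors are integral (`ym` integral: `JZ.i1_y_le`). If `p ∣ 2`: `ym = 2 Y + 1`, `Y (Y + 1) = xw³`, `Y` is integral; `th + ym = 2 (Y - w²)`, `th - ym = 2 (w - Y)` (`1 + th = -2 w²`, `th - 1 = 2 w`, `th = w - w²`), `Um = (Y - w²)/(w - Y)`, `(Y - w)(Y - w²) = Y² + Y + 1 = xw³ + 1`.
-/

set_option autoImplicit false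

open NumberField IsDedekindDomain Filter Topology
open scoped Classical ComplexConjugate

namespace JGL

open CM27 JZ
open CU (la eE)
open CUL (Nl ez si ta DS Cont LV IsRep rp cr mn mo zw OT GalU W3 W9)
open JL (N1 KD sD Psi6)

variable {B : ValuationSubring ℂ}

/-- the duplication formula -/
theorem u2_dbl {z : ℂ} (hz : Nl z) (h2 : Nl (z + z)) :
    xw (z + z) * (4 * xw z ^ 3 + 1) = xw z ^ 4 - 2 * xw z := by
  obtain ⟨l, N, -, -, -, e1, e2, e3⟩ := i1_line hz hz h2
  linear_combination (1 / 4 * N ^ 2) * e1 - (1 / 4) * (2 * (xw z * xw z + (xw z + xw z) * xw (z + z)) -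
    l * N) * e2 + (2 * xw z + xw (z + z)) * e3

theorem u2_cop_two {p : Eis} (hp : Prime p) (h2 : p ∣ 2) {m : Eis} (hmp : IsCoprime m p) : IsCoprime m 2 := by
  have hdom : IsDomain Eis := eis_isDomain
  have h1 : Associated p 2 := hp.associated_of_dvd Q3.prime_two h2
  exact hmp.of_isCoprime_of_dvd_right h1.symm.dvd

theorem u2_two_lt {p : Eis} (hB : B.valuation (emb p) < 1) (h2 : p ∣ 2) : B.valuation 2 < 1 := by
  obtain ⟨k, hk⟩ := h2
  have h1 : (2 : ℂ) = emb p * emb k := by
    rw [← map_mul, ← hk, map_ofNat]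
  rw [h1, map_mul]
  exact lt_of_le_of_lt (mul_le_mul' le_rfl (i2_emb_le k)) (by rwa [mul_one])

theorem u2_cop {p : Eis} (hp : Prime p) {k : Eis} (hk : ¬ p ∣ k) : IsCoprime k p := by
  have hpid : IsPrincipalIdealRing Eis := eis_pid
  have hdom : IsDomain Eis := eis_isDomain
  exact ((hp.irreducible.coprime_iff_not_dvd).2 hk).symm

theorem u2_two_eq {p : Eis} (hp : Prime p) (hB : B.valuation (emb p) < 1) (h2 : ¬ p ∣ 2) : B.valuation 2 = 1 := by
  have := i2_unit hB (u2_cop hp h2)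
  rwa [map_ofNat] at this

/-- a multiple prime to `m` is not in the lattice -/
theorem u2_nl {z : ℂ} (hz : Nl z) {m : Eis} (hm : emb m * z ∈ Set.range emb) {k : Eis} (hk : IsCoprime m k) :
    Nl (emb k * z) := by
  rintro ⟨b, hb⟩
  apply hz
  obtain ⟨a, ha⟩ := hm
  obtain ⟨c, d, hcd⟩ := hk
  refine ⟨c * a + d * b, ?_⟩
  have h5 : emb c * emb m + emb d * emb k = 1 := by
    rw [← map_mul, ← map_mul, ← map_add, hcd, map_one]
  rw [map_add, map_mul, map_mul, ha, hb]
  linear_combination z * h5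

theorem u2_step (h2 : B.valuation 2 < 1) {x X : ℂ} (h : X * (4 * x ^ 3 + 1) = x ^ 4 - 2 * x)
    (hx : 1 < B.valuation x) : B.valuation x < B.valuation X := by
  have hx0 : 0 < B.valuation x := lt_trans zero_lt_one hx
  have hx3 : (1 : B.ValueGroup) < B.valuation x ^ 3 := one_lt_pow₀ hx (by norm_num)
  have h1 : B.valuation (2 * x) < B.valuation (x ^ 4) := by
    rw [map_mul, map_pow]
    calc B.valuation 2 * B.valuation x < 1 * B.valuation x := (mul_lt_mul_iff_left₀ hx0).2 h2
      _ = B.valuation x ^ 1 := by rw [one_mul, pow_one]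
      _ < B.valuation x ^ 4 := pow_lt_pow_right₀ hx (by norm_num)
  have h3 : B.valuation (x ^ 4 - 2 * x) = B.valuation x ^ 4 := by
    rw [Valuation.map_sub_eq_of_lt_left _ h1, map_pow]
  have h4 : B.valuation (4 * x ^ 3 + 1) < B.valuation x ^ 3 := by
    refine lt_of_le_of_lt (B.valuation.map_add _ _) (max_lt ?_ (by rwa [map_one]))
    have e : (4 : ℂ) = 2 * 2 := by norm_num
    rw [e, map_mul, map_mul, map_pow]
    have h5 : B.valuation 2 * B.valuation 2 < 1 := by
      calc B.valuation 2 * B.valuation 2 ≤ B.valuation 2 * 1 := mul_le_mul' le_rfl h2.le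
        _ = B.valuation 2 := mul_one _
        _ < 1 := h2
    calc B.valuation 2 * B.valuation 2 * B.valuation x ^ 3 < 1 * B.valuation x ^ 3 :=
          (mul_lt_mul_iff_left₀ (lt_trans zero_lt_one hx3)).2 h5
      _ = _ := one_mul _
  by_contra hcon
  push Not at hcon
  have h6 : B.valuation x ^ 4 = B.valuation X * B.valuation (4 * x ^ 3 + 1) := by
    rw [← map_mul, h, h3]
  have h7 : B.valuation X * B.valuation (4 * x ^ 3 + 1) < B.valuation x ^ 4 := by
    calc B.valuation X * B.valuation (4 * x ^ 3 + 1) ≤ B.valuation x * B.valuation (4 * x ^ 3 + 1) :=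
          mul_le_mul' hcon le_rfl
      _ < B.valuation x * B.valuation x ^ 3 := (mul_lt_mul_iff_right₀ hx0).2 h4
      _ = B.valuation x ^ 4 := by rw [← pow_succ']
  exact absurd h6 (ne_of_gt h7)

theorem u2_int {p : Eis} (hp : Prime p) (h3 : ¬ p ∣ 3) (hB : B.valuation (emb p) < 1) {z : ℂ} (hz : Nl z)
    {m : Eis} (hm : emb m * z ∈ Set.range emb) (hmp : IsCoprime m p) (hml : ¬ la ∣ m) :
    B.valuation (xw z) ≤ 1 := by
  by_cases h2 : p ∣ 2
  · have hc := u2_cop_two hp h2 hmp
    have hlt := u2_two_lt hB h2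
    by_contra hcon
    push Not at hcon
    have hnl : ∀ k : ℕ, Nl (emb (2 ^ k) * z) := fun k => u2_nl hz hm hc.pow_right
    have hsucc : ∀ k : ℕ, emb (2 ^ (k + 1)) * z = emb (2 ^ k) * z + emb (2 ^ k) * z := by
      intro k
      rw [pow_succ, map_mul, map_ofNat]
      ring
    have hbig : ∀ k : ℕ, 1 < B.valuation (xw (emb (2 ^ k) * z)) ∧
        B.valuation (xw (emb (2 ^ k) * z)) < B.valuation (xw (emb (2 ^ (k + 1)) * z)) := by
      have hst : ∀ k : ℕ, 1 < B.valuation (xw (emb (2 ^ k) * z)) →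
          B.valuation (xw (emb (2 ^ k) * z)) < B.valuation (xw (emb (2 ^ (k + 1)) * z)) := by
        intro k hk
        rw [hsucc k]
        have h5 := u2_dbl (hnl k) (by rw [← hsucc k]; exact hnl (k + 1))
        exact u2_step hlt h5 hk
      intro k
      induction k with
      | zero =>
        have h5 : 1 < B.valuation (xw (emb (2 ^ 0) * z)) := by
          rwa [pow_zero, map_one, one_mul]
        exact ⟨h5, hst 0 h5⟩
      | succ k ih =>
        have h5 := lt_trans ih.1 ih.2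
        exact ⟨h5, hst (k + 1) h5⟩
    have hmono : StrictMono fun k : ℕ => B.valuation (xw (emb (2 ^ k) * z)) :=
      strictMono_nat_of_lt_succ fun k => (hbig k).2
    have hm0 : m ≠ 0 := by
      rintro rfl
      obtain ⟨a, b, hab⟩ := hmp
      rw [mul_zero, zero_add] at hab
      exact hp.not_isUnit (IsUnit.of_mul_eq_one_right b hab)
    have hfin := I3.quot_finite m hm0
    obtain ⟨i, j, hne, hij⟩ := Finite.exists_ne_map_eq_of_infinite
      (fun k : ℕ => Ideal.Quotient.mk (Ideal.span {m}) ((2 : Eis) ^ k))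
    have hij' : Ideal.Quotient.mk (Ideal.span {m}) ((2 : Eis) ^ i) =
      Ideal.Quotient.mk (Ideal.span {m}) ((2 : Eis) ^ j) := hij
    rw [Ideal.Quotient.eq, Ideal.mem_span_singleton] at hij'
    obtain ⟨c, hc'⟩ := hij'
    obtain ⟨a, ha⟩ := hm
    apply hne
    apply hmono.injective
    show B.valuation (xw (emb (2 ^ i) * z)) = B.valuation (xw (emb (2 ^ j) * z))
    have h6 : emb (2 ^ i) * z = emb (2 ^ j) * z + emb (c * a) := by
      have h7 : (2 : Eis) ^ i = 2 ^ j + m * c := by rw [← hc']; ring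
      rw [h7, map_add, map_mul, map_mul, ha]
      ring
    rw [h6, xw_add]
  · exact i2_main (u2_two_eq hp hB h2) hz hm (i2_unit hB hmp)

theorem u2_la {p : Eis} (hp : Prime p) (h3 : ¬ p ∣ 3) (hB : B.valuation (emb p) < 1) :
    B.valuation (emb la) = 1 := by
  have hla3 : la ∣ 3 := ⟨_, CUL.u7_three⟩
  exact i2_unit hB (u2_cop hp fun h => h3 (h.trans hla3))

theorem u2_nl_la {z : ℂ} (hz : Nl z) {m : Eis} (hm : emb m * z ∈ Set.range emb) (hml : ¬ la ∣ m) :
    Nl (emb la * z) ∧ emb m * (emb la * z) ∈ Set.range emb := by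
  refine ⟨u2_nl hz hm (u2_cop CUL.la_prime hml), ?_⟩
  obtain ⟨a, ha⟩ := hm
  exact ⟨la * a, by rw [map_mul, ha]; ring⟩

theorem u2_x {p : Eis} (hp : Prime p) (h3 : ¬ p ∣ 3) (hB : B.valuation (emb p) < 1) {z : ℂ} (hz : Nl z)
    {m : Eis} (hm : emb m * z ∈ Set.range emb) (hmp : IsCoprime m p) (hml : ¬ la ∣ m) :
    B.valuation (xw z) = 1 := by
  have vla := u2_la hp h3 hB
  refine le_antisymm (u2_int hp h3 hB hz hm hmp hml) ?_
  by_contra hlt
  push Not at hlt
  obtain ⟨hlz, hmz⟩ := u2_nl_la hz hm hml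
  have hx0 : xw z ≠ 0 := by
    rcases CUL.u4_la_cases z with ⟨_, h⟩ | ⟨_, h, _⟩
    · exact absurd h hlz
    · exact h
  have h5 := u2_int hp h3 hB hlz hmz hmp hml
  rw [CUL.xw_la, map_div₀, map_mul, map_pow, map_pow, vla, one_pow, one_mul, CUL.u7_lt B hlt] at h5
  have h6' : B.valuation (xw z) ≠ 0 := by
    rw [Valuation.ne_zero_iff]
    exact hx0
  have h7 : B.valuation (xw z) ^ 2 < 1 := pow_lt_one₀ zero_le hlt (by norm_num)
  have h8 : (1 : B.ValueGroup) < 1 / B.valuation (xw z) ^ 2 := by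
    rw [one_div]
    exact (one_lt_inv₀ (zero_lt_iff.2 (pow_ne_zero 2 h6'))).2 h7
  exact absurd h5 (not_le.2 h8)

theorem u2_x3 {p : Eis} (hp : Prime p) (h3 : ¬ p ∣ 3) (hB : B.valuation (emb p) < 1) {z : ℂ} (hz : Nl z)
    {m : Eis} (hm : emb m * z ∈ Set.range emb) (hmp : IsCoprime m p) (hml : ¬ la ∣ m) :
    B.valuation (xw z ^ 3 + 1) = 1 := by
  have vla := u2_la hp h3 hB
  obtain ⟨hlz, hmz⟩ := u2_nl_la hz hm hml
  have h5 := u2_x hp h3 hB hlz hmz hmp hml
  have h6 := u2_x hp h3 hB hz hm hmp hml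
  rw [CUL.xw_la, map_div₀, map_mul, map_pow, map_pow, vla, h6, one_pow, one_mul, div_one] at h5
  exact h5

theorem u2_unit_of_mul {a b : ℂ} (ha : B.valuation a ≤ 1) (hb : B.valuation b ≤ 1) (h : B.valuation (a * b) = 1) :
    B.valuation a = 1 ∧ B.valuation b = 1 := by
  rw [map_mul] at h
  constructor
  · refine le_antisymm ha ?_
    rw [← h]
    calc B.valuation a * B.valuation b ≤ B.valuation a * 1 := mul_le_mul' le_rfl hb
      _ = _ := mul_one _
  · refine le_antisymm hb ?_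
    rw [← h]
    calc B.valuation a * B.valuation b ≤ 1 * B.valuation b := mul_le_mul' ha le_rfl
      _ = _ := one_mul _

theorem u2_U {p : Eis} (hp : Prime p) (h3 : ¬ p ∣ 3) (hB : B.valuation (emb p) < 1) {z : ℂ} (hz : Nl z)
    {m : Eis} (hm : emb m * z ∈ Set.range emb) (hmp : IsCoprime m p) (hml : ¬ la ∣ m) :
    B.valuation (Um z) = 1 := by
  have hx := u2_x hp h3 hB hz hm hmp hml
  have hx3 := u2_x3 hp h3 hB hz hm hmp hml
  have hc := weq z hz
  have hw2 := CUL.w2
  have hw3 := CUL.w3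
  have hww : B.valuation w = 1 := CUL.w_w B
  have hww2 : B.valuation (w ^ 2) = 1 := by rw [map_pow, hww, one_pow]
  by_cases h2 : p ∣ 2
  · obtain ⟨Y, hY⟩ : ∃ Y, Y = (ym z - 1) / 2 := ⟨_, rfl⟩
    have hYm : ym z = 2 * Y + 1 := by rw [hY]; ring
    have hyw : yw z = -(2 * Y + 1) := by
      rw [← hYm, ym, neg_neg]
    have h4 : Y * (Y + 1) = xw z ^ 3 := by
      rw [hyw] at hc
      linear_combination (1 / 4) * hc
    have h5 : B.valuation Y ≤ 1 := by
      by_contra hcon
      push Not at hcon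
      have h6 : B.valuation (Y + 1) = B.valuation Y :=
        Valuation.map_add_eq_of_lt_left _ (by rwa [map_one])
      have h7 : B.valuation (Y * (Y + 1)) = 1 := by rw [h4, map_pow, hx, one_pow]
      rw [map_mul, h6] at h7
      have h8 : 1 < B.valuation Y * B.valuation Y := by
        rw [← pow_two]
        exact one_lt_pow₀ hcon (by norm_num)
      exact absurd h7 (ne_of_gt h8)
    have h6 : B.valuation (w - Y) ≤ 1 := (B.valuation.map_sub _ _).trans (max_le hww.le h5)
    have h7 : B.valuation (Y - w ^ 2) ≤ 1 := (B.valuation.map_sub _ _).trans (max_le h5 hww2.le)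
    have h8 : (Y - w ^ 2) * (w - Y) = -(xw z ^ 3 + 1) := by
      rw [← h4]
      linear_combination Y * hw2 - hw3
    have h9 : B.valuation ((Y - w ^ 2) * (w - Y)) = 1 := by
      rw [h8, Valuation.map_neg, hx3]
    obtain ⟨h10, h11⟩ := u2_unit_of_mul h7 h6 h9
    have e1 : th + ym z = 2 * (Y - w ^ 2) := by
      rw [th, hYm]
      linear_combination hw2
    have e2 : th - ym z = 2 * (w - Y) := by
      rw [th, hYm]
      linear_combination -hw2
    have e3 : Um z = (Y - w ^ 2) / (w - Y) := by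
      rw [Um, e1, e2, mul_div_mul_left _ _ (by norm_num : (2 : ℂ) ≠ 0)]
    rw [e3, map_div₀, h10, h11, div_one]
  · have v2 := u2_two_eq hp hB h2
    have v4 := i1_four B v2
    have h5 : B.valuation (ym z) ≤ 1 := by
      rw [ym, Valuation.map_neg]
      exact i1_y_le B v2 hc hx.le
    have hth : B.valuation th ≤ 1 := by
      rw [th]
      exact (B.valuation.map_sub _ _).trans (max_le hww.le hww2.le)
    have h6 : (th + ym z) * (th - ym z) = -(4 * (xw z ^ 3 + 1)) := by
      rw [th, ym]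
      linear_combination -hc + (w - 2) * hw3 + hw2
    have h7 : B.valuation ((th + ym z) * (th - ym z)) = 1 := by
      rw [h6, Valuation.map_neg, map_mul, v4, hx3, one_mul]
    obtain ⟨h10, h11⟩ := u2_unit_of_mul
      ((B.valuation.map_add _ _).trans (max_le hth h5)) ((B.valuation.map_sub _ _).trans (max_le hth h5)) h7
    rw [Um, map_div₀, h10, h11, div_one]

end JGL
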