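import Pool.Agent.JGL.Ba

/-!
# [JGL-Bb] basics of levels, part 2: the representatives R
-/

set_option autoImplicit false

open NumberField IsDedekindDomain Filter Topology
open scoped Classical ComplexConjugate

namespace JGL

open CM27 JZ
open CU (la eE)
open CUL (Nl ez si ta DS Cont LV IsRep rp cr mn mo zw OT GalU W3 W9)
open JL (N1 KD sD Psi6)

variable (L : Lev)

theorem bb_dom : IsDomain Eis := CM27.eis_isDomain

theorem bb_cop {x y : Eis} (h : L.f ∣ x - y) (hx : IsCoprime x L.f) : IsCoprime y L.f := by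
  obtain ⟨t, ht⟩ := h
  have e : y = x + L.f * (-t) := by linear_combination -ht
  rw [e]
  exact hx.add_mul_left_left (-t)

theorem bb_unit_cop {ζ x : Eis} (hζ : IsUnit ζ) : IsCoprime (ζ * x) L.f ↔ IsCoprime x L.f :=
  isCoprime_mul_unit_left_left hζ _ _

theorem bb_cubeone {x : Eis} (h : ¬ (2 : Eis) ∣ x) : (2 : Eis) ∣ x ^ 3 - 1 := by
  have e : x ^ 3 - 1 = (x - 1) * ((x - CU.om) * (x - CU.om ^ 2)) := by
    have h1 : CU.om ^ 2 + CU.om + 1 = (0 : Eis) := by decide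
    have h3 : CU.om ^ 3 = (1 : Eis) := by decide
    linear_combination (x - 1) * x * h1 - (x - 1) * h3
  rw [e]
  rw [Q3L.k1_dvd 2 Q3L.k1_twoE] at h
  have h1 : (x - 1).re = x.re - 1 ∧ (x - 1).im = x.im := by
    have : (1 : Eis).re = 1 ∧ (1 : Eis).im = 0 := by decide
    refine ⟨?_, ?_⟩
    · rw [QuadraticAlgebra.re_sub, this.1]
    · rw [QuadraticAlgebra.im_sub, this.2, sub_zero]
  have h2 : (x - CU.om).re = x.re ∧ (x - CU.om).im = x.im - 1 := by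
    have : (CU.om : Eis).re = 0 ∧ (CU.om : Eis).im = 1 := by decide
    refine ⟨?_, ?_⟩
    · rw [QuadraticAlgebra.re_sub, this.1, sub_zero]
    · rw [QuadraticAlgebra.im_sub, this.2]
  have h3 : (x - CU.om ^ 2).re = x.re + 1 ∧ (x - CU.om ^ 2).im = x.im + 1 := by
    have : (CU.om ^ 2 : Eis).re = -1 ∧ (CU.om ^ 2 : Eis).im = -1 := by decide
    refine ⟨?_, ?_⟩
    · rw [QuadraticAlgebra.re_sub, this.1, sub_neg_eq_add]
    · rw [QuadraticAlgebra.im_sub, this.2, sub_neg_eq_add]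
  have h4 : (2 : Eis) ∣ x - 1 ∨ (2 : Eis) ∣ x - CU.om ∨ (2 : Eis) ∣ x - CU.om ^ 2 := by
    rw [Q3L.k1_dvd 2 Q3L.k1_twoE, Q3L.k1_dvd 2 Q3L.k1_twoE, Q3L.k1_dvd 2 Q3L.k1_twoE, h1.1, h1.2, h2.1, h2.2,
      h3.1, h3.2]
    omega
  rcases h4 with h4 | h4 | h4
  · exact h4.mul_right _
  · exact (h4.mul_right _).mul_left _
  · exact (h4.mul_left _).mul_left _

theorem bb_c_ne_zero_iff (x : Eis) : L.c x ≠ 0 ↔ IsCoprime x L.f := by
  constructor
  · intro h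
    by_contra h1
    exact h (L.c_zero x h1)
  · intro h
    obtain ⟨j, hj⟩ := L.c_cube x h
    rw [hj]
    exact CUL.zw_ne j

/-- `f` does not divide `2` -/
theorem not_dvd_two : ¬ L.f ∣ 2 := by
  intro h
  have hdom := bb_dom
  have h2 : (2 : Eis) ∣ L.f := by
    have h3 : Irreducible (2 : Eis) := Q3.prime_two.irreducible
    rcases h3.dvd_iff.1 h with h4 | h4
    · exact absurd h4 L.hfu
    · exact h4.dvd
  obtain ⟨x, hx⟩ := L.q_non
  have hc : IsCoprime x L.f := by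
    by_contra h3
    rw [L.q_zero x h3] at hx
    norm_num at hx
  have hx2 : ¬ (2 : Eis) ∣ x := fun h3 => Q3.prime_two.not_isUnit (hc.isUnit_of_dvd' h3 h2)
  have h5 : L.q (x ^ 3) = L.q 1 := L.q_per _ _ (h.trans (bb_cubeone hx2))
  have h6 : x ^ 3 = x * (x * x) := by ring
  rw [h6, L.q_mul, L.q_mul, hx, q_one] at h5
  norm_num at h5

theorem bb_diff : ∀ ζ ∈ JL.b4U, ∀ ζ' ∈ JL.b4U, ζ ≠ ζ' →
    ∃ y ∈ JL.b4U ∪ JL.b4U.image (fun u => 2 * u), (ζ - ζ') * y = 2 ∨ (ζ - ζ') * y = la := by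
  decide

theorem units_free {ζ ζ' c : Eis} (hζ : IsUnit ζ) (hζ' : IsUnit ζ') (hc : IsCoprime c L.f)
    (hd : L.f ∣ ζ * c - ζ' * c) : ζ = ζ' := by
  have h1 : L.f ∣ ζ - ζ' := by
    have h2 : ζ * c - ζ' * c = (ζ - ζ') * c := by ring
    rw [h2] at hd
    exact hc.symm.dvd_of_dvd_mul_right hd
  by_contra hne
  obtain ⟨y, -, hy⟩ := bb_diff ζ (JL.b4_mem.2 hζ) ζ' (JL.b4_mem.2 hζ') hne
  rcases hy with hy | hy
  · exact not_dvd_two L (by rw [← hy]; exact h1.mul_right y)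
  · have h2 : L.f ∣ la := by rw [← hy]; exact h1.mul_right y
    exact L.hfu ((la_cop L).isUnit_of_dvd' h2 dvd_rfl)

/-- the relation: equal modulo `f` up to a unit -/
def bbR (α β : Eis) : Prop := ∃ ζ : Eis, IsUnit ζ ∧ L.f ∣ α - ζ * β

theorem bbR_refl (α : Eis) : bbR L α α := ⟨1, isUnit_one, by rw [one_mul, sub_self]; exact dvd_zero _⟩

variable {L}

theorem bbR_symm {α β : Eis} (h : bbR L α β) : bbR L β α := by
  obtain ⟨ζ, hζ, t, ht⟩ := h
  obtain ⟨v, rfl⟩ := hζ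
  refine ⟨((v⁻¹ : Eisˣ) : Eis), Units.isUnit _, -((v⁻¹ : Eisˣ) : Eis) * t, ?_⟩
  have h1 : ((v⁻¹ : Eisˣ) : Eis) * (v : Eis) = 1 := Units.inv_mul v
  linear_combination (-((v⁻¹ : Eisˣ) : Eis)) * ht - β * h1

theorem bbR_trans {α β γ : Eis} (h : bbR L α β) (h' : bbR L β γ) : bbR L α γ := by
  obtain ⟨ζ, hζ, t, ht⟩ := h
  obtain ⟨ξ, hξ, s, hs⟩ := h'
  exact ⟨ζ * ξ, hζ.mul hξ, t + ζ * s, by linear_combination ht + ζ * hs⟩

theorem bbR_eq {α β : Eis} (h : bbR L α β) : bbR L α = bbR L β := by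
  funext γ
  exact propext ⟨fun h' => bbR_trans (bbR_symm h) h', fun h' => bbR_trans h h'⟩

variable (L)

/-- the system of classes -/
noncomputable def bbS : Finset Eis :=
  (rp L.f).filter fun α => IsCoprime α L.f ∧ (L.k ≠ 0 → L.c α = 1)

noncomputable def bbpick (P : Eis → Prop) : Eis := if h : ∃ β, β ∈ bbS L ∧ P β then h.choose else 0

theorem bbpick_spec {P : Eis → Prop} (h : ∃ β, β ∈ bbS L ∧ P β) :
    bbpick L P ∈ bbS L ∧ P (bbpick L P) := by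
  unfold bbpick
  rw [dif_pos h]
  exact h.choose_spec

theorem bb_exists {α : Eis} (hα : IsCoprime α L.f) : ∃ β ∈ bbS L, bbR L α β := by
  have hrep := CUL.rp_spec (f_ne L)
  by_cases hk : L.k = 0
  · obtain ⟨β, ⟨hβ, hd⟩, -⟩ := hrep α
    refine ⟨β, Finset.mem_filter.2 ⟨hβ, bb_cop L hd hα, fun h' => absurd hk h'⟩, 1, isUnit_one, ?_⟩
    rw [one_mul]
    exact hd
  · obtain ⟨m, hm⟩ := L.c_cube α hα
    have h3 : CU.om ^ 3 = (1 : Eis) := by decide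
    obtain ⟨n, hn⟩ : ∃ n : ℕ, n = (-m * L.k).val := ⟨_, rfl⟩
    have hc : L.c (CU.om ^ n * α) = 1 := by
      have h4 : ∀ n : ℕ, L.c (CU.om ^ n) = zw (n * L.k) := by
        intro n
        induction n with
        | zero => rw [pow_zero, c_one, Nat.cast_zero, zero_mul, CUL.zw_zero]
        | succ n ih =>
          rw [pow_succ, L.c_mul, ih, L.c_om, ← CUL.zw_add]
          congr 1
          push_cast
          ring
      rw [L.c_mul, h4, hm, ← CUL.zw_add, ← CUL.zw_zero]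
      congr 1
      have h5 : ((n : ℕ) : ZMod 3) = -m * L.k := by
        rw [hn, ZMod.natCast_val, ZMod.cast_id]
      rw [h5]
      have h6 : ∀ k m : ZMod 3, k ≠ 0 → -m * k * k + m = 0 := by decide
      exact h6 _ _ hk
    have hcop : IsCoprime (CU.om ^ n * α) L.f := (bb_unit_cop L (JL.b4_om.pow n)).2 hα
    obtain ⟨β, ⟨hβ, hd⟩, -⟩ := hrep (CU.om ^ n * α)
    refine ⟨β, Finset.mem_filter.2 ⟨hβ, bb_cop L hd hcop, fun _ => ?_⟩, CU.om ^ (2 * n), JL.b4_om.pow _, ?_⟩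
    · rw [← L.c_per _ _ hd, hc]
    · have h6 : CU.om ^ (2 * n) * CU.om ^ n = (1 : Eis) := by
        rw [← pow_add, show 2 * n + n = 3 * n by ring, pow_mul, h3, one_pow]
      have h7 : α - CU.om ^ (2 * n) * β = CU.om ^ (2 * n) * (CU.om ^ n * α - β) := by
        linear_combination (-α) * h6
      rw [h7]
      exact hd.mul_left _

theorem exists_R : ∃ R, IsR L R := by
  refine ⟨(bbS L).image fun β => bbpick L (bbR L β), ?_, ?_, ?_⟩
  · intro c hc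
    obtain ⟨β, hβ, rfl⟩ := Finset.mem_image.1 hc
    obtain ⟨h1, -⟩ := bbpick_spec L (P := bbR L β) ⟨β, hβ, bbR_refl L β⟩
    exact (Finset.mem_filter.1 h1).2.1
  · intro α hα
    obtain ⟨β, hβ, hαβ⟩ := bb_exists L hα
    have hsp := bbpick_spec L (P := bbR L β) ⟨β, hβ, bbR_refl L β⟩
    refine ⟨bbpick L (bbR L β), ⟨Finset.mem_image_of_mem _ hβ, bbR_trans hαβ hsp.2⟩, ?_⟩
    rintro c ⟨hc, hαc⟩
    obtain ⟨γ, hγ, rfl⟩ := Finset.mem_image.1 hc
    have hsp' := bbpick_spec L (P := bbR L γ) ⟨γ, hγ, bbR_refl L γ⟩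
    have h1 : bbR L β γ := bbR_trans (bbR_symm hαβ) (bbR_trans hαc (bbR_symm hsp'.2))
    show bbpick L (bbR L γ) = bbpick L (bbR L β)
    rw [bbR_eq h1]
  · intro hk c hc
    obtain ⟨β, hβ, rfl⟩ := Finset.mem_image.1 hc
    obtain ⟨h1, -⟩ := bbpick_spec L (P := bbR L β) ⟨β, hβ, bbR_refl L β⟩
    exact (Finset.mem_filter.1 h1).2.2 hk

theorem sum_R {R : Finset Eis} (hR : IsR L R) (g : Eis → ℂ)
    (hg : ∀ x y, L.f ∣ x - y → g x = g y) (hu : ∀ ζ x, IsUnit ζ → g (ζ * x) = g x) :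
    ∑ α ∈ (rp L.f).filter (fun α => IsCoprime α L.f), g α = 6 * ∑ c ∈ R, g c := by
  have hrep := CUL.rp_spec (f_ne L)
  choose rep hrep1 hrep2 using fun a => (hrep a).exists
  have h1 : ∑ q ∈ JL.b4U ×ˢ R, g (q.1 * q.2) =
      ∑ α ∈ (rp L.f).filter (fun α => IsCoprime α L.f), g α := by
    refine Finset.sum_bij (fun q _ => rep (q.1 * q.2)) ?_ ?_ ?_ ?_
    · intro q hq
      obtain ⟨hq1, hq2⟩ := Finset.mem_product.1 hq
      refine Finset.mem_filter.2 ⟨hrep1 _, bb_cop L (hrep2 _) ?_⟩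
      exact (bb_unit_cop L (JL.b4_mem.1 hq1)).2 (hR.1 _ hq2)
    · intro q hq q' hq' he
      obtain ⟨hq1, hq2⟩ := Finset.mem_product.1 hq
      obtain ⟨hq1', hq2'⟩ := Finset.mem_product.1 hq'
      have he' : rep (q.1 * q.2) = rep (q'.1 * q'.2) := he
      have h2 : L.f ∣ q.1 * q.2 - q'.1 * q'.2 := by
        have e1 := hrep2 (q.1 * q.2)
        have e2 := hrep2 (q'.1 * q'.2)
        rw [← he'] at e2
        have e3 : q.1 * q.2 - q'.1 * q'.2 = (q.1 * q.2 - rep (q.1 * q.2)) - (q'.1 * q'.2 - rep (q.1 * q.2)) := by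
          ring
        rw [e3]
        exact dvd_sub e1 e2
      have hcop : IsCoprime (q.1 * q.2) L.f :=
        (bb_unit_cop L (JL.b4_mem.1 hq1)).2 (hR.1 _ hq2)
      have h3 : q.2 = q'.2 := (hR.2.1 _ hcop).unique
        ⟨hq2, q.1, JL.b4_mem.1 hq1, by rw [sub_self]; exact dvd_zero _⟩ ⟨hq2', q'.1, JL.b4_mem.1 hq1', h2⟩
      rw [← h3] at h2
      have h4 : q.1 = q'.1 := units_free L (JL.b4_mem.1 hq1) (JL.b4_mem.1 hq1') (hR.1 _ hq2) h2
      exact Prod.ext h4 h3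
    · intro α hα
      obtain ⟨hα1, hα2⟩ := Finset.mem_filter.1 hα
      obtain ⟨c, ⟨hc, ζ, hζ, hd⟩, -⟩ := hR.2.1 α hα2
      refine ⟨(ζ, c), Finset.mem_product.2 ⟨JL.b4_mem.2 hζ, hc⟩, ?_⟩
      refine CUL.l1_eq hrep (hrep1 _) hα1 ?_
      have e1 := hrep2 (ζ * c)
      have e2 : rep (ζ * c) - α = -((ζ * c - rep (ζ * c)) + (α - ζ * c)) := by ring
      show L.f ∣ rep (ζ * c) - α
      rw [e2, dvd_neg]
      exact dvd_add e1 hd
    · intro q hq
      exact hg _ _ (hrep2 _)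
  rw [← h1, Finset.sum_product]
  have h2 : ∀ ζ ∈ JL.b4U, ∑ c ∈ R, g (ζ * c) = ∑ c ∈ R, g c := fun ζ hζ =>
    Finset.sum_congr rfl fun c _ => hu ζ c (JL.b4_mem.1 hζ)
  rw [Finset.sum_congr rfl h2, Finset.sum_const, JL.b4_card, nsmul_eq_mul]
  norm_num

end JGL
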