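import Pool.Agent.JGL.Bb

/-!
# [JGL-Bc] basics of levels, part 3: sums over R, points
-/

set_option autoImplicit false

open NumberField IsDedekindDomain Filter Topology
open scoped Classical ComplexConjugate

namespace JGL

open CM27 JZ
open CU (la eE)
open CUL (Nl ez si ta DS Cont LV IsRep rp cr mn mo zw OT GalU W3 W9)
open JL (N1 KD sD Psi6)

variable (L : Lev)

/-- multiplication by `g` permutes `R` up to units (cf. JL.g3_perm) -/
theorem perm_R {R : Finset Eis} (hR : IsR L R) {g : Eis} (hg : IsCoprime g L.f) :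
    ∃ φ : Eis → Eis, (∀ c ∈ R, φ c ∈ R ∧ ∃ ζ, IsUnit ζ ∧ L.f ∣ g * c - ζ * φ c) ∧
      (∀ F : Eis → ℂ, ∏ c ∈ R, F (φ c) = ∏ c ∈ R, F c) ∧ ∀ F : Eis → ℂ, ∑ c ∈ R, F (φ c) = ∑ c ∈ R, F c := by
  have h1 : ∀ c ∈ R, ∃ c', c' ∈ R ∧ ∃ ζ, IsUnit ζ ∧ L.f ∣ g * c - ζ * c' := by
    intro c hc
    obtain ⟨c', ⟨h2, h3⟩, -⟩ := hR.2.1 (g * c) (hg.mul_left (hR.1 c hc))
    exact ⟨c', h2, h3⟩
  choose! φ hφ using h1
  have hinj : Set.InjOn φ (R : Set Eis) := by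
    intro c hc c' hc' he
    rw [Finset.mem_coe] at hc hc'
    obtain ⟨-, ζ, hζ, t, ht⟩ := hφ c hc
    obtain ⟨-, ζ', hζ', t', ht'⟩ := hφ c' hc'
    rw [← he] at ht'
    have h2 : L.f ∣ g * (ζ' * c - ζ * c') := ⟨ζ' * t - ζ * t', by linear_combination ζ' * ht - ζ * ht'⟩
    have h3 : L.f ∣ ζ' * c - ζ * c' := hg.symm.dvd_of_dvd_mul_left h2
    obtain ⟨c₀, -, h4⟩ := hR.2.1 c (hR.1 c hc)
    have h5 := h4 c ⟨hc, 1, isUnit_one, by rw [one_mul, sub_self]; exact dvd_zero _⟩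
    obtain ⟨v, hv⟩ := hζ'.exists_left_inv
    have h6 := h4 c' ⟨hc', v * ζ, (IsUnit.of_mul_eq_one _ hv).mul hζ, by
      obtain ⟨u, hu⟩ := h3
      exact ⟨v * u, by linear_combination v * hu - c * hv⟩⟩
    rw [h5, h6]
  have himg : R.image φ = R := by
    apply Finset.eq_of_subset_of_card_le
    · intro x hx
      obtain ⟨c, hc, rfl⟩ := Finset.mem_image.1 hx
      exact (hφ c hc).1
    · rw [Finset.card_image_of_injOn hinj]
  refine ⟨φ, hφ, fun F => ?_, fun F => ?_⟩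
  · conv_rhs => rw [← himg]
    rw [Finset.prod_image hinj]
  · conv_rhs => rw [← himg]
    rw [Finset.sum_image hinj]

theorem Bc_sum_filter (g : Eis → ℂ) (h : ∀ α : Eis, ¬ IsCoprime α L.f → g α = 0) :
    ∑ α ∈ (rp L.f).filter (fun α => IsCoprime α L.f), g α = ∑ α ∈ rp L.f, g α := by
  rw [Finset.sum_filter]
  refine Finset.sum_congr rfl fun α _ => ?_
  split_ifs with h1
  · rfl
  · exact (h α h1).symm

theorem Bc_neg : ∃ u, IsCoprime u L.f ∧ L.q u = -1 := by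
  obtain ⟨u, hu⟩ := L.q_non
  refine ⟨u, ?_, hu⟩
  by_contra h
  rw [L.q_zero u h] at hu
  exact absurd hu (by norm_num)

theorem Bc_sum_q : ∑ α ∈ rp L.f, L.q α = 0 := by
  obtain ⟨u, hu1, hu2⟩ := Bc_neg L
  have h1 := (CUL.rp_spec (f_ne L)).sum_mul hu1 (fun α => ((L.q α : ℤ) : ℂ)) fun a b hab => by
    rw [L.q_per a b hab]
  have h2 : ∀ α : Eis, ((L.q (u * α) : ℤ) : ℂ) = -((L.q α : ℤ) : ℂ) := by
    intro α
    rw [L.q_mul, hu2]
    push_cast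
    ring
  have h3 : ((∑ α ∈ rp L.f, L.q α : ℤ) : ℂ) = 0 := by
    push_cast
    have h4 : ∑ α ∈ rp L.f, ((L.q (u * α) : ℤ) : ℂ) = -∑ α ∈ rp L.f, ((L.q α : ℤ) : ℂ) := by
      rw [← Finset.sum_neg_distrib]
      exact Finset.sum_congr rfl fun α _ => h2 α
    rw [h4] at h1
    linear_combination (-1 / 2 : ℂ) * h1
  exact_mod_cast h3

theorem sum_R_q (h : L.ep = 0) {R : Finset Eis} (hR : IsR L R) : ∑ c ∈ R, L.q c = 0 := by
  have h1 := sum_R L hR (fun α => ((L.q α : ℤ) : ℂ)) (fun x y hxy => by rw [L.q_per x y hxy]) (fun ζ x hζ => by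
    rw [L.q_mul, q_unit_even L h hζ, one_mul])
  have h2 : ∑ α ∈ (rp L.f).filter (fun α => IsCoprime α L.f), ((L.q α : ℤ) : ℂ) = 0 := by
    rw [Bc_sum_filter L (fun α => ((L.q α : ℤ) : ℂ)) fun α hα => by
      show ((L.q α : ℤ) : ℂ) = 0
      rw [L.q_zero α hα, Int.cast_zero]]
    exact_mod_cast Bc_sum_q L
  have h3 : ∑ c ∈ R, ((L.q c : ℤ) : ℂ) = 0 := by
    rw [h2] at h1
    linear_combination (-1 / 6 : ℂ) * h1
  exact_mod_cast h3

theorem sum_chi : ∑ α ∈ rp L.f, conj (L.chi α) = 0 := by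
  obtain ⟨u, hu1, hu2⟩ := Bc_neg L
  have h1 := (CUL.rp_spec (f_ne L)).sum_mul hu1 (fun α => conj (L.chi α)) fun a b hab => by
    rw [chi_per L hab]
  have h2 : ∑ α ∈ rp L.f, conj (L.chi (u * α)) = conj (L.chi u) * ∑ α ∈ rp L.f, conj (L.chi α) := by
    rw [Finset.mul_sum]
    exact Finset.sum_congr rfl fun α _ => by rw [chi_mul, map_mul]
  have h3 : conj (L.chi u) ≠ 1 := by
    intro h4
    have h5 : L.chi u = 1 := by
      have h6 := congrArg conj h4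
      rwa [Complex.conj_conj, map_one] at h6
    obtain ⟨k, hk⟩ := L.c_cube u hu1
    have h7 : zw k ^ 3 = 1 := by
      rw [CUL.zw_pow]
      have h8 : ((3 : ℕ) : ZMod 3) = 0 := rfl
      rw [h8, zero_mul, CUL.zw_zero]
    have h9 : L.chi u ^ 3 = -1 := by
      unfold Lev.chi
      rw [mul_pow, hk, h7, hu2]
      norm_num
    rw [h5] at h9
    norm_num at h9
  have h4 : (conj (L.chi u) - 1) * ∑ α ∈ rp L.f, conj (L.chi α) = 0 := by
    have h5 : conj (L.chi u) * ∑ α ∈ rp L.f, conj (L.chi α) = ∑ α ∈ rp L.f, conj (L.chi α) := by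
      rw [← h2]
      exact h1
    linear_combination h5
  rcases mul_eq_zero.1 h4 with h5 | h5
  · exact absurd (sub_eq_zero.1 h5) h3
  · exact h5

theorem OT_pt {c : Eis} (hc : IsCoprime c L.f) : OT (pt L c) := by
  refine ⟨(CUL.nl_div_iff (f_ne L) c).2 ?_, L.f, L.hf, ⟨c, ?_⟩⟩
  · intro hd
    exact L.hfu (hc.isUnit_of_dvd' hd dvd_rfl)
  · have hfe : emb L.f ≠ 0 := CUL.l2_emb_ne (f_ne L)
    rw [pt, mul_div_cancel₀ _ hfe]

theorem pt_congr_xw {x y : Eis} (h : L.f ∣ x - y) : xw (pt L x) = xw (pt L y) ∧ yw (pt L x) = yw (pt L y) := by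
  obtain ⟨t, ht⟩ := h
  have hfe : emb L.f ≠ 0 := CUL.l2_emb_ne (f_ne L)
  have h1 : pt L x = pt L y + emb t := by
    have h2 : x = y + L.f * t := by linear_combination ht
    rw [pt, pt, h2, map_add, map_mul]
    field_simp
  rw [h1, xw_add, yw_add]
  exact ⟨rfl, rfl⟩

theorem Bc_neg_pt (x : Eis) : xw (pt L (-x)) = xw (pt L x) ∧ yw (pt L (-x)) = -yw (pt L x) := by
  have h : pt L (-x) = -pt L x := by rw [pt, pt, map_neg, neg_div]
  rw [h, xw_neg, yw_neg]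
  exact ⟨rfl, rfl⟩

theorem Bc_om_pt (x : Eis) : xw (pt L (CU.om * x)) = w * xw (pt L x) ∧ yw (pt L (CU.om * x)) = yw (pt L x) := by
  have h : pt L (CU.om * x) = w * pt L x := by rw [pt, pt, map_mul, CUL.emb_om, mul_div_assoc]
  rw [h, xw_w, yw_w]
  exact ⟨rfl, rfl⟩

/-- the six units: `x(ζ z) = ω ^ j x(z)`, `y(ζ z) = ± y(z)`, `c ζ = ω ^ (j k)`, `ζ = s ω ^ j` -/
theorem unit_act {ζ : Eis} (hζ : IsUnit ζ) : ∃ (s : ℤ) (j : ZMod 3), (s = 1 ∨ s = -1) ∧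
    L.q ζ = s ^ L.ep ∧ L.c ζ = zw (j * L.k) ∧
    ∀ x, xw (pt L (ζ * x)) = zw j * xw (pt L x) ∧ yw (pt L (ζ * x)) = (s : ℂ) * yw (pt L x) := by
  have hq2 : L.q (CU.om ^ 2) = 1 := by rw [pow_two, L.q_mul, L.q_om, mul_one]
  have hc2 : L.c (CU.om ^ 2) = zw (2 * L.k) := by rw [pow_two, L.c_mul, L.c_om, ← CUL.zw_add, two_mul]
  have hqn : ∀ x : Eis, L.q (-x) = (-1) ^ L.ep * L.q x := by
    intro x
    rw [← neg_one_mul, L.q_mul, L.q_neg]
  have ho : ∀ x : Eis, xw (pt L (CU.om ^ 2 * x)) = zw 2 * xw (pt L x) ∧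
      yw (pt L (CU.om ^ 2 * x)) = yw (pt L x) := by
    intro x
    obtain ⟨a1, a2⟩ := Bc_om_pt L (CU.om * x)
    obtain ⟨b1, b2⟩ := Bc_om_pt L x
    rw [pow_two, mul_assoc, a1, a2, b1, b2, CUL.zw_two]
    exact ⟨by ring, rfl⟩
  rcases CUL.unit_cases hζ with rfl | rfl | rfl | rfl | rfl | rfl
  · refine ⟨1, 0, Or.inl rfl, by rw [q_one, one_pow], by rw [c_one, zero_mul, CUL.zw_zero], fun x => ?_⟩
    rw [one_mul, CUL.zw_zero, one_mul, Int.cast_one, one_mul]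
    exact ⟨rfl, rfl⟩
  · refine ⟨-1, 0, Or.inr rfl, L.q_neg, by rw [c_neg, c_one, zero_mul, CUL.zw_zero], fun x => ?_⟩
    obtain ⟨a1, a2⟩ := Bc_neg_pt L x
    rw [neg_one_mul, a1, a2, CUL.zw_zero, one_mul]
    exact ⟨rfl, by push_cast; ring⟩
  · refine ⟨1, 1, Or.inl rfl, by rw [L.q_om, one_pow], by rw [L.c_om, one_mul], fun x => ?_⟩
    obtain ⟨a1, a2⟩ := Bc_om_pt L x
    rw [a1, a2, CUL.zw_one, Int.cast_one, one_mul]
    exact ⟨rfl, rfl⟩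
  · refine ⟨-1, 1, Or.inr rfl, by rw [hqn, L.q_om, mul_one], by rw [c_neg, L.c_om, one_mul], fun x => ?_⟩
    obtain ⟨a1, a2⟩ := Bc_om_pt L x
    obtain ⟨b1, b2⟩ := Bc_neg_pt L (CU.om * x)
    rw [neg_mul, b1, b2, a1, a2, CUL.zw_one]
    exact ⟨rfl, by push_cast; ring⟩
  · refine ⟨1, 2, Or.inl rfl, by rw [hq2, one_pow], hc2, fun x => ?_⟩
    obtain ⟨a1, a2⟩ := ho x
    rw [a1, a2, Int.cast_one, one_mul]
    exact ⟨rfl, rfl⟩
  · refine ⟨-1, 2, Or.inr rfl, by rw [hqn, hq2, mul_one], by rw [c_neg, hc2], fun x => ?_⟩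
    obtain ⟨a1, a2⟩ := ho x
    obtain ⟨b1, b2⟩ := Bc_neg_pt L (CU.om ^ 2 * x)
    rw [neg_mul, b1, b2, a1, a2]
    exact ⟨rfl, by push_cast; ring⟩

theorem sum_R_chi (h : L.ep = 0) (hk : L.k = 0) {R : Finset Eis} (hR : IsR L R) :
    ∑ c ∈ R, conj (L.chi c) = 0 := by
  have hu : ∀ ζ : Eis, IsUnit ζ → L.chi ζ = 1 := by
    intro ζ hζ
    obtain ⟨s, j, -, hq, hc, -⟩ := unit_act L hζ
    unfold Lev.chi
    rw [hq, hc, h, hk, pow_zero, mul_zero, CUL.zw_zero, Int.cast_one, one_mul]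
  have h1 := sum_R L hR (fun α => conj (L.chi α)) (fun x y hxy => by rw [chi_per L hxy]) (fun ζ x hζ => by
    rw [chi_mul, hu ζ hζ, one_mul])
  have h2 : ∑ α ∈ (rp L.f).filter (fun α => IsCoprime α L.f), conj (L.chi α) = 0 := by
    rw [Bc_sum_filter L (fun α => conj (L.chi α)) fun α hα => by
      by_contra h3
      exact hα ((chi_ne_zero_iff L α).1 fun h4 => h3 (by simp only [h4, map_zero]))]
    exact sum_chi L
  rw [h2] at h1
  linear_combination (-1 / 6 : ℂ) * h1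

end JGL
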