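import Pool.Agent.JGL.Defs

/-!
# [JGL-Ba] basics of levels, part 1
-/

set_option autoImplicit false

open NumberField IsDedekindDomain Filter Topology
open scoped Classical ComplexConjugate

namespace JGL

open CM27 JZ
open CU (la eE)
open CUL (Nl ez si ta DS Cont LV IsRep rp cr mn mo zw OT GalU W3 W9)
open JL (N1 KD sD Psi6)

variable (L : Lev)

theorem Ba_three (h : (3 : Eis) ∣ 1) : False := by
  obtain ⟨t, ht⟩ := h
  have h1 := congrArg QuadraticAlgebra.re ht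
  rw [QuadraticAlgebra.re_mul] at h1
  have h2 : (3 : Eis).re = 3 := by decide
  have h3 : (3 : Eis).im = 0 := by decide
  have h4 : (1 : Eis).re = 1 := by decide
  rw [h2, h3, h4] at h1
  omega

theorem f_ne : L.f ≠ 0 := by
  intro h
  have h1 := L.hf
  unfold Primary at h1
  rw [h, zero_sub] at h1
  exact Ba_three ((dvd_neg).1 h1)

theorem la_cop : IsCoprime la L.f := by
  have h1 := L.hf
  unfold Primary at h1
  obtain ⟨t, ht⟩ := h1
  refine ⟨-((2 + CU.om) * t), 1, ?_⟩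
  have h2 : la * (2 + CU.om) = 3 := CUL.g1_three
  linear_combination ht - t * h2

theorem Ba_unit_cop {ζ : Eis} (hζ : IsUnit ζ) : IsCoprime ζ L.f := by
  obtain ⟨u, hu⟩ := hζ
  refine ⟨(u⁻¹ : Eisˣ), 0, ?_⟩
  rw [← hu, Units.inv_mul, zero_mul, add_zero]

theorem Ba_om_unit : IsUnit CU.om := CU.om_unit

theorem Ba_q_cases (x : Eis) : L.q x = 0 ∨ L.q x = 1 ∨ L.q x = -1 := by
  by_cases h : IsCoprime x L.f
  · exact Or.inr (L.q_pm x h)
  · exact Or.inl (L.q_zero x h)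

theorem Ba_q_one : L.q 1 = 1 := by
  have h1 := L.q_mul 1 1
  rw [one_mul] at h1
  rcases L.q_pm 1 isCoprime_one_left with h | h
  · exact h
  · rw [h] at h1
    norm_num at h1

theorem Ba_c_cases (x : Eis) : L.c x = 0 ∨ ∃ j : ZMod 3, L.c x = zw j := by
  by_cases h : IsCoprime x L.f
  · exact Or.inr (L.c_cube x h)
  · exact Or.inl (L.c_zero x h)

theorem q_unit_pm {ζ : Eis} (hζ : IsUnit ζ) : L.q ζ = 1 ∨ L.q ζ = -1 := L.q_pm ζ (Ba_unit_cop L hζ)

/-- `q ζ = 1` for units if `ep = 0` -/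
theorem q_unit_even (h : L.ep = 0) {ζ : Eis} (hζ : IsUnit ζ) : L.q ζ = 1 := by
  have h1 : L.q (-1) = 1 := by rw [L.q_neg, h, pow_zero]
  have h2 : ∀ x, L.q (-x) = L.q x := by
    intro x
    rw [← neg_one_mul, L.q_mul, h1, one_mul]
  have h3 := Ba_q_one L
  have h4 : L.q (CU.om ^ 2) = 1 := by rw [pow_two, L.q_mul, L.q_om, one_mul]
  rcases CUL.unit_cases hζ with e | e | e | e | e | e
  · rw [e, h3]
  · rw [e, h1]
  · rw [e, L.q_om]
  · rw [e, h2, L.q_om]
  · rw [e, h4]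
  · rw [e, h2, h4]

theorem q_one : L.q 1 = 1 := Ba_q_one L

theorem q_sq {x : Eis} (h : IsCoprime x L.f) : L.q x * L.q x = 1 := by
  rcases L.q_pm x h with h1 | h1
  · rw [h1]
    norm_num
  · rw [h1]
    norm_num

theorem c_one : L.c 1 = 1 := by
  obtain ⟨j, hj⟩ := L.c_cube 1 isCoprime_one_left
  have h1 := L.c_mul 1 1
  rw [one_mul, hj] at h1
  have h2 : zw j = 1 := by
    have h3 := CUL.zw_ne j
    exact (mul_right_cancel₀ h3 (by rw [one_mul]; exact h1)).symm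
  rw [hj, h2]

theorem c_neg (x : Eis) : L.c (-x) = L.c x := by
  obtain ⟨j, hj⟩ := L.c_cube (-1) (isCoprime_one_left.neg_left)
  have h1 := L.c_mul (-1) (-1)
  have h0 : (-1 : Eis) * (-1) = 1 := by norm_num
  rw [h0, c_one, hj, ← CUL.zw_add, ← CUL.zw_zero] at h1
  have h2 := CUL.zw_inj h1
  have h4 : ∀ i : ZMod 3, 0 = i + i ∨ i + i = 0 → i = 0 := by decide
  have h3 : j = 0 := h4 j (Or.inl h2)
  rw [← neg_one_mul, L.c_mul, hj, h3, CUL.zw_zero, one_mul]

theorem c_norm (x : Eis) : ‖L.c x‖ ≤ 1 := by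
  rcases Ba_c_cases L x with h | ⟨j, h⟩
  · rw [h, norm_zero]
    exact zero_le_one
  · rw [h, CUL.zw_norm]

theorem c_sigma (σ : ℂ ≃+* ℂ) (hσ : σ w = w) (x : Eis) :
    σ (L.c x) = L.c x ∧ σ (conj (L.c x)) = conj (L.c x) := by
  rcases Ba_c_cases L x with h | ⟨j, h⟩
  · rw [h, map_zero, map_zero, map_zero]
    exact ⟨rfl, rfl⟩
  · rw [h, CUL.zw_conj, CUL.sigma_zw σ hσ, CUL.sigma_zw σ hσ]
    exact ⟨rfl, rfl⟩

theorem chi_mul (x y : Eis) : L.chi (x * y) = L.chi x * L.chi y := by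
  unfold Lev.chi
  rw [L.q_mul, L.c_mul]
  push_cast
  ring

theorem chi_per {x y : Eis} (h : L.f ∣ x - y) : L.chi x = L.chi y := by
  unfold Lev.chi
  rw [L.q_per x y h, L.c_per x y h]

theorem chi_ne_zero_iff (x : Eis) : L.chi x ≠ 0 ↔ IsCoprime x L.f := by
  unfold Lev.chi
  constructor
  · intro h
    by_contra h1
    apply h
    rw [L.c_zero x h1, mul_zero]
  · intro h
    obtain ⟨j, hj⟩ := L.c_cube x h
    refine mul_ne_zero ?_ (by rw [hj]; exact CUL.zw_ne j)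
    rcases L.q_pm x h with h1 | h1
    · rw [h1]
      norm_num
    · rw [h1]
      norm_num

theorem chi_norm (x : Eis) : ‖L.chi x‖ ≤ 1 := by
  unfold Lev.chi
  rw [norm_mul]
  have h1 : ‖((L.q x : ℤ) : ℂ)‖ ≤ 1 := by
    rcases Ba_q_cases L x with h | h | h
    · rw [h]
      norm_num
    · rw [h]
      norm_num
    · rw [h]
      norm_num
  exact mul_le_one₀ h1 (norm_nonneg _) (c_norm L x)

theorem chi_conj {x : Eis} (h : IsCoprime x L.f) : L.chi x * conj (L.chi x) = 1 := by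
  obtain ⟨k, hk⟩ := L.c_cube x h
  have h3 : zw k * zw (-k) = 1 := by rw [← CUL.zw_add, add_neg_cancel, CUL.zw_zero]
  unfold Lev.chi
  rw [hk, map_mul, CUL.zw_conj]
  rcases L.q_pm x h with h1 | h1
  · rw [h1]
    push_cast
    rw [map_one, one_mul, one_mul, h3]
  · rw [h1]
    push_cast
    rw [map_neg, map_one]
    linear_combination h3

/-- `q(la) = ± 1` -/
theorem q_la_pm : L.q la = 1 ∨ L.q la = -1 := L.q_pm la (la_cop L)

end JGL
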