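import Pool.Agent.JGL.C7

/-!
# [JGL-C8] the criteria for `v = 1, 3, 5`
-/

set_option autoImplicit false

open NumberField IsDedekindDomain Filter Topology
open scoped Classical ComplexConjugate

namespace JGL

open CM27 JZ
open CU (la eE)
open CUL (Nl ez si ta DS Cont LV IsRep rp cr mn mo zw OT GalU W3 W9)
open JL (N1 KD sD Psi6)

variable {D : Eis}

section val

variable (A : ValuationSubring ℂ) (hA : A.valuation 3 < 1)
include hA

/-- `v(r)² = v(λ)` -/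
theorem c8_r {R : Eis} {r : ℂ} (hR : ¬ la ∣ R) (hr : r ^ 2 = emb (la * R)) :
    A.valuation r ^ 2 = A.valuation (emb la) := by
  rw [← map_pow, hr, map_mul, map_mul, CUL.w_emb_unit A hA R hR, mul_one]

theorem c8_lt {r : ℂ} (hv : A.valuation r ^ 2 = A.valuation (emb la)) : A.valuation r < 1 := by
  by_contra h
  push Not at h
  have h1 := one_le_pow₀ h (n := 2)
  rw [hv] at h1
  exact absurd h1 (not_le.2 (CUL.w_la_lt A hA))

/-- the coefficient of `r` is integral -/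
theorem c8_b {s r κ x : ℂ} (hκ : κ ∈ CF.KK) (hκ0 : κ ≠ 0) (hr : r = κ * s)
    (hv : A.valuation r ^ 2 = A.valuation (emb la)) (h : S1 A s x) :
    ∃ b : ℂ, b ∈ CF.KK ∧ x - x⁻¹ = 2 * b * r ∧ A.valuation b ≤ 1 := by
  obtain ⟨b, hb, hbe⟩ := c4_b hκ hκ0 hr h.1
  refine ⟨b, hb, hbe, c3_le1 A hA hb ?_⟩
  have h1 := c4_lt A hA h.2
  rw [hbe, map_mul, map_mul, JX.x6_two A hA, one_mul] at h1
  rw [← hv, ← mul_pow]
  exact pow_lt_one₀ zero_le h1 two_ne_zero

theorem c8_v {s r κ x : ℂ} (hκ : κ ∈ CF.KK) (hκ0 : κ ≠ 0) (hr : r = κ * s)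
    (hv : A.valuation r ^ 2 = A.valuation (emb la)) (h : S1 A s x) : A.valuation (x - x⁻¹) ≤ A.valuation r := by
  obtain ⟨b, hb, hbe, hb1⟩ := c8_b A hA hκ hκ0 hr hv h
  rw [hbe, map_mul, map_mul, JX.x6_two A hA, one_mul]
  calc A.valuation b * A.valuation r ≤ 1 * A.valuation r := mul_le_mul' hb1 le_rfl
    _ = _ := one_mul _

theorem c8_cl {s r κ : ℂ} (hκ : κ ∈ CF.KK) (hκ0 : κ ≠ 0) (hr : r = κ * s)
    (hv : A.valuation r ^ 2 = A.valuation (emb la)) :
    (∀ x y, S1 A s x → S1 A s y → A.valuation (x - x⁻¹) ≤ A.valuation (emb la) * A.valuation r →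
      A.valuation (y - y⁻¹) ≤ A.valuation (emb la) * A.valuation r →
      A.valuation (x * y - (x * y)⁻¹) ≤ A.valuation (emb la) * A.valuation r) ∧
    (∀ x, S1 A s x → A.valuation (x - x⁻¹) ≤ A.valuation (emb la) * A.valuation r →
      A.valuation (x⁻¹ - (x⁻¹)⁻¹) ≤ A.valuation (emb la) * A.valuation r) ∧
    ∀ x, S1 A s x → A.valuation (x ^ 3 - (x ^ 3)⁻¹) ≤ A.valuation (emb la) * A.valuation r := by
  have hL := CUL.w_la_lt A hA
  have hrl := c8_lt A hA hv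
  have hp : ∀ {x : ℂ}, S1 A s x → A.valuation (x + x⁻¹) ≤ 1 := by
    intro x hx
    exact Valuation.map_add_le _ (c1_v1 A hx.2).le (c1_v1 A (s1_inv A hx).2).le
  refine ⟨?_, ?_, ?_⟩
  · intro x y hx hy h1 h2
    have e : (x + x⁻¹) * (y - y⁻¹) + (y + y⁻¹) * (x - x⁻¹) = 2 * (x * y - (x * y)⁻¹) := by
      rw [mul_inv]
      ring
    rw [c4_two_cancel A hA e]
    refine Valuation.map_add_le _ ?_ ?_
    · rw [map_mul]
      calc A.valuation (x + x⁻¹) * A.valuation (y - y⁻¹) ≤ 1 * (A.valuation (emb la) * A.valuation r) :=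
            mul_le_mul' (hp hx) h2
        _ = _ := one_mul _
    · rw [map_mul]
      calc A.valuation (y + y⁻¹) * A.valuation (x - x⁻¹) ≤ 1 * (A.valuation (emb la) * A.valuation r) :=
            mul_le_mul' (hp hy) h1
        _ = _ := one_mul _
  · intro x _ h1
    rw [c4_inv_eq, Valuation.map_neg]
    exact h1
  · intro x hx
    have h0 := c4_ne A hx.2
    have h1 := c8_v A hA hκ hκ0 hr hv hx
    have e : x ^ 3 - (x ^ 3)⁻¹ = (x - x⁻¹) * ((x - x⁻¹) ^ 2 + 3) := by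
      field_simp
      ring
    rw [e, map_mul, mul_comm (A.valuation (emb la))]
    refine mul_le_mul' h1 (Valuation.map_add_le _ ?_ (JL.n6_L3 A hA).le)
    rw [map_pow, ← hv]
    exact pow_le_pow_left₀ zero_le h1 2

end val

theorem c8_cop (d : Dat D) : ¬ la ^ 2 ∣ la * (d.η * CU.om ^ d.i * d.Ds) := by
  have hdom := eis_isDomain
  intro h
  apply c5_laR d
  rw [pow_two] at h
  exact (mul_dvd_mul_iff_left CU.la_prime.ne_zero).1 h

theorem c8_inj {r : ℂ} {R : Eis} (hr : r ^ 2 = emb R) (hR : R ≠ 0) : r ≠ 0 := by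
  rintro rfl
  apply hR
  apply emb_injective
  rw [← hr, map_zero]
  norm_num

/-- `v = 3`, `v = 5` -/
theorem crit_35 (d : Dat D) (hv : d.v = 3 ∨ d.v = 5) (A : ValuationSubring ℂ) (hA : A.valuation 3 < 1) {e r u₁ u₂ : ℂ}
    (hU : UnitE d.D₁ e) (he : A.valuation (e - 1) < 1) (hr : r ^ 2 = emb (d.η * CU.om ^ d.i * la * d.Ds)) (hN : N2 r e u₁ u₂) :
    A.valuation u₂ = 1 ↔ JG.UCG D := by
  have hdom := eis_isDomain
  have hL := CUL.w_la_lt A hA
  have hL0 := c3_L0 A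
  have hl := c5_laR d
  have hr' : r ^ 2 = emb (la * (d.η * CU.om ^ d.i * d.Ds)) := by
    rw [hr]
    congr 1
    ring
  have hvr := c8_r A hA hl hr'
  have hrl := c8_lt A hA hvr
  have hv0 : 0 < A.valuation r := by
    rw [zero_lt_iff]
    intro h
    rw [h, zero_pow two_ne_zero] at hvr
    exact hL0.ne hvr
  obtain ⟨m, hm, hmv⟩ : ∃ m : ℕ, (m = 1 ∨ m = 2) ∧ d.v = 2 * m + 1 := by
    rcases hv with h | h
    · exact ⟨1, Or.inl rfl, by omega⟩
    · exact ⟨2, Or.inr rfl, by omega⟩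
  have hD1 : D = la ^ (2 * m) * (la * (d.η * CU.om ^ d.i * d.Ds)) := d.hD'.trans (by rw [hmv]; ring)
  obtain ⟨κ, hκ, hκ0, hκr⟩ := c4_kap d (R := la * (d.η * CU.om ^ d.i * d.Ds)) (g := la ^ m)
    (hD1.trans (by ring)) (pow_ne_zero _ CU.la_prime.ne_zero) hr'
  obtain ⟨g1, g2, g3⟩ := c8_cl A hA hκ hκ0 hκr hvr
  have hWG : ∀ q, JG.WG m (la * (d.η * CU.om ^ d.i * d.Ds)) q ↔ la ∣ q := by
    intro q
    constructor
    · rintro (⟨h4, -⟩ | ⟨h4, -⟩ | ⟨-, h4, -⟩ | ⟨-, h4, -⟩ | ⟨h4, -⟩ | ⟨-, -, h4⟩)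
      · omega
      · omega
      · exact absurd (Dvd.intro _ rfl) h4
      · exact absurd (Dvd.intro _ rfl) h4
      · omega
      · exact h4
    · intro h4
      exact Or.inr (Or.inr (Or.inr (Or.inr (Or.inr ⟨hm, Dvd.intro _ rfl, h4⟩))))
  have hL3r : A.valuation (emb la) ^ 3 ≤ A.valuation (emb la) * A.valuation r := by
    rw [pow_succ', ]
    refine mul_le_mul' le_rfl ?_
    rw [← hvr, ← pow_mul]
    exact pow_le_of_le_one zero_le hrl.le (by norm_num)
  rw [← crit_gen d A hA hU he (fun x => A.valuation (x - x⁻¹) ≤ A.valuation (emb la) * A.valuation r) g1 g2 g3]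
  · have h1 := c5_dif hN
    have h2 : A.valuation (e - e⁻¹) = A.valuation u₂ * A.valuation r := by
      rw [h1, map_mul, map_mul, JX.x6_two A hA, one_mul]
    have h3 := c8_v A hA hκ hκ0 hκr hvr (⟨hU.1, he⟩ : S1 A (sD d.D₁) e)
    rw [h2] at h3
    have h4 : A.valuation u₂ ≤ 1 := by
      refine le_of_mul_le_mul_right (a := A.valuation r) ?_ hv0
      rw [one_mul]
      exact h3
    change _ ↔ ¬ A.valuation (e - e⁻¹) ≤ A.valuation (emb la) * A.valuation r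
    rw [h2]
    constructor
    · intro h5 h6
      rw [h5] at h6
      have h7 := le_of_mul_le_mul_right h6 hv0
      exact absurd h7 (not_le.2 hL)
    · intro h5
      refine le_antisymm h4 ?_
      by_contra h6
      push Not at h6
      exact h5 (mul_le_mul' (c3_lt1 A hA hN.2.1 h6) le_rfl)
  · intro E hE hi hi'
    rw [c3_onG d A hA hD1 (c8_cop d) hr' hE.1 hi hi']
    constructor
    · intro h1
      obtain ⟨b, hb, hbe, hb1⟩ := c8_b A hA hκ hκ0 hκr hvr hE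
      have h2 : A.valuation (2 * b) ≤ A.valuation (emb la) := by
        rw [hbe, map_mul] at h1
        exact le_of_mul_le_mul_right h1 hv0
      obtain ⟨q, hq⟩ := c3_approx A hA (mul_mem c4_two_mem hb) (h2.trans hL.le) 3
      refine ⟨q, ?_, ?_⟩
      · rw [hWG, ← pow_one la, ← c3_dvd A hA, pow_one]
        have e1 : emb q = 2 * b - (2 * b - emb q) := by ring
        rw [e1]
        exact Valuation.map_sub_le _ h2 (hq.trans (pow_le_of_le_one zero_le hL.le (by norm_num)))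
      · have e1 : E - E⁻¹ - emb q * r = (2 * b - emb q) * r := by rw [hbe]; ring
        rw [e1, map_mul]
        calc A.valuation (2 * b - emb q) * A.valuation r ≤ A.valuation (emb la) ^ 3 * 1 := mul_le_mul' hq hrl.le
          _ = _ := mul_one _
    · rintro ⟨q, h1, h2⟩
      rw [hWG, ← pow_one la] at h1
      have h3 := c3_emb_le A h1
      rw [pow_one] at h3
      have e1 : E - E⁻¹ = (E - E⁻¹ - emb q * r) + emb q * r := by ring
      change A.valuation (E - E⁻¹) ≤ _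
      rw [e1]
      refine Valuation.map_add_le _ (h2.trans hL3r) ?_
      rw [map_mul]
      exact mul_le_mul' h3 le_rfl

/-! ### the case `v = 1` -/

theorem c8_om (i : ℕ) (hi : i < 3) : la ^ 2 ∣ CU.om ^ i - (1 - (i : Eis) * la) := by
  have h3 : i = 0 ∨ i = 1 ∨ i = 2 := by omega
  have e : CU.om = 1 - la := by decide
  rcases h3 with rfl | rfl | rfl
  · exact ⟨0, by push_cast; ring⟩
  · exact ⟨0, by rw [e]; push_cast; ring⟩
  · exact ⟨1, by rw [e]; push_cast; ring⟩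

theorem c8_D' (d : Dat D) {η : ℤ} (hη : d.η = η) :
    la ^ 3 ∣ la * (d.η * CU.om ^ d.i * d.Ds) - la * ((η : Eis) + ((-η * d.i : ℤ) : Eis) * la) := by
  obtain ⟨p, hp⟩ := c8_om d.i d.hi
  obtain ⟨c, hc⟩ := c5_Ds d.hDs
  rw [CU.three_eq] at hc
  refine ⟨d.η * (CU.om ^ d.i * (-CU.om ^ 2) * c + p), ?_⟩
  rw [← hη]
  push_cast
  rw [← hη]
  linear_combination la * d.η * CU.om ^ d.i * hc + la * d.η * hp

theorem c8_int_dvd {n : ℤ} (h : la ∣ (n : Eis)) : (3 : ℤ) ∣ n := by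
  rw [CU.la_dvd_iff, JX.ta_ic_re, JX.ta_ic_im, add_zero] at h
  exact h

/-- uniqueness of `e₀`, `e₁` -/
theorem c8_uniq {e₀ e₁ e₀' e₁' : ℤ} (he : e₀ = 1 ∨ e₀ = -1) (he' : e₀' = 1 ∨ e₀' = -1) {R : Eis}
    (h : la ^ 3 ∣ R - la * ((e₀ : Eis) + (e₁ : Eis) * la)) (h' : la ^ 3 ∣ R - la * ((e₀' : Eis) + (e₁' : Eis) * la)) :
    e₀' = e₀ ∧ (3 : ℤ) ∣ e₁' - e₁ := by
  have hdom := eis_isDomain
  have hl : la ≠ 0 := CU.la_prime.ne_zero
  obtain ⟨p, hp⟩ := h
  obtain ⟨p', hp'⟩ := h'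
  have h1 : ((e₀' - e₀ : ℤ) : Eis) + ((e₁' - e₁ : ℤ) : Eis) * la = la ^ 2 * (p - p') := by
    apply mul_left_cancel₀ hl
    push_cast
    linear_combination hp - hp'
  have h2 : (3 : ℤ) ∣ e₀' - e₀ := by
    apply c8_int_dvd
    exact ⟨la * (p - p') - ((e₁' - e₁ : ℤ) : Eis), by linear_combination h1⟩
  have h3 : e₀' = e₀ := by omega
  refine ⟨h3, ?_⟩
  rw [h3, sub_self] at h1
  apply c8_int_dvd
  refine ⟨p - p', ?_⟩
  apply mul_left_cancel₀ hl
  push_cast at h1 ⊢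
  linear_combination h1

/-- `v = 1` -/
theorem crit_1 (d : Dat D) (hv : d.v = 1) (A : ValuationSubring ℂ) (hA : A.valuation 3 < 1) {e r u₁ u₂ : ℂ}
    {η : ℤ} (hη : d.η = η)
    (hU : UnitE d.D₁ e) (he : A.valuation (e - 1) < 1) (hr : r ^ 2 = emb (d.η * CU.om ^ d.i * la * d.Ds)) (hN : N2 r e u₁ u₂) :
    ¬ Ln1 A η (-η * d.i) u₂ ↔ JG.UCG D := by
  have hdom := eis_isDomain
  have hL := CUL.w_la_lt A hA
  have hL0 := c3_L0 A
  have hl := c5_laR d
  have hη1 : η = 1 ∨ η = -1 := by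
    rcases d.hη with h | h
    · left
      rw [hη] at h
      have h1 := congrArg QuadraticAlgebra.re h
      simpa [QuadraticAlgebra.re_one] using h1
    · right
      rw [hη] at h
      have h1 := congrArg QuadraticAlgebra.re h
      simpa [QuadraticAlgebra.re_one] using h1
  have hr' : r ^ 2 = emb (la * (d.η * CU.om ^ d.i * d.Ds)) := by
    rw [hr]
    congr 1
    ring
  have hvr := c8_r A hA hl hr'
  have hrl := c8_lt A hA hvr
  have hv0 : 0 < A.valuation r := by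
    rw [zero_lt_iff]
    intro h
    rw [h, zero_pow two_ne_zero] at hvr
    exact hL0.ne hvr
  have hr0 : r ≠ 0 := by
    rintro rfl
    rw [map_zero] at hv0
    exact lt_irrefl _ hv0
  have hD1 : D = la ^ (2 * 0) * (la * (d.η * CU.om ^ d.i * d.Ds)) := d.hD'.trans (by rw [hv]; ring)
  obtain ⟨κ, hκ, hκ0, hκr⟩ := c4_kap d (R := la * (d.η * CU.om ^ d.i * d.Ds)) (g := 1)
    (hD1.trans (by ring)) one_ne_zero hr'
  have hDc := c8_D' d hη
  have hDv : A.valuation (emb (la * (d.η * CU.om ^ d.i * d.Ds)) -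
      emb la * ((η : ℂ) + ((-η * d.i : ℤ) : ℂ) * emb la)) ≤ A.valuation (emb la) ^ 3 := by
    have e1 : emb (la * (d.η * CU.om ^ d.i * d.Ds)) - emb la * ((η : ℂ) + ((-η * d.i : ℤ) : ℂ) * emb la) =
        emb (la * (d.η * CU.om ^ d.i * d.Ds) - la * ((η : Eis) + ((-η * d.i : ℤ) : Eis) * la)) := by
      rw [map_sub, map_mul emb la ((η : Eis) + ((-η * d.i : ℤ) : Eis) * la), map_add, map_mul emb ((-η * d.i : ℤ) : Eis),
        map_intCast, map_intCast]
    rw [e1]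
    exact c3_emb_le A hDc
  have hline : ∀ b t : ℤ, emb ((b : Eis) + (t : Eis) * (la * ((η : Eis) + ((-η * d.i - 1 - b ^ 2 : ℤ) : Eis) * la))) =
      (b : ℂ) + (t : ℂ) * (emb la * ((η : ℂ) + ((-η * d.i - 1 - b ^ 2 : ℤ) : ℂ) * emb la)) := by
    intro b t
    simp only [map_add, map_mul, map_intCast]
  have hcoef : ∀ {x b : ℂ}, x - x⁻¹ = 2 * b * r → (x - x⁻¹) / (2 * r) = b := by
    intro x b hx
    rw [hx]
    field_simp
  rw [← crit_gen d A hA hU he (fun x => Ln1 A η (-η * d.i) ((x - x⁻¹) / (2 * r))) ?_ ?_ ?_ ?_]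
  · change _ ↔ ¬ Ln1 A η (-η * d.i) ((e - e⁻¹) / (2 * r))
    rw [hcoef (c5_dif hN)]
  · intro x y hx hy h1 h2
    obtain ⟨b, hb, hbe, hb1⟩ := c8_b A hA hκ hκ0 hκr hvr hx
    obtain ⟨c, hc, hce, hc1⟩ := c8_b A hA hκ hκ0 hκr hvr hy
    rw [hcoef hbe] at h1
    rw [hcoef hce] at h2
    have h3 : x * y - (x * y)⁻¹ = 2 * ((x + x⁻¹) / 2 * c + (y + y⁻¹) / 2 * b) * r := by
      have e : (x + x⁻¹) * (y - y⁻¹) + (y + y⁻¹) * (x - x⁻¹) = 2 * (x * y - (x * y)⁻¹) := by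
        rw [mul_inv]
        ring
      rw [hbe, hce] at e
      linear_combination (-1 / 2) * e
    rw [hcoef h3]
    have hsq : ∀ {z b : ℂ}, z ≠ 0 → z - z⁻¹ = 2 * b * r →
        ((z + z⁻¹) / 2) ^ 2 = 1 + b ^ 2 * emb (la * (d.η * CU.om ^ d.i * d.Ds)) := by
      intro z b hz hzb
      rw [← hr']
      have e1 : z * z⁻¹ = 1 := mul_inv_cancel₀ hz
      have e2 : (z - z⁻¹) ^ 2 = (2 * b * r) ^ 2 := by rw [hzb]
      linear_combination e1 + (1 / 4) * e2
    have hone : ∀ {z : ℂ}, S1 A (sD d.D₁) z → A.valuation ((z + z⁻¹) / 2 - 1) < 1 := by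
      intro z hz
      have e1 : (z + z⁻¹) / 2 - 1 = (z + z⁻¹ - 2) / 2 := by ring
      rw [e1, map_div₀, JX.x6_two A hA, div_one, c4_c A hA hz.2]
      exact pow_lt_one₀ zero_le (c4_lt A hA hz.2) two_ne_zero
    exact c7_mul A hA hη1 hDv hb1 hc1 (hsq (c4_ne A hx.2) hbe) (hsq (c4_ne A hy.2) hce) (hone hx) (hone hy) h1 h2
  · intro x hx h1
    obtain ⟨b, hb, hbe, hb1⟩ := c8_b A hA hκ hκ0 hκr hvr hx
    rw [hcoef hbe] at h1
    have h3 : x⁻¹ - (x⁻¹)⁻¹ = 2 * (-b) * r := by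
      rw [c4_inv_eq, hbe]
      ring
    rw [hcoef h3]
    obtain ⟨B, T, hB, hBT⟩ := h1
    refine ⟨-B, -T, by omega, ?_⟩
    have e1 : -b - (((-B : ℤ) : ℂ) + ((-T : ℤ) : ℂ) * (emb la * ((η : ℂ) + ((-η * d.i - 1 - (-B) ^ 2 : ℤ) : ℂ) * emb la))) =
        -(b - ((B : ℂ) + (T : ℂ) * (emb la * ((η : ℂ) + ((-η * d.i - 1 - B ^ 2 : ℤ) : ℂ) * emb la)))) := by
      push_cast
      ring
    rw [e1, Valuation.map_neg]
    exact hBT
  · intro x hx
    obtain ⟨b, hb, hbe, hb1⟩ := c8_b A hA hκ hκ0 hκr hvr hx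
    have h0 := c4_ne A hx.2
    have h3 : x ^ 3 - (x ^ 3)⁻¹ = 2 * (3 * b + 4 * b ^ 3 * emb (la * (d.η * CU.om ^ d.i * d.Ds))) * r := by
      have e : x ^ 3 - (x ^ 3)⁻¹ = (x - x⁻¹) * ((x - x⁻¹) ^ 2 + 3) := by
        field_simp
        ring
      rw [e, hbe, ← hr']
      ring
    change Ln1 A η (-η * d.i) ((x ^ 3 - (x ^ 3)⁻¹) / (2 * r))
    rw [hcoef h3]
    exact c7_cube A hA hDv hb1 hb
  · intro E hE hi hi'
    obtain ⟨c, hc, hce, hc1⟩ := c8_b A hA hκ hκ0 hκr hvr hE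
    rw [hcoef hce, c3_onG d A hA hD1 (c8_cop d) hr' hE.1 hi hi']
    constructor
    · rintro ⟨b, t, hb, ht⟩
      refine ⟨2 * ((b : Eis) + (t : Eis) * (la * ((η : Eis) + ((-η * d.i - 1 - b ^ 2 : ℤ) : Eis) * la))), ?_, ?_⟩
      · refine Or.inr (Or.inr (Or.inr (Or.inr (Or.inl ⟨rfl, Dvd.intro _ rfl, b, η, -η * d.i, t, hb, hη1, hDc, ?_⟩))))
        rw [sub_self]
        exact dvd_zero _
      · have e1 : E - E⁻¹ - emb (2 * ((b : Eis) + (t : Eis) * (la * ((η : Eis) + ((-η * d.i - 1 - b ^ 2 : ℤ) : Eis) * la)))) * r =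
            2 * (c - ((b : ℂ) + (t : ℂ) * (emb la * ((η : ℂ) + ((-η * d.i - 1 - b ^ 2 : ℤ) : ℂ) * emb la)))) * r := by
          rw [hce, map_mul emb 2, hline, map_ofNat]
          ring
        rw [e1, map_mul, map_mul, JX.x6_two A hA, one_mul]
        calc _ ≤ A.valuation (emb la) ^ 3 * 1 := mul_le_mul' ht hrl.le
          _ = _ := mul_one _
    · rintro ⟨q, hq, hq2⟩
      rcases hq with ⟨-, h4, -⟩ | ⟨-, ⟨η', h4, h5⟩, -⟩ | ⟨h4, -⟩ | ⟨h4, -⟩ | ⟨-, -, b, e₀, e₁, t, hb, he₀, h4, h5⟩ | ⟨h4, -⟩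
      · exact absurd (Dvd.intro _ rfl) h4
      · exfalso
        have h6 : la ∣ η' := by
          have h7 : la ∣ la * (d.η * CU.om ^ d.i * d.Ds) := Dvd.intro _ rfl
          have h8 := dvd_sub h7 (c5_la3.trans h5)
          rwa [sub_sub_cancel] at h8
        rcases h4 with rfl | rfl
        · exact JL.n6_one h6
        · exact JL.n6_one ((dvd_neg).1 h6)
      · exact absurd h4 (by norm_num)
      · exact absurd h4 (by norm_num)
      · obtain ⟨rfl, h6⟩ := c8_uniq hη1 he₀ hDc h4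
        refine ⟨b, t, hb, ?_⟩
        obtain ⟨n, hn⟩ := h6
        obtain ⟨p, hp⟩ := h5
        -- compare the two lines
        have h7 : la ^ 3 ∣ q - 2 * ((b : Eis) + (t : Eis) * (la * ((e₀ : Eis) + ((-e₀ * d.i - 1 - b ^ 2 : ℤ) : Eis) * la))) := by
          refine ⟨p + 2 * (t : Eis) * (la * (-CU.om ^ 2) * (n : Eis)), ?_⟩
          have hn' : (e₁ : Eis) = 3 * (n : Eis) + ((-e₀ * d.i : ℤ) : Eis) := by
            have h8 : e₁ = 3 * n + (-e₀ * d.i) := by linear_combination hn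
            have h9 := congrArg (Int.cast : ℤ → Eis) h8
            rw [Int.cast_add, Int.cast_mul] at h9
            exact h9
          have h3 := CU.three_eq
          push_cast at hp hn' ⊢
          linear_combination hp + 2 * (t : Eis) * la ^ 2 * hn' + 2 * (t : Eis) * la ^ 2 * (n : Eis) * h3
        have h8 : A.valuation ((c - ((b : ℂ) + (t : ℂ) * (emb la * ((e₀ : ℂ) + ((-e₀ * d.i - 1 - b ^ 2 : ℤ) : ℂ) * emb la)))) * r) ≤
            A.valuation (emb la) ^ 3 := by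
          have e1 : (E - E⁻¹ - emb q * r) + emb (q - 2 * ((b : Eis) + (t : Eis) * (la * ((e₀ : Eis) + ((-e₀ * d.i - 1 - b ^ 2 : ℤ) : Eis) * la)))) * r =
              2 * ((c - ((b : ℂ) + (t : ℂ) * (emb la * ((e₀ : ℂ) + ((-e₀ * d.i - 1 - b ^ 2 : ℤ) : ℂ) * emb la)))) * r) := by
            rw [hce, map_sub, map_mul emb 2, hline, map_ofNat]
            ring
          rw [c4_two_cancel A hA e1]
          refine Valuation.map_add_le _ hq2 ?_
          rw [map_mul]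
          calc _ ≤ A.valuation (emb la) ^ 3 * 1 := mul_le_mul' (c3_emb_le A h7) hrl.le
            _ = _ := mul_one _
        have hmem : c - ((b : ℂ) + (t : ℂ) * (emb la * ((e₀ : ℂ) + ((-e₀ * d.i - 1 - b ^ 2 : ℤ) : ℂ) * emb la))) ∈ CF.KK := by
          rw [← hline]
          exact sub_mem hc (JL.F0_emb_mem _)
        have h9 := c3_step A hA hmem 3 (by
          rw [show (2 * (3 : ℤ) - 2) = ((4 : ℕ) : ℤ) by norm_num, zpow_natCast]
          have h10 : A.valuation (c - ((b : ℂ) + (t : ℂ) * (emb la * ((e₀ : ℂ) + ((-e₀ * d.i - 1 - b ^ 2 : ℤ) : ℂ) * emb la)))) ^ 2 *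
              A.valuation (emb la) ≤ A.valuation (emb la) ^ 5 * A.valuation (emb la) := by
            rw [← hvr, ← mul_pow, ← map_mul, hvr, ← pow_succ]
            calc _ ≤ (A.valuation (emb la) ^ 3) ^ 2 := pow_le_pow_left₀ zero_le h8 2
              _ = _ := by rw [← pow_mul]
          refine lt_of_le_of_lt (le_of_mul_le_mul_right h10 hL0) ?_
          exact pow_lt_pow_right_of_lt_one₀ hL0 hL (by norm_num))
        exact_mod_cast h9
      · exact absurd h4 (by norm_num)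

end JGL
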