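import Pool.Agent.JX.Z
import Pool.Agent.JG.LVal
import Pool.Agent.CUT.Defs

/-!
# [JGL] the central value of `y² = x³ + D` over `ℚ(ω)`, all `D`: definitions

The mathematics is in `JG_L.md` (team-store). `la = 1 - ω`, `emb la = 1 - w`, `λ² = -3 ω`, `θ = w - w²`.
Levels: a primary `f` prime to `λ`, a quadratic character `q` and a cubic character `c` modulo `f`.
-/

set_option autoImplicit false

open NumberField IsDedekindDomain
open scoped Classical ComplexConjugate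

namespace JGL

open CM27 JZ
open CU (la eE)
open CUL (Nl ez si ta DS Cont LV IsRep rp cr mn mo zw OT GalU W3 W9)
open JL (N1 KD sD Psi6)

/-! ## functions: `xm = ω x`, `ym = - y`, so that `ym(ta) = 1`, `xm(si) = -1`, `ym(si) = -θ` -/

/-- `θ = ω - ω² = √-3` -/
noncomputable def th : ℂ := w - w ^ 2

/-- `ω x(z)` -/
noncomputable def xm (z : ℂ) : ℂ := w * xw z

/-- `- y(z)` -/
noncomputable def ym (z : ℂ) : ℂ := - yw z

/-- `τ = ym / θ` -/
noncomputable def Tm (z : ℂ) : ℂ := ym z / th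

/-- `U = (θ + ym) / (θ - ym) = (1 + τ) / (1 - τ)` -/
noncomputable def Um (z : ℂ) : ℂ := (th + ym z) / (th - ym z)

/-! ## levels -/

/-- A primary `f`, not a unit, a quadratic character `q` and a cubic character `c` modulo `f` with `q ω = 1`,
`q (-1) = (-1) ^ ep`, `c ω = ω ^ k`. -/
structure Lev where
  f : Eis
  q : Eis → ℤ
  c : Eis → ℂ
  ep : ℕ
  k : ZMod 3
  hf : Primary f
  hfu : ¬ IsUnit f
  hep : ep = 0 ∨ ep = 1
  q_zero : ∀ x, ¬ IsCoprime x f → q x = 0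
  q_pm : ∀ x, IsCoprime x f → q x = 1 ∨ q x = -1
  q_mul : ∀ x y, q (x * y) = q x * q y
  q_per : ∀ x y, f ∣ x - y → q x = q y
  q_om : q CU.om = 1
  q_neg : q (-1) = (-1) ^ ep
  q_non : ∃ x, q x = -1
  c_zero : ∀ x, ¬ IsCoprime x f → c x = 0
  c_cube : ∀ x, IsCoprime x f → ∃ j : ZMod 3, c x = zw j
  c_mul : ∀ x y, c (x * y) = c x * c y
  c_per : ∀ x y, f ∣ x - y → c x = c y
  c_om : c CU.om = zw k

/-- `χ = q c` -/
noncomputable def Lev.chi (L : Lev) (x : Eis) : ℂ := (L.q x : ℂ) * L.c x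

/-- `(x / λ)` : `1`, `-1`, `0` for `x ≡ 1, -1, 0 mod λ` -/
noncomputable def sl (x : Eis) : ℤ := if la ∣ x - 1 then 1 else if la ∣ x + 1 then -1 else 0

/-- the ideal character of `q`: `q` itself for `ep = 0`, `(x / λ) q(x)` for `ep = 1`; invariant under units -/
noncomputable def Lev.qi (L : Lev) (x : Eis) : ℤ := if L.ep = 0 then L.q x else sl x * L.q x

/-- `R` represents the classes of `(O / f)*` modulo the units `μ₆`, and `R` is contained in the kernel of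
`c` if `k ≠ 0`. -/
def IsR (L : Lev) (R : Finset Eis) : Prop :=
  (∀ c ∈ R, IsCoprime c L.f) ∧
  (∀ α : Eis, IsCoprime α L.f → ∃! c, c ∈ R ∧ ∃ ζ : Eis, IsUnit ζ ∧ L.f ∣ α - ζ * c) ∧
  (L.k ≠ 0 → ∀ c ∈ R, L.c c = 1)

/-- the points `c / f` -/
noncomputable def pt (L : Lev) (c : Eis) : ℂ := emb c / emb L.f

/-- `e = ∏_{c ∈ R} x(c / f) ^ q(c)` (used for `ep = 0`) -/
noncomputable def ee (L : Lev) (R : Finset Eis) : ℂ := ∏ c ∈ R, xw (pt L c) ^ L.q c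

/-- `e = ∏_{c ∈ R} U(c / f) ^ q(c)` (used for `ep = 1`) -/
noncomputable def eo (L : Lev) (R : Finset Eis) : ℂ := ∏ c ∈ R, Um (pt L c) ^ L.q c

/-- `M_j = ∑_{c ∈ R} q(c) τ(c / f) ^ j` -/
noncomputable def Mo (L : Lev) (R : Finset Eis) (j : ℕ) : ℂ := ∑ c ∈ R, (L.q c : ℂ) * Tm (pt L c) ^ j

/-! ## the part at `λ` -/

/-- `κ(b) = ω ^ (a m + i (m + n))` for the primary `b = 1 + 3 (m + n ω)`; `(λ/b)_3 = ω ^ m`, `(ω/b)_3 = ω ^ (2 (m + n))` -/
noncomputable def ka (a i : ZMod 3) (b : Eis) : ℂ := zw (a * mo b + i * mn b)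

/-- The function on `ℤ[ω]` whose Dirichlet series is the `L`-function. -/
noncomputable def Fx (L : Lev) (a i : ZMod 3) (x : Eis) : ℂ := if Primary x then conj (L.chi x) * ka a i x else 0

/-- the case `a = i = 0` -/
noncomputable def V2 (L : Lev) : ℂ := ∑ α ∈ rp L.f, conj (L.chi α) * ez (pt L α + si)

/-- the case `a = 0`, `i ≠ 0` -/
noncomputable def V3 (L : Lev) (i : ZMod 3) : ℂ :=
  ∑ α ∈ rp L.f, conj (L.chi α) * ∑ b ∈ W3, ka 0 i b * ez (pt L α + emb b / emb la ^ 3)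

/-- the case `a ≠ 0` -/
noncomputable def V4 (L : Lev) (a i : ZMod 3) : ℂ :=
  ∑ α ∈ rp L.f, conj (L.chi α) * ∑ b ∈ W9, ka a i b * ez (pt L α + emb b / 9)

/-- the exponent `n` of the conductor at `λ` -/
def nn (a i : ZMod 3) : ℕ := if a = 0 then (if i = 0 then 2 else 3) else 4

/-- the three cases together -/
noncomputable def VV (L : Lev) (a i : ZMod 3) : ℂ :=
  if a = 0 then (if i = 0 then V2 L else V3 L i) else V4 L a i

/-! ## Galois action -/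

/-- `P σ g` for all automorphisms `σ` of `ℂ` over `ℚ(ω)` which act on the points of order `M` as `g`, for all
nonzero multiples `M` of some nonzero `M₀` -/
def GalP (P : (ℂ ≃+* ℂ) → Eis → Prop) : Prop :=
  ∃ M₀ : Eis, M₀ ≠ 0 ∧ ∀ σ : ℂ ≃+* ℂ, σ w = w → ∀ M g : Eis, M ≠ 0 → M₀ ∣ M → GalU σ M g → P σ g

/-- `σ s = q(g) s` -/
def GalS (L : Lev) (s : ℂ) : Prop := GalP fun σ g => σ s = (L.q g : ℂ) * s

/-- `σ t = c(g) conj κ(g) t` -/
def GalT (L : Lev) (a i : ZMod 3) (t : ℂ) : Prop := GalP fun σ g => σ t = L.c g * conj (ka a i g) * t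

/-! ## quadratic data -/

/-- The data of the quadratic extension `ℚ(ω, √D₁)` for a squarefree `D₁`, not a square: the level `L` with the primitive quadratic
character and the trivial cubic character; the ring of integers is `O[ρ]`, `ρ² - t ρ + n = 0`. -/
structure QD (D₁ : Eis) where
  L : Lev
  t : Eis
  n : Eis
  sqf : Squarefree D₁
  nsq : ¬ IsSquare D₁
  hc : ∀ x, IsCoprime x L.f → L.c x = 1
  hk : L.k = 0
  prim : ∀ p m : Eis, Prime p → p * m = L.f → ∃ u, IsCoprime u L.f ∧ m ∣ u - 1 ∧ L.q u = -1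
  gal : ∀ s : ℂ, s ^ 2 = emb D₁ → GalS L s
  lam : la ∣ D₁ ↔ L.ep = 1
  ring : t ^ 2 - 4 * n = D₁ ∨ (t = 0 ∧ n = -D₁ ∧ ∀ m : Eis, ¬ (4 : Eis) ∣ D₁ - m ^ 2)
  disc : (t ^ 2 - 4 * n).norm = L.f.norm * 3 ^ L.ep
  ram : ∀ p : Eis, Prime p → (p ∣ t ^ 2 - 4 * n ↔ p ∣ L.f ∨ (L.ep = 1 ∧ p ∣ la))
  split : ∀ p : Eis, Prime p → ¬ p ∣ t ^ 2 - 4 * n → (L.qi p = 1 ↔ ∃ y : Eis, p ∣ y ^ 2 - t * y + n)

/-- `L` arises from the primitive level `Q` by adding the primes `p ∈ T`, `q(p) = -1`, and a cubic character. -/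
structure Over (Q : Lev) (T : Finset Eis) (L : Lev) : Prop where
  hT : ∀ p ∈ T, Prime p ∧ Primary p ∧ ¬ p ∣ Q.f ∧ Q.q p = -1
  hf : L.f = Q.f * ∏ p ∈ T, p
  hq : ∀ x, IsCoprime x L.f → L.q x = Q.q x
  hep : L.ep = Q.ep

/-- `e ≡` the pair `(u₁, u₂)`: `z = u₁ + u₂ s`, `z⁻¹ = u₁ - u₂ s`, `u₁, u₂ ∈ ℚ(ω)` -/
def N2 (s z u₁ u₂ : ℂ) : Prop := u₁ ∈ CF.KK ∧ u₂ ∈ CF.KK ∧ z = u₁ + u₂ * s ∧ z⁻¹ = u₁ - u₂ * s ∧ z ≠ 0

/-- What is known about the elliptic unit `e` (`e = zw m * ee L R` or `e = eo L R`), `s = √D₁`, `F = ℚ(ω, s)`: it is in `F` of relative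
norm `1`, and `e = z ε ^ n` for a root of unity `z`, `ε` a generator of the units modulo the roots of unity, `|n| = 2 ^ j h_F`. -/
def UnitE (D₁ : Eis) (e : ℂ) : Prop :=
  N1 (sD D₁) e ∧ ∃ (ε : (𝓞 (KD D₁))ˣ) (n : ℤ) (z : ℂ) (j : ℕ), z ^ 12 = 1 ∧ z ∈ KD D₁ ∧
    e = z * (((ε : 𝓞 (KD D₁)) : KD D₁) : ℂ) ^ n ∧ n.natAbs = 2 ^ j * classNumber (KD D₁) ∧
    ∀ u : (𝓞 (KD D₁))ˣ, ∃ (y : ℂ) (l : ℤ), y ^ 12 = 1 ∧ y ∈ KD D₁ ∧
      (((u : 𝓞 (KD D₁)) : KD D₁) : ℂ) = y * (((ε : 𝓞 (KD D₁)) : KD D₁) : ℂ) ^ l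

/-! ## the data of `D` -/

/-- The data of the curve `y² = x³ + D`, `D = D₁ m²`, `D₁` squarefree, `D = η ω ^ i λ ^ v Ds` with `η = ± 1`, `i < 3`, `v < 6`,
`Ds` primary. `Q` is the primitive level of `ℚ(ω, √D)`, `L` the level of the Hecke character away from `λ`. -/
structure Dat (D : Eis) where
  D₁ : Eis
  m : Eis
  Q : QD D₁
  T : Finset Eis
  L : Lev
  v : ℕ
  η : Eis
  i : ℕ
  Ds : Eis
  hm : m ≠ 0
  hD : D = D₁ * m ^ 2
  ov : Over Q.L T L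
  hv : v < 6
  hη : η = 1 ∨ η = -1
  hi : i < 3
  hDs : Primary Ds
  hD' : D = η * CU.om ^ i * la ^ v * Ds
  /-- the parity -/
  hep : L.ep = v % 2
  /-- `q(λ) = η` for even `v`, `q(λ) = -η` for odd `v` -/
  q_la : (L.q la : Eis) = if L.ep = 0 then η else -η
  hk : L.k = 2 - mn Ds
  /-- the cubic character of `4 D` on the Galois group -/
  gal : ∀ t : ℂ, t ^ 3 = emb (4 * D) → GalT L (-(v : ZMod 3)) i t
  /-- the value of the Hecke character at `2` -/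
  p₂ : Eis
  val₂ : JG.Val2 D p₂
  /-- the value of the Hecke character at `λ` in the case of good reduction at `λ` -/
  pl : Eis
  vall : JG.ValL D pl
  pl_eq : JG.GoodL D → emb pl = L.chi la * emb la
  psi : ∀ b : Eis, Primary b →
    emb (JG.PsiG D p₂ pl (Ideal.span {eE b})) = L.chi b * conj (ka (-(v : ZMod 3)) i b) * emb b

end JGL
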