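import Pool.Agent.JGL.Ta
import Pool.Agent.JGL.Defs
import Pool.Agent.JL.A1
import Pool.Agent.JX.P1a
import Pool.Agent.JX.P1b

/-!
# [JGL-T] the functions `τ`, `U`
-/

set_option autoImplicit false

open NumberField IsDedekindDomain Filter Topology
open scoped Classical ComplexConjugate

namespace JGL

open CM27 JZ
open CU (la eE)
open CUL (Nl ez si ta DS Cont LV IsRep rp cr mn mo zw OT GalU W3 W9)
open JL (N1 KD sD Psi6)


theorem th_sq : th ^ 2 = -3 := by
  exact CUL.th_sq

theorem th_eq : th = w * emb la := by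
  rw [CUL.emb_la]
  unfold th
  ring

theorem ym_si : ym si = -th := by
  unfold ym th
  rw [JX.p1_si, yw_ta]
  ring

theorem xm_si : xm si = -1 := by
  have h := CUL.xw_si
  have hww := CUL.w2
  have h4 := CUL.w3
  have hfac : (xw si + 1) * ((xw si + w) * (xw si + w ^ 2)) = 0 := by
    linear_combination h + (xw si ^ 2 + xw si) * hww + (xw si + 1) * h4
  have hw0 : w ≠ 0 := a1_w_ne
  have hsi : conj si = w ^ 2 * si := by
    unfold CUL.si
    rw [CUL.la_sq, map_div₀, map_one, map_mul, CUL.conj_w, map_neg, map_ofNat]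
    field_simp
    linear_combination h4
  have hc : conj (xw si) = w ^ 2 * xw si := by
    rw [← xw_conj, hsi, show w ^ 2 * si = w * (w * si) by ring, xw_w, xw_w]
    ring
  have hw1 : w ^ 2 ≠ 1 := by
    intro h5
    have h6 : w = 1 := by linear_combination h4 - w * h5
    rw [h6] at hww
    norm_num at hww
  rcases mul_eq_zero.1 hfac with h5 | h5
  · exfalso
    have h6 : xw si = -1 := by linear_combination h5
    rw [h6, map_neg, map_one] at hc
    exact hw1 (by linear_combination hc)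
  · rcases mul_eq_zero.1 h5 with h5 | h5
    · exfalso
      have h6 : xw si = -w := by linear_combination h5
      rw [h6, map_neg, CUL.conj_w] at hc
      exact hw1 (by linear_combination h4 - hc)
    · unfold xm
      linear_combination w * h5 - h4

theorem ym_sq {z : ℂ} (hz : Nl z) : ym z ^ 2 = 4 * xm z ^ 3 + 1 := by
  unfold ym xm
  have h := weq z hz
  linear_combination h - 4 * xw z ^ 3 * CUL.w3

theorem T_th_ne : th ≠ 0 := by
  intro h
  have := th_sq
  rw [h] at this
  norm_num at this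

theorem Um_eq (z : ℂ) : Um z = (1 + Tm z) / (1 - Tm z) := by
  have hth := T_th_ne
  unfold Um Tm
  have e1 : 1 + ym z / th = (th + ym z) / th := by field_simp
  have e2 : 1 - ym z / th = (th - ym z) / th := by field_simp
  rw [e1, e2, div_div_div_cancel_right₀ hth]

theorem Tm_val (A : ValuationSubring ℂ) (hA : A.valuation 3 < 1) {z : ℂ} (hz : OT z) :
    A.valuation (Tm z) ^ 2 ≤ A.valuation (emb la) := by
  have hne : Nl z := hz.1
  have hL := CUL.w_la A hA
  obtain ⟨r, hr⟩ : ∃ r : ℂ, r ^ 3 = -1 / 4 := IsAlgClosed.exists_pow_nat_eq _ (by norm_num)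
  have hr4 : 4 * r ^ 3 = -1 := by rw [hr]; norm_num
  have hclose := JL.x_close A hA hr4 hz
  have v4 := JL.a1_four A hA
  have vr := JL.a1_r A hA hr4
  have vx := CUL.w_x A hA hz
  have hy := weq z hne
  have e1 : yw z ^ 2 = 4 * ((xw z - r) * ((xw z - r) ^ 2 + 3 * (r * xw z))) := by
    linear_combination hy + hr4
  have v3 : A.valuation (3 * (r * xw z)) = A.valuation (emb la) ^ 2 := by
    rw [map_mul, map_mul, vr, vx, one_mul, mul_one, hL]
  have v5 : A.valuation ((xw z - r) ^ 2 + 3 * (r * xw z)) ≤ A.valuation (emb la) ^ 2 := by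
    refine (Valuation.map_add _ _ _).trans (max_le ?_ v3.le)
    rw [map_pow]
    exact pow_le_pow_left' hclose 2
  have v6 : A.valuation (yw z) ^ 2 ≤ A.valuation (emb la) * A.valuation (emb la) ^ 2 := by
    rw [← map_pow, e1, map_mul, v4, one_mul, map_mul]
    exact mul_le_mul' hclose v5
  have vth : A.valuation th ^ 2 = A.valuation (emb la) ^ 2 := by
    rw [← map_pow, th_sq, Valuation.map_neg, hL]
  have hl0 : A.valuation (emb la) ^ 2 ≠ 0 := by
    rw [← map_pow, Valuation.ne_zero_iff]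
    exact pow_ne_zero _ CUL.la_ne
  have e2 : A.valuation (Tm z) ^ 2 * A.valuation (emb la) ^ 2 = A.valuation (yw z) ^ 2 := by
    rw [← vth, ← mul_pow, ← map_mul]
    have : Tm z * th = -yw z := by
      unfold Tm ym
      rw [div_mul_cancel₀ _ T_th_ne]
    rw [this, Valuation.map_neg]
  rw [← e2] at v6
  exact le_of_mul_le_mul_right v6 (zero_lt_iff.2 hl0)

theorem T_lt (A : ValuationSubring ℂ) (hA : A.valuation 3 < 1) {z : ℂ} (hz : OT z) : A.valuation (Tm z) < 1 := by
  by_contra hcon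
  push Not at hcon
  have h1 := Tm_val A hA hz
  have h2 := CUL.w_la_lt A hA
  exact absurd (one_le_pow₀ hcon (n := 2)) (not_le.2 (h1.trans_lt h2))

theorem T_one_sub (A : ValuationSubring ℂ) (hA : A.valuation 3 < 1) {z : ℂ} (hz : OT z) :
    A.valuation (1 - Tm z) = 1 := by
  rw [Valuation.map_sub_eq_of_lt_left _ (by rw [map_one]; exact T_lt A hA hz), map_one]

theorem T_ne_one {z : ℂ} (hz : OT z) : 1 - Tm z ≠ 0 := by
  obtain ⟨A, hA⟩ := CUL.exists_A
  have h2 := T_one_sub A hA hz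
  intro h0
  rw [h0, map_zero] at h2
  exact zero_ne_one h2

theorem T_xw_ne {z : ℂ} (hz : OT z) : xw z ≠ 0 := by
  obtain ⟨A, hA⟩ := CUL.exists_A
  have h2 := CUL.w_x A hA hz
  intro h0
  rw [h0, map_zero] at h2
  exact zero_ne_one h2

/-- `4 x³ = -(1 + 3 τ²)` -/
theorem T_x3 {z : ℂ} (hz : OT z) : 4 * xm z ^ 3 = -(1 + 3 * Tm z ^ 2) := by
  have h1 := ym_sq hz.1
  have h2 : ym z = th * Tm z := by
    unfold Tm
    rw [mul_div_cancel₀ _ T_th_ne]
  rw [h2] at h1
  linear_combination -h1 + Tm z ^ 2 * th_sq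

theorem Um_val (A : ValuationSubring ℂ) (hA : A.valuation 3 < 1) {z : ℂ} (hz : OT z) :
    A.valuation (Um z - 1) < 1 := by
  have h1 := T_lt A hA hz
  have h2 := T_one_sub A hA hz
  have hne : (1 - Tm z) ≠ 0 := by
    intro h0
    rw [h0, map_zero] at h2
    exact zero_ne_one h2
  have e : Um z - 1 = 2 * Tm z / (1 - Tm z) := by
    rw [Um_eq]
    field_simp
    ring
  rw [e, map_div₀, h2, div_one, map_mul, JL.a1_two A hA, one_mul]
  exact h1

/-- `-θ τ(λ z) (1 + 3 τ²) = τ³ + 3 τ` -/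
theorem Tm_la {z : ℂ} (hz : OT z) : -th * Tm (emb la * z) * (1 + 3 * Tm z ^ 2) = Tm z ^ 3 + 3 * Tm z := by
  have h1 := CUL.yw_la z
  have hx := T_xw_ne hz
  have h3 := T_x3 hz
  have hxm : xm z ^ 3 = xw z ^ 3 := by
    unfold xm
    linear_combination xw z ^ 3 * CUL.w3
  have hT : yw z = -(th * Tm z) := by
    unfold Tm ym
    rw [mul_div_cancel₀ _ T_th_ne, neg_neg]
  have hT' : yw (emb la * z) = -(th * Tm (emb la * z)) := by
    unfold Tm ym
    rw [mul_div_cancel₀ _ T_th_ne, neg_neg]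
  have hla : emb la ^ 3 = -3 * th := CUL.la_cube
  rw [hxm] at h3
  have hx3 : xw z ^ 3 ≠ 0 := pow_ne_zero _ hx
  have hth := T_th_ne
  rw [hla, hT, hT', eq_div_iff (mul_ne_zero (mul_ne_zero (by norm_num) hth) hx3)] at h1
  have h4 : th * (-th * Tm (emb la * z) * (1 + 3 * Tm z ^ 2)) = th * (Tm z ^ 3 + 3 * Tm z) := by
    linear_combination (4 / 3) * h1 + (-th ^ 2 * Tm (emb la * z) - th * Tm z / 3) * h3
  exact mul_left_cancel₀ hth h4

/-- `U(z)³ (1 + w U(λ z)) = U(λ z) + w` -/
theorem Um_la {z : ℂ} (hz : OT z) : Um z ^ 3 * (1 + w * Um (emb la * z)) = Um (emb la * z) + w := by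
  have h1 := Tm_la hz
  have hne := T_ne_one hz
  have hne2 := T_ne_one (CUL.u7_la_mul hz)
  have hth : th = w - w ^ 2 := rfl
  rw [hth] at h1
  rw [Um_eq, Um_eq]
  field_simp
  linear_combination (-2 * (1 + w)) * h1 + (2 * Tm (emb la * z) * (1 + 3 * Tm z ^ 2)) * CUL.w3

/-- `(x (1 + U))³ = -(1 + U³)` for `x = xm` -/
theorem xi_cube {z : ℂ} (hz : OT z) : (xm z * (1 + Um z)) ^ 3 = -(1 + Um z ^ 3) := by
  have hne := T_ne_one hz
  have h3 := T_x3 hz
  rw [Um_eq]
  have e1 : 1 + (1 + Tm z) / (1 - Tm z) = 2 / (1 - Tm z) := by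
    field_simp
    ring
  rw [e1]
  field_simp
  linear_combination 2 * h3

end JGL
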