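import Pool.Agent.JGL.B
import Pool.Agent.JGL.T
import Pool.Agent.JGL.C8

/-!
# [JGL-C9] the elliptic units are congruent to `1`
-/

set_option autoImplicit false

open NumberField IsDedekindDomain Filter Topology
open scoped Classical ComplexConjugate

namespace JGL

open CM27 JZ
open CU (la eE)
open CUL (Nl ez si ta DS Cont LV IsRep rp cr mn mo zw OT GalU W3 W9)
open JL (N1 KD sD Psi6)

section val

variable (A : ValuationSubring ℂ)

theorem c9_mul {x y : ℂ} (hx : A.valuation (x - 1) < 1) (hy : A.valuation (y - 1) < 1) :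
    A.valuation (x * y - 1) < 1 := by
  have e : x * y - 1 = x * (y - 1) + (x - 1) := by ring
  rw [e]
  refine Valuation.map_add_lt _ ?_ hx
  rw [map_mul, c1_v1 A hx, one_mul]
  exact hy

theorem c9_inv {x : ℂ} (hx : A.valuation (x - 1) < 1) : A.valuation (x⁻¹ - 1) < 1 := by
  have h1 := c1_v1 A hx
  have h0 := c4_ne A hx
  have e : x⁻¹ - 1 = -(x - 1) * x⁻¹ := by field_simp; ring
  rw [e, map_mul, Valuation.map_neg, map_inv₀, h1, inv_one, mul_one]
  exact hx

theorem c9_prod {ι : Type*} (R : Finset ι) (f : ι → ℂ) (h : ∀ c ∈ R, A.valuation (f c - 1) < 1) :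
    A.valuation (∏ c ∈ R, f c - 1) < 1 := by
  induction R using Finset.induction_on with
  | empty => rw [Finset.prod_empty, sub_self, map_zero]; exact zero_lt_one
  | insert a s ha ih =>
    rw [Finset.prod_insert ha]
    exact c9_mul A (h a (Finset.mem_insert_self _ _)) (ih fun c hc => h c (Finset.mem_insert_of_mem hc))

theorem c9_sgn {ι : Type*} (R : Finset ι) (q : ι → ℤ) : ∏ c ∈ R, (-1 : ℂ) ^ q c = (-1 : ℂ) ^ (∑ c ∈ R, q c) := by
  induction R using Finset.induction_on with
  | empty => simp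
  | insert a s ha ih =>
    rw [Finset.prod_insert ha, Finset.sum_insert ha, zpow_add₀ (by norm_num), ih]

theorem c9_pm {x : ℂ} {n : ℤ} (hn : n = 1 ∨ n = -1) (hx : A.valuation (x - 1) < 1) : A.valuation (x ^ n - 1) < 1 := by
  rcases hn with rfl | rfl
  · rw [zpow_one]; exact hx
  · rw [zpow_neg_one]; exact c9_inv A hx

theorem c9_zw (hA : A.valuation 3 < 1) (m : ZMod 3) : A.valuation (zw m - 1) < 1 := by
  have h1 : A.valuation (w - 1) < 1 := by
    have e : w - 1 = -emb la := by rw [CUL.emb_la]; ring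
    rw [e, Valuation.map_neg]
    exact CUL.w_la_lt A hA
  have h2 : ∀ n : ℕ, A.valuation (w ^ n - 1) < 1 := by
    intro n
    induction n with
    | zero => rw [pow_zero, sub_self, map_zero]; exact zero_lt_one
    | succ n ih => rw [pow_succ]; exact c9_mul A ih h1
  exact h2 _

theorem c9_xw (hA : A.valuation 3 < 1) {z : ℂ} (hz : OT z) : A.valuation (-xw z - 1) < 1 := by
  obtain ⟨r, hr⟩ := JL.exists_r
  have h1 := JL.x_close A hA hr hz
  have h2 := JL.r_one A hA hr
  have e : -xw z - 1 = -((xw z - r) + (r + 1)) := by ring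
  rw [e, Valuation.map_neg]
  exact Valuation.map_add_lt _ (lt_of_le_of_lt h1 (CUL.w_la_lt A hA)) h2

end val

theorem ee_one (L : Lev) (h : L.ep = 0) {R : Finset Eis} (hR : IsR L R) (A : ValuationSubring ℂ)
    (hA : A.valuation 3 < 1) (m : ZMod 3) : A.valuation (zw m * ee L R - 1) < 1 := by
  refine c9_mul A (c9_zw A hA m) ?_
  have e : ee L R = ∏ c ∈ R, (-xw (pt L c)) ^ L.q c := by
    unfold ee
    have e1 : ∀ c ∈ R, xw (pt L c) ^ L.q c = (-1 : ℂ) ^ L.q c * (-xw (pt L c)) ^ L.q c := by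
      intro c _
      rw [← mul_zpow, neg_mul_neg, one_mul]
    rw [Finset.prod_congr rfl e1, Finset.prod_mul_distrib, c9_sgn, sum_R_q L h hR, zpow_zero, one_mul]
  rw [e]
  exact c9_prod A R _ fun c hc => c9_pm A (L.q_pm c (hR.1 c hc)) (c9_xw A hA (OT_pt L (hR.1 c hc)))

theorem eo_one (L : Lev) {R : Finset Eis} (hR : IsR L R) (A : ValuationSubring ℂ)
    (hA : A.valuation 3 < 1) : A.valuation (eo L R - 1) < 1 :=
  c9_prod A R _ fun c hc => c9_pm A (L.q_pm c (hR.1 c hc)) (Um_val A hA (OT_pt L (hR.1 c hc)))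

end JGL
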