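import Pool.Agent.JGL.Defs

/-!
# [JGL] the line for `v = 1`
-/

set_option autoImplicit false

open NumberField IsDedekindDomain Filter Topology
open scoped Classical ComplexConjugate

namespace JGL

open CM27 JZ
open CU (la eE)
open CUL (Nl ez si ta DS Cont LV IsRep rp cr mn mo zw OT GalU W3 W9)
open JL (N1 KD sD Psi6)


/-- the classes of the local points for `v = 1` -/
def Ln1 (A : ValuationSubring ℂ) (e₀ e₁ : ℤ) (u : ℂ) : Prop :=
  ∃ b t : ℤ, (b = 0 ∨ b = 1 ∨ b = -1) ∧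
    A.valuation (u - ((b : ℂ) + (t : ℂ) * (emb la * ((e₀ : ℂ) + ((e₁ - 1 - b ^ 2 : ℤ) : ℂ) * emb la)))) ≤
      A.valuation (emb la) ^ 3

end JGL
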