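import Pool.Agent.JGL.B
import Pool.Agent.JGL.T
import Pool.Agent.JGL.Ln
import Pool.Agent.JGL.C9

/-!
# [JGL-C] the criterion: from the digits of the elliptic unit to the class group and the units of `F`

The theorems are in the files `C1` (conjugation, norm one elements, residues, `S1`), `C2` (`crit_gen`, `n2_of`), `C3` - `C5` (valuations, `OnG`),
`C6` (`crit_0a`, `crit_0b`, `crit_2`, `crit_4`), `C7`, `C8` (`crit_35`, `crit_1`), `C9` (`ee_one`, `eo_one`).
-/
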