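import Pool.Agent.JGL.Defs
import Pool.Agent.JX.N6
import Pool.Agent.JX.Ta

/-!
# [JGL-C1] the field `ℚ(ω, √D₁)`, `D₁` not a square: conjugation, norm one elements, residues
-/

set_option autoImplicit false

open NumberField IsDedekindDomain Filter Topology
open scoped Classical ComplexConjugate

namespace JGL

open CM27 JZ
open CU (la eE)
open CUL (Nl ez si ta DS Cont LV IsRep rp cr mn mo zw OT GalU W3 W9)
open JL (N1 KD sD Psi6)

variable {D₁ : Eis}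

theorem c1_not_mem (h : ¬ IsSquare D₁) : sD D₁ ∉ CF.KK := by
  intro hm
  obtain ⟨a, ha⟩ := JL.KK_int hm (JL.isIntegral_sD D₁)
  exact h ⟨a, emb_injective (by rw [map_mul, ← pow_two, ← ha, JL.sD_sq])⟩

theorem c1_uniq (h : ¬ IsSquare D₁) {u₁ u₂ v₁ v₂ : ℂ} (h1 : u₁ ∈ CF.KK) (h2 : u₂ ∈ CF.KK) (h3 : v₁ ∈ CF.KK)
    (h4 : v₂ ∈ CF.KK) (he : u₁ + u₂ * sD D₁ = v₁ + v₂ * sD D₁) : u₁ = v₁ ∧ u₂ = v₂ := by
  have h22 : u₂ = v₂ := by
    by_contra hne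
    apply c1_not_mem h
    have h5 : sD D₁ = (v₁ - u₁) / (u₂ - v₂) := by
      rw [eq_div_iff (sub_ne_zero.mpr hne)]
      linear_combination he
    rw [h5]
    exact div_mem (sub_mem h3 h1) (sub_mem h2 h4)
  refine ⟨?_, h22⟩
  rw [h22] at he
  exact add_right_cancel he

theorem c1_tau (h : ¬ IsSquare D₁) : ∃ τ : KD D₁ ≃+* KD D₁, ∀ (u₁ u₂ : ℂ), u₁ ∈ CF.KK → u₂ ∈ CF.KK →
    ∀ x : KD D₁, (x : ℂ) = u₁ + u₂ * sD D₁ → ((τ x : KD D₁) : ℂ) = u₁ - u₂ * sD D₁ := by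
  have hx : ∀ x : KD D₁, ∃ u₁ u₂ : ℂ, u₁ ∈ CF.KK ∧ u₂ ∈ CF.KK ∧ (x : ℂ) = u₁ + u₂ * sD D₁ :=
    fun x => (JL.mem_KD (x : ℂ)).mp x.2
  choose p q hp hq hpq using hx
  have hmem : ∀ x : KD D₁, p x - q x * sD D₁ ∈ KD D₁ := fun x =>
    (JL.mem_KD _).mpr ⟨p x, - q x, hp x, neg_mem (hq x), by ring⟩
  let f : KD D₁ → KD D₁ := fun x => ⟨p x - q x * sD D₁, hmem x⟩
  have key : ∀ (u₁ u₂ : ℂ), u₁ ∈ CF.KK → u₂ ∈ CF.KK →
      ∀ x : KD D₁, (x : ℂ) = u₁ + u₂ * sD D₁ → ((f x : KD D₁) : ℂ) = u₁ - u₂ * sD D₁ := by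
    intro u₁ u₂ h1 h2 x hx
    obtain ⟨h3, h4⟩ := c1_uniq h (hp x) (hq x) h1 h2 (by rw [← hpq, hx])
    change p x - q x * sD D₁ = _
    rw [h3, h4]
  have hff : ∀ x, f (f x) = x := by
    intro x
    apply Subtype.ext
    rw [key (p x) (- q x) (hp x) (neg_mem (hq x)) (f x) (by
      change p x - q x * sD D₁ = _
      ring), hpq x]
    ring
  refine ⟨RingEquiv.mk ⟨f, f, hff, hff⟩ ?_ ?_, key⟩
  · intro x y
    apply Subtype.ext
    rw [key (p x * p y + q x * q y * emb D₁) (p x * q y + q x * p y)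
      (add_mem (mul_mem (hp x) (hp y)) (mul_mem (mul_mem (hq x) (hq y)) (JL.F0_emb_mem D₁)))
      (add_mem (mul_mem (hp x) (hq y)) (mul_mem (hq x) (hp y))) (x * y) (by
        push_cast
        rw [hpq x, hpq y]
        linear_combination (q x * q y) * JL.sD_sq D₁)]
    change _ = (p x - q x * sD D₁) * (p y - q y * sD D₁)
    linear_combination (- (q x * q y)) * JL.sD_sq D₁
  · intro x y
    apply Subtype.ext
    rw [key (p x + p y) (q x + q y) (add_mem (hp x) (hp y)) (add_mem (hq x) (hq y)) (x + y) (by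
        push_cast
        rw [hpq x, hpq y]
        ring)]
    change _ = (p x - q x * sD D₁) + (p y - q y * sD D₁)
    ring

/-- the conjugate of an integral element is integral -/
theorem c1_conj_int (h : ¬ IsSquare D₁) {u₁ u₂ : ℂ} (h1 : u₁ ∈ CF.KK) (h2 : u₂ ∈ CF.KK)
    (hi : IsIntegral ℤ (u₁ + u₂ * sD D₁)) : IsIntegral ℤ (u₁ - u₂ * sD D₁) := by
  obtain ⟨τ, hτ⟩ := c1_tau h
  have hz : u₁ + u₂ * sD D₁ ∈ KD D₁ := (JL.mem_KD _).2 ⟨u₁, u₂, h1, h2, rfl⟩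
  have hi1 : IsIntegral ℤ (⟨_, hz⟩ : KD D₁) :=
    (isIntegral_algHom_iff ((KD D₁).val.restrictScalars ℤ) Subtype.val_injective).mp hi
  have hi2 : IsIntegral ℤ (τ ⟨_, hz⟩) := hi1.map (τ : KD D₁ →+* KD D₁).toIntAlgHom
  rw [← hτ u₁ u₂ h1 h2 ⟨_, hz⟩ rfl]
  exact (isIntegral_algHom_iff ((KD D₁).val.restrictScalars ℤ) Subtype.val_injective).mpr hi2

/-- conjugation of `u = z ε ^ n` -/
theorem c1_conj (h : ¬ IsSquare D₁) {u₁ u₂ v₁ v₂ z₁ z₂ : ℂ} (h1 : u₁ ∈ CF.KK) (h2 : u₂ ∈ CF.KK) (h3 : v₁ ∈ CF.KK)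
    (h4 : v₂ ∈ CF.KK) (h5 : z₁ ∈ CF.KK) (h6 : z₂ ∈ CF.KK) {n : ℤ}
    (he : u₁ + u₂ * sD D₁ = (z₁ + z₂ * sD D₁) * (v₁ + v₂ * sD D₁) ^ n) :
    u₁ - u₂ * sD D₁ = (z₁ - z₂ * sD D₁) * (v₁ - v₂ * sD D₁) ^ n := by
  obtain ⟨τ, hτ⟩ := c1_tau h
  have hx : v₁ + v₂ * sD D₁ ∈ KD D₁ := (JL.mem_KD _).2 ⟨v₁, v₂, h3, h4, rfl⟩
  have hy : u₁ + u₂ * sD D₁ ∈ KD D₁ := (JL.mem_KD _).2 ⟨u₁, u₂, h1, h2, rfl⟩
  have hz : z₁ + z₂ * sD D₁ ∈ KD D₁ := (JL.mem_KD _).2 ⟨z₁, z₂, h5, h6, rfl⟩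
  have e1 : (⟨_, hy⟩ : KD D₁) = ⟨_, hz⟩ * (⟨_, hx⟩ : KD D₁) ^ n := by
    apply (algebraMap (KD D₁) ℂ).injective
    rw [map_mul, map_zpow₀]
    exact he
  have e2 := congrArg (fun x : KD D₁ => algebraMap (KD D₁) ℂ (τ x)) e1
  rw [map_mul, map_zpow₀, map_mul, map_zpow₀] at e2
  have g1 : algebraMap (KD D₁) ℂ (τ ⟨_, hy⟩) = u₁ - u₂ * sD D₁ := hτ u₁ u₂ h1 h2 ⟨_, hy⟩ rfl
  have g2 : algebraMap (KD D₁) ℂ (τ ⟨_, hx⟩) = v₁ - v₂ * sD D₁ := hτ v₁ v₂ h3 h4 ⟨_, hx⟩ rfl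
  have g3 : algebraMap (KD D₁) ℂ (τ ⟨_, hz⟩) = z₁ - z₂ * sD D₁ := hτ z₁ z₂ h5 h6 ⟨_, hz⟩ rfl
  rw [g1, g2, g3] at e2
  exact e2

/-- the conjugate of a 12th root of unity is the same up to sign -/
theorem c1_root (h : ¬ IsSquare D₁) {z₁ z₂ : ℂ} (h5 : z₁ ∈ CF.KK) (h6 : z₂ ∈ CF.KK)
    (hz : (z₁ + z₂ * sD D₁) ^ 12 = 1) : (z₁ - z₂ * sD D₁) ^ 2 = (z₁ + z₂ * sD D₁) ^ 2 := by
  have h1 : ((z₁ + z₂ * sD D₁) ^ 2) ^ 6 = 1 := by rw [← pow_mul]; exact hz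
  have h2 := JL.n6_root h1
  have h0 : (0 : ℂ) ∈ CF.KK := zero_mem _
  have e1 : (z₁ + z₂ * sD D₁) ^ 2 + 0 * sD D₁ = (1 + 0 * sD D₁) * (z₁ + z₂ * sD D₁) ^ (2 : ℤ) := by
    rw [zero_mul, add_zero, add_zero, one_mul]
    exact_mod_cast rfl
  have e2 := c1_conj h h2 h0 h5 h6 (one_mem _) h0 e1
  rw [zero_mul, sub_zero, sub_zero, one_mul] at e2
  rw [e2]
  exact_mod_cast rfl

/-! ### norm one elements -/

theorem c1_one (s : ℂ) : N1 s 1 := ⟨1, 0, one_mem _, zero_mem _, by ring, by rw [inv_one]; ring, one_ne_zero⟩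

theorem c1_inv {s x : ℂ} (h : N1 s x) : N1 s x⁻¹ := by
  obtain ⟨a, b, ha, hb, h1, h2, h3⟩ := h
  exact ⟨a, -b, ha, neg_mem hb, by rw [h2]; ring, by rw [inv_inv, h1]; ring, inv_ne_zero h3⟩

theorem c1_mul {s x y : ℂ} {d : Eis} (hs : s ^ 2 = emb d) (h : N1 s x) (h' : N1 s y) : N1 s (x * y) := by
  obtain ⟨a, b, ha, hb, h1, h2, h3⟩ := h
  obtain ⟨a', b', ha', hb', h1', h2', h3'⟩ := h'
  refine ⟨a * a' + b * b' * emb d, a * b' + b * a', ?_, ?_, ?_, ?_, mul_ne_zero h3 h3'⟩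
  · exact add_mem (mul_mem ha ha') (mul_mem (mul_mem hb hb') (JL.F0_emb_mem d))
  · exact add_mem (mul_mem ha hb') (mul_mem hb ha')
  · rw [h1, h1', ← hs]; ring
  · rw [mul_inv, h2, h2', ← hs]; ring

section val

variable (A : ValuationSubring ℂ)

/-- the norm one elements congruent to `1` -/
def S1 (r z : ℂ) : Prop := N1 r z ∧ A.valuation (z - 1) < 1

theorem c1_v1 {x : ℂ} (hx : A.valuation (x - 1) < 1) : A.valuation x = 1 := by
  have e : x = 1 + (x - 1) := by ring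
  rw [e, Valuation.map_add_eq_of_lt_left _ (by rw [map_one]; exact hx), map_one]

theorem s1_one (s : ℂ) : S1 A s 1 := ⟨c1_one s, by rw [sub_self, map_zero]; exact zero_lt_one⟩

theorem s1_inv {s x : ℂ} (h : S1 A s x) : S1 A s x⁻¹ := by
  refine ⟨c1_inv h.1, ?_⟩
  have h1 := c1_v1 A h.2
  have h0 : x ≠ 0 := by
    rintro rfl
    rw [map_zero] at h1
    exact zero_ne_one h1
  have e : x⁻¹ - 1 = -(x - 1) * x⁻¹ := by field_simp; ring
  rw [e, map_mul, Valuation.map_neg, map_inv₀, h1, inv_one, mul_one]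
  exact h.2

theorem s1_mul {s x y : ℂ} {d : Eis} (hs : s ^ 2 = emb d) (h : S1 A s x) (h' : S1 A s y) : S1 A s (x * y) := by
  refine ⟨c1_mul hs h.1 h'.1, ?_⟩
  have e : x * y - 1 = x * (y - 1) + (x - 1) := by ring
  rw [e]
  refine Valuation.map_add_lt _ ?_ h.2
  rw [map_mul, c1_v1 A h.2, one_mul]
  exact h'.2

theorem s1_npow {s x : ℂ} {d : Eis} (hs : s ^ 2 = emb d) (h : S1 A s x) (n : ℕ) : S1 A s (x ^ n) := by
  induction n with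
  | zero => rw [pow_zero]; exact s1_one A s
  | succ n ih => rw [pow_succ]; exact s1_mul A hs ih h

theorem s1_zpow {s x : ℂ} {d : Eis} (hs : s ^ 2 = emb d) (h : S1 A s x) (n : ℤ) : S1 A s (x ^ n) := by
  cases n with
  | ofNat k =>
    rw [Int.ofNat_eq_natCast, zpow_natCast]
    exact s1_npow A hs h k
  | negSucc k =>
    rw [zpow_negSucc]
    exact s1_inv A (s1_npow A hs h _)

/-! ### residues -/

theorem c1_dig (T : Eis) : ∃ j : ℤ, (j = 0 ∨ j = 1 ∨ j = -1) ∧ la ∣ T - (j : Eis) := by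
  rcases JL.n6_res T with h | h | h
  · exact ⟨0, Or.inl rfl, by simpa using h⟩
  · exact ⟨1, Or.inr (Or.inl rfl), by simpa using h⟩
  · exact ⟨-1, Or.inr (Or.inr rfl), by simpa using h⟩

theorem c1_res (hA : A.valuation 3 < 1) {x : ℂ} {T N : Eis} (hx : A.valuation x = 1)
    (h : x ^ 2 = emb T * x - emb N) : A.valuation (x ^ 8 - 1) < 1 := by
  have hxA : x ∈ A := (ValuationSubring.valuation_le_one_iff A _).1 hx.le
  have hTA : ∀ m : Eis, emb m ∈ A := fun m => (ValuationSubring.valuation_le_one_iff A _).1 (CUL.w_emb_le A m)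
  set X : A := ⟨x, hxA⟩ with hX
  set T' : A := ⟨emb T, hTA T⟩ with hT'
  set N' : A := ⟨emb N, hTA N⟩ with hN'
  set ρ := IsLocalRing.residue A with hρ
  have h0 : ∀ a : A, A.valuation (a : ℂ) < 1 → ρ a = 0 := by
    intro a ha
    rw [hρ, IsLocalRing.residue_eq_zero_iff]
    exact (ValuationSubring.valuation_lt_one_iff A a).2 ha
  have h3 : (3 : IsLocalRing.ResidueField A) = 0 := by
    have h4 := h0 3 (by exact_mod_cast hA)
    rwa [map_ofNat] at h4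
  have hem : ∀ (m : Eis) (m' : A), (m' : ℂ) = emb m → ρ m' ^ 3 = ρ m' := by
    intro m m' hm
    obtain ⟨j, hj, hd⟩ := c1_dig m
    have h5 : ρ (m' - (j : A)) = 0 := by
      apply h0
      have e : ((m' - (j : A) : A) : ℂ) = emb (m - (j : Eis)) := by
        push_cast
        rw [hm, map_sub, map_intCast]
      rw [e]
      exact CUL.w_emb_lt A hA hd
    rw [map_sub, map_intCast, sub_eq_zero] at h5
    rw [h5]
    rcases hj with rfl | rfl | rfl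
    · simp
    · simp
    · push_cast
      ring
  have hT3 := hem T T' rfl
  have hN3 := hem N N' rfl
  have h6 : ρ X ^ 2 = ρ T' * ρ X - ρ N' := by
    rw [← map_pow, ← map_mul, ← map_sub]
    congr 1
    apply Subtype.ext
    push_cast
    exact h
  have hX0 : ρ X ≠ 0 := by
    intro h7
    rw [hρ, IsLocalRing.residue_eq_zero_iff] at h7
    have h8 := (ValuationSubring.valuation_lt_one_iff A X).1 h7
    rw [hX] at h8
    simp only at h8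
    rw [hx] at h8
    exact lt_irrefl _ h8
  have h9 : (ρ X ^ 3 - ρ X) * (ρ X ^ 3 - (ρ T' - ρ X)) = 0 := by
    linear_combination (ρ X ^ 4 + ρ X ^ 2 * (ρ T' * ρ X - ρ N') + (ρ T' * ρ X - ρ N') ^ 2 - 1) * h6 +
      ρ X ^ 3 * hT3 - hN3 + (- ρ T' ^ 2 * ρ X ^ 2 * ρ N' + ρ T' * ρ X * ρ N' ^ 2) * h3
  have h10 : ρ X ^ 9 = ρ X := by
    rcases mul_eq_zero.1 h9 with h11 | h11
    · linear_combination (ρ X ^ 6 + ρ X ^ 4 + ρ X ^ 2 + 1) * h11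
    · have h12 : ρ X ^ 3 = ρ T' - ρ X := sub_eq_zero.1 h11
      have h13 : ρ X ^ 9 = (ρ X ^ 3) ^ 3 := by ring
      rw [h13, h12]
      linear_combination hT3 + h12 + (- ρ T' ^ 2 * ρ X + ρ T' * ρ X ^ 2) * h3 - 2 * h12
  have h14 : ρ X ^ 8 = 1 := by
    have h15 : ρ X * (ρ X ^ 8 - 1) = 0 := by linear_combination h10
    exact sub_eq_zero.1 ((mul_eq_zero.1 h15).resolve_left hX0)
  have h16 : ρ (X ^ 8 - 1) = 0 := by rw [map_sub, map_pow, h14, map_one, sub_self]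
  rw [hρ, IsLocalRing.residue_eq_zero_iff] at h16
  have h17 := (ValuationSubring.valuation_lt_one_iff A _).1 h16
  push_cast at h17
  exact h17

end val

end JGL
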