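import Pool.Agent.JGL.C1

/-!
# [JGL-C2] the general criterion
-/

set_option autoImplicit false

open NumberField IsDedekindDomain Filter Topology
open scoped Classical ComplexConjugate

namespace JGL

open CM27 JZ
open CU (la eE)
open CUL (Nl ez si ta DS Cont LV IsRep rp cr mn mo zw OT GalU W3 W9)
open JL (N1 KD sD Psi6)

variable {D₁ : Eis}

theorem c2_conj_ne (h : ¬ IsSquare D₁) {u₁ u₂ : ℂ} (h1 : u₁ ∈ CF.KK) (h2 : u₂ ∈ CF.KK)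
    (h0 : u₁ + u₂ * sD D₁ ≠ 0) : u₁ - u₂ * sD D₁ ≠ 0 := by
  intro h3
  obtain ⟨h4, h5⟩ := c1_uniq h h1 (neg_mem h2) (zero_mem _) (zero_mem _) (by
    rw [zero_mul, add_zero, ← h3]; ring)
  apply h0
  rw [h4, neg_eq_zero.1 h5]
  ring

theorem c2_unit (h : ¬ IsSquare D₁) (A : ValuationSubring ℂ) (hA : A.valuation 3 < 1) {u₁ u₂ : ℂ}
    (h1 : u₁ ∈ CF.KK) (h2 : u₂ ∈ CF.KK) (h0 : u₁ + u₂ * sD D₁ ≠ 0)
    (hi : IsIntegral ℤ (u₁ + u₂ * sD D₁)) (hi' : IsIntegral ℤ (u₁ + u₂ * sD D₁)⁻¹) :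
    S1 A (sD D₁) (((u₁ + u₂ * sD D₁) / (u₁ - u₂ * sD D₁)) ^ 8) ∧
      IsIntegral ℤ (((u₁ + u₂ * sD D₁) / (u₁ - u₂ * sD D₁)) ^ 8) ∧
      IsIntegral ℤ (((u₁ + u₂ * sD D₁) / (u₁ - u₂ * sD D₁)) ^ 8)⁻¹ := by
  have hs := JL.sD_sq D₁
  have h0' := c2_conj_ne h h1 h2 h0
  have hn : (u₁ + u₂ * sD D₁) * (u₁ - u₂ * sD D₁) = u₁ ^ 2 - u₂ ^ 2 * emb D₁ := by
    rw [← hs]; ring
  have hn0 : u₁ ^ 2 - u₂ ^ 2 * emb D₁ ≠ 0 := by rw [← hn]; exact mul_ne_zero h0 h0'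
  have hnK : u₁ ^ 2 - u₂ ^ 2 * emb D₁ ∈ CF.KK :=
    sub_mem (pow_mem h1 2) (mul_mem (pow_mem h2 2) (JL.F0_emb_mem D₁))
  -- the conjugate is a unit
  have hc : IsIntegral ℤ (u₁ - u₂ * sD D₁) := c1_conj_int h h1 h2 hi
  have hc' : IsIntegral ℤ (u₁ - u₂ * sD D₁)⁻¹ := by
    have e1 : (u₁ + u₂ * sD D₁)⁻¹ = u₁ / (u₁ ^ 2 - u₂ ^ 2 * emb D₁) +
        (-(u₂ / (u₁ ^ 2 - u₂ ^ 2 * emb D₁))) * sD D₁ := by
      rw [← hn]
      field_simp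
      ring
    have e2 : (u₁ - u₂ * sD D₁)⁻¹ = u₁ / (u₁ ^ 2 - u₂ ^ 2 * emb D₁) -
        (-(u₂ / (u₁ ^ 2 - u₂ ^ 2 * emb D₁))) * sD D₁ := by
      rw [← hn]
      field_simp
      ring
    rw [e2]
    rw [e1] at hi'
    exact c1_conj_int h (div_mem h1 hnK) (neg_mem (div_mem h2 hnK)) hi'
  have hv := JX.x6_int A hi
  have hv' := JX.x6_int A hi'
  have hw := JX.x6_int A hc
  have hw' := JX.x6_int A hc'
  have one_of : ∀ x : ℂ, x ≠ 0 → A.valuation x ≤ 1 → A.valuation x⁻¹ ≤ 1 → A.valuation x = 1 := by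
    intro x hx h3 h4
    refine le_antisymm h3 ?_
    have h5 : A.valuation x * A.valuation x⁻¹ = 1 := by rw [← map_mul, mul_inv_cancel₀ hx, map_one]
    calc (1 : A.ValueGroup) = A.valuation x * A.valuation x⁻¹ := h5.symm
      _ ≤ A.valuation x * 1 := mul_le_mul' le_rfl h4
      _ = A.valuation x := mul_one _
  have hv1 := one_of _ h0 hv hv'
  have hw1 := one_of _ h0' hw hw'
  -- trace and norm
  have h2m : (2 : ℂ) ∈ CF.KK := by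
    have := JL.F0_emb_mem 2
    rwa [map_ofNat] at this
  have hTi : IsIntegral ℤ (2 * u₁) := by
    have e : 2 * u₁ = (u₁ + u₂ * sD D₁) + (u₁ - u₂ * sD D₁) := by ring
    rw [e]; exact hi.add hc
  obtain ⟨T, hT⟩ := JL.KK_int (mul_mem h2m h1) hTi
  obtain ⟨N, hN⟩ := JL.KK_int hnK (by rw [← hn]; exact hi.mul hc)
  have r1 := c1_res A hA (x := u₁ + u₂ * sD D₁) (T := T) (N := N) hv1 (by
    rw [← hT, ← hN, ← hs]; ring)
  have r2 := c1_res A hA (x := u₁ - u₂ * sD D₁) (T := T) (N := N) hw1 (by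
    rw [← hT, ← hN, ← hs]; ring)
  refine ⟨?_, ?_, ?_⟩
  · have hy : N1 (sD D₁) ((u₁ + u₂ * sD D₁) / (u₁ - u₂ * sD D₁)) := by
      refine ⟨(u₁ ^ 2 + u₂ ^ 2 * emb D₁) / (u₁ ^ 2 - u₂ ^ 2 * emb D₁),
        (2 * u₁ * u₂) / (u₁ ^ 2 - u₂ ^ 2 * emb D₁), ?_, ?_, ?_, ?_, div_ne_zero h0 h0'⟩
      · exact div_mem (add_mem (pow_mem h1 2) (mul_mem (pow_mem h2 2) (JL.F0_emb_mem D₁))) hnK
      · exact div_mem (mul_mem (mul_mem h2m h1) h2) hnK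
      · rw [← hn, ← hs]
        field_simp
        ring
      · rw [← hn, ← hs]
        field_simp
        ring
    have hN8 : ∀ k : ℕ, N1 (sD D₁) (((u₁ + u₂ * sD D₁) / (u₁ - u₂ * sD D₁)) ^ k) := by
      intro k
      induction k with
      | zero => rw [pow_zero]; exact c1_one _
      | succ k ih => rw [pow_succ]; exact c1_mul hs ih hy
    refine ⟨hN8 8, ?_⟩
    have e : ((u₁ + u₂ * sD D₁) / (u₁ - u₂ * sD D₁)) ^ 8 - 1 =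
        (((u₁ + u₂ * sD D₁) ^ 8 - 1) - ((u₁ - u₂ * sD D₁) ^ 8 - 1)) / (u₁ - u₂ * sD D₁) ^ 8 := by
      rw [div_pow, eq_div_iff (pow_ne_zero 8 h0'), sub_mul, div_mul_cancel₀ _ (pow_ne_zero 8 h0')]
      ring
    rw [e, map_div₀, map_pow, hw1, one_pow, div_one]
    exact Valuation.map_sub_lt _ r1 r2
  · rw [div_eq_mul_inv]
    exact (hi.mul hc').pow 8
  · rw [← inv_pow, inv_div, div_eq_mul_inv]
    exact (hc.mul hi').pow 8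

theorem crit_core (h : ¬ IsSquare D₁) (A : ValuationSubring ℂ) (hA : A.valuation 3 < 1) {e : ℂ} (hU : UnitE D₁ e)
    (he : A.valuation (e - 1) < 1) (P Q : ℂ → Prop)
    (hmul : ∀ x y, S1 A (sD D₁) x → S1 A (sD D₁) y → P x → P y → P (x * y))
    (hinv : ∀ x, S1 A (sD D₁) x → P x → P x⁻¹) (hcube : ∀ x, S1 A (sD D₁) x → P (x ^ 3))
    (hOn : ∀ E, S1 A (sD D₁) E → IsIntegral ℤ E → IsIntegral ℤ E⁻¹ → (P E ↔ Q E)) :
    ¬ P e ↔ ¬ 3 ∣ classNumber (KD D₁) ∧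
      ∃ u₁ u₂ : ℂ, u₁ ∈ CF.KK ∧ u₂ ∈ CF.KK ∧ u₁ + u₂ * sD D₁ ≠ 0 ∧ IsIntegral ℤ (u₁ + u₂ * sD D₁) ∧
        IsIntegral ℤ (u₁ + u₂ * sD D₁)⁻¹ ∧ ¬ Q (((u₁ + u₂ * sD D₁) / (u₁ - u₂ * sD D₁)) ^ 8) := by
  have hs := JL.sD_sq D₁
  obtain ⟨hN, ε, n, z, j, hz, hzK, hez, hn, hu⟩ := hU
  have hSe : S1 A (sD D₁) e := ⟨hN, he⟩
  obtain ⟨hεi, hεi', hε0⟩ := JL.n6_unit_int ε
  obtain ⟨v₁, v₂, hv1, hv2, hε⟩ := (JL.mem_KD _).1 ((ε : 𝓞 (KD D₁)) : KD D₁).2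
  rw [hε] at hεi hεi' hε0
  obtain ⟨hE, hEi, hEi'⟩ := c2_unit h A hA hv1 hv2 hε0 hεi hεi'
  have hε0' := c2_conj_ne h hv1 hv2 hε0
  -- powers
  have hP1 : P 1 := by
    have := hcube 1 (s1_one A _)
    rwa [one_pow] at this
  have hPn : ∀ (x : ℂ), S1 A (sD D₁) x → P x → ∀ k : ℕ, P (x ^ k) := by
    intro x hx hP k
    induction k with
    | zero => rw [pow_zero]; exact hP1
    | succ k ih => rw [pow_succ]; exact hmul _ _ (s1_npow A hs hx k) hx ih hP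
  have hPz : ∀ (x : ℂ), S1 A (sD D₁) x → P x → ∀ k : ℤ, P (x ^ k) := by
    intro x hx hP k
    cases k with
    | ofNat k =>
      rw [Int.ofNat_eq_natCast, zpow_natCast]
      exact hPn x hx hP k
    | negSucc k =>
      rw [zpow_negSucc]
      exact hinv _ (s1_npow A hs hx _) (hPn x hx hP _)
  -- the quotient of conjugates
  have hquot : ∀ (x₁ x₂ y : ℂ) (l : ℤ), x₁ ∈ CF.KK → x₂ ∈ CF.KK → y ^ 12 = 1 → y ∈ KD D₁ →
      x₁ + x₂ * sD D₁ = y * (v₁ + v₂ * sD D₁) ^ l →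
      ((x₁ + x₂ * sD D₁) / (x₁ - x₂ * sD D₁)) ^ 8 = (((v₁ + v₂ * sD D₁) / (v₁ - v₂ * sD D₁)) ^ 8) ^ l := by
    intro x₁ x₂ y l hx1 hx2 hy hyK hxy
    obtain ⟨y₁, y₂, hy1, hy2, hye⟩ := (JL.mem_KD _).1 hyK
    rw [hye] at hy hxy
    have hy0 : y₁ + y₂ * sD D₁ ≠ 0 := by
      intro h3
      rw [h3, zero_pow (by norm_num)] at hy
      exact zero_ne_one hy
    have h3 := c1_conj h hx1 hx2 hv1 hv2 hy1 hy2 hxy
    have h4 := c1_root h hy1 hy2 hy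
    rw [h3, hxy, mul_div_mul_comm, ← div_zpow, mul_pow, JL.n6_zpow_comm]
    have h5 : ((y₁ + y₂ * sD D₁) / (y₁ - y₂ * sD D₁)) ^ 8 = 1 := by
      have e1 : ((y₁ + y₂ * sD D₁) / (y₁ - y₂ * sD D₁)) ^ 2 = 1 := by
        rw [div_pow, h4, div_self (pow_ne_zero 2 hy0)]
      calc ((y₁ + y₂ * sD D₁) / (y₁ - y₂ * sD D₁)) ^ 8 =
          (((y₁ + y₂ * sD D₁) / (y₁ - y₂ * sD D₁)) ^ 2) ^ 4 := by ring
        _ = 1 := by rw [e1, one_pow]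
    rw [h5, one_mul]
  set E : ℂ := ((v₁ + v₂ * sD D₁) / (v₁ - v₂ * sD D₁)) ^ 8 with hEd
  have h16 : e ^ 16 = E ^ n := by
    obtain ⟨u₁, u₂, hu1, hu2, he1, he2, he0⟩ := hN
    have h3 := hquot u₁ u₂ z n hu1 hu2 hz hzK (by rw [← he1, hez, hε])
    rw [← he1, ← he2, div_inv_eq_mul] at h3
    rw [← h3]
    ring
  have hPe : P e ↔ P (E ^ n) := by
    rw [← h16]
    constructor
    · intro h3
      exact hPn e hSe h3 16
    · intro h3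
      have h4 : P ((e ^ (-5 : ℤ)) ^ 3) := hcube _ (s1_zpow A hs hSe _)
      have h5 := hmul _ _ (s1_npow A hs hSe 16) (s1_npow A hs (s1_zpow A hs hSe (-5)) 3) h3 h4
      have he0 : e ≠ 0 := hN.choose_spec.choose_spec.2.2.2.2
      have e1 : e ^ 16 * (e ^ (-5 : ℤ)) ^ 3 = e := by
        rw [← zpow_natCast, ← zpow_natCast, ← zpow_mul, ← zpow_add₀ he0]
        norm_num
      rwa [e1] at h5
  have hdvd : ∀ l : ℤ, (3 : ℤ) ∣ l → P (E ^ l) := by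
    rintro l ⟨m, rfl⟩
    have h3 := hcube _ (s1_zpow A hs hE m)
    rw [← zpow_natCast, ← zpow_mul] at h3
    rw [mul_comm]
    exact h3
  have hcop : ¬ (3 : ℤ) ∣ n → ∀ l : ℤ, P (E ^ n) → P (E ^ l) := by
    intro h3 l h4
    obtain ⟨a, b, hab⟩ : ∃ a b : ℤ, l = n * a + 3 * b := by
      have h5 : IsCoprime n 3 := by
        rw [Int.isCoprime_iff_gcd_eq_one]
        rcases (Nat.dvd_prime Nat.prime_three).1 (Int.gcd_dvd_natAbs_right n 3) with h6 | h6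
        · exact h6
        · exfalso
          apply h3
          have h7 := Int.gcd_dvd_left (a := n) (b := 3)
          have h8 : ((Int.gcd n 3 : ℕ) : ℤ) = 3 := by exact_mod_cast h6
          rwa [h8] at h7
      obtain ⟨x, y, hxy⟩ := h5
      exact ⟨x * l, y * l, by linear_combination (-l) * hxy⟩
    rw [hab]
    have hE0 : E ≠ 0 := pow_ne_zero 8 (div_ne_zero hε0 hε0')
    rw [zpow_add₀ hE0, zpow_mul]
    refine hmul _ _ (s1_zpow A hs (s1_zpow A hs hE n) a) (s1_zpow A hs hE _)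
      (hPz _ (s1_zpow A hs hE n) h4 a) (hdvd _ (Dvd.intro _ rfl))
  have h3n : (3 : ℤ) ∣ n ↔ 3 ∣ classNumber (KD D₁) := by
    rw [← Int.natAbs_dvd_natAbs, hn]
    constructor
    · intro h3
      refine (Nat.Coprime.dvd_mul_left ?_).1 h3
      exact Nat.Coprime.pow_right j (by norm_num)
    · intro h3
      exact Dvd.dvd.mul_left h3 _
  constructor
  · intro h3
    rw [hPe] at h3
    refine ⟨fun h4 => h3 (hdvd n (h3n.2 h4)), v₁, v₂, hv1, hv2, hε0, hεi, hεi', ?_⟩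
    intro h4
    exact h3 (hPz E hE ((hOn E hE hEi hEi').2 h4) n)
  · rintro ⟨h3, x₁, x₂, hx1, hx2, hx0, hxi, hxi', hx⟩ h4
    rw [hPe] at h4
    apply hx
    have hxm : x₁ + x₂ * sD D₁ ∈ KD D₁ := (JL.mem_KD _).2 ⟨x₁, x₂, hx1, hx2, rfl⟩
    obtain ⟨W, hW⟩ := JL.n6_mk_unit hxm hx0 hxi hxi'
    obtain ⟨y, l, hy, hyK, hyl⟩ := hu W
    rw [hW, hε] at hyl
    obtain ⟨g1, g2, g3⟩ := c2_unit h A hA hx1 hx2 hx0 hxi hxi'
    rw [← hOn _ g1 g2 g3, hquot x₁ x₂ y l hx1 hx2 hy hyK hyl]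
    exact hcop (fun h5 => h3 (h3n.1 h5)) l h4

/-- two square roots -/
theorem c2_sD {D m : Eis} (hD : D = D₁ * m ^ 2) : ∃ κ : ℂ, κ ∈ CF.KK ∧ κ ^ 2 = emb m ^ 2 ∧ sD D = κ * sD D₁ := by
  have h1 : sD D ^ 2 = (emb m * sD D₁) ^ 2 := by
    rw [JL.sD_sq, mul_pow, JL.sD_sq, hD, map_mul, map_pow]
    ring
  rcases sq_eq_sq_iff_eq_or_eq_neg.1 h1 with h | h
  · exact ⟨emb m, JL.F0_emb_mem m, rfl, h⟩
  · exact ⟨-emb m, neg_mem (JL.F0_emb_mem m), by ring, by rw [h]; ring⟩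

theorem c2_KD_le {D D' : Eis} {κ : ℂ} (hκ : κ ∈ CF.KK) (h : sD D' = κ * sD D) : KD D' ≤ KD D := by
  have hw : w ∈ KD D := IntermediateField.subset_adjoin _ _ (Set.mem_insert _ _)
  refine IntermediateField.adjoin_le_iff.2 fun x hx => ?_
  rcases hx with rfl | hx
  · exact hw
  · rw [Set.mem_singleton_iff] at hx
    rw [hx, h]
    exact (JL.mem_KD _).2 ⟨0, κ, zero_mem _, hκ, by ring⟩

variable {D : Eis}

/-- `crit_gen` of the block -/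
theorem crit_gen (d : Dat D) (A : ValuationSubring ℂ) (hA : A.valuation 3 < 1) {e : ℂ} (hU : UnitE d.D₁ e)
    (he : A.valuation (e - 1) < 1) (P : ℂ → Prop)
    (hmul : ∀ x y, S1 A (sD d.D₁) x → S1 A (sD d.D₁) y → P x → P y → P (x * y))
    (hinv : ∀ x, S1 A (sD d.D₁) x → P x → P x⁻¹) (hcube : ∀ x, S1 A (sD d.D₁) x → P (x ^ 3))
    (hOn : ∀ E, S1 A (sD d.D₁) E → IsIntegral ℤ E → IsIntegral ℤ E⁻¹ → (P E ↔ JG.OnG D (sD D) E)) :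
    ¬ P e ↔ JG.UCG D := by
  rw [crit_core d.Q.nsq A hA hU he P _ hmul hinv hcube hOn]
  obtain ⟨κ, hκ, hκm, hκs⟩ := c2_sD d.hD
  have hm0 : emb d.m ≠ 0 := by
    rw [Ne, map_eq_zero_iff emb emb_injective]
    exact d.hm
  have hκ0 : κ ≠ 0 := by
    rintro rfl
    apply hm0
    rw [zero_pow two_ne_zero] at hκm
    exact pow_eq_zero_iff two_ne_zero |>.1 hκm.symm
  have hκs' : sD d.D₁ = κ⁻¹ * sD D := by rw [hκs, inv_mul_cancel_left₀ hκ0]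
  have hK : KD D = KD d.D₁ := le_antisymm (c2_KD_le hκ hκs) (c2_KD_le (inv_mem hκ) hκs')
  unfold JG.UCG
  rw [JX.ta_cn hK]
  refine and_congr_right fun _ => ?_
  constructor
  · rintro ⟨u₁, u₂, h1, h2, h3, h4, h5, h6⟩
    have e1 : u₂ * sD d.D₁ = (u₂ * κ⁻¹) * sD D := by rw [hκs']; ring
    rw [e1] at h3 h4 h5 h6
    exact ⟨u₁, _, h1, mul_mem h2 (inv_mem hκ), h3, h4, h5, h6⟩
  · rintro ⟨u₁, u₂, h1, h2, h3, h4, h5, h6⟩
    have e1 : u₂ * sD D = (u₂ * κ) * sD d.D₁ := by rw [hκs]; ring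
    rw [e1] at h3 h4 h5 h6
    exact ⟨u₁, _, h1, mul_mem h2 hκ, h3, h4, h5, h6⟩

/-- `N1` does not depend on the choice of the square root -/
theorem n2_of (d : Dat D) {e r κ : ℂ} (h : N1 (sD d.D₁) e) (hκ : κ ∈ CF.KK) (hκ0 : κ ≠ 0) (hr : r = κ * sD d.D₁) :
    ∃ u₁ u₂, N2 r e u₁ u₂ := by
  obtain ⟨u₁, u₂, h1, h2, h3, h4, h5⟩ := h
  have e1 : (u₂ * κ⁻¹) * r = u₂ * sD d.D₁ := by
    rw [hr]
    field_simp
  exact ⟨u₁, u₂ * κ⁻¹, h1, mul_mem h2 (inv_mem hκ), by rw [e1]; exact h3, by rw [e1]; exact h4, h5⟩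

end JGL
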