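import Pool.Agent.JGL.C2

/-!
# [JGL-C3] valuations on `ℚ(ω)`, the classes `WG`, integrality and valuation
-/

set_option autoImplicit false

open NumberField IsDedekindDomain Filter Topology
open scoped Classical ComplexConjugate

namespace JGL

open CM27 JZ
open CU (la eE)
open CUL (Nl ez si ta DS Cont LV IsRep rp cr mn mo zw OT GalU W3 W9)
open JL (N1 KD sD Psi6)

section val

variable (A : ValuationSubring ℂ)

theorem c3_L0 : 0 < A.valuation (emb la) := zero_lt_iff.2 (CUL.v2_wla A)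

theorem c3_vg (hA : A.valuation 3 < 1) {z : ℂ} (hz : z ∈ CF.KK) (h0 : z ≠ 0) :
    ∃ k : ℤ, A.valuation z = A.valuation (emb la) ^ k := by
  obtain ⟨q, hq, h1, h2⟩ := CUL.val_KK A hA hz h0
  refine ⟨padicValRat 3 q, ?_⟩
  rw [← CUL.w_la A hA, ← zpow_natCast, ← zpow_natCast, ← zpow_mul, mul_comm, zpow_mul, zpow_natCast,
    zpow_natCast] at h2
  exact (pow_left_inj₀ zero_le zero_le two_ne_zero).1 h2

theorem c3_step (hA : A.valuation 3 < 1) {z : ℂ} (hz : z ∈ CF.KK) (n : ℤ)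
    (h : A.valuation z ^ 2 < A.valuation (emb la) ^ (2 * n - 2)) : A.valuation z ≤ A.valuation (emb la) ^ n := by
  have hL := CUL.w_la_lt A hA
  have hL0 := c3_L0 A
  by_cases h0 : z = 0
  · rw [h0, map_zero]; exact zero_le
  obtain ⟨k, hk⟩ := c3_vg A hA hz h0
  rw [hk] at h ⊢
  rw [← zpow_natCast, ← zpow_mul, zpow_lt_zpow_iff_right_of_lt_one₀ hL0 hL] at h
  rw [zpow_le_zpow_iff_right_of_lt_one₀ hL0 hL]
  push_cast at h
  omega

/-- `v(z) < 1` implies `v(z) ≤ v(λ)` -/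
theorem c3_lt1 (hA : A.valuation 3 < 1) {z : ℂ} (hz : z ∈ CF.KK) (h : A.valuation z < 1) :
    A.valuation z ≤ A.valuation (emb la) := by
  have h1 := c3_step A hA hz 1 (by
    rw [show (2 * (1 : ℤ) - 2) = 0 by norm_num, zpow_zero]
    exact pow_lt_one₀ zero_le h two_ne_zero)
  rwa [zpow_one] at h1

theorem c3_le1 (hA : A.valuation 3 < 1) {z : ℂ} (hz : z ∈ CF.KK) (h : A.valuation z ^ 2 * A.valuation (emb la) < 1) :
    A.valuation z ≤ 1 := by
  have hL := CUL.w_la_lt A hA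
  have hL0 := c3_L0 A
  have h1 := c3_step A hA hz 0 (by
    rw [show (2 * (0 : ℤ) - 2) = -((2 : ℕ) : ℤ) by norm_num, zpow_neg, zpow_natCast, ← one_div,
      lt_div_iff₀ (pow_pos hL0 2)]
    refine lt_of_le_of_lt ?_ h
    rw [pow_two (A.valuation (emb la)), ← mul_assoc]
    calc A.valuation z ^ 2 * A.valuation (emb la) * A.valuation (emb la) ≤
        A.valuation z ^ 2 * A.valuation (emb la) * 1 := mul_le_mul' le_rfl hL.le
      _ = _ := mul_one _)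
  rwa [zpow_zero] at h1

theorem c3_inv (k : ℕ) {c : Eis} (h : ¬ la ∣ c) : ∃ c' : Eis, la ^ k ∣ 1 - c * c' := by
  have := eis_isDomain
  have := eis_pid
  have h1 : IsCoprime la c := (Irreducible.coprime_iff_not_dvd CU.la_prime.irreducible).2 h
  obtain ⟨x, y, hxy⟩ := (h1.pow_left (m := k))
  exact ⟨y, x, by linear_combination -hxy⟩

theorem c3_emb_le {q : Eis} {k : ℕ} (h : la ^ k ∣ q) :
    A.valuation (emb q) ≤ A.valuation (emb la) ^ k := by
  obtain ⟨c, rfl⟩ := h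
  rw [map_mul, map_pow, map_mul, map_pow]
  calc A.valuation (emb la) ^ k * A.valuation (emb c) ≤ A.valuation (emb la) ^ k * 1 :=
        mul_le_mul' le_rfl (CUL.w_emb_le A c)
    _ = _ := mul_one _

theorem c3_dvd (hA : A.valuation 3 < 1) {q : Eis} {k : ℕ} :
    A.valuation (emb q) ≤ A.valuation (emb la) ^ k ↔ la ^ k ∣ q := by
  refine ⟨fun h => ?_, c3_emb_le A⟩
  by_cases h0 : q = 0
  · rw [h0]; exact dvd_zero _
  obtain ⟨l, b, hb, hbl⟩ := CUL.g6_split h0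
  rw [hb, map_mul, map_pow, map_mul, map_pow, CUL.w_emb_unit A hA b hbl, mul_one,
    pow_le_pow_iff_right_of_lt_one₀ (c3_L0 A) (CUL.w_la_lt A hA)] at h
  rw [hb]
  exact Dvd.dvd.mul_right (pow_dvd_pow _ h) _

theorem c3_approx (hA : A.valuation 3 < 1) {b : ℂ} (hb : b ∈ CF.KK) (hv : A.valuation b ≤ 1) (k : ℕ) :
    ∃ q : Eis, A.valuation (b - emb q) ≤ A.valuation (emb la) ^ k := by
  by_cases h0 : b = 0
  · exact ⟨0, by rw [h0, map_zero, sub_zero, map_zero]; exact zero_le⟩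
  obtain ⟨c, a, hc, hca⟩ := JX.a4a_frac A hA hb hv h0
  obtain ⟨c', hc'⟩ := c3_inv k hc
  refine ⟨c' * a, ?_⟩
  have e : b - emb (c' * a) = b * emb (1 - c * c') := by
    rw [map_mul, ← hca, map_sub, map_one, map_mul]; ring
  rw [e, map_mul]
  calc A.valuation b * A.valuation (emb (1 - c * c')) ≤ 1 * A.valuation (emb la) ^ k :=
        mul_le_mul' hv (c3_emb_le A hc')
    _ = _ := one_mul _

end val

/-! ### the classes `WG` -/

theorem c3_neg {m : ℕ} {D' q : Eis} (h : JG.WG m D' q) : JG.WG m D' (-q) := by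
  rcases h with ⟨h1, h2, h3, d₀, d₁, d₂, t, h4, h5⟩ | ⟨h1, h2, h3⟩ | ⟨h1, h2, t, h3⟩ | ⟨h1, h2, h3⟩ |
    ⟨h1, h2, b, e₀, e₁, t, h3, h4, h5, h6⟩ | ⟨h1, h2, h3⟩
  · refine Or.inl ⟨h1, h2, h3, d₀, d₁, d₂, -t, h4, ?_⟩
    obtain ⟨c, hc⟩ := h5
    refine ⟨-c, ?_⟩
    push_cast at hc ⊢
    linear_combination -hc
  · exact Or.inr (Or.inl ⟨h1, h2, (dvd_neg).2 h3⟩)
  · refine Or.inr (Or.inr (Or.inl ⟨h1, h2, -t, ?_⟩))
    obtain ⟨c, hc⟩ := h3
    refine ⟨-c, ?_⟩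
    push_cast at hc ⊢
    linear_combination -hc
  · exact Or.inr (Or.inr (Or.inr (Or.inl ⟨h1, h2, (dvd_neg).2 h3⟩)))
  · refine Or.inr (Or.inr (Or.inr (Or.inr (Or.inl ⟨h1, h2, -b, e₀, e₁, -t, by omega, h4, h5, ?_⟩))))
    obtain ⟨c, hc⟩ := h6
    refine ⟨-c, ?_⟩
    push_cast at hc ⊢
    linear_combination -hc
  · exact Or.inr (Or.inr (Or.inr (Or.inr (Or.inr ⟨h1, h2, (dvd_neg).2 h3⟩))))

/-- uniqueness of the decomposition `D = λ^(2 m) D'` -/
theorem c3_dec {m m' : ℕ} {D' D'' : Eis} (h : la ^ (2 * m) * D' = la ^ (2 * m') * D'') (h1 : ¬ la ^ 2 ∣ D')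
    (h2 : ¬ la ^ 2 ∣ D'') : m = m' ∧ D' = D'' := by
  have := eis_isDomain
  have hl : la ≠ 0 := CU.la_prime.ne_zero
  have key : ∀ (a b : ℕ) (x y : Eis), la ^ (2 * a) * x = la ^ (2 * b) * y → ¬ la ^ 2 ∣ x → b ≤ a := by
    intro a b x y hxy hx
    by_contra hlt
    push Not at hlt
    apply hx
    obtain ⟨c, rfl⟩ := Nat.exists_eq_add_of_lt hlt
    refine ⟨la ^ (2 * c) * y, ?_⟩
    apply mul_left_cancel₀ (pow_ne_zero (2 * a) hl)
    rw [hxy]
    ring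
  have e : m = m' := le_antisymm (key m' m _ _ h.symm h2) (key m m' _ _ h h1)
  subst e
  exact ⟨rfl, mul_left_cancel₀ (pow_ne_zero _ hl) h⟩

/-- integrality from the valuation -/
theorem c3_int (A : ValuationSubring ℂ) (hA : A.valuation 3 < 1) {X : ℂ} (hX : IsIntegral ℤ X) (hK : X ^ 2 ∈ CF.KK)
    (hv : A.valuation X ≤ A.valuation (emb la) ^ 3) : IsIntegral ℤ (X / emb la ^ 3) := by
  obtain ⟨c, hc⟩ := JL.KK_int hK (hX.pow 2)
  have h1 : A.valuation (emb c) ≤ A.valuation (emb la) ^ 6 := by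
    rw [← hc, map_pow]
    calc A.valuation X ^ 2 ≤ (A.valuation (emb la) ^ 3) ^ 2 := pow_le_pow_left₀ zero_le hv 2
      _ = _ := by rw [← pow_mul]
  obtain ⟨b, hb⟩ := (c3_dvd A hA).1 h1
  refine IsIntegral.of_pow (n := 2) two_pos ?_
  have e : (X / emb la ^ 3) ^ 2 = emb b := by
    rw [div_pow, hc, hb, map_mul, map_pow, ← pow_mul]
    exact mul_div_cancel_left₀ _ (pow_ne_zero _ CUL.la_ne)
  rw [e]
  exact JL.isIntegral_emb b

variable {D : Eis}

/-- `OnG` in terms of the valuation: `D = λ^(2 m) D'`, `r² = D'` -/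
theorem c3_onG (d : Dat D) (A : ValuationSubring ℂ) (hA : A.valuation 3 < 1) {m : ℕ} {D' : Eis} {r : ℂ}
    (hD' : D = la ^ (2 * m) * D') (hl : ¬ la ^ 2 ∣ D') (hr : r ^ 2 = emb D') {E : ℂ}
    (hE : N1 (sD d.D₁) E) (hi : IsIntegral ℤ E) (hi' : IsIntegral ℤ E⁻¹) :
    JG.OnG D (sD D) E ↔ ∃ q : Eis, JG.WG m D' q ∧ A.valuation (E - E⁻¹ - emb q * r) ≤ A.valuation (emb la) ^ 3 := by
  have hL0 := c3_L0 A
  have hs' : (sD D / emb la ^ m) ^ 2 = r ^ 2 := by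
    rw [div_pow, JL.sD_sq, hr, hD', map_mul, map_pow, ← pow_mul, mul_comm m 2]
    exact mul_div_cancel_left₀ _ (pow_ne_zero _ CUL.la_ne)
  constructor
  · rintro ⟨m', D'', q, h1, h2, h3, h4⟩
    obtain ⟨rfl, rfl⟩ := c3_dec (h1.symm.trans hD') h2 hl
    have h5 := JX.x6_int A h4
    rw [map_div₀, map_pow, div_le_one₀ (pow_pos hL0 3)] at h5
    rcases sq_eq_sq_iff_eq_or_eq_neg.1 hs' with h | h
    · rw [h] at h5
      exact ⟨q, h3, h5⟩
    · rw [h] at h5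
      refine ⟨-q, c3_neg h3, ?_⟩
      rw [map_neg]
      have e : E - E⁻¹ - -emb q * r = E - E⁻¹ - emb q * -r := by ring
      rw [e]
      exact h5
  · rintro ⟨q, h1, h2⟩
    -- `r` in terms of `sD D₁`
    have hm0 : emb d.m ≠ 0 := by
      rw [Ne, map_eq_zero_iff emb emb_injective]
      exact d.hm
    obtain ⟨κ, hκ, hκs⟩ : ∃ κ : ℂ, κ ∈ CF.KK ∧ r = κ * sD d.D₁ := by
      have e1 : (r * emb la ^ m) ^ 2 = (emb d.m * sD d.D₁) ^ 2 := by
        rw [mul_pow, hr, mul_pow, JL.sD_sq, ← map_pow, ← map_pow, ← map_mul, ← map_pow, ← map_mul]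
        congr 1
        linear_combination d.hD - hD'
      have hlm : emb la ^ m ≠ 0 := pow_ne_zero _ CUL.la_ne
      rcases sq_eq_sq_iff_eq_or_eq_neg.1 e1 with h | h
      · refine ⟨emb d.m / emb la ^ m, div_mem (JL.F0_emb_mem _) (pow_mem (JL.F0_emb_mem _) _), ?_⟩
        rw [div_mul_eq_mul_div, ← h, mul_div_cancel_right₀ _ hlm]
      · refine ⟨-(emb d.m / emb la ^ m), neg_mem (div_mem (JL.F0_emb_mem _) (pow_mem (JL.F0_emb_mem _) _)), ?_⟩
        rw [neg_mul, div_mul_eq_mul_div, eq_neg_iff_add_eq_zero, ← mul_div_cancel_right₀ r hlm, h]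
        ring
    obtain ⟨a, b, ha, hb, hE1, hE2, hE0⟩ := hE
    have hXi : IsIntegral ℤ (E - E⁻¹ - emb q * r) := by
      refine (hi.sub hi').sub ((JL.isIntegral_emb q).mul ?_)
      refine IsIntegral.of_pow (n := 2) two_pos ?_
      rw [hr]; exact JL.isIntegral_emb _
    have h2m : (2 : ℂ) ∈ CF.KK := by
      have := JL.F0_emb_mem 2
      rwa [map_ofNat] at this
    have hXK : (E - E⁻¹ - emb q * r) ^ 2 ∈ CF.KK := by
      have e : (E - E⁻¹ - emb q * r) ^ 2 = (2 * b - emb q * κ) ^ 2 * emb d.D₁ := by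
        rw [hE2, ← JL.sD_sq d.D₁]
        nth_rewrite 1 [hE1]
        rw [hκs]
        ring
      rw [e]
      exact mul_mem (pow_mem (sub_mem (mul_mem h2m hb) (mul_mem (JL.F0_emb_mem _) hκ)) 2) (JL.F0_emb_mem _)
    have h3 := c3_int A hA hXi hXK h2
    rcases sq_eq_sq_iff_eq_or_eq_neg.1 hs' with h | h
    · exact ⟨m, D', q, hD', hl, h1, by rw [h]; exact h3⟩
    · refine ⟨m, D', -q, hD', hl, c3_neg h1, ?_⟩
      rw [h, map_neg]
      have e : E - E⁻¹ - -emb q * -r = E - E⁻¹ - emb q * r := by ring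
      rw [e]
      exact h3

end JGL
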