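import Pool.Agent.JGL.C3

/-!
# [JGL-C4] the even cases `v = 0, 2, 4`
-/

set_option autoImplicit false

open NumberField IsDedekindDomain Filter Topology
open scoped Classical ComplexConjugate

namespace JGL

open CM27 JZ
open CU (la eE)
open CUL (Nl ez si ta DS Cont LV IsRep rp cr mn mo zw OT GalU W3 W9)
open JL (N1 KD sD Psi6)

variable {D : Eis}

theorem c4_kap (d : Dat D) {R g : Eis} {r : ℂ} (hD : D = R * g ^ 2) (hg : g ≠ 0) (hr : r ^ 2 = emb R) :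
    ∃ κ : ℂ, κ ∈ CF.KK ∧ κ ≠ 0 ∧ r = κ * sD d.D₁ := by
  have hm0 : emb d.m ≠ 0 := by
    rw [Ne, map_eq_zero_iff emb emb_injective]
    exact d.hm
  have hg0 : emb g ≠ 0 := by
    rw [Ne, map_eq_zero_iff emb emb_injective]
    exact hg
  have e1 : (r * emb g) ^ 2 = (emb d.m * sD d.D₁) ^ 2 := by
    rw [mul_pow, hr, mul_pow, JL.sD_sq, ← map_pow, ← map_pow, ← map_mul, ← map_mul]
    congr 1
    linear_combination d.hD - hD
  rcases sq_eq_sq_iff_eq_or_eq_neg.1 e1 with h | h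
  · refine ⟨emb d.m / emb g, div_mem (JL.F0_emb_mem _) (JL.F0_emb_mem _), div_ne_zero hm0 hg0, ?_⟩
    rw [div_mul_eq_mul_div, ← h, mul_div_cancel_right₀ _ hg0]
  · refine ⟨-(emb d.m / emb g), neg_mem (div_mem (JL.F0_emb_mem _) (JL.F0_emb_mem _)),
      neg_ne_zero.2 (div_ne_zero hm0 hg0), ?_⟩
    rw [neg_mul, div_mul_eq_mul_div, eq_neg_iff_add_eq_zero, ← mul_div_cancel_right₀ r hg0, h]
    ring

/-- the coefficient of `r` -/
theorem c4_b {s r κ x : ℂ} (hκ : κ ∈ CF.KK) (hκ0 : κ ≠ 0) (hr : r = κ * s) (h : N1 s x) :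
    ∃ b : ℂ, b ∈ CF.KK ∧ x - x⁻¹ = 2 * b * r := by
  obtain ⟨a, b, ha, hb, h1, h2, h3⟩ := h
  refine ⟨b * κ⁻¹, mul_mem hb (inv_mem hκ), ?_⟩
  rw [h2, hr]
  nth_rewrite 1 [h1]
  field_simp
  ring

theorem c4_two_mem : (2 : ℂ) ∈ CF.KK := by
  have := JL.F0_emb_mem 2
  rwa [map_ofNat] at this

section val

variable (A : ValuationSubring ℂ) (hA : A.valuation 3 < 1)
include hA

omit hA in
theorem c4_ne {x : ℂ} (hx : A.valuation (x - 1) < 1) : x ≠ 0 := by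
  rintro rfl
  have h1 := c1_v1 A hx
  rw [map_zero] at h1
  exact zero_ne_one h1

theorem c4_v {x : ℂ} (hx : A.valuation (x - 1) < 1) : A.valuation (x - 1) = A.valuation (x - x⁻¹) := by
  have h0 := c4_ne A hx
  have h1 := c1_v1 A hx
  have e : x - x⁻¹ = (x - 1) * (2 + (x - 1)) * x⁻¹ := by
    field_simp
    ring
  have h2 : A.valuation (2 + (x - 1)) = 1 := by
    rw [Valuation.map_add_eq_of_lt_left _ (by rw [JX.x6_two A hA]; exact hx), JX.x6_two A hA]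
  rw [e, map_mul, map_mul, h2, map_inv₀, h1, inv_one, mul_one, mul_one]

theorem c4_lt {x : ℂ} (hx : A.valuation (x - 1) < 1) : A.valuation (x - x⁻¹) < 1 := by
  rw [← c4_v A hA hx]; exact hx

theorem c4_c {x : ℂ} (hx : A.valuation (x - 1) < 1) :
    A.valuation (x + x⁻¹ - 2) = A.valuation (x - x⁻¹) ^ 2 := by
  have h0 := c4_ne A hx
  have e : x + x⁻¹ - 2 = (x - 1) ^ 2 * x⁻¹ := by
    field_simp
    ring
  rw [e, map_mul, map_pow, map_inv₀, c1_v1 A hx, inv_one, mul_one, c4_v A hA hx]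

omit hA in
theorem c4_two_cancel (hA : A.valuation 3 < 1) {x y : ℂ} (h : x = 2 * y) : A.valuation y = A.valuation x := by
  rw [h, map_mul, JX.x6_two A hA, one_mul]

/-- additivity of `x - x⁻¹` -/
theorem c4_add {x y : ℂ} {B : A.ValueGroup} (hx : A.valuation (x - 1) < 1) (hy : A.valuation (y - 1) < 1)
    (h1 : A.valuation (x - x⁻¹) ≤ B) (h2 : A.valuation (y - y⁻¹) ≤ B) :
    A.valuation (x * y - (x * y)⁻¹ - (x - x⁻¹) - (y - y⁻¹)) ≤ B ^ 3 := by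
  have e : (x + x⁻¹ - 2) * (y - y⁻¹) + (y + y⁻¹ - 2) * (x - x⁻¹) =
      2 * (x * y - (x * y)⁻¹ - (x - x⁻¹) - (y - y⁻¹)) := by
    rw [mul_inv]
    ring
  rw [c4_two_cancel A hA e]
  refine Valuation.map_add_le _ ?_ ?_
  · rw [map_mul, c4_c A hA hx, pow_succ]
    exact mul_le_mul' (pow_le_pow_left₀ zero_le h1 2) h2
  · rw [map_mul, c4_c A hA hy, pow_succ]
    exact mul_le_mul' (pow_le_pow_left₀ zero_le h2 2) h1

theorem c4_unit_sqrt {R : Eis} {r : ℂ} (hR : ¬ la ∣ R) (hr : r ^ 2 = emb R) : A.valuation r = 1 := by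
  have h1 : A.valuation r ^ 2 = 1 := by
    rw [← map_pow, hr, CUL.w_emb_unit A hA R hR]
  exact (pow_eq_one_iff.1 h1).resolve_right (by norm_num)

/-- `v(x - x⁻¹) ≤ v(λ)` for `v(r) = 1` -/
theorem c4_even {s r κ x : ℂ} (hκ : κ ∈ CF.KK) (hκ0 : κ ≠ 0) (hr : r = κ * s) (hv : A.valuation r = 1)
    (h : S1 A s x) : A.valuation (x - x⁻¹) ≤ A.valuation (emb la) := by
  obtain ⟨b, hb, hbe⟩ := c4_b hκ hκ0 hr h.1
  have h1 := c4_lt A hA h.2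
  rw [hbe, map_mul, hv, mul_one] at h1 ⊢
  exact c3_lt1 A hA (mul_mem c4_two_mem hb) h1

omit hA in
theorem c4_inv_eq (x : ℂ) : x⁻¹ - (x⁻¹)⁻¹ = -(x - x⁻¹) := by
  rw [inv_inv]; ring

theorem c4_L3 : A.valuation (emb la) ^ 3 ≤ A.valuation (emb la) ^ 2 :=
  pow_le_pow_of_le_one zero_le (CUL.w_la_lt A hA).le (by norm_num)

/-- type A -/
theorem c4_A {s r κ : ℂ} (hκ : κ ∈ CF.KK) (hκ0 : κ ≠ 0) (hr : r = κ * s)
    (hv : A.valuation r = 1) :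
    (∀ x y, S1 A s x → S1 A s y → A.valuation (x - x⁻¹) ≤ A.valuation (emb la) ^ 2 →
      A.valuation (y - y⁻¹) ≤ A.valuation (emb la) ^ 2 → A.valuation (x * y - (x * y)⁻¹) ≤ A.valuation (emb la) ^ 2) ∧
    (∀ x, S1 A s x → A.valuation (x - x⁻¹) ≤ A.valuation (emb la) ^ 2 →
      A.valuation (x⁻¹ - (x⁻¹)⁻¹) ≤ A.valuation (emb la) ^ 2) ∧
    ∀ x, S1 A s x → A.valuation (x ^ 3 - (x ^ 3)⁻¹) ≤ A.valuation (emb la) ^ 2 := by
  have hL := CUL.w_la_lt A hA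
  refine ⟨?_, ?_, ?_⟩
  · intro x y hx hy h1 h2
    have h3 := c4_add A hA hx.2 hy.2 (c4_even A hA hκ hκ0 hr hv hx) (c4_even A hA hκ hκ0 hr hv hy)
    have e : x * y - (x * y)⁻¹ = (x * y - (x * y)⁻¹ - (x - x⁻¹) - (y - y⁻¹)) + (x - x⁻¹) + (y - y⁻¹) := by ring
    rw [e]
    exact Valuation.map_add_le _ (Valuation.map_add_le _ (h3.trans (c4_L3 A hA)) h1) h2
  · intro x _ h1
    rw [c4_inv_eq, Valuation.map_neg]
    exact h1
  · intro x hx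
    have h1 := c4_even A hA hκ hκ0 hr hv hx
    have h2 := JX.x6_zpow A hA (x := x) (by rw [c4_v A hA hx.2]; exact h1) 3
    have e : x ^ 3 - (x ^ 3)⁻¹ = (x ^ (3 : ℤ) - (x ^ (3 : ℤ))⁻¹ - ((3 : ℤ) : ℂ) * (x - x⁻¹)) + 3 * (x - x⁻¹) := by
      have e1 : x ^ (3 : ℤ) = x ^ 3 := by exact_mod_cast rfl
      rw [e1]
      push_cast
      ring
    rw [e]
    refine Valuation.map_add_le _ (h2.trans (c4_L3 A hA)) ?_
    rw [map_mul, ← CUL.w_la A hA]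
    calc A.valuation (emb la) ^ 2 * A.valuation (x - x⁻¹) ≤ A.valuation (emb la) ^ 2 * 1 :=
          mul_le_mul' le_rfl (h1.trans hL.le)
      _ = _ := mul_one _

/-- type B -/
theorem c4_B {s r κ : ℂ} (hκ : κ ∈ CF.KK) (hκ0 : κ ≠ 0) (hr : r = κ * s)
    (hv : A.valuation r = 1) (g : ℂ) :
    (∀ x y, S1 A s x → S1 A s y → (∃ t : ℤ, A.valuation (x - x⁻¹ - t * g) ≤ A.valuation (emb la) ^ 3) →
      (∃ t : ℤ, A.valuation (y - y⁻¹ - t * g) ≤ A.valuation (emb la) ^ 3) →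
      ∃ t : ℤ, A.valuation (x * y - (x * y)⁻¹ - t * g) ≤ A.valuation (emb la) ^ 3) ∧
    (∀ x, S1 A s x → (∃ t : ℤ, A.valuation (x - x⁻¹ - t * g) ≤ A.valuation (emb la) ^ 3) →
      ∃ t : ℤ, A.valuation (x⁻¹ - (x⁻¹)⁻¹ - t * g) ≤ A.valuation (emb la) ^ 3) ∧
    ∀ x, S1 A s x → ∃ t : ℤ, A.valuation (x ^ 3 - (x ^ 3)⁻¹ - t * g) ≤ A.valuation (emb la) ^ 3 := by
  have hL := CUL.w_la_lt A hA
  refine ⟨?_, ?_, ?_⟩
  · rintro x y hx hy ⟨t, h1⟩ ⟨t', h2⟩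
    have h3 := c4_add A hA hx.2 hy.2 (c4_even A hA hκ hκ0 hr hv hx) (c4_even A hA hκ hκ0 hr hv hy)
    refine ⟨t + t', ?_⟩
    have e : x * y - (x * y)⁻¹ - ((t + t' : ℤ) : ℂ) * g = (x * y - (x * y)⁻¹ - (x - x⁻¹) - (y - y⁻¹)) +
        (x - x⁻¹ - t * g) + (y - y⁻¹ - t' * g) := by
      push_cast
      ring
    rw [e]
    exact Valuation.map_add_le _ (Valuation.map_add_le _ h3 h1) h2
  · rintro x _ ⟨t, h1⟩
    refine ⟨-t, ?_⟩
    have e : x⁻¹ - (x⁻¹)⁻¹ - ((-t : ℤ) : ℂ) * g = -(x - x⁻¹ - t * g) := by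
      rw [inv_inv]
      push_cast
      ring
    rw [e, Valuation.map_neg]
    exact h1
  · intro x hx
    refine ⟨0, ?_⟩
    have h1 := c4_even A hA hκ hκ0 hr hv hx
    have h2 := JX.x6_zpow A hA (x := x) (by rw [c4_v A hA hx.2]; exact h1) 3
    have e : x ^ 3 - (x ^ 3)⁻¹ - ((0 : ℤ) : ℂ) * g =
        (x ^ (3 : ℤ) - (x ^ (3 : ℤ))⁻¹ - ((3 : ℤ) : ℂ) * (x - x⁻¹)) + 3 * (x - x⁻¹) := by
      have e1 : x ^ (3 : ℤ) = x ^ 3 := by exact_mod_cast rfl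
      rw [e1]
      push_cast
      ring
    rw [e]
    refine Valuation.map_add_le _ h2 ?_
    rw [map_mul, ← CUL.w_la A hA, pow_succ]
    exact mul_le_mul' le_rfl h1

end val

end JGL
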