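import Pool.Agent.JGL.C4

/-!
# [JGL-C5] the criteria in the even cases
-/

set_option autoImplicit false

open NumberField IsDedekindDomain Filter Topology
open scoped Classical ComplexConjugate

namespace JGL

open CM27 JZ
open CU (la eE)
open CUL (Nl ez si ta DS Cont LV IsRep rp cr mn mo zw OT GalU W3 W9)
open JL (N1 KD sD Psi6)

variable {D : Eis}

theorem c5_dif {r e u₁ u₂ : ℂ} (hN : N2 r e u₁ u₂) : e - e⁻¹ = 2 * u₂ * r := by
  obtain ⟨-, -, h1, h2, -⟩ := hN
  rw [h2, h1]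
  ring

theorem c5_A (d : Dat D) (A : ValuationSubring ℂ) (hA : A.valuation 3 < 1) {e r u₁ u₂ : ℂ} {R : Eis} {m : ℕ}
    (hU : UnitE d.D₁ e) (he : A.valuation (e - 1) < 1) (hr : r ^ 2 = emb R) (hN : N2 r e u₁ u₂)
    (hR : ¬ la ∣ R) (hD : D = la ^ (2 * m) * R) (hWG : ∀ q, JG.WG m R q ↔ la ^ 2 ∣ q) :
    A.valuation (u₂ / emb la) = 1 ↔ JG.UCG D := by
  have hdom := eis_isDomain
  have hL := CUL.w_la_lt A hA
  have hL0 := c3_L0 A
  have hv := c4_unit_sqrt A hA hR hr
  obtain ⟨κ, hκ, hκ0, hκr⟩ := c4_kap d (R := R) (g := la ^ m) (by rw [hD]; ring)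
    (pow_ne_zero _ CU.la_prime.ne_zero) hr
  obtain ⟨g1, g2, g3⟩ := c4_A A hA hκ hκ0 hκr hv
  have hR2 : ¬ la ^ 2 ∣ R := fun h => hR ((dvd_pow_self la two_ne_zero).trans h)
  rw [← crit_gen d A hA hU he (fun x => A.valuation (x - x⁻¹) ≤ A.valuation (emb la) ^ 2) g1 g2 g3]
  · have h1 := c5_dif hN
    have h2 : A.valuation (e - e⁻¹) = A.valuation u₂ := by
      rw [h1, map_mul, map_mul, hv, JX.x6_two A hA, one_mul, mul_one]
    have h3 := c4_even A hA hκ hκ0 hκr hv (⟨hU.1, he⟩ : S1 A (sD d.D₁) e)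
    rw [h2] at h3
    change _ ↔ ¬ A.valuation (e - e⁻¹) ≤ A.valuation (emb la) ^ 2
    rw [h2, map_div₀, div_eq_one_iff_eq hL0.ne']
    constructor
    · intro h4 h5
      rw [h4, pow_two] at h5
      have h6 : A.valuation (emb la) * A.valuation (emb la) < A.valuation (emb la) * 1 :=
        mul_lt_mul_of_pos_left hL hL0
      rw [mul_one] at h6
      exact absurd h5 (not_le.2 h6)
    · intro h4
      refine le_antisymm h3 ?_
      by_contra h5
      push Not at h5
      apply h4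
      have h6 := c3_step A hA hN.2.1 2 (by
        rw [show (2 * (2 : ℤ) - 2) = ((2 : ℕ) : ℤ) by norm_num, zpow_natCast]
        exact pow_lt_pow_left₀ h5 zero_le two_ne_zero)
      exact_mod_cast h6
  · intro E hE hi hi'
    rw [c3_onG d A hA hD hR2 hr hE.1 hi hi']
    constructor
    · intro h1
      obtain ⟨b, hb, hbe⟩ := c4_b hκ hκ0 hκr hE.1
      have h2 : A.valuation (2 * b) ≤ A.valuation (emb la) ^ 2 := by
        rw [hbe, map_mul, hv, mul_one] at h1
        exact h1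
      obtain ⟨q, hq⟩ := c3_approx A hA (mul_mem c4_two_mem hb) (h2.trans (pow_le_one₀ zero_le hL.le)) 3
      refine ⟨q, ?_, ?_⟩
      · rw [hWG, ← c3_dvd A hA]
        have e1 : emb q = 2 * b - (2 * b - emb q) := by ring
        rw [e1]
        exact Valuation.map_sub_le _ h2 (hq.trans (c4_L3 A hA))
      · have e1 : E - E⁻¹ - emb q * r = (2 * b - emb q) * r := by rw [hbe]; ring
        rw [e1, map_mul, hv, mul_one]
        exact hq
    · rintro ⟨q, h1, h2⟩
      rw [hWG] at h1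
      have h3 := c3_emb_le A h1
      have e1 : E - E⁻¹ = (E - E⁻¹ - emb q * r) + emb q * r := by ring
      change A.valuation (E - E⁻¹) ≤ _
      rw [e1]
      refine Valuation.map_add_le _ (h2.trans (c4_L3 A hA)) ?_
      rw [map_mul, hv, mul_one]
      exact h3

theorem c5_B (d : Dat D) (A : ValuationSubring ℂ) (hA : A.valuation 3 < 1) {e r r' u₁ u₂ : ℂ} {R R' g : Eis} {m : ℕ}
    (hU : UnitE d.D₁ e) (he : A.valuation (e - 1) < 1) (hr : r ^ 2 = emb R) (hN : N2 r e u₁ u₂)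
    (hR : ¬ la ∣ R) (hg : g ≠ 0) (hD : D = R * g ^ 2) (hR' : ¬ la ^ 2 ∣ R') (hD' : D = la ^ (2 * m) * R')
    (hr' : r' ^ 2 = emb R') (c : ℤ)
    (h1 : ∀ q, JG.WG m R' q → ∃ t : ℤ, A.valuation (emb q * r' - t * (emb (la * (1 + (c : Eis) * la)) * r)) ≤
      A.valuation (emb la) ^ 3)
    (h2 : ∀ t : ℤ, ∃ q, JG.WG m R' q ∧ A.valuation (emb q * r' - t * (emb (la * (1 + (c : Eis) * la)) * r)) ≤
      A.valuation (emb la) ^ 3) :
    ¬ JX.LC A c (u₂ / emb la) ↔ JG.UCG D := by
  have hL := CUL.w_la_lt A hA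
  have hL0 := c3_L0 A
  have hla := CUL.la_ne
  have hv := c4_unit_sqrt A hA hR hr
  obtain ⟨κ, hκ, hκ0, hκr⟩ := c4_kap d hD hg hr
  obtain ⟨g1, g2, g3⟩ := c4_B A hA hκ hκ0 hκr hv (emb (la * (1 + (c : Eis) * la)) * r)
  rw [← crit_gen d A hA hU he (fun x => ∃ t : ℤ, A.valuation (x - x⁻¹ - t * (emb (la * (1 + (c : Eis) * la)) * r)) ≤
    A.valuation (emb la) ^ 3) g1 g2 g3, not_iff_not]
  · have h5 := c5_dif hN
    have h6 : A.valuation (e - e⁻¹) = A.valuation u₂ := by
      rw [h5, map_mul, map_mul, hv, JX.x6_two A hA, one_mul, mul_one]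
    have h3 := c4_even A hA hκ hκ0 hκr hv (⟨hU.1, he⟩ : S1 A (sD d.D₁) e)
    rw [h6] at h3
    have hem : emb (la * (1 + (c : Eis) * la)) = emb la * (1 + c * emb la) := by
      rw [map_mul, map_add, map_one, map_mul, map_intCast]
    have hL3 : A.valuation (emb la) ^ 3 = A.valuation 3 * A.valuation (emb la) := by
      rw [pow_succ, CUL.w_la A hA]
    constructor
    · rintro ⟨t, ht⟩
      refine ⟨2 * t, ?_⟩
      have e1 : e - e⁻¹ - ((2 * t : ℤ) : ℂ) * (emb (la * (1 + (c : Eis) * la)) * r) =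
          2 * (u₂ / emb la - t * (1 + c * emb la)) * emb la * r := by
        rw [h5, hem]
        push_cast
        field_simp
      rw [e1, map_mul, map_mul, map_mul, hv, JX.x6_two A hA, one_mul, mul_one, hL3]
      exact mul_le_mul' ht le_rfl
    · rintro ⟨t, ht⟩
      refine ⟨2 * t, ?_⟩
      rw [h5, hem] at ht
      have e2 : 2 * u₂ * r - t * (emb la * (1 + c * emb la) * r) = (2 * u₂ - t * (emb la * (1 + c * emb la))) * r := by
        ring
      rw [e2, map_mul, hv, mul_one] at ht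
      have e1 : (u₂ / emb la - ((2 * t : ℤ) : ℂ) * (1 + c * emb la)) * emb la =
          2 * (2 * u₂ - t * (emb la * (1 + c * emb la))) - 3 * u₂ := by
        push_cast
        field_simp
        ring
      have h7 : A.valuation (u₂ / emb la - ((2 * t : ℤ) : ℂ) * (1 + c * emb la)) * A.valuation (emb la) ≤
          A.valuation 3 * A.valuation (emb la) := by
        rw [← map_mul, e1, ← hL3]
        refine Valuation.map_sub_le _ ?_ ?_
        · rw [map_mul, JX.x6_two A hA, one_mul]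
          exact ht
        · rw [map_mul, hL3]
          exact mul_le_mul' le_rfl h3
      exact le_of_mul_le_mul_right h7 hL0
  · intro E hE hi hi'
    rw [c3_onG d A hA hD' hR' hr' hE.1 hi hi']
    constructor
    · rintro ⟨t, ht⟩
      obtain ⟨q, hq, hq'⟩ := h2 t
      refine ⟨q, hq, ?_⟩
      have e1 : E - E⁻¹ - emb q * r' = (E - E⁻¹ - t * (emb (la * (1 + (c : Eis) * la)) * r)) -
          (emb q * r' - t * (emb (la * (1 + (c : Eis) * la)) * r)) := by ring
      rw [e1]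
      exact Valuation.map_sub_le _ ht hq'
    · rintro ⟨q, hq, hq'⟩
      obtain ⟨t, ht⟩ := h1 q hq
      refine ⟨t, ?_⟩
      have e1 : E - E⁻¹ - t * (emb (la * (1 + (c : Eis) * la)) * r) = (E - E⁻¹ - emb q * r') +
          (emb q * r' - t * (emb (la * (1 + (c : Eis) * la)) * r)) := by ring
      rw [e1]
      exact Valuation.map_add_le _ hq' ht

/-! ### arithmetic of `Ds`, `η ω^i` -/

theorem c5_Ds {Ds : Eis} (h : Primary Ds) : (3 : Eis) ∣ Ds - 1 := by
  rw [primary_iff] at h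
  refine ⟨⟨(Ds.re - 1) / 3, Ds.im / 3⟩, ?_⟩
  have r3 : (3 : Eis).re = 3 := rfl
  have i3 : (3 : Eis).im = 0 := rfl
  ext
  · simp only [QuadraticAlgebra.re_mul, QuadraticAlgebra.re_sub, QuadraticAlgebra.re_one, r3, i3]
    omega
  · simp only [QuadraticAlgebra.im_mul, QuadraticAlgebra.im_sub, QuadraticAlgebra.im_one, r3, i3]
    omega

theorem c5_la3 : la ∣ (3 : Eis) := by
  rw [CU.three_eq]
  exact ⟨-CU.om ^ 2 * la, by ring⟩

theorem c5_laDs {Ds : Eis} (h : Primary Ds) : ¬ la ∣ Ds := by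
  intro h1
  have h2 := c5_la3.trans (c5_Ds h)
  have h3 := dvd_sub h1 h2
  rw [sub_sub_cancel] at h3
  exact JL.n6_one h3

theorem c5_laR (d : Dat D) : ¬ la ∣ d.η * CU.om ^ d.i * d.Ds := by
  intro h
  rcases CU.la_prime.dvd_or_dvd h with h1 | h1
  · rcases CU.la_prime.dvd_or_dvd h1 with h2 | h2
    · rcases d.hη with h3 | h3
      · rw [h3] at h2; exact JL.n6_one h2
      · rw [h3, dvd_neg] at h2; exact JL.n6_one h2
    · have h3 := CU.la_prime.dvd_of_dvd_pow h2
      exact CU.la_prime.not_isUnit (isUnit_of_dvd_unit h3 CU.om_unit)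
  · exact c5_laDs d.hDs h1

theorem c5_laR' (d : Dat D) : ¬ la ∣ d.η * d.Ds := by
  intro h
  rcases CU.la_prime.dvd_or_dvd h with h2 | h1
  · rcases d.hη with h3 | h3
    · rw [h3] at h2; exact JL.n6_one h2
    · rw [h3, dvd_neg] at h2; exact JL.n6_one h2
  · exact c5_laDs d.hDs h1

end JGL
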