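import Pool.Agent.JGL.C5

/-!
# [JGL-C6] the criteria for `v = 0, 2, 4`
-/

set_option autoImplicit false

open NumberField IsDedekindDomain Filter Topology
open scoped Classical ComplexConjugate

namespace JGL

open CM27 JZ
open CU (la eE)
open CUL (Nl ez si ta DS Cont LV IsRep rp cr mn mo zw OT GalU W3 W9)
open JL (N1 KD sD Psi6)

variable {D : Eis}

/-- `v = 0`, `i = 0` -/
theorem crit_0a (d : Dat D) (hv : d.v = 0) (hi : d.i = 0) (A : ValuationSubring ℂ) (hA : A.valuation 3 < 1) {e r u₁ u₂ : ℂ}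
    (hU : UnitE d.D₁ e) (he : A.valuation (e - 1) < 1) (hr : r ^ 2 = emb (d.η * d.Ds)) (hN : N2 r e u₁ u₂) :
    A.valuation (u₂ / emb la) = 1 ↔ JG.UCG D := by
  have hl := c5_laR' d
  have h3 : ∃ η : Eis, (η = 1 ∨ η = -1) ∧ (3 : Eis) ∣ d.η * d.Ds - η := by
    refine ⟨d.η, d.hη, ?_⟩
    obtain ⟨c, hc⟩ := c5_Ds d.hDs
    exact ⟨d.η * c, by linear_combination d.η * hc⟩
  refine c5_A d A hA (m := 0) hU he hr hN hl ?_ ?_
  · exact d.hD'.trans (by rw [hv, hi]; ring)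
  · intro q
    constructor
    · rintro (⟨-, -, h4, -⟩ | ⟨-, -, h4⟩ | ⟨h4, -⟩ | ⟨h4, -⟩ | ⟨-, h4, -⟩ | ⟨h4, -⟩)
      · obtain ⟨η, hη, hd⟩ := h3
        exact absurd hd (h4 η hη)
      · exact h4
      · exact absurd h4 (by norm_num)
      · exact absurd h4 (by norm_num)
      · exact absurd h4 hl
      · exact absurd h4 (by norm_num)
    · intro h4
      exact Or.inr (Or.inl ⟨rfl, h3, h4⟩)

/-- `v = 4` -/
theorem crit_4 (d : Dat D) (hv : d.v = 4) (A : ValuationSubring ℂ) (hA : A.valuation 3 < 1) {e r u₁ u₂ : ℂ}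
    (hU : UnitE d.D₁ e) (he : A.valuation (e - 1) < 1) (hr : r ^ 2 = emb (d.η * CU.om ^ d.i * d.Ds)) (hN : N2 r e u₁ u₂) :
    A.valuation (u₂ / emb la) = 1 ↔ JG.UCG D := by
  have hl := c5_laR d
  refine c5_A d A hA (m := 2) hU he hr hN hl ?_ ?_
  · nth_rewrite 1 [d.hD']
    rw [hv]; ring
  · intro q
    constructor
    · rintro (⟨h4, -⟩ | ⟨h4, -⟩ | ⟨h4, -⟩ | ⟨-, -, h4⟩ | ⟨h4, -⟩ | ⟨-, h4, -⟩)
      · exact absurd h4 (by norm_num)
      · exact absurd h4 (by norm_num)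
      · exact absurd h4 (by norm_num)
      · exact h4
      · exact absurd h4 (by norm_num)
      · exact absurd h4 hl
    · intro h4
      exact Or.inr (Or.inr (Or.inr (Or.inl ⟨rfl, hl, h4⟩)))

/-- `v = 2` -/
theorem crit_2 (d : Dat D) (hv : d.v = 2) (A : ValuationSubring ℂ) (hA : A.valuation 3 < 1) {e r u₁ u₂ : ℂ}
    (hU : UnitE d.D₁ e) (he : A.valuation (e - 1) < 1) (hr : r ^ 2 = emb (d.η * CU.om ^ d.i * d.Ds)) (hN : N2 r e u₁ u₂) :
    ¬ JX.LC A 0 (u₂ / emb la) ↔ JG.UCG D := by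
  have hl := c5_laR d
  have hdom := eis_isDomain
  have hv1 := c4_unit_sqrt A hA hl hr
  have hD1 : D = la ^ (2 * 1) * (d.η * CU.om ^ d.i * d.Ds) := by
    nth_rewrite 1 [d.hD']
    rw [hv]; ring
  refine c5_B d A hA (m := 1) (R := d.η * CU.om ^ d.i * d.Ds) (R' := d.η * CU.om ^ d.i * d.Ds) (g := la) (r' := r)
    hU he hr hN hl CU.la_prime.ne_zero ?_ (fun h => hl ((dvd_pow_self la two_ne_zero).trans h)) hD1 hr 0 ?_ ?_
  · nth_rewrite 1 [hD1]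
    ring
  · intro q hq
    rcases hq with ⟨h4, -⟩ | ⟨h4, -⟩ | ⟨-, -, t, ht⟩ | ⟨h4, -⟩ | ⟨h4, -⟩ | ⟨-, h4, -⟩
    · exact absurd h4 (by norm_num)
    · exact absurd h4 (by norm_num)
    · refine ⟨t, ?_⟩
      have e1 : emb q * r - t * (emb (la * (1 + ((0 : ℤ) : Eis) * la)) * r) = emb (q - (t : Eis) * la) * r := by
        simp only [map_sub, map_mul, map_intCast, Int.cast_zero, zero_mul, add_zero, mul_one]
        ring
      rw [e1, map_mul, hv1, mul_one]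
      exact c3_emb_le A ht
    · exact absurd h4 (by norm_num)
    · exact absurd h4 (by norm_num)
    · exact absurd h4 hl
  · intro t
    refine ⟨(t : Eis) * la, Or.inr (Or.inr (Or.inl ⟨rfl, hl, t, by rw [sub_self]; exact dvd_zero _⟩)), ?_⟩
    have e1 : emb ((t : Eis) * la) * r - t * (emb (la * (1 + ((0 : ℤ) : Eis) * la)) * r) = 0 := by
      simp only [map_mul, map_intCast, Int.cast_zero, zero_mul, add_zero, mul_one]
      ring
    rw [e1, map_zero]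
    exact zero_le

/-! ### the digits for `v = 0`, `i ≠ 0` -/

/-- the data modulo `λ³` -/
theorem c6_k (d : Dat D) {e : ℤ} (hη : d.η = e) (he : e = 1 ∨ e = -1) :
    ∃ M : ℤ, e * ((d.η * d.Ds).re + (d.η * d.Ds).im) = 1 + 3 * M ∧
    (3 : ℤ) ∣ ((d.L.k).val : ℤ) - (2 + 2 * M) ∧ (3 : ℤ) ∣ (d.η * d.Ds).im ∧ (3 : ℤ) ∣ (d.η * d.Ds).re - e := by
  have hP := (primary_iff _).1 d.hDs
  have e1 : (d.η * d.Ds).re = e * d.Ds.re := by
    rw [hη, QuadraticAlgebra.re_mul, JX.ta_ic_re, JX.ta_ic_im]; ring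
  have e2 : (d.η * d.Ds).im = e * d.Ds.im := by
    rw [hη, QuadraticAlgebra.im_mul, JX.ta_ic_re, JX.ta_ic_im]; ring
  rw [e1, e2]
  obtain ⟨M, hM⟩ : (3 : ℤ) ∣ d.Ds.re - 1 + d.Ds.im := by omega
  refine ⟨M, ?_, ?_, ?_, ?_⟩
  · rcases he with rfl | rfl <;> linear_combination hM
  · have h1 : ((((d.L.k).val : ℤ) : ZMod 3)) = ((2 + 2 * M : ℤ) : ZMod 3) := by
      have h2 : ((((d.L.k).val : ℤ) : ZMod 3)) = d.L.k := by
        rw [Int.cast_natCast, ZMod.natCast_val, ZMod.cast_id']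
        rfl
      rw [h2, d.hk, mn, hM]
      rw [Int.mul_ediv_cancel_left M (by norm_num)]
      push_cast
      have h4 : (3 : ZMod 3) = 0 := by decide
      linear_combination (-(M : ZMod 3)) * h4
    have h3 := (ZMod.intCast_eq_intCast_iff_dvd_sub _ _ 3).1 h1.symm
    exact_mod_cast h3
  · rcases he with h | h
    · rw [h]; omega
    · rw [h]; omega
  · rcases he with h | h
    · rw [h]; omega
    · rw [h]; omega

/-- there are digits -/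
theorem c6_ex {X : Eis} {e M : ℤ} (he : e = 1 ∨ e = -1) (h0 : e * (X.re + X.im) = 1 + 3 * M)
    (h1 : (3 : ℤ) ∣ X.im) (h2 : (3 : ℤ) ∣ X.re - e) {i : ℕ} (hi : i = 1 ∨ i = 2) :
    ∃ d₀ d₁ d₂ : ℤ, JX.Dig (CU.om ^ i * X) d₀ d₁ d₂ := by
  obtain ⟨c1, c2⟩ := JX.ta_c1 X
  obtain ⟨c3, c4⟩ := JX.ta_c2 X
  have key : ∀ n : ℤ, (3 : ℤ) ∣ n → ∃ t : ℤ, (t = 0 ∨ t = 1 ∨ t = -1) ∧ (9 : ℤ) ∣ n + 3 * t := by
    intro n hn
    have h3 : n % 9 = 0 ∨ n % 9 = 3 ∨ n % 9 = 6 := by omega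
    rcases h3 with h3 | h3 | h3
    · exact ⟨0, Or.inl rfl, by omega⟩
    · exact ⟨-1, Or.inr (Or.inr rfl), by omega⟩
    · exact ⟨1, Or.inr (Or.inl rfl), by omega⟩
  rcases hi with rfl | rfl
  · obtain ⟨t, ht, ht'⟩ := key ((CU.om ^ 1 * X).re + (CU.om ^ 1 * X).im - e) (by
      rw [c1, c2]
      rcases he with rfl | rfl <;> omega)
    refine ⟨e, -e, t, he, ?_, ht, ?_⟩
    · rcases he with h | h <;> rw [h] <;> norm_num
    · rw [JX.ta_dig_iff]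
      refine ⟨?_, ht'⟩
      rw [c2]
      rcases he with rfl | rfl <;> omega
  · obtain ⟨t, ht, ht'⟩ := key ((CU.om ^ 2 * X).re + (CU.om ^ 2 * X).im - e) (by
      rw [c3, c4]
      rcases he with rfl | rfl <;> omega)
    refine ⟨e, e, t, he, ?_, ht, ?_⟩
    · rcases he with h | h <;> rw [h] <;> norm_num
    · rw [JX.ta_dig_iff]
      refine ⟨?_, ht'⟩
      rw [c4]
      rcases he with rfl | rfl <;> omega

/-- the slope of the digits -/
theorem c6_sl {X : Eis} {e M k : ℤ} {k' : ℕ} (hkk : k = k') (he : e = 1 ∨ e = -1) (hM : e * (X.re + X.im) = 1 + 3 * M)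
    (h1 : (3 : ℤ) ∣ X.im) (h2 : (3 : ℤ) ∣ X.re - e) (hk : (3 : ℤ) ∣ k - (2 + 2 * M)) {i : ℕ} (hi : i = 1 ∨ i = 2)
    {d₀ d₁ d₂ : ℤ} (h : JX.Dig (CU.om ^ i * X) d₀ d₁ d₂) : (3 : ℤ) ∣ d₁ * (1 + d₂) + i - JX.sl i k' e := by
  obtain ⟨c1, c2⟩ := JX.ta_c1 X
  obtain ⟨c3, c4⟩ := JX.ta_c2 X
  obtain ⟨g0, g1, g2, g3⟩ := h
  rw [JX.ta_dig_iff] at g3
  unfold JX.sl
  rw [← hkk]
  rcases hi with rfl | rfl
  · rw [c1, c2] at g3
    generalize X.re = a at *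
    generalize X.im = b at *
    rcases he with rfl | rfl <;> rcases g1 with rfl | rfl | rfl <;> push_cast <;> omega
  · rw [c3, c4] at g3
    generalize X.re = a at *
    generalize X.im = b at *
    rcases he with rfl | rfl <;> rcases g1 with rfl | rfl | rfl <;> push_cast <;> omega

/-- `ω^i X ≢ ± 1 mod 3` -/
theorem c6_ne {X : Eis} {e M : ℤ} (he : e = 1 ∨ e = -1) (h0 : e * (X.re + X.im) = 1 + 3 * M)
    (h1 : (3 : ℤ) ∣ X.im) (h2 : (3 : ℤ) ∣ X.re - e) {i : ℕ} (hi : i = 1 ∨ i = 2) {η : Eis} (hη : η = 1 ∨ η = -1) :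
    ¬ (3 : Eis) ∣ CU.om ^ i * X - η := by
  obtain ⟨c1, c2⟩ := JX.ta_c1 X
  obtain ⟨c3, c4⟩ := JX.ta_c2 X
  intro hd
  rw [JX.tb_three] at hd
  rcases hi with rfl | rfl <;> rcases he with rfl | rfl <;> rcases hη with rfl | rfl <;>
    simp only [QuadraticAlgebra.re_sub, QuadraticAlgebra.im_sub, QuadraticAlgebra.re_neg, QuadraticAlgebra.im_neg,
      QuadraticAlgebra.re_one, QuadraticAlgebra.im_one, c1, c2, c3, c4] at hd <;> omega

/-- `v = 0`, `i ≠ 0` -/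
theorem crit_0b (d : Dat D) (hv : d.v = 0) (hi : d.i ≠ 0) (A : ValuationSubring ℂ) (hA : A.valuation 3 < 1) {e r u₁ u₂ : ℂ}
    {η : ℤ} (hη : d.η = η)
    (hU : UnitE d.D₁ e) (he : A.valuation (e - 1) < 1) (hr : r ^ 2 = emb (d.η * d.Ds)) (hN : N2 r e u₁ u₂) :
    ¬ JX.LC A (JX.sl d.i d.L.k.val η) (u₂ / emb la) ↔ JG.UCG D := by
  have hdom := eis_isDomain
  have hi' : d.i = 1 ∨ d.i = 2 := by
    have := d.hi
    omega
  have hη1 : η = 1 ∨ η = -1 := by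
    rcases d.hη with h | h
    · left
      rw [hη] at h
      have h1 := congrArg QuadraticAlgebra.re h
      simpa [QuadraticAlgebra.re_one] using h1
    · right
      rw [hη] at h
      have h1 := congrArg QuadraticAlgebra.re h
      simpa [QuadraticAlgebra.re_one] using h1
  obtain ⟨M, hM, hk, hX1, hX2⟩ := c6_k d hη hη1
  have hl' := c5_laR' d
  have hv1 := c4_unit_sqrt A hA hl' hr
  have h4 : CU.om ^ (2 * d.i) * CU.om ^ (2 * d.i) = CU.om ^ d.i := by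
    rcases hi' with h | h <;> rw [h] <;> decide
  have hR' : D = CU.om ^ d.i * (d.η * d.Ds) := by
    nth_rewrite 1 [d.hD']
    rw [hv]; ring
  have hlR : ¬ la ∣ CU.om ^ d.i * (d.η * d.Ds) := by
    have h5 := c5_laR d
    rwa [show d.η * CU.om ^ d.i * d.Ds = CU.om ^ d.i * (d.η * d.Ds) by ring] at h5
  have hsl : ∀ {d₀ d₁ d₂ : ℤ}, JX.Dig (CU.om ^ d.i * (d.η * d.Ds)) d₀ d₁ d₂ →
      (3 : ℤ) ∣ d₁ * (1 + d₂) + d.i - JX.sl d.i d.L.k.val η := fun h => c6_sl rfl hη1 hM hX1 hX2 hk hi' h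
  have hem : ∀ (q : Eis) (t c' : ℤ), la ^ 3 ∣ q - (t : Eis) * (la * (1 + (c' : Eis) * la)) →
      (3 : ℤ) ∣ c' + d.i - JX.sl d.i d.L.k.val η →
      A.valuation (emb q * (emb (CU.om ^ (2 * d.i)) * r) -
        t * (emb (la * (1 + (JX.sl d.i d.L.k.val η : Eis) * la)) * r)) ≤ A.valuation (emb la) ^ 3 := by
    intro q t c' hq hc
    obtain ⟨p, hp⟩ := JX.ta_q hi' hc
    obtain ⟨p', hp'⟩ := hq
    have e1 : emb q * (emb (CU.om ^ (2 * d.i)) * r) -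
        t * (emb (la * (1 + (JX.sl d.i d.L.k.val η : Eis) * la)) * r) =
        emb (la ^ 3 * (p' * CU.om ^ (2 * d.i) + (t : Eis) * p)) * r := by
      have e2 : q * CU.om ^ (2 * d.i) = (t : Eis) * (la * (1 + (JX.sl d.i d.L.k.val η : Eis) * la)) +
          la ^ 3 * (p' * CU.om ^ (2 * d.i) + (t : Eis) * p) := by
        linear_combination CU.om ^ (2 * d.i) * hp' + (t : Eis) * hp
      have e3 := congrArg emb e2
      rw [map_mul, map_add, map_mul emb (t : Eis), map_intCast] at e3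
      linear_combination r * e3
    rw [e1, map_mul, hv1, mul_one]
    exact c3_emb_le A (Dvd.intro _ rfl)
  refine c5_B d A hA (m := 0) (R := d.η * d.Ds) (R' := CU.om ^ d.i * (d.η * d.Ds)) (g := CU.om ^ (2 * d.i))
    (r' := emb (CU.om ^ (2 * d.i)) * r) hU he hr hN hl' (pow_ne_zero _ CU.om_unit.ne_zero) ?_
    (fun h => hlR ((dvd_pow_self la two_ne_zero).trans h)) (by rw [mul_zero, pow_zero, one_mul]; exact hR') ?_ _ ?_ ?_
  · nth_rewrite 1 [hR']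
    rw [← h4]; ring
  · rw [mul_pow, hr, ← map_pow, ← map_mul]
    congr 1
    rw [← h4]; ring
  · intro q hq
    rcases hq with ⟨-, -, -, d₀, d₁, d₂, t, hd, ht⟩ | ⟨-, ⟨η', h5, h6⟩, -⟩ | ⟨h5, -⟩ | ⟨h5, -⟩ | ⟨-, h5, -⟩ | ⟨h5, -⟩
    · exact ⟨t, hem q t _ ht (hsl hd)⟩
    · exact absurd h6 (c6_ne hη1 hM hX1 hX2 hi' h5)
    · exact absurd h5 (by norm_num)
    · exact absurd h5 (by norm_num)
    · exact absurd h5 hlR
    · exact absurd h5 (by norm_num)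
  · intro t
    obtain ⟨d₀, d₁, d₂, hd⟩ := c6_ex hη1 hM hX1 hX2 hi'
    refine ⟨(t : Eis) * (la * (1 + ((d₁ * (1 + d₂) : ℤ) : Eis) * la)), Or.inl ⟨rfl, hlR, ?_, d₀, d₁, d₂, t, hd, ?_⟩, ?_⟩
    · intro η' h5
      exact c6_ne hη1 hM hX1 hX2 hi' h5
    · rw [sub_self]; exact dvd_zero _
    · exact hem _ t _ (by rw [sub_self]; exact dvd_zero _) (hsl hd)

end JGL
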