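import Pool.Agent.JGL.C6
import Pool.Agent.JGL.Ln

/-!
# [JGL-C7] the line for `v = 1`: closure under products and cubes
-/

set_option autoImplicit false

open NumberField IsDedekindDomain Filter Topology
open scoped Classical ComplexConjugate

namespace JGL

open CM27 JZ
open CU (la eE)
open CUL (Nl ez si ta DS Cont LV IsRep rp cr mn mo zw OT GalU W3 W9)
open JL (N1 KD sD Psi6)

section ring

variable {Q : Type*} [CommRing Q] {l e₀ e₁ : Q} (hl : l ^ 3 = 0) (he : e₀ ^ 2 = 1)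

include hl he in
theorem c7_w (b t : Q) {u w : Q} (hu : u = b + t * (l * (e₀ + (e₁ - 1 - b ^ 2) * l)))
    (hw : w = u ^ 2 * (l * (e₀ + e₁ * l))) :
    1 - w + w ^ 2 = 1 - b ^ 2 * e₀ * l + (b ^ 4 - b ^ 2 * e₁ - 2 * b * t) * l ^ 2 := by
  have h1 : w = b ^ 2 * e₀ * l + (b ^ 2 * e₁ + 2 * b * t) * l ^ 2 := by
    rw [hw, hu]
    linear_combination (2 * b * t * e₀ * e₁ + (t ^ 2 * e₀ ^ 2 + 2 * b * t * (e₁ - 1 - b ^ 2) +
      2 * t ^ 2 * e₀ * (e₁ - 1 - b ^ 2) * l + t ^ 2 * (e₁ - 1 - b ^ 2) ^ 2 * l ^ 2) * (e₀ + e₁ * l)) * hl +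
      (2 * b * t * l ^ 2) * he
  rw [h1]
  linear_combination (2 * b ^ 2 * e₀ * (b ^ 2 * e₁ + 2 * b * t) + (b ^ 2 * e₁ + 2 * b * t) ^ 2 * l) * hl +
    (b ^ 4 * l ^ 2) * he

include hl he in
theorem c7_comb (h3 : 3 + l ^ 2 = 0) (b c : ℤ) (hb : b = 0 ∨ b = 1 ∨ b = -1) (hc : c = 0 ∨ c = 1 ∨ c = -1)
    (t s : ℤ) : ∃ B T : ℤ, (B = 0 ∨ B = 1 ∨ B = -1) ∧
      (1 - (b : Q) ^ 2 * e₀ * l + ((b : Q) ^ 4 - (b : Q) ^ 2 * e₁ - 2 * b * t) * l ^ 2) *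
        (c + s * (l * (e₀ + (e₁ - 1 - (c : Q) ^ 2) * l))) +
      (1 - (c : Q) ^ 2 * e₀ * l + ((c : Q) ^ 4 - (c : Q) ^ 2 * e₁ - 2 * c * s) * l ^ 2) *
        (b + t * (l * (e₀ + (e₁ - 1 - (b : Q) ^ 2) * l))) =
      B + T * (l * (e₀ + (e₁ - 1 - (B : Q) ^ 2) * l)) := by
  rcases hb with rfl | rfl | rfl <;> rcases hc with rfl | rfl | rfl
  · refine ⟨0, t + s, by norm_num, ?_⟩
    push_cast
    linear_combination (0) * he + (0) * h3 + (0) * hl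
  · refine ⟨1, t + s, by norm_num, ?_⟩
    push_cast
    linear_combination (-(t : Q)*l^2) * he + (0) * h3 + (-2*(t : Q)*(s : Q)*e₀ - 2*(t : Q)*(s : Q)*e₁*l + 2*(t : Q)*(s : Q)*l - 2*(t : Q)*e₀*e₁ + 2*(t : Q)*e₀ - (t : Q)*e₁^2*l + 2*(t : Q)*e₁*l - (t : Q)*l) * hl
  · refine ⟨-1, t + s, by norm_num, ?_⟩
    push_cast
    linear_combination (-(t : Q)*l^2) * he + (0) * h3 + (2*(t : Q)*(s : Q)*e₀ + 2*(t : Q)*(s : Q)*e₁*l - 2*(t : Q)*(s : Q)*l - 2*(t : Q)*e₀*e₁ + 2*(t : Q)*e₀ - (t : Q)*e₁^2*l + 2*(t : Q)*e₁*l - (t : Q)*l) * hl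
  · refine ⟨1, t + s, by norm_num, ?_⟩
    push_cast
    linear_combination (-(s : Q)*l^2) * he + (0) * h3 + (-2*(t : Q)*(s : Q)*e₀ - 2*(t : Q)*(s : Q)*e₁*l + 2*(t : Q)*(s : Q)*l - 2*(s : Q)*e₀*e₁ + 2*(s : Q)*e₀ - (s : Q)*e₁^2*l + 2*(s : Q)*e₁*l - (s : Q)*l) * hl
  · refine ⟨-1, t + s - 2, by norm_num, ?_⟩
    push_cast
    linear_combination (-(t : Q)*l^2 - (s : Q)*l^2) * he + (-(t : Q)*l^2 - (s : Q)*l^2 - l^2 + 1) * h3 + (-4*(t : Q)*(s : Q)*e₀ - 4*(t : Q)*(s : Q)*e₁*l + 8*(t : Q)*(s : Q)*l - 2*(t : Q)*e₀*e₁ + 3*(t : Q)*e₀ - (t : Q)*e₁^2*l + 3*(t : Q)*e₁*l - (t : Q)*l - 2*(s : Q)*e₀*e₁ + 3*(s : Q)*e₀ - (s : Q)*e₁^2*l + 3*(s : Q)*e₁*l - (s : Q)*l + l) * hl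
  · refine ⟨0, t + s, by norm_num, ?_⟩
    push_cast
    linear_combination (-(t : Q)*l^2 - (s : Q)*l^2) * he + (0) * h3 + (-2*(t : Q)*e₀*e₁ + 3*(t : Q)*e₀ - (t : Q)*e₁^2*l + 3*(t : Q)*e₁*l - 2*(t : Q)*l - 2*(s : Q)*e₀*e₁ + 3*(s : Q)*e₀ - (s : Q)*e₁^2*l + 3*(s : Q)*e₁*l - 2*(s : Q)*l) * hl
  · refine ⟨-1, t + s, by norm_num, ?_⟩
    push_cast
    linear_combination (-(s : Q)*l^2) * he + (0) * h3 + (2*(t : Q)*(s : Q)*e₀ + 2*(t : Q)*(s : Q)*e₁*l - 2*(t : Q)*(s : Q)*l - 2*(s : Q)*e₀*e₁ + 2*(s : Q)*e₀ - (s : Q)*e₁^2*l + 2*(s : Q)*e₁*l - (s : Q)*l) * hl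
  · refine ⟨0, t + s, by norm_num, ?_⟩
    push_cast
    linear_combination (-(t : Q)*l^2 - (s : Q)*l^2) * he + (0) * h3 + (-2*(t : Q)*e₀*e₁ + 3*(t : Q)*e₀ - (t : Q)*e₁^2*l + 3*(t : Q)*e₁*l - 2*(t : Q)*l - 2*(s : Q)*e₀*e₁ + 3*(s : Q)*e₀ - (s : Q)*e₁^2*l + 3*(s : Q)*e₁*l - 2*(s : Q)*l) * hl
  · refine ⟨1, t + s + 2, by norm_num, ?_⟩
    push_cast
    linear_combination (-(t : Q)*l^2 - (s : Q)*l^2) * he + (-(t : Q)*l^2 - (s : Q)*l^2 + l^2 - 1) * h3 + (4*(t : Q)*(s : Q)*e₀ + 4*(t : Q)*(s : Q)*e₁*l - 8*(t : Q)*(s : Q)*l - 2*(t : Q)*e₀*e₁ + 3*(t : Q)*e₀ - (t : Q)*e₁^2*l + 3*(t : Q)*e₁*l - (t : Q)*l - 2*(s : Q)*e₀*e₁ + 3*(s : Q)*e₀ - (s : Q)*e₁^2*l + 3*(s : Q)*e₁*l - (s : Q)*l - l) * hl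

end ring

section val

variable (A : ValuationSubring ℂ)

/-- the ideal `λ³` of `A` -/
def c7_I : Ideal A where
  carrier := {a | A.valuation (a : ℂ) ≤ A.valuation (emb la) ^ 3}
  add_mem' := by
    intro a b ha hb
    rw [Set.mem_ofPred_eq] at ha hb ⊢
    push_cast
    exact Valuation.map_add_le _ ha hb
  zero_mem' := by
    rw [Set.mem_ofPred_eq]
    push_cast
    rw [map_zero]
    exact zero_le
  smul_mem' := by
    intro c x hx
    rw [Set.mem_ofPred_eq] at hx ⊢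
    rw [smul_eq_mul]
    push_cast
    rw [map_mul]
    calc A.valuation (c : ℂ) * A.valuation (x : ℂ) ≤ 1 * A.valuation (emb la) ^ 3 :=
          mul_le_mul' ((ValuationSubring.valuation_le_one_iff A _).2 c.2) hx
      _ = _ := one_mul _

theorem c7_eq (x y : A) : Ideal.Quotient.mk (c7_I A) x = Ideal.Quotient.mk (c7_I A) y ↔
    A.valuation ((x : ℂ) - y) ≤ A.valuation (emb la) ^ 3 := by
  rw [Ideal.Quotient.eq]
  constructor
  · intro h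
    have h1 : A.valuation ((x - y : A) : ℂ) ≤ A.valuation (emb la) ^ 3 := h
    push_cast at h1
    exact h1
  · intro h
    change A.valuation ((x - y : A) : ℂ) ≤ A.valuation (emb la) ^ 3
    push_cast
    exact h

theorem c7_zero (x : A) : Ideal.Quotient.mk (c7_I A) x = 0 ↔ A.valuation (x : ℂ) ≤ A.valuation (emb la) ^ 3 := by
  rw [← map_zero (Ideal.Quotient.mk (c7_I A)), c7_eq]
  push_cast
  rw [sub_zero]

/-- the element `λ` of `A` -/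
noncomputable def c7_la : A := ⟨emb la, (ValuationSubring.valuation_le_one_iff A _).1 (CUL.w_emb_le A la)⟩

theorem c7_l3 : (Ideal.Quotient.mk (c7_I A) (c7_la A)) ^ 3 = 0 := by
  rw [← map_pow, c7_zero]
  have e : ((c7_la A ^ 3 : A) : ℂ) = emb la ^ 3 := by push_cast; rfl
  rw [e, map_pow]

theorem c7_h3 : (3 : A ⧸ c7_I A) + (Ideal.Quotient.mk (c7_I A) (c7_la A)) ^ 2 = 0 := by
  have e : (3 : A ⧸ c7_I A) + (Ideal.Quotient.mk (c7_I A) (c7_la A)) ^ 2 =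
      Ideal.Quotient.mk (c7_I A) (3 + c7_la A ^ 2) := by
    rw [map_add, map_pow, map_ofNat]
  rw [e, c7_zero]
  have e2 : ((3 + c7_la A ^ 2 : A) : ℂ) = emb (3 + la ^ 2) := by
    push_cast
    rw [map_add, map_ofNat, map_pow]
    rfl
  rw [e2]
  have e3 : (3 + la ^ 2 : Eis) = la ^ 3 * (-CU.om ^ 2) := by decide
  rw [e3]
  exact c3_emb_le A (Dvd.intro _ rfl)

/-- square roots of `1 + w` -/
theorem c7_sqrt (hA : A.valuation 3 < 1) {a w : ℂ} (hw : A.valuation w ≤ A.valuation (emb la)) (ha : a ^ 2 = 1 + w)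
    (h1 : A.valuation (a - 1) < 1) : A.valuation (a - (1 - w + w ^ 2)) ≤ A.valuation (emb la) ^ 3 := by
  have hL := CUL.w_la_lt A hA
  have hw1 : A.valuation w < 1 := lt_of_le_of_lt hw hL
  have e : (a - (1 - w + w ^ 2)) * (2 + ((a - 1) + (w ^ 2 - w))) = 3 * (w - w ^ 2) + w ^ 3 * (2 - w) := by
    linear_combination ha
  have h2 : A.valuation (2 + ((a - 1) + (w ^ 2 - w))) = 1 := by
    rw [Valuation.map_add_eq_of_lt_left _ ?_, JX.x6_two A hA]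
    rw [JX.x6_two A hA]
    refine Valuation.map_add_lt _ h1 (Valuation.map_sub_lt _ ?_ hw1)
    rw [map_pow]
    exact pow_lt_one₀ zero_le hw1 two_ne_zero
  have h3 : A.valuation (a - (1 - w + w ^ 2)) = A.valuation (3 * (w - w ^ 2) + w ^ 3 * (2 - w)) := by
    rw [← e, map_mul, h2, mul_one]
  rw [h3]
  refine Valuation.map_add_le _ ?_ ?_
  · rw [map_mul, ← CUL.w_la A hA, pow_succ (A.valuation (emb la)) 2]
    refine mul_le_mul' le_rfl (Valuation.map_sub_le _ hw ?_)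
    rw [map_pow, pow_two]
    calc A.valuation w * A.valuation w ≤ 1 * A.valuation (emb la) := mul_le_mul' hw1.le hw
      _ = _ := one_mul _
  · rw [map_mul, map_pow]
    calc A.valuation w ^ 3 * A.valuation (2 - w) ≤ A.valuation (emb la) ^ 3 * 1 := by
          refine mul_le_mul' (pow_le_pow_left₀ zero_le hw 3) (Valuation.map_sub_le _ (JX.x6_two A hA).le hw1.le)
      _ = _ := mul_one _

theorem c7_mul (hA : A.valuation 3 < 1) {e₀ e₁ : ℤ} (he : e₀ = 1 ∨ e₀ = -1) {D' u u' a a' : ℂ}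
    (hD : A.valuation (D' - emb la * ((e₀ : ℂ) + (e₁ : ℂ) * emb la)) ≤ A.valuation (emb la) ^ 3)
    (hu : A.valuation u ≤ 1) (hu' : A.valuation u' ≤ 1) (ha : a ^ 2 = 1 + u ^ 2 * D') (ha' : a' ^ 2 = 1 + u' ^ 2 * D')
    (h1 : A.valuation (a - 1) < 1) (h1' : A.valuation (a' - 1) < 1) (h : Ln1 A e₀ e₁ u) (h' : Ln1 A e₀ e₁ u') :
    Ln1 A e₀ e₁ (a * u' + a' * u) := by
  have hL := CUL.w_la_lt A hA
  have hL31 : A.valuation (emb la) ^ 3 ≤ A.valuation (emb la) := pow_le_of_le_one zero_le hL.le (by norm_num)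
  obtain ⟨b, t, hb, ht⟩ := h
  obtain ⟨c, s, hc, hs⟩ := h'
  have hDv : A.valuation D' ≤ A.valuation (emb la) := by
    have e : D' = (D' - emb la * ((e₀ : ℂ) + (e₁ : ℂ) * emb la)) + emb la * ((e₀ : ℂ) + (e₁ : ℂ) * emb la) := by ring
    rw [e]
    refine Valuation.map_add_le _ (hD.trans hL31) ?_
    rw [map_mul]
    calc A.valuation (emb la) * A.valuation ((e₀ : ℂ) + (e₁ : ℂ) * emb la) ≤ A.valuation (emb la) * 1 := by
          refine mul_le_mul' le_rfl (Valuation.map_add_le _ (CUL.w_int_le A _) ?_)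
          rw [map_mul]
          exact mul_le_one' (CUL.w_int_le A _) hL.le
      _ = _ := mul_one _
  have hwv : ∀ {x : ℂ}, A.valuation x ≤ 1 → A.valuation (x ^ 2 * D') ≤ A.valuation (emb la) := by
    intro x hx
    rw [map_mul, map_pow]
    calc A.valuation x ^ 2 * A.valuation D' ≤ 1 * A.valuation (emb la) := mul_le_mul' (pow_le_one₀ zero_le hx) hDv
      _ = _ := one_mul _
  have hs1 := c7_sqrt A hA (hwv hu) ha h1
  have hs2 := c7_sqrt A hA (hwv hu') ha' h1'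
  have hmem : ∀ {x : ℂ}, A.valuation x ≤ 1 → x ∈ A := fun hx => (ValuationSubring.valuation_le_one_iff A _).1 hx
  have hav := (c1_v1 A h1).le
  have hav' := (c1_v1 A h1').le
  set φ := Ideal.Quotient.mk (c7_I A) with hφ
  set X : A := ⟨u, hmem hu⟩ with hX
  set X' : A := ⟨u', hmem hu'⟩ with hX'
  set Y : A := ⟨a, hmem hav⟩ with hY
  set Y' : A := ⟨a', hmem hav'⟩ with hY'
  set Z : A := ⟨D', hmem (hDv.trans hL.le)⟩ with hZ
  have f1 : φ X = b + t * (φ (c7_la A) * (e₀ + (e₁ - 1 - (b : A ⧸ c7_I A) ^ 2) * φ (c7_la A))) := by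
    have e : b + t * (φ (c7_la A) * (e₀ + (e₁ - 1 - (b : A ⧸ c7_I A) ^ 2) * φ (c7_la A))) =
        φ (b + t * (c7_la A * (e₀ + (e₁ - 1 - (b : A) ^ 2) * c7_la A))) := by
      simp only [map_add, map_mul, map_sub, map_pow, map_intCast, map_one]
    rw [e, hφ, c7_eq]
    push_cast at ht ⊢
    exact ht
  have f2 : φ X' = c + s * (φ (c7_la A) * (e₀ + (e₁ - 1 - (c : A ⧸ c7_I A) ^ 2) * φ (c7_la A))) := by
    have e : c + s * (φ (c7_la A) * (e₀ + (e₁ - 1 - (c : A ⧸ c7_I A) ^ 2) * φ (c7_la A))) =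
        φ (c + s * (c7_la A * (e₀ + (e₁ - 1 - (c : A) ^ 2) * c7_la A))) := by
      simp only [map_add, map_mul, map_sub, map_pow, map_intCast, map_one]
    rw [e, hφ, c7_eq]
    push_cast at hs ⊢
    exact hs
  have f3 : φ Z = φ (c7_la A) * (e₀ + e₁ * φ (c7_la A)) := by
    have e : φ (c7_la A) * (e₀ + e₁ * φ (c7_la A)) = φ (c7_la A * (e₀ + e₁ * c7_la A)) := by
      simp only [map_add, map_mul, map_intCast]
    rw [e, hφ, c7_eq]
    push_cast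
    exact hD
  have f4 : φ Y = 1 - φ X ^ 2 * φ Z + (φ X ^ 2 * φ Z) ^ 2 := by
    rw [← map_pow, ← map_mul, ← map_pow, ← map_one φ, ← map_sub, ← map_add, hφ, c7_eq]
    push_cast
    exact hs1
  have f5 : φ Y' = 1 - φ X' ^ 2 * φ Z + (φ X' ^ 2 * φ Z) ^ 2 := by
    rw [← map_pow, ← map_mul, ← map_pow, ← map_one φ, ← map_sub, ← map_add, hφ, c7_eq]
    push_cast
    exact hs2
  have hl := c7_l3 A
  have h3 := c7_h3 A
  have he2 : (e₀ : A ⧸ c7_I A) ^ 2 = 1 := by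
    rcases he with rfl | rfl <;> push_cast <;> ring
  rw [← hφ] at hl h3
  rw [f3] at f4 f5
  rw [c7_w hl he2 (b : A ⧸ c7_I A) (t : A ⧸ c7_I A) f1 rfl] at f4
  rw [c7_w hl he2 (c : A ⧸ c7_I A) (s : A ⧸ c7_I A) f2 rfl] at f5
  obtain ⟨B, T, hB, hBT⟩ := c7_comb hl he2 (e₁ := (e₁ : A ⧸ c7_I A)) h3 b c hb hc t s
  refine ⟨B, T, hB, ?_⟩
  have f6 : φ (Y * X' + Y' * X) = φ (B + T * (c7_la A * (e₀ + (e₁ - 1 - (B : A) ^ 2) * c7_la A))) := by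
    simp only [map_add, map_mul, map_sub, map_pow, map_intCast, map_one]
    rw [f4, f5, f1, f2]
    exact hBT
  rw [hφ, c7_eq] at f6
  push_cast at f6 ⊢
  exact f6

theorem c7_cube (hA : A.valuation 3 < 1) {e₀ e₁ : ℤ} {D' u : ℂ}
    (hD : A.valuation (D' - emb la * ((e₀ : ℂ) + (e₁ : ℂ) * emb la)) ≤ A.valuation (emb la) ^ 3)
    (hu : A.valuation u ≤ 1) (huK : u ∈ CF.KK) : Ln1 A e₀ e₁ (3 * u + 4 * u ^ 3 * D') := by
  have hL := CUL.w_la_lt A hA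
  obtain ⟨q, hq⟩ := c3_approx A hA huK hu 1
  rw [pow_one] at hq
  obtain ⟨b, hb, hbq⟩ := c1_dig q
  have hz : A.valuation (u - b) ≤ A.valuation (emb la) := by
    have e : u - b = (u - emb q) + emb (q - (b : Eis)) := by
      rw [map_sub, map_intCast]; ring
    rw [e]
    refine Valuation.map_add_le _ hq ?_
    have := c3_emb_le A (k := 1) (q := q - (b : Eis)) (by rw [pow_one]; exact hbq)
    rwa [pow_one] at this
  have hmem : ∀ {x : ℂ}, A.valuation x ≤ 1 → x ∈ A := fun hx => (ValuationSubring.valuation_le_one_iff A _).1 hx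
  have hDv : A.valuation D' ≤ 1 := by
    have e : D' = (D' - emb la * ((e₀ : ℂ) + (e₁ : ℂ) * emb la)) + emb la * ((e₀ : ℂ) + (e₁ : ℂ) * emb la) := by ring
    rw [e]
    refine Valuation.map_add_le _ (hD.trans (pow_le_one₀ zero_le hL.le)) ?_
    rw [map_mul]
    refine mul_le_one' hL.le (Valuation.map_add_le _ (CUL.w_int_le A _) ?_)
    rw [map_mul]
    exact mul_le_one' (CUL.w_int_le A _) hL.le
  set φ := Ideal.Quotient.mk (c7_I A) with hφ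
  set X : A := ⟨u - b, hmem (hz.trans hL.le)⟩ with hX
  set Z : A := ⟨D', hmem hDv⟩ with hZ
  have f1 : φ X ^ 3 = 0 := by
    rw [← map_pow, hφ, c7_zero]
    push_cast
    rw [map_pow]
    exact pow_le_pow_left₀ zero_le hz 3
  have f2 : 3 * φ X = 0 := by
    have e : 3 * φ X = φ (3 * X) := by rw [map_mul, map_ofNat]
    have e3 : ((3 * X : A) : ℂ) = 3 * (u - b) := rfl
    rw [e, hφ, c7_zero, e3, map_mul, ← CUL.w_la A hA, pow_succ (A.valuation (emb la)) 2]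
    exact mul_le_mul' le_rfl hz
  have f3 : φ Z = φ (c7_la A) * (e₀ + e₁ * φ (c7_la A)) := by
    have e : φ (c7_la A) * (e₀ + e₁ * φ (c7_la A)) = φ (c7_la A * (e₀ + e₁ * c7_la A)) := by
      simp only [map_add, map_mul, map_intCast]
    rw [e, hφ, c7_eq]
    push_cast
    exact hD
  have hl := c7_l3 A
  have h3 := c7_h3 A
  rw [← hφ] at hl h3
  have hb3 : (b : A ⧸ c7_I A) ^ 3 = b := by
    rcases hb with rfl | rfl | rfl <;> push_cast <;> ring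
  refine ⟨0, b, Or.inl rfl, ?_⟩
  have f6 : φ (3 * (b + X) + 4 * (b + X) ^ 3 * Z) =
      φ (((0 : ℤ) : A) + b * (c7_la A * (e₀ + (e₁ - 1 - ((0 : ℤ) : A) ^ 2) * c7_la A))) := by
    simp only [map_add, map_mul, map_sub, map_pow, map_intCast, map_one, map_ofNat, f3]
    push_cast
    linear_combination (1 + 4 * (b : A ⧸ c7_I A) ^ 2 * (φ (c7_la A) * (e₀ + e₁ * φ (c7_la A))) +
      4 * (b : A ⧸ c7_I A) * φ X * (φ (c7_la A) * (e₀ + e₁ * φ (c7_la A)))) * f2 +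
      4 * (φ (c7_la A) * (e₀ + e₁ * φ (c7_la A))) * f1 + 4 * (φ (c7_la A) * (e₀ + e₁ * φ (c7_la A))) * hb3 +
      ((b : A ⧸ c7_I A) * (1 + φ (c7_la A) * (e₀ + e₁ * φ (c7_la A)))) * h3 -
      (b : A ⧸ c7_I A) * (e₀ + e₁ * φ (c7_la A)) * hl
  have e9 : ((3 * (b + X) + 4 * (b + X) ^ 3 * Z : A) : ℂ) = 3 * u + 4 * u ^ 3 * D' := by
    have e8 : ((3 * (b + X) + 4 * (b + X) ^ 3 * Z : A) : ℂ) = 3 * ((b : ℂ) + (u - b)) +
      4 * ((b : ℂ) + (u - b)) ^ 3 * D' := rfl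
    rw [e8, add_sub_cancel]
  have e10 : ((((0 : ℤ) : A) + b * (c7_la A * (e₀ + (e₁ - 1 - ((0 : ℤ) : A) ^ 2) * c7_la A)) : A) : ℂ) =
      ((0 : ℤ) : ℂ) + (b : ℂ) * (emb la * ((e₀ : ℂ) + ((e₁ - 1 - (0 : ℤ) ^ 2 : ℤ) : ℂ) * emb la)) := by
    push_cast
    have e11 : ((c7_la A : A) : ℂ) = emb la := rfl
    rw [e11]
    ring
  rw [hφ, c7_eq, e9, e10] at f6
  exact f6

end val

end JGL
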