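import Pool.Agent.JGL.D5
import Pool.Agent.JGL.D6a

/-!
# [JGL-D6b] the cubic character on the Galois group

PROOF. Model JL/G1.lean (`JL.gal_t`). `M₀ = 9 * (4 * Ds * L.f)`. Let `GalU σ M g`, `M₀ ∣ M`. `g` is primary and coprime to `M`, hence to `L.f`, `9` and the `p ∈ S`. `4 D = η (ω ^ i la ^ v) ∏_{p ∈ S} p ^ E p` (`F.hD`, `F.h4`). Choose cube roots `s_p` of `emb p` and `r` of `emb (ω ^ i la ^ v)`: `σ s_p = cr p g s_p` (`CUL.gal_cbrt_prime`), `σ r = zw (v mo g + 2 i mn g) r` (`gal_cbrt_la`).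
`t₀ = η r ∏ s_p ^ E p`, `t₀³ = emb (4 D) = t³`, so `t = ζ t₀`, `σ ζ = ζ` (`CUL.g3_root`). `∏_{p ∈ S} cr p g ^ E p = cc F g = L.c g` (`cc_full`, `hL.hc`). `conj (ka (-v) i g) = zw (v mo g - i mn g)` (`CUL.zw_conj`), `2 = -1` in `ZMod 3`.
-/

set_option autoImplicit false

open NumberField IsDedekindDomain Filter Topology
open scoped Classical ComplexConjugate

namespace JGL

open CM27 JZ
open CU (la eE)
open CUL (Nl ez si ta DS Cont LV IsRep rp cr mn mo zw OT GalU W3 W9)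
open JL (N1 KD sD Psi6)

variable {D D₁ : Eis}

theorem gal_D (F : Fac D) {Q : QD D₁} {L : Lev} (hL : IsL F Q L) (h0 : D ≠ 0) {t : ℂ} (ht : t ^ 3 = emb (4 * D)) :
    GalT L (-(F.v : ZMod 3)) F.i t := by
  have hdom := CM27.eis_isDomain
  have hDs0 : F.Ds ≠ 0 := by
    rintro h
    apply h0
    rw [F.hD, h, mul_zero]
  have h9 : (9 : Eis) ≠ 0 := by decide
  have h4 : (4 : Eis) ≠ 0 := by decide
  refine ⟨9 * (4 * F.Ds * L.f), mul_ne_zero h9 (mul_ne_zero (mul_ne_zero h4 hDs0) (f_ne L)), ?_⟩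
  intro σ hσ M g hM hd h
  obtain ⟨hgP, hgM, -⟩ := id h
  have hM9 : (9 : Eis) ∣ M := (dvd_mul_right _ _).trans hd
  have hMf : L.f ∣ M := (((dvd_mul_left L.f (4 * F.Ds)).mul_left 9)).trans hd
  have hMD : 4 * F.Ds ∣ M := (((dvd_mul_right (4 * F.Ds) L.f).mul_left 9)).trans hd
  have hcf : IsCoprime g L.f := hgM.of_isCoprime_of_dvd_right hMf
  have hSM : ∀ p ∈ F.S, p ∣ M := by
    intro p hp
    refine Dvd.dvd.trans ?_ hMD
    rw [F.h4]
    exact (dvd_pow_self p (F.hE p hp)).trans (Finset.dvd_prod_of_mem (fun q => q ^ F.E q) hp)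
  have hSg : ∀ p ∈ F.S, ¬ p ∣ g := by
    intro p hp h1
    exact (F.hS p hp).1.not_isUnit (hgM.isUnit_of_dvd' h1 (hSM p hp))
  have hex : ∀ p : Eis, ∃ s : ℂ, s ^ 3 = emb p :=
    fun p => IsAlgClosed.exists_pow_nat_eq (emb p) (by norm_num)
  choose s hs using hex
  have hσp : ∀ p ∈ F.S, σ (s p) = cr p g * s p := fun p hp =>
    CUL.gal_cbrt_prime σ hσ hM h (F.hS p hp).1 (F.hS p hp).2 (hSM p hp) (hs p)
  have hσr : σ (s (CU.om ^ F.i * la ^ F.v)) =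
      zw (F.v * mo g + 2 * F.i * mn g) * s (CU.om ^ F.i * la ^ F.v) :=
    gal_cbrt_la σ hσ hM h hM9 F.v F.i (hs _)
  obtain ⟨t0, ht0⟩ : ∃ t0 : ℂ, t0 = emb F.η * s (CU.om ^ F.i * la ^ F.v) * ∏ p ∈ F.S, s p ^ F.E p := ⟨_, rfl⟩
  have hη3 : emb F.η ^ 3 = emb F.η := by
    rcases F.hη with h1 | h1
    · rw [h1, map_one, one_pow]
    · rw [h1, map_neg, map_one]
      norm_num
  have ht03 : t0 ^ 3 = emb (4 * D) := by
    have e1 : 4 * D = F.η * (CU.om ^ F.i * la ^ F.v) * ∏ p ∈ F.S, p ^ F.E p := by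
      rw [← F.h4]
      calc 4 * D = 4 * (F.η * CU.om ^ F.i * la ^ F.v * F.Ds) := by rw [← F.hD]
        _ = _ := by ring
    have e2 : ∏ p ∈ F.S, (s p ^ F.E p) ^ 3 = ∏ p ∈ F.S, emb p ^ F.E p := by
      refine Finset.prod_congr rfl fun p _ => ?_
      rw [← pow_mul, mul_comm, pow_mul, hs]
    rw [ht0, e1, mul_pow, mul_pow, hη3, hs, ← Finset.prod_pow, e2]
    simp only [map_mul, map_prod, map_pow]
  have hD0 : emb (4 * D) ≠ 0 := by
    intro h1
    exact mul_ne_zero h4 h0 (emb_injective (by rw [h1, map_zero]))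
  have ht0ne : t0 ≠ 0 := by
    intro h1
    rw [h1, zero_pow (by norm_num)] at ht03
    exact hD0 ht03.symm
  have hζ : σ (t / t0) = t / t0 := by
    apply CUL.g3_root _ σ hσ
    have h1 : (t / t0) ^ 3 = 1 := by
      rw [div_pow, ht, ht03, div_self hD0]
    calc (t / t0) ^ 6 = ((t / t0) ^ 3) ^ 2 := by ring
      _ = 1 := by rw [h1, one_pow]
  have hcc : L.c g = ∏ p ∈ F.S, cr p g ^ F.E p := by
    rw [hL.hc g hcf, cc_full F hSg]
  have hσt0 : σ t0 = L.c g * conj (ka (-(F.v : ZMod 3)) F.i g) * t0 := by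
    have h1 : σ (∏ p ∈ F.S, s p ^ F.E p) = (∏ p ∈ F.S, cr p g ^ F.E p) * ∏ p ∈ F.S, s p ^ F.E p := by
      rw [map_prod, ← Finset.prod_mul_distrib]
      refine Finset.prod_congr rfl fun p hp => ?_
      rw [map_pow, hσp p hp, mul_pow]
    have h2 : conj (ka (-(F.v : ZMod 3)) F.i g) = zw (F.v * mo g + 2 * F.i * mn g) := by
      unfold ka
      rw [CUL.zw_conj]
      congr 1
      have h5 : (2 : ZMod 3) = -1 := by decide
      rw [h5]
      ring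
    rw [ht0, map_mul, map_mul, CUL.sigma_emb σ hσ, hσr, h1, hcc, h2]
    ring
  have h6 : t = (t / t0) * t0 := (div_mul_cancel₀ t ht0ne).symm
  calc σ t = σ (t / t0) * σ t0 := by rw [← map_mul, ← h6]
    _ = (t / t0) * (L.c g * conj (ka (-(F.v : ZMod 3)) F.i g) * t0) := by rw [hζ, hσt0]
    _ = L.c g * conj (ka (-(F.v : ZMod 3)) F.i g) * ((t / t0) * t0) := by ring
    _ = L.c g * conj (ka (-(F.v : ZMod 3)) F.i g) * t := by rw [← h6]


end JGL
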