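import Pool.Agent.JGL.D1a
import Pool.Agent.JGL.D6b
import Pool.Agent.JGL.D7
import Pool.Agent.JGL.D8
import Pool.Agent.JGL.D9

/-!
# [JGL-D] the data of `D`
-/

set_option autoImplicit false

open NumberField IsDedekindDomain Filter Topology
open scoped Classical ComplexConjugate

namespace JGL

open CM27 JZ
open CU (la eE)
open CUL (Nl ez si ta DS Cont LV IsRep rp cr mn mo zw OT GalU W3 W9)
open JL (N1 KD sD Psi6)

theorem exists_Dat {D : Eis} (h : ClA D) : Nonempty (Dat D) := by
  obtain ⟨D₁, m, hm, hD, ⟨Q⟩⟩ := exists_QD h.1 h.2.2.1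
  obtain ⟨F⟩ := exists_Fac h.1 h.2.1
  obtain ⟨L, hL⟩ := exists_L F Q
  obtain ⟨p₂, h2, h2'⟩ := exists_p2 F hL hD h.1
  obtain ⟨pl, hl, hl'⟩ := exists_pl F hL hD h.1
  exact ⟨{ D₁ := D₁
           m := m
           Q := Q
           T := TT F Q
           L := L
           v := F.v
           η := F.η
           i := F.i
           Ds := F.Ds
           hm := hm
           hD := hD
           ov := ⟨fun p hp => hT_D h F Q hD hp, hL.hf, hL.hq, hL.hep⟩
           hv := F.hv
           hη := F.hη
           hi := F.hi
           hDs := F.hDs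
           hD' := F.hD
           hep := ep_D F hL hD h.1
           q_la := q_la_D F hL hD h.1
           hk := hL.hk
           gal := fun t ht => gal_D F hL h.1 ht
           p₂ := p₂
           val₂ := h2
           pl := pl
           vall := hl
           pl_eq := hl'
           psi := fun b hb => psi_D F hL hD h.1 h2' hb }⟩

end JGL
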