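import Pool.Agent.JGL.Q

/-!
# [JGL-D0] the data of `D`: definitions
-/

set_option autoImplicit false

open NumberField IsDedekindDomain Filter Topology
open scoped Classical ComplexConjugate

namespace JGL

open CM27 JZ
open CU (la eE)
open CUL (Nl ez si ta DS Cont LV IsRep rp cr mn mo zw OT GalU W3 W9)
open JL (N1 KD sD Psi6)

/-- the conditions on `D` away from `λ` -/
def ClA (D : Eis) : Prop :=
  D ≠ 0 ∧ (∀ p : Eis, Prime p → ¬ p ^ 6 ∣ D) ∧ ¬ IsSquare D ∧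
  (∀ p c : Eis, Prime p → ¬ p ∣ 6 → (D = p ^ 2 * c ∨ D = p ^ 4 * c) → ¬ p ∣ c → ¬ ∃ y : Eis, p ∣ y ^ 2 - c) ∧
  (∀ c : Eis, ¬ (2 : Eis) ∣ c → (D = c ∨ D = 4 * c) → ¬ ∃ y : Eis, (8 : Eis) ∣ y ^ 2 - c)

/-- factorization: `D = η ω ^ i λ ^ v Ds`, `4 Ds = ∏_{p ∈ S} p ^ E(p)` with primary primes `p`, `-2 ∈ S` -/
structure Fac (D : Eis) where
  v : ℕ
  η : Eis
  i : ℕ
  Ds : Eis
  S : Finset Eis
  E : Eis → ℕ
  hv : v < 6
  hη : η = 1 ∨ η = -1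
  hi : i < 3
  hDs : Primary Ds
  hD : D = η * CU.om ^ i * la ^ v * Ds
  hS : ∀ p ∈ S, Prime p ∧ Primary p
  h2 : (-2 : Eis) ∈ S
  h4 : 4 * Ds = ∏ p ∈ S, p ^ E p
  hE : ∀ p ∈ S, E p ≠ 0
  hE6 : ∀ p ∈ S, p ≠ -2 → E p < 6
  hE2 : 2 ≤ E (-2) ∧ E (-2) < 8

variable {D : Eis}

/-- the primes in the conductor of the cubic character -/
noncomputable def Sc (F : Fac D) : Finset Eis := F.S.filter fun p => ¬ 3 ∣ F.E p

/-- the cubic character `∏ (x / p)_3 ^ E(p)` -/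
noncomputable def cc (F : Fac D) (x : Eis) : ℂ := ∏ p ∈ Sc F, cr p x ^ F.E p

/-- the primes in the conductor of the cubic character but not in the one of the quadratic character -/
noncomputable def TT {D₁ : Eis} (F : Fac D) (Q : QD D₁) : Finset Eis := (Sc F).filter fun p => ¬ p ∣ Q.L.f

/-- `L` is the level of `D` -/
structure IsL {D₁ : Eis} (F : Fac D) (Q : QD D₁) (L : Lev) : Prop where
  hf : L.f = Q.L.f * ∏ p ∈ TT F Q, p
  hq : ∀ x, IsCoprime x L.f → L.q x = Q.L.q x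
  hep : L.ep = Q.L.ep
  hk : L.k = 2 - mn F.Ds
  hc : ∀ x, IsCoprime x L.f → L.c x = cc F x

end JGL
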