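import Pool.Agent.JGL.Ba
import Pool.Agent.JGL.D0

/-!
# [JGL-D3] the value of the quadratic character at `λ`

PROOF. Notation `d = t² - 4 n`. `qla_even`: `ep = 0`: `¬ la ∣ d` (`Q.ram la`: `la` does not divide the primary `f`, `ep = 0`), `¬ la ∣ D₁` (`Q.lam`). `Q.split la`: `qi la = q la = 1` iff `la ∣ y² - t y + n` for some `y`, iff (`4 ≡ 1 mod la`) `la ∣ (2 y - t)² - d`, iff `d ≡ 1 mod la` (residues `0, 1, -1`: `la ∣ x`, `la ∣ x - 1` or `la ∣ x + 1`, from `CUL.la_dvd_iff`);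
`d = D₁` or `4 D₁` (`Q.ring`), both `≡ D₁`. `q la = ± 1` (`q_la_pm` in Ba.lean), `sl D₁ = 1` iff `la ∣ D₁ - 1`, `-1` otherwise.
`qla_odd`: `ep = 1`, `D₁ = la d₁`, `¬ la ∣ d₁` (squarefree), `d = la δ`, `δ = d₁` or `4 d₁`, `≡ d₁ mod la`. Choose (`la` is prime to `f`: `la_cop`; CRT) `b ≡ 0 mod f`, `b ≡ 1 mod la`, `a ≡ 1 mod f`, `a ≡ t mod la`, `N = a² + t a b + n b²`. `N ≡ 1 mod f`; `4 N = (2 a + t b)² - d b²`, `la ∣ 2 a + t b` (`3 t`), so `N = la x` with
`x ≡ 4 x ≡ - δ b² ≡ -d₁ mod la`. `q la * q x = q N = q 1 = 1`, so `x` is coprime to `f`. CLAIM: `qi x = sl x * q x = 1`. So `q la = q x = sl x = - sl d₁`.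
CLAIM (`d3_norm`): for all `x` and `a, b` with `la x = a² + t a b + n b²`, `IsCoprime x f`, `¬ la ∣ x`: `qi x = 1`. Strong induction on `N(x)` (`x.norm.natAbs`). If some prime `p ∣ x` has `qi p ≠ 1`: `p` is prime to `f` and to `la`, so `¬ p ∣ d` (`Q.ram`; `p ∣ la` would be `la ∣ p ∣ x`) and there is no `y` with `p ∣ y² - t y + n` (`Q.split`). Then `p ∣ b` (otherwise `b` is invertible modulo `p`:
`b b' ≡ 1`, `y = - a b'` is a root), `p ∣ a²`, `p ∣ a`, so `p² ∣ la x`, `x = p² x'` (`p` prime to `la`), `la x' = ` the norm of `(a/p, b/p)`, `qi x = qi p ^ 2 qi x' = qi x'` (`qi p = ± 1`). Otherwise all primes `p ∣ x` have `qi p = 1` and `qi x = 1` by multiplicativity (induction `induction_on_primes` or over the factorization; units: `qi (-1) = sl (-1) q(-1) = 1`, `qi ω = 1`, `CUL.unit_cases`).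
`sl_mul`, `sl_congr`: residues modulo `la`.
-/

set_option autoImplicit false

open NumberField IsDedekindDomain Filter Topology
open scoped Classical ComplexConjugate

namespace JGL

open CM27 JZ
open CU (la eE)
open CUL (Nl ez si ta DS Cont LV IsRep rp cr mn mo zw OT GalU W3 W9)
open JL (N1 KD sD Psi6)

/-! ### the residue modulo `λ` -/

/-- The residue modulo `λ`. -/
def d3a_s : Eis →+* ZMod 3 where
  toFun x := (x.re : ZMod 3) + (x.im : ZMod 3)
  map_one' := by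
    rw [QuadraticAlgebra.re_one, QuadraticAlgebra.im_one]
    norm_num
  map_zero' := by
    rw [QuadraticAlgebra.re_zero, QuadraticAlgebra.im_zero]
    norm_num
  map_add' x y := by
    rw [QuadraticAlgebra.re_add, QuadraticAlgebra.im_add]
    push_cast
    ring
  map_mul' x y := by
    rw [QuadraticAlgebra.re_mul, QuadraticAlgebra.im_mul]
    push_cast
    have h3 : (3 : ZMod 3) = 0 := by decide
    linear_combination (-(x.im : ZMod 3) * (y.im : ZMod 3)) * h3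

theorem d3a_s_apply (x : Eis) : d3a_s x = (x.re : ZMod 3) + (x.im : ZMod 3) := rfl

theorem d3a_dvd (x : Eis) : la ∣ x ↔ d3a_s x = 0 := by
  rw [CUL.la_dvd_iff, d3a_s_apply]
  have h := ZMod.intCast_zmod_eq_zero_iff_dvd (x.re + x.im) 3
  push_cast at h
  exact h.symm

theorem d3a_cases (z : ZMod 3) : z = 0 ∨ z = 1 ∨ z = -1 := by
  revert z
  decide

theorem d3a_zero {x : Eis} (h : d3a_s x = 0) : sl x = 0 := by
  unfold sl
  rw [if_neg, if_neg]
  · rw [d3a_dvd, map_add, map_one, h]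
    decide
  · rw [d3a_dvd, map_sub, map_one, h]
    decide

theorem d3a_one {x : Eis} (h : d3a_s x = 1) : sl x = 1 := by
  unfold sl
  rw [if_pos]
  rw [d3a_dvd, map_sub, map_one, h]
  decide

theorem d3a_neg {x : Eis} (h : d3a_s x = -1) : sl x = -1 := by
  unfold sl
  rw [if_neg, if_pos]
  · rw [d3a_dvd, map_add, map_one, h]
    decide
  · rw [d3a_dvd, map_sub, map_one, h]
    decide

theorem sl_mul (x y : Eis) : sl (x * y) = sl x * sl y := by
  have hxy : d3a_s (x * y) = d3a_s x * d3a_s y := map_mul _ _ _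
  rcases d3a_cases (d3a_s x) with hx | hx | hx
  · rw [d3a_zero hx, zero_mul, d3a_zero (by rw [hxy, hx, zero_mul])]
  · rcases d3a_cases (d3a_s y) with hy | hy | hy
    · rw [d3a_zero hy, mul_zero, d3a_zero (by rw [hxy, hy, mul_zero])]
    · rw [d3a_one hx, d3a_one hy, d3a_one (by rw [hxy, hx, hy]; decide)]
      norm_num
    · rw [d3a_one hx, d3a_neg hy, d3a_neg (by rw [hxy, hx, hy]; decide)]
      norm_num
  · rcases d3a_cases (d3a_s y) with hy | hy | hy
    · rw [d3a_zero hy, mul_zero, d3a_zero (by rw [hxy, hy, mul_zero])]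
    · rw [d3a_neg hx, d3a_one hy, d3a_neg (by rw [hxy, hx, hy]; decide)]
      norm_num
    · rw [d3a_neg hx, d3a_neg hy, d3a_one (by rw [hxy, hx, hy]; decide)]
      norm_num

theorem d3a_eq {x y : Eis} (h : d3a_s x = d3a_s y) : sl x = sl y := by
  rcases d3a_cases (d3a_s y) with hy | hy | hy
  · rw [d3a_zero hy, d3a_zero (h.trans hy)]
  · rw [d3a_one hy, d3a_one (h.trans hy)]
  · rw [d3a_neg hy, d3a_neg (h.trans hy)]

theorem sl_congr {x y : Eis} (h : la ∣ x - y) : sl x = sl y := by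
  rw [d3a_dvd, map_sub, sub_eq_zero] at h
  exact d3a_eq h

theorem sl_cases (x : Eis) : (la ∣ x ∧ sl x = 0) ∨ (la ∣ x - 1 ∧ sl x = 1) ∨ (la ∣ x + 1 ∧ sl x = -1) := by
  rcases d3a_cases (d3a_s x) with hx | hx | hx
  · exact Or.inl ⟨(d3a_dvd x).2 hx, d3a_zero hx⟩
  · exact Or.inr (Or.inl ⟨by rw [d3a_dvd, map_sub, map_one, hx]; decide, d3a_one hx⟩)
  · exact Or.inr (Or.inr ⟨by rw [d3a_dvd, map_add, map_one, hx]; decide, d3a_neg hx⟩)

theorem qi_mul (L : Lev) (x y : Eis) : L.qi (x * y) = L.qi x * L.qi y := by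
  unfold Lev.qi
  split_ifs
  · exact L.q_mul x y
  · rw [L.q_mul, sl_mul]
    ring

theorem qi_unit (L : Lev) {u : Eis} (hu : IsUnit u) : L.qi u = 1 := by
  have h1 : L.qi 1 = 1 := by
    unfold Lev.qi
    rw [q_one, d3a_one (map_one _)]
    norm_num
  have h2 : L.qi (-1) = 1 := by
    unfold Lev.qi
    rw [L.q_neg, d3a_neg (by rw [map_neg, map_one])]
    rcases L.hep with h | h
    · rw [if_pos h, h, pow_zero]
    · rw [if_neg (by omega), h, pow_one]
      norm_num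
  have h3 : L.qi CU.om = 1 := by
    unfold Lev.qi
    rw [L.q_om, d3a_one (by rw [d3a_s_apply]; decide)]
    norm_num
  have h4 : L.qi (CU.om ^ 2) = 1 := by rw [pow_two, qi_mul, h3, mul_one]
  have h5 : ∀ x, L.qi (-x) = L.qi x := fun x => by
    rw [← neg_one_mul, qi_mul, h2, one_mul]
  rcases CUL.unit_cases hu with rfl | rfl | rfl | rfl | rfl | rfl
  · exact h1
  · exact h2
  · exact h3
  · rw [h5, h3]
  · exact h4
  · rw [h5, h4]

theorem d3a_four (x : Eis) : d3a_s (4 * x) = d3a_s x := by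
  have h4 : d3a_s 4 = 1 := by rw [d3a_s_apply]; decide
  rw [map_mul, h4, one_mul]

theorem d3a_disc {D₁ : Eis} (Q : QD D₁) : d3a_s (Q.t ^ 2 - 4 * Q.n) = d3a_s D₁ := by
  rcases Q.ring with h | ⟨h1, h2, -⟩
  · rw [h]
  · rw [h1, h2]
    have h3 : (0 : Eis) ^ 2 - 4 * -D₁ = 4 * D₁ := by ring
    rw [h3, d3a_four]

theorem qla_even {D₁ : Eis} (Q : QD D₁) (h : Q.L.ep = 0) : Q.L.q la = sl D₁ := by
  have hD : d3a_s D₁ ≠ 0 := fun h0 => by
    have h1 := Q.lam.1 ((d3a_dvd _).2 h0)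
    omega
  have hnd : ¬ la ∣ Q.t ^ 2 - 4 * Q.n := by
    rw [d3a_dvd, d3a_disc]
    exact hD
  have hs := Q.split la CUL.la_prime hnd
  have hqi : Q.L.qi la = Q.L.q la := by
    unfold Lev.qi
    rw [if_pos h]
  rw [hqi] at hs
  have key : (∃ y : Eis, la ∣ y ^ 2 - Q.t * y + Q.n) ↔ d3a_s D₁ = 1 := by
    have h1 := d3a_disc Q
    have h2 : d3a_s (Q.t ^ 2 - 4 * Q.n) = d3a_s Q.t ^ 2 - 4 * d3a_s Q.n := by
      rw [map_sub, map_pow, map_mul, map_ofNat]
    rw [h2] at h1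
    have hdec : ∀ t n D : ZMod 3, t ^ 2 - 4 * n = D → D ≠ 0 →
        ((∃ y : ZMod 3, y ^ 2 - t * y + n = 0) ↔ D = 1) := by decide
    rw [← hdec _ _ _ h1 hD]
    constructor
    · rintro ⟨y, hy⟩
      refine ⟨d3a_s y, ?_⟩
      rw [d3a_dvd, map_add, map_sub, map_mul, map_pow] at hy
      exact hy
    · rintro ⟨y, hy⟩
      refine ⟨(y.val : Eis), ?_⟩
      rw [d3a_dvd, map_add, map_sub, map_mul, map_pow, map_natCast, ZMod.natCast_zmod_val]
      exact hy
  rw [key] at hs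
  rcases d3a_cases (d3a_s D₁) with h0 | h0 | h0
  · exact absurd h0 hD
  · rw [d3a_one h0]
    exact hs.2 h0
  · rw [d3a_neg h0]
    rcases q_la_pm Q.L with h1 | h1
    · exact absurd (hs.1 h1) (by rw [h0]; decide)
    · exact h1

/-! ### the norm lemma -/

theorem d3b_pm {L : Lev} (h : L.ep = 1) {x : Eis} (hf : IsCoprime x L.f) (hl : ¬ la ∣ x) :
    L.qi x = 1 ∨ L.qi x = -1 := by
  have h1 : L.qi x = sl x * L.q x := by
    unfold Lev.qi
    rw [if_neg (by omega)]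
  rw [h1]
  rcases sl_cases x with ⟨h2, -⟩ | ⟨-, h2⟩ | ⟨-, h2⟩
  · exact absurd h2 hl
  · rcases L.q_pm x hf with h3 | h3
    · left; rw [h2, h3]; norm_num
    · right; rw [h2, h3]; norm_num
  · rcases L.q_pm x hf with h3 | h3
    · right; rw [h2, h3]; norm_num
    · left; rw [h2, h3]; norm_num

theorem d3b_norm_pos {x : Eis} (hx : x ≠ 0) : 0 < x.norm := by
  rcases lt_trichotomy x.norm 0 with h | h | h
  · exfalso
    rw [norm_eq] at h
    nlinarith [sq_nonneg (2 * x.re - x.im), sq_nonneg x.im]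
  · exfalso
    apply hx
    rw [norm_eq] at h
    have h1 : x.im = 0 := by
      have : x.im ^ 2 ≤ 0 := by nlinarith [sq_nonneg (2 * x.re - x.im)]
      nlinarith [sq_nonneg x.im]
    have h2 : x.re = 0 := by
      rw [h1] at h
      nlinarith [sq_nonneg x.re]
    exact QuadraticAlgebra.ext h2 h1
  · exact h

theorem d3b_norm_lt {p y : Eis} (hp : ¬ IsUnit p) (hp0 : p ≠ 0) (hy : y ≠ 0) :
    y.norm.natAbs < (p * y).norm.natAbs := by
  have h1 := d3b_norm_pos hp0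
  have h2 := d3b_norm_pos hy
  have h3 : p.norm ≠ 1 := fun h => hp ((eis_isUnit_iff p).2 h)
  have h4 : (p * y).norm = p.norm * y.norm := map_mul _ _ _
  rw [h4]
  have h6 : 2 ≤ p.norm := by omega
  have h5 : y.norm < p.norm * y.norm := by nlinarith
  omega

theorem d3b_all {L : Lev} : ∀ (N : ℕ) (x : Eis), x.norm.natAbs ≤ N → x ≠ 0 →
    (∀ p : Eis, Prime p → p ∣ x → L.qi p = 1) → L.qi x = 1 := by
  have hdom := eis_isDomain
  have hpid : IsPrincipalIdealRing Eis := eis_pid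
  intro N
  induction N with
  | zero =>
    intro x hx h0
    have := d3b_norm_pos h0
    omega
  | succ N ih =>
    intro x hx h0 h
    by_cases hu : IsUnit x
    · exact qi_unit L hu
    · obtain ⟨p, hpi, hpx⟩ := WfDvdMonoid.exists_irreducible_factor hu h0
      have hp : Prime p := UniqueFactorizationMonoid.irreducible_iff_prime.1 hpi
      obtain ⟨y, rfl⟩ := hpx
      have hy : y ≠ 0 := fun hy => h0 (by rw [hy, mul_zero])
      have h1 := d3b_norm_lt hp.not_isUnit hp.ne_zero hy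
      rw [qi_mul, h p hp (dvd_mul_right _ _), one_mul]
      exact ih y (by omega) hy fun q hq hqy => h q hq (hqy.mul_left p)

theorem d3b_main {D₁ : Eis} (Q : QD D₁) (h : Q.L.ep = 1) : ∀ (N : ℕ) (x a b : Eis), x.norm.natAbs ≤ N →
    la * x = a ^ 2 + Q.t * a * b + Q.n * b ^ 2 → IsCoprime x Q.L.f → ¬ la ∣ x → Q.L.qi x = 1 := by
  have hdom := eis_isDomain
  have hpid : IsPrincipalIdealRing Eis := eis_pid
  intro N
  induction N with
  | zero =>
    intro x a b hx _ _ hl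
    have h0 : x ≠ 0 := fun h0 => hl (by rw [h0]; exact dvd_zero _)
    have := d3b_norm_pos h0
    omega
  | succ N ih =>
    intro x a b hN hx hf hl
    have h0 : x ≠ 0 := fun h0 => hl (by rw [h0]; exact dvd_zero _)
    by_cases hall : ∀ p : Eis, Prime p → p ∣ x → Q.L.qi p = 1
    · exact d3b_all x.norm.natAbs x le_rfl h0 hall
    push Not at hall
    obtain ⟨p, hp, hpx, hq⟩ := hall
    have hpf : IsCoprime p Q.L.f := hf.of_isCoprime_of_dvd_left hpx
    have hlp : ¬ la ∣ p := fun h1 => hl (h1.trans hpx)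
    have hpl : ¬ p ∣ la := fun h1 => hlp
      ((hp.dvd_prime_iff_associated CUL.la_prime).1 h1).symm.dvd
    have hpd : ¬ p ∣ Q.t ^ 2 - 4 * Q.n := by
      rw [Q.ram p hp]
      rintro (h1 | ⟨-, h1⟩)
      · exact hp.not_isUnit (hpf.isUnit_of_dvd' dvd_rfl h1)
      · exact hpl h1
    have hns : ¬ ∃ y : Eis, p ∣ y ^ 2 - Q.t * y + Q.n := fun h1 => hq ((Q.split p hp hpd).2 h1)
    have hpN : p ∣ a ^ 2 + Q.t * a * b + Q.n * b ^ 2 := by
      rw [← hx]
      exact hpx.mul_left la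
    have hpb : p ∣ b := by
      by_contra hpb
      apply hns
      have hco : IsCoprime p b := (hp.irreducible.coprime_iff_not_dvd).2 hpb
      obtain ⟨u, v, huv⟩ := hco
      refine ⟨-(a * v), ?_⟩
      have h1 : (-(a * v)) ^ 2 - Q.t * (-(a * v)) + Q.n =
          v ^ 2 * (a ^ 2 + Q.t * a * b + Q.n * b ^ 2) +
            p * (Q.t * a * v * u + Q.n * u * (1 + v * b)) := by
        have h2 : v * b = 1 - u * p := by rw [← huv]; ring
        have h3 : (v * b) ^ 2 = (1 - u * p) * (v * b) := by rw [pow_two, h2]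
        linear_combination (-(Q.t * a * v) - Q.n * (1 + v * b)) * h2
      rw [h1]
      exact dvd_add (hpN.mul_left _) (dvd_mul_right _ _)
    have hpa : p ∣ a := by
      have h1 : p ∣ a ^ 2 := by
        have h2 : a ^ 2 = (a ^ 2 + Q.t * a * b + Q.n * b ^ 2) - b * (Q.t * a + Q.n * b) := by ring
        rw [h2]
        exact dvd_sub hpN (hpb.mul_right _)
      exact hp.dvd_of_dvd_pow h1
    obtain ⟨a', rfl⟩ := hpa
    obtain ⟨b', rfl⟩ := hpb
    obtain ⟨x₁, rfl⟩ := hpx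
    have h1 : la * x₁ = p * (a' ^ 2 + Q.t * a' * b' + Q.n * b' ^ 2) := by
      refine mul_left_cancel₀ hp.ne_zero ?_
      linear_combination hx
    have h2 : p ∣ x₁ := by
      have h3 : p ∣ la * x₁ := by
        rw [h1]
        exact dvd_mul_right _ _
      exact (hp.dvd_or_dvd h3).resolve_left hpl
    obtain ⟨x', rfl⟩ := h2
    have h3 : la * x' = a' ^ 2 + Q.t * a' * b' + Q.n * b' ^ 2 := by
      refine mul_left_cancel₀ hp.ne_zero ?_
      linear_combination h1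
    have hx1 : p * x' ≠ 0 := fun h4 => h0 (by rw [h4, mul_zero])
    have hx' : x' ≠ 0 := fun h4 => hx1 (by rw [h4, mul_zero])
    have l1 := d3b_norm_lt hp.not_isUnit hp.ne_zero hx'
    have l2 := d3b_norm_lt hp.not_isUnit hp.ne_zero hx1
    have hf' : IsCoprime x' Q.L.f := hf.of_isCoprime_of_dvd_left ⟨p * p, by ring⟩
    have hl' : ¬ la ∣ x' := fun h4 => hl ((h4.mul_left p).mul_left p)
    have ihx := ih x' a' b' (by omega) h3 hf' hl'
    rw [qi_mul, qi_mul, ihx, mul_one]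
    rcases d3b_pm h hpf hlp with h5 | h5 <;> rw [h5] <;> norm_num

theorem d3_norm {D₁ : Eis} (Q : QD D₁) (h : Q.L.ep = 1) {x a b : Eis} (hx : la * x = a ^ 2 + Q.t * a * b + Q.n * b ^ 2)
    (hf : IsCoprime x Q.L.f) (hl : ¬ la ∣ x) : Q.L.qi x = 1 :=
  d3b_main Q h x.norm.natAbs x a b le_rfl hx hf hl

theorem qla_odd {D₁ d : Eis} (Q : QD D₁) (h : Q.L.ep = 1) (hd : D₁ = la * d) : Q.L.q la = -sl d := by
  have hdom := eis_isDomain
  have hlp : Prime la := CUL.la_prime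
  have hld : ¬ la ∣ d := by
    rintro ⟨c, rfl⟩
    have h1 : IsUnit la := Q.sqf la ⟨c, by rw [hd]; ring⟩
    exact hlp.not_isUnit h1
  obtain ⟨δ, hδ, hδs⟩ : ∃ δ, Q.t ^ 2 - 4 * Q.n = la * δ ∧ d3a_s δ = d3a_s d := by
    rcases Q.ring with h1 | ⟨h1, h2, -⟩
    · exact ⟨d, by rw [h1, hd], rfl⟩
    · refine ⟨4 * d, ?_, d3a_four d⟩
      rw [h1, h2, hd]
      ring
  obtain ⟨u, v, huv⟩ := la_cop Q.L
  let b : Eis := v * Q.L.f
  let a : Eis := u * la + Q.t * (v * Q.L.f)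
  have hsla : d3a_s la = 0 := (d3a_dvd la).1 dvd_rfl
  have hsb : d3a_s b = 1 := by
    have h1 := congrArg d3a_s huv
    rw [map_add, map_mul, hsla, mul_zero, zero_add, map_one] at h1
    exact h1
  have hsa : d3a_s a = d3a_s Q.t := by
    show d3a_s (u * la + Q.t * b) = _
    rw [map_add, map_mul, hsla, mul_zero, zero_add, map_mul, hsb, mul_one]
  have h2ab : la ∣ 2 * a + Q.t * b := by
    rw [d3a_dvd, map_add, map_mul, map_mul, hsa, hsb, map_ofNat]
    have hdec : ∀ t : ZMod 3, 2 * t + t * 1 = 0 := by decide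
    exact hdec _
  obtain ⟨c, hc⟩ := h2ab
  have h4N : 4 * (a ^ 2 + Q.t * a * b + Q.n * b ^ 2) = la * (la * c ^ 2 - δ * b ^ 2) := by
    have h1 : 4 * (a ^ 2 + Q.t * a * b + Q.n * b ^ 2) =
        (2 * a + Q.t * b) ^ 2 - (Q.t ^ 2 - 4 * Q.n) * b ^ 2 := by ring
    rw [h1, hc, hδ]
    ring
  have hlN : la ∣ a ^ 2 + Q.t * a * b + Q.n * b ^ 2 := by
    have h1 : la ∣ 4 * (a ^ 2 + Q.t * a * b + Q.n * b ^ 2) := by
      rw [h4N]
      exact dvd_mul_right _ _
    refine (hlp.dvd_or_dvd h1).resolve_left ?_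
    rw [d3a_dvd, d3a_s_apply]
    decide
  obtain ⟨x, hx⟩ := hlN
  have h4x : 4 * x = la * c ^ 2 - δ * b ^ 2 := by
    refine mul_left_cancel₀ hlp.ne_zero ?_
    rw [← h4N, hx]
    ring
  have hsx : d3a_s x = -d3a_s d := by
    rw [← d3a_four x, h4x, map_sub, map_mul, hsla, zero_mul, map_mul, map_pow, hsb, hδs]
    ring
  have hsd : d3a_s d ≠ 0 := fun h1 => hld ((d3a_dvd d).2 h1)
  have hlx : ¬ la ∣ x := by
    rw [d3a_dvd, hsx, neg_eq_zero]
    exact hsd
  have hN1 : Q.L.f ∣ la * x - 1 := by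
    rw [← hx]
    have h1 : u * la = 1 - v * Q.L.f := by rw [← huv]; ring
    refine ⟨(-2 * v + v * (v * Q.L.f)) + 2 * (1 - v * Q.L.f) * Q.t * v + Q.t ^ 2 * v ^ 2 * Q.L.f +
      Q.t * (1 - v * Q.L.f + Q.t * (v * Q.L.f)) * v + Q.n * v ^ 2 * Q.L.f, ?_⟩
    show (u * la + Q.t * (v * Q.L.f)) ^ 2 + Q.t * (u * la + Q.t * (v * Q.L.f)) * (v * Q.L.f) +
      Q.n * (v * Q.L.f) ^ 2 - 1 = _
    rw [h1]
    ring
  have hfx : IsCoprime x Q.L.f := by
    obtain ⟨k, hk⟩ := hN1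
    exact ⟨la, -k, by linear_combination hk⟩
  have h5 := d3_norm Q h hx.symm hfx hlx
  have h6 : Q.L.qi x = sl x * Q.L.q x := by
    unfold Lev.qi
    rw [if_neg (by omega)]
  rw [h6] at h5
  have h7 : Q.L.q la * Q.L.q x = 1 := by
    rw [← Q.L.q_mul, Q.L.q_per _ _ hN1, q_one]
  have h8 : sl x = - sl d := by
    have h9 : sl x = sl (-d) := d3a_eq (by rw [hsx, map_neg])
    rw [h9, ← neg_one_mul, sl_mul, d3a_neg (by rw [map_neg, map_one]), neg_one_mul]
  rw [← h8]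
  rcases Q.L.q_pm x hfx with h9 | h9
  · rw [h9, mul_one] at h5 h7
    rw [h5, h7]
  · rw [h9] at h5 h7
    omega

end JGL
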