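import Pool.Agent.JGL.B
import Pool.Agent.JGL.T
import Pool.Agent.CUT.X1
import Pool.Agent.CUT.L5

/-!
# [JGL-G] rationality
-/

set_option autoImplicit false

open NumberField IsDedekindDomain Filter Topology
open scoped Classical ComplexConjugate

namespace JGL

open CM27 JZ
open CU (la eE)
open CUL (Nl ez si ta DS Cont LV IsRep rp cr mn mo zw OT GalU W3 W9)
open JL (N1 KD sD Psi6)


/-- multiplication by a primary `g` permutes the primary classes modulo `N` -/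
theorem G_perm {W : Finset Eis} {N : Eis} (hprim : ∀ b ∈ W, Primary b)
    (hrep : ∀ a, Primary a → ∃ c ∈ W, N ∣ a - c) (hinj : ∀ b ∈ W, ∀ c ∈ W, N ∣ b - c → b = c)
    {g : Eis} (hg : Primary g) (hcop : IsCoprime N g) (G : Eis → ℂ)
    (hG : ∀ a b, Primary a → N ∣ a - b → G a = G b) : ∑ b ∈ W, G (g * b) = ∑ b ∈ W, G b := by
  have h1 : ∀ b : Eis, ∃ c : Eis, b ∈ W → c ∈ W ∧ N ∣ g * b - c := by
    intro b
    by_cases hb : b ∈ W
    · obtain ⟨c, hc, hd⟩ := hrep _ (CUL.primary_mul hg (hprim b hb))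
      exact ⟨c, fun _ => ⟨hc, hd⟩⟩
    · exact ⟨0, fun h => absurd h hb⟩
  choose f hf using h1
  have hinj' : ∀ b ∈ W, ∀ b' ∈ W, f b = f b' → b = b' := by
    intro b hb b' hb' he
    have h2 := (hf b hb).2
    have h3 := (hf b' hb').2
    rw [← he] at h3
    apply hinj b hb b' hb'
    have h4 : N ∣ g * (b - b') := by
      have e : g * (b - b') = (g * b - f b) - (g * b' - f b) := by ring
      rw [e]
      exact dvd_sub h2 h3
    exact hcop.dvd_of_dvd_mul_left h4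
  have himg : W.image f = W := by
    apply Finset.eq_of_subset_of_card_le
    · intro c hc
      obtain ⟨b, hb, rfl⟩ := Finset.mem_image.1 hc
      exact (hf b hb).1
    · rw [Finset.card_image_of_injOn (fun b hb b' hb' he => hinj' b hb b' hb' he)]
  calc ∑ b ∈ W, G (g * b) = ∑ b ∈ W, G (f b) :=
        Finset.sum_congr rfl fun b hb => hG _ _ (CUL.primary_mul hg (hprim b hb)) (hf b hb).2
    _ = ∑ c ∈ W.image f, G c := (Finset.sum_image fun b hb b' hb' he => hinj' b hb b' hb' he).symm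
    _ = ∑ b ∈ W, G b := by rw [himg]

theorem G_ka_mul (a i : ZMod 3) {x y : Eis} (hx : Primary x) (hy : Primary y) :
    ka a i (x * y) = ka a i x * ka a i y := by
  unfold ka
  rw [← CUL.zw_add, CUL.tx1_mo_mul hx hy, CUL.x1_mn_mul hx hy]
  congr 1
  ring

theorem G_ka_conj (a i : ZMod 3) (x : Eis) : ka a i x * conj (ka a i x) = 1 := by
  unfold ka
  rw [CUL.zw_conj, ← CUL.zw_add, add_neg_cancel, CUL.zw_zero]

theorem G_ka_sigma (σ : ℂ ≃+* ℂ) (hσ : σ w = w) (a i : ZMod 3) (x : Eis) : σ (ka a i x) = ka a i x := by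
  unfold ka
  exact CUL.sigma_zw σ hσ _

theorem G_emb_f (L : Lev) : emb L.f ≠ 0 := by
  intro h
  exact f_ne L (emb_injective (by rw [h, map_zero]))

theorem G_pt_congr (L : Lev) {x y : Eis} (h : L.f ∣ x - y) : ∃ k : Eis, pt L x = pt L y + emb k := by
  obtain ⟨k, hk⟩ := h
  refine ⟨k, ?_⟩
  have h3 : x = y + L.f * k := by linear_combination hk
  unfold pt
  rw [h3, map_add, map_mul, add_div, mul_div_cancel_left₀ _ (G_emb_f L)]

/-- the Galois action on the kernel -/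
theorem G_kernel (L : Lev) {W : Finset Eis} {N : Eis} (hprim : ∀ b ∈ W, Primary b)
    (hrep : ∀ a, Primary a → ∃ c ∈ W, N ∣ a - c) (hinj : ∀ b ∈ W, ∀ c ∈ W, N ∣ b - c → b = c)
    (hN : N ≠ 0) (a i : ZMod 3) (hka : ∀ x y, Primary x → N ∣ x - y → ka a i x = ka a i y)
    (σ : ℂ ≃+* ℂ) (hσ : σ w = w) {g : Eis} (hg : GalU σ (L.f * N) g) (α : Eis) :
    σ (∑ b ∈ W, ka a i b * ez (pt L α + emb b / emb N)) =
      conj (ka a i g) * ∑ b ∈ W, ka a i b * ez (pt L (g * α) + emb b / emb N) := by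
  have := eis_isDomain
  have hM : L.f * N ≠ 0 := mul_ne_zero (f_ne L) hN
  have hN0 : emb N ≠ 0 := fun h0 => hN (emb_injective (by rw [h0, map_zero]))
  have e1 : ∀ β c : Eis, emb (N * β + L.f * c) / emb (L.f * N) = pt L β + emb c / emb N := by
    intro β c
    have hf := G_emb_f L
    unfold pt
    rw [map_add, map_mul, map_mul, map_mul]
    field_simp
  have e2 : ∀ b : Eis, σ (ez (pt L α + emb b / emb N)) = ez (pt L (g * α) + emb (g * b) / emb N) := by
    intro b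
    have h2 : g * (N * α + L.f * b) = N * (g * α) + L.f * (g * b) := by ring
    rw [← e1, CUL.ez_gal σ hσ hM hg, h2, e1]
  obtain ⟨G, hGdef⟩ : ∃ G : Eis → ℂ, G = fun c => ka a i c * ez (pt L (g * α) + emb c / emb N) := ⟨_, rfl⟩
  have hG : ∀ x y, Primary x → N ∣ x - y → G x = G y := by
    intro x y hx hxy
    rw [hGdef]
    simp only
    rw [hka x y hx hxy]
    obtain ⟨k, hk⟩ := hxy
    have h2 : pt L (g * α) + emb x / emb N = pt L (g * α) + emb y / emb N + emb k := by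
      have h3 : x = y + N * k := by linear_combination hk
      rw [h3, map_add emb y, map_mul emb N k, add_div, mul_div_cancel_left₀ _ hN0]
      ring
    rw [h2, CUL.ez_add_emb]
  have h1 : ∀ b ∈ W, σ (ka a i b * ez (pt L α + emb b / emb N)) = conj (ka a i g) * G (g * b) := by
    intro b hb
    rw [map_mul, G_ka_sigma σ hσ, e2, hGdef]
    simp only
    rw [G_ka_mul a i hg.1 (hprim b hb)]
    linear_combination (-(ka a i b * ez (pt L (g * α) + emb (g * b) / emb N))) * G_ka_conj a i g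
  have h2 : ∑ b ∈ W, ka a i b * ez (pt L (g * α) + emb b / emb N) = ∑ b ∈ W, G b := by rw [hGdef]
  have hcop : IsCoprime N g := (hg.2.1.of_isCoprime_of_dvd_right (dvd_mul_left N L.f)).symm
  rw [map_sum, Finset.sum_congr rfl h1, ← Finset.mul_sum, G_perm hprim hrep hinj hg.1 hcop G hG, h2]

theorem G_sum (L : Lev) (σ : ℂ ≃+* ℂ) (hσ : σ w = w) {g : Eis} (hg : IsCoprime g L.f) (H : ℂ → ℂ) (κ : ℂ)
    (hper : ∀ (x : ℂ) (k : Eis), H (x + emb k) = H x) (hH : ∀ α, σ (H (pt L α)) = κ * H (pt L (g * α))) :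
    σ (∑ α ∈ rp L.f, conj (L.chi α) * H (pt L α)) = κ * L.chi g * ∑ α ∈ rp L.f, conj (L.chi α) * H (pt L α) := by
  have hR := CUL.rp_spec (f_ne L)
  obtain ⟨F, hF⟩ : ∃ F : Eis → ℂ, F = fun α => conj (L.chi α) * H (pt L α) := ⟨_, rfl⟩
  have hFc : ∀ x y, L.f ∣ x - y → F x = F y := by
    intro x y hxy
    obtain ⟨k, hk⟩ := G_pt_congr L hxy
    rw [hF]
    simp only
    rw [chi_per L hxy, hk, hper]
  have h0 : ∑ α ∈ rp L.f, conj (L.chi α) * H (pt L α) = ∑ α ∈ rp L.f, F α := by rw [hF]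
  have h2 : ∑ α ∈ rp L.f, F (g * α) = ∑ α ∈ rp L.f, F α := hR.sum_mul hg _ hFc
  have h3 : ∀ α, σ (F α) = κ * L.chi g * F (g * α) := by
    intro α
    rw [hF]
    simp only
    have h5 : σ (conj (L.chi α)) = conj (L.chi α) := by
      unfold Lev.chi
      rw [map_mul, map_mul, (c_sigma L σ hσ α).2, map_intCast (starRingEnd ℂ), map_intCast]
    rw [map_mul, h5, hH, chi_mul, map_mul (starRingEnd ℂ)]
    have h4 := chi_conj L hg
    linear_combination (-(conj (L.chi α) * (κ * H (pt L (g * α))))) * h4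
  rw [h0, map_sum, Finset.sum_congr rfl fun α _ => h3 α, ← Finset.mul_sum, h2]

theorem G_ka_zero (x : Eis) : ka 0 0 x = 1 := by
  unfold ka
  rw [zero_mul, zero_mul, add_zero, CUL.zw_zero]

theorem G_nine : (9 : Eis) = la ^ 3 * (la * CU.om) := by decide

theorem G_three : (3 : Eis) = la ^ 2 * (-CU.om ^ 2) := by decide

theorem G_V2 (L : Lev) (σ : ℂ ≃+* ℂ) (hσ : σ w = w) {g : Eis} (hg : GalU σ (L.f * la ^ 2) g) :
    σ (V2 L) = conj (ka 0 0 g) * L.chi g * V2 L := by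
  have := eis_isDomain
  unfold V2
  have hk := G_kernel L (W := {1}) (N := la ^ 2)
    (fun b hb => by
      rw [Finset.mem_singleton] at hb
      rw [hb]
      exact CUL.primary_one)
    (fun a ha => ⟨1, Finset.mem_singleton_self 1, by
      have h1 := ha
      unfold Primary at h1
      rw [G_three] at h1
      exact (dvd_mul_right _ _).trans h1⟩)
    (fun b hb c hc _ => by
      rw [Finset.mem_singleton] at hb hc
      rw [hb, hc])
    (pow_ne_zero _ CU.la_prime.ne_zero) 0 0 (fun x y _ _ => by rw [G_ka_zero, G_ka_zero]) σ hσ hg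
  refine G_sum L σ hσ (hg.2.1.of_isCoprime_of_dvd_right (dvd_mul_right _ _)) (fun x => ez (x + si)) _ ?_ ?_
  · intro x k
    rw [add_right_comm, CUL.ez_add_emb]
  · intro α
    have h1 := hk α
    rw [Finset.sum_singleton, Finset.sum_singleton, G_ka_zero, one_mul, one_mul, map_one, map_pow] at h1
    exact h1

theorem G_V3 (L : Lev) (i : ZMod 3) (σ : ℂ ≃+* ℂ) (hσ : σ w = w) {g : Eis} (hg : GalU σ (L.f * la ^ 3) g) :
    σ (V3 L i) = conj (ka 0 i g) * L.chi g * V3 L i := by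
  have := eis_isDomain
  unfold V3
  have hk := G_kernel L (W := W3) (N := la ^ 3) (fun b hb => CUL.l5_prim hb) (fun a ha => CUL.l5_rep ha)
    (fun b hb c hc h => CUL.l5_inj hb hc h) (pow_ne_zero _ CU.la_prime.ne_zero) 0 i
    (fun x y hx hxy => by
      unfold ka
      rw [CUL.x1_mn_congr hx hxy, zero_mul, zero_mul]) σ hσ hg
  refine G_sum L σ hσ (hg.2.1.of_isCoprime_of_dvd_right (dvd_mul_right _ _))
    (fun x => ∑ b ∈ W3, ka 0 i b * ez (x + emb b / emb la ^ 3)) _ ?_ ?_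
  · intro x k
    refine Finset.sum_congr rfl fun b _ => ?_
    rw [add_right_comm, CUL.ez_add_emb]
  · intro α
    have h1 := hk α
    rw [map_pow] at h1
    exact h1

theorem G_V4 (L : Lev) (a i : ZMod 3) (σ : ℂ ≃+* ℂ) (hσ : σ w = w) {g : Eis} (hg : GalU σ (L.f * 9) g) :
    σ (V4 L a i) = conj (ka a i g) * L.chi g * V4 L a i := by
  have := eis_isDomain
  unfold V4
  have hk := G_kernel L (W := W9) (N := 9) (fun b hb => CUL.tl5_prim hb) (fun a ha => CUL.tl5_rep ha)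
    (fun b hb c hc h => CUL.tl5_inj hb hc h) (by decide) a i
    (fun x y hx hxy => by
      unfold ka
      rw [CUL.tx1_mo_congr hx hxy, CUL.x1_mn_congr hx (Dvd.dvd.trans (by rw [G_nine]; exact dvd_mul_right _ _) hxy)])
    σ hσ hg
  refine G_sum L σ hσ (hg.2.1.of_isCoprime_of_dvd_right (dvd_mul_right _ _))
    (fun x => ∑ b ∈ W9, ka a i b * ez (x + emb b / 9)) _ ?_ ?_
  · intro x k
    refine Finset.sum_congr rfl fun b _ => ?_
    rw [add_right_comm, CUL.ez_add_emb]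
  · intro α
    have h1 := hk α
    rw [map_ofNat] at h1
    exact h1

theorem G_VV (L : Lev) (a i : ZMod 3) (σ : ℂ ≃+* ℂ) (hσ : σ w = w) {g : Eis} (hg : GalU σ (L.f * 9) g) :
    σ (VV L a i) = conj (ka a i g) * L.chi g * VV L a i := by
  have := eis_isDomain
  have hM : L.f * 9 ≠ 0 := mul_ne_zero (f_ne L) (by decide)
  unfold VV
  by_cases ha : a = 0
  · rw [if_pos ha]
    by_cases hi : i = 0
    · rw [if_pos hi, ha, hi]
      refine G_V2 L σ hσ (hg.dvd hM (mul_dvd_mul_left _ ?_))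
      rw [G_nine]
      exact ⟨la * (la * CU.om), by ring⟩
    · rw [if_neg hi, ha]
      refine G_V3 L i σ hσ (hg.dvd hM (mul_dvd_mul_left _ ?_))
      rw [G_nine]
      exact dvd_mul_right _ _
  · rw [if_neg ha]
    exact G_V4 L a i σ hσ hg

theorem b_mem (L : Lev) (a i : ZMod 3) {s t : ℂ} (ht0 : t ≠ 0) (hs : GalS L s) (ht : GalT L a i t) :
    VV L a i * s / t ∈ CF.KK := by
  have := eis_isDomain
  obtain ⟨M₁, hM₁, h₁⟩ := hs
  obtain ⟨M₂, hM₂, h₂⟩ := ht
  have h9 : (9 : Eis) ≠ 0 := by decide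
  refine CUL.fixed_KK _ fun σ hσ => ?_
  have hM : M₁ * M₂ * (L.f * 9) ≠ 0 := mul_ne_zero (mul_ne_zero hM₁ hM₂) (mul_ne_zero (f_ne L) h9)
  obtain ⟨g, hg⟩ := CUL.exists_galU σ hσ _ hM
  have hs' := h₁ σ hσ _ g hM ⟨M₂ * (L.f * 9), by ring⟩ hg
  have ht' := h₂ σ hσ _ g hM ⟨M₁ * (L.f * 9), by ring⟩ hg
  have hg9 : GalU σ (L.f * 9) g := hg.dvd hM (dvd_mul_left _ _)
  have hc : IsCoprime g L.f := hg9.2.1.of_isCoprime_of_dvd_right (dvd_mul_right _ _)
  have hV := G_VV L a i σ hσ hg9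
  have hq : ((L.q g : ℤ) : ℂ) * ((L.q g : ℤ) : ℂ) = 1 := by
    have h5 := q_sq L hc
    exact_mod_cast h5
  have hc3 : L.c g ≠ 0 := by
    obtain ⟨j, hj⟩ := L.c_cube g hc
    rw [hj]
    exact CUL.zw_ne j
  have hcu : conj (ka a i g) ≠ 0 := by
    intro h0
    have h1 := G_ka_conj a i g
    rw [h0, mul_zero] at h1
    exact zero_ne_one h1
  rw [map_div₀, map_mul, hV, hs', ht', Lev.chi]
  have h7 : conj (ka a i g) * (((L.q g : ℤ) : ℂ) * L.c g) * VV L a i * (((L.q g : ℤ) : ℂ) * s) =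
      (L.c g * conj (ka a i g)) * (VV L a i * s) := by
    linear_combination (conj (ka a i g) * L.c g * (VV L a i * s)) * hq
  rw [h7, mul_div_mul_left _ _ (mul_ne_zero hc3 hcu)]

/-- `M_j / s ∈ K`, `j ≡ ep mod 2` -/
theorem Mo_mem (L : Lev) {R : Finset Eis} (hR : IsR L R) {s : ℂ} (hs0 : s ≠ 0) (hs : GalS L s) {j : ℕ}
    (hj : j % 2 = L.ep) : Mo L R j / s ∈ CF.KK := by
  have := eis_isDomain
  obtain ⟨M₁, hM₁, h₁⟩ := hs
  refine CUL.fixed_KK _ fun σ hσ => ?_
  have hM : M₁ * L.f ≠ 0 := mul_ne_zero hM₁ (f_ne L)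
  obtain ⟨g, hg⟩ := CUL.exists_galU σ hσ _ hM
  have hs' := h₁ σ hσ _ g hM ⟨L.f, by ring⟩ hg
  have hgf : GalU σ L.f g := hg.dvd hM (dvd_mul_left _ _)
  have hc : IsCoprime g L.f := hgf.2.1
  have hqg := q_sq L hc
  obtain ⟨φ, hφ1, -, hφ3⟩ := perm_R L hR hc
  have hth : σ th = th := by
    unfold th
    rw [map_sub, map_pow, hσ]
  have hTm : ∀ c, σ (Tm (pt L c)) = Tm (pt L (g * c)) := by
    intro c
    have h2 := (hgf.2.2 c).2
    unfold Tm ym
    rw [map_div₀, map_neg, hth]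
    unfold pt
    rw [h2]
  have h3 : ∀ c ∈ R, σ ((L.q c : ℂ) * Tm (pt L c) ^ j) =
      (L.q g : ℂ) * ((L.q (φ c) : ℂ) * Tm (pt L (φ c)) ^ j) := by
    intro c hcR
    obtain ⟨-, ζ, hζ, hd⟩ := hφ1 c hcR
    obtain ⟨s₀, j₀, hs₀, hq₀, -, hact⟩ := unit_act L hζ
    have h4 : Tm (pt L (g * c)) = (s₀ : ℂ) * Tm (pt L (φ c)) := by
      have h5 := (pt_congr_xw L hd).2
      have h6 := (hact (φ c)).2
      unfold Tm ym
      rw [h5, h6]
      ring
    have h7 : L.q g * L.q c = s₀ ^ L.ep * L.q (φ c) := by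
      rw [← L.q_mul, L.q_per _ _ hd, L.q_mul, hq₀]
    have h8 : L.q c = L.q g * (s₀ ^ L.ep * L.q (φ c)) := by
      rw [← h7, ← mul_assoc, hqg, one_mul]
    have h9 : s₀ ^ L.ep * s₀ ^ j = 1 := by
      have h10 : Even (L.ep + j) := by
        rw [← hj]
        exact ⟨j % 2 + j / 2, by omega⟩
      rw [← pow_add]
      rcases hs₀ with h | h
      · rw [h, one_pow]
      · rw [h, h10.neg_one_pow]
    have h9' : ((s₀ : ℂ)) ^ L.ep * (s₀ : ℂ) ^ j = 1 := by exact_mod_cast h9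
    rw [map_mul, map_intCast, map_pow, hTm, h4, h8]
    push_cast
    rw [mul_pow]
    linear_combination ((L.q g : ℂ) * (L.q (φ c) : ℂ) * Tm (pt L (φ c)) ^ j) * h9'
  have hq : ((L.q g : ℤ) : ℂ) ≠ 0 := by
    intro h0
    have h1 : L.q g = 0 := by exact_mod_cast h0
    rw [h1, mul_zero] at hqg
    exact zero_ne_one hqg
  have hMo : σ (Mo L R j) = (L.q g : ℂ) * Mo L R j := by
    unfold Mo
    rw [map_sum, Finset.sum_congr rfl h3, ← Finset.mul_sum,
      hφ3 (fun c => (L.q c : ℂ) * Tm (pt L c) ^ j)]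
  rw [map_div₀, hMo, hs', mul_div_mul_left _ _ hq]

end JGL
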