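import Pool.Agent.JGL.B
import Pool.Agent.JGL.To
import Pool.Agent.CUT.X1
import Pool.Agent.CUT.L5

/-!
# [JGL-GL1] good reduction at `λ`: the sum `V1`
-/

set_option autoImplicit false

open NumberField IsDedekindDomain Filter Topology
open scoped Classical ComplexConjugate

namespace JGL

open CM27 JZ
open CU (la eE)
open CUL (Nl ez si ta DS Cont LV IsRep rp cr mn mo zw OT GalU W3 W9)
open JL (N1 KD sD Psi6)

theorem gl1_chi_neg (L : Lev) (hep : L.ep = 1) (x : Eis) : L.chi (-x) = -L.chi x := by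
  have h1 : L.q (-x) = -L.q x := by
    rw [← neg_one_mul, L.q_mul, L.q_neg, hep, pow_one, neg_one_mul]
  unfold Lev.chi
  rw [h1, c_neg]
  push_cast
  ring

theorem gl1_chi_one (L : Lev) : L.chi 1 = 1 := by
  unfold Lev.chi
  rw [q_one, c_one, Int.cast_one, one_mul]

theorem gl1_chi_om (L : Lev) (hk : L.k = 2) : L.chi CU.om = w ^ 2 := by
  unfold Lev.chi
  rw [L.q_om, L.c_om, hk, Int.cast_one, one_mul, CUL.zw_two]

/-- `χ(ζ) ζ = 1` -/
theorem gl1_unit (L : Lev) (hep : L.ep = 1) (hk : L.k = 2) {ζ : Eis} (hζ : IsUnit ζ) : L.chi ζ * emb ζ = 1 := by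
  have hw3 := CUL.w3
  have ho := gl1_chi_om L hk
  have ho2 : L.chi (CU.om ^ 2) = w := by
    rw [pow_two, chi_mul, ho]
    linear_combination w * hw3
  have h1 := gl1_chi_one L
  have hn := gl1_chi_neg L hep
  have e1 : emb CU.om = w := CUL.emb_om
  rcases CUL.unit_cases hζ with rfl | rfl | rfl | rfl | rfl | rfl
  · rw [h1, map_one, one_mul]
  · rw [hn, h1, map_neg, map_one]
    ring
  · rw [ho, e1]
    linear_combination hw3
  · rw [hn, ho, map_neg, e1]
    linear_combination hw3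
  · rw [ho2, map_pow, e1]
    linear_combination hw3
  · rw [hn, ho2, map_neg, map_pow, e1]
    linear_combination hw3

theorem gl1_emb_f (L : Lev) : emb L.f ≠ 0 := CUL.l2_emb_ne (f_ne L)

theorem gl1_pt_congr (L : Lev) {x y : Eis} (h : L.f ∣ x - y) : ∃ k : Eis, pt L x = pt L y + emb k := by
  obtain ⟨k, hk⟩ := h
  refine ⟨k, ?_⟩
  have h3 : x = y + L.f * k := by linear_combination hk
  unfold pt
  rw [h3, map_add, map_mul, add_div, mul_div_cancel_left₀ _ (gl1_emb_f L)]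

theorem gl1_pt_mul (L : Lev) (x y : Eis) : pt L (x * y) = emb x * pt L y := by
  unfold pt
  rw [map_mul, mul_div_assoc]

/-- substitution `α → g α` -/
theorem gl1_sub (L : Lev) {g : Eis} (hg : IsCoprime g L.f) (H : ℂ → ℂ) (hper : ∀ (x : ℂ) (k : Eis), H (x + emb k) = H x) :
    ∑ α ∈ rp L.f, conj (L.chi α) * H (emb g * pt L α) = L.chi g * ∑ α ∈ rp L.f, conj (L.chi α) * H (pt L α) := by
  obtain ⟨F, hF⟩ : ∃ F : Eis → ℂ, F = fun α => conj (L.chi α) * H (pt L α) := ⟨_, rfl⟩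
  have hFc : ∀ x y, L.f ∣ x - y → F x = F y := by
    intro x y hxy
    obtain ⟨k, hk⟩ := gl1_pt_congr L hxy
    rw [hF]
    simp only
    rw [chi_per L hxy, hk, hper]
  have h1 := (CUL.rp_spec (f_ne L)).sum_mul hg F hFc
  have h2 : ∀ α : Eis, conj (L.chi α) * H (emb g * pt L α) = L.chi g * F (g * α) := by
    intro α
    rw [hF]
    simp only
    rw [gl1_pt_mul, chi_mul, map_mul]
    linear_combination (-(conj (L.chi α) * H (emb g * pt L α))) * chi_conj L hg
  rw [Finset.sum_congr rfl fun α _ => h2 α, ← Finset.mul_sum, h1, hF]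

theorem gl1_ez_unit {ζ : Eis} (hζ : IsUnit ζ) (z : ℂ) : emb ζ * ez (emb ζ * z) = ez z := by
  have hw3 := CUL.w3
  have e1 : emb CU.om = w := CUL.emb_om
  rcases CUL.unit_cases hζ with rfl | rfl | rfl | rfl | rfl | rfl
  · rw [map_one, one_mul, one_mul]
  · rw [map_neg, map_one, neg_one_mul, neg_one_mul, CUL.ez_neg, neg_neg]
  · rw [e1, CUL.ez_w]
    linear_combination ez z * hw3
  · rw [map_neg, e1, neg_mul w z, CUL.ez_neg, CUL.ez_w]
    linear_combination ez z * hw3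
  · rw [map_pow, e1, pow_two, mul_assoc w w z, CUL.ez_w, CUL.ez_w]
    linear_combination (ez z * (w ^ 3 + 1)) * hw3
  · rw [map_neg, map_pow, e1, pow_two, neg_mul (w * w) z, CUL.ez_neg, mul_assoc w w z, CUL.ez_w, CUL.ez_w]
    linear_combination (ez z * (w ^ 3 + 1)) * hw3

theorem gl1_unit_cop (L : Lev) {ζ : Eis} (hζ : IsUnit ζ) : IsCoprime ζ L.f := by
  obtain ⟨v, hv⟩ := hζ.exists_left_inv
  exact ⟨v, 0, by rw [hv, zero_mul, add_zero]⟩

/-- the six translates -/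
theorem gl1_six (L : Lev) (hep : L.ep = 1) (hk : L.k = 2) {ζ : Eis} (hζ : IsUnit ζ) :
    ∑ α ∈ rp L.f, conj (L.chi α) * ez (pt L α + emb ζ * si) = V2 L := by
  obtain ⟨ξ, hξ⟩ := hζ.exists_right_inv
  have hξu : IsUnit ξ := IsUnit.of_mul_eq_one ζ (by rw [mul_comm]; exact hξ)
  have he : emb ζ * emb ξ = 1 := by rw [← map_mul, hξ, map_one]
  have h1 : ∀ α : Eis, conj (L.chi α) * ez (pt L α + emb ζ * si) =
      emb ξ * (conj (L.chi α) * ez (emb ξ * pt L α + si)) := by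
    intro α
    have h2 := gl1_ez_unit hζ (emb ξ * pt L α + si)
    have h3 : emb ζ * (emb ξ * pt L α + si) = pt L α + emb ζ * si := by
      linear_combination pt L α * he
    rw [h3] at h2
    rw [← h2]
    linear_combination (-(conj (L.chi α) * ez (pt L α + emb ζ * si))) * he
  have h4 := gl1_sub L (gl1_unit_cop L hξu) (fun x => ez (x + si)) (fun x k => by
    show ez (x + emb k + si) = ez (x + si)
    rw [add_right_comm, CUL.ez_add_emb])
  rw [Finset.sum_congr rfl fun α _ => h1 α, ← Finset.mul_sum]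
  have h5 := gl1_unit L hep hk hξu
  have h6 : ∑ α ∈ rp L.f, conj (L.chi α) * ez (emb ξ * pt L α + si) = L.chi ξ * V2 L := h4
  rw [h6]
  linear_combination V2 L * h5

theorem gl1_la_sq : emb la ^ 2 = -3 * w := by
  rw [CUL.emb_la]
  linear_combination CUL.w2

theorem gl1_three_si : 3 * si = emb (-CU.om ^ 2) := by
  have h1 : emb la ^ 2 ≠ 0 := pow_ne_zero _ CUL.la_ne
  have e1 : emb CU.om = w := CUL.emb_om
  rw [map_neg, map_pow, e1, si, mul_one_div, div_eq_iff h1, gl1_la_sq]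
  linear_combination (-3 : ℂ) * CUL.w3

/-- the distribution relations -/
theorem gl1_V2 (L : Lev) (hep : L.ep = 1) (hk : L.k = 2) :
    6 * V2 L = ((L.chi la * emb la) ^ 2 - L.chi la * emb la) * V1 L := by
  have e1 : emb CU.om = w := CUL.emb_om
  have hw2 := CUL.w2
  have hla : IsCoprime la L.f := la_cop L
  have hta : ta = (1 - w) * si := by rw [← CUL.la_si, CUL.emb_la]
  have h3 := gl1_three_si
  have hz : ∀ z : ℂ, ez (z + emb 1 * si) + ez (z + emb (CU.om ^ 2) * si) + ez (z + emb CU.om * si) +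
      (ez (z + emb (-1) * si) + ez (z + emb (-CU.om) * si) + ez (z + emb (-CU.om ^ 2) * si)) =
      emb la ^ 2 * ez (emb (la ^ 2) * z) - emb la * ez (emb la * z) := by
    intro z
    have a1 := CUL.ez_sum3 (z + si)
    have a2 := CUL.ez_sum3 (z - si)
    have a3 := CUL.ez_sum3 (emb la * z)
    have b1 : emb la * (z + si) = emb la * z + ta := by rw [mul_add, CUL.la_si]
    have b2 : emb la * (z - si) = emb la * z - ta := by rw [mul_sub, CUL.la_si]
    have b3 : emb la * (emb la * z) = emb (la ^ 2) * z := by rw [map_pow]; ring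
    rw [b1] at a1
    rw [b2] at a2
    rw [b3] at a3
    have c1 : z + emb 1 * si = z + si := by rw [map_one, one_mul]
    have c2 : z + si + ta = z + emb (CU.om ^ 2) * si + emb (-CU.om ^ 2) := by
      rw [← h3, map_pow, e1, hta]
      linear_combination (-si) * hw2
    have c3 : z + emb CU.om * si = z + si - ta := by rw [e1, hta]; ring
    have c4 : z + emb (-1) * si = z - si := by rw [map_neg, map_one]; ring
    have c5 : z + emb (-CU.om) * si = z - si + ta := by rw [map_neg, e1, hta]; ring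
    have c6 : z - si - ta = z + emb (-CU.om ^ 2) * si + emb (CU.om ^ 2) := by
      have h4 : emb (CU.om ^ 2) = -(3 * si) := by rw [h3, ← map_neg, neg_neg]
      rw [h4, map_neg, map_pow, e1, hta]
      linear_combination si * hw2
    rw [c2, CUL.ez_add_emb] at a1
    rw [c6, CUL.ez_add_emb] at a2
    rw [c1, c3, c4, c5]
    linear_combination a1 + a2 + emb la * a3
  have hsum : ∑ α ∈ rp L.f, conj (L.chi α) * (ez (pt L α + emb 1 * si) + ez (pt L α + emb (CU.om ^ 2) * si) +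
      ez (pt L α + emb CU.om * si) + (ez (pt L α + emb (-1) * si) + ez (pt L α + emb (-CU.om) * si) +
      ez (pt L α + emb (-CU.om ^ 2) * si))) = 6 * V2 L := by
    have u1 : IsUnit (1 : Eis) := isUnit_one
    have u2 : IsUnit CU.om := CU.om_unit
    have u3 : IsUnit (CU.om ^ 2) := CU.om_unit.pow 2
    simp only [mul_add, Finset.sum_add_distrib]
    rw [gl1_six L hep hk u1, gl1_six L hep hk u2, gl1_six L hep hk u3, gl1_six L hep hk u1.neg,
      gl1_six L hep hk u2.neg, gl1_six L hep hk u3.neg]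
    ring
  have h5 := gl1_sub L (IsCoprime.pow_left (m := 2) hla) ez (fun x k => CUL.ez_add_emb x k)
  have h6 := gl1_sub L hla ez (fun x k => CUL.ez_add_emb x k)
  rw [← hsum, Finset.sum_congr rfl fun α _ => by rw [hz (pt L α)]]
  have h7 : ∑ α ∈ rp L.f, conj (L.chi α) * (emb la ^ 2 * ez (emb (la ^ 2) * pt L α) - emb la * ez (emb la * pt L α)) =
      emb la ^ 2 * (∑ α ∈ rp L.f, conj (L.chi α) * ez (emb (la ^ 2) * pt L α)) -
      emb la * ∑ α ∈ rp L.f, conj (L.chi α) * ez (emb la * pt L α) := by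
    rw [Finset.mul_sum, Finset.mul_sum, ← Finset.sum_sub_distrib]
    exact Finset.sum_congr rfl fun α _ => by ring
  rw [h7, h5, h6, pow_two la, chi_mul]
  unfold V1
  ring

theorem gl1_range_si : emb la ^ 2 * si ∈ Set.range emb := by
  refine ⟨1, ?_⟩
  rw [si, map_one, mul_one_div, div_self (pow_ne_zero _ CUL.la_ne)]

theorem gl1_ne {P : ℂ} (hP : OT P) : xw P ≠ xw si := by
  intro h1
  rcases (xw_eq_iff si _ CUL.nl_si hP.1).1 h1.symm with h2 | h2
  · refine hP.neg.add_nl 2 gl1_range_si ?_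
    rwa [neg_add_eq_sub]
  · refine hP.add_nl 2 gl1_range_si ?_
    rwa [add_comm]

theorem gl1_pair {P : ℂ} (hP : OT P) : ez (P + si) - ez (-P + si) = 2 * ez P + yw P / (xw P - xw si) := by
  have h1 : Nl (P + si) := hP.add_nl 2 gl1_range_si
  have h2 : Nl (P - si) := by
    have h3 := (hP.neg.add_nl 2 gl1_range_si).neg
    rw [neg_add, neg_neg, ← sub_eq_add_neg] at h3
    exact h3
  have h := CUL.ez_sd hP.1 CUL.nl_si h1 h2
  have h4 : ez (-P + si) = -ez (P - si) := by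
    rw [← CUL.ez_neg]
    congr 1
    ring
  rw [h4]
  linear_combination h

theorem gl1_alg {x a y : ℂ} (ha : a ^ 3 = -1) (h1 : x - a ≠ 0) (h2 : w * x - a ≠ 0) (h3 : w ^ 2 * x - a ≠ 0)
    (h4 : x ^ 3 + 1 ≠ 0) :
    y / (x - a) + w * (y / (w * x - a)) + w ^ 2 * (y / (w ^ 2 * x - a)) = 3 * (y * x ^ 2 / (x ^ 3 + 1)) := by
  have hw3 := CUL.w3
  have hz : w ^ 2 + w + 1 = 0 := by rw [CUL.w2]; ring
  have e1 : (x - a) * ((w * x - a) * (w ^ 2 * x - a)) = x ^ 3 + 1 := by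
    linear_combination (-(x * a) * (x - a)) * hz + (x ^ 3 - x ^ 2 * a) * hw3 - ha
  have i1 : y / (x - a) = y * ((w * x - a) * (w ^ 2 * x - a)) / (x ^ 3 + 1) := by
    rw [div_eq_div_iff h1 h4, ← e1]; ring
  have i2 : y / (w * x - a) = y * ((x - a) * (w ^ 2 * x - a)) / (x ^ 3 + 1) := by
    rw [div_eq_div_iff h2 h4, ← e1]; ring
  have i3 : y / (w ^ 2 * x - a) = y * ((x - a) * (w * x - a)) / (x ^ 3 + 1) := by
    rw [div_eq_div_iff h3 h4, ← e1]; ring
  rw [i1, i2, i3]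
  have e2 : (w * x - a) * (w ^ 2 * x - a) + w * ((x - a) * (w ^ 2 * x - a)) + w ^ 2 * ((x - a) * (w * x - a)) =
      3 * x ^ 2 := by
    linear_combination (3 * x ^ 2) * hw3 + (a ^ 2 - 2 * w * x * a) * hz
  have e3 : y * ((w * x - a) * (w ^ 2 * x - a)) / (x ^ 3 + 1) + w * (y * ((x - a) * (w ^ 2 * x - a)) / (x ^ 3 + 1)) +
      w ^ 2 * (y * ((x - a) * (w * x - a)) / (x ^ 3 + 1)) =
      y * ((w * x - a) * (w ^ 2 * x - a) + w * ((x - a) * (w ^ 2 * x - a)) + w ^ 2 * ((x - a) * (w * x - a))) /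
        (x ^ 3 + 1) := by ring
  rw [e3, e2]
  ring

/-- the averaged summand -/
noncomputable def gl1_G (L : Lev) (c : Eis) : ℂ :=
  conj (L.chi c) * (yw (pt L c) * xw (pt L c) ^ 2 / (xw (pt L c) ^ 3 + 1))

theorem gl1_w_OT {P : ℂ} (hP : OT P) : OT (w * P) := by
  obtain ⟨h1, m, hm, a, ha⟩ := hP
  refine ⟨?_, m, hm, CU.om * a, ?_⟩
  · rintro ⟨b, hb⟩
    apply h1
    refine ⟨CU.om ^ 2 * b, ?_⟩
    rw [map_mul, map_pow, hb, CUL.emb_om]
    linear_combination P * CUL.w3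
  · rw [map_mul, ha, CUL.emb_om]
    ring

theorem gl1_den {P : ℂ} (hP : OT P) : xw P - xw si ≠ 0 ∧ w * xw P - xw si ≠ 0 ∧ w ^ 2 * xw P - xw si ≠ 0 ∧
    xw P ^ 3 + 1 ≠ 0 := by
  have h1 := sub_ne_zero.2 (gl1_ne hP)
  have h2 := sub_ne_zero.2 (gl1_ne (gl1_w_OT hP))
  have h3 := sub_ne_zero.2 (gl1_ne (gl1_w_OT (gl1_w_OT hP)))
  rw [xw_w] at h2
  rw [xw_w, xw_w, ← mul_assoc, ← pow_two] at h3
  refine ⟨h1, h2, h3, ?_⟩
  have hw3 := CUL.w3
  have hz : w ^ 2 + w + 1 = 0 := by rw [CUL.w2]; ring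
  have ha := CUL.xw_si
  have e1 : (xw P - xw si) * ((w * xw P - xw si) * (w ^ 2 * xw P - xw si)) = xw P ^ 3 + 1 := by
    linear_combination (-(xw P * xw si) * (xw P - xw si)) * hz + (xw P ^ 3 - xw P ^ 2 * xw si) * hw3 - ha
  rw [← e1]
  exact mul_ne_zero h1 (mul_ne_zero h2 h3)

theorem gl1_term (L : Lev) (hk : L.k = 2) (α : Eis) :
    conj (L.chi α) * (yw (pt L α) / (xw (pt L α) - xw si)) +
      conj (L.chi (CU.om * α)) * (yw (pt L (CU.om * α)) / (xw (pt L (CU.om * α)) - xw si)) +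
      conj (L.chi (CU.om * (CU.om * α))) * (yw (pt L (CU.om * (CU.om * α))) / (xw (pt L (CU.om * (CU.om * α))) - xw si)) =
      3 * gl1_G L α := by
  have hw3 := CUL.w3
  have hom : conj (L.chi CU.om) = w := by
    rw [gl1_chi_om L hk, ← CUL.zw_two, CUL.zw_conj]
    have h1 : (-2 : ZMod 3) = 1 := by decide
    rw [h1, CUL.zw_one]
  have f1 : conj (L.chi (CU.om * α)) = w * conj (L.chi α) := by rw [chi_mul, map_mul, hom]
  have f2 : conj (L.chi (CU.om * (CU.om * α))) = w * (w * conj (L.chi α)) := by rw [chi_mul, map_mul, hom, f1]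
  unfold gl1_G
  rw [f1, f2]
  by_cases hα : IsCoprime α L.f
  · have hP := OT_pt L hα
    obtain ⟨d1, d2, d3, d4⟩ := gl1_den hP
    obtain ⟨b1, b2⟩ := Bc_om_pt L α
    obtain ⟨b3, b4⟩ := Bc_om_pt L (CU.om * α)
    rw [b3, b4, b1, b2]
    have h5 := gl1_alg (y := yw (pt L α)) CUL.xw_si d1 d2 d3 d4
    have e1 : w * (w * xw (pt L α)) = w ^ 2 * xw (pt L α) := by ring
    rw [e1]
    linear_combination conj (L.chi α) * h5
  · have h0 : L.chi α = 0 := by
      by_contra h6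
      exact hα ((chi_ne_zero_iff L α).1 h6)
    rw [h0, map_zero]
    ring

theorem gl1_G_per (L : Lev) {x y : Eis} (h : L.f ∣ x - y) : gl1_G L x = gl1_G L y := by
  unfold gl1_G
  obtain ⟨h1, h2⟩ := pt_congr_xw L h
  rw [chi_per L h, h1, h2]

theorem gl1_G_unit (L : Lev) (hep : L.ep = 1) (hk : L.k = 2) {ζ : Eis} (hζ : IsUnit ζ) (x : Eis) :
    gl1_G L (ζ * x) = gl1_G L x := by
  obtain ⟨s, j, hs, hq, hc, hact⟩ := unit_act L hζ
  obtain ⟨h1, h2⟩ := hact x
  have h3 : zw j ^ 3 = 1 := by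
    rw [CUL.zw_pow]
    have h8 : ((3 : ℕ) : ZMod 3) = 0 := rfl
    rw [h8, zero_mul, CUL.zw_zero]
  have h4 : conj (L.chi ζ) = (s : ℂ) * zw j := by
    unfold Lev.chi
    rw [hq, hc, hep, hk, pow_one, map_mul, CUL.zw_conj, map_intCast]
    congr 2
    have h5 : ∀ j : ZMod 3, -(j * 2) = j := by decide
    exact h5 j
  have hs2 : (s : ℂ) * (s : ℂ) = 1 := by
    rcases hs with h | h
    · rw [h]; norm_num
    · rw [h]; norm_num
  unfold gl1_G
  rw [chi_mul, map_mul, h4, h1, h2]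
  have h6 : (zw j * xw (pt L x)) ^ 3 + 1 = xw (pt L x) ^ 3 + 1 := by
    linear_combination xw (pt L x) ^ 3 * h3
  rw [h6]
  linear_combination (conj (L.chi x) * (yw (pt L x) * xw (pt L x) ^ 2 / (xw (pt L x) ^ 3 + 1))) * (s : ℂ) * (s : ℂ) * h3 +
    (conj (L.chi x) * (yw (pt L x) * xw (pt L x) ^ 2 / (xw (pt L x) ^ 3 + 1))) * hs2

theorem gl1_sumG (L : Lev) (hep : L.ep = 1) (hk : L.k = 2) {R : Finset Eis} (hR : IsR L R) :
    ∑ α ∈ rp L.f, conj (L.chi α) * (yw (pt L α) / (xw (pt L α) - xw si)) = 6 * ∑ c ∈ R, gl1_G L c := by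
  have hrep := CUL.rp_spec (f_ne L)
  obtain ⟨g, hg⟩ : ∃ g : Eis → ℂ, g = fun α => conj (L.chi α) * (yw (pt L α) / (xw (pt L α) - xw si)) := ⟨_, rfl⟩
  have hper : ∀ a b, L.f ∣ a - b → g a = g b := by
    intro a b hab
    obtain ⟨h1, h2⟩ := pt_congr_xw L hab
    rw [hg]
    simp only
    rw [chi_per L hab, h1, h2]
  have hom : IsCoprime CU.om L.f := gl1_unit_cop L CU.om_unit
  have h1 : ∑ α ∈ rp L.f, g (CU.om * α) = ∑ α ∈ rp L.f, g α := hrep.sum_mul hom g hper
  have h2 : ∑ α ∈ rp L.f, g (CU.om * (CU.om * α)) = ∑ α ∈ rp L.f, g α := by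
    have h3 := hrep.sum_mul hom (fun α => g (CU.om * α)) (fun a b hab => hper _ _ (by
      have h4 : CU.om * a - CU.om * b = CU.om * (a - b) := by ring
      rw [h4]
      exact hab.mul_left _))
    exact h3.trans h1
  have h4 : ∀ α : Eis, g α + g (CU.om * α) + g (CU.om * (CU.om * α)) = 3 * gl1_G L α := by
    intro α
    rw [hg]
    exact gl1_term L hk α
  have h5 : ∑ α ∈ rp L.f, (g α + g (CU.om * α) + g (CU.om * (CU.om * α))) = 3 * ∑ α ∈ rp L.f, gl1_G L α := by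
    rw [Finset.mul_sum]
    exact Finset.sum_congr rfl fun α _ => h4 α
  rw [Finset.sum_add_distrib, Finset.sum_add_distrib, h1, h2] at h5
  have h6 := sum_R L hR (gl1_G L) (fun x y hxy => gl1_G_per L hxy) (fun ζ x hζ => gl1_G_unit L hep hk hζ x)
  rw [Bc_sum_filter L (gl1_G L) (fun α hα => by
    have h0 : L.chi α = 0 := by
      by_contra h6
      exact hα ((chi_ne_zero_iff L α).1 h6)
    unfold gl1_G
    rw [h0, map_zero, zero_mul])] at h6
  have h7 : ∑ α ∈ rp L.f, conj (L.chi α) * (yw (pt L α) / (xw (pt L α) - xw si)) = ∑ α ∈ rp L.f, g α := by rw [hg]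
  rw [h7, ← h6]
  linear_combination h5 / 3

theorem gl1_V2' (L : Lev) (hep : L.ep = 1) (hk : L.k = 2) {R : Finset Eis} (hR : IsR L R) :
    V2 L = V1 L + 3 * ∑ c ∈ R, gl1_G L c := by
  have h1 := gl1_sub L (g := -1) (gl1_unit_cop L isUnit_one.neg) (fun x => ez (x + si)) (fun x k => by
    show ez (x + emb k + si) = ez (x + si)
    rw [add_right_comm, CUL.ez_add_emb])
  have h2 : L.chi (-1) = -1 := by rw [gl1_chi_neg L hep, gl1_chi_one]
  have h3 : ∑ α ∈ rp L.f, conj (L.chi α) * ez (-pt L α + si) = -V2 L := by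
    have h4 : ∀ α : Eis, conj (L.chi α) * ez (-pt L α + si) = conj (L.chi α) * ez (emb (-1) * pt L α + si) := by
      intro α
      rw [map_neg, map_one, neg_one_mul]
    have h5 : ∑ α ∈ rp L.f, conj (L.chi α) * ez (emb (-1) * pt L α + si) = L.chi (-1) * V2 L := h1
    rw [Finset.sum_congr rfl fun α _ => h4 α, h5, h2, neg_one_mul]
  have h6 : ∀ α : Eis, conj (L.chi α) * ez (pt L α + si) - conj (L.chi α) * ez (-pt L α + si) =
      2 * (conj (L.chi α) * ez (pt L α)) + conj (L.chi α) * (yw (pt L α) / (xw (pt L α) - xw si)) := by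
    intro α
    by_cases hα : IsCoprime α L.f
    · linear_combination conj (L.chi α) * gl1_pair (OT_pt L hα)
    · have h0 : L.chi α = 0 := by
        by_contra h6
        exact hα ((chi_ne_zero_iff L α).1 h6)
      rw [h0, map_zero]
      ring
  have h7 : ∑ α ∈ rp L.f, (conj (L.chi α) * ez (pt L α + si) - conj (L.chi α) * ez (-pt L α + si)) =
      2 * V1 L + ∑ α ∈ rp L.f, conj (L.chi α) * (yw (pt L α) / (xw (pt L α) - xw si)) := by
    rw [Finset.sum_congr rfl fun α _ => h6 α, Finset.sum_add_distrib, ← Finset.mul_sum]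
    rfl
  rw [Finset.sum_sub_distrib, h3, gl1_sumG L hep hk hR] at h7
  have h8 : ∑ α ∈ rp L.f, conj (L.chi α) * ez (pt L α + si) = V2 L := rfl
  rw [h8] at h7
  linear_combination h7 / 2

theorem gl1_To (L : Lev) (hk : L.k = 2) (R : Finset Eis) : To L R = -(w ^ 2 * ∑ c ∈ R, gl1_G L c) := by
  have hv : L.k.val = 2 := by rw [hk]; rfl
  unfold To
  rw [hv, Finset.mul_sum, ← Finset.sum_neg_distrib]
  refine Finset.sum_congr rfl fun c _ => ?_
  unfold gl1_G xm ym
  have h1 : 1 + (w * xw (pt L c)) ^ 3 = xw (pt L c) ^ 3 + 1 := by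
    linear_combination xw (pt L c) ^ 3 * CUL.w3
  rw [h1]
  ring

theorem gl_V1 (L : Lev) (hep : L.ep = 1) (hk : L.k = 2) {R : Finset Eis} (hR : IsR L R) :
    (L.chi la * emb la - 3) * (L.chi la * emb la + 2) * V1 L = -w * (18 * To L R) := by
  have h1 := gl1_V2 L hep hk
  have h2 := gl1_V2' L hep hk hR
  have h3 := gl1_To L hk R
  rw [h3]
  linear_combination -h1 + 6 * h2 - 18 * (∑ c ∈ R, gl1_G L c) * CUL.w3

theorem gl_mem (L : Lev) {s t : ℂ} (ht0 : t ≠ 0) (hs : GalS L s) (ht : GalT L 0 0 t) : V1 L * s / t ∈ CF.KK := by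
  have := eis_isDomain
  obtain ⟨M₁, hM₁, h₁⟩ := hs
  obtain ⟨M₂, hM₂, h₂⟩ := ht
  refine CUL.fixed_KK _ fun σ hσ => ?_
  have hM : M₁ * M₂ * L.f ≠ 0 := mul_ne_zero (mul_ne_zero hM₁ hM₂) (f_ne L)
  obtain ⟨g, hg⟩ := CUL.exists_galU σ hσ _ hM
  have hs' := h₁ σ hσ _ g hM ⟨M₂ * L.f, by ring⟩ hg
  have ht' := h₂ σ hσ _ g hM ⟨M₁ * L.f, by ring⟩ hg
  have hgf : GalU σ L.f g := hg.dvd hM (dvd_mul_left _ _)
  have hc : IsCoprime g L.f := hgf.2.1
  have hV : σ (V1 L) = L.chi g * V1 L := by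
    unfold V1
    have h3 := gl1_sub L hc ez (fun x k => CUL.ez_add_emb x k)
    rw [← h3, map_sum]
    refine Finset.sum_congr rfl fun α _ => ?_
    have h5 : σ (conj (L.chi α)) = conj (L.chi α) := by
      unfold Lev.chi
      rw [map_mul, map_mul, (c_sigma L σ hσ α).2, map_intCast (starRingEnd ℂ), map_intCast]
    rw [map_mul, h5, ← gl1_pt_mul]
    unfold pt
    rw [CUL.ez_gal σ hσ (f_ne L) hgf]
  have hq : ((L.q g : ℤ) : ℂ) * ((L.q g : ℤ) : ℂ) = 1 := by
    have h5 := q_sq L hc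
    exact_mod_cast h5
  have hc3 : L.c g ≠ 0 := by
    obtain ⟨j, hj⟩ := L.c_cube g hc
    rw [hj]
    exact CUL.zw_ne j
  have hka : conj (ka 0 0 g) = 1 := by
    unfold ka
    rw [zero_mul, zero_mul, add_zero, CUL.zw_zero, map_one]
  have ht2 : σ t = L.c g * conj (ka 0 0 g) * t := ht'
  have hs2 : σ s = (L.q g : ℂ) * s := hs'
  rw [hka, mul_one] at ht2
  rw [map_div₀, map_mul, hV, hs2, ht2, Lev.chi]
  have h7 : ((L.q g : ℤ) : ℂ) * L.c g * V1 L * (((L.q g : ℤ) : ℂ) * s) = L.c g * (V1 L * s) := by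
    linear_combination (L.c g * (V1 L * s)) * hq
  rw [h7, mul_div_mul_left _ _ hc3]

end JGL
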