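import Pool.Agent.JGL.Z2
import Pool.Agent.JGL.To
import Pool.Agent.JGL.GL1
import Pool.Agent.JGL.GL2

/-!
# [JGL-GL] good reduction at `λ` (`v = 3`, `i = 0`, `k = 2`)

`gl_V1`, `gl_mem`: JGL/GL1.lean; `gl_data`, `gl_entire`: JGL/GL2.lean. The valuation of `V1` and the assembly (model `lval_bad` in JGL/Z2.lean).
-/

set_option autoImplicit false

open NumberField IsDedekindDomain Filter Topology
open scoped Classical ComplexConjugate

namespace JGL

open CM27 JZ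
open CU (la eE)
open CUL (Nl ez si ta DS Cont LV IsRep rp cr mn mo zw OT GalU W3 W9)
open JL (N1 KD sD Psi6)

variable {D : Eis}

theorem gl_chi_val (L : Lev) (A : ValuationSubring ℂ) : A.valuation (L.chi la) = 1 := by
  obtain ⟨j, hj⟩ := L.c_cube la (la_cop L)
  unfold Lev.chi
  rw [hj, map_mul, CUL.w_zw, mul_one]
  rcases q_la_pm L with h | h
  · rw [h, Int.cast_one, map_one]
  · rw [h, Int.cast_neg, Int.cast_one, Valuation.map_neg, map_one]

/-- the valuation of `V1` -/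
theorem gl_val1 (L : Lev) (hep : L.ep = 1) (hk : L.k = 2) {R : Finset Eis} (hR : IsR L R) (A : ValuationSubring ℂ)
    (hA : A.valuation 3 < 1) :
    A.valuation (V1 L) = A.valuation (emb la) ^ 2 * A.valuation (emb la * To L R) := by
  have h := gl_V1 L hep hk hR
  have hchi := gl_chi_val L A
  have hl0 := CUL.v2_wla A
  have hl1 : A.valuation (emb la) < 1 := CUL.w_la_lt A hA
  have hl2 : A.valuation (emb la) ^ 2 = A.valuation 3 := CUL.w_la A hA
  have hP : A.valuation (L.chi la * emb la) = A.valuation (emb la) := by rw [map_mul, hchi, one_mul]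
  have h2 : A.valuation (2 : ℂ) = 1 := JL.a1_two A hA
  have e1 : A.valuation (L.chi la * emb la + 2) = 1 := by
    rw [Valuation.map_add_eq_of_lt_right A.valuation (by rw [hP, h2]; exact hl1), h2]
  have e2 : A.valuation (L.chi la * emb la - 3) = A.valuation (emb la) := by
    rw [Valuation.map_sub_eq_of_lt_left A.valuation, hP]
    rw [hP, ← hl2, pow_two]
    calc A.valuation (emb la) * A.valuation (emb la) < A.valuation (emb la) * 1 :=
          mul_lt_mul_of_pos_left hl1 (zero_lt_iff.2 hl0)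
      _ = A.valuation (emb la) := mul_one _
  have e3 : A.valuation (18 : ℂ) = A.valuation (emb la) ^ 4 := by
    have e4 : (18 : ℂ) = 2 * (3 * 3) := by norm_num
    rw [e4, map_mul, map_mul, h2, one_mul, ← hl2, ← pow_add]
  have h3 := congrArg A.valuation h
  rw [map_mul, map_mul, e1, e2, mul_one, map_mul, Valuation.map_neg, CUL.w_w, one_mul, map_mul, e3] at h3
  apply mul_left_cancel₀ hl0
  rw [h3, map_mul]
  simp only [pow_succ, pow_zero, one_mul, mul_assoc]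

/-- the valuation of `V1 √D / (4 D)^(1/3)` -/
theorem gl_val (d : Dat D) (h : JG.GoodL D) (A : ValuationSubring ℂ) (hA : A.valuation 3 < 1)
    {s t : ℂ} (hs : s ^ 2 = emb D) (ht : t ^ 3 = emb (4 * D)) :
    A.valuation (V1 d.L * s / t) ≤ A.valuation (emb la) ^ 3 ∧
      (A.valuation (V1 d.L * s / t) = A.valuation (emb la) ^ 3 ↔ JG.UCG D) := by
  obtain ⟨hv, hi, hk⟩ := gl_data d h
  have hep := z_ep1 d (by rw [hv])
  obtain ⟨R, hR⟩ := exists_R d.L
  have hU := unitE_odd d.Q d.ov hep hR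
  obtain ⟨η, hη, hη'⟩ := z_etaInt d
  obtain ⟨hgal, u₁, u₂, hN⟩ := z_pack d hs (c := emb la ^ 1) (r := s / emb la ^ 1) (z_la_mem 1) (pow_ne_zero _ z_emb_la) (mul_div_cancel₀ _ (pow_ne_zero _ z_emb_la)).symm hU.1
  have hr : (s / emb la ^ 1) ^ 2 = emb (d.η * CU.om ^ d.i * la * d.Ds) := by
    rw [div_pow, hs, z_embD d, hv, div_eq_iff (pow_ne_zero _ (pow_ne_zero _ z_emb_la)), map_mul, map_mul, map_mul, map_pow]
    ring
  have hr0 : (s / emb la ^ 1) ^ 2 = emb ((η : Eis) * la * d.Ds) := by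
    rw [hr, hη', hi, pow_zero, mul_one]
  obtain ⟨h1, h2⟩ := T_2o d.L hep hη (z_q1 d hep hη') hR A hA d.hDs hr0 hgal hN
  have h3 := crit_35 d (Or.inl hv) A hA hU (eo_one d.L hR A hA) hr hN
  have hl0 := CUL.v2_wla A
  have hV := gl_val1 d.L hep hk hR A hA
  have hV2 : A.valuation (V1 d.L) ^ 2 = A.valuation (emb la) ^ 4 * A.valuation (emb la * To d.L R) ^ 2 := by
    rw [hV, mul_pow, ← pow_mul]
  have hpos : 0 < A.valuation (emb la) ^ 4 := zero_lt_iff.2 (pow_ne_zero _ hl0)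
  have h5' : A.valuation (emb la) ^ 5 = A.valuation (emb la) ^ 4 * A.valuation (emb la) := pow_succ _ 4
  have g1 : A.valuation (V1 d.L) ^ 2 ≤ A.valuation (emb la) ^ 5 := by
    rw [hV2, h5']
    exact mul_le_mul_of_nonneg_left h1 zero_le
  have g2 : A.valuation (V1 d.L) ^ 2 = A.valuation (emb la) ^ 5 ↔ A.valuation u₂ = 1 := by
    rw [hV2, h5', ← h2]
    exact ⟨fun h6 => mul_left_cancel₀ hpos.ne' h6, fun h6 => by rw [h6]⟩
  obtain ⟨h4, h5⟩ := z_vs d A hA hs ht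
  obtain ⟨h6, h7⟩ := z_conv (V := A.valuation (V1 d.L)) (a := 2) (b := 5) (c := 3) (n := 3) (CUL.v2_wla A) h4 h5
    (by norm_num) (by rw [hv])
  rw [map_div₀, map_mul, ← h6, ← h7, g2, h3]
  exact ⟨g1, Iff.rfl⟩

theorem gl_kap (h : JG.GoodL D) : ∃ k₂ : ℕ, JG.kap D = 3 * k₂ ∧ ¬ 3 ∣ k₂ ∧ k₂ ≠ 0 := by
  unfold JG.kap
  rw [if_pos h]
  split_ifs
  · exact ⟨4, by norm_num, by norm_num, by norm_num⟩
  · exact ⟨1, by norm_num, by norm_num, by norm_num⟩

theorem gl_padic {N k₂ : ℕ} (hN : ¬ 3 ∣ N) (hk : ¬ 3 ∣ k₂) (hN0 : N ≠ 0) (hk0 : k₂ ≠ 0) {x : ℚ} (hx : x ≠ 0) :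
    padicValRat 3 (4 * x / (36 * N * (3 * k₂))) = padicValRat 3 x - 3 := by
  have h4 : ¬ 3 ∣ 4 * N := by
    rw [Nat.prime_three.dvd_mul]
    rintro (h | h)
    · norm_num at h
    · exact hN h
  have h1 := z2_padic (n := 3) h4 hk (mul_ne_zero four_ne_zero hN0) hk0 hx
  have h2 : 4 * x / (36 * N * (3 * k₂)) = 4 * x / (3 ^ 3 * ((4 * N : ℕ) : ℚ) * k₂) := by
    congr 1
    push_cast
    ring
  rw [h2, h1]
  norm_num

/-- the statement on the central value for good reduction at `λ` -/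
theorem lval_good (d : Dat D) (h : JG.GoodL D) : JG.LValG D := by
  obtain ⟨Φ, h1, h2, u, hu, h3⟩ := gl_entire d h
  obtain ⟨hv, hi, hk⟩ := gl_data d h
  refine ⟨d.p₂, d.pl, d.val₂, d.vall, Φ, h1, h2, ?_⟩
  obtain ⟨A, hA⟩ := CUL.exists_A
  obtain ⟨s, hs⟩ : ∃ s : ℂ, s ^ 2 = emb D := IsAlgClosed.exists_pow_nat_eq _ (by norm_num)
  obtain ⟨t, ht⟩ : ∃ t : ℂ, t ^ 3 = emb (4 * D) := IsAlgClosed.exists_pow_nat_eq _ (by norm_num)
  obtain ⟨V, hV⟩ : ∃ V, V = V1 d.L := ⟨_, rfl⟩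
  obtain ⟨hval, hiff⟩ := gl_val d h A hA hs ht
  have hD0 : emb D ≠ 0 := CUL.l2_emb_ne (z_D_ne d)
  have hD4 : emb (4 * D) ≠ 0 := by
    rw [map_mul, map_ofNat]
    exact mul_ne_zero (by norm_num) hD0
  have ht0 : t ≠ 0 := by
    rintro rfl
    rw [zero_pow three_ne_zero] at ht
    exact hD4 ht.symm
  obtain ⟨κ, hκ1, hκ2, hκ3⟩ := z_s d hs
  have hgt : GalT d.L 0 0 t := by
    have h5 := d.gal t ht
    have h6 : -((d.v : ℕ) : ZMod 3) = 0 := by rw [hv]; decide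
    rw [h6, hi, Nat.cast_zero] at h5
    exact h5
  have hb : V * s / t ∈ CF.KK := by
    rw [hV]
    exact gl_mem d.L ht0 (z_hgal d hκ1 hκ3) hgt
  rw [← hV] at hval hiff h3
  have hf3 : ¬ 3 ∣ d.L.f.norm.natAbs := by
    intro h5
    exact CUL.x2_norm (CUL.primary_not_la d.L.hf) (Int.natCast_dvd.2 h5)
  have hfpos : 0 < d.L.f.norm := CM27.a1_norm_pos (f_ne d.L)
  have hf0 : d.L.f.norm.natAbs ≠ 0 := Int.natAbs_ne_zero.2 hfpos.ne'
  obtain ⟨k₂, hkap, hk3, hk0⟩ := gl_kap h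
  have hNR : (0 : ℝ) < ‖emb D‖ := norm_pos_iff.2 hD0
  have hM : ((d.L.f.norm.natAbs : ℕ) : ℝ) = ‖emb d.L.f‖ ^ 2 := by
    rw [norm_emb_sq, Nat.cast_natAbs, Int.cast_abs, abs_of_pos (by exact_mod_cast hfpos)]
  have hMpos : (0 : ℝ) < ((d.L.f.norm.natAbs : ℕ) : ℝ) := by
    exact_mod_cast Nat.pos_of_ne_zero hf0
  have hkpos : (0 : ℝ) < ((JG.kap D : ℕ) : ℝ) := by
    rw [hkap]
    have : 0 < 3 * k₂ := by omega
    exact_mod_cast this
  have e4 : ‖emb (4 * D)‖ = 4 * ‖emb D‖ := by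
    rw [map_mul, norm_mul, map_ofNat]
    norm_num
  have hL2 : ‖emb la‖ ^ 2 = 3 := by
    rw [norm_emb_sq, CUL.g6_norm_la]
    norm_num
  have hM36 : ‖6 * emb d.L.f‖ ^ 2 = 36 * ((d.L.f.norm.natAbs : ℕ) : ℝ) := by
    rw [norm_mul, mul_pow, hM]
    norm_num
  have hnorm := z2_norm (u := u) hu (s := s) (t := t) (V := V) (L := emb la) (f := 6 * emb d.L.f) ht0 hNR
    (M := 36 * ((d.L.f.norm.natAbs : ℕ) : ℝ)) (by positivity) (n := 0)
    (by rw [← norm_pow, hs]) (by rw [← norm_pow, ht, e4]) hL2 hM36 OmC hkpos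
  rw [pow_zero, pow_zero, one_mul, one_mul] at hnorm
  have hcon : Φ 1 * conj (Φ 1) = ((‖Φ 1‖ ^ 2 : ℝ) : ℂ) := by
    rw [Complex.mul_conj, Complex.normSq_eq_norm_sq]
  have hla : A.valuation (emb la) ^ 2 = A.valuation 3 := by
    exact CUL.w_la A hA
  have h30 : A.valuation (3 : ℂ) ≠ 0 := (map_ne_zero _).2 three_ne_zero
  have h3pos : 0 < A.valuation (3 : ℂ) := zero_lt_iff.2 h30
  by_cases hb0 : V * s / t = 0
  · refine ⟨0, ?_, Or.inl rfl, ?_⟩
    · rw [hcon, h3, hnorm, hb0]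
      simp
    · rw [← hiff, hb0, map_zero]
      constructor
      · rintro ⟨h0, -⟩
        exact absurd rfl h0
      · intro h5
        exact absurd h5.symm (pow_ne_zero _ (CUL.v2_wla A))
  · obtain ⟨x, hx, hxx, hxv⟩ := CUL.val_KK A hA hb hb0
    have hx2 : ‖V * s / t‖ ^ 2 = (x : ℝ) := by
      rw [Complex.mul_conj, Complex.normSq_eq_norm_sq] at hxx
      exact_mod_cast hxx
    have hpv := gl_padic hf3 hk3 hf0 hk0 hx.ne'
    have hsq : A.valuation (V * s / t) ^ 2 = A.valuation 3 ^ (padicValRat 3 x) := hxv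
    have hln : (A.valuation (emb la) ^ 3) ^ 2 = A.valuation 3 ^ (3 : ℤ) := by
      rw [← pow_mul, mul_comm, pow_mul, hla]
      exact (zpow_natCast (A.valuation 3) 3).symm
    refine ⟨4 * x / (36 * d.L.f.norm.natAbs * (3 * k₂)), ?_, Or.inr ?_, ?_⟩
    · rw [hcon, h3, hnorm, hx2, CUL.z_norm_OmC, e4, hkap]
      push_cast
      ring
    · rw [hpv]
      by_contra hlt
      rw [not_le] at hlt
      have h5 : A.valuation (3 : ℂ) ^ padicValRat 3 x ≤ A.valuation (3 : ℂ) ^ (3 : ℤ) := by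
        rw [← hsq, ← hln]
        exact pow_le_pow_left' hval 2
      have h6 := zpow_lt_zpow_right_of_lt_one₀ h3pos hA (by omega : padicValRat 3 x < (3 : ℤ))
      exact absurd h5 (not_le.2 h6)
    · rw [← hiff, hpv]
      constructor
      · rintro ⟨-, h5⟩
        have h6 : A.valuation (V * s / t) ^ 2 = (A.valuation (emb la) ^ 3) ^ 2 := by
          rw [hsq, hln, (by omega : padicValRat 3 x = (3 : ℤ))]
        exact (pow_left_inj₀ zero_le zero_le two_ne_zero).1 h6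
      · intro h5
        constructor
        · have : (0 : ℚ) < 4 * x / (36 * d.L.f.norm.natAbs * (3 * k₂)) := by
            have hf0' : (0 : ℚ) < d.L.f.norm.natAbs := by exact_mod_cast Nat.pos_of_ne_zero hf0
            have hk0' : (0 : ℚ) < k₂ := by exact_mod_cast Nat.pos_of_ne_zero hk0
            positivity
          exact this.ne'
        · have h6 : A.valuation (3 : ℂ) ^ (padicValRat 3 x) = A.valuation (3 : ℂ) ^ (3 : ℤ) := by
            rw [← hsq, h5, hln]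
          have h7 := CUL.z_zpow_inj h30 hA h6
          omega

end JGL
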