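import Pool.Agent.JGL.B
import Pool.Agent.CUT.L5
import Pool.Agent.JL.H2
import Pool.Agent.JX.H1

/-!
# [JGL-H] the value at `1`
-/

set_option autoImplicit false

open NumberField IsDedekindDomain Filter Topology
open scoped Classical ComplexConjugate

namespace JGL

open CM27 JZ
open CU (la eE)
open CUL (Nl ez si ta DS Cont LV IsRep rp cr mn mo zw OT GalU W3 W9)
open JL (N1 KD sD Psi6)

/-- `κ` on products -/
theorem h_ka_mul (a i : ZMod 3) {x y : Eis} (hx : Primary x) (hy : Primary y) :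
    ka a i (x * y) = ka a i x * ka a i y := by
  unfold ka
  rw [CUL.x1_mn_mul hx hy, CUL.tx1_mo_mul hx hy, ← CUL.zw_add]
  refine congrArg zw ?_
  ring

theorem h_ka_per9 (a i : ZMod 3) {x y : Eis} (hx : Primary x) (h : 9 ∣ x - y) : ka a i x = ka a i y := by
  unfold ka
  rw [CUL.x1_mn_congr hx (CUL.tx1_la_nine.trans h), CUL.tx1_mo_congr hx h]

theorem h_ka_per3 (i : ZMod 3) {x y : Eis} (hx : Primary x) (h : la ^ 3 ∣ x - y) : ka 0 i x = ka 0 i y := by
  unfold ka
  rw [CUL.x1_mn_congr hx h, zero_mul, zero_mul]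

theorem h_ka_norm (a i : ZMod 3) (x : Eis) : ‖ka a i x‖ = 1 := CUL.zw_norm _

theorem h_ka_zero (x : Eis) : ka 0 0 x = 1 := by
  unfold ka
  rw [zero_mul, zero_mul, add_zero, CUL.zw_zero]

theorem h_prim_congr {M : Eis} (h3 : (3 : Eis) ∣ M) {a b : Eis} (ha : Primary a) (h : M ∣ a - b) : Primary b := by
  unfold Primary at *
  have h1 : b - 1 = (a - 1) - (a - b) := by ring
  rw [h1]
  exact dvd_sub ha (h3.trans h)

theorem h_dvd_comm {M x y : Eis} (h : M ∣ x - y) : M ∣ y - x := by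
  have e1 : y - x = -(x - y) := by ring
  rw [e1]
  exact (dvd_neg).2 h

/-- the general form -/
theorem h_gen (L : Lev) {M : Eis} (hM : M ≠ 0) (h3 : (3 : Eis) ∣ M) (hMf : IsCoprime L.f M) (κ : Eis → ℂ)
    (hκm : ∀ a b, Primary a → Primary b → κ (a * b) = κ a * κ b)
    (hκp : ∀ a b, Primary a → M ∣ a - b → κ a = κ b) (W : Finset Eis) (hWp : ∀ b ∈ W, Primary b)
    (hW : ∀ G : Eis → ℂ, (∀ a b, M ∣ a - b → G a = G b) → (∀ a, ¬ Primary a → G a = 0) →
      ∑ c ∈ rp M, G c = ∑ b ∈ W, G b) :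
    LV (fun x => if Primary x then conj (L.chi x) * κ x else 0) =
      conj (L.chi M) * κ L.f / (emb M * emb L.f) *
        (OmC * ∑ α ∈ rp L.f, conj (L.chi α) * ∑ b ∈ W, κ b * ez (pt L α + emb b / emb M)) := by
  have hdom := eis_isDomain
  have hf : L.f ≠ 0 := f_ne L
  have hfp : Primary L.f := L.hf
  have hfM : L.f * M ≠ 0 := mul_ne_zero hf hM
  have hemf : emb L.f ≠ 0 := CUL.l2_emb_ne hf
  have hemM : emb M ≠ 0 := CUL.l2_emb_ne hM
  have hOm : OmC ≠ 0 := OmC_ne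
  have hE : ∀ z : ℂ, NAB.E1 z = OmC * ez z := by
    intro z
    rw [CUL.ez]
    field_simp
  obtain ⟨F, hF⟩ : ∃ F : Eis → ℂ, F = fun x => if Primary x then conj (L.chi x) * κ x else 0 := ⟨_, rfl⟩
  have hFper : ∀ a b : Eis, L.f * M ∣ a - b → F a = F b := by
    intro a b hab
    have h5 : M ∣ a - b := (Dvd.intro_left _ rfl).trans hab
    have h6 : L.f ∣ a - b := (Dvd.intro _ rfl).trans hab
    rw [hF]
    show (if Primary a then conj (L.chi a) * κ a else 0) = if Primary b then conj (L.chi b) * κ b else 0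
    by_cases ha : Primary a
    · rw [if_pos ha, if_pos (h_prim_congr h3 ha h5), chi_per L h6, hκp a b ha h5]
    · rw [if_neg ha, if_neg (fun hb => ha (h_prim_congr h3 hb (h_dvd_comm h5)))]
  obtain ⟨g, hg⟩ : ∃ g : Eis → ℂ, g = fun c => F c * NAB.E1 (emb c / emb (L.f * M)) := ⟨_, rfl⟩
  have hgper : ∀ x y, L.f * M ∣ x - y → g x = g y := by
    intro x y hab
    rw [hg]
    show F x * NAB.E1 (emb x / emb (L.f * M)) = F y * NAB.E1 (emb y / emb (L.f * M))
    rw [hFper x y hab]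
    have h1 := JX.h2_x_E (CUL.l2_emb_ne hfM) 0 hab
    rw [zero_add, zero_add] at h1
    rw [h1]
  have key : ∀ α β : Eis, g (α * M + β * L.f) = (conj (L.chi α) * conj (L.chi M) * κ L.f) *
      (if Primary β then κ β * NAB.E1 (pt L α + emb β / emb M) else 0) := by
    intro α β
    have hd5 : M ∣ (α * M + β * L.f) - L.f * β := ⟨α, by ring⟩
    have hd6 : L.f ∣ (α * M + β * L.f) - α * M := ⟨β, by ring⟩
    have hprim : Primary (α * M + β * L.f) ↔ Primary β := by
      constructor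
      · intro h5
        exact (CUL.primary_mul_iff hfp β).1 (h_prim_congr h3 h5 hd5)
      · intro h5
        exact h_prim_congr h3 ((CUL.primary_mul_iff hfp β).2 h5) (h_dvd_comm hd5)
    rw [hg]
    show F (α * M + β * L.f) * NAB.E1 _ = _
    rw [hF]
    show (if Primary (α * M + β * L.f) then conj (L.chi (α * M + β * L.f)) * κ (α * M + β * L.f) else 0) *
      NAB.E1 _ = _
    by_cases hb : Primary β
    · have e2 : emb (α * M + β * L.f) / emb (L.f * M) = pt L α + emb β / emb M := by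
        rw [pt, map_mul emb L.f M, map_add emb (α * M), map_mul emb α, map_mul emb β]
        field_simp
      rw [if_pos (hprim.2 hb), if_pos hb, hκp _ _ (hprim.2 hb) hd5, hκm _ _ hfp hb, chi_per L hd6,
        chi_mul, map_mul, e2]
      ring
    · rw [if_neg (fun h' => hb (hprim.1 h')), if_neg hb, zero_mul, mul_zero]
  have hsum : ∀ α : Eis, ∑ β ∈ rp M, g (α * M + β * L.f) =
      conj (L.chi M) * κ L.f * (conj (L.chi α) * ∑ b ∈ W, κ b * NAB.E1 (pt L α + emb b / emb M)) := by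
    intro α
    have h7 := hW (fun β => if Primary β then κ β * NAB.E1 (pt L α + emb β / emb M) else 0) (by
      intro x y hxy
      show (if Primary x then _ else _) = if Primary y then _ else _
      by_cases hx : Primary x
      · rw [if_pos hx, if_pos (h_prim_congr h3 hx hxy), hκp x y hx hxy, JX.h2_x_E hemM _ hxy]
      · rw [if_neg hx, if_neg (fun hb => hx (h_prim_congr h3 hb (h_dvd_comm hxy)))]) (fun x hx => if_neg hx)
    have h8 : ∑ b ∈ W, (if Primary b then κ b * NAB.E1 (pt L α + emb b / emb M) else 0) =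
        ∑ b ∈ W, κ b * NAB.E1 (pt L α + emb b / emb M) :=
      Finset.sum_congr rfl fun b hb => if_pos (hWp b hb)
    rw [Finset.sum_congr rfl (fun β _ => key α β), ← Finset.mul_sum, h7, h8]
    ring
  have h9 : LV F = (emb (L.f * M))⁻¹ * ∑ c ∈ rp (L.f * M), g c := by
    rw [CUL.LV_periodic hfM F hFper (CUL.rp_spec hfM), hg]
  have h10 := IsRep.crt hMf (CUL.rp_spec hf) (CUL.rp_spec hM) g (CUL.rp_spec hfM) hgper
  have h11 : ∀ α ∈ rp L.f, conj (L.chi α) * ∑ b ∈ W, κ b * NAB.E1 (pt L α + emb b / emb M) =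
      OmC * (conj (L.chi α) * ∑ b ∈ W, κ b * ez (pt L α + emb b / emb M)) := by
    intro α _
    have h12 : ∑ b ∈ W, κ b * NAB.E1 (pt L α + emb b / emb M) =
        OmC * ∑ b ∈ W, κ b * ez (pt L α + emb b / emb M) := by
      rw [Finset.mul_sum]
      refine Finset.sum_congr rfl fun b _ => ?_
      rw [hE]
      ring
    rw [h12]
    ring
  rw [← hF, h9, h10, Finset.sum_congr rfl (fun α _ => hsum α), ← Finset.mul_sum,
    Finset.sum_congr rfl h11, ← Finset.mul_sum, map_mul emb L.f M]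
  field_simp

theorem h_W1 (G : Eis → ℂ) (hG : ∀ a b, la ^ 2 ∣ a - b → G a = G b) (h0 : ∀ a, ¬ Primary a → G a = 0) :
    ∑ c ∈ rp (la ^ 2), G c = ∑ b ∈ ({1} : Finset Eis), G b := by
  obtain ⟨β₀, ⟨hβ₀, hd₀⟩, huniq⟩ := CUL.rp_spec JL.h2_la_ne 1
  rw [Finset.sum_singleton, Finset.sum_eq_single β₀]
  · exact (hG _ _ hd₀).symm
  · intro β hβ hne
    apply h0
    intro hp
    apply hne
    apply huniq β
    refine ⟨hβ, ?_⟩
    have h1 : (3 : Eis) ∣ β - 1 := hp
    exact h_dvd_comm (JL.h2_la2.2 h1)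
  · intro hn
    exact absurd hβ₀ hn

theorem h_chi_norm1 (L : Lev) {x : Eis} (h : IsCoprime x L.f) : ‖L.chi x‖ = 1 := by
  have h1 := chi_conj L h
  rw [Complex.mul_conj, Complex.normSq_eq_norm_sq] at h1
  have h2 : ‖L.chi x‖ ^ 2 = 1 := by exact_mod_cast h1
  exact (pow_eq_one_iff_of_nonneg (norm_nonneg _) two_ne_zero).1 h2

theorem LV_eq (L : Lev) (a i : ZMod 3) : ∃ u : ℂ, ‖u‖ = 1 ∧
    LV (Fx L a i) = u * OmC / (emb la ^ nn a i * emb L.f) * VV L a i := by
  have hemf : emb L.f ≠ 0 := CUL.l2_emb_ne (f_ne L)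
  have hemla : emb la ≠ 0 := CUL.la_ne
  have hla : IsCoprime la L.f := la_cop L
  by_cases ha : a = 0
  · subst ha
    by_cases hi : i = 0
    · subst hi
      have h1 := h_gen L (M := la ^ 2) JL.h2_la_ne (JL.h2_la2.1 dvd_rfl) hla.symm.pow_right (ka 0 0)
        (fun x y hx hy => h_ka_mul 0 0 hx hy) (fun x y _ _ => by rw [h_ka_zero, h_ka_zero]) {1}
        (fun b hb => by rw [Finset.mem_singleton.1 hb]; exact CUL.primary_one) h_W1
      refine ⟨conj (L.chi (la ^ 2)) * ka 0 0 L.f, ?_, ?_⟩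
      · rw [norm_mul, Complex.norm_conj, h_ka_norm, h_chi_norm1 L hla.pow_left, one_mul]
      · have h2 : VV L 0 0 = ∑ α ∈ rp L.f, conj (L.chi α) *
            ∑ b ∈ ({1} : Finset Eis), ka 0 0 b * ez (pt L α + emb b / emb (la ^ 2)) := by
          unfold VV V2
          rw [if_pos rfl, if_pos rfl]
          refine Finset.sum_congr rfl fun α _ => ?_
          rw [Finset.sum_singleton, h_ka_zero, one_mul, map_one, map_pow, CUL.si]
        have h3 : nn 0 0 = 2 := by
          unfold nn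
          rw [if_pos rfl, if_pos rfl]
        have h4 : Fx L 0 0 = fun x => if Primary x then conj (L.chi x) * ka 0 0 x else 0 := rfl
        rw [h4, h1, h2, h3, map_pow]
        ring
    · have h3la : (3 : Eis) ∣ la ^ 3 := CUL.x1_three_dvd
      have h1 := h_gen L (M := la ^ 3) CUL.l5_la_ne h3la hla.symm.pow_right (ka 0 i)
        (fun x y hx hy => h_ka_mul 0 i hx hy) (fun x y hx h => h_ka_per3 i hx h) W3
        (fun b hb => CUL.l5_prim hb) (fun G hG h0 => CUL.l5_sum (CUL.rp_spec CUL.l5_la_ne) G hG h0)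
      refine ⟨conj (L.chi (la ^ 3)) * ka 0 i L.f, ?_, ?_⟩
      · rw [norm_mul, Complex.norm_conj, h_ka_norm, h_chi_norm1 L hla.pow_left, one_mul]
      · have h2 : VV L 0 i = ∑ α ∈ rp L.f, conj (L.chi α) *
            ∑ b ∈ W3, ka 0 i b * ez (pt L α + emb b / emb (la ^ 3)) := by
          unfold VV V3
          rw [if_pos rfl, if_neg hi, map_pow]
        have h3 : nn 0 i = 3 := by
          unfold nn
          rw [if_pos rfl, if_neg hi]
        have h4 : Fx L 0 i = fun x => if Primary x then conj (L.chi x) * ka 0 i x else 0 := rfl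
        rw [h4, h1, h2, h3, map_pow]
        ring
  · have h9 : (9 : Eis) ≠ 0 := CUL.tl5_ne
    have h39 : (3 : Eis) ∣ 9 := Dvd.intro 3 (by decide)
    have h1 := h_gen L (M := 9) h9 h39 (CUL.cop9 L.hf) (ka a i)
      (fun x y hx hy => h_ka_mul a i hx hy) (fun x y hx h => h_ka_per9 a i hx h) W9
      (fun b hb => CUL.tl5_prim hb) (fun G hG h0 => CUL.tl5_sum (CUL.rp_spec h9) G hG h0)
    have hw3 := CUL.w3
    have hw0 : w ≠ 0 := by
      intro h0
      rw [h0, zero_pow (by norm_num)] at hw3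
      exact zero_ne_one hw3
    have hwn : ‖w‖ = 1 := by
      have h2 : ‖w‖ ^ 3 = 1 := by rw [← norm_pow, hw3, norm_one]
      exact (pow_eq_one_iff_of_nonneg (norm_nonneg _) (by norm_num)).1 h2
    refine ⟨conj (L.chi 9) * ka a i L.f * w⁻¹, ?_, ?_⟩
    · rw [norm_mul, norm_mul, Complex.norm_conj, h_ka_norm, h_chi_norm1 L (CUL.cop9 L.hf).symm, norm_inv, hwn]
      norm_num
    · have h2 : VV L a i = ∑ α ∈ rp L.f, conj (L.chi α) *
          ∑ b ∈ W9, ka a i b * ez (pt L α + emb b / emb 9) := by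
        unfold VV V4
        rw [if_neg ha, map_ofNat]
      have h3 : nn a i = 4 := by
        unfold nn
        rw [if_neg ha]
      have h4 : Fx L a i = fun x => if Primary x then conj (L.chi x) * ka a i x else 0 := rfl
      have h5 : emb (9 : Eis) = emb la ^ 4 * w := by
        rw [CUL.nine_eq, map_mul, map_pow, CUL.emb_om]
      rw [h4, h1, h2, h3, h5]
      field_simp

/-! ## the continuation -/

theorem h_Fx_per (L : Lev) (a i : ZMod 3) {x y : Eis} (h : 9 * L.f ∣ x - y) : Fx L a i x = Fx L a i y := by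
  have h9 : (9 : Eis) ∣ x - y := (Dvd.intro _ rfl).trans h
  have h3 : (3 : Eis) ∣ x - y := (Dvd.intro 3 (by decide)).trans h9
  have h4 : L.f ∣ x - y := (Dvd.intro_left _ rfl).trans h
  unfold Fx
  rw [chi_per L h4]
  by_cases hp : Primary x
  · rw [if_pos hp, if_pos ((JL.h1_primary h3).1 hp), h_ka_per9 a i hp h9]
  · rw [if_neg hp, if_neg (fun h5 => hp ((JL.h1_primary h3).2 h5))]

theorem h_pl {D : Eis} (d : Dat D) (h : ¬ JG.GoodL D) : d.pl = 0 := by
  rcases d.vall with ⟨-, h1⟩ | ⟨η, c, n, h1, h2, -⟩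
  · exact h1
  · exact absurd ⟨η, c, h1, h2⟩ h

theorem h_Psi_la {D : Eis} (d : Dat D) (h : ¬ JG.GoodL D) {b : Eis} (hb : la ∣ b) :
    JG.PsiG D d.p₂ d.pl (Ideal.span {eE b}) = 0 := by
  obtain ⟨c, rfl⟩ := hb
  obtain ⟨v, hv⟩ := CUL.x2_exists_v CUL.la_prime
  have h1 : JG.psvG D d.p₂ d.pl v = 0 := by
    unfold JG.psvG
    rw [if_neg, if_pos hv, h_pl d h]
    intro h2
    rw [hv] at h2
    have h3 : eE la ∈ (Ideal.span {eE 2} : Ideal (𝓞 CF.KK)) := by
      rw [← h2]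
      exact Ideal.mem_span_singleton_self _
    rw [Ideal.mem_span_singleton, CUL.l6_dvd] at h3
    obtain ⟨m, hm⟩ := h3
    have h4 := congrArg QuadraticAlgebra.re hm
    have e1 : (2 : Eis) = ⟨2, 0⟩ := rfl
    have e2 : (la : Eis).re = 1 := by decide
    rw [e1, e2, QuadraticAlgebra.re_mul] at h4
    simp only [mul_zero, zero_mul, add_zero] at h4
    omega
  rw [CUL.x2_span_mul, ← hv]
  unfold JG.PsiG
  rw [NAB.cm_mul, NAB.cm_prime, h1, zero_mul]

theorem h_Psi_norm {D : Eis} (d : Dat D) (h : ¬ JG.GoodL D) (I : Ideal (𝓞 CF.KK)) (_ : I ≠ 0) :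
    ‖conj (emb (JG.PsiG D d.p₂ d.pl I))‖ ^ 2 ≤ Ideal.absNorm I := by
  rcases CUL.l6_cases I with ⟨b, hb, rfl⟩ | ⟨b, hb, rfl⟩
  · rw [h_Psi_la d h hb, map_zero, map_zero, norm_zero, zero_pow two_ne_zero]
    exact Nat.cast_nonneg _
  · rw [d.psi b hb, Complex.norm_conj, norm_mul, norm_mul, Complex.norm_conj, h_ka_norm, mul_one,
      mul_pow, CUL.l6_absNorm, CUL.l6_norm]
    have h1 := chi_norm d.L b
    have h2 : ‖d.L.chi b‖ ^ 2 ≤ 1 := pow_le_one₀ (norm_nonneg _) h1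
    calc ‖d.L.chi b‖ ^ 2 * ((b.norm.natAbs : ℕ) : ℝ) ≤ 1 * ((b.norm.natAbs : ℕ) : ℝ) :=
          mul_le_mul_of_nonneg_right h2 (Nat.cast_nonneg _)
      _ = _ := one_mul _

theorem h_IL {D : Eis} (d : Dat D) (h : ¬ JG.GoodL D) (s : ℂ) (hs : 3 / 2 < s.re) :
    LSeries (fun n => NAB.IL CF.KK (fun I => conj (emb (JG.PsiG D d.p₂ d.pl I))) n) s =
      DS (Fx d.L (-(d.v : ZMod 3)) d.i) s := by
  rw [NAB.LSeries_IL CF.KK _ (h_Psi_norm d h) s hs, DS]
  have hinj : Function.Injective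
      (fun b : {b : Eis // Primary b} => (Ideal.span {eE (b : Eis)} : Ideal (𝓞 CF.KK))) := by
    intro b c hbc
    exact Subtype.ext (CUL.l6_inj b.2 c.2 hbc)
  have h1 := hinj.tsum_eq
    (f := NAB.itm CF.KK (fun I => conj (emb (JG.PsiG D d.p₂ d.pl I))) s) (by
    intro I hI
    rcases CUL.l6_cases I with ⟨b, hb, rfl⟩ | ⟨b, hb, rfl⟩
    · exfalso
      apply hI
      rw [NAB.itm]
      split_ifs
      · rfl
      · rw [h_Psi_la d h hb, map_zero, map_zero, zero_mul]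
    · exact ⟨⟨b, hb⟩, rfl⟩)
  have h2 := (Subtype.val_injective (p := fun b : Eis => Primary b)).tsum_eq
    (f := fun c : Eis => Fx d.L (-(d.v : ZMod 3)) d.i c * gs s (emb c)) (by
      intro c hc
      by_cases hp : Primary c
      · exact ⟨⟨c, hp⟩, rfl⟩
      · exfalso
        apply hc
        simp only [Fx, if_neg hp, zero_mul])
  rw [← h1, ← h2]
  refine tsum_congr fun b => ?_
  have hb := b.2
  have hpos : 0 < ‖emb (b : Eis)‖ := by
    rw [norm_pos_iff]
    intro h0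
    exact CUL.primary_ne hb (emb_injective (by rw [h0, map_zero]))
  have hF : Fx d.L (-(d.v : ZMod 3)) d.i (b : Eis) = conj (d.L.chi b) * ka (-(d.v : ZMod 3)) d.i b := by
    unfold Fx
    rw [if_pos hb]
  rw [NAB.itm, if_neg (CUL.l6_span_ne hb), d.psi b hb, map_mul, map_mul, Complex.conj_conj,
    CUL.l6_absNorm, gs, ← CUL.l6_pow hpos, CUL.l6_norm, hF]
  push_cast
  ring

theorem L_entireD {D : Eis} (d : Dat D) (h : ¬ JG.GoodL D) : ∃ Φ : ℂ → ℂ, Differentiable ℂ Φ ∧ (∀ s : ℂ, 3 / 2 < s.re →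
    Φ s = LSeries (fun n => NAB.IL CF.KK (fun I => conj (emb (JG.PsiG D d.p₂ d.pl I))) n) s) ∧
    Φ 1 = LV (Fx d.L (-(d.v : ZMod 3)) d.i) := by
  have := eis_isDomain
  have hM : (9 : Eis) * d.L.f ≠ 0 := mul_ne_zero CUL.tl5_ne (f_ne d.L)
  obtain ⟨Φ, h1, -⟩ := CUL.cont_of_periodic hM (Fx d.L (-(d.v : ZMod 3)) d.i)
    (fun a b hab => h_Fx_per d.L _ _ hab) (CUL.rp_spec hM)
  exact ⟨Φ, h1.1, fun s hs => by rw [h1.2 s hs, h_IL d h s hs], (CUL.LV_eq h1).symm⟩

end JGL
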