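import Pool.Agent.JGL.N
import Pool.Agent.JL.K5

/-!
# [JGL-KE] the Kronecker limit formula, `ep = 0`: port of JL/K3, K4, K5
-/

set_option autoImplicit false

open MeasureTheory Set Filter Topology
open scoped Classical ComplexConjugate

namespace JGL

open CM27 JZ
open CU (la)
open CUL (Nl ta rp IsRep)

/-- primitivity -/
def KEp (L : Lev) : Prop :=
  ∀ p m : Eis, Prime p → p * m = L.f → ∃ u, IsCoprime u L.f ∧ m ∣ u - 1 ∧ L.q u = -1

theorem ke_ne_zero_iff (L : Lev) (x : Eis) : L.q x ≠ 0 ↔ IsCoprime x L.f := by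
  constructor
  · intro h
    by_contra hc
    exact h (L.q_zero x hc)
  · intro h h0
    rcases L.q_pm x h with h1 | h1
    · rw [h0] at h1
      norm_num at h1
    · rw [h0] at h1
      norm_num at h1

theorem ke_cases (L : Lev) (x : Eis) : L.q x = 0 ∨ L.q x = 1 ∨ L.q x = -1 := by
  by_cases h : IsCoprime x L.f
  · exact Or.inr (L.q_pm x h)
  · exact Or.inl (L.q_zero x h)

theorem ke5_emb_ne (L : Lev) : emb L.f ≠ 0 := CUL.l2_emb_ne (f_ne L)

theorem ke5_la (L : Lev) : ¬ la ∣ L.f := by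
  intro h1
  have h2 : IsUnit la := (la_cop L).isUnit_of_dvd' dvd_rfl h1
  exact CU.la_prime.not_isUnit h2

theorem ke5_not_unit (L : Lev) : ¬ IsUnit L.f := L.hfu

theorem ke_sum_q (L : Lev) : ∑ α ∈ rp L.f, L.q α = 0 := by
  obtain ⟨x, hx⟩ := L.q_non
  have hc : IsCoprime x L.f := (ke_ne_zero_iff L x).1 (by rw [hx]; norm_num)
  have h1 := IsRep.sum_mul (CUL.rp_spec (f_ne L)) hc (fun α => ((L.q α : ℤ) : ℂ))
    (fun a b hab => by rw [L.q_per _ _ hab])
  have h2 : ∀ α ∈ rp L.f, ((L.q (x * α) : ℤ) : ℂ) = -((L.q α : ℤ) : ℂ) := by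
    intro α _
    rw [L.q_mul, hx]
    push_cast
    ring
  rw [Finset.sum_congr rfl h2, Finset.sum_neg_distrib] at h1
  have h3 : ∑ α ∈ rp L.f, ((L.q α : ℤ) : ℂ) = 0 := by
    have h4 : (2 : ℂ) * ∑ α ∈ rp L.f, ((L.q α : ℤ) : ℂ) = 0 := by linear_combination -h1
    rcases mul_eq_zero.1 h4 with h5 | h5
    · norm_num at h5
    · exact h5
  exact_mod_cast h3

/-- the Gauss sum -/
noncomputable def ke_gX (L : Lev) : ℂ := ∑ α ∈ rp L.f, (L.q α : ℂ) * JL.psX (emb α / emb L.f)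

theorem ke_per (L : Lev) (c : Eis) (a b : Eis) (hab : L.f ∣ a - b) :
    (L.q a : ℂ) * JL.psX (emb a * emb c / emb L.f) =
      (L.q b : ℂ) * JL.psX (emb b * emb c / emb L.f) := by
  have hf : emb L.f ≠ 0 := fun h0 => f_ne L (emb_injective (by rw [h0, map_zero]))
  rw [L.q_per _ _ hab, JL.K3_shift hf (hab.mul_right c)]

theorem ke_gauss (L : Lev) (hP : KEp L) (b : Eis) :
    ∑ α ∈ rp L.f, (L.q α : ℂ) * JL.psX (emb α * emb b / emb L.f) = (L.q b : ℂ) * ke_gX L := by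
  have hdom := eis_isDomain
  have hpid : IsPrincipalIdealRing Eis := eis_pid
  have hf0 := f_ne L
  have hf : emb L.f ≠ 0 := fun h0 => hf0 (emb_injective (by rw [h0, map_zero]))
  have hR := CUL.rp_spec hf0
  by_cases hb : IsCoprime b L.f
  · have h1 : ke_gX L = ∑ α ∈ rp L.f, (L.q (b * α) : ℂ) *
        JL.psX (emb (b * α) * emb 1 / emb L.f) := by
      rw [IsRep.sum_mul hR hb (fun α => (L.q α : ℂ) * JL.psX (emb α * emb 1 / emb L.f))
        (ke_per L 1)]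
      unfold ke_gX
      apply Finset.sum_congr rfl
      intro α _
      rw [map_one, mul_one]
    have hq : (L.q b : ℂ) * (L.q b : ℂ) = 1 := by
      have h2 := (ke_ne_zero_iff L b).2 hb
      rcases ke_cases L b with h3 | h3 | h3
      · exact absurd h3 h2
      · rw [h3]
        norm_num
      · rw [h3]
        norm_num
    have h2 : ∀ α, (L.q (b * α) : ℂ) * JL.psX (emb (b * α) * emb 1 / emb L.f) =
        (L.q b : ℂ) * ((L.q α : ℂ) * JL.psX (emb α * emb b / emb L.f)) := by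
      intro α
      rw [L.q_mul, map_one, mul_one, map_mul, mul_comm (emb b) (emb α)]
      push_cast
      ring
    rw [h1, Finset.sum_congr rfl fun α _ => h2 α, ← Finset.mul_sum, ← mul_assoc, hq, one_mul]
  · obtain ⟨p, hp, hpb, hpf⟩ : ∃ p : Eis, Prime p ∧ p ∣ b ∧ p ∣ L.f := by
      by_contra hcon
      push Not at hcon
      apply hb
      exact isCoprime_of_prime_dvd (fun h0 => hf0 h0.2) hcon
    obtain ⟨m, hm⟩ := hpf
    obtain ⟨u, hu, hum, hqu⟩ := hP p m hp hm.symm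
    have h1 := IsRep.sum_mul hR hu (fun α => (L.q α : ℂ) * JL.psX (emb α * emb b / emb L.f))
      (ke_per L b)
    have h2 : ∀ α, (L.q (u * α) : ℂ) * JL.psX (emb (u * α) * emb b / emb L.f) =
        -((L.q α : ℂ) * JL.psX (emb α * emb b / emb L.f)) := by
      intro α
      have h3 : L.f ∣ (u * α - α) * b := by
        obtain ⟨k, hk⟩ := hum
        obtain ⟨l, hl⟩ := hpb
        refine ⟨k * l * α, ?_⟩
        have h4 : u * α - α = (u - 1) * α := by ring
        rw [h4, hk, hl, hm]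
        ring
      rw [L.q_mul, hqu, JL.K3_shift hf h3]
      push_cast
      ring
    rw [Finset.sum_congr rfl fun α _ => h2 α, Finset.sum_neg_distrib] at h1
    have hq0 : L.q b = 0 := by
      by_contra hne
      exact hb ((ke_ne_zero_iff L b).1 hne)
    rw [hq0, Int.cast_zero, zero_mul]
    have h5 : (2 : ℂ) * ∑ α ∈ rp L.f, (L.q α : ℂ) * JL.psX (emb α * emb b / emb L.f) = 0 := by
      linear_combination -h1
    rcases mul_eq_zero.1 h5 with h6 | h6
    · norm_num at h6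
    · exact h6

theorem ke_gauss_norm (L : Lev) (hP : KEp L) : ‖ke_gX L‖ ^ 2 = (L.f.norm : ℝ) := by
  have hf0 := f_ne L
  have hf : emb L.f ≠ 0 := fun h0 => hf0 (emb_injective (by rw [h0, map_zero]))
  have hR := CUL.rp_spec hf0
  obtain ⟨f, hfd⟩ : ∃ f : Eis, f = L.f := ⟨_, rfl⟩
  set Q : ℂ := ∑ α ∈ rp L.f, (L.q α : ℂ) * (L.q α : ℂ) with hQ
  set G : Eis → ℂ := fun b => ∑ α ∈ rp L.f, (L.q α : ℂ) * JL.psX (emb α * emb b / emb L.f)
    with hG
  have h1 : ∑ b ∈ rp L.f, G b * conj (G b) = Q * (ke_gX L * conj (ke_gX L)) := by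
    rw [hQ, Finset.sum_mul]
    apply Finset.sum_congr rfl
    intro b _
    have h2 : G b = (L.q b : ℂ) * ke_gX L := ke_gauss L hP b
    rw [h2, map_mul]
    have h3 : conj (L.q b : ℂ) = (L.q b : ℂ) := map_intCast (starRingEnd ℂ) _
    rw [h3]
    ring
  have h2 : ∑ b ∈ rp L.f, G b * conj (G b) = ((L.f.norm : ℤ) : ℂ) * Q := by
    have h3 : ∀ b, G b * conj (G b) = ∑ α ∈ rp L.f, ∑ β ∈ rp L.f,
        ((L.q α : ℂ) * (L.q β : ℂ)) * JL.psX (emb (α - β) * emb b / emb L.f) := by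
      intro b
      show (∑ α ∈ rp L.f, (L.q α : ℂ) * JL.psX (emb α * emb b / emb L.f)) *
        conj (∑ α ∈ rp L.f, (L.q α : ℂ) * JL.psX (emb α * emb b / emb L.f)) = _
      rw [map_sum, Finset.sum_mul_sum]
      apply Finset.sum_congr rfl
      intro α _
      apply Finset.sum_congr rfl
      intro β _
      have h4 : JL.psX (emb (α - β) * emb b / emb L.f) =
          JL.psX (emb α * emb b / emb L.f) * JL.psX (-(emb β * emb b / emb L.f)) := by
        rw [← JL.psX_add]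
        congr 1
        rw [map_sub]
        ring
      have h5 : conj (L.q β : ℂ) = (L.q β : ℂ) := map_intCast (starRingEnd ℂ) _
      rw [h4, map_mul (starRingEnd ℂ), h5, JL.K3_conj]
      ring
    rw [Finset.sum_congr rfl fun b _ => h3 b, Finset.sum_comm]
    have h4 : ∀ α ∈ rp L.f, ∑ b ∈ rp L.f, ∑ β ∈ rp L.f,
        ((L.q α : ℂ) * (L.q β : ℂ)) * JL.psX (emb (α - β) * emb b / emb L.f) =
        ((L.f.norm : ℤ) : ℂ) * ((L.q α : ℂ) * (L.q α : ℂ)) := by
      intro α hα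
      rw [Finset.sum_comm]
      have h5 : ∀ β ∈ rp L.f, ∑ b ∈ rp L.f,
          ((L.q α : ℂ) * (L.q β : ℂ)) * JL.psX (emb (α - β) * emb b / emb L.f) =
          if β = α then ((L.f.norm : ℤ) : ℂ) * ((L.q α : ℂ) * (L.q α : ℂ)) else 0 := by
        intro β hβ
        rw [← Finset.mul_sum, JL.K3_orth hf0]
        by_cases hab : β = α
        · rw [if_pos hab, hab, sub_self, if_pos (dvd_zero _)]
          ring
        · rw [if_neg hab, if_neg (fun hd => hab (CUL.l1_eq hR hα hβ hd).symm), mul_zero]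
      rw [Finset.sum_congr rfl h5, Finset.sum_ite_eq' (rp L.f) α, if_pos hα]
    rw [Finset.sum_congr rfl h4, ← Finset.mul_sum]
  have hQne : Q ≠ 0 := by
    obtain ⟨c, ⟨hc, hcd⟩, -⟩ := hR 1
    have h3 : L.q c = 1 := by rw [← L.q_per _ _ hcd, q_one L]
    have h4 : (0 : ℤ) < ∑ α ∈ rp L.f, L.q α * L.q α := by
      apply Finset.sum_pos'
      · intro α _
        exact mul_self_nonneg _
      · exact ⟨c, hc, by rw [h3]; norm_num⟩
    have h5 : Q = ((∑ α ∈ rp L.f, L.q α * L.q α : ℤ) : ℂ) := by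
      rw [hQ]
      push_cast
      rfl
    rw [h5]
    exact_mod_cast h4.ne'
  have h3 : ke_gX L * conj (ke_gX L) = ((L.f.norm : ℤ) : ℂ) := by
    apply mul_left_cancel₀ hQne
    rw [← h1, h2]
    ring
  rw [Complex.mul_conj, Complex.normSq_eq_norm_sq] at h3
  exact_mod_cast h3

/-- the twisted sum of `JL.GX` -/
noncomputable def ke_SG (L : Lev) (u : ℝ) : ℝ := ∑ α ∈ rp L.f, (L.q α : ℝ) * JL.GX (emb α / emb L.f) u

theorem ke_SG_poisson (L : Lev) (hP : KEp L) {u : ℝ} (hu : 0 < u) : ((ke_SG L u : ℝ) : ℂ) =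
    -3 * ke_gX L / ((NAB.A0 : ℂ) * u) *
      ∑' b : Eis, ((if la ∣ b then 0 else (L.q b : ℝ) * Real.exp (-(4 * Real.pi / 3 * (b.norm : ℝ) / u)) : ℝ) : ℂ) := by
  have h1 : ((ke_SG L u : ℝ) : ℂ) = ∑ α ∈ rp L.f, (L.q α : ℂ) *
      (1 / ((NAB.A0 : ℂ) * u) * ∑' b : Eis, (JL.K4_E u b : ℂ) *
      (JL.psX (emb α / emb L.f * emb b) * (if la ∣ b then 0 else -3))) := by
    unfold ke_SG
    rw [Complex.ofReal_sum]
    apply Finset.sum_congr rfl
    intro α _
    rw [Complex.ofReal_mul, JL.K4_GX hu, Complex.ofReal_intCast]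
  have hb3 : ∀ b : Eis, ‖(if la ∣ b then (0 : ℂ) else -3)‖ ≤ 3 := by
    intro b
    split_ifs
    · rw [norm_zero]
      norm_num
    · rw [norm_neg]
      norm_num
  have h2 : ((ke_SG L u : ℝ) : ℂ) = 1 / ((NAB.A0 : ℂ) * u) * ∑' b : Eis, ∑ α ∈ rp L.f,
      (L.q α : ℂ) * ((JL.K4_E u b : ℂ) *
      (JL.psX (emb α / emb L.f * emb b) * (if la ∣ b then 0 else -3))) := by
    rw [Summable.tsum_finsetSum, Finset.mul_sum, h1]
    · apply Finset.sum_congr rfl
      intro α _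
      rw [tsum_mul_left]
      ring
    · intro α _
      apply Summable.mul_left
      refine JL.K4_summableC hu _ 3 fun b => ?_
      rw [norm_mul, JL.psX_norm, one_mul]
      exact hb3 b
  have h3 : ∀ b : Eis, ∑ α ∈ rp L.f, (L.q α : ℂ) * ((JL.K4_E u b : ℂ) *
      (JL.psX (emb α / emb L.f * emb b) * (if la ∣ b then 0 else -3))) =
      (-3 * ke_gX L) * ((if la ∣ b then 0 else (L.q b : ℝ) *
        Real.exp (-(4 * Real.pi / 3 * (b.norm : ℝ) / u)) : ℝ) : ℂ) := by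
    intro b
    have h4 := ke_gauss L hP b
    have h5 : ∀ α : Eis, (L.q α : ℂ) * ((JL.K4_E u b : ℂ) *
        (JL.psX (emb α / emb L.f * emb b) * (if la ∣ b then 0 else -3))) =
        ((JL.K4_E u b : ℂ) * (if la ∣ b then 0 else -3)) *
          ((L.q α : ℂ) * JL.psX (emb α * emb b / emb L.f)) := by
      intro α
      rw [div_mul_eq_mul_div]
      ring
    rw [Finset.sum_congr rfl fun α _ => h5 α, ← Finset.mul_sum, h4]
    unfold JL.K4_E
    split_ifs
    · rw [Complex.ofReal_zero, mul_zero, zero_mul, mul_zero]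
    · rw [Complex.ofReal_mul, Complex.ofReal_intCast]
      ring
  rw [h2, tsum_congr h3, tsum_mul_left]
  ring

theorem ke5_DX (L : Lev) {α : Eis} (hα : IsCoprime α L.f) : emb α / emb L.f ∈ JL.DX := by
  have hf := ke5_emb_ne L
  have hl : emb la ≠ 0 := CUL.l2_emb_ne JL.k5_la_ne
  refine ⟨?_, ?_, ?_⟩
  · rintro ⟨a, ha⟩
    rw [eq_div_iff hf, ← map_mul] at ha
    have h1 := emb_injective ha
    exact ke5_not_unit L (hα.isUnit_of_dvd' ⟨a, by rw [← h1]; ring⟩ dvd_rfl)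
  · rintro ⟨a, ha⟩
    rw [CUL.ta, div_add_div _ _ hf hl, eq_div_iff (mul_ne_zero hf hl), mul_one, ← map_mul, ← map_mul, ← map_mul,
      ← map_add] at ha
    have h1 := emb_injective ha
    exact ke5_la L ⟨a * L.f - α, by linear_combination -h1⟩
  · rintro ⟨a, ha⟩
    rw [CUL.ta, div_sub_div _ _ hf hl, eq_div_iff (mul_ne_zero hf hl), mul_one, ← map_mul, ← map_mul, ← map_mul,
      ← map_sub] at ha
    have h1 := emb_injective ha
    exact ke5_la L ⟨α - a * L.f, by linear_combination h1⟩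

/-- restriction to the coprime classes -/
theorem ke5_filter (L : Lev) (g : Eis → ℝ) :
    ∑ α ∈ rp L.f, (L.q α : ℝ) * g α =
      ∑ α ∈ (rp L.f).filter (fun α => IsCoprime α L.f), (L.q α : ℝ) * g α := by
  symm
  refine Finset.sum_subset (Finset.filter_subset _ _) ?_
  intro x hx hx'
  have h1 : ¬ IsCoprime x L.f := fun hc => hx' (Finset.mem_filter.2 ⟨hx, hc⟩)
  have h2 : L.q x = 0 := by
    by_contra h3
    exact h1 ((ke_ne_zero_iff L x).1 h3)
  rw [h2, Int.cast_zero, zero_mul]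

theorem ke5_int_SG (L : Lev) (hP : KEp L) :
    ∑ α ∈ (rp L.f).filter (fun α => IsCoprime α L.f), (L.q α : ℝ) * JL.LX (emb α / emb L.f) =
      ∫ u in Ioi (0 : ℝ), ke_SG L u / u := by
  have e : ∀ u : ℝ, ke_SG L u / u =
      ∑ α ∈ (rp L.f).filter (fun α => IsCoprime α L.f), (L.q α : ℝ) * (JL.GX (emb α / emb L.f) u / u) := by
    intro u
    rw [ke_SG, ke5_filter, Finset.sum_div]
    exact Finset.sum_congr rfl fun α _ => by rw [mul_div_assoc]
  simp only [e]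
  rw [integral_finsetSum]
  · refine Finset.sum_congr rfl fun α _ => ?_
    rw [integral_const_mul, JL.LX]
  · intro α hα
    exact (JL.LX_int (ke5_DX L (Finset.mem_filter.1 hα).2)).const_mul _

theorem ke5_abs_q2 (L : Lev) (x : Eis) : |(L.q x : ℝ)| ≤ 1 := by
  rcases ke_cases L x with h | h | h <;> rw [h] <;> norm_num

/-- exponential bound for a finite family -/
theorem ke5_bound_SG (L : Lev) (hP : KEp L) : ∃ C κ : ℝ, 0 < C ∧ 0 < κ ∧ ∀ u : ℝ, 0 < u →
    |ke_SG L u| ≤ C * Real.exp (-(κ * (u + 1 / u))) := by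
  have key : ∀ S : Finset Eis, (∀ α ∈ S, IsCoprime α L.f) → ∃ C κ : ℝ, 0 < C ∧ 0 < κ ∧ ∀ u : ℝ, 0 < u →
      |∑ α ∈ S, (L.q α : ℝ) * JL.GX (emb α / emb L.f) u| ≤ C * Real.exp (-(κ * (u + 1 / u))) := by
    intro S
    induction S using Finset.induction_on with
    | empty =>
      intro _
      refine ⟨1, 1, one_pos, one_pos, fun u _ => ?_⟩
      rw [Finset.sum_empty, abs_zero]
      positivity
    | insert a S ha ih =>
      intro hS
      obtain ⟨C, κ, hC, hκ, hb⟩ := ih fun α hα => hS α (Finset.mem_insert_of_mem hα)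
      obtain ⟨δ, ε, hδ, hε, hg⟩ := JL.DX_gap (ke5_DX L (hS a (Finset.mem_insert_self _ _)))
      obtain ⟨h1, h2, h3⟩ := hg (emb a / emb L.f) (by rw [sub_self, norm_zero]; exact hε.le)
      obtain ⟨C', κ', hC', hκ', hb'⟩ := JL.GX_bound hδ
      refine ⟨C' + C, min κ' κ, by positivity, lt_min hκ' hκ, fun u hu => ?_⟩
      have hu' : 0 < u + 1 / u := by positivity
      rw [Finset.sum_insert ha, add_mul]
      refine (abs_add_le _ _).trans (add_le_add ?_ ?_)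
      · rw [abs_mul]
        have h4 := hb' _ h1 h2 h3 u hu
        have h5 : |(L.q a : ℝ)| * |JL.GX (emb a / emb L.f) u| ≤ 1 * (C' * Real.exp (-(κ' * (u + 1 / u)))) :=
          mul_le_mul (ke5_abs_q2 L a) h4 (abs_nonneg _) zero_le_one
        refine h5.trans ?_
        rw [one_mul]
        refine mul_le_mul_of_nonneg_left (Real.exp_le_exp.2 (neg_le_neg ?_)) hC'.le
        exact mul_le_mul_of_nonneg_right (min_le_left _ _) hu'.le
      · refine (hb u hu).trans ?_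
        refine mul_le_mul_of_nonneg_left (Real.exp_le_exp.2 (neg_le_neg ?_)) hC.le
        exact mul_le_mul_of_nonneg_right (min_le_right _ _) hu'.le
  obtain ⟨C, κ, hC, hκ, hb⟩ := key ((rp L.f).filter (fun α => IsCoprime α L.f))
    fun α hα => (Finset.mem_filter.1 hα).2
  refine ⟨C, κ, hC, hκ, fun u hu => ?_⟩
  rw [ke_SG, ke5_filter]
  exact hb u hu

/-! ### the theta series -/

/-- the coefficients -/
noncomputable def ke5_c (L : Lev) (b : Eis) : ℝ := if la ∣ b then 0 else (L.q b : ℝ)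

theorem ke5_abs_c (L : Lev) (b : Eis) : |ke5_c L b| ≤ 1 := by
  unfold ke5_c
  split_ifs
  · rw [abs_zero]; exact zero_le_one
  · exact ke5_abs_q2 L b

/-- the theta series -/
noncomputable def ke5_th (L : Lev) (v : ℝ) : ℂ :=
  ∑' b : Eis, (ke5_c L b : ℂ) * (Real.exp (-(4 * Real.pi / 3 * (b.norm : ℝ)) * v) : ℂ)

theorem ke5_hasSum (L : Lev) {v : ℝ} (hv : 0 < v) :
    HasSum (fun b : Eis => (ke5_c L b : ℂ) * (Real.exp (-(4 * Real.pi / 3 * (b.norm : ℝ)) * v) : ℂ)) (ke5_th L v) := by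
  refine Summable.hasSum ?_
  refine Summable.of_norm_bounded (JL.k5_summable_exp hv) fun b => ?_
  rw [norm_mul, Complex.norm_real, Complex.norm_real, Real.norm_of_nonneg (Real.exp_pos _).le]
  exact mul_le_of_le_one_left (Real.exp_pos _).le (ke5_abs_c L b)

theorem ke5_poisson (L : Lev) (hP : KEp L) {u : ℝ} (hu : 0 < u) :
    ((ke_SG L u : ℝ) : ℂ) = -3 * ke_gX L / ((NAB.A0 : ℂ) * u) * ke5_th L (1 / u) := by
  rw [ke_SG_poisson L hP hu]
  congr 1
  unfold ke5_th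
  refine tsum_congr fun b => ?_
  rw [← Complex.ofReal_mul]
  congr 1
  unfold ke5_c
  split_ifs
  · rw [zero_mul]
  · congr 2
    ring

theorem ke5_gX (L : Lev) (hP : KEp L) : ke_gX L ≠ 0 := by
  intro h0
  have h1 := ke_gauss_norm L hP
  rw [h0, norm_zero, zero_pow two_ne_zero, ← norm_emb_sq] at h1
  have h2 := norm_pos_iff.2 (ke5_emb_ne L)
  have h3 : 0 < ‖emb L.f‖ ^ 2 := by positivity
  linarith

/-- the theta series in terms of `SG` -/
theorem ke5_th_eq (L : Lev) (hP : KEp L) {v : ℝ} (hv : 0 < v) :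
    ke5_th L v = -((NAB.A0 : ℂ) / (3 * ke_gX L)) * (((ke_SG L v⁻¹ : ℝ) : ℂ) * ((v⁻¹ : ℝ) : ℂ)) := by
  have hv' : (v : ℂ) ≠ 0 := by
    rw [Complex.ofReal_ne_zero]
    exact hv.ne'
  have hA := JL.k5_A0
  have hg := ke5_gX L hP
  rw [ke5_poisson L hP (inv_pos.2 hv), one_div, inv_inv, Complex.ofReal_inv]
  field_simp

theorem ke5_SG_div (L : Lev) (hP : KEp L) {v : ℝ} (hv : 0 < v) :
    ((ke_SG L v⁻¹ : ℝ) : ℂ) * ((v⁻¹ : ℝ) : ℂ) = -3 * ke_gX L / (NAB.A0 : ℂ) * ke5_th L v := by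
  have hv' : (v : ℂ) ≠ 0 := by
    rw [Complex.ofReal_ne_zero]
    exact hv.ne'
  have hA := JL.k5_A0
  rw [ke5_poisson L hP (inv_pos.2 hv), one_div, inv_inv, Complex.ofReal_inv]
  field_simp

theorem ke5_bound (L : Lev) (hP : KEp L) : ∃ C κ : ℝ, 0 < C ∧ 0 < κ ∧ ∀ v : ℝ, 0 < v →
    ‖ke5_th L v‖ ≤ C * Real.exp (-(κ * (v + 1 / v))) := by
  obtain ⟨C, κ, hC, hκ, hb⟩ := ke5_bound_SG L hP
  have hA := JL.k5_A0
  have hg := ke5_gX L hP
  have hK : 0 < ‖-((NAB.A0 : ℂ) / (3 * ke_gX L))‖ := by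
    rw [norm_neg]
    exact norm_pos_iff.2 (div_ne_zero hA (mul_ne_zero (by norm_num) hg))
  refine ⟨‖-((NAB.A0 : ℂ) / (3 * ke_gX L))‖ * (C * (2 / κ)), κ / 2, by positivity, by positivity, fun v hv => ?_⟩
  rw [ke5_th_eq L hP hv, norm_mul, norm_mul, Complex.norm_real, Complex.norm_real, mul_assoc]
  refine mul_le_mul_of_nonneg_left ?_ hK.le
  have h1 := hb v⁻¹ (inv_pos.2 hv)
  have e1 : v⁻¹ + 1 / v⁻¹ = v + 1 / v := by
    rw [one_div, inv_inv, one_div, add_comm]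
  rw [e1] at h1
  have hv' : 0 < 1 / v := by positivity
  have h2 : v⁻¹ ≤ 2 / κ * Real.exp (κ / 2 * (v + 1 / v)) := by
    have h3 : κ / 2 * (v + 1 / v) ≤ Real.exp (κ / 2 * (v + 1 / v)) := by
      have := Real.add_one_le_exp (κ / 2 * (v + 1 / v))
      linarith
    have h4 : v⁻¹ ≤ v + 1 / v := by
      rw [one_div]; linarith
    have h5 : v + 1 / v = 2 / κ * (κ / 2 * (v + 1 / v)) := by
      field_simp
    calc v⁻¹ ≤ v + 1 / v := h4
      _ = 2 / κ * (κ / 2 * (v + 1 / v)) := h5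
      _ ≤ _ := mul_le_mul_of_nonneg_left h3 (by positivity)
  have h6 : ‖(v⁻¹ : ℝ)‖ = v⁻¹ := Real.norm_of_nonneg (inv_pos.2 hv).le
  rw [h6, Real.norm_eq_abs]
  calc |ke_SG L v⁻¹| * v⁻¹ ≤ (C * Real.exp (-(κ * (v + 1 / v)))) * (2 / κ * Real.exp (κ / 2 * (v + 1 / v))) :=
        mul_le_mul h1 h2 (inv_pos.2 hv).le (by positivity)
    _ = C * (2 / κ) * (Real.exp (-(κ * (v + 1 / v))) * Real.exp (κ / 2 * (v + 1 / v))) := by ring
    _ = C * (2 / κ) * Real.exp (-(κ / 2 * (v + 1 / v))) := by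
        rw [← Real.exp_add]
        congr 2
        ring

theorem ke5_cont_SG (L : Lev) : ContinuousOn (ke_SG L) (Ioi 0) := by
  unfold ke_SG
  exact continuousOn_finsetSum _ fun α _ => continuousOn_const.mul (JL.GX_cont _)

theorem ke5_cont (L : Lev) (hP : KEp L) : ContinuousOn (ke5_th L) (Ioi 0) := by
  have h1 : ContinuousOn (fun v : ℝ => v⁻¹) (Ioi (0 : ℝ)) := continuousOn_inv₀.mono fun x hx => ne_of_gt hx
  have h2 : ContinuousOn (fun v : ℝ => ke_SG L v⁻¹) (Ioi (0 : ℝ)) :=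
    (ke5_cont_SG L).comp h1 fun x hx => mem_Ioi.2 (inv_pos.2 (mem_Ioi.1 hx))
  have h3 : ContinuousOn (fun v : ℝ => -((NAB.A0 : ℂ) / (3 * ke_gX L)) * (((ke_SG L v⁻¹ : ℝ) : ℂ) * ((v⁻¹ : ℝ) : ℂ)))
      (Ioi (0 : ℝ)) :=
    continuousOn_const.mul ((Complex.continuous_ofReal.comp_continuousOn h2).mul
      (Complex.continuous_ofReal.comp_continuousOn h1))
  exact h3.congr fun v hv => ke5_th_eq L hP hv

theorem ke5_mellin_cont (L : Lev) (hP : KEp L) : ContinuousAt (mellin (ke5_th L)) 1 := by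
  obtain ⟨C, p, hC, hp, hb⟩ := ke5_bound L hP
  have h1 : DifferentiableAt ℂ (mellin (ke5_th L)) 1 :=
    mellin_differentiableAt_of_isBigO_rpow (a := (1 : ℂ).re + 1) (b := (1 : ℂ).re - 1)
      ((ke5_cont L hP).locallyIntegrableOn measurableSet_Ioi) (JL.k5_top hC hp hb _) (by linarith) (JL.k5_bot hC hp hb _)
      (by linarith)
  exact h1.continuousAt

/-- removing the Euler factor at `la` -/
theorem ke5_euler (L : Lev) (h0 : L.ep = 0) {σ : ℝ} (hσ : 1 < σ) :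
    ∑' b : Eis, ke5_c L b * (b.norm : ℝ) ^ (-σ) = 6 * LJ L σ * (1 - (L.q la : ℝ) * 3 ^ (-σ)) := by
  have hdom : IsDomain Eis := emb_injective.isDomain emb
  have hs := JL.k5_summable_dir hσ (fun b => (L.q b : ℝ)) (ke5_abs_q2 L)
  have hc := JL.k5_summable_dir hσ (ke5_c L) (ke5_abs_c L)
  have e1 : ∀ b : Eis, ke5_c L b * (b.norm : ℝ) ^ (-σ) =
      (L.q b : ℝ) * (b.norm : ℝ) ^ (-σ) - (if la ∣ b then (L.q b : ℝ) * (b.norm : ℝ) ^ (-σ) else 0) := by
    intro b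
    unfold ke5_c
    split_ifs <;> ring
  have hi : Summable fun b : Eis => (if la ∣ b then (L.q b : ℝ) * (b.norm : ℝ) ^ (-σ) else 0) := by
    have h1 := hs.sub hc
    refine h1.congr fun b => ?_
    rw [e1 b]
    ring
  have hinj : Function.Injective fun b : Eis => la * b := fun a b hab => mul_left_cancel₀ JL.k5_la_ne hab
  have e2 : ∑' b : Eis, (if la ∣ b then (L.q b : ℝ) * (b.norm : ℝ) ^ (-σ) else 0) =
      ∑' b : Eis, (L.q (la * b) : ℝ) * ((la * b : Eis).norm : ℝ) ^ (-σ) := by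
    have h1 := hinj.tsum_eq (f := fun b : Eis => (if la ∣ b then (L.q b : ℝ) * (b.norm : ℝ) ^ (-σ) else 0)) (by
      intro b hb
      rw [Function.mem_support] at hb
      by_cases h2 : la ∣ b
      · obtain ⟨c, rfl⟩ := h2
        exact ⟨c, rfl⟩
      · exact absurd (if_neg h2) hb)
    rw [← h1]
    refine tsum_congr fun b => ?_
    rw [if_pos (dvd_mul_right _ _)]
  have e3 : ∑' b : Eis, (L.q (la * b) : ℝ) * ((la * b : Eis).norm : ℝ) ^ (-σ) =
      (L.q la : ℝ) * 3 ^ (-σ) * ∑' b : Eis, (L.q b : ℝ) * (b.norm : ℝ) ^ (-σ) := by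
    rw [← tsum_mul_left]
    refine tsum_congr fun b => ?_
    have h2 : (0 : ℝ) ≤ (b.norm : ℝ) := by rw [← norm_emb_sq]; positivity
    have h3 : ((la : Eis).norm : ℝ) = 3 := by
      have h4 : (la : Eis).norm = 3 := by decide
      rw [h4]; norm_num
    rw [JL.k5_norm_mul, h3, Real.mul_rpow (by norm_num) h2, L.q_mul]
    push_cast
    ring
  have e4 : LJ L σ = 1 / 6 * ∑' b : Eis, (L.q b : ℝ) * (b.norm : ℝ) ^ (-σ) := by
    unfold LJ Lev.qi
    simp only [h0, if_true]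
  rw [tsum_congr e1, hs.tsum_sub hi, e2, e3, e4]
  ring

theorem ke5_mellin (L : Lev) (h0 : L.ep = 0) {σ : ℝ} (hσ : 1 < σ) : mellin (ke5_th L) (σ : ℂ) =
    ((Real.Gamma σ * (4 * Real.pi / 3) ^ (-σ) * (6 * LJ L σ * (1 - (L.q la : ℝ) * 3 ^ (-σ))) : ℝ) : ℂ) := by
  have hpos : ∀ b : Eis, (0 : ℝ) ≤ (b.norm : ℝ) := fun b => by rw [← norm_emb_sq]; positivity
  have hpi : (0 : ℝ) < 4 * Real.pi / 3 := by positivity
  have hcount : Countable Eis := CUL.e2_equiv.countable_iff.2 inferInstance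
  have key := hasSum_mellin (a := fun b : Eis => (ke5_c L b : ℂ)) (p := fun b : Eis => 4 * Real.pi / 3 * (b.norm : ℝ))
    (F := ke5_th L) (s := (σ : ℂ)) ?_ (by rw [Complex.ofReal_re]; linarith) (fun t ht => ?_) ?_
  · rw [← key.tsum_eq, ← ke5_euler L h0 hσ, ← tsum_mul_left, Complex.ofReal_tsum]
    refine tsum_congr fun b => ?_
    have h1 : (((4 * Real.pi / 3 * (b.norm : ℝ) : ℝ) : ℂ)) ^ (σ : ℂ) =
        (((4 * Real.pi / 3 * (b.norm : ℝ)) ^ σ : ℝ) : ℂ) := by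
      rw [Complex.ofReal_cpow (mul_nonneg hpi.le (hpos b))]
    have h2 : (4 * Real.pi / 3 * (b.norm : ℝ)) ^ σ = ((4 * Real.pi / 3) ^ (-σ) * (b.norm : ℝ) ^ (-σ))⁻¹ := by
      rw [Real.mul_rpow hpi.le (hpos b), Real.rpow_neg hpi.le, Real.rpow_neg (hpos b), mul_inv, inv_inv, inv_inv]
    rw [h1, h2, Complex.Gamma_ofReal]
    push_cast
    rw [div_inv_eq_mul]
    ring
  · intro b
    rcases eq_or_ne b 0 with rfl | hb
    · left
      have h1 : ke5_c L 0 = 0 := by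
        unfold ke5_c
        rw [if_pos (dvd_zero _)]
      rw [h1, Complex.ofReal_zero]
    · right
      have h1 : 0 < ‖emb b‖ := norm_pos_iff.2 (CUL.l2_emb_ne hb)
      have h2 : (0 : ℝ) < (b.norm : ℝ) := by rw [← norm_emb_sq]; positivity
      positivity
  · exact ke5_hasSum L ht
  · rw [Complex.ofReal_re]
    have h1 := (JL.k5_summable_dir hσ (fun b => |ke5_c L b|) (fun b => by rw [abs_abs]; exact ke5_abs_c L b)).mul_left
      ((4 * Real.pi / 3) ^ (-σ))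
    refine h1.congr fun b => ?_
    rw [Complex.norm_real, Real.norm_eq_abs, Real.mul_rpow hpi.le (hpos b), Real.rpow_neg hpi.le,
      Real.rpow_neg (hpos b)]
    field_simp

/-- the integral of the theta series -/
theorem ke5_lim (L : Lev) (hP : KEp L) (h0 : L.ep = 0) {L₁ : ℝ} (hL : Tendsto (LJ L) (𝓝[>] 1) (𝓝 L₁)) :
    mellin (ke5_th L) 1 = ((3 / (4 * Real.pi) * (6 * L₁ * (1 - (L.q la : ℝ) / 3)) : ℝ) : ℂ) := by
  have hc := ke5_mellin_cont L hP
  have h1 : Tendsto (fun σ : ℝ => mellin (ke5_th L) (σ : ℂ)) (𝓝[>] 1) (𝓝 (mellin (ke5_th L) 1)) := by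
    have h2 : Tendsto (fun σ : ℝ => (σ : ℂ)) (𝓝[>] 1) (𝓝 1) := by
      have h3 : Tendsto (fun σ : ℝ => (σ : ℂ)) (𝓝 1) (𝓝 ((1 : ℝ) : ℂ)) := Complex.continuous_ofReal.tendsto 1
      rw [Complex.ofReal_one] at h3
      exact h3.mono_left nhdsWithin_le_nhds
    exact hc.tendsto.comp h2
  have hG : Tendsto Real.Gamma (𝓝[>] 1) (𝓝 1) := by
    have h3 : ContinuousAt Real.Gamma 1 :=
      (Real.differentiableAt_Gamma (s := 1) fun m hm => by
        have : (0 : ℝ) ≤ (m : ℝ) := Nat.cast_nonneg m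
        linarith).continuousAt
    have h4 := h3.tendsto
    rw [Real.Gamma_one] at h4
    exact h4.mono_left nhdsWithin_le_nhds
  have hpow : ∀ c : ℝ, 0 < c → Tendsto (fun σ : ℝ => c ^ (-σ)) (𝓝[>] 1) (𝓝 c⁻¹) := by
    intro c hc0
    have h3 : Continuous fun σ : ℝ => c ^ (-σ) := by
      have h4 : Continuous fun σ : ℝ => -σ := continuous_neg
      exact continuous_const.rpow h4 fun x => Or.inl hc0.ne'
    have h5 := h3.tendsto 1
    simp only [Real.rpow_neg_one] at h5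
    exact h5.mono_left nhdsWithin_le_nhds
  have h6 : Tendsto (fun σ : ℝ => Real.Gamma σ * (4 * Real.pi / 3) ^ (-σ) * (6 * LJ L σ * (1 - (L.q la : ℝ) * 3 ^ (-σ))))
      (𝓝[>] 1) (𝓝 (1 * (4 * Real.pi / 3)⁻¹ * (6 * L₁ * (1 - (L.q la : ℝ) * 3⁻¹)))) :=
    (hG.mul (hpow _ (by positivity))).mul ((hL.const_mul 6).mul ((((hpow 3 (by norm_num)).const_mul _)).const_sub 1))
  have h7 : Tendsto (fun σ : ℝ => mellin (ke5_th L) (σ : ℂ)) (𝓝[>] 1)
      (𝓝 ((1 * (4 * Real.pi / 3)⁻¹ * (6 * L₁ * (1 - (L.q la : ℝ) * 3⁻¹)) : ℝ) : ℂ)) := by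
    have h8 := (Complex.continuous_ofReal.tendsto _).comp h6
    refine h8.congr' ?_
    filter_upwards [self_mem_nhdsWithin] with σ hσ
    rw [ke5_mellin L h0 (mem_Ioi.1 hσ)]
    rfl
  rw [tendsto_nhds_unique h1 h7]
  congr 1
  have hpi := Real.pi_ne_zero
  field_simp

/-- the change of variables `v = 1 / u` -/
theorem ke5_subst (L : Lev) (hP : KEp L) :
    ((∫ u in Ioi (0 : ℝ), ke_SG L u / u : ℝ) : ℂ) = -3 * ke_gX L / (NAB.A0 : ℂ) * mellin (ke5_th L) 1 := by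
  have e1 : ((∫ u in Ioi (0 : ℝ), ke_SG L u / u : ℝ) : ℂ) = ∫ u in Ioi (0 : ℝ), ((ke_SG L u / u : ℝ) : ℂ) :=
    integral_ofReal.symm
  rw [e1, ← integral_comp_rpow_Ioi (fun u : ℝ => ((ke_SG L u / u : ℝ) : ℂ)) (p := -1) (by norm_num), mellin,
    ← integral_const_mul]
  refine setIntegral_congr_fun measurableSet_Ioi fun v hv => ?_
  have hv0 : (0 : ℝ) < v := hv
  have hv' : (v : ℂ) ≠ 0 := by
    rw [Complex.ofReal_ne_zero]
    exact hv0.ne'
  have h1 := ke5_SG_div L hP hv0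
  simp only [sub_self, Complex.cpow_zero, one_smul]
  rw [← h1, Real.rpow_neg_one, abs_neg, abs_one, one_mul]
  have h2 : v ^ ((-1 : ℝ) - 1) = v⁻¹ * v⁻¹ := by
    rw [← Real.rpow_neg_one, ← Real.rpow_add hv0]
    congr 1
  rw [h2, Complex.real_smul]
  push_cast
  field_simp

theorem ke_theta_lim (L : Lev) (hP : KEp L) (h0 : L.ep = 0) {L₁ : ℝ} (hL : Tendsto (LJ L) (𝓝[>] 1) (𝓝 L₁)) :
    ((∑ α ∈ (rp L.f).filter (fun α => IsCoprime α L.f), (L.q α : ℝ) * JL.LX (emb α / emb L.f) : ℝ) : ℂ) =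
      -3 * ke_gX L / (NAB.A0 : ℂ) * ((3 / (4 * Real.pi) * (6 * L₁ * (1 - (L.q la : ℝ) / 3)) : ℝ) : ℂ) := by
  rw [ke5_int_SG L hP, ke5_subst L hP, ke5_lim L hP h0 hL]

/-- `x(α / f)` -/
noncomputable def ke_xc (L : Lev) (c : Eis) : ℂ := xw (emb c / emb L.f)

theorem ke5_xc_ne (L : Lev) {α : Eis} (hα : IsCoprime α L.f) : ke_xc L α ≠ 0 := by
  obtain ⟨h1, h2, h3⟩ := ke5_DX L hα
  intro h0
  rcases (CUL.xw_eq_zero_iff h1).1 h0 with h4 | h4
  · exact h3 h4
  · exact h2 h4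

theorem ke5_xc_congr (L : Lev) {x y : Eis} (hxy : L.f ∣ x - y) : ke_xc L x = ke_xc L y := by
  obtain ⟨a, ha⟩ := hxy
  have hf := ke5_emb_ne L
  have e1 : x = y + L.f * a := by linear_combination ha
  have e2 : emb x / emb L.f = emb y / emb L.f + emb a := by
    rw [e1, map_add, map_mul (f := emb) L.f a, add_div]
    congr 1
    field_simp
  rw [ke_xc, e2, xw_add]
  rfl

theorem ke5_xc_unit (L : Lev) {ζ : Eis} (hζ : IsUnit ζ) (x : Eis) : ‖ke_xc L (ζ * x)‖ = ‖ke_xc L x‖ := by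
  have h1 : ‖emb ζ‖ = 1 := by
    obtain ⟨η, hη⟩ := hζ.exists_right_inv
    have h2 := JL.k5_norm_mul ζ η
    rw [hη] at h2
    have h3 : ((1 : Eis).norm : ℝ) = 1 := by
      have h4 : (1 : Eis).norm = 1 := by decide
      rw [h4]; norm_num
    rw [h3] at h2
    have h5 : (ζ.norm : ℤ) * η.norm = 1 := by exact_mod_cast h2.symm
    have h6 := norm_nonneg' ζ
    have h7 : ζ.norm = 1 := by
      rcases Int.mul_eq_one_iff_eq_one_or_neg_one.1 h5 with h8 | h8
      · exact h8.1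
      · omega
    have h9 := norm_emb_sq ζ
    rw [h7] at h9
    have h10 := norm_nonneg (emb ζ)
    have h11 : ‖emb ζ‖ ^ 2 = 1 := by rw [h9]; norm_num
    nlinarith
  unfold ke_xc
  rw [map_mul, mul_div_assoc, Q3L.xw_unit hζ, norm_mul, norm_pow, Complex.norm_conj, h1, one_pow, one_mul]

theorem ke_log_ee (L : Lev) (hP : KEp L) (h0 : L.ep = 0) {R : Finset Eis} (hR : IsR L R) {L₁ : ℝ}
    (hL : Tendsto (LJ L) (𝓝[>] 1) (𝓝 L₁)) :
    |Real.log ‖ee L R‖| = 3 * √3 / (4 * Real.pi) * (1 - (L.q la : ℝ) / 3) * √(L.f.norm : ℝ) * |L₁| := by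
  obtain ⟨C, hC⟩ := JL.LX_const
  -- the sum over `R`
  have e1 : Real.log ‖ee L R‖ = ∑ c ∈ R, (L.q c : ℝ) * Real.log ‖ke_xc L c‖ := by
    unfold ee
    rw [norm_prod, Real.log_prod (fun c hc => by
      rw [norm_ne_zero_iff]
      exact zpow_ne_zero _ (ke5_xc_ne L (hR.1 c hc)))]
    refine Finset.sum_congr rfl fun c _ => ?_
    rw [norm_zpow, Real.log_zpow]
    rfl
  -- the sum over the coprime classes
  have e2 := sum_R L hR (fun α => (((L.q α : ℝ) * Real.log ‖ke_xc L α‖ : ℝ) : ℂ)) (fun x y hxy => by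
    simp only [L.q_per _ _ hxy, ke5_xc_congr L hxy]) (fun ζ x hζ => by
    simp only [L.q_mul, q_unit_even L h0 hζ, one_mul, ke5_xc_unit L hζ])
  have e3 : ∑ α ∈ (rp L.f).filter (fun α => IsCoprime α L.f), (L.q α : ℝ) * Real.log ‖ke_xc L α‖ =
      6 * ∑ c ∈ R, (L.q c : ℝ) * Real.log ‖ke_xc L c‖ := by
    exact_mod_cast e2
  have e4 : ∑ α ∈ (rp L.f).filter (fun α => IsCoprime α L.f), (L.q α : ℝ) = 0 := by
    have h1 := ke5_filter L (fun _ => (1 : ℝ))
    simp only [mul_one] at h1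
    rw [← h1]
    exact_mod_cast ke_sum_q L
  have e5 : ∑ α ∈ (rp L.f).filter (fun α => IsCoprime α L.f), (L.q α : ℝ) * Real.log ‖ke_xc L α‖ =
      -(1 / 2) * ∑ α ∈ (rp L.f).filter (fun α => IsCoprime α L.f),
        (L.q α : ℝ) * JL.LX (emb α / emb L.f) := by
    have h1 : ∀ α ∈ (rp L.f).filter (fun α => IsCoprime α L.f), (L.q α : ℝ) * Real.log ‖ke_xc L α‖ =
        C / 2 * (L.q α : ℝ) + -(1 / 2) * ((L.q α : ℝ) * JL.LX (emb α / emb L.f)) := by
      intro α hα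
      have h2 := hC _ (ke5_DX L (Finset.mem_filter.1 hα).2)
      have h3 : Real.log ‖ke_xc L α‖ = (C - JL.LX (emb α / emb L.f)) / 2 := by
        unfold ke_xc
        linarith
      rw [h3]
      ring
    rw [Finset.sum_congr rfl h1, Finset.sum_add_distrib, ← Finset.mul_sum, ← Finset.mul_sum, e4, mul_zero, zero_add]
  have e6 : Real.log ‖ee L R‖ = -(1 / 12) * ∑ α ∈ (rp L.f).filter (fun α => IsCoprime α L.f),
        (L.q α : ℝ) * JL.LX (emb α / emb L.f) := by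
    rw [e1]
    linarith
  -- absolute values
  have h1 := congrArg norm (ke_theta_lim L hP h0 hL)
  have hg : ‖ke_gX L‖ = √(L.f.norm : ℝ) := by
    have h2 := ke_gauss_norm L hP
    rw [← h2]
    exact (Real.sqrt_sq (norm_nonneg _)).symm
  have hε : (0 : ℝ) ≤ 1 - (L.q la : ℝ) / 3 := by
    have := (abs_le.1 (ke5_abs_q2 L la)).2
    linarith
  have hA : ‖(NAB.A0 : ℂ)‖ = √3 / 2 := by
    rw [Complex.norm_real, Real.norm_of_nonneg NAB.A0_pos'.le, NAB.A0]
  rw [norm_mul, norm_div, norm_mul, hg, hA, Complex.norm_real, Complex.norm_real, Real.norm_eq_abs, Real.norm_eq_abs,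
    abs_mul, abs_mul, abs_mul, abs_of_nonneg hε] at h1
  have h8 : ‖(-3 : ℂ)‖ = 3 := by norm_num
  have h9 : |3 / (4 * Real.pi)| = 3 / (4 * Real.pi) := abs_of_pos (by positivity)
  have h10 : |(6 : ℝ)| = 6 := abs_of_pos (by norm_num)
  rw [h8, h9, h10] at h1
  rw [e6, abs_mul, h1]
  have h11 : |(-(1 / 12) : ℝ)| = 1 / 12 := by rw [abs_neg]; exact abs_of_pos (by norm_num)
  rw [h11]
  have hpi := Real.pi_ne_zero
  have h12 : √3 * √3 = 3 := Real.mul_self_sqrt (by norm_num)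
  have h13 : √3 ≠ 0 := by positivity
  have h14 : (1 : ℝ) / √3 = √3 / 3 := by
    rw [div_eq_div_iff h13 (by norm_num)]
    linarith
  have h15 : (1 : ℝ) / 12 * (3 * √(L.f.norm : ℝ) / (√3 / 2) *
      (3 / (4 * Real.pi) * (6 * |L₁| * (1 - (L.q la : ℝ) / 3)))) =
      9 / (4 * Real.pi) * (1 / √3) * (1 - (L.q la : ℝ) / 3) * √(L.f.norm : ℝ) * |L₁| := by
    field_simp
    ring
  rw [h15, h14]
  ring

end JGL
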