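import Pool.Agent.JGL.KO1
import Pool.Agent.JGL.T

/-!
# [JGL-KO] part 2: `KO_LY z = - 2 log |U(z)|`

`KO_LY z = ∑_{j mod 3} KO_LH (w ^ j si) z`.
-/

set_option autoImplicit false

open MeasureTheory Set Filter Topology
open scoped Classical ComplexConjugate

namespace JGL

open CM27 JZ
open CU (la)
open CUL (Nl ta si)
open JL (k2_L k2_L_apply)

/-- the sum of the three kernels -/
noncomputable def KO_LY (z : ℂ) : ℝ := KO_LH si z + KO_LH (w * si) z + KO_LH (w ^ 2 * si) z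

/-- the domain -/
def KO_Dy : Set ℂ := {z | Nl z ∧ z ∈ KO_Dh si ∧ z ∈ KO_Dh (w * si) ∧ z ∈ KO_Dh (w ^ 2 * si)}

theorem KO2_w2 : w ^ 2 + w + 1 = 0 := by
  have := CUL.w2
  linear_combination this

theorem KO2_nl_w {z : ℂ} (hz : Nl z) : Nl (w * z) := by
  rintro ⟨a, ha⟩
  apply hz
  refine ⟨CU.om ^ 2 * a, ?_⟩
  rw [map_mul, map_pow, ha]
  have h1 : emb CU.om = w := CUL.emb_om
  rw [h1]
  have h2 : w ^ 3 = 1 := by linear_combination (w - 1) * KO2_w2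
  linear_combination z * h2

theorem KO2_nl_si : Nl (w * si) := KO2_nl_w CUL.nl_si

theorem KO2_nl_si2 : Nl (w ^ 2 * si) := by
  have h1 : w ^ 2 * si = w * (w * si) := by ring
  rw [h1]
  exact KO2_nl_w KO2_nl_si

theorem KO2_diff {z p : ℂ} (hz : Nl z) (hp : Nl p) (h : z ∈ KO_Dh p) :
    NAB.E1 (z - p) - NAB.E1 (z + p) = OmC * (-2 * CUL.ez p + yw p / (xw z - xw p)) := by
  have h1 : ∀ x : ℂ, NAB.E1 x = OmC * CUL.ez x := by
    intro x
    unfold CUL.ez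
    rw [mul_div_cancel₀ _ OmC_ne]
  have hx : xw z - xw p ≠ 0 := by
    rw [sub_ne_zero]
    intro h0
    rcases (xw_eq_iff z p hz hp).1 h0 with h2 | h2
    · exact h.1 h2
    · exact h.2 h2
  have e1 := CUL.ez_add hz hp h.2 h.1
  have e2 := CUL.ez_add hz hp.neg (by rw [← sub_eq_add_neg]; exact h.1)
    (by rw [sub_neg_eq_add]; exact h.2)
  rw [← sub_eq_add_neg, CUL.ez_neg, xw_neg, yw_neg] at e2
  rw [h1, h1, e1, e2]
  field_simp
  ring

theorem KO2_xne {z p : ℂ} (hz : Nl z) (hp : Nl p) (h : z ∈ KO_Dh p) : xw z - xw p ≠ 0 := by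
  rw [sub_ne_zero]
  intro h0
  rcases (xw_eq_iff z p hz hp).1 h0 with h2 | h2
  · exact h.1 h2
  · exact h.2 h2

theorem KO2_yw_si : yw si = th := by
  have := ym_si
  unfold ym at this
  linear_combination -this

theorem KO2_cube (x : ℂ) : (x - xw si) * (x - w * xw si) * (x - w ^ 2 * xw si) = x ^ 3 + 1 := by
  have h1 := CUL.xw_si
  have h2 := KO2_w2
  have h3 : w ^ 3 = 1 := by linear_combination (w - 1) * h2
  linear_combination -x ^ 2 * xw si * h2 + x * xw si ^ 2 * (w * h2) - xw si ^ 3 * h3 - h1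

theorem KO2_x3 {z : ℂ} (hz : z ∈ KO_Dy) : xw z ^ 3 + 1 ≠ 0 := by
  obtain ⟨h0, h1, h2, h3⟩ := hz
  rw [← KO2_cube]
  have n1 := KO2_xne h0 CUL.nl_si h1
  have n2 := KO2_xne h0 KO2_nl_si h2
  have n3 := KO2_xne h0 KO2_nl_si2 h3
  have e3 : xw (w ^ 2 * si) = w ^ 2 * xw si := by
    have : w ^ 2 * si = w * (w * si) := by ring
    rw [this, xw_w, xw_w]
    ring
  rw [xw_w] at n2
  rw [e3] at n3
  exact mul_ne_zero (mul_ne_zero n1 n2) n3

theorem KO2_comb {z : ℂ} (hz : z ∈ KO_Dy) :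
    (NAB.E1 (z - si) - NAB.E1 (z + si)) + (NAB.E1 (z - w * si) - NAB.E1 (z + w * si)) +
      (NAB.E1 (z - w ^ 2 * si) - NAB.E1 (z + w ^ 2 * si)) =
    OmC * (3 * th * xw z ^ 2 / (xw z ^ 3 + 1)) := by
  have hx3 := KO2_x3 hz
  obtain ⟨h0, h1, h2, h3⟩ := hz
  have n1 := KO2_xne h0 CUL.nl_si h1
  have n2 := KO2_xne h0 KO2_nl_si h2
  have n3 := KO2_xne h0 KO2_nl_si2 h3
  have e3 : xw (w ^ 2 * si) = w ^ 2 * xw si := by
    have : w ^ 2 * si = w * (w * si) := by ring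
    rw [this, xw_w, xw_w]
    ring
  have e4 : yw (w ^ 2 * si) = yw si := by
    have : w ^ 2 * si = w * (w * si) := by ring
    rw [this, yw_w, yw_w]
  have e5 : CUL.ez (w ^ 2 * si) = w ^ 4 * CUL.ez si := by
    have : w ^ 2 * si = w * (w * si) := by ring
    rw [this, CUL.ez_w, CUL.ez_w]
    ring
  rw [KO2_diff h0 CUL.nl_si h1, KO2_diff h0 KO2_nl_si h2, KO2_diff h0 KO2_nl_si2 h3, e3, e4, e5,
    xw_w, yw_w, CUL.ez_w, KO2_yw_si]
  rw [xw_w] at n2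
  rw [e3] at n3
  have hw := KO2_w2
  have hw3 : w ^ 3 = 1 := by linear_combination (w - 1) * hw
  have hx0 := CUL.xw_si
  have hc := KO2_cube (xw z)
  have key : th / (xw z - xw si) + th / (xw z - w * xw si) + th / (xw z - w ^ 2 * xw si) =
      3 * th * xw z ^ 2 / (xw z ^ 3 + 1) := by
    rw [← hc]
    rw [div_add_div _ _ n1 n2, div_add_div _ _ (mul_ne_zero n1 n2) n3]
    congr 1
    linear_combination (-2 * th * xw z * xw si + w * th * xw si ^ 2) * hw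
  have e6 : (-2 * CUL.ez si + th / (xw z - xw si)) + (-2 * (w ^ 2 * CUL.ez si) + th / (xw z - w * xw si)) +
      (-2 * (w ^ 4 * CUL.ez si) + th / (xw z - w ^ 2 * xw si)) =
      (th / (xw z - xw si) + th / (xw z - w * xw si) + th / (xw z - w ^ 2 * xw si)) := by
    linear_combination -2 * CUL.ez si * hw - 2 * CUL.ez si * w * hw3
  rw [← mul_add, ← mul_add, e6, key]

theorem KO2_log {f : ℂ → ℂ} {f' z : ℂ} (hf : HasDerivAt f f' z) (h0 : f z ≠ 0) :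
    HasFDerivAt (fun z => Real.log (‖f z‖ ^ 2)) ((2 : ℝ) • k2_L (f' / f z)) z := by
  have h1 := hf.hasFDerivAt.restrictScalars ℝ
  have hn : ‖f z‖ ^ 2 ≠ 0 := pow_ne_zero _ (norm_ne_zero_iff.2 h0)
  have h2 := h1.norm_sq.log hn
  refine h2.congr_fderiv ?_
  ext h
  have e1 : (innerSL ℝ) (f z) (h * f') = (h * f' * conj (f z)).re := by
    rw [innerSL_apply_apply, Complex.inner]
  have e2 : (‖f z‖ ^ 2)⁻¹ * (h * f' * conj (f z)).re = (f' / f z * h).re := by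
    rw [← Complex.re_ofReal_mul]
    congr 1
    have h5 : conj (f z) * f z = ((‖f z‖ ^ 2 : ℝ) : ℂ) := by
      rw [Complex.conj_mul']
      push_cast
      rfl
    have h6 : ((‖f z‖ ^ 2 : ℝ) : ℂ) ≠ 0 := by
      rw [← h5]
      exact mul_ne_zero ((map_ne_zero _).2 h0) h0
    rw [Complex.ofReal_inv, inv_mul_eq_iff_eq_mul₀ h6, ← h5]
    field_simp
  show (‖f z‖ ^ 2)⁻¹ * (2 • (innerSL ℝ) (f z) (h * f')) = (2 : ℝ) * (f' / f z * h).re
  rw [e1, nsmul_eq_mul, ← e2]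
  push_cast
  ring

theorem KO2_ne {z : ℂ} (hz : z ∈ KO_Dy) : th - yw z ≠ 0 ∧ th + yw z ≠ 0 := by
  have hx3 := KO2_x3 hz
  have h1 := weq z hz.1
  have h2 := th_sq
  have h3 : (th - yw z) * (th + yw z) = -4 * (xw z ^ 3 + 1) := by linear_combination h2 - h1
  have h4 : (th - yw z) * (th + yw z) ≠ 0 := by
    rw [h3]
    exact mul_ne_zero (by norm_num) hx3
  exact ⟨left_ne_zero_of_mul h4, right_ne_zero_of_mul h4⟩

theorem KO2_log_U {z : ℂ} (hz : z ∈ KO_Dy) :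
    2 * Real.log ‖Um z‖ = Real.log (‖th - yw z‖ ^ 2) - Real.log (‖th + yw z‖ ^ 2) := by
  obtain ⟨h1, h2⟩ := KO2_ne hz
  have h3 : Um z = (th - yw z) / (th + yw z) := by
    unfold Um ym
    rw [← sub_eq_add_neg, sub_neg_eq_add]
  rw [h3, norm_div, Real.log_div (norm_ne_zero_iff.2 h1) (norm_ne_zero_iff.2 h2), Real.log_pow, Real.log_pow]
  push_cast
  ring

theorem KO2_lin (a b c d e : ℂ) : (-2 : ℝ) • k2_L a + (-2 : ℝ) • k2_L b + (-2 : ℝ) • k2_L c +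
    ((2 : ℝ) • k2_L d - (2 : ℝ) • k2_L e) = (-2 : ℝ) • k2_L (a + b + c - d + e) := by
  rw [map_add, map_sub, map_add, map_add]
  module

theorem KO2_deriv {z : ℂ} (hz : z ∈ KO_Dy) : HasFDerivAt (fun z => KO_LY z +
    (Real.log (‖th - yw z‖ ^ 2) - Real.log (‖th + yw z‖ ^ 2))) (0 : ℂ →L[ℝ] ℝ) z := by
  have hx3 := KO2_x3 hz
  obtain ⟨n1, n2⟩ := KO2_ne hz
  have hy := yw_deriv z hz.1
  have d1 := KO2_log (hy.const_sub th) n1
  have d2 := KO2_log (hy.const_add th) n2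
  have d3 := (((KO_LH_deriv hz.2.1).add (KO_LH_deriv hz.2.2.1)).add (KO_LH_deriv hz.2.2.2)).add (d1.sub d2)
  have d4 : HasFDerivAt (fun z => KO_LY z +
    (Real.log (‖th - yw z‖ ^ 2) - Real.log (‖th + yw z‖ ^ 2))) _ z := d3
  refine d4.congr_fderiv ?_
  have e1 : (-2 : ℝ) • k2_L (NAB.E1 (z - si) - NAB.E1 (z + si)) +
      (-2 : ℝ) • k2_L (NAB.E1 (z - w * si) - NAB.E1 (z + w * si)) +
      (-2 : ℝ) • k2_L (NAB.E1 (z - w ^ 2 * si) - NAB.E1 (z + w ^ 2 * si)) +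
      ((2 : ℝ) • k2_L (-(6 * OmC * xw z ^ 2) / (th - yw z)) - (2 : ℝ) • k2_L (6 * OmC * xw z ^ 2 / (th + yw z))) =
      (-2 : ℝ) • k2_L ((NAB.E1 (z - si) - NAB.E1 (z + si)) + (NAB.E1 (z - w * si) - NAB.E1 (z + w * si)) +
      (NAB.E1 (z - w ^ 2 * si) - NAB.E1 (z + w ^ 2 * si)) - (-(6 * OmC * xw z ^ 2) / (th - yw z)) +
      (6 * OmC * xw z ^ 2 / (th + yw z))) := by
    exact KO2_lin _ _ _ _ _
  rw [e1, KO2_comb hz]
  have h1 := weq z hz.1
  have h2 := th_sq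
  have h3 : (th - yw z) * (th + yw z) = -4 * (xw z ^ 3 + 1) := by linear_combination h2 - h1
  have e2 : OmC * (3 * th * xw z ^ 2 / (xw z ^ 3 + 1)) - (-(6 * OmC * xw z ^ 2) / (th - yw z)) +
      (6 * OmC * xw z ^ 2 / (th + yw z)) = 0 := by
    have e3 : - (-(6 * OmC * xw z ^ 2) / (th - yw z)) + (6 * OmC * xw z ^ 2 / (th + yw z)) =
        6 * OmC * xw z ^ 2 * (2 * th) / ((th - yw z) * (th + yw z)) := by
      field_simp
      ring
    rw [sub_add_eq_add_sub, add_sub_assoc, sub_eq_add_neg, add_comm (6 * OmC * xw z ^ 2 / (th + yw z)), e3, h3]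
    field_simp
    ring
  rw [e2, map_zero, smul_zero]

theorem KO2_open : IsOpen KO_Dy := by
  have h1 : KO_Dy = {z | Nl z} ∩ (({z | Nl (z - si)} ∩ {z | Nl (z + si)}) ∩
      (({z | Nl (z - w * si)} ∩ {z | Nl (z + w * si)}) ∩
        ({z | Nl (z - w ^ 2 * si)} ∩ {z | Nl (z + w ^ 2 * si)}))) := by
    ext z
    simp [KO_Dy, KO_Dh]
  rw [h1]
  have ho : ∀ c : ℂ, IsOpen {z | Nl (z - c)} ∧ IsOpen {z | Nl (z + c)} := fun c =>
    ⟨CUL.g1_nl_open.preimage (f := fun z => z - c) (by fun_prop),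
      CUL.g1_nl_open.preimage (f := fun z => z + c) (by fun_prop)⟩
  refine CUL.g1_nl_open.inter (((ho _).1.inter (ho _).2).inter (((ho _).1.inter (ho _).2).inter
    ((ho _).1.inter (ho _).2)))

theorem KO2_count : KO_Dyᶜ.Countable := by
  have h1 : KO_Dyᶜ ⊆ {z | ¬ Nl (z + 0)} ∪ (({z | ¬ Nl (z + -si)} ∪ {z | ¬ Nl (z + si)}) ∪
      (({z | ¬ Nl (z + -(w * si))} ∪ {z | ¬ Nl (z + w * si)}) ∪
        ({z | ¬ Nl (z + -(w ^ 2 * si))} ∪ {z | ¬ Nl (z + w ^ 2 * si)}))) := by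
    intro z hz
    simp only [KO_Dy, KO_Dh, Set.mem_compl_iff, Set.mem_ofPred_eq] at hz
    simp only [Set.mem_union, Set.mem_ofPred_eq, add_zero, ← sub_eq_add_neg]
    tauto
  have hc := CUL.g1_nl_countable
  exact Set.Countable.mono h1 ((hc _).union (((hc _).union (hc _)).union (((hc _).union (hc _)).union
    ((hc _).union (hc _)))))

theorem KO2_const : ∃ C : ℝ, ∀ z ∈ KO_Dy, KO_LY z + 2 * Real.log ‖Um z‖ = C := by
  have hconn : IsPreconnected KO_Dy := by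
    have h := KO2_count.isPathConnected_compl_of_one_lt_rank (E := ℂ)
      (by rw [Complex.rank_real_complex]; exact Nat.one_lt_ofNat)
    rw [compl_compl] at h
    exact h.isConnected.isPreconnected
  by_cases hne : KO_Dy.Nonempty
  swap
  · exact ⟨0, fun z hz => absurd ⟨z, hz⟩ hne⟩
  obtain ⟨z0, hz0⟩ := hne
  refine ⟨KO_LY z0 + (Real.log (‖th - yw z0‖ ^ 2) - Real.log (‖th + yw z0‖ ^ 2)), fun z hz => ?_⟩
  rw [KO2_log_U hz]
  refine KO2_open.is_const_of_fderiv_eq_zero (𝕜 := ℝ) (f := fun z => KO_LY z +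
    (Real.log (‖th - yw z‖ ^ 2) - Real.log (‖th + yw z‖ ^ 2))) hconn ?_ ?_ hz hz0
  · intro y hy
    exact (KO2_deriv hy).differentiableAt.differentiableWithinAt
  · intro y hy
    exact (KO2_deriv hy).fderiv

theorem KO_LY_neg (z : ℂ) : KO_LY (-z) = - KO_LY z := by
  unfold KO_LY
  rw [KO_LH_neg, KO_LH_neg, KO_LH_neg]
  ring

theorem KO_Um_neg {z : ℂ} (hz : z ∈ KO_Dy) : Um (-z) = (Um z)⁻¹ := by
  obtain ⟨h1, h2⟩ := KO2_ne hz
  unfold Um ym
  rw [yw_neg, inv_div, neg_neg, ← sub_eq_add_neg, sub_neg_eq_add]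

theorem KO2_DH_neg {p z : ℂ} (hz : z ∈ KO_Dh p) : -z ∈ KO_Dh p := by
  refine ⟨?_, ?_⟩
  · have h1 : -z - p = -(z + p) := by ring
    rw [h1]
    exact hz.2.neg
  · have h1 : -z + p = -(z - p) := by ring
    rw [h1]
    exact hz.1.neg

theorem KO_Dy_neg {z : ℂ} (hz : z ∈ KO_Dy) : -z ∈ KO_Dy :=
  ⟨hz.1.neg, KO2_DH_neg hz.2.1, KO2_DH_neg hz.2.2.1, KO2_DH_neg hz.2.2.2⟩

/-- `KO_LY = - 2 log |U|` -/
theorem KO_LY_eq {z : ℂ} (hz : z ∈ KO_Dy) : KO_LY z = -2 * Real.log ‖Um z‖ := by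
  obtain ⟨C, hC⟩ := KO2_const
  have h1 := hC z hz
  have h2 := hC (-z) (KO_Dy_neg hz)
  rw [KO_LY_neg, KO_Um_neg hz, norm_inv, Real.log_inv] at h2
  linarith

end JGL
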