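import Pool.Agent.JL.K2
import Pool.Agent.JGL.Defs

/-!
# [JGL-KO] part 1: the kernel `∫ [T₀(u, z - p) - T₀(u, z + p)] du / u`

`KO_GH p z u = T₀(u, z - p) - T₀(u, z + p)`, `KO_LH p z = ∫ KO_GH p z u du / u`.  The real derivative of
`KO_LH p` is `h ↦ -2 Re ((E1(z - p) - E1(z + p)) h)`, and `KO_LH p (-z) = - KO_LH p z`.
-/

set_option autoImplicit false

open MeasureTheory Set Filter Topology
open scoped Classical ComplexConjugate

namespace JGL

open CM27 JZ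
open CU (la)
open CUL (Nl ta si)
open JL (Ak_gap GX_Tk k1_large k1_small k1_inv k1_cont Tk1_bound k2_L k2_L_apply k2_L_norm k2_E1 Ak_deriv)

/-- `T₀(u, z - p) - T₀(u, z + p)` -/
noncomputable def KO_GH (p z : ℂ) (u : ℝ) : ℝ := NAB.Ak 0 u (z - p) - NAB.Ak 0 u (z + p)

/-- `∫ KO_GH p z u du / u` -/
noncomputable def KO_LH (p z : ℂ) : ℝ := ∫ u in Ioi (0 : ℝ), KO_GH p z u / u

theorem KO1_Ak_neg {u : ℝ} (hu : 0 < u) (z : ℂ) : NAB.Ak 0 u (-z) = NAB.Ak 0 u z := by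
  have h1 := NAB.Tk_neg 0 u z
  rw [pow_zero, one_mul, GX_Tk hu, GX_Tk hu] at h1
  exact_mod_cast h1

theorem KO_GH_neg {u : ℝ} (hu : 0 < u) (p z : ℂ) : KO_GH p (-z) u = - KO_GH p z u := by
  unfold KO_GH
  have h1 : -z - p = -(z + p) := by ring
  have h2 : -z + p = -(z - p) := by ring
  rw [h1, h2, KO1_Ak_neg hu, KO1_Ak_neg hu]
  ring

theorem KO_LH_neg (p z : ℂ) : KO_LH p (-z) = - KO_LH p z := by
  unfold KO_LH
  rw [← integral_neg]
  refine setIntegral_congr_fun measurableSet_Ioi fun u hu => ?_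
  show KO_GH p (-z) u / u = -(KO_GH p z u / u)
  rw [KO_GH_neg hu, neg_div]

theorem KO_GH_bound {δ : ℝ} (hδ : 0 < δ) : ∃ C κ : ℝ, 0 < C ∧ 0 < κ ∧ ∀ p z : ℂ,
    (∀ a : Eis, δ ≤ ‖z - p + emb a‖) → (∀ a : Eis, δ ≤ ‖z + p + emb a‖) → ∀ u : ℝ, 0 < u →
    |KO_GH p z u| ≤ C * Real.exp (-(κ * (u + 1 / u))) := by
  obtain ⟨C1, κ1, hC1, hκ1, h1⟩ := Ak_gap 0 hδ
  obtain ⟨C2, κ2, hC2, hκ2, h2⟩ := NAB.T0_small
  refine ⟨2 * C1 + 8 * C2 / κ2, min (κ1 / 2) (κ2 / 4), by positivity,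
    lt_min (by positivity) (by positivity), fun p z hz1 hz2 u hu => ?_⟩
  set κ := min (κ1 / 2) (κ2 / 4) with hκ
  have hκ0 : 0 < κ := lt_min (by positivity) (by positivity)
  have hκa : κ ≤ κ1 / 2 := min_le_left _ _
  have hκb : κ ≤ κ2 / 4 := min_le_right _ _
  have hE : 0 < Real.exp (-(κ * (u + 1 / u))) := Real.exp_pos _
  rcases le_or_gt 1 u with hu1 | hu1
  · have hb : ∀ z' : ℂ, (∀ a : Eis, δ ≤ ‖z' + emb a‖) →
        NAB.Ak 0 u z' ≤ 2 * C1 * Real.exp (-(κ1 * u)) := by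
      intro z' hz'
      have h3 := h1 z' hz' u hu
      have h4 : (1 + 1 / u) ^ (0 + 1) ≤ 2 := by
        have : 1 / u ≤ 1 := by
          rw [div_le_iff₀ hu]
          linarith
        rw [zero_add, pow_one]
        linarith
      have h5 : C1 * (1 + 1 / u) ^ (0 + 1) ≤ C1 * 2 := mul_le_mul_of_nonneg_left h4 hC1.le
      have h6 := mul_le_mul_of_nonneg_right h5 (Real.exp_pos (-(κ1 * u))).le
      linarith
    have p1 := NAB.Ak_nonneg 0 u (z - p)
    have p2 := NAB.Ak_nonneg 0 u (z + p)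
    have q1 := hb (z - p) hz1
    have q2 := hb (z + p) hz2
    have h7 := k1_large hκa hκ0 hu1
    have h8 : |KO_GH p z u| ≤ 2 * C1 * Real.exp (-(κ1 * u)) := by
      unfold KO_GH
      rw [abs_le]
      constructor
      · linarith
      · linarith
    calc |KO_GH p z u| ≤ 2 * C1 * Real.exp (-(κ1 * u)) := h8
      _ ≤ 2 * C1 * Real.exp (-(κ * (u + 1 / u))) := mul_le_mul_of_nonneg_left h7 (by positivity)
      _ ≤ (2 * C1 + 8 * C2 / κ2) * Real.exp (-(κ * (u + 1 / u))) := by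
          apply mul_le_mul_of_nonneg_right _ hE.le
          have : 0 < 8 * C2 / κ2 := by positivity
          linarith
  · have h3 : (u : ℂ) * (KO_GH p z u : ℂ) = ((u : ℂ) * NAB.Tk 0 u (z - p) - 1 / (NAB.A0 : ℂ)) -
        ((u : ℂ) * NAB.Tk 0 u (z + p) - 1 / (NAB.A0 : ℂ)) := by
      rw [GX_Tk hu, GX_Tk hu]
      unfold KO_GH
      push_cast
      ring
    have h4 : ‖(u : ℂ) * (KO_GH p z u : ℂ)‖ ≤ 2 * (C2 * (1 + u) * Real.exp (-(κ2 / u))) := by
      rw [h3]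
      refine le_trans (norm_sub_le _ _) ?_
      have e2 := h2 u hu (z - p)
      have e3 := h2 u hu (z + p)
      linarith
    have h5 : ‖(u : ℂ) * (KO_GH p z u : ℂ)‖ = u * |KO_GH p z u| := by
      rw [norm_mul, Complex.norm_real, Complex.norm_real, Real.norm_of_nonneg hu.le,
        Real.norm_eq_abs]
    rw [h5] at h4
    have h6 : 2 * (C2 * (1 + u) * Real.exp (-(κ2 / u))) ≤ 4 * C2 * Real.exp (-(κ2 / u)) := by
      have : C2 * (1 + u) ≤ C2 * 2 := mul_le_mul_of_nonneg_left (by linarith) hC2.le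
      have := mul_le_mul_of_nonneg_right this (Real.exp_pos (-(κ2 / u))).le
      linarith
    have h7 : |KO_GH p z u| ≤ 1 / u * (4 * C2 * Real.exp (-(κ2 / u))) := by
      rw [one_div, ← div_eq_inv_mul, le_div_iff₀ hu]
      linarith
    have h8 : Real.exp (-(κ2 / u)) = Real.exp (-(κ2 / 2 / u)) * Real.exp (-(κ2 / 2 / u)) := by
      rw [← Real.exp_add]
      congr 1
      ring
    have h9 := k1_inv (c := κ2 / 2) (by positivity) hu
    have h10 : Real.exp (-(κ2 / 2 / u)) ≤ Real.exp (-(κ * (u + 1 / u))) :=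
      k1_small (by linarith) hκ0 hu hu1.le
    calc |KO_GH p z u| ≤ 1 / u * (4 * C2 * Real.exp (-(κ2 / u))) := h7
      _ = 4 * C2 * (1 / u * Real.exp (-(κ2 / 2 / u))) * Real.exp (-(κ2 / 2 / u)) := by
          rw [h8]; ring
      _ ≤ 4 * C2 * (1 / (κ2 / 2)) * Real.exp (-(κ2 / 2 / u)) :=
          mul_le_mul_of_nonneg_right (mul_le_mul_of_nonneg_left h9 (by positivity))
            (Real.exp_pos _).le
      _ = 8 * C2 / κ2 * Real.exp (-(κ2 / 2 / u)) := by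
          congr 1
          field_simp
          ring
      _ ≤ 8 * C2 / κ2 * Real.exp (-(κ * (u + 1 / u))) :=
          mul_le_mul_of_nonneg_left h10 (by positivity)
      _ ≤ (2 * C1 + 8 * C2 / κ2) * Real.exp (-(κ * (u + 1 / u))) := by
          apply mul_le_mul_of_nonneg_right _ hE.le
          linarith

theorem KO_GH_cont (p z : ℂ) : ContinuousOn (KO_GH p z) (Ioi 0) := by
  unfold KO_GH
  exact (k1_cont _).sub (k1_cont _)

/-- `z - p` and `z + p` are off the lattice -/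
def KO_Dh (p : ℂ) : Set ℂ := {z | Nl (z - p) ∧ Nl (z + p)}

theorem KO_Dh_gap {p z : ℂ} (hz : z ∈ KO_Dh p) : ∃ δ ε : ℝ, 0 < δ ∧ 0 < ε ∧ ∀ z' : ℂ, ‖z' - z‖ ≤ ε →
    (∀ a : Eis, δ ≤ ‖z' - p + emb a‖) ∧ (∀ a : Eis, δ ≤ ‖z' + p + emb a‖) := by
  obtain ⟨h1, h2⟩ := hz
  obtain ⟨d1, hd1, g1⟩ := NAB.a2a_gap (z - p) h1
  obtain ⟨d2, hd2, g2⟩ := NAB.a2a_gap (z + p) h2
  have hm : 0 < min d1 d2 := lt_min hd1 hd2
  have m1 : min d1 d2 ≤ d1 := min_le_left _ _
  have m2 : min d1 d2 ≤ d2 := min_le_right _ _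
  have key : ∀ (x y : ℂ) (d : ℝ), min d1 d2 ≤ d → ‖y - x‖ ≤ min d1 d2 / 2 →
      d ≤ ‖x‖ → min d1 d2 / 2 ≤ ‖y‖ := by
    intro x y d h3 h4 h5
    have h6 : ‖x‖ ≤ ‖y‖ + ‖y - x‖ := by
      have : x = y - (y - x) := by ring
      calc ‖x‖ = ‖y - (y - x)‖ := by rw [← this]
        _ ≤ _ := norm_sub_le _ _
    linarith
  refine ⟨min d1 d2 / 2, min d1 d2 / 2, by positivity, by positivity,
    fun z' hz' => ⟨fun a => ?_, fun a => ?_⟩⟩
  · refine key (z - p + emb a) (z' - p + emb a) d1 m1 ?_ (g1 a)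
    have : z' - p + emb a - (z - p + emb a) = z' - z := by ring
    rw [this]
    exact hz'
  · refine key (z + p + emb a) (z' + p + emb a) d2 m2 ?_ (g2 a)
    have : z' + p + emb a - (z + p + emb a) = z' - z := by ring
    rw [this]
    exact hz'

theorem KO_LH_int {p z : ℂ} (hz : z ∈ KO_Dh p) : IntegrableOn (fun u : ℝ => KO_GH p z u / u) (Ioi 0) := by
  obtain ⟨δ, ε, hδ, hε, hg⟩ := KO_Dh_gap hz
  obtain ⟨C, κ, hC, hκ, hb⟩ := KO_GH_bound hδ
  have hz0 : ‖z - z‖ ≤ ε := by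
    rw [sub_self, norm_zero]
    exact hε.le
  obtain ⟨g1, g2⟩ := hg z hz0
  have hb' := hb p z g1 g2
  have hcont : ContinuousOn (fun u : ℝ => KO_GH p z u / u) (Ioi 0) :=
    (KO_GH_cont p z).div continuousOn_id fun u hu => ne_of_gt hu
  have hint : IntegrableOn (fun u : ℝ => C / κ * Real.exp (-κ * u)) (Ioi 0) :=
    (exp_neg_integrableOn_Ioi 0 hκ).const_mul _
  refine Integrable.mono' hint (hcont.aestronglyMeasurable measurableSet_Ioi) ?_
  refine (ae_restrict_iff' measurableSet_Ioi).2 (Filter.Eventually.of_forall fun u hu => ?_)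
  have hu0 : 0 < u := hu
  rw [norm_div, Real.norm_eq_abs, Real.norm_of_nonneg hu0.le]
  have h1 := hb' u hu0
  have h2 : Real.exp (-(κ * (u + 1 / u))) = Real.exp (-κ * u) * Real.exp (-(κ / u)) := by
    rw [← Real.exp_add]
    congr 1
    ring
  have h3 := k1_inv hκ hu0
  calc |KO_GH p z u| / u ≤ C * Real.exp (-(κ * (u + 1 / u))) / u :=
        div_le_div_of_nonneg_right h1 hu0.le
    _ = C * Real.exp (-κ * u) * (1 / u * Real.exp (-(κ / u))) := by
        rw [h2]; ring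
    _ ≤ C * Real.exp (-κ * u) * (1 / κ) := mul_le_mul_of_nonneg_left h3 (by positivity)
    _ = C / κ * Real.exp (-κ * u) := by ring

theorem KO_LH_deriv {p z : ℂ} (hz : z ∈ KO_Dh p) : HasFDerivAt (KO_LH p)
    ((-2 : ℝ) • k2_L (NAB.E1 (z - p) - NAB.E1 (z + p))) z := by
  obtain ⟨δ, ε, hδ, hε, hg⟩ := KO_Dh_gap hz
  obtain ⟨C, κ, hC, hκ, hT⟩ := Tk1_bound hδ
  have hpi := Real.pi_pos
  have hexp : ∀ u : ℝ, 0 < u → C * Real.exp (-(κ * (u + 1 / u))) ≤ C * Real.exp (-κ * u) := by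
    intro u hu
    refine mul_le_mul_of_nonneg_left (Real.exp_le_exp.2 ?_) hC.le
    have : 0 < κ * (1 / u) := by positivity
    nlinarith
  have hTc : ∀ z' : ℂ, ContinuousOn (fun u : ℝ => NAB.Tk 1 u z') (Ioi 0) := fun z' =>
    (NAB.Tk_cont 1).comp (f := fun u : ℝ => (u, z')) (by fun_prop) (fun u hu => ⟨hu, mem_univ _⟩)
  have key : HasFDerivAt (fun z' : ℂ => ∫ u in Ioi (0 : ℝ), KO_GH p z' u / u)
      (∫ u in Ioi (0 : ℝ), ((-2 * Real.pi : ℝ) • k2_L)
        (NAB.Tk 1 u (z - p) - NAB.Tk 1 u (z + p))) z := by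
    refine hasFDerivAt_integral_of_dominated_of_fderiv_le (μ := volume.restrict (Ioi (0 : ℝ)))
      (F := fun z' u => KO_GH p z' u / u)
      (F' := fun z' u => ((-2 * Real.pi : ℝ) • k2_L)
        (NAB.Tk 1 u (z' - p) - NAB.Tk 1 u (z' + p)))
      (bound := fun u => 2 * Real.pi * (2 * (C * Real.exp (-κ * u))))
      (s := Metric.closedBall z ε) (Metric.closedBall_mem_nhds z hε) ?_ (KO_LH_int hz) ?_ ?_ ?_ ?_
    · refine Eventually.of_forall fun z' => ?_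
      refine ContinuousOn.aestronglyMeasurable ?_ measurableSet_Ioi
      exact (KO_GH_cont p z').div continuousOn_id (fun u hu => (ne_of_gt hu))
    · refine ContinuousOn.aestronglyMeasurable ?_ measurableSet_Ioi
      refine ((-2 * Real.pi : ℝ) • k2_L).continuous.comp_continuousOn ?_
      exact (hTc _).sub (hTc _)
    · refine (ae_restrict_iff' measurableSet_Ioi).2 (ae_of_all _ fun u hu z' hz' => ?_)
      have hu' : 0 < u := hu
      rw [mem_closedBall_iff_norm] at hz'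
      obtain ⟨g1, g2⟩ := hg z' hz'
      have t1 := (hT _ g1 u hu').trans (hexp u hu')
      have t2 := (hT _ g2 u hu').trans (hexp u hu')
      have h0 : ‖NAB.Tk 1 u (z' - p) - NAB.Tk 1 u (z' + p)‖ ≤ 2 * (C * Real.exp (-κ * u)) := by
        refine (norm_sub_le _ _).trans ?_
        linarith
      rw [_root_.smul_apply, norm_smul]
      have h3 : ‖(-2 * Real.pi : ℝ)‖ = 2 * Real.pi := by
        rw [norm_mul, norm_neg, Real.norm_of_nonneg hpi.le]
        norm_num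
      rw [h3]
      exact mul_le_mul_of_nonneg_left ((k2_L_norm _).trans h0) (by positivity)
    · exact (((exp_neg_integrableOn_Ioi 0 hκ).const_mul C).const_mul 2).const_mul (2 * Real.pi)
    · refine (ae_restrict_iff' measurableSet_Ioi).2 (ae_of_all _ fun u hu z' _ => ?_)
      have hu' : 0 < u := hu
      have d1 := (hasFDerivAt_comp_sub p).2 (Ak_deriv hu' (z' - p))
      have d2 := (hasFDerivAt_comp_add_right p).2 (Ak_deriv hu' (z' + p))
      have d3 := (d1.sub d2).mul_const (u⁻¹)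
      have d4 : HasFDerivAt (fun z' : ℂ => KO_GH p z' u / u) _ z' := d3
      refine d4.congr_fderiv ?_
      ext h
      simp only [_root_.smul_apply, _root_.sub_apply, smul_eq_mul, k2_L_apply]
      have e0 : ∀ c : ℂ, (Complex.reCLM.comp ((ContinuousLinearMap.mul ℂ ℂ c).restrictScalars ℝ)) h = (c * h).re :=
        fun c => rfl
      rw [e0, e0, sub_mul, Complex.sub_re]
      field_simp
      ring
  refine key.congr_fderiv ?_
  have hi1 := k2_E1 hz.1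
  have hi2 := k2_E1 hz.2
  have e1 := ContinuousLinearMap.integral_comp_comm (μ := volume.restrict (Ioi (0 : ℝ))) ((-2 * Real.pi : ℝ) • k2_L)
    (φ := fun u : ℝ => NAB.Tk 1 u (z - p) - NAB.Tk 1 u (z + p)) (hi1.sub hi2)
  rw [e1]
  have e2 : ∫ u in Ioi (0 : ℝ), (NAB.Tk 1 u (z - p) - NAB.Tk 1 u (z + p)) =
      (∫ u in Ioi (0 : ℝ), NAB.Tk 1 u (z - p)) - (∫ u in Ioi (0 : ℝ), NAB.Tk 1 u (z + p)) :=
    integral_sub hi1 hi2
  rw [e2]
  ext h
  have e3 : (((-2 * Real.pi : ℝ) • k2_L) ((∫ u in Ioi (0 : ℝ), NAB.Tk 1 u (z - p)) -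
      (∫ u in Ioi (0 : ℝ), NAB.Tk 1 u (z + p)))) h =
      (-2 * Real.pi) * (((∫ u in Ioi (0 : ℝ), NAB.Tk 1 u (z - p)) -
      (∫ u in Ioi (0 : ℝ), NAB.Tk 1 u (z + p))) * h).re := rfl
  have e4 : ((-2 : ℝ) • k2_L (NAB.E1 (z - p) - NAB.E1 (z + p))) h =
      (-2) * ((NAB.E1 (z - p) - NAB.E1 (z + p)) * h).re := rfl
  rw [e3, e4]
  have e5 : (NAB.E1 (z - p) - NAB.E1 (z + p)) * h = (Real.pi : ℂ) *
      (((∫ u in Ioi (0 : ℝ), NAB.Tk 1 u (z - p)) - (∫ u in Ioi (0 : ℝ), NAB.Tk 1 u (z + p))) * h) := by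
    unfold NAB.E1
    ring
  rw [e5, Complex.re_ofReal_mul]
  ring

end JGL
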