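import Pool.Agent.JL.K3
import Pool.Agent.JGL.B

/-!
# [JGL-KO] part 3: Gauss sums for levels

`KO_g L = ∑_{α mod f} q(α) psX(α / f)`; for a primitive `q`: `∑_α q(α) psX(α b / f) = q(b) KO_g` and
`|KO_g|² = N(f)` (port of `JL/K3`).
-/

set_option autoImplicit false

open scoped Classical ComplexConjugate

namespace JGL

open CM27 JZ
open CU (la)
open CUL (Nl ta rp IsRep)
open JL (psX psX_add psX_emb psX_dual psX_norm K3_shift K3_translate K3_orth K3_conj K3_zero)

variable (L : Lev)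

/-- primitivity of `q` -/
def KO_Prim (L : Lev) : Prop :=
  ∀ p m : Eis, Prime p → p * m = L.f → ∃ u, IsCoprime u L.f ∧ m ∣ u - 1 ∧ L.q u = -1

/-- the Gauss sum -/
noncomputable def KO_g : ℂ := ∑ α ∈ rp L.f, (L.q α : ℂ) * psX (emb α / emb L.f)

theorem KO3_emb_f : emb L.f ≠ 0 := fun h0 => f_ne L (emb_injective (by rw [h0, map_zero]))

theorem KO_q_ne_zero_iff (x : Eis) : L.q x ≠ 0 ↔ IsCoprime x L.f := by
  constructor
  · intro h
    by_contra hc
    exact h (L.q_zero x hc)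
  · intro h
    rcases L.q_pm x h with h1 | h1 <;> rw [h1] <;> norm_num

theorem KO_q_cases (x : Eis) : L.q x = 0 ∨ L.q x = 1 ∨ L.q x = -1 := by
  by_cases h : IsCoprime x L.f
  · exact Or.inr (L.q_pm x h)
  · exact Or.inl (L.q_zero x h)

theorem KO3_per (c : Eis) (a b : Eis) (hab : L.f ∣ a - b) :
    (L.q a : ℂ) * psX (emb a * emb c / emb L.f) =
      (L.q b : ℂ) * psX (emb b * emb c / emb L.f) := by
  rw [L.q_per a b hab, K3_shift (KO3_emb_f L) (hab.mul_right c)]

theorem KO_gauss (hp : KO_Prim L) (b : Eis) :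
    ∑ α ∈ rp L.f, (L.q α : ℂ) * psX (emb α * emb b / emb L.f) = (L.q b : ℂ) * KO_g L := by
  have hdom := eis_isDomain
  have hpid : IsPrincipalIdealRing Eis := eis_pid
  have hf0 := f_ne L
  have hf := KO3_emb_f L
  have hR := CUL.rp_spec hf0
  by_cases hb : IsCoprime b L.f
  · have h1 : KO_g L = ∑ α ∈ rp L.f, (L.q (b * α) : ℂ) *
        psX (emb (b * α) * emb 1 / emb L.f) := by
      rw [IsRep.sum_mul hR hb (fun α => (L.q α : ℂ) * psX (emb α * emb 1 / emb L.f))
        (KO3_per L 1)]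
      unfold KO_g
      apply Finset.sum_congr rfl
      intro α _
      rw [map_one, mul_one]
    have hq : (L.q b : ℂ) * (L.q b : ℂ) = 1 := by
      rcases L.q_pm b hb with h3 | h3
      · rw [h3]
        norm_num
      · rw [h3]
        norm_num
    have h2 : ∀ α, (L.q (b * α) : ℂ) * psX (emb (b * α) * emb 1 / emb L.f) =
        (L.q b : ℂ) * ((L.q α : ℂ) * psX (emb α * emb b / emb L.f)) := by
      intro α
      rw [L.q_mul, map_one, mul_one, map_mul, mul_comm (emb b) (emb α)]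
      push_cast
      ring
    rw [h1, Finset.sum_congr rfl fun α _ => h2 α, ← Finset.mul_sum, ← mul_assoc, hq, one_mul]
  · obtain ⟨p, hpp, hpb, hpf⟩ : ∃ p : Eis, Prime p ∧ p ∣ b ∧ p ∣ L.f := by
      by_contra hcon
      push Not at hcon
      apply hb
      exact isCoprime_of_prime_dvd (fun h0 => hf0 h0.2) hcon
    obtain ⟨m, hm⟩ := hpf
    obtain ⟨u, hu, hum, hqu⟩ := hp p m hpp hm.symm
    have h1 := IsRep.sum_mul hR hu (fun α => (L.q α : ℂ) * psX (emb α * emb b / emb L.f))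
      (KO3_per L b)
    have h2 : ∀ α, (L.q (u * α) : ℂ) * psX (emb (u * α) * emb b / emb L.f) =
        -((L.q α : ℂ) * psX (emb α * emb b / emb L.f)) := by
      intro α
      have h3 : L.f ∣ (u * α - α) * b := by
        obtain ⟨k, hk⟩ := hum
        obtain ⟨l, hl⟩ := hpb
        refine ⟨k * l * α, ?_⟩
        have h4 : u * α - α = (u - 1) * α := by ring
        rw [h4, hk, hl, hm]
        ring
      rw [L.q_mul, hqu, K3_shift hf h3]
      push_cast
      ring
    rw [Finset.sum_congr rfl fun α _ => h2 α, Finset.sum_neg_distrib] at h1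
    have hq0 : L.q b = 0 := L.q_zero b hb
    rw [hq0, Int.cast_zero, zero_mul]
    have h5 : (2 : ℂ) * ∑ α ∈ rp L.f, (L.q α : ℂ) * psX (emb α * emb b / emb L.f) = 0 := by
      linear_combination -h1
    rcases mul_eq_zero.1 h5 with h6 | h6
    · norm_num at h6
    · exact h6

theorem KO_gauss_norm (hp : KO_Prim L) : ‖KO_g L‖ ^ 2 = (L.f.norm : ℝ) := by
  have hf0 := f_ne L
  have hf := KO3_emb_f L
  have hR := CUL.rp_spec hf0
  set Q : ℂ := ∑ α ∈ rp L.f, (L.q α : ℂ) * (L.q α : ℂ) with hQ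
  set G : Eis → ℂ := fun b => ∑ α ∈ rp L.f, (L.q α : ℂ) * psX (emb α * emb b / emb L.f)
    with hG
  have h1 : ∑ b ∈ rp L.f, G b * conj (G b) = Q * (KO_g L * conj (KO_g L)) := by
    rw [hQ, Finset.sum_mul]
    apply Finset.sum_congr rfl
    intro b _
    have h2 : G b = (L.q b : ℂ) * KO_g L := KO_gauss L hp b
    rw [h2, map_mul]
    have h3 : conj (L.q b : ℂ) = (L.q b : ℂ) := map_intCast (starRingEnd ℂ) _
    rw [h3]
    ring
  have h2 : ∑ b ∈ rp L.f, G b * conj (G b) = (((L.f : Eis).norm : ℤ) : ℂ) * Q := by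
    have h3 : ∀ b, G b * conj (G b) = ∑ α ∈ rp L.f, ∑ β ∈ rp L.f,
        ((L.q α : ℂ) * (L.q β : ℂ)) * psX (emb (α - β) * emb b / emb L.f) := by
      intro b
      show (∑ α ∈ rp L.f, (L.q α : ℂ) * psX (emb α * emb b / emb L.f)) *
        conj (∑ α ∈ rp L.f, (L.q α : ℂ) * psX (emb α * emb b / emb L.f)) = _
      rw [map_sum, Finset.sum_mul_sum]
      apply Finset.sum_congr rfl
      intro α _
      apply Finset.sum_congr rfl
      intro β _
      have h4 : psX (emb (α - β) * emb b / emb L.f) =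
          psX (emb α * emb b / emb L.f) * psX (-(emb β * emb b / emb L.f)) := by
        rw [← psX_add]
        congr 1
        rw [map_sub]
        ring
      have h5 : conj (L.q β : ℂ) = (L.q β : ℂ) := map_intCast (starRingEnd ℂ) _
      rw [h4, map_mul (starRingEnd ℂ), h5, K3_conj]
      ring
    rw [Finset.sum_congr rfl fun b _ => h3 b, Finset.sum_comm]
    have h4 : ∀ α ∈ rp L.f, ∑ b ∈ rp L.f, ∑ β ∈ rp L.f,
        ((L.q α : ℂ) * (L.q β : ℂ)) * psX (emb (α - β) * emb b / emb L.f) =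
        (((L.f : Eis).norm : ℤ) : ℂ) * ((L.q α : ℂ) * (L.q α : ℂ)) := by
      intro α hα
      rw [Finset.sum_comm]
      have h5 : ∀ β ∈ rp L.f, ∑ b ∈ rp L.f,
          ((L.q α : ℂ) * (L.q β : ℂ)) * psX (emb (α - β) * emb b / emb L.f) =
          if β = α then (((L.f : Eis).norm : ℤ) : ℂ) * ((L.q α : ℂ) * (L.q α : ℂ)) else 0 := by
        intro β hβ
        rw [← Finset.mul_sum, K3_orth hf0]
        by_cases hab : β = α
        · rw [if_pos hab, hab, sub_self, if_pos (dvd_zero _)]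
          ring
        · rw [if_neg hab, if_neg (fun hd => hab (CUL.l1_eq hR hα hβ hd).symm), mul_zero]
      rw [Finset.sum_congr rfl h5, Finset.sum_ite_eq' (rp L.f) α, if_pos hα]
    rw [Finset.sum_congr rfl h4, ← Finset.mul_sum]
  have hQne : Q ≠ 0 := by
    obtain ⟨c, ⟨hc, hcd⟩, -⟩ := hR 1
    have h3 : L.q c = 1 := by rw [← L.q_per 1 c hcd, q_one]
    have h4 : (0 : ℤ) < ∑ α ∈ rp L.f, L.q α * L.q α := by
      apply Finset.sum_pos'
      · intro α _
        exact mul_self_nonneg _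
      · exact ⟨c, hc, by rw [h3]; norm_num⟩
    have h5 : Q = ((∑ α ∈ rp L.f, L.q α * L.q α : ℤ) : ℂ) := by
      rw [hQ]
      push_cast
      rfl
    rw [h5]
    exact_mod_cast h4.ne'
  have h3 : KO_g L * conj (KO_g L) = (((L.f : Eis).norm : ℤ) : ℂ) := by
    apply mul_left_cancel₀ hQne
    rw [← h1, h2]
    ring
  rw [Complex.mul_conj, Complex.normSq_eq_norm_sq] at h3
  exact_mod_cast h3

end JGL
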