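import Pool.Agent.JL.K4
import Pool.Agent.JGL.KO1
import Pool.Agent.JGL.KO3

/-!
# [JGL-KO] part 4: the Poisson formula for the twisted sum, `ep = 1`

`KO_SY L u = ∑_α q(α) ∑_{j mod 3} KO_GH (w ^ j si) (α / f) u`.  The sum over `j` kills the `b` not divisible by
`λ`, and `b = λ c` gives `3 ς (c / λ)`, `ς = psX(-ta) - psX(ta)`, `ς² = -3`.
-/

set_option autoImplicit false

open MeasureTheory Set Filter Topology
open scoped Classical ComplexConjugate

namespace JGL

open CM27 JZ
open CU (la)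
open CUL (Nl ta si rp IsRep)
open JL (psX psX_add psX_emb psX_norm K4_E K4_Ak K4_E_nonneg K4_summableC K4_bracket K4_neg K4_la_ne GX_Tk)

variable (L : Lev)

/-- the twisted sum -/
noncomputable def KO_SY (u : ℝ) : ℝ := ∑ α ∈ rp L.f, (L.q α : ℝ) *
  (KO_GH si (pt L α) u + KO_GH (w * si) (pt L α) u + KO_GH (w ^ 2 * si) (pt L α) u)

/-- `ς = psX(-ta) - psX(ta)` -/
noncomputable def KO_vs : ℂ := psX (-ta) - psX ta

theorem KO4_ta_sq : psX ta ^ 2 + psX ta + 1 = 0 ∧ psX ta * psX (-ta) = 1 := by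
  have h1 := K4_bracket 1
  have h2 : ¬ la ∣ (1 : Eis) := fun h => (by decide : ¬ IsUnit (1 : ZMod 3) ∨ True).elim
    (fun h3 => absurd isUnit_one h3) (fun _ => by
      have h4 : IsUnit la := isUnit_of_dvd_one h
      have h5 := CUL.nl_ta
      obtain ⟨u, hu⟩ := h4.exists_right_inv
      apply h5
      refine ⟨u, ?_⟩
      unfold CUL.ta
      have h6 := congrArg emb hu
      rw [map_mul, map_one] at h6
      rw [eq_div_iff K4_la_ne, mul_comm]
      exact h6)
  rw [if_neg h2, map_one, mul_one] at h1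
  have h3 := K4_neg ta
  refine ⟨?_, h3⟩
  linear_combination psX ta * h1 - h3

theorem KO_vs_sq : KO_vs ^ 2 = -3 := by
  obtain ⟨h1, h2⟩ := KO4_ta_sq
  have h3 : psX (-ta) = psX ta ^ 2 := by
    have h0 : psX ta ≠ 0 := left_ne_zero_of_mul_eq_one h2
    apply mul_left_cancel₀ h0
    linear_combination h2 - (psX ta - 1) * h1
  unfold KO_vs
  rw [h3]
  linear_combination (psX ta ^ 2 - 3 * psX ta + 3) * h1

theorem KO_vs_norm : ‖KO_vs‖ = √3 := by
  have h1 := congrArg norm KO_vs_sq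
  rw [norm_pow, norm_neg, Complex.norm_ofNat] at h1
  rw [← h1]
  exact (Real.sqrt_sq (norm_nonneg _)).symm

/-- the bracket -/
noncomputable def KO4_br (b : Eis) : ℂ := (psX (-(si * emb b)) - psX (si * emb b)) +
  (psX (-(w * si * emb b)) - psX (w * si * emb b)) +
  (psX (-(w ^ 2 * si * emb b)) - psX (w ^ 2 * si * emb b))

theorem KO4_w_si : w * si = si - ta := by
  have h1 := CUL.la_si
  rw [CUL.emb_la] at h1
  linear_combination -h1

theorem KO4_w2_si : w ^ 2 * si = si - ta - ta + 1 := by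
  have h1 := KO4_w_si
  have h2 := CUL.w_ta
  linear_combination w * h1 + h1 - h2

theorem KO4_psX_neg (x : ℂ) : psX (-x) * psX x = 1 := by
  rw [mul_comm]; exact K4_neg x

theorem KO4_br_eq (b : Eis) : KO4_br b =
    psX (-(si * emb b)) * (1 + psX (ta * emb b) + psX (ta * emb b) ^ 2) -
      psX (si * emb b) * (1 + psX (-(ta * emb b)) + psX (-(ta * emb b)) ^ 2) := by
  have e1 : -(w * si * emb b) = -(si * emb b) + ta * emb b := by
    rw [KO4_w_si]; ring
  have e2 : w * si * emb b = si * emb b + -(ta * emb b) := by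
    rw [KO4_w_si]; ring
  have e3 : -(w ^ 2 * si * emb b) = -(si * emb b) + (ta * emb b + (ta * emb b + emb (-b))) := by
    rw [KO4_w2_si, map_neg]; ring
  have e4 : w ^ 2 * si * emb b = si * emb b + (-(ta * emb b) + (-(ta * emb b) + emb b)) := by
    rw [KO4_w2_si]; ring
  unfold KO4_br
  rw [e1, e2, e3, e4]
  simp only [psX_add, psX_emb]
  ring

theorem KO4_br_zero {b : Eis} (hb : ¬ la ∣ b) : KO4_br b = 0 := by
  have h1 := K4_bracket b
  rw [if_neg hb] at h1
  have h2 := K4_neg (ta * emb b)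
  have h3 : 1 + psX (ta * emb b) + psX (ta * emb b) ^ 2 = 0 := by
    linear_combination psX (ta * emb b) * h1 - h2
  have h4 : 1 + psX (-(ta * emb b)) + psX (-(ta * emb b)) ^ 2 = 0 := by
    linear_combination psX (-(ta * emb b)) * h1 - h2
  rw [KO4_br_eq, h3, h4]
  ring

theorem KO4_mod (c : Eis) : la ∣ c ∨ la ∣ c - 1 ∨ la ∣ c + 1 := by
  have h1 : ∃ k : ℤ, la ∣ c - (k : Eis) := by
    refine ⟨c.re + c.im, ((-c.im : ℤ) : Eis), ?_⟩
    apply QuadraticAlgebra.ext
    · simp [la]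
    · simp [la]
  obtain ⟨k, hk⟩ := h1
  have h3 : la ∣ (3 : Eis) := by
    rw [CU.la_dvd_iff]
    decide
  have h4 : k % 3 = 0 ∨ k % 3 = 1 ∨ k % 3 = 2 := by omega
  have h5 : ∀ m : ℤ, ((3 * m : ℤ) : Eis) = 3 * (m : Eis) := by
    intro m; push_cast; ring
  rcases h4 with h | h | h
  · left
    have h6 : k = 3 * (k / 3) := by omega
    rw [h6, h5] at hk
    have h7 := dvd_add hk (h3.mul_right ((k / 3 : ℤ) : Eis))
    rwa [sub_add_cancel] at h7
  · right; left
    have h6 : k = 3 * (k / 3) + 1 := by omega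
    rw [h6] at hk
    push_cast at hk
    have h7 := dvd_add hk (h3.mul_right ((k / 3 : ℤ) : Eis))
    have h8 : c - (3 * ((k / 3 : ℤ) : Eis) + 1) + 3 * ((k / 3 : ℤ) : Eis) = c - 1 := by ring
    rwa [h8] at h7
  · right; right
    have h6 : k = 3 * (k / 3 + 1) - 1 := by omega
    rw [h6] at hk
    push_cast at hk
    have h7 := dvd_add hk (h3.mul_right (((k / 3 : ℤ) : Eis) + 1))
    have h8 : c - (3 * (((k / 3 : ℤ) : Eis) + 1) - 1) + 3 * (((k / 3 : ℤ) : Eis) + 1) = c + 1 := by ring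
    rwa [h8] at h7

theorem KO4_ta_la (k : Eis) : ta * emb (la * k) = emb k := by
  unfold CUL.ta
  rw [map_mul]
  have := K4_la_ne
  field_simp

theorem KO4_not (h : la ∣ (2 : Eis)) : False := by
  have h3 : la ∣ (3 : Eis) := by
    rw [CU.la_dvd_iff]
    decide
  have h4 : la ∣ (1 : Eis) := by
    have h5 := dvd_sub h3 h
    have h6 : (3 : Eis) - 2 = 1 := by ring
    rwa [h6] at h5
  have h5 := CUL.nl_ta
  obtain ⟨u, hu⟩ := h4
  apply h5
  refine ⟨u, ?_⟩
  unfold CUL.ta
  have h6 := congrArg emb hu.symm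
  rw [map_mul, map_one] at h6
  rw [eq_div_iff K4_la_ne, mul_comm]
  exact h6

theorem KO4_psX_ta (c : Eis) : psX (-(ta * emb c)) - psX (ta * emb c) = KO_vs * (sl c : ℂ) := by
  unfold sl KO_vs
  by_cases h1 : la ∣ c - 1
  · rw [if_pos h1]
    obtain ⟨k, hk⟩ := h1
    have h2 : c = 1 + la * k := by linear_combination hk
    have h3 : ta * emb c = ta + emb k := by
      rw [h2, map_add, mul_add, KO4_ta_la, map_one, mul_one]
    have h4 : -(ta * emb c) = -ta + emb (-k) := by
      rw [h3, map_neg]; ring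
    rw [h4, h3, psX_add, psX_add, psX_emb, psX_emb]
    push_cast
    ring
  · rw [if_neg h1]
    by_cases h2 : la ∣ c + 1
    · rw [if_pos h2]
      obtain ⟨k, hk⟩ := h2
      have h2 : c = -1 + la * k := by linear_combination hk
      have h3 : ta * emb c = -ta + emb k := by
        rw [h2, map_add, mul_add, KO4_ta_la, map_neg, map_one]; ring
      have h4 : -(ta * emb c) = ta + emb (-k) := by
        rw [h3, map_neg]; ring
      rw [h4, h3, psX_add, psX_add, psX_emb, psX_emb]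
      push_cast
      ring
    · rw [if_neg h2]
      rcases KO4_mod c with h3 | h3 | h3
      · obtain ⟨k, hk⟩ := h3
        have h4 : ta * emb c = emb k := by rw [hk, KO4_ta_la]
        rw [h4, ← map_neg, psX_emb, psX_emb]
        push_cast
        ring
      · exact absurd h3 h1
      · exact absurd h3 h2

theorem KO4_br_la (c : Eis) : KO4_br (la * c) = 3 * KO_vs * (sl c : ℂ) := by
  have h1 : psX (ta * emb (la * c)) = 1 := by rw [KO4_ta_la, psX_emb]
  have h2 : psX (-(ta * emb (la * c))) = 1 := by rw [KO4_ta_la, ← map_neg, psX_emb]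
  have h3 : si * emb (la * c) = ta * emb c := by
    rw [map_mul, ← CUL.la_si]; ring
  rw [KO4_br_eq, h1, h2, h3]
  have h4 := KO4_psX_ta c
  linear_combination 3 * h4

theorem KO4_GH {u : ℝ} (hu : 0 < u) (p z : ℂ) : (KO_GH p z u : ℂ) =
    1 / ((NAB.A0 : ℂ) * u) * ∑' b : Eis, (K4_E u b : ℂ) *
      (psX (z * emb b) * (psX (-(p * emb b)) - psX (p * emb b))) := by
  unfold KO_GH
  push_cast
  rw [K4_Ak hu, K4_Ak hu]
  have hs : ∀ y : ℂ, Summable (fun b : Eis => (K4_E u b : ℂ) * psX (y * emb b)) := fun y =>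
    K4_summableC hu _ 1 fun b => (psX_norm _).le
  have h1 : ∑' b : Eis, (K4_E u b : ℂ) * (psX (z * emb b) * (psX (-(p * emb b)) - psX (p * emb b))) =
      ∑' b : Eis, (K4_E u b : ℂ) * psX ((z - p) * emb b) -
        ∑' b : Eis, (K4_E u b : ℂ) * psX ((z + p) * emb b) := by
    rw [← (hs (z - p)).tsum_sub (hs (z + p))]
    refine tsum_congr fun b => ?_
    have h2 : (z + p) * emb b = z * emb b + p * emb b := by ring
    have h3 : (z - p) * emb b = z * emb b + -(p * emb b) := by ring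
    rw [h2, h3, psX_add, psX_add]
    ring
  rw [h1]
  ring

theorem KO4_norm_br1 (p : ℂ) (z : ℂ) (b : Eis) :
    ‖psX (z * emb b) * (psX (-(p * emb b)) - psX (p * emb b))‖ ≤ 2 := by
  rw [norm_mul, psX_norm, one_mul]
  refine (norm_sub_le _ _).trans ?_
  rw [psX_norm, psX_norm]
  norm_num

theorem KO4_norm_br (z : ℂ) (b : Eis) : ‖psX (z * emb b) * KO4_br b‖ ≤ 6 := by
  have h1 := KO4_norm_br1 si z b
  have h2 := KO4_norm_br1 (w * si) z b
  have h3 := KO4_norm_br1 (w ^ 2 * si) z b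
  have e : psX (z * emb b) * KO4_br b = psX (z * emb b) * (psX (-(si * emb b)) - psX (si * emb b)) +
      psX (z * emb b) * (psX (-(w * si * emb b)) - psX (w * si * emb b)) +
      psX (z * emb b) * (psX (-(w ^ 2 * si * emb b)) - psX (w ^ 2 * si * emb b)) := by
    unfold KO4_br
    ring
  rw [e]
  refine (norm_add_le _ _).trans ?_
  have h4 := norm_add_le (psX (z * emb b) * (psX (-(si * emb b)) - psX (si * emb b)))
    (psX (z * emb b) * (psX (-(w * si * emb b)) - psX (w * si * emb b)))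
  linarith

theorem KO4_GY {u : ℝ} (hu : 0 < u) (z : ℂ) :
    ((KO_GH si z u + KO_GH (w * si) z u + KO_GH (w ^ 2 * si) z u : ℝ) : ℂ) =
    1 / ((NAB.A0 : ℂ) * u) * ∑' c : Eis, (K4_E u (la * c) : ℂ) *
      (psX (z * emb (la * c)) * (3 * KO_vs * (sl c : ℂ))) := by
  have hs : ∀ p : ℂ, Summable (fun b : Eis => (K4_E u b : ℂ) *
      (psX (z * emb b) * (psX (-(p * emb b)) - psX (p * emb b)))) := fun p =>
    K4_summableC hu _ 2 fun b => KO4_norm_br1 p z b
  have h1 : ((KO_GH si z u + KO_GH (w * si) z u + KO_GH (w ^ 2 * si) z u : ℝ) : ℂ) =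
      1 / ((NAB.A0 : ℂ) * u) * ∑' b : Eis, (K4_E u b : ℂ) * (psX (z * emb b) * KO4_br b) := by
    push_cast
    rw [KO4_GH hu, KO4_GH hu, KO4_GH hu, ← mul_add, ← mul_add, ← (hs _).tsum_add (hs _),
      ← ((hs _).add (hs _)).tsum_add (hs _)]
    congr 1
    refine tsum_congr fun b => ?_
    unfold KO4_br
    ring
  rw [h1]
  congr 1
  have hinj : Function.Injective fun b : Eis => la * b := by
    have hdom : IsDomain Eis := emb_injective.isDomain emb
    have hl : (la : Eis) ≠ 0 := by decide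
    exact fun a b hab => mul_left_cancel₀ hl hab
  have h2 := hinj.tsum_eq (f := fun b : Eis => (K4_E u b : ℂ) * (psX (z * emb b) * KO4_br b)) (by
    intro b hb
    rw [Function.mem_support] at hb
    by_cases h3 : la ∣ b
    · obtain ⟨c, rfl⟩ := h3
      exact ⟨c, rfl⟩
    · exfalso
      apply hb
      rw [KO4_br_zero h3, mul_zero, mul_zero])
  rw [← h2]
  refine tsum_congr fun c => ?_
  rw [KO4_br_la]

theorem KO4_norm_la (c : Eis) : (la * c).norm = 3 * c.norm := by
  have h1 := norm_emb_sq (la * c)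
  have h2 := norm_emb_sq c
  have h3 := norm_emb_sq la
  rw [map_mul, norm_mul, mul_pow, h2, h3] at h1
  have h4 : (la : Eis).norm = 3 := by decide
  rw [h4] at h1
  exact_mod_cast h1.symm

theorem KO4_E_la (u : ℝ) (c : Eis) : K4_E u (la * c) = Real.exp (-(4 * Real.pi * (c.norm : ℝ) / u)) := by
  unfold K4_E
  rw [KO4_norm_la]
  congr 1
  push_cast
  ring

theorem KO_SY_poisson (hep : L.ep = 1) (hp : KO_Prim L) {u : ℝ} (hu : 0 < u) : ((KO_SY L u : ℝ) : ℂ) =
    3 * KO_vs * (L.q la : ℂ) * KO_g L / ((NAB.A0 : ℂ) * u) *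
      ∑' c : Eis, (((L.qi c : ℝ) * Real.exp (-(4 * Real.pi * (c.norm : ℝ) / u)) : ℝ) : ℂ) := by
  have h1 : ((KO_SY L u : ℝ) : ℂ) = ∑ α ∈ rp L.f, (L.q α : ℂ) *
      (1 / ((NAB.A0 : ℂ) * u) * ∑' c : Eis, (K4_E u (la * c) : ℂ) *
      (psX (pt L α * emb (la * c)) * (3 * KO_vs * (sl c : ℂ)))) := by
    unfold KO_SY
    rw [Complex.ofReal_sum]
    apply Finset.sum_congr rfl
    intro α _
    rw [Complex.ofReal_mul, KO4_GY hu, Complex.ofReal_intCast]
  have hsum : ∀ α : Eis, Summable (fun c : Eis => (L.q α : ℂ) * ((K4_E u (la * c) : ℂ) *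
      (psX (pt L α * emb (la * c)) * (3 * KO_vs * (sl c : ℂ))))) := by
    intro α
    apply Summable.mul_left
    have hinj : Function.Injective fun b : Eis => la * b := by
      have hdom : IsDomain Eis := emb_injective.isDomain emb
      have hl : (la : Eis) ≠ 0 := by decide
      exact fun a b hab => mul_left_cancel₀ hl hab
    have h2 := (K4_summableC hu (fun b => psX (pt L α * emb b) * KO4_br b) 6
      fun b => KO4_norm_br _ b).comp_injective hinj
    refine h2.congr fun c => ?_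
    show (K4_E u (la * c) : ℂ) * (psX (pt L α * emb (la * c)) * KO4_br (la * c)) = _
    rw [KO4_br_la]
  have h2 : ((KO_SY L u : ℝ) : ℂ) = 1 / ((NAB.A0 : ℂ) * u) * ∑' c : Eis, ∑ α ∈ rp L.f,
      (L.q α : ℂ) * ((K4_E u (la * c) : ℂ) *
      (psX (pt L α * emb (la * c)) * (3 * KO_vs * (sl c : ℂ)))) := by
    rw [Summable.tsum_finsetSum, Finset.mul_sum, h1]
    · apply Finset.sum_congr rfl
      intro α _
      rw [tsum_mul_left]
      ring
    · intro α _
      exact hsum α
  have h3 : ∀ c : Eis, ∑ α ∈ rp L.f, (L.q α : ℂ) * ((K4_E u (la * c) : ℂ) *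
      (psX (pt L α * emb (la * c)) * (3 * KO_vs * (sl c : ℂ)))) =
      (3 * KO_vs * (L.q la : ℂ) * KO_g L) *
        (((L.qi c : ℝ) * Real.exp (-(4 * Real.pi * (c.norm : ℝ) / u)) : ℝ) : ℂ) := by
    intro c
    have h4 := KO_gauss L hp (la * c)
    have h5 : ∀ α : Eis, (L.q α : ℂ) * ((K4_E u (la * c) : ℂ) *
        (psX (pt L α * emb (la * c)) * (3 * KO_vs * (sl c : ℂ)))) =
        ((K4_E u (la * c) : ℂ) * (3 * KO_vs * (sl c : ℂ))) *
          ((L.q α : ℂ) * psX (emb α * emb (la * c) / emb L.f)) := by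
      intro α
      unfold pt
      rw [div_mul_eq_mul_div]
      ring
    have h6 : L.qi c = sl c * L.q c := by
      unfold Lev.qi
      rw [if_neg (by rw [hep]; exact one_ne_zero)]
    rw [Finset.sum_congr rfl fun α _ => h5 α, ← Finset.mul_sum, h4, KO4_E_la, L.q_mul, h6]
    push_cast
    ring
  rw [h2, tsum_congr h3, tsum_mul_left]
  ring

end JGL
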