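import Pool.Agent.JGL.N
import Pool.Agent.JGL.T
import Pool.Agent.JGL.KO2
import Pool.Agent.JGL.KO4
import Pool.Agent.JL.K5

/-!
# [JGL-KO] the Kronecker limit formula, `ep = 1`
-/

set_option autoImplicit false

open NumberField IsDedekindDomain Filter Topology
open scoped Classical ComplexConjugate

namespace JGL

open CM27 JZ
open CU (la eE)
open CUL (Nl ez si ta DS Cont LV IsRep rp cr mn mo zw OT GalU W3 W9)
open JL (N1 KD sD Psi6)
open MeasureTheory Set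
open JL (k5_top k5_bot k5_summable_dir k5_norm_mul K4_la_ne)

theorem KO_DH (L : Lev) {α ζ : Eis} (hζ : IsUnit ζ) : pt L α ∈ KO_Dh (emb ζ * si) := by
  have hf := KO3_emb_f L
  have hl : emb la ≠ 0 := K4_la_ne
  have hno : ∀ a b c : Eis, ζ * L.f = la * c → False := by
    intro a b c h
    have h1 : la ∣ ζ * L.f := ⟨c, h⟩
    have h2 : la ∣ L.f := by
      obtain ⟨η, hη⟩ := hζ.exists_left_inv
      obtain ⟨k, hk⟩ := h1
      exact ⟨η * k, by linear_combination η * hk - L.f * hη⟩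
    have h3 : IsUnit la := (la_cop L).isUnit_of_dvd' dvd_rfl h2
    obtain ⟨u, hu⟩ := h3.exists_right_inv
    apply CUL.nl_ta
    refine ⟨u, ?_⟩
    unfold CUL.ta
    have h6 := congrArg emb hu
    rw [map_mul, map_one] at h6
    rw [eq_div_iff K4_la_ne, mul_comm]
    exact h6
  have hl2 : emb la ^ 2 ≠ 0 := pow_ne_zero 2 hl
  have hsi : emb ζ * si = emb ζ / emb la ^ 2 := by
    unfold CUL.si
    rw [mul_one_div]
  refine ⟨?_, ?_⟩
  · rintro ⟨a, ha⟩
    rw [hsi, pt, div_sub_div _ _ hf hl2, eq_div_iff (mul_ne_zero hf hl2), ← map_pow, ← map_mul, ← map_mul,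
      ← map_mul, ← map_mul, ← map_sub] at ha
    have h1 := emb_injective ha
    exact hno 0 0 (α * la - a * L.f * la) (by linear_combination h1)
  · rintro ⟨a, ha⟩
    rw [hsi, pt, div_add_div _ _ hf hl2, eq_div_iff (mul_ne_zero hf hl2), ← map_pow, ← map_mul, ← map_mul,
      ← map_mul, ← map_mul, ← map_add] at ha
    have h1 := emb_injective ha
    exact hno 0 0 (a * L.f * la - α * la) (by linear_combination -h1)

theorem KO_om : IsUnit (CU.om : Eis) := by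
  have h : CU.om * CU.om ^ 2 = 1 := by decide
  exact IsUnit.of_mul_eq_one _ h

theorem KO_DHs (L : Lev) (α : Eis) : pt L α ∈ KO_Dh si ∧ pt L α ∈ KO_Dh (w * si) ∧ pt L α ∈ KO_Dh (w ^ 2 * si) := by
  have h1 := KO_DH L (α := α) (isUnit_one (M := Eis))
  have h2 := KO_DH L (α := α) KO_om
  have h3 := KO_DH L (α := α) (KO_om.pow 2)
  rw [map_one, one_mul] at h1
  rw [CUL.emb_om] at h2
  rw [map_pow, CUL.emb_om] at h3
  exact ⟨h1, h2, h3⟩

theorem KO_DY (L : Lev) {α : Eis} (hα : IsCoprime α L.f) : pt L α ∈ KO_Dy := by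
  refine ⟨?_, KO_DHs L α⟩
  rintro ⟨a, ha⟩
  rw [pt, eq_div_iff (KO3_emb_f L), ← map_mul] at ha
  have h1 := emb_injective ha
  exact L.hfu (hα.isUnit_of_dvd' ⟨a, by rw [← h1]; ring⟩ dvd_rfl)

/-- restriction to the coprime classes -/
theorem KO_filter (L : Lev) (g : Eis → ℝ) :
    ∑ α ∈ rp L.f, (L.q α : ℝ) * g α =
      ∑ α ∈ (rp L.f).filter (fun α => IsCoprime α L.f), (L.q α : ℝ) * g α := by
  symm
  refine Finset.sum_subset (Finset.filter_subset _ _) ?_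
  intro x hx hx'
  have h1 : ¬ IsCoprime x L.f := fun hc => hx' (Finset.mem_filter.2 ⟨hx, hc⟩)
  rw [L.q_zero x h1, Int.cast_zero, zero_mul]

theorem KO_int_SY (L : Lev) :
    ∑ α ∈ (rp L.f).filter (fun α => IsCoprime α L.f), (L.q α : ℝ) * KO_LY (pt L α) =
      ∫ u in Ioi (0 : ℝ), KO_SY L u / u := by
  have e : ∀ u : ℝ, KO_SY L u / u =
      ∑ α ∈ (rp L.f).filter (fun α => IsCoprime α L.f), (L.q α : ℝ) *
        (KO_GH si (pt L α) u / u + KO_GH (w * si) (pt L α) u / u + KO_GH (w ^ 2 * si) (pt L α) u / u) := by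
    intro u
    rw [KO_SY, KO_filter, Finset.sum_div]
    exact Finset.sum_congr rfl fun α _ => by rw [mul_div_assoc, add_div, add_div]
  simp only [e]
  have hi : ∀ α : Eis, Integrable (fun u : ℝ => KO_GH si (pt L α) u / u + KO_GH (w * si) (pt L α) u / u +
      KO_GH (w ^ 2 * si) (pt L α) u / u) (volume.restrict (Ioi 0)) := by
    intro α
    obtain ⟨h1, h2, h3⟩ := KO_DHs L α
    exact ((KO_LH_int h1).add (KO_LH_int h2)).add (KO_LH_int h3)
  rw [integral_finsetSum]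
  · refine Finset.sum_congr rfl fun α _ => ?_
    obtain ⟨h1, h2, h3⟩ := KO_DHs L α
    rw [integral_const_mul]
    congr 1
    have e1 := integral_add ((KO_LH_int h1).add (KO_LH_int h2)) (KO_LH_int h3)
    have e2 := integral_add (KO_LH_int h1) (KO_LH_int h2)
    unfold KO_LY KO_LH
    rw [← e2]
    exact e1.symm
  · intro α hα
    exact (hi α).const_mul _

theorem KO_abs_q (L : Lev) (x : Eis) : |(L.q x : ℝ)| ≤ 1 := by
  rcases KO_q_cases L x with h | h | h <;> rw [h] <;> norm_num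

/-- exponential bound for the kernel at a point -/
theorem KO_bound_pt (L : Lev) (α : Eis) {p : ℂ} (hp : pt L α ∈ KO_Dh p) : ∃ C κ : ℝ, 0 < C ∧ 0 < κ ∧
    ∀ u : ℝ, 0 < u → |KO_GH p (pt L α) u| ≤ C * Real.exp (-(κ * (u + 1 / u))) := by
  obtain ⟨δ, ε, hδ, hε, hg⟩ := KO_Dh_gap hp
  obtain ⟨h1, h2⟩ := hg (pt L α) (by rw [sub_self, norm_zero]; exact hε.le)
  obtain ⟨C', κ', hC', hκ', hb'⟩ := KO_GH_bound hδ
  exact ⟨C', κ', hC', hκ', fun u hu => hb' _ _ h1 h2 u hu⟩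

theorem KO_exp_mono {κ κ' C u : ℝ} (h : κ ≤ κ') (hC : 0 < C) (hu : 0 < u) :
    C * Real.exp (-(κ' * (u + 1 / u))) ≤ C * Real.exp (-(κ * (u + 1 / u))) := by
  have hu' : 0 < u + 1 / u := by positivity
  refine mul_le_mul_of_nonneg_left (Real.exp_le_exp.2 (neg_le_neg ?_)) hC.le
  exact mul_le_mul_of_nonneg_right h hu'.le

/-- exponential bound for the sum -/
theorem KO_bound_SY (L : Lev) : ∃ C κ : ℝ, 0 < C ∧ 0 < κ ∧ ∀ u : ℝ, 0 < u →
    |KO_SY L u| ≤ C * Real.exp (-(κ * (u + 1 / u))) := by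
  have key : ∀ S : Finset Eis, ∃ C κ : ℝ, 0 < C ∧ 0 < κ ∧ ∀ u : ℝ, 0 < u →
      |∑ α ∈ S, (L.q α : ℝ) * (KO_GH si (pt L α) u + KO_GH (w * si) (pt L α) u + KO_GH (w ^ 2 * si) (pt L α) u)| ≤
        C * Real.exp (-(κ * (u + 1 / u))) := by
    intro S
    induction S using Finset.induction_on with
    | empty =>
      refine ⟨1, 1, one_pos, one_pos, fun u _ => ?_⟩
      rw [Finset.sum_empty, abs_zero]
      positivity
    | insert a S ha ih =>
      obtain ⟨C, κ, hC, hκ, hb⟩ := ih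
      obtain ⟨h1, h2, h3⟩ := KO_DHs L a
      obtain ⟨C1, κ1, hC1, hκ1, hb1⟩ := KO_bound_pt L a h1
      obtain ⟨C2, κ2, hC2, hκ2, hb2⟩ := KO_bound_pt L a h2
      obtain ⟨C3, κ3, hC3, hκ3, hb3⟩ := KO_bound_pt L a h3
      refine ⟨C1 + C2 + C3 + C, min (min κ1 κ2) (min κ3 κ), by positivity,
        lt_min (lt_min hκ1 hκ2) (lt_min hκ3 hκ), fun u hu => ?_⟩
      have m1 : min (min κ1 κ2) (min κ3 κ) ≤ κ1 := (min_le_left _ _).trans (min_le_left _ _)
      have m2 : min (min κ1 κ2) (min κ3 κ) ≤ κ2 := (min_le_left _ _).trans (min_le_right _ _)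
      have m3 : min (min κ1 κ2) (min κ3 κ) ≤ κ3 := (min_le_right _ _).trans (min_le_left _ _)
      have m4 : min (min κ1 κ2) (min κ3 κ) ≤ κ := (min_le_right _ _).trans (min_le_right _ _)
      have t1 := (hb1 u hu).trans (KO_exp_mono m1 hC1 hu)
      have t2 := (hb2 u hu).trans (KO_exp_mono m2 hC2 hu)
      have t3 := (hb3 u hu).trans (KO_exp_mono m3 hC3 hu)
      have t4 := (hb u hu).trans (KO_exp_mono m4 hC hu)
      rw [Finset.sum_insert ha, add_mul]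
      refine (abs_add_le _ _).trans (add_le_add ?_ t4)
      rw [abs_mul]
      have t5 : |KO_GH si (pt L a) u + KO_GH (w * si) (pt L a) u + KO_GH (w ^ 2 * si) (pt L a) u| ≤
          (C1 + C2 + C3) * Real.exp (-(min (min κ1 κ2) (min κ3 κ) * (u + 1 / u))) := by
        refine (abs_add_le _ _).trans ?_
        have t6 := abs_add_le (KO_GH si (pt L a) u) (KO_GH (w * si) (pt L a) u)
        linarith
      have t7 := mul_le_mul (KO_abs_q L a) t5 (abs_nonneg _) zero_le_one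
      rwa [one_mul] at t7
  obtain ⟨C, κ, hC, hκ, hb⟩ := key (rp L.f)
  exact ⟨C, κ, hC, hκ, fun u hu => hb u hu⟩

/-! ### the theta series -/

theorem KO_abs_qi (L : Lev) (hep : L.ep = 1) (b : Eis) : |(L.qi b : ℝ)| ≤ 1 := by
  unfold Lev.qi
  rw [if_neg (by rw [hep]; exact one_ne_zero)]
  push_cast
  rw [abs_mul]
  have h1 : |(sl b : ℝ)| ≤ 1 := by
    unfold sl
    split_ifs <;> norm_num
  have h2 := mul_le_mul h1 (KO_abs_q L b) (abs_nonneg _) zero_le_one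
  rwa [one_mul] at h2

/-- the theta series -/
noncomputable def KO_th (L : Lev) (v : ℝ) : ℂ :=
  ∑' b : Eis, ((L.qi b : ℝ) : ℂ) * (Real.exp (-(4 * Real.pi * (b.norm : ℝ)) * v) : ℂ)

theorem KO_summable_exp {v : ℝ} (hv : 0 < v) :
    Summable fun b : Eis => Real.exp (-(4 * Real.pi * (b.norm : ℝ)) * v) := by
  have h1 := NAB.Ak_summable 0 (s := 4 * v) (by positivity) 0
  refine h1.congr fun b => ?_
  rw [zero_add, pow_zero, one_mul, norm_emb_sq]
  congr 1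
  ring

theorem KO_hasSum (L : Lev) (hep : L.ep = 1) {v : ℝ} (hv : 0 < v) :
    HasSum (fun b : Eis => ((L.qi b : ℝ) : ℂ) * (Real.exp (-(4 * Real.pi * (b.norm : ℝ)) * v) : ℂ)) (KO_th L v) := by
  refine Summable.hasSum ?_
  refine Summable.of_norm_bounded (KO_summable_exp hv) fun b => ?_
  rw [norm_mul, Complex.norm_real, Complex.norm_real, Real.norm_of_nonneg (Real.exp_pos _).le]
  exact mul_le_of_le_one_left (Real.exp_pos _).le (KO_abs_qi L hep b)

theorem KO_poisson (L : Lev) (hep : L.ep = 1) (hp : KO_Prim L) {u : ℝ} (hu : 0 < u) :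
    ((KO_SY L u : ℝ) : ℂ) = 3 * KO_vs * (L.q la : ℂ) * KO_g L / ((NAB.A0 : ℂ) * u) * KO_th L (1 / u) := by
  rw [KO_SY_poisson L hep hp hu]
  congr 1
  unfold KO_th
  refine tsum_congr fun b => ?_
  rw [← Complex.ofReal_mul]
  congr 2
  congr 1
  ring

theorem KO_A0 : (NAB.A0 : ℂ) ≠ 0 := by
  rw [Complex.ofReal_ne_zero]
  exact NAB.A0_pos'.ne'

theorem KO_gL (L : Lev) (hp : KO_Prim L) : KO_g L ≠ 0 := by
  intro h0
  have h1 := KO_gauss_norm L hp
  rw [h0, norm_zero, zero_pow two_ne_zero, ← norm_emb_sq] at h1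
  have h2 := norm_pos_iff.2 (KO3_emb_f L)
  have h3 : 0 < ‖emb L.f‖ ^ 2 := by positivity
  linarith

/-- the constant -/
noncomputable def KO_K (L : Lev) : ℂ := 3 * KO_vs * (L.q la : ℂ) * KO_g L / (NAB.A0 : ℂ)

theorem KO_K_ne (L : Lev) (hp : KO_Prim L) : KO_K L ≠ 0 := by
  unfold KO_K
  have h1 : KO_vs ≠ 0 := by
    intro h
    have h2 := KO_vs_sq
    rw [h] at h2
    norm_num at h2
  have h2 : (L.q la : ℂ) ≠ 0 := by
    rcases q_la_pm L with h | h <;> rw [h] <;> norm_num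
  exact div_ne_zero (mul_ne_zero (mul_ne_zero (mul_ne_zero (by norm_num) h1) h2) (KO_gL L hp)) KO_A0

theorem KO_SY_div (L : Lev) (hep : L.ep = 1) (hp : KO_Prim L) {v : ℝ} (hv : 0 < v) :
    ((KO_SY L v⁻¹ : ℝ) : ℂ) * ((v⁻¹ : ℝ) : ℂ) = KO_K L * KO_th L v := by
  have hv' : (v : ℂ) ≠ 0 := by
    rw [Complex.ofReal_ne_zero]
    exact hv.ne'
  have hA := KO_A0
  rw [KO_poisson L hep hp (inv_pos.2 hv), one_div, inv_inv, Complex.ofReal_inv, KO_K]
  field_simp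

theorem KO_th_eq (L : Lev) (hep : L.ep = 1) (hp : KO_Prim L) {v : ℝ} (hv : 0 < v) :
    KO_th L v = (KO_K L)⁻¹ * (((KO_SY L v⁻¹ : ℝ) : ℂ) * ((v⁻¹ : ℝ) : ℂ)) := by
  rw [KO_SY_div L hep hp hv, inv_mul_cancel_left₀ (KO_K_ne L hp)]

theorem KO_bound (L : Lev) (hep : L.ep = 1) (hp : KO_Prim L) : ∃ C κ : ℝ, 0 < C ∧ 0 < κ ∧ ∀ v : ℝ, 0 < v →
    ‖KO_th L v‖ ≤ C * Real.exp (-(κ * (v + 1 / v))) := by
  obtain ⟨C, κ, hC, hκ, hb⟩ := KO_bound_SY L
  have hK : 0 < ‖(KO_K L)⁻¹‖ := norm_pos_iff.2 (inv_ne_zero (KO_K_ne L hp))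
  refine ⟨‖(KO_K L)⁻¹‖ * (C * (2 / κ)), κ / 2, by positivity, by positivity, fun v hv => ?_⟩
  rw [KO_th_eq L hep hp hv, norm_mul, norm_mul, Complex.norm_real, Complex.norm_real, mul_assoc]
  refine mul_le_mul_of_nonneg_left ?_ hK.le
  have h1 := hb v⁻¹ (inv_pos.2 hv)
  have e1 : v⁻¹ + 1 / v⁻¹ = v + 1 / v := by
    rw [one_div, inv_inv, one_div, add_comm]
  rw [e1] at h1
  have hv' : 0 < 1 / v := by positivity
  have h2 : v⁻¹ ≤ 2 / κ * Real.exp (κ / 2 * (v + 1 / v)) := by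
    have h3 : κ / 2 * (v + 1 / v) ≤ Real.exp (κ / 2 * (v + 1 / v)) := by
      have := Real.add_one_le_exp (κ / 2 * (v + 1 / v))
      linarith
    have h4 : v⁻¹ ≤ v + 1 / v := by
      rw [one_div]; linarith
    have h5 : v + 1 / v = 2 / κ * (κ / 2 * (v + 1 / v)) := by
      field_simp
    calc v⁻¹ ≤ v + 1 / v := h4
      _ = 2 / κ * (κ / 2 * (v + 1 / v)) := h5
      _ ≤ _ := mul_le_mul_of_nonneg_left h3 (by positivity)
  have h6 : ‖(v⁻¹ : ℝ)‖ = v⁻¹ := Real.norm_of_nonneg (inv_pos.2 hv).le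
  rw [h6, Real.norm_eq_abs]
  calc |KO_SY L v⁻¹| * v⁻¹ ≤ (C * Real.exp (-(κ * (v + 1 / v)))) * (2 / κ * Real.exp (κ / 2 * (v + 1 / v))) :=
        mul_le_mul h1 h2 (inv_pos.2 hv).le (by positivity)
    _ = C * (2 / κ) * (Real.exp (-(κ * (v + 1 / v))) * Real.exp (κ / 2 * (v + 1 / v))) := by ring
    _ = C * (2 / κ) * Real.exp (-(κ / 2 * (v + 1 / v))) := by
        rw [← Real.exp_add]
        congr 2
        ring

theorem KO_cont_SY (L : Lev) : ContinuousOn (KO_SY L) (Ioi 0) := by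
  unfold KO_SY
  exact continuousOn_finsetSum _ fun α _ =>
    continuousOn_const.mul (((KO_GH_cont _ _).add (KO_GH_cont _ _)).add (KO_GH_cont _ _))

theorem KO_cont (L : Lev) (hep : L.ep = 1) (hp : KO_Prim L) : ContinuousOn (KO_th L) (Ioi 0) := by
  have h1 : ContinuousOn (fun v : ℝ => v⁻¹) (Ioi (0 : ℝ)) := continuousOn_inv₀.mono fun x hx => ne_of_gt hx
  have h2 : ContinuousOn (fun v : ℝ => KO_SY L v⁻¹) (Ioi (0 : ℝ)) :=
    (KO_cont_SY L).comp h1 fun x hx => mem_Ioi.2 (inv_pos.2 (mem_Ioi.1 hx))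
  have h3 : ContinuousOn (fun v : ℝ => (KO_K L)⁻¹ * (((KO_SY L v⁻¹ : ℝ) : ℂ) * ((v⁻¹ : ℝ) : ℂ)))
      (Ioi (0 : ℝ)) :=
    continuousOn_const.mul ((Complex.continuous_ofReal.comp_continuousOn h2).mul
      (Complex.continuous_ofReal.comp_continuousOn h1))
  exact h3.congr fun v hv => KO_th_eq L hep hp hv

theorem KO_mellin_cont (L : Lev) (hep : L.ep = 1) (hp : KO_Prim L) : ContinuousAt (mellin (KO_th L)) 1 := by
  obtain ⟨C, p, hC, hp', hb⟩ := KO_bound L hep hp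
  have h1 : DifferentiableAt ℂ (mellin (KO_th L)) 1 :=
    mellin_differentiableAt_of_isBigO_rpow (a := (1 : ℂ).re + 1) (b := (1 : ℂ).re - 1)
      ((KO_cont L hep hp).locallyIntegrableOn measurableSet_Ioi) (k5_top hC hp' hb _) (by linarith)
      (k5_bot hC hp' hb _) (by linarith)
  exact h1.continuousAt

theorem KO_qi_zero (L : Lev) (hep : L.ep = 1) : L.qi 0 = 0 := by
  have h1 : ¬ IsCoprime (0 : Eis) L.f := by
    rw [isCoprime_zero_left]
    exact L.hfu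
  unfold Lev.qi
  rw [if_neg (by rw [hep]; exact one_ne_zero), L.q_zero 0 h1, mul_zero]

theorem KO_mellin (L : Lev) (hep : L.ep = 1) {σ : ℝ} (hσ : 1 < σ) : mellin (KO_th L) (σ : ℂ) =
    ((Real.Gamma σ * (4 * Real.pi) ^ (-σ) * (6 * LJ L σ) : ℝ) : ℂ) := by
  have hpos : ∀ b : Eis, (0 : ℝ) ≤ (b.norm : ℝ) := fun b => by rw [← norm_emb_sq]; positivity
  have hpi : (0 : ℝ) < 4 * Real.pi := by positivity
  have hcount : Countable Eis := CUL.e2_equiv.countable_iff.2 inferInstance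
  have key := hasSum_mellin (a := fun b : Eis => ((L.qi b : ℝ) : ℂ)) (p := fun b : Eis => 4 * Real.pi * (b.norm : ℝ))
    (F := KO_th L) (s := (σ : ℂ)) ?_ (by rw [Complex.ofReal_re]; linarith) (fun t ht => ?_) ?_
  · have h6 : 6 * LJ L σ = ∑' b : Eis, (L.qi b : ℝ) * (b.norm : ℝ) ^ (-σ) := by
      rw [LJ]; ring
    rw [← key.tsum_eq, h6, ← tsum_mul_left, Complex.ofReal_tsum]
    refine tsum_congr fun b => ?_
    have h1 : (((4 * Real.pi * (b.norm : ℝ) : ℝ) : ℂ)) ^ (σ : ℂ) =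
        (((4 * Real.pi * (b.norm : ℝ)) ^ σ : ℝ) : ℂ) := by
      rw [Complex.ofReal_cpow (mul_nonneg hpi.le (hpos b))]
    have h2 : (4 * Real.pi * (b.norm : ℝ)) ^ σ = ((4 * Real.pi) ^ (-σ) * (b.norm : ℝ) ^ (-σ))⁻¹ := by
      rw [Real.mul_rpow hpi.le (hpos b), Real.rpow_neg hpi.le, Real.rpow_neg (hpos b), mul_inv, inv_inv, inv_inv]
    rw [h1, h2, Complex.Gamma_ofReal]
    push_cast
    rw [div_inv_eq_mul]
    ring
  · intro b
    rcases eq_or_ne b 0 with rfl | hb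
    · left
      rw [KO_qi_zero L hep, Int.cast_zero, Complex.ofReal_zero]
    · right
      have h1 : 0 < ‖emb b‖ := norm_pos_iff.2 (CUL.l2_emb_ne hb)
      have h2 : (0 : ℝ) < (b.norm : ℝ) := by rw [← norm_emb_sq]; positivity
      positivity
  · exact KO_hasSum L hep ht
  · rw [Complex.ofReal_re]
    have h1 := (k5_summable_dir hσ (fun b => |(L.qi b : ℝ)|) (fun b => by rw [abs_abs]; exact KO_abs_qi L hep b)).mul_left
      ((4 * Real.pi) ^ (-σ))
    refine h1.congr fun b => ?_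
    rw [Complex.norm_real, Real.norm_eq_abs, Real.mul_rpow hpi.le (hpos b), Real.rpow_neg hpi.le,
      Real.rpow_neg (hpos b)]
    field_simp

/-- the integral of the theta series -/
theorem KO_lim (L : Lev) (hep : L.ep = 1) (hp : KO_Prim L) {L₁ : ℝ} (hL : Tendsto (LJ L) (𝓝[>] 1) (𝓝 L₁)) :
    mellin (KO_th L) 1 = ((1 / (4 * Real.pi) * (6 * L₁) : ℝ) : ℂ) := by
  have hc := KO_mellin_cont L hep hp
  have h1 : Tendsto (fun σ : ℝ => mellin (KO_th L) (σ : ℂ)) (𝓝[>] 1) (𝓝 (mellin (KO_th L) 1)) := by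
    have h2 : Tendsto (fun σ : ℝ => (σ : ℂ)) (𝓝[>] 1) (𝓝 1) := by
      have h3 : Tendsto (fun σ : ℝ => (σ : ℂ)) (𝓝 1) (𝓝 ((1 : ℝ) : ℂ)) := Complex.continuous_ofReal.tendsto 1
      rw [Complex.ofReal_one] at h3
      exact h3.mono_left nhdsWithin_le_nhds
    exact hc.tendsto.comp h2
  have hG : Tendsto Real.Gamma (𝓝[>] 1) (𝓝 1) := by
    have h3 : ContinuousAt Real.Gamma 1 :=
      (Real.differentiableAt_Gamma (s := 1) fun m hm => by
        have : (0 : ℝ) ≤ (m : ℝ) := Nat.cast_nonneg m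
        linarith).continuousAt
    have h4 := h3.tendsto
    rw [Real.Gamma_one] at h4
    exact h4.mono_left nhdsWithin_le_nhds
  have hpow : ∀ c : ℝ, 0 < c → Tendsto (fun σ : ℝ => c ^ (-σ)) (𝓝[>] 1) (𝓝 c⁻¹) := by
    intro c hc0
    have h3 : Continuous fun σ : ℝ => c ^ (-σ) := by
      have h4 : Continuous fun σ : ℝ => -σ := continuous_neg
      exact continuous_const.rpow h4 fun x => Or.inl hc0.ne'
    have h5 := h3.tendsto 1
    simp only [Real.rpow_neg_one] at h5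
    exact h5.mono_left nhdsWithin_le_nhds
  have h6 : Tendsto (fun σ : ℝ => Real.Gamma σ * (4 * Real.pi) ^ (-σ) * (6 * LJ L σ))
      (𝓝[>] 1) (𝓝 (1 * (4 * Real.pi)⁻¹ * (6 * L₁))) :=
    (hG.mul (hpow _ (by positivity))).mul (hL.const_mul 6)
  have h7 : Tendsto (fun σ : ℝ => mellin (KO_th L) (σ : ℂ)) (𝓝[>] 1)
      (𝓝 ((1 * (4 * Real.pi)⁻¹ * (6 * L₁) : ℝ) : ℂ)) := by
    have h8 := (Complex.continuous_ofReal.tendsto _).comp h6
    refine h8.congr' ?_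
    filter_upwards [self_mem_nhdsWithin] with σ hσ
    rw [KO_mellin L hep (mem_Ioi.1 hσ)]
    rfl
  rw [tendsto_nhds_unique h1 h7, one_mul, one_div]

/-- the change of variables `v = 1 / u` -/
theorem KO_subst (L : Lev) (hep : L.ep = 1) (hp : KO_Prim L) :
    ((∫ u in Ioi (0 : ℝ), KO_SY L u / u : ℝ) : ℂ) = KO_K L * mellin (KO_th L) 1 := by
  have e1 : ((∫ u in Ioi (0 : ℝ), KO_SY L u / u : ℝ) : ℂ) = ∫ u in Ioi (0 : ℝ), ((KO_SY L u / u : ℝ) : ℂ) :=
    integral_ofReal.symm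
  rw [e1, ← integral_comp_rpow_Ioi (fun u : ℝ => ((KO_SY L u / u : ℝ) : ℂ)) (p := -1) (by norm_num), mellin,
    ← integral_const_mul]
  refine setIntegral_congr_fun measurableSet_Ioi fun v hv => ?_
  have hv0 : (0 : ℝ) < v := hv
  have hv' : (v : ℂ) ≠ 0 := by
    rw [Complex.ofReal_ne_zero]
    exact hv0.ne'
  have h1 := KO_SY_div L hep hp hv0
  simp only [sub_self, Complex.cpow_zero, one_smul]
  rw [← h1, Real.rpow_neg_one, abs_neg, abs_one, one_mul]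
  have h2 : v ^ ((-1 : ℝ) - 1) = v⁻¹ * v⁻¹ := by
    rw [← Real.rpow_neg_one, ← Real.rpow_add hv0]
    congr 1
  rw [h2, Complex.real_smul]
  push_cast
  field_simp

theorem KO_theta_lim (L : Lev) (hep : L.ep = 1) (hp : KO_Prim L) {L₁ : ℝ}
    (hL : Tendsto (LJ L) (𝓝[>] 1) (𝓝 L₁)) :
    ((∑ α ∈ (rp L.f).filter (fun α => IsCoprime α L.f), (L.q α : ℝ) * KO_LY (pt L α) : ℝ) : ℂ) =
      KO_K L * ((1 / (4 * Real.pi) * (6 * L₁) : ℝ) : ℂ) := by
  rw [KO_int_SY L, KO_subst L hep hp, KO_lim L hep hp hL]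

theorem KO_Um_congr (L : Lev) {x y : Eis} (h : L.f ∣ x - y) : Um (pt L x) = Um (pt L y) := by
  unfold Um ym
  rw [(pt_congr_xw L h).2]

theorem KO_unit (L : Lev) (hep : L.ep = 1) {ζ : Eis} (hζ : IsUnit ζ) (x : Eis) :
    (L.q (ζ * x) : ℝ) * Real.log ‖Um (pt L (ζ * x))‖ = (L.q x : ℝ) * Real.log ‖Um (pt L x)‖ := by
  obtain ⟨s, j, hs, hq, -, hx⟩ := unit_act L hζ
  have hy := (hx x).2
  rw [hep, pow_one] at hq
  rcases hs with rfl | rfl
  · have h1 : Um (pt L (ζ * x)) = Um (pt L x) := by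
      unfold Um ym
      rw [hy, Int.cast_one, one_mul]
    rw [h1, L.q_mul, hq, one_mul]
  · have h1 : Um (pt L (ζ * x)) = (Um (pt L x))⁻¹ := by
      unfold Um ym
      rw [hy, inv_div, Int.cast_neg, Int.cast_one, neg_one_mul, neg_neg, ← sub_eq_add_neg, sub_neg_eq_add]
    rw [h1, L.q_mul, hq, norm_inv, Real.log_inv]
    push_cast
    ring

theorem KO_log (L : Lev) (hep : L.ep = 1) (hp : KO_Prim L) {R : Finset Eis} (hR : IsR L R) {L₁ : ℝ}
    (hL : Tendsto (LJ L) (𝓝[>] 1) (𝓝 L₁)) :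
    |Real.log ‖eo L R‖| = 3 / (4 * Real.pi) * √(L.f.norm : ℝ) * |L₁| := by
  have hU : ∀ c ∈ R, Um (pt L c) ≠ 0 := by
    intro c hc
    obtain ⟨h1, h2⟩ := KO2_ne (KO_DY L (hR.1 c hc))
    unfold Um ym
    rw [← sub_eq_add_neg, sub_neg_eq_add]
    exact div_ne_zero h1 h2
  -- the sum over `R`
  have e1 : Real.log ‖eo L R‖ = ∑ c ∈ R, (L.q c : ℝ) * Real.log ‖Um (pt L c)‖ := by
    unfold eo
    rw [norm_prod, Real.log_prod (fun c hc => by
      rw [norm_ne_zero_iff]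
      exact zpow_ne_zero _ (hU c hc))]
    refine Finset.sum_congr rfl fun c _ => ?_
    rw [norm_zpow, Real.log_zpow]
  -- the sum over the coprime classes
  have e2 := sum_R L hR (fun α => (((L.q α : ℝ) * Real.log ‖Um (pt L α)‖ : ℝ) : ℂ)) (fun x y hxy => by
    simp only [L.q_per x y hxy, KO_Um_congr L hxy]) (fun ζ x hζ => by
    simp only [KO_unit L hep hζ])
  have e3 : ∑ α ∈ (rp L.f).filter (fun α => IsCoprime α L.f), (L.q α : ℝ) * Real.log ‖Um (pt L α)‖ =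
      6 * ∑ c ∈ R, (L.q c : ℝ) * Real.log ‖Um (pt L c)‖ := by
    exact_mod_cast e2
  have e5 : ∑ α ∈ (rp L.f).filter (fun α => IsCoprime α L.f), (L.q α : ℝ) * Real.log ‖Um (pt L α)‖ =
      -(1 / 2) * ∑ α ∈ (rp L.f).filter (fun α => IsCoprime α L.f), (L.q α : ℝ) * KO_LY (pt L α) := by
    rw [Finset.mul_sum]
    refine Finset.sum_congr rfl fun α hα => ?_
    rw [KO_LY_eq (KO_DY L (Finset.mem_filter.1 hα).2)]
    ring
  have e6 : Real.log ‖eo L R‖ = -(1 / 12) * ∑ α ∈ (rp L.f).filter (fun α => IsCoprime α L.f),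
        (L.q α : ℝ) * KO_LY (pt L α) := by
    rw [e1]
    linarith
  -- absolute values
  have h1 := congrArg norm (KO_theta_lim L hep hp hL)
  have hg : ‖KO_g L‖ = √(L.f.norm : ℝ) := by
    rw [← KO_gauss_norm L hp]
    exact (Real.sqrt_sq (norm_nonneg _)).symm
  have hA : ‖(NAB.A0 : ℂ)‖ = √3 / 2 := by
    rw [Complex.norm_real, Real.norm_of_nonneg NAB.A0_pos'.le, NAB.A0]
  have hq : ‖(L.q la : ℂ)‖ = 1 := by
    rcases q_la_pm L with h | h <;> rw [h] <;> simp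
  have h8 : ‖(3 : ℂ)‖ = 3 := by norm_num
  have h9 : |1 / (4 * Real.pi)| = 1 / (4 * Real.pi) := abs_of_pos (by positivity)
  have h10 : |(6 : ℝ)| = 6 := abs_of_pos (by norm_num)
  rw [norm_mul, KO_K, norm_div, norm_mul, norm_mul, norm_mul, hg, hA, hq, KO_vs_norm, h8, Complex.norm_real,
    Complex.norm_real, Real.norm_eq_abs, Real.norm_eq_abs, abs_mul, abs_mul, h9, h10] at h1
  rw [e6, abs_mul, h1]
  have h11 : |(-(1 / 12) : ℝ)| = 1 / 12 := by rw [abs_neg]; exact abs_of_pos (by norm_num)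
  rw [h11]
  have hpi := Real.pi_ne_zero
  have h13 : √3 ≠ 0 := by positivity
  field_simp
  ring

theorem log_eo {D₁ : Eis} (Q : QD D₁) (h : Q.L.ep = 1) {R : Finset Eis} (hR : IsR Q.L R) {L₁ : ℝ}
    (hL : Tendsto (LJ Q.L) (𝓝[>] 1) (𝓝 L₁)) :
    |Real.log ‖eo Q.L R‖| = 3 / (4 * Real.pi) * √(Q.L.f.norm : ℝ) * |L₁| :=
  KO_log Q.L h (fun p m hp hm => Q.prim p m hp hm) hR hL

end JGL
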