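import Pool.Agent.JGL.N3

/-!
# [JGL-N] the class number formula
-/

set_option autoImplicit false

open NumberField IsDedekindDomain Filter Topology
open scoped Classical ComplexConjugate

namespace JGL

open CM27 JZ
open CU (la eE)
open CUL (Nl ez si ta DS Cont LV IsRep rp cr mn mo zw OT GalU W3 W9)
open JL (N1 KD sD Psi6)

theorem n_residue {D₁ : Eis} (Q : QD D₁) : dedekindZeta_residue (KD D₁) =
    4 * Real.pi ^ 2 * Units.regulator (KD D₁) * classNumber (KD D₁) /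
      (3 * Units.torsionOrder (KD D₁) * √((Q.L.f.norm : ℝ) * 3 ^ Q.L.ep)) := by
  obtain ⟨e⟩ := exists_ExtG Q
  have hf := n1_finrank_KD Q
  have c1 : InfinitePlace.nrRealPlaces (KD D₁) = 0 := IsTotallyComplex.nrRealPlaces_eq_zero (KD D₁)
  have c2 : InfinitePlace.nrComplexPlaces (KD D₁) = 2 := by
    have := InfinitePlace.card_add_two_mul_card_eq_rank (KD D₁)
    omega
  have hd : |((discr (KD D₁) : ℤ) : ℝ)| = 9 * ((Q.L.f.norm : ℝ) * 3 ^ Q.L.ep) := by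
    have h1 := n1_discr e
    rw [Q.disc] at h1
    have h2 : (((discr (KD D₁)).natAbs : ℕ) : ℝ) = 9 * ((Q.L.f.norm : ℝ) * 3 ^ Q.L.ep) := by
      calc (((discr (KD D₁)).natAbs : ℕ) : ℝ) = ((((discr (KD D₁)).natAbs : ℕ) : ℤ) : ℝ) := by
            rw [Int.cast_natCast]
        _ = ((9 * (Q.L.f.norm * 3 ^ Q.L.ep) : ℤ) : ℝ) := by rw [h1]
        _ = 9 * ((Q.L.f.norm : ℝ) * 3 ^ Q.L.ep) := by push_cast; ring
    rw [← Int.cast_abs, ← Nat.cast_natAbs, h2]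
  have hs : √(9 * ((Q.L.f.norm : ℝ) * 3 ^ Q.L.ep)) = 3 * √((Q.L.f.norm : ℝ) * 3 ^ Q.L.ep) := by
    rw [Real.sqrt_mul (by norm_num), show (9 : ℝ) = 3 ^ 2 by norm_num, Real.sqrt_sq (by norm_num)]
  rw [dedekindZeta_residue_def, c1, c2, hd, hs]
  have e1 : (2 : ℝ) ^ 0 * (2 * Real.pi) ^ 2 * Units.regulator (KD D₁) * (classNumber (KD D₁) : ℝ) =
      4 * Real.pi ^ 2 * Units.regulator (KD D₁) * (classNumber (KD D₁) : ℝ) := by ring
  have e2 : (Units.torsionOrder (KD D₁) : ℝ) * (3 * √((Q.L.f.norm : ℝ) * 3 ^ Q.L.ep)) =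
      3 * Units.torsionOrder (KD D₁) * √((Q.L.f.norm : ℝ) * 3 ^ Q.L.ep) := by ring
  rw [e1, e2]

theorem LJ_lim {D₁ : Eis} (Q : QD D₁) : Tendsto (LJ Q.L) (𝓝[>] 1)
    (𝓝 (4 * Real.pi * √3 * Units.regulator (KD D₁) * classNumber (KD D₁) /
      (Units.torsionOrder (KD D₁) * √((Q.L.f.norm : ℝ) * 3 ^ Q.L.ep)))) := by
  obtain ⟨e⟩ := exists_ExtG Q
  have hM := tendsto_sub_one_mul_dedekindZeta_nhdsGT (KD D₁)
  have hL := tendsto_sub_one_mul_dedekindZeta_nhdsGT CF.KK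
  have hne : ((dedekindZeta_residue CF.KK : ℝ) : ℂ) ≠ 0 := by
    exact_mod_cast dedekindZeta_residue_ne_zero CF.KK
  have hdiv := hM.div hL hne
  have hval : ((dedekindZeta_residue (KD D₁) : ℝ) : ℂ) / ((dedekindZeta_residue CF.KK : ℝ) : ℂ) =
      ((4 * Real.pi * √3 * Units.regulator (KD D₁) * classNumber (KD D₁) /
      (Units.torsionOrder (KD D₁) * √((Q.L.f.norm : ℝ) * 3 ^ Q.L.ep)) : ℝ) : ℂ) := by
    rw [← Complex.ofReal_div]
    congr 1
    rw [JL.residue_KK, n_residue Q]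
    have h3 : (0 : ℝ) < √3 := by positivity
    have hpi := Real.pi_pos
    have hT : (Units.torsionOrder (KD D₁) : ℝ) ≠ 0 := by
      exact_mod_cast Units.torsionOrder_ne_zero (KD D₁)
    set R := Units.regulator (KD D₁)
    set H := (classNumber (KD D₁) : ℝ)
    set S := √((Q.L.f.norm : ℝ) * 3 ^ Q.L.ep)
    set W := (Units.torsionOrder (KD D₁) : ℝ)
    by_cases hS : S = 0
    · rw [hS]
      simp
    · field_simp
  rw [hval] at hdiv
  have hc : Tendsto (fun σ : ℝ => ((LJ Q.L σ : ℝ) : ℂ)) (𝓝[>] 1)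
      (𝓝 ((4 * Real.pi * √3 * Units.regulator (KD D₁) * classNumber (KD D₁) /
      (Units.torsionOrder (KD D₁) * √((Q.L.f.norm : ℝ) * 3 ^ Q.L.ep)) : ℝ) : ℂ)) := by
    refine hdiv.congr' ?_
    have hev := hL.eventually_ne hne
    filter_upwards [hev, self_mem_nhdsWithin] with s hs1 hs2
    show (s - 1) * dedekindZeta (KD D₁) s / ((s - 1) * dedekindZeta CF.KK s) = ((LJ Q.L s : ℝ) : ℂ)
    rw [n3_zeta Q e hs2, ← mul_assoc, mul_div_cancel_left₀ _ hs1]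
  have hre := (Complex.continuous_re.tendsto _).comp hc
  rw [Complex.ofReal_re] at hre
  exact hre

end JGL
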