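import Pool.Agent.JGL.B
import Pool.Agent.JL.N2

/-!
# [JGL-N1] the ring of integers and the discriminant of `ℚ(ω, √D₁)`, `O_M = O[ρ]`, `ρ² - t ρ + n = 0`
-/

set_option autoImplicit false

open NumberField IsDedekindDomain Filter Topology
open scoped Classical ComplexConjugate

namespace JGL

open CM27 JZ
open CU (la eE)
open CUL (Nl ez si ta DS Cont LV IsRep rp cr mn mo zw OT GalU W3 W9)
open JL (N1 KD sD Psi6)

variable {D : Eis}

/-! ## the field -/

theorem n1_sD_not_mem (h : ¬ IsSquare D) : sD D ∉ CF.KK := by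
  intro hm
  obtain ⟨a, ha⟩ := JL.KK_int hm (JL.isIntegral_sD D)
  apply h
  refine ⟨a, ?_⟩
  apply emb_injective
  rw [map_mul, ← ha, ← sq, JL.sD_sq]

theorem n1_rep_unique (h : ¬ IsSquare D) {u₁ u₂ v₁ v₂ : ℂ} (h1 : u₁ ∈ CF.KK) (h2 : u₂ ∈ CF.KK) (h3 : v₁ ∈ CF.KK)
    (h4 : v₂ ∈ CF.KK) (he : u₁ + u₂ * sD D = v₁ + v₂ * sD D) : u₁ = v₁ ∧ u₂ = v₂ := by
  have h22 : u₂ = v₂ := by
    by_contra hne
    apply n1_sD_not_mem h
    have h5 : sD D = (v₁ - u₁) / (u₂ - v₂) := by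
      rw [eq_div_iff (sub_ne_zero.mpr hne)]
      linear_combination he
    rw [h5]
    exact div_mem (sub_mem h3 h1) (sub_mem h2 h4)
  refine ⟨?_, h22⟩
  rw [h22] at he
  exact add_right_cancel he

theorem n1_exists_tau (h : ¬ IsSquare D) : ∃ τ : KD D ≃+* KD D, ∀ (u₁ u₂ : ℂ), u₁ ∈ CF.KK → u₂ ∈ CF.KK →
    ∀ x : KD D, (x : ℂ) = u₁ + u₂ * sD D → ((τ x : KD D) : ℂ) = u₁ - u₂ * sD D := by
  have hx : ∀ x : KD D, ∃ u₁ u₂ : ℂ, u₁ ∈ CF.KK ∧ u₂ ∈ CF.KK ∧ (x : ℂ) = u₁ + u₂ * sD D :=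
    fun x => (JL.mem_KD (x : ℂ)).mp x.2
  choose p q hp hq hpq using hx
  have hmem : ∀ x : KD D, p x - q x * sD D ∈ KD D := fun x =>
    (JL.mem_KD _).mpr ⟨p x, - q x, hp x, neg_mem (hq x), by ring⟩
  let f : KD D → KD D := fun x => ⟨p x - q x * sD D, hmem x⟩
  have key : ∀ (u₁ u₂ : ℂ), u₁ ∈ CF.KK → u₂ ∈ CF.KK →
      ∀ x : KD D, (x : ℂ) = u₁ + u₂ * sD D → ((f x : KD D) : ℂ) = u₁ - u₂ * sD D := by
    intro u₁ u₂ h1 h2 x hx
    obtain ⟨h3, h4⟩ := n1_rep_unique h (hp x) (hq x) h1 h2 (by rw [← hpq, hx])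
    change p x - q x * sD D = _
    rw [h3, h4]
  have hff : ∀ x, f (f x) = x := by
    intro x
    apply Subtype.ext
    rw [key (p x) (- q x) (hp x) (neg_mem (hq x)) (f x) (by
      change p x - q x * sD D = _
      ring), hpq x]
    ring
  refine ⟨RingEquiv.mk ⟨f, f, hff, hff⟩ ?_ ?_, key⟩
  · intro x y
    apply Subtype.ext
    rw [key (p x * p y + q x * q y * emb D) (p x * q y + q x * p y)
      (add_mem (mul_mem (hp x) (hp y)) (mul_mem (mul_mem (hq x) (hq y)) (JL.F0_emb_mem D)))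
      (add_mem (mul_mem (hp x) (hq y)) (mul_mem (hq x) (hp y))) (x * y) (by
        push_cast
        rw [hpq x, hpq y]
        linear_combination (q x * q y) * JL.sD_sq D)]
    change _ = (p x - q x * sD D) * (p y - q y * sD D)
    linear_combination (- (q x * q y)) * JL.sD_sq D
  · intro x y
    apply Subtype.ext
    rw [key (p x + p y) (q x + q y) (add_mem (hp x) (hp y)) (add_mem (hq x) (hq y)) (x + y) (by
        push_cast
        rw [hpq x, hpq y]
        ring)]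
    change _ = (p x - q x * sD D) + (p y - q y * sD D)
    ring

/-- integrality of the second coordinate -/
theorem n1_V (h : Squarefree D) {V : ℂ} (hV : V ∈ CF.KK) (c : Eis) (hc : V ^ 2 * emb D = emb c) :
    ∃ b : Eis, V = emb b := by
  have hdom : IsDomain Eis := eis_isDomain
  have hpid : IsPrincipalIdealRing Eis := eis_pid
  have hD0 : D ≠ 0 := h.ne_zero
  have h1 : (V * emb D) ^ 2 = emb (c * D) := by
    rw [map_mul, ← hc]; ring
  have h2 : IsIntegral ℤ (V * emb D) := by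
    refine IsIntegral.of_pow (n := 2) two_pos ?_
    rw [h1]; exact JL.isIntegral_emb _
  obtain ⟨e, he⟩ := JL.KK_int (mul_mem hV (JL.F0_emb_mem D)) h2
  have h3 : e ^ 2 = c * D := by
    apply emb_injective
    rw [map_pow, ← he, h1]
  have h4 : D ∣ e := (h.dvd_pow_iff_dvd two_ne_zero).mp ⟨c, by rw [h3, mul_comm]⟩
  obtain ⟨b, rfl⟩ := h4
  refine ⟨b, ?_⟩
  have h5 : emb D ≠ 0 := by
    rw [Ne, ← map_zero emb, emb_injective.eq_iff]; exact hD0
  apply mul_right_cancel₀ h5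
  rw [he, map_mul, mul_comm]

/-- `U² - D V² ≡ 0 mod 4` for an integral `z = (U + V s) / 2` -/
theorem n1_UV (hsq : Squarefree D) (hns : ¬ IsSquare D) {z : ℂ} (hz : z ∈ KD D) (hi : IsIntegral ℤ z) :
    ∃ U V m : Eis, 2 * z = emb U + emb V * sD D ∧ U ^ 2 - D * V ^ 2 = 4 * m := by
  obtain ⟨u₁, u₂, h1, h2, hzu⟩ := (JL.mem_KD z).mp hz
  obtain ⟨τ, hτ⟩ := n1_exists_tau hns
  have hi1 : IsIntegral ℤ (⟨z, hz⟩ : KD D) :=
    (isIntegral_algHom_iff ((KD D).val.restrictScalars ℤ) Subtype.val_injective).mp hi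
  have hi2 : IsIntegral ℤ (τ ⟨z, hz⟩) := hi1.map (τ : KD D →+* KD D).toIntAlgHom
  have hi3 : IsIntegral ℤ (u₁ - u₂ * sD D) := by
    rw [← hτ u₁ u₂ h1 h2 ⟨z, hz⟩ hzu]
    exact (isIntegral_algHom_iff ((KD D).val.restrictScalars ℤ) Subtype.val_injective).mpr hi2
  have hU : IsIntegral ℤ (2 * u₁) := by
    have : 2 * u₁ = z + (u₁ - u₂ * sD D) := by rw [hzu]; ring
    rw [this]; exact hi.add hi3
  have hN : IsIntegral ℤ (u₁ ^ 2 - u₂ ^ 2 * emb D) := by
    have : u₁ ^ 2 - u₂ ^ 2 * emb D = z * (u₁ - u₂ * sD D) := by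
      rw [hzu, ← JL.sD_sq]; ring
    rw [this]; exact hi.mul hi3
  have h2m : (2 : ℂ) ∈ CF.KK := by
    have := JL.F0_emb_mem 2
    rwa [map_ofNat] at this
  obtain ⟨U, hU'⟩ := JL.KK_int (mul_mem h2m h1) hU
  obtain ⟨m, hm⟩ := JL.KK_int (sub_mem (pow_mem h1 2) (mul_mem (pow_mem h2 2) (JL.F0_emb_mem D))) hN
  obtain ⟨V, hV⟩ := n1_V hsq (mul_mem h2m h2) (U ^ 2 - 4 * m) (by
    rw [map_sub, map_mul, map_pow, map_ofNat, ← hm, ← hU']
    ring)
  refine ⟨U, V, m, ?_, ?_⟩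
  · rw [← hU', ← hV, hzu]
    ring
  · apply emb_injective
    rw [map_sub, map_mul, map_mul, map_pow, map_pow, map_ofNat, ← hm, ← hU', ← hV]
    ring

/-- the generator `ρ` of the ring of integers -/
theorem n1_rho (Q : QD D) : ∃ (ρ : ℂ) (c : Eis), (c = 1 ∨ c = 2) ∧ 2 * ρ = emb Q.t + emb c * sD D ∧
    ρ ^ 2 = emb Q.t * ρ - emb Q.n ∧ ρ ∈ KD D ∧
    ∀ z ∈ KD D, IsIntegral ℤ z → ∃ a b : Eis, z = emb a + emb b * ρ := by
  have hdom : IsDomain Eis := eis_isDomain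
  have hp2 := Q3.prime_two
  have hs : sD D ∈ KD D := JL.n0_mem D
  have hs2 := JL.sD_sq D
  have hle : ∀ a : Eis, emb a ∈ KD D := fun a => CF.KK_le (KD D) (JL.w_mem_KD D) (JL.F0_emb_mem a)
  rcases Q.ring with h | ⟨ht, hn, h4⟩
  · have hE : emb Q.t ^ 2 - 4 * emb Q.n = emb D := by
      have h0 := congrArg emb h
      rwa [map_sub, map_mul, map_pow, map_ofNat] at h0
    refine ⟨(emb Q.t + sD D) / 2, 1, Or.inl rfl, by rw [map_one]; ring, ?_, ?_, ?_⟩
    · linear_combination (1 / 4) * hs2 - (1 / 4) * hE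
    · exact div_mem (add_mem (hle _) hs) (by have := hle 2; rwa [map_ofNat] at this)
    · intro z hz hi
      obtain ⟨U, V, m, hUV, hm⟩ := n1_UV Q.sqf Q.nsq hz hi
      have h5 : (U - V * Q.t) * (U + V * Q.t) = 2 * (2 * m - 2 * (Q.n * V ^ 2)) := by
        linear_combination hm - V ^ 2 * h
      have h6 : (2 : Eis) ∣ U - V * Q.t := by
        rcases hp2.dvd_or_dvd ⟨_, h5⟩ with h7 | h7
        · exact h7
        · have h8 : U - V * Q.t = (U + V * Q.t) - 2 * (V * Q.t) := by ring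
          rw [h8]
          exact dvd_sub h7 ⟨_, rfl⟩
      obtain ⟨a, ha⟩ := h6
      refine ⟨a, V, ?_⟩
      have ha' : emb U - emb V * emb Q.t = 2 * emb a := by
        rw [← map_mul, ← map_sub, ha, map_mul, map_ofNat]
      linear_combination (1 / 2) * hUV + (1 / 2) * ha'
  · refine ⟨sD D, 2, Or.inr rfl, by rw [ht, map_zero, map_ofNat]; ring, ?_, hs, ?_⟩
    · rw [ht, hn, map_zero, map_neg]
      linear_combination hs2
    · intro z hz hi
      obtain ⟨U, V, m, hUV, hm⟩ := n1_UV Q.sqf Q.nsq hz hi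
      have hpid : IsPrincipalIdealRing Eis := eis_pid
      have hV2 : (2 : Eis) ∣ V := by
        by_contra hnd
        have hco : IsCoprime V 2 := (Irreducible.coprime_iff_not_dvd hp2.irreducible).mpr hnd |>.symm
        have hco2 : IsCoprime V (2 ^ 2) := hco.pow_right
        obtain ⟨x, y, hxy⟩ := hco2
        refine h4 (U * x) ⟨y * (2 - 4 * y) * D - m * x ^ 2, ?_⟩
        have h5 : x * V = 1 - 4 * y := by linear_combination hxy
        have h6 : D * (x * V) ^ 2 = (U * x) ^ 2 - 4 * m * x ^ 2 := by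
          linear_combination (- x ^ 2) * hm
        rw [h5] at h6
        linear_combination h6
      obtain ⟨V', rfl⟩ := hV2
      have hU2 : (2 : Eis) ∣ U := by
        apply hp2.dvd_of_dvd_pow (n := 2)
        refine ⟨2 * m + 2 * D * V' ^ 2, ?_⟩
        linear_combination hm
      obtain ⟨U', rfl⟩ := hU2
      refine ⟨U', V', ?_⟩
      rw [map_mul, map_mul, map_ofNat] at hUV
      linear_combination (1 / 2) * hUV

/-! ## the extension -/

/-- The ring of integers of `M` is `ℤ[ω][s]`, `s² - t s + n = 0`. -/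
structure ExtG (t n : Eis) (M : Type) [Field M] [NumberField M] [Algebra CF.KK M] where
  s : 𝓞 M
  hs : s ^ 2 = algebraMap (𝓞 CF.KK) (𝓞 M) (eE t) * s - algebraMap (𝓞 CF.KK) (𝓞 M) (eE n)
  repr : ∀ x : 𝓞 M, ∃ a b : 𝓞 CF.KK, x = algebraMap (𝓞 CF.KK) (𝓞 M) a + algebraMap (𝓞 CF.KK) (𝓞 M) b * s
  uniq : ∀ a b : 𝓞 CF.KK, algebraMap (𝓞 CF.KK) (𝓞 M) a + algebraMap (𝓞 CF.KK) (𝓞 M) b * s = 0 → a = 0 ∧ b = 0

theorem exists_ExtG (Q : QD D) : Nonempty (ExtG Q.t Q.n (KD D)) := by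
  obtain ⟨ρ, c, hc, h2, hρ, hmem, hint⟩ := n1_rho Q
  have hi : IsIntegral ℤ ρ := by
    have h3 : IsIntegral ℤ ((2 * ρ - emb Q.t) ^ 2) := by
      have : (2 * ρ - emb Q.t) ^ 2 = emb (c ^ 2 * D) := by
        rw [h2, map_mul, map_pow]
        linear_combination (emb c ^ 2) * JL.sD_sq D
      rw [this]; exact JL.isIntegral_emb _
    -- root of the polynomial `X² - t X + n` over the integral elements
    have h5 : IsIntegral (integralClosure ℤ ℂ) ρ := by
      refine ⟨Polynomial.X ^ 2 - Polynomial.C (⟨emb Q.t, JL.isIntegral_emb _⟩ : integralClosure ℤ ℂ) * Polynomial.X +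
        Polynomial.C (⟨emb Q.n, JL.isIntegral_emb _⟩ : integralClosure ℤ ℂ), by monicity!, ?_⟩
      rw [Polynomial.eval₂_add, Polynomial.eval₂_sub, Polynomial.eval₂_mul, Polynomial.eval₂_X_pow,
        Polynomial.eval₂_X, Polynomial.eval₂_C, Polynomial.eval₂_C]
      have e1 : algebraMap (integralClosure ℤ ℂ) ℂ ⟨emb Q.t, JL.isIntegral_emb _⟩ = emb Q.t := rfl
      have e2 : algebraMap (integralClosure ℤ ℂ) ℂ ⟨emb Q.n, JL.isIntegral_emb _⟩ = emb Q.n := rfl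
      rw [e1, e2, hρ]
      ring
    exact isIntegral_trans ρ h5
  have hiK : IsIntegral ℤ (⟨ρ, hmem⟩ : KD D) := by
    have h1 : ρ = algebraMap (KD D) ℂ ⟨ρ, hmem⟩ := rfl
    rw [h1] at hi
    exact (isIntegral_algebraMap_iff (algebraMap (KD D) ℂ).injective).1 hi
  set s : 𝓞 (KD D) := ⟨⟨ρ, hmem⟩, hiK⟩ with hs
  have hsc : ((s : KD D) : ℂ) = ρ := rfl
  have hadd : ∀ x y : 𝓞 (KD D), (((x + y : 𝓞 (KD D)) : KD D) : ℂ) = ((x : KD D) : ℂ) + ((y : KD D) : ℂ) :=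
    fun x y => rfl
  have hsub : ∀ x y : 𝓞 (KD D), (((x - y : 𝓞 (KD D)) : KD D) : ℂ) = ((x : KD D) : ℂ) - ((y : KD D) : ℂ) :=
    fun x y => rfl
  have hmul : ∀ x y : 𝓞 (KD D), (((x * y : 𝓞 (KD D)) : KD D) : ℂ) = ((x : KD D) : ℂ) * ((y : KD D) : ℂ) :=
    fun x y => rfl
  refine ⟨⟨s, ?_, ?_, ?_⟩⟩
  · apply JL.n0_ext
    rw [sq, hmul, hsub, hmul, hsc, JL.n0_coe, JL.n0_coe, CU.eE_coe, CU.eE_coe, ← sq, hρ]
  · intro x
    obtain ⟨a, b, hab⟩ := hint (x : KD D) (x : KD D).2 (JL.n0_lift D x)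
    refine ⟨eE a, eE b, ?_⟩
    apply JL.n0_ext
    rw [hadd, hmul, hsc, JL.n0_coe, JL.n0_coe, CU.eE_coe, CU.eE_coe]
    exact hab
  · intro a b hab
    have h2' := congrArg (fun x : 𝓞 (KD D) => ((x : KD D) : ℂ)) hab
    simp only [hadd, hmul, hsc, JL.n0_coe] at h2'
    have h3 : ((a : CF.KK) : ℂ) + ((b : CF.KK) : ℂ) * ρ = 0 := h2'
    have hbm : ((b : CF.KK) : ℂ) ∈ CF.KK := (b : CF.KK).2
    have ham : ((a : CF.KK) : ℂ) ∈ CF.KK := (a : CF.KK).2
    have h2m : (2 : ℂ) ∈ CF.KK := by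
      have := JL.F0_emb_mem 2
      rwa [map_ofNat] at this
    have h4 : (2 * ((a : CF.KK) : ℂ) + ((b : CF.KK) : ℂ) * emb Q.t) + (((b : CF.KK) : ℂ) * emb c) * sD D =
        0 + 0 * sD D := by
      linear_combination 2 * h3 - ((b : CF.KK) : ℂ) * h2
    obtain ⟨h5, h6⟩ := n1_rep_unique Q.nsq (add_mem (mul_mem h2m ham) (mul_mem hbm (JL.F0_emb_mem _)))
      (mul_mem hbm (JL.F0_emb_mem _)) (zero_mem _) (zero_mem _) h4
    have hc0 : emb c ≠ 0 := by
      rcases hc with rfl | rfl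
      · rw [map_one]; exact one_ne_zero
      · rw [map_ofNat]; exact two_ne_zero
    have hb : ((b : CF.KK) : ℂ) = 0 := (mul_eq_zero.1 h6).resolve_right hc0
    have ha : ((a : CF.KK) : ℂ) = 0 := by
      rw [hb, zero_mul, add_zero] at h5
      exact (mul_eq_zero.1 h5).resolve_left two_ne_zero
    exact ⟨RingOfIntegers.ext (Subtype.ext ha), RingOfIntegers.ext (Subtype.ext hb)⟩

/-! ## the discriminant -/

section
variable {t n : Eis} {M : Type} [Field M] [NumberField M] [Algebra CF.KK M]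

theorem n1_uniq (e : ExtG t n M) {a b a' b' : 𝓞 CF.KK}
    (h : algebraMap (𝓞 CF.KK) (𝓞 M) a + algebraMap (𝓞 CF.KK) (𝓞 M) b * e.s =
      algebraMap (𝓞 CF.KK) (𝓞 M) a' + algebraMap (𝓞 CF.KK) (𝓞 M) b' * e.s) : a = a' ∧ b = b' := by
  have h1 : algebraMap (𝓞 CF.KK) (𝓞 M) (a - a') + algebraMap (𝓞 CF.KK) (𝓞 M) (b - b') * e.s = 0 := by
    rw [map_sub, map_sub]
    linear_combination h
  obtain ⟨h2, h3⟩ := e.uniq _ _ h1
  exact ⟨sub_eq_zero.1 h2, sub_eq_zero.1 h3⟩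

/-- the polynomial `X² - t X + n` -/
noncomputable def n1_pol (t n : Eis) : Polynomial (𝓞 CF.KK) :=
  Polynomial.X ^ 2 - Polynomial.C (eE t) * Polynomial.X + Polynomial.C (eE n)

theorem n1_pol_monic (t n : Eis) : (n1_pol t n).Monic := by
  unfold n1_pol
  monicity!

theorem n1_pol_deg (t n : Eis) : (n1_pol t n).natDegree = 2 := by
  unfold n1_pol
  compute_degree!

theorem n1_pol_root (e : ExtG t n M) : Polynomial.aeval e.s (n1_pol t n) = 0 := by
  unfold n1_pol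
  rw [map_add, map_sub, map_mul, map_pow, Polynomial.aeval_X, Polynomial.aeval_C, Polynomial.aeval_C, e.hs]
  ring

theorem n1_integral (e : ExtG t n M) : IsIntegral (𝓞 CF.KK) e.s :=
  ⟨n1_pol t n, n1_pol_monic t n, n1_pol_root e⟩

theorem n1_minpoly (e : ExtG t n M) : minpoly (𝓞 CF.KK) e.s = n1_pol t n := by
  have hint := n1_integral e
  have hdvd : minpoly (𝓞 CF.KK) e.s ∣ n1_pol t n := minpoly.isIntegrallyClosed_dvd hint (n1_pol_root e)
  have h2 : 2 ≤ (minpoly (𝓞 CF.KK) e.s).natDegree := by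
    rw [minpoly.two_le_natDegree_iff hint]
    rintro ⟨a, ha⟩
    have h3 : algebraMap (𝓞 CF.KK) (𝓞 M) a + algebraMap (𝓞 CF.KK) (𝓞 M) 0 * e.s =
        algebraMap (𝓞 CF.KK) (𝓞 M) 0 + algebraMap (𝓞 CF.KK) (𝓞 M) 1 * e.s := by
      rw [ha, map_zero, map_one]
      ring
    have h4 := (n1_uniq e h3).2
    exact zero_ne_one h4
  exact (Polynomial.eq_of_monic_of_dvd_of_natDegree_le (minpoly.monic hint) (n1_pol_monic t n) hdvd
    (by rw [n1_pol_deg]; exact h2)).symm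

theorem n1_adjoin (e : ExtG t n M) : Algebra.adjoin (𝓞 CF.KK) {e.s} = ⊤ := by
  rw [eq_top_iff]
  intro x _
  obtain ⟨a, b, rfl⟩ := e.repr x
  exact add_mem (algebraMap_mem _ a) (mul_mem (algebraMap_mem _ b)
    (Algebra.subset_adjoin rfl))

theorem n1_gen (e : ExtG t n M) (x : M) :
    ∃ a b : CF.KK, x = algebraMap CF.KK M a + algebraMap CF.KK M b * (e.s : M) := by
  obtain ⟨m, hm, hx⟩ := ((IsFractionRing.isAlgebraic_iff ℤ ℚ M).2
    (Algebra.IsAlgebraic.isAlgebraic x)).exists_integral_multiple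
  obtain ⟨a, b, hab⟩ := e.repr ⟨m • x, hx⟩
  have h1 : (m : M) * x = algebraMap CF.KK M (a : CF.KK) + algebraMap CF.KK M (b : CF.KK) * (e.s : M) := by
    have h2 := congrArg (fun y : 𝓞 M => (y : M)) hab
    have h3 : (m : M) * x = m • x := by rw [zsmul_eq_mul]
    rw [h3]
    exact h2
  have hm0 : (m : M) ≠ 0 := by exact_mod_cast hm
  refine ⟨(a : CF.KK) / m, (b : CF.KK) / m, ?_⟩
  rw [map_div₀, map_div₀, map_intCast]
  field_simp
  linear_combination h1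

theorem n1_unique (e : ExtG t n M) {a b : CF.KK}
    (h : algebraMap CF.KK M a + algebraMap CF.KK M b * (e.s : M) = 0) : a = 0 ∧ b = 0 := by
  obtain ⟨y, hy, hya, hyb⟩ : ∃ y : ℤ, y ≠ 0 ∧ IsIntegral ℤ (y • a) ∧ IsIntegral ℤ (y • b) := by
    obtain ⟨m, hm, hx⟩ := ((IsFractionRing.isAlgebraic_iff ℤ ℚ CF.KK).2
      (Algebra.IsAlgebraic.isAlgebraic a)).exists_integral_multiple
    obtain ⟨n, hn, hy⟩ := ((IsFractionRing.isAlgebraic_iff ℤ ℚ CF.KK).2
      (Algebra.IsAlgebraic.isAlgebraic b)).exists_integral_multiple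
    refine ⟨m * n, mul_ne_zero hm hn, ?_, ?_⟩
    · rw [mul_comm, mul_smul]
      exact hx.smul n
    · rw [mul_smul]
      exact hy.smul m
  have h1 : algebraMap (𝓞 CF.KK) (𝓞 M) ⟨y • a, hya⟩ + algebraMap (𝓞 CF.KK) (𝓞 M) ⟨y • b, hyb⟩ * e.s = 0 := by
    apply RingOfIntegers.ext
    change algebraMap CF.KK M (y • a) + algebraMap CF.KK M (y • b) * (e.s : M) = 0
    rw [zsmul_eq_mul, zsmul_eq_mul, map_mul, map_mul, map_intCast]
    linear_combination (y : M) * h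
  obtain ⟨h2, h3⟩ := e.uniq _ _ h1
  have h4 : y • a = 0 := congrArg (fun z : 𝓞 CF.KK => (z : CF.KK)) h2
  have h5 : y • b = 0 := congrArg (fun z : 𝓞 CF.KK => (z : CF.KK)) h3
  exact ⟨(smul_eq_zero.1 h4).resolve_left hy, (smul_eq_zero.1 h5).resolve_left hy⟩

theorem n1_finrank (e : ExtG t n M) : Module.finrank CF.KK M = 2 := by
  let f : (CF.KK × CF.KK) →ₗ[CF.KK] M :=
    (LinearMap.fst CF.KK CF.KK CF.KK).smulRight (1 : M) + (LinearMap.snd CF.KK CF.KK CF.KK).smulRight (e.s : M)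
  have hf : ∀ a b : CF.KK, f (a, b) = algebraMap CF.KK M a + algebraMap CF.KK M b * (e.s : M) := by
    intro a b
    simp [f, Algebra.smul_def]
  have hbij : Function.Bijective f := by
    constructor
    · rw [← LinearMap.ker_eq_bot, LinearMap.ker_eq_bot']
      rintro ⟨a, b⟩ h
      rw [hf] at h
      obtain ⟨h1, h2⟩ := n1_unique e h
      rw [h1, h2]
      rfl
    · intro x
      obtain ⟨a, b, h⟩ := n1_gen e x
      exact ⟨(a, b), by rw [hf, h]⟩
  have e' := LinearEquiv.finrank_eq (LinearEquiv.ofBijective f hbij)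
  rw [← e', Module.finrank_prod, Module.finrank_self]

theorem n1_different (e : ExtG t n M) : differentIdeal (𝓞 CF.KK) (𝓞 M) =
    Ideal.span {2 * e.s - algebraMap (𝓞 CF.KK) (𝓞 M) (eE t)} := by
  have hL : Algebra.adjoin CF.KK {algebraMap (𝓞 M) M e.s} = ⊤ := by
    rw [eq_top_iff]
    intro x _
    obtain ⟨a, b, hx⟩ := n1_gen e x
    rw [hx]
    exact add_mem (algebraMap_mem _ _) (mul_mem (algebraMap_mem _ _)
      (Algebra.subset_adjoin rfl))
  have h := conductor_mul_differentIdeal (𝓞 CF.KK) CF.KK M e.s hL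
  rw [conductor_eq_top_of_adjoin_eq_top (n1_adjoin e), ← Ideal.one_eq_top, one_mul,
    n1_minpoly e] at h
  rw [h]
  congr 2
  have hd : Polynomial.derivative (n1_pol t n) = Polynomial.C 2 * Polynomial.X - Polynomial.C (eE t) := by
    unfold n1_pol
    simp only [Polynomial.derivative_add, Polynomial.derivative_sub, Polynomial.derivative_X_pow,
      Polynomial.derivative_C, Polynomial.derivative_C_mul, Polynomial.derivative_X, add_zero, mul_one,
      Nat.add_one_sub_one, pow_one, Nat.cast_ofNat]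
  rw [hd, map_sub, map_mul, Polynomial.aeval_X, Polynomial.aeval_C, Polynomial.aeval_C, map_ofNat]

theorem n1_discr (e : ExtG t n M) : (((discr M).natAbs : ℕ) : ℤ) = 9 * (t ^ 2 - 4 * n).norm := by
  have h1 := NumberField.natAbs_discr_eq_absNorm_differentIdeal_mul_natAbs_discr_pow CF.KK (𝓞 CF.KK) M (𝓞 M)
  rw [n1_different e, JL.n1_discr_KK, n1_finrank e] at h1
  have h2 : Ideal.absNorm (Ideal.span {2 * e.s - algebraMap (𝓞 CF.KK) (𝓞 M) (eE t)}) ^ 2 =
      ((t ^ 2 - 4 * n).norm.natAbs) ^ 2 := by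
    have h3 : Ideal.span {2 * e.s - algebraMap (𝓞 CF.KK) (𝓞 M) (eE t)} ^ 2 =
        (Ideal.span {eE (t ^ 2 - 4 * n)}).map (algebraMap (𝓞 CF.KK) (𝓞 M)) := by
      rw [Ideal.span_singleton_pow, Ideal.map_span, Set.image_singleton]
      congr 2
      rw [map_sub, map_sub, map_mul, map_mul, map_pow, map_pow, map_ofNat, map_ofNat]
      linear_combination 4 * e.hs
    have h4 := Ideal.absNorm_algebraMap (R := 𝓞 CF.KK) (𝓞 M) (Ideal.span {eE (t ^ 2 - 4 * n)})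
    rw [← h3, map_pow, CUL.l6_absNorm] at h4
    have h5 : Module.finrank (𝓞 CF.KK) (𝓞 M) = 2 := by
      rw [← IsFractionRing.finrank_eq (𝓞 CF.KK) CF.KK (𝓞 M) M, n1_finrank e]
    rw [h5] at h4
    rw [h4]
  have h3 : Ideal.absNorm (Ideal.span {2 * e.s - algebraMap (𝓞 CF.KK) (𝓞 M) (eE t)}) =
      (t ^ 2 - 4 * n).norm.natAbs := Nat.pow_left_injective (n := 2) (by norm_num) h2
  rw [h3] at h1
  have h4 : 0 ≤ (t ^ 2 - 4 * n).norm := JL.n1_norm_nonneg _
  rw [h1]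
  push_cast
  rw [abs_of_nonneg h4]
  ring

end

theorem n1_finrank_KD (Q : QD D) : Module.finrank ℚ (KD D) = 4 := by
  obtain ⟨e⟩ := exists_ExtG Q
  have h1 := n1_finrank e
  have h2 := CF.d2_finrank (KD D) (JL.w_mem_KD D)
  change 2 * Module.finrank CF.KK (KD D) = Module.finrank ℚ (KD D) at h2
  rw [h1] at h2
  exact h2.symm

theorem n1_rank_KD (Q : QD D) : Units.rank (KD D) = 1 := by
  have h1 := IsTotallyComplex.finrank (K := KD D)
  rw [n1_finrank_KD Q] at h1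
  have h2 := InfinitePlace.card_eq_nrRealPlaces_add_nrComplexPlaces (KD D)
  rw [IsTotallyComplex.nrRealPlaces_eq_zero] at h2
  unfold Units.rank
  omega

end JGL
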