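import Pool.Agent.JGL.N1
import Pool.Agent.JL.N3

/-!
# [JGL-N2] decomposition of the primes of `ℤ[ω]` in `M = ℚ(ω, ρ)`, `ρ² - t ρ + n = 0`

Model JL/N3.lean. `(a + b ρ)(a' + b' ρ) = (a a' - n b b') + (a b' + b a' + t b b') ρ`, norm form `a² + t a b + n b²`.
-/

set_option autoImplicit false

open NumberField IsDedekindDomain Filter Topology
open scoped Classical ComplexConjugate

namespace JGL

open CM27 JZ
open CU (la eE)
open CUL (Nl ez si ta DS Cont LV IsRep rp cr mn mo zw OT GalU W3 W9)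
open JL (N1 KD sD Psi6)

variable {t n : Eis} {M : Type} [Field M] [NumberField M] [Algebra CF.KK M]

theorem n2_hs (e : ExtG t n M) : e.s * e.s =
    algebraMap (𝓞 CF.KK) (𝓞 M) (eE t) * e.s - algebraMap (𝓞 CF.KK) (𝓞 M) (eE n) := by
  rw [← sq, e.hs]

/-- first coordinate -/
noncomputable def n2a (e : ExtG t n M) (x : 𝓞 M) : 𝓞 CF.KK := (e.repr x).choose

/-- second coordinate -/
noncomputable def n2b (e : ExtG t n M) (x : 𝓞 M) : 𝓞 CF.KK := (e.repr x).choose_spec.choose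

theorem n2_eq (e : ExtG t n M) (x : 𝓞 M) :
    x = algebraMap (𝓞 CF.KK) (𝓞 M) (n2a e x) + algebraMap (𝓞 CF.KK) (𝓞 M) (n2b e x) * e.s :=
  (e.repr x).choose_spec.choose_spec

theorem n2_co (e : ExtG t n M) {x : 𝓞 M} {a b : 𝓞 CF.KK}
    (h : x = algebraMap (𝓞 CF.KK) (𝓞 M) a + algebraMap (𝓞 CF.KK) (𝓞 M) b * e.s) :
    n2a e x = a ∧ n2b e x = b := n1_uniq e ((n2_eq e x).symm.trans h)

theorem n2_add (e : ExtG t n M) (x y : 𝓞 M) : n2a e (x + y) = n2a e x + n2a e y ∧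
    n2b e (x + y) = n2b e x + n2b e y := by
  apply n2_co e
  conv_lhs => rw [n2_eq e x, n2_eq e y]
  simp only [map_add]
  ring

theorem n2_mul (e : ExtG t n M) (x y : 𝓞 M) :
    n2a e (x * y) = n2a e x * n2a e y - eE n * (n2b e x * n2b e y) ∧
    n2b e (x * y) = n2a e x * n2b e y + n2b e x * n2a e y + eE t * (n2b e x * n2b e y) := by
  apply n2_co e
  conv_lhs => rw [n2_eq e x, n2_eq e y]
  simp only [map_add, map_mul, map_sub]
  linear_combination (algebraMap (𝓞 CF.KK) (𝓞 M) (n2b e x) * algebraMap (𝓞 CF.KK) (𝓞 M) (n2b e y)) * n2_hs e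

theorem n2_alg (e : ExtG t n M) (a : 𝓞 CF.KK) : n2a e (algebraMap (𝓞 CF.KK) (𝓞 M) a) = a ∧
    n2b e (algebraMap (𝓞 CF.KK) (𝓞 M) a) = 0 := by
  apply n2_co e
  rw [map_zero, zero_mul, add_zero]

theorem n2_s (e : ExtG t n M) : n2a e e.s = 0 ∧ n2b e e.s = 1 := by
  apply n2_co e
  rw [map_zero, map_one, zero_add, one_mul]

/-- evaluation `a + b s ↦ a + b c` -/
noncomputable def n2_ev (e : ExtG t n M) {k : Type} [CommRing k] (g : 𝓞 CF.KK →+* k) (c : k)
    (hc : c ^ 2 = g (eE t) * c - g (eE n)) : 𝓞 M →+* k where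
  toFun x := g (n2a e x) + g (n2b e x) * c
  map_one' := by
    have h := n2_alg e 1
    rw [map_one] at h
    rw [h.1, h.2, map_one, map_zero, zero_mul, add_zero]
  map_zero' := by
    have h := n2_alg e 0
    rw [map_zero] at h
    rw [h.1, h.2, map_zero, zero_mul, add_zero]
  map_add' x y := by
    rw [(n2_add e x y).1, (n2_add e x y).2]
    simp only [map_add]
    ring
  map_mul' x y := by
    rw [(n2_mul e x y).1, (n2_mul e x y).2]
    simp only [map_add, map_mul, map_sub]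
    linear_combination (-(g (n2b e x) * g (n2b e y))) * hc

theorem n2_ev_alg (e : ExtG t n M) {k : Type} [CommRing k] (g : 𝓞 CF.KK →+* k) (c : k)
    (hc : c ^ 2 = g (eE t) * c - g (eE n)) (a : 𝓞 CF.KK) :
    n2_ev e g c hc (algebraMap (𝓞 CF.KK) (𝓞 M) a) = g a := by
  change g (n2a e (algebraMap (𝓞 CF.KK) (𝓞 M) a)) + g (n2b e (algebraMap (𝓞 CF.KK) (𝓞 M) a)) * c = _
  rw [(n2_alg e a).1, (n2_alg e a).2, map_zero, zero_mul, add_zero]

theorem n2_ev_s (e : ExtG t n M) {k : Type} [CommRing k] (g : 𝓞 CF.KK →+* k) (c : k)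
    (hc : c ^ 2 = g (eE t) * c - g (eE n)) : n2_ev e g c hc e.s = c := by
  change g (n2a e e.s) + g (n2b e e.s) * c = _
  rw [(n2_s e).1, (n2_s e).2, map_zero, map_one, zero_add, one_mul]

/-- the prime above `v` given by a root of `X² - t X + n` modulo `v` -/
theorem n2_root (e : ExtG t n M) (v : HeightOneSpectrum (𝓞 CF.KK)) (d : 𝓞 CF.KK)
    (hd : d ^ 2 - eE t * d + eE n ∈ v.asIdeal) : ∃ P : HeightOneSpectrum (𝓞 M),
      Ideal.absNorm P.asIdeal = Ideal.absNorm v.asIdeal ∧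
      P.asIdeal.comap (algebraMap (𝓞 CF.KK) (𝓞 M)) = v.asIdeal ∧
      e.s - algebraMap (𝓞 CF.KK) (𝓞 M) d ∈ P.asIdeal ∧
      ∀ R : HeightOneSpectrum (𝓞 M), R.asIdeal.comap (algebraMap (𝓞 CF.KK) (𝓞 M)) = v.asIdeal →
        e.s - algebraMap (𝓞 CF.KK) (𝓞 M) d ∈ R.asIdeal → R = P := by
  have hmax := v.isMaximal
  let _ : Field (𝓞 CF.KK ⧸ v.asIdeal) := Ideal.Quotient.field _
  have : Finite (𝓞 CF.KK ⧸ v.asIdeal) := Ideal.finiteQuotientOfFreeOfNeBot _ v.ne_bot
  have hcard : Nat.card (𝓞 CF.KK ⧸ v.asIdeal) = Ideal.absNorm v.asIdeal := by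
    rw [Ideal.absNorm_apply, Submodule.cardQuot_apply]
  have hq0 : Ideal.absNorm v.asIdeal ≠ 0 := by rw [← hcard]; exact Nat.card_pos.ne'
  set g := Ideal.Quotient.mk v.asIdeal with hg
  have hg0 : ∀ a, g a = 0 ↔ a ∈ v.asIdeal := fun a => Ideal.Quotient.eq_zero_iff_mem
  have hc : (g d) ^ 2 = g (eE t) * g d - g (eE n) := by
    rw [← hg0, map_add, map_sub, map_mul, map_pow] at hd
    linear_combination hd
  set φ := n2_ev e g (g d) hc with hφd
  have φal : ∀ a, φ (algebraMap (𝓞 CF.KK) (𝓞 M) a) = g a := n2_ev_alg e g _ hc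
  have φs : φ e.s = g d := n2_ev_s e g _ hc
  have hφ : Function.Surjective φ := by
    intro y
    obtain ⟨a, rfl⟩ := Ideal.Quotient.mk_surjective y
    exact ⟨algebraMap (𝓞 CF.KK) (𝓞 M) a, φal a⟩
  have nP : Ideal.absNorm (RingHom.ker φ) = Ideal.absNorm v.asIdeal := by
    rw [← hcard, Ideal.absNorm_apply, Submodule.cardQuot_apply,
      Nat.card_congr (RingHom.quotientKerEquivOfSurjective hφ).toEquiv]
  refine ⟨⟨RingHom.ker φ, RingHom.ker_isPrime φ, JL.n3_ne_bot (by rw [nP]; exact hq0)⟩, nP, ?_, ?_, ?_⟩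
  · ext a
    change φ (algebraMap (𝓞 CF.KK) (𝓞 M) a) = 0 ↔ _
    rw [φal, hg0]
  · change φ (e.s - algebraMap (𝓞 CF.KK) (𝓞 M) d) = 0
    rw [map_sub, φal, φs, sub_self]
  · intro R hR hsR
    apply JL.n3_max_eq
    intro x hx
    have hx' : g (n2a e x) + g (n2b e x) * g d = 0 := hx
    have h3 : n2a e x + n2b e x * d ∈ v.asIdeal := by
      rw [← hg0, map_add, map_mul]
      exact hx'
    have h4 : algebraMap (𝓞 CF.KK) (𝓞 M) (n2a e x + n2b e x * d) ∈ R.asIdeal := by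
      rw [← hR] at h3
      exact h3
    have e1 : x = algebraMap (𝓞 CF.KK) (𝓞 M) (n2a e x + n2b e x * d) +
        algebraMap (𝓞 CF.KK) (𝓞 M) (n2b e x) * (e.s - algebraMap (𝓞 CF.KK) (𝓞 M) d) := by
      conv_lhs => rw [n2_eq e x]
      simp only [map_add, map_mul]
      ring
    rw [e1]
    exact add_mem h4 (Ideal.mul_mem_left _ _ hsR)

theorem n2_ram (e : ExtG t n M) {p : Eis} (hp : Prime p) (hD : p ∣ t ^ 2 - 4 * n) (v : HeightOneSpectrum (𝓞 CF.KK))
    (hv : eE p ∈ v.asIdeal) : ∃ P : HeightOneSpectrum (𝓞 M),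
      (∀ R : HeightOneSpectrum (𝓞 M), R.asIdeal.comap (algebraMap (𝓞 CF.KK) (𝓞 M)) = v.asIdeal ↔ R = P) ∧
      Ideal.absNorm P.asIdeal = Ideal.absNorm v.asIdeal := by
  have hmax := v.isMaximal
  -- a double root modulo `v`
  obtain ⟨d, hd, hd2⟩ : ∃ d : 𝓞 CF.KK, d ^ 2 - eE t * d + eE n ∈ v.asIdeal ∧ eE t - 2 * d ∈ v.asIdeal := by
    let _ : Field (𝓞 CF.KK ⧸ v.asIdeal) := Ideal.Quotient.field _
    have : Finite (𝓞 CF.KK ⧸ v.asIdeal) := Ideal.finiteQuotientOfFreeOfNeBot _ v.ne_bot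
    have hD' : eE (t ^ 2 - 4 * n) ∈ v.asIdeal := (JL.n3_mem hp v hv _).2 hD
    have hg0 : ∀ a, Ideal.Quotient.mk v.asIdeal a = 0 ↔ a ∈ v.asIdeal := fun a => Ideal.Quotient.eq_zero_iff_mem
    rw [← hg0, map_sub, map_mul, map_pow, map_ofNat, map_sub, map_mul, map_pow, map_ofNat] at hD'
    by_cases h2 : (2 : 𝓞 CF.KK ⧸ v.asIdeal) = 0
    · have h5 : CharP (𝓞 CF.KK ⧸ v.asIdeal) 2 := CharTwo.of_one_ne_zero_of_two_eq_zero one_ne_zero h2
      obtain ⟨c, hc⟩ := FiniteField.isSquare_of_char_two (ringChar.eq _ 2) (Ideal.Quotient.mk v.asIdeal (eE n))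
      obtain ⟨d, rfl⟩ := Ideal.Quotient.mk_surjective c
      have ht : Ideal.Quotient.mk v.asIdeal (eE t) = 0 := by
        have h6 : (Ideal.Quotient.mk v.asIdeal (eE t)) ^ 2 = 0 := by
          linear_combination hD' + 2 * Ideal.Quotient.mk v.asIdeal (eE n) * h2
        exact pow_eq_zero_iff two_ne_zero |>.1 h6
      refine ⟨d, ?_, ?_⟩
      · rw [← hg0, map_add, map_sub, map_mul, map_pow, ht, hc]
        linear_combination (Ideal.Quotient.mk v.asIdeal d) ^ 2 * h2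
      · rw [← hg0, map_sub, map_mul, map_ofNat, ht, h2]
        ring
    · obtain ⟨d, hd⟩ := Ideal.Quotient.mk_surjective (Ideal.Quotient.mk v.asIdeal (eE t) / 2)
      have h3 : 2 * Ideal.Quotient.mk v.asIdeal d = Ideal.Quotient.mk v.asIdeal (eE t) := by
        rw [hd, mul_div_cancel₀ _ h2]
      refine ⟨d, ?_, ?_⟩
      · rw [← hg0, map_add, map_sub, map_mul, map_pow]
        have h4 : (2 : 𝓞 CF.KK ⧸ v.asIdeal) ^ 2 ≠ 0 := pow_ne_zero 2 h2
        apply mul_left_cancel₀ h4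
        linear_combination (2 * Ideal.Quotient.mk v.asIdeal d - Ideal.Quotient.mk v.asIdeal (eE t)) * h3 - hD'
      · rw [← hg0, map_sub, map_mul, map_ofNat, h3, sub_self]
  obtain ⟨P, h1, h2, h3, h4⟩ := n2_root e v d hd
  refine ⟨P, fun R => ⟨fun hR => h4 R hR ?_, fun hR => by rw [hR]; exact h2⟩, h1⟩
  have hRm : ∀ a, a ∈ v.asIdeal → algebraMap (𝓞 CF.KK) (𝓞 M) a ∈ R.asIdeal := by
    intro a ha
    rw [← hR] at ha
    exact ha
  refine R.isPrime.mem_of_pow_mem 2 ?_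
  have e1 : (e.s - algebraMap (𝓞 CF.KK) (𝓞 M) d) ^ 2 =
      - algebraMap (𝓞 CF.KK) (𝓞 M) (d ^ 2 - eE t * d + eE n) +
        algebraMap (𝓞 CF.KK) (𝓞 M) (eE t - 2 * d) * e.s + algebraMap (𝓞 CF.KK) (𝓞 M) (2 * d - eE t) *
          algebraMap (𝓞 CF.KK) (𝓞 M) d := by
    simp only [map_add, map_sub, map_mul, map_pow, map_ofNat]
    linear_combination n2_hs e
  have hd3 : 2 * d - eE t ∈ v.asIdeal := by
    rw [← neg_sub]
    exact neg_mem hd2
  rw [e1]
  exact add_mem (add_mem (neg_mem (hRm _ hd)) (Ideal.mul_mem_right _ _ (hRm _ hd2)))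
    (Ideal.mul_mem_right _ _ (hRm _ hd3))

theorem n2_split (e : ExtG t n M) {p : Eis} (hp : Prime p) (hD : ¬ p ∣ t ^ 2 - 4 * n)
    (hs : ∃ y : Eis, p ∣ y ^ 2 - t * y + n)
    (v : HeightOneSpectrum (𝓞 CF.KK)) (hv : eE p ∈ v.asIdeal) : ∃ P Q : HeightOneSpectrum (𝓞 M), P ≠ Q ∧
      (∀ R : HeightOneSpectrum (𝓞 M), R.asIdeal.comap (algebraMap (𝓞 CF.KK) (𝓞 M)) = v.asIdeal ↔ R = P ∨ R = Q) ∧
      Ideal.absNorm P.asIdeal = Ideal.absNorm v.asIdeal ∧ Ideal.absNorm Q.asIdeal = Ideal.absNorm v.asIdeal := by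
  obtain ⟨y, hy⟩ := hs
  have hd : (eE y) ^ 2 - eE t * eE y + eE n ∈ v.asIdeal := by
    have := (JL.n3_mem hp v hv (y ^ 2 - t * y + n)).2 hy
    rwa [map_add, map_sub, map_mul, map_pow] at this
  have hd' : (eE t - eE y) ^ 2 - eE t * (eE t - eE y) + eE n ∈ v.asIdeal := by
    have e1 : (eE t - eE y) ^ 2 - eE t * (eE t - eE y) + eE n = (eE y) ^ 2 - eE t * eE y + eE n := by ring
    rw [e1]
    exact hd
  obtain ⟨P, h1, h2, h3, h4⟩ := n2_root e v (eE y) hd
  obtain ⟨Q, h1', h2', h3', h4'⟩ := n2_root e v (eE t - eE y) hd'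
  have hPQ : P ≠ Q := by
    intro hPQ
    rw [← hPQ] at h3'
    have h5 : algebraMap (𝓞 CF.KK) (𝓞 M) (2 * eE y - eE t) ∈ P.asIdeal := by
      have h6 := sub_mem h3' h3
      have e1 : e.s - algebraMap (𝓞 CF.KK) (𝓞 M) (eE t - eE y) - (e.s - algebraMap (𝓞 CF.KK) (𝓞 M) (eE y)) =
          algebraMap (𝓞 CF.KK) (𝓞 M) (2 * eE y - eE t) := by
        simp only [map_sub, map_mul, map_ofNat]
        ring
      rwa [e1] at h6
    have h6 : 2 * eE y - eE t ∈ v.asIdeal := by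
      rw [← h2]
      exact h5
    have h7 : eE (2 * y - t) ∈ v.asIdeal := by
      rwa [map_sub, map_mul, map_ofNat]
    have h8 := (JL.n3_mem hp v hv _).1 h7
    apply hD
    have h9 : p ∣ (2 * y - t) * (2 * y - t) - 4 * (y ^ 2 - t * y + n) := dvd_sub (h8.mul_left _) (hy.mul_left _)
    have e1 : (2 * y - t) * (2 * y - t) - 4 * (y ^ 2 - t * y + n) = t ^ 2 - 4 * n := by ring
    rwa [e1] at h9
  refine ⟨P, Q, hPQ, fun R => ⟨fun hR => ?_, ?_⟩, h1, h1'⟩
  · have h5 : (e.s - algebraMap (𝓞 CF.KK) (𝓞 M) (eE y)) * (e.s - algebraMap (𝓞 CF.KK) (𝓞 M) (eE t - eE y)) ∈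
        R.asIdeal := by
      have e1 : (e.s - algebraMap (𝓞 CF.KK) (𝓞 M) (eE y)) * (e.s - algebraMap (𝓞 CF.KK) (𝓞 M) (eE t - eE y)) =
          - algebraMap (𝓞 CF.KK) (𝓞 M) ((eE y) ^ 2 - eE t * eE y + eE n) := by
        simp only [map_add, map_sub, map_mul, map_pow]
        linear_combination n2_hs e
      rw [e1]
      refine neg_mem ?_
      rw [← hR] at hd
      exact hd
    rcases R.isPrime.mem_or_mem h5 with h6 | h6
    · exact Or.inl (h4 R hR h6)
    · exact Or.inr (h4' R hR h6)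
  · rintro (rfl | rfl)
    · exact h2
    · exact h2'

theorem n2_inert (e : ExtG t n M) {p : Eis} (hp : Prime p) (hs : ¬ ∃ y : Eis, p ∣ y ^ 2 - t * y + n)
    (v : HeightOneSpectrum (𝓞 CF.KK)) (hv : eE p ∈ v.asIdeal) : ∃ P : HeightOneSpectrum (𝓞 M),
      (∀ R : HeightOneSpectrum (𝓞 M), R.asIdeal.comap (algebraMap (𝓞 CF.KK) (𝓞 M)) = v.asIdeal ↔ R = P) ∧
      Ideal.absNorm P.asIdeal = Ideal.absNorm v.asIdeal ^ 2 := by
  have hmax := v.isMaximal
  let _ : Field (𝓞 CF.KK ⧸ v.asIdeal) := Ideal.Quotient.field _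
  have : Finite (𝓞 CF.KK ⧸ v.asIdeal) := Ideal.finiteQuotientOfFreeOfNeBot _ v.ne_bot
  have hcard : Nat.card (𝓞 CF.KK ⧸ v.asIdeal) = Ideal.absNorm v.asIdeal := by
    rw [Ideal.absNorm_apply, Submodule.cardQuot_apply]
  have hq0 : Ideal.absNorm v.asIdeal ≠ 0 := by rw [← hcard]; exact Nat.card_pos.ne'
  set g := Ideal.Quotient.mk v.asIdeal with hg
  have hg0 : ∀ a, g a = 0 ↔ a ∈ v.asIdeal := fun a => Ideal.Quotient.eq_zero_iff_mem
  have hno : ∀ c : 𝓞 CF.KK ⧸ v.asIdeal, c ^ 2 - g (eE t) * c + g (eE n) ≠ 0 := by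
    intro c hc
    obtain ⟨d, rfl⟩ := Ideal.Quotient.mk_surjective c
    apply hs
    refine ⟨eE.symm d, ?_⟩
    rw [← JL.n3_mem hp v hv, map_add, map_sub, map_mul, map_pow, eE.apply_symm_apply, ← hg0, map_add, map_sub,
      map_mul, map_pow]
    exact hc
  set I := v.asIdeal.map (algebraMap (𝓞 CF.KK) (𝓞 M)) with hI
  have hmem : ∀ x : 𝓞 M, x ∈ I ↔ n2a e x ∈ v.asIdeal ∧ n2b e x ∈ v.asIdeal := by
    intro x
    constructor
    · let J : Ideal (𝓞 M) :=
        { carrier := {x | n2a e x ∈ v.asIdeal ∧ n2b e x ∈ v.asIdeal}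
          add_mem' := by
            rintro x y ⟨h1, h2⟩ ⟨h3, h4⟩
            change _ ∧ _
            rw [(n2_add e x y).1, (n2_add e x y).2]
            exact ⟨add_mem h1 h3, add_mem h2 h4⟩
          zero_mem' := by
            have h := n2_alg e 0
            rw [map_zero] at h
            change _ ∧ _
            rw [h.1, h.2]
            exact ⟨zero_mem _, zero_mem _⟩
          smul_mem' := by
            rintro y x ⟨h1, h2⟩
            change _ ∧ _
            rw [smul_eq_mul, (n2_mul e y x).1, (n2_mul e y x).2]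
            exact ⟨sub_mem (Ideal.mul_mem_left _ _ h1)
              (Ideal.mul_mem_left _ _ (Ideal.mul_mem_left _ _ h2)),
              add_mem (add_mem (Ideal.mul_mem_left _ _ h2) (Ideal.mul_mem_left _ _ h1))
                (Ideal.mul_mem_left _ _ (Ideal.mul_mem_left _ _ h2))⟩ }
      have hJ : I ≤ J := by
        rw [hI, Ideal.map_le_iff_le_comap]
        intro a ha
        change _ ∧ _
        rw [(n2_alg e a).1, (n2_alg e a).2]
        exact ⟨ha, zero_mem _⟩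
      exact fun hx => hJ hx
    · rintro ⟨h1, h2⟩
      rw [n2_eq e x]
      exact add_mem (Ideal.mem_map_of_mem _ h1) (Ideal.mul_mem_right _ _ (Ideal.mem_map_of_mem _ h2))
  have key : ∀ a b : 𝓞 CF.KK, a ^ 2 + eE t * (a * b) + eE n * b ^ 2 ∈ v.asIdeal → a ∈ v.asIdeal ∧ b ∈ v.asIdeal := by
    intro a b hab
    rw [← hg0] at hab
    simp only [map_add, map_mul, map_pow] at hab
    have hb : g b = 0 := by
      by_contra hb
      apply hno (-(g a / g b))
      field_simp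
      linear_combination hab
    rw [hb] at hab
    have ha : g a = 0 := by
      have : (g a) ^ 2 = 0 := by linear_combination hab
      exact pow_eq_zero_iff two_ne_zero |>.1 this
    exact ⟨(hg0 a).1 ha, (hg0 b).1 hb⟩
  have hprime : I.IsPrime := by
    refine ⟨?_, ?_⟩
    · intro htop
      have h1 : (1 : 𝓞 M) ∈ I := by rw [htop]; exact Submodule.mem_top
      have h2 := (hmem 1).1 h1
      have h3 := n2_alg e 1
      rw [map_one] at h3
      rw [h3.1] at h2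
      exact v.isPrime.ne_top ((Ideal.eq_top_iff_one _).2 h2.1)
    · intro x y hxy
      have h1 := (hmem _).1 hxy
      rw [(n2_mul e x y).1, (n2_mul e x y).2] at h1
      set a := n2a e x
      set b := n2b e x
      set a' := n2a e y
      set b' := n2b e y
      have h2 : (a ^ 2 + eE t * (a * b) + eE n * b ^ 2) * (a' ^ 2 + eE t * (a' * b') + eE n * b' ^ 2) ∈
          v.asIdeal := by
        have e1 : (a ^ 2 + eE t * (a * b) + eE n * b ^ 2) * (a' ^ 2 + eE t * (a' * b') + eE n * b' ^ 2) =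
            (a * a' - eE n * (b * b')) * (a * a' - eE n * (b * b')) +
            (a * b' + b * a' + eE t * (b * b')) * (eE t * (a * a' - eE n * (b * b')) +
              eE n * (a * b' + b * a' + eE t * (b * b'))) := by ring
        rw [e1]
        exact add_mem (Ideal.mul_mem_right _ _ h1.1) (Ideal.mul_mem_right _ _ h1.2)
      rcases v.isPrime.mem_or_mem h2 with h3 | h3
      · exact Or.inl ((hmem x).2 (key a b h3))
      · exact Or.inr ((hmem y).2 (key a' b' h3))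
  have hnorm : Ideal.absNorm I = Ideal.absNorm v.asIdeal ^ 2 := by
    rw [hI, Ideal.absNorm_algebraMap, ← IsFractionRing.finrank_eq (𝓞 CF.KK) CF.KK (𝓞 M) M,
      n1_finrank e]
  refine ⟨⟨I, hprime, JL.n3_ne_bot (by rw [hnorm]; exact pow_ne_zero _ hq0)⟩, ?_, hnorm⟩
  intro R
  constructor
  · intro hR
    apply JL.n3_max_eq
    change I ≤ R.asIdeal
    rw [hI, Ideal.map_le_iff_le_comap, hR]
  · rintro rfl
    ext a
    change algebraMap (𝓞 CF.KK) (𝓞 M) a ∈ I ↔ _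
    rw [hmem, (n2_alg e a).1, (n2_alg e a).2]
    exact ⟨fun h => h.1, fun h => ⟨h, zero_mem _⟩⟩

end JGL
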