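import Pool.Agent.JGL.N2
import Pool.Agent.JL.N3b
import Pool.Agent.JL.N4
import Pool.Agent.JL.N6

/-!
# [JGL-N3] the zeta function of `ℚ(ω, √D₁)`

Model JL/N3b.lean, with the ideal character `qi`.
-/

set_option autoImplicit false

open NumberField IsDedekindDomain Filter Topology
open scoped Classical ComplexConjugate

namespace JGL

open CM27 JZ
open CU (la eE)
open CUL (Nl ez si ta DS Cont LV IsRep rp cr mn mo zw OT GalU W3 W9)
open JL (N1 KD sD Psi6)

/-! ## the symbol `(x / λ)` -/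

theorem n3_sl_one {x : Eis} (h : la ∣ x - 1) : sl x = 1 := if_pos h

theorem n3_la_two : ¬ la ∣ (2 : Eis) := by
  intro h
  rw [CU.la_dvd_iff] at h
  revert h
  decide

theorem n3_sl_neg {x : Eis} (h : la ∣ x + 1) : sl x = -1 := by
  have h1 : ¬ la ∣ x - 1 := by
    intro h1
    apply n3_la_two
    have := dvd_sub h h1
    have e : x + 1 - (x - 1) = 2 := by ring
    rwa [e] at this
  rw [sl, if_neg h1, if_pos h]

theorem n3_sl_zero {x : Eis} (h : la ∣ x) : sl x = 0 := by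
  have hu : ¬ la ∣ (1 : Eis) := JL.n6_one
  have h1 : ¬ la ∣ x - 1 := by
    intro h1
    apply hu
    have := dvd_sub h h1
    have e : x - (x - 1) = 1 := by ring
    rwa [e] at this
  have h2 : ¬ la ∣ x + 1 := by
    intro h1
    apply hu
    have := dvd_sub h1 h
    have e : x + 1 - x = 1 := by ring
    rwa [e] at this
  rw [sl, if_neg h1, if_neg h2]

theorem n3_sl_mul (x y : Eis) : sl (x * y) = sl x * sl y := by
  rcases JL.n6_res x with hx | hx | hx
  · rw [n3_sl_zero hx, n3_sl_zero (hx.mul_right y), zero_mul]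
  · rcases JL.n6_res y with hy | hy | hy
    · rw [n3_sl_zero hy, n3_sl_zero (hy.mul_left x), mul_zero]
    · rw [n3_sl_one hx, n3_sl_one hy, n3_sl_one, one_mul]
      have e : x * y - 1 = (x - 1) * y + (y - 1) := by ring
      rw [e]
      exact dvd_add (hx.mul_right y) hy
    · rw [n3_sl_one hx, n3_sl_neg hy, n3_sl_neg, one_mul]
      have e : x * y + 1 = (x - 1) * y + (y + 1) := by ring
      rw [e]
      exact dvd_add (hx.mul_right y) hy
  · rcases JL.n6_res y with hy | hy | hy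
    · rw [n3_sl_zero hy, n3_sl_zero (hy.mul_left x), mul_zero]
    · rw [n3_sl_neg hx, n3_sl_one hy, n3_sl_neg, mul_one]
      have e : x * y + 1 = (x + 1) * y - (y - 1) := by ring
      rw [e]
      exact dvd_sub (hx.mul_right y) hy
    · rw [n3_sl_neg hx, n3_sl_neg hy, n3_sl_one]
      · norm_num
      · have e : x * y - 1 = (x + 1) * y - (y + 1) := by ring
        rw [e]
        exact dvd_sub (hx.mul_right y) hy

/-! ## the ideal character -/

theorem n3_q_zero (L : Lev) : L.q 0 = 0 := by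
  apply L.q_zero
  intro h
  exact L.hfu (isCoprime_zero_left.1 h)

theorem n3_qi_mul (L : Lev) (x y : Eis) : L.qi (x * y) = L.qi x * L.qi y := by
  unfold Lev.qi
  by_cases h : L.ep = 0
  · rw [if_pos h, if_pos h, if_pos h, L.q_mul]
  · rw [if_neg h, if_neg h, if_neg h, L.q_mul, n3_sl_mul]
    ring

theorem n3_qi_zero (L : Lev) : L.qi 0 = 0 := by
  unfold Lev.qi
  rw [n3_q_zero, mul_zero, ite_self]

theorem n3_qi_one (L : Lev) : L.qi 1 = 1 := by
  unfold Lev.qi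
  rw [q_one, mul_one]
  by_cases h : L.ep = 0
  · rw [if_pos h]
  · rw [if_neg h, n3_sl_one]
    rw [sub_self]
    exact dvd_zero _

theorem n3_qi_neg (L : Lev) : L.qi (-1) = 1 := by
  unfold Lev.qi
  rcases L.hep with h | h
  · rw [if_pos h, L.q_neg, h, pow_zero]
  · rw [if_neg (by rw [h]; exact one_ne_zero), L.q_neg, h, pow_one, n3_sl_neg]
    · norm_num
    · rw [neg_add_cancel]
      exact dvd_zero _

theorem n3_qi_om (L : Lev) : L.qi CU.om = 1 := by
  unfold Lev.qi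
  rw [L.q_om, mul_one]
  by_cases h : L.ep = 0
  · rw [if_pos h]
  · rw [if_neg h, n3_sl_one]
    rw [CU.la_dvd_iff]
    decide

theorem n3_qi_unit (L : Lev) {ζ : Eis} (hζ : IsUnit ζ) : L.qi ζ = 1 := by
  have h1 := n3_qi_om L
  have h2 := n3_qi_neg L
  have h3 : ∀ x, L.qi (-x) = L.qi x := by
    intro x
    rw [← neg_one_mul, n3_qi_mul, h2, one_mul]
  rcases CUL.unit_cases hζ with rfl | rfl | rfl | rfl | rfl | rfl
  · exact n3_qi_one L
  · exact h2
  · exact h1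
  · rw [h3, h1]
  · rw [sq, n3_qi_mul, h1, one_mul]
  · rw [h3, sq, n3_qi_mul, h1, one_mul]

theorem n3_q_cases (L : Lev) (x : Eis) : L.q x = 0 ∨ L.q x = 1 ∨ L.q x = -1 := by
  by_cases h : IsCoprime x L.f
  · exact Or.inr (L.q_pm x h)
  · exact Or.inl (L.q_zero x h)

theorem n3_sl_cases (x : Eis) : sl x = 0 ∨ sl x = 1 ∨ sl x = -1 := by
  rcases JL.n6_res x with h | h | h
  · exact Or.inl (n3_sl_zero h)
  · exact Or.inr (Or.inl (n3_sl_one h))
  · exact Or.inr (Or.inr (n3_sl_neg h))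

theorem n3_qi_cases (L : Lev) (x : Eis) : L.qi x = 0 ∨ L.qi x = 1 ∨ L.qi x = -1 := by
  unfold Lev.qi
  by_cases h : L.ep = 0
  · rw [if_pos h]; exact n3_q_cases L x
  · rw [if_neg h]
    rcases n3_q_cases L x with h1 | h1 | h1 <;> rcases n3_sl_cases x with h2 | h2 | h2 <;>
      rw [h1, h2] <;> norm_num

/-- the quadratic symbol on ideals: `qi` of a generator -/
noncomputable def qI (L : Lev) (I : Ideal (𝓞 CF.KK)) : ℂ :=
  if h : ∃ b : Eis, I = Ideal.span {eE b} then (L.qi h.choose : ℂ) else 0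

theorem qI_span (L : Lev) (b : Eis) : qI L (Ideal.span {eE b}) = (L.qi b : ℂ) := by
  have h : ∃ b' : Eis, (Ideal.span {eE b} : Ideal (𝓞 CF.KK)) = Ideal.span {eE b'} := ⟨b, rfl⟩
  have h1 : Associated (eE b) (eE h.choose) := Ideal.span_singleton_eq_span_singleton.1 h.choose_spec
  obtain ⟨u, hu⟩ := h1
  have h2 : h.choose = b * eE.symm (u : 𝓞 CF.KK) := by
    apply eE.injective
    rw [map_mul, eE.apply_symm_apply, hu]
  have h3 : IsUnit (eE.symm (u : 𝓞 CF.KK)) := u.isUnit.map eE.symm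
  unfold qI
  rw [dif_pos h, h2, n3_qi_mul, n3_qi_unit L h3, mul_one]

theorem qI_mul (L : Lev) (I J : Ideal (𝓞 CF.KK)) : qI L (I * J) = qI L I * qI L J := by
  obtain ⟨a, rfl⟩ := JL.n3b_gen I
  obtain ⟨b, rfl⟩ := JL.n3b_gen J
  rw [Ideal.span_singleton_mul_span_singleton, ← map_mul, qI_span, qI_span, qI_span, n3_qi_mul]
  push_cast
  ring

theorem qI_bot (L : Lev) : qI L ⊥ = 0 := by
  have h1 : (⊥ : Ideal (𝓞 CF.KK)) = Ideal.span {eE 0} := by
    rw [map_zero, Ideal.span_singleton_eq_bot.2 rfl]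
  rw [h1, qI_span, n3_qi_zero, Int.cast_zero]

theorem qI_one (L : Lev) : qI L 1 = 1 := by
  have h1 : (1 : Ideal (𝓞 CF.KK)) = Ideal.span {eE 1} := by
    rw [map_one, Ideal.span_singleton_one, Ideal.one_eq_top]
  rw [h1, qI_span, n3_qi_one, Int.cast_one]

/-- `qI` as a multiplicative map -/
noncomputable def qIhom (L : Lev) : Ideal (𝓞 CF.KK) →*₀ ℂ where
  toFun := qI L
  map_zero' := qI_bot L
  map_one' := qI_one L
  map_mul' := qI_mul L

variable {D : Eis} {M : Type} [Field M] [NumberField M] [Algebra CF.KK M]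

/-- `qi p` for the ramified primes -/
theorem n3_ram (Q : QD D) {p : Eis} (hp : Prime p) (h : p ∣ Q.t ^ 2 - 4 * Q.n) : Q.L.qi p = 0 := by
  have hdom : IsDomain Eis := eis_isDomain
  unfold Lev.qi
  rcases (Q.ram p hp).1 h with h1 | ⟨h1, h2⟩
  · have h3 : Q.L.q p = 0 := by
      apply Q.L.q_zero
      intro h4
      exact hp.not_isUnit (h4.isUnit_of_dvd' dvd_rfl h1)
    rw [h3, mul_zero, ite_self]
  · have h3 : Associated p la := hp.irreducible.associated_of_dvd CU.la_prime.irreducible h2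
    rw [if_neg (by rw [h1]; exact one_ne_zero), n3_sl_zero h3.symm.dvd, zero_mul]

/-- `qi p` for the unramified primes -/
theorem n3_unr (Q : QD D) {p : Eis} (hp : Prime p) (h : ¬ p ∣ Q.t ^ 2 - 4 * Q.n) :
    Q.L.qi p = 1 ∨ Q.L.qi p = -1 := by
  have h1 := fun h1 => h ((Q.ram p hp).2 h1)
  have hpid : IsPrincipalIdealRing Eis := eis_pid
  have hdom : IsDomain Eis := eis_isDomain
  have h2 : IsCoprime p Q.L.f := (Irreducible.coprime_iff_not_dvd hp.irreducible).2 fun h2 => h1 (Or.inl h2)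
  have h3 := Q.L.q_pm p h2
  unfold Lev.qi
  rcases Q.L.hep with he | he
  · rw [if_pos he]
    exact h3
  · rw [if_neg (by rw [he]; exact one_ne_zero)]
    have h4 : ¬ la ∣ p := by
      intro h4
      apply h1
      right
      exact ⟨he, (CU.la_prime.irreducible.associated_of_dvd hp.irreducible h4).symm.dvd⟩
    have h5 : sl p = 1 ∨ sl p = -1 := by
      rcases JL.n6_res p with h5 | h5 | h5
      · exact absurd h5 h4
      · exact Or.inl (n3_sl_one h5)
      · exact Or.inr (n3_sl_neg h5)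
    rcases h3 with h3 | h3 <;> rcases h5 with h5 | h5 <;> rw [h3, h5] <;> norm_num

theorem n3_fiber (Q : QD D) (e : ExtG Q.t Q.n M) {p : ℕ} (v : HeightOneSpectrum (𝓞 CF.KK))
    (F : Finset (HeightOneSpectrum (𝓞 M)))
    (hF : ∀ P, P ∈ F ↔ TR.a7a_pi (L := CF.KK) P = v) :
    (∏ P ∈ F, (1 - PowerSeries.C (TR.oneI M P.asIdeal) *
      PowerSeries.X ^ ((Ideal.absNorm P.asIdeal).factorization p) : PowerSeries ℂ)) =
    (1 - PowerSeries.C (TR.oneI CF.KK v.asIdeal) *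
        PowerSeries.X ^ ((Ideal.absNorm v.asIdeal).factorization p)) *
      (1 - PowerSeries.C (qIhom Q.L v.asIdeal) *
        PowerSeries.X ^ ((Ideal.absNorm v.asIdeal).factorization p)) := by
  classical
  have hpi : ∀ P : HeightOneSpectrum (𝓞 M), TR.a7a_pi (L := CF.KK) P = v ↔
      P.asIdeal.comap (algebraMap (𝓞 CF.KK) (𝓞 M)) = v.asIdeal := by
    intro P
    constructor
    · intro h
      rw [← h]
      rfl
    · intro h
      exact HeightOneSpectrum.ext h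
  have hM : ∀ P : HeightOneSpectrum (𝓞 M), TR.oneI M P.asIdeal = 1 := fun P => if_neg P.ne_bot
  have hL : TR.oneI CF.KK v.asIdeal = 1 := if_neg v.ne_bot
  simp only [hM, hL, map_one, one_mul]
  set k := (Ideal.absNorm v.asIdeal).factorization p with hk
  obtain ⟨q, hq, hqv, hqs⟩ := JL.n3b_prime v
  have hval : qIhom Q.L v.asIdeal = (Q.L.qi q : ℂ) := by
    have h1 : qIhom Q.L v.asIdeal = qI Q.L v.asIdeal := rfl
    rw [h1, hqs, qI_span]
  rw [hval]
  have hone : ∀ P : HeightOneSpectrum (𝓞 M),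
      (∀ R : HeightOneSpectrum (𝓞 M), R.asIdeal.comap (algebraMap (𝓞 CF.KK) (𝓞 M)) =
        v.asIdeal ↔ R = P) → F = {P} := by
    intro P hR
    ext R
    rw [hF, hpi, hR, Finset.mem_singleton]
  by_cases h2D : q ∣ Q.t ^ 2 - 4 * Q.n
  · have hc := n3_ram Q hq h2D
    obtain ⟨P, hR, hP⟩ := n2_ram e hq h2D v hqv
    rw [hone P hR, Finset.prod_singleton, hP, hc, ← hk]
    simp
  · by_cases hs : ∃ y : Eis, q ∣ y ^ 2 - Q.t * y + Q.n
    · have hc := (Q.split q hq h2D).2 hs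
      obtain ⟨P, P', hPQ, hR, hP, hQ⟩ := n2_split e hq h2D hs v hqv
      have hFR : F = {P, P'} := by
        ext R
        rw [hF, hpi, hR, Finset.mem_insert, Finset.mem_singleton]
      rw [hFR, Finset.prod_pair hPQ, hP, hQ, ← hk, hc]
      simp
    · have hc : Q.L.qi q = -1 := by
        rcases n3_unr Q hq h2D with h | h
        · exact absurd ((Q.split q hq h2D).1 h) hs
        · exact h
      obtain ⟨P, hR, hP⟩ := n2_inert e hq hs v hqv
      rw [hone P hR, Finset.prod_singleton, hP, hc, Nat.factorization_pow]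
      simp only [Finsupp.smul_apply, smul_eq_mul, ← hk]
      simp only [Int.cast_neg, Int.cast_one, map_neg, map_one]
      ring

theorem n3_loc (Q : QD D) (e : ExtG Q.t Q.n M) {p : ℕ} (hp : p.Prime) :
    CM27.loc p (TR.idA M (TR.oneI M)) =
      CM27.loc p (TR.idA CF.KK (TR.oneI CF.KK)) * CM27.loc p (TR.idA CF.KK (qIhom Q.L)) := by
  classical
  set S : Finset (HeightOneSpectrum (𝓞 CF.KK)) := (TR.a7a_fin CF.KK hp).toFinset with hS
  set T : Finset (HeightOneSpectrum (𝓞 M)) := (TR.a7a_fin M hp).toFinset with hT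
  have hS' : ∀ v : HeightOneSpectrum (𝓞 CF.KK), v ∈ S ↔ (p : 𝓞 CF.KK) ∈ v.asIdeal := by
    intro v; simp [hS]
  have hT' : ∀ v : HeightOneSpectrum (𝓞 M), v ∈ T ↔ (p : 𝓞 M) ∈ v.asIdeal := by
    intro v; simp [hT]
  have e0 := TR.loc_idA M (TR.oneI M) hp T hT' (fun v => (Ideal.absNorm v.asIdeal).factorization p)
    (fun v hv => TR.a7a_norm M hp v ((hT' v).1 hv))
  have e1 := TR.loc_idA CF.KK (TR.oneI CF.KK) hp S hS'
    (fun v => (Ideal.absNorm v.asIdeal).factorization p)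
    (fun v hv => TR.a7a_norm CF.KK hp v ((hS' v).1 hv))
  have e2 := TR.loc_idA CF.KK (qIhom Q.L) hp S hS'
    (fun v => (Ideal.absNorm v.asIdeal).factorization p)
    (fun v hv => TR.a7a_norm CF.KK hp v ((hS' v).1 hv))
  have hmem : ∀ P : HeightOneSpectrum (𝓞 M), (p : 𝓞 M) ∈ P.asIdeal ↔
      (p : 𝓞 CF.KK) ∈ (TR.a7a_pi (L := CF.KK) P).asIdeal := by
    intro P
    change _ ↔ (p : 𝓞 CF.KK) ∈ P.asIdeal.comap (algebraMap (𝓞 CF.KK) (𝓞 M))
    rw [Ideal.mem_comap, map_natCast]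
  have e3 : (∏ P ∈ T, (1 - PowerSeries.C (TR.oneI M P.asIdeal) *
      PowerSeries.X ^ ((Ideal.absNorm P.asIdeal).factorization p) : PowerSeries ℂ)) =
      (∏ v ∈ S, (1 - PowerSeries.C (TR.oneI CF.KK v.asIdeal) *
        PowerSeries.X ^ ((Ideal.absNorm v.asIdeal).factorization p))) *
      ∏ v ∈ S, (1 - PowerSeries.C (qIhom Q.L v.asIdeal) *
        PowerSeries.X ^ ((Ideal.absNorm v.asIdeal).factorization p)) := by
    rw [← Finset.prod_mul_distrib, ← Finset.prod_fiberwise_of_maps_to (s := T) (t := S)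
      (g := fun P => TR.a7a_pi (L := CF.KK) P)
      (fun P hP => (hS' _).2 ((hmem P).1 ((hT' P).1 hP)))]
    refine Finset.prod_congr rfl fun v hv => ?_
    refine n3_fiber Q e v _ fun P => ?_
    rw [Finset.mem_filter, hT']
    constructor
    · exact fun h => h.2
    · intro h
      exact ⟨(hmem P).2 (h ▸ (hS' v).1 hv), h⟩
  rw [e3] at e0
  generalize (∏ v ∈ S, (1 - PowerSeries.C (TR.oneI CF.KK v.asIdeal) *
    PowerSeries.X ^ ((Ideal.absNorm v.asIdeal).factorization p) : PowerSeries ℂ)) = P1 at e0 e1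
  generalize (∏ v ∈ S, (1 - PowerSeries.C (qIhom Q.L v.asIdeal) *
    PowerSeries.X ^ ((Ideal.absNorm v.asIdeal).factorization p) : PowerSeries ℂ)) = P2 at e0 e2
  linear_combination (CM27.loc p (TR.idA CF.KK (TR.oneI CF.KK)) *
      CM27.loc p (TR.idA CF.KK (qIhom Q.L))) * e0 -
    (CM27.loc p (TR.idA M (TR.oneI M)) * CM27.loc p (TR.idA CF.KK (qIhom Q.L)) * P2) * e1 -
    CM27.loc p (TR.idA M (TR.oneI M)) * e2

theorem n3_idA (Q : QD D) (e : ExtG Q.t Q.n M) :
    TR.idA M (TR.oneI M) = TR.idA CF.KK (TR.oneI CF.KK) * TR.idA CF.KK (qI Q.L) := by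
  have h1 : (qI Q.L : Ideal (𝓞 CF.KK) → ℂ) = qIhom Q.L := rfl
  rw [h1, (TR.isMultiplicative_idA M (TR.oneI M)).eq_iff_eq_on_prime_powers _ _
    ((TR.isMultiplicative_idA CF.KK (TR.oneI CF.KK)).mul
      (TR.isMultiplicative_idA CF.KK (qIhom Q.L)))]
  intro p k hp
  have h2 := n3_loc Q e hp
  rw [← CM27.loc_mul hp] at h2
  have h3 := congrArg (fun f => PowerSeries.coeff k f) h2
  simp only [CM27.coeff_loc] at h3
  exact h3

theorem n3_le (L : Lev) (I : Ideal (𝓞 CF.KK)) :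
    ‖qI L I‖ ≤ (Ideal.absNorm I : ℝ) ^ (0 : ℝ) := by
  rw [Real.rpow_zero]
  obtain ⟨b, rfl⟩ := JL.n3b_gen I
  rw [qI_span]
  rcases n3_qi_cases L b with h | h | h <;> rw [h] <;> simp

/-- `L(σ, q)`, `σ > 1` -/
noncomputable def LJ (L : Lev) (σ : ℝ) : ℝ := (1 / 6) * ∑' b : Eis, (L.qi b : ℝ) * (b.norm : ℝ) ^ (-σ)

theorem n3_LJ_ideals (L : Lev) {σ : ℝ} (hσ : 1 < σ) :
    ∑' I : Ideal (𝓞 CF.KK), qI L I * (Ideal.absNorm I : ℂ) ^ (-(σ : ℂ)) = ((LJ L σ : ℝ) : ℂ) := by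
  obtain ⟨hsum, -, -⟩ := TR.lseries_idA CF.KK (qI L) 0 le_rfl (n3_le L)
    (s := (σ : ℂ)) (by simpa using hσ)
  have hGbot : qI L ⊥ * (Ideal.absNorm (⊥ : Ideal (𝓞 CF.KK)) : ℂ) ^ (-(σ : ℂ)) = 0 := by
    rw [qI_bot, zero_mul]
  have hmain := JL.n3b_tsum
    (fun I : Ideal (𝓞 CF.KK) => qI L I * (Ideal.absNorm I : ℂ) ^ (-(σ : ℂ))) hGbot hsum
  have hLJ : ((LJ L σ : ℝ) : ℂ) = (1 / 6) * ∑' b : Eis,
      (qI L (Ideal.span {eE b}) * (Ideal.absNorm (Ideal.span {eE b}) : ℂ) ^ (-(σ : ℂ))) := by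
    unfold LJ
    rw [Complex.ofReal_mul, Complex.ofReal_tsum]
    congr 1
    · norm_num
    · refine tsum_congr fun b => ?_
      rw [qI_span, CUL.l6_absNorm, Complex.ofReal_mul,
        Complex.ofReal_cpow (by exact_mod_cast CM27.norm_nonneg' b)]
      have h1 : ((b.norm.natAbs : ℕ) : ℤ) = b.norm := Int.natAbs_of_nonneg (CM27.norm_nonneg' b)
      have h2 : ((b.norm : ℤ) : ℝ) = ((b.norm.natAbs : ℕ) : ℝ) := by
        conv_lhs => rw [← h1]
        exact Int.cast_natCast _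
      rw [h2, Complex.ofReal_natCast, Complex.ofReal_intCast, Complex.ofReal_neg]
  rw [hLJ, hmain]
  ring

theorem n3_zeta (Q : QD D) (e : ExtG Q.t Q.n M) {σ : ℝ} (hσ : 1 < σ) :
    dedekindZeta M σ = dedekindZeta CF.KK σ * ((LJ Q.L σ : ℝ) : ℂ) := by
  have hs' : (0 : ℝ) + 1 < (σ : ℂ).re := by simpa using hσ
  obtain ⟨-, h1, -⟩ := TR.lseries_idA CF.KK (TR.oneI CF.KK) 0 le_rfl (TR.a7c_one_le CF.KK) hs'
  obtain ⟨-, h2, h3⟩ := TR.lseries_idA CF.KK (qI Q.L) 0 le_rfl (n3_le Q.L) hs'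
  rw [← TR.a7c_dz, ← TR.a7c_dz, n3_idA Q e, ArithmeticFunction.LSeries_mul' h1 h2, h3,
    n3_LJ_ideals Q.L hσ]

end JGL
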