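import Pool.Agent.JGL.Defs
import Pool.Agent.JGL.Q5

/-!
# [JGL-Q] the quadratic data
-/

set_option autoImplicit false

open NumberField IsDedekindDomain Filter Topology
open scoped Classical ComplexConjugate

namespace JGL

open CM27 JZ
open CU (la eE)
open CUL (Nl ez si ta DS Cont LV IsRep rp cr mn mo zw OT GalU W3 W9)
open JL (N1 KD sD Psi6)


theorem exists_QD {D : Eis} (h0 : D ≠ 0) (hs : ¬ IsSquare D) :
    ∃ D₁ m : Eis, m ≠ 0 ∧ D = D₁ * m ^ 2 ∧ Nonempty (QD D₁) := by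
  obtain ⟨c, T, v, hA, hv, hm⟩ := Q3.sq_eis D h0
  have hns : ¬ IsSquare (Q3.Dd c T) := by
    rintro ⟨r, hr⟩
    exact hs ⟨v * r, by rw [hm, hr]; ring⟩
  refine ⟨Q3.Dd c T, v, hv, by rw [hm]; ring, ?_⟩
  have hsum : (∑ p ∈ T, Q3.tt p) = 0 ∨ (∑ p ∈ T, Q3.tt p) = 1 := by
    generalize (∑ p ∈ T, Q3.tt p) = k
    revert k
    decide
  rcases hA.2 with h | h | h | h
  · rcases hsum with h1 | h1
    · subst h
      exact q5_B hA hns h1
    · exact q5_A hA hns (Or.inr (Or.inl ⟨Or.inl h, h1⟩))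
  · rcases hsum with h1 | h1
    · exact q5_A hA hns (Or.inr (Or.inr ⟨h, h1⟩))
    · exact q5_A hA hns (Or.inr (Or.inl ⟨Or.inr h, h1⟩))
  · exact q5_A hA hns (Or.inl (Or.inl h))
  · exact q5_A hA hns (Or.inl (Or.inr h))

end JGL
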