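import Pool.Agent.JGL.Defs
import Pool.Agent.JL.B2

/-!
# [JGL-Q1] the quadratic data: generic part
-/

set_option autoImplicit false

open scoped Classical ComplexConjugate

namespace JGL

open CM27 JZ
open CU (la eE)
open CUL (pr)
open Q3L (fQ Dec sg c2 MM cx)
open Q3 (tt r3 Prim Dd Adm)

/-! ## `sl` -/

theorem q1_sl (x : Eis) : sl x = if (x.re + x.im) % 3 = 1 then 1 else if (x.re + x.im) % 3 = 2 then -1 else 0 := by
  have h1 : la ∣ x - 1 ↔ (x.re + x.im) % 3 = 1 := by
    rw [CUL.la_dvd_iff, QuadraticAlgebra.re_sub, QuadraticAlgebra.im_sub, QuadraticAlgebra.re_one, QuadraticAlgebra.im_one]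
    omega
  have h2 : la ∣ x + 1 ↔ (x.re + x.im) % 3 = 2 := by
    rw [CUL.la_dvd_iff, QuadraticAlgebra.re_add, QuadraticAlgebra.im_add, QuadraticAlgebra.re_one, QuadraticAlgebra.im_one]
    omega
  unfold sl
  simp only [h1, h2]

theorem q1_sl_mul (x y : Eis) : sl (x * y) = sl x * sl y := by
  have h : ((x * y).re + (x * y).im) = (x.re + x.im) * (y.re + y.im) - 3 * (x.im * y.im) := by
    rw [QuadraticAlgebra.re_mul, QuadraticAlgebra.im_mul]
    ring
  have h3 : ((x * y).re + (x * y).im) % 3 = (((x.re + x.im) % 3) * ((y.re + y.im) % 3)) % 3 := by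
    rw [h, ← Int.mul_emod]
    omega
  rw [q1_sl, q1_sl x, q1_sl y, h3]
  have e1 : (x.re + x.im) % 3 = 0 ∨ (x.re + x.im) % 3 = 1 ∨ (x.re + x.im) % 3 = 2 := by omega
  have e2 : (y.re + y.im) % 3 = 0 ∨ (y.re + y.im) % 3 = 1 ∨ (y.re + y.im) % 3 = 2 := by omega
  rcases e1 with e1 | e1 | e1 <;> rcases e2 with e2 | e2 | e2 <;> rw [e1, e2] <;> decide

theorem q1_sl_one : sl 1 = 1 := by
  rw [q1_sl]
  decide

theorem q1_sl_om : sl CU.om = 1 := by
  rw [q1_sl]
  decide

theorem q1_sl_neg : sl (-1) = -1 := by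
  rw [q1_sl]
  decide

theorem q1_sl_two : sl 2 = -1 := by
  rw [q1_sl]
  decide

theorem q1_sl_primary {x : Eis} (h : Primary x) : sl x = 1 := by
  rw [primary_iff] at h
  rw [q1_sl, if_pos (by omega)]

theorem q1_sl_pm {x : Eis} (h : ¬ la ∣ x) : sl x = 1 ∨ sl x = -1 := by
  rw [CUL.la_dvd_iff] at h
  rw [q1_sl]
  have h1 : (x.re + x.im) % 3 = 1 ∨ (x.re + x.im) % 3 = 2 := by omega
  rcases h1 with h1 | h1
  · left
    rw [if_pos h1]
  · right
    rw [if_neg (by omega), if_pos h1]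

theorem q1_sl_zero {x : Eis} (h : la ∣ x) : sl x = 0 := by
  rw [CUL.la_dvd_iff] at h
  rw [q1_sl, if_neg (by omega), if_neg (by omega)]

theorem q1_sl_unit {z : Eis} (h : IsUnit z) : sl z = 1 ∨ sl z = -1 := by
  apply q1_sl_pm
  intro h1
  exact CUL.la_prime.not_isUnit (isUnit_of_dvd_unit h1 h)

theorem q1_r3_eq : r3 = CU.om * la := by decide

theorem q1_la_assoc : Associated la r3 := by
  obtain ⟨u, hu⟩ := CU.om_unit
  exact ⟨u, by rw [hu, q1_r3_eq, mul_comm]⟩

theorem q1_r3_prime : Prime r3 := q1_la_assoc.prime CUL.la_prime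

/-- the quadratic symbol at `√-3` -/
theorem q1_c2_r3 (g : Eis) : c2 r3 g = (sl g : ℂ) := by
  have hd : ∀ x : Eis, r3 ∣ x ↔ la ∣ x := fun x => (q1_la_assoc.dvd_iff_dvd_left).symm
  by_cases h : la ∣ g
  · rw [Q3L.c2_zero ((hd g).2 h), q1_sl_zero h, Int.cast_zero]
  · rw [Q3L.c2_unit (fun h1 => h ((hd g).1 h1))]
    have h2 : sl g = 1 ↔ Q3.sy g r3 = 0 := by
      rw [Q3.sy_eq_zero_iff, q1_sl]
      rw [CUL.la_dvd_iff] at h
      constructor
      · intro h3
        refine ⟨1, ?_⟩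
        rw [hd, CUL.la_dvd_iff, QuadraticAlgebra.re_sub, QuadraticAlgebra.im_sub, one_pow,
          QuadraticAlgebra.re_one, QuadraticAlgebra.im_one]
        by_contra h4
        rw [if_neg (by omega)] at h3
        split_ifs at h3
        exact absurd h3 (by decide)
      · rintro ⟨y, hy⟩
        rw [if_pos]
        rw [hd, CUL.la_dvd_iff, QuadraticAlgebra.re_sub, QuadraticAlgebra.im_sub, pow_two,
          QuadraticAlgebra.re_mul, QuadraticAlgebra.im_mul] at hy
        have h5 : (3 : ℤ) ∣ (y.re + y.im) * (y.re + y.im) - (g.re + g.im) := by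
          obtain ⟨k, hk⟩ := hy
          exact ⟨k + y.im * y.im, by linear_combination hk⟩
        have h6 : ((y.re + y.im) * (y.re + y.im)) % 3 = (((y.re + y.im) % 3) * ((y.re + y.im) % 3)) % 3 := Int.mul_emod _ _ _
        have e1 : (y.re + y.im) % 3 = 0 ∨ (y.re + y.im) % 3 = 1 ∨ (y.re + y.im) % 3 = 2 := by omega
        generalize (y.re + y.im) * (y.re + y.im) = Y at h5 h6
        rcases e1 with e1 | e1 | e1 <;> rw [e1] at h6 <;> norm_num at h6 <;> omega
    rcases q1_sl_pm h with h3 | h3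
    · rw [h2.1 h3, Q3L.sg_zero, h3, Int.cast_one]
    · have h4 : Q3.sy g r3 ≠ 0 := by
        intro h5
        rw [h2.2 h5] at h3
        exact absurd h3 (by decide)
      rw [(Q3.sy_cases g r3).resolve_left h4, Q3L.sg_one, h3]
      norm_num

/-! ## the value in terms of the decomposition `x = z g` -/

/-- the value of the character at `z g` -/
noncomputable def q1_val (c : Eis) (T : Finset Eis) (ep : ℕ) (z g : Eis) : ℂ :=
  (sl z : ℂ) ^ ep * sg (tt g) ^ ep * fQ c T g

theorem q1_val_mul {c : Eis} {T : Finset Eis} (h : Adm c T) (ep : ℕ) {z g z' g' : Eis} (hg : Prim g) (hg' : Prim g') :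
    q1_val c T ep (z * z') (g * g') = q1_val c T ep z g * q1_val c T ep z' g' := by
  unfold q1_val
  rw [q1_sl_mul, Q3.tt_mul hg hg', Q3L.sg_add, Q3L.fQ_mul h hg]
  push_cast
  rw [mul_pow, mul_pow]
  ring

theorem q1_dec_unique {x z g z' g' : Eis} (h : Dec x z g) (h' : Dec x z' g') : z = z' ∧ g = g' := by
  have hdom := eis_isDomain
  have h1 := JL.B1_dec_unique h h'
  refine ⟨?_, h1⟩
  have h2 := h.1.symm.trans h'.1
  rw [← h1] at h2
  exact mul_right_cancel₀ (Q3L.prim_ne h.2.2) h2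

/-- What is needed of the character: the conductor `f`, the sign, the values `F`. -/
structure QC (c : Eis) (T : Finset Eis) (f : Eis) (ep : ℕ) (F : Eis → ℂ) : Prop where
  zero : ∀ x, ¬ IsCoprime x f → F x = 0
  pm : ∀ x, IsCoprime x f → F x = 1 ∨ F x = -1
  mul : ∀ x y, F (x * y) = F x * F y
  per : ∀ x y, f ∣ x - y → F x = F y
  om : F CU.om = 1
  neg : F (-1) = (-1) ^ ep
  prim : ∀ p m : Eis, Prime p → p * m = f → ∃ u, IsCoprime u f ∧ m ∣ u - 1 ∧ F u = -1
  odd : ∀ x z g, Dec x z g → F x = q1_val c T ep z g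

theorem q1_QC_unit {c : Eis} {T : Finset Eis} {f : Eis} {ep : ℕ} {F : Eis → ℂ} (h : QC c T f ep F) {u : Eis} (hu : IsUnit u) :
    QC c T (u * f) ep F := by
  have hc : ∀ x, IsCoprime x (u * f) ↔ IsCoprime x f := fun x => isCoprime_mul_unit_left_right hu x f
  refine ⟨fun x hx => h.zero x (fun h1 => hx ((hc x).2 h1)), fun x hx => h.pm x ((hc x).1 hx), h.mul, ?_, h.om, h.neg, ?_,
    h.odd⟩
  · intro x y hxy
    exact h.per x y ((Dvd.intro_left u rfl).trans hxy)
  · intro p m hp hpm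
    obtain ⟨v, hv⟩ := hu.exists_left_inv
    obtain ⟨y, h1, h2, h3⟩ := h.prim p (v * m) hp (by linear_combination v * hpm + f * hv)
    refine ⟨y, (hc y).2 h1, ?_, h3⟩
    exact (Dvd.intro_left v rfl).trans h2

theorem q1_lev {c : Eis} {T : Finset Eis} {f : Eis} {ep : ℕ} {F : Eis → ℂ} (h : QC c T f ep F) (hf : Primary f) (hfu : ¬ IsUnit f)
    (hf0 : f ≠ 0) (hep : ep = 0 ∨ ep = 1) :
    ∃ L : Lev, L.f = f ∧ L.ep = ep ∧ L.k = 0 ∧ (∀ x, ((L.q x : ℤ) : ℂ) = F x) ∧ ∀ x, IsCoprime x L.f → L.c x = 1 := by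
  obtain ⟨q, hq⟩ : ∃ q : Eis → ℤ, ∀ x, ((q x : ℤ) : ℂ) = F x := by
    refine ⟨fun x => if F x = 1 then 1 else if F x = -1 then -1 else 0, fun x => ?_⟩
    show ((if F x = 1 then (1 : ℤ) else if F x = -1 then -1 else 0 : ℤ) : ℂ) = F x
    by_cases hx : IsCoprime x f
    · rcases h.pm x hx with h1 | h1
      · rw [if_pos h1, h1, Int.cast_one]
      · rw [if_neg (by rw [h1]; norm_num), if_pos h1, h1]
        norm_num
    · have h1 := h.zero x hx
      rw [if_neg (by rw [h1]; norm_num), if_neg (by rw [h1]; norm_num), h1, Int.cast_zero]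
  have hinj : ∀ a b : ℤ, ((a : ℤ) : ℂ) = ((b : ℤ) : ℂ) → a = b := fun a b hab => by exact_mod_cast hab
  have hcm : ∀ x y : Eis, IsCoprime (x * y) f ↔ IsCoprime x f ∧ IsCoprime y f := fun x y => IsCoprime.mul_left_iff
  have hcp : ∀ x y : Eis, f ∣ x - y → IsCoprime x f → IsCoprime y f := by
    intro x y hxy hx
    obtain ⟨k, hk⟩ := hxy
    obtain ⟨a, b, hab⟩ := hx
    exact ⟨a, b + a * k, by linear_combination hab - a * hk⟩
  refine ⟨{ f := f, q := q, c := fun x => if IsCoprime x f then 1 else 0, ep := ep, k := 0, hf := hf, hfu := hfu, hep := hep,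
            q_zero := ?_, q_pm := ?_, q_mul := ?_, q_per := ?_, q_om := ?_, q_neg := ?_, q_non := ?_, c_zero := ?_,
            c_cube := ?_, c_mul := ?_, c_per := ?_, c_om := ?_ }, rfl, rfl, rfl, hq, fun x hx => if_pos hx⟩
  · intro x hx
    apply hinj
    rw [hq, h.zero x hx, Int.cast_zero]
  · intro x hx
    rcases h.pm x hx with h1 | h1
    · left
      apply hinj
      rw [hq, h1, Int.cast_one]
    · right
      apply hinj
      rw [hq, h1]
      norm_num
  · intro x y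
    apply hinj
    rw [Int.cast_mul, hq, hq, hq, h.mul]
  · intro x y hxy
    apply hinj
    rw [hq, hq, h.per x y hxy]
  · apply hinj
    rw [hq, h.om, Int.cast_one]
  · apply hinj
    rw [hq, h.neg]
    push_cast
    rfl
  · obtain ⟨p, hp, m, hm⟩ : ∃ p : Eis, Prime p ∧ p ∣ f := by
      have hdom := eis_isDomain
      have hpid := eis_pid
      obtain ⟨p, hp, hpf⟩ := WfDvdMonoid.exists_irreducible_factor hfu hf0
      exact ⟨p, hp.prime, hpf⟩
    obtain ⟨u, -, -, h3⟩ := h.prim p m hp hm.symm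
    refine ⟨u, ?_⟩
    apply hinj
    rw [hq, h3]
    norm_num
  · intro x hx
    exact if_neg hx
  · intro x hx
    refine ⟨0, ?_⟩
    show (if IsCoprime x f then (1 : ℂ) else 0) = _
    rw [if_pos hx]
    unfold CUL.zw
    rw [ZMod.val_zero, pow_zero]
  · intro x y
    show (if IsCoprime (x * y) f then (1 : ℂ) else 0) = (if IsCoprime x f then (1 : ℂ) else 0) * (if IsCoprime y f then (1 : ℂ) else 0)
    by_cases hx : IsCoprime x f
    · by_cases hy : IsCoprime y f
      · rw [if_pos hx, if_pos hy, if_pos ((hcm x y).2 ⟨hx, hy⟩), one_mul]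
      · rw [if_neg hy, if_neg (fun h1 => hy ((hcm x y).1 h1).2), mul_zero]
    · rw [if_neg hx, if_neg (fun h1 => hx ((hcm x y).1 h1).1), zero_mul]
  · intro x y hxy
    show (if IsCoprime x f then (1 : ℂ) else 0) = (if IsCoprime y f then (1 : ℂ) else 0)
    by_cases hx : IsCoprime x f
    · rw [if_pos hx, if_pos (hcp x y hxy hx)]
    · rw [if_neg hx, if_neg (fun h1 => hx (hcp y x (by rw [← neg_sub, dvd_neg]; exact hxy) h1))]
  · show (if IsCoprime CU.om f then (1 : ℂ) else 0) = _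
    have h1 : IsCoprime CU.om f := by
      obtain ⟨v, hv⟩ := CU.om_unit.exists_left_inv
      exact ⟨v, 0, by rw [hv]; ring⟩
    rw [if_pos h1]
    unfold CUL.zw
    rw [ZMod.val_zero, pow_zero]

end JGL
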