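import Pool.Agent.JGL.Q1

/-!
# [JGL-Q2] the quadratic data: the character if `D₁` is not a square modulo `4`
-/

set_option autoImplicit false

open scoped Classical ComplexConjugate

namespace JGL

open CM27 JZ
open CU (la eE)
open CUL (pr)
open Q3L (fQ Dec sg c2 MM cx)
open Q3 (tt r3 Prim Dd Adm)

/-- the character -/
noncomputable def q2_F (c : Eis) (T : Finset Eis) (ep : ℕ) (x : Eis) : ℂ :=
  if h : ∃ zg : Eis × Eis, Dec x zg.1 zg.2 then q1_val c T ep h.choose.1 h.choose.2 else 0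

theorem q2_dec (c : Eis) (T : Finset Eis) (ep : ℕ) {x z g : Eis} (h : Dec x z g) : q2_F c T ep x = q1_val c T ep z g := by
  unfold q2_F
  have h1 : ∃ zg : Eis × Eis, Dec x zg.1 zg.2 := ⟨(z, g), h⟩
  rw [dif_pos h1]
  obtain ⟨e1, e2⟩ := q1_dec_unique h1.choose_spec h
  rw [e1, e2]

theorem q2_even (c : Eis) (T : Finset Eis) (ep : ℕ) {x : Eis} (h : (2 : Eis) ∣ x) : q2_F c T ep x = 0 := by
  unfold q2_F
  rw [dif_neg]
  rintro ⟨⟨z, g⟩, h2, h3, h4⟩
  simp only at h2 h3 h4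
  rw [h2] at h
  rcases Q3.prime_two.dvd_or_dvd h with h5 | h5
  · exact Q3.prime_two.not_isUnit (isUnit_of_dvd_unit h5 h3)
  · exact h4.not_two_dvd h5

theorem q2_pm_mul {x y : ℂ} (hx : x = 1 ∨ x = -1) (hy : y = 1 ∨ y = -1) : x * y = 1 ∨ x * y = -1 := by
  rcases hx with rfl | rfl <;> rcases hy with rfl | rfl <;> norm_num

theorem q2_pm_pow {x : ℂ} (hx : x = 1 ∨ x = -1) (n : ℕ) : x ^ n = 1 ∨ x ^ n = -1 := by
  induction n with
  | zero => left; rw [pow_zero]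
  | succ n ih =>
    rw [pow_succ]
    exact q2_pm_mul ih hx

theorem q2_pm_sl {z : Eis} (h : IsUnit z) : ((sl z : ℤ) : ℂ) = 1 ∨ ((sl z : ℤ) : ℂ) = -1 := by
  rcases q1_sl_unit h with h1 | h1
  · left
    rw [h1, Int.cast_one]
  · right
    rw [h1]
    norm_num

section
variable {c : Eis} {T : Finset Eis} (hT : Adm c T)
include hT

theorem q2_cop_pr {g : Eis} (h : ∀ p ∈ T, ¬ p ∣ g) : IsCoprime g (pr T) := by
  have hdom := eis_isDomain
  have hpid : IsPrincipalIdealRing Eis := eis_pid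
  unfold CUL.pr
  apply IsCoprime.prod_right
  intro p hp
  exact (((hT.1 p hp).1.irreducible.coprime_iff_not_dvd).2 (h p hp)).symm

omit hT in
theorem q2_cop_MM {x z g : Eis} (hd : Dec x z g) : IsCoprime g (MM c) := by
  have h5 : IsCoprime g ((2 : Eis) ^ 3) := Q3L.cop_two hd.2.2.not_two_dvd 3
  apply h5.of_isCoprime_of_dvd_right
  have h6 : (2 : Eis) ^ 3 = 8 := by norm_num
  rw [h6]
  exact Q3L.MM_dvd_eight c

theorem q2_fQ_zero {g : Eis} (h : ¬ IsCoprime g (pr T)) : fQ c T g = 0 := by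
  obtain ⟨p, hp, hpg⟩ : ∃ p ∈ T, p ∣ g := by
    by_contra h1
    push Not at h1
    exact h (q2_cop_pr hT h1)
  unfold Q3L.fQ
  split_ifs
  · rw [Finset.prod_eq_zero hp (by rw [Q3L.c2_zero hpg, mul_zero]), mul_zero]
  · rfl

theorem q2_fQ_pm {g : Eis} (hg : Prim g) (h : IsCoprime g (pr T)) : fQ c T g = 1 ∨ fQ c T g = -1 := by
  have h1 := Q3L.fQ_unit hT hg h
  have h2 : (fQ c T g - 1) * (fQ c T g + 1) = 0 := by linear_combination h1
  rcases mul_eq_zero.1 h2 with h3 | h3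
  · left
    linear_combination h3
  · right
    linear_combination h3

theorem q2_zero (ep : ℕ) {x : Eis} (h : ¬ IsCoprime x (MM c * pr T)) : q2_F c T ep x = 0 := by
  by_cases hx : (2 : Eis) ∣ x
  · exact q2_even c T ep hx
  · obtain ⟨z, g, hd⟩ := Q3L.exists_dec hx
    rw [q2_dec c T ep hd]
    have h1 : ¬ IsCoprime g (pr T) := by
      intro h2
      apply h
      rw [hd.1]
      exact (isCoprime_mul_unit_left_left hd.2.1 g _).2 ((q2_cop_MM hd).mul_right h2)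
    unfold q1_val
    rw [q2_fQ_zero hT h1, mul_zero]

theorem q2_pm (ep : ℕ) {x : Eis} (h : IsCoprime x (MM c * pr T)) : q2_F c T ep x = 1 ∨ q2_F c T ep x = -1 := by
  by_cases hx : (2 : Eis) ∣ x
  · exfalso
    have h2 : (2 : Eis) ∣ MM c * pr T := (((show (2 : Eis) ∣ 4 from ⟨2, by norm_num⟩).trans (Q3L.four_dvd_MM c))).mul_right _
    exact Q3.prime_two.not_isUnit (h.isUnit_of_dvd' hx h2)
  · obtain ⟨z, g, hd⟩ := Q3L.exists_dec hx
    rw [q2_dec c T ep hd]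
    have h3 : IsCoprime g (MM c * pr T) := by
      rw [hd.1] at h
      exact h.of_mul_left_right
    unfold q1_val
    exact q2_pm_mul (q2_pm_mul (q2_pm_pow (q2_pm_sl hd.2.1) ep) (q2_pm_pow (Q3L.sg_cases _) ep))
      (q2_fQ_pm hT hd.2.2 h3.of_mul_right_right)

theorem q2_mul (ep : ℕ) (x y : Eis) : q2_F c T ep (x * y) = q2_F c T ep x * q2_F c T ep y := by
  by_cases hx : (2 : Eis) ∣ x
  · rw [q2_even c T ep hx, q2_even c T ep (hx.mul_right y), zero_mul]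
  · by_cases hy : (2 : Eis) ∣ y
    · rw [q2_even c T ep hy, q2_even c T ep (hy.mul_left x), mul_zero]
    · obtain ⟨z, g, h1⟩ := Q3L.exists_dec hx
      obtain ⟨z', g', h2⟩ := Q3L.exists_dec hy
      have h3 : Dec (x * y) (z * z') (g * g') := by
        refine ⟨?_, h1.2.1.mul h2.2.1, h1.2.2.mul h2.2.2⟩
        rw [h1.1, h2.1]
        ring
      rw [q2_dec c T ep h1, q2_dec c T ep h2, q2_dec c T ep h3, q1_val_mul hT ep h1.2.2 h2.2.2]

theorem q2_per (ep : ℕ) {x y : Eis} (h : MM c * pr T ∣ x - y) : q2_F c T ep x = q2_F c T ep y := by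
  have h44 : (4 : Eis) ∣ x - y := (Q3L.four_dvd_MM c).trans ((Dvd.intro _ rfl).trans h)
  have h4 : (4 : Eis) = 2 * 2 := by norm_num
  have h2 : (2 : Eis) ∣ x - y := (Dvd.intro _ h4.symm).trans h44
  by_cases hx : (2 : Eis) ∣ x
  · rw [q2_even c T ep hx, q2_even c T ep ((dvd_iff_dvd_of_dvd_sub h2).1 hx)]
  · obtain ⟨z, g, hd⟩ := Q3L.exists_dec hx
    obtain ⟨v, hv⟩ := hd.2.1.exists_right_inv
    have h5 : x - y = z * (g - v * y) := by
      rw [hd.1]
      linear_combination y * hv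
    have h6 : g - v * y = v * (x - y) := by
      rw [h5]
      linear_combination (-(g - v * y)) * hv
    have h7 : MM c * pr T ∣ g - v * y := by
      rw [h6]
      exact h.mul_left v
    have h74 : (4 : Eis) ∣ g - v * y := (Q3L.four_dvd_MM c).trans ((Dvd.intro _ rfl).trans h7)
    have h8 : Prim (v * y) := Q3L.prim_congr hd.2.2 h74
    have h9 : Dec y z (v * y) := by
      refine ⟨?_, hd.2.1, h8⟩
      linear_combination (-y) * hv
    rw [q2_dec c T ep hd, q2_dec c T ep h9]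
    unfold q1_val
    rw [Q3L.fQ_congr hT h7, Q3L.tt_congr h74]

theorem q2_om (ep : ℕ) : q2_F c T ep CU.om = 1 := by
  have h : Dec CU.om CU.om 1 := ⟨(mul_one _).symm, CU.om_unit, Q3.prim_one⟩
  rw [q2_dec c T ep h]
  unfold q1_val
  rw [q1_sl_om, Q3L.tt_one, Q3L.sg_zero, Q3L.fQ_one hT, Int.cast_one, one_pow]
  norm_num

theorem q2_neg (ep : ℕ) : q2_F c T ep (-1) = (-1) ^ ep := by
  have h : Dec (-1) (-1) 1 := ⟨(mul_one _).symm, isUnit_one.neg, Q3.prim_one⟩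
  rw [q2_dec c T ep h]
  unfold q1_val
  rw [q1_sl_neg, Q3L.tt_one, Q3L.sg_zero, Q3L.fQ_one hT, one_pow]
  push_cast
  ring

omit hT in
/-- the value at a `u ≡ 1 mod 4` -/
theorem q2_val_one (ep : ℕ) {u : Eis} (h4 : (4 : Eis) ∣ u - 1) :
    q2_F c T ep u = sg (cx c u) * ∏ q ∈ T, c2 q u := by
  have h4' : (4 : Eis) ∣ 1 - u := by
    rw [← neg_sub, dvd_neg]
    exact h4
  have huP : Prim u := Q3L.prim_congr Q3.prim_one h4'
  have htt : tt u = 0 := by rw [Q3L.tt_congr h4, Q3L.tt_one]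
  have hd : Dec u 1 u := ⟨(one_mul u).symm, isUnit_one, huP⟩
  rw [q2_dec c T ep hd]
  unfold q1_val
  rw [q1_sl_one, htt, Q3L.sg_zero, Int.cast_one, one_pow, one_mul, one_mul]
  unfold Q3L.fQ
  rw [if_pos huP, htt]
  congr 1
  refine Finset.prod_congr rfl fun q _ => ?_
  rw [mul_zero, Q3L.sg_zero, one_mul]

/-- an odd prime -/
theorem q2_odd (ep : ℕ) {p : Eis} (hp : Prime p) (h2 : ¬ p ∣ 2) (hpf : p ∣ MM c * pr T) :
    ∃ u : Eis, (∀ m : Eis, p * m = MM c * pr T → m ∣ u - 1) ∧ q2_F c T ep u = -1 := by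
  have hdom := eis_isDomain
  have hpid := eis_pid
  have hpM : ¬ p ∣ MM c := by
    intro h
    have h1 := h.trans (Q3L.MM_dvd_eight c)
    have h8 : (8 : Eis) = 2 ^ 3 := by norm_num
    rw [h8] at h1
    exact h2 (hp.dvd_of_dvd_pow h1)
  have hpP : p ∣ pr T := (hp.dvd_or_dvd hpf).resolve_left hpM
  unfold CUL.pr at hpP
  obtain ⟨p', hp', hpp⟩ := hp.exists_mem_finset_dvd hpP
  obtain ⟨hpr, hprim⟩ := hT.1 p' hp'
  obtain ⟨e, he⟩ := (hp.dvd_prime_iff_associated hpr).1 hpp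
  have hQ : p' * ∏ q ∈ T.erase p', q = ∏ q ∈ T, q := Finset.mul_prod_erase T (fun q => q) hp'
  obtain ⟨Q, hQdef⟩ : ∃ Q, Q = ∏ q ∈ T.erase p', q := ⟨_, rfl⟩
  rw [← hQdef] at hQ
  have hcop : IsCoprime (8 * Q) p' := by
    refine IsCoprime.symm ((hpr.irreducible.coprime_iff_not_dvd).2 ?_)
    intro h
    rcases hpr.dvd_or_dvd h with h | h
    · have h8 : (8 : Eis) = 2 ^ 3 := by norm_num
      rw [h8] at h
      exact Q3.not_dvd_two hpr hprim (hpr.dvd_of_dvd_pow h)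
    · rw [hQdef] at h
      obtain ⟨q, hq, hpq⟩ := hpr.exists_mem_finset_dvd h
      obtain ⟨hq1, hq2⟩ := Finset.mem_erase.1 hq
      obtain ⟨hqr, hqprim⟩ := hT.1 q hq2
      exact Q3L.not_dvd_of_ne hpr hprim hqr hqprim (Ne.symm hq1) hpq
  obtain ⟨n, hn1, hn2⟩ := Q3L.exists_nonsq hpr hprim
  obtain ⟨u, hu1, hu2⟩ := JL.b2_crt hcop 1 n
  have hu8 : (8 : Eis) ∣ u - 1 := (Dvd.intro _ rfl).trans hu1
  have huQ : Q ∣ u - 1 := (Dvd.intro_left _ rfl).trans hu1
  have hu4 : (4 : Eis) ∣ u - 1 := (show (4 : Eis) ∣ 8 from ⟨2, by norm_num⟩).trans hu8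
  have hcx : cx c u = 0 := by
    rw [Q3L.cx_congr hT.2 ((Q3L.MM_dvd_eight c).trans hu8), Q3L.cx_one]
  refine ⟨u, fun m hm => ?_, ?_⟩
  · have h1 : p * m = p * (MM c * (e : Eis) * Q) := by
      rw [hm]
      unfold CUL.pr
      rw [← hQ, ← he]
      ring
    have h3 : m = MM c * (e : Eis) * Q := mul_left_cancel₀ hp.ne_zero h1
    have h4 : m ∣ 8 * Q := by
      obtain ⟨k, hk⟩ := Q3L.MM_dvd_eight c
      refine ⟨k * ((e⁻¹ : Eisˣ) : Eis), ?_⟩
      have h5 : (e : Eis) * ((e⁻¹ : Eisˣ) : Eis) = 1 := Units.mul_inv e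
      rw [h3, hk]
      linear_combination (-(MM c * k * Q)) * h5
    exact h4.trans hu1
  · rw [q2_val_one ep hu4, hcx, Q3L.sg_zero, one_mul, ← Finset.mul_prod_erase T _ hp', Q3L.c2_congr hpr hprim hu2, hn2,
      Finset.prod_eq_one, mul_one]
    intro q hq
    obtain ⟨hq1, hq2⟩ := Finset.mem_erase.1 hq
    obtain ⟨hqr, hqprim⟩ := hT.1 q hq2
    have h6 : q ∣ u - 1 := by
      refine Dvd.dvd.trans ?_ huQ
      rw [hQdef]
      exact Finset.dvd_prod_of_mem (fun q : Eis => q) hq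
    rw [Q3L.c2_congr hqr hqprim h6, Q3L.c2_one hqr hqprim]

/-- the prime `2` -/
theorem q2_two (ep : ℕ)
    (hA : (c = 2 ∨ c = -2) ∨ ((c = 1 ∨ c = -1) ∧ (∑ p ∈ T, tt p) + (ep : ZMod 2) = 1) ∨
      (c = -1 ∧ (∑ p ∈ T, tt p) + (ep : ZMod 2) = 0)) :
    ∃ u n : Eis, MM c = 2 * n ∧ n * pr T ∣ u - 1 ∧ q2_F c T ep u = -1 := by
  obtain ⟨hPr, hPt⟩ := JL.b2_tt_prod T fun p hp => (hT.1 p hp).2
  have hPP : ∏ p ∈ T, p = pr T := rfl
  rw [hPP] at hPr hPt
  have hdvd : ∀ q ∈ T, q ∣ pr T := fun q hq => Q3L.k3_dvd_pr hq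
  have hcop3 : IsCoprime (pr T) 8 := by
    have h8 : (8 : Eis) = 2 ^ 3 := by norm_num
    rw [h8]
    exact Q3L.cop_two hPr.not_two_dvd 3
  have hcop2 : IsCoprime (pr T) 4 := by
    have h8 : (4 : Eis) = 2 ^ 2 := by norm_num
    rw [h8]
    exact Q3L.cop_two hPr.not_two_dvd 2
  have hcop1 : IsCoprime (pr T) 2 := by
    have h8 : (2 : Eis) = 2 ^ 1 := by norm_num
    rw [h8]
    exact Q3L.cop_two hPr.not_two_dvd 1
  have hsge : sg ((ep : ℕ) : ZMod 2) = (-1) ^ ep := by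
    have h1 := Q3L.sg_pow 1 ep
    rw [Q3L.sg_one, mul_one] at h1
    exact h1.symm
  rcases hA with hc | hA
  · obtain ⟨u, hu1, hu2⟩ := JL.b2_crt hcop3 1 (1 + 4 * Q3.om)
    have h4 : (4 : Eis) ∣ u - 1 := by
      obtain ⟨k, hk⟩ := hu2
      exact ⟨Q3.om + 2 * k, by linear_combination hk⟩
    have hcx : cx c u = 1 := by
      rw [Q3L.cx_congr hT.2 ((Q3L.MM_dvd_eight c).trans hu2)]
      have e1 : Q3.tt (1 + 4 * Q3.om) = 0 := by
        unfold Q3.tt
        rw [if_pos (by decide)]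
      have e2 : Q3L.et (1 + 4 * Q3.om) = 1 := by decide
      unfold Q3L.cx
      rw [e1, e2]
      rcases hc with hc | hc
      · rw [hc, if_neg (by decide), if_neg (by decide), if_pos rfl]
        rfl
      · rw [hc, if_neg (by decide), if_neg (by decide), if_neg (by decide)]
    have hM : MM c = 2 * 4 := by
      rcases hc with hc | hc
      · rw [hc, Q3L.MM_two]
        norm_num
      · rw [hc, Q3L.MM_neg_two]
        norm_num
    refine ⟨u, 4, hM, hcop2.symm.mul_dvd h4 hu1, ?_⟩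
    rw [q2_val_one ep h4, hcx, Q3L.sg_one, Finset.prod_eq_one, mul_one]
    intro q hq
    obtain ⟨hqr, hqprim⟩ := hT.1 q hq
    rw [Q3L.c2_congr hqr hqprim ((hdvd q hq).trans hu1), Q3L.c2_one hqr hqprim]
  · have hc1 : c = 1 ∨ c = -1 := by
      rcases hA with h | h
      · exact h.1
      · exact Or.inr h.1
    have hM4 : MM c = 4 := by
      rcases hc1 with h1 | h1
      · rw [h1, Q3L.MM_one]
      · rw [h1, Q3L.MM_neg_one]
    have hM : MM c = 2 * 2 := by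
      rw [hM4]
      norm_num
    have hfin : ∀ u x : Eis, pr T ∣ u - 1 → (4 : Eis) ∣ u - x → (2 : Eis) ∣ x - 1 → 2 * pr T ∣ u - 1 := by
      intro u x h1 h2 h3
      have h5 : (2 : Eis) ∣ u - 1 := by
        have : u - 1 = (u - x) + (x - 1) := by ring
        rw [this]
        exact dvd_add ((show (2 : Eis) ∣ 4 from ⟨2, by norm_num⟩).trans h2) h3
      exact hcop1.symm.mul_dvd h5 h1
    rcases hA with ⟨-, hs⟩ | ⟨hcm, hs⟩
    · obtain ⟨u, hu1, hu2⟩ := JL.b2_crt hcop2 1 (-1)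
      have hg : (4 : Eis) ∣ -u - 1 := by
        have : -u - 1 = -(u - -1) := by ring
        rw [this, dvd_neg]
        exact hu2
      have hg' : (4 : Eis) ∣ 1 - -u := by
        rw [← neg_sub, dvd_neg]
        exact hg
      have huP : Prim (-u) := Q3L.prim_congr Q3.prim_one hg'
      have htt : tt (-u) = 0 := by rw [Q3L.tt_congr hg, Q3L.tt_one]
      have hcx : cx c (-u) = 0 := by
        have h5 : MM c ∣ -u - 1 := by
          rw [hM4]
          exact hg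
        rw [Q3L.cx_congr hT.2 h5, Q3L.cx_one]
      refine ⟨u, 2, hM, hfin u (-1) hu1 hu2 ⟨-1, by norm_num⟩, ?_⟩
      have hd : Dec u (-1) (-u) := ⟨by ring, isUnit_one.neg, huP⟩
      rw [q2_dec c T ep hd]
      unfold q1_val
      rw [q1_sl_neg, htt, Q3L.sg_zero, one_pow, mul_one]
      unfold Q3L.fQ
      rw [if_pos huP, hcx, Q3L.sg_zero, one_mul, htt, Finset.prod_congr rfl fun q hq => by
        rw [mul_zero, Q3L.sg_zero, one_mul, Q3L.c2_congr (x := -u) (y := -1) (hT.1 q hq).1 (hT.1 q hq).2 (by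
          have h7 : -u - -1 = -(u - 1) := by ring
          rw [h7, dvd_neg]
          exact (hdvd q hq).trans hu1), Q3L.c2_neg_one (hT.1 q hq).1 (hT.1 q hq).2],
        ← Q3L.sg_sum]
      push_cast
      rw [← hsge, ← Q3L.sg_add, add_comm, hs, Q3L.sg_one]
    · obtain ⟨u, hu1, hu2⟩ := JL.b2_crt hcop2 1 r3
      have h4' : (4 : Eis) ∣ r3 - u := by
        rw [← neg_sub, dvd_neg]
        exact hu2
      have huP : Prim u := Q3L.prim_congr Q3.prim_r3 h4'
      have htt : tt u = 1 := by rw [Q3L.tt_congr hu2, Q3L.tt_r3]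
      have hcx : cx c u = 1 := by
        have h5 : MM c ∣ u - r3 := by
          rw [hM4]
          exact hu2
        rw [Q3L.cx_congr hT.2 h5, hcm]
        exact Q3L.cx_r3.2.1
      refine ⟨u, 2, hM, hfin u r3 hu1 hu2 ⟨Q3.om, by decide⟩, ?_⟩
      have hd : Dec u 1 u := ⟨(one_mul u).symm, isUnit_one, huP⟩
      rw [q2_dec c T ep hd]
      unfold q1_val
      rw [q1_sl_one, htt, Q3L.sg_one, Int.cast_one, one_pow, one_mul]
      unfold Q3L.fQ
      rw [if_pos huP, hcx, Q3L.sg_one, htt, Finset.prod_congr rfl fun q hq => by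
        rw [mul_one, Q3L.c2_congr (hT.1 q hq).1 (hT.1 q hq).2 ((hdvd q hq).trans hu1),
          Q3L.c2_one (hT.1 q hq).1 (hT.1 q hq).2, mul_one], ← Q3L.sg_sum, ← hsge]
      have h8 : sg ((ep : ℕ) : ZMod 2) * (-1 * sg (∑ q ∈ T, tt q)) = - (sg (∑ q ∈ T, tt q) * sg ((ep : ℕ) : ZMod 2)) := by ring
      rw [h8, ← Q3L.sg_add, hs, Q3L.sg_zero]

theorem q2_QC (ep : ℕ)
    (hA : (c = 2 ∨ c = -2) ∨ ((c = 1 ∨ c = -1) ∧ (∑ p ∈ T, tt p) + (ep : ZMod 2) = 1) ∨
      (c = -1 ∧ (∑ p ∈ T, tt p) + (ep : ZMod 2) = 0)) :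
    QC c T (MM c * pr T) ep (q2_F c T ep) := by
  have hdom := eis_isDomain
  refine ⟨fun x hx => q2_zero hT ep hx, fun x hx => q2_pm hT ep hx, q2_mul hT ep, fun x y h => q2_per hT ep h,
    q2_om hT ep, q2_neg hT ep, ?_, fun x z g h => q2_dec c T ep h⟩
  intro p m hp hpm
  have hz : ∀ u, q2_F c T ep u = -1 → IsCoprime u (MM c * pr T) := by
    intro u hu
    by_contra h
    rw [q2_zero hT ep h] at hu
    norm_num at hu
  by_cases h2 : p ∣ 2
  · obtain ⟨u, n, hn, hu1, hu2⟩ := q2_two hT ep hA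
    obtain ⟨e, he⟩ : Associated p 2 := (hp.dvd_prime_iff_associated Q3.prime_two).1 h2
    refine ⟨u, hz u hu2, ?_, hu2⟩
    have h3 : m = (e : Eis) * (n * pr T) := by
      refine mul_left_cancel₀ hp.ne_zero ?_
      rw [hpm, hn, ← he]
      ring
    have h4 : m ∣ n * pr T := by
      refine ⟨((e⁻¹ : Eisˣ) : Eis), ?_⟩
      have h5 : (e : Eis) * ((e⁻¹ : Eisˣ) : Eis) = 1 := Units.mul_inv e
      rw [h3]
      linear_combination (-(n * pr T)) * h5
    exact h4.trans hu1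
  · obtain ⟨u, hu1, hu2⟩ := q2_odd hT ep hp h2 ⟨m, hpm.symm⟩
    exact ⟨u, hz u hu2, hu1 m hpm, hu2⟩

end

end JGL
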