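import Pool.Agent.JGL.Q2

/-!
# [JGL-Q3] the quadratic data: the character if `D₁` is a square modulo `4`
-/

set_option autoImplicit false

open scoped Classical ComplexConjugate

namespace JGL

open CM27 JZ
open CU (la eE)
open CUL (pr)
open Q3L (fQ Dec sg c2 MM cx)
open Q3 (r3 Prim Dd Adm)

/-- the character -/
noncomputable def q3_F (T : Finset Eis) (x : Eis) : ℂ := ∏ p ∈ T, c2 p x

theorem q3_prod_pm (T : Finset Eis) (f : Eis → ℂ) (h : ∀ p ∈ T, f p = 1 ∨ f p = -1) : ∏ p ∈ T, f p = 1 ∨ ∏ p ∈ T, f p = -1 := by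
  induction T using Finset.induction_on with
  | empty => left; exact Finset.prod_empty
  | insert a s ha ih =>
    rw [Finset.prod_insert ha]
    exact q2_pm_mul (h a (Finset.mem_insert_self a s)) (ih fun p hp => h p (Finset.mem_insert_of_mem hp))

section
variable {T : Finset Eis} (hT : Adm 1 T)
include hT

theorem q3_zero {x : Eis} (h : ¬ IsCoprime x (pr T)) : q3_F T x = 0 := by
  obtain ⟨p, hp, hpg⟩ : ∃ p ∈ T, p ∣ x := by
    by_contra h1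
    push Not at h1
    exact h (q2_cop_pr hT h1)
  unfold q3_F
  exact Finset.prod_eq_zero hp (Q3L.c2_zero hpg)

theorem q3_pm {x : Eis} (h : IsCoprime x (pr T)) : q3_F T x = 1 ∨ q3_F T x = -1 := by
  unfold q3_F
  apply q3_prod_pm
  intro p hp
  rw [Q3L.c2_unit (fun h2 => (hT.1 p hp).1.not_isUnit (h.isUnit_of_dvd' h2 (Q3L.k3_dvd_pr hp)))]
  exact Q3L.sg_cases _

theorem q3_mul (x y : Eis) : q3_F T (x * y) = q3_F T x * q3_F T y := by
  unfold q3_F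
  rw [← Finset.prod_mul_distrib]
  exact Finset.prod_congr rfl fun p hp => Q3L.c2_mul (hT.1 p hp).1 (hT.1 p hp).2 x y

theorem q3_per {x y : Eis} (h : pr T ∣ x - y) : q3_F T x = q3_F T y := by
  unfold q3_F
  exact Finset.prod_congr rfl fun p hp => Q3L.c2_congr (hT.1 p hp).1 (hT.1 p hp).2 ((Q3L.k3_dvd_pr hp).trans h)

theorem q3_om : q3_F T CU.om = 1 := by
  unfold q3_F
  refine Finset.prod_eq_one fun p hp => ?_
  have h1 : ¬ p ∣ CU.om := fun h => (hT.1 p hp).1.not_isUnit (isUnit_of_dvd_unit h CU.om_unit)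
  rw [Q3L.c2_unit h1]
  have h2 : Q3.sy CU.om p = 0 := Q3.sy_om p
  rw [h2, Q3L.sg_zero]

theorem q3_one : q3_F T 1 = 1 := by
  unfold q3_F
  exact Finset.prod_eq_one fun p hp => Q3L.c2_one (hT.1 p hp).1 (hT.1 p hp).2

omit hT in
theorem q3_sg_ep (ep : ℕ) : sg ((ep : ℕ) : ZMod 2) = (-1) ^ ep := by
  have h1 := Q3L.sg_pow 1 ep
  rw [Q3L.sg_one, mul_one] at h1
  exact h1.symm

theorem q3_neg : q3_F T (-1) = sg (∑ p ∈ T, Q3.tt p) := by
  unfold q3_F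
  rw [Q3L.sg_sum]
  exact Finset.prod_congr rfl fun p hp => Q3L.c2_neg_one (hT.1 p hp).1 (hT.1 p hp).2

theorem q3_two : q3_F T 2 = sg (∑ p ∈ T, (Q3.tt p + Q3L.et p)) := by
  unfold q3_F
  rw [Q3L.sg_sum]
  exact Finset.prod_congr rfl fun p hp => Q3L.c2_two (hT.1 p hp).1 (hT.1 p hp).2

theorem q3_om_pow (k : ℕ) : q3_F T (CU.om ^ k) = 1 ∧ sl (CU.om ^ k) = 1 := by
  induction k with
  | zero =>
    rw [pow_zero]
    exact ⟨q3_one hT, q1_sl_one⟩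
  | succ k ih =>
    rw [pow_succ, q3_mul hT, q1_sl_mul, ih.1, ih.2, q3_om hT, q1_sl_om]
    exact ⟨one_mul 1, one_mul 1⟩

theorem q3_unit {ep : ℕ} (hs : (∑ p ∈ T, Q3.tt p) = (ep : ZMod 2)) {z : Eis} (hz : IsUnit z) :
    q3_F T z = ((sl z : ℤ) : ℂ) ^ ep := by
  obtain ⟨k, hk⟩ := Q3L.unit_cases hz
  have hom : Q3.om = CU.om := rfl
  rw [hom] at hk
  obtain ⟨h1, h2⟩ := q3_om_pow hT k
  rcases hk with hk | hk
  · rw [hk, h1, h2, Int.cast_one, one_pow]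
  · have h3 : z = -1 * CU.om ^ k := by
      rw [hk]
      ring
    rw [h3, q3_mul hT, q1_sl_mul, h1, h2, q3_neg hT, q1_sl_neg, hs, q3_sg_ep, mul_one, mul_one]
    norm_num

theorem q3_dec {ep : ℕ} (hs : (∑ p ∈ T, Q3.tt p) = (ep : ZMod 2)) {x z g : Eis} (h : Dec x z g) :
    q3_F T x = q1_val 1 T ep z g := by
  rw [h.1, q3_mul hT, q3_unit hT hs h.2.1]
  unfold q1_val
  rw [mul_assoc]
  congr 1
  unfold Q3L.fQ
  have e1 : cx 1 g = 0 := by
    unfold Q3L.cx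
    rw [if_pos rfl]
  have e2 : sg (Q3.tt g) ^ ep * ∏ p ∈ T, sg (Q3.tt p * Q3.tt g) = 1 := by
    rw [← Q3L.sg_sum, ← Finset.sum_mul, hs, Q3L.sg_pow, Q3L.sg_sq]
  rw [if_pos h.2.2, e1, Q3L.sg_zero, one_mul, Finset.prod_mul_distrib, ← mul_assoc, e2, one_mul]
  rfl

/-- a prime of the conductor -/
theorem q3_prim {p m : Eis} (hp : Prime p) (hpm : p * m = pr T) : ∃ u, IsCoprime u (pr T) ∧ m ∣ u - 1 ∧ q3_F T u = -1 := by
  have hdom := eis_isDomain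
  have hpid := eis_pid
  have hpP : p ∣ ∏ q ∈ T, q := ⟨m, hpm.symm⟩
  obtain ⟨p', hp', hpp⟩ := hp.exists_mem_finset_dvd hpP
  obtain ⟨hpr, hprim⟩ := hT.1 p' hp'
  obtain ⟨e, he⟩ := (hp.dvd_prime_iff_associated hpr).1 hpp
  have hQ : p' * ∏ q ∈ T.erase p', q = ∏ q ∈ T, q := Finset.mul_prod_erase T (fun q => q) hp'
  obtain ⟨Q, hQdef⟩ : ∃ Q, Q = ∏ q ∈ T.erase p', q := ⟨_, rfl⟩
  rw [← hQdef] at hQ
  have hcop : IsCoprime Q p' := by
    refine IsCoprime.symm ((hpr.irreducible.coprime_iff_not_dvd).2 ?_)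
    intro h
    rw [hQdef] at h
    obtain ⟨q, hq, hpq⟩ := hpr.exists_mem_finset_dvd h
    obtain ⟨hq1, hq2⟩ := Finset.mem_erase.1 hq
    obtain ⟨hqr, hqprim⟩ := hT.1 q hq2
    exact Q3L.not_dvd_of_ne hpr hprim hqr hqprim (Ne.symm hq1) hpq
  obtain ⟨n, hn1, hn2⟩ := Q3L.exists_nonsq hpr hprim
  obtain ⟨u, hu1, hu2⟩ := JL.b2_crt hcop 1 n
  have hF : q3_F T u = -1 := by
    unfold q3_F
    rw [← Finset.mul_prod_erase T _ hp', Q3L.c2_congr hpr hprim hu2, hn2, Finset.prod_eq_one, mul_one]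
    intro q hq
    obtain ⟨hq1, hq2⟩ := Finset.mem_erase.1 hq
    obtain ⟨hqr, hqprim⟩ := hT.1 q hq2
    have h6 : q ∣ u - 1 := by
      refine Dvd.dvd.trans ?_ hu1
      rw [hQdef]
      exact Finset.dvd_prod_of_mem (fun q : Eis => q) hq
    rw [Q3L.c2_congr hqr hqprim h6, Q3L.c2_one hqr hqprim]
  refine ⟨u, ?_, ?_, hF⟩
  · by_contra h
    rw [q3_zero hT h] at hF
    norm_num at hF
  · have h1 : p * m = p * ((e : Eis) * Q) := by
      rw [hpm]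
      unfold CUL.pr
      rw [← hQ, ← he]
      ring
    have h3 : m = (e : Eis) * Q := mul_left_cancel₀ hp.ne_zero h1
    have h4 : m ∣ Q := by
      refine ⟨((e⁻¹ : Eisˣ) : Eis), ?_⟩
      have h5 : (e : Eis) * ((e⁻¹ : Eisˣ) : Eis) = 1 := Units.mul_inv e
      rw [h3]
      linear_combination (-Q) * h5
    exact h4.trans hu1

theorem q3_QC {ep : ℕ} (hs : (∑ p ∈ T, Q3.tt p) = (ep : ZMod 2)) : QC 1 T (pr T) ep (q3_F T) := by
  refine ⟨fun x hx => q3_zero hT hx, fun x hx => q3_pm hT hx, q3_mul hT, fun x y h => q3_per hT h,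
    q3_om hT, ?_, fun p m hp hpm => q3_prim hT hp hpm, fun x z g h => q3_dec hT hs h⟩
  rw [q3_neg hT, hs, q3_sg_ep]

end

end JGL
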