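import Pool.Agent.JGL.Q3

/-!
# [JGL-Q4] the quadratic data: everything but the arithmetic modulo `4`
-/

set_option autoImplicit false

open scoped Classical ComplexConjugate

namespace JGL

open CM27 JZ
open CU (la eE)
open CUL (pr GalU)
open Q3L (fQ Dec sg c2 MM cx)
open Q3 (r3 Prim Dd Adm)

/-- the parity -/
noncomputable def q4_ep (T : Finset Eis) : ℕ := if r3 ∈ T then 1 else 0

theorem q4_ep_cases (T : Finset Eis) : (r3 ∈ T ∧ q4_ep T = 1) ∨ (r3 ∉ T ∧ q4_ep T = 0) := by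
  unfold q4_ep
  by_cases h : r3 ∈ T
  · exact Or.inl ⟨h, if_pos h⟩
  · exact Or.inr ⟨h, if_neg h⟩

theorem q4_adm {c : Eis} {T : Finset Eis} (hT : Adm c T) : Adm c (T.erase r3) :=
  Q3L.adm_sub hT (Finset.erase_subset _ _)

theorem q4_pr (T : Finset Eis) : pr T = r3 ^ q4_ep T * pr (T.erase r3) := by
  unfold CUL.pr
  rcases q4_ep_cases T with ⟨h, e⟩ | ⟨h, e⟩
  · rw [e, pow_one, Finset.mul_prod_erase T (fun q => q) h]
  · rw [e, pow_zero, one_mul, Finset.erase_eq_of_notMem h]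

theorem q4_sum (T : Finset Eis) : ∑ p ∈ T, Q3.tt p = ∑ p ∈ T.erase r3, Q3.tt p + (q4_ep T : ZMod 2) := by
  rcases q4_ep_cases T with ⟨h, e⟩ | ⟨h, e⟩
  · rw [e, ← Finset.add_sum_erase T Q3.tt h, Q3L.tt_r3, Nat.cast_one, add_comm]
  · rw [e, Nat.cast_zero, add_zero, Finset.erase_eq_of_notMem h]

theorem q4_fQ (c : Eis) (T : Finset Eis) {g : Eis} (hg : Prim g) :
    fQ c T g = sg (Q3.tt g) ^ q4_ep T * ((sl g : ℤ) : ℂ) ^ q4_ep T * fQ c (T.erase r3) g := by
  rcases q4_ep_cases T with ⟨h, e⟩ | ⟨h, e⟩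
  · rw [e, pow_one, pow_one]
    unfold Q3L.fQ
    rw [if_pos hg, if_pos hg, ← Finset.mul_prod_erase T _ h, q1_c2_r3, Q3L.tt_r3, one_mul]
    ring
  · rw [e, pow_zero, pow_zero, one_mul, one_mul, Finset.erase_eq_of_notMem h]

theorem q4_sl_sq {z : Eis} (h : IsUnit z) : ((sl z : ℤ) : ℂ) * ((sl z : ℤ) : ℂ) = 1 := by
  rcases q2_pm_sl h with h1 | h1 <;> rw [h1] <;> norm_num

/-- the ideal character at `x = z g` -/
theorem q4_val {c : Eis} (T : Finset Eis) {x z g : Eis} (h : Dec x z g) :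
    ((sl x : ℤ) : ℂ) ^ q4_ep T * q1_val c (T.erase r3) (q4_ep T) z g = fQ c T g := by
  rw [q4_fQ c T h.2.2]
  unfold q1_val
  rw [h.1, q1_sl_mul]
  push_cast
  have h1 : ((sl z : ℤ) : ℂ) ^ q4_ep T * ((sl z : ℤ) : ℂ) ^ q4_ep T = 1 := by
    rw [← mul_pow, q4_sl_sq h.2.1, one_pow]
  rw [mul_pow]
  linear_combination (((sl g : ℤ) : ℂ) ^ q4_ep T * sg (Q3.tt g) ^ q4_ep T * fQ c (T.erase r3) g) * h1

theorem q4_qi (L : Lev) (x : Eis) : L.qi x = sl x ^ L.ep * L.q x := by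
  unfold Lev.qi
  rcases L.hep with h | h
  · rw [if_pos h, h, pow_zero, one_mul]
  · rw [if_neg (by rw [h]; decide), h, pow_one]

/-- squares modulo an odd prime -/
theorem q4_disc {p t n D : Eis} (hp : Prime p) (h2 : ¬ p ∣ 2) (h : t ^ 2 - 4 * n = D ∨ (t = 0 ∧ n = -D)) :
    (∃ y, p ∣ y ^ 2 - t * y + n) ↔ ∃ y, p ∣ y ^ 2 - D := by
  have hdom := eis_isDomain
  have hpid := eis_pid
  rcases h with h | ⟨rfl, rfl⟩
  · constructor
    · rintro ⟨y, hy⟩
      refine ⟨2 * y - t, ?_⟩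
      have e : (2 * y - t) ^ 2 - D = 4 * (y ^ 2 - t * y + n) := by
        rw [← h]
        ring
      rw [e]
      exact hy.mul_left 4
    · rintro ⟨x, hx⟩
      obtain ⟨a, b, hab⟩ : IsCoprime p 2 := (hp.irreducible.coprime_iff_not_dvd).2 h2
      refine ⟨b * (x + t), ?_⟩
      have h4 : p ∣ 4 * ((b * (x + t)) ^ 2 - t * (b * (x + t)) + n) := by
        have e1 : 2 * b = 1 - a * p := by linear_combination hab
        have e : 4 * ((b * (x + t)) ^ 2 - t * (b * (x + t)) + n) =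
            (x ^ 2 - D) + p * ((x + t) * (-2 * a * (x + t) + a ^ 2 * p * (x + t) + 2 * a * t)) := by
          rw [← h]
          linear_combination ((x + t) ^ 2 * (2 * b + (1 - a * p)) - 2 * t * (x + t)) * e1
        rw [e]
        exact dvd_add hx (Dvd.intro _ rfl)
      rcases hp.dvd_or_dvd h4 with h5 | h5
      · exfalso
        have e4 : (4 : Eis) = 2 * 2 := by norm_num
        rw [e4] at h5
        exact (hp.dvd_or_dvd h5).elim h2 h2
      · exact h5
  · constructor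
    · rintro ⟨y, hy⟩
      refine ⟨y, ?_⟩
      have e : y ^ 2 - D = y ^ 2 - 0 * y + -D := by ring
      rw [e]
      exact hy
    · rintro ⟨y, hy⟩
      refine ⟨y, ?_⟩
      have e : y ^ 2 - 0 * y + -D = y ^ 2 - D := by ring
      rw [e]
      exact hy

theorem q4_sqf {c : Eis} {T : Finset Eis} (hT : Adm c T) : Squarefree (Dd c T) := by
  have hdom := eis_isDomain
  have hpid := eis_pid
  have h1 : Squarefree (∏ p ∈ T, p) := by
    apply Finset.squarefree_prod_of_pairwise_isCoprime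
    · intro p hp q hq hpq
      have hp1 := hT.1 p hp
      have hq1 := hT.1 q hq
      exact ((hp1.1.irreducible.coprime_iff_not_dvd).2
        (Q3L.not_dvd_of_ne hp1.1 hp1.2 hq1.1 hq1.2 hpq)).isRelPrime
    · intro p hp
      exact (hT.1 p hp).1.irreducible.squarefree
  obtain ⟨hPr, -⟩ := JL.b2_tt_prod T fun p hp => (hT.1 p hp).2
  have h2 : Squarefree c := by
    rcases hT.2 with h | h | h | h
    · rw [h]
      exact squarefree_one
    · rw [h]
      exact isUnit_one.neg.squarefree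
    · rw [h]
      exact Q3.prime_two.irreducible.squarefree
    · rw [h]
      exact Q3.prime_two.neg.irreducible.squarefree
  unfold Q3.Dd
  rw [squarefree_mul_iff]
  refine ⟨?_, h2, h1⟩
  apply IsCoprime.isRelPrime
  have h3 : IsCoprime (∏ p ∈ T, p) 2 := by
    have h8 : (2 : Eis) = 2 ^ 1 := by norm_num
    rw [h8]
    exact Q3L.cop_two hPr.not_two_dvd 1
  rcases hT.2 with h | h | h | h
  · rw [h]
    exact isCoprime_one_left
  · rw [h]
    exact isCoprime_one_left.neg_left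
  · rw [h]
    exact h3.symm
  · rw [h]
    exact h3.symm.neg_left

theorem q4_la_two : ¬ la ∣ 2 := by
  rw [CUL.la_dvd_iff]
  decide

theorem q4_la {c : Eis} {T : Finset Eis} (hT : Adm c T) : la ∣ Dd c T ↔ q4_ep T = 1 := by
  have hdom := eis_isDomain
  constructor
  · intro h
    rcases q4_ep_cases T with ⟨h1, e⟩ | ⟨h1, e⟩
    · exact e
    · exfalso
      unfold Q3.Dd at h
      rcases CUL.la_prime.dvd_or_dvd h with h3 | h3
      · have hc : c ∣ 2 := by
          rcases hT.2 with h4 | h4 | h4 | h4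
          · rw [h4]
            exact one_dvd _
          · rw [h4]
            exact neg_dvd.2 (one_dvd _)
          · rw [h4]
          · rw [h4]
            exact neg_dvd.2 dvd_rfl
        exact q4_la_two (h3.trans hc)
      · obtain ⟨p, hp, hpd⟩ := CUL.la_prime.exists_mem_finset_dvd h3
        have hp1 := hT.1 p hp
        have h5 : Associated r3 p := q1_la_assoc.symm.trans ((CUL.la_prime.dvd_prime_iff_associated hp1.1).1 hpd)
        exact h1 ((Q3.prim_unique Q3.prim_r3 hp1.2 h5) ▸ hp)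
  · intro h
    rcases q4_ep_cases T with ⟨h1, -⟩ | ⟨-, e⟩
    · have h2 : r3 ∣ Dd c T := by
        unfold Q3.Dd
        exact (Finset.dvd_prod_of_mem (fun p => p) h1).mul_left _
      exact (q1_la_assoc.dvd).trans h2
    · rw [e] at h
      exact absurd h (by decide)

theorem q4_la_erase {c : Eis} {T : Finset Eis} (hT : Adm c T) : ¬ la ∣ pr (T.erase r3) := by
  intro h
  have h1 := (q4_la (q4_adm hT)).1 (h.mul_left c)
  rcases q4_ep_cases (T.erase r3) with ⟨h2, -⟩ | ⟨-, e⟩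
  · exact absurd h2 (Finset.notMem_erase _ _)
  · rw [e] at h1
    exact absurd h1 (by decide)

/-- the structure -/
theorem q4_main {c : Eis} {T : Finset Eis} (hT : Adm c T) (hns : ¬ IsSquare (Dd c T)) {f : Eis} {F : Eis → ℂ}
    (hQ : QC c (T.erase r3) f (q4_ep T) F) (hf0 : f ≠ 0) (hfu : ¬ IsUnit f) (hfl : ¬ la ∣ f) {t n : Eis}
    (hring : t ^ 2 - 4 * n = Dd c T ∨ (t = 0 ∧ n = -Dd c T ∧ ∀ m : Eis, ¬ (4 : Eis) ∣ Dd c T - m ^ 2))
    (hdisc : (t ^ 2 - 4 * n).norm = f.norm * 3 ^ q4_ep T)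
    (hram : ∀ p : Eis, Prime p → (p ∣ t ^ 2 - 4 * n ↔ p ∣ f ∨ (q4_ep T = 1 ∧ p ∣ la)))
    (hsp : ∀ p : Eis, Prime p → p ∣ 2 → ¬ p ∣ t ^ 2 - 4 * n →
      (((sl p : ℤ) : ℂ) ^ q4_ep T * F p = 1 ↔ ∃ y : Eis, p ∣ y ^ 2 - t * y + n)) : Nonempty (QD (Dd c T)) := by
  have hdom := eis_isDomain
  obtain ⟨u, hu, huf⟩ := CUL.l6_prim hfl
  have hep : q4_ep T = 0 ∨ q4_ep T = 1 := by
    rcases q4_ep_cases T with ⟨-, e⟩ | ⟨-, e⟩
    · exact Or.inr e
    · exact Or.inl e
  have hass : Associated f (u * f) := by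
    obtain ⟨v, rfl⟩ := hu
    exact ⟨v, mul_comm _ _⟩
  obtain ⟨L, hLf, hLe, hLk, hLq, hLc⟩ := q1_lev (q1_QC_unit hQ hu) huf (fun h => hfu (hass.isUnit_iff.2 h))
    (mul_ne_zero hu.ne_zero hf0) hep
  have hQ' := q1_QC_unit hQ hu
  have hqi : ∀ x z g : Eis, Dec x z g → ((L.qi x : ℤ) : ℂ) = fQ c T g := by
    intro x z g hd
    rw [q4_qi, Int.cast_mul, Int.cast_pow, hLq, hLe, hQ'.odd x z g hd, q4_val T hd]
  refine ⟨⟨L, t, n, q4_sqf hT, hns, hLc, hLk, ?_, ?_, ?_, hring, ?_, ?_, ?_⟩⟩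
  · intro p m hp hpm
    rw [hLf] at hpm ⊢
    obtain ⟨y, h1, h2, h3⟩ := hQ'.prim p m hp hpm
    refine ⟨y, h1, h2, ?_⟩
    have h4 := hLq y
    rw [h3] at h4
    exact_mod_cast h4
  · intro s hs
    refine ⟨8 * pr T, mul_ne_zero (by decide) (Q3L.pr_ne hT), ?_⟩
    intro σ hσ M g hM hd h
    have hodd : ¬ (2 : Eis) ∣ g := by
      intro h2
      have h3 : (2 : Eis) ∣ M := (Dvd.intro (4 * pr T) (by ring)).trans hd
      exact Q3.prime_two.not_isUnit (h.2.1.isUnit_of_dvd' h2 h3)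
    obtain ⟨z, g', hdec⟩ := Q3L.exists_dec hodd
    have h1 := Q3L.gal_sqrt hσ hM h hdec hT hd hs
    have h2 := hqi g z g' hdec
    rw [q4_qi, q1_sl_primary h.1, one_pow, one_mul] at h2
    rw [h1, ← h2]
  · rw [hLe]
    exact q4_la hT
  · rw [hLe, hLf, map_mul, (eis_isUnit_iff u).1 hu, one_mul]
    exact hdisc
  · intro p hp
    rw [hLe, hLf, ← hass.dvd_iff_dvd_right]
    exact hram p hp
  · intro p hp hpd
    by_cases h2 : p ∣ 2
    · have h1 : ((L.qi p : ℤ) : ℂ) = ((sl p : ℤ) : ℂ) ^ q4_ep T * F p := by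
        rw [q4_qi, Int.cast_mul, Int.cast_pow, hLq, hLe]
      rw [← hsp p hp h2 hpd, ← h1]
      exact Int.cast_eq_one.symm
    · have hodd : ¬ (2 : Eis) ∣ p := by
        intro h
        exact h2 ((Q3.prime_two.dvd_prime_iff_associated hp).1 h).symm.dvd
      obtain ⟨z, g, hd⟩ := Q3L.exists_dec hodd
      have hassg : Associated g p := by
        obtain ⟨v, hv⟩ := hd.2.1
        exact ⟨v, by rw [hd.1, hv, mul_comm]⟩
      have hg : Prime g := hassg.symm.prime hp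
      have h1 := hqi p z g hd
      rw [Q3L.fQ_prime hT hg hd.2.2] at h1
      have hring' : t ^ 2 - 4 * n = Dd c T ∨ (t = 0 ∧ n = -Dd c T) := by
        rcases hring with h | ⟨h, h', -⟩
        · exact Or.inl h
        · exact Or.inr ⟨h, h'⟩
      have hgd : ¬ g ∣ Dd c T := by
        intro h
        apply hpd
        have h5 : p ∣ Dd c T := (hassg.dvd_iff_dvd_left).1 h
        rcases hring' with h6 | ⟨h6, h7⟩
        · rw [h6]
          exact h5
        · rw [h6, h7]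
          have e : (0 : Eis) ^ 2 - 4 * -Dd c T = 4 * Dd c T := by ring
          rw [e]
          exact h5.mul_left 4
      rw [Q3L.c2_unit hgd] at h1
      rw [q4_disc hp h2 hring']
      have h8 : Q3.sy (Dd c T) g = 0 ↔ ∃ y : Eis, p ∣ y ^ 2 - Dd c T := by
        rw [Q3.sy_eq_zero_iff]
        constructor
        · rintro ⟨y, hy⟩
          exact ⟨y, (hassg.dvd_iff_dvd_left).1 hy⟩
        · rintro ⟨y, hy⟩
          exact ⟨y, (hassg.dvd_iff_dvd_left).2 hy⟩
      rw [← h8]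
      constructor
      · intro h9
        rw [h9, Int.cast_one] at h1
        apply Q3L.sg_inj
        rw [← h1, Q3L.sg_zero]
      · intro h9
        rw [h9, Q3L.sg_zero] at h1
        exact_mod_cast h1

end JGL
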