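import Pool.Agent.JGL.Defs
import Pool.Agent.JL.A1
import Pool.Agent.JX.P1a
import Pool.Agent.JX.P1b

/-!
# [JGL-Ta] the orientation
-/

set_option autoImplicit false

open NumberField IsDedekindDomain Filter Topology
open scoped Classical ComplexConjugate

namespace JGL

open CM27 JZ
open CU (la eE)
open CUL (Nl ez si ta DS Cont LV IsRep rp cr mn mo zw OT GalU W3 W9)
open JL (N1 KD sD Psi6)

theorem Ta_w2 : w ^ 2 = -1 - w := by
  have h : (1 - w) * (1 + w + w ^ 2) = 0 := by linear_combination -(a1_w3)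
  have hne : (1 - w : ℂ) ≠ 0 := by
    have := CUL.la_ne
    rwa [CUL.emb_la] at this
  have := (mul_eq_zero.1 h).resolve_left hne
  linear_combination this

theorem Ta_notMem (r : ℝ) (h0 : 0 < r) (h2 : r ≤ 2) : (r : ℂ) * ta ∉ Set.range emb := by
  rintro ⟨a, ha⟩
  have h1 : emb (a * la) = (r : ℂ) := by
    rw [map_mul, ha]
    unfold CUL.ta
    rw [mul_assoc, one_div, inv_mul_cancel₀ CUL.la_ne, mul_one]
  obtain ⟨c, hc⟩ : ∃ c : Eis, c = a * la := ⟨_, rfl⟩
  rw [← hc, emb_apply] at h1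
  have him : (c.im : ℝ) * (√3 / 2) = 0 := by
    have h3 := congrArg Complex.im h1
    simpa [w_im] using h3
  have hs3 : (√3 / 2 : ℝ) ≠ 0 := by positivity
  have him' : c.im = 0 := by
    have := (mul_eq_zero.1 him).resolve_right hs3
    exact_mod_cast this
  have hre : (c.re : ℝ) = r := by
    have h3 := congrArg Complex.re h1
    rw [him'] at h3
    simpa using h3
  have hcr : 0 < c.re ∧ c.re ≤ 2 := by
    constructor
    · have : (0 : ℝ) < c.re := by rw [hre]; exact h0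
      exact_mod_cast this
    · have : (c.re : ℝ) ≤ 2 := by rw [hre]; exact h2
      exact_mod_cast this
  have hn : c.norm = a.norm * 3 := by
    rw [hc, map_mul]
    rfl
  have hn2 : c.norm = c.re ^ 2 := by
    rw [QuadraticAlgebra.norm_def, him']
    ring
  rw [hn2] at hn
  have h3 : c.re = 1 ∨ c.re = 2 := by omega
  rcases h3 with h3 | h3
  · rw [h3] at hn
    omega
  · rw [h3] at hn
    omega

theorem Ta_conj_ta : conj ta = -(w * ta) := by
  unfold CUL.ta
  rw [map_div₀, map_one, CUL.emb_la, map_sub, map_one, CUL.conj_w]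
  have h1 : (1 - w : ℂ) ≠ 0 := by
    have := CUL.la_ne
    rwa [CUL.emb_la] at this
  have h2 : (1 - w ^ 2 : ℂ) ≠ 0 := by
    have e : (1 - w ^ 2 : ℂ) = (1 - w) * (1 + w) := by ring
    rw [e]
    refine mul_ne_zero h1 ?_
    intro h
    have h3 : w ^ 2 = 0 := by rw [Ta_w2]; linear_combination -h
    have h4 : w = 0 := pow_eq_zero_iff two_ne_zero |>.1 h3
    rw [h4] at h
    norm_num at h
  field_simp
  linear_combination -(a1_w3)

theorem Ta_real (s : ℝ) : conj (yw ((s : ℂ) * ta)) = yw ((s : ℂ) * ta) := by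
  have h1 := yw_conj ((s : ℂ) * ta)
  rw [map_mul, Complex.conj_ofReal, Ta_conj_ta] at h1
  have h2 : (s : ℂ) * -(w * ta) = -(w * ((s : ℂ) * ta)) := by ring
  rw [h2, yw_neg, yw_w] at h1
  exact (neg_inj.1 h1).symm

theorem Ta_th : w - w ^ 2 = Complex.I * (√3 : ℝ) := by
  rw [← CUL.conj_w]
  apply Complex.ext
  · simp
  · simp [w_im]

theorem Ta_lim : Tendsto (fun s : ℝ => s ^ 3 * (yw ((s : ℂ) * ta)).re) (𝓝[>] 0) (𝓝 (-6 * √3 / Om ^ 3)) := by
  have hta : ta ≠ 0 := by
    unfold CUL.ta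
    exact one_div_ne_zero CUL.la_ne
  have hO : (Om : ℂ) ≠ 0 := by exact_mod_cast Om_pos.ne'
  have hlim : Tendsto (fun s : ℝ => (s : ℂ) * ta) (𝓝[>] 0) (𝓝[≠] 0) := by
    rw [tendsto_nhdsWithin_iff]
    constructor
    · have hc : Continuous fun s : ℝ => (s : ℂ) * ta := by fun_prop
      have h1 := hc.tendsto (0 : ℝ)
      rw [Complex.ofReal_zero, zero_mul] at h1
      exact h1.mono_left nhdsWithin_le_nhds
    · filter_upwards [self_mem_nhdsWithin] with s hs
      have hs' : (0 : ℝ) < s := hs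
      exact mul_ne_zero (by exact_mod_cast hs'.ne') hta
  have h1 := a2_cube_P'.comp hlim
  have h2 : Tendsto (fun s : ℝ => (-3 * (w - w ^ 2) / OmC ^ 3) *
      (((s : ℂ) * ta) ^ 3 * L0.derivWeierstrassP ((s : ℂ) * ta))) (𝓝[>] 0)
      (𝓝 ((-3 * (w - w ^ 2) / OmC ^ 3) * (-2))) := h1.const_mul _
  have h3 : (-3 * (w - w ^ 2) / OmC ^ 3) * (-2) = ((-6 * √3 / Om ^ 3 : ℝ) : ℂ) := by
    rw [Ta_th]
    unfold OmC
    have hI : Complex.I ^ 3 = -Complex.I := Complex.I_pow_three
    rw [mul_pow, hI]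
    push_cast
    have hI0 : Complex.I ≠ 0 := Complex.I_ne_zero
    field_simp
    ring
  rw [h3] at h2
  have h4 := (Complex.continuous_re.tendsto _).comp h2
  rw [Complex.ofReal_re] at h4
  refine h4.congr' ?_
  filter_upwards [self_mem_nhdsWithin] with s hs
  have e : (-3 * (w - w ^ 2) / OmC ^ 3) * (((s : ℂ) * ta) ^ 3 * L0.derivWeierstrassP ((s : ℂ) * ta)) =
      ((s ^ 3 : ℝ) : ℂ) * yw ((s : ℂ) * ta) := by
    have hc : ta ^ 3 * (-3 * (w - w ^ 2)) = 1 := by
      unfold CUL.ta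
      rw [← CUL.la_cube, div_pow, one_pow, one_div, inv_mul_cancel₀ (pow_ne_zero _ CUL.la_ne)]
    unfold yw
    push_cast
    linear_combination (s ^ 3 * L0.derivWeierstrassP ((s : ℂ) * ta) / OmC ^ 3) * hc
  show ((-3 * (w - w ^ 2) / OmC ^ 3) * (((s : ℂ) * ta) ^ 3 * L0.derivWeierstrassP ((s : ℂ) * ta))).re = _
  rw [e, Complex.re_ofReal_mul]

/-- the orientation -/
theorem yw_ta : yw ta = -1 := by
  have hsq : yw ta ^ 2 = 1 := CUL.yw_ta_sq
  have hfac : (yw ta - 1) * (yw ta + 1) = 0 := by linear_combination hsq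
  rcases mul_eq_zero.1 hfac with h | h
  · exfalso
    have h1 : yw ta = 1 := by linear_combination h
    have hneg : (-6 * √3 / Om ^ 3 : ℝ) < 0 := by
      have hO := Om_pos
      have : (0 : ℝ) < 6 * √3 / Om ^ 3 := by positivity
      have e : (-6 * √3 / Om ^ 3 : ℝ) = -(6 * √3 / Om ^ 3) := by ring
      rw [e]
      linarith
    have hev := Ta_lim.eventually (Iio_mem_nhds hneg)
    have hev2 : ∀ᶠ s : ℝ in 𝓝[>] 0, s < 1 := by
      have : ∀ᶠ s : ℝ in 𝓝 (0 : ℝ), s < 1 := Iio_mem_nhds one_pos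
      exact this.filter_mono nhdsWithin_le_nhds
    have hev3 : ∀ᶠ s : ℝ in 𝓝[>] 0, 0 < s := self_mem_nhdsWithin
    obtain ⟨δ, ⟨hδ1, hδ2⟩, hδ0⟩ := ((hev.and hev2).and hev3).exists
    have hδg : (yw ((δ : ℂ) * ta)).re < 0 := by
      have h3 : δ ^ 3 * (yw ((δ : ℂ) * ta)).re < 0 := hδ1
      by_contra hcon
      push Not at hcon
      have := mul_nonneg (pow_nonneg hδ0.le 3) hcon
      linarith
    have hcont : ContinuousOn (fun s : ℝ => (yw ((s : ℂ) * ta)).re) (Set.Icc δ 1) := by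
      intro s hs
      refine ContinuousAt.continuousWithinAt ?_
      have hs0 : 0 < s := lt_of_lt_of_le hδ0 hs.1
      have h3 := (yw_deriv ((s : ℂ) * ta) (Ta_notMem s hs0 (by linarith [hs.2]))).continuousAt
      have h4 : ContinuousAt (fun s : ℝ => (s : ℂ) * ta) s := by fun_prop
      have h5 : ContinuousAt (yw ∘ fun s : ℝ => (s : ℂ) * ta) s := ContinuousAt.comp (f := fun s : ℝ => (s : ℂ) * ta) h3 h4
      exact Complex.continuous_re.continuousAt.comp h5
    have himg := intermediate_value_Icc hδ2.le hcont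
    have h0 : (0 : ℝ) ∈ Set.Icc ((yw ((δ : ℂ) * ta)).re) ((yw (((1 : ℝ) : ℂ) * ta)).re) := by
      refine ⟨hδg.le, ?_⟩
      rw [Complex.ofReal_one, one_mul, h1, Complex.one_re]
      exact zero_le_one
    obtain ⟨s, hs, hs0⟩ := himg h0
    have hspos : 0 < s := lt_of_lt_of_le hδ0 hs.1
    have hs0' : (yw ((s : ℂ) * ta)).re = 0 := hs0
    have hreal := Complex.conj_eq_iff_re.1 (Ta_real s)
    rw [hs0', Complex.ofReal_zero] at hreal
    have hmem := (yw_eq_zero_iff _ (Ta_notMem s hspos (by linarith [hs.2]))).1 hreal.symm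
    have e : 2 * ((s : ℂ) * ta) = ((2 * s : ℝ) : ℂ) * ta := by
      push_cast
      ring
    rw [e] at hmem
    exact Ta_notMem (2 * s) (by linarith) (by linarith [hs.2]) hmem
  · linear_combination h

end JGL
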