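import Pool.Agent.JGL.B
import Pool.Agent.JGL.T
import Pool.Agent.JL.G3
import Pool.Agent.CUL.Z

/-!
# [JGL-U1] the Galois action on the elliptic units
-/

set_option autoImplicit false

open NumberField IsDedekindDomain Filter Topology
open scoped Classical ComplexConjugate

namespace JGL

open CM27 JZ
open CU (la eE)
open CUL (Nl ez si ta DS Cont LV IsRep rp cr mn mo zw OT GalU W3 W9)
open JL (N1 KD sD Psi6)

variable {D₁ : Eis}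

theorem u1_s_ne (h : ¬ IsSquare D₁) : sD D₁ ≠ 0 := by
  intro h0
  have h1 := JL.sD_sq D₁
  rw [h0] at h1
  by_cases hD : D₁ = 0
  · exact h ⟨0, by rw [hD, mul_zero]⟩
  · exact CUL.l2_emb_ne hD (by rw [← h1]; ring)

theorem u1_gal (Q : QD D₁) {T : Finset Eis} {L : Lev} (ov : Over Q.L T L) : GalS L (sD D₁) := by
  obtain ⟨M₀, h0, h1⟩ := Q.gal (sD D₁) (JL.sD_sq D₁)
  have hdom := eis_isDomain
  refine ⟨M₀ * L.f, mul_ne_zero h0 (f_ne L), fun σ hσ M g hM hd hG => ?_⟩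
  have h2 := h1 σ hσ M g hM (dvd_of_mul_right_dvd hd) hG
  have h3 : IsCoprime g L.f := (hG.dvd hM (M' := L.f) (dvd_of_mul_left_dvd hd)).2.1
  show σ (sD D₁) = (L.q g : ℂ) * sD D₁
  rw [ov.hq g h3]
  exact h2

theorem u1_ee_ne {L : Lev} {R : Finset Eis} (hR : IsR L R) : ee L R ≠ 0 :=
  Finset.prod_ne_zero_iff.2 fun c hc => zpow_ne_zero _ (CUL.u7_ne (OT_pt L (hR.1 c hc)))

theorem u1_Um_ne {L : Lev} {c : Eis} (hc : IsCoprime c L.f) : Um (pt L c) ≠ 0 := by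
  obtain ⟨A, hA⟩ := CUL.exists_A
  intro h0
  have h1 := Um_val A hA (OT_pt L hc)
  rw [h0, zero_sub, Valuation.map_neg, map_one] at h1
  exact lt_irrefl _ h1

theorem u1_eo_ne {L : Lev} {R : Finset Eis} (hR : IsR L R) : eo L R ≠ 0 :=
  Finset.prod_ne_zero_iff.2 fun c hc => zpow_ne_zero _ (u1_Um_ne (hR.1 c hc))

/-- the action of an automorphism on the points of order `f` -/
theorem u1_pt {L : Lev} {σ : ℂ ≃+* ℂ} {M g : Eis} (hM : M ≠ 0) (hd : L.f ∣ M) (hG : GalU σ M g) (c : Eis) :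
    σ (xw (pt L c)) = xw (pt L (g * c)) ∧ σ (yw (pt L c)) = yw (pt L (g * c)) :=
  (hG.dvd hM (M' := L.f) hd).2.2 c

theorem u1_Um {L : Lev} {σ : ℂ ≃+* ℂ} (hσ : σ w = w) {M g : Eis} (hM : M ≠ 0) (hd : L.f ∣ M) (hG : GalU σ M g) (c : Eis) :
    σ (Um (pt L c)) = Um (pt L (g * c)) := by
  have h1 := (u1_pt hM hd hG c).2
  have hth : σ th = th := by rw [th, map_sub, map_pow, hσ]
  rw [Um, Um, ym, ym, map_div₀, map_add, map_sub, map_neg, hth, h1]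

theorem u1_q {L : Lev} {g : Eis} (hg : L.q g = 1 ∨ L.q g = -1) {c c' ζ : Eis} (hd : L.f ∣ g * c - ζ * c') :
    L.q c = L.q ζ * L.q c' * L.q g := by
  have h1 := L.q_per _ _ hd
  rw [L.q_mul, L.q_mul] at h1
  rw [← h1]
  rcases hg with h2 | h2 <;> rw [h2] <;> ring

/-- the common part -/
theorem u1_main {L : Lev} {R : Finset Eis} (hR : IsR L R) {s : ℂ} (hs0 : s ≠ 0) (hs : GalS L s) (F : Eis → ℂ)
    (hF0 : ∀ c ∈ R, F c ≠ 0)
    (hF : ∀ σ : ℂ ≃+* ℂ, σ w = w → ∀ M g : Eis, M ≠ 0 → L.f ∣ M → GalU σ M g → IsCoprime g L.f →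
      ∀ φ : Eis → Eis, (∀ c ∈ R, φ c ∈ R ∧ ∃ ζ, IsUnit ζ ∧ L.f ∣ g * c - ζ * φ c) →
      σ (∏ c ∈ R, F c ^ L.q c) = ∏ c ∈ R, F (φ c) ^ (L.q (φ c) * L.q g)) :
    N1 s (∏ c ∈ R, F c ^ L.q c) := by
  have hdom := eis_isDomain
  obtain ⟨M₀, h0, h1⟩ := hs
  have hM : M₀ * L.f ≠ 0 := mul_ne_zero h0 (f_ne L)
  refine JL.n1_of_gal hs0 (Finset.prod_ne_zero_iff.2 fun c hc => zpow_ne_zero _ (hF0 c hc)) fun σ hσ => ?_
  obtain ⟨g, hg⟩ := CUL.exists_galU σ hσ (M₀ * L.f) hM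
  have hgc : IsCoprime g L.f := (hg.dvd hM (M' := L.f) (dvd_mul_left _ _)).2.1
  refine ⟨L.q g, L.q_pm g hgc, h1 σ hσ _ g hM (dvd_mul_right _ _) hg, ?_⟩
  obtain ⟨φ, hφ, hprod, -⟩ := perm_R L hR hgc
  rw [hF σ hσ _ g hM (dvd_mul_left _ _) hg hgc φ hφ, hprod (fun c => F c ^ (L.q c * L.q g)), ← Finset.prod_zpow]
  refine Finset.prod_congr rfl fun c _ => ?_
  rw [zpow_mul]

theorem u1_even {L : Lev} (h : L.ep = 0) {R : Finset Eis} (hR : IsR L R) {s : ℂ} (hs0 : s ≠ 0) (hs : GalS L s) (N : ℕ)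
    (hN : ∀ (g : Eis), IsCoprime g L.f → ∃ μ : ℂ, μ ≠ 0 ∧ ∀ c ∈ R, ∀ c' ∈ R, ∀ ζ, IsUnit ζ →
      L.f ∣ g * c - ζ * c' → xw (pt L (ζ * c')) ^ N = μ * xw (pt L c') ^ N) : N1 s (ee L R ^ N) := by
  have e1 : ee L R ^ N = ∏ c ∈ R, (xw (pt L c) ^ N) ^ L.q c := by
    rw [ee, ← Finset.prod_pow]
    refine Finset.prod_congr rfl fun c _ => ?_
    rw [← zpow_natCast, ← zpow_natCast, ← zpow_mul, ← zpow_mul, mul_comm]
  rw [e1]
  refine u1_main hR hs0 hs (fun c => xw (pt L c) ^ N)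
    (fun c hc => pow_ne_zero _ (CUL.u7_ne (OT_pt L (hR.1 c hc)))) fun σ hσ M g hM hd hG hgc φ hφ => ?_
  obtain ⟨μ, hμ0, hμ⟩ := hN g hgc
  have e2 : ∀ c ∈ R, σ ((xw (pt L c) ^ N) ^ L.q c) =
      μ ^ L.q c * (xw (pt L (φ c)) ^ N) ^ (L.q (φ c) * L.q g) := by
    intro c hc
    obtain ⟨h2, ζ, hζ, hd2⟩ := hφ c hc
    have h3 : L.q c = L.q (φ c) * L.q g := by
      rw [u1_q (L.q_pm g hgc) hd2, q_unit_even L h hζ, one_mul]
    rw [map_zpow₀, map_pow, (u1_pt hM hd hG c).1, (pt_congr_xw L hd2).1, hμ c hc (φ c) h2 ζ hζ hd2, mul_zpow]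
    rw [← h3]
  have e3 : ∏ c ∈ R, μ ^ L.q c = 1 := by
    have h3 : ∀ S : Finset Eis, ∏ c ∈ S, μ ^ L.q c = μ ^ ∑ c ∈ S, L.q c := by
      intro S
      induction S using Finset.induction_on with
      | empty => simp
      | insert a S ha ih => rw [Finset.prod_insert ha, Finset.sum_insert ha, ih, zpow_add₀ hμ0]
    rw [h3, sum_R_q L h hR, zpow_zero]
  rw [map_prod, Finset.prod_congr rfl e2, Finset.prod_mul_distrib, e3, one_mul]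

theorem u1_ee3 {L : Lev} (h : L.ep = 0) {R : Finset Eis} (hR : IsR L R) {s : ℂ} (hs0 : s ≠ 0) (hs : GalS L s) :
    N1 s (ee L R ^ 3) := by
  refine u1_even h hR hs0 hs 3 fun g _ => ⟨1, one_ne_zero, fun c _ c' _ ζ hζ _ => ?_⟩
  obtain ⟨s', t, -, -, -, ht⟩ := unit_act L hζ
  have h1 : zw t ^ 3 = 1 := by
    rw [CUL.zw_pow]
    have h2 : ((3 : ℕ) : ZMod 3) = 0 := by decide
    rw [h2, zero_mul, CUL.zw_zero]
  rw [(ht c').1, mul_pow, h1]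

theorem u1_ee {L : Lev} (h : L.ep = 0) {R : Finset Eis} (hR : IsR L R) {s : ℂ} (hs0 : s ≠ 0) (hs : GalS L s)
    (hk : L.k ≠ 0) : N1 s (ee L R) := by
  have h1 := u1_even h hR hs0 hs 1 ?_
  · rwa [pow_one] at h1
  intro g hg
  obtain ⟨l, hl⟩ := L.c_cube g hg
  refine ⟨zw (l * L.k), CUL.zw_ne _, fun c hc c' hc' ζ hζ hd => ?_⟩
  obtain ⟨s', t, -, -, ht1, ht⟩ := unit_act L hζ
  rw [pow_one, pow_one, (ht c').1]
  congr 1
  have h2 := L.c_per _ _ hd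
  rw [L.c_mul, L.c_mul, hR.2.2 hk c hc, hR.2.2 hk c' hc', mul_one, mul_one, ht1, hl] at h2
  have h3 := CUL.zw_inj h2
  have h4 : L.k * L.k = 1 := by
    revert hk
    generalize L.k = k
    revert k
    decide
  rw [h3, mul_assoc, h4, mul_one]

/-- `U(-z) = U(z)⁻¹` -/
theorem u1_Um_s {L : Lev} {ζ x : Eis} {s : ℤ} (hs : s = 1 ∨ s = -1)
    (hy : yw (pt L (ζ * x)) = (s : ℂ) * yw (pt L x)) : Um (pt L (ζ * x)) = Um (pt L x) ^ s := by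
  rcases hs with rfl | rfl
  · rw [zpow_one, Um, Um, ym, ym, hy, Int.cast_one, one_mul]
  · rw [zpow_neg_one, Um, Um, ym, ym, hy, inv_div]
    push_cast
    rw [neg_one_mul, neg_neg, sub_neg_eq_add, sub_eq_add_neg]

theorem u1_eo {L : Lev} (h : L.ep = 1) {R : Finset Eis} (hR : IsR L R) {s : ℂ} (hs0 : s ≠ 0) (hs : GalS L s) :
    N1 s (eo L R) := by
  rw [eo]
  refine u1_main hR hs0 hs (fun c => Um (pt L c)) (fun c hc => u1_Um_ne (hR.1 c hc))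
    fun σ hσ M g hM hd hG hgc φ hφ => ?_
  rw [map_prod]
  refine Finset.prod_congr rfl fun c hc => ?_
  obtain ⟨h2, ζ, hζ, hd2⟩ := hφ c hc
  obtain ⟨s', t, hs', hq, -, ht⟩ := unit_act L hζ
  have h3 : L.q c = s' * (L.q (φ c) * L.q g) := by
    rw [u1_q (L.q_pm g hgc) hd2, hq, h, pow_one, mul_assoc]
  have h4 : Um (pt L (g * c)) = Um (pt L (ζ * φ c)) := by
    rw [Um, Um, ym, ym, (pt_congr_xw L hd2).2]
  have h5 : s' * (s' * (L.q (φ c) * L.q g)) = L.q (φ c) * L.q g := by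
    rcases hs' with rfl | rfl <;> ring
  rw [map_zpow₀, u1_Um hσ hM hd hG c, h4, u1_Um_s hs' (ht (φ c)).2, ← zpow_mul, h3, h5]

end JGL
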