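import Pool.Agent.JGL.U0
import Pool.Agent.JL.I4

/-!
# [JGL-U3] elements of relative norm one which are units outside of the ramified and inert primes

`w` a prime of `F`, `q` the prime of `ℤ[ω]` below, `τ` the conjugation. If `τ w = w` then an element of relative norm one is a unit at `w` (`JL.I4_val`).
Otherwise there is `e` with `e ≡ 1 mod w`, `τ e ∈ w`, so every integer `x` of `F` is congruent to the trace `e x + τ(e x)`, an element of `ℤ[ω]`; for `x = ρ` this gives `a` with `q ∣ a² - t a + n`.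
If `q ∣ t² - 4 n` then `q ∣ 2 a - t` and `τ ρ ≡ ρ mod w`, so `τ y ≡ y mod w` for all integers `y`, contradiction. So `q` is unramified and `qi q = 1` (`QD.split`); it does not divide `L.f`, because `qi p = -1` for `p ∈ T`.
-/

set_option autoImplicit false

open NumberField IsDedekindDomain Filter Topology
open scoped Classical ComplexConjugate

namespace JGL

open CM27 JZ
open CU (la eE)
open CUL (Nl ez si ta DS Cont LV IsRep rp cr mn mo zw OT GalU W3 W9)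
open JL (N1 KD sD Psi6 I4_phi I4_ext I4_phi_coe)

variable {D₁ : Eis}

theorem u3_KK (a : Eis) : emb a ∈ CF.KK := JL.F0_emb_mem a

/-- an integer of `F` fixed by the conjugation is in `ℤ[ω]` -/
theorem u3_fixed (h : ¬ IsSquare D₁) (τ : KD D₁ ≃+* KD D₁)
    (hτ : ∀ (u₁ u₂ : ℂ), u₁ ∈ CF.KK → u₂ ∈ CF.KK →
      ∀ x : KD D₁, (x : ℂ) = u₁ + u₂ * sD D₁ → ((τ x : KD D₁) : ℂ) = u₁ - u₂ * sD D₁)
    (y : 𝓞 (KD D₁)) (hy : RingOfIntegers.mapRingEquiv τ y = y) : ∃ a : Eis, y = I4_phi D₁ a := by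
  obtain ⟨u₁, u₂, h1, h2, h3⟩ := (JL.mem_KD _).mp (y : KD D₁).2
  have h4 := hτ u₁ u₂ h1 h2 (y : KD D₁) h3
  have h5 : ((τ (y : KD D₁) : KD D₁) : ℂ) = ((y : KD D₁) : ℂ) := by
    have h6 := congrArg (fun t : 𝓞 (KD D₁) => ((t : KD D₁) : ℂ)) hy
    simp only [RingOfIntegers.mapRingEquiv_apply] at h6
    exact h6
  rw [h4, h3] at h5
  have h6 : u₁ + (-u₂) * sD D₁ = u₁ + u₂ * sD D₁ := by rw [← h5]; ring
  obtain ⟨-, h7⟩ := u0_rep h h1 (neg_mem h2) h1 h2 h6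
  have h8 : u₂ = 0 := by
    have h9 : (2 : ℂ) * u₂ = 0 := by linear_combination -h7
    exact (mul_eq_zero.1 h9).resolve_left two_ne_zero
  have h9 : ((y : KD D₁) : ℂ) = u₁ := by rw [h3, h8]; ring
  have h10 : IsIntegral ℤ u₁ := by
    rw [← h9]
    exact (JL.I4_int (y : KD D₁).2).mp y.2
  obtain ⟨a, ha⟩ := JL.KK_int h1 h10
  refine ⟨a, I4_ext ?_⟩
  rw [h9, I4_phi_coe, ha]

/-- if `w` is not stable, every integer is congruent to an element of `ℤ[ω]` -/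
theorem u3_trace (h : ¬ IsSquare D₁) (τ : KD D₁ ≃+* KD D₁) (hττ : ∀ x, τ (τ x) = x)
    (hτ : ∀ (u₁ u₂ : ℂ), u₁ ∈ CF.KK → u₂ ∈ CF.KK →
      ∀ x : KD D₁, (x : ℂ) = u₁ + u₂ * sD D₁ → ((τ x : KD D₁) : ℂ) = u₁ - u₂ * sD D₁)
    (w : HeightOneSpectrum (𝓞 (KD D₁))) {y₀ : 𝓞 (KD D₁)} (hy₀ : y₀ ∈ w.asIdeal)
    (hy₁ : RingOfIntegers.mapRingEquiv τ y₀ ∉ w.asIdeal) (x : 𝓞 (KD D₁)) :
    ∃ a : Eis, x - I4_phi D₁ a ∈ w.asIdeal := by
  obtain ⟨T, hT⟩ : ∃ T : 𝓞 (KD D₁) ≃+* 𝓞 (KD D₁), T = RingOfIntegers.mapRingEquiv τ := ⟨_, rfl⟩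
  have hTT : ∀ y, T (T y) = y := by
    intro y
    apply RingOfIntegers.ext
    rw [hT, RingOfIntegers.mapRingEquiv_apply, RingOfIntegers.mapRingEquiv_apply, hττ]
  rw [← hT] at hy₁
  obtain ⟨c, hc⟩ : ∃ c, c * T y₀ - 1 ∈ w.asIdeal := by
    have hmax : w.asIdeal.IsMaximal := w.isMaximal
    obtain ⟨c, i, hi, hci⟩ := hmax.exists_inv hy₁
    refine ⟨c, ?_⟩
    have h1 : c * T y₀ - 1 = -i := by rw [← hci]; ring
    rw [h1]
    exact neg_mem hi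
  set e := c * T y₀ with he
  have hTe : T e ∈ w.asIdeal := by
    rw [he, map_mul, hTT]
    exact Ideal.mul_mem_left _ _ hy₀
  obtain ⟨a, ha⟩ := u3_fixed h τ hτ (e * x + T (e * x)) (by
    rw [← hT, map_add, hTT, add_comm])
  refine ⟨a, ?_⟩
  rw [← ha]
  have h2 : x - (e * x + T (e * x)) = -((e - 1) * x) - T e * T x := by
    rw [map_mul]; ring
  rw [h2]
  exact sub_mem (neg_mem (Ideal.mul_mem_right _ _ hc)) (Ideal.mul_mem_right _ _ hTe)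

/-- the prime below a prime which is not stable -/
theorem u3_split (Q : QD D₁) (τ : KD D₁ ≃+* KD D₁) (hττ : ∀ x, τ (τ x) = x)
    (hτ : ∀ (u₁ u₂ : ℂ), u₁ ∈ CF.KK → u₂ ∈ CF.KK →
      ∀ x : KD D₁, (x : ℂ) = u₁ + u₂ * sD D₁ → ((τ x : KD D₁) : ℂ) = u₁ - u₂ * sD D₁)
    (w : HeightOneSpectrum (𝓞 (KD D₁))) {y₀ : 𝓞 (KD D₁)} (hy₀ : y₀ ∈ w.asIdeal)
    (hy₁ : RingOfIntegers.mapRingEquiv τ y₀ ∉ w.asIdeal) {q : Eis} (hq : Prime q)
    (hqm : ∀ a : Eis, I4_phi D₁ a ∈ w.asIdeal ↔ q ∣ a) :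
    ¬ q ∣ Q.t ^ 2 - 4 * Q.n ∧ ∃ a : Eis, q ∣ a ^ 2 - Q.t * a + Q.n := by
  obtain ⟨ρ, δ, hδ, hρi, hρ, hρq, hint⟩ := u0_int Q
  have htK : emb Q.t / 2 ∈ CF.KK := by
    have h2 : (2 : ℂ) ∈ CF.KK := by
      have := u3_KK 2
      rwa [map_ofNat] at this
    exact div_mem (u3_KK _) h2
  have hρm : ρ ∈ KD D₁ := (JL.mem_KD _).mpr ⟨emb Q.t / 2, δ, htK, hδ, hρ⟩
  let P : 𝓞 (KD D₁) := ⟨⟨ρ, hρm⟩, (JL.I4_int _).mpr hρi⟩
  have hP : ((P : KD D₁) : ℂ) = ρ := rfl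
  obtain ⟨a, ha⟩ := u3_trace Q.nsq τ hττ hτ w hy₀ hy₁ P
  have hqa : q ∣ a ^ 2 - Q.t * a + Q.n := by
    rw [← hqm]
    have h1 : I4_phi D₁ (a ^ 2 - Q.t * a + Q.n) =
        (P - I4_phi D₁ a) * (I4_phi D₁ Q.t - P - I4_phi D₁ a) := by
      apply I4_ext
      push_cast
      rw [I4_phi_coe, I4_phi_coe, I4_phi_coe, hP, map_add, map_sub, map_pow, map_mul]
      linear_combination hρq
    rw [h1]
    exact Ideal.mul_mem_right _ _ ha
  refine ⟨fun hd => hy₁ ?_, a, hqa⟩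
  have h2a : q ∣ 2 * a - Q.t := by
    apply hq.dvd_of_dvd_pow (n := 2)
    have h3 : (2 * a - Q.t) ^ 2 = 4 * (a ^ 2 - Q.t * a + Q.n) + (Q.t ^ 2 - 4 * Q.n) := by ring
    rw [h3]
    exact dvd_add (hqa.mul_left _) hd
  obtain ⟨b, c, hbc⟩ := hint _ (y₀ : KD D₁).2 ((JL.I4_int (y₀ : KD D₁).2).mp y₀.2)
  have h4 : RingOfIntegers.mapRingEquiv τ y₀ =
      y₀ - I4_phi D₁ c * (I4_phi D₁ (2 * a - Q.t) + I4_phi D₁ 2 * (P - I4_phi D₁ a)) := by
    apply I4_ext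
    rw [RingOfIntegers.mapRingEquiv_apply, hτ (emb b + emb c * (emb Q.t / 2)) (emb c * δ)
      (add_mem (u3_KK b) (mul_mem (u3_KK c) htK)) (mul_mem (u3_KK c) hδ) _ (by rw [hbc, hρ]; ring)]
    push_cast
    rw [I4_phi_coe, I4_phi_coe, I4_phi_coe, I4_phi_coe, hP, hbc, map_sub, map_mul, map_ofNat, hρ]
    ring
  rw [h4]
  refine sub_mem hy₀ (Ideal.mul_mem_left _ _ (add_mem ((hqm _).mpr h2a) (Ideal.mul_mem_left _ _ ha)))

theorem u3_unit (Q : QD D₁) {T : Finset Eis} {L : Lev} (ov : Over Q.L T L) {x : ℂ} (hx : N1 (sD D₁) x)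
    (hloc : ∀ (B : ValuationSubring ℂ) (q : Eis), Prime q → B.valuation (emb q) < 1 → ¬ q ∣ L.f →
      (L.ep = 1 → ¬ q ∣ la) → B.valuation x = 1) : IsIntegral ℤ x ∧ IsIntegral ℤ x⁻¹ := by
  have hdom : IsDomain Eis := eis_isDomain
  obtain ⟨u₁, u₂, h1, h2, hz, hzi, hz0⟩ := hx
  have hmem : x ∈ KD D₁ := (JL.mem_KD _).mpr ⟨u₁, u₂, h1, h2, hz⟩
  let y : KD D₁ := ⟨x, hmem⟩
  obtain ⟨τ, hττ, hτ⟩ := u0_tau Q.nsq
  have hy0 : y ≠ 0 := by
    intro h0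
    exact hz0 (congrArg (fun t : KD D₁ => (t : ℂ)) h0)
  have hτy : τ y = y⁻¹ := by
    apply Subtype.ext
    rw [hτ u₁ u₂ h1 h2 y hz, ← hzi]
    rfl
  have key : ∀ w : HeightOneSpectrum (𝓞 (KD D₁)), w.valuation (KD D₁) y = 1 := by
    intro w
    by_cases hst : ∀ y ∈ w.asIdeal, RingOfIntegers.mapRingEquiv τ y ∈ w.asIdeal
    · exact JL.I4_val τ hττ w hst hy0 hτy
    push Not at hst
    obtain ⟨y₀, hy₀, hy₁⟩ := hst
    obtain ⟨q, hq, hqm⟩ := JL.I4_q w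
    obtain ⟨hd, a, ha⟩ := u3_split Q τ hττ hτ w hy₀ hy₁ hq hqm
    have hram := Q.ram q hq
    have hqf : ¬ q ∣ L.f := by
      intro hqf
      rw [ov.hf] at hqf
      rcases hq.dvd_or_dvd hqf with h3 | h3
      · exact hd (hram.mpr (Or.inl h3))
      · obtain ⟨p, hp, hqp⟩ := (Prime.dvd_finsetProd_iff hq _).mp h3
        obtain ⟨hpp, hpP, -, hpq⟩ := ov.hT p hp
        have hass : Associated q p := hq.associated_of_dvd hpp hqp
        have hpd : ¬ p ∣ Q.t ^ 2 - 4 * Q.n := fun h => hd (hqp.trans h)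
        have h4 := (Q.split p hpp hpd).mpr ⟨a, by
          have h5 : a ^ 2 - Q.t * a + Q.n = a ^ 2 - Q.t * a + Q.n := rfl
          exact hass.symm.dvd.trans ha⟩
        have h5 : Q.L.qi p = -1 := by
          unfold Lev.qi
          split_ifs with h6
          · exact hpq
          · have h7 : la ∣ p - 1 := by
              have h3 : la ∣ 3 := ⟨_, CUL.u7_three⟩
              exact h3.trans hpP
            rw [sl, if_pos h7, hpq, one_mul]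
        rw [h5] at h4
        norm_num at h4
    have hla : L.ep = 1 → ¬ q ∣ la := by
      intro he h3
      exact hd (hram.mpr (Or.inr ⟨by rw [← ov.hep]; exact he, h3⟩))
    obtain ⟨B, hB1, hB2⟩ := JL.exists_ext (KD D₁) w
    have hqB : B.valuation (emb q) < 1 := by
      have h3 := (hB2 (algebraMap (𝓞 (KD D₁)) (KD D₁) (I4_phi D₁ q))).mpr
        ((w.valuation_lt_one_iff_mem (K := KD D₁) _).mpr ((hqm q).mpr dvd_rfl))
      exact h3
    have hval : B.valuation x = 1 := hloc B q hq hqB hqf hla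
    refine le_antisymm ((hB1 y).mp hval.le) ?_
    by_contra hlt
    rw [not_le] at hlt
    have := (hB2 y).mpr hlt
    change B.valuation x < 1 at this
    rw [hval] at this
    exact lt_irrefl _ this
  have hfin : ∀ y : KD D₁, (∀ w : HeightOneSpectrum (𝓞 (KD D₁)), w.valuation (KD D₁) y = 1) →
      IsIntegral ℤ (y : ℂ) := by
    intro y hy
    obtain ⟨t, ht⟩ := HeightOneSpectrum.mem_integers_of_valuation_le_one (KD D₁) y
      (fun w => (hy w).le)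
    rw [← ht]
    exact (JL.I4_int (t : KD D₁).2).mp t.2
  refine ⟨hfin y key, ?_⟩
  have h5 := hfin y⁻¹ (fun w => by rw [map_inv₀, key, inv_one])
  exact h5

end JGL
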