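import Pool.Agent.JGL.T
import Pool.Agent.CUL.G1

/-!
# [JGL-U4] the distribution relations for `|x|` and `|U|`

`u4_x`: `CUL.exists_C` (CUL/G1.lean): `xw (p z) = C ∏_{c mod p} xw (z + c/p)` for `z ∈ Dm p R`. `z = α / f` is in the domain: `α/f + c/p = (α p + c f)/(f p)` is `OT` (`OT`: not in the lattice, because `f` is not a unit and `α` is coprime to `f`; `f p` is primary), and `OT.add_nl` (with `k = 1`, `la ta = 1`) for `± ta`. `C ≠ 0` and all factors are nonzero (`CUL.u7_ne`), `log` of a product is the sum of the logarithms; `p α / f = p z`.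
`u4_dist`: the same proof as `CUL.exists_C` for `Um`: on `Do m R = {z | ∀ c ∈ R, Nl (z + c/m) ∧ xw (z + c/m) ^ 3 ≠ -1}` (open, complement countable: `xw z ^ 3 = -1 = xw si ^ 3` (`xw_si`) means `xw z = w^j xw si = xw (w^j si)`, `z ≡ ± w^j si` (`xw_eq_iff`)),
`th² - ym² = -4 (xw³ + 1) ≠ 0` (`th² = -3`), `Um' = 3 th OmC xw² / (xw³ + 1) · Um` up to sign (`yw' = 6 OmC xw²`; compute it), and with `V = xw²/(xw³ + 1)`: `∑_{c mod m} V(z + c/m) = m V(m z)`, because
`3 yw(si) V(z) = -∑_{j mod 3} [ez(z + w^j si) - ez(z - w^j si)]` (`ez_add`: `ez(P + z) + ez(P - z) = 2 ez P + yw P / (xw P - xw z)`; `P = w^j si`: `yw P = yw si`, `xw P = w^j xw si`, `∑_j ez(w^j si) = (1 + w² + w⁴) ez si = 0`, `∑_j 1/(x + w^j ζ) = 3 x²/(x³ + 1)`, `ζ = -xw si`, `ζ³ = 1`) and `ez_dist` with `m si ≡ si` modulo the lattice (`m ≡ 1 mod 3`).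
`u4_U`: as `u4_x`; `xw³ ≠ -1` at `OT` points: `OT.add_nl` with `k = 2`, `t = ± w^j si`; `Um ≠ 0` there.
-/

set_option autoImplicit false

open NumberField IsDedekindDomain Filter Topology
open scoped Classical ComplexConjugate

namespace JGL

open CM27 JZ
open CU (la eE)
open CUL (Nl ez si ta DS Cont LV IsRep rp cr mn mo zw OT GalU W3 W9)
open JL (N1 KD sD Psi6)

theorem u4_OT {f p : Eis} (hf : Primary f) (hfu : ¬ IsUnit f) (hp : Primary p) (hc : IsCoprime f p) {α : Eis}
    (hα : IsCoprime α f) (c : Eis) : OT (emb α / emb f + emb c / emb p) := by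
  have := eis_isDomain
  have hf0 := CUL.g1_em_ne hf
  have hp0 := CUL.g1_em_ne hp
  have e : emb α / emb f + emb c / emb p = emb (α * p + c * f) / emb (f * p) := by
    rw [map_add, map_mul, map_mul, map_mul]
    field_simp
  refine ⟨?_, f * p, CUL.primary_mul hf hp, ?_⟩
  · rw [e, CUL.nl_div_iff (mul_ne_zero (CUL.primary_ne hf) (CUL.primary_ne hp))]
    rintro ⟨t, ht⟩
    have h1 : f ∣ α * p := ⟨p * t - c, by linear_combination ht⟩
    have h2 : f ∣ α := hc.dvd_of_dvd_mul_right h1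
    exact hfu (hα.isUnit_of_dvd' h2 dvd_rfl)
  · refine ⟨α * p + c * f, ?_⟩
    rw [e, map_mul emb f p]
    field_simp

theorem u4_OT' {f p : Eis} (hf : Primary f) (hfu : ¬ IsUnit f) (hp : Primary p) (hc : IsCoprime f p) {α : Eis}
    (hα : IsCoprime α f) : OT (emb (p * α) / emb f) := by
  have h1 := u4_OT hf hfu hp hc (IsCoprime.mul_left hc.symm hα) 0
  rwa [map_zero, zero_div, add_zero] at h1

theorem u4_x {f p : Eis} (hf : Primary f) (hfu : ¬ IsUnit f) (hp : Primary p) (hc : IsCoprime f p) :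
    ∃ C : ℝ, ∀ α : Eis, IsCoprime α f → ∑ c ∈ rp p, Real.log ‖xw (emb α / emb f + emb c / emb p)‖ =
      C + Real.log ‖xw (emb (p * α) / emb f)‖ := by
  obtain ⟨C, hC⟩ := CUL.exists_C hp (CUL.rp_spec (CUL.primary_ne hp))
  refine ⟨-Real.log ‖C‖, fun α hα => ?_⟩
  have hOT : ∀ c, OT (emb α / emb f + emb c / emb p) := fun c => u4_OT hf hfu hp hc hα c
  have hmem : emb α / emb f ∈ CUL.Dm p (rp p) := by
    intro c _
    have hta : emb la ^ 1 * ta ∈ Set.range emb := ⟨1, by rw [map_one, pow_one, CUL.la_ta]⟩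
    have hta' : emb la ^ 1 * (-ta) ∈ Set.range emb :=
      ⟨-1, by rw [map_neg, map_one, pow_one, mul_neg, CUL.la_ta]⟩
    refine ⟨(hOT c).1, (hOT c).add_nl 1 hta, ?_⟩
    rw [sub_eq_add_neg]
    exact (hOT c).add_nl 1 hta'
  have h1 := hC _ hmem
  have e1 : emb p * (emb α / emb f) = emb (p * α) / emb f := by rw [map_mul]; ring
  rw [e1] at h1
  have hx0 : xw (emb (p * α) / emb f) ≠ 0 := CUL.u7_ne (u4_OT' hf hfu hp hc hα)
  have hC0 : C ≠ 0 := by
    rintro rfl
    rw [zero_mul] at h1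
    exact hx0 h1
  have hne : ∀ c ∈ rp p, ‖xw (emb α / emb f + emb c / emb p)‖ ≠ 0 := fun c _ =>
    norm_ne_zero_iff.2 (CUL.u7_ne (hOT c))
  rw [h1, norm_mul, norm_prod, Real.log_mul (norm_ne_zero_iff.2 hC0) (Finset.prod_ne_zero_iff.2 hne),
    Real.log_prod hne]
  ring

/-- the domain -/
def Do (m : Eis) (R : Finset Eis) : Set ℂ := {z | ∀ c ∈ R, Nl (z + emb c / emb m) ∧ xw (z + emb c / emb m) ^ 3 ≠ -1}

theorem u4_cond {z : ℂ} (hz : Nl z) : xw z ^ 3 = -1 ↔
    (emb la * z - ta ∈ Set.range emb ∨ emb la * z + ta ∈ Set.range emb) := by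
  constructor
  · intro h
    by_cases hl : Nl (emb la * z)
    · refine (CUL.xw_eq_zero_iff hl).1 ?_
      rw [CUL.xw_la, h]
      norm_num
    · exfalso
      have hl' : emb la * z ∈ Set.range emb := not_not.1 hl
      rcases CUL.la_mul_mem.1 hl' with h1 | h1
      · exact hz h1
      · have h2 := (CUL.xw_eq_zero_iff hz).2 h1
        rw [h2] at h
        norm_num at h
  · intro h
    have hl : Nl (emb la * z) := by
      rintro ⟨a, ha⟩
      rcases h with ⟨b, hb⟩ | ⟨b, hb⟩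
      · exact CUL.nl_ta ⟨a - b, by rw [map_sub, ha, hb]; ring⟩
      · exact CUL.nl_ta ⟨b - a, by rw [map_sub, ha, hb]; ring⟩
    have h1 := (CUL.xw_eq_zero_iff hl).2 h
    rw [CUL.xw_la, div_eq_zero_iff] at h1
    rcases h1 with h1 | h1
    · linear_combination h1
    · exfalso
      rcases mul_eq_zero.1 h1 with h2 | h2
      · exact pow_ne_zero 2 CUL.la_ne h2
      · have h3 : xw z = 0 := pow_eq_zero_iff (two_ne_zero) |>.1 h2
        exact hl (CUL.la_mul_mem.2 (Or.inr ((CUL.xw_eq_zero_iff hz).1 h3)))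

theorem u4_alg {a x : ℂ} (ha : a ^ 3 = -1) (hx : x ^ 3 + 1 ≠ 0) :
    1 / (a - x) + 1 / (w * a - x) + 1 / (w ^ 2 * a - x) = -3 * (x ^ 2 / (x ^ 3 + 1)) := by
  have hw3 := CUL.w3
  have hw2 := CUL.w2
  have e1 : (a - x) * (w * a - x) * (w ^ 2 * a - x) = -(x ^ 3 + 1) := by
    have e0 : (a - x) * (w * a - x) * (w ^ 2 * a - x) = a ^ 3 * w ^ 3 - x ^ 3
        - (1 + w + w ^ 2) * (w * a ^ 2 * x) + (1 + w + w ^ 2) * (a * x ^ 2) := by ring
    rw [e0, ha, hw3, hw2]; ring
  have e2 : (a - x) * (w * a - x) * (w ^ 2 * a - x) ≠ 0 := by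
    rw [e1]; exact neg_ne_zero.2 hx
  have n1 : a - x ≠ 0 := fun h => e2 (by rw [h]; ring)
  have n2 : w * a - x ≠ 0 := fun h => e2 (by rw [h]; ring)
  have n3 : w ^ 2 * a - x ≠ 0 := fun h => e2 (by rw [h]; ring)
  have i1 : 1 / (a - x) = -((w * a - x) * (w ^ 2 * a - x)) / (x ^ 3 + 1) := by
    rw [div_eq_div_iff n1 hx]; linear_combination e1
  have i2 : 1 / (w * a - x) = -((a - x) * (w ^ 2 * a - x)) / (x ^ 3 + 1) := by
    rw [div_eq_div_iff n2 hx]; linear_combination e1
  have i3 : 1 / (w ^ 2 * a - x) = -((a - x) * (w * a - x)) / (x ^ 3 + 1) := by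
    rw [div_eq_div_iff n3 hx]; linear_combination e1
  rw [i1, i2, i3, ← add_div, ← add_div, mul_div_assoc']
  congr 1
  have hz : w ^ 2 + w + 1 = 0 := by rw [hw2]; ring
  linear_combination (-(w * a ^ 2) + 2 * a * x) * hz

theorem u4_pair {P z : ℂ} (hP : Nl P) (hP3 : xw P ^ 3 = -1) (hz : Nl z) (h : xw z ^ 3 ≠ -1) :
    ez (z + P) - ez (z - P) = 2 * ez P + yw P * (1 / (xw P - xw z)) := by
  have h1 : Nl (P + z) := by
    rintro ⟨a, ha⟩
    apply h
    have e : z = -P + emb a := by rw [ha]; ring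
    rw [e, xw_add, xw_neg, hP3]
  have h2 : Nl (P - z) := by
    rintro ⟨a, ha⟩
    apply h
    have e : z = P + emb (-a) := by rw [map_neg, ha]; ring
    rw [e, xw_add, hP3]
  have h3 := CUL.ez_sd hP hz h1 h2
  have h4 : ez (P - z) = -ez (z - P) := by rw [← CUL.ez_neg, neg_sub]
  rw [h4, add_comm P z] at h3
  linear_combination h3

/-- the sum over the six points -/
noncomputable def u4S (z : ℂ) : ℂ := (ez (z + si) - ez (z - si)) + (ez (z + w * si) - ez (z - w * si)) +
  (ez (z + w * (w * si)) - ez (z - w * (w * si)))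

/-- the logarithmic derivative of `U` -/
noncomputable def u4V (z : ℂ) : ℂ := xw z ^ 2 / (xw z ^ 3 + 1)

theorem u4_S {z : ℂ} (hz : Nl z) (h : xw z ^ 3 ≠ -1) : u4S z = -3 * yw si * u4V z := by
  have hw3 := CUL.w3
  have hsi := CUL.nl_si
  have hx : xw z ^ 3 + 1 ≠ 0 := fun h1 => h (by linear_combination h1)
  have c1 : xw (w * si) ^ 3 = -1 := by rw [xw_w, mul_pow, hw3, CUL.xw_si]; ring
  have c2 : xw (w * (w * si)) ^ 3 = -1 := by rw [xw_w, mul_pow, hw3, c1]; ring
  have p0 := u4_pair hsi CUL.xw_si hz h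
  have p1 := u4_pair hsi.w_mul c1 hz h
  have p2 := u4_pair hsi.w_mul.w_mul c2 hz h
  have ha := u4_alg CUL.xw_si hx
  rw [u4S, p0, p1, p2, u4V]
  simp only [yw_w, xw_w, CUL.ez_w]
  have hz2 : w ^ 2 + w + 1 = 0 := by rw [CUL.w2]; ring
  have e1 : w * (w * xw si) = w ^ 2 * xw si := by ring
  rw [e1]
  linear_combination yw si * ha + 2 * ez si * (w ^ 2 - w + 1) * hz2

theorem u4_si {m : Eis} (hm : Primary m) : ∃ b : Eis, emb m * si = si + emb b := by
  obtain ⟨k, hk⟩ := hm
  refine ⟨-(CU.om ^ 2) * k, ?_⟩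
  have h1 : emb m = 1 + 3 * emb k := by
    have h2 : m = 1 + 3 * k := by rw [← hk]; ring
    rw [h2, map_add, map_mul, map_one, map_ofNat]
  have h3 : 3 * si = -w ^ 2 := by
    rw [si, CUL.la_sq]
    have hw : w ≠ 0 := by
      intro h0
      have := CUL.w3
      rw [h0] at this
      norm_num at this
    field_simp
    linear_combination CUL.w3
  rw [h1, map_mul, map_neg, map_pow, CUL.emb_om]
  linear_combination emb k * h3

theorem u4_dP {m : Eis} (hm : Primary m) {R : Finset Eis} (hR : IsRep m R) {P : ℂ} {b : Eis}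
    (hb : emb m * P = P + emb b) (z : ℂ) :
    ∑ c ∈ R, (ez (z + emb c / emb m + P) - ez (z + emb c / emb m - P)) =
      emb m * (ez (emb m * z + P) - ez (emb m * z - P)) := by
  have h1 := CUL.ez_dist m (CUL.primary_ne hm) R hR (z + P)
  have h2 := CUL.ez_dist m (CUL.primary_ne hm) R hR (z - P)
  have e1 : emb m * (z + P) = emb m * z + P + emb b := by linear_combination hb
  have e2 : emb m * (z - P) = emb m * z - P + emb (-b) := by rw [map_neg]; linear_combination -hb
  rw [e1, CUL.ez_add_emb] at h1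
  rw [e2, CUL.ez_add_emb] at h2
  rw [mul_sub, ← h1, ← h2, ← Finset.sum_sub_distrib]
  refine Finset.sum_congr rfl fun c _ => ?_
  have e3 : z + emb c / emb m + P = z + P + emb c / emb m := by ring
  have e4 : z + emb c / emb m - P = z - P + emb c / emb m := by ring
  rw [e3, e4]

theorem u4_sumS {m : Eis} (hm : Primary m) {R : Finset Eis} (hR : IsRep m R) (z : ℂ) :
    ∑ c ∈ R, u4S (z + emb c / emb m) = emb m * u4S (emb m * z) := by
  obtain ⟨b, hb⟩ := u4_si hm
  have hb1 : emb m * (w * si) = w * si + emb (CU.om * b) := by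
    rw [map_mul, CUL.emb_om]; linear_combination w * hb
  have hb2 : emb m * (w * (w * si)) = w * (w * si) + emb (CU.om * (CU.om * b)) := by
    rw [map_mul, map_mul, CUL.emb_om]; linear_combination w ^ 2 * hb
  have h0 := u4_dP hm hR hb z
  have h1 := u4_dP hm hR hb1 z
  have h2 := u4_dP hm hR hb2 z
  simp only [u4S, Finset.sum_add_distrib]
  rw [h0, h1, h2]
  ring

theorem u4_nl {m : Eis} (hm : Primary m) {R : Finset Eis} (hR : IsRep m R) {z : ℂ} (hz : z ∈ Do m R) :
    Nl (emb m * z) ∧ xw (emb m * z) ^ 3 ≠ -1 := by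
  have hne := CUL.g1_em_ne hm
  have hnl : Nl (emb m * z) := by
    rintro ⟨a, ha⟩
    obtain ⟨c, ⟨hc, k, hk⟩, -⟩ := hR (-a)
    apply (hz c hc).1
    refine ⟨-k, ?_⟩
    have h1 := congrArg emb hk
    rw [map_sub, map_neg, map_mul] at h1
    rw [map_neg]
    field_simp
    linear_combination h1 + ha
  refine ⟨hnl, ?_⟩
  intro h
  rw [u4_cond hnl] at h
  obtain ⟨b, hb⟩ := CUL.g1_ta hm
  obtain ⟨u, v, huv⟩ := CUL.g1_coprime hm
  have key : ∀ x : Eis, ∃ c ∈ R, ∃ k : Eis, emb la * emb c + emb x = emb m * emb k := by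
    intro x
    obtain ⟨c, ⟨hc, k, hk⟩, -⟩ := hR (-(u * x))
    refine ⟨c, hc, v * x - la * k, ?_⟩
    rw [← map_mul, ← map_add, ← map_mul]
    congr 1
    linear_combination -la * hk - x * huv
  rcases h with ⟨a, ha⟩ | ⟨a, ha⟩
  · -- `la m z - ta = a`
    obtain ⟨c, hc, k, hk⟩ := key (a - b)
    refine (hz c hc).2 ((u4_cond (hz c hc).1).2 (Or.inl ⟨k, ?_⟩))
    rw [map_sub] at hk
    field_simp
    linear_combination -hk + ha + hb
  · obtain ⟨c, hc, k, hk⟩ := key (a + b)
    refine (hz c hc).2 ((u4_cond (hz c hc).1).2 (Or.inr ⟨k, ?_⟩))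
    rw [map_add] at hk
    field_simp
    linear_combination -hk + ha - hb

theorem u4_sumV {m : Eis} (hm : Primary m) {R : Finset Eis} (hR : IsRep m R) {z : ℂ} (hz : z ∈ Do m R) :
    ∑ c ∈ R, u4V (z + emb c / emb m) = emb m * u4V (emb m * z) := by
  have hy : yw si ≠ 0 := by
    intro h0
    have := CUL.yw_si
    rw [h0] at this
    norm_num at this
  have h1 := u4_sumS hm hR z
  rw [u4_S (u4_nl hm hR hz).1 (u4_nl hm hR hz).2,
    Finset.sum_congr rfl fun c hc => u4_S (hz c hc).1 (hz c hc).2, ← Finset.mul_sum] at h1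
  have h2 : -3 * yw si ≠ 0 := mul_ne_zero (by norm_num) hy
  apply mul_left_cancel₀ h2
  linear_combination h1

theorem u4_nd {z : ℂ} (hz : Nl z) (h : xw z ^ 3 ≠ -1) :
    (th + ym z) * (th - ym z) = -4 * (xw z ^ 3 + 1) ∧ th + ym z ≠ 0 ∧ th - ym z ≠ 0 := by
  have h1 : (th + ym z) * (th - ym z) = -4 * (xw z ^ 3 + 1) := by
    have h2 := weq z hz
    have h3 := th_sq
    rw [ym]
    linear_combination h3 - h2
  have h2 : (th + ym z) * (th - ym z) ≠ 0 := by
    rw [h1]
    exact mul_ne_zero (by norm_num) (fun h3 => h (by linear_combination h3))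
  exact ⟨h1, left_ne_zero_of_mul h2, right_ne_zero_of_mul h2⟩

theorem u4_ne {z : ℂ} (hz : Nl z) (h : xw z ^ 3 ≠ -1) : Um z ≠ 0 :=
  div_ne_zero (u4_nd hz h).2.1 (u4_nd hz h).2.2

theorem u4_deriv {z : ℂ} (hz : Nl z) (h : xw z ^ 3 ≠ -1) :
    HasDerivAt Um (3 * th * OmC * u4V z * Um z) z := by
  obtain ⟨h1, h2, h3⟩ := u4_nd hz h
  have hx : xw z ^ 3 + 1 ≠ 0 := fun h1 => h (by linear_combination h1)
  have d1 : HasDerivAt ym (-(6 * OmC * xw z ^ 2)) z := (yw_deriv z hz).neg
  have d2 := (d1.const_add th).div (d1.const_sub th) h3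
  have e : ((fun y => th + ym y) / fun y => th - ym y) = Um := by
    funext y
    rfl
  have d3 : HasDerivAt Um ((-(6 * OmC * xw z ^ 2) * (th - ym z) - (th + ym z) * -(-(6 * OmC * xw z ^ 2))) /
      (th - ym z) ^ 2) z := d2
  refine d3.congr_deriv ?_
  rw [u4V, Um]
  field_simp
  linear_combination (-3 * th * OmC * xw z ^ 2) * h1

theorem u4_open (m : Eis) (R : Finset Eis) : Do m R = ⋂ c ∈ R, ({z | Nl (z + emb c / emb m)} ∩
      ({z | Nl (emb la * (z + emb c / emb m) + ta)} ∩ {z | Nl (emb la * (z + emb c / emb m) - ta)})) := by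
  ext z
  simp only [Do, Set.mem_ofPred_eq, Set.mem_iInter, Set.mem_inter_iff]
  refine forall₂_congr fun c _ => and_congr_right fun hz => ?_
  rw [Ne, u4_cond hz, not_or, and_comm]
  rfl

theorem u4_isOpen (m : Eis) (R : Finset Eis) : IsOpen (Do m R) := by
  rw [u4_open]
  apply isOpen_biInter_finset
  intro c hc
  refine IsOpen.inter ?_ (IsOpen.inter ?_ ?_)
  · exact CUL.g1_nl_open.preimage (f := fun z => z + emb c / emb m) (by fun_prop)
  · exact CUL.g1_nl_open.preimage (f := fun z => emb la * (z + emb c / emb m) + ta) (by fun_prop)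
  · exact CUL.g1_nl_open.preimage (f := fun z => emb la * (z + emb c / emb m) - ta) (by fun_prop)

theorem u4_nl_countable (a b : ℂ) (ha : a ≠ 0) : {z : ℂ | ¬ Nl (a * z + b)}.Countable := by
  have h3 : {z : ℂ | ¬ Nl (a * z + b)} = (fun z => a * z + b) ⁻¹' (Set.range emb) := by
    ext z
    simp [Nl]
  rw [h3]
  refine a2_countable.preimage ?_
  intro x y hxy
  have h4 : a * x + b = a * y + b := hxy
  exact mul_left_cancel₀ ha (add_right_cancel h4)

theorem u4_countable (m : Eis) (R : Finset Eis) : (Do m R)ᶜ.Countable := by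
  have h1 : (Do m R)ᶜ ⊆ ⋃ c ∈ (R : Set Eis), ({z | ¬ Nl (1 * z + emb c / emb m)} ∪
      ({z | ¬ Nl (emb la * z + (emb la * (emb c / emb m) + ta))} ∪
        {z | ¬ Nl (emb la * z + (emb la * (emb c / emb m) - ta))})) := by
    intro z hz
    simp only [Do, Set.mem_compl_iff, Set.mem_ofPred_eq, not_forall] at hz
    obtain ⟨c, hc, h⟩ := hz
    simp only [Set.mem_iUnion]
    refine ⟨c, hc, ?_⟩
    by_cases h0 : Nl (z + emb c / emb m)
    · have h2 : xw (z + emb c / emb m) ^ 3 = -1 := by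
        by_contra h3
        exact h ⟨h0, h3⟩
      right
      rcases (u4_cond h0).1 h2 with h3 | h3
      · right
        rw [Set.mem_ofPred_eq]
        have e : emb la * z + (emb la * (emb c / emb m) - ta) = emb la * (z + emb c / emb m) - ta := by ring
        rw [e]
        exact fun h4 => h4 h3
      · left
        rw [Set.mem_ofPred_eq]
        have e : emb la * z + (emb la * (emb c / emb m) + ta) = emb la * (z + emb c / emb m) + ta := by ring
        rw [e]
        exact fun h4 => h4 h3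
    · left
      rw [Set.mem_ofPred_eq, one_mul]
      exact h0
  refine Set.Countable.mono h1 ?_
  refine Set.Countable.biUnion R.countable_toSet ?_
  intro c hc
  exact (u4_nl_countable _ _ one_ne_zero).union ((u4_nl_countable _ _ CUL.la_ne).union
    (u4_nl_countable _ _ CUL.la_ne))

theorem u4_dist {m : Eis} (hm : Primary m) {R : Finset Eis} (hR : IsRep m R) :
    ∃ C : ℂ, ∀ z ∈ Do m R, Um (emb m * z) = C * ∏ c ∈ R, Um (z + emb c / emb m) := by
  by_cases hne : (Do m R).Nonempty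
  swap
  · exact ⟨0, fun z hz => absurd ⟨z, hz⟩ hne⟩
  obtain ⟨z0, hz0⟩ := hne
  have hm0 := CUL.g1_em_ne hm
  have hxne : ∀ z ∈ Do m R, ∀ c ∈ R, Um (z + emb c / emb m) ≠ 0 :=
    fun z hz c hc => u4_ne (hz c hc).1 (hz c hc).2
  have hpne : ∀ z ∈ Do m R, ∏ c ∈ R, Um (z + emb c / emb m) ≠ 0 :=
    fun z hz => Finset.prod_ne_zero_iff.2 (hxne z hz)
  have hprod : ∀ z ∈ Do m R, ∀ s : Finset Eis, s ⊆ R →
      HasDerivAt (fun z => ∏ c ∈ s, Um (z + emb c / emb m))
        ((∏ c ∈ s, Um (z + emb c / emb m)) *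
          ∑ c ∈ s, 3 * th * OmC * u4V (z + emb c / emb m)) z := by
    intro z hz s
    induction s using Finset.induction_on with
    | empty =>
      intro _
      simp only [Finset.prod_empty, Finset.sum_empty, mul_zero]
      exact hasDerivAt_const z 1
    | insert a s ha ih =>
      intro hs
      have h1 := ih (fun x hx => hs (Finset.mem_insert_of_mem hx))
      have h2 := hz a (hs (Finset.mem_insert_self a s))
      have h3 := (u4_deriv h2.1 h2.2).comp_add_const z (emb a / emb m)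
      have h4 := h3.mul h1
      simp only [Finset.prod_insert ha, Finset.sum_insert ha]
      refine h4.congr_deriv ?_
      ring
  have hF : ∀ z ∈ Do m R, HasDerivAt
      (fun z => Um (emb m * z) / ∏ c ∈ R, Um (z + emb c / emb m)) 0 z := by
    intro z hz
    have h1 := u4_nl hm hR hz
    have h2 : HasDerivAt (fun z => Um (emb m * z))
        (3 * th * OmC * u4V (emb m * z) * Um (emb m * z) * emb m) z := by
      have h3 : HasDerivAt (fun z : ℂ => emb m * z) (emb m * 1) z := (hasDerivAt_id z).const_mul (emb m)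
      have h4 := (u4_deriv h1.1 h1.2).comp z h3
      rw [mul_one] at h4
      exact h4
    have h5 := h2.div (hprod z hz R (Finset.Subset.refl R)) (hpne z hz)
    refine h5.congr_deriv ?_
    rw [← Finset.mul_sum, u4_sumV hm hR hz]
    rw [div_eq_zero_iff]
    left
    ring
  have hopen := u4_isOpen m R
  have hconn : IsPreconnected (Do m R) := by
    have h := (u4_countable m R).isPathConnected_compl_of_one_lt_rank (E := ℂ)
      (by rw [Complex.rank_real_complex]; exact Nat.one_lt_ofNat)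
    rw [compl_compl] at h
    exact h.isConnected.isPreconnected
  refine ⟨Um (emb m * z0) / ∏ c ∈ R, Um (z0 + emb c / emb m), ?_⟩
  intro z hz
  have h6 : Um (emb m * z) / ∏ c ∈ R, Um (z + emb c / emb m) =
      Um (emb m * z0) / ∏ c ∈ R, Um (z0 + emb c / emb m) := by
    apply hopen.is_const_of_deriv_eq_zero hconn _ _ hz hz0
      (f := fun z => Um (emb m * z) / ∏ c ∈ R, Um (z + emb c / emb m))
    · intro y hy
      exact (hF y hy).differentiableAt.differentiableWithinAt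
    · intro y hy
      exact (hF y hy).deriv
  rw [← h6, div_mul_cancel₀ _ (hpne z hz)]

theorem u4_OT_x3 {z : ℂ} (h : OT z) : xw z ^ 3 ≠ -1 := by
  intro h1
  have h3 := CUL.u7_ne (CUL.u7_la_mul h)
  apply h3
  rw [CUL.xw_la, h1]
  norm_num

theorem u4_U {f p : Eis} (hf : Primary f) (hfu : ¬ IsUnit f) (hp : Primary p) (hc : IsCoprime f p) :
    ∃ C : ℝ, ∀ α : Eis, IsCoprime α f → ∑ c ∈ rp p, Real.log ‖Um (emb α / emb f + emb c / emb p)‖ =
      C + Real.log ‖Um (emb (p * α) / emb f)‖ := by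
  obtain ⟨C, hC⟩ := u4_dist hp (CUL.rp_spec (CUL.primary_ne hp))
  refine ⟨-Real.log ‖C‖, fun α hα => ?_⟩
  have hOT : ∀ c, OT (emb α / emb f + emb c / emb p) := fun c => u4_OT hf hfu hp hc hα c
  have hmem : emb α / emb f ∈ Do p (rp p) := fun c _ => ⟨(hOT c).1, u4_OT_x3 (hOT c)⟩
  have h1 := hC _ hmem
  have e1 : emb p * (emb α / emb f) = emb (p * α) / emb f := by rw [map_mul]; ring
  rw [e1] at h1
  have hot := u4_OT' hf hfu hp hc hα
  have hx0 : Um (emb (p * α) / emb f) ≠ 0 := u4_ne hot.1 (u4_OT_x3 hot)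
  have hC0 : C ≠ 0 := by
    rintro rfl
    rw [zero_mul] at h1
    exact hx0 h1
  have hne : ∀ c ∈ rp p, ‖Um (emb α / emb f + emb c / emb p)‖ ≠ 0 := fun c _ =>
    norm_ne_zero_iff.2 (u4_ne (hOT c).1 (u4_OT_x3 (hOT c)))
  rw [h1, norm_mul, norm_prod, Real.log_mul (norm_ne_zero_iff.2 hC0) (Finset.prod_ne_zero_iff.2 hne),
    Real.log_prod hne]
  ring

end JGL
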