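import Pool.Agent.JGL.B
import Pool.Agent.JGL.U4

/-!
# [JGL-U5] the absolute values of the elliptic units of the level `f ∏_{p ∈ T} p` and of the level `f`

For `f`, `q : Eis → ℤ`, `g : ℂ → ℝ` put `S(f, q) = ∑_{α ∈ rp f} q(α) g(α / f)`. Conditions on `(f, q)`: `f` primary, not a unit, `q x = 0` for `x` not coprime to `f`, `q` multiplicative, `q` periodic modulo `f`, `∑_{rp f} q = 0`.
Conditions on `g`: `g (z + emb a) = g z`; for `p` primary and coprime to `f`: `∃ C, ∀ α` coprime to `f`: `∑_{c ∈ rp p} g(α/f + c/p) = C + g(p α / f)` (`u4_x`, `u4_U`).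
STEP: for `p` prime, primary, `p ∤ f`: `(f p, q')` with `q' x = if p ∣ x then 0 else q x` satisfies the conditions and `S(f p, q') = (1 - q(p)) S(f, q)`. PROOF: `IsRep.crt` (CUL/L1.lean) for `f`, `p`: the classes modulo `f p` are `α p + c f`; `q'(α p + c f) = q(p) q(α)` if `p ∤ c`, `0` otherwise; `(α p + c f)/(f p) = α/f + c/p`. So `S(f p, q') = q(p) ∑_α q(α) [∑_c g(α/f + c/p) - g(α/f)] = ∑_α q(p α) (C + g(p α/f)) - q(p) S(f, q)` and `∑_α q(p α) g(p α / f) = S(f, q)` (`IsRep.sum_mul`).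
(The class of `c` with `p ∣ c`: exactly one element of `rp p`.) The sum of `q'`: `q(p) ∑_α q(α) (N(p) - 1) = 0`.
INDUCTION over `T`: `S(L.f, L.q) = 2 ^ #T S(Q.f, Q.q)` for `Over Q T L` (`q(p) = -1` for `p ∈ T`; the primes of `T` are primary, so pairwise not associated: `CUL.l3_dvd`).
`u5_sum`: `S(L.f, L.q) = 6 ∑_{c ∈ R} q(c) g(c/f)` (`sum_R` with values in `ℂ`; `q(ζ x) g(ζ x / f) = q(x) g(x/f)`: for `x`: `‖xw (ζ z)‖ = ‖xw z‖`, `q ζ = 1`; for `U`: `unit_act`, `Um (ζ z) = Um z ^ s`, `q ζ = s`), `log ‖e‖ = ∑_{c ∈ R} q(c) log ‖x(c/f)‖` (`Real.log_prod`, all factors nonzero).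
-/

set_option autoImplicit false

open NumberField IsDedekindDomain Filter Topology
open scoped Classical ComplexConjugate

namespace JGL

open CM27 JZ
open CU (la eE)
open CUL (Nl ez si ta DS Cont LV IsRep rp cr mn mo zw OT GalU W3 W9)
open JL (N1 KD sD Psi6)

/-- conditions on a modulus and a quadratic character -/
structure u5Q (f : Eis) (q : Eis → ℤ) : Prop where
  prim : Primary f
  nu : ¬ IsUnit f
  zero : ∀ x, ¬ IsCoprime x f → q x = 0
  mul : ∀ x y, q (x * y) = q x * q y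
  per : ∀ x y, f ∣ x - y → q x = q y
  sum : ∑ α ∈ rp f, (q α : ℂ) = 0

/-- conditions on a function on the torsion points -/
structure u5G (G : ℂ → ℂ) : Prop where
  per : ∀ (z : ℂ) (a : Eis), G (z + emb a) = G z
  dist : ∀ f p : Eis, Primary f → ¬ IsUnit f → Primary p → IsCoprime f p →
    ∃ C : ℂ, ∀ α : Eis, IsCoprime α f → ∑ c ∈ rp p, G (emb α / emb f + emb c / emb p) =
      C + G (emb (p * α) / emb f)

/-- the sum `S(f, q)` -/
noncomputable def u5S (G : ℂ → ℂ) (f : Eis) (q : Eis → ℤ) : ℂ := ∑ α ∈ rp f, (q α : ℂ) * G (emb α / emb f)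

/-- the character induced modulo `p` -/
noncomputable def u5q (p : Eis) (q : Eis → ℤ) (x : Eis) : ℤ := if p ∣ x then 0 else q x

theorem u5_pt {f : Eis} (hf : f ≠ 0) {a b : Eis} (hab : f ∣ a - b) :
    ∃ t : Eis, emb a / emb f = emb b / emb f + emb t := by
  obtain ⟨t, ht⟩ := hab
  have hfe : emb f ≠ 0 := CUL.l2_emb_ne hf
  refine ⟨t, ?_⟩
  have h2 : a = b + f * t := by linear_combination ht
  rw [h2, map_add, map_mul]
  field_simp

theorem u5_cop {f p : Eis} (hp : Prime p) (hpf : ¬ p ∣ f) : IsCoprime p f := by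
  have hdom := eis_isDomain
  have hpid := eis_pid
  exact (hp.irreducible.coprime_iff_not_dvd).2 hpf

/-- the sum over the classes modulo `p` with the class of zero removed -/
theorem u5_zero {p : Eis} (hp : p ≠ 0) (X : Eis → ℂ) (x₀ : ℂ) (hX : ∀ d, p ∣ d → X d = x₀) :
    ∑ d ∈ rp p, (if p ∣ d then 0 else X d) = ∑ d ∈ rp p, X d - x₀ := by
  obtain ⟨d₀, ⟨hd, hdd⟩, hu⟩ := CUL.rp_spec hp 0
  have hp0 : p ∣ d₀ := by
    rw [zero_sub, dvd_neg] at hdd
    exact hdd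
  have h1 : ∀ d ∈ rp p, (if p ∣ d then 0 else X d) = X d - (if d = d₀ then x₀ else 0) := by
    intro d hd'
    by_cases h : p ∣ d
    · have h2 : d = d₀ := hu d ⟨hd', by rw [zero_sub, dvd_neg]; exact h⟩
      rw [if_pos h, if_pos h2, hX d h, sub_self]
    · have h2 : d ≠ d₀ := fun h3 => h (by rw [h3]; exact hp0)
      rw [if_neg h, if_neg h2, sub_zero]
  rw [Finset.sum_congr rfl h1, Finset.sum_sub_distrib, Finset.sum_ite_eq' (rp p) d₀, if_pos hd]

theorem u5_crt {f p : Eis} {q : Eis → ℤ} (hq : u5Q f q) (hp : Prime p) (hpf : ¬ p ∣ f)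
    (X : Eis → ℂ) (hX : ∀ a b, f * p ∣ a - b → X a = X b) :
    ∑ x ∈ rp (f * p), (u5q p q x : ℂ) * X x =
      ∑ c ∈ rp f, (q p : ℂ) * ((q c : ℂ) * ∑ d ∈ rp p, (if p ∣ d then 0 else X (c * p + d * f))) := by
  have := eis_isDomain
  have hf0 : f ≠ 0 := CUL.primary_ne hq.prim
  have hp0 : p ≠ 0 := hp.ne_zero
  have hcop : IsCoprime f p := (u5_cop hp hpf).symm
  have hper : ∀ a b, f * p ∣ a - b → (u5q p q a : ℂ) * X a = (u5q p q b : ℂ) * X b := by
    intro a b hab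
    have h1 : p ∣ a - b := (Dvd.intro_left f rfl).trans hab
    have h2 : f ∣ a - b := (Dvd.intro p rfl).trans hab
    have h3 : u5q p q a = u5q p q b := by
      have h4 : p ∣ a ↔ p ∣ b := by
        constructor
        · intro h; have := dvd_sub h h1; rwa [sub_sub_cancel] at this
        · intro h; have := dvd_add h h1; rwa [add_sub_cancel] at this
      unfold u5q
      rw [hq.per a b h2]
      by_cases h5 : p ∣ a
      · rw [if_pos h5, if_pos (h4.1 h5)]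
      · rw [if_neg h5, if_neg (fun h => h5 (h4.2 h))]
    rw [h3, hX a b hab]
  rw [IsRep.crt hcop (CUL.rp_spec hf0) (CUL.rp_spec hp0) _ (CUL.rp_spec (mul_ne_zero hf0 hp0)) hper]
  refine Finset.sum_congr rfl fun c _ => ?_
  rw [← mul_assoc, Finset.mul_sum]
  refine Finset.sum_congr rfl fun d _ => ?_
  have h1 : p ∣ c * p + d * f ↔ p ∣ d := by
    constructor
    · intro h
      have h2 : p ∣ d * f := by
        have h3 := dvd_sub h (Dvd.intro_left c rfl : p ∣ c * p)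
        rwa [add_sub_cancel_left] at h3
      exact (hp.dvd_or_dvd h2).resolve_right hpf
    · intro h
      exact dvd_add (Dvd.intro_left c rfl) (h.mul_right f)
  have h2 : q (c * p + d * f) = q p * q c := by
    rw [hq.per (c * p + d * f) (c * p) ⟨d, by ring⟩, hq.mul, mul_comm]
  unfold u5q
  by_cases h3 : p ∣ d
  · rw [if_pos h3, if_pos (h1.2 h3)]
    simp
  · rw [if_neg h3, if_neg (fun h => h3 (h1.1 h)), h2]
    push_cast
    ring

theorem u5_step1 {f p : Eis} {q : Eis → ℤ} (hq : u5Q f q) (hp : Prime p) (hP : Primary p) (hpf : ¬ p ∣ f) :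
    u5Q (f * p) (u5q p q) := by
  have := eis_isDomain
  have hcop : IsCoprime p f := u5_cop hp hpf
  refine ⟨CUL.primary_mul hq.prim hP, ?_, ?_, ?_, ?_, ?_⟩
  · intro h
    exact hq.nu (isUnit_of_mul_isUnit_left h)
  · intro x hx
    unfold u5q
    by_cases h : p ∣ x
    · rw [if_pos h]
    · rw [if_neg h]
      apply hq.zero
      intro h1
      apply hx
      exact IsCoprime.mul_right h1 (u5_cop hp h).symm
  · intro x y
    unfold u5q
    by_cases h : p ∣ x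
    · rw [if_pos h, if_pos (h.mul_right y), zero_mul]
    · by_cases h' : p ∣ y
      · rw [if_pos h', if_pos (h'.mul_left x), mul_zero]
      · rw [if_neg h, if_neg h', if_neg (fun h2 => (hp.dvd_or_dvd h2).elim h h'), hq.mul]
  · intro a b hab
    have h1 : p ∣ a - b := (Dvd.intro_left f rfl).trans hab
    have h2 : f ∣ a - b := (Dvd.intro p rfl).trans hab
    have h4 : p ∣ a ↔ p ∣ b := by
      constructor
      · intro h; have := dvd_sub h h1; rwa [sub_sub_cancel] at this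
      · intro h; have := dvd_add h h1; rwa [add_sub_cancel] at this
    unfold u5q
    rw [hq.per a b h2]
    by_cases h5 : p ∣ a
    · rw [if_pos h5, if_pos (h4.1 h5)]
    · rw [if_neg h5, if_neg (fun h => h5 (h4.2 h))]
  · have h1 := u5_crt hq hp hpf (fun _ => 1) (fun _ _ _ => rfl)
    simp only [mul_one] at h1
    rw [h1, ← Finset.mul_sum, ← Finset.sum_mul, hq.sum, zero_mul, mul_zero]

theorem u5_step {G : ℂ → ℂ} (hG : u5G G) {f p : Eis} {q : Eis → ℤ} (hq : u5Q f q) (hp : Prime p)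
    (hP : Primary p) (hpf : ¬ p ∣ f) :
    u5S G (f * p) (u5q p q) = (1 - (q p : ℂ)) * u5S G f q := by
  have := eis_isDomain
  have hf0 : f ≠ 0 := CUL.primary_ne hq.prim
  have hp0 : p ≠ 0 := hp.ne_zero
  have hfe : emb f ≠ 0 := CUL.l2_emb_ne hf0
  have hpe : emb p ≠ 0 := CUL.l2_emb_ne hp0
  have hcop : IsCoprime f p := (u5_cop hp hpf).symm
  obtain ⟨C, hC⟩ := hG.dist f p hq.prim hq.nu hP hcop
  have h1 := u5_crt hq hp hpf (fun x => G (emb x / emb (f * p))) (by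
    intro a b hab
    obtain ⟨t, ht⟩ := u5_pt (mul_ne_zero hf0 hp0) hab
    show G (emb a / emb (f * p)) = G (emb b / emb (f * p))
    rw [ht, hG.per])
  rw [u5S, h1]
  have h2 : ∀ c ∈ rp f, (q p : ℂ) * ((q c : ℂ) * ∑ d ∈ rp p,
      (if p ∣ d then 0 else G (emb (c * p + d * f) / emb (f * p)))) =
      (q p : ℂ) * C * (q c : ℂ) + (q (p * c) : ℂ) * G (emb (p * c) / emb f) -
        (q p : ℂ) * ((q c : ℂ) * G (emb c / emb f)) := by
    intro c _
    have h3 : ∀ d, emb (c * p + d * f) / emb (f * p) = emb c / emb f + emb d / emb p := by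
      intro d
      rw [map_add, map_mul, map_mul, map_mul]
      field_simp
    simp only [h3]
    rw [u5_zero hp0 (fun d => G (emb c / emb f + emb d / emb p)) (G (emb c / emb f)) (by
      rintro d ⟨t, rfl⟩
      show G (emb c / emb f + emb (p * t) / emb p) = G (emb c / emb f)
      have h4 : emb (p * t) / emb p = emb t := by rw [map_mul]; field_simp
      rw [h4, hG.per]), hq.mul]
    by_cases hc : IsCoprime c f
    · rw [hC c hc]
      push_cast
      ring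
    · rw [hq.zero c hc]
      simp
  rw [Finset.sum_congr rfl h2, Finset.sum_sub_distrib, Finset.sum_add_distrib, ← Finset.mul_sum, ← Finset.mul_sum,
    hq.sum]
  have h5 : ∑ c ∈ rp f, (q (p * c) : ℂ) * G (emb (p * c) / emb f) = u5S G f q := by
    refine (CUL.rp_spec hf0).sum_mul hcop.symm (fun c => (q c : ℂ) * G (emb c / emb f)) ?_
    intro a b hab
    obtain ⟨t, ht⟩ := u5_pt hf0 hab
    show (q a : ℂ) * G (emb a / emb f) = (q b : ℂ) * G (emb b / emb f)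
    rw [ht, hG.per, hq.per a b hab]
  rw [h5, u5S]
  ring

/-- the character modulo a set of primes -/
noncomputable def u5T (T : Finset Eis) (q : Eis → ℤ) (x : Eis) : ℤ := if ∃ p ∈ T, p ∣ x then 0 else q x

theorem u5_T {G : ℂ → ℂ} (hG : u5G G) {f : Eis} {q : Eis → ℤ} (hq : u5Q f q) (T : Finset Eis)
    (hT : ∀ p ∈ T, Prime p ∧ Primary p ∧ ¬ p ∣ f ∧ q p = -1) :
    u5Q (f * ∏ p ∈ T, p) (u5T T q) ∧ u5S G (f * ∏ p ∈ T, p) (u5T T q) = 2 ^ T.card * u5S G f q := by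
  have := eis_isDomain
  induction T using Finset.induction_on with
  | empty =>
    have h1 : u5T ∅ q = q := by
      funext x
      simp [u5T]
    rw [Finset.prod_empty, mul_one, h1, Finset.card_empty, pow_zero, one_mul]
    exact ⟨hq, rfl⟩
  | insert p T hp ih =>
    obtain ⟨ih1, ih2⟩ := ih (fun p' hp' => hT p' (Finset.mem_insert_of_mem hp'))
    obtain ⟨h1, h2, h3, h4⟩ := hT p (Finset.mem_insert_self p T)
    have h5 : ∀ p' ∈ T, ¬ p' ∣ p := by
      intro p' hp'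
      obtain ⟨k1, k2, -, -⟩ := hT p' (Finset.mem_insert_of_mem hp')
      exact CUL.not_dvd_of_ne k1 h1 k2 h2 (fun h => hp (h ▸ hp'))
    have h6 : ∀ p' ∈ T, ¬ p ∣ p' := by
      intro p' hp'
      obtain ⟨k1, k2, -, -⟩ := hT p' (Finset.mem_insert_of_mem hp')
      exact CUL.not_dvd_of_ne h1 k1 h2 k2 (fun h => hp (h ▸ hp'))
    have h7 : ¬ p ∣ f * ∏ p ∈ T, p := by
      intro h
      rcases h1.dvd_or_dvd h with h | h
      · exact h3 h
      · obtain ⟨p', hp', hd⟩ := (h1.dvd_finsetProd_iff _).1 h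
        exact h6 p' hp' hd
    have e1 : f * ∏ p ∈ insert p T, p = (f * ∏ p ∈ T, p) * p := by
      rw [Finset.prod_insert hp]; ring
    have e2 : u5T (insert p T) q = u5q p (u5T T q) := by
      funext x
      show (if ∃ p' ∈ insert p T, p' ∣ x then 0 else q x) = if p ∣ x then 0 else (if ∃ p' ∈ T, p' ∣ x then 0 else q x)
      by_cases hx : p ∣ x
      · rw [if_pos ⟨p, Finset.mem_insert_self p T, hx⟩, if_pos hx]
      · rw [if_neg hx]
        by_cases hx' : ∃ p ∈ T, p ∣ x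
        · obtain ⟨p', hp', hd⟩ := hx'
          rw [if_pos ⟨p', Finset.mem_insert_of_mem hp', hd⟩, if_pos ⟨p', hp', hd⟩]
        · rw [if_neg hx', if_neg]
          rintro ⟨p', hp', hd⟩
          rcases Finset.mem_insert.1 hp' with h | h
          · exact hx (h ▸ hd)
          · exact hx' ⟨p', h, hd⟩
    have e3 : u5T T q p = -1 := by
      unfold u5T
      rw [if_neg, h4]
      rintro ⟨p', hp', hd⟩
      exact h5 p' hp' hd
    rw [e1, e2]
    refine ⟨u5_step1 ih1 h1 h2 h7, ?_⟩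
    rw [u5_step hG ih1 h1 h2 h7, e3, ih2, Finset.card_insert_of_notMem hp, pow_succ]
    push_cast
    ring

theorem u5_base (Q : Lev) : u5Q Q.f Q.q := by
  refine ⟨Q.hf, Q.hfu, Q.q_zero, Q.q_mul, Q.q_per, ?_⟩
  obtain ⟨x, hx⟩ := Q.q_non
  have hc : IsCoprime x Q.f := by
    by_contra h
    rw [Q.q_zero x h] at hx
    norm_num at hx
  have h1 : ∑ α ∈ rp Q.f, (Q.q (x * α) : ℂ) = ∑ α ∈ rp Q.f, (Q.q α : ℂ) :=
    (CUL.rp_spec (f_ne Q)).sum_mul hc (fun α => (Q.q α : ℂ)) (by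
      intro a b hab
      show (Q.q a : ℂ) = (Q.q b : ℂ)
      rw [Q.q_per a b hab])
  have h2 : ∑ α ∈ rp Q.f, (Q.q (x * α) : ℂ) = -∑ α ∈ rp Q.f, (Q.q α : ℂ) := by
    rw [← Finset.sum_neg_distrib]
    refine Finset.sum_congr rfl fun α _ => ?_
    rw [Q.q_mul, hx]
    push_cast
    ring
  rw [h2] at h1
  linear_combination (-1 / 2) * h1

theorem u5_over {G : ℂ → ℂ} (hG : u5G G) {Q L : Lev} {T : Finset Eis} (ov : Over Q T L) :
    u5S G L.f L.q = 2 ^ T.card * u5S G Q.f Q.q := by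
  obtain ⟨h1, h2⟩ := u5_T hG (u5_base Q) T ov.hT
  have e : u5T T Q.q = L.q := by
    funext x
    by_cases hx : IsCoprime x L.f
    · rw [ov.hq x hx, u5T, if_neg]
      rintro ⟨p, hp, hd⟩
      have h3 : p ∣ L.f := by
        rw [ov.hf]
        exact (Finset.dvd_prod_of_mem _ hp).mul_left _
      exact (ov.hT p hp).1.not_isUnit (hx.isUnit_of_dvd' hd h3)
    · rw [L.q_zero x hx]
      rw [ov.hf] at hx
      exact h1.zero x hx
  rw [← e, ov.hf, h2]

theorem u5_sum {G : ℂ → ℂ} (hG : u5G G) {L : Lev} {R : Finset Eis} (hR : IsR L R)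
    (hu : ∀ ζ x : Eis, IsUnit ζ → (L.q (ζ * x) : ℂ) * G (pt L (ζ * x)) = (L.q x : ℂ) * G (pt L x)) :
    u5S G L.f L.q = 6 * ∑ c ∈ R, (L.q c : ℂ) * G (pt L c) := by
  have h1 := sum_R L hR (fun x => (L.q x : ℂ) * G (pt L x)) (by
    intro a b hab
    obtain ⟨t, ht⟩ := u5_pt (f_ne L) hab
    show (L.q a : ℂ) * G (pt L a) = (L.q b : ℂ) * G (pt L b)
    rw [pt, pt, ht, hG.per, L.q_per a b hab]) hu
  rw [← h1, u5S, Finset.sum_filter_of_ne]
  · rfl
  · intro x _ hne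
    by_contra h
    apply hne
    rw [L.q_zero x h]
    simp

/-- `log ‖x‖` -/
theorem u5_Gx : u5G (fun z => ((Real.log ‖xw z‖ : ℝ) : ℂ)) := by
  refine ⟨fun z a => by rw [xw_add], ?_⟩
  intro f p hf hfu hp hc
  obtain ⟨C, hC⟩ := u4_x hf hfu hp hc
  refine ⟨(C : ℂ), fun α hα => ?_⟩
  rw [← Complex.ofReal_sum, hC α hα, Complex.ofReal_add]

/-- `log ‖U‖` -/
theorem u5_GU : u5G (fun z => ((Real.log ‖Um z‖ : ℝ) : ℂ)) := by
  refine ⟨fun z a => by rw [Um, Um, ym, ym, yw_add], ?_⟩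
  intro f p hf hfu hp hc
  obtain ⟨C, hC⟩ := u4_U hf hfu hp hc
  refine ⟨(C : ℂ), fun α hα => ?_⟩
  rw [← Complex.ofReal_sum, hC α hα, Complex.ofReal_add]

theorem u5_log (L : Lev) (R : Finset Eis) (F : ℂ → ℂ) (hF : ∀ c ∈ R, F (pt L c) ≠ 0) :
    ((Real.log ‖∏ c ∈ R, F (pt L c) ^ L.q c‖ : ℝ) : ℂ) =
      ∑ c ∈ R, (L.q c : ℂ) * ((Real.log ‖F (pt L c)‖ : ℝ) : ℂ) := by
  rw [norm_prod, Real.log_prod (fun c hc => norm_ne_zero_iff.2 (zpow_ne_zero _ (hF c hc))), Complex.ofReal_sum]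
  refine Finset.sum_congr rfl fun c _ => ?_
  rw [norm_zpow, Real.log_zpow, Complex.ofReal_mul, Complex.ofReal_intCast]

theorem u5_unit_x (L : Lev) (h : L.ep = 0) (ζ x : Eis) (hζ : IsUnit ζ) :
    (L.q (ζ * x) : ℂ) * ((Real.log ‖xw (pt L (ζ * x))‖ : ℝ) : ℂ) =
      (L.q x : ℂ) * ((Real.log ‖xw (pt L x)‖ : ℝ) : ℂ) := by
  obtain ⟨s, j, -, -, -, h4⟩ := unit_act L hζ
  rw [L.q_mul, q_unit_even L h hζ, one_mul, (h4 x).1, norm_mul, CUL.zw_norm, one_mul]

theorem u5_unit_U (L : Lev) (h : L.ep = 1) (ζ x : Eis) (hζ : IsUnit ζ) :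
    (L.q (ζ * x) : ℂ) * ((Real.log ‖Um (pt L (ζ * x))‖ : ℝ) : ℂ) =
      (L.q x : ℂ) * ((Real.log ‖Um (pt L x)‖ : ℝ) : ℂ) := by
  obtain ⟨s, j, hs, hq, -, h4⟩ := unit_act L hζ
  rw [h, pow_one] at hq
  rw [L.q_mul, hq]
  have h5 : ym (pt L (ζ * x)) = (s : ℂ) * ym (pt L x) := by
    rw [ym, ym, (h4 x).2]; ring
  rcases hs with rfl | rfl
  · have h6 : Um (pt L (ζ * x)) = Um (pt L x) := by
      rw [Um, Um, h5, Int.cast_one, one_mul]
    rw [h6, one_mul]
  · have h6 : Um (pt L (ζ * x)) = (Um (pt L x))⁻¹ := by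
      rw [Um, Um, h5, inv_div]
      push_cast
      congr 1 <;> ring
    rw [h6, norm_inv, Real.log_inv]
    push_cast
    ring

theorem u5_even {Q L : Lev} {T : Finset Eis} (ov : Over Q T L) (h : Q.ep = 0) {R₀ R : Finset Eis} (hR₀ : IsR Q R₀)
    (hR : IsR L R) : Real.log ‖ee L R‖ = 2 ^ T.card * Real.log ‖ee Q R₀‖ := by
  have hL : L.ep = 0 := by rw [ov.hep, h]
  have h1 := u5_over u5_Gx ov
  rw [u5_sum u5_Gx hR (u5_unit_x L hL), u5_sum u5_Gx hR₀ (u5_unit_x Q h)] at h1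
  have h2 := u5_log L R xw (fun c hc => CUL.u7_ne (OT_pt L (hR.1 c hc)))
  have h3 := u5_log Q R₀ xw (fun c hc => CUL.u7_ne (OT_pt Q (hR₀.1 c hc)))
  have h4 : ((Real.log ‖ee L R‖ : ℝ) : ℂ) = 2 ^ T.card * ((Real.log ‖ee Q R₀‖ : ℝ) : ℂ) := by
    rw [ee, ee, h2, h3]
    linear_combination (1 / 6) * h1
  exact_mod_cast h4

theorem u5_odd {Q L : Lev} {T : Finset Eis} (ov : Over Q T L) (h : Q.ep = 1) {R₀ R : Finset Eis} (hR₀ : IsR Q R₀)
    (hR : IsR L R) : Real.log ‖eo L R‖ = 2 ^ T.card * Real.log ‖eo Q R₀‖ := by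
  have hL : L.ep = 1 := by rw [ov.hep, h]
  have h1 := u5_over u5_GU ov
  rw [u5_sum u5_GU hR (u5_unit_U L hL), u5_sum u5_GU hR₀ (u5_unit_U Q h)] at h1
  have h2 := u5_log L R Um (fun c hc => u4_ne (OT_pt L (hR.1 c hc)).1 (u4_OT_x3 (OT_pt L (hR.1 c hc))))
  have h3 := u5_log Q R₀ Um (fun c hc => u4_ne (OT_pt Q (hR₀.1 c hc)).1 (u4_OT_x3 (OT_pt Q (hR₀.1 c hc))))
  have h4 : ((Real.log ‖eo L R‖ : ℝ) : ℂ) = 2 ^ T.card * ((Real.log ‖eo Q R₀‖ : ℝ) : ℂ) := by
    rw [eo, eo, h2, h3]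
    linear_combination (1 / 6) * h1
  exact_mod_cast h4

end JGL
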