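import Pool.Agent.JGL.U0
import Pool.Agent.JL.N2

/-!
# [JGL-U6] roots of unity and the unit rank of `F = ℚ(ω, √D₁)`

Port of `Pool/Agent/JL/N2.lean` (`finrank_KD`, `rank_KD`, `n2_unit`, `n2_KD_sq`, `torsion_KD`, `torsion_mem`); `KD_complex`, `fund_unit`, `torsion_KK`, `n2_KK_sq`, `n2_totient` are generic.
`u6_finrank`: `[F : ℚ] = 4`: `CF.d2_finrank`, and `1, s` is a basis of `F` over `KK` (`JL.mem_KD`, `u0_rep`; instance `JL.algKD`).
`u6_order`: `m = torsionOrder` is divisible by `6`; `m = 6 k`; if an odd prime `p` divides `k` then `φ(6 p) > 4` (`n2_totient`), contradiction as in `torsion_KD`; so `k` is a power of `2`; if `4 ∣ k` then `24 ∣ m`, `φ(24) = 8 > 4`. So `k = 1, 2`.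
`u6_odd`: `la ∣ D₁`, squarefree: `D₁` is not a unit; port of `torsion_KD` (`p = 2`: `n2_KD_sq`).
-/

set_option autoImplicit false

open NumberField IsDedekindDomain Filter Topology
open scoped Classical ComplexConjugate

namespace JGL

open CM27 JZ
open CU (la eE)
open CUL (Nl ez si ta DS Cont LV IsRep rp cr mn mo zw OT GalU W3 W9)
open JL (N1 KD sD Psi6)

variable {D₁ : Eis}

theorem u6_ext (h : ¬ IsSquare D₁) : Module.finrank CF.KK (KD D₁) = 2 := by
  obtain ⟨s, hs⟩ : ∃ s : KD D₁, (s : ℂ) = sD D₁ := ⟨⟨sD D₁, JL.n0_mem D₁⟩, rfl⟩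
  let f : (CF.KK × CF.KK) →ₗ[CF.KK] (KD D₁) :=
    (LinearMap.fst CF.KK CF.KK CF.KK).smulRight (1 : KD D₁) + (LinearMap.snd CF.KK CF.KK CF.KK).smulRight s
  have hf : ∀ a b : CF.KK, f (a, b) = algebraMap CF.KK (KD D₁) a + algebraMap CF.KK (KD D₁) b * s := by
    intro a b
    simp [f, Algebra.smul_def]
  have hfc : ∀ a b : CF.KK, ((f (a, b) : KD D₁) : ℂ) = (a : ℂ) + (b : ℂ) * sD D₁ := by
    intro a b
    rw [hf]
    push_cast
    rw [JL.algKD_coe, JL.algKD_coe, hs]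
  have hbij : Function.Bijective f := by
    constructor
    · rw [← LinearMap.ker_eq_bot, LinearMap.ker_eq_bot']
      rintro ⟨a, b⟩ h0
      have h1 : (a : ℂ) + (b : ℂ) * sD D₁ = 0 + 0 * sD D₁ := by
        rw [← hfc, h0, zero_mul, add_zero]
        rfl
      obtain ⟨h3, h4⟩ := u0_rep h a.2 b.2 (zero_mem _) (zero_mem _) h1
      have e1 : a = 0 := Subtype.ext h3
      have e2 : b = 0 := Subtype.ext h4
      rw [e1, e2]
      rfl
    · intro x
      obtain ⟨u₁, u₂, h1, h2, h3⟩ := (JL.mem_KD (D := D₁) (x : ℂ)).1 x.2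
      refine ⟨(⟨u₁, h1⟩, ⟨u₂, h2⟩), ?_⟩
      apply Subtype.ext
      rw [hfc, h3]
  have e' := LinearEquiv.finrank_eq (LinearEquiv.ofBijective f hbij)
  rw [← e', Module.finrank_prod, Module.finrank_self]

theorem u6_finrank (h : ¬ IsSquare D₁) : Module.finrank ℚ (KD D₁) = 4 := by
  have h2 := CF.d2_finrank (KD D₁) (JL.w_mem_KD D₁)
  change 2 * Module.finrank CF.KK (KD D₁) = Module.finrank ℚ (KD D₁) at h2
  rw [u6_ext h] at h2
  exact h2.symm

theorem u6_rank (h : ¬ IsSquare D₁) : Units.rank (KD D₁) = 1 := by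
  have h1 := IsTotallyComplex.finrank (K := KD D₁)
  rw [u6_finrank h] at h1
  have h2 := InfinitePlace.card_eq_nrRealPlaces_add_nrComplexPlaces (KD D₁)
  rw [IsTotallyComplex.nrRealPlaces_eq_zero] at h2
  unfold Units.rank
  omega

/-- a root of unity of every order dividing the torsion order -/
theorem u6_prim {n : ℕ} (hn : n ∣ Units.torsionOrder (KD D₁)) : ∃ x : KD D₁, IsPrimitiveRoot x n := by
  have hm0 : Units.torsionOrder (KD D₁) ≠ 0 := Units.torsionOrder_ne_zero (KD D₁)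
  obtain ⟨μ, hμ⟩ : ∃ μ : Units.torsion (KD D₁), orderOf μ = Units.torsionOrder (KD D₁) :=
    IsCyclic.exists_ofOrder_eq_natCard
  rw [← IsPrimitiveRoot.iff_orderOf, ← IsPrimitiveRoot.coe_submonoidClass_iff,
    ← IsPrimitiveRoot.coe_units_iff] at hμ
  replace hμ := hμ.map_of_injective (FaithfulSMul.algebraMap_injective (𝓞 (KD D₁)) (KD D₁))
  obtain ⟨j, hj⟩ := hn
  exact ⟨_, hμ.pow (Nat.pos_of_ne_zero hm0) (by rw [hj, mul_comm])⟩

theorem u6_deg (h : ¬ IsSquare D₁) {n : ℕ} (hn : n ∣ Units.torsionOrder (KD D₁)) (h0 : 0 < n) :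
    Nat.totient n ≤ 4 := by
  obtain ⟨x, h7⟩ := u6_prim hn
  have h8 := h7.totient_le_degree_minpoly
  have h9 : (minpoly ℤ x).natDegree ≤ 4 := by
    have hint : IsIntegral ℤ x := h7.isIntegral h0
    have h10 := minpoly.isIntegrallyClosed_eq_field_fractions' ℚ hint
    have h11 : (minpoly ℚ x).natDegree = (minpoly ℤ x).natDegree := by
      rw [h10, (minpoly.monic hint).natDegree_map]
    rw [← h11, ← u6_finrank h]
    exact minpoly.natDegree_le _
  exact h8.trans h9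

theorem u6_six (D₁ : Eis) : 6 ∣ Units.torsionOrder (KD D₁) := by
  have h3 : 3 ∣ Units.torsionOrder (KD D₁) := by
    have : IsPrimitiveRoot (⟨w, JL.w_mem_KD D₁⟩ : KD D₁) 3 :=
      IsPrimitiveRoot.of_map_of_injective (f := (KD D₁).val) (by exact CF.d2_prim) ((KD D₁).val.toRingHom.injective)
    exact Units.dvd_torsionOrder_of_isPrimitiveRoot this
  have h2 : 2 ∣ Units.torsionOrder (KD D₁) := (Units.even_torsionOrder (KD D₁)).two_dvd
  omega

theorem u6_order (h : ¬ IsSquare D₁) : Units.torsionOrder (KD D₁) = 6 ∨ Units.torsionOrder (KD D₁) = 12 := by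
  obtain ⟨k, hk⟩ := u6_six D₁
  have hpr : ∀ p : ℕ, p.Prime → p ∣ k → p = 2 := by
    intro p hp hpk
    by_contra hp2
    have hd : 6 * p ∣ Units.torsionOrder (KD D₁) := by
      rw [hk]
      exact mul_dvd_mul_left 6 hpk
    have h1 := u6_deg h hd (by have := hp.pos; omega)
    have h2 := JL.n2_totient p hp hp2
    omega
  have h4 : ¬ 4 ∣ k := by
    intro h4
    have hd : 24 ∣ Units.torsionOrder (KD D₁) := by
      rw [hk]
      exact mul_dvd_mul_left 6 h4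
    have h1 := u6_deg h hd (by norm_num)
    have h2 : Nat.totient 24 = 8 := by decide
    omega
  rcases eq_or_ne k 1 with hk1 | hk1
  · left
    rw [hk, hk1]
  · right
    obtain ⟨p, hp, hpk⟩ := Nat.exists_prime_and_dvd hk1
    have h2 := hpr p hp hpk
    rw [h2] at hpk
    obtain ⟨k', hk'⟩ := hpk
    have hk1' : k' = 1 := by
      by_contra hne
      obtain ⟨q, hq, hqk⟩ := Nat.exists_prime_and_dvd hne
      have h3 := hpr q hq (by rw [hk']; exact Dvd.dvd.mul_left hqk 2)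
      rw [h3] at hqk
      obtain ⟨k'', hk''⟩ := hqk
      exact h4 ⟨k'', by rw [hk', hk'']; ring⟩
    rw [hk, hk', hk1']

theorem u6_unit (hs : Squarefree D₁) (hu : ¬ IsUnit D₁) {z : ℂ} (hz : z ∈ CF.KK) : z ^ 2 * emb D₁ ≠ -1 := by
  intro he
  have hz0 : z ≠ 0 := by
    rintro rfl
    norm_num at he
  have h1 : (z⁻¹) ^ 2 = emb (-D₁) := by
    rw [map_neg, inv_pow]
    rw [inv_eq_iff_eq_inv, eq_comm, inv_eq_iff_eq_inv]
    field_simp
    linear_combination -he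
  have h2 : IsIntegral ℤ z⁻¹ := by
    refine IsIntegral.of_pow (n := 2) two_pos ?_
    rw [h1]
    exact JL.isIntegral_emb _
  obtain ⟨a, ha⟩ := JL.KK_int (inv_mem hz) h2
  have h3 : a ^ 2 = -D₁ := by
    apply emb_injective
    rw [map_pow, ← ha, h1]
  have h4 : IsUnit a := hs a ⟨-1, by rw [← sq, h3]; ring⟩
  apply hu
  have h5 : D₁ = -(a ^ 2) := by rw [h3, neg_neg]
  rw [h5, IsUnit.neg_iff]
  exact h4.pow 2

theorem u6_sq (h : ¬ IsSquare D₁) (hs : Squarefree D₁) (hu : ¬ IsUnit D₁) (x : KD D₁) : x ^ 2 ≠ -1 := by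
  intro hx
  obtain ⟨u₁, u₂, h1, h2, h3⟩ := (JL.mem_KD (D := D₁) (x : ℂ)).1 x.2
  have h4 : (x : ℂ) ^ 2 = -1 := by
    have := congrArg (fun y : KD D₁ => (y : ℂ)) hx
    simpa using this
  have h5 : (u₁ ^ 2 + u₂ ^ 2 * emb D₁) + (2 * u₁ * u₂) * sD D₁ = (-1) + 0 * sD D₁ := by
    rw [← h4, h3, ← JL.sD_sq]
    ring
  have h7 : u₁ ^ 2 + u₂ ^ 2 * emb D₁ ∈ CF.KK :=
    add_mem (pow_mem h1 2) (mul_mem (pow_mem h2 2) (CF.d2_emb_mem D₁))
  have h8 : 2 * u₁ * u₂ ∈ CF.KK := mul_mem (mul_mem (by exact_mod_cast intCast_mem CF.KK 2) h1) h2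
  obtain ⟨h9, h10⟩ := u0_rep h h7 h8 (neg_mem (one_mem _)) (zero_mem _) h5
  rcases mul_eq_zero.1 h10 with h11 | h11
  · have h12 : u₁ = 0 := by
      rcases mul_eq_zero.1 h11 with h | h
      · norm_num at h
      · exact h
    rw [h12] at h9
    exact u6_unit hs hu h2 (by rw [← h9]; ring)
  · rw [h11] at h9
    apply JL.n2_KK_sq ⟨u₁, h1⟩
    apply Subtype.ext
    have : u₁ ^ 2 = -1 := by rw [← h9]; ring
    simpa using this

theorem u6_odd (h : ¬ IsSquare D₁) (hs : Squarefree D₁) (hla : la ∣ D₁) : Units.torsionOrder (KD D₁) = 6 := by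
  have hu : ¬ IsUnit D₁ := fun hu => CU.la_prime.not_isUnit (isUnit_of_dvd_unit hla hu)
  rcases u6_order h with h1 | h1
  · exact h1
  · exfalso
    obtain ⟨x, hx⟩ := u6_prim (D₁ := D₁) (n := 4) (by rw [h1]; norm_num)
    have h9 : IsPrimitiveRoot (x ^ 2) 2 := hx.pow (by norm_num) (by norm_num)
    exact u6_sq h hs hu x (h9.eq_neg_one_of_two_right)

theorem u6_mem (h : ¬ IsSquare D₁) {ζ : (𝓞 (KD D₁))ˣ} (hζ : ζ ∈ Units.torsion (KD D₁)) :
    (((ζ : 𝓞 (KD D₁)) : KD D₁) : ℂ) ^ 12 = 1 := by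
  have hd : Units.torsionOrder (KD D₁) ∣ 12 := by
    rcases u6_order h with h1 | h1
    · rw [h1]
      norm_num
    · rw [h1]
  rw [← Units.rootsOfUnity_eq_torsion, mem_rootsOfUnity] at hζ
  obtain ⟨k, hk⟩ := hd
  have h2 : ζ ^ 12 = 1 := by
    rw [hk, pow_mul, hζ, one_pow]
  have h3 := congrArg (fun y : (𝓞 (KD D₁))ˣ => (((y : 𝓞 (KD D₁)) : KD D₁) : ℂ)) h2
  simpa using h3

end JGL
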