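import Pool.Agent.JGL.KE
import Pool.Agent.JGL.KO
import Pool.Agent.JGL.U1
import Pool.Agent.JGL.U2
import Pool.Agent.JGL.U3
import Pool.Agent.JGL.U5
import Pool.Agent.JGL.U6

/-!
# [JGL-U] the elliptic units

PROOF. `u_logQ`, `u_logQo` (`log_ee`, `log_eo`, `LJ_lim`, regulator `= 2 |log ‖ε‖|`, torsion order `6` or `12`): `|log ‖e_Q‖| = 2 ^ j h |log ‖ε‖|` at the primitive level, so `|log ‖e‖| = 2 ^ (j + #T) h |log ‖ε‖|` (`u5_even`, `u5_odd`).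
`e³` (even) resp. `e` (odd) is a unit of relative norm one (`u1_ee3`, `u1_eo`, `u3_unit`, the local units `CUL.w_x`, `u2_x`, `u2_U`).
Even: `e³ = ζ ε ^ N`, `|N| = 3 · 2 ^ j h`, `N = 3 n`; `1 = ζ τζ ν ^ (3 n)`, `ν = ε τε`, `ν ^ 6 = 1`, so `(ζ τζ)² = 1`, `ζ⁴` is a cube root of unity, fixed by `τ`, so `ζ ^ 8 = 1`, `ζ ^ 4 = 1`; `y = ζ³ ε ^ n` has `y³ = e³`, `e = w ^ m₀ y`.
`k ≠ 0`: `u1_ee`. `k = 0`: `(y τy)³ = 1`, `y τ y = w ^ j`, `w ^ j y` has norm one.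
-/

set_option autoImplicit false

open NumberField IsDedekindDomain Filter Topology
open scoped Classical ComplexConjugate

namespace JGL

open CM27 JZ
open CU (la eE)
open CUL (Nl ez si ta DS Cont LV IsRep rp cr mn mo zw OT GalU W3 W9)
open JL (N1 KD sD Psi6)

variable {D₁ : Eis}

/-- cube roots of unity -/
theorem u_three {t : ℂ} (ht : t ^ 3 = 1) : ∃ k : ZMod 3, t = zw k := by
  have hw := CUL.w2
  have h1 : (t - 1) * ((t - w) * (t - w ^ 2)) = 0 := by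
    have hw3 := CUL.w3
    linear_combination ht + (-(t ^ 2) + t) * hw + (t - 1) * hw3
  rcases mul_eq_zero.mp h1 with h2 | h2
  · exact ⟨0, by rw [CUL.zw_zero]; linear_combination h2⟩
  · rcases mul_eq_zero.mp h2 with h4 | h4
    · exact ⟨1, by rw [CUL.zw_one]; linear_combination h4⟩
    · exact ⟨2, by rw [CUL.zw_two]; linear_combination h4⟩

theorem u_zw_mem (k : ZMod 3) : zw k ∈ CF.KK := by
  have h : w ∈ CF.KK := by
    rw [CUL.mem_KK]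
    exact ⟨0, 1, by push_cast; ring⟩
  exact pow_mem h _

theorem u_zw_three (k : ZMod 3) : zw k ^ 3 = 1 := by
  unfold zw
  rw [← pow_mul, mul_comm, pow_mul, CUL.w3, one_pow]

theorem u_KK_KD {z : ℂ} (h : z ∈ CF.KK) : z ∈ KD D₁ :=
  (JL.mem_KD _).mpr ⟨z, 0, h, zero_mem _, by ring⟩

/-- the complex value of a unit -/
noncomputable def u_v (D : Eis) : (𝓞 (KD D))ˣ →* ℂ :=
  (((algebraMap (KD D) ℂ).comp (algebraMap (𝓞 (KD D)) (KD D)) : 𝓞 (KD D) →+* ℂ) :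
    𝓞 (KD D) →* ℂ).comp (Units.coeHom _)

theorem u_v_apply (u : (𝓞 (KD D₁))ˣ) : u_v D₁ u = (((u : 𝓞 (KD D₁)) : KD D₁) : ℂ) := rfl

theorem u_v_mem (u : (𝓞 (KD D₁))ˣ) : u_v D₁ u ∈ KD D₁ := ((u : 𝓞 (KD D₁)) : KD D₁).2

/-- the complex value of the conjugate of a unit -/
noncomputable def u_t (τ : KD D₁ ≃+* KD D₁) : (𝓞 (KD D₁))ˣ →* ℂ :=
  ((((algebraMap (KD D₁) ℂ).comp (τ : KD D₁ →+* KD D₁)).comp (algebraMap (𝓞 (KD D₁)) (KD D₁)) :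
    𝓞 (KD D₁) →+* ℂ) : 𝓞 (KD D₁) →* ℂ).comp (Units.coeHom _)

theorem u_t_apply (τ : KD D₁ ≃+* KD D₁) (u : (𝓞 (KD D₁))ˣ) :
    u_t τ u = ((τ ((u : 𝓞 (KD D₁)) : KD D₁) : KD D₁) : ℂ) := rfl

theorem u_v_int (u : (𝓞 (KD D₁))ˣ) : IsIntegral ℤ (u_v D₁ u) := by
  rw [u_v_apply]
  exact map_isIntegral_int (algebraMap (KD D₁) ℂ) (u : 𝓞 (KD D₁)).isIntegral_coe

theorem u_t_int (τ : KD D₁ ≃+* KD D₁) (u : (𝓞 (KD D₁))ˣ) : IsIntegral ℤ (u_t τ u) := by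
  rw [u_t_apply]
  exact map_isIntegral_int ((algebraMap (KD D₁) ℂ).comp (τ : KD D₁ →+* KD D₁))
    (u : 𝓞 (KD D₁)).isIntegral_coe

theorem u_v_ne (u : (𝓞 (KD D₁))ˣ) : u_v D₁ u ≠ 0 := by
  intro h0
  have h1 : u_v D₁ u * u_v D₁ u⁻¹ = 1 := by rw [← map_mul, mul_inv_cancel, map_one]
  rw [h0, zero_mul] at h1
  exact zero_ne_one h1

/-- The relative norm of a unit is a sixth root of unity. -/
theorem u_norm (τ : KD D₁ ≃+* KD D₁)
    (hτ : ∀ (u₁ u₂ : ℂ), u₁ ∈ CF.KK → u₂ ∈ CF.KK →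
      ∀ x : KD D₁, (x : ℂ) = u₁ + u₂ * sD D₁ → ((τ x : KD D₁) : ℂ) = u₁ - u₂ * sD D₁)
    (u : (𝓞 (KD D₁))ˣ) : (u_v D₁ u * u_t τ u) ^ 6 = 1 := by
  have h1 : ∀ u : (𝓞 (KD D₁))ˣ, ∃ a : Eis, u_v D₁ u * u_t τ u = emb a := by
    intro u
    apply JL.KK_int _ ((u_v_int u).mul (u_t_int τ u))
    obtain ⟨a, b, ha, hb, hab⟩ := (JL.mem_KD (D := D₁) (u_v D₁ u)).mp (u_v_mem u)
    have h2 : u_t τ u = a - b * sD D₁ := hτ a b ha hb _ hab
    rw [hab, h2]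
    have h3 : (a + b * sD D₁) * (a - b * sD D₁) = a ^ 2 - b ^ 2 * emb D₁ := by
      linear_combination (-(b ^ 2)) * JL.sD_sq D₁
    rw [h3]
    exact sub_mem (pow_mem ha 2) (mul_mem (pow_mem hb 2) (JL.F0_emb_mem D₁))
  obtain ⟨a, ha⟩ := h1 u
  obtain ⟨b, hb⟩ := h1 u⁻¹
  have h2 : a * b = 1 := by
    apply emb_injective
    rw [map_mul, map_one, ← ha, ← hb, mul_mul_mul_comm, ← map_mul, ← map_mul, mul_inv_cancel,
      map_one, map_one, mul_one]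
  obtain ⟨k, hk⟩ := Q3L.unit_cases (IsUnit.of_mul_eq_one b h2)
  rw [ha]
  have hom : emb Q3.om = w := by
    rw [emb_apply]
    simp [Q3.om]
  have h4 : (w ^ k) ^ 6 = 1 := by
    rw [← pow_mul, show k * 6 = 3 * (k * 2) by ring, pow_mul, CUL.w3, one_pow]
  rcases hk with hk | hk
  · rw [hk, map_pow, hom, h4]
  · rw [hk, map_neg, map_pow, hom, neg_pow, h4]
    norm_num

/-- a unit from integral elements -/
theorem u_unit {x : ℂ} (hx : x ∈ KD D₁) (h0 : x ≠ 0) (h1 : IsIntegral ℤ x) (h2 : IsIntegral ℤ x⁻¹) :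
    ∃ u : (𝓞 (KD D₁))ˣ, u_v D₁ u = x := by
  have hi : ∀ y : KD D₁, IsIntegral ℤ (y : ℂ) → IsIntegral ℤ y := fun y hy =>
    (isIntegral_algebraMap_iff (A := KD D₁) (B := ℂ) (algebraMap (KD D₁) ℂ).injective).mp hy
  have hx' : x⁻¹ ∈ KD D₁ := inv_mem hx
  let a : 𝓞 (KD D₁) := ⟨⟨x, hx⟩, hi ⟨x, hx⟩ h1⟩
  let b : 𝓞 (KD D₁) := ⟨⟨x⁻¹, hx'⟩, hi ⟨x⁻¹, hx'⟩ h2⟩
  have hab : a * b = 1 := by
    apply NumberField.RingOfIntegers.ext
    apply Subtype.ext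
    exact mul_inv_cancel₀ h0
  exact ⟨Units.mkOfMulEqOne a b hab, rfl⟩

theorem u_norm_pos (L : Lev) : (0 : ℝ) < (L.f.norm : ℝ) := by
  rw [← norm_emb_sq]
  have h2 : emb L.f ≠ 0 := fun h3 => f_ne L (emb_injective (h3.trans (map_zero emb).symm))
  positivity

/-- the absolute value of `e` at the primitive level, `ep = 0` -/
theorem u_logQ (Q : QD D₁) (h : Q.L.ep = 0) {R : Finset Eis} (hR : IsR Q.L R) {r : ℝ}
    (hr : Units.regulator (KD D₁) = 2 * r) (hr0 : 0 < r) :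
    ∃ j : ℕ, |Real.log ‖ee Q.L R‖| = ((2 ^ j * classNumber (KD D₁) : ℕ) : ℝ) * r := by
  have h1 := log_ee Q h hR (LJ_lim Q)
  rw [h, pow_zero, mul_one, hr] at h1
  have hN := u_norm_pos Q.L
  have hs : 0 < √(Q.L.f.norm : ℝ) := Real.sqrt_pos.mpr hN
  have hh : (0 : ℝ) ≤ (classNumber (KD D₁) : ℝ) := Nat.cast_nonneg _
  have hpi := Real.pi_pos
  have h3 : √3 ^ 2 = (3 : ℝ) := Real.sq_sqrt (by norm_num)
  rw [abs_of_nonneg (a := 4 * Real.pi * √3 * (2 * r) * _ / _) (by positivity)] at h1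
  have hs' := hs.ne'
  have hpi' := hpi.ne'
  rcases u6_order Q.nsq with ho | ho <;> rcases q_la_pm Q.L with hq | hq <;> rw [ho, hq] at h1
  · refine ⟨1, ?_⟩
    rw [h1]
    push_cast
    field_simp
    rw [h3]
    ring
  · refine ⟨2, ?_⟩
    rw [h1]
    push_cast
    field_simp
    rw [h3]
    ring
  · refine ⟨0, ?_⟩
    rw [h1]
    push_cast
    field_simp
    rw [h3]
    ring
  · refine ⟨1, ?_⟩
    rw [h1]
    push_cast
    field_simp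
    rw [h3]
    ring

/-- the absolute value of `e` at the primitive level, `ep = 1` -/
theorem u_logQo (Q : QD D₁) (h : Q.L.ep = 1) {R : Finset Eis} (hR : IsR Q.L R) {r : ℝ}
    (hr : Units.regulator (KD D₁) = 2 * r) (hr0 : 0 < r) :
    |Real.log ‖eo Q.L R‖| = ((classNumber (KD D₁) : ℕ) : ℝ) * r := by
  have h1 := log_eo Q h hR (LJ_lim Q)
  have hN := u_norm_pos Q.L
  rw [h, pow_one, hr, Real.sqrt_mul hN.le, u6_odd Q.nsq Q.sqf (Q.lam.mpr h)] at h1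
  have hs : 0 < √(Q.L.f.norm : ℝ) := Real.sqrt_pos.mpr hN
  have hh : (0 : ℝ) ≤ (classNumber (KD D₁) : ℝ) := Nat.cast_nonneg _
  have hpi := Real.pi_pos
  rw [abs_of_nonneg (a := 4 * Real.pi * √3 * (2 * r) * _ / _) (by positivity)] at h1
  have hs' := hs.ne'
  have hpi' := hpi.ne'
  have h3 : (0 : ℝ) < √3 := by positivity
  have h3' := h3.ne'
  rw [h1]
  push_cast
  field_simp
  ring

/-- `f` is not divisible by `la` -/
theorem u_la (L : Lev) : ¬ la ∣ L.f := by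
  intro h
  have h1 := la_cop L
  exact CU.la_prime.not_isUnit (h1.isUnit_of_dvd' dvd_rfl h)

theorem u_pt_mem (L : Lev) (c : Eis) : emb L.f * pt L c ∈ Set.range emb := by
  refine ⟨c, ?_⟩
  have h2 : emb L.f ≠ 0 := fun h3 => f_ne L (emb_injective (h3.trans (map_zero emb).symm))
  unfold pt
  field_simp

/-- the local units, `ep = 0` -/
theorem u_loc {L : Lev} {R : Finset Eis} (hR : IsR L R) (B : ValuationSubring ℂ) {q : Eis} (hq : Prime q)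
    (hqB : B.valuation (emb q) < 1) (hqf : ¬ q ∣ L.f) : B.valuation (ee L R) = 1 := by
  have hdom : IsDomain Eis := eis_isDomain
  have hpid : IsPrincipalIdealRing Eis := eis_pid
  rw [ee, map_prod, Finset.prod_eq_one]
  intro c hc
  have hOT := OT_pt L (hR.1 c hc)
  have hco : IsCoprime L.f q := ((hq.irreducible.coprime_iff_not_dvd).2 hqf).symm
  rw [map_zpow₀]
  have h1 : B.valuation (xw (pt L c)) = 1 := by
    by_cases h3 : q ∣ 3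
    · refine CUL.w_x B ?_ hOT
      obtain ⟨e, he⟩ := h3
      have h4 : (3 : ℂ) = emb q * emb e := by rw [← map_mul, ← he, map_ofNat]
      rw [h4, map_mul]
      exact lt_of_le_of_lt (mul_le_of_le_one_right' (CUL.w_emb_le B e)) hqB
    · exact u2_x hq h3 hqB hOT.1 (u_pt_mem L c) hco (u_la L)
  rw [h1, one_zpow]

/-- the local units, `ep = 1` -/
theorem u_loco {L : Lev} {R : Finset Eis} (hR : IsR L R) (B : ValuationSubring ℂ) {q : Eis} (hq : Prime q)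
    (hqB : B.valuation (emb q) < 1) (hqf : ¬ q ∣ L.f) (hql : ¬ q ∣ la) : B.valuation (eo L R) = 1 := by
  have hdom : IsDomain Eis := eis_isDomain
  have hpid : IsPrincipalIdealRing Eis := eis_pid
  have h3 : ¬ q ∣ 3 := by
    intro h3
    apply hql
    have h4 : (3 : Eis) ∣ la ^ 2 := by
      refine ⟨-CU.om, ?_⟩
      apply emb_injective
      rw [map_pow, CUL.la_sq, map_mul, map_neg, CUL.emb_om, map_ofNat]
      ring
    exact hq.dvd_of_dvd_pow (h3.trans h4)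
  rw [eo, map_prod, Finset.prod_eq_one]
  intro c hc
  have hOT := OT_pt L (hR.1 c hc)
  have hco : IsCoprime L.f q := ((hq.irreducible.coprime_iff_not_dvd).2 hqf).symm
  rw [map_zpow₀, u2_U hq h3 hqB hOT.1 (u_pt_mem L c) hco (u_la L), one_zpow]

theorem unitE_even {D₁ : Eis} (Q : QD D₁) {T : Finset Eis} {L : Lev} (ov : Over Q.L T L) (h : L.ep = 0)
    {R : Finset Eis} (hR : IsR L R) : ∃ m : ZMod 3, (L.k ≠ 0 → m = 0) ∧ UnitE D₁ (zw m * ee L R) := by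
  obtain ⟨ε, hε, hun⟩ := JL.fund_unit (KD D₁) (u6_rank Q.nsq) (algebraMap (KD D₁) ℂ)
  have hnε : ‖(algebraMap (KD D₁) ℂ) (((ε : 𝓞 (KD D₁)) : KD D₁))‖ = ‖u_v D₁ ε‖ := rfl
  rw [hnε] at hε
  have hreg : 0 < Units.regulator (KD D₁) := Units.regulator_pos (KD D₁)
  have hr0 : 0 < |Real.log ‖u_v D₁ ε‖| := by linarith
  have hQe : Q.L.ep = 0 := by rw [← ov.hep]; exact h
  obtain ⟨R₀, hR₀⟩ := exists_R Q.L
  obtain ⟨j, hj⟩ := u_logQ Q hQe hR₀ hε hr0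
  have hlog : |Real.log ‖ee L R‖| = ((2 ^ (T.card + j) * classNumber (KD D₁) : ℕ) : ℝ) * |Real.log ‖u_v D₁ ε‖| := by
    rw [u5_even ov hQe hR₀ hR, abs_mul, hj, abs_of_pos (by positivity : (0 : ℝ) < 2 ^ T.card)]
    push_cast
    ring
  obtain ⟨τ, -, hτ⟩ := u0_tau Q.nsq
  have hs := u1_gal Q ov
  have hs0 := u1_s_ne Q.nsq
  have hN1 := u1_ee3 h hR hs0 hs
  obtain ⟨hi1, hi2⟩ := u3_unit Q ov hN1 fun B q hq hqB hqf _ => by
    rw [map_pow, u_loc hR B hq hqB hqf, one_pow]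
  obtain ⟨a₁, a₂, ha₁, ha₂, hae, hai, hae0⟩ := hN1
  have hmem : ee L R ^ 3 ∈ KD D₁ := (JL.mem_KD _).mpr ⟨a₁, a₂, ha₁, ha₂, hae⟩
  obtain ⟨x, hx⟩ := u_unit hmem hae0 hi1 hi2
  have htx : u_t τ x = (ee L R ^ 3)⁻¹ := by
    rw [hai]
    exact hτ a₁ a₂ ha₁ ha₂ _ (by rw [← hae, ← hx]; rfl)
  obtain ⟨ζ, hζ, N, hxN⟩ := hun x
  have hζ12 : u_v D₁ ζ ^ 12 = 1 := u6_mem Q.nsq hζ
  have hζn : ‖u_v D₁ ζ‖ = 1 := by
    have h1 : ‖u_v D₁ ζ‖ ^ 12 = 1 := by rw [← norm_pow, hζ12, norm_one]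
    exact (pow_eq_one_iff_of_nonneg (norm_nonneg _) (by norm_num)).mp h1
  have hv : ee L R ^ 3 = u_v D₁ ζ * u_v D₁ ε ^ N := by
    rw [← hx, hxN, map_mul, map_zpow]
  have hNabs : (N.natAbs : ℝ) = ((3 * (2 ^ (T.card + j) * classNumber (KD D₁)) : ℕ) : ℝ) := by
    have h1 := congrArg (fun z : ℂ => |Real.log ‖z‖|) hv
    simp only [norm_mul, norm_pow, norm_zpow, hζn, one_mul, Real.log_pow, Real.log_zpow, abs_mul] at h1
    rw [hlog] at h1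
    rw [Nat.cast_natAbs, Int.cast_abs]
    have h2 : |((3 : ℕ) : ℝ)| = 3 := by norm_num
    rw [h2] at h1
    apply mul_right_cancel₀ hr0.ne'
    rw [← h1]
    push_cast
    ring
  have hN : N.natAbs = 3 * (2 ^ (T.card + j) * classNumber (KD D₁)) := by exact_mod_cast hNabs
  obtain ⟨n, hn⟩ : ∃ n : ℤ, N = 3 * n := by
    have h1 : (3 : ℤ) ∣ N := by
      rw [← Int.natAbs_dvd_natAbs, hN]
      exact ⟨_, rfl⟩
    exact h1
  have hnt : n.natAbs = 2 ^ (T.card + j) * classNumber (KD D₁) := by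
    rw [hn, Int.natAbs_mul] at hN
    have h1 : Int.natAbs 3 = 3 := rfl
    rw [h1] at hN
    omega
  -- the norm of `ε`
  have hνε := u_norm τ hτ ε
  set ν := u_v D₁ ε * u_t τ ε with hν
  have hxx : u_v D₁ x * u_t τ x = 1 := by
    rw [hx, htx, mul_inv_cancel₀ hae0]
  have hζζ : (u_v D₁ ζ * u_t τ ζ) ^ 2 = 1 := by
    have h2 : u_v D₁ x * u_t τ x = (u_v D₁ ζ * u_t τ ζ) * ν ^ N := by
      rw [hxN, map_mul, map_mul, map_zpow, map_zpow, hν, mul_zpow]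
      ring
    rw [hxx] at h2
    have h3 : (ν ^ N) ^ 2 = 1 := by
      rw [hn, ← zpow_natCast, ← zpow_mul, show 3 * n * ((2 : ℕ) : ℤ) = (6 : ℤ) * n by push_cast; ring, zpow_mul]
      have h4 : ν ^ (6 : ℤ) = 1 := by exact_mod_cast hνε
      rw [h4, one_zpow]
    calc (u_v D₁ ζ * u_t τ ζ) ^ 2 = (u_v D₁ ζ * u_t τ ζ) ^ 2 * (ν ^ N) ^ 2 := by rw [h3, mul_one]
      _ = (u_v D₁ ζ * u_t τ ζ * ν ^ N) ^ 2 := by ring
      _ = 1 := by rw [← h2, one_pow]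
  have hζ4 : u_v D₁ ζ ^ 4 = 1 := by
    obtain ⟨k, hk⟩ := u_three (t := u_v D₁ ζ ^ 4) (by rw [← pow_mul]; exact hζ12)
    have h5 : u_t τ ζ ^ 4 = u_v D₁ ζ ^ 4 := by
      have h6 := hτ (zw k) 0 (u_zw_mem k) (zero_mem _) (((ζ ^ 4 : (𝓞 (KD D₁))ˣ) : 𝓞 (KD D₁)) : KD D₁) (by
        have h7 : ((((ζ ^ 4 : (𝓞 (KD D₁))ˣ) : 𝓞 (KD D₁)) : KD D₁) : ℂ) = u_v D₁ (ζ ^ 4) := rfl
        rw [h7, map_pow, hk]
        ring)
      have h7 : ((τ (((ζ ^ 4 : (𝓞 (KD D₁))ˣ) : 𝓞 (KD D₁)) : KD D₁) : KD D₁) : ℂ) = u_t τ (ζ ^ 4) := rfl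
      rw [h7, map_pow] at h6
      rw [h6, hk]
      ring
    have h6 : u_v D₁ ζ ^ 8 = 1 := by
      have h7 : u_v D₁ ζ ^ 8 = u_v D₁ ζ ^ 4 * u_t τ ζ ^ 4 := by rw [h5]; ring
      rw [h7, ← mul_pow, show (4 : ℕ) = 2 * 2 by norm_num, pow_mul, hζζ, one_pow]
    have h7 : u_v D₁ ζ ^ 12 = u_v D₁ ζ ^ 8 * u_v D₁ ζ ^ 4 := by ring
    rw [hζ12, h6, one_mul] at h7
    exact h7.symm
  -- `e` up to a cube root of unity
  set y := u_v D₁ (ζ ^ 3 * ε ^ n) with hy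
  have hy0 : y ≠ 0 := u_v_ne _
  have hy' : y = u_v D₁ ζ ^ 3 * u_v D₁ ε ^ n := by rw [hy, map_mul, map_zpow, map_pow]
  have hy3 : y ^ 3 = ee L R ^ 3 := by
    rw [hv, hy', mul_pow, hn, mul_comm (3 : ℤ) n, zpow_mul]
    have h1 : (u_v D₁ ζ ^ 3) ^ 3 = u_v D₁ ζ := by
      calc (u_v D₁ ζ ^ 3) ^ 3 = (u_v D₁ ζ ^ 4) ^ 2 * u_v D₁ ζ := by ring
        _ = u_v D₁ ζ := by rw [hζ4]; ring
    rw [h1]
    rfl
  obtain ⟨m₀, hm₀⟩ : ∃ m₀ : ZMod 3, ee L R = zw m₀ * y := by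
    have h1 : (ee L R / y) ^ 3 = 1 := by
      rw [div_pow, hy3, div_self]
      rw [← hy3]
      exact pow_ne_zero _ hy0
    obtain ⟨k, hk⟩ := u_three h1
    exact ⟨k, by rw [← hk, div_mul_cancel₀ _ hy0]⟩
  have hlast : ∀ u : (𝓞 (KD D₁))ˣ, ∃ (y : ℂ) (l : ℤ), y ^ 12 = 1 ∧ y ∈ KD D₁ ∧
        (((u : 𝓞 (KD D₁)) : KD D₁) : ℂ) = y * (((ε : 𝓞 (KD D₁)) : KD D₁) : ℂ) ^ l := by
    intro u
    obtain ⟨ζ', hζ', l, huj⟩ := hun u
    refine ⟨u_v D₁ ζ', l, u6_mem Q.nsq hζ', u_v_mem _, ?_⟩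
    have h1 := congrArg (u_v D₁) huj
    rw [map_mul, map_zpow] at h1
    exact h1
  have hz12 : ∀ k : ZMod 3, (zw k * u_v D₁ ζ ^ 3) ^ 12 = 1 := by
    intro k
    calc (zw k * u_v D₁ ζ ^ 3) ^ 12 = (zw k ^ 3) ^ 4 * (u_v D₁ ζ ^ 4) ^ 9 := by ring
      _ = 1 := by rw [u_zw_three, hζ4]; norm_num
  have hzm : ∀ k : ZMod 3, zw k * u_v D₁ ζ ^ 3 ∈ KD D₁ := fun k =>
    mul_mem (u_KK_KD (u_zw_mem k)) (pow_mem (u_v_mem _) 3)
  by_cases hk : L.k = 0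
  · have hyt : u_t τ (ζ ^ 3 * ε ^ n) ^ 3 = u_t τ x := by
      have h1 : u_t τ x = u_t τ ζ * u_t τ ε ^ N := by rw [hxN, map_mul, map_zpow]
      have h2 : u_t τ ζ ^ 4 = 1 := by
        have h3 : u_t τ (ζ ^ 4) = 1 := by
          have h4 : ζ ^ 4 = 1 := by
            apply Units.ext
            apply RingOfIntegers.ext
            apply Subtype.ext
            have h5 : ((((ζ ^ 4 : (𝓞 (KD D₁))ˣ) : 𝓞 (KD D₁)) : KD D₁) : ℂ) = u_v D₁ (ζ ^ 4) := rfl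
            rw [h5, map_pow, hζ4]
            rfl
          rw [h4, map_one]
        rw [← map_pow]; exact h3
      rw [h1, map_mul, map_zpow, map_pow, mul_pow, hn, mul_comm (3 : ℤ) n, zpow_mul]
      have h3 : (u_t τ ζ ^ 3) ^ 3 = u_t τ ζ := by
        calc (u_t τ ζ ^ 3) ^ 3 = (u_t τ ζ ^ 4) ^ 2 * u_t τ ζ := by ring
          _ = u_t τ ζ := by rw [h2]; ring
      rw [h3]
      rfl
    obtain ⟨i, hi⟩ : ∃ i : ZMod 3, y * u_t τ (ζ ^ 3 * ε ^ n) = zw i := by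
      apply u_three
      rw [mul_pow, hyt, hy3, htx, mul_inv_cancel₀ hae0]
    refine ⟨i - m₀, fun h0 => absurd hk h0, ?_, ε, n, zw i * u_v D₁ ζ ^ 3, T.card + j, hz12 i, hzm i, ?_, hnt, hlast⟩
    · have h1 : zw (i - m₀) * ee L R = zw i * y := by
        rw [hm₀, ← mul_assoc, ← CUL.zw_add, sub_add_cancel]
      rw [h1]
      obtain ⟨b₁, b₂, hb₁, hb₂, hb⟩ := (JL.mem_KD (D := D₁) y).mp (u_v_mem _)
      have hbt : u_t τ (ζ ^ 3 * ε ^ n) = b₁ - b₂ * sD D₁ := hτ b₁ b₂ hb₁ hb₂ _ hb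
      refine ⟨zw i * b₁, zw i * b₂, mul_mem (u_zw_mem i) hb₁, mul_mem (u_zw_mem i) hb₂, ?_, ?_,
        mul_ne_zero (CUL.zw_ne i) hy0⟩
      · rw [hb]; ring
      · have h2 : zw i * b₁ - zw i * b₂ * sD D₁ = zw i * u_t τ (ζ ^ 3 * ε ^ n) := by
          rw [hbt]; ring
        rw [h2]
        apply inv_eq_of_mul_eq_one_right
        have h3 : zw i * y * (zw i * u_t τ (ζ ^ 3 * ε ^ n)) = zw i * zw i * (y * u_t τ (ζ ^ 3 * ε ^ n)) := by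
          ring
        rw [h3, hi, ← CUL.zw_add, ← CUL.zw_add]
        have h4 : ∀ j : ZMod 3, j + j + j = 0 := by decide
        rw [h4 i, CUL.zw_zero]
    · have h1 : zw (i - m₀) * ee L R = zw i * y := by
        rw [hm₀, ← mul_assoc, ← CUL.zw_add, sub_add_cancel]
      rw [h1, hy', ← mul_assoc]
      rfl
  · refine ⟨0, fun _ => rfl, ?_, ε, n, zw m₀ * u_v D₁ ζ ^ 3, T.card + j, hz12 m₀, hzm m₀, ?_, hnt, hlast⟩
    · rw [CUL.zw_zero, one_mul]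
      exact u1_ee h hR hs0 hs hk
    · rw [CUL.zw_zero, one_mul, hm₀, hy', ← mul_assoc]
      rfl

theorem unitE_odd {D₁ : Eis} (Q : QD D₁) {T : Finset Eis} {L : Lev} (ov : Over Q.L T L) (h : L.ep = 1)
    {R : Finset Eis} (hR : IsR L R) : UnitE D₁ (eo L R) := by
  obtain ⟨ε, hε, hun⟩ := JL.fund_unit (KD D₁) (u6_rank Q.nsq) (algebraMap (KD D₁) ℂ)
  have hnε : ‖(algebraMap (KD D₁) ℂ) (((ε : 𝓞 (KD D₁)) : KD D₁))‖ = ‖u_v D₁ ε‖ := rfl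
  rw [hnε] at hε
  have hreg : 0 < Units.regulator (KD D₁) := Units.regulator_pos (KD D₁)
  have hr0 : 0 < |Real.log ‖u_v D₁ ε‖| := by linarith
  have hQe : Q.L.ep = 1 := by rw [← ov.hep]; exact h
  obtain ⟨R₀, hR₀⟩ := exists_R Q.L
  have hj := u_logQo Q hQe hR₀ hε hr0
  have hlog : |Real.log ‖eo L R‖| = ((2 ^ T.card * classNumber (KD D₁) : ℕ) : ℝ) * |Real.log ‖u_v D₁ ε‖| := by
    rw [u5_odd ov hQe hR₀ hR, abs_mul, hj, abs_of_pos (by positivity : (0 : ℝ) < 2 ^ T.card)]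
    push_cast
    ring
  have hs := u1_gal Q ov
  have hs0 := u1_s_ne Q.nsq
  have hN1 := u1_eo h hR hs0 hs
  obtain ⟨hi1, hi2⟩ := u3_unit Q ov hN1 fun B q hq hqB hqf hql => u_loco hR B hq hqB hqf (hql h)
  have hN1' := hN1
  obtain ⟨a₁, a₂, ha₁, ha₂, hae, hai, hae0⟩ := hN1'
  have hmem : eo L R ∈ KD D₁ := (JL.mem_KD _).mpr ⟨a₁, a₂, ha₁, ha₂, hae⟩
  obtain ⟨x, hx⟩ := u_unit hmem hae0 hi1 hi2
  obtain ⟨ζ, hζ, N, hxN⟩ := hun x
  have hζ12 : u_v D₁ ζ ^ 12 = 1 := u6_mem Q.nsq hζ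
  have hζn : ‖u_v D₁ ζ‖ = 1 := by
    have h1 : ‖u_v D₁ ζ‖ ^ 12 = 1 := by rw [← norm_pow, hζ12, norm_one]
    exact (pow_eq_one_iff_of_nonneg (norm_nonneg _) (by norm_num)).mp h1
  have hv : eo L R = u_v D₁ ζ * u_v D₁ ε ^ N := by
    rw [← hx, hxN, map_mul, map_zpow]
  have hNabs : (N.natAbs : ℝ) = ((2 ^ T.card * classNumber (KD D₁) : ℕ) : ℝ) := by
    have h1 := congrArg (fun z : ℂ => |Real.log ‖z‖|) hv
    simp only [norm_mul, norm_zpow, hζn, one_mul, Real.log_zpow, abs_mul] at h1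
    rw [hlog] at h1
    rw [Nat.cast_natAbs, Int.cast_abs]
    apply mul_right_cancel₀ hr0.ne'
    rw [← h1]
  have hN : N.natAbs = 2 ^ T.card * classNumber (KD D₁) := by exact_mod_cast hNabs
  refine ⟨hN1, ε, N, u_v D₁ ζ, T.card, hζ12, u_v_mem _, hv, hN, ?_⟩
  intro u
  obtain ⟨ζ', hζ', l, huj⟩ := hun u
  refine ⟨u_v D₁ ζ', l, u6_mem Q.nsq hζ', u_v_mem _, ?_⟩
  have h1 := congrArg (u_v D₁) huj
  rw [map_mul, map_zpow] at h1
  exact h1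

end JGL
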