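import Pool.Agent.JGL.B
import Pool.Agent.JL.F0

/-!
# [JGL-U0] the field `F = ℚ(ω, √D₁)`, `D₁` not a square, and its integers

Port of `Pool/Agent/JL/F0.lean` (there `Cl0 D`; only `D` squarefree and not a square modulo 4 is used).
`u0_sD`: if `sD D₁ ∈ KK`, it is integral, so `sD D₁ = emb a` (`JL.KK_int`), `D₁ = a²`.
`u0_rep`, `u0_tau`: as in JL/F0 (`rep_unique`, `exists_tau`) with `u0_sD`. `JL.mem_KD`, `JL.KK_int`, `JL.F0_emb_mem` hold for all `D`.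
`u0_V`: as `JL.F0_V` (only `Squarefree` is used there).
`u0_int`: `Q.ring`. Case `t = 0`, `n = -D₁`, `4 ∤ D₁ - m²`: `ρ = s`, `δ = 1`; proof of `JL.KD_int`.
Case `t² - 4 n = D₁`: `ρ = (t + s)/2`, `δ = 1/2`. For `z = u₁ + u₂ s` integral: `U = 2 u₁`, `m = u₁² - u₂² D₁` are in `emb Eis`, `V = 2 u₂` too (`(2 u₂)² D₁ = U² - 4 m`);
`U² - D₁ V² = 4 m`, so `(U - t V)(U + t V) = 4 (m - n V²)`, hence `2 ∣ (U - tV)²` (as `U + tV = (U - tV) + 2 t V`), `2 ∣ U - t V` (2 is prime: `Q3.prime_two`); `z = (U - t V)/2 + V ρ`.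
-/

set_option autoImplicit false

open NumberField IsDedekindDomain Filter Topology
open scoped Classical ComplexConjugate

namespace JGL

open CM27 JZ
open CU (la eE)
open CUL (Nl ez si ta DS Cont LV IsRep rp cr mn mo zw OT GalU W3 W9)
open JL (N1 KD sD Psi6)

variable {D₁ : Eis}

theorem u0_sD (h : ¬ IsSquare D₁) : sD D₁ ∉ CF.KK := by
  intro hm
  obtain ⟨a, ha⟩ := JL.KK_int hm (JL.isIntegral_sD D₁)
  apply h
  refine ⟨a, ?_⟩
  apply emb_injective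
  rw [map_mul, ← ha, ← JL.sD_sq, sq]

theorem u0_rep (h : ¬ IsSquare D₁) {u₁ u₂ v₁ v₂ : ℂ} (h1 : u₁ ∈ CF.KK) (h2 : u₂ ∈ CF.KK) (h3 : v₁ ∈ CF.KK)
    (h4 : v₂ ∈ CF.KK) (he : u₁ + u₂ * sD D₁ = v₁ + v₂ * sD D₁) : u₁ = v₁ ∧ u₂ = v₂ := by
  have h22 : u₂ = v₂ := by
    by_contra hne
    apply u0_sD h
    have h5 : sD D₁ = (v₁ - u₁) / (u₂ - v₂) := by
      rw [eq_div_iff (sub_ne_zero.mpr hne)]
      linear_combination he
    rw [h5]
    exact div_mem (sub_mem h3 h1) (sub_mem h2 h4)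
  refine ⟨?_, h22⟩
  rw [h22] at he
  exact add_right_cancel he

theorem u0_tau (h : ¬ IsSquare D₁) : ∃ τ : KD D₁ ≃+* KD D₁, (∀ x, τ (τ x) = x) ∧ ∀ (u₁ u₂ : ℂ), u₁ ∈ CF.KK → u₂ ∈ CF.KK →
    ∀ x : KD D₁, (x : ℂ) = u₁ + u₂ * sD D₁ → ((τ x : KD D₁) : ℂ) = u₁ - u₂ * sD D₁ := by
  have hx : ∀ x : KD D₁, ∃ u₁ u₂ : ℂ, u₁ ∈ CF.KK ∧ u₂ ∈ CF.KK ∧ (x : ℂ) = u₁ + u₂ * sD D₁ :=
    fun x => (JL.mem_KD (x : ℂ)).mp x.2
  choose p q hp hq hpq using hx
  have hmem : ∀ x : KD D₁, p x - q x * sD D₁ ∈ KD D₁ := fun x =>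
    (JL.mem_KD _).mpr ⟨p x, - q x, hp x, neg_mem (hq x), by ring⟩
  let f : KD D₁ → KD D₁ := fun x => ⟨p x - q x * sD D₁, hmem x⟩
  have key : ∀ (u₁ u₂ : ℂ), u₁ ∈ CF.KK → u₂ ∈ CF.KK →
      ∀ x : KD D₁, (x : ℂ) = u₁ + u₂ * sD D₁ → ((f x : KD D₁) : ℂ) = u₁ - u₂ * sD D₁ := by
    intro u₁ u₂ h1 h2 x hx
    obtain ⟨h3, h4⟩ := u0_rep h (hp x) (hq x) h1 h2 (by rw [← hpq, hx])
    change p x - q x * sD D₁ = _
    rw [h3, h4]
  have hff : ∀ x, f (f x) = x := by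
    intro x
    apply Subtype.ext
    rw [key (p x) (- q x) (hp x) (neg_mem (hq x)) (f x) (by
      change p x - q x * sD D₁ = _
      ring), hpq x]
    ring
  refine ⟨RingEquiv.mk ⟨f, f, hff, hff⟩ ?_ ?_, hff, key⟩
  · intro x y
    apply Subtype.ext
    rw [key (p x * p y + q x * q y * emb D₁) (p x * q y + q x * p y)
      (add_mem (mul_mem (hp x) (hp y)) (mul_mem (mul_mem (hq x) (hq y)) (JL.F0_emb_mem D₁)))
      (add_mem (mul_mem (hp x) (hq y)) (mul_mem (hq x) (hp y))) (x * y) (by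
        push_cast
        rw [hpq x, hpq y]
        linear_combination (q x * q y) * JL.sD_sq D₁)]
    change _ = (p x - q x * sD D₁) * (p y - q y * sD D₁)
    linear_combination (- (q x * q y)) * JL.sD_sq D₁
  · intro x y
    apply Subtype.ext
    rw [key (p x + p y) (q x + q y) (add_mem (hp x) (hp y)) (add_mem (hq x) (hq y)) (x + y) (by
        push_cast
        rw [hpq x, hpq y]
        ring)]
    change _ = (p x - q x * sD D₁) + (p y - q y * sD D₁)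
    ring

theorem u0_V (h : Squarefree D₁) {V : ℂ} (hV : V ∈ CF.KK) (c : Eis) (hc : V ^ 2 * emb D₁ = emb c) :
    ∃ b : Eis, V = emb b := by
  have hdom : IsDomain Eis := eis_isDomain
  have hpid : IsPrincipalIdealRing Eis := eis_pid
  have hD0 : D₁ ≠ 0 := h.ne_zero
  have h1 : (V * emb D₁) ^ 2 = emb (c * D₁) := by
    rw [map_mul, ← hc]; ring
  have h2 : IsIntegral ℤ (V * emb D₁) := by
    refine IsIntegral.of_pow (n := 2) two_pos ?_
    rw [h1]; exact JL.isIntegral_emb _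
  obtain ⟨e, he⟩ := JL.KK_int (mul_mem hV (JL.F0_emb_mem D₁)) h2
  have h3 : e ^ 2 = c * D₁ := by
    apply emb_injective
    rw [map_pow, ← he, h1]
  have h4 : D₁ ∣ e := (h.dvd_pow_iff_dvd two_ne_zero).mp ⟨c, by rw [h3, mul_comm]⟩
  obtain ⟨b, rfl⟩ := h4
  refine ⟨b, ?_⟩
  have h5 : emb D₁ ≠ 0 := by
    rw [Ne, ← map_zero emb, emb_injective.eq_iff]; exact hD0
  apply mul_right_cancel₀ h5
  rw [he, map_mul, mul_comm]

theorem u0_quad {z a b : ℂ} (ha : IsIntegral ℤ a) (hb : IsIntegral ℤ b) (h : z ^ 2 - a * z + b = 0) :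
    IsIntegral ℤ z := by
  obtain ⟨a', ha'⟩ : ∃ a' : integralClosure ℤ ℂ, (a' : ℂ) = a := ⟨⟨a, ha⟩, rfl⟩
  obtain ⟨b', hb'⟩ : ∃ b' : integralClosure ℤ ℂ, (b' : ℂ) = b := ⟨⟨b, hb⟩, rfl⟩
  have h1 : IsIntegral (integralClosure ℤ ℂ) z := by
    refine ⟨Polynomial.X ^ 2 - Polynomial.C a' * Polynomial.X + Polynomial.C b', ?_, ?_⟩
    · have e : (Polynomial.X ^ 2 - Polynomial.C a' * Polynomial.X + Polynomial.C b' :
          Polynomial (integralClosure ℤ ℂ)) = Polynomial.X ^ 2 + (Polynomial.C (-a') * Polynomial.X + Polynomial.C b') := by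
        rw [Polynomial.C_neg]
        ring
      rw [e]
      exact Polynomial.monic_X_pow_add (lt_of_le_of_lt Polynomial.degree_linear_le (by norm_num))
    · simp only [Polynomial.eval₂_add, Polynomial.eval₂_sub, Polynomial.eval₂_mul, Polynomial.eval₂_pow,
        Polynomial.eval₂_X, Polynomial.eval₂_C]
      change z ^ 2 - (a' : ℂ) * z + (b' : ℂ) = 0
      rw [ha', hb', h]
  exact isIntegral_trans z h1

/-- the coordinates of an integer -/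
theorem u0_coord (hs : Squarefree D₁) (h : ¬ IsSquare D₁) {z : ℂ} (hz : z ∈ KD D₁) (hi : IsIntegral ℤ z) :
    ∃ U V m : Eis, U ^ 2 - D₁ * V ^ 2 = 4 * m ∧ 2 * z = emb U + emb V * sD D₁ := by
  have hdom : IsDomain Eis := eis_isDomain
  have hpid : IsPrincipalIdealRing Eis := eis_pid
  obtain ⟨u₁, u₂, h1, h2, hzu⟩ := (JL.mem_KD z).mp hz
  obtain ⟨τ, -, hτ⟩ := u0_tau h
  have hi1 : IsIntegral ℤ (⟨z, hz⟩ : KD D₁) :=
    (isIntegral_algHom_iff ((KD D₁).val.restrictScalars ℤ) Subtype.val_injective).mp hi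
  have hi2 : IsIntegral ℤ (τ ⟨z, hz⟩) := hi1.map (τ : KD D₁ →+* KD D₁).toIntAlgHom
  have hi3 : IsIntegral ℤ (u₁ - u₂ * sD D₁) := by
    rw [← hτ u₁ u₂ h1 h2 ⟨z, hz⟩ hzu]
    exact (isIntegral_algHom_iff ((KD D₁).val.restrictScalars ℤ) Subtype.val_injective).mpr hi2
  have hU : IsIntegral ℤ (2 * u₁) := by
    have : 2 * u₁ = z + (u₁ - u₂ * sD D₁) := by rw [hzu]; ring
    rw [this]; exact hi.add hi3
  have hN : IsIntegral ℤ (u₁ ^ 2 - u₂ ^ 2 * emb D₁) := by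
    have : u₁ ^ 2 - u₂ ^ 2 * emb D₁ = z * (u₁ - u₂ * sD D₁) := by
      rw [hzu, ← JL.sD_sq]; ring
    rw [this]; exact hi.mul hi3
  have h2m : (2 : ℂ) ∈ CF.KK := by
    have := JL.F0_emb_mem 2
    rwa [map_ofNat] at this
  obtain ⟨U, hU'⟩ := JL.KK_int (mul_mem h2m h1) hU
  obtain ⟨m, hm⟩ := JL.KK_int (sub_mem (pow_mem h1 2) (mul_mem (pow_mem h2 2) (JL.F0_emb_mem D₁))) hN
  obtain ⟨V, hV⟩ := u0_V hs (mul_mem h2m h2) (U ^ 2 - 4 * m) (by
    rw [map_sub, map_mul, map_pow, map_ofNat, ← hm, ← hU']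
    ring)
  have hUV : U ^ 2 - D₁ * V ^ 2 = 4 * m := by
    apply emb_injective
    rw [map_sub, map_mul, map_mul, map_pow, map_pow, map_ofNat, ← hm, ← hU', ← hV]
    ring
  refine ⟨U, V, m, hUV, ?_⟩
  rw [← hU', ← hV, hzu]
  ring

/-- the integers of `F` are `O + O ρ`, `ρ² - t ρ + n = 0` -/
theorem u0_int (Q : QD D₁) : ∃ ρ δ : ℂ, δ ∈ CF.KK ∧ IsIntegral ℤ ρ ∧ ρ = emb Q.t / 2 + δ * sD D₁ ∧
    ρ ^ 2 - emb Q.t * ρ + emb Q.n = 0 ∧
    ∀ z ∈ KD D₁, IsIntegral ℤ z → ∃ a b : Eis, z = emb a + emb b * ρ := by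
  have hdom : IsDomain Eis := eis_isDomain
  have hpid : IsPrincipalIdealRing Eis := eis_pid
  have hp2 := Q3.prime_two
  have h2m : (2 : ℂ) ∈ CF.KK := by
    have := JL.F0_emb_mem 2
    rwa [map_ofNat] at this
  rcases Q.ring with hr | ⟨ht, hn, hno⟩
  · have hquad : (emb Q.t / 2 + 1 / 2 * sD D₁) ^ 2 - emb Q.t * (emb Q.t / 2 + 1 / 2 * sD D₁) + emb Q.n = 0 := by
      have h1 : emb Q.t ^ 2 - 4 * emb Q.n = emb D₁ := by
        have h0 := congrArg emb hr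
        rw [map_sub, map_mul, map_pow, map_ofNat] at h0
        exact h0
      have h2 := JL.sD_sq D₁
      linear_combination h2 / 4 - h1 / 4
    refine ⟨emb Q.t / 2 + 1 / 2 * sD D₁, 1 / 2, div_mem (one_mem _) h2m,
      u0_quad (JL.isIntegral_emb _) (JL.isIntegral_emb _) hquad, rfl, hquad, ?_⟩
    intro z hz hi
    obtain ⟨U, V, m, hUV, hz2⟩ := u0_coord Q.sqf Q.nsq hz hi
    have h3 : (2 : Eis) ∣ U - Q.t * V := by
      apply hp2.dvd_of_dvd_pow (n := 2)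
      refine ⟨2 * (m - Q.n * V ^ 2) - Q.t * V * (U - Q.t * V), ?_⟩
      linear_combination hUV - V ^ 2 * hr
    obtain ⟨a, ha⟩ := h3
    refine ⟨a, V, ?_⟩
    have h4 : emb U = emb Q.t * emb V + 2 * emb a := by
      have h5 : U = Q.t * V + 2 * a := by linear_combination ha
      rw [h5, map_add, map_mul, map_mul, map_ofNat]
    have h6 : (2 : ℂ) ≠ 0 := by norm_num
    apply mul_left_cancel₀ h6
    rw [hz2, h4]
    ring
  · have hquad : (sD D₁) ^ 2 - emb Q.t * (sD D₁) + emb Q.n = 0 := by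
      rw [ht, hn, map_zero, map_neg, JL.sD_sq]
      ring
    refine ⟨sD D₁, 1, one_mem _, JL.isIntegral_sD D₁, ?_, hquad, ?_⟩
    · rw [ht, map_zero]
      ring
    intro z hz hi
    obtain ⟨U, V, m, hUV, hz2⟩ := u0_coord Q.sqf Q.nsq hz hi
    have hV2 : (2 : Eis) ∣ V := by
      by_contra hnd
      have hco : IsCoprime V 2 := (Irreducible.coprime_iff_not_dvd hp2.irreducible).mpr hnd |>.symm
      have hco2 : IsCoprime V (2 ^ 2) := hco.pow_right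
      obtain ⟨x, y, hxy⟩ := hco2
      refine hno (U * x) ⟨y * (2 - 4 * y) * D₁ - m * x ^ 2, ?_⟩
      have h5 : x * V = 1 - 4 * y := by linear_combination hxy
      have h6 : D₁ * (x * V) ^ 2 = (U * x) ^ 2 - 4 * m * x ^ 2 := by
        linear_combination (- x ^ 2) * hUV
      rw [h5] at h6
      linear_combination h6
    obtain ⟨V', rfl⟩ := hV2
    have hU2 : (2 : Eis) ∣ U := by
      apply hp2.dvd_of_dvd_pow (n := 2)
      refine ⟨2 * m + 2 * D₁ * V' ^ 2, ?_⟩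
      linear_combination hUV
    obtain ⟨U', rfl⟩ := hU2
    refine ⟨U', V', ?_⟩
    rw [map_mul, map_mul, map_ofNat] at hz2
    have h6 : (2 : ℂ) ≠ 0 := by norm_num
    apply mul_left_cancel₀ h6
    rw [hz2]
    ring

end JGL
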