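import Pool.Agent.JGL.V23o4

/-!
# [JGL-V23o5] `ep = 1`, `n = 3`: the valuation
-/

set_option autoImplicit false

open NumberField IsDedekindDomain Filter Topology
open scoped Classical ComplexConjugate

namespace JGL

open CM27 JZ
open CU (la eE)
open CUL (Nl ez si ta rh DS Cont LV IsRep rp cr mn mo zw OT GalU W3 W9)
open JL (N1 KD sD Psi6)

/-- multiplication by `λ` permutes the terms of `M_1` -/
theorem v23o_perm (L : Lev) (hep : L.ep = 1) {R : Finset Eis} (hR : IsR L R) :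
    ∑ c ∈ R, (L.q c : ℂ) * Tm (pt L (la * c)) = (L.q la : ℂ) * Mo L R 1 := by
  obtain ⟨φ, h1, -, h2⟩ := perm_R L hR (la_cop L)
  have hqla : (L.q la : ℂ) * L.q la = 1 := by
    rcases q_la_pm L with h | h <;> rw [h] <;> norm_num
  have h3 := h2 (fun x => (L.q x : ℂ) * Tm (pt L x))
  have h4 : ∀ c ∈ R, (L.q (φ c) : ℂ) * Tm (pt L (φ c)) = (L.q la : ℂ) * ((L.q c : ℂ) * Tm (pt L (la * c))) := by
    intro c hc
    obtain ⟨h5, ζ, hζ, hd⟩ := h1 c hc
    obtain ⟨s, j, hs, hq, -, hu⟩ := unit_act L hζ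
    obtain ⟨-, hy⟩ := hu (φ c)
    have hss : (s : ℂ) * s = 1 := by
      rcases hs with rfl | rfl <;> norm_num
    have e1 : L.q (la * c) = L.q ζ * L.q (φ c) := by rw [L.q_per _ _ hd, L.q_mul]
    rw [hep, pow_one] at hq
    rw [L.q_mul, hq] at e1
    have e2 : Tm (pt L (la * c)) = (s : ℂ) * Tm (pt L (φ c)) := by
      rw [Tm, Tm, ym, ym, (pt_congr_xw L hd).2, hy]
      ring
    have e3 : (L.q la : ℂ) * L.q c = s * L.q (φ c) := by exact_mod_cast congrArg (Int.cast : ℤ → ℂ) e1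
    rw [e2]
    linear_combination (-(s : ℂ) * Tm (pt L (φ c))) * e3 - (L.q (φ c) : ℂ) * Tm (pt L (φ c)) * hss
  rw [Finset.sum_congr rfl h4, ← Finset.mul_sum] at h3
  have h6 : Mo L R 1 = ∑ c ∈ R, (L.q c : ℂ) * Tm (pt L c) := by
    rw [Mo]
    refine Finset.sum_congr rfl fun c _ => ?_
    rw [pow_one]
  rw [h6, ← h3]
  linear_combination (-(∑ c ∈ R, (L.q c : ℂ) * Tm (pt L (la * c)))) * hqla

section

variable (A : ValuationSubring ℂ)

theorem v23o_int (a b : ℤ) : A.valuation ((a : ℂ) + b * w) ≤ 1 := by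
  have e : (a : ℂ) + b * w = emb ⟨a, b⟩ := by rw [emb_apply]
  rw [e]
  exact CUL.w_emb_le A _

variable (hA : A.valuation 3 < 1)
include hA

theorem v23o_unit (a b : ℤ) (h : ¬ (3 : ℤ) ∣ a + b) : A.valuation ((a : ℂ) + b * w) = 1 := by
  have h1 := CUL.w_int_unit A hA _ h
  have e : (a : ℂ) + b * w = ((a + b : ℤ) : ℂ) - b * emb la := by
    rw [CUL.emb_la]
    push_cast
    ring
  have h2 : A.valuation ((b : ℂ) * emb la) < 1 := by
    rw [map_mul]
    exact lt_of_le_of_lt (mul_le_mul' (CUL.w_int_le A b) le_rfl) (by rw [one_mul]; exact CUL.w_la_lt A hA)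
  rw [e, Valuation.map_sub_eq_of_lt_left _ (by rwa [h1]), h1]

theorem v23o_unit_la (a b : ℤ) (h : ¬ (3 : ℤ) ∣ a + b) :
    A.valuation (emb la * ((a : ℂ) + b * w)) = A.valuation (emb la) := by
  rw [map_mul, v23o_unit A hA a b h, mul_one]

/-- the coefficients -/
theorem v23o_coef {k m : ℕ} (hk : k < 3) {s : ℂ} (hm : (m = 1 ∧ s = 1) ∨ (m = 2 ∧ s = -1)) :
    ∃ c0 c1 c2 : ℂ, A.valuation c0 ≤ A.valuation (emb la) ∧ A.valuation c1 ≤ 1 ∧ A.valuation c2 ≤ 1 ∧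
      A.valuation (c0 - 4 * c1 * th * s) = A.valuation (emb la) ∧
      ∀ t : ℂ, v23o_P w ((1 - t ^ 2) / 4) (3 * ((1 - t ^ 2) / 4) - 1) k m =
        c0 * ((1 - t ^ 2) / 4) ^ 2 + c1 * ((1 - t ^ 2) / 4) * t ^ 2 + c2 * t ^ 4 := by
  have h2 := CUL.w2
  have h3 := CUL.w3
  have hla := CUL.emb_la
  have key : ∀ {c0 c1 c2 : ℂ} (a b a' b' : ℤ) (x y z t : ℤ), c0 = emb la * ((a : ℂ) + b * w) → ¬ (3 : ℤ) ∣ a + b →
      c1 = (x : ℂ) + y * w → c2 = (z : ℂ) + t * w → c0 - 4 * c1 * th * s = emb la * ((a' : ℂ) + b' * w) →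
      ¬ (3 : ℤ) ∣ a' + b' →
      (∀ t : ℂ, v23o_P w ((1 - t ^ 2) / 4) (3 * ((1 - t ^ 2) / 4) - 1) k m =
        c0 * ((1 - t ^ 2) / 4) ^ 2 + c1 * ((1 - t ^ 2) / 4) * t ^ 2 + c2 * t ^ 4) →
      ∃ c0 c1 c2 : ℂ, A.valuation c0 ≤ A.valuation (emb la) ∧ A.valuation c1 ≤ 1 ∧ A.valuation c2 ≤ 1 ∧
      A.valuation (c0 - 4 * c1 * th * s) = A.valuation (emb la) ∧
      ∀ t : ℂ, v23o_P w ((1 - t ^ 2) / 4) (3 * ((1 - t ^ 2) / 4) - 1) k m =
        c0 * ((1 - t ^ 2) / 4) ^ 2 + c1 * ((1 - t ^ 2) / 4) * t ^ 2 + c2 * t ^ 4 := by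
    intro c0 c1 c2 a b a' b' x y z t e0 n0 e1 e2 e3 n3 hP
    refine ⟨c0, c1, c2, ?_, ?_, ?_, ?_, hP⟩
    · rw [e0, v23o_unit_la A hA a b n0]
    · rw [e1]
      exact v23o_int A x y
    · rw [e2]
      exact v23o_int A z t
    · rw [e3, v23o_unit_la A hA a' b' n3]
  rcases hm with ⟨rfl, rfl⟩ | ⟨rfl, rfl⟩ <;> interval_cases k
  · -- k = 0, m = 1
    refine key (c0 := 1 - w) (c1 := -w) (c2 := 0) 1 0 (-3) (-4) 0 (-1) 0 0 ?_ (by decide) ?_ ?_ ?_ (by decide) ?_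
    · rw [hla]; push_cast; ring
    · push_cast; ring
    · push_cast; ring
    · rw [hla, th]; push_cast; linear_combination (4 - 4 * w) * h2
    · intro t
      simp only [v23o_P, if_true]
      ring
  · -- k = 1, m = 1
    refine key (c0 := 1 - 4 * w ^ 2) (c1 := -5 * w ^ 2) (c2 := -w ^ 2) 2 3 22 3 5 5 1 1 ?_ (by decide) ?_ ?_ ?_
      (by decide) ?_
    · rw [hla]; push_cast; linear_combination (-1 : ℂ) * h2
    · push_cast; linear_combination (-5 : ℂ) * h2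
    · push_cast; linear_combination (-1 : ℂ) * h2
    · rw [hla, th]; push_cast; linear_combination (-21 + 40 * w - 20 * w ^ 2) * h2
    · intro t
      simp only [v23o_P, if_true, if_false, one_ne_zero]
      ring
  · -- k = 2, m = 1
    refine key (c0 := 4 * w - 4 * w ^ 2) (c1 := w - 5 * w ^ 2) (c2 := -w ^ 2) 0 4 24 8 5 6 1 1 ?_ (by decide) ?_ ?_ ?_
      (by decide) ?_
    · rw [hla]; push_cast; ring
    · push_cast; linear_combination (-5 : ℂ) * h2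
    · push_cast; linear_combination (-1 : ℂ) * h2
    · rw [hla, th]; push_cast; linear_combination (-24 + 44 * w - 20 * w ^ 2) * h2
    · intro t
      simp only [v23o_P, if_true, if_false, OfNat.ofNat_ne_zero, OfNat.ofNat_ne_one]
      ring
  · -- k = 0, m = 2
    refine key (c0 := 1 - w ^ 2) (c1 := -w ^ 2) (c2 := 0) 1 1 (-3) 1 1 1 0 0 ?_ (by decide) ?_ ?_ ?_ (by decide) ?_
    · rw [hla]; push_cast; ring
    · push_cast; linear_combination (-1 : ℂ) * h2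
    · push_cast; ring
    · rw [hla, th]; push_cast; linear_combination (4 - 8 * w + 4 * w ^ 2) * h2
    · intro t
      simp only [v23o_P, if_true, if_false, OfNat.ofNat_ne_one]
      ring
  · -- k = 1, m = 2
    refine key (c0 := w - 4 * w ^ 2) (c1 := -5 * w ^ 2) (c2 := -w ^ 2) 1 3 (-19) 3 5 5 1 1 ?_ (by decide) ?_ ?_ ?_
      (by decide) ?_
    · rw [hla]; push_cast; linear_combination (-1 : ℂ) * h2
    · push_cast; linear_combination (-5 : ℂ) * h2
    · push_cast; linear_combination (-1 : ℂ) * h2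
    · rw [hla, th]; push_cast; linear_combination (19 - 40 * w + 20 * w ^ 2) * h2
    · intro t
      simp only [v23o_P, if_true, if_false, one_ne_zero, OfNat.ofNat_ne_one]
      ring
  · -- k = 2, m = 2
    refine key (c0 := 4 * w - 4) (c1 := w - 5) (c2 := -1) (-4) 0 (-8) (-24) (-5) 1 (-1) 0 ?_ (by decide) ?_ ?_ ?_
      (by decide) ?_
    · rw [hla]; push_cast; ring
    · push_cast; ring
    · push_cast; ring
    · rw [hla, th]; push_cast; linear_combination (4 - 4 * w) * h2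
    · intro t
      simp only [v23o_P, if_true, if_false, OfNat.ofNat_ne_zero, OfNat.ofNat_ne_one]
      ring

variable (L : Lev) (hep : L.ep = 1) {R : Finset Eis} (hR : IsR L R)
include hep hR

theorem v23o_M3 {s : ℂ} (hs : s ^ 2 = emb la) :
    A.valuation (Mo L R 3 + th * (L.q la : ℂ) * Mo L R 1) ≤
      A.valuation s * (A.valuation (emb la) * A.valuation (emb la)) := by
  have hl := (CUL.w_la_lt A hA).le
  have hs1 := (v23o_s_lt A hA hs).le
  have h3 : A.valuation (3 : ℂ) = A.valuation (emb la) * A.valuation (emb la) := by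
    rw [← CUL.w_la A hA, pow_two]
  have e1 : Mo L R 3 + th * (L.q la : ℂ) * Mo L R 1 =
      ∑ c ∈ R, (3 : ℂ) * ((L.q c : ℂ) * (-Tm (pt L c) - th * Tm (pt L (la * c)) * Tm (pt L c) ^ 2)) := by
    have e2 : th * (L.q la : ℂ) * Mo L R 1 = ∑ c ∈ R, th * ((L.q c : ℂ) * Tm (pt L (la * c))) := by
      rw [← Finset.mul_sum, v23o_perm L hep hR]
      ring
    rw [e2, Mo, ← Finset.sum_add_distrib]
    refine Finset.sum_congr rfl fun c hc => ?_
    have h5 := Tm_la (OT_pt L (hR.1 c hc))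
    rw [← v23o_pt_la] at h5
    linear_combination (-(L.q c : ℂ)) * h5
  rw [e1]
  refine v23o_sum_le A R _ fun c hc => ?_
  have hOT := OT_pt L (hR.1 c hc)
  have hOT' := OT_pt L ((la_cop L).mul_left (hR.1 c hc))
  have ht := v23o_tau A hA hs hOT
  have ht' := v23o_tau A hA hs hOT'
  rw [mul_comm (A.valuation s)]
  refine v23o_mul_le A h3.le (v23o_mul_le_right A (CUL.w_int_le A _) (v23o_sub_le A ?_ ?_))
  · rw [Valuation.map_neg]
    exact ht
  · refine v23o_mul_le_left A (v23o_mul_le_right A ?_ ht') ?_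
    · rw [v23o_th A hA]
      exact hl
    · rw [map_pow]
      exact pow_le_one' (ht.trans hs1) 2

omit hep hR in
/-- the estimate of one term -/
theorem v23o_one {s : ℂ} (hs : s ^ 2 = emb la) {c0 c1 c2 t t' : ℂ} (h0 : A.valuation c0 ≤ A.valuation (emb la))
    (h1 : A.valuation c1 ≤ 1) (h2 : A.valuation c2 ≤ 1) (ht : A.valuation t ≤ A.valuation s)
    (ht' : A.valuation t' ≤ A.valuation s) :
    A.valuation (c0 + 4 * c1 * t ^ 2) ≤ A.valuation (emb la) ∧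
    A.valuation ((c0 * ((1 - t ^ 2) / 4) ^ 2 + c1 * ((1 - t ^ 2) / 4) * t ^ 2 + c2 * t ^ 4) /
      ((3 * ((1 - t ^ 2) / 4) - 1) ^ 2 * (1 - t' ^ 2)) - (c0 + 4 * c1 * t ^ 2)) ≤
      A.valuation (emb la) * A.valuation (emb la) := by
  have hs1 := v23o_s_lt A hA hs
  have hl1 := CUL.w_la_lt A hA
  have h4 := JL.a1_four A hA
  have hls : A.valuation s ^ 2 = A.valuation (emb la) := by rw [← map_pow, hs]
  have vt : A.valuation (t ^ 2) ≤ A.valuation (emb la) := by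
    rw [map_pow, ← hls]
    exact pow_le_pow_left' ht 2
  have vt' : A.valuation (t' ^ 2) ≤ A.valuation (emb la) := by
    rw [map_pow, ← hls]
    exact pow_le_pow_left' ht' 2
  have vn : A.valuation (1 - t' ^ 2) = 1 := v23o_one_sub A hA (lt_of_le_of_lt vt' hl1)
  have v3 : A.valuation (3 * t ^ 2) < 1 := by
    rw [map_mul]
    exact lt_of_le_of_lt (mul_le_mul' hA.le vt) (by rw [one_mul]; exact hl1)
  have vZ : A.valuation (1 + 3 * t ^ 2) = 1 := v23o_one_add A hA v3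
  have n1 := v23o_ne_of A hA vn
  have n2 := v23o_ne_of A hA vZ
  have hH : A.valuation (c0 + 4 * c1 * t ^ 2) ≤ A.valuation (emb la) := by
    refine v23o_add_le A h0 (v23o_mul_le_right A (v23o_mul_le_right A h4.le h1) vt)
  refine ⟨hH, ?_⟩
  have e : (c0 * ((1 - t ^ 2) / 4) ^ 2 + c1 * ((1 - t ^ 2) / 4) * t ^ 2 + c2 * t ^ 4) /
      ((3 * ((1 - t ^ 2) / 4) - 1) ^ 2 * (1 - t' ^ 2)) - (c0 + 4 * c1 * t ^ 2) =
      (c0 * (t ^ 2 * (-8 - 8 * t ^ 2)) + t ^ 2 * (t ^ 2 * (c1 * (-28 - 36 * t ^ 2) + 16 * c2)) +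
        (c0 + 4 * c1 * t ^ 2) * (t' ^ 2 * (1 + 3 * t ^ 2) ^ 2)) / ((1 + 3 * t ^ 2) ^ 2 * (1 - t' ^ 2)) := by
    have hDN : (1 + 3 * t ^ 2) ^ 2 * (1 - t' ^ 2) ≠ 0 := mul_ne_zero (pow_ne_zero 2 n2) n1
    have hDN' : (3 * ((1 - t ^ 2) / 4) - 1) ^ 2 * (1 - t' ^ 2) ≠ 0 := by
      have e3 : (3 * ((1 - t ^ 2) / 4) - 1) ^ 2 * (1 - t' ^ 2) = (1 / 16) * ((1 + 3 * t ^ 2) ^ 2 * (1 - t' ^ 2)) := by ring
      rw [e3]
      exact mul_ne_zero (by norm_num) hDN
    rw [eq_div_iff hDN, sub_mul, div_mul_eq_mul_div, sub_eq_iff_eq_add, div_eq_iff hDN']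
    ring
  have i8 : A.valuation (8 : ℂ) ≤ 1 := by
    have h := CUL.w_int_le A 8
    rwa [Int.cast_ofNat] at h
  have i28 : A.valuation (28 : ℂ) ≤ 1 := by
    have h := CUL.w_int_le A 28
    rwa [Int.cast_ofNat] at h
  have i36 : A.valuation (36 : ℂ) ≤ 1 := by
    have h := CUL.w_int_le A 36
    rwa [Int.cast_ofNat] at h
  have i16 : A.valuation (16 : ℂ) ≤ 1 := by
    have h := CUL.w_int_le A 16
    rwa [Int.cast_ofNat] at h
  have vt1 := vt.trans hl1.le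
  rw [e, map_div₀, map_mul A.valuation ((1 + 3 * t ^ 2) ^ 2), vn, map_pow A.valuation (1 + 3 * t ^ 2), vZ, one_pow,
    mul_one, div_one]
  refine v23o_add_le A (v23o_add_le A ?_ ?_) ?_
  · refine v23o_mul_le A h0 (v23o_mul_le_left A vt (v23o_sub_le A ?_ (v23o_mul_le_right A i8 vt1)))
    rw [Valuation.map_neg]
    exact i8
  · refine v23o_mul_le A vt (v23o_mul_le_left A vt (v23o_add_le A (v23o_mul_le_right A h1 (v23o_sub_le A ?_
      (v23o_mul_le_right A i36 vt1))) (v23o_mul_le_right A i16 h2)))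
    rw [Valuation.map_neg]
    exact i28
  · refine v23o_mul_le A hH (v23o_mul_le_left A vt' ?_)
    rw [map_pow, vZ, one_pow]

theorem v23o_V3 {i : ℕ} (hi : (i = 1 ∧ L.q la = -1) ∨ (i = 2 ∧ L.q la = 1)) {r : ℂ}
    (hr : A.valuation r ^ 2 = A.valuation (emb la)) {u₁ u₂ : ℂ} (hN : N2 r (eo L R) u₁ u₂) :
    A.valuation (V3 L i) ^ 2 ≤ A.valuation (emb la) ^ 5 ∧
      (A.valuation (V3 L i) ^ 2 = A.valuation (emb la) ^ 5 ↔ A.valuation u₂ = 1) := by
  obtain ⟨s, hs⟩ := v23o_exists_s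
  obtain ⟨r₀, hr₀⟩ := JL.exists_r
  have hs1 := v23o_s_lt A hA hs
  have hs0 := v23o_s_ne A hA hs
  have hl1 := CUL.w_la_lt A hA
  have hl0 := CUL.v2_wla A
  have hls : A.valuation s ^ 2 = A.valuation (emb la) := by rw [← map_pow, hs]
  obtain ⟨m, hm1, hm2⟩ : ∃ m : ℕ, ((i = 1 ∧ m = 2) ∨ (i = 2 ∧ m = 1)) ∧
      ((m = 1 ∧ (L.q la : ℂ) = 1) ∨ (m = 2 ∧ (L.q la : ℂ) = -1)) := by
    rcases hi with ⟨h1, h2⟩ | ⟨h1, h2⟩
    · exact ⟨2, Or.inl ⟨h1, rfl⟩, Or.inr ⟨rfl, by rw [h2]; norm_num⟩⟩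
    · exact ⟨1, Or.inr ⟨h1, rfl⟩, Or.inl ⟨rfl, by rw [h2]; norm_num⟩⟩
  obtain ⟨κ, hκ, hV⟩ := v23o_V3_eq L hep hR hm1
  have hk3 : L.k.val < 3 := ZMod.val_lt _
  obtain ⟨c0, c1, c2, g0, g1, g2, gΓ, gP⟩ := v23o_coef A hA hk3 hm2
  have hone : ∀ c ∈ R, _ := fun c hc => v23o_one A hA hs g0 g1 g2 (v23o_tau A hA hs (OT_pt L (hR.1 c hc)))
    (v23o_tau A hA hs (OT_pt L ((la_cop L).mul_left (hR.1 c hc))))
  have h3 := v23o_lead A hA L hR hs hr₀ L.k.val (b := A.valuation (emb la))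
    (fun c => v23o_P w ((1 - Tm (pt L c) ^ 2) / 4) (3 * ((1 - Tm (pt L c) ^ 2) / 4) - 1) L.k.val m /
        ((3 * ((1 - Tm (pt L c) ^ 2) / 4) - 1) ^ 2 * (1 - Tm (pt L (la * c)) ^ 2)))
    (fun c => c0 + 4 * c1 * Tm (pt L c) ^ 2)
    (fun c hc => (hone c hc).1)
    (fun c hc => by
      show A.valuation (v23o_P w ((1 - Tm (pt L c) ^ 2) / 4) (3 * ((1 - Tm (pt L c) ^ 2) / 4) - 1) L.k.val m /
        ((3 * ((1 - Tm (pt L c) ^ 2) / 4) - 1) ^ 2 * (1 - Tm (pt L (la * c)) ^ 2)) -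
        (c0 + 4 * c1 * Tm (pt L c) ^ 2)) ≤ _
      rw [gP]
      exact (hone c hc).2)
  obtain ⟨T, hT⟩ : ∃ T, T = ∑ c ∈ R, conj (L.chi c) * (xw (pt L c) ^ L.k.val * (Tm (pt L c) *
      (v23o_P w ((1 - Tm (pt L c) ^ 2) / 4) (3 * ((1 - Tm (pt L c) ^ 2) / 4) - 1) L.k.val m /
        ((3 * ((1 - Tm (pt L c) ^ 2) / 4) - 1) ^ 2 * (1 - Tm (pt L (la * c)) ^ 2))))) := ⟨_, rfl⟩
  rw [← hT] at hV h3
  have h4 : ∑ c ∈ R, (L.q c : ℂ) * (Tm (pt L c) * (c0 + 4 * c1 * Tm (pt L c) ^ 2)) =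
      (c0 - 4 * c1 * th * (L.q la : ℂ)) * Mo L R 1 + 4 * c1 * (Mo L R 3 + th * (L.q la : ℂ) * Mo L R 1) := by
    have e : ∑ c ∈ R, (L.q c : ℂ) * (Tm (pt L c) * (c0 + 4 * c1 * Tm (pt L c) ^ 2)) =
        c0 * Mo L R 1 + 4 * c1 * Mo L R 3 := by
      rw [Mo, Mo, Finset.mul_sum, Finset.mul_sum, ← Finset.sum_add_distrib]
      refine Finset.sum_congr rfl fun c _ => ?_
      ring
    rw [e]
    ring
  have h5 := v23o_M3 A hA L hep hR hs
  have hrk : A.valuation (r₀ ^ L.k.val) = 1 := by rw [map_pow, JL.r_val A hA hr₀, one_pow]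
  have h6 : A.valuation (T - r₀ ^ L.k.val * ((c0 - 4 * c1 * th * (L.q la : ℂ)) * Mo L R 1)) ≤
      A.valuation s * (A.valuation (emb la) * A.valuation (emb la)) := by
    have e : T - r₀ ^ L.k.val * ((c0 - 4 * c1 * th * (L.q la : ℂ)) * Mo L R 1) =
        (T - r₀ ^ L.k.val * ((c0 - 4 * c1 * th * (L.q la : ℂ)) * Mo L R 1 +
          4 * c1 * (Mo L R 3 + th * (L.q la : ℂ) * Mo L R 1))) +
        r₀ ^ L.k.val * (4 * c1 * (Mo L R 3 + th * (L.q la : ℂ) * Mo L R 1)) := by ring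
    rw [e]
    rw [h4] at h3
    refine v23o_add_le A h3 (v23o_mul_le_right A hrk.le (v23o_mul_le_right A
      (v23o_mul_le_right A (JL.a1_four A hA).le g1) h5))
  have hM := v23o_M1 A hA L hR hs
  have hrM : A.valuation (r₀ ^ L.k.val * ((c0 - 4 * c1 * th * (L.q la : ℂ)) * Mo L R 1)) =
      A.valuation (emb la) * A.valuation (Mo L R 1) := by
    rw [map_mul, hrk, one_mul, map_mul, gΓ]
  have hlt : A.valuation s * (A.valuation (emb la) * A.valuation (emb la)) < A.valuation (emb la) * A.valuation s := by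
    have hpos : 0 < A.valuation (emb la) * A.valuation s := zero_lt_iff.2 (mul_ne_zero hl0 hs0)
    calc A.valuation s * (A.valuation (emb la) * A.valuation (emb la)) =
        (A.valuation (emb la) * A.valuation s) * A.valuation (emb la) := by
          rw [mul_left_comm, mul_assoc, mul_comm (A.valuation s)]
      _ < (A.valuation (emb la) * A.valuation s) * 1 := mul_lt_mul_of_pos_left hl1 hpos
      _ = _ := mul_one _
  have hTle : A.valuation T ≤ A.valuation (emb la) * A.valuation s := by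
    have e : T = (T - r₀ ^ L.k.val * ((c0 - 4 * c1 * th * (L.q la : ℂ)) * Mo L R 1)) +
      r₀ ^ L.k.val * ((c0 - 4 * c1 * th * (L.q la : ℂ)) * Mo L R 1) := by ring
    rw [e]
    exact v23o_add_le A (h6.trans hlt.le) (by rw [hrM]; exact mul_le_mul' le_rfl hM)
  have hTiff : A.valuation T = A.valuation (emb la) * A.valuation s ↔ A.valuation (Mo L R 1) = A.valuation s := by
    constructor
    · intro h
      have e : r₀ ^ L.k.val * ((c0 - 4 * c1 * th * (L.q la : ℂ)) * Mo L R 1) =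
        T - (T - r₀ ^ L.k.val * ((c0 - 4 * c1 * th * (L.q la : ℂ)) * Mo L R 1)) := by ring
      have h7 : A.valuation (r₀ ^ L.k.val * ((c0 - 4 * c1 * th * (L.q la : ℂ)) * Mo L R 1)) =
          A.valuation (emb la) * A.valuation s := by
        rw [e, Valuation.map_sub_eq_of_lt_left, h]
        rw [h]
        exact lt_of_le_of_lt h6 hlt
      rw [hrM] at h7
      exact mul_left_cancel₀ hl0 h7
    · intro h
      have e : T = r₀ ^ L.k.val * ((c0 - 4 * c1 * th * (L.q la : ℂ)) * Mo L R 1) +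
        (T - r₀ ^ L.k.val * ((c0 - 4 * c1 * th * (L.q la : ℂ)) * Mo L R 1)) := by ring
      rw [e, Valuation.map_add_eq_of_lt_left, hrM, h]
      rw [hrM, h]
      exact lt_of_le_of_lt h6 hlt
  have hκ1 : A.valuation κ = 1 := by
    have h8 : A.valuation κ ^ 9 = 1 := by rw [← map_pow, hκ, map_one]
    exact (pow_eq_one_iff.1 h8).resolve_right (by norm_num)
  have hVv : A.valuation (V3 L i) = A.valuation (emb la) * A.valuation T := by
    rw [hV, map_mul, map_mul, map_mul, Valuation.map_neg, JL.a1_four A hA, v23o_th A hA, hκ1, one_mul, one_mul]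
  have hl5 : A.valuation (emb la) ^ 5 = (A.valuation (emb la) * (A.valuation (emb la) * A.valuation s)) ^ 2 := by
    rw [mul_pow, mul_pow, hls, ← pow_succ, ← pow_add]
  rw [← v23o_u A hA L hR hs hr hN, ← hTiff, hVv, hl5]
  refine ⟨pow_le_pow_left' (mul_le_mul' le_rfl hTle) 2, ?_, ?_⟩
  · intro h
    exact mul_left_cancel₀ hl0 ((pow_left_inj₀ zero_le zero_le (by norm_num)).1 h)
  · intro h
    rw [h]

end

end JGL
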