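import Pool.Agent.JGL.B
import Pool.Agent.JGL.T
import Pool.Agent.JGL.To
import Pool.Agent.JGL.V23o5

/-!
# [JGL-V23o] `ep = 1`, `n = 2, 3` (`v = 3`)
-/

set_option autoImplicit false

open NumberField IsDedekindDomain Filter Topology
open scoped Classical ComplexConjugate

namespace JGL

open CM27 JZ
open CU (la eE)
open CUL (Nl ez si ta DS Cont LV IsRep rp cr mn mo zw OT GalU W3 W9)
open JL (N1 KD sD Psi6)


theorem V_2o (L : Lev) (hep : L.ep = 1) {η : ℤ} (hη : η = 1 ∨ η = -1) (hq : L.q la = -η) (hk2 : L.k ≠ 2)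
    {R : Finset Eis} (hR : IsR L R) (A : ValuationSubring ℂ)
    (hA : A.valuation 3 < 1) {Ds : Eis} (hDs : Primary Ds) (hk : L.k = 2 - mn Ds) {r : ℂ}
    (hr : r ^ 2 = emb ((η : Eis) * la * Ds)) (hgal : GalS L r) {u₁ u₂ : ℂ} (hN : N2 r (eo L R) u₁ u₂) :
    A.valuation (V2 L) ^ 2 ≤ A.valuation (emb la) ^ 3 ∧
      (A.valuation (V2 L) ^ 2 = A.valuation (emb la) ^ 3 ↔ A.valuation u₂ = 1) := by
  have h1 : r ^ 2 = emb ((η : Eis) * CU.om ^ 0 * la * Ds) := by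
    rw [hr, pow_zero, mul_one]
  exact v23o_V2 L hep hk2 hR A hA (v23o_r A hA hη hDs h1) hN

theorem V_3o (L : Lev) (hep : L.ep = 1) {η : ℤ} (hη : η = 1 ∨ η = -1) (hq : L.q la = -η)
    {R : Finset Eis} (hR : IsR L R) (A : ValuationSubring ℂ)
    (hA : A.valuation 3 < 1) {i : ℕ} (hi : i = 1 ∨ i = 2) (hi' : ((i : ZMod 3)) ≠ -(η : ZMod 3)) {Ds : Eis} (hDs : Primary Ds)
    (hk : L.k = 2 - mn Ds) {r : ℂ} (hr : r ^ 2 = emb ((η : Eis) * CU.om ^ i * la * Ds)) (hgal : GalS L r) {u₁ u₂ : ℂ}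
    (hN : N2 r (eo L R) u₁ u₂) :
    A.valuation (V3 L i) ^ 2 ≤ A.valuation (emb la) ^ 5 ∧
      (A.valuation (V3 L i) ^ 2 = A.valuation (emb la) ^ 5 ↔ A.valuation u₂ = 1) := by
  have h1 := v23o_r A hA hη hDs hr
  have h2 : (i = 1 ∧ L.q la = -1) ∨ (i = 2 ∧ L.q la = 1) := by
    rw [hq]
    rcases hi with rfl | rfl
    · rcases hη with rfl | rfl
      · exact Or.inl ⟨rfl, rfl⟩
      · exfalso
        apply hi'
        decide
    · rcases hη with rfl | rfl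
      · exfalso
        apply hi'
        decide
      · exact Or.inr ⟨rfl, rfl⟩
  exact v23o_V3 A hA L hep hR h2 h1 hN

/-- all `k` (used for good reduction at `λ`) -/
theorem T_2o (L : Lev) (hep : L.ep = 1) {η : ℤ} (hη : η = 1 ∨ η = -1) (hq : L.q la = -η)
    {R : Finset Eis} (hR : IsR L R) (A : ValuationSubring ℂ)
    (hA : A.valuation 3 < 1) {Ds : Eis} (hDs : Primary Ds) {r : ℂ}
    (hr : r ^ 2 = emb ((η : Eis) * la * Ds)) (hgal : GalS L r) {u₁ u₂ : ℂ} (hN : N2 r (eo L R) u₁ u₂) :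
    A.valuation (emb la * To L R) ^ 2 ≤ A.valuation (emb la) ∧
      (A.valuation (emb la * To L R) ^ 2 = A.valuation (emb la) ↔ A.valuation u₂ = 1) := by
  have h1 : r ^ 2 = emb ((η : Eis) * CU.om ^ 0 * la * Ds) := by
    rw [hr, pow_zero, mul_one]
  exact v23o_To L hR A hA (v23o_r A hA hη hDs h1) hN

end JGL
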