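import Pool.Agent.JGL.B
import Pool.Agent.JGL.T
import Pool.Agent.JX.P1
import Pool.Agent.JX.H3

/-!
# [JGL-V23o1] `ep = 1`: the odd pair formula
-/

set_option autoImplicit false

open NumberField IsDedekindDomain Filter Topology
open scoped Classical ComplexConjugate

namespace JGL

open CM27 JZ
open CU (la eE)
open CUL (Nl ez si ta DS Cont LV IsRep rp cr mn mo zw OT GalU W3 W9)
open JL (N1 KD sD Psi6)

theorem v23o_pair {P t : ℂ} (hP : OT P) (ht : Nl t) {n : ℕ} (htn : emb la ^ n * t ∈ Set.range emb) :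
    ez (P + t) - ez (-P + t) = 2 * ez P + yw P / (xw P - xw t) := by
  have h1 : Nl (P + t) := hP.add_nl n htn
  have h2 : Nl (P - t) := by
    have h3 : Nl (-P + t) := hP.neg.add_nl n htn
    have h4 : P - t = -(-P + t) := by ring
    rw [h4]
    intro h5
    apply h3
    obtain ⟨a, ha⟩ := h5
    exact ⟨-a, by rw [map_neg, ha, neg_neg]⟩
  have h := CUL.ez_sd hP.1 ht h1 h2
  have h6 : ez (P - t) = -ez (-P + t) := by
    rw [← CUL.ez_neg]
    congr 1
    ring
  linear_combination h - h6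

theorem v23o_chi_neg (L : Lev) (hep : L.ep = 1) (x : Eis) : L.chi (-x) = -L.chi x := by
  have h1 : L.q (-x) = -L.q x := by
    have h2 := L.q_mul (-1) x
    rw [L.q_neg, hep, pow_one, neg_one_mul, neg_one_mul] at h2
    exact h2
  rw [Lev.chi, Lev.chi, h1, c_neg]
  push_cast
  ring

theorem v23o_chi_om (L : Lev) (x : Eis) : conj (L.chi (CU.om * x)) = zw (-L.k) * conj (L.chi x) := by
  rw [chi_mul, map_mul]
  congr 1
  rw [Lev.chi, L.q_om, L.c_om, Int.cast_one, one_mul, CUL.zw_conj]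

theorem v23o_pt_neg (L : Lev) (x : Eis) : pt L (-x) = -pt L x := by
  rw [pt, pt, map_neg, neg_div]

theorem v23o_pt_om (L : Lev) (x : Eis) : pt L (CU.om * x) = w * pt L x := by
  rw [pt, pt, map_mul, CUL.emb_om, mul_div_assoc]

theorem v23o_pt_add (L : Lev) {x y : Eis} (h : L.f ∣ x - y) : ∃ a : Eis, pt L x = pt L y + emb a := by
  obtain ⟨t, ht⟩ := h
  have hfe : emb L.f ≠ 0 := CUL.l2_emb_ne (f_ne L)
  refine ⟨t, ?_⟩
  have h2 : x = y + L.f * t := by linear_combination ht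
  rw [pt, pt, h2, map_add, map_mul]
  field_simp

theorem v23o_ez_congr (L : Lev) {x y : Eis} (h : L.f ∣ x - y) (t : ℂ) : ez (pt L x + t) = ez (pt L y + t) := by
  obtain ⟨a, ha⟩ := v23o_pt_add L h
  rw [ha, add_right_comm, CUL.ez_add_emb]

theorem v23o_ne (L : Lev) {t : ℂ} (ht : Nl t) {n : ℕ} (htn : emb la ^ n * t ∈ Set.range emb)
    {c : Eis} (hc : IsCoprime c L.f) : xw t ≠ xw (pt L c) := by
  intro h1
  have hP := OT_pt L hc
  rcases (xw_eq_iff t _ ht hP.1).1 h1 with h2 | h2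
  · refine hP.neg.add_nl n htn ?_
    rwa [neg_add_eq_sub]
  · refine hP.add_nl n htn ?_
    rwa [add_comm]

theorem v23o_om_cop (L : Lev) : IsCoprime (CU.om : Eis) L.f := JL.h3_cop JL.h3_unit_om _

theorem v23o_xw_om (L : Lev) (x : Eis) : xw (pt L (CU.om * x)) = w * xw (pt L x) := by
  rw [v23o_pt_om, xw_w]

theorem v23o_yw_om (L : Lev) (x : Eis) : yw (pt L (CU.om * x)) = yw (pt L x) := by
  rw [v23o_pt_om, yw_w]

theorem v23o_ne3 (L : Lev) {t : ℂ} (ht : Nl t) {n : ℕ} (htn : emb la ^ n * t ∈ Set.range emb)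
    {c : Eis} (hc : IsCoprime c L.f) : xw t ^ 3 - xw (pt L c) ^ 3 ≠ 0 := by
  have hom : IsCoprime (CU.om * c) L.f := (v23o_om_cop L).mul_left hc
  have hom2 : IsCoprime (CU.om * (CU.om * c)) L.f := (v23o_om_cop L).mul_left hom
  have n1 := sub_ne_zero.2 (v23o_ne L ht htn hc)
  have n2 := sub_ne_zero.2 (v23o_ne L ht htn hom)
  have n3 := sub_ne_zero.2 (v23o_ne L ht htn hom2)
  rw [v23o_xw_om] at n2
  rw [v23o_xw_om, v23o_xw_om] at n3
  have hw3 := CUL.w3
  have hw2 := CUL.w2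
  generalize xw (pt L c) = x at n1 n2 n3 ⊢
  have e1 : (xw t - x) * (xw t - w * x) * (xw t - w * (w * x)) = xw t ^ 3 - x ^ 3 := by
    have : (xw t - x) * (xw t - w * x) * (xw t - w * (w * x)) = xw t ^ 3 - x ^ 3 * w ^ 3
        - (1 + w + w ^ 2) * (xw t ^ 2 * x) + (1 + w + w ^ 2) * (w * xw t * x ^ 2) := by ring
    rw [this, hw3, hw2]; ring
  rw [← e1]
  exact mul_ne_zero (mul_ne_zero n1 n2) n3

theorem v23o_chi_congr (L : Lev) {x y : Eis} (h : L.f ∣ x - y) : L.chi x = L.chi y := chi_per L h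

theorem v23o_gen (L : Lev) (hep : L.ep = 1) {R : Finset Eis} (hR : IsR L R) {t : ℂ} (ht : Nl t) {n : ℕ}
    (htn : emb la ^ n * t ∈ Set.range emb) :
    ∑ α ∈ rp L.f, conj (L.chi α) * ez (pt L α + t) =
      ∑ α ∈ rp L.f, conj (L.chi α) * ez (pt L α) -
      3 * ∑ c ∈ R, conj (L.chi c) * (xw (pt L c) ^ L.k.val *
        (yw (pt L c) * xw t ^ (2 - L.k.val) / (xw t ^ 3 - xw (pt L c) ^ 3))) := by
  have hrep := CUL.rp_spec (f_ne L)
  have hcop : ∀ α : Eis, L.chi α ≠ 0 → IsCoprime α L.f := fun α hα => (chi_ne_zero_iff L α).1 hα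
  obtain ⟨V, hV⟩ : ∃ V, V = ∑ α ∈ rp L.f, conj (L.chi α) * ez (pt L α + t) := ⟨_, rfl⟩
  obtain ⟨S, hS⟩ : ∃ S, S = ∑ α ∈ rp L.f, conj (L.chi α) * ez (pt L α) := ⟨_, rfl⟩
  -- step 1
  have s1 : 2 * V = 2 * S + ∑ α ∈ rp L.f, conj (L.chi α) * (yw (pt L α) * (-(1 / (xw t - xw (pt L α))))) := by
    have h1 : ∑ α ∈ rp L.f, conj (L.chi (-α)) * ez (pt L (-α) + t) = V := by
      rw [hV]
      refine hrep.sum_neg (fun α => conj (L.chi α) * ez (pt L α + t)) ?_
      intro a b hab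
      show conj (L.chi a) * ez (pt L a + t) = conj (L.chi b) * ez (pt L b + t)
      rw [chi_per L hab, v23o_ez_congr L hab]
    have h2 : 2 * V = ∑ α ∈ rp L.f, (conj (L.chi α) * ez (pt L α + t) +
        conj (L.chi (-α)) * ez (pt L (-α) + t)) := by
      rw [Finset.sum_add_distrib, h1, two_mul, ← hV]
    have h3 : ∀ α ∈ rp L.f, (conj (L.chi α) * ez (pt L α + t) +
        conj (L.chi (-α)) * ez (pt L (-α) + t)) =
        2 * (conj (L.chi α) * ez (pt L α)) +
          conj (L.chi α) * (yw (pt L α) * (-(1 / (xw t - xw (pt L α))))) := by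
      intro α _
      by_cases hα : L.chi α = 0
      · rw [v23o_chi_neg L hep, hα]; simp
      · have h4 := v23o_pair (OT_pt L (hcop α hα)) ht htn
        have h5 := v23o_ne L ht htn (hcop α hα)
        have h6 : xw t - xw (pt L α) ≠ 0 := sub_ne_zero.2 h5
        have h7 : xw (pt L α) - xw t ≠ 0 := sub_ne_zero.2 h5.symm
        have h8 : yw (pt L α) / (xw (pt L α) - xw t) = yw (pt L α) * (-(1 / (xw t - xw (pt L α)))) := by
          field_simp
          ring
        rw [v23o_chi_neg L hep, map_neg, v23o_pt_neg]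
        rw [h8] at h4
        linear_combination conj (L.chi α) * h4
    rw [h2, Finset.sum_congr rfl h3, Finset.sum_add_distrib, ← Finset.mul_sum, ← hS]
  -- step 2
  have hG : ∀ a b : Eis, L.f ∣ a - b →
      conj (L.chi a) * (yw (pt L a) * (-(1 / (xw t - xw (pt L a))))) =
      conj (L.chi b) * (yw (pt L b) * (-(1 / (xw t - xw (pt L b))))) := by
    intro a b hab
    rw [chi_per L hab, (pt_congr_xw L hab).1, (pt_congr_xw L hab).2]
  have hom := v23o_om_cop L
  have s2 := hrep.sum_mul hom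
    (fun α => conj (L.chi α) * (yw (pt L α) * (-(1 / (xw t - xw (pt L α)))))) hG
  have hom2 : IsCoprime (CU.om * CU.om : Eis) L.f := hom.mul_left hom
  have s3 := hrep.sum_mul hom2
    (fun α => conj (L.chi α) * (yw (pt L α) * (-(1 / (xw t - xw (pt L α)))))) hG
  have s4 : 3 * ∑ α ∈ rp L.f, conj (L.chi α) * (yw (pt L α) * (-(1 / (xw t - xw (pt L α))))) =
      ∑ α ∈ rp L.f, -(3 * xw t ^ (2 - L.k.val)) *
        (conj (L.chi α) * (yw (pt L α) * (xw (pt L α) ^ L.k.val / (xw t ^ 3 - xw (pt L α) ^ 3)))) := by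
    have h5 : 3 * ∑ α ∈ rp L.f, conj (L.chi α) * (yw (pt L α) * (-(1 / (xw t - xw (pt L α))))) =
        ∑ α ∈ rp L.f, (conj (L.chi α) * (yw (pt L α) * (-(1 / (xw t - xw (pt L α))))) +
          conj (L.chi (CU.om * α)) * (yw (pt L (CU.om * α)) * (-(1 / (xw t - xw (pt L (CU.om * α)))))) +
          conj (L.chi (CU.om * CU.om * α)) * (yw (pt L (CU.om * CU.om * α)) *
            (-(1 / (xw t - xw (pt L (CU.om * CU.om * α))))))) := by
      rw [Finset.sum_add_distrib, Finset.sum_add_distrib, s2, s3]; ring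
    rw [h5]
    refine Finset.sum_congr rfl fun α _ => ?_
    rw [mul_assoc CU.om CU.om α, v23o_chi_om L (CU.om * α), v23o_chi_om L α, v23o_xw_om L (CU.om * α),
      v23o_xw_om L α, v23o_yw_om L (CU.om * α), v23o_yw_om L α]
    by_cases hα : L.chi α = 0
    · rw [hα]; simp
    · have h6 := JX.h3_frac (v23o_ne3 L ht htn (hcop α hα)) L.k
      have h7 : w * (w * xw (pt L α)) = w ^ 2 * xw (pt L α) := by ring
      rw [h7]
      linear_combination (-(conj (L.chi α) * yw (pt L α))) * h6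
  -- step 3
  have s5 : ∑ α ∈ rp L.f, -(3 * xw t ^ (2 - L.k.val)) *
        (conj (L.chi α) * (yw (pt L α) * (xw (pt L α) ^ L.k.val / (xw t ^ 3 - xw (pt L α) ^ 3)))) =
      -(3 * xw t ^ (2 - L.k.val)) *
        (6 * ∑ c ∈ R, conj (L.chi c) * (yw (pt L c) * (xw (pt L c) ^ L.k.val / (xw t ^ 3 - xw (pt L c) ^ 3)))) := by
    rw [← Finset.mul_sum]
    congr 1
    rw [← sum_R L hR (fun α => conj (L.chi α) * (yw (pt L α) * (xw (pt L α) ^ L.k.val /
      (xw t ^ 3 - xw (pt L α) ^ 3)))) ?_ ?_]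
    · rw [Finset.sum_filter_of_ne]
      intro α _ hne
      apply hcop
      intro h9
      apply hne
      rw [h9]; simp
    · intro x y hxy
      rw [chi_per L hxy, (pt_congr_xw L hxy).1, (pt_congr_xw L hxy).2]
    · intro ζ x hζ
      obtain ⟨s, j, hs, hq, hc, hu⟩ := unit_act L hζ
      obtain ⟨hx, hy⟩ := hu x
      have hz3 : zw j ^ 3 = 1 := by
        rw [CUL.zw_pow]
        have h2 : ((3 : ℕ) : ZMod 3) = 0 := by decide
        rw [h2, zero_mul, CUL.zw_zero]
      have hchi : conj (L.chi (ζ * x)) = (s : ℂ) * zw (-(j * L.k)) * conj (L.chi x) := by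
        rw [chi_mul, map_mul]
        congr 1
        rw [Lev.chi, hq, hc, hep, pow_one, map_mul, CUL.zw_conj, map_intCast]
      have hjk : zw (-(j * L.k)) * zw j ^ L.k.val = 1 := by
        rw [CUL.zw_pow, ← CUL.zw_add, ZMod.natCast_val, ZMod.cast_id', id_eq, mul_comm L.k j, neg_add_cancel,
          CUL.zw_zero]
      have hss : (s : ℂ) * s = 1 := by
        rcases hs with rfl | rfl <;> norm_num
      show conj (L.chi (ζ * x)) * (yw (pt L (ζ * x)) * (xw (pt L (ζ * x)) ^ L.k.val /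
        (xw t ^ 3 - xw (pt L (ζ * x)) ^ 3))) = _
      rw [hchi, hx, hy, mul_pow (zw j) _ 3, hz3, one_mul, mul_pow]
      linear_combination ((s : ℂ) * s * conj (L.chi x) * yw (pt L x) * xw (pt L x) ^ L.k.val /
        (xw t ^ 3 - xw (pt L x) ^ 3)) * hjk + (conj (L.chi x) * yw (pt L x) * xw (pt L x) ^ L.k.val /
        (xw t ^ 3 - xw (pt L x) ^ 3)) * hss
  have s6 := s4.trans s5
  have s7 : ∑ c ∈ R, conj (L.chi c) * (xw (pt L c) ^ L.k.val *
        (yw (pt L c) * xw t ^ (2 - L.k.val) / (xw t ^ 3 - xw (pt L c) ^ 3))) =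
      xw t ^ (2 - L.k.val) *
        ∑ c ∈ R, conj (L.chi c) * (yw (pt L c) * (xw (pt L c) ^ L.k.val / (xw t ^ 3 - xw (pt L c) ^ 3))) := by
    rw [Finset.mul_sum]
    refine Finset.sum_congr rfl fun c _ => ?_
    ring
  rw [← hV, ← hS, s7]
  linear_combination (1 / 2) * s1 + (1 / 6) * s6

/-- for `k ≠ 2` the sum of `e` over the points vanishes -/
theorem v23o_S (L : Lev) (hk : L.k ≠ 2) : ∑ α ∈ rp L.f, conj (L.chi α) * ez (pt L α) = 0 := by
  have hrep := CUL.rp_spec (f_ne L)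
  have hG : ∀ a b : Eis, L.f ∣ a - b → conj (L.chi a) * ez (pt L a) = conj (L.chi b) * ez (pt L b) := by
    intro a b hab
    have h1 := v23o_ez_congr L hab 0
    rw [add_zero, add_zero] at h1
    rw [chi_per L hab, h1]
  have s := hrep.sum_mul (v23o_om_cop L) (fun α => conj (L.chi α) * ez (pt L α)) hG
  have h2 : ∑ α ∈ rp L.f, conj (L.chi (CU.om * α)) * ez (pt L (CU.om * α)) =
      (zw (-L.k) * w ^ 2) * ∑ α ∈ rp L.f, conj (L.chi α) * ez (pt L α) := by
    rw [Finset.mul_sum]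
    refine Finset.sum_congr rfl fun α _ => ?_
    rw [v23o_chi_om, v23o_pt_om, CUL.ez_w]
    ring
  rw [h2] at s
  have h3 : zw (-L.k) * w ^ 2 ≠ 1 := by
    rw [← CUL.zw_two, ← CUL.zw_add]
    intro h
    rw [← CUL.zw_zero] at h
    have h4 := CUL.zw_inj h
    apply hk
    linear_combination -h4
  have h5 : (zw (-L.k) * w ^ 2 - 1) * ∑ α ∈ rp L.f, conj (L.chi α) * ez (pt L α) = 0 := by
    linear_combination s
  exact (mul_eq_zero.1 h5).resolve_left (sub_ne_zero.2 h3)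

end JGL
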