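import Pool.Agent.JGL.V23o1
import Pool.Agent.JGL.To
import Pool.Agent.CUL.U7
import Pool.Agent.CUL.V2

/-!
# [JGL-V23o2] `ep = 1`: valuations, `n = 2`
-/

set_option autoImplicit false

open NumberField IsDedekindDomain Filter Topology
open scoped Classical ComplexConjugate

namespace JGL

open CM27 JZ
open CU (la eE)
open CUL (Nl ez si ta DS Cont LV IsRep rp cr mn mo zw OT GalU W3 W9)
open JL (N1 KD sD Psi6)

theorem v23o_exists_s : ∃ s : ℂ, s ^ 2 = emb la := by
  obtain ⟨z, hz⟩ := IsAlgClosed.exists_pow_nat_eq (emb la) (n := 2) (by norm_num)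
  exact ⟨z, hz⟩

section

variable (A : ValuationSubring ℂ)

theorem v23o_sum_le (R : Finset Eis) (f : Eis → ℂ) {b : A.ValueGroup}
    (h : ∀ c ∈ R, A.valuation (f c) ≤ b) : A.valuation (∑ c ∈ R, f c) ≤ b :=
  Valuation.map_sum_le _ h

theorem v23o_add_le {x y : ℂ} {b : A.ValueGroup} (hx : A.valuation x ≤ b) (hy : A.valuation y ≤ b) :
    A.valuation (x + y) ≤ b := (A.valuation.map_add _ _).trans (max_le hx hy)

theorem v23o_sub_le {x y : ℂ} {b : A.ValueGroup} (hx : A.valuation x ≤ b) (hy : A.valuation y ≤ b) :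
    A.valuation (x - y) ≤ b := (A.valuation.map_sub _ _).trans (max_le hx hy)

theorem v23o_mul_le {x y : ℂ} {a b : A.ValueGroup} (hx : A.valuation x ≤ a) (hy : A.valuation y ≤ b) :
    A.valuation (x * y) ≤ a * b := by
  rw [map_mul]
  exact mul_le_mul' hx hy

theorem v23o_mul_le_right {x y : ℂ} {b : A.ValueGroup} (hx : A.valuation x ≤ 1) (hy : A.valuation y ≤ b) :
    A.valuation (x * y) ≤ b := by
  have h := v23o_mul_le A hx hy
  rwa [one_mul] at h

theorem v23o_mul_le_left {x y : ℂ} {b : A.ValueGroup} (hx : A.valuation x ≤ b) (hy : A.valuation y ≤ 1) :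
    A.valuation (x * y) ≤ b := by
  have h := v23o_mul_le A hx hy
  rwa [mul_one] at h

theorem v23o_prod {b : A.ValueGroup} (hb : b ≤ 1) (R : Finset Eis) (u t : Eis → ℂ)
    (ht : ∀ c ∈ R, A.valuation (t c) ≤ b) (hu : ∀ c ∈ R, A.valuation (u c - (1 + t c)) ≤ b ^ 2) :
    A.valuation (∏ c ∈ R, u c - (1 + ∑ c ∈ R, t c)) ≤ b ^ 2 := by
  have hb2 : b ^ 2 ≤ 1 := by
    rw [pow_two]
    exact mul_le_one' hb hb
  induction R using Finset.induction_on with
  | empty => simp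
  | insert a S ha ih =>
    have ih' := ih (fun c hc => ht c (Finset.mem_insert_of_mem hc)) (fun c hc => hu c (Finset.mem_insert_of_mem hc))
    have hta := ht a (Finset.mem_insert_self _ _)
    have hua := hu a (Finset.mem_insert_self _ _)
    have hS : A.valuation (∑ c ∈ S, t c) ≤ b :=
      v23o_sum_le A S t fun c hc => ht c (Finset.mem_insert_of_mem hc)
    rw [Finset.prod_insert ha, Finset.sum_insert ha]
    obtain ⟨P, hP⟩ : ∃ P, P = ∏ c ∈ S, u c := ⟨_, rfl⟩
    obtain ⟨T, hT⟩ : ∃ T, T = ∑ c ∈ S, t c := ⟨_, rfl⟩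
    rw [← hP, ← hT] at ih'
    rw [← hT] at hS
    rw [← hP, ← hT]
    have e1 : u a * P - (1 + (t a + T)) =
        (u a - (1 + t a)) * ((P - (1 + T)) + (1 + T)) + ((1 + t a) * (P - (1 + T)) + t a * T) := by ring
    rw [e1]
    have h1 : A.valuation (1 : ℂ) ≤ 1 := by rw [map_one]
    refine v23o_add_le A ?_ (v23o_add_le A ?_ ?_)
    · exact v23o_mul_le_left A hua (v23o_add_le A (ih'.trans hb2) (v23o_add_le A h1 (hS.trans hb)))
    · exact v23o_mul_le_right A (v23o_add_le A h1 (hta.trans hb)) ih'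
    · rw [pow_two]
      exact v23o_mul_le A hta hS

variable (hA : A.valuation 3 < 1)
include hA

theorem v23o_s_lt {s : ℂ} (hs : s ^ 2 = emb la) : A.valuation s < 1 := by
  have h1 : A.valuation s ^ 2 < 1 := by
    rw [← map_pow, hs]
    exact CUL.w_la_lt A hA
  exact CUL.v2_lt A h1

theorem v23o_tau {s : ℂ} (hs : s ^ 2 = emb la) {z : ℂ} (hz : OT z) :
    A.valuation (Tm z) ≤ A.valuation s := by
  have h1 : A.valuation (Tm z) ^ 2 ≤ A.valuation s ^ 2 := by
    rw [← map_pow A.valuation s, hs]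
    exact Tm_val A hA hz
  exact (pow_le_pow_iff_left₀ zero_le zero_le (by norm_num)).1 h1

theorem v23o_one_sub {t : ℂ} (ht : A.valuation t < 1) : A.valuation (1 - t) = 1 := by
  have h1 : A.valuation t < A.valuation (1 : ℂ) := by rwa [map_one]
  rw [Valuation.map_sub_eq_of_lt_left _ h1, map_one]

theorem v23o_one_add {t : ℂ} (ht : A.valuation t < 1) : A.valuation (1 + t) = 1 := by
  have h1 : A.valuation t < A.valuation (1 : ℂ) := by rwa [map_one]
  rw [Valuation.map_add_eq_of_lt_left _ h1, map_one]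

theorem v23o_ne_of {x : ℂ} (h : A.valuation x = 1) : x ≠ 0 := by
  rintro rfl
  rw [map_zero] at h
  exact zero_ne_one h

theorem v23o_Um {s : ℂ} (hs : s ^ 2 = emb la) {z : ℂ} (hz : OT z) {q : ℤ} (hq : q = 1 ∨ q = -1) :
    A.valuation (Um z ^ q - (1 + 2 * q * Tm z)) ≤ A.valuation s ^ 2 ∧
    A.valuation ((Um z ^ q)⁻¹ - (1 + -(2 * q * Tm z))) ≤ A.valuation s ^ 2 := by
  have ht := v23o_tau A hA hs hz
  have hlt := lt_of_le_of_lt ht (v23o_s_lt A hA hs)
  have h2 := JL.a1_two A hA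
  obtain ⟨t, ht'⟩ : ∃ t, t = Tm z := ⟨_, rfl⟩
  rw [Um_eq, ← ht']
  rw [← ht'] at ht hlt
  have v1 := v23o_one_sub A hA hlt
  have v2 := v23o_one_add A hA hlt
  have n1 := v23o_ne_of A hA v1
  have n2 := v23o_ne_of A hA v2
  have hb : A.valuation (2 * t ^ 2) ≤ A.valuation s ^ 2 := by
    rw [map_mul, h2, one_mul, map_pow]
    exact pow_le_pow_left' ht 2
  have w1 : A.valuation ((1 + t) / (1 - t) - (1 + 2 * t)) ≤ A.valuation s ^ 2 := by
    have e : (1 + t) / (1 - t) - (1 + 2 * t) = 2 * t ^ 2 / (1 - t) := by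
      field_simp
      ring
    rw [e, map_div₀, v1, div_one]
    exact hb
  have w2 : A.valuation (((1 + t) / (1 - t))⁻¹ - (1 + -(2 * t))) ≤ A.valuation s ^ 2 := by
    have e : ((1 + t) / (1 - t))⁻¹ - (1 + -(2 * t)) = 2 * t ^ 2 / (1 + t) := by
      field_simp
      ring
    rw [e, map_div₀, v2, div_one]
    exact hb
  rcases hq with rfl | rfl
  · rw [zpow_one, Int.cast_one, mul_one]
    exact ⟨w1, w2⟩
  · rw [zpow_neg, zpow_one, inv_inv, Int.cast_neg, Int.cast_one]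
    have e1 : (1 : ℂ) + 2 * -1 * t = 1 + -(2 * t) := by ring
    have e2 : (1 : ℂ) + -(2 * -1 * t) = 1 + 2 * t := by ring
    rw [e1, e2]
    exact ⟨w2, w1⟩

variable (L : Lev) {R : Finset Eis} (hR : IsR L R)
include hR

theorem v23o_M1 {s : ℂ} (hs : s ^ 2 = emb la) : A.valuation (Mo L R 1) ≤ A.valuation s := by
  rw [Mo]
  refine v23o_sum_le A R _ fun c hc => ?_
  rw [pow_one]
  exact v23o_mul_le_right A (CUL.w_int_le A _) (v23o_tau A hA hs (OT_pt L (hR.1 c hc)))

theorem v23o_e {s : ℂ} (hs : s ^ 2 = emb la) :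
    A.valuation (eo L R - (1 + 2 * Mo L R 1)) ≤ A.valuation s ^ 2 ∧
    A.valuation ((eo L R)⁻¹ - (1 - 2 * Mo L R 1)) ≤ A.valuation s ^ 2 := by
  have hs1 := (v23o_s_lt A hA hs).le
  have h2 := JL.a1_two A hA
  have hb : ∀ c ∈ R, A.valuation (2 * (L.q c : ℂ) * Tm (pt L c)) ≤ A.valuation s := by
    intro c hc
    refine v23o_mul_le_right A ?_ (v23o_tau A hA hs (OT_pt L (hR.1 c hc)))
    exact v23o_mul_le_right A h2.le (CUL.w_int_le A _)
  have h3 := v23o_prod A hs1 R (fun c => Um (pt L c) ^ L.q c) (fun c => 2 * (L.q c : ℂ) * Tm (pt L c)) hb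
    (fun c hc => (v23o_Um A hA hs (OT_pt L (hR.1 c hc)) (L.q_pm c (hR.1 c hc))).1)
  have h4 := v23o_prod A hs1 R (fun c => (Um (pt L c) ^ L.q c)⁻¹) (fun c => -(2 * (L.q c : ℂ) * Tm (pt L c)))
    (fun c hc => by
      show A.valuation (-(2 * (L.q c : ℂ) * Tm (pt L c))) ≤ _
      rw [Valuation.map_neg]
      exact hb c hc)
    (fun c hc => (v23o_Um A hA hs (OT_pt L (hR.1 c hc)) (L.q_pm c (hR.1 c hc))).2)
  have e1 : ∑ c ∈ R, 2 * (L.q c : ℂ) * Tm (pt L c) = 2 * Mo L R 1 := by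
    rw [Mo, Finset.mul_sum]
    refine Finset.sum_congr rfl fun c _ => ?_
    ring
  have e2 : ∑ c ∈ R, -(2 * (L.q c : ℂ) * Tm (pt L c)) = -(2 * Mo L R 1) := by
    rw [Finset.sum_neg_distrib, e1]
  rw [e1] at h3
  rw [e2, Finset.prod_inv_distrib, ← sub_eq_add_neg] at h4
  exact ⟨h3, h4⟩

theorem v23o_u {s : ℂ} (hs : s ^ 2 = emb la) {r : ℂ} (hr : A.valuation r ^ 2 = A.valuation (emb la)) {u₁ u₂ : ℂ}
    (hN : N2 r (eo L R) u₁ u₂) : A.valuation (Mo L R 1) = A.valuation s ↔ A.valuation u₂ = 1 := by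
  obtain ⟨h1, h2⟩ := v23o_e A hA L hR hs
  obtain ⟨-, -, e1, e2, -⟩ := hN
  have hs1 := v23o_s_lt A hA hs
  have hs0 : A.valuation s ≠ 0 := by
    intro h0
    have h3 : A.valuation (emb la) = 0 := by rw [← hs, map_pow, h0, zero_pow (by norm_num)]
    exact CUL.v2_wla A h3
  have hrs : A.valuation r = A.valuation s := by
    have h3 : A.valuation r ^ 2 = A.valuation s ^ 2 := by rw [hr, ← map_pow, hs]
    exact (pow_left_inj₀ zero_le zero_le (by norm_num)).1 h3
  have h2' := JL.a1_two A hA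
  have h4' := JL.a1_four A hA
  have hlt : A.valuation s ^ 2 < A.valuation s := by
    rw [pow_two]
    calc A.valuation s * A.valuation s < 1 * A.valuation s := mul_lt_mul_of_pos_right hs1 (zero_lt_iff.2 hs0)
      _ = _ := one_mul _
  have h3 : A.valuation (2 * u₂ * r - 4 * Mo L R 1) ≤ A.valuation s ^ 2 := by
    have e3 : 2 * u₂ * r - 4 * Mo L R 1 = (eo L R - (1 + 2 * Mo L R 1)) - ((eo L R)⁻¹ - (1 - 2 * Mo L R 1)) := by
      rw [e2, e1]
      ring
    rw [e3]
    exact v23o_sub_le A h1 h2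
  have e4 : A.valuation (2 * u₂ * r) = A.valuation u₂ * A.valuation s := by
    rw [map_mul, map_mul, h2', one_mul, hrs]
  have e5 : A.valuation (4 * Mo L R 1) = A.valuation (Mo L R 1) := by
    rw [map_mul, h4', one_mul]
  constructor
  · intro h
    have h5 : A.valuation (2 * u₂ * r) = A.valuation s := by
      have e6 : 2 * u₂ * r = 4 * Mo L R 1 + (2 * u₂ * r - 4 * Mo L R 1) := by ring
      rw [e6, Valuation.map_add_eq_of_lt_left, e5, h]
      rw [e5, h]
      exact lt_of_le_of_lt h3 hlt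
    rw [e4] at h5
    exact mul_right_cancel₀ hs0 (by rw [h5, one_mul])
  · intro h
    rw [h, one_mul] at e4
    have e6 : 4 * Mo L R 1 = 2 * u₂ * r - (2 * u₂ * r - 4 * Mo L R 1) := by ring
    rw [← e5, e6, Valuation.map_sub_eq_of_lt_left, e4]
    rw [e4]
    exact lt_of_le_of_lt h3 hlt

omit hR

theorem v23o_conj_c {c : Eis} (hc : IsCoprime c L.f) :
    A.valuation (conj (L.c c) - 1) ≤ A.valuation (emb la) := by
  obtain ⟨j, hj⟩ := L.c_cube c hc
  rw [hj, CUL.zw_conj]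
  have hw : A.valuation (1 + w) ≤ 1 := by
    have : (1 : ℂ) + w = emb (1 + CU.om) := by rw [map_add, map_one, CUL.emb_om]
    rw [this]
    exact CUL.w_emb_le A _
  rcases CUL.l5_zw_cases (-j) with h | h | h
  · rw [h, CUL.zw_zero, sub_self, map_zero]
    exact zero_le
  · rw [h, CUL.zw_one]
    have e : w - 1 = -emb la := by rw [CUL.emb_la]; ring
    rw [e, Valuation.map_neg]
  · rw [h, CUL.zw_two]
    have e : w ^ 2 - 1 = -(emb la * (1 + w)) := by rw [CUL.emb_la]; ring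
    rw [e, Valuation.map_neg]
    exact v23o_mul_le_left A le_rfl hw

theorem v23o_xpow {r : ℂ} (hr : 4 * r ^ 3 = -1) {z : ℂ} (hz : OT z) (n : ℕ) :
    A.valuation (xw z ^ n - r ^ n) ≤ A.valuation (emb la) := by
  have h1 := JL.x_close A hA hr hz
  have hx := CUL.w_x A hA hz
  have hr1 := JL.r_val A hA hr
  induction n with
  | zero => rw [pow_zero, pow_zero, sub_self, map_zero]; exact zero_le
  | succ n ih =>
    have e : xw z ^ (n + 1) - r ^ (n + 1) = (xw z - r) * xw z ^ n + r * (xw z ^ n - r ^ n) := by ring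
    rw [e]
    refine v23o_add_le A (v23o_mul_le_left A h1 ?_) (v23o_mul_le_right A hr1.le ih)
    rw [map_pow, hx, one_pow]

/-- the general estimate of a sum over `R` by its leading term -/
theorem v23o_lead (hR : IsR L R) {s : ℂ} (hs : s ^ 2 = emb la) {r : ℂ} (hr : 4 * r ^ 3 = -1) (k : ℕ)
    {b : A.ValueGroup} (G H : Eis → ℂ) (hH : ∀ c ∈ R, A.valuation (H c) ≤ b)
    (hG : ∀ c ∈ R, A.valuation (G c - H c) ≤ b * A.valuation (emb la)) :
    A.valuation (∑ c ∈ R, conj (L.chi c) * (xw (pt L c) ^ k * (Tm (pt L c) * G c)) -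
      r ^ k * ∑ c ∈ R, (L.q c : ℂ) * (Tm (pt L c) * H c)) ≤ A.valuation s * (b * A.valuation (emb la)) := by
  have hl := (CUL.w_la_lt A hA).le
  rw [Finset.mul_sum, ← Finset.sum_sub_distrib]
  refine v23o_sum_le A R _ fun c hc => ?_
  have hcop := hR.1 c hc
  have hOT := OT_pt L hcop
  have e : conj (L.chi c) * (xw (pt L c) ^ k * (Tm (pt L c) * G c)) - r ^ k * ((L.q c : ℂ) * (Tm (pt L c) * H c)) =
      ((L.q c : ℂ) * Tm (pt L c)) * ((conj (L.c c) - 1) * (xw (pt L c) ^ k * G c) +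
        (G c * (xw (pt L c) ^ k - r ^ k) + r ^ k * (G c - H c))) := by
    rw [Lev.chi, map_mul, map_intCast]
    ring
  have hGb : A.valuation (G c) ≤ b := by
    have e2 : G c = (G c - H c) + H c := by ring
    rw [e2]
    refine v23o_add_le A ((hG c hc).trans ?_) (hH c hc)
    calc b * A.valuation (emb la) ≤ b * 1 := mul_le_mul' le_rfl hl
      _ = b := mul_one _
  have hx : A.valuation (xw (pt L c) ^ k) ≤ 1 := by rw [map_pow, CUL.w_x A hA hOT, one_pow]
  have hrk : A.valuation (r ^ k) ≤ 1 := by rw [map_pow, JL.r_val A hA hr, one_pow]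
  rw [e]
  refine v23o_mul_le A (v23o_mul_le_right A (CUL.w_int_le A _) (v23o_tau A hA hs hOT))
    (v23o_add_le A ?_ (v23o_add_le A ?_ ?_))
  · rw [mul_comm b]
    exact v23o_mul_le A (v23o_conj_c A hA L hcop) (v23o_mul_le_right A hx hGb)
  · exact v23o_mul_le A hGb (v23o_xpow A hA hr hOT k)
  · exact v23o_mul_le_right A hrk (hG c hc)

theorem v23o_s_ne {s : ℂ} (hs : s ^ 2 = emb la) : A.valuation s ≠ 0 := by
  intro h0
  have h3 : A.valuation (emb la) = 0 := by rw [← hs, map_pow, h0, zero_pow (by norm_num)]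
  exact CUL.v2_wla A h3

theorem v23o_th : A.valuation th = A.valuation (emb la) := by
  rw [th_eq, map_mul, CUL.w_w A, one_mul]

theorem v23o_r {r : ℂ} {η : ℤ} (hη : η = 1 ∨ η = -1) {Ds : Eis} (hDs : Primary Ds) {i : ℕ}
    (hr : r ^ 2 = emb ((η : Eis) * CU.om ^ i * la * Ds)) : A.valuation r ^ 2 = A.valuation (emb la) := by
  have h1 : A.valuation (emb (η : Eis)) = 1 := by
    rcases hη with rfl | rfl
    · simp
    · rw [Int.cast_neg, Int.cast_one, map_neg, map_one, Valuation.map_neg, map_one]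
  have h2 : A.valuation (emb Ds) = 1 := by
    apply CUL.w_emb_unit A hA
    intro hd
    have h3 : IsUnit (la : Eis) := (CUL.cop_la hDs).symm.isUnit_of_dvd' dvd_rfl hd
    exact TH.la_prime.not_isUnit h3
  rw [← map_pow, hr, map_mul, map_mul, map_mul, map_mul, map_mul, map_mul, map_pow, map_pow, h1, h2, CUL.emb_om,
    CUL.w_w A, one_pow, one_mul, one_mul, mul_one]

end

theorem v23o_yw (z : ℂ) : yw z = -th * Tm z := by
  have h : th ≠ 0 := by
    intro h0
    have h1 := th_sq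
    rw [h0] at h1
    norm_num at h1
  rw [Tm, ym, neg_mul, mul_div_cancel₀ _ h, neg_neg]

theorem v23o_x3 {z : ℂ} (hz : Nl z) : 4 * (1 + xw z ^ 3) = 3 * (1 - Tm z ^ 2) := by
  have h1 := ym_sq hz
  have h2 : ym z = th * Tm z := by
    rw [ym, v23o_yw]
    ring
  have h3 : xm z ^ 3 = xw z ^ 3 := by
    rw [xm, mul_pow, CUL.w3, one_mul]
  rw [h2, h3, mul_pow, th_sq] at h1
  linear_combination -h1

/-- the core of the case `n = 2` -/
theorem v23o_S1 (L : Lev) {R : Finset Eis} (hR : IsR L R) (A : ValuationSubring ℂ) (hA : A.valuation 3 < 1) {r : ℂ}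
    (hr : A.valuation r ^ 2 = A.valuation (emb la)) {u₁ u₂ : ℂ} (hN : N2 r (eo L R) u₁ u₂) :
    A.valuation (∑ c ∈ R, conj (L.chi c) * (xw (pt L c) ^ L.k.val * (Tm (pt L c) *
      (1 / (1 - Tm (pt L c) ^ 2))))) ^ 2 ≤ A.valuation (emb la) ∧
    (A.valuation (∑ c ∈ R, conj (L.chi c) * (xw (pt L c) ^ L.k.val * (Tm (pt L c) *
      (1 / (1 - Tm (pt L c) ^ 2))))) ^ 2 = A.valuation (emb la) ↔ A.valuation u₂ = 1) := by
  obtain ⟨s, hs⟩ := v23o_exists_s
  obtain ⟨r₀, hr₀⟩ := JL.exists_r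
  have hs1 := v23o_s_lt A hA hs
  have hs0 := v23o_s_ne A hA hs
  have hl1 := CUL.w_la_lt A hA
  have hls : A.valuation s ^ 2 = A.valuation (emb la) := by rw [← map_pow, hs]
  have hlt : A.valuation s * (1 * A.valuation (emb la)) < A.valuation s := by
    rw [one_mul]
    calc A.valuation s * A.valuation (emb la) < A.valuation s * 1 :=
        mul_lt_mul_of_pos_left hl1 (zero_lt_iff.2 hs0)
      _ = _ := mul_one _
  have h3 := v23o_lead A hA L hR hs hr₀ L.k.val (b := 1) (fun c => 1 / (1 - Tm (pt L c) ^ 2)) (fun _ => 1)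
    (fun c _ => by
      show A.valuation (1 : ℂ) ≤ 1
      rw [map_one])
    (fun c hc => by
      have hOT := OT_pt L (hR.1 c hc)
      have ht := lt_of_le_of_lt (v23o_tau A hA hs hOT) hs1
      have ht2 : A.valuation (Tm (pt L c) ^ 2) < 1 := by
        rw [map_pow]
        exact pow_lt_one₀ zero_le ht (by norm_num)
      have v1 := v23o_one_sub A hA ht2
      have n1 := v23o_ne_of A hA v1
      show A.valuation (1 / (1 - Tm (pt L c) ^ 2) - 1) ≤ 1 * A.valuation (emb la)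
      have e : 1 / (1 - Tm (pt L c) ^ 2) - 1 = Tm (pt L c) ^ 2 / (1 - Tm (pt L c) ^ 2) := by
        field_simp
        ring
      rw [e, map_div₀, v1, div_one, one_mul, map_pow]
      exact Tm_val A hA hOT)
  have h4 : ∑ c ∈ R, (L.q c : ℂ) * (Tm (pt L c) * 1) = Mo L R 1 := by
    rw [Mo]
    refine Finset.sum_congr rfl fun c _ => ?_
    rw [mul_one, pow_one]
  obtain ⟨S, hS⟩ : ∃ S, S = ∑ c ∈ R, conj (L.chi c) *
      (xw (pt L c) ^ L.k.val * (Tm (pt L c) * (1 / (1 - Tm (pt L c) ^ 2)))) := ⟨_, rfl⟩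
  rw [h4, ← hS] at h3
  rw [← hS]
  have hrk : A.valuation (r₀ ^ L.k.val) = 1 := by rw [map_pow, JL.r_val A hA hr₀, one_pow]
  have hM := v23o_M1 A hA L hR hs
  have hrM : A.valuation (r₀ ^ L.k.val * Mo L R 1) = A.valuation (Mo L R 1) := by rw [map_mul, hrk, one_mul]
  have hSle : A.valuation S ≤ A.valuation s := by
    have e : S = (S - r₀ ^ L.k.val * Mo L R 1) + r₀ ^ L.k.val * Mo L R 1 := by ring
    rw [e]
    exact v23o_add_le A (h3.trans hlt.le) (by rw [hrM]; exact hM)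
  have hSiff : A.valuation S = A.valuation s ↔ A.valuation (Mo L R 1) = A.valuation s := by
    constructor
    · intro h
      have e : r₀ ^ L.k.val * Mo L R 1 = S - (S - r₀ ^ L.k.val * Mo L R 1) := by ring
      rw [← hrM, e, Valuation.map_sub_eq_of_lt_left, h]
      rw [h]
      exact lt_of_le_of_lt h3 hlt
    · intro h
      have e : S = r₀ ^ L.k.val * Mo L R 1 + (S - r₀ ^ L.k.val * Mo L R 1) := by ring
      rw [e, Valuation.map_add_eq_of_lt_left, hrM, h]
      rw [hrM, h]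
      exact lt_of_le_of_lt h3 hlt
  rw [← v23o_u A hA L hR hs hr hN, ← hSiff, ← hls]
  refine ⟨pow_le_pow_left' hSle 2, ?_, ?_⟩
  · intro h
    exact (pow_left_inj₀ zero_le zero_le (by norm_num)).1 h
  · intro h
    rw [h]

/-- [JGL-V23o] `ep = 1`, `n = 2` -/
theorem v23o_V2 (L : Lev) (hep : L.ep = 1) (hk2 : L.k ≠ 2)
    {R : Finset Eis} (hR : IsR L R) (A : ValuationSubring ℂ) (hA : A.valuation 3 < 1) {r : ℂ}
    (hr : A.valuation r ^ 2 = A.valuation (emb la)) {u₁ u₂ : ℂ} (hN : N2 r (eo L R) u₁ u₂) :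
    A.valuation (V2 L) ^ 2 ≤ A.valuation (emb la) ^ 3 ∧
      (A.valuation (V2 L) ^ 2 = A.valuation (emb la) ^ 3 ↔ A.valuation u₂ = 1) := by
  obtain ⟨s, hs⟩ := v23o_exists_s
  have hs1 := v23o_s_lt A hA hs
  have hsi : emb la ^ 2 * si ∈ Set.range emb := by
    refine ⟨1, ?_⟩
    rw [map_one, pow_two, mul_assoc, CUL.la_si, CUL.la_ta]
  have h1 := v23o_gen L hep hR CUL.nl_si hsi
  rw [v23o_S L hk2, zero_sub] at h1
  -- the closed form
  have h2 : V2 L = -4 * th * xw si ^ (2 - L.k.val) * ∑ c ∈ R, conj (L.chi c) *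
      (xw (pt L c) ^ L.k.val * (Tm (pt L c) * (1 / (1 - Tm (pt L c) ^ 2)))) := by
    rw [V2, h1, Finset.mul_sum, Finset.mul_sum, ← Finset.sum_neg_distrib]
    refine Finset.sum_congr rfl fun c hc => ?_
    have hOT := OT_pt L (hR.1 c hc)
    have h3 := v23o_x3 hOT.1
    have ht := lt_of_le_of_lt (v23o_tau A hA hs hOT) hs1
    have ht2 : A.valuation (Tm (pt L c) ^ 2) < 1 := by
      rw [map_pow]
      exact pow_lt_one₀ zero_le ht (by norm_num)
    have n1 := v23o_ne_of A hA (v23o_one_sub A hA ht2)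
    have e1 : xw si ^ 3 - xw (pt L c) ^ 3 = -(3 / 4) * (1 - Tm (pt L c) ^ 2) := by
      rw [CUL.xw_si]
      linear_combination (-1 / 4 : ℂ) * h3
    rw [e1, v23o_yw]
    field_simp
  obtain ⟨h3, h4⟩ := v23o_S1 L hR A hA hr hN
  obtain ⟨S, hS⟩ : ∃ S, S = ∑ c ∈ R, conj (L.chi c) *
      (xw (pt L c) ^ L.k.val * (Tm (pt L c) * (1 / (1 - Tm (pt L c) ^ 2)))) := ⟨_, rfl⟩
  rw [← hS] at h2 h3 h4
  have hV : A.valuation (V2 L) = A.valuation (emb la) * A.valuation S := by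
    rw [h2, map_mul, map_mul, map_mul, Valuation.map_neg, JL.a1_four A hA, v23o_th A hA, map_pow, CUL.v2_x_si A,
      one_pow, one_mul, mul_one]
  have hV2 : A.valuation (V2 L) ^ 2 = A.valuation (emb la) ^ 2 * A.valuation S ^ 2 := by
    rw [hV, mul_pow]
  have hl3 : A.valuation (emb la) ^ 3 = A.valuation (emb la) ^ 2 * A.valuation (emb la) := by
    rw [pow_succ]
  rw [← h4, hV2, hl3]
  refine ⟨mul_le_mul' le_rfl h3, ?_, ?_⟩
  · intro h
    exact mul_left_cancel₀ (pow_ne_zero 2 (CUL.v2_wla A)) h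
  · intro h
    rw [h]

theorem v23o_To (L : Lev) {R : Finset Eis} (hR : IsR L R) (A : ValuationSubring ℂ) (hA : A.valuation 3 < 1) {r : ℂ}
    (hr : A.valuation r ^ 2 = A.valuation (emb la)) {u₁ u₂ : ℂ} (hN : N2 r (eo L R) u₁ u₂) :
    A.valuation (emb la * To L R) ^ 2 ≤ A.valuation (emb la) ∧
      (A.valuation (emb la * To L R) ^ 2 = A.valuation (emb la) ↔ A.valuation u₂ = 1) := by
  obtain ⟨s, hs⟩ := v23o_exists_s
  have hs1 := v23o_s_lt A hA hs
  have h2 : 3 * To L R = 4 * th * w ^ L.k.val * ∑ c ∈ R, conj (L.chi c) *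
      (xw (pt L c) ^ L.k.val * (Tm (pt L c) * (1 / (1 - Tm (pt L c) ^ 2)))) := by
    rw [To, Finset.mul_sum, Finset.mul_sum]
    refine Finset.sum_congr rfl fun c hc => ?_
    have hOT := OT_pt L (hR.1 c hc)
    have h3 := v23o_x3 hOT.1
    have ht := lt_of_le_of_lt (v23o_tau A hA hs hOT) hs1
    have ht2 : A.valuation (Tm (pt L c) ^ 2) < 1 := by
      rw [map_pow]
      exact pow_lt_one₀ zero_le ht (by norm_num)
    have n1 := v23o_ne_of A hA (v23o_one_sub A hA ht2)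
    have e1 : 1 + xm (pt L c) ^ 3 = 3 / 4 * (1 - Tm (pt L c) ^ 2) := by
      rw [xm, mul_pow, CUL.w3, one_mul]
      linear_combination (1 / 4 : ℂ) * h3
    have e2 : ym (pt L c) = th * Tm (pt L c) := by
      rw [ym, v23o_yw]
      ring
    rw [e1, e2, xm, mul_pow]
    field_simp
  obtain ⟨h3, h4⟩ := v23o_S1 L hR A hA hr hN
  obtain ⟨S, hS⟩ : ∃ S, S = ∑ c ∈ R, conj (L.chi c) *
      (xw (pt L c) ^ L.k.val * (Tm (pt L c) * (1 / (1 - Tm (pt L c) ^ 2)))) := ⟨_, rfl⟩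
  rw [← hS] at h2 h3 h4
  have hV : A.valuation (emb la * To L R) = A.valuation S := by
    have h5 := congrArg A.valuation h2
    rw [map_mul, map_mul, map_mul, map_mul, JL.a1_four A hA, v23o_th A hA, map_pow, CUL.w_w A,
      one_pow, one_mul, mul_one, ← CUL.w_la A hA, pow_two, mul_assoc] at h5
    rw [map_mul]
    exact mul_left_cancel₀ (CUL.v2_wla A) h5
  rw [hV]
  exact ⟨h3, h4⟩

end JGL
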