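import Pool.Agent.JGL.V23o2
import Pool.Agent.JX.P1
import Pool.Agent.JX.P2
import Pool.Agent.JX.H4

/-!
# [JGL-V23o3] `ep = 1`, `n = 3`: the sum over the three points
-/

set_option autoImplicit false

open NumberField IsDedekindDomain Filter Topology
open scoped Classical ComplexConjugate

namespace JGL

open CM27 JZ
open CU (la eE)
open CUL (Nl ez si ta rh DS Cont LV IsRep rp cr mn mo zw OT GalU W3 W9)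
open JL (N1 KD sD Psi6)

theorem v23o_BB {q v p Z : ℂ} (hq : q ^ 2 + q + 1 = 0) (hv : v ^ 3 = q) :
    (p - q * Z * (q * v + (q * v) ^ 2)) * (p - q * Z * (q ^ 2 * v + (q ^ 2 * v) ^ 2)) =
      (p ^ 2 - Z ^ 2) + (q * p * Z + Z ^ 2) * v + (q * p * Z + q ^ 2 * Z ^ 2) * v ^ 2 := by
  linear_combination (v * q ^ 8 * Z ^ 2 + q ^ 7 * Z ^ 2 + q ^ 6 * Z ^ 2) * hv +
    ((-1) * v ^ 2 * q ^ 3 * p * Z + v ^ 2 * q ^ 3 * Z ^ 2 + v ^ 2 * q ^ 2 * p * Z + (-1) * v ^ 2 * q ^ 2 * Z ^ 2 +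
      (-1) * v ^ 2 * q * p * Z + v * q ^ 7 * Z ^ 2 + (-1) * v * q ^ 6 * Z ^ 2 + v * q ^ 4 * Z ^ 2 +
      (-1) * v * q ^ 3 * Z ^ 2 + (-1) * v * q * p * Z + v * q * Z ^ 2 + (-1) * v * Z ^ 2 + q ^ 6 * Z ^ 2 +
      (-1) * q ^ 4 * Z ^ 2 + q ^ 3 * Z ^ 2 + (-1) * q * Z ^ 2 + Z ^ 2) * hq

/-- the quadratic forms `P` -/
noncomputable def v23o_P (q p Z : ℂ) (k m : ℕ) : ℂ :=
  if k = 0 then (if m = 1 then p ^ 2 + q * p * Z else p ^ 2 + q ^ 2 * p * Z)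
  else if k = 1 then (if m = 1 then p ^ 2 + 3 * q ^ 2 * p * Z - q ^ 2 * Z ^ 2 else
    q * p ^ 2 + 3 * q ^ 2 * p * Z - q ^ 2 * Z ^ 2)
  else (if m = 1 then 3 * q * p ^ 2 + (3 * q ^ 2 - q) * p * Z - q ^ 2 * Z ^ 2 else
    3 * q * p ^ 2 + (3 - q) * p * Z - Z ^ 2)

theorem v23o_f {q p Z : ℂ} (hq : q ^ 2 + q + 1 = 0) {k : ℕ} (hk : k < 3) : ∃ F : ℂ, ∀ v : ℂ, v ^ 3 = q →
    q * JX.p2_h q v k * (1 + v) ^ (1 + k) *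
      ((p - q * Z * (q * v + (q * v) ^ 2)) * (p - q * Z * (q ^ 2 * v + (q ^ 2 * v) ^ 2))) =
      F + v23o_P q p Z k 2 * v + v23o_P q p Z k 1 * v ^ 2 := by
  interval_cases k
  · refine ⟨q * ((q * p * Z + Z ^ 2) + (q * p * Z + q ^ 2 * Z ^ 2)), fun v hv => ?_⟩
    rw [v23o_BB hq hv]
    simp only [JX.p2_h, v23o_P, if_true, if_false, OfNat.ofNat_ne_one]
    linear_combination (
      v * q ^ 5 * Z ^ 2 + v * q ^ 4 * p * Z + q ^ 5 * Z ^ 2 + 2 * q ^ 4 * p * Z + q ^ 3 * Z ^ 2) * hv + (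
      v ^ 2 * q ^ 2 * p * Z + v ^ 2 * q * p ^ 2 + (-1) * v ^ 2 * q * p * Z + (-1) * v ^ 2 * p ^ 2 + v * q ^ 4
      * Z ^ 2 + v * q ^ 3 * p * Z + (-1) * v * q ^ 3 * Z ^ 2 + (-1) * v * q ^ 2 * p * Z + v * q * p ^ 2 + (-1)
      * v * p ^ 2 + q ^ 4 * Z ^ 2 + 2 * q ^ 3 * p * Z + (-1) * q ^ 3 * Z ^ 2 + (-2) * q ^ 2 * p * Z + q ^ 2 *
      Z ^ 2 + (-1) * q * Z ^ 2) * hq
  · refine ⟨2 * q * (p ^ 2 - Z ^ 2) + q * (q * p * Z + Z ^ 2) + q ^ 2 * (q * p * Z + q ^ 2 * Z ^ 2), fun v hv => ?_⟩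
    rw [v23o_BB hq hv]
    simp only [JX.p2_h, v23o_P, if_true, if_false, OfNat.ofNat_ne_one, one_ne_zero]
    linear_combination (
      v ^ 3 * q ^ 5 * Z ^ 2 + v ^ 3 * q ^ 4 * p * Z + 2 * v ^ 2 * q ^ 5 * Z ^ 2 + 3 * v ^ 2 * q ^ 4 * p * Z +
      v ^ 2 * q ^ 3 * Z ^ 2 + v * q ^ 5 * Z ^ 2 + 3 * v * q ^ 4 * p * Z + v * q ^ 3 * p ^ 2 + v * q ^ 3 * Z ^
      2 + q ^ 6 * Z ^ 2 + q ^ 5 * p * Z + q ^ 4 * p * Z + 2 * q ^ 3 * p ^ 2 + (-1) * q ^ 3 * Z ^ 2) * hv + (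
      2 * v ^ 2 * q ^ 4 * Z ^ 2 + 3 * v ^ 2 * q ^ 3 * p * Z + (-2) * v ^ 2 * q ^ 3 * Z ^ 2 + (-3) * v ^ 2 * q
      ^ 2 * p * Z + v ^ 2 * q ^ 2 * Z ^ 2 + v ^ 2 * q * p ^ 2 + (-1) * v ^ 2 * p ^ 2 + v * q ^ 4 * Z ^ 2 + 3 *
      v * q ^ 3 * p * Z + (-1) * v * q ^ 3 * Z ^ 2 + v * q ^ 2 * p ^ 2 + (-3) * v * q ^ 2 * p * Z + v * q ^ 2
      * Z ^ 2 + (-1) * v * q * p ^ 2 + q ^ 5 * Z ^ 2 + q ^ 4 * p * Z + (-1) * q ^ 4 * Z ^ 2 + 2 * q ^ 2 * p ^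
      2 + (-1) * q ^ 2 * p * Z + (-1) * q ^ 2 * Z ^ 2 + (-2) * q * p ^ 2 + q * Z ^ 2) * hq
  · refine ⟨-(p ^ 2 - Z ^ 2) + 3 * q ^ 2 * (q * p * Z + Z ^ 2) + 3 * q ^ 2 * (q * p * Z + q ^ 2 * Z ^ 2),
      fun v hv => ?_⟩
    rw [v23o_BB hq hv]
    simp only [JX.p2_h, v23o_P, if_true, if_false, OfNat.ofNat_ne_one, OfNat.ofNat_ne_zero]
    linear_combination (
      v ^ 2 * q ^ 3 * Z ^ 2 + v ^ 2 * q ^ 2 * p * Z + 3 * v * q ^ 3 * Z ^ 2 + 4 * v * q ^ 2 * p * Z + v * q *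
      Z ^ 2 + 3 * q ^ 3 * Z ^ 2 + 6 * q ^ 2 * p * Z + q * p ^ 2 + 2 * q * Z ^ 2) * hv + (
      v ^ 2 * q ^ 2 * Z ^ 2 + v ^ 2 * q * p * Z + 3 * v * q ^ 2 * Z ^ 2 + 4 * v * q * p * Z + (-3) * v * q * Z
      ^ 2 + (-3) * v * p * Z + v * Z ^ 2 + p ^ 2 + (-1) * Z ^ 2) * hq

theorem v23o_term {q v C X Y p : ℂ} (hq : q ^ 2 + q + 1 = 0) (hv : v ^ 3 = q) (hC : C ^ 3 = 1) (h : JX.IsPt C v X Y)
    (hB : p - q * (3 * p - 1) * (v + v ^ 2) ≠ 0) {k : ℕ} (hk : k < 3) :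
    X ^ (2 - k) / (X ^ 3 - (3 * p - 1)) =
      1 / 3 * C ^ (2 - k) * (q * JX.p2_h q v k * (1 + v) ^ (1 + k)) / (p - q * (3 * p - 1) * (v + v ^ 2)) := by
  obtain ⟨h1, h2, h3, -⟩ := h
  have hq0 : q ≠ 0 := by
    rintro rfl
    norm_num at hq
  have hq3 : q ^ 3 = 1 := by linear_combination (q - 1) * hq
  have e1 : X ^ 3 - (3 * p - 1) = 3 * (p - q * (3 * p - 1) * (v + v ^ 2)) / (q * (1 + v) ^ 3) := by
    rw [h3, div_pow, hC, mul_pow, hv, eq_div_iff (mul_ne_zero hq0 (pow_ne_zero 3 h2))]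
    rw [sub_mul, div_mul_cancel₀ _ (mul_ne_zero hq0 (pow_ne_zero 3 h2))]
    linear_combination (-(3 * p - 1) * q) * hv - (3 * p - 1) * hq
  have hvq : v ^ 3 * q ^ 2 = 1 := by
    rw [hv]
    linear_combination hq3
  have hB' : p - v * (1 + v) * q * (3 * p - 1) ≠ 0 := by
    intro h
    exact hB (by linear_combination h)
  rw [e1, h3]
  interval_cases k
  · simp only [JX.p2_h, if_true, Nat.sub_zero]
    field_simp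
    linear_combination (-(C ^ 2 * (1 + v))) * hvq
  · simp only [JX.p2_h, if_false, if_true, one_ne_zero, show 2 - 1 = 1 from rfl, pow_one]
    field_simp
    linear_combination (-(C * (1 + v) ^ 2)) * hvq
  · simp only [JX.p2_h, if_false, OfNat.ofNat_ne_zero, OfNat.ofNat_ne_one, Nat.sub_self, pow_zero]
    field_simp

/-- the sum over the three points -/
theorem v23o_sum3 {q υ C z z' : ℂ} (hq : q ^ 2 + q + 1 = 0) (hυ : υ ^ 3 = q) (hC : C ^ 3 = 1)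
    {X0 X1 X2 Y0 Y1 Y2 : ℂ} (h0 : JX.IsPt C υ X0 Y0) (h1 : JX.IsPt C (q * υ) X1 Y1) (h2 : JX.IsPt C (q ^ 2 * υ) X2 Y2)
    (hz : z ≠ 0) (hz' : 1 + z' ^ 3 ≠ 0) (hr : 27 * z' ^ 3 * z ^ 6 = -(z ^ 3 + 1) ^ 3) {p : ℂ} (hp : z ^ 3 = 3 * p - 1)
    {k m : ℕ} (hk : k < 3) (hm : m = 1 ∨ m = 2) :
    X0 ^ (2 - k) / (X0 ^ 3 - z ^ 3) + q ^ m * (X1 ^ (2 - k) / (X1 ^ 3 - z ^ 3)) +
      q ^ (2 * m) * (X2 ^ (2 - k) / (X2 ^ 3 - z ^ 3)) =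
      -(υ ^ (3 - m) * C ^ (2 - k) * v23o_P q p (3 * p - 1) k m / ((3 * p - 1) ^ 2 * (1 + z' ^ 3))) := by
  have hq3 : q ^ 3 = 1 := by linear_combination (q - 1) * hq
  have hZ : (3 * p - 1 : ℂ) ≠ 0 := by
    rw [← hp]
    exact pow_ne_zero 3 hz
  have hr' : p ^ 3 = -(z' ^ 3 * (3 * p - 1) ^ 2) := by
    rw [show z ^ 6 = (z ^ 3) ^ 2 by ring, hp] at hr
    linear_combination (1 / 27 : ℂ) * hr
  have hprod := JX.p2_prod (p := p) hq hυ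
  have hD : p ^ 3 - (3 * p - 1) ^ 2 = -((3 * p - 1) ^ 2 * (1 + z' ^ 3)) := by
    rw [hr']
    ring
  have hD0 : p ^ 3 - (3 * p - 1) ^ 2 ≠ 0 := by
    rw [hD]
    exact neg_ne_zero.2 (mul_ne_zero (pow_ne_zero 2 hZ) hz')
  have hB := hprod.symm ▸ hD0
  rw [hD] at hprod
  have hB0 := left_ne_zero_of_mul hB
  have hB1 := left_ne_zero_of_mul (right_ne_zero_of_mul hB)
  have hB2 := right_ne_zero_of_mul (right_ne_zero_of_mul hB)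
  have v1 : (q * υ) ^ 3 = q := by
    rw [mul_pow, hq3, hυ, one_mul]
  have v2 : (q ^ 2 * υ) ^ 3 = q := by
    rw [mul_pow, hυ, ← pow_mul, mul_comm 2 3, pow_mul, hq3]
    ring
  rw [hp, v23o_term hq hυ hC h0 hB0 hk, v23o_term hq v1 hC h1 hB1 hk, v23o_term hq v2 hC h2 hB2 hk]
  obtain ⟨F, hF⟩ := v23o_f (p := p) (Z := 3 * p - 1) hq hk
  have f0 := hF υ hυ
  have f1 := hF (q * υ) v1
  have f2 := hF (q ^ 2 * υ) v2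
  have g1 : q * (q * υ) = q ^ 2 * υ := by ring
  have g2 : q ^ 2 * (q * υ) = υ := by linear_combination υ * hq3
  have g3 : q * (q ^ 2 * υ) = υ := by linear_combination υ * hq3
  have g4 : q ^ 2 * (q ^ 2 * υ) = q * υ := by linear_combination q * υ * hq3
  rw [g1, g2] at f1
  rw [g3, g4] at f2
  have key : ∀ (T0 T1 T2 B0 B1 B2 K a1 a2 : ℂ), B0 ≠ 0 → B1 ≠ 0 → B2 ≠ 0 →
      K * T0 / B0 + a1 * (K * T1 / B1) + a2 * (K * T2 / B2) =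
        K * (T0 * (B1 * B2) + a1 * (T1 * (B2 * B0)) + a2 * (T2 * (B0 * B1))) / (B0 * (B1 * B2)) := by
    intro T0 T1 T2 B0 B1 B2 K a1 a2 n0 n1 n2
    field_simp
  rw [key _ _ _ _ _ _ _ _ _ hB0 hB1 hB2, hprod, f0, f1, f2]
  have hden : (3 * p - 1) ^ 2 * (1 + z' ^ 3) ≠ 0 := mul_ne_zero (pow_ne_zero 2 hZ) hz'
  rw [div_neg, neg_inj, div_left_inj' hden]
  rcases hm with rfl | rfl
  · linear_combination (1 / 3 * C ^ (2 - k)) * (F + v23o_P q p (3 * p - 1) k 2 * υ * (q ^ 2 - q + 1)) * hq +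
      (1 / 3 * C ^ (2 - k)) * (v23o_P q p (3 * p - 1) k 1 * υ ^ 2 * (q ^ 3 + 2)) * hq3
  · linear_combination (1 / 3 * C ^ (2 - k)) * (F * (q ^ 2 - q + 1) +
      v23o_P q p (3 * p - 1) k 1 * υ ^ 2 * (q ^ 6 - q ^ 5 + q ^ 3 - q + 1)) * hq +
      (1 / 3 * C ^ (2 - k)) * (v23o_P q p (3 * p - 1) k 2 * υ * (q ^ 3 + 2)) * hq3

end JGL
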