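import Pool.Agent.JGL.V23o3

/-!
# [JGL-V23o4] `ep = 1`, `n = 3`: the closed formula
-/

set_option autoImplicit false

open NumberField IsDedekindDomain Filter Topology
open scoped Classical ComplexConjugate

namespace JGL

open CM27 JZ
open CU (la eE)
open CUL (Nl ez si ta rh DS Cont LV IsRep rp cr mn mo zw OT GalU W3 W9)
open JL (N1 KD sD Psi6)

theorem v23o_pts : ∃ υ C : ℂ, υ ^ 3 = w ∧ C ^ 3 = 1 ∧
    JX.IsPt C υ (xw (emb 1 / emb la ^ 3)) (yw (emb 1 / emb la ^ 3)) ∧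
    JX.IsPt C (w * υ) (xw (emb (-2) / emb la ^ 3)) (yw (emb (-2) / emb la ^ 3)) ∧
    JX.IsPt C (w ^ 2 * υ) (xw (emb 4 / emb la ^ 3)) (yw (emb 4 / emb la ^ 3)) := by
  have hq : ((w : ℂ) = w ^ 2 ∧ yw ta = 1) ∨ ((w : ℂ) = w ∧ yw ta = -1) := Or.inr ⟨rfl, yw_ta⟩
  obtain ⟨υ, C, h1, h2, h3⟩ := JX.p1_base hq
  have hx := CUL.xw_rh_ne
  have n1 : Nl (rh + ta) := fun h => hx ((CUL.xw_eq_zero_iff CUL.nl_rh).2 (Or.inr h))
  have n2 : Nl (rh - ta) := fun h => hx ((CUL.xw_eq_zero_iff CUL.nl_rh).2 (Or.inl h))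
  have e3 : rh + ta + ta = rh - ta + emb (2 + CU.om) := by
    rw [← CUL.three_ta]
    ring
  have n3 : Nl (rh + ta + ta) := by
    rw [e3]
    exact n2.add_emb _
  have n4 : Nl (rh + ta - ta) := by
    rw [add_sub_cancel_right]
    exact CUL.nl_rh
  obtain ⟨a1, a2, a3⟩ := JX.p1_add CUL.nl_rh n1 n2
  obtain ⟨b1, b2, b3⟩ := JX.p1_add n1 n3 n4
  have s1 := JX.p1_step hq h3 a1 a2 a3
  have s2 := JX.p1_step hq s1 b1 b2 b3
  have c1 : emb (1 : Eis) / emb la ^ 3 = rh := by rw [map_one]; rfl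
  refine ⟨υ, C, h1, h2, ?_, ?_, ?_⟩
  · rw [c1]
    exact h3
  · rw [JX.p1_mtwo, xw_add, yw_add]
    exact s1
  · rw [JX.p1_four, xw_add, yw_add]
    rw [e3, xw_add, yw_add] at s2
    have e4 : w ^ 2 * υ = w * (w * υ) := by ring
    rw [e4]
    exact s2

theorem v23o_pt_la (L : Lev) (c : Eis) : pt L (la * c) = emb la * pt L c := by
  rw [pt, pt, map_mul, mul_div_assoc]

theorem v23o_ka {i m : ℕ} (h : (i = 1 ∧ m = 2) ∨ (i = 2 ∧ m = 1)) :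
    ka 0 i 1 = 1 ∧ ka 0 i (-2) = w ^ m ∧ ka 0 i 4 = w ^ (2 * m) := by
  have m1 : mn 1 = 0 := by decide
  have m2 : mn (-2) = 2 := by decide
  have m4 : mn 4 = 1 := by decide
  have h3 := CUL.w3
  rw [ka, ka, ka, m1, m2, m4, mul_zero, add_zero, zero_mul, CUL.zw_zero]
  refine ⟨rfl, ?_⟩
  rcases h with ⟨rfl, rfl⟩ | ⟨rfl, rfl⟩
  · have e1 : (0 : ZMod 3) * mo (-2) + ((1 : ℕ) : ZMod 3) * 2 = 2 := by rw [zero_mul]; decide
    have e2 : (0 : ZMod 3) * mo 4 + ((1 : ℕ) : ZMod 3) * 1 = 1 := by rw [zero_mul]; decide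
    rw [e1, e2, CUL.zw_one, CUL.zw_two]
    exact ⟨rfl, by linear_combination (-w) * h3⟩
  · have e1 : (0 : ZMod 3) * mo (-2) + ((2 : ℕ) : ZMod 3) * 2 = 1 := by rw [zero_mul]; decide
    have e2 : (0 : ZMod 3) * mo 4 + ((2 : ℕ) : ZMod 3) * 1 = 2 := by rw [zero_mul]; decide
    rw [e1, e2, CUL.zw_one, CUL.zw_two, pow_one]
    exact ⟨rfl, rfl⟩

theorem v23o_V3_eq (L : Lev) (hep : L.ep = 1) {R : Finset Eis} (hR : IsR L R) {i m : ℕ}
    (h : (i = 1 ∧ m = 2) ∨ (i = 2 ∧ m = 1)) : ∃ κ : ℂ, κ ^ 9 = 1 ∧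
    V3 L i = -4 * κ * th * ∑ c ∈ R, conj (L.chi c) * (xw (pt L c) ^ L.k.val * (Tm (pt L c) *
      (v23o_P w ((1 - Tm (pt L c) ^ 2) / 4) (3 * ((1 - Tm (pt L c) ^ 2) / 4) - 1) L.k.val m /
        ((3 * ((1 - Tm (pt L c) ^ 2) / 4) - 1) ^ 2 * (1 - Tm (pt L (la * c)) ^ 2))))) := by
  obtain ⟨υ, C, hυ, hC, p0, p1, p2⟩ := v23o_pts
  obtain ⟨k1, k2, k4⟩ := v23o_ka h
  have h3w := CUL.w3
  have h2w := CUL.w2
  have hq1 : w ^ 2 + w + 1 = 0 := by linear_combination h2w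
  have hk3 : L.k.val < 3 := ZMod.val_lt _
  have hm : m = 1 ∨ m = 2 := by rcases h with ⟨-, h⟩ | ⟨-, h⟩ <;> omega
  have hW : W3 = ({1, 4, -2} : Finset Eis) := rfl
  have hsum : ∀ G : Eis → ℂ, ∑ b ∈ W3, G b = G 1 + (G 4 + G (-2)) := by
    intro G
    rw [hW, Finset.sum_insert (by decide), Finset.sum_insert (by decide), Finset.sum_singleton]
  have hκ0 : ka 0 i 1 + (ka 0 i 4 + ka 0 i (-2)) = 0 := by
    rw [k1, k2, k4]
    rcases hm with rfl | rfl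
    · linear_combination hq1
    · linear_combination (w ^ 2 - w + 1) * hq1
  refine ⟨υ ^ (3 - m) * C ^ (2 - L.k.val), ?_, ?_⟩
  · have e1 : υ ^ 9 = 1 := by
      have : υ ^ 9 = (υ ^ 3) ^ 3 := by ring
      rw [this, hυ, h3w]
    have e3 : C ^ 9 = 1 := by
      have : C ^ 9 = (C ^ 3) ^ 3 := by ring
      rw [this, hC, one_pow]
    rw [mul_pow, ← pow_mul, ← pow_mul, mul_comm (3 - m) 9, mul_comm (2 - L.k.val) 9, pow_mul, pow_mul, e1, e3,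
      one_pow, one_pow, mul_one]
  · obtain ⟨S, hS⟩ : ∃ S, S = ∑ α ∈ rp L.f, conj (L.chi α) * ez (pt L α) := ⟨_, rfl⟩
    have e1 : V3 L i = ∑ b ∈ W3, ka 0 i b *
        ∑ α ∈ rp L.f, conj (L.chi α) * ez (pt L α + emb b / emb la ^ 3) := by
      unfold V3
      simp only [Finset.mul_sum]
      rw [Finset.sum_comm]
      refine Finset.sum_congr rfl fun b _ => Finset.sum_congr rfl fun α _ => ?_
      ring
    have e2 : ∀ b ∈ W3, ka 0 i b *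
        ∑ α ∈ rp L.f, conj (L.chi α) * ez (pt L α + emb b / emb la ^ 3) =
        ka 0 i b * S - ∑ c ∈ R, 3 * (conj (L.chi c) * (xw (pt L c) ^ L.k.val * yw (pt L c))) * (ka 0 i b *
          (xw (emb b / emb la ^ 3) ^ (2 - L.k.val) / (xw (emb b / emb la ^ 3) ^ 3 - xw (pt L c) ^ 3))) := by
      intro b hb
      obtain ⟨h1, h2⟩ := JX.h3_W3 hb
      rw [v23o_gen L hep hR h1 h2, ← hS, mul_sub, Finset.mul_sum, Finset.mul_sum]
      congr 1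
      refine Finset.sum_congr rfl fun c _ => ?_
      ring
    rw [e1, Finset.sum_congr rfl e2, Finset.sum_sub_distrib, ← Finset.sum_mul, hsum (fun b => ka 0 i b), hκ0,
      zero_mul, zero_sub, Finset.sum_comm, Finset.mul_sum, ← Finset.sum_neg_distrib]
    refine Finset.sum_congr rfl fun c hc => ?_
    rw [← Finset.mul_sum, hsum (fun b => ka 0 i b *
      (xw (emb b / emb la ^ 3) ^ (2 - L.k.val) / (xw (emb b / emb la ^ 3) ^ 3 - xw (pt L c) ^ 3)))]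
    have hcop := hR.1 c hc
    have hOT := OT_pt L hcop
    have hOT' : OT (emb la * pt L c) := CUL.u7_la_mul hOT
    have hx : xw (pt L c) ≠ 0 := CUL.u7_ne hOT
    have hx3 := v23o_x3 hOT.1
    have hx3' := v23o_x3 hOT'.1
    have hsi : emb la ^ 2 * si ∈ Set.range emb := by
      refine ⟨1, ?_⟩
      rw [map_one, pow_two, mul_assoc, CUL.la_si, CUL.la_ta]
    have hd' : 1 + xw (emb la * pt L c) ^ 3 ≠ 0 := by
      have h5 := v23o_ne3 L CUL.nl_si hsi ((la_cop L).mul_left hcop)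
      rw [CUL.xw_si, v23o_pt_la] at h5
      intro h0
      exact h5 (by linear_combination -h0)
    have hp : xw (pt L c) ^ 3 = 3 * ((1 - Tm (pt L c) ^ 2) / 4) - 1 := by
      linear_combination (1 / 4 : ℂ) * hx3
    have hs := v23o_sum3 hq1 hυ hC p0 p1 p2 hx hd' (JX.h4_rel _ hx) hp hk3 hm
    have hd2 : 1 + xw (emb la * pt L c) ^ 3 = 3 / 4 * (1 - Tm (pt L (la * c)) ^ 2) := by
      rw [v23o_pt_la]
      linear_combination (1 / 4 : ℂ) * hx3'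
    have hn2 : 1 - Tm (pt L (la * c)) ^ 2 ≠ 0 := by
      intro h0
      rw [h0, mul_zero] at hd2
      exact hd' hd2
    have hZ : (3 * ((1 - Tm (pt L c) ^ 2) / 4) - 1 : ℂ) ≠ 0 := by
      rw [← hp]
      exact pow_ne_zero 3 hx
    rw [k1, k2, k4]
    have hs' : 1 * (xw (emb (1 : Eis) / emb la ^ 3) ^ (2 - L.k.val) / (xw (emb (1 : Eis) / emb la ^ 3) ^ 3 - xw (pt L c) ^ 3)) +
        (w ^ (2 * m) * (xw (emb (4 : Eis) / emb la ^ 3) ^ (2 - L.k.val) / (xw (emb (4 : Eis) / emb la ^ 3) ^ 3 - xw (pt L c) ^ 3)) +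
        w ^ m * (xw (emb (-2 : Eis) / emb la ^ 3) ^ (2 - L.k.val) / (xw (emb (-2 : Eis) / emb la ^ 3) ^ 3 - xw (pt L c) ^ 3))) =
        -(υ ^ (3 - m) * C ^ (2 - L.k.val) * v23o_P w ((1 - Tm (pt L c) ^ 2) / 4) (3 * ((1 - Tm (pt L c) ^ 2) / 4) - 1) L.k.val m /
          ((3 * ((1 - Tm (pt L c) ^ 2) / 4) - 1) ^ 2 * (3 / 4 * (1 - Tm (pt L (la * c)) ^ 2)))) := by
      rw [← hd2, ← hs]
      ring
    rw [hs', v23o_yw]
    generalize v23o_P w ((1 - Tm (pt L c) ^ 2) / 4) (3 * ((1 - Tm (pt L c) ^ 2) / 4) - 1) L.k.val m = P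
    generalize (3 * ((1 - Tm (pt L c) ^ 2) / 4) - 1 : ℂ) = Z at hZ
    generalize 1 - Tm (pt L (la * c)) ^ 2 = N at hn2
    field_simp

end JGL
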