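import Pool.Agent.JGL.B
import Pool.Agent.JL.A4

/-!
# [JGL-V2e] `ep = 0`, `n = 2`
-/

set_option autoImplicit false

open NumberField IsDedekindDomain Filter Topology
open scoped Classical ComplexConjugate

namespace JGL

open CM27 JZ
open CU (la eE)
open CUL (Nl ez si ta DS Cont LV IsRep rp cr mn mo zw OT GalU W3 W9)
open JL (N1 KD sD Psi6)


theorem v2e_hfe (L : Lev) : emb L.f ≠ 0 := CUL.l2_emb_ne (f_ne L)

theorem v2e_pt_congr (L : Lev) {a b : Eis} (hab : L.f ∣ a - b) : ∃ t : Eis, pt L a = pt L b + emb t := by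
  obtain ⟨t, ht⟩ := hab
  have hfe := v2e_hfe L
  refine ⟨t, ?_⟩
  have h2 : a = b + L.f * t := by linear_combination ht
  rw [pt, pt, h2, map_add, map_mul]
  field_simp

theorem v2e_pt_neg (L : Lev) (x : Eis) : pt L (-x) = -pt L x := by
  rw [pt, pt, map_neg, neg_div]

theorem v2e_xw_neg (L : Lev) (x : Eis) : xw (pt L (-x)) = xw (pt L x) := by
  rw [v2e_pt_neg, xw_neg]

theorem v2e_xw_om (L : Lev) (x : Eis) : xw (pt L (CU.om * x)) = w * xw (pt L x) := by
  rw [pt, pt, map_mul, CUL.emb_om, mul_div_assoc, xw_w]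

theorem v2e_chi_neg (L : Lev) (hep : L.ep = 0) (x : Eis) : L.chi (-x) = L.chi x := by
  have h1 : L.q (-x) = L.q x := by
    have h2 : (-x : Eis) = (-1) * x := by ring
    rw [h2, L.q_mul, L.q_neg, hep]
    ring
  rw [Lev.chi, Lev.chi, h1, c_neg]

theorem v2e_chi_om (L : Lev) (x : Eis) : conj (L.chi (CU.om * x)) = zw (-L.k) * conj (L.chi x) := by
  rw [chi_mul]
  have h1 : L.chi CU.om = zw L.k := by
    rw [Lev.chi, L.q_om, L.c_om, Int.cast_one, one_mul]
  rw [h1, map_mul, CUL.zw_conj]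

theorem v2e_x3 (L : Lev) {c : Eis} (hc : IsCoprime c L.f) : xw (pt L c) ^ 3 + 1 ≠ 0 := by
  intro h1
  have h2 := OT_pt L hc
  have h3 := CUL.u7_ne (CUL.u7_la_mul h2)
  apply h3
  rw [CUL.xw_la]
  rw [h1, zero_div]

/-- the closed formula -/
theorem v2e_eq (L : Lev) (hep : L.ep = 0) {R : Finset Eis} (hR : IsR L R) :
    V2 L = -3 * yw si * xw si ^ (2 - L.k.val) *
      ∑ c ∈ R, conj (L.chi c) * xw (pt L c) ^ L.k.val / (1 + xw (pt L c) ^ 3) := by
  have hf := f_ne L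
  have hfe := v2e_hfe L
  have hrep := CUL.rp_spec hf
  have hcop : ∀ α : Eis, L.chi α ≠ 0 → IsCoprime α L.f := fun α hα => (chi_ne_zero_iff L α).1 hα
  -- step 1
  have s1 : 2 * V2 L = yw si * ∑ α ∈ rp L.f, conj (L.chi α) * (1 / (xw si - xw (pt L α))) := by
    have h1 : ∑ α ∈ rp L.f, conj (L.chi (-α)) * ez (pt L (-α) + si) = V2 L := by
      refine hrep.sum_neg (fun α => conj (L.chi α) * ez (pt L α + si)) ?_
      intro a b hab
      obtain ⟨t, ht⟩ := v2e_pt_congr L hab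
      show conj (L.chi a) * ez (pt L a + si) = conj (L.chi b) * ez (pt L b + si)
      rw [chi_per L hab, ht, add_right_comm, CUL.ez_add_emb]
    have h2 : 2 * V2 L = ∑ α ∈ rp L.f, (conj (L.chi α) * ez (pt L α + si) +
        conj (L.chi (-α)) * ez (pt L (-α) + si)) := by
      rw [Finset.sum_add_distrib, h1, two_mul]; rfl
    have h3 : ∀ α ∈ rp L.f, (conj (L.chi α) * ez (pt L α + si) +
        conj (L.chi (-α)) * ez (pt L (-α) + si)) =
        2 * ez si * conj (L.chi α) + yw si * (conj (L.chi α) * (1 / (xw si - xw (pt L α)))) := by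
      intro α _
      by_cases hα : L.chi α = 0
      · rw [v2e_chi_neg L hep, hα]; simp
      · have h4 := CUL.pair_si (OT_pt L (hcop α hα))
        rw [v2e_chi_neg L hep, v2e_pt_neg, ← mul_add, h4]
        ring
    rw [h2, Finset.sum_congr rfl h3, Finset.sum_add_distrib, ← Finset.mul_sum, ← Finset.mul_sum, sum_chi L,
      mul_zero, zero_add]
  -- step 2
  have hG : ∀ a b : Eis, L.f ∣ a - b → conj (L.chi a) * (1 / (xw si - xw (pt L a))) =
      conj (L.chi b) * (1 / (xw si - xw (pt L b))) := by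
    intro a b hab
    rw [chi_per L hab, (pt_congr_xw L hab).1]
  have hom : IsCoprime (CU.om : Eis) L.f := JL.h3_cop JL.h3_unit_om _
  have s2 : ∑ α ∈ rp L.f, conj (L.chi (CU.om * α)) * (1 / (xw si - xw (pt L (CU.om * α)))) =
      ∑ α ∈ rp L.f, conj (L.chi α) * (1 / (xw si - xw (pt L α))) :=
    hrep.sum_mul hom (fun α => conj (L.chi α) * (1 / (xw si - xw (pt L α)))) hG
  have hom2 : IsCoprime (CU.om * CU.om : Eis) L.f := JL.h3_cop (JL.h3_unit_om.mul JL.h3_unit_om) _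
  have s3 : ∑ α ∈ rp L.f, conj (L.chi (CU.om * CU.om * α)) *
        (1 / (xw si - xw (pt L (CU.om * CU.om * α)))) =
      ∑ α ∈ rp L.f, conj (L.chi α) * (1 / (xw si - xw (pt L α))) :=
    hrep.sum_mul hom2 (fun α => conj (L.chi α) * (1 / (xw si - xw (pt L α)))) hG
  have s4 : 3 * ∑ α ∈ rp L.f, conj (L.chi α) * (1 / (xw si - xw (pt L α))) =
      ∑ α ∈ rp L.f, -3 * xw si ^ (2 - L.k.val) *
        (conj (L.chi α) * xw (pt L α) ^ L.k.val / (1 + xw (pt L α) ^ 3)) := by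
    have h5 : 3 * ∑ α ∈ rp L.f, conj (L.chi α) * (1 / (xw si - xw (pt L α))) =
        ∑ α ∈ rp L.f, (conj (L.chi α) * (1 / (xw si - xw (pt L α))) +
          conj (L.chi (CU.om * α)) * (1 / (xw si - xw (pt L (CU.om * α)))) +
          conj (L.chi (CU.om * CU.om * α)) * (1 / (xw si - xw (pt L (CU.om * CU.om * α))))) := by
      rw [Finset.sum_add_distrib, Finset.sum_add_distrib, s2, s3]; ring
    rw [h5]
    refine Finset.sum_congr rfl fun α _ => ?_
    rw [mul_assoc CU.om CU.om α, v2e_chi_om L (CU.om * α), v2e_chi_om L α, v2e_xw_om L (CU.om * α),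
      v2e_xw_om L α]
    by_cases hα : L.chi α = 0
    · rw [hα]; simp
    · have h6 := JL.h3_alg CUL.xw_si (v2e_x3 L (hcop α hα)) L.k
      have h7 : -3 * xw si ^ (2 - L.k.val) *
          (conj (L.chi α) * xw (pt L α) ^ L.k.val / (1 + xw (pt L α) ^ 3)) =
          conj (L.chi α) * (-3 * xw si ^ (2 - L.k.val) *
            (xw (pt L α) ^ L.k.val / (1 + xw (pt L α) ^ 3))) := by
        ring
      rw [h7, ← h6]
      rw [show w * (w * xw (pt L α)) = w ^ 2 * xw (pt L α) by ring]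
      ring
  -- step 3
  have s5 : ∑ α ∈ rp L.f, -3 * xw si ^ (2 - L.k.val) *
        (conj (L.chi α) * xw (pt L α) ^ L.k.val / (1 + xw (pt L α) ^ 3)) =
      -3 * xw si ^ (2 - L.k.val) * (6 * ∑ c ∈ R, conj (L.chi c) * xw (pt L c) ^ L.k.val /
        (1 + xw (pt L c) ^ 3)) := by
    rw [← Finset.mul_sum]
    congr 1
    have h8 := sum_R L hR (fun α => conj (L.chi α) * xw (pt L α) ^ L.k.val / (1 + xw (pt L α) ^ 3)) ?_ ?_
    · rw [← h8]
      rw [Finset.sum_filter_of_ne]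
      intro α _ hne
      apply hcop
      intro h9
      apply hne
      rw [h9]; simp
    · intro x y hxy
      show _ / _ = _ / _
      rw [chi_per L hxy, (pt_congr_xw L hxy).1]
    · have hneg : ∀ x : Eis, conj (L.chi (-x)) * xw (pt L (-x)) ^ L.k.val / (1 + xw (pt L (-x)) ^ 3) =
          conj (L.chi x) * xw (pt L x) ^ L.k.val / (1 + xw (pt L x) ^ 3) := by
        intro x
        rw [v2e_chi_neg L hep, v2e_xw_neg]
      have homi : ∀ x : Eis, conj (L.chi (CU.om * x)) * xw (pt L (CU.om * x)) ^ L.k.val /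
          (1 + xw (pt L (CU.om * x)) ^ 3) =
            conj (L.chi x) * xw (pt L x) ^ L.k.val / (1 + xw (pt L x) ^ 3) := by
        intro x
        have h9 : zw (-L.k) * w ^ L.k.val = 1 := by
          change zw (-L.k) * zw L.k = 1
          rw [← CUL.zw_add, neg_add_cancel, CUL.zw_zero]
        rw [v2e_chi_om, v2e_xw_om, mul_pow w (xw (pt L x)) 3, CUL.w3, one_mul]
        congr 1
        rw [mul_pow]
        linear_combination (conj (L.chi x) * xw (pt L x) ^ L.k.val) * h9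
      intro ζ x hζ
      show conj (L.chi (ζ * x)) * xw (pt L (ζ * x)) ^ L.k.val / (1 + xw (pt L (ζ * x)) ^ 3) =
          conj (L.chi x) * xw (pt L x) ^ L.k.val / (1 + xw (pt L x) ^ 3)
      rcases CUL.unit_cases hζ with rfl | rfl | rfl | rfl | rfl | rfl
      · rw [one_mul]
      · rw [neg_one_mul, hneg]
      · rw [homi]
      · rw [neg_mul, hneg, homi]
      · rw [pow_two, mul_assoc, homi, homi]
      · rw [neg_mul, hneg, pow_two, mul_assoc, homi, homi]
  have s6 := s4.trans s5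
  linear_combination (1 / 2) * s1 + (1 / 6 * yw si) * s6

theorem V_2e (L : Lev) (hep : L.ep = 0) {η : Eis} (hη : η = 1 ∨ η = -1) (hq : (L.q la : Eis) = η)
    (hcl : ¬ (η = -1 ∧ L.k = 1) ∧ ¬ (η = 1 ∧ L.k = 0)) {R : Finset Eis} (hR : IsR L R) (A : ValuationSubring ℂ)
    (hA : A.valuation 3 < 1) {D' : Eis} (hD : (3 : Eis) ∣ D' - η) {r : ℂ} (hr : r ^ 2 = emb D') {m : ZMod 3}
    (hm : L.k ≠ 0 → m = 0) {u₁ u₂ : ℂ} (hN : N2 r (zw m * ee L R) u₁ u₂) :
    A.valuation (V2 L) ≤ A.valuation (emb la) ^ 2 ∧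
      (A.valuation (V2 L) = A.valuation (emb la) ^ 2 ↔ A.valuation (u₂ / emb la) = 1) := by
  obtain ⟨rr, hrr⟩ := JL.a4_exists_r
  have hrv := JZ.a1_r A hA hrr
  have hrA : rr ∈ A := (ValuationSubring.valuation_le_one_iff A _).1 hrv.le
  have hXv : ∀ c ∈ R, A.valuation ((xw (pt L c) - rr) / emb la) ≤ 1 := by
    intro c hc
    have h1 := JZ.x_sub_r A hA hrr (OT_pt L (hR.1 c hc))
    rw [map_div₀]
    exact div_le_one_of_le₀ h1 zero_le
  let X : Eis → A := fun c => if hc : A.valuation ((xw (pt L c) - rr) / emb la) ≤ 1 then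
    ⟨(xw (pt L c) - rr) / emb la, (ValuationSubring.valuation_le_one_iff A _).1 hc⟩ else 0
  have hX : ∀ c ∈ R, xw (pt L c) = ((⟨rr, hrA⟩ : A) : ℂ) + emb la * (X c : ℂ) := by
    intro c hc
    have h1 : (X c : ℂ) = (xw (pt L c) - rr) / emb la := by
      simp only [X, dif_pos (hXv c hc)]
    rw [h1]
    have h2 := CUL.la_ne
    field_simp
    ring
  -- the character
  have hcz : ∀ c ∈ R, ∃ l : ZMod 3, L.c c = zw l ∧ (L.k ≠ 0 → l = 0) := by
    intro c hc
    by_cases hk : L.k = 0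
    · obtain ⟨l, hl⟩ := L.c_cube c (hR.1 c hc)
      exact ⟨l, hl, fun h1 => absurd hk h1⟩
    · exact ⟨0, by rw [hR.2.2 hk c hc, CUL.zw_zero], fun _ => rfl⟩
  choose! l hl1 hl2 using hcz
  let ψ : Eis → A := fun c => (L.q c : A) * JZ.wA A ^ (-(l c)).val
  have hψc : ∀ c ∈ R, (ψ c : ℂ) = conj (L.chi c) := by
    intro c hc
    have h1 : ((JZ.wA A : A) : ℂ) = w := rfl
    have h2 : (ψ c : ℂ) = (L.q c : ℂ) * w ^ (-(l c)).val := by
      simp only [ψ]
      push_cast
      rw [h1]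
    rw [h2, Lev.chi, map_mul, hl1 c hc, CUL.zw_conj, map_intCast]
    rfl
  have hqq : ∀ c ∈ R, L.q c = 1 ∨ L.q c = -1 := fun c hc => L.q_pm c (hR.1 c hc)
  have hψ0 : ∑ c ∈ R, ψ c = 0 := by
    apply Subtype.ext
    have h1 : ((∑ c ∈ R, ψ c : A) : ℂ) = ∑ c ∈ R, conj (L.chi c) := by
      rw [← Finset.sum_congr rfl hψc]
      push_cast
      rfl
    rw [h1]
    by_cases hk : L.k = 0
    · rw [sum_R_chi L hep hk hR]; rfl
    · have h2 : ∀ c ∈ R, conj (L.chi c) = ((L.q c : ℤ) : ℂ) := by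
        intro c hc
        rw [Lev.chi, hR.2.2 hk c hc, mul_one, map_intCast]
      rw [Finset.sum_congr rfl h2, ← Int.cast_sum, sum_R_q L hep hR]
      simp
  have hψn : ∀ c ∈ R, JZ.rsd A (ψ c) = (L.q c : IsLocalRing.ResidueField A) := by
    intro c hc
    simp only [ψ]
    rw [map_mul, map_pow, JZ.rsd_w A hA, one_pow, mul_one, map_intCast]
  -- the sign
  obtain ⟨η', hη1, hη'⟩ : ∃ η' : ℤ, (η' : Eis) = η ∧ (η' = 1 ∨ η' = -1) := by
    rcases hη with h1 | h1
    · exact ⟨1, by rw [h1]; simp, Or.inl rfl⟩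
    · exact ⟨-1, by rw [h1]; simp, Or.inr rfl⟩
  have hDη : (3 : Eis) ∣ D' - (η' : Eis) := by rw [hη1]; exact hD
  obtain ⟨hu1, hu2, e1, e2, e3⟩ := hN
  have hnorm : u₁ ^ 2 - u₂ ^ 2 * emb D' = 1 := by
    have h1 : (u₁ + u₂ * r) * (u₁ - u₂ * r) = 1 := by
      rw [← e1, ← e2, mul_inv_cancel₀ e3]
    rw [← hr, ← h1]; ring
  have hm' : L.k ≠ 0 → m.val = 0 := fun h1 => by rw [hm h1]; rfl
  have hcase : (η' = -1 ∧ L.k.val = 0) ∨ (η' = -1 ∧ L.k.val = 2 ∧ m.val = 0) ∨
      (η' = 1 ∧ L.k.val = 1 ∧ m.val = 0) ∨ (η' = 1 ∧ L.k.val = 2 ∧ m.val = 0) := by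
    have hk3 : L.k = 0 ∨ L.k = 1 ∨ L.k = 2 := by
      have : ∀ k : ZMod 3, k = 0 ∨ k = 1 ∨ k = 2 := by decide
      exact this _
    rcases hη' with h1 | h1
    · have h2 : η = 1 := by rw [← hη1, h1]; simp
      rcases hk3 with h3 | h3 | h3
      · exact absurd ⟨h2, h3⟩ hcl.2
      · exact Or.inr (Or.inr (Or.inl ⟨h1, by rw [h3]; rfl, hm' (by rw [h3]; decide)⟩))
      · exact Or.inr (Or.inr (Or.inr ⟨h1, by rw [h3]; rfl, hm' (by rw [h3]; decide)⟩))
    · have h2 : η = -1 := by rw [← hη1, h1]; simp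
      rcases hk3 with h3 | h3 | h3
      · exact Or.inl ⟨h1, by rw [h3]; rfl⟩
      · exact absurd ⟨h2, h3⟩ hcl.1
      · exact Or.inr (Or.inl ⟨h1, by rw [h3]; rfl, hm' (by rw [h3]; decide)⟩)
  have hmain := JZ.A_main A hA (r := ⟨rr, hrA⟩) (by apply Subtype.ext; push_cast; exact hrr) R X ψ L.q
    (fun c => xw (pt L c)) hX hqq (sum_R_q L hep hR) hψ0 hψn hcase hDη hr hu1 hu2 hnorm e1
  have hT : ∑ c ∈ R, (ψ c : ℂ) * (xw (pt L c) ^ L.k.val / (1 + xw (pt L c) ^ 3)) =
      ∑ c ∈ R, conj (L.chi c) * xw (pt L c) ^ L.k.val / (1 + xw (pt L c) ^ 3) := by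
    refine Finset.sum_congr rfl fun c hc => ?_
    rw [hψc c hc, mul_div_assoc]
  rw [hT] at hmain
  obtain ⟨h1, h2, h3⟩ := hmain
  have h4 : A.valuation (yw si) = A.valuation (emb la) := by
    have h4 : A.valuation (yw si) ^ 2 = A.valuation (emb la) ^ 2 := by rw [CUL.v2_y_si A, CUL.w_la A hA]
    exact (pow_left_inj₀ zero_le zero_le (by norm_num)).1 h4
  have h5 : A.valuation (V2 L) = A.valuation 3 * A.valuation (emb la *
      ∑ c ∈ R, conj (L.chi c) * xw (pt L c) ^ L.k.val / (1 + xw (pt L c) ^ 3)) := by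
    rw [v2e_eq L hep hR, map_mul, map_mul, map_mul, map_pow, map_mul, CUL.v2_x_si A, one_pow, mul_one, h4,
      Valuation.map_neg, mul_assoc]
  have h6 : A.valuation 3 ≠ 0 := CUL.v2_w3 A
  have h7 : A.valuation (emb la) ^ 2 = A.valuation 3 := CUL.w_la A hA
  -- the valuation of `u₂`
  have hl0 : A.valuation (emb la) ≠ 0 := CUL.v2_wla A
  have hl1 : A.valuation (emb la) < 1 := CUL.w_la_lt A hA
  have hv2 : A.valuation (2 : ℂ) = 1 := JL.a1_two A hA
  have hz1 : A.valuation (u₁ + u₂ * r - 1) < 1 := lt_of_le_of_lt h2 hl1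
  have hz : A.valuation (u₁ + u₂ * r) = 1 := by
    have h8 : u₁ + u₂ * r = 1 + (u₁ + u₂ * r - 1) := by ring
    rw [h8, Valuation.map_add_eq_of_lt_left]
    · exact map_one _
    · rw [map_one]; exact hz1
  have hz2 : A.valuation (u₁ + u₂ * r + 1) = 1 := by
    have h8 : u₁ + u₂ * r + 1 = 2 + (u₁ + u₂ * r - 1) := by ring
    rw [h8, Valuation.map_add_eq_of_lt_left]
    · exact hv2
    · rw [hv2]; exact hz1
  have hrv2 : A.valuation r = 1 := by
    have h8 : A.valuation r ^ 2 = 1 := by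
      rw [← map_pow, hr]
      obtain ⟨t, ht⟩ := hDη
      have h9 : emb D' = (η' : ℂ) + 3 * emb t := by
        have h10 : D' = (η' : Eis) + 3 * t := by linear_combination ht
        rw [h10, map_add, map_mul, map_intCast, map_ofNat]
      rw [h9]
      have h11 : A.valuation (3 * emb t) < 1 := by
        rw [map_mul]
        exact lt_of_le_of_lt (mul_le_mul' le_rfl (CUL.w_emb_le A _)) (by rwa [mul_one])
      have h12 : A.valuation ((η' : ℤ) : ℂ) = 1 := by
        rcases hη' with h | h <;> rw [h]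
        · rw [Int.cast_one, map_one]
        · rw [Int.cast_neg, Int.cast_one, Valuation.map_neg, map_one]
      rw [Valuation.map_add_eq_of_lt_left]
      · exact h12
      · rw [h12]; exact h11
    exact (pow_eq_one_iff.1 h8).resolve_right (by norm_num)
  have hu2v : A.valuation u₂ = A.valuation (u₁ + u₂ * r - 1) := by
    have h8 : 2 * (u₂ * r) * (u₁ + u₂ * r) = (u₁ + u₂ * r - 1) * (u₁ + u₂ * r + 1) := by
      linear_combination -hnorm + u₂ ^ 2 * hr
    have h9 := congrArg A.valuation h8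
    rw [map_mul, map_mul, map_mul, map_mul, hv2, hz, hz2, hrv2, mul_one, mul_one, mul_one, one_mul] at h9
    exact h9
  refine ⟨?_, ?_⟩
  · rw [h5, h7]
    calc A.valuation 3 * _ ≤ A.valuation 3 * 1 := mul_le_mul_right h1 _
      _ = A.valuation 3 := mul_one _
  · rw [map_div₀, div_eq_one_iff_eq hl0, hu2v, ← h3, h5, h7]
    constructor
    · intro h8
      exact mul_left_cancel₀ h6 (by rw [h8, mul_one])
    · intro h8
      rw [h8, mul_one]


end JGL
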