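import Pool.Agent.JGL.B
import Pool.Agent.JX.A7

/-!
# [JGL-V3e] `ep = 0`, `n = 3`
-/

set_option autoImplicit false

open NumberField IsDedekindDomain Filter Topology
open scoped Classical ComplexConjugate

namespace JGL

open CM27 JZ
open CU (la eE)
open CUL (Nl ez si ta DS Cont LV IsRep rp cr mn mo zw OT GalU W3 W9)
open JL (N1 KD sD Psi6)

/-! ## the points of the level -/

theorem v3e_emb_ne (L : Lev) : emb L.f ≠ 0 := CUL.l2_emb_ne (f_ne L)

theorem v3e_xcongr (L : Lev) {x y : Eis} (h : L.f ∣ x - y) : xw (pt L x) = xw (pt L y) :=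
  (pt_congr_xw L h).1

theorem v3e_xneg (L : Lev) (x : Eis) : xw (pt L (-x)) = xw (pt L x) := by
  rw [pt, pt, map_neg, neg_div, xw_neg]

theorem v3e_xom (L : Lev) (x : Eis) : xw (pt L (CU.om * x)) = w * xw (pt L x) := by
  rw [pt, pt, map_mul, CUL.emb_om, mul_div_assoc, xw_w]

theorem v3e_chi_om (L : Lev) (x : Eis) : conj (L.chi (CU.om * x)) = zw (-L.k) * conj (L.chi x) := by
  have h1 : L.chi CU.om = zw L.k := by
    rw [Lev.chi, L.q_om, L.c_om, Int.cast_one, one_mul]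
  rw [chi_mul, map_mul, h1, CUL.zw_conj]

theorem v3e_chi_neg (L : Lev) (hep : L.ep = 0) (x : Eis) : L.chi (-x) = L.chi x := by
  have h1 : L.q (-x) = L.q x := by
    rw [← neg_one_mul, L.q_mul, L.q_neg, hep, pow_zero, one_mul]
  rw [Lev.chi, Lev.chi, h1, c_neg]

theorem v3e_cop (L : Lev) {α : Eis} (h : L.chi α ≠ 0) : IsCoprime α L.f := (chi_ne_zero_iff L α).1 h

/-- `x(c la)` -/
theorem v3e_pt_la (L : Lev) (c : Eis) : pt L (la * c) = emb la * pt L c := by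
  rw [pt, pt, map_mul, mul_div_assoc]

theorem v3e_x_ne (L : Lev) {c : Eis} (hc : IsCoprime c L.f) : xw (pt L c) ≠ 0 := CUL.u7_ne (OT_pt L hc)

theorem v3e_x3 (L : Lev) {c : Eis} (hc : IsCoprime c L.f) : xw (pt L c) ^ 3 + 1 ≠ 0 := by
  intro h1
  have h3 := CUL.u7_ne (CUL.u7_la_mul (OT_pt L hc))
  apply h3
  rw [CUL.xw_la, h1, zero_div]

/-! ## pairing -/

theorem v3e_ne (L : Lev) {t : ℂ} (ht : Nl t) {n : ℕ} (htn : emb la ^ n * t ∈ Set.range emb)
    {c : Eis} (hc : IsCoprime c L.f) : xw t ≠ xw (pt L c) := by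
  intro h1
  have hP := OT_pt L hc
  rcases (xw_eq_iff t _ ht hP.1).1 h1 with h2 | h2
  · refine hP.neg.add_nl n htn ?_
    rwa [neg_add_eq_sub]
  · refine hP.add_nl n htn ?_
    rwa [add_comm]

theorem v3e_ne3 (L : Lev) {t : ℂ} (ht : Nl t) {n : ℕ} (htn : emb la ^ n * t ∈ Set.range emb)
    {c : Eis} (hc : IsCoprime c L.f) : xw t ^ 3 - xw (pt L c) ^ 3 ≠ 0 := by
  have hom : IsCoprime (CU.om * c) L.f := (JL.h3_cop JL.h3_unit_om _).mul_left hc
  have hom2 : IsCoprime (CU.om * (CU.om * c)) L.f := (JL.h3_cop JL.h3_unit_om _).mul_left hom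
  have n1 := sub_ne_zero.2 (v3e_ne L ht htn hc)
  have n2 := sub_ne_zero.2 (v3e_ne L ht htn hom)
  have n3 := sub_ne_zero.2 (v3e_ne L ht htn hom2)
  rw [v3e_xom] at n2
  rw [v3e_xom, v3e_xom] at n3
  have hw3 := CUL.w3
  have hw2 := CUL.w2
  have e1 : (xw t - xw (pt L c)) * (xw t - w * xw (pt L c)) * (xw t - w * (w * xw (pt L c))) =
      xw t ^ 3 - xw (pt L c) ^ 3 := by
    have : (xw t - xw (pt L c)) * (xw t - w * xw (pt L c)) * (xw t - w * (w * xw (pt L c))) =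
        xw t ^ 3 - xw (pt L c) ^ 3 * w ^ 3
        - (1 + w + w ^ 2) * (xw t ^ 2 * xw (pt L c)) + (1 + w + w ^ 2) * (w * xw t * xw (pt L c) ^ 2) := by ring
    rw [this, hw3, hw2]; ring
  rw [← e1]
  exact mul_ne_zero (mul_ne_zero n1 n2) n3

theorem v3e_gen (L : Lev) (hep : L.ep = 0) {R : Finset Eis} (hR : IsR L R) {t : ℂ} (ht : Nl t) {n : ℕ}
    (htn : emb la ^ n * t ∈ Set.range emb) :
    ∑ α ∈ rp L.f, conj (L.chi α) * ez (pt L α + t) =
      3 * ∑ c ∈ R, conj (L.chi c) * (xw (pt L c) ^ L.k.val *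
        (yw t * xw t ^ (2 - L.k.val) / (xw t ^ 3 - xw (pt L c) ^ 3))) := by
  have hf := f_ne L
  have hfe : emb L.f ≠ 0 := v3e_emb_ne L
  have hrep := CUL.rp_spec hf
  obtain ⟨V, hV⟩ : ∃ V, V = ∑ α ∈ rp L.f, conj (L.chi α) * ez (pt L α + t) := ⟨_, rfl⟩
  -- step 1
  have s1 : 2 * V = yw t * ∑ α ∈ rp L.f, conj (L.chi α) * (1 / (xw t - xw (pt L α))) := by
    have h1 : ∑ α ∈ rp L.f, conj (L.chi (-α)) * ez (pt L (-α) + t) = V := by
      rw [hV]
      refine hrep.sum_neg (fun α => conj (L.chi α) * ez (pt L α + t)) ?_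
      intro a b hab
      obtain ⟨r, hr⟩ := hab
      have h2 : a = b + L.f * r := by linear_combination hr
      have h3 : pt L a = pt L b + emb r := by
        rw [pt, pt, h2, map_add, map_mul]; field_simp
      show conj (L.chi a) * ez (pt L a + t) = conj (L.chi b) * ez (pt L b + t)
      rw [chi_per L (x := a) (y := b) ⟨r, hr⟩, h3, add_right_comm, CUL.ez_add_emb]
    have h2 : 2 * V = ∑ α ∈ rp L.f, (conj (L.chi α) * ez (pt L α + t) +
        conj (L.chi (-α)) * ez (pt L (-α) + t)) := by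
      rw [Finset.sum_add_distrib, h1, two_mul, ← hV]
    have h3 : ∀ α ∈ rp L.f, (conj (L.chi α) * ez (pt L α + t) +
        conj (L.chi (-α)) * ez (pt L (-α) + t)) =
        2 * ez t * conj (L.chi α) + yw t * (conj (L.chi α) * (1 / (xw t - xw (pt L α)))) := by
      intro α _
      by_cases hα : L.chi α = 0
      · rw [v3e_chi_neg L hep, hα]; simp
      · have h4 := JX.h3_pair (OT_pt L (v3e_cop L hα)) ht htn
        have h5 : pt L (-α) = -pt L α := by rw [pt, pt, map_neg, neg_div]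
        rw [v3e_chi_neg L hep, h5]
        rw [← mul_add, h4]
        ring
    rw [h2, Finset.sum_congr rfl h3, Finset.sum_add_distrib, ← Finset.mul_sum, ← Finset.mul_sum, sum_chi L,
      mul_zero, zero_add]
  -- step 2
  have hG : ∀ a b : Eis, L.f ∣ a - b → conj (L.chi a) * (1 / (xw t - xw (pt L a))) =
      conj (L.chi b) * (1 / (xw t - xw (pt L b))) := by
    intro a b hab
    rw [chi_per L hab, v3e_xcongr L hab]
  have hom : IsCoprime (CU.om : Eis) L.f := JL.h3_cop JL.h3_unit_om _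
  have s2 : ∑ α ∈ rp L.f, conj (L.chi (CU.om * α)) * (1 / (xw t - xw (pt L (CU.om * α)))) =
      ∑ α ∈ rp L.f, conj (L.chi α) * (1 / (xw t - xw (pt L α))) :=
    hrep.sum_mul hom (fun α => conj (L.chi α) * (1 / (xw t - xw (pt L α)))) hG
  have hom2 : IsCoprime (CU.om * CU.om : Eis) L.f := JL.h3_cop (JL.h3_unit_om.mul JL.h3_unit_om) _
  have s3 : ∑ α ∈ rp L.f, conj (L.chi (CU.om * CU.om * α)) * (1 / (xw t - xw (pt L (CU.om * CU.om * α)))) =
      ∑ α ∈ rp L.f, conj (L.chi α) * (1 / (xw t - xw (pt L α))) :=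
    hrep.sum_mul hom2 (fun α => conj (L.chi α) * (1 / (xw t - xw (pt L α)))) hG
  have s4 : 3 * ∑ α ∈ rp L.f, conj (L.chi α) * (1 / (xw t - xw (pt L α))) =
      ∑ α ∈ rp L.f, 3 * xw t ^ (2 - L.k.val) *
        (conj (L.chi α) * xw (pt L α) ^ L.k.val / (xw t ^ 3 - xw (pt L α) ^ 3)) := by
    have h5 : 3 * ∑ α ∈ rp L.f, conj (L.chi α) * (1 / (xw t - xw (pt L α))) =
        ∑ α ∈ rp L.f, (conj (L.chi α) * (1 / (xw t - xw (pt L α))) +
          conj (L.chi (CU.om * α)) * (1 / (xw t - xw (pt L (CU.om * α)))) +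
          conj (L.chi (CU.om * CU.om * α)) * (1 / (xw t - xw (pt L (CU.om * CU.om * α))))) := by
      rw [Finset.sum_add_distrib, Finset.sum_add_distrib, s2, s3]; ring
    rw [h5]
    refine Finset.sum_congr rfl fun α _ => ?_
    rw [mul_assoc CU.om CU.om α, v3e_chi_om L (CU.om * α), v3e_chi_om L α, v3e_xom L (CU.om * α), v3e_xom L α]
    by_cases hα : L.chi α = 0
    · rw [hα]; simp
    · have h6 := JX.h3_frac (v3e_ne3 L ht htn (v3e_cop L hα)) L.k
      have h7 : 3 * xw t ^ (2 - L.k.val) * (conj (L.chi α) * xw (pt L α) ^ L.k.val / (xw t ^ 3 - xw (pt L α) ^ 3)) =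
          conj (L.chi α) * (3 * xw t ^ (2 - L.k.val) * (xw (pt L α) ^ L.k.val / (xw t ^ 3 - xw (pt L α) ^ 3))) := by
        ring
      rw [h7, ← h6]
      rw [show w * (w * xw (pt L α)) = w ^ 2 * xw (pt L α) by ring]
      ring
  -- step 3
  have s5 : ∑ α ∈ rp L.f, 3 * xw t ^ (2 - L.k.val) *
        (conj (L.chi α) * xw (pt L α) ^ L.k.val / (xw t ^ 3 - xw (pt L α) ^ 3)) =
      3 * xw t ^ (2 - L.k.val) *
        (6 * ∑ c ∈ R, conj (L.chi c) * xw (pt L c) ^ L.k.val / (xw t ^ 3 - xw (pt L c) ^ 3)) := by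
    rw [← Finset.mul_sum]
    congr 1
    have h8 := sum_R L hR (fun α => conj (L.chi α) * xw (pt L α) ^ L.k.val / (xw t ^ 3 - xw (pt L α) ^ 3)) ?_ ?_
    · rw [← h8]
      rw [Finset.sum_filter_of_ne]
      intro α _ hne
      apply v3e_cop L
      intro h9
      apply hne
      rw [h9]; simp
    · intro x y hxy
      show _ / _ = _ / _
      rw [chi_per L hxy, v3e_xcongr L hxy]
    · have hneg : ∀ x : Eis, conj (L.chi (-x)) * xw (pt L (-x)) ^ L.k.val / (xw t ^ 3 - xw (pt L (-x)) ^ 3) =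
          conj (L.chi x) * xw (pt L x) ^ L.k.val / (xw t ^ 3 - xw (pt L x) ^ 3) := by
        intro x
        rw [v3e_chi_neg L hep, v3e_xneg]
      have homi : ∀ x : Eis, conj (L.chi (CU.om * x)) * xw (pt L (CU.om * x)) ^ L.k.val /
          (xw t ^ 3 - xw (pt L (CU.om * x)) ^ 3) =
            conj (L.chi x) * xw (pt L x) ^ L.k.val / (xw t ^ 3 - xw (pt L x) ^ 3) := by
        intro x
        have h9 : zw (-L.k) * w ^ L.k.val = 1 := by
          change zw (-L.k) * zw L.k = 1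
          rw [← CUL.zw_add, neg_add_cancel, CUL.zw_zero]
        rw [v3e_chi_om, v3e_xom, mul_pow w (xw (pt L x)) 3, CUL.w3, one_mul]
        congr 1
        rw [mul_pow]
        linear_combination (conj (L.chi x) * xw (pt L x) ^ L.k.val) * h9
      intro ζ x hζ
      show conj (L.chi (ζ * x)) * xw (pt L (ζ * x)) ^ L.k.val / (xw t ^ 3 - xw (pt L (ζ * x)) ^ 3) =
          conj (L.chi x) * xw (pt L x) ^ L.k.val / (xw t ^ 3 - xw (pt L x) ^ 3)
      rcases CUL.unit_cases hζ with rfl | rfl | rfl | rfl | rfl | rfl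
      · rw [one_mul]
      · rw [neg_one_mul, hneg]
      · rw [homi]
      · rw [neg_mul, hneg, homi]
      · rw [pow_two, mul_assoc, homi, homi]
      · rw [neg_mul, hneg, pow_two, mul_assoc, homi, homi]
  have s6 := s4.trans s5
  have s7 : ∑ c ∈ R, conj (L.chi c) * (xw (pt L c) ^ L.k.val *
        (yw t * xw t ^ (2 - L.k.val) / (xw t ^ 3 - xw (pt L c) ^ 3))) =
      (yw t * xw t ^ (2 - L.k.val)) *
        ∑ c ∈ R, conj (L.chi c) * xw (pt L c) ^ L.k.val / (xw t ^ 3 - xw (pt L c) ^ 3) := by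
    rw [Finset.mul_sum]
    refine Finset.sum_congr rfl fun c _ => ?_
    ring
  rw [← hV, s7]
  linear_combination (1 / 2) * s1 + (1 / 6 * yw t) * s6

/-! ## averaging over the three points `b / la ^ 3` -/

theorem v3e_ka {i : ℕ} (hi : i = 1 ∨ i = 2) (b : Eis) : ka 0 i b = CUL.cu (JX.iu i) b := by
  rw [ka, CUL.cu, JX.us_iu hi]
  congr 1
  have h1 : ∀ x y : ZMod 3, 0 * y + x * mn b = -x * (2 * mn b) := by
    intro x y
    have h2 : (3 : ZMod 3) = 0 := by decide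
    linear_combination (x * mn b) * h2
  exact h1 _ _

theorem v3e_sum (L : Lev) (hep : L.ep = 0) {R : Finset Eis} (hR : IsR L R) {i : ℕ} (hi : i = 1 ∨ i = 2) :
    V3 L i = 3 * ∑ c ∈ R, conj (L.chi c) * (xw (pt L c) ^ L.k.val * JX.BS (JX.iu i) L.k.val (xw (pt L c))) := by
  have e1 : V3 L i = ∑ b ∈ W3, CUL.cu (JX.iu i) b *
      ∑ α ∈ rp L.f, conj (L.chi α) * ez (pt L α + emb b / emb la ^ 3) := by
    unfold V3
    simp only [Finset.mul_sum]
    rw [Finset.sum_comm]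
    refine Finset.sum_congr rfl fun b _ => Finset.sum_congr rfl fun α _ => ?_
    rw [v3e_ka hi]
    ring
  have e2 : ∀ b ∈ W3, CUL.cu (JX.iu i) b *
      ∑ α ∈ rp L.f, conj (L.chi α) * ez (pt L α + emb b / emb la ^ 3) =
      3 * ∑ c ∈ R, conj (L.chi c) * (xw (pt L c) ^ L.k.val * (CUL.cu (JX.iu i) b *
        (yw (emb b / emb la ^ 3) * xw (emb b / emb la ^ 3) ^ (2 - L.k.val) /
          (xw (emb b / emb la ^ 3) ^ 3 - xw (pt L c) ^ 3)))) := by
    intro b hb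
    obtain ⟨h1, h2⟩ := JX.h3_W3 hb
    rw [v3e_gen L hep hR h1 h2, Finset.mul_sum, Finset.mul_sum, Finset.mul_sum]
    refine Finset.sum_congr rfl fun c _ => ?_
    ring
  rw [e1, Finset.sum_congr rfl e2, ← Finset.mul_sum, Finset.sum_comm]
  congr 1
  refine Finset.sum_congr rfl fun c _ => ?_
  unfold JX.BS
  rw [← Finset.mul_sum, ← Finset.mul_sum]

/-- `T = ∑_{c ∈ R} conj χ(c) x_c ^ k G(x_c, x_{λ c})` -/
noncomputable def v3e_T (L : Lev) (R : Finset Eis) (q : ℂ) (m : ℕ) : ℂ :=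
  ∑ c ∈ R, conj (L.chi c) * (xw (pt L c) ^ L.k.val * JX.Gc q L.k.val m (xw (pt L c)) (xw (pt L (la * c))))

theorem v3e_eq (L : Lev) (hep : L.ep = 0) {R : Finset Eis} (hR : IsR L R) {i : ℕ} (hi : i = 1 ∨ i = 2) :
    ∃ (q κ : ℂ) (m : ℕ), (q = w ∨ q = w ^ 2) ∧ (m = 1 ∨ m = 2) ∧ q ^ m = zw (-(i : ZMod 3)) ∧ κ ^ 9 = 1 ∧
      V3 L i = -4 * κ * (w - w ^ 2) * v3e_T L R q m := by
  obtain ⟨q, υ, C, hq, hυ, hC, p0, p1, p2⟩ := JX.p1_pts
  have hus : CUL.us (JX.iu i) = 1 ∨ CUL.us (JX.iu i) = 2 := JX.us_iu' hi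
  obtain ⟨m, hm, hqm⟩ := JX.h4_m hq hus
  have hq1 : q ^ 2 + q + 1 = 0 := by
    rcases hq with rfl | rfl
    · linear_combination CUL.w2
    · linear_combination CUL.w2 + w * CUL.w3
  have hq3 : q ^ 3 = 1 := by linear_combination (q - 1) * hq1
  set k : ℕ := L.k.val with hk
  have hk3 : k < 3 := ZMod.val_lt _
  refine ⟨q, υ ^ (3 - m) * q ^ (m - 1) * C ^ (2 - k), m, hq, hm, ?_, ?_, ?_⟩
  · rw [hqm, JX.us_iu hi]
  · have e1 : υ ^ 9 = 1 := by
      have : υ ^ 9 = (υ ^ 3) ^ 3 := by ring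
      rw [this, hυ, hq3]
    have e2 : q ^ 9 = 1 := by
      have : q ^ 9 = (q ^ 3) ^ 3 := by ring
      rw [this, hq3, one_pow]
    have e3 : C ^ 9 = 1 := by
      have : C ^ 9 = (C ^ 3) ^ 3 := by ring
      rw [this, hC, one_pow]
    rw [mul_pow, mul_pow, ← pow_mul, ← pow_mul, ← pow_mul, mul_comm (3 - m) 9, mul_comm (m - 1) 9,
      mul_comm (2 - k) 9, pow_mul, pow_mul, pow_mul, e1, e2, e3, one_pow, one_pow, one_pow, mul_one,
      mul_one]
  · have hBS : ∀ c ∈ R, JX.BS (JX.iu i) k (xw (pt L c)) =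
        -(4 / 3) * (υ ^ (3 - m) * q ^ (m - 1) * C ^ (2 - k)) * (w - w ^ 2) *
          JX.Gc q k m (xw (pt L c)) (xw (pt L (la * c))) := by
      intro c hc
      have hcop : IsCoprime c L.f := hR.1 c hc
      have hcop' : IsCoprime (la * c) L.f := (la_cop L).mul_left hcop
      have hz : xw (pt L c) ≠ 0 := v3e_x_ne L hcop
      have hz1 : 1 + xw (pt L c) ^ 3 ≠ 0 := by
        rw [add_comm]
        exact v3e_x3 L hcop
      have hz' : 1 + xw (pt L (la * c)) ^ 3 ≠ 0 := by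
        rw [add_comm]
        exact v3e_x3 L hcop'
      have hr : 27 * xw (pt L (la * c)) ^ 3 * xw (pt L c) ^ 6 = -(xw (pt L c) ^ 3 + 1) ^ 3 := by
        rw [v3e_pt_la]
        exact JX.h4_rel _ hz
      have h1 := JX.p2_sum (X := fun n => if n = 0 then xw (emb 1 / emb la ^ 3) else
          if n = 1 then xw (emb (-2) / emb la ^ 3) else xw (emb 4 / emb la ^ 3))
        (Y := fun n => if n = 0 then yw (emb 1 / emb la ^ 3) else
          if n = 1 then yw (emb (-2) / emb la ^ 3) else yw (emb 4 / emb la ^ 3))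
        hq1 hυ hC p0 p1 p2 hz hz1 hz' hr hk3 hm
      rw [← h1]
      rw [Finset.sum_range_succ, Finset.sum_range_succ, Finset.sum_range_succ, Finset.sum_range_zero]
      unfold JX.BS
      have hW : W3 = ({1, 4, -2} : Finset Eis) := rfl
      rw [hW, Finset.sum_insert (by decide), Finset.sum_insert (by decide), Finset.sum_singleton,
        CUL.cu_one, (CUL.cu_W (JX.iu i)).1, (CUL.cu_W (JX.iu i)).2, hqm]
      simp only [if_true, one_ne_zero, if_false, OfNat.ofNat_ne_zero, OfNat.ofNat_ne_one, pow_zero,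
        pow_one]
      ring
    rw [v3e_sum L hep hR hi]
    unfold v3e_T
    have hs : ∑ c ∈ R, conj (L.chi c) * (xw (pt L c) ^ k * JX.BS (JX.iu i) k (xw (pt L c))) =
        -(4 / 3) * (υ ^ (3 - m) * q ^ (m - 1) * C ^ (2 - k)) * (w - w ^ 2) *
        ∑ c ∈ R, conj (L.chi c) * (xw (pt L c) ^ k * JX.Gc q k m (xw (pt L c)) (xw (pt L (la * c)))) := by
      rw [Finset.mul_sum]
      refine Finset.sum_congr rfl fun c hc => ?_
      rw [hBS c hc]
      ring
    rw [hs]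
    ring

/-! ## the valuation -/

theorem v3e_q_congr (L : Lev) (hep : L.ep = 0) {c c' ζ : Eis} (hζ : IsUnit ζ) (hd : L.f ∣ la * c - ζ * c') : L.q c = L.q c' * L.q la := by
  have h1 := L.q_per _ _ hd
  rw [L.q_mul, L.q_mul, q_unit_even L hep hζ, one_mul] at h1
  rw [← h1]
  rcases q_la_pm L with h2 | h2 <;> rw [h2] <;> ring

/-- sums over `R` are permuted -/
theorem v3e_perm (L : Lev) (hep : L.ep = 0) {η : ℤ} (hq : L.q la = η) {R : Finset Eis} (hR : IsR L R) :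
    ∑ c ∈ R, (L.q c : ℂ) * xw (pt L (la * c)) ^ 3 = (η : ℂ) * ∑ c ∈ R, (L.q c : ℂ) * xw (pt L c) ^ 3 := by
  obtain ⟨φ, hφ, -, hsum⟩ := perm_R L hR (la_cop L)
  rw [← hsum (fun c => (L.q c : ℂ) * xw (pt L c) ^ 3), Finset.mul_sum]
  refine Finset.sum_congr rfl fun c hc => ?_
  obtain ⟨h2, ζ, hζ, hd⟩ := hφ c hc
  have h3 := v3e_q_congr L hep hζ hd
  have h4 : xw (pt L (la * c)) ^ 3 = xw (pt L (φ c)) ^ 3 := by
    rw [v3e_xcongr L hd]
    obtain ⟨s, t, -, -, -, ht⟩ := unit_act L hζ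
    have h1 : zw t ^ 3 = 1 := by
      rw [CUL.zw_pow]
      have h2 : ((3 : ℕ) : ZMod 3) = 0 := by decide
      rw [h2, zero_mul, CUL.zw_zero]
    rw [(ht _).1, mul_pow, h1, one_mul]
  rw [h4, h3, hq]
  push_cast
  ring

theorem v3e_T_val (L : Lev) (hep : L.ep = 0) {η : ℤ} (hη : η = 1 ∨ η = -1) (hq : L.q la = η)
    {R : Finset Eis} (hR : IsR L R) (A : ValuationSubring ℂ)
    (hA : A.valuation 3 < 1) {i : ℕ} (hi : i = 1 ∨ i = 2) {D' : Eis} (hD : (3 : Eis) ∣ D' - (η : Eis)) {s : ℂ}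
    (hs : s ^ 2 = emb D') {m : ZMod 3} (hm : L.k ≠ 0 → m = 0) {u₁ u₂ : ℂ} (hN : N2 s (zw m * ee L R) u₁ u₂)
    {q : ℂ} {m' : ℕ} (hq' : q = w ∨ q = w ^ 2) (hm' : m' = 1 ∨ m' = 2) (hqm : q ^ m' = zw (-(i : ZMod 3))) :
    A.valuation (v3e_T L R q m') ≤ A.valuation 3 ∧
      (A.valuation (v3e_T L R q m') = A.valuation 3 ↔
        ¬ JX.LC A (JX.sl i L.k.val η) (u₂ / emb la)) := by
  obtain ⟨h1, h2, he, he', h0⟩ := hN
  obtain ⟨r, hr⟩ := JL.a4_exists_r
  have hrv := JZ.a1_r A hA hr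
  have hrA : r ∈ A := (ValuationSubring.valuation_le_one_iff A _).1 hrv.le
  have hXv : ∀ c ∈ R, A.valuation ((xw (pt L c) - r) / emb la) ≤ 1 := by
    intro c hc
    have h1 := JZ.x_sub_r A hA hr (OT_pt L (hR.1 c hc))
    have h2 : A.valuation (emb la) ≠ 0 := (CUL.v2_wla A)
    rw [map_div₀]
    exact div_le_one_of_le₀ h1 zero_le
  let X : Eis → A := fun c => if hc : A.valuation ((xw (pt L c) - r) / emb la) ≤ 1 then
    ⟨(xw (pt L c) - r) / emb la, (ValuationSubring.valuation_le_one_iff A _).1 hc⟩ else 0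
  have hX : ∀ c ∈ R, xw (pt L c) = ((⟨r, hrA⟩ : A) : ℂ) + emb la * (X c : ℂ) := by
    intro c hc
    have h1 : (X c : ℂ) = (xw (pt L c) - r) / emb la := by
      simp only [X, dif_pos (hXv c hc)]
    rw [h1]
    have h2 := CUL.la_ne
    field_simp
    ring
  -- the character
  have hcz : ∀ c ∈ R, ∃ l : ZMod 3, L.c c = zw l ∧ (L.k ≠ 0 → l = 0) := by
    intro c hc
    by_cases hk : L.k = 0
    · obtain ⟨l, hl⟩ := L.c_cube c (hR.1 c hc)
      exact ⟨l, hl, fun h1 => absurd hk h1⟩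
    · exact ⟨0, by rw [hR.2.2 hk c hc, CUL.zw_zero], fun _ => rfl⟩
  choose! l hl1 hl2 using hcz
  let ψ : Eis → A := fun c => (L.q c : A) * JZ.wA A ^ (-(l c)).val
  have hψc : ∀ c ∈ R, (ψ c : ℂ) = conj (L.chi c) := by
    intro c hc
    have h1 : ((JZ.wA A : A) : ℂ) = w := rfl
    have h2 : (ψ c : ℂ) = (L.q c : ℂ) * w ^ (-(l c)).val := by
      simp only [ψ]
      push_cast
      rw [h1]
    rw [h2, Lev.chi, map_mul, hl1 c hc, CUL.zw_conj, map_intCast]
    rfl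
  have hq1 : ∀ c ∈ R, L.q c = 1 ∨ L.q c = -1 := fun c hc => L.q_pm c (hR.1 c hc)
  have hψ0 : ∑ c ∈ R, ψ c = 0 := by
    apply Subtype.ext
    have h1 : ((∑ c ∈ R, ψ c : A) : ℂ) = ∑ c ∈ R, conj (L.chi c) := by
      rw [← Finset.sum_congr rfl hψc]
      push_cast
      rfl
    rw [h1]
    by_cases hk : L.k = 0
    · rw [sum_R_chi L hep hk hR]; rfl
    · have h2 : ∀ c ∈ R, conj (L.chi c) = ((L.q c : ℤ) : ℂ) := by
        intro c hc
        rw [Lev.chi, hR.2.2 hk c hc, mul_one, map_intCast]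
      rw [Finset.sum_congr rfl h2, ← Int.cast_sum, sum_R_q L hep hR]
      simp
  have hψn : ∀ c ∈ R, JZ.rsd A (ψ c) = (L.q c : IsLocalRing.ResidueField A) := by
    intro c hc
    simp only [ψ]
    rw [map_mul, map_pow, JZ.rsd_w A hA, one_pow, mul_one, map_intCast]
  have hψk : L.k.val ≠ 0 → ∀ c ∈ R, ψ c = ((L.q c : ℤ) : A) := by
    intro hk c hc
    have hk' : L.k ≠ 0 := fun h => hk (by rw [h]; rfl)
    simp only [ψ]
    rw [hl2 c hc hk', neg_zero]
    change _ * JZ.wA A ^ 0 = _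
    rw [pow_zero, mul_one]
  have hnorm : u₁ ^ 2 - u₂ ^ 2 * emb D' = 1 := by
    have h1 : (u₁ + u₂ * s) * (u₁ - u₂ * s) = 1 := by
      rw [← he, ← he', mul_inv_cancel₀ h0]
    rw [← hs, ← h1]; ring
  have hjm : L.k.val ≠ 0 → m.val = 0 := by
    intro hk
    rw [hm fun h => hk (by rw [h]; rfl)]; rfl
  have hxx : ∀ c ∈ R, 27 * xw (pt L (la * c)) ^ 3 * xw (pt L c) ^ 6 = -(xw (pt L c) ^ 3 + 1) ^ 3 := by
    intro c hc
    rw [v3e_pt_la]
    exact JX.h4_rel _ (v3e_x_ne L (hR.1 c hc))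
  have hmain := JX.AX_main A hA (r := ⟨r, hrA⟩) (by apply Subtype.ext; push_cast; exact hr) R X ψ L.q
    (fun c => xw (pt L c)) (fun c => xw (pt L (la * c))) hX hq1 hxx (sum_R_q L hep hR) hψ0 hψn
    hη (v3e_perm L hep hq hR) (ZMod.val_lt L.k) hψk hjm hq' hm' hi hqm hD hs h1 h2 hnorm he
  have hT : ∑ c ∈ R, (ψ c : ℂ) * (xw (pt L c) ^ L.k.val * JX.Gc q L.k.val m' (xw (pt L c)) (xw (pt L (la * c)))) =
      v3e_T L R q m' := by
    rw [v3e_T]
    refine Finset.sum_congr rfl fun c hc => ?_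
    rw [hψc c hc]
  rw [hT] at hmain
  exact ⟨hmain.1, hmain.2.2⟩

theorem V_3e (L : Lev) (hep : L.ep = 0) {η : ℤ} (hη : η = 1 ∨ η = -1) (hq : L.q la = η)
    {R : Finset Eis} (hR : IsR L R) (A : ValuationSubring ℂ)
    (hA : A.valuation 3 < 1) {i : ℕ} (hi : i = 1 ∨ i = 2) {D' : Eis} (hD : (3 : Eis) ∣ D' - (η : Eis)) {r : ℂ} (hr : r ^ 2 = emb D')
    {m : ZMod 3} (hm : L.k ≠ 0 → m = 0) {u₁ u₂ : ℂ} (hN : N2 r (zw m * ee L R) u₁ u₂) :
    A.valuation (V3 L i) ≤ A.valuation (emb la) ^ 3 ∧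
      (A.valuation (V3 L i) = A.valuation (emb la) ^ 3 ↔ ¬ JX.LC A (JX.sl i L.k.val η) (u₂ / emb la)) := by
  obtain ⟨q, κ, m', hq', hm', hqm, hκ, hV⟩ := v3e_eq L hep hR hi
  obtain ⟨t1, t3⟩ := v3e_T_val L hep hη hq hR A hA hi hD hr hm hN hq' hm' hqm
  have e1 : A.valuation κ = 1 := by
    have e2 : A.valuation κ ^ 9 = 1 := by rw [← map_pow, hκ, map_one]
    exact (pow_eq_one_iff_of_nonneg zero_le (by norm_num)).1 e2
  have e2 : A.valuation (w - w ^ 2) = A.valuation (emb la) := by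
    have e3 : A.valuation (w - w ^ 2) ^ 2 = A.valuation (emb la) ^ 2 := by
      rw [← map_pow, CUL.th_sq, Valuation.map_neg, CUL.w_la A hA]
    exact (pow_left_inj₀ zero_le zero_le (by norm_num)).1 e3
  have e3 : A.valuation (V3 L i) = A.valuation (v3e_T L R q m') * A.valuation (emb la) := by
    rw [hV, map_mul, map_mul, map_mul, Valuation.map_neg, JZ.a1_four A hA, e1, e2, one_mul, one_mul, mul_comm]
  have e4 := CUL.v2_wla A
  have e5 : A.valuation (emb la) ^ 3 = A.valuation 3 * A.valuation (emb la) := by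
    rw [← CUL.w_la A hA, ← pow_succ]
  rw [← t3, e3, e5]
  refine ⟨mul_le_mul_left t1 _, ?_, ?_⟩
  · intro h7
    exact mul_right_cancel₀ e4 h7
  · intro h7
    rw [h7]

end JGL
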