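import Pool.Agent.JGL.Defs

set_option autoImplicit false

open NumberField IsDedekindDomain Filter Topology
open scoped Classical ComplexConjugate

namespace JGL

open CM27 JZ
open CU (la eE)
open CUL (Nl ez si ta DS Cont LV IsRep rp cr mn mo zw OT GalU W3 W9)
open JL (N1 KD sD Psi6)

/-- the exponents `(k, a) ↦ (e, e')` -/
def e1 (k a : ZMod 3) : ℕ :=
  if a = 1 then (if k = 0 then 0 else if k = 1 then 2 else 1) else (if k = 0 then 1 else if k = 1 then 0 else 2)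

def e2 (k a : ZMod 3) : ℕ :=
  if a = 1 then (if k = 0 then 1 else if k = 1 then 2 else 0) else (if k = 0 then 2 else if k = 1 then 0 else 1)

/-- the polynomial `P̂₁` for `a`, `ip = -i`, `k` -/
noncomputable def P1 (a i k : ZMod 3) (u : ℂ) : ℂ :=
  if a = 1 then
    (if i = 2 then u ^ 2 - zw (2 - k) * w else if i = 0 then u * (1 - zw (2 - k) * u) else w * (1 - zw (2 - k) * u))
  else
    (if i = 2 then u ^ 2 + w * zw k + w * zw k ^ 2 * u else if i = 0 then u + zw k * u ^ 2 + w * zw k ^ 2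
      else w * (1 + zw k * u + zw k ^ 2 * u ^ 2))

noncomputable def P2 (a i k : ZMod 3) (u : ℂ) : ℂ :=
  if a = 1 then
    (if i = 2 then 1 - zw (2 - k) * w * u ^ 2 else if i = 0 then u - zw (2 - k) else w * u * (u - zw (2 - k)))
  else
    (if i = 2 then 1 + w * zw k * u ^ 2 + w * zw k ^ 2 * u else if i = 0 then u + zw k + w * zw k ^ 2 * u ^ 2
      else w * (u ^ 2 + zw k * u + zw k ^ 2))

/-! ## sums over the nine points -/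

noncomputable def s3 (f : ZMod 3 → ℂ) : ℂ := f 0 + f 1 + f 2

theorem v4c_cases (k : ZMod 3) : k = 0 ∨ k = 1 ∨ k = 2 := by revert k; decide

theorem v4c_z : w ^ 2 + w + 1 = 0 := by
  linear_combination CUL.w2

theorem v4c_w1 : w ≠ 1 := CUL.u4_w_ne_one

theorem v4c_w0 : w ≠ 0 := by
  intro h
  have := v4c_z
  rw [h] at this
  norm_num at this

theorem v4c_w2 : 1 - w ^ 2 ≠ 0 := by
  intro h
  apply v4c_w1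
  have h3 := CUL.w3
  linear_combination w * h + h3

/-- the polynomial `R` -/
noncomputable def Rh (a k : ZMod 3) (z : ℂ) : ℂ :=
  if a = 1 then zw (2 - k) - w ^ 2 * z ^ 2 else -(zw k + zw k ^ 2 * z + w ^ 2 * z ^ 2)

theorem v4c_kern1 {U W z u : ℂ} (hU : U ^ 3 * (1 + w * z) = z + w) (hW : W ^ 3 * (1 + w * u) = u + w) (h : z - u ≠ 0) :
    1 / (U - W) = (U ^ 2 + U * W + W ^ 2) * ((1 + w * z) * (1 + w * u) / ((1 - w ^ 2) * (z - u))) := by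
  have e : (U - W) * (U ^ 2 + U * W + W ^ 2) * ((1 + w * z) * (1 + w * u)) = (1 - w ^ 2) * (z - u) := by
    linear_combination (1 + w * u) * hU - (1 + w * z) * hW
  have hne : (1 - w ^ 2) * (z - u) ≠ 0 := mul_ne_zero v4c_w2 h
  have hUW : U - W ≠ 0 := by
    intro h0
    rw [h0] at e
    apply hne
    rw [← e]
    ring
  rw [mul_div_assoc', div_eq_div_iff hUW hne]
  linear_combination -e

theorem v4c_kern2 {U W z u : ℂ} (hU : U ^ 3 * (1 + w * z) = z + w) (hW : W ^ 3 * (1 + w * u) = u + w) (h : z * u - 1 ≠ 0) :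
    1 / (U * W - 1) = (U ^ 2 * W ^ 2 + U * W + 1) * ((1 + w * z) * (1 + w * u) / ((1 - w ^ 2) * (z * u - 1))) := by
  have e : (U * W - 1) * (U ^ 2 * W ^ 2 + U * W + 1) * ((1 + w * z) * (1 + w * u)) = (1 - w ^ 2) * (z * u - 1) := by
    linear_combination W ^ 3 * (1 + w * u) * hU + (z + w) * hW
  have hne : (1 - w ^ 2) * (z * u - 1) ≠ 0 := mul_ne_zero v4c_w2 h
  have hUW : U * W - 1 ≠ 0 := by
    intro h0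
    rw [h0] at e
    apply hne
    rw [← e]
    ring
  rw [mul_div_assoc', div_eq_div_iff hUW hne]
  linear_combination -e

theorem v4c_T1 {z u v : ℂ} (hz : z ^ 3 = w) (hu : u ^ 3 * (1 + w * v) = v + w) (hv : v ≠ 0) :
    z - u ≠ 0 ∧ 1 / (z - u) = -((z ^ 2 + z * u + u ^ 2) * (1 + w * v) / ((1 - w ^ 2) * v)) := by
  have e : (z - u) * ((z ^ 2 + z * u + u ^ 2) * (1 + w * v)) = -((1 - w ^ 2) * v) := by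
    linear_combination (1 + w * v) * hz - hu
  have hne : (1 - w ^ 2) * v ≠ 0 := mul_ne_zero v4c_w2 hv
  have h1 : z - u ≠ 0 := by
    intro h0
    rw [h0] at e
    apply hne
    linear_combination e
  refine ⟨h1, ?_⟩
  rw [← neg_div, div_eq_div_iff h1 hne]
  linear_combination e

theorem v4c_T2 {z u v : ℂ} (hz : z ^ 3 = w) (hu : u ^ 3 * (1 + w * v) = v + w) :
    z * u - 1 ≠ 0 ∧ 1 / (z * u - 1) = -((z ^ 2 * u ^ 2 + z * u + 1) * (1 + w * v) / (1 - w ^ 2)) := by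
  have e : (z * u - 1) * ((z ^ 2 * u ^ 2 + z * u + 1) * (1 + w * v)) = -(1 - w ^ 2) := by
    linear_combination (1 + w * v) * u ^ 3 * hz + w * hu
  have hne : (1 - w ^ 2) ≠ 0 := v4c_w2
  have h1 : z * u - 1 ≠ 0 := by
    intro h0
    rw [h0] at e
    apply hne
    linear_combination e
  refine ⟨h1, ?_⟩
  rw [← neg_div, div_eq_div_iff h1 hne]
  linear_combination e



theorem v4c_val : (0 : ZMod 3).val = 0 ∧ (1 : ZMod 3).val = 1 ∧ (2 : ZMod 3).val = 2 := ⟨rfl, rfl, rfl⟩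

theorem v4c_ne {z : ℂ} (hz : z ^ 3 = w) : 1 - z ≠ 0 ∧ 1 - w * z ≠ 0 ∧ 1 + w * z ≠ 0 := by
  have h3 := CUL.w3
  have h0 := v4c_z
  have h1 := v4c_w1
  refine ⟨fun h => ?_, fun h => ?_, fun h => ?_⟩
  · apply h1
    rw [← hz]
    linear_combination (-(z ^ 2 + z + 1)) * h
  · apply h1
    linear_combination (-(w ^ 2 * z ^ 2 + w * z + 1)) * h + (-(w ^ 3)) * hz - w * h3
  · have h2 : w = -1 := by
      linear_combination (w ^ 2 * z ^ 2 - w * z + 1) * h - (w ^ 3) * hz - w * h3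
    rw [h2] at h0
    norm_num at h0

/-- the constant -/
theorem v4c_F {a k : ZMod 3} (ha : a ≠ 0) {z ℓ q j : ℂ} (hz : z ^ 3 = w) (hl : ℓ ^ 3 = 1 - w) (hj : ℓ * j = 1) (hq : q * (1 - z) = 1) :
    q ^ (2 - k.val) * ℓ ^ (2 - k.val) * j ^ e1 k a * (1 - w * z) ^ e1 k a * (1 + w * z) = j ^ a.val * Rh a k z := by
  have h0 := v4c_z
  rcases v4c_cases k with rfl | rfl | rfl <;> rcases v4c_cases a with rfl | rfl | rfl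
  · exact absurd rfl ha
  · have hR : Rh 1 0 z = w ^ 2 - w ^ 2 * z ^ 2 := by
      unfold Rh
      rw [if_pos rfl, show (2 - 0 : ZMod 3) = 2 from rfl, CUL.zw_two]
    have e : (w ^ 2 - w ^ 2 * z ^ 2) * (1 - z) ^ 2 = (1 - w) * (1 - w * z) ^ 0 * (1 + w * z) := by
      linear_combination ((2) * w ^ 2 + (-1) * w ^ 2 * z) * hz + ((-1) + (2) * w + (-1) * w * z) * h0
    rw [hR]
    show q ^ 2 * ℓ ^ 2 * j ^ 0 * (1 - w * z) ^ 0 * (1 + w * z) = j ^ 1 * (w ^ 2 - w ^ 2 * z ^ 2)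
    have h5 : ℓ ^ 2 * j ^ 0 = j ^ 1 * (1 - w) := by
      linear_combination (-(ℓ ^ 2)) * hj + j * hl
    linear_combination (q ^ 2 * (1 - w * z) ^ 0 * (1 + w * z)) * h5 - j ^ 1 * q ^ 2 * e + (j ^ 1 * (w ^ 2 - w ^ 2 * z ^ 2) * (1 + q * (1 - z))) * hq
  · have hR : Rh 2 0 z = -(1 + (1) ^ 2 * z + w ^ 2 * z ^ 2) := by
      unfold Rh
      rw [if_neg (by decide), CUL.zw_zero]
    have e : (-(1 + (1) ^ 2 * z + w ^ 2 * z ^ 2)) * (1 - z) ^ 2 = (1 - w) * (1 - w * z) ^ 1 * (1 + w * z) := by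
      linear_combination ((-1) + (2) * w ^ 2 + (-1) * w ^ 2 * z) * hz + ((-2) + z + z ^ 2 + (2) * w + (-1) * w * z + (-1) * w * z ^ 2) * h0
    rw [hR]
    show q ^ 2 * ℓ ^ 2 * j ^ 1 * (1 - w * z) ^ 1 * (1 + w * z) = j ^ 2 * (-(1 + (1) ^ 2 * z + w ^ 2 * z ^ 2))
    have h5 : ℓ ^ 2 * j ^ 1 = j ^ 2 * (1 - w) := by
      linear_combination (-(ℓ ^ 2) * j) * hj + j ^ 2 * hl
    linear_combination (q ^ 2 * (1 - w * z) ^ 1 * (1 + w * z)) * h5 - j ^ 2 * q ^ 2 * e + (j ^ 2 * (-(1 + (1) ^ 2 * z + w ^ 2 * z ^ 2)) * (1 + q * (1 - z))) * hq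
  · exact absurd rfl ha
  · have hR : Rh 1 1 z = w - w ^ 2 * z ^ 2 := by
      unfold Rh
      rw [if_pos rfl, show (2 - 1 : ZMod 3) = 1 from rfl, CUL.zw_one]
    have e : (w - w ^ 2 * z ^ 2) * (1 - z) ^ 1 = (1 - w * z) ^ 2 * (1 + w * z) := by
      linear_combination (w ^ 2 + (-1) * w ^ 3) * hz + ((-1) + (2) * w + (-1) * w ^ 2) * h0
    rw [hR]
    show q ^ 1 * ℓ ^ 1 * j ^ 2 * (1 - w * z) ^ 2 * (1 + w * z) = j ^ 1 * (w - w ^ 2 * z ^ 2)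
    have h5 : ℓ ^ 1 * j ^ 2 = j ^ 1 := by
      linear_combination j * hj
    linear_combination (q * (1 - w * z) ^ 2 * (1 + w * z)) * h5 - j ^ 1 * q * e + (j ^ 1 * (w - w ^ 2 * z ^ 2)) * hq
  · have hR : Rh 2 1 z = -(w + (w) ^ 2 * z + w ^ 2 * z ^ 2) := by
      unfold Rh
      rw [if_neg (by decide), CUL.zw_one]
    have e : (-(w + (w) ^ 2 * z + w ^ 2 * z ^ 2)) * (1 - z) ^ 1 = (1 - w) * (1 - w * z) ^ 0 * (1 + w * z) := by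
      linear_combination (w ^ 2) * hz + ((-1) + w) * h0
    rw [hR]
    show q ^ 1 * ℓ ^ 1 * j ^ 0 * (1 - w * z) ^ 0 * (1 + w * z) = j ^ 2 * (-(w + (w) ^ 2 * z + w ^ 2 * z ^ 2))
    have h5 : ℓ ^ 1 * j ^ 0 = j ^ 2 * (1 - w) := by
      linear_combination (-ℓ * (1 + ℓ * j)) * hj + j ^ 2 * hl
    linear_combination (q * (1 - w * z) ^ 0 * (1 + w * z)) * h5 - j ^ 2 * q * e + (j ^ 2 * (-(w + (w) ^ 2 * z + w ^ 2 * z ^ 2))) * hq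
  · exact absurd rfl ha
  · have hR : Rh 1 2 z = 1 - w ^ 2 * z ^ 2 := by
      unfold Rh
      rw [if_pos rfl, show (2 - 2 : ZMod 3) = 0 from rfl, CUL.zw_zero]
    have e : (1 - w ^ 2 * z ^ 2) * (1 - z) ^ 0 = (1 - w * z) ^ 1 * (1 + w * z) := by
      linear_combination (0) * hz + (0) * h0
    rw [hR]
    show q ^ 0 * ℓ ^ 0 * j ^ 1 * (1 - w * z) ^ 1 * (1 + w * z) = j ^ 1 * (1 - w ^ 2 * z ^ 2)
    have h5 : ℓ ^ 0 * j ^ 1 = j ^ 1 := by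
      linear_combination (0 : ℂ) * hj
    linear_combination (q ^ 0 * (1 - w * z) ^ 1 * (1 + w * z)) * h5 - j ^ 1 * e
  · have hR : Rh 2 2 z = -(w ^ 2 + (w ^ 2) ^ 2 * z + w ^ 2 * z ^ 2) := by
      unfold Rh
      rw [if_neg (by decide), CUL.zw_two]
    have e : (-(w ^ 2 + (w ^ 2) ^ 2 * z + w ^ 2 * z ^ 2)) * (1 - z) ^ 0 = (1 - w * z) ^ 2 * (1 + w * z) := by
      linear_combination ((-1) * w ^ 3) * hz + ((-1) + w + w * z + (-1) * w ^ 2 + (-1) * w ^ 2 * z) * h0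
    rw [hR]
    show q ^ 0 * ℓ ^ 0 * j ^ 2 * (1 - w * z) ^ 2 * (1 + w * z) = j ^ 2 * (-(w ^ 2 + (w ^ 2) ^ 2 * z + w ^ 2 * z ^ 2))
    have h5 : ℓ ^ 0 * j ^ 2 = j ^ 2 := by
      linear_combination (0 : ℂ) * hj
    linear_combination (q ^ 0 * (1 - w * z) ^ 2 * (1 + w * z)) * h5 - j ^ 2 * e

theorem v4c_div (y ℓ : ℂ) : y / (ℓ * zw 0) = y * ℓ⁻¹ ∧ y / (ℓ * zw 1) = y * (ℓ⁻¹ * w ^ 2) ∧ y / (ℓ * zw 2) = y * (ℓ⁻¹ * w) := by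
  have h3 := CUL.w3
  have hw := v4c_w0
  have i1 : w⁻¹ = w ^ 2 := by
    rw [inv_eq_iff_eq_inv, eq_comm, inv_eq_iff_eq_inv, eq_comm]
    exact inv_eq_of_mul_eq_one_right (by linear_combination h3)
  have i2 : (w ^ 2)⁻¹ = w := inv_eq_of_mul_eq_one_right (by linear_combination h3)
  refine ⟨?_, ?_, ?_⟩
  · rw [CUL.zw_zero, mul_one, div_eq_mul_inv]
  · rw [CUL.zw_one, div_eq_mul_inv, mul_inv, i1]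
  · rw [CUL.zw_two, div_eq_mul_inv, mul_inv, i2]

theorem v4c_M1 {a k : ZMod 3} (ha : a ≠ 0) {z ℓ W : ℂ} (ρ : ℂ) (hz : z ^ 3 = w) (hl : ℓ ^ 3 = 1 - w) :
    s3 (fun m => zw (a * m) * (ρ * (ℓ * zw m) / (1 - z)) ^ (2 - k.val) *
      (((1 - w * z) / (ℓ * zw m)) ^ 2 + (1 - w * z) / (ℓ * zw m) * W + W ^ 2)) * (1 + w * z) =
      3 * ρ ^ (2 - k.val) * (ℓ⁻¹) ^ a.val * W ^ (2 - e1 k a) * Rh a k z := by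
  have h0 := v4c_z
  have hl0 : ℓ ≠ 0 := by
    intro h
    rw [h] at hl
    apply v4c_w1
    linear_combination hl
  have hj : ℓ * ℓ⁻¹ = 1 := mul_inv_cancel₀ hl0
  have hq : (1 - z)⁻¹ * (1 - z) = 1 := inv_mul_cancel₀ (v4c_ne hz).1
  have hF := v4c_F ha (k := k) hz hl hj hq
  obtain ⟨d0, d1, d2⟩ := v4c_div (1 - w * z) ℓ
  unfold s3
  beta_reduce
  rw [d0, d1, d2]
  simp only [div_eq_mul_inv]
  generalize ℓ⁻¹ = j at *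
  generalize (1 - z)⁻¹ = q at *
  rcases v4c_cases k with rfl | rfl | rfl <;> rcases v4c_cases a with rfl | rfl | rfl
  · exact absurd rfl ha
  · rw [show (1 * 0 : ZMod 3) = 0 from rfl, show (1 * 1 : ZMod 3) = 1 from rfl, show (1 * 2 : ZMod 3) = 2 from rfl,
      CUL.zw_zero, CUL.zw_one, CUL.zw_two]
    simp only [v4c_val.1, v4c_val.2.1, show e1 0 1 = 0 from rfl] at hF ⊢
    linear_combination ((1 + w * z) * ((-2) * ρ ^ 2 * ℓ ^ 2 * q ^ 2 * W ^ 2 + ρ ^ 2 * ℓ ^ 2 * q ^ 2 * (1 - w * z) * j * W + ρ ^ 2 * ℓ ^ 2 * q ^ 2 * (1 - w * z) ^ 2 * j ^ 2 + (2) * w * ρ ^ 2 * ℓ ^ 2 * q ^ 2 * W ^ 2 + (-1) * w * ρ ^ 2 * ℓ ^ 2 * q ^ 2 * (1 - w * z) * j * W + (-1) * w * ρ ^ 2 * ℓ ^ 2 * q ^ 2 * (1 - w * z) ^ 2 * j ^ 2 + (-1) * w ^ 3 * ρ ^ 2 * ℓ ^ 2 * q ^ 2 * W ^ 2 + w ^ 3 * ρ ^ 2 * ℓ ^ 2 * q ^ 2 * (1 - w *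 z) * j * W + w ^ 3 * ρ ^ 2 * ℓ ^ 2 * q ^ 2 * (1 - w * z) ^ 2 * j ^ 2 + w ^ 4 * ρ ^ 2 * ℓ ^ 2 * q ^ 2 * W ^ 2 + (-1) * w ^ 4 * ρ ^ 2 * ℓ ^ 2 * q ^ 2 * (1 - w * z) * j * W + (-1) * w ^ 4 * ρ ^ 2 * ℓ ^ 2 * q ^ 2 * (1 - w * z) ^ 2 * j ^ 2 + w ^ 5 * ρ ^ 2 * ℓ ^ 2 * q ^ 2 * (1 - w * z) * j * W + w ^ 6 * ρ ^ 2 * ℓ ^ 2 * q ^ 2 * (1 - w * z) ^ 2 * j ^ 2)) * h0 + (3 * ρ ^ 2 * W ^ 2) * hF
  · rw [show (2 * 0 : ZMod 3) = 0 from rfl, show (2 * 1 : ZMod 3) = 2 from rfl, show (2 * 2 : ZMod 3) = 1 from rfl,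
      CUL.zw_zero, CUL.zw_one, CUL.zw_two]
    simp only [v4c_val.1, v4c_val.2.2, show e1 0 2 = 1 from rfl] at hF ⊢
    linear_combination ((1 + w * z) * (ρ ^ 2 * ℓ ^ 2 * q ^ 2 * W ^ 2 + (-2) * ρ ^ 2 * ℓ ^ 2 * q ^ 2 * (1 - w * z) * j * W + ρ ^ 2 * ℓ ^ 2 * q ^ 2 * (1 - w * z) ^ 2 * j ^ 2 + (-1) * w * ρ ^ 2 * ℓ ^ 2 * q ^ 2 * W ^ 2 + (2) * w * ρ ^ 2 * ℓ ^ 2 * q ^ 2 * (1 - w * z) * j * W + (-1) * w * ρ ^ 2 * ℓ ^ 2 * q ^ 2 * (1 - w * z) ^ 2 * j ^ 2 + w ^ 3 * ρ ^ 2 * ℓ ^ 2 * q ^ 2 * W ^ 2 + (-2) * w ^ 3 * ρ ^ 2 * ℓ ^ 2 * q ^ 2 * (1 - w * z) * j * W + w ^ 3 * ρ ^ 2 * ℓ ^ 2 * q ^ 2 * (1 - w * z) ^ 2 * j ^ 2 + (2) * w ^ 4 * ρ ^ 2 * ℓ ^ 2 * q ^ 2 * (1 - w * z) * j * W + (-1) * w ^ 4 * ρ ^ 2 * ℓ ^ 2 * q ^ 2 * (1 - w * z) ^ 2 * j ^ 2 + w ^ 6 * ρ ^ 2 * ℓ ^ 2 * q ^ 2 * (1 - w * z) ^ 2 * j ^ 2)) * h0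 + (3 * ρ ^ 2 * W ^ 1) * hF
  · exact absurd rfl ha
  · rw [show (1 * 0 : ZMod 3) = 0 from rfl, show (1 * 1 : ZMod 3) = 1 from rfl, show (1 * 2 : ZMod 3) = 2 from rfl,
      CUL.zw_zero, CUL.zw_one, CUL.zw_two]
    simp only [v4c_val.2.1, show e1 1 1 = 2 from rfl] at hF ⊢
    linear_combination ((1 + w * z) * (ρ * ℓ * q * W ^ 2 + ρ * ℓ * q * (1 - w * z) * j * W + (-2) * ρ * ℓ * q * (1 - w * z) ^ 2 * j ^ 2 + (-1) * w * ρ * ℓ * q * W ^ 2 + (-1) * w * ρ * ℓ * q * (1 - w * z) * j * W + (2) * w * ρ * ℓ * q * (1 - w * z) ^ 2 * j ^ 2 + w ^ 2 * ρ * ℓ * q * W ^ 2 + w ^ 3 * ρ * ℓ * q * (1 - w * z) * j * W + (-2) * w ^ 3 * ρ * ℓ * q * (1 - w * z) ^ 2 * j ^ 2 + (2) * w ^ 4 * ρ * ℓ * q * (1 - w * z) ^ 2 * j ^ 2)) * h0 + (3 * ρ ^ 1 * W ^ 0) * hF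
  · rw [show (2 * 0 : ZMod 3) = 0 from rfl, show (2 * 1 : ZMod 3) = 2 from rfl, show (2 * 2 : ZMod 3) = 1 from rfl,
      CUL.zw_zero, CUL.zw_one, CUL.zw_two]
    simp only [v4c_val.2.1, v4c_val.2.2, show e1 1 2 = 0 from rfl] at hF ⊢
    linear_combination ((1 + w * z) * ((-2) * ρ * ℓ * q * W ^ 2 + ρ * ℓ * q * (1 - w * z) * j * W + ρ * ℓ * q * (1 - w * z) ^ 2 * j ^ 2 + (2) * w * ρ * ℓ * q * W ^ 2 + (-1) * w * ρ * ℓ * q * (1 - w * z) * j * W + (-1) * w * ρ * ℓ * q * (1 - w * z) ^ 2 * j ^ 2 + w ^ 3 * ρ * ℓ * q * (1 - w * z) * j * W + w ^ 3 * ρ * ℓ * q * (1 - w * z) ^ 2 * j ^ 2 + (-1) * w ^ 4 * ρ * ℓ * q * (1 - w * z) ^ 2 * j ^ 2 + w ^ 5 * ρ * ℓ * q * (1 - w * z) ^ 2 * j ^ 2)) * h0 + (3 * ρ ^ 1 * W ^ 2) * hF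
  · exact absurd rfl ha
  · rw [show (1 * 0 : ZMod 3) = 0 from rfl, show (1 * 1 : ZMod 3) = 1 from rfl, show (1 * 2 : ZMod 3) = 2 from rfl,
      CUL.zw_zero, CUL.zw_one, CUL.zw_two]
    simp only [v4c_val.2.1, v4c_val.2.2, show e1 2 1 = 1 from rfl] at hF ⊢
    linear_combination ((1 + w * z) * (W ^ 2 + (-2) * (1 - w * z) * j * W + (1 - w * z) ^ 2 * j ^ 2 + (2) * w * (1 - w * z) * j * W + (-1) * w * (1 - w * z) ^ 2 * j ^ 2 + w ^ 3 * (1 - w * z) ^ 2 * j ^ 2)) * h0 + (3 * ρ ^ 0 * W ^ 1) * hF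
  · rw [show (2 * 0 : ZMod 3) = 0 from rfl, show (2 * 1 : ZMod 3) = 2 from rfl, show (2 * 2 : ZMod 3) = 1 from rfl,
      CUL.zw_zero, CUL.zw_one, CUL.zw_two]
    simp only [v4c_val.2.2, show e1 2 2 = 2 from rfl] at hF ⊢
    linear_combination ((1 + w * z) * (W ^ 2 + (1 - w * z) * j * W + (-2) * (1 - w * z) ^ 2 * j ^ 2 + (-1) * w * (1 - w * z) * j * W + (2) * w * (1 - w * z) ^ 2 * j ^ 2 + w ^ 2 * (1 - w * z) * j * W + (-1) * w ^ 3 * (1 - w * z) ^ 2 * j ^ 2 + w ^ 4 * (1 - w * z) ^ 2 * j ^ 2)) * h0 + (3 * ρ ^ 0 * W ^ 0) * hF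

theorem v4c_U0 {p y j ℓ W : ℂ} (hp : p * y = 1) (hj : ℓ * j = 1) (x x' : ℂ) (hx : x * x' = 1) :
    (y * (j * x)) ^ 0 / (y * (j * x)) * ((y * (j * x)) ^ 2 * W ^ 2 + y * (j * x) * W + 1) =
      y * (j * x) * W ^ 2 + W + p * (ℓ * x') := by
  have e : y * (j * x) * (p * (ℓ * x')) = 1 := by
    linear_combination (j * x * ℓ * x') * hp + (x * x') * hj + hx
  have h0 : y * (j * x) ≠ 0 := left_ne_zero_of_mul (by rw [e]; exact one_ne_zero)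
  rw [pow_zero, one_div, ← eq_inv_of_mul_eq_one_right e]
  generalize y * (j * x) = U at *
  generalize p * (ℓ * x') = V at *
  linear_combination (U * W ^ 2 + W) * e

theorem v4c_M2 {a k : ZMod 3} (ha : a ≠ 0) {z ℓ W : ℂ} (ρ : ℂ) (hz : z ^ 3 = w) (hl : ℓ ^ 3 = 1 - w) :
    s3 (fun m => zw (a * m) * (ρ * (ℓ * zw m) / (1 - z)) ^ (2 - k.val) *
      (((1 - w * z) / (ℓ * zw m)) ^ k.val / ((1 - w * z) / (ℓ * zw m)) *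
        (((1 - w * z) / (ℓ * zw m)) ^ 2 * W ^ 2 + (1 - w * z) / (ℓ * zw m) * W + 1))) * (1 + w * z) =
      3 * ρ ^ (2 - k.val) * (ℓ⁻¹) ^ a.val * W ^ (e2 k a) * Rh a k z := by
  have h0 := v4c_z
  have hw3 := CUL.w3
  have hl0 : ℓ ≠ 0 := by
    intro h
    rw [h] at hl
    apply v4c_w1
    linear_combination hl
  have hj : ℓ * ℓ⁻¹ = 1 := mul_inv_cancel₀ hl0
  have hq : (1 - z)⁻¹ * (1 - z) = 1 := inv_mul_cancel₀ (v4c_ne hz).1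
  have hp : (1 - w * z)⁻¹ * (1 - w * z) = 1 := inv_mul_cancel₀ (v4c_ne hz).2.1
  have hF := v4c_F ha (k := k) hz hl hj hq
  obtain ⟨d0, d1, d2⟩ := v4c_div (1 - w * z) ℓ
  unfold s3
  beta_reduce
  rw [d0, d1, d2]
  have hj1 : (1 - w * z) * ℓ⁻¹ = (1 - w * z) * (ℓ⁻¹ * 1) := by rw [mul_one]
  rw [hj1]
  have g0 := v4c_U0 (W := W) hp hj 1 1 (by norm_num)
  have g1 := v4c_U0 (W := W) hp hj (w ^ 2) w (by linear_combination hw3)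
  have g2 := v4c_U0 (W := W) hp hj w (w ^ 2) (by linear_combination hw3)
  have n0 : (1 - w * z) * (ℓ⁻¹ * 1) ≠ 0 :=
    mul_ne_zero (v4c_ne hz).2.1 (mul_ne_zero (inv_ne_zero hl0) one_ne_zero)
  have n1 : (1 - w * z) * (ℓ⁻¹ * w ^ 2) ≠ 0 :=
    mul_ne_zero (v4c_ne hz).2.1 (mul_ne_zero (inv_ne_zero hl0) (pow_ne_zero 2 v4c_w0))
  have n2 : (1 - w * z) * (ℓ⁻¹ * w) ≠ 0 :=
    mul_ne_zero (v4c_ne hz).2.1 (mul_ne_zero (inv_ne_zero hl0) v4c_w0)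
  have k1 : ∀ U : ℂ, U ≠ 0 → U ^ 1 / U = 1 := fun U hU => by rw [pow_one, div_self hU]
  have k2 : ∀ U : ℂ, U ≠ 0 → U ^ 2 / U = U := fun U hU => by rw [pow_two, mul_div_assoc, div_self hU, mul_one]
  have hdv : ∀ x : ℂ, x / (1 - z) = x * (1 - z)⁻¹ := fun x => div_eq_mul_inv _ _
  simp only [hdv]
  generalize ℓ⁻¹ = j at *
  generalize (1 - z)⁻¹ = q at *
  generalize (1 - w * z)⁻¹ = p at *
  rcases v4c_cases k with rfl | rfl | rfl <;> rcases v4c_cases a with rfl | rfl | rfl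
  · exact absurd rfl ha
  · rw [show (1 * 0 : ZMod 3) = 0 from rfl, show (1 * 1 : ZMod 3) = 1 from rfl, show (1 * 2 : ZMod 3) = 2 from rfl,
      CUL.zw_zero, CUL.zw_one, CUL.zw_two]
    simp only [v4c_val.1, v4c_val.2.1, show e1 0 1 = 0 from rfl, show e2 0 1 = 1 from rfl] at hF ⊢
    rw [g0, g1, g2]
    linear_combination ((1 + w * z) * ((-2) * ρ ^ 2 * ℓ ^ 2 * q ^ 2 * W + ρ ^ 2 * ℓ ^ 2 * q ^ 2 * (1 - w * z) * j * W ^ 2 + ρ ^ 2 * ℓ ^ 3 * q ^ 2 * p + (2) * w * ρ ^ 2 * ℓ ^ 2 * q ^ 2 * W + (-1) * w * ρ ^ 2 * ℓ ^ 2 * q ^ 2 * (1 - w * z) * j * W ^ 2 + (-1) * w * ρ ^ 2 * ℓ ^ 3 * q ^ 2 * p + (-1) * w ^ 3 * ρ ^ 2 * ℓ ^ 2 * q ^ 2 * W + w ^ 3 * ρ ^ 2 * ℓ ^ 2 * q ^ 2 * (1 - w * z) * j * W ^ 2 + w ^ 3 * ρ ^ 2 * ℓ ^ 3 * q ^ 2 * p + w ^ 4 * ρ ^ 2 * ℓ ^ 2 * q ^ 2 * W + (-1) * w ^ 4 * ρ ^ 2 * ℓ ^ 2 *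 q ^ 2 * (1 - w * z) * j * W ^ 2 + w ^ 5 * ρ ^ 2 * ℓ ^ 2 * q ^ 2 * (1 - w * z) * j * W ^ 2 + (-1) * w ^ 5 * ρ ^ 2 * ℓ ^ 3 * q ^ 2 * p + w ^ 6 * ρ ^ 2 * ℓ ^ 3 * q ^ 2 * p)) * h0 + (3 * ρ ^ 2 * W ^ 1) * hF
  · rw [show (2 * 0 : ZMod 3) = 0 from rfl, show (2 * 1 : ZMod 3) = 2 from rfl, show (2 * 2 : ZMod 3) = 1 from rfl,
      CUL.zw_zero, CUL.zw_one, CUL.zw_two]
    simp only [v4c_val.1, v4c_val.2.2, show e1 0 2 = 1 from rfl, show e2 0 2 = 2 from rfl] at hF ⊢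
    rw [g0, g1, g2]
    linear_combination ((1 + w * z) * (ρ ^ 2 * ℓ ^ 2 * q ^ 2 * W + (-2) * ρ ^ 2 * ℓ ^ 2 * q ^ 2 * (1 - w * z) * j * W ^ 2 + ρ ^ 2 * ℓ ^ 3 * q ^ 2 * p + (-1) * w * ρ ^ 2 * ℓ ^ 2 * q ^ 2 * W + (2) * w * ρ ^ 2 * ℓ ^ 2 * q ^ 2 * (1 - w * z) * j * W ^ 2 + (-1) * w * ρ ^ 2 * ℓ ^ 3 * q ^ 2 * p + w ^ 3 * ρ ^ 2 * ℓ ^ 2 * q ^ 2 * W + (-2) * w ^ 3 * ρ ^ 2 * ℓ ^ 2 * q ^ 2 * (1 - w * z) * j * W ^ 2 + w ^ 3 * ρ ^ 2 * ℓ ^ 3 * q ^ 2 * p + (2) * w ^ 4 * ρ ^ 2 * ℓ ^ 2 * q ^ 2 * (1 - w * z) * j * W ^ 2 + (-1) * w ^ 4 * ρ ^ 2 * ℓ ^ 3 * q ^ 2 * p + w ^ 5 * ρ ^ 2 * ℓ ^ 3 * q ^ 2 * p)) * h0 + (3 * ρ ^ 2 * W ^ 2) * hF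
  · exact absurd rfl ha
  · rw [show (1 * 0 : ZMod 3) = 0 from rfl, show (1 * 1 : ZMod 3) = 1 from rfl, show (1 * 2 : ZMod 3) = 2 from rfl,
      CUL.zw_zero, CUL.zw_one, CUL.zw_two]
    simp only [v4c_val.2.1, show e1 1 1 = 2 from rfl, show e2 1 1 = 2 from rfl] at hF ⊢
    rw [k1 _ n0, k1 _ n1, k1 _ n2]
    linear_combination ((1 + w * z) * (ρ * ℓ * q + ρ * ℓ * q * (1 - w * z) * j * W + (-2) * ρ * ℓ * q * (1 - w * z) ^ 2 * j ^ 2 * W ^ 2 + (-1) * w * ρ * ℓ * q + (-1) * w * ρ * ℓ * q * (1 - w * z) * j * W + (2) * w * ρ * ℓ * q * (1 - w * z) ^ 2 * j ^ 2 * W ^ 2 + w ^ 2 * ρ * ℓ * q + w ^ 3 * ρ * ℓ * q * (1 - w * z) * j * W + (-2) * w ^ 3 * ρ * ℓ * q * (1 - w * z) ^ 2 * j ^ 2 * W ^ 2 + (2) * w ^ 4 * ρ * ℓ * q * (1 - w * z) ^ 2 * j ^ 2 * W ^ 2)) * h0 + (3 * ρ ^ 1 * W ^ 2) * hF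
  · rw [show (2 * 0 : ZMod 3) = 0 from rfl, show (2 * 1 : ZMod 3) = 2 from rfl, show (2 * 2 : ZMod 3) = 1 from rfl,
      CUL.zw_zero, CUL.zw_one, CUL.zw_two]
    simp only [v4c_val.2.1, v4c_val.2.2, show e1 1 2 = 0 from rfl, show e2 1 2 = 0 from rfl] at hF ⊢
    rw [k1 _ n0, k1 _ n1, k1 _ n2]
    linear_combination ((1 + w * z) * ((-2) * ρ * ℓ * q + ρ * ℓ * q * (1 - w * z) * j * W + ρ * ℓ * q * (1 - w * z) ^ 2 * j ^ 2 * W ^ 2 + (2) * w * ρ * ℓ * q + (-1) * w * ρ * ℓ * q * (1 - w * z) * j * W + (-1) * w * ρ * ℓ * q * (1 - w * z) ^ 2 * j ^ 2 * W ^ 2 + w ^ 3 * ρ * ℓ * q * (1 - w * z) * j * W + w ^ 3 * ρ * ℓ * q * (1 - w * z) ^ 2 * j ^ 2 * W ^ 2 + (-1) * w ^ 4 * ρ * ℓ * q * (1 - w * z) ^ 2 * j ^ 2 * W ^ 2 + w ^ 5 * ρ * ℓ * q * (1 - w * z) ^ 2 * j ^ 2 * W ^ 2)) * h0 + (3 * ρ ^ 1 * W ^ 0) *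 hF
  · exact absurd rfl ha
  · rw [show (1 * 0 : ZMod 3) = 0 from rfl, show (1 * 1 : ZMod 3) = 1 from rfl, show (1 * 2 : ZMod 3) = 2 from rfl,
      CUL.zw_zero, CUL.zw_one, CUL.zw_two]
    simp only [v4c_val.2.1, v4c_val.2.2, show e1 2 1 = 1 from rfl, show e2 2 1 = 0 from rfl] at hF ⊢
    rw [k2 _ n0, k2 _ n1, k2 _ n2]
    linear_combination ((1 + w * z) * ((-2) * (1 - w * z) * j + (1 - w * z) ^ 2 * j ^ 2 * W + (1 - w * z) ^ 3 * j ^ 3 * W ^ 2 + (2) * w * (1 - w * z) * j + (-1) * w * (1 - w * z) ^ 2 * j ^ 2 * W + (-1) * w * (1 - w * z) ^ 3 * j ^ 3 * W ^ 2 + w ^ 3 * (1 - w * z) ^ 2 * j ^ 2 * W + w ^ 3 * (1 - w * z) ^ 3 * j ^ 3 * W ^ 2 + (-1) * w ^ 4 * (1 - w * z) ^ 3 * j ^ 3 * W ^ 2 + w ^ 5 * (1 - w * z) ^ 3 * j ^ 3 * W ^ 2)) * h0 + (3 * ρ ^ 0 * W ^ 0) * hF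
  · rw [show (2 * 0 : ZMod 3) = 0 from rfl, show (2 * 1 : ZMod 3) = 2 from rfl, show (2 * 2 : ZMod 3) = 1 from rfl,
      CUL.zw_zero, CUL.zw_one, CUL.zw_two]
    simp only [v4c_val.2.2, show e1 2 2 = 2 from rfl, show e2 2 2 = 1 from rfl] at hF ⊢
    rw [k2 _ n0, k2 _ n1, k2 _ n2]
    linear_combination ((1 + w * z) * ((1 - w * z) * j + (-2) * (1 - w * z) ^ 2 * j ^ 2 * W + (1 - w * z) ^ 3 * j ^ 3 * W ^ 2 + (-1) * w * (1 - w * z) * j + (2) * w * (1 - w * z) ^ 2 * j ^ 2 * W + (-1) * w * (1 - w * z) ^ 3 * j ^ 3 * W ^ 2 + w ^ 2 * (1 - w * z) * j + (-1) * w ^ 3 * (1 - w * z) ^ 2 * j ^ 2 * W + w ^ 3 * (1 - w * z) ^ 3 * j ^ 3 * W ^ 2 + w ^ 4 * (1 - w * z) ^ 2 * j ^ 2 * W + (-1) * w ^ 5 * (1 - w * z) ^ 3 * j ^ 3 * W ^ 2 + w ^ 6 * (1 - w * z) ^ 3 * j ^ 3 * W ^ 2)) * h0 + (3 * ρ ^ 0 * W ^ 1) * hF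

/-- the root of unity -/
noncomputable def zi (i : ZMod 3) (ζ : ℂ) : ℂ := if i = 0 then 1 else if i = 1 then ζ * w ^ 2 else ζ ^ 2 * w ^ 2

theorem v4c_zi (i : ZMod 3) {ζ : ℂ} (hζ : ζ ^ 3 = w) : zi i ζ ^ 18 = 1 := by
  have h3 := CUL.w3
  have h9 : ζ ^ 9 = 1 := by
    have e : ζ ^ 9 = (ζ ^ 3) ^ 3 := by ring
    rw [e, hζ, h3]
  have e36 : w ^ 36 = 1 := by
    have e : w ^ 36 = (w ^ 3) ^ 12 := by ring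
    rw [e, h3, one_pow]
  unfold zi
  split_ifs
  · norm_num
  · have e : (ζ * w ^ 2) ^ 18 = (ζ ^ 9) ^ 2 * w ^ 36 := by ring
    rw [e, h9, e36]
    norm_num
  · have e : (ζ ^ 2 * w ^ 2) ^ 18 = (ζ ^ 9) ^ 4 * w ^ 36 := by ring
    rw [e, h9, e36]
    norm_num

theorem v4c_nz : zw (-0) = 1 ∧ zw (-1) = w ^ 2 ∧ zw (-2) = w := by
  refine ⟨?_, ?_, ?_⟩
  · rw [neg_zero, CUL.zw_zero]
  · rw [show (-1 : ZMod 3) = 2 from rfl, CUL.zw_two]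
  · rw [show (-2 : ZMod 3) = 1 from rfl, CUL.zw_one]

theorem v4c_S {a : ZMod 3} (ha : a ≠ 0) (i k : ZMod 3) {ζ u : ℂ} (hz : ζ ^ 3 = w) :
    s3 (fun s => zw (i * s) * (Rh a k (ζ * zw (-s)) * ((ζ * zw (-s)) ^ 2 + ζ * zw (-s) * u + u ^ 2))) =
      -3 * zi i ζ * P1 a i k u ∧
    s3 (fun s => zw (i * s) * (Rh a k (ζ * zw (-s)) * ((ζ * zw (-s)) ^ 2 * u ^ 2 + ζ * zw (-s) * u + 1))) =
      -3 * zi i ζ * P2 a i k u := by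
  have h0 := v4c_z
  obtain ⟨n0, n1, n2⟩ := v4c_nz
  unfold s3 Rh P1 P2 zi
  beta_reduce
  rw [n0, n1, n2]
  generalize zw (2 - k) = g'
  generalize zw k = g
  rcases v4c_cases a with rfl | rfl | rfl <;> rcases v4c_cases i with rfl | rfl | rfl
  · exact absurd rfl ha
  · exact absurd rfl ha
  · exact absurd rfl ha
  · simp only [if_true, if_false, show ((0 : ZMod 3) = 2) = False from eq_false (by decide), show (0 * 0 : ZMod 3) = 0 from rfl, show (0 * 1 : ZMod 3) = 0 from rfl, show (0 * 2 : ZMod 3) = 0 from rfl, CUL.zw_zero]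
    constructor
    · linear_combination ((-1) * w ^ 2 * u + (-1) * w ^ 2 * ζ + (-1) * w ^ 5 * u + (-1) * w ^ 6 * ζ + (-1) * w ^ 8 * u + (-1) * w ^ 10 * ζ) * hz + ((3) * u + ζ * u * g' + ζ ^ 2 * g' + (-3) * w * u + (-1) * w * ζ ^ 2 * g' + w ^ 2 * ζ ^ 2 * g' + (-1) * w ^ 2 * ζ ^ 2 * u ^ 2 + (2) * w ^ 3 * u + (-1) * w ^ 3 * ζ + w ^ 3 * ζ ^ 2 * u ^ 2 + (-2) * w ^ 4 * u + w ^ 4 * ζ + (-1) * w ^ 4 * ζ ^ 2 * u ^ 2 + w ^ 6 * u + (-1) * w ^ 6 * ζ + (-1) * w ^ 7 * u + w ^ 8 * ζ + (-1) * w ^ 9 * ζ) * h0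
    · linear_combination ((-1) * w ^ 2 * u + (-1) * w ^ 2 * ζ * u ^ 2 + (-1) * w ^ 5 * u + (-1) * w ^ 6 * ζ * u ^ 2 + (-1) * w ^ 8 * u + (-1) * w ^ 10 * ζ * u ^ 2) * hz + ((3) * u + ζ * u * g' + ζ ^ 2 * u ^ 2 * g' + (-3) * w * u + (-1) * w * ζ ^ 2 * u ^ 2 * g' + (-1) * w ^ 2 * ζ ^ 2 + w ^ 2 * ζ ^ 2 * u ^ 2 * g' + (2) * w ^ 3 * u + (-1) * w ^ 3 * ζ * u ^ 2 + w ^ 3 * ζ ^ 2 + (-2) * w ^ 4 * u + w ^ 4 * ζ * u ^ 2 + (-1) * w ^ 4 * ζ ^ 2 + w ^ 6 * u + (-1) * w ^ 6 * ζ * u ^ 2 + (-1) * w ^ 7 * u + w ^ 8 * ζ * u ^ 2 + (-1) * w ^ 9 * ζ * u ^ 2) * h0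
  · simp only [if_true, if_false, show ((1 : ZMod 3) = 0) = False from eq_false (by decide), show ((1 : ZMod 3) = 2) = False from eq_false (by decide), show (1 * 0 : ZMod 3) = 0 from rfl, show (1 * 1 : ZMod 3) = 1 from rfl, show (1 * 2 : ZMod 3) = 2 from rfl, CUL.zw_zero, CUL.zw_one, CUL.zw_two]
    constructor
    · linear_combination ((-1) * w ^ 2 * u + (-1) * w ^ 2 * ζ + (-1) * w ^ 7 * u + (-1) * w ^ 8 * ζ + (-1) * w ^ 9 * u + (-1) * w ^ 11 * ζ) * hz + (u ^ 2 * g' + ζ * u * g' + ζ ^ 2 * g' + (-1) * w * ζ * u * g' + (-1) * w * ζ ^ 2 * g' + (-1) * w ^ 2 * ζ ^ 2 * u ^ 2 + (-1) * w ^ 3 * u + (2) * w ^ 3 * ζ + w ^ 3 * ζ ^ 2 * g' + w ^ 3 * ζ ^ 2 * u ^ 2 + w ^ 4 * u + (-2) * w ^ 4 * ζ + (-1) * w ^ 5 * ζ ^ 2 * u ^ 2 + (-1) * w ^ 6 * u + (2) * w ^ 6 * ζ + w ^ 7 * u + (-2) * w ^ 7 * ζ + (-1)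 * w ^ 8 * u + w ^ 9 * ζ + (-1) * w ^ 10 * ζ) * h0
    · linear_combination ((-1) * w ^ 2 * u + (-1) * w ^ 2 * ζ * u ^ 2 + (-1) * w ^ 7 * u + (-1) * w ^ 8 * ζ * u ^ 2 + (-1) * w ^ 9 * u + (-1) * w ^ 11 * ζ * u ^ 2) * hz + (g' + ζ * u * g' + ζ ^ 2 * u ^ 2 * g' + (-1) * w * ζ * u * g' + (-1) * w * ζ ^ 2 * u ^ 2 * g' + (-1) * w ^ 2 * ζ ^ 2 + (-1) * w ^ 3 * u + (2) * w ^ 3 * ζ * u ^ 2 + w ^ 3 * ζ ^ 2 + w ^ 3 * ζ ^ 2 * u ^ 2 * g' + w ^ 4 * u + (-2) * w ^ 4 * ζ * u ^ 2 + (-1) * w ^ 5 * ζ ^ 2 + (-1) * w ^ 6 * u + (2) * w ^ 6 * ζ * u ^ 2 + w ^ 7 * u + (-2) * w ^ 7 * ζ * u ^ 2 + (-1) * w ^ 8 * u + w ^ 9 * ζ * u ^ 2 + (-1) * w ^ 10 * ζ * u ^ 2) * h0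
  · simp only [if_true, if_false, show ((2 : ZMod 3) = 0) = False from eq_false (by decide), show ((2 : ZMod 3) = 1) = False from eq_false (by decide), show (2 * 0 : ZMod 3) = 0 from rfl, show (2 * 1 : ZMod 3) = 2 from rfl, show (2 * 2 : ZMod 3) = 1 from rfl, CUL.zw_zero, CUL.zw_one, CUL.zw_two]
    constructor
    · linear_combination ((-1) * w ^ 2 * u + (-1) * w ^ 2 * ζ + (-1) * w ^ 6 * u + (-1) * w ^ 7 * ζ + (-1) * w ^ 10 * u + (-1) * w ^ 12 * ζ) * hz + (u ^ 2 * g' + ζ * u * g' + ζ ^ 2 * g' + (-1) * w * ζ * u * g' + (-1) * w * ζ ^ 2 * g' + w ^ 2 * ζ * u * g' + (2) * w ^ 2 * ζ ^ 2 * u ^ 2 + (-1) * w ^ 3 * u + (-1) * w ^ 3 * ζ + (-1) * w ^ 3 * ζ ^ 2 * g' + (-2) * w ^ 3 * ζ ^ 2 * u ^ 2 + w ^ 4 * u + w ^ 4 * ζ + w ^ 4 * ζ ^ 2 * g' + w ^ 5 * ζ ^ 2 * u ^ 2 + (-1) * w ^ 6 * u + (-1) * w ^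 6 * ζ + (-1) * w ^ 6 * ζ ^ 2 * u ^ 2 + w ^ 7 * ζ + w ^ 8 * u + (-1) * w ^ 8 * ζ + (-1) * w ^ 9 * u + w ^ 10 * ζ + (-1) * w ^ 11 * ζ) * h0
    · linear_combination ((-1) * w ^ 2 * u + (-1) * w ^ 2 * ζ * u ^ 2 + (-1) * w ^ 6 * u + (-1) * w ^ 7 * ζ * u ^ 2 + (-1) * w ^ 10 * u + (-1) * w ^ 12 * ζ * u ^ 2) * hz + (g' + ζ * u * g' + ζ ^ 2 * u ^ 2 * g' + (-1) * w * ζ * u * g' + (-1) * w * ζ ^ 2 * u ^ 2 * g' + w ^ 2 * ζ * u * g' + (2) * w ^ 2 * ζ ^ 2 + (-1) * w ^ 3 * u + (-1) * w ^ 3 * ζ * u ^ 2 + (-2) * w ^ 3 * ζ ^ 2 + (-1) * w ^ 3 * ζ ^ 2 * u ^ 2 * g' + w ^ 4 * u + w ^ 4 * ζ * u ^ 2 + w ^ 4 * ζ ^ 2 * u ^ 2 * g' + w ^ 5 * ζ ^ 2 + (-1) * w ^ 6 * u + (-1) * w ^ 6 * ζ * u ^ 2 + (-1) * w ^ 6 * ζ ^ 2 + w ^ 7 * ζ * u ^ 2 + w ^ 8 * u + (-1) * w ^ 8 * ζ * u ^ 2 + (-1) * w ^ 9 * u + w ^ 10 * ζ * u ^ 2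 + (-1) * w ^ 11 * ζ * u ^ 2) * h0
  · simp only [if_true, if_false, show ((2 : ZMod 3) = 1) = False from eq_false (by decide), show ((0 : ZMod 3) = 2) = False from eq_false (by decide), show (0 * 0 : ZMod 3) = 0 from rfl, show (0 * 1 : ZMod 3) = 0 from rfl, show (0 * 2 : ZMod 3) = 0 from rfl, CUL.zw_zero]
    constructor
    · linear_combination ((-1) * g ^ 2 + (-1) * w ^ 2 * u + (-1) * w ^ 2 * ζ + (-1) * w ^ 3 * g ^ 2 + (-1) * w ^ 5 * u + (-1) * w ^ 6 * g ^ 2 + (-1) * w ^ 6 * ζ + (-1) * w ^ 8 * u + (-1) * w ^ 10 * ζ) * hz + ((3) * u + (-1) * ζ * u * g + (-1) * ζ * u ^ 2 * g ^ 2 + (-1) * ζ ^ 2 * g + (-1) * ζ ^ 2 * u * g ^ 2 + (2) * w * g ^ 2 + (-3) * w * u + w * ζ ^ 2 * g + w * ζ ^ 2 * u * g ^ 2 + (-2) * w ^ 2 * g ^ 2 + (-1) * w ^ 2 * ζ ^ 2 * g + (-1) * w ^ 2 * ζ ^ 2 * u * g ^ 2 + (-1)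 * w ^ 2 * ζ ^ 2 * u ^ 2 + (2) * w ^ 3 * u + (-1) * w ^ 3 * ζ + w ^ 3 * ζ ^ 2 * u ^ 2 + w ^ 4 * g ^ 2 + (-2) * w ^ 4 * u + w ^ 4 * ζ + (-1) * w ^ 4 * ζ ^ 2 * u ^ 2 + (-1) * w ^ 5 * g ^ 2 + w ^ 6 * u + (-1) * w ^ 6 * ζ + (-1) * w ^ 7 * u + w ^ 8 * ζ + (-1) * w ^ 9 * ζ) * h0
    · linear_combination ((-1) * u ^ 2 * g ^ 2 + (-1) * w ^ 2 * u + (-1) * w ^ 2 * ζ * u ^ 2 + (-1) * w ^ 3 * u ^ 2 * g ^ 2 + (-1) * w ^ 5 * u + (-1) * w ^ 6 * u ^ 2 * g ^ 2 + (-1) * w ^ 6 * ζ * u ^ 2 + (-1) * w ^ 8 * u + (-1) * w ^ 10 * ζ * u ^ 2) * hz + ((3) * u + (-1) * ζ * g ^ 2 + (-1) * ζ * u * g + (-1) * ζ ^ 2 * u * g ^ 2 + (-1) * ζ ^ 2 * u ^ 2 * g + (-3) * w * u + (2) * w * u ^ 2 * g ^ 2 + w * ζ ^ 2 * u * g ^ 2 + w * ζ ^ 2 * u ^ 2 * g + (-2) * w ^ 2 * u ^ 2 * g ^ 2 + (-1) * w ^ 2 * ζ ^ 2 + (-1) * w ^ 2 * ζ ^ 2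 * u * g ^ 2 + (-1) * w ^ 2 * ζ ^ 2 * u ^ 2 * g + (2) * w ^ 3 * u + (-1) * w ^ 3 * ζ * u ^ 2 + w ^ 3 * ζ ^ 2 + (-2) * w ^ 4 * u + w ^ 4 * u ^ 2 * g ^ 2 + w ^ 4 * ζ * u ^ 2 + (-1) * w ^ 4 * ζ ^ 2 + (-1) * w ^ 5 * u ^ 2 * g ^ 2 + w ^ 6 * u + (-1) * w ^ 6 * ζ * u ^ 2 + (-1) * w ^ 7 * u + w ^ 8 * ζ * u ^ 2 + (-1) * w ^ 9 * ζ * u ^ 2) * h0
  · simp only [if_true, if_false, show ((2 : ZMod 3) = 1) = False from eq_false (by decide), show ((1 : ZMod 3) = 0) = False from eq_false (by decide), show ((1 : ZMod 3) = 2) = False from eq_false (by decide), show (1 * 0 : ZMod 3) = 0 from rfl, show (1 * 1 : ZMod 3) = 1 from rfl, show (1 * 2 : ZMod 3) = 2 from rfl, CUL.zw_zero, CUL.zw_one, CUL.zw_two]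
    constructor
    · linear_combination ((-1) * g ^ 2 + (-1) * w ^ 2 * u + (-1) * w ^ 2 * ζ + (-1) * w ^ 5 * g ^ 2 + (-1) * w ^ 7 * g ^ 2 + (-1) * w ^ 7 * u + (-1) * w ^ 8 * ζ + (-1) * w ^ 9 * u + (-1) * w ^ 11 * ζ) * hz + ((-1) * u ^ 2 * g + (-1) * ζ * u * g + (-1) * ζ * u ^ 2 * g ^ 2 + (-1) * ζ ^ 2 * g + (-1) * ζ ^ 2 * u * g ^ 2 + (-1) * w * g ^ 2 + w * ζ * u * g + w * ζ * u ^ 2 * g ^ 2 + w * ζ ^ 2 * g + w * ζ ^ 2 * u * g ^ 2 + w ^ 2 * g ^ 2 + (-1) * w ^ 2 * ζ ^ 2 * u ^ 2 + (-1) * w ^ 3 * u + (2) * w ^ 3 * ζ + (-1) * w ^ 3 * ζ ^ 2 * g + (-1) * w ^ 3 * ζ ^ 2 * u * g ^ 2 + w ^ 3 * ζ ^ 2 * u ^ 2 + (-1) * w ^ 4 * g ^ 2 + w ^ 4 * u + (-2) * w ^ 4 * ζ + w ^ 5 * g ^ 2 + (-1) * w ^ 5 * ζ ^ 2 * u ^ 2 + (-1) * w ^ 6 * g ^ 2 + (-1) * w ^ 6 * u + (2) * w ^ 6 * ζ + w ^ 7 * u + (-2) * w ^ 7 * ζ +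 (-1) * w ^ 8 * u + w ^ 9 * ζ + (-1) * w ^ 10 * ζ) * h0
    · linear_combination ((-1) * u ^ 2 * g ^ 2 + (-1) * w ^ 2 * u + (-1) * w ^ 2 * ζ * u ^ 2 + (-1) * w ^ 5 * u ^ 2 * g ^ 2 + (-1) * w ^ 7 * u + (-1) * w ^ 7 * u ^ 2 * g ^ 2 + (-1) * w ^ 8 * ζ * u ^ 2 + (-1) * w ^ 9 * u + (-1) * w ^ 11 * ζ * u ^ 2) * hz + ((-1) * g + (-1) * ζ * g ^ 2 + (-1) * ζ * u * g + (-1) * ζ ^ 2 * u * g ^ 2 + (-1) * ζ ^ 2 * u ^ 2 * g + (-1) * w * u ^ 2 * g ^ 2 + w * ζ * g ^ 2 + w * ζ * u * g + w * ζ ^ 2 * u * g ^ 2 + w * ζ ^ 2 * u ^ 2 * g + w ^ 2 * u ^ 2 * g ^ 2 + (-1) * w ^ 2 * ζ ^ 2 + (-1) * w ^ 3 * u + (2) * w ^ 3 * ζ * u ^ 2 + w ^ 3 * ζ ^ 2 + (-1) * w ^ 3 * ζ ^ 2 * u * g ^ 2 + (-1) * w ^ 3 * ζ ^ 2 * u ^ 2 * g + w ^ 4 * u + (-1) * w ^ 4 * u ^ 2 * g ^ 2 + (-2) * w ^ 4 * ζ * u ^ 2 + w ^ 5 * u ^ 2 * g ^ 2 + (-1)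 * w ^ 5 * ζ ^ 2 + (-1) * w ^ 6 * u + (-1) * w ^ 6 * u ^ 2 * g ^ 2 + (2) * w ^ 6 * ζ * u ^ 2 + w ^ 7 * u + (-2) * w ^ 7 * ζ * u ^ 2 + (-1) * w ^ 8 * u + w ^ 9 * ζ * u ^ 2 + (-1) * w ^ 10 * ζ * u ^ 2) * h0
  · simp only [if_true, if_false, show ((2 : ZMod 3) = 1) = False from eq_false (by decide), show ((2 : ZMod 3) = 0) = False from eq_false (by decide), show (2 * 0 : ZMod 3) = 0 from rfl, show (2 * 1 : ZMod 3) = 2 from rfl, show (2 * 2 : ZMod 3) = 1 from rfl, CUL.zw_zero, CUL.zw_one, CUL.zw_two]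
    constructor
    · linear_combination ((-1) * g ^ 2 + (-1) * w ^ 2 * u + (-1) * w ^ 2 * ζ + (-1) * w ^ 4 * g ^ 2 + (-1) * w ^ 6 * u + (-1) * w ^ 7 * ζ + (-1) * w ^ 8 * g ^ 2 + (-1) * w ^ 10 * u + (-1) * w ^ 12 * ζ) * hz + ((-1) * u ^ 2 * g + (-1) * ζ * u * g + (-1) * ζ * u ^ 2 * g ^ 2 + (-1) * ζ ^ 2 * g + (-1) * ζ ^ 2 * u * g ^ 2 + (-1) * w * g ^ 2 + w * ζ * u * g + w * ζ * u ^ 2 * g ^ 2 + w * ζ ^ 2 * g + w * ζ ^ 2 * u * g ^ 2 + w ^ 2 * g ^ 2 + (-1) * w ^ 2 * ζ * u * g + (-1) * w ^ 2 * ζ * u ^ 2 * g ^ 2 + (2) * w ^ 2 * ζ ^ 2 * u ^ 2 + (-1) * w ^ 3 * u + (-1) * w ^ 3 * ζ + w ^ 3 * ζ ^ 2 * g + w ^ 3 * ζ ^ 2 * u * g ^ 2 + (-2) * w ^ 3 * ζ ^ 2 * u ^ 2 + (-1) * w ^ 4 * g ^ 2 + w ^ 4 * u + w ^ 4 * ζ + (-1) * w ^ 4 * ζ ^ 2 * g + (-1) * w ^ 4 * ζ ^ 2 * u * g ^ 2 + w ^ 5 * ζ ^ 2 * u ^ 2 + w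 ^ 6 * g ^ 2 + (-1) * w ^ 6 * u + (-1) * w ^ 6 * ζ + (-1) * w ^ 6 * ζ ^ 2 * u ^ 2 + (-1) * w ^ 7 * g ^ 2 + w ^ 7 * ζ + w ^ 8 * u + (-1) * w ^ 8 * ζ + (-1) * w ^ 9 * u + w ^ 10 * ζ + (-1) * w ^ 11 * ζ) * h0
    · linear_combination ((-1) * u ^ 2 * g ^ 2 + (-1) * w ^ 2 * u + (-1) * w ^ 2 * ζ * u ^ 2 + (-1) * w ^ 4 * u ^ 2 * g ^ 2 + (-1) * w ^ 6 * u + (-1) * w ^ 7 * ζ * u ^ 2 + (-1) * w ^ 8 * u ^ 2 * g ^ 2 + (-1) * w ^ 10 * u + (-1) * w ^ 12 * ζ * u ^ 2) * hz + ((-1) * g + (-1) * ζ * g ^ 2 + (-1) * ζ * u * g + (-1) * ζ ^ 2 * u * g ^ 2 + (-1) * ζ ^ 2 * u ^ 2 * g + (-1) * w * u ^ 2 * g ^ 2 + w * ζ * g ^ 2 + w * ζ * u * g + w * ζ ^ 2 * u * g ^ 2 + w * ζ ^ 2 * u ^ 2 * g + w ^ 2 * u ^ 2 * g ^ 2 + (-1) * w ^ 2 * ζ * g ^ 2 + (-1) * w ^ 2 * ζ * u * g + (2) * w ^ 2 * ζ ^ 2 + (-1) * w ^ 3 * u + (-1)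 * w ^ 3 * ζ * u ^ 2 + (-2) * w ^ 3 * ζ ^ 2 + w ^ 3 * ζ ^ 2 * u * g ^ 2 + w ^ 3 * ζ ^ 2 * u ^ 2 * g + w ^ 4 * u + (-1) * w ^ 4 * u ^ 2 * g ^ 2 + w ^ 4 * ζ * u ^ 2 + (-1) * w ^ 4 * ζ ^ 2 * u * g ^ 2 + (-1) * w ^ 4 * ζ ^ 2 * u ^ 2 * g + w ^ 5 * ζ ^ 2 + (-1) * w ^ 6 * u + w ^ 6 * u ^ 2 * g ^ 2 + (-1) * w ^ 6 * ζ * u ^ 2 + (-1) * w ^ 6 * ζ ^ 2 + (-1) * w ^ 7 * u ^ 2 * g ^ 2 + w ^ 7 * ζ * u ^ 2 + w ^ 8 * u + (-1) * w ^ 8 * ζ * u ^ 2 + (-1) * w ^ 9 * u + w ^ 10 * ζ * u ^ 2 + (-1) * w ^ 11 * ζ * u ^ 2) * h0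

theorem v4c_zwc (m : ZMod 3) : zw m ^ 3 = 1 := by
  rcases v4c_cases m with rfl | rfl | rfl
  · rw [CUL.zw_zero]
    norm_num
  · rw [CUL.zw_one, CUL.w3]
  · rw [CUL.zw_two, ← pow_mul, mul_comm, pow_mul, CUL.w3]
    norm_num

theorem v4c_hU {z ℓ : ℂ} (hz : z ^ 3 = w) (hl : ℓ ^ 3 = 1 - w) (m : ZMod 3) :
    ((1 - w * z) / (ℓ * zw m)) ^ 3 * (1 + w * z) = z + w := by
  have h0 := v4c_z
  have h1 : (1 - w : ℂ) ≠ 0 := by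
    intro h
    apply v4c_w1
    linear_combination -h
  rw [div_pow, mul_pow, hl, v4c_zwc, mul_one, div_mul_eq_mul_div, div_eq_iff h1]
  linear_combination ((2) * w ^ 3 + (-1) * w ^ 4 * z) * hz + ((1) + (-1) * z + (-2) * w + (2) * w ^ 2 + w ^ 2 * z + (-1) * w ^ 3 * z) * h0

theorem v4c_inner {a k : ZMod 3} (ha : a ≠ 0) {z ℓ W u v : ℂ} (sg ρ : ℂ) (hz : z ^ 3 = w) (hl : ℓ ^ 3 = 1 - w)
    (hW : W ^ 3 * (1 + w * u) = u + w) (hu : u ^ 3 * (1 + w * v) = v + w) (hv : v ≠ 0) :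
    s3 (fun m => zw (a * m) * ((ρ * (ℓ * zw m) / (1 - z)) ^ (2 - k.val) *
      (1 / ((1 - w * z) / (ℓ * zw m) - W) + sg * (((1 - w * z) / (ℓ * zw m)) ^ k.val / ((1 - w * z) / (ℓ * zw m)) *
        (1 / ((1 - w * z) / (ℓ * zw m) * W - 1)))))) =
      -(3 * ρ ^ (2 - k.val) * (ℓ⁻¹) ^ a.val * ((1 + w * u) * (1 + w * v) / (1 - w ^ 2) ^ 2)) *
        (W ^ (2 - e1 k a) / v * (Rh a k z * (z ^ 2 + z * u + u ^ 2)) +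
          sg * W ^ (e2 k a) * (Rh a k z * (z ^ 2 * u ^ 2 + z * u + 1))) := by
  obtain ⟨t1, T1⟩ := v4c_T1 hz hu hv
  obtain ⟨t2, T2⟩ := v4c_T2 hz hu
  have M1 := v4c_M1 ha (k := k) (W := W) ρ hz hl
  have M2 := v4c_M2 ha (k := k) (W := W) ρ hz hl
  have hw2 := v4c_w2
  have key : ∀ m : ZMod 3, zw (a * m) * ((ρ * (ℓ * zw m) / (1 - z)) ^ (2 - k.val) *
      (1 / ((1 - w * z) / (ℓ * zw m) - W) + sg * (((1 - w * z) / (ℓ * zw m)) ^ k.val / ((1 - w * z) / (ℓ * zw m)) *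
        (1 / ((1 - w * z) / (ℓ * zw m) * W - 1))))) =
      (1 + w * z) * ((1 + w * u) / (1 - w ^ 2) * (1 / (z - u))) * (zw (a * m) * (ρ * (ℓ * zw m) / (1 - z)) ^ (2 - k.val) *
      (((1 - w * z) / (ℓ * zw m)) ^ 2 + (1 - w * z) / (ℓ * zw m) * W + W ^ 2)) +
      sg * ((1 + w * z) * ((1 + w * u) / (1 - w ^ 2) * (1 / (z * u - 1)))) * (zw (a * m) * (ρ * (ℓ * zw m) / (1 - z)) ^ (2 - k.val) *
      (((1 - w * z) / (ℓ * zw m)) ^ k.val / ((1 - w * z) / (ℓ * zw m)) *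
        (((1 - w * z) / (ℓ * zw m)) ^ 2 * W ^ 2 + (1 - w * z) / (ℓ * zw m) * W + 1))) := by
    intro m
    have hU := v4c_hU hz hl m
    rw [v4c_kern1 hU hW t1, v4c_kern2 hU hW t2]
    have e1 : (1 + w * z) * (1 + w * u) / ((1 - w ^ 2) * (z - u)) =
        (1 + w * z) * ((1 + w * u) / (1 - w ^ 2) * (1 / (z - u))) := by
      rw [div_mul_div_comm, mul_one, mul_div_assoc]
    have e2 : (1 + w * z) * (1 + w * u) / ((1 - w ^ 2) * (z * u - 1)) =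
        (1 + w * z) * ((1 + w * u) / (1 - w ^ 2) * (1 / (z * u - 1))) := by
      rw [div_mul_div_comm, mul_one, mul_div_assoc]
    rw [e1, e2]
    ring
  unfold s3 at *
  beta_reduce at *
  rw [key 0, key 1, key 2]
  have g1 : (1 + w * u) / (1 - w ^ 2) * (1 / (z - u)) =
      -((1 + w * u) * (1 + w * v) / (1 - w ^ 2) ^ 2) * ((z ^ 2 + z * u + u ^ 2) / v) := by
    rw [T1]
    field_simp
  have g2 : (1 + w * u) / (1 - w ^ 2) * (1 / (z * u - 1)) =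
      -((1 + w * u) * (1 + w * v) / (1 - w ^ 2) ^ 2) * (z ^ 2 * u ^ 2 + z * u + 1) := by
    rw [T2]
    field_simp
  rw [g1, g2]
  generalize (1 + w * u) * (1 + w * v) / (1 - w ^ 2) ^ 2 = C at *
  have e3 : W ^ (2 - e1 k a) / v * (Rh a k z * (z ^ 2 + z * u + u ^ 2)) =
      W ^ (2 - e1 k a) * Rh a k z * ((z ^ 2 + z * u + u ^ 2) / v) := by ring
  rw [e3]
  generalize (z ^ 2 + z * u + u ^ 2) / v = Q at *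
  linear_combination (-C * Q) * M1 - (sg * C * (z ^ 2 * u ^ 2 + z * u + 1)) * M2

theorem v4c_main {a k : ZMod 3} (ha : a ≠ 0) (i : ZMod 3) {ζ ℓ W u v : ℂ} (sg ρ : ℂ) (hζ : ζ ^ 3 = w) (hl : ℓ ^ 3 = 1 - w)
    (hW : W ^ 3 * (1 + w * u) = u + w) (hu : u ^ 3 * (1 + w * v) = v + w) (hv : v ≠ 0) :
    s3 (fun s => zw (i * s) * s3 (fun m => zw (a * m) * ((ρ * (ℓ * zw m) / (1 - ζ * zw (-s))) ^ (2 - k.val) *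
      (1 / ((1 - w * (ζ * zw (-s))) / (ℓ * zw m) - W) +
        sg * (((1 - w * (ζ * zw (-s))) / (ℓ * zw m)) ^ k.val / ((1 - w * (ζ * zw (-s))) / (ℓ * zw m)) *
        (1 / ((1 - w * (ζ * zw (-s))) / (ℓ * zw m) * W - 1))))))) =
      9 * ρ ^ (2 - k.val) * (ℓ⁻¹) ^ a.val * zi i ζ / (1 - w ^ 2) ^ 2 * ((1 + w * u) * (1 + w * v) *
        (W ^ (2 - e1 k a) * P1 a i k u / v + sg * (W ^ (e2 k a) * P2 a i k u))) := by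
  obtain ⟨S1, S2⟩ := v4c_S ha i k (u := u) hζ
  have key : ∀ s : ZMod 3, (ζ * zw (-s)) ^ 3 = w := by
    intro s
    rw [mul_pow, hζ, v4c_zwc, mul_one]
  unfold s3 at S1 S2
  beta_reduce at S1 S2
  rw [s3]
  rw [v4c_inner ha sg ρ (key 0) hl hW hu hv, v4c_inner ha sg ρ (key 1) hl hW hu hv, v4c_inner ha sg ρ (key 2) hl hW hu hv]
  have hC : 9 * ρ ^ (2 - k.val) * (ℓ⁻¹) ^ a.val * zi i ζ / (1 - w ^ 2) ^ 2 * ((1 + w * u) * (1 + w * v) *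
        (W ^ (2 - e1 k a) * P1 a i k u / v + sg * (W ^ (e2 k a) * P2 a i k u))) =
      3 * (3 * ρ ^ (2 - k.val) * (ℓ⁻¹) ^ a.val * ((1 + w * u) * (1 + w * v) / (1 - w ^ 2) ^ 2)) * zi i ζ *
        (W ^ (2 - e1 k a) / v * P1 a i k u + sg * W ^ (e2 k a) * P2 a i k u) := by ring
  rw [hC]
  generalize 3 * ρ ^ (2 - k.val) * (ℓ⁻¹) ^ a.val * ((1 + w * u) * (1 + w * v) / (1 - w ^ 2) ^ 2) = C at *
  generalize W ^ (2 - e1 k a) / v = c1 at *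
  generalize sg * W ^ (e2 k a) = c2 at *
  linear_combination (-C * c1) * S1 - (C * c2) * S2

end JGL
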