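import Pool.Agent.JGL.T
import Pool.Agent.JGL.V4c

/-!
# [JGL-V4] part B: the nine points `b/9`
-/

set_option autoImplicit false

open NumberField IsDedekindDomain Filter Topology
open scoped Classical ComplexConjugate

namespace JGL

open CM27 JZ
open CU (la eE)
open CUL (Nl ez si ta DS Cont LV IsRep rp cr mn mo zw OT GalU W3 W9)
open JL (N1 KD sD Psi6)

/-! ## the algebra of one doubling step; `z ^ 3 = w`, `l ^ 3 = 1 - w` -/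

section alg
variable {z l : ℂ}

noncomputable def bX0 (z l : ℂ) : ℂ := (1 / 3) * l + (-2 / 3) * l ^ 2 + (-2 / 3) * z * l + (2 / 3) * z * l ^ 2 + z ^ 2 + (1 / 3) * z ^ 2 * l + (-1) * z ^ 2 * l ^ 2 + (-1) * z ^ 3 + (2 / 3) * z ^ 3 * l + (-1 / 3) * z ^ 3 * l ^ 2 + z ^ 4 + (-4 / 3) * z ^ 4 * l + (1 / 3) * z ^ 4 * l ^ 2 + (2 / 3) * z ^ 5 * l + (-1) * z ^ 5 * l ^ 2
noncomputable def bY0 (z l : ℂ) : ℂ := (-3) + (6) * l + (-4) * l ^ 2 + (-4) * z * l + (4) * z * l ^ 2 + (4) * z ^ 2 * l + (-4) * z ^ 2 * l ^ 2 + (-6) * z ^ 3 + (4) * z ^ 3 * l + (6) * z ^ 4 + (-4) * z ^ 4 * l + (-6) * z ^ 5 + (6) * z ^ 5 * l + (-2) * z ^ 5 * l ^ 2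
noncomputable def bXL (z : ℂ) : ℂ := (1) + (-1) * z + z ^ 2 + z ^ 5
noncomputable def bYL (z : ℂ) : ℂ := (3) + (-4) * z + (4) * z ^ 2 + (-2) * z ^ 4 + (2) * z ^ 5
noncomputable def bM (z l : ℂ) : ℂ := (-2 / 3) + (-2 / 3) * l ^ 2 + (4 / 3) * z + (-2 / 3) * z * l + (-2 / 3) * z ^ 2 + (2 / 3) * z ^ 2 * l + (2 / 3) * z ^ 3 + (2 / 3) * z ^ 3 * l ^ 2 + (2 / 3) * z ^ 4 + (2 / 3) * z ^ 4 * l + (2 / 3) * z ^ 5 + (4 / 3) * z ^ 5 * l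
noncomputable def bX3 (z l : ℂ) : ℂ := (1 / 3) * l + (1 / 3) * l ^ 2 + (-1) * z + (-2 / 3) * z * l + (-1 / 3) * z * l ^ 2 + (-1) * z ^ 2 + (-2 / 3) * z ^ 2 * l + (-1) * z ^ 2 * l ^ 2 + (-1) * z ^ 3 + (-1 / 3) * z ^ 3 * l + (-1 / 3) * z ^ 3 * l ^ 2 + (-1) * z ^ 4 + (-4 / 3) * z ^ 4 * l + (-2 / 3) * z ^ 4 * l ^ 2 + (-1) * z ^ 5 + (-1 / 3) * z ^ 5 * l + (-1) * z ^ 5 * l ^ 2
noncomputable def bY3 (z l : ℂ) : ℂ := (-3) + (-2) * l + (-6) * z + (-4) * z * l + (-4) * z * l ^ 2 + (-6) * z ^ 2 + (-6) * z ^ 2 * l + (-4) * z ^ 2 * l ^ 2 + (-6) * z ^ 3 + (-6) * z ^ 3 * l + (-4) * z ^ 3 * l ^ 2 + (-6) * z ^ 4 + (-4) * z ^ 4 * l + (-4) * z ^ 4 * l ^ 2 + (-2) * z ^ 5 * l + (-2) * z ^ 5 * l ^ 2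

theorem b_Y0 (h1 : z ^ 6 + z ^ 3 + 1 = 0) (h2 : l ^ 3 = 1 - z ^ 3) :
    bY0 z l * (1 - z ^ 3 * z + l) = (2 * z ^ 3 + 1) * (l - 1 + z ^ 3 * z) := by
  unfold bY0
  linear_combination ((-4) + (4) * z + (-4) * z ^ 2 + (-2) * z ^ 5) * h2 + ((-6) + (2) * l + (2) * l ^ 2 + (4) * z + (-4) * z * l + (-4) * z ^ 2 + (4) * z ^ 2 * l + (6) * z ^ 3 + (-6) * z ^ 3 * l + (2) * z ^ 3 * l ^ 2) * h1

theorem b_X0 (h1 : z ^ 6 + z ^ 3 + 1 = 0) (h2 : l ^ 3 = 1 - z ^ 3) :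
    z ^ 3 * bX0 z l * (1 - z) * (1 - z ^ 3 * z + l) = l ^ 2 := by
  unfold bX0
  linear_combination ((-2 / 3) * z ^ 3 + (4 / 3) * z ^ 4 + (-5 / 3) * z ^ 5 + (2 / 3) * z ^ 6 + (2 / 3) * z ^ 7 + (-4 / 3) * z ^ 8 + z ^ 9) * h2 + ((-1) * l ^ 2 + (-2 / 3) * z ^ 3 + (1 / 3) * z ^ 3 * l + (2 / 3) * z ^ 3 * l ^ 2 + (4 / 3) * z ^ 4 + (-1) * z ^ 4 * l + (1 / 3) * z ^ 4 * l ^ 2 + (-2 / 3) * z ^ 5 + (2) * z ^ 5 * l + (-2 / 3) * z ^ 5 * l ^ 2 + (-2) * z ^ 6 * l + (4 / 3) * z ^ 6 * l ^ 2 + (2 / 3) * z ^ 7 * l + (-1) * z ^ 7 * l ^ 2) * h1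

theorem b_YL (h1 : z ^ 6 + z ^ 3 + 1 = 0) : bYL z * (1 + z) = (2 * z ^ 3 + 1) * (1 - z) := by
  unfold bYL
  linear_combination ((2)) * h1

theorem b_XL (h1 : z ^ 6 + z ^ 3 + 1 = 0) (h2 : l ^ 3 = 1 - z ^ 3) :
    bXL z * ((1 - z ^ 3) ^ 2 * bX0 z l ^ 2) = bX0 z l ^ 3 + 1 := by
  unfold bXL bX0
  linear_combination ((-5 / 27) + (2 / 3) * l + (-4 / 9) * l ^ 2 + (8 / 27) * l ^ 3 + (10 / 9) * z + (-22 / 9) * z * l + (16 / 9) * z * l ^ 2 + (-8 / 9) * z * l ^ 3 + (-7 / 9) * z ^ 2 + (13 / 3) * z ^ 2 * l + (-4) * z ^ 2 * l ^ 2 + (20 / 9) * z ^ 2 * l ^ 3 + (-74 / 27) * z ^ 3 + (-3) * z ^ 3 * l + (40 / 9) * z ^ 3 * l ^ 2 + (-68 / 27) * z ^ 3 * l ^ 3 + (103 / 9) * z ^ 4 + (-52 / 9) * z ^ 4 * l + (-1 / 9) * z ^ 4 * l ^ 2 + (2) * z ^ 4 * l ^ 3 + (-140 / 9) * z ^ 5 + (148 / 9) * z ^ 5 * l + (-28 / 3) * z ^ 5 * l ^ 2 + (2) * z ^ 5 * l ^ 3 + (202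 / 27) * z ^ 6 + (-188 / 9) * z ^ 6 * l + (52 / 3) * z ^ 6 * l ^ 2 + (-41 / 9) * z ^ 6 * l ^ 3 + (139 / 9) * z ^ 7 + (5) * z ^ 7 * l + (-46 / 3) * z ^ 7 * l ^ 2 + (7) * z ^ 7 * l ^ 3 + (-296 / 9) * z ^ 8 + (149 / 9) * z ^ 8 * l + (2) * z ^ 8 * l ^ 2 + (-8 / 3) * z ^ 8 * l ^ 3 + (761 / 27) * z ^ 9 + (-298 / 9) * z ^ 9 * l + (124 / 9) * z ^ 9 * l ^ 2 + (-14 / 27) * z ^ 9 * l ^ 3 + (-13 / 9) * z ^ 10 + (21) * z ^ 10 * l + (-172 / 9) * z ^ 10 * l ^ 2 + (50 / 9) * z ^ 10 * l ^ 3 + (-70 / 3) * z ^ 11 + (-4 / 3) * z ^ 11 * l + (12) * z ^ 11 * l ^ 2 + (-32 / 9) * z ^ 11 * l ^ 3 + (704 / 27) * z ^ 12 + (-53 / 3) * z ^ 12 * l + (-1 / 9) * z ^ 12 * l ^ 2 + (62 / 27) * z ^ 12 * l ^ 3 + (-112 / 9) * z ^ 13 + (127 / 9) * z ^ 13 * l + (-56 / 9) * z ^ 13 * l ^ 2 + (4 / 3) * z ^ 13 * l ^ 3 + (-31 / 9) * z ^ 14 + (-55 / 9) * z ^ 14 * l + (16 / 3)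 * z ^ 14 * l ^ 2 + (-1) * z ^ 14 * l ^ 3 + (239 / 27) * z ^ 15 + (-25 / 9) * z ^ 15 * l + (-2) * z ^ 15 * l ^ 2 + z ^ 15 * l ^ 3 + (-76 / 9) * z ^ 16 + (10 / 3) * z ^ 16 * l + (35 / 9) * z ^ 17 + (-20 / 9) * z ^ 17 * l + (-1 / 3) * z ^ 18 + (7 / 9) * z ^ 18 * l + (-8 / 3) * z ^ 19 + (7 / 9) * z ^ 19 * l + (28 / 9) * z ^ 20 + (-2 / 3) * z ^ 20 * l + (-4 / 3) * z ^ 21 + z ^ 21 * l) * h2 + ((-32 / 27) + (2 / 3) * l + (-1 / 3) * l ^ 2 + (10 / 9) * z + (-22 / 9) * z * l + (11 / 9) * z * l ^ 2 + (-7 / 9) * z ^ 2 + (5) * z ^ 2 * l + (-40 / 9) * z ^ 2 * l ^ 2 + (-37 / 27) * z ^ 3 + (-7) * z ^ 3 * l + (86 / 9) * z ^ 3 * l ^ 2 + (92 / 9) * z ^ 4 + (31 / 9) * z ^ 4 * l + (-40 / 3) * z ^ 4 * l ^ 2 + (-17) * z ^ 5 + (40 / 9) * z ^ 5 * l + (100 / 9) * z ^ 5 * l ^ 2 + (160 / 9) * z ^ 6 + (-128 / 9) * z ^ 6 * l + (-1 / 9) * z ^ 6 * l ^ 2 + (-40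 / 3) * z ^ 7 + (142 / 9) * z ^ 7 * l + (-31 / 3) * z ^ 7 * l ^ 2 + (58 / 9) * z ^ 8 + (-38 / 3) * z ^ 8 * l + (46 / 3) * z ^ 8 * l ^ 2 + (-73 / 27) * z ^ 9 + (23 / 3) * z ^ 9 * l + (-10) * z ^ 9 * l ^ 2 + (-52 / 9) * z ^ 10 + (-20 / 9) * z ^ 10 * l + (46 / 9) * z ^ 10 * l ^ 2 + (100 / 9) * z ^ 11 + (-11 / 3) * z ^ 11 * l + (-2 / 9) * z ^ 11 * l ^ 2 + (-275 / 27) * z ^ 12 + (26 / 3) * z ^ 12 * l + (-32 / 9) * z ^ 12 * l ^ 2 + (37 / 9) * z ^ 13 + (-52 / 9) * z ^ 13 * l + (16 / 3) * z ^ 13 * l ^ 2 + (7 / 3) * z ^ 14 + (20 / 9) * z ^ 14 * l + (-34 / 9) * z ^ 14 * l ^ 2 + (-7 / 3) * z ^ 15 + (11 / 9) * z ^ 15 * l + (4 / 9) * z ^ 15 * l ^ 2 + (8 / 3) * z ^ 16 + (-7 / 9) * z ^ 16 * l + (-28 / 9) * z ^ 17 + (2 / 3) * z ^ 17 * l + (4 / 3) * z ^ 18 + (-1) * z ^ 18 * l) * h1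

theorem b_M (h1 : z ^ 6 + z ^ 3 + 1 = 0) (h2 : l ^ 3 = 1 - z ^ 3) :
    bM z l * (z ^ 3 * bX0 z l - (z ^ 3) ^ 2 * bXL z) = bY0 z l - bYL z := by
  unfold bM bX0 bXL bY0 bYL
  linear_combination ((-2 / 9) * z ^ 3 + (4 / 9) * z ^ 3 * l + (8 / 9) * z ^ 4 + (-4 / 9) * z ^ 4 * l + (-10 / 9) * z ^ 5 + (2 / 3) * z ^ 5 * l + (8 / 9) * z ^ 6 + (-2 / 9) * z ^ 6 * l + (-4 / 9) * z ^ 7 + (2 / 9) * z ^ 7 * l + (-10 / 9) * z ^ 8 + (14 / 9) * z ^ 9 + (-2 / 9) * z ^ 9 * l + (-28 / 9) * z ^ 10 + (2 / 9) * z ^ 10 * l + (2 / 9) * z ^ 11 + (-2 / 3) * z ^ 11 * l + (-2 / 9) * z ^ 12 + (-4 / 3) * z ^ 13) * h2 + ((6) + (-6) * l + (4) * l ^ 2 + (-4) * z + (4) * z * l + (-4) * z * l ^ 2 + (4) * z ^ 2 + (-4) * z ^ 2 * l + (4) * z ^ 2 * l ^ 2 + (-2 / 9) * z ^ 3 + (20 / 9) * z ^ 3 * l + (-32 / 9) * z ^ 3 * l ^ 2 + (-28 / 9) * z ^ 4 + (4 / 9) * z ^ 4 * l +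 (22 / 9) * z ^ 4 * l ^ 2 + (20 / 9) * z ^ 5 + (-8 / 3) * z ^ 5 * l + (-2) * z ^ 6 + (28 / 9) * z ^ 6 * l + (-16 / 9) * z ^ 6 * l ^ 2 + (10 / 9) * z ^ 7 + (-4 / 9) * z ^ 7 * l + (2 / 9) * z ^ 7 * l ^ 2 + (-8 / 9) * z ^ 8 + (2 / 3) * z ^ 8 * l + (-2 / 3) * z ^ 8 * l ^ 2 + (-4 / 9) * z ^ 9 + (-2 / 3) * z ^ 9 * l + (2 / 3) * z ^ 10 + (-4 / 3) * z ^ 10 * l) * h1

theorem b_X3 (h1 : z ^ 6 + z ^ 3 + 1 = 0) (h2 : l ^ 3 = 1 - z ^ 3) :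
    bM z l ^ 2 / 4 - z ^ 3 * bX0 z l - (z ^ 3) ^ 2 * bXL z = bX3 z l := by
  unfold bM bX0 bXL bX3
  linear_combination ((1 / 9) * l + (2 / 9) * z + (-2 / 9) * z ^ 2 + (-2 / 9) * z ^ 3 * l + (-4 / 9) * z ^ 4 + (-2 / 9) * z ^ 5 + (1 / 9) * z ^ 6 * l + (2 / 9) * z ^ 7 + (4 / 9) * z ^ 8) * h2 + ((1 / 9) + (-2 / 9) * l + (-1 / 9) * l ^ 2 + (7 / 9) * z + (8 / 9) * z * l + (-1 / 9) * z * l ^ 2 + (13 / 9) * z ^ 2 + (4 / 3) * z ^ 2 * l ^ 2 + (2 / 9) * z ^ 3 + (5 / 9) * z ^ 3 * l + (4 / 9) * z ^ 3 * l ^ 2 + (-1 / 9) * z ^ 4 + (4 / 9) * z ^ 4 * l + (4 / 9) * z ^ 4 * l ^ 2 + (-13 / 9) * z ^ 5) * h1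

theorem b_Y3 (h1 : z ^ 6 + z ^ 3 + 1 = 0) (h2 : l ^ 3 = 1 - z ^ 3) :
    -(bY0 z l + bM z l * (bX3 z l - z ^ 3 * bX0 z l)) = bY3 z l := by
  unfold bY0 bM bX3 bX0 bY3
  linear_combination (-1 : ℂ) * (((-2 / 9) + (-2 / 9) * l + (2 / 9) * z + (2 / 9) * z * l + (8 / 9) * z ^ 2 + (2 / 3) * z ^ 2 * l + (10 / 9) * z ^ 3 + (-2 / 3) * z ^ 4 + (2 / 3) * z ^ 4 * l + (4 / 3) * z ^ 5 + (-2 / 3) * z ^ 5 * l + (-2) * z ^ 6 + (-8 / 3) * z ^ 7 + (-2 / 3) * z ^ 7 * l + (-2 / 3) * z ^ 8 * l + (-28 / 9) * z ^ 9 + (2 / 9) * z ^ 9 * l + (16 / 9) * z ^ 10 + (-2 / 9) * z ^ 10 * l + (-2 / 9) * z ^ 11 + (2 / 3) * z ^ 11 * l + (2 / 9) * z ^ 12 + (4 / 3) * z ^ 13) * h2 + ((-56 / 9) + (32 / 9) * l + (-38 / 9) * l ^ 2 + (-46 / 9) * z + (-62 / 9) * z * l + (10 / 9) * z * l ^ 2 + (-52 / 9) * z ^ 2 + (-4 / 3) * z ^ 2 * l + (-20 / 3) * z ^ 2 * l ^ 2 + (-40 / 9)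 * z ^ 3 + (-46 / 9) * z ^ 3 * l + (-2 / 9) * z ^ 3 * l ^ 2 + (32 / 9) * z ^ 4 + (-8 / 9) * z ^ 4 * l + (-26 / 9) * z ^ 4 * l ^ 2 + (-4 / 9) * z ^ 5 + (8 / 3) * z ^ 5 * l + (2 / 3) * z ^ 5 * l ^ 2 + (26 / 9) * z ^ 6 + (-10 / 9) * z ^ 6 * l + (16 / 9) * z ^ 6 * l ^ 2 + (8 / 9) * z ^ 7 + (-2 / 9) * z ^ 7 * l + (-2 / 9) * z ^ 7 * l ^ 2 + (2 / 9) * z ^ 8 + (-2 / 3) * z ^ 8 * l + (-2 / 9) * z ^ 9 + (-4 / 3) * z ^ 10) * h1)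

theorem b_F1 (h1 : z ^ 6 + z ^ 3 + 1 = 0) (h2 : l ^ 3 = 1 - z ^ 3) :
    ((2 * z ^ 3 + 1) - bY3 z l) * ((z ^ 3) ^ 2 * l) = (1 - (z ^ 3) ^ 2 * z) * ((2 * z ^ 3 + 1) + bY3 z l) := by
  unfold bY3
  linear_combination ((4) * z ^ 7 + (4) * z ^ 8 + (4) * z ^ 9 + (4) * z ^ 10 + (2) * z ^ 11) * h2 + ((2) + (2) * l + (6) * z + (4) * z * l + (4) * z * l ^ 2 + (6) * z ^ 2 + (6) * z ^ 2 * l + (4) * z ^ 2 * l ^ 2 + (2) * z ^ 3 + (4) * z ^ 3 * l + (4) * z ^ 3 * l ^ 2 + (-6) * z ^ 5 + (-4) * z ^ 5 * l + (-2) * z ^ 5 * l ^ 2 + (-4) * z ^ 6 + (-2) * z ^ 6 * l + (-2) * z ^ 6 * l ^ 2 + (-4) * z ^ 7 + (-2) * z ^ 8) * h1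

theorem b_F2 (h1 : z ^ 6 + z ^ 3 + 1 = 0) (h2 : l ^ 3 = 1 - z ^ 3) :
    2 * (2 * z ^ 3 + 1) * z ^ 3 * bX3 z l * (1 - z ^ 3 * z) = (z ^ 3) ^ 2 * l * ((2 * z ^ 3 + 1) + bY3 z l) := by
  unfold bY3 bX3
  linear_combination ((4) * z ^ 7 + (4) * z ^ 8 + (4) * z ^ 9 + (4) * z ^ 10 + (2) * z ^ 11) * h2 + ((2 / 3) * z ^ 3 * l + (2 / 3) * z ^ 3 * l ^ 2 + (-2) * z ^ 4 + (-4 / 3) * z ^ 4 * l + (-2 / 3) * z ^ 4 * l ^ 2 + (-2) * z ^ 5 + (-4 / 3) * z ^ 5 * l + (-2) * z ^ 5 * l ^ 2 + (-2) * z ^ 6 + (2) * z ^ 6 * l + (2) * z ^ 6 * l ^ 2 + (4 / 3) * z ^ 7 * l + (4 / 3) * z ^ 7 * l ^ 2 + (2) * z ^ 8 + (16 / 3) * z ^ 8 * l + (8 / 3) * z ^ 8 * l ^ 2 + (4) * z ^ 9 + (4 / 3) * z ^ 9 * l + (4) * z ^ 9 * l ^ 2) * h1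

end alg

/-! ## points -/

theorem b_th : th = 1 + 2 * w := by
  unfold th
  linear_combination (-1 : ℂ) * CUL.w2

theorem b_th_ne : th ≠ 0 := by
  intro h
  have h1 := th_sq
  rw [h] at h1
  norm_num at h1

/-- points which are not killed by `λ²` -/
def Gd (z : ℂ) : Prop := Nl (emb la * (emb la * z))

theorem Gd.nl1 {z : ℂ} (h : Gd z) : Nl (emb la * z) := CUL.nl_of_mul la h

theorem Gd.nl0 {z : ℂ} (h : Gd z) : Nl z := CUL.nl_of_mul la h.nl1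

theorem Gd.x_ne {z : ℂ} (h : Gd z) : xw z ≠ 0 := by
  rcases CUL.u4_la_cases z with ⟨-, h1⟩ | ⟨-, h1, -⟩
  · exact absurd h1 h.nl1
  · exact h1

theorem Gd.x3_ne {z : ℂ} (h : Gd z) : xw z ^ 3 + 1 ≠ 0 := by
  intro h0
  rcases CUL.u4_la_cases (emb la * z) with ⟨-, h1⟩ | ⟨-, h1, -⟩
  · exact absurd h1 h
  · apply h1
    rw [CUL.xw_la, h0, zero_div]

theorem Gd.y_ne {z : ℂ} (h : Gd z) : th + yw z ≠ 0 ∧ th - yw z ≠ 0 := by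
  have h1 := weq z h.nl0
  have h2 := th_sq
  have e : (th + yw z) * (th - yw z) = -4 * (xw z ^ 3 + 1) := by
    linear_combination h2 - h1
  have h3 : (th + yw z) * (th - yw z) ≠ 0 := by
    rw [e]
    exact mul_ne_zero (by norm_num) h.x3_ne
  exact ⟨left_ne_zero_of_mul h3, right_ne_zero_of_mul h3⟩

theorem b_U {z : ℂ} (h : th + yw z ≠ 0) : Um z * (th + yw z) = th - yw z := by
  unfold Um ym
  rw [sub_neg_eq_add, ← sub_eq_add_neg, div_mul_cancel₀ _ h]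

theorem b_X {z : ℂ} (h : th + yw z ≠ 0) : xm z * (1 + Um z) * (th + yw z) = 2 * th * w * xw z := by
  have h1 := b_U h
  unfold xm
  linear_combination (w * xw z) * h1

theorem Gd.U_ne {z : ℂ} (h : Gd z) : Um z ≠ 0 := by
  intro h0
  have h1 := b_U h.y_ne.1
  rw [h0, zero_mul] at h1
  exact h.y_ne.2 h1.symm

theorem Gd.of_add {z t : ℂ} (h : Gd z) (a : Eis) (ha : emb la * (emb la * t) = emb a) : Gd (z + t) := by
  unfold Gd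
  rw [mul_add, mul_add, ha]
  exact Nl.add_emb h a

/-- translation by `ta` -/
theorem b_ta {z : ℂ} (h : Gd z) : Gd (z + ta) ∧ Um (z + ta) = w * Um z ∧
    xm (z + ta) * (1 + Um (z + ta)) = w ^ 2 * (xm z * (1 + Um z)) := by
  have hg : Gd (z + ta) := h.of_add la (by rw [CUL.la_ta, mul_one])
  have hm : Gd (z + -ta) := h.of_add (-la) (by rw [mul_neg, CUL.la_ta, map_neg, mul_neg, mul_one])
  have h0 := v4c_z
  have hth := b_th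
  obtain ⟨a1, a2, a3⟩ := JX.p1_add h.nl0 hg.nl0 (by rw [sub_eq_add_neg]; exact hm.nl0)
  rw [yw_ta] at a1 a2 a3
  have hU := b_U h.y_ne.1
  have hU' := b_U hg.y_ne.1
  have hX := b_X h.y_ne.1
  have hX' := b_X hg.y_ne.1
  have n1 := h.y_ne.1
  have n2 := hg.y_ne.1
  rw [hth] at hU hU' hX hX' n1 n2
  generalize yw (z + ta) = y' at *
  generalize xw (z + ta) = x' at *
  generalize yw z = y at *
  generalize xw z = x at *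
  have e1 : (1 + 2 * w - y') * (1 + 2 * w + y) = w * (1 + 2 * w - y) * (1 + 2 * w + y') := by
    apply mul_right_cancel₀ a1
    linear_combination (-(1 + 2 * w + y) - w * (1 + 2 * w - y)) * a3 + ((2) + (4) * y + (2) * y ^ 2 + (4) * w + (-4) * w * y) * h0
  have e2 : x' * (1 + 2 * w + y) = w ^ 2 * x * (1 + 2 * w + y') := by
    apply mul_right_cancel₀ a1
    linear_combination (1 + 2 * w + y) * a2 - (w ^ 2 * x) * a3 + (x * ((2) + (2) * y + (2) * w + (-2) * w * y)) * h0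
  refine ⟨hg, ?_, ?_⟩
  · apply mul_right_cancel₀ (mul_ne_zero n1 n2)
    linear_combination (1 + 2 * w + y) * hU' - (w * (1 + 2 * w + y')) * hU + e1
  · apply mul_right_cancel₀ (mul_ne_zero n1 n2)
    linear_combination (1 + 2 * w + y) * hX' - (w ^ 2 * (1 + 2 * w + y')) * hX + (2 * (1 + 2 * w) * w) * e2

/-- multiplication by `λ` -/
theorem b_la {z : ℂ} (h : Gd z) (hn : th + yw (emb la * z) ≠ 0) :
    Um z ^ 3 * (1 + w * Um (emb la * z)) = Um (emb la * z) + w := by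
  have h0 := v4c_z
  have hth := b_th
  have hU := b_U h.y_ne.1
  have hU' := b_U hn
  have n1 := h.y_ne.1
  have hx := h.x_ne
  have hw := weq z h.nl0
  have h3 := CUL.yw_la z
  rw [eq_div_iff (mul_ne_zero (pow_ne_zero 3 CUL.la_ne) (pow_ne_zero 3 hx)), CUL.la_cube] at h3
  have e0 : w - w ^ 2 = 1 + 2 * w := by linear_combination (-1 : ℂ) * CUL.w2
  rw [e0] at h3
  rw [hth] at hU hU' n1 hn
  generalize yw (emb la * z) = y' at *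
  generalize xw z = x at *
  generalize yw z = y at *
  generalize Um z = U at *
  generalize Um (emb la * z) = U' at *
  have hy : y' * (-3 * (1 + 2 * w) * (y ^ 2 - 1)) = y * (y ^ 2 - 9) := by
    linear_combination 4 * h3 + (-3 * (1 + 2 * w) * y' - y) * hw
  have hq : (-3 * (1 + 2 * w) * (y ^ 2 - 1) : ℂ) ≠ 0 := by
    have e : (-3 * (1 + 2 * w) * (y ^ 2 - 1) : ℂ) = (-3 * (1 + 2 * w)) * (4 * x ^ 3) := by
      linear_combination (-3 * (1 + 2 * w)) * hw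
    rw [e]
    have : (1 + 2 * w : ℂ) ≠ 0 := by
      rw [← hth]
      exact b_th_ne
    exact mul_ne_zero (mul_ne_zero (by norm_num) this) (mul_ne_zero (by norm_num) (pow_ne_zero 3 hx))
  have e1 : (1 + 2 * w - y) ^ 3 * ((1 + 2 * w + y') + w * (1 + 2 * w - y')) =
      (1 + 2 * w + y) ^ 3 * ((1 + 2 * w - y') + w * (1 + 2 * w + y')) := by
    apply mul_right_cancel₀ hq
    linear_combination ((1 + 2 * w - y) ^ 3 * (1 - w) + (1 + 2 * w + y) ^ 3 * (1 - w)) * hy + ((-36) * y + (-40) * y ^ 3 + (12) * y ^ 5 + (-216) * w * y + (128) * w * y ^ 3 + (24) * w * y ^ 5 + (-432) * w ^ 2 * y + (560) * w ^ 2 * y ^ 3 + (-288) * w ^ 3 * y + (288) * w ^ 3 * y ^ 3) * h0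
  apply mul_right_cancel₀ (mul_ne_zero (pow_ne_zero 3 n1) hn)
  have hU3 : U ^ 3 * (1 + 2 * w + y) ^ 3 = (1 + 2 * w - y) ^ 3 := by
    rw [← mul_pow, hU]
  linear_combination ((1 + 2 * w + y') * (1 + w * U')) * hU3 + (w * (1 + 2 * w - y) ^ 3 - (1 + 2 * w + y) ^ 3) * hU' + e1

/-- the cube of `X` -/
theorem b_X3' {z : ℂ} (h : Gd z) : (xm z * (1 + Um z)) ^ 3 = -(1 + Um z ^ 3) := by
  have h0 := v4c_z
  have hth := b_th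
  have hw3 := CUL.w3
  have hU := b_U h.y_ne.1
  have hX := b_X h.y_ne.1
  have n1 := h.y_ne.1
  have hw := weq z h.nl0
  rw [hth] at hU hX n1
  generalize xm z * (1 + Um z) = X at *
  generalize Um z = U at *
  generalize xw z = x at *
  generalize yw z = y at *
  apply mul_right_cancel₀ (pow_ne_zero 3 n1)
  have hU3 : U ^ 3 * (1 + 2 * w + y) ^ 3 = (1 + 2 * w - y) ^ 3 := by
    rw [← mul_pow, hU]
  have hX3 : X ^ 3 * (1 + 2 * w + y) ^ 3 = 2 * (1 + 2 * w) ^ 3 * (y ^ 2 - 1) := by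
    rw [← mul_pow, hX]
    linear_combination (8 * (1 + 2 * w) ^ 3 * x ^ 3) * hw3 - (2 * (1 + 2 * w) ^ 3) * hw
  linear_combination hX3 + hU3 + ((8) * y ^ 2 + (16) * w * y ^ 2) * h0

theorem b_Um_add (z : ℂ) (a : Eis) : Um (z + emb a) = Um z ∧ xm (z + emb a) = xm z := by
  unfold Um ym xm
  rw [yw_add, xw_add]
  exact ⟨rfl, rfl⟩

theorem Gd.add_emb {z : ℂ} (h : Gd z) (a : Eis) : Gd (z + emb a) :=
  h.of_add (la * (la * a)) (by rw [map_mul, map_mul])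

theorem Gd.of_la {z : ℂ} (h : Gd (emb la * z)) : Gd z := CUL.nl_of_mul la h

/-- the coordinates of a point -/
def PQ (ρ ζ ℓ z : ℂ) : Prop :=
  Gd (emb la * z) ∧ Um (emb la * z) = ζ ∧ Um z * ℓ = 1 - w * ζ ∧ xm z * (1 + Um z) * (1 - ζ) = ρ * ℓ

theorem PQ.add_emb {ρ ζ ℓ z : ℂ} (h : PQ ρ ζ ℓ z) (a : Eis) : PQ ρ ζ ℓ (z + emb a) := by
  obtain ⟨h1, h2, h3, h4⟩ := h
  have e : emb la * (z + emb a) = emb la * z + emb (la * a) := by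
    rw [map_mul]
    ring
  unfold PQ
  rw [e, (b_Um_add _ _).1, (b_Um_add _ _).1, (b_Um_add _ _).2]
  exact ⟨h1.add_emb _, h2, h3, h4⟩

theorem PQ.add_ta {ρ ζ ℓ z : ℂ} (h : PQ ρ ζ ℓ z) : PQ ρ ζ (w ^ 2 * ℓ) (z + ta) := by
  obtain ⟨h1, h2, h3, h4⟩ := h
  obtain ⟨g1, g2, g3⟩ := b_ta h1.of_la
  have hw3 := CUL.w3
  have e : emb la * (z + ta) = emb la * z + emb 1 := by
    rw [mul_add, CUL.la_ta, map_one]
  refine ⟨?_, ?_, ?_, ?_⟩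
  · rw [e]
    exact h1.add_emb _
  · rw [e, (b_Um_add _ _).1]
    exact h2
  · rw [g2]
    linear_combination h3 + (Um z * ℓ) * hw3
  · rw [g3]
    linear_combination (w ^ 2) * h4

theorem PQ.dbl {ρ ζ ℓ z : ℂ} (h : PQ ρ ζ ℓ z) (hζ : ζ ^ 3 = w) (hl : ℓ ^ 3 = 1 - w) (hρ : ρ ^ 3 = 1) {a : Eis}
    (ha : emb la * (-2 * z) = emb la * z + ta + emb a) : PQ ρ (w * ζ) (w ^ 2 * ℓ) (-2 * z) := by
  obtain ⟨h1, h2, h3, h4⟩ := h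
  have hg : Gd z := h1.of_la
  have h0 := v4c_z
  have hth := b_th
  have hthn := b_th_ne
  obtain ⟨c1, c2, c3⟩ := b_ta h1
  have k1 : Gd (emb la * (-2 * z)) := by
    rw [ha]
    exact c1.add_emb _
  have k2 : Um (emb la * (-2 * z)) = w * ζ := by
    rw [ha, (b_Um_add _ _).1, c2, h2]
  have hg2 : Gd (-2 * z) := k1.of_la
  -- nonvanishing
  obtain ⟨q1, q2, -⟩ := v4c_ne hζ
  have q3 : 1 + ζ ≠ 0 := by
    intro h
    have e : ζ = -1 := by linear_combination h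
    rw [e] at hζ
    rw [← hζ] at h0
    norm_num at h0
  have hl0 : ℓ ≠ 0 := by
    intro h
    rw [h] at hl
    apply v4c_w1
    linear_combination hl
  have hρ0 : ρ ≠ 0 := by
    intro h
    rw [h] at hρ
    norm_num at hρ
  -- the coordinates of z
  have U1 := b_U hg.y_ne.1
  have X1 := b_X hg.y_ne.1
  have hyD : yw z * (1 - w * ζ + ℓ) = th * (ℓ - 1 + w * ζ) := by
    linear_combination ℓ * U1 - (th + yw z) * h3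
  have hD : 1 - w * ζ + ℓ ≠ 0 := by
    intro hD
    rw [hD, mul_zero] at hyD
    have e : ℓ - 1 + w * ζ = 0 := by
      rcases mul_eq_zero.1 hyD.symm with h | h
      · exact absurd h hthn
      · exact h
    apply hl0
    linear_combination (1 / 2 : ℂ) * hD + (1 / 2 : ℂ) * e
  have hxD : w * xw z * (1 - ζ) * (1 - w * ζ + ℓ) = ρ * ℓ ^ 2 := by
    apply mul_left_cancel₀ (mul_ne_zero two_ne_zero hthn)
    have e : (th + yw z) * (1 - w * ζ + ℓ) = 2 * th * ℓ := by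
      linear_combination hyD
    linear_combination (-(1 - ζ) * (1 - w * ζ + ℓ)) * X1 + ((th + yw z) * (1 - w * ζ + ℓ)) * h4 + (ρ * ℓ) * e
  -- the relations
  have r1 : ζ ^ 6 + ζ ^ 3 + 1 = 0 := by
    have e : ζ ^ 6 = (ζ ^ 3) ^ 2 := by ring
    rw [e, hζ]
    exact h0
  have r2 : ℓ ^ 3 = 1 - ζ ^ 3 := by
    rw [hζ]
    exact hl
  have g1 := b_Y0 r1 r2
  have g2 := b_X0 r1 r2
  have g3 := b_YL r1
  have g4 := b_XL r1 r2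
  have g5 := b_M r1 r2
  have g6 := b_X3 r1 r2
  have g7 := b_Y3 r1 r2
  have g8 := b_F1 r1 r2
  have g9 := b_F2 r1 r2
  rw [hζ] at g1 g2 g3 g4 g5 g6 g7 g8 g9
  have hth2 : 2 * w + 1 = th := by
    rw [hth]
    ring
  rw [hth2] at g1 g3 g8 g9
  have hy : yw z = bY0 ζ ℓ := by
    apply mul_right_cancel₀ hD
    rw [hyD, g1]
  have hx : xw z = ρ * bX0 ζ ℓ := by
    apply mul_left_cancel₀ v4c_w0
    apply mul_right_cancel₀ (mul_ne_zero q1 hD)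
    linear_combination hxD - ρ * g2
  have hX0 : bX0 ζ ℓ ≠ 0 := by
    intro h
    apply hg.x_ne
    rw [hx, h, mul_zero]
  -- the coordinates of la z
  have U2 := b_U h1.y_ne.1
  rw [h2] at U2
  have hy' : yw (emb la * z) = bYL ζ := by
    apply mul_right_cancel₀ q3
    linear_combination U2 - g3
  have hx' : xw (emb la * z) = ρ * bXL ζ := by
    have e := CUL.xw_la z
    rw [eq_div_iff (mul_ne_zero (pow_ne_zero 2 CUL.la_ne) (pow_ne_zero 2 hg.x_ne)), CUL.emb_la, hx] at e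
    rw [CUL.emb_la]
    have hne : ρ ^ 2 * ((1 - w) ^ 2 * bX0 ζ ℓ ^ 2) ≠ 0 := by
      refine mul_ne_zero (pow_ne_zero 2 hρ0) (mul_ne_zero (pow_ne_zero 2 ?_) (pow_ne_zero 2 hX0))
      intro h
      apply v4c_w1
      linear_combination -h
    apply mul_right_cancel₀ hne
    linear_combination e - ρ ^ 3 * g4 + (-1 : ℂ) * hρ
  -- the addition
  have e1 : w * z + w * (w * (emb la * z)) = -2 * z := by
    rw [CUL.emb_la]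
    linear_combination (z * (2 - w)) * h0
  have n1 : Nl (w * z) := hg.nl0.w_mul
  have n2 : Nl (w * (w * (emb la * z))) := h1.nl0.w_mul.w_mul
  have n3 : Nl (w * z + w * (w * (emb la * z))) := by
    rw [e1]
    exact hg2.nl0
  have n4 : xw (w * z) ≠ xw (w * (w * (emb la * z))) := by
    intro h
    rcases (xw_eq_iff _ _ n1 n2).1 h with h5 | h5
    · have e2 : w * z - w * (w * (emb la * z)) = w * (w * (-2 * z)) := by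
        rw [CUL.emb_la]
        linear_combination (z * w) * h0
      rw [e2] at h5
      exact hg2.nl0.w_mul.w_mul h5
    · exact n3 h5
  have hs := CUL.xw_sum n1 n2 n3 n4
  have ht := CUL.yw_sum n1 n2 n3 n4
  have n5 : w * xw z - w * (w * xw (emb la * z)) ≠ 0 := by
    rw [xw_w, xw_w, xw_w] at n4
    exact sub_ne_zero.2 n4
  rw [e1, xw_w, xw_w, xw_w, yw_w, yw_w, yw_w] at hs ht
  have hm : (yw z - yw (emb la * z)) / (w * xw z - w * (w * xw (emb la * z))) = bM ζ ℓ * ρ ^ 2 := by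
    rw [div_eq_iff n5, hx, hx', hy, hy']
    linear_combination (-1 : ℂ) * g5 - (bM ζ ℓ * (w * bX0 ζ ℓ - w ^ 2 * bXL ζ)) * hρ
  rw [hm] at hs ht
  have hx3 : xw (-2 * z) = ρ * bX3 ζ ℓ := by
    rw [hs, hx, hx']
    linear_combination ρ * g6 + (bM ζ ℓ ^ 2 / 4 * ρ) * hρ
  have hy3 : yw (-2 * z) = bY3 ζ ℓ := by
    rw [ht, hx3, hx, hy]
    linear_combination g7 - (bM ζ ℓ * (bX3 ζ ℓ - w * bX0 ζ ℓ)) * hρ
  have U3 := b_U hg2.y_ne.1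
  have X3 := b_X hg2.y_ne.1
  have n6 := hg2.y_ne.1
  rw [hy3] at U3 X3 n6
  rw [hx3] at X3
  refine ⟨k1, k2, ?_, ?_⟩
  · apply mul_right_cancel₀ n6
    linear_combination (w ^ 2 * ℓ) * U3 + g8
  · apply mul_right_cancel₀ n6
    linear_combination (1 - w * ζ) * X3 + ρ * g9

theorem b_base : ∃ ρ ζ ℓ : ℂ, ρ ^ 3 = 1 ∧ ζ ^ 3 = w ∧ ℓ ^ 3 = 1 - w ∧ PQ ρ ζ ℓ (1 / 9) := by
  have h0 := v4c_z
  have hw3 := CUL.w3
  have hsi : emb la * (emb la * (1 / 9)) = w * (w * si) := by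
    have h2 := CUL.la_sq
    have h4 : emb la * (emb la * si) = 1 := by rw [CUL.la_si, CUL.la_ta]
    have h5 : (-3 * w) * si = 1 := by
      rw [← h4, ← h2]
      ring
    have h6 : si = -(w ^ 2) / 3 := by
      linear_combination (-(w ^ 2) / 3) * h5 + (-si) * hw3
    rw [h6]
    linear_combination (1 / 9 : ℂ) * h2 + (-(w / 3)) * hw3 * (-1)
  have G1 : Gd (emb la * (1 / 9)) := by
    unfold Gd
    rw [hsi]
    have e : emb la * (w * (w * si)) = w * (w * ta) := by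
      rw [← CUL.la_si]
      ring
    rw [e]
    exact CUL.nl_ta.w_mul.w_mul
  have G0 : Gd (1 / 9) := G1.of_la
  have hys : yw (emb la * (emb la * (1 / 9))) = th := by
    rw [hsi, yw_w, yw_w]
    have h := ym_si
    unfold ym at h
    linear_combination (-1 : ℂ) * h
  have hthn := b_th_ne
  have hn : th + yw (emb la * (emb la * (1 / 9))) ≠ 0 := by
    rw [hys, ← two_mul]
    exact mul_ne_zero two_ne_zero hthn
  have hU0 : Um (emb la * (emb la * (1 / 9))) = 0 := by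
    unfold Um ym
    rw [hys, add_neg_cancel, zero_div]
  have hz := b_la G1 hn
  rw [hU0, mul_zero, add_zero, mul_one, zero_add] at hz
  have hl := b_la G0 G1.y_ne.1
  have hX := b_X3' G0
  have hUn := G0.U_ne
  refine ⟨xm (1 / 9) * (1 + Um (1 / 9)) * (1 - Um (emb la * (1 / 9))) / ((1 - w * Um (emb la * (1 / 9))) / Um (1 / 9)),
    Um (emb la * (1 / 9)), (1 - w * Um (emb la * (1 / 9))) / Um (1 / 9), ?_, hz, ?_, G1, rfl, ?_, ?_⟩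
  · obtain ⟨q1, q2, q3⟩ := v4c_ne hz
    generalize Um (emb la * (1 / 9)) = ζ at *
    generalize xm (1 / 9) * (1 + Um (1 / 9)) = X at *
    generalize Um (1 / 9) = U at *
    have h1w : (1 - w : ℂ) ≠ 0 := by
      intro h
      apply v4c_w1
      linear_combination -h
    rw [div_pow, div_pow, div_eq_one_iff_eq (div_ne_zero (pow_ne_zero 3 q2) (pow_ne_zero 3 hUn)), eq_div_iff (pow_ne_zero 3 hUn), mul_pow, hX]
    -- -(1 + U^3) (1 - ζ)^3 U^3 = (1 - w ζ)^3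
    apply mul_right_cancel₀ (mul_ne_zero q3 q3)
    have k1 : (1 - w * ζ) ^ 3 * (1 + w * ζ) = (1 - w) * (ζ + w) := by
      linear_combination ((2) * w ^ 3 + (-1) * w ^ 4 * ζ) * hz + ((1) + (-1) * ζ + (-2) * w + (2) * w ^ 2 + w ^ 2 * ζ + (-1) * w ^ 3 * ζ) * h0
    have k2 : w ^ 2 * (1 + ζ) * (1 - ζ) ^ 3 = (1 + w * ζ) * (1 - w) := by
      linear_combination ((2) * w ^ 2 + (-1) * w ^ 2 * ζ) * hz + ((-1) + (2) * w + (-1) * w * ζ) * h0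
    have k3 : (1 + U ^ 3) * (1 + w * ζ) = -(w ^ 2 * (1 + ζ)) := by
      linear_combination hl + (1 + ζ) * h0
    linear_combination (-(1 - ζ) ^ 3 * (U ^ 3 * (1 + w * ζ))) * k3 + (w ^ 2 * (1 + ζ) * (1 - ζ) ^ 3) * hl + (ζ + w) * k2 - (1 + w * ζ) * k1
  · obtain ⟨q1, q2, q3⟩ := v4c_ne hz
    generalize Um (emb la * (1 / 9)) = ζ at *
    generalize Um (1 / 9) = U at *
    rw [div_pow, div_eq_iff (pow_ne_zero 3 hUn)]
    apply mul_right_cancel₀ q3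
    have k1 : (1 - w * ζ) ^ 3 * (1 + w * ζ) = (1 - w) * (ζ + w) := by
      linear_combination ((2) * w ^ 3 + (-1) * w ^ 4 * ζ) * hz + ((1) + (-1) * ζ + (-2) * w + (2) * w ^ 2 + w ^ 2 * ζ + (-1) * w ^ 3 * ζ) * h0
    linear_combination k1 - (1 - w) * hl
  · rw [mul_div_cancel₀ _ hUn]
  · rw [div_mul_cancel₀]
    exact div_ne_zero (v4c_ne hz).2.1 hUn

theorem b_ta9 : ta = (2 + w) / 3 := by
  have h1 := CUL.three_ta
  rw [map_add, map_ofNat, CUL.emb_om] at h1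
  linear_combination (1 / 3 : ℂ) * h1

theorem b_pts : ∃ ρ ζ ℓ : ℂ, ρ ^ 3 = 1 ∧ ζ ^ 3 = w ∧ ℓ ^ 3 = 1 - w ∧
    ∀ b ∈ W9, PQ ρ (ζ * zw (-mn b)) (ℓ * zw (mo b)) (emb b / 9) := by
  obtain ⟨ρ, ζ, ℓ, hρ, hζ, hl, p0⟩ := b_base
  refine ⟨ρ, ζ, ℓ, hρ, hζ, hl, ?_⟩
  have h0 := v4c_z
  have hw3 := CUL.w3
  have hta := b_ta9
  have p1 : PQ ρ (w * ζ) (w ^ 2 * ℓ) (-2 * (1 / 9)) := by
    refine p0.dbl hζ hl hρ (a := -1) ?_
    rw [hta, CUL.emb_la, map_neg, map_one]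
    ring
  have hζ1 : (w * ζ) ^ 3 = w := by
    rw [mul_pow, hw3, one_mul, hζ]
  have hl1 : (w ^ 2 * ℓ) ^ 3 = 1 - w := by
    rw [mul_pow, ← pow_mul, mul_comm 2 3, pow_mul, hw3, one_pow, one_mul, hl]
  have p2 : PQ ρ (w * (w * ζ)) (w ^ 2 * (w ^ 2 * ℓ)) (-2 * (-2 * (1 / 9))) := by
    refine p1.dbl hζ1 hl1 hρ (a := -CU.om) ?_
    rw [hta, CUL.emb_la, map_neg, CUL.emb_om]
    ring
  have tr : ∀ {ζ' ℓ' z : ℂ} (b : Eis) (a : Eis), PQ ρ ζ' ℓ' z → ζ * zw (-mn b) = ζ' → ℓ * zw (mo b) = ℓ' →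
      emb b / 9 = z + emb a → PQ ρ (ζ * zw (-mn b)) (ℓ * zw (mo b)) (emb b / 9) := by
    intro ζ' ℓ' z b a h h1 h2 h3
    rw [h1, h2, h3]
    exact h.add_emb a
  intro b hb
  have hW : W9 = ({1, 4, -2, ⟨1, 3⟩, ⟨4, 3⟩, ⟨-2, 3⟩, ⟨1, -3⟩, ⟨4, -3⟩, ⟨-2, -3⟩} : Finset Eis) := rfl
  rw [hW] at hb
  simp only [Finset.mem_insert, Finset.mem_singleton] at hb
  have ea : ∀ x y : ℤ, emb (⟨x, y⟩ : Eis) = x + y * w := fun x y => emb_apply _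
  have z0 : zw (-0) = 1 := v4c_nz.1
  have z1 : zw (-1) = w ^ 2 := v4c_nz.2.1
  have z2 : zw (-2) = w := v4c_nz.2.2
  rcases hb with rfl | rfl | rfl | rfl | rfl | rfl | rfl | rfl | rfl
  · refine tr _ 0 p0 ?_ ?_ ?_
    · rw [show mn 1 = 0 by decide, z0, mul_one]
    · rw [show mo 1 = 0 by decide, CUL.zw_zero, mul_one]
    · rw [map_one, map_zero, add_zero]
  · refine tr _ 0 p2 ?_ ?_ ?_
    · rw [show mn 4 = 1 by decide, z1]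
      ring
    · rw [show mo 4 = 1 by decide, CUL.zw_one]
      linear_combination (-(w * ℓ)) * hw3
    · rw [map_ofNat, map_zero]
      ring
  · refine tr _ 0 p1 ?_ ?_ ?_
    · rw [show mn (-2) = 2 by decide, z2]
      ring
    · rw [show mo (-2) = 2 by decide, CUL.zw_two]
      ring
    · rw [map_neg, map_ofNat, map_zero]
      ring
  · refine tr _ (-1) p2.add_ta ?_ ?_ ?_
    · rw [show mn ⟨1, 3⟩ = 1 by decide, z1]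
      ring
    · rw [show mo ⟨1, 3⟩ = 0 by decide, CUL.zw_zero]
      linear_combination (-(ℓ * (1 + w ^ 3))) * hw3
    · rw [ea, hta, map_neg, map_one]
      push_cast
      ring
  · refine tr _ 0 p1.add_ta ?_ ?_ ?_
    · rw [show mn ⟨4, 3⟩ = 2 by decide, z2]
      ring
    · rw [show mo ⟨4, 3⟩ = 1 by decide, CUL.zw_one]
      linear_combination (-(w * ℓ)) * hw3
    · rw [ea, hta, map_zero]
      push_cast
      ring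
  · refine tr _ (-1) p0.add_ta ?_ ?_ ?_
    · rw [show mn ⟨-2, 3⟩ = 0 by decide, z0, mul_one]
    · rw [show mo ⟨-2, 3⟩ = 2 by decide, CUL.zw_two]
      ring
    · rw [ea, hta, map_neg, map_one]
      push_cast
      ring
  · refine tr _ (-1 - CU.om) p1.add_ta.add_ta ?_ ?_ ?_
    · rw [show mn ⟨1, -3⟩ = 2 by decide, z2]
      ring
    · rw [show mo ⟨1, -3⟩ = 0 by decide, CUL.zw_zero]
      linear_combination (-(ℓ * (1 + w ^ 3))) * hw3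
    · rw [ea, hta, map_sub, map_neg, map_one, CUL.emb_om]
      push_cast
      ring
  · refine tr _ (-1 - CU.om) p0.add_ta.add_ta ?_ ?_ ?_
    · rw [show mn ⟨4, -3⟩ = 0 by decide, z0, mul_one]
    · rw [show mo ⟨4, -3⟩ = 1 by decide, CUL.zw_one]
      linear_combination (-(w * ℓ)) * hw3
    · rw [ea, hta, map_sub, map_neg, map_one, CUL.emb_om]
      push_cast
      ring
  · refine tr _ (-2 - CU.om) p2.add_ta.add_ta ?_ ?_ ?_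
    · rw [show mn ⟨-2, -3⟩ = 1 by decide, z1]
      ring
    · rw [show mo ⟨-2, -3⟩ = 2 by decide, CUL.zw_two]
      linear_combination (-(w ^ 2 * ℓ * (1 + w ^ 3))) * hw3
    · rw [ea, hta, map_sub, map_neg, map_ofNat, CUL.emb_om]
      push_cast
      ring

theorem s9_sum (G : ZMod 3 → ZMod 3 → ℂ) : ∑ b ∈ W9, G (mo b) (mn b) = s3 (fun s => s3 (fun m => G m s)) := by
  have hW : W9 = ({1, 4, -2, ⟨1, 3⟩, ⟨4, 3⟩, ⟨-2, 3⟩, ⟨1, -3⟩, ⟨4, -3⟩, ⟨-2, -3⟩} : Finset Eis) := rfl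
  rw [hW, Finset.sum_insert (by decide), Finset.sum_insert (by decide), Finset.sum_insert (by decide),
    Finset.sum_insert (by decide), Finset.sum_insert (by decide), Finset.sum_insert (by decide),
    Finset.sum_insert (by decide), Finset.sum_insert (by decide), Finset.sum_singleton]
  rw [show mn 1 = 0 by decide, show mo 1 = 0 by decide, show mn 4 = 1 by decide, show mo 4 = 1 by decide,
    show mn (-2) = 2 by decide, show mo (-2) = 2 by decide, show mn ⟨1, 3⟩ = 1 by decide, show mo ⟨1, 3⟩ = 0 by decide,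
    show mn ⟨4, 3⟩ = 2 by decide, show mo ⟨4, 3⟩ = 1 by decide, show mn ⟨-2, 3⟩ = 0 by decide, show mo ⟨-2, 3⟩ = 2 by decide,
    show mn ⟨1, -3⟩ = 2 by decide, show mo ⟨1, -3⟩ = 0 by decide, show mn ⟨4, -3⟩ = 0 by decide, show mo ⟨4, -3⟩ = 1 by decide,
    show mn ⟨-2, -3⟩ = 1 by decide, show mo ⟨-2, -3⟩ = 2 by decide]
  unfold s3
  ring

end JGL
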