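import Pool.Agent.JGL.B
import Pool.Agent.JGL.T
import Pool.Agent.JGL.V3e
import Pool.Agent.JGL.V23o1
import Pool.Agent.JGL.V4b
import Pool.Agent.JGL.V4c

/-!
# [JGL-V4] the closed form for `n = 4`

The exponents `e1`, `e2` and the polynomials `P1`, `P2` are defined in V4c.lean.
-/

set_option autoImplicit false

open NumberField IsDedekindDomain Filter Topology
open scoped Classical ComplexConjugate

namespace JGL

open CM27 JZ
open CU (la eE)
open CUL (Nl ez si ta DS Cont LV IsRep rp cr mn mo zw OT GalU W3 W9)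
open JL (N1 KD sD Psi6)

/-- the summand (without the character) -/
noncomputable def S4 (sg : ℂ) (a i k : ZMod 3) (z : ℂ) : ℂ :=
  (xm z * (1 + Um z)) ^ k.val * (1 + w * Um (emb la * z)) * (1 + w * Um (emb la ^ 2 * z)) *
    (Um z ^ (2 - e1 k a) * P1 a i k (Um (emb la * z)) / Um (emb la ^ 2 * z) +
      sg * Um z ^ e2 k a * P2 a i k (Um (emb la * z)))

theorem v4_xy {z : ℂ} (h : Gd z) : 1 + Um z ≠ 0 ∧ xw z = w ^ 2 * (xm z * (1 + Um z)) / (1 + Um z) ∧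
    yw z = th * (1 - Um z) / (1 + Um z) := by
  have h1 := b_U h.y_ne.1
  have h2 : (1 + Um z) * (th + yw z) = 2 * th := by
    linear_combination h1
  have h3 : 1 + Um z ≠ 0 := by
    refine left_ne_zero_of_mul (b := th + yw z) ?_
    rw [h2]
    exact mul_ne_zero two_ne_zero b_th_ne
  refine ⟨h3, ?_, ?_⟩
  · rw [eq_div_iff h3]
    unfold xm
    linear_combination (-(xw z * (1 + Um z))) * CUL.w3
  · rw [eq_div_iff h3]
    linear_combination h1

theorem v4_diff {z p : ℂ} (h : Gd z) (g : Gd p) : xw z ^ 3 - xw p ^ 3 =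
    -3 * ((Um z - Um p) * (Um z * Um p - 1)) / ((1 + Um z) ^ 2 * (1 + Um p) ^ 2) := by
  obtain ⟨a1, -, a3⟩ := v4_xy h
  obtain ⟨b1, -, b3⟩ := v4_xy g
  have h1 := weq z h.nl0
  have h2 := weq p g.nl0
  have h3 := th_sq
  rw [eq_div_iff (mul_ne_zero (pow_ne_zero 2 a1) (pow_ne_zero 2 b1))]
  rw [eq_div_iff a1] at a3
  rw [eq_div_iff b1] at b3
  generalize Um z = U at *
  generalize Um p = W at *
  generalize yw z = y at *
  generalize yw p = y' at *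
  generalize xw z = x at *
  generalize xw p = x' at *
  linear_combination (-(1 / 4 : ℂ) * (1 + U) ^ 2 * (1 + W) ^ 2) * h1 + ((1 / 4 : ℂ) * (1 + U) ^ 2 * (1 + W) ^ 2) * h2 +
    ((1 / 4 : ℂ) * (1 + W) ^ 2 * (y * (1 + U) + th * (1 - U))) * a3 -
    ((1 / 4 : ℂ) * (1 + U) ^ 2 * (y' * (1 + W) + th * (1 - W))) * b3 +
    ((1 / 4 : ℂ) * ((1 + W) ^ 2 * (1 - U) ^ 2 - (1 + U) ^ 2 * (1 - W) ^ 2)) * h3

/-- the correction terms -/
noncomputable def Ce (k : ZMod 3) (U : ℂ) : ℂ := if k = 0 then -1 / (1 + U) + 1 / (U * (1 + U)) else 0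

noncomputable def Co (k : ZMod 3) (U W : ℂ) : ℂ := if k = 0 then -1 / U else if k = 1 then 0 else 2 / (1 + W)

theorem v4_be (k : ZMod 3) {U W : ℂ} (hU : U ≠ 0) (hA : 1 + U ≠ 0) (hB : 1 + W ≠ 0) (hp : U - W ≠ 0) (hq : U * W - 1 ≠ 0) :
    (U - 1) * (1 + U) ^ 2 * (1 + W) ^ 2 / ((1 + U) * (1 + W) ^ k.val * (1 + U) ^ (2 - k.val) * ((U - W) * (U * W - 1))) =
      1 / (U - W) + U ^ k.val / U * (1 / (U * W - 1)) + Ce k U := by
  unfold Ce
  obtain ⟨P, hP⟩ : ∃ P, P = U - W := ⟨_, rfl⟩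
  obtain ⟨Q, hQ⟩ : ∃ Q, Q = U * W - 1 := ⟨_, rfl⟩
  rw [← hP] at hp
  rw [← hQ] at hq
  rcases v4c_cases k with rfl | rfl | rfl
  · simp only [v4c_val.1, if_true]
    rw [← hP, ← hQ]
    field_simp
    rw [hP, hQ]
    ring
  · simp only [v4c_val.2.1, show ((1 : ZMod 3) = 0) = False from eq_false (by decide), if_false]
    rw [← hP, ← hQ]
    field_simp
    rw [hP, hQ]
    ring
  · simp only [v4c_val.2.2, show ((2 : ZMod 3) = 0) = False from eq_false (by decide), if_false]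
    rw [← hP, ← hQ]
    field_simp
    rw [hP, hQ]
    ring

theorem v4_bo (k : ZMod 3) {U W : ℂ} (hU : U ≠ 0) (hA : 1 + U ≠ 0) (hB : 1 + W ≠ 0) (hp : U - W ≠ 0) (hq : U * W - 1 ≠ 0) :
    (W - 1) * (1 + U) ^ 2 * (1 + W) ^ 2 / ((1 + W) * (1 + W) ^ k.val * (1 + U) ^ (2 - k.val) * ((U - W) * (U * W - 1))) =
      1 / (U - W) - U ^ k.val / U * (1 / (U * W - 1)) + Co k U W := by
  unfold Co
  obtain ⟨P, hP⟩ : ∃ P, P = U - W := ⟨_, rfl⟩
  obtain ⟨Q, hQ⟩ : ∃ Q, Q = U * W - 1 := ⟨_, rfl⟩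
  rw [← hP] at hp
  rw [← hQ] at hq
  rcases v4c_cases k with rfl | rfl | rfl
  · simp only [v4c_val.1, if_true]
    rw [← hP, ← hQ]
    field_simp
    rw [hP, hQ]
    ring
  · simp only [v4c_val.2.1, show ((1 : ZMod 3) = 0) = False from eq_false (by decide), if_false, if_true]
    rw [← hP, ← hQ]
    field_simp
    rw [hP, hQ]
    ring
  · simp only [v4c_val.2.2, show ((2 : ZMod 3) = 0) = False from eq_false (by decide), if_false,
      show ((2 : ZMod 3) = 1) = False from eq_false (by decide)]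
    rw [← hP, ← hQ]
    field_simp
    rw [hP, hQ]
    ring

theorem v4_xx (k : ZMod 3) {A B X Y : ℂ} : (w ^ 2 * Y / B) ^ k.val * (w ^ 2 * X / A) ^ (2 - k.val) =
    w * (Y ^ k.val * X ^ (2 - k.val)) / (B ^ k.val * A ^ (2 - k.val)) := by
  have h3 := CUL.w3
  have h4 : w ^ 4 = w := by
    linear_combination w * h3
  have e2 : ∀ X A : ℂ, (w ^ 2 * X / A) ^ 2 = w * X ^ 2 / A ^ 2 := by
    intro X A
    have e : (w ^ 2 * X / A) ^ 2 = w ^ 4 * X ^ 2 / A ^ 2 := by ring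
    rw [e, h4]
  rcases v4c_cases k with rfl | rfl | rfl
  · show (w ^ 2 * Y / B) ^ 0 * (w ^ 2 * X / A) ^ 2 = w * (Y ^ 0 * X ^ 2) / (B ^ 0 * A ^ 2)
    rw [e2]
    ring
  · show (w ^ 2 * Y / B) ^ 1 * (w ^ 2 * X / A) ^ 1 = w * (Y ^ 1 * X ^ 1) / (B ^ 1 * A ^ 1)
    have e : (w ^ 2 * Y / B) ^ 1 * (w ^ 2 * X / A) ^ 1 = w ^ 4 * (Y ^ 1 * X ^ 1) / (B ^ 1 * A ^ 1) := by ring
    rw [e, h4]
  · show (w ^ 2 * Y / B) ^ 2 * (w ^ 2 * X / A) ^ 0 = w * (Y ^ 2 * X ^ 0) / (B ^ 2 * A ^ 0)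
    rw [e2]
    ring

theorem v4_kern {z p : ℂ} (k : ZMod 3) (h : Gd z) (g : Gd p) (hd : xw z ^ 3 - xw p ^ 3 ≠ 0) :
    (3 * (xw p ^ k.val * (yw z * xw z ^ (2 - k.val) / (xw z ^ 3 - xw p ^ 3))) =
      w * th * ((xm p * (1 + Um p)) ^ k.val * (xm z * (1 + Um z)) ^ (2 - k.val)) *
        (1 / (Um z - Um p) + Um z ^ k.val / Um z * (1 / (Um z * Um p - 1)) + Ce k (Um z))) ∧
    (-3 * (xw p ^ k.val * (yw p * xw z ^ (2 - k.val) / (xw z ^ 3 - xw p ^ 3))) =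
      -(w * th * ((xm p * (1 + Um p)) ^ k.val * (xm z * (1 + Um z)) ^ (2 - k.val))) *
        (1 / (Um z - Um p) - Um z ^ k.val / Um z * (1 / (Um z * Um p - 1)) + Co k (Um z) (Um p))) := by
  obtain ⟨a1, a2, a3⟩ := v4_xy h
  obtain ⟨b1, b2, b3⟩ := v4_xy g
  have hU := h.U_ne
  have hdf := v4_diff h g
  rw [hdf] at hd
  have hne : -3 * ((Um z - Um p) * (Um z * Um p - 1)) ≠ 0 := fun h0 => hd (by rw [h0, zero_div])
  have hpq : (Um z - Um p) * (Um z * Um p - 1) ≠ 0 := right_ne_zero_of_mul hne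
  have hp := left_ne_zero_of_mul hpq
  have hq := right_ne_zero_of_mul hpq
  rw [← v4_be k hU a1 b1 hp hq, ← v4_bo k hU a1 b1 hp hq, hdf]
  have hxx : xw p ^ k.val * xw z ^ (2 - k.val) =
      w * ((xm p * (1 + Um p)) ^ k.val * (xm z * (1 + Um z)) ^ (2 - k.val)) / ((1 + Um p) ^ k.val * (1 + Um z) ^ (2 - k.val)) := by
    rw [← v4_xx, ← a2, ← b2]
  have hA1 := pow_ne_zero (2 - k.val) a1
  have hB1 := pow_ne_zero k.val b1
  constructor
  · have e : 3 * (xw p ^ k.val * (yw z * xw z ^ (2 - k.val) / (-3 * ((Um z - Um p) * (Um z * Um p - 1)) / ((1 + Um z) ^ 2 * (1 + Um p) ^ 2)))) =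
        3 * (xw p ^ k.val * xw z ^ (2 - k.val)) * (yw z / (-3 * ((Um z - Um p) * (Um z * Um p - 1)) / ((1 + Um z) ^ 2 * (1 + Um p) ^ 2))) := by
      ring
    rw [e, hxx, a3]
    generalize (xm p * (1 + Um p)) ^ k.val * (xm z * (1 + Um z)) ^ (2 - k.val) = XX at *
    generalize (1 + Um z) ^ (2 - k.val) = A1 at *
    generalize (1 + Um p) ^ k.val = B1 at *
    generalize Um z - Um p = P at *
    generalize Um z * Um p - 1 = Q at *
    generalize Um z = U at *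
    generalize Um p = W at *
    field_simp
    ring
  · have e : -3 * (xw p ^ k.val * (yw p * xw z ^ (2 - k.val) / (-3 * ((Um z - Um p) * (Um z * Um p - 1)) / ((1 + Um z) ^ 2 * (1 + Um p) ^ 2)))) =
        -3 * (xw p ^ k.val * xw z ^ (2 - k.val)) * (yw p / (-3 * ((Um z - Um p) * (Um z * Um p - 1)) / ((1 + Um z) ^ 2 * (1 + Um p) ^ 2))) := by
      ring
    rw [e, hxx, b3]
    generalize (xm p * (1 + Um p)) ^ k.val * (xm z * (1 + Um z)) ^ (2 - k.val) = XX at *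
    generalize (1 + Um z) ^ (2 - k.val) = A1 at *
    generalize (1 + Um p) ^ k.val = B1 at *
    generalize Um z - Um p = P at *
    generalize Um z * Um p - 1 = Q at *
    generalize Um z = U at *
    generalize Um p = W at *
    field_simp
    ring

/-! ## the sums -/

theorem v4_s0 {a : ZMod 3} (ha : a ≠ 0) : zw (a * 0) + zw (a * 1) + zw (a * 2) = 0 := by
  have h0 := v4c_z
  rcases v4c_cases a with rfl | rfl | rfl
  · exact absurd rfl ha
  · rw [show (1 * 0 : ZMod 3) = 0 from rfl, show (1 * 1 : ZMod 3) = 1 from rfl, show (1 * 2 : ZMod 3) = 2 from rfl,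
      CUL.zw_zero, CUL.zw_one, CUL.zw_two]
    linear_combination h0
  · rw [show (2 * 0 : ZMod 3) = 0 from rfl, show (2 * 1 : ZMod 3) = 2 from rfl, show (2 * 2 : ZMod 3) = 1 from rfl,
      CUL.zw_zero, CUL.zw_one, CUL.zw_two]
    linear_combination h0

/-- a function of `b` with the values `zw (a mo b) * G (mn b)` has the sum `0` -/
theorem v4_sum0 {a : ZMod 3} (ha : a ≠ 0) (f : Eis → ℂ) (G : ZMod 3 → ℂ) (hf : ∀ b ∈ W9, f b = zw (a * mo b) * G (mn b)) :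
    ∑ b ∈ W9, f b = 0 := by
  rw [Finset.sum_congr rfl hf, s9_sum (fun m s => zw (a * m) * G s)]
  have h := v4_s0 ha
  unfold s3
  beta_reduce
  linear_combination (G 0 + G 1 + G 2) * h

theorem v4_ka (a i : ZMod 3) (b : Eis) : ka a i b = zw (a * mo b) * zw (i * mn b) := by
  unfold ka
  rw [CUL.zw_add]

theorem v4_pt {b : Eis} {ρ ζ ℓ : ℂ} (h : PQ ρ ζ ℓ (emb b / 9)) (hζ : ζ ^ 3 = w) (hl : ℓ ≠ 0) :
    Gd (emb b / 9) ∧ Um (emb b / 9) = (1 - w * ζ) / ℓ ∧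
      xm (emb b / 9) * (1 + Um (emb b / 9)) = ρ * ℓ / (1 - ζ) ∧ emb la ^ 4 * (emb b / 9) ∈ Set.range emb := by
  obtain ⟨h1, -, h3, h4⟩ := h
  refine ⟨h1.of_la, ?_, ?_, CU.om ^ 2 * b, ?_⟩
  · rw [eq_div_iff hl, h3]
  · rw [eq_div_iff (v4c_ne hζ).1, h4]
  · have h2 := CUL.la_sq
    rw [map_mul, map_pow, CUL.emb_om]
    have e : emb la ^ 4 = 9 * w ^ 2 := by
      have e2 : emb la ^ 4 = (emb la ^ 2) ^ 2 := by ring
      rw [e2, h2]
      ring
    rw [e]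
    ring

/-- the sum over the nine points, for a point `p` of order prime to `3` -/
theorem v4_M {a k i : ZMod 3} (ha : a ≠ 0) {ρ ζ ℓ : ℂ} (hζ : ζ ^ 3 = w) (hl : ℓ ^ 3 = 1 - w)
    (hP : ∀ b ∈ W9, PQ ρ (ζ * zw (-mn b)) (ℓ * zw (mo b)) (emb b / 9)) (sg : ℂ) {p : ℂ} (hp : OT p) :
    ∑ b ∈ W9, ka a i b * ((xm (emb b / 9) * (1 + Um (emb b / 9))) ^ (2 - k.val) *
      (1 / (Um (emb b / 9) - Um p) + sg * (Um (emb b / 9) ^ k.val / Um (emb b / 9) * (1 / (Um (emb b / 9) * Um p - 1))))) =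
      9 * ρ ^ (2 - k.val) * (ℓ⁻¹) ^ a.val * zi i ζ / (1 - w ^ 2) ^ 2 * ((1 + w * Um (emb la * p)) * (1 + w * Um (emb la ^ 2 * p)) *
        (Um p ^ (2 - e1 k a) * P1 a i k (Um (emb la * p)) / Um (emb la ^ 2 * p) +
          sg * (Um p ^ (e2 k a) * P2 a i k (Um (emb la * p))))) := by
  have hl0 : ℓ ≠ 0 := by
    intro h
    rw [h] at hl
    apply v4c_w1
    linear_combination hl
  have hp1 : OT (emb la * p) := by
    have := hp.la_mul 1
    rwa [pow_one] at this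
  have hp2 : OT (emb la ^ 2 * p) := hp.la_mul 2
  have e2 : emb la * (emb la * p) = emb la ^ 2 * p := by ring
  have hW := Um_la hp
  have hu := Um_la hp1
  rw [e2] at hu
  have hg2 : Gd (emb la ^ 2 * p) := by
    have h := (hp2.la_mul 2).1
    have e : emb la ^ 2 * (emb la ^ 2 * p) = emb la * (emb la * (emb la ^ 2 * p)) := by ring
    rw [e] at h
    exact h
  rw [← v4c_main ha i sg ρ hζ hl hW hu hg2.U_ne]
  obtain ⟨G, hG⟩ : ∃ G : ZMod 3 → ZMod 3 → ℂ, G = fun m s => zw (i * s) * (zw (a * m) * ((ρ * (ℓ * zw m) / (1 - ζ * zw (-s))) ^ (2 - k.val) *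
      (1 / ((1 - w * (ζ * zw (-s))) / (ℓ * zw m) - Um p) +
        sg * (((1 - w * (ζ * zw (-s))) / (ℓ * zw m)) ^ k.val / ((1 - w * (ζ * zw (-s))) / (ℓ * zw m)) *
        (1 / ((1 - w * (ζ * zw (-s))) / (ℓ * zw m) * Um p - 1)))))) := ⟨_, rfl⟩
  have key : ∀ b ∈ W9, ka a i b * ((xm (emb b / 9) * (1 + Um (emb b / 9))) ^ (2 - k.val) *
      (1 / (Um (emb b / 9) - Um p) + sg * (Um (emb b / 9) ^ k.val / Um (emb b / 9) * (1 / (Um (emb b / 9) * Um p - 1))))) =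
      G (mo b) (mn b) := by
    intro b hb
    rw [hG]
    have hz : (ζ * zw (-mn b)) ^ 3 = w := by
      rw [mul_pow, hζ, v4c_zwc, mul_one]
    obtain ⟨-, h2, h3, -⟩ := v4_pt (hP b hb) hz (mul_ne_zero hl0 (CUL.zw_ne _))
    rw [h3, h2, v4_ka]
    ring
  rw [Finset.sum_congr rfl key, s9_sum G, hG]
  unfold s3
  ring

theorem v4_corr {a k i : ZMod 3} (ha : a ≠ 0) {ρ ζ ℓ : ℂ} (hζ : ζ ^ 3 = w) (hl : ℓ ^ 3 = 1 - w)
    (hP : ∀ b ∈ W9, PQ ρ (ζ * zw (-mn b)) (ℓ * zw (mo b)) (emb b / 9)) (W : ℂ) :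
    ∑ b ∈ W9, ka a i b * ((xm (emb b / 9) * (1 + Um (emb b / 9))) ^ (2 - k.val) * Co k (Um (emb b / 9)) W) = 0 := by
  have hl0 : ℓ ≠ 0 := by
    intro h
    rw [h] at hl
    apply v4c_w1
    linear_combination hl
  rcases v4c_cases k with rfl | rfl | rfl
  · refine v4_sum0 ha _ (fun s => zw (i * s) * (ρ ^ 2 * (1 - w) * (-1) / ((1 - ζ * zw (-s)) ^ 2 * (1 - w * (ζ * zw (-s)))))) ?_
    intro b hb
    have hz : (ζ * zw (-mn b)) ^ 3 = w := by
      rw [mul_pow, hζ, v4c_zwc, mul_one]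
    obtain ⟨h1, h2, h3, -⟩ := v4_pt (hP b hb) hz (mul_ne_zero hl0 (CUL.zw_ne _))
    rw [h3, h2, v4_ka]
    unfold Co
    simp only [if_true]
    show _ * ((ρ * (ℓ * zw (mo b)) / (1 - ζ * zw (-mn b))) ^ 2 * _) = _
    obtain ⟨q1, q2, -⟩ := v4c_ne hz
    have hc := v4c_zwc (mo b)
    have hc0 := CUL.zw_ne (mo b)
    generalize zw (mo b) = m at *
    generalize ζ * zw (-mn b) = z at *
    have e : (ρ * (ℓ * m) / (1 - z)) ^ 2 * (-1 / ((1 - w * z) / (ℓ * m))) = ρ ^ 2 * (ℓ ^ 3 * m ^ 3) * (-1) / ((1 - z) ^ 2 * (1 - w * z)) := by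
      field_simp
    rw [e, hl, hc]
    ring
  · have h1 : ∀ b ∈ W9, ka a i b * ((xm (emb b / 9) * (1 + Um (emb b / 9))) ^ (2 - (1 : ZMod 3).val) *
        Co 1 (Um (emb b / 9)) W) = 0 := by
      intro b _
      unfold Co
      simp only [show ((1 : ZMod 3) = 0) = False from eq_false (by decide), if_false, if_true, mul_zero]
    exact Finset.sum_eq_zero h1
  · refine v4_sum0 ha _ (fun s => zw (i * s) * (2 / (1 + W))) ?_
    intro b _
    rw [v4_ka]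
    unfold Co
    simp only [show ((2 : ZMod 3) = 0) = False from eq_false (by decide), if_false,
      show ((2 : ZMod 3) = 1) = False from eq_false (by decide)]
    show _ * ((xm (emb b / 9) * (1 + Um (emb b / 9))) ^ 0 * _) = _
    rw [pow_zero]
    ring

theorem v4_Gd {p : ℂ} (hp : OT p) : Gd p := by
  have h := (hp.la_mul 2).1
  have e : emb la ^ 2 * p = emb la * (emb la * p) := by ring
  rw [e] at h
  exact h

theorem v4_swap (L : Lev) (a i : ZMod 3) :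
    V4 L a i = ∑ b ∈ W9, ka a i b * ∑ α ∈ rp L.f, conj (L.chi α) * ez (pt L α + emb b / 9) := by
  unfold V4
  simp only [Finset.mul_sum]
  rw [Finset.sum_comm]
  refine Finset.sum_congr rfl fun b _ => Finset.sum_congr rfl fun α _ => ?_
  ring

/-- both parities: `V4 = ± w θ ∑_c conj χ(c) X_c^k M_c` -/
theorem v4_sum (L : Lev) {R : Finset Eis} (hR : IsR L R) {a i : ZMod 3} (ha : a ≠ 0) {ρ ζ ℓ : ℂ} (hζ : ζ ^ 3 = w)
    (hl : ℓ ^ 3 = 1 - w) (hP : ∀ b ∈ W9, PQ ρ (ζ * zw (-mn b)) (ℓ * zw (mo b)) (emb b / 9)) :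
    V4 L a i = (-1) ^ L.ep * (w * th) * ∑ c ∈ R, conj (L.chi c) * ((xm (pt L c) * (1 + Um (pt L c))) ^ L.k.val *
      ∑ b ∈ W9, ka a i b * ((xm (emb b / 9) * (1 + Um (emb b / 9))) ^ (2 - L.k.val) *
      (1 / (Um (emb b / 9) - Um (pt L c)) +
        (-1) ^ L.ep * (Um (emb b / 9) ^ L.k.val / Um (emb b / 9) * (1 / (Um (emb b / 9) * Um (pt L c) - 1)))))) := by
  have hl0 : ℓ ≠ 0 := by
    intro h
    rw [h] at hl
    apply v4c_w1
    linear_combination hl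
  have hb1 : ∀ b ∈ W9, Gd (emb b / 9) ∧ emb la ^ 4 * (emb b / 9) ∈ Set.range emb := by
    intro b hb
    have hz : (ζ * zw (-mn b)) ^ 3 = w := by
      rw [mul_pow, hζ, v4c_zwc, mul_one]
    obtain ⟨h1, -, -, h4⟩ := v4_pt (hP b hb) hz (mul_ne_zero hl0 (CUL.zw_ne _))
    exact ⟨h1, h4⟩
  have hc1 : ∀ c ∈ R, OT (pt L c) := fun c hc => OT_pt L (hR.1 c hc)
  have hd : ∀ b ∈ W9, ∀ c ∈ R, xw (emb b / 9) ^ 3 - xw (pt L c) ^ 3 ≠ 0 := fun b hb c hc =>
    v3e_ne3 L (hb1 b hb).1.nl0 (hb1 b hb).2 (hR.1 c hc)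
  rw [v4_swap]
  rcases L.hep with hep | hep
  · -- even
    have e1 : ∀ b ∈ W9, ka a i b * ∑ α ∈ rp L.f, conj (L.chi α) * ez (pt L α + emb b / 9) =
        ka a i b * ∑ c ∈ R, conj (L.chi c) * (w * th * ((xm (pt L c) * (1 + Um (pt L c))) ^ L.k.val *
          (xm (emb b / 9) * (1 + Um (emb b / 9))) ^ (2 - L.k.val)) *
          (1 / (Um (emb b / 9) - Um (pt L c)) + Um (emb b / 9) ^ L.k.val / Um (emb b / 9) *
            (1 / (Um (emb b / 9) * Um (pt L c) - 1)))) := by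
      intro b hb
      congr 1
      rw [v3e_gen L hep hR (hb1 b hb).1.nl0 (hb1 b hb).2, Finset.mul_sum]
      have e2 : ∀ c ∈ R, 3 * (conj (L.chi c) * (xw (pt L c) ^ L.k.val *
          (yw (emb b / 9) * xw (emb b / 9) ^ (2 - L.k.val) / (xw (emb b / 9) ^ 3 - xw (pt L c) ^ 3)))) =
          conj (L.chi c) * (w * th * ((xm (pt L c) * (1 + Um (pt L c))) ^ L.k.val *
          (xm (emb b / 9) * (1 + Um (emb b / 9))) ^ (2 - L.k.val)) *
          (1 / (Um (emb b / 9) - Um (pt L c)) + Um (emb b / 9) ^ L.k.val / Um (emb b / 9) *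
            (1 / (Um (emb b / 9) * Um (pt L c) - 1)))) +
          (w * th * (xm (emb b / 9) * (1 + Um (emb b / 9))) ^ (2 - L.k.val) * Ce L.k (Um (emb b / 9))) *
            (conj (L.chi c) * (xm (pt L c) * (1 + Um (pt L c))) ^ L.k.val) := by
        intro c hc
        have h := (v4_kern L.k (hb1 b hb).1 (v4_Gd (hc1 c hc)) (hd b hb c hc)).1
        linear_combination conj (L.chi c) * h
      rw [Finset.sum_congr rfl e2, Finset.sum_add_distrib, ← Finset.mul_sum]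
      have e3 : Ce L.k (Um (emb b / 9)) * ∑ c ∈ R, conj (L.chi c) * (xm (pt L c) * (1 + Um (pt L c))) ^ L.k.val = 0 := by
        by_cases hk : L.k = 0
        · have h1 := sum_R_chi L hep hk hR
          have h2 : ∀ c ∈ R, conj (L.chi c) * (xm (pt L c) * (1 + Um (pt L c))) ^ L.k.val = conj (L.chi c) := by
            intro c _
            rw [hk, v4c_val.1, pow_zero, mul_one]
          rw [Finset.sum_congr rfl h2, h1, mul_zero]
        · have h1 : Ce L.k (Um (emb b / 9)) = 0 := by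
            unfold Ce
            rw [if_neg hk]
          rw [h1, zero_mul]
      linear_combination (w * th * (xm (emb b / 9) * (1 + Um (emb b / 9))) ^ (2 - L.k.val)) * e3
    rw [Finset.sum_congr rfl e1, hep, pow_zero, one_mul]
    simp only [Finset.mul_sum]
    rw [Finset.sum_comm]
    refine Finset.sum_congr rfl fun c _ => Finset.sum_congr rfl fun b _ => ?_
    ring
  · -- odd
    obtain ⟨S, hS⟩ : ∃ S, S = ∑ α ∈ rp L.f, conj (L.chi α) * ez (pt L α) := ⟨_, rfl⟩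
    have e1 : ∀ b ∈ W9, ka a i b * ∑ α ∈ rp L.f, conj (L.chi α) * ez (pt L α + emb b / 9) =
        ka a i b * S + ∑ c ∈ R, conj (L.chi c) * (-(w * th * (xm (pt L c) * (1 + Um (pt L c))) ^ L.k.val) *
          (ka a i b * ((xm (emb b / 9) * (1 + Um (emb b / 9))) ^ (2 - L.k.val) *
          (1 / (Um (emb b / 9) - Um (pt L c)) + (-1) ^ L.ep * (Um (emb b / 9) ^ L.k.val / Um (emb b / 9) *
            (1 / (Um (emb b / 9) * Um (pt L c) - 1)))))) +
          -(w * th * (xm (pt L c) * (1 + Um (pt L c))) ^ L.k.val) *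
          (ka a i b * ((xm (emb b / 9) * (1 + Um (emb b / 9))) ^ (2 - L.k.val) * Co L.k (Um (emb b / 9)) (Um (pt L c))))) := by
      intro b hb
      rw [v23o_gen L hep hR (hb1 b hb).1.nl0 (hb1 b hb).2, ← hS, mul_sub, Finset.mul_sum, Finset.mul_sum, sub_eq_add_neg,
        ← Finset.sum_neg_distrib]
      congr 1
      refine Finset.sum_congr rfl fun c hc => ?_
      have h := (v4_kern L.k (hb1 b hb).1 (v4_Gd (hc1 c hc)) (hd b hb c hc)).2
      rw [hep, pow_one]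
      linear_combination (ka a i b * conj (L.chi c)) * h
    rw [Finset.sum_congr rfl e1, Finset.sum_add_distrib, ← Finset.sum_mul]
    have e2 : ∑ b ∈ W9, ka a i b = 0 := v4_sum0 ha _ (fun s => zw (i * s)) (fun b _ => v4_ka a i b)
    rw [e2, zero_mul, zero_add, Finset.sum_comm, Finset.mul_sum]
    refine Finset.sum_congr rfl fun c _ => ?_
    rw [← Finset.mul_sum, Finset.sum_add_distrib, ← Finset.mul_sum, ← Finset.mul_sum, v4_corr ha hζ hl hP, hep, pow_one]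
    ring

/-- `V4` up to a factor of valuation `4 + 1 - 2 - a/3 = 3 - a/3`, `a = 1, 2` -/
theorem V4_eq (L : Lev) {R : Finset Eis} (hR : IsR L R) (a i : ZMod 3) (ha : a ≠ 0) :
    ∃ κ : ℂ, κ ^ 3 = 1 / emb la ^ a.val ∧ ∃ ζ : ℂ, ζ ^ 18 = 1 ∧
      V4 L a i = ζ * κ * (9 * th / (1 - w ^ 2) ^ 2) *
        ∑ c ∈ R, conj (L.chi c) * S4 ((-1) ^ L.ep) a i L.k (pt L c) := by
  obtain ⟨ρ, ζ, ℓ, hρ, hζ, hl, hP⟩ := b_pts
  have hw3 := CUL.w3
  refine ⟨(ℓ⁻¹) ^ a.val, ?_, (-1) ^ L.ep * w * ρ ^ (2 - L.k.val) * zi i ζ, ?_, ?_⟩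
  · rw [← pow_mul, mul_comm, pow_mul, inv_pow, hl, CUL.emb_la, inv_pow, one_div]
  · have h1 : ((-1 : ℂ) ^ L.ep) ^ 18 = 1 := by
      rw [← pow_mul, mul_comm, pow_mul]
      norm_num
    have h2 : w ^ 18 = 1 := by
      have e : w ^ 18 = (w ^ 3) ^ 6 := by ring
      rw [e, hw3, one_pow]
    have h3 : (ρ ^ (2 - L.k.val)) ^ 18 = 1 := by
      rw [← pow_mul, mul_comm, pow_mul]
      have e : ρ ^ 18 = (ρ ^ 3) ^ 6 := by ring
      rw [e, hρ, one_pow, one_pow]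
    rw [mul_pow, mul_pow, mul_pow, h1, h2, h3, v4c_zi i hζ]
    norm_num
  · rw [v4_sum L hR ha hζ hl hP]
    rw [Finset.mul_sum, Finset.mul_sum]
    refine Finset.sum_congr rfl fun c hc => ?_
    rw [v4_M ha hζ hl hP ((-1) ^ L.ep) (OT_pt L (hR.1 c hc))]
    unfold S4
    ring

end JGL
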