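import Pool.Agent.JGL.V4e3

/-!
# [JGL-V4e] `ep = 0`, `n = 4`
-/

set_option autoImplicit false

open NumberField IsDedekindDomain Filter Topology
open scoped Classical ComplexConjugate

namespace JGL

open CM27 JZ
open CU (la eE)
open CUL (Nl ez si ta DS Cont LV IsRep rp cr mn mo zw OT GalU W3 W9)
open JL (N1 KD sD Psi6)


section

variable (A : ValuationSubring ℂ) (hA : A.valuation 3 < 1)

include hA in
theorem v4e_val {S t : ℂ} (ht : A.valuation t ≤ 1) (h : A.valuation (S - emb la * t) ≤ A.valuation 3) :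
    A.valuation S ≤ A.valuation (emb la) ∧ (A.valuation S = A.valuation (emb la) ↔ A.valuation t = 1) := by
  have hl := CUL.w_la_lt A hA
  have hl2 := CUL.w_la A hA
  have hl0 : 0 < A.valuation (emb la) := by
    rw [Valuation.pos_iff]
    exact CUL.la_ne
  have h32 : A.valuation 3 < A.valuation (emb la) := by
    rw [← hl2, pow_two]
    calc A.valuation (emb la) * A.valuation (emb la) < A.valuation (emb la) * 1 := mul_lt_mul_of_pos_left hl hl0
      _ = _ := mul_one _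
  have h1 : A.valuation (emb la * t) ≤ A.valuation (emb la) := by
    rw [map_mul]
    calc A.valuation (emb la) * A.valuation t ≤ A.valuation (emb la) * 1 := mul_le_mul' le_rfl ht
      _ = _ := mul_one _
  have e : S = (S - emb la * t) + emb la * t := by ring
  refine ⟨?_, ?_, ?_⟩
  · rw [e]
    exact (A.valuation.map_add _ _).trans (max_le (h.trans h32.le) h1)
  · intro h2
    have h3 : A.valuation (emb la * t) = A.valuation (emb la) := by
      have h4 : emb la * t = S - (S - emb la * t) := by ring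
      rw [h4, Valuation.map_sub_eq_of_lt_left, h2]
      rw [h2]
      exact lt_of_le_of_lt h h32
    rw [map_mul] at h3
    exact mul_left_cancel₀ hl0.ne' (by rw [h3, mul_one])
  · intro h2
    have h3 : A.valuation (emb la * t) = A.valuation (emb la) := by rw [map_mul, h2, mul_one]
    rw [e, Valuation.map_add_eq_of_lt_right, h3]
    rw [h3]
    exact lt_of_le_of_lt h h32

include hA in
theorem v4e_int (n : ℤ) : A.valuation (n : ℂ) = 1 ↔ ¬ (3 : ℤ) ∣ n := by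
  refine ⟨fun h h3 => ?_, CUL.w_int_unit A hA n⟩
  have h1 := JX.a4a_int3 A h3
  rw [h] at h1
  exact absurd hA (not_lt.2 h1)

include hA in
/-- the valuation of the prefactor -/
theorem v4e_pre {κ ζ S V : ℂ} {n : ℕ} (hκ : κ ^ 3 = 1 / emb la ^ n) (hζ : ζ ^ 18 = 1)
    (hV : V = ζ * κ * (9 * th / (1 - w ^ 2) ^ 2) * S) :
    A.valuation V ^ 3 * A.valuation (emb la) ^ n = A.valuation (emb la) ^ 9 * A.valuation S ^ 3 := by
  have hl0 : A.valuation (emb la) ≠ 0 := CUL.v2_wla A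
  have e1 : A.valuation ζ = 1 := by
    have h1 : A.valuation ζ ^ 18 = 1 := by rw [← map_pow, hζ, map_one]
    exact (pow_eq_one_iff.1 h1).resolve_right (by norm_num)
  have e2 : A.valuation κ ^ 3 * A.valuation (emb la) ^ n = 1 := by
    rw [← map_pow, hκ, map_div₀, map_one, map_pow]
    exact div_mul_cancel₀ _ (pow_ne_zero n hl0)
  have e3 : A.valuation (9 * th / (1 - w ^ 2) ^ 2) = A.valuation (emb la) ^ 3 := by
    have h9 : (9 : ℂ) = 3 * 3 := by norm_num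
    have h1 : A.valuation (1 - w ^ 2) = A.valuation (emb la) := by
      have h2 : 1 - w ^ 2 = -(w ^ 2 * emb la) := by
        rw [CUL.emb_la]
        linear_combination -CUL.w3
      rw [h2, Valuation.map_neg, map_mul, map_pow, CUL.w_w A, one_pow, one_mul]
    rw [map_div₀, map_mul, map_pow, h1, h9, map_mul, th_eq, map_mul, CUL.w_w A, one_mul, ← CUL.w_la A hA]
    rw [div_eq_iff (pow_ne_zero 2 hl0), ← pow_add, ← pow_succ, ← pow_add]
  rw [hV, map_mul, map_mul, map_mul, e1, e3, one_mul, mul_pow, mul_pow, mul_right_comm, mul_right_comm (A.valuation κ ^ 3),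
    e2, one_mul, ← pow_mul]

end

/-- `v = 2` -/
theorem V_4e1 (L : Lev) (hep : L.ep = 0) (hq : L.q la = -1) {R : Finset Eis} (hR : IsR L R) (A : ValuationSubring ℂ)
    (hA : A.valuation 3 < 1) (i : ℕ) (hi : i < 3) {Ds : Eis} (hDs : Primary Ds) (hk : L.k = 2 - mn Ds) {r : ℂ}
    (hr : r ^ 2 = emb (-CU.om ^ i * Ds)) (hgal : GalS L r) {m : ZMod 3} (hm : L.k ≠ 0 → m = 0) {u₁ u₂ : ℂ}
    (hN : N2 r (zw m * ee L R) u₁ u₂) :
    A.valuation (V4 L 1 i) ^ 3 ≤ A.valuation (emb la) ^ 11 ∧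
      (A.valuation (V4 L 1 i) ^ 3 = A.valuation (emb la) ^ 11 ↔ ¬ JX.LC A 0 (u₂ / emb la)) := by
  have hl0 : A.valuation (emb la) ≠ 0 := CUL.v2_wla A
  obtain ⟨κ, hκ, ζ, hζ, hV⟩ := V4_eq L hR 1 (i : ZMod 3) (by decide)
  rw [hep, pow_zero] at hV
  obtain ⟨F, hF, hS⟩ := v4e_sum A hA L hep hR (a := 1) (Or.inl rfl) (i : ZMod 3)
  obtain ⟨β₀, β₁, vr, vb, hdig, -, h1⟩ := v4e_main A hA L hep hq hR hi hDs hr hN
  obtain ⟨S, hSS⟩ : ∃ S, S = ∑ c ∈ R, conj (L.chi c) * S4 1 1 (i : ZMod 3) L.k (pt L c) := ⟨_, rfl⟩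
  obtain ⟨W, hW⟩ : ∃ W, W = ∑ c ∈ R, (L.q c : ℂ) * v4e_W L 1 (i : ZMod 3) c := ⟨_, rfl⟩
  rw [← hSS] at hV
  rw [← hSS, ← hW] at hS
  rw [← hW] at h1
  have hp := v4e_pre A hA hκ hζ hV
  have hval1 : (1 : ZMod 3).val = 1 := rfl
  rw [hval1, pow_one] at hp
  have vw := CUL.w_w A
  have vt : A.valuation (-(F * w ^ 2 * r * (β₁ : ℂ))) = A.valuation (β₁ : ℂ) := by
    rw [Valuation.map_neg, map_mul, map_mul, map_mul, map_pow, vw, hF, vr, one_pow, one_mul, one_mul, one_mul]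
  have h2 : A.valuation (S - emb la * -(F * w ^ 2 * r * (β₁ : ℂ))) ≤ A.valuation 3 := by
    have e : S - emb la * -(F * w ^ 2 * r * (β₁ : ℂ)) = (S - F * W) + F * w ^ 2 * (w * W + emb la * (r * β₁)) := by
      linear_combination -F * W * CUL.w3
    rw [e]
    refine (A.valuation.map_add _ _).trans (max_le hS ?_)
    rw [map_mul, map_mul, map_pow, vw, hF, one_pow, one_mul, one_mul]
    exact h1
  obtain ⟨k1, k2⟩ := v4e_val A hA (by rw [vt]; exact CUL.w_int_le A β₁) h2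
  have hLC := JX.a4_LC A hA hdig 0
  rw [vt, v4e_int A hA] at k2
  have h3 : ¬ JX.LC A 0 (u₂ / emb la) ↔ ¬ (3 : ℤ) ∣ β₁ := by
    rw [hLC, zero_mul, sub_zero]
  rw [h3, ← k2]
  obtain ⟨x, hx⟩ : ∃ x, x = A.valuation (emb la) := ⟨_, rfl⟩
  obtain ⟨y, hy⟩ : ∃ y, y = A.valuation S := ⟨_, rfl⟩
  obtain ⟨v, hv⟩ : ∃ v, v = A.valuation (V4 L 1 (i : ZMod 3)) := ⟨_, rfl⟩
  rw [← hx, ← hy, ← hv] at hp
  rw [← hx, ← hy] at k1
  rw [← hx] at hl0
  rw [← hx, ← hy, ← hv]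
  have hx0 : 0 < x := pos_iff_ne_zero.2 hl0
  refine ⟨?_, ?_, ?_⟩
  · refine le_of_mul_le_mul_right (a := x) ?_ hx0
    rw [hp, ← pow_succ]
    calc x ^ 9 * y ^ 3 ≤ x ^ 9 * x ^ 3 := mul_le_mul' le_rfl (pow_le_pow_left₀ zero_le k1 3)
      _ = x ^ (11 + 1) := by rw [← pow_add]
  · intro h4
    rw [h4, ← pow_succ] at hp
    have h5 : x ^ 9 * y ^ 3 = x ^ 9 * x ^ 3 := by rw [← hp, ← pow_add]
    exact (pow_left_inj₀ zero_le zero_le (by norm_num : (3 : ℕ) ≠ 0)).1 (mul_left_cancel₀ (pow_ne_zero 9 hl0) h5)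
  · intro h4
    rw [h4] at hp
    apply mul_right_cancel₀ hl0
    rw [hp, ← pow_add, ← pow_succ]

/-- `v = 4` -/
theorem V_4e2 (L : Lev) (hep : L.ep = 0) (hq : L.q la = -1) {R : Finset Eis} (hR : IsR L R) (A : ValuationSubring ℂ)
    (hA : A.valuation 3 < 1) (i : ℕ) (hi : i < 3) {Ds : Eis} (hDs : Primary Ds) (hk : L.k = 2 - mn Ds) {r : ℂ}
    (hr : r ^ 2 = emb (-CU.om ^ i * Ds)) (hgal : GalS L r) {m : ZMod 3} (hm : L.k ≠ 0 → m = 0) {u₁ u₂ : ℂ}
    (hN : N2 r (zw m * ee L R) u₁ u₂) :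
    A.valuation (V4 L 2 i) ^ 3 ≤ A.valuation (emb la) ^ 10 ∧
      (A.valuation (V4 L 2 i) ^ 3 = A.valuation (emb la) ^ 10 ↔ A.valuation (u₂ / emb la) = 1) := by
  have hl0 : A.valuation (emb la) ≠ 0 := CUL.v2_wla A
  obtain ⟨κ, hκ, ζ, hζ, hV⟩ := V4_eq L hR 2 (i : ZMod 3) (by decide)
  rw [hep, pow_zero] at hV
  obtain ⟨F, hF, hS⟩ := v4e_sum A hA L hep hR (a := 2) (Or.inr rfl) (i : ZMod 3)
  obtain ⟨β₀, β₁, vr, vb, hdig, h1, -⟩ := v4e_main A hA L hep hq hR hi hDs hr hN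
  obtain ⟨S, hSS⟩ : ∃ S, S = ∑ c ∈ R, conj (L.chi c) * S4 1 2 (i : ZMod 3) L.k (pt L c) := ⟨_, rfl⟩
  obtain ⟨W, hW⟩ : ∃ W, W = ∑ c ∈ R, (L.q c : ℂ) * v4e_W L 2 (i : ZMod 3) c := ⟨_, rfl⟩
  rw [← hSS] at hV
  rw [← hSS, ← hW] at hS
  rw [← hW] at h1
  have hp := v4e_pre A hA hκ hζ hV
  have hval1 : (2 : ZMod 3).val = 2 := rfl
  rw [hval1] at hp
  have vt : A.valuation (F * (r * (β₀ : ℂ))) = A.valuation (β₀ : ℂ) := by
    rw [map_mul, map_mul, hF, vr, one_mul, one_mul]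
  have h2 : A.valuation (S - emb la * (F * (r * (β₀ : ℂ)))) ≤ A.valuation 3 := by
    have e : S - emb la * (F * (r * (β₀ : ℂ))) = (S - F * W) + F * (W - emb la * (r * β₀)) := by ring
    rw [e]
    refine (A.valuation.map_add _ _).trans (max_le hS ?_)
    rw [map_mul, hF, one_mul]
    exact h1
  obtain ⟨k1, k2⟩ := v4e_val A hA (by rw [vt]; exact CUL.w_int_le A β₀) h2
  rw [vt] at k2
  have h3 : A.valuation (u₂ / emb la) = 1 ↔ A.valuation (β₀ : ℂ) = 1 := by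
    have hl := CUL.w_la_lt A hA
    have h4 : A.valuation (u₂ / emb la - (β₀ : ℂ)) < 1 := by
      have e : u₂ / emb la - (β₀ : ℂ) = (u₂ / emb la - ((β₀ : ℂ) + (β₁ : ℂ) * emb la)) + (β₁ : ℂ) * emb la := by ring
      rw [e]
      refine lt_of_le_of_lt (A.valuation.map_add _ _) (max_lt (lt_of_le_of_lt hdig hA) ?_)
      rw [map_mul]
      exact lt_of_le_of_lt (mul_le_mul' (CUL.w_int_le A β₁) le_rfl) (by rwa [one_mul])
    constructor
    · intro h5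
      have e : (β₀ : ℂ) = u₂ / emb la - (u₂ / emb la - (β₀ : ℂ)) := by ring
      rw [e, Valuation.map_sub_eq_of_lt_left _ (by rw [h5]; exact h4), h5]
    · intro h5
      have e : u₂ / emb la = (u₂ / emb la - (β₀ : ℂ)) + (β₀ : ℂ) := by ring
      rw [e, Valuation.map_add_eq_of_lt_right _ (by rw [h5]; exact h4), h5]
  rw [h3, ← k2]
  obtain ⟨x, hx⟩ : ∃ x, x = A.valuation (emb la) := ⟨_, rfl⟩
  obtain ⟨y, hy⟩ : ∃ y, y = A.valuation S := ⟨_, rfl⟩
  obtain ⟨v, hv⟩ : ∃ v, v = A.valuation (V4 L 2 (i : ZMod 3)) := ⟨_, rfl⟩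
  rw [← hx, ← hy, ← hv] at hp
  rw [← hx, ← hy] at k1
  rw [← hx] at hl0
  rw [← hx, ← hy, ← hv]
  have hx0 : 0 < x := pos_iff_ne_zero.2 hl0
  refine ⟨?_, ?_, ?_⟩
  · refine le_of_mul_le_mul_right (a := x ^ 2) ?_ (pow_pos hx0 2)
    rw [hp, ← pow_add]
    calc x ^ 9 * y ^ 3 ≤ x ^ 9 * x ^ 3 := mul_le_mul' le_rfl (pow_le_pow_left₀ zero_le k1 3)
      _ = x ^ (10 + 2) := by rw [← pow_add]
  · intro h4
    rw [h4, ← pow_add] at hp
    have h5 : x ^ 9 * y ^ 3 = x ^ 9 * x ^ 3 := by rw [← hp, ← pow_add]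
    exact (pow_left_inj₀ zero_le zero_le (by norm_num : (3 : ℕ) ≠ 0)).1 (mul_left_cancel₀ (pow_ne_zero 9 hl0) h5)
  · intro h4
    rw [h4] at hp
    apply mul_right_cancel₀ (pow_ne_zero 2 hl0)
    rw [hp, ← pow_add, ← pow_add]

end JGL
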