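import Pool.Agent.JGL.V4

/-!
# [JGL-V4e] part 1: algebra of the summand `S4`

`x_j = τ(λ^j z) = s t_j`, `s² = λ`. `S4 = w 2^k x^k (N(x) + sg N(-x)) / ((1 + 3 x₀²) (1 + 3 x₁²) (1 - x₂²))` with
`N(x) = (1 + x₀)^(2 - e1) (1 - x₀)^(e2) (1 - x₂) Ph(1 + x₁, 1 - x₁)`, `Ph` the homogeneous form of `P1`.
-/

set_option autoImplicit false

open NumberField IsDedekindDomain Filter Topology
open scoped Classical ComplexConjugate

namespace JGL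

open CM27 JZ
open CU (la eE)
open CUL (Nl ez si ta DS Cont LV IsRep rp cr mn mo zw OT GalU W3 W9)
open JL (N1 KD sD Psi6)

/-! ## algebra -/

/-- the homogeneous form of `P1` -/
def v4e_Ph {O : Type*} [CommRing O] (v ρ σ : O) (a i : ZMod 3) (U V : O) : O :=
  if a = 1 then
    (if i = 2 then U ^ 2 - ρ * v * V ^ 2 else if i = 0 then U * (V - ρ * U) else v * (V * (V - ρ * U)))
  else
    (if i = 2 then U ^ 2 + v * σ * V ^ 2 + v * σ ^ 2 * (U * V) else if i = 0 then U * V + σ * U ^ 2 + v * σ ^ 2 * V ^ 2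
      else v * (V ^ 2 + σ * (U * V) + σ ^ 2 * U ^ 2))

/-- the factor of `N` in `x₀` and `x₂` -/
def v4e_E {O : Type*} [CommRing O] (p q : ℕ) (x₀ x₂ : O) : O := (1 + x₀) ^ p * (1 - x₀) ^ q * (1 - x₂)

/-- the coefficient of `x₁²` -/
def v4e_g (i : ZMod 3) : ℤ := if i = 2 then 0 else if i = 0 then 1 else -1

theorem v4e_zmod (k : ZMod 3) : k = 0 ∨ k = 1 ∨ k = 2 := by
  revert k
  decide

theorem v4e_E_eq {O : Type*} [CommRing O] {v s t₀ t₂ : O} (hs : s ^ 2 = 1 - v) (hv : v ^ 2 = -1 - v) {k a : ZMod 3}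
    (ha : a = 1 ∨ a = 2) : ∃ c' e f : O,
      v4e_E (2 - e1 k a) (e2 k a) (s * t₀) (s * t₂) =
        1 + (1 - v) * e + s * (((if a = 1 then 1 else -1) + (1 - v) * c') * t₀ - t₂ + (1 - v) * f) ∧
      v4e_E (2 - e1 k a) (e2 k a) (-(s * t₀)) (-(s * t₂)) =
        1 + (1 - v) * e - s * (((if a = 1 then 1 else -1) + (1 - v) * c') * t₀ - t₂ + (1 - v) * f) := by
  have h2 : (2 : ZMod 3) ≠ 1 := by decide
  rcases ha with rfl | rfl <;> rcases v4e_zmod k with rfl | rfl | rfl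
  · refine ⟨0, -t₀ ^ 2 - t₀ * t₂ + (1 - v) * (t₀ ^ 3 * t₂), -t₀ ^ 3 + t₀ ^ 2 * t₂, ?_, ?_⟩
    · show (1 + s * t₀) ^ 2 * (1 - s * t₀) ^ 1 * (1 - s * t₂) = _
      rw [if_pos rfl]
      linear_combination (-t₀ ^ 2 - t₀ * t₂ + s * (-t₀ ^ 3 + t₀ ^ 2 * t₂) + (s ^ 2 + 1 - v) * (t₀ ^ 3 * t₂)) * hs
    · show (1 + -(s * t₀)) ^ 2 * (1 - -(s * t₀)) ^ 1 * (1 - -(s * t₂)) = _
      rw [if_pos rfl]
      linear_combination (-t₀ ^ 2 - t₀ * t₂ - s * (-t₀ ^ 3 + t₀ ^ 2 * t₂) + (s ^ 2 + 1 - v) * (t₀ ^ 3 * t₂)) * hs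
  · refine ⟨v ^ 2 * (1 - v), t₀ ^ 2 + 2 * (t₀ * t₂), -(t₀ ^ 2 * t₂), ?_, ?_⟩
    · show (1 + s * t₀) ^ 0 * (1 - s * t₀) ^ 2 * (1 - s * t₂) = _
      rw [if_pos rfl]
      linear_combination (t₀ ^ 2 + 2 * (t₀ * t₂) - s * (t₀ ^ 2 * t₂)) * hs + s * t₀ * (-3 + 3 * v - v ^ 2) * hv
    · show (1 + -(s * t₀)) ^ 0 * (1 - -(s * t₀)) ^ 2 * (1 - -(s * t₂)) = _
      rw [if_pos rfl]
      linear_combination (t₀ ^ 2 + 2 * (t₀ * t₂) + s * (t₀ ^ 2 * t₂)) * hs - s * t₀ * (-3 + 3 * v - v ^ 2) * hv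
  · refine ⟨0, -(t₀ * t₂), 0, ?_, ?_⟩
    · show (1 + s * t₀) ^ 1 * (1 - s * t₀) ^ 0 * (1 - s * t₂) = _
      rw [if_pos rfl]
      linear_combination (-(t₀ * t₂)) * hs
    · show (1 + -(s * t₀)) ^ 1 * (1 - -(s * t₀)) ^ 0 * (1 - -(s * t₂)) = _
      rw [if_pos rfl]
      linear_combination (-(t₀ * t₂)) * hs
  · refine ⟨0, -t₀ ^ 2 + t₀ * t₂ - (1 - v) * (t₀ ^ 3 * t₂), t₀ ^ 3 + t₀ ^ 2 * t₂, ?_, ?_⟩
    · show (1 + s * t₀) ^ 1 * (1 - s * t₀) ^ 2 * (1 - s * t₂) = _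
      rw [if_neg h2]
      linear_combination (-t₀ ^ 2 + t₀ * t₂ + s * (t₀ ^ 3 + t₀ ^ 2 * t₂) - (s ^ 2 + 1 - v) * (t₀ ^ 3 * t₂)) * hs
    · show (1 + -(s * t₀)) ^ 1 * (1 - -(s * t₀)) ^ 2 * (1 - -(s * t₂)) = _
      rw [if_neg h2]
      linear_combination (-t₀ ^ 2 + t₀ * t₂ - s * (t₀ ^ 3 + t₀ ^ 2 * t₂) - (s ^ 2 + 1 - v) * (t₀ ^ 3 * t₂)) * hs
  · refine ⟨-(v ^ 2 * (1 - v)), t₀ ^ 2 - 2 * (t₀ * t₂), -(t₀ ^ 2 * t₂), ?_, ?_⟩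
    · show (1 + s * t₀) ^ 2 * (1 - s * t₀) ^ 0 * (1 - s * t₂) = _
      rw [if_neg h2]
      linear_combination (t₀ ^ 2 - 2 * (t₀ * t₂) - s * (t₀ ^ 2 * t₂)) * hs - s * t₀ * (-3 + 3 * v - v ^ 2) * hv
    · show (1 + -(s * t₀)) ^ 2 * (1 - -(s * t₀)) ^ 0 * (1 - -(s * t₂)) = _
      rw [if_neg h2]
      linear_combination (t₀ ^ 2 - 2 * (t₀ * t₂) + s * (t₀ ^ 2 * t₂)) * hs + s * t₀ * (-3 + 3 * v - v ^ 2) * hv
  · refine ⟨0, t₀ * t₂, 0, ?_, ?_⟩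
    · show (1 + s * t₀) ^ 0 * (1 - s * t₀) ^ 1 * (1 - s * t₂) = _
      rw [if_neg h2]
      linear_combination (t₀ * t₂) * hs
    · show (1 + -(s * t₀)) ^ 0 * (1 - -(s * t₀)) ^ 1 * (1 - -(s * t₂)) = _
      rw [if_neg h2]
      linear_combination (t₀ * t₂) * hs

theorem v4e_Ph_eq {O : Type*} [CommRing O] {v s : O} (hs : s ^ 2 = 1 - v) (hv : v ^ 2 = -1 - v)
    {ρ ρ' σ σ' : O} (hρ : ρ = 1 + (1 - v) * ρ') (hσ : σ = 1 + (1 - v) * σ') {a : ZMod 3} (i : ZMod 3)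
    (ha : a = 1 ∨ a = 2) : ∃ n p₁ p₂ : O, ∀ t₁ : O,
      v4e_Ph v ρ σ a i (1 + s * t₁) (1 - s * t₁) =
        (1 - v) * n + (1 - v) * (((if a = 1 then (v4e_g i : O) else 1) + (1 - v) * p₂) * t₁ ^ 2) +
          s * (((if a = 1 then 1 else 0) + (1 - v) * p₁) * t₁) ∧
      v4e_Ph v ρ σ a i (1 - s * t₁) (1 + s * t₁) =
        (1 - v) * n + (1 - v) * (((if a = 1 then (v4e_g i : O) else 1) + (1 - v) * p₂) * t₁ ^ 2) -
          s * (((if a = 1 then 1 else 0) + (1 - v) * p₁) * t₁) := by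
  have h21 : (2 : ZMod 3) ≠ 1 := by decide
  have h02 : (0 : ZMod 3) ≠ 2 := by decide
  have h12 : (1 : ZMod 3) ≠ 2 := by decide
  have h10 : (1 : ZMod 3) ≠ 0 := by decide
  have h20 : (2 : ZMod 3) ≠ 0 := by decide
  have h3 : (3 : O) = -(1 - v) ^ 2 * v ^ 2 := by linear_combination (v ^ 2 - 3 * v + 3) * hv
  rcases ha with rfl | rfl <;> rcases v4e_zmod i with rfl | rfl | rfl
  · refine ⟨-ρ', (1 - v) * v ^ 2 - 2 * ρ', (1 - v) * v ^ 2 - ρ', fun t => ⟨?_, ?_⟩⟩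
    · rw [v4e_Ph, if_pos rfl, if_neg h02, if_pos rfl, if_pos rfl, if_pos rfl, v4e_g, if_neg h02, if_pos rfl, hρ]
      push_cast
      linear_combination (-2 - (1 - v) * ρ') * t ^ 2 * hs - (1 - v) * t ^ 2 * h3 - s * t * h3
    · rw [v4e_Ph, if_pos rfl, if_neg h02, if_pos rfl, if_pos rfl, if_pos rfl, v4e_g, if_neg h02, if_pos rfl, hρ]
      push_cast
      linear_combination (-2 - (1 - v) * ρ') * t ^ 2 * hs - (1 - v) * t ^ 2 * h3 + s * t * h3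
  · refine ⟨-v * ρ', (1 - v) * v ^ 2 + 2, -(1 - v) * v ^ 2 - 2 + v * ρ', fun t => ⟨?_, ?_⟩⟩
    · rw [v4e_Ph, if_pos rfl, if_neg h12, if_neg h10, if_pos rfl, if_pos rfl, v4e_g, if_neg h12, if_neg h10, hρ]
      push_cast
      linear_combination v * (2 + (1 - v) * ρ') * t ^ 2 * hs + (1 - v) * t ^ 2 * h3 - s * t * h3
    · rw [v4e_Ph, if_pos rfl, if_neg h12, if_neg h10, if_pos rfl, if_pos rfl, v4e_g, if_neg h12, if_neg h10, hρ]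
      push_cast
      linear_combination v * (2 + (1 - v) * ρ') * t ^ 2 * hs + (1 - v) * t ^ 2 * h3 + s * t * h3
  · refine ⟨1 - ρ' * v, -(1 - v) * v ^ 2 - 2 + 2 * ρ' * v, 1 - ρ' * v, fun t => ⟨?_, ?_⟩⟩
    · rw [v4e_Ph, if_pos rfl, if_pos rfl, if_pos rfl, if_pos rfl, v4e_g, if_pos rfl, hρ]
      push_cast
      linear_combination (1 - (1 + (1 - v) * ρ') * v) * t ^ 2 * hs + s * t * h3
    · rw [v4e_Ph, if_pos rfl, if_pos rfl, if_pos rfl, if_pos rfl, v4e_g, if_pos rfl, hρ]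
      push_cast
      linear_combination (1 - (1 + (1 - v) * ρ') * v) * t ^ 2 * hs - s * t * h3
  · refine ⟨-(1 - v) * v ^ 2 - 1 + σ' + 2 * v * σ' + v * (1 - v) * σ' ^ 2,
      2 + 2 * σ' - 4 * v * σ' - 2 * v * (1 - v) * σ' ^ 2, -1 + σ' + 2 * v * σ' + v * (1 - v) * σ' ^ 2, fun t => ⟨?_, ?_⟩⟩
    · rw [v4e_Ph, if_neg h21, if_neg h02, if_pos rfl, if_neg h21, if_neg h21, hσ]
      linear_combination (-1 + (1 + (1 - v) * σ') + v * (1 + (1 - v) * σ') ^ 2) * t ^ 2 * hs + h3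
    · rw [v4e_Ph, if_neg h21, if_neg h02, if_pos rfl, if_neg h21, if_neg h21, hσ]
      linear_combination (-1 + (1 + (1 - v) * σ') + v * (1 + (1 - v) * σ') ^ 2) * t ^ 2 * hs + h3
  · refine ⟨v * (-(1 - v) * v ^ 2 + 3 * σ' + (1 - v) * σ' ^ 2), v * (4 * σ' + 2 * (1 - v) * σ' ^ 2),
      -1 + v * σ' + v * (1 - v) * σ' ^ 2, fun t => ⟨?_, ?_⟩⟩
    · rw [v4e_Ph, if_neg h21, if_neg h12, if_neg h10, if_neg h21, if_neg h21, hσ]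
      linear_combination v * (1 - (1 + (1 - v) * σ') + (1 + (1 - v) * σ') ^ 2) * t ^ 2 * hs + v * h3
    · rw [v4e_Ph, if_neg h21, if_neg h12, if_neg h10, if_neg h21, if_neg h21, hσ]
      linear_combination v * (1 - (1 + (1 - v) * σ') + (1 + (1 - v) * σ') ^ 2) * t ^ 2 * hs + v * h3
  · refine ⟨-(1 - v) * v ^ 2 - 2 + v * (3 * σ' + (1 - v) * σ' ^ 2), 2 - 2 * v * σ',
      -v * σ' - v * (1 - v) * σ' ^ 2, fun t => ⟨?_, ?_⟩⟩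
    · rw [v4e_Ph, if_neg h21, if_pos rfl, if_neg h21, if_neg h21, hσ]
      linear_combination (1 + v * (1 + (1 - v) * σ') - v * (1 + (1 - v) * σ') ^ 2) * t ^ 2 * hs + h3
    · rw [v4e_Ph, if_neg h21, if_pos rfl, if_neg h21, if_neg h21, hσ]
      linear_combination (1 + v * (1 + (1 - v) * σ') - v * (1 + (1 - v) * σ') ^ 2) * t ^ 2 * hs + h3

/-- the leading form -/
def v4e_Q {O : Type*} [CommRing O] (a i : ZMod 3) (t₀ t₁ t₂ : O) : O :=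
  if a = 1 then t₀ * t₁ - t₁ * t₂ + (v4e_g i : O) * t₁ ^ 2 else t₁ ^ 2

theorem v4e_N {O : Type*} [CommRing O] {v s : O} (hs : s ^ 2 = 1 - v) (hv : v ^ 2 = -1 - v)
    {ρ ρ' σ σ' : O} (hρ : ρ = 1 + (1 - v) * ρ') (hσ : σ = 1 + (1 - v) * σ') {a : ZMod 3} (i k : ZMod 3)
    (ha : a = 1 ∨ a = 2) : ∃ n : O, ∀ t₀ t₁ t₂ : O, ∃ H : O,
      v4e_E (2 - e1 k a) (e2 k a) (s * t₀) (s * t₂) * v4e_Ph v ρ σ a i (1 + s * t₁) (1 - s * t₁) +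
        v4e_E (2 - e1 k a) (e2 k a) (-(s * t₀)) (-(s * t₂)) * v4e_Ph v ρ σ a i (1 - s * t₁) (1 + s * t₁) =
        (1 - v) * n + 2 * (1 - v) * v4e_Q a i t₀ t₁ t₂ + (1 - v) ^ 2 * H := by
  obtain ⟨n, p₁, p₂, hP⟩ := v4e_Ph_eq hs hv hρ hσ i ha
  refine ⟨2 * n, fun t₀ t₁ t₂ => ?_⟩
  obtain ⟨c', e, f, hE, hE'⟩ := v4e_E_eq (t₀ := t₀) (t₂ := t₂) hs hv (k := k) ha
  obtain ⟨hP1, hP2⟩ := hP t₁
  rw [hE, hE', hP1, hP2]
  have h2 : (2 : ZMod 3) ≠ 1 := by decide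
  rcases ha with rfl | rfl
  · refine ⟨2 * (p₂ * t₁ ^ 2 + e * (n + ((v4e_g i : O) + (1 - v) * p₂) * t₁ ^ 2) + (t₀ - t₂) * t₁ * p₁ +
      (c' * t₀ + f) * (1 + (1 - v) * p₁) * t₁), ?_⟩
    rw [v4e_Q, if_pos rfl, if_pos rfl, if_pos rfl, if_pos rfl]
    linear_combination 2 * (t₀ + (1 - v) * c' * t₀ - t₂ + (1 - v) * f) * ((1 + (1 - v) * p₁) * t₁) * hs
  · refine ⟨2 * (p₂ * t₁ ^ 2 + e * (n + (1 + (1 - v) * p₂) * t₁ ^ 2) +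
      ((-1 + (1 - v) * c') * t₀ - t₂ + (1 - v) * f) * p₁ * t₁), ?_⟩
    rw [v4e_Q, if_neg h2, if_neg h2, if_neg h2, if_neg h2]
    linear_combination 2 * ((-1 + (1 - v) * c') * t₀ - t₂ + (1 - v) * f) * ((1 - v) * p₁ * t₁) * hs

/-! ## the summand in terms of `τ` -/

theorem v4e_la : emb la = 1 - w := CUL.emb_la

theorem v4e_th : th = w * (1 - w) := by rw [th_eq, v4e_la]

/-- `(1 - x₀)³ = (1 + θ x₁) (1 + 3 x₀²)` -/
theorem v4e_rel {x₀ x₁ : ℂ} (h : -th * x₁ * (1 + 3 * x₀ ^ 2) = x₀ ^ 3 + 3 * x₀) :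
    (1 - x₀) ^ 3 = (1 + th * x₁) * (1 + 3 * x₀ ^ 2) ∧ (1 + x₀) ^ 3 = (1 - th * x₁) * (1 + 3 * x₀ ^ 2) :=
  ⟨by linear_combination h, by linear_combination -h⟩

theorem v4e_U {x : ℂ} (h : 1 - x ≠ 0) : 1 + (1 + x) / (1 - x) = 2 / (1 - x) ∧
    1 + w * ((1 + x) / (1 - x)) = -w ^ 2 * (1 + th * x) / (1 - x) := by
  have h2 := CUL.w2
  have h3 := CUL.w3
  refine ⟨by field_simp; ring, ?_⟩
  rw [v4e_th]
  field_simp
  linear_combination h2 + x * (1 - w) * h3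

theorem v4e_P {x : ℂ} (h : 1 - x ≠ 0) (a i k : ZMod 3) :
    P1 a i k ((1 + x) / (1 - x)) = v4e_Ph w (zw (2 - k)) (zw k) a i (1 + x) (1 - x) / (1 - x) ^ 2 ∧
      P2 a i k ((1 + x) / (1 - x)) = v4e_Ph w (zw (2 - k)) (zw k) a i (1 - x) (1 + x) / (1 - x) ^ 2 := by
  unfold P1 P2 v4e_Ph
  refine ⟨?_, ?_⟩
  · split_ifs <;> field_simp
  · split_ifs <;> field_simp

theorem v4e_pq (k : ZMod 3) {a : ZMod 3} (ha : a = 1 ∨ a = 2) : k.val + (2 - e1 k a) + e2 k a = 3 := by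
  rcases ha with rfl | rfl <;> rcases v4e_zmod k with rfl | rfl | rfl <;> rfl

theorem v4e_core {p q k : ℕ} (h : k + p + q = 3) {X x₀ x₁ x₂ u v sg α β A B : ℂ} (h0 : 1 - x₀ ≠ 0)
    (h1 : 1 - x₁ ≠ 0) (h2 : 1 - x₂ ≠ 0) (h2' : 1 + x₂ ≠ 0) (r0 : (1 - x₀) ^ 3 = α * u) (r1 : (1 - x₁) ^ 3 = β * v) :
    (X * (2 / (1 - x₀))) ^ k * (-w ^ 2 * α / (1 - x₁)) * (-w ^ 2 * β / (1 - x₂)) *
      (((1 + x₀) / (1 - x₀)) ^ p * (A / (1 - x₁) ^ 2) / ((1 + x₂) / (1 - x₂)) +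
        sg * ((1 + x₀) / (1 - x₀)) ^ q * (B / (1 - x₁) ^ 2)) * (u * v * (1 - x₂ ^ 2)) =
      w * (2 * X) ^ k * (v4e_E p q x₀ x₂ * A + sg * (v4e_E p q (-x₀) (-x₂) * B)) := by
  have h3 := CUL.w3
  have e1 : (1 - x₀) ^ 3 = (1 - x₀) ^ k * (1 - x₀) ^ p * (1 - x₀) ^ q := by rw [← pow_add, ← pow_add, h]
  have e2 : (X * (2 / (1 - x₀))) ^ k * (-w ^ 2 * α / (1 - x₁)) * (-w ^ 2 * β / (1 - x₂)) *
      (((1 + x₀) / (1 - x₀)) ^ p * (A / (1 - x₁) ^ 2) / ((1 + x₂) / (1 - x₂)) +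
        sg * ((1 + x₀) / (1 - x₀)) ^ q * (B / (1 - x₁) ^ 2)) * (u * v * (1 - x₂ ^ 2)) =
      w ^ 3 * w * (2 * X) ^ k * ((α * u) * (β * v)) / ((1 - x₀) ^ k * (1 - x₁) * (1 - x₂)) *
      ((1 + x₀) ^ p / (1 - x₀) ^ p * (A / (1 - x₁) ^ 2) / ((1 + x₂) / (1 - x₂)) +
        sg * ((1 + x₀) ^ q / (1 - x₀) ^ q) * (B / (1 - x₁) ^ 2)) * (1 - x₂ ^ 2) := by
    rw [mul_pow X, div_pow 2, div_pow (1 + x₀), div_pow (1 + x₀), mul_pow 2 X]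
    field_simp
  rw [e2, h3, one_mul, ← r0, ← r1, e1, v4e_E, v4e_E]
  have e3 : (1 - x₀) ^ k ≠ 0 := pow_ne_zero k h0
  have e4 : (1 - x₀) ^ p ≠ 0 := pow_ne_zero p h0
  have e5 : (1 - x₀) ^ q ≠ 0 := pow_ne_zero q h0
  have e6 : 1 + -x₀ = 1 - x₀ := by ring
  have e7 : 1 - -x₀ = 1 + x₀ := by ring
  have e8 : 1 - -x₂ = 1 + x₂ := by ring
  rw [e6, e7, e8]
  generalize (1 - x₀) ^ k = a1 at *
  generalize (1 - x₀) ^ p = a2 at *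
  generalize (1 - x₀) ^ q = a3 at *
  generalize (1 + x₀) ^ p = a4 at *
  generalize (1 + x₀) ^ q = a5 at *
  field_simp
  ring

theorem v4e_S4 (sg : ℂ) {a : ZMod 3} (ha : a = 1 ∨ a = 2) (i k : ZMod 3) {z x₀ x₁ x₂ : ℂ}
    (u0 : Um z = (1 + x₀) / (1 - x₀)) (u1 : Um (emb la * z) = (1 + x₁) / (1 - x₁))
    (u2 : Um (emb la ^ 2 * z) = (1 + x₂) / (1 - x₂)) (h0 : 1 - x₀ ≠ 0)
    (h1 : 1 - x₁ ≠ 0) (h2 : 1 - x₂ ≠ 0) (h2' : 1 + x₂ ≠ 0) (r0 : (1 - x₀) ^ 3 = (1 + th * x₁) * (1 + 3 * x₀ ^ 2))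
    (r1 : (1 - x₁) ^ 3 = (1 + th * x₂) * (1 + 3 * x₁ ^ 2)) :
    S4 sg a i k z * ((1 + 3 * x₀ ^ 2) * (1 + 3 * x₁ ^ 2) * (1 - x₂ ^ 2)) =
      w * (2 * xm z) ^ k.val * (v4e_E (2 - e1 k a) (e2 k a) x₀ x₂ * v4e_Ph w (zw (2 - k)) (zw k) a i (1 + x₁) (1 - x₁) +
        sg * (v4e_E (2 - e1 k a) (e2 k a) (-x₀) (-x₂) * v4e_Ph w (zw (2 - k)) (zw k) a i (1 - x₁) (1 + x₁))) := by
  rw [← v4e_core (v4e_pq k ha) h0 h1 h2 h2' r0 r1, S4, u0, u1, u2, (v4e_U h0).1, (v4e_U h1).2, (v4e_U h2).2,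
    (v4e_P h1 a i k).1, (v4e_P h1 a i k).2]

section

variable (A : ValuationSubring ℂ) (hA : A.valuation 3 < 1)

theorem v4e_unit {s : ℂ} (hs : s ^ 2 = emb la) : s ≠ 0 ∧ A.valuation s ^ 2 = A.valuation (emb la) := by
  refine ⟨?_, by rw [← map_pow, hs]⟩
  rintro rfl
  exact CUL.la_ne (by rw [← hs]; norm_num)

include hA in
theorem v4e_lt {s : ℂ} (hs : s ^ 2 = emb la) : A.valuation s < 1 := by
  have h1 := (v4e_unit A hs).2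
  have h2 := CUL.w_la_lt A hA
  by_contra h
  push Not at h
  rw [← h1] at h2
  exact absurd (one_le_pow₀ h (n := 2)) (not_le.2 h2)

include hA in
/-- `τ(z) = s t` -/
theorem v4e_tau {s : ℂ} (hs : s ^ 2 = emb la) {z : ℂ} (hz : OT z) : ∃ t : A, Tm z = s * (t : ℂ) := by
  have h1 := Tm_val A hA hz
  obtain ⟨h2, h3⟩ := v4e_unit A hs
  apply JX.a5a_lift h2
  rw [← h3] at h1
  exact (pow_le_pow_iff_left₀ zero_le zero_le (by norm_num)).1 h1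

include hA in
theorem v4e_ne {s : ℂ} (hs : s ^ 2 = emb la) (t : A) : 1 - s * (t : ℂ) ≠ 0 ∧ 1 + s * (t : ℂ) ≠ 0 := by
  have h1 : A.valuation (s * (t : ℂ)) < 1 := by
    rw [map_mul]
    exact lt_of_le_of_lt (mul_le_mul' le_rfl (JX.a4b_le A t)) (by rw [mul_one]; exact v4e_lt A hA hs)
  refine ⟨fun h => ?_, fun h => ?_⟩
  · have h2 := Valuation.map_one_sub_of_lt _ h1
    rw [h, map_zero] at h2
    exact zero_ne_one h2
  · have h2 := Valuation.map_one_add_of_lt _ h1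
    rw [h, map_zero] at h2
    exact zero_ne_one h2

include hA in
/-- `1 + λ d` is a unit -/
theorem v4e_inv (d : A) : ∃ d' : A, (1 + emb la * (d : ℂ)) * (d' : ℂ) = 1 := by
  have h1 : A.valuation (emb la * (d : ℂ)) < 1 := by
    rw [map_mul]
    exact lt_of_le_of_lt (mul_le_mul' le_rfl (JX.a4b_le A d)) (by rw [mul_one]; exact CUL.w_la_lt A hA)
  have h2 := Valuation.map_one_add_of_lt _ h1
  have h0 : 1 + emb la * (d : ℂ) ≠ 0 := by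
    intro h
    rw [h, map_zero] at h2
    exact zero_ne_one h2
  refine ⟨⟨(1 + emb la * (d : ℂ))⁻¹, (ValuationSubring.valuation_le_one_iff A _).1 ?_⟩, ?_⟩
  · rw [map_inv₀, h2, inv_one]
  · exact mul_inv_cancel₀ h0

theorem v4e_zw (m : ZMod 3) : ∃ ρ' : A, (1 : A) + (1 - wA A) * ρ' = wA A ^ m.val := by
  have h1 : (1 : A) - wA A ∣ 1 ^ m.val - wA A ^ m.val := sub_dvd_pow_sub_pow _ _ _
  obtain ⟨c, hc⟩ := h1
  exact ⟨-c, by rw [one_pow] at hc; linear_combination hc⟩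

theorem v4e_zwA (m : ZMod 3) : ((wA A ^ m.val : A) : ℂ) = zw m := by
  push_cast
  rfl

theorem v4e_castE (p q : ℕ) (x y : A) : ((v4e_E p q x y : A) : ℂ) = v4e_E p q (x : ℂ) (y : ℂ) := by
  unfold v4e_E
  push_cast
  rfl

theorem v4e_castPh (v ρ σ : A) (a i : ZMod 3) (x y : A) : ((v4e_Ph v ρ σ a i x y : A) : ℂ) =
    v4e_Ph (v : ℂ) (ρ : ℂ) (σ : ℂ) a i (x : ℂ) (y : ℂ) := by
  unfold v4e_Ph
  split_ifs <;> push_cast <;> rfl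

include hA in
/-- the expansion of the summand -/
theorem v4e_exp {s : ℂ} (hs : s ^ 2 = emb la) {a : ZMod 3} (ha : a = 1 ∨ a = 2) (i k : ZMod 3) :
    ∃ n F : A, A.valuation (F : ℂ) = 1 ∧ ∀ z : ℂ, OT z → ∃ t₀ t₁ t₂ H : A, Tm z = s * (t₀ : ℂ) ∧
      Tm (emb la * z) = s * (t₁ : ℂ) ∧ Tm (emb la ^ 2 * z) = s * (t₂ : ℂ) ∧
      S4 1 a i k z = emb la * F * ((n : ℂ) + 2 * (v4e_Q a i t₀ t₁ t₂ : A)) + emb la ^ 2 * (H : ℂ) := by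
  obtain ⟨r, hr⟩ := JL.a4_exists_r
  have hrv := JZ.a1_r A hA hr
  have hrA : r ∈ A := (ValuationSubring.valuation_le_one_iff A _).1 hrv.le
  have hsv := v4e_lt A hA hs
  have hsA : s ∈ A := (ValuationSubring.valuation_le_one_iff A _).1 hsv.le
  obtain ⟨ρ', hρ'⟩ := v4e_zw A (2 - k)
  obtain ⟨σ', hσ'⟩ := v4e_zw A k
  have hsA' : (⟨s, hsA⟩ : A) ^ 2 = 1 - wA A := by
    apply Subtype.ext
    have h1 := coe_la A
    rw [h1]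
    push_cast
    exact hs
  obtain ⟨n, hn⟩ := v4e_N hsA' (wA_sq A) hρ'.symm hσ'.symm i k ha
  have hwc : ((wA A : A) : ℂ) = w := rfl
  have h2c : ((2 : A) : ℂ) = 2 := rfl
  refine ⟨n, wA A * (2 * wA A * ⟨r, hrA⟩) ^ k.val, ?_, fun z hz => ?_⟩
  · push_cast
    rw [map_mul, map_pow, map_mul, map_mul, hwc, h2c, CUL.w_w A, JZ.a1_two A hA, hrv]
    norm_num
  · have hz1 : OT (emb la * z) := CUL.u7_la_mul hz
    have hz2 : OT (emb la ^ 2 * z) := by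
      have h1 := CUL.u7_la_mul hz1
      rwa [← mul_assoc, ← pow_two] at h1
    obtain ⟨t₀, ht₀⟩ := v4e_tau A hA hs hz
    obtain ⟨t₁, ht₁⟩ := v4e_tau A hA hs hz1
    obtain ⟨t₂, ht₂⟩ := v4e_tau A hA hs hz2
    obtain ⟨H, hH⟩ := hn t₀ t₁ t₂
    obtain ⟨X, hX⟩ := JX.a5a_lift CUL.la_ne (JZ.x_sub_r A hA hr hz)
    obtain ⟨Y, hY⟩ : ∃ Y : A, (⟨r, hrA⟩ + (1 - wA A) * X) ^ k.val = (⟨r, hrA⟩ : A) ^ k.val + (1 - wA A) * Y := by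
      have h1 : (⟨r, hrA⟩ + (1 - wA A) * X) - (⟨r, hrA⟩ : A) ∣
          (⟨r, hrA⟩ + (1 - wA A) * X) ^ k.val - (⟨r, hrA⟩ : A) ^ k.val := sub_dvd_pow_sub_pow _ _ _
      obtain ⟨c, hc⟩ := h1
      exact ⟨X * c, by linear_combination hc⟩
    obtain ⟨d, hd⟩ : ∃ d : A, d = 3 * t₀ ^ 2 + 3 * t₁ ^ 2 + 9 * (1 - wA A) * t₀ ^ 2 * t₁ ^ 2 -
      t₂ ^ 2 * (1 + 3 * (1 - wA A) * t₀ ^ 2) * (1 + 3 * (1 - wA A) * t₁ ^ 2) := ⟨_, rfl⟩
    have hdc : (d : ℂ) = 3 * t₀ ^ 2 + 3 * t₁ ^ 2 + 9 * (1 - w) * t₀ ^ 2 * t₁ ^ 2 -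
      t₂ ^ 2 * (1 + 3 * (1 - w) * t₀ ^ 2) * (1 + 3 * (1 - w) * t₁ ^ 2) := by
      rw [hd]
      rfl
    obtain ⟨D', hD'⟩ := v4e_inv A hA d
    have r0 := v4e_rel (Tm_la hz)
    have r1 := v4e_rel (Tm_la hz1)
    have hll : emb la * (emb la * z) = emb la ^ 2 * z := by ring
    rw [hll, ht₁, ht₂] at r1
    rw [ht₀, ht₁] at r0
    have key := v4e_S4 1 ha i k (x₀ := s * t₀) (x₁ := s * t₁) (x₂ := s * t₂) (by rw [Um_eq, ht₀])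
      (by rw [Um_eq, ht₁]) (by rw [Um_eq, ht₂]) (v4e_ne A hA hs t₀).1 (v4e_ne A hA hs t₁).1 (v4e_ne A hA hs t₂).1
      (v4e_ne A hA hs t₂).2 r0.1 r1.1
    have hzw1 : ((wA A : A) : ℂ) ^ (2 - k).val = zw (2 - k) := rfl
    have hzw2 : ((wA A : A) : ℂ) ^ k.val = zw k := rfl
    have hN : v4e_E (2 - e1 k a) (e2 k a) (s * t₀) (s * t₂) * v4e_Ph w (zw (2 - k)) (zw k) a i (1 + s * t₁) (1 - s * t₁) +
        v4e_E (2 - e1 k a) (e2 k a) (-(s * t₀)) (-(s * t₂)) *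
          v4e_Ph w (zw (2 - k)) (zw k) a i (1 - s * t₁) (1 + s * t₁) =
        emb la * ((n : ℂ) + 2 * (v4e_Q a i t₀ t₁ t₂ : A)) + emb la ^ 2 * (H : ℂ) := by
      have h1 := congrArg (fun y : A => (y : ℂ)) hH
      push_cast at h1
      rw [v4e_castE, v4e_castE, v4e_castPh, v4e_castPh] at h1
      push_cast at h1
      rw [hzw1, hzw2, hwc, h2c] at h1
      rw [h1, v4e_la]
      ring
    rw [one_mul, hN] at key
    have hxm : (2 * xm z) ^ k.val = (2 * w * r) ^ k.val + emb la * ((2 * w) ^ k.val * (Y : ℂ)) := by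
      have h1 := congrArg (fun y : A => (y : ℂ)) hY
      push_cast at h1
      rw [hwc] at h1
      have h2 : xw z = r + emb la * (X : ℂ) := by linear_combination hX
      have h3 : 2 * xm z = (2 * w) * (r + (1 - w) * (X : ℂ)) := by rw [xm, h2, v4e_la]; ring
      rw [h3, mul_pow, h1, v4e_la, mul_pow]
      ring
    rw [hxm] at key
    obtain ⟨Q, hQ⟩ : ∃ Q : A, Q = v4e_Q a i t₀ t₁ t₂ := ⟨_, rfl⟩
    rw [← hQ] at key
    obtain ⟨F, hF⟩ : ∃ F : A, F = wA A * (2 * wA A * ⟨r, hrA⟩) ^ k.val := ⟨_, rfl⟩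
    have hFc : (F : ℂ) = w * (2 * w * r) ^ k.val := by
      rw [hF]
      rfl
    obtain ⟨W, hW⟩ : ∃ W : A, W = wA A * ((2 * wA A) ^ k.val * Y) := ⟨_, rfl⟩
    have hWc : (W : ℂ) = w * ((2 * w) ^ k.val * Y) := by
      rw [hW]
      rfl
    refine ⟨t₀, t₁, t₂, (D' * W - d * D' * F) * (n + 2 * Q) + F * H + (1 - wA A) * (D' * W - d * D' * F) * H,
      ht₀, ht₁, ht₂, ?_⟩
    have hDD : (1 + 3 * (s * (t₀ : ℂ)) ^ 2) * (1 + 3 * (s * (t₁ : ℂ)) ^ 2) * (1 - (s * (t₂ : ℂ)) ^ 2) =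
        1 + emb la * (d : ℂ) := by
      rw [hdc, mul_pow, mul_pow, mul_pow, hs, v4e_la]
      ring
    rw [hDD] at key
    rw [← hQ, ← hF]
    push_cast
    rw [hwc, h2c]
    have e3 : S4 1 a i k z = (F + emb la * W) * (emb la * ((n : ℂ) + 2 * (Q : ℂ)) + emb la ^ 2 * (H : ℂ)) * D' := by
      rw [hFc, hWc]
      linear_combination (D' : ℂ) * key - S4 1 a i k z * hD'
    rw [e3]
    rw [v4e_la] at hD' ⊢
    linear_combination (F : ℂ) * ((1 - w) * ((n : ℂ) + 2 * (Q : ℂ)) + (1 - w) ^ 2 * (H : ℂ)) * hD'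

/-! ## sums over `R` -/

/-- the leading form in the functions `τ` -/
noncomputable def v4e_W (L : Lev) (a i : ZMod 3) (c : Eis) : ℂ :=
  if a = 1 then Tm (pt L c) * Tm (emb la * pt L c) - Tm (emb la * pt L c) * Tm (emb la ^ 2 * pt L c) +
    ((v4e_g i : ℤ) : ℂ) * Tm (emb la * pt L c) ^ 2 else Tm (emb la * pt L c) ^ 2

/-- the weights -/
theorem v4e_psi (L : Lev) (hep : L.ep = 0) {R : Finset Eis} (hR : IsR L R) : ∃ ψ ψ' : Eis → A,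
    (∀ c ∈ R, (ψ c : ℂ) = conj (L.chi c)) ∧ (∀ c ∈ R, ψ c = (L.q c : A) + (1 - wA A) * ψ' c) ∧
      ∑ c ∈ R, conj (L.chi c) = 0 := by
  have hcz : ∀ c ∈ R, ∃ l : ZMod 3, L.c c = zw l := fun c hc => L.c_cube c (hR.1 c hc)
  choose! l hl using hcz
  have h1 : ∀ c : Eis, ∃ x : A, (1 : A) + (1 - wA A) * x = wA A ^ (-(l c)).val := fun c => v4e_zw A _
  choose x hx using h1
  refine ⟨fun c => (L.q c : A) * wA A ^ (-(l c)).val, fun c => (L.q c : A) * x c, fun c hc => ?_, fun c hc => ?_, ?_⟩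
  · have h2 : (((L.q c : A) * wA A ^ (-(l c)).val : A) : ℂ) = (L.q c : ℂ) * w ^ (-(l c)).val := by
      push_cast
      rfl
    rw [h2, Lev.chi, map_mul, hl c hc, CUL.zw_conj, map_intCast]
    rfl
  · show (L.q c : A) * wA A ^ (-(l c)).val = _
    rw [← hx c]
    ring
  · by_cases hk : L.k = 0
    · exact sum_R_chi L hep hk hR
    · have h2 : ∀ c ∈ R, conj (L.chi c) = ((L.q c : ℤ) : ℂ) := by
        intro c hc
        rw [Lev.chi, hR.2.2 hk c hc, mul_one, map_intCast]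
      rw [Finset.sum_congr rfl h2, ← Int.cast_sum, sum_R_q L hep hR]
      simp

include hA in
theorem v4e_sum (L : Lev) (hep : L.ep = 0) {R : Finset Eis} (hR : IsR L R) {a : ZMod 3} (ha : a = 1 ∨ a = 2)
    (i : ZMod 3) : ∃ F : ℂ, A.valuation F = 1 ∧
      A.valuation (∑ c ∈ R, conj (L.chi c) * S4 1 a i L.k (pt L c) - F * ∑ c ∈ R, (L.q c : ℂ) * v4e_W L a i c) ≤
        A.valuation 3 := by
  obtain ⟨s, hs⟩ : ∃ s : ℂ, s ^ 2 = emb la := IsAlgClosed.exists_pow_nat_eq _ (by norm_num)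
  obtain ⟨n, F, hF, hex⟩ := v4e_exp A hA hs ha i L.k
  obtain ⟨ψ, ψ', hψ, hψ', hψ0⟩ := v4e_psi A L hep hR
  have h1 : ∀ c ∈ R, ∃ Q H : A, v4e_W L a i c = emb la * (Q : ℂ) ∧
      S4 1 a i L.k (pt L c) = emb la * F * ((n : ℂ) + 2 * (Q : ℂ)) + emb la ^ 2 * (H : ℂ) := by
    intro c hc
    obtain ⟨t₀, t₁, t₂, H, h0, h1, h2, h3⟩ := hex _ (OT_pt L (hR.1 c hc))
    refine ⟨v4e_Q a i t₀ t₁ t₂, H, ?_, h3⟩
    rw [v4e_W, h0, h1, h2, v4e_Q]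
    have h4 : emb la = s ^ 2 := hs.symm
    split_ifs
    · push_cast
      rw [h4]
      ring
    · push_cast
      rw [h4]
      ring
  choose! Q H hQ hH using h1
  refine ⟨2 * F, ?_, ?_⟩
  · rw [map_mul, hF, JZ.a1_two A hA, mul_one]
  · have h2 : ∑ c ∈ R, conj (L.chi c) * S4 1 a i L.k (pt L c) - 2 * F * ∑ c ∈ R, (L.q c : ℂ) * v4e_W L a i c =
        emb la ^ 2 * ((∑ c ∈ R, (ψ c * H c + 2 * F * ψ' c * Q c) : A) : ℂ) := by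
      have h3 : ∀ c ∈ R, conj (L.chi c) * S4 1 a i L.k (pt L c) = emb la * F * n * conj (L.chi c) +
          (2 * F * ((L.q c : ℂ) * v4e_W L a i c) + emb la ^ 2 * ((ψ c * H c + 2 * F * ψ' c * Q c : A) : ℂ)) := by
        intro c hc
        rw [hH c hc, hQ c hc, ← hψ c hc]
        have h4 := congrArg (fun y : A => (y : ℂ)) (hψ' c hc)
        push_cast at h4
        have h5 : ((wA A : A) : ℂ) = w := rfl
        have h6 : ((2 : A) : ℂ) = 2 := rfl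
        rw [h5] at h4
        push_cast
        rw [h6, v4e_la]
        linear_combination 2 * (1 - w) * (F : ℂ) * (Q c : ℂ) * h4
      rw [Finset.sum_congr rfl h3, Finset.sum_add_distrib, ← Finset.mul_sum, hψ0, mul_zero, zero_add,
        Finset.sum_add_distrib, ← Finset.mul_sum, ← Finset.mul_sum]
      push_cast
      ring
    rw [h2, map_mul, map_pow, CUL.w_la A hA]
    calc A.valuation 3 * A.valuation ((∑ c ∈ R, (ψ c * H c + 2 * F * ψ' c * Q c) : A) : ℂ) ≤ A.valuation 3 * 1 :=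
          mul_le_mul' le_rfl (JX.a4b_le A _)
      _ = A.valuation 3 := mul_one _

end

end JGL
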