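import Pool.Agent.JGL.V4e1

/-!
# [JGL-V4e] part 2: the sums `M_2`, `M_4`, the relation with `e`

`l = λ`, `3 = -w² l²`, `M_2 = l m`. `16 w W = 2 w m³ + 2 m - 16 g w l m mod l²` (`q(λ) = -1`), `y = u₂ r = l y'`, `m = y' - 4 w y'³ mod l³`.
-/

set_option autoImplicit false

open NumberField IsDedekindDomain Filter Topology
open scoped Classical ComplexConjugate

namespace JGL

open CM27 JZ
open CU (la eE)
open CUL (Nl ez si ta DS Cont LV IsRep rp cr mn mo zw OT GalU W3 W9)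
open JL (N1 KD sD Psi6)

/-! ## permutation of `R` by `λ` -/

theorem v4e_pt (L : Lev) (c : Eis) : emb la * pt L c = pt L (la * c) := by
  rw [pt, pt, map_mul, mul_div_assoc]

theorem v4e_perm (L : Lev) (hep : L.ep = 0) {R : Finset Eis} (hR : IsR L R) (G : Eis → ℂ)
    (hper : ∀ x y, L.f ∣ x - y → G x = G y) (hu : ∀ ζ x, IsUnit ζ → G (ζ * x) = G x) :
    ∑ c ∈ R, (L.q c : ℂ) * G (la * c) = (L.q la : ℂ) * ∑ c ∈ R, (L.q c : ℂ) * G c := by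
  obtain ⟨φ, hφ, -, hsum⟩ := perm_R L hR (la_cop L)
  have hq : L.q la * L.q la = 1 := q_sq L (la_cop L)
  rw [← hsum (fun c => (L.q c : ℂ) * G c), Finset.mul_sum]
  refine Finset.sum_congr rfl fun c hc => ?_
  obtain ⟨-, ζ, hζ, hd⟩ := hφ c hc
  have h1 : G (la * c) = G (φ c) := by rw [hper _ _ hd, hu ζ _ hζ]
  have h2 : L.q la * L.q c = L.q (φ c) := by
    rw [← L.q_mul, L.q_per _ _ hd, L.q_mul, q_unit_even L hep hζ, one_mul]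
  have h3 : L.q c = L.q la * L.q (φ c) := by rw [← h2, ← mul_assoc, hq, one_mul]
  rw [h1, h3]
  push_cast
  ring

theorem v4e_Tm_congr (L : Lev) {x y : Eis} (h : L.f ∣ x - y) : Tm (pt L x) = Tm (pt L y) := by
  rw [Tm, Tm, ym, ym, (pt_congr_xw L h).2]

theorem v4e_Tm_unit (L : Lev) {ζ : Eis} (hζ : IsUnit ζ) : ∃ s : ℂ, s * s = 1 ∧
    ∀ x, Tm (pt L (ζ * x)) = s * Tm (pt L x) := by
  obtain ⟨s, j, hs, -, -, h⟩ := unit_act L hζ
  refine ⟨(s : ℂ), ?_, fun x => ?_⟩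
  · rcases hs with rfl | rfl <;> norm_num
  · rw [Tm, Tm, ym, ym, (h x).2]
    ring

theorem v4e_perm_sq (L : Lev) (hep : L.ep = 0) {R : Finset Eis} (hR : IsR L R) :
    ∑ c ∈ R, (L.q c : ℂ) * Tm (emb la * pt L c) ^ 2 = (L.q la : ℂ) * ∑ c ∈ R, (L.q c : ℂ) * Tm (pt L c) ^ 2 := by
  have h1 := v4e_perm L hep hR (fun x => Tm (pt L x) ^ 2) (fun x y h => by rw [v4e_Tm_congr L h])
    (fun ζ x hζ => by
      obtain ⟨s, hs, h⟩ := v4e_Tm_unit L hζ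
      rw [h, mul_pow, pow_two s, hs, one_mul])
  simp only [v4e_pt]
  exact h1

theorem v4e_perm_mul (L : Lev) (hep : L.ep = 0) {R : Finset Eis} (hR : IsR L R) :
    ∑ c ∈ R, (L.q c : ℂ) * (Tm (emb la * pt L c) * Tm (emb la ^ 2 * pt L c)) =
      (L.q la : ℂ) * ∑ c ∈ R, (L.q c : ℂ) * (Tm (pt L c) * Tm (emb la * pt L c)) := by
  have h1 := v4e_perm L hep hR (fun x => Tm (pt L x) * Tm (pt L (la * x)))
    (fun x y h => by
      rw [v4e_Tm_congr L h, v4e_Tm_congr L (x := la * x) (y := la * y)]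
      obtain ⟨t, ht⟩ := h
      exact ⟨la * t, by linear_combination la * ht⟩)
    (fun ζ x hζ => by
      obtain ⟨s, hs, h⟩ := v4e_Tm_unit L hζ
      have e : la * (ζ * x) = ζ * (la * x) := by ring
      rw [e, h, h]
      linear_combination Tm (pt L x) * Tm (pt L (la * x)) * hs)
  have e : ∀ c : Eis, emb la ^ 2 * pt L c = pt L (la * (la * c)) := by
    intro c
    rw [pow_two, mul_assoc, v4e_pt, v4e_pt]
  simp only [e, v4e_pt]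
  exact h1

section

variable (A : ValuationSubring ℂ) (hA : A.valuation 3 < 1)

theorem v4e_three : (3 : ℂ) = -w ^ 2 * emb la ^ 2 := by
  have h1 := CUL.la_sq
  have h3 := CUL.w3
  linear_combination w ^ 2 * h1 - 3 * h3

include hA in
/-- `τ² = λ b`, `48 τ⁴ = τ⁶ + 3 τ(λ z)² + λ⁵ H`, `θ τ τ(λ z) = -τ⁴ + λ³ H'` -/
theorem v4e_point {z : ℂ} (hz : OT z) : ∃ b H H' : A, Tm z ^ 2 = emb la * (b : ℂ) ∧
    48 * Tm z ^ 4 = Tm z ^ 6 + 3 * Tm (emb la * z) ^ 2 + emb la ^ 5 * (H : ℂ) ∧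
    th * (Tm z * Tm (emb la * z)) = -Tm z ^ 4 + emb la ^ 3 * (H' : ℂ) := by
  obtain ⟨s, hs⟩ : ∃ s : ℂ, s ^ 2 = emb la := IsAlgClosed.exists_pow_nat_eq _ (by norm_num)
  obtain ⟨t, ht⟩ := v4e_tau A hA hs hz
  obtain ⟨t', ht'⟩ := v4e_tau A hA hs (CUL.u7_la_mul hz)
  have hb : Tm z ^ 2 = emb la * ((t ^ 2 : A) : ℂ) := by
    rw [ht, mul_pow, hs]
    push_cast
    ring
  have hrel := Tm_la hz
  obtain ⟨U, hU⟩ := v4e_inv A hA (3 * t ^ 2)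
  have h3c : ((3 : A) : ℂ) = 3 := rfl
  have hwc : ((wA A : A) : ℂ) = w := rfl
  have hU' : (1 + 3 * Tm z ^ 2) * (U : ℂ) = 1 := by
    rw [hb]
    push_cast at hU ⊢
    rw [h3c] at hU
    linear_combination hU
  have h3 := v4e_three
  obtain ⟨b, hbt⟩ : ∃ b : A, b = t ^ 2 := ⟨_, rfl⟩
  rw [← hbt] at hb
  have h142 : ((142 : A) : ℂ) = 142 := rfl
  have h96 : ((96 : A) : ℂ) = 96 := rfl
  have h6 : ((6 : A) : ℂ) = 6 := rfl
  obtain ⟨l, hl⟩ : ∃ l : A, l = 1 - wA A := ⟨_, rfl⟩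
  have hlc : (l : ℂ) = emb la := by rw [hl]; exact coe_la A
  have e4 : Tm z ^ 4 = (emb la * b) ^ 2 := by rw [← hb]; ring
  have e6 : Tm z ^ 6 = (emb la * b) ^ 3 := by rw [← hb]; ring
  refine ⟨b, U ^ 2 * wA A ^ 2 * b * (b ^ 2 * (-142 * l * b - 96) - wA A ^ 2 * (l ^ 4 * b ^ 4 - 6 * l * b - 1)),
    -(U * wA A ^ 2 * b * (l ^ 2 * b ^ 2 - 1)), hb, ?_, ?_⟩
  · have e7 : -3 * Tm (emb la * z) ^ 2 * (1 + 3 * (emb la * b)) ^ 2 = (emb la * b) * (emb la * b + 3) ^ 2 := by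
      have h1 : (-th * Tm (emb la * z) * (1 + 3 * Tm z ^ 2)) ^ 2 = (Tm z ^ 3 + 3 * Tm z) ^ 2 := by rw [hrel]
      have h2 := th_sq
      rw [← hb]
      linear_combination h1 - (Tm (emb la * z) * (1 + 3 * Tm z ^ 2)) ^ 2 * h2
    rw [e4, e6]
    rw [hb] at hU'
    push_cast
    rw [h142, h96, h6, hwc, hlc]
    obtain ⟨T, hT⟩ : ∃ T : ℂ, T = emb la * (b : ℂ) := ⟨_, rfl⟩
    obtain ⟨T', hT'⟩ : ∃ T' : ℂ, T' = Tm (emb la * z) ^ 2 := ⟨_, rfl⟩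
    rw [← hT, ← hT'] at e7
    rw [← hT] at hU'
    rw [← hT, ← hT']
    have e8 : -3 * T' = T * (T + 3) ^ 2 * (U : ℂ) ^ 2 := by
      linear_combination (U : ℂ) ^ 2 * e7 + 3 * T' * ((1 + 3 * T) * (U : ℂ) + 1) * hU'
    have e9 : 48 * T ^ 2 - T ^ 3 = (U : ℂ) ^ 2 * (48 * T ^ 2 - T ^ 3) * (1 + 3 * T) ^ 2 := by
      linear_combination -(48 * T ^ 2 - T ^ 3) * ((1 + 3 * T) * (U : ℂ) + 1) * hU'
    have e10 : emb la ^ 5 * ((U : ℂ) ^ 2 * w ^ 2 * b * (b ^ 2 * (-142 * emb la * b - 96) -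
        w ^ 2 * (emb la ^ 4 * b ^ 4 - 6 * emb la * b - 1))) =
        (U : ℂ) ^ 2 * (w ^ 2 * emb la ^ 2) * T * (T ^ 2 * (-142 * T - 96) - w ^ 2 * emb la ^ 2 * (T ^ 4 - 6 * T - 1)) := by
      rw [hT]
      ring
    rw [e10]
    linear_combination e8 + e9 + (U : ℂ) ^ 2 * T * (-(3 * T ^ 4 - 142 * T ^ 3 - 96 * T ^ 2 - 18 * T - 3) +
      w ^ 2 * emb la ^ 2 * (T ^ 4 - 6 * T - 1)) * h3
  · rw [hb] at hU'
    have e7 : -(th * (Tm z * Tm (emb la * z))) * (1 + 3 * (emb la * b)) = (emb la * b) ^ 2 + 3 * (emb la * b) := by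
      rw [← hb]
      linear_combination Tm z * hrel
    rw [e4]
    push_cast
    rw [hwc, hlc]
    obtain ⟨T, hT⟩ : ∃ T : ℂ, T = emb la * (b : ℂ) := ⟨_, rfl⟩
    obtain ⟨Z, hZ⟩ : ∃ Z : ℂ, Z = th * (Tm z * Tm (emb la * z)) := ⟨_, rfl⟩
    rw [← hT, ← hZ] at e7
    rw [← hT] at hU'
    rw [← hT, ← hZ]
    have e8 : Z = -((T ^ 2 + 3 * T) * (U : ℂ)) := by
      linear_combination -(U : ℂ) * e7 - Z * hU'
    have e10 : emb la ^ 3 * -((U : ℂ) * w ^ 2 * b * (emb la ^ 2 * b ^ 2 - 1)) =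
        -((U : ℂ) * (w ^ 2 * emb la ^ 2) * T * (T ^ 2 - 1)) := by
      rw [hT]
      ring
    rw [e10]
    linear_combination e8 - T ^ 2 * hU' + (U : ℂ) * T * (T ^ 2 - 1) * h3

include hA in
/-- the sums `M_2 = λ m`, `M_4`, and the leading form -/
theorem v4e_M (L : Lev) (hep : L.ep = 0) (hq : L.q la = -1) {R : Finset Eis} (hR : IsR L R) :
    ∃ b : Eis → A, ∃ m : A, (∀ c ∈ R, Tm (pt L c) ^ 2 = emb la * (b c : ℂ)) ∧ m = ∑ c ∈ R, (L.q c : A) * b c ∧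
      (∀ i : ZMod 3, ∑ c ∈ R, (L.q c : ℂ) * v4e_W L 2 i c = -(emb la * (m : ℂ))) ∧
      ∀ i : ZMod 3, ∃ H : A, 16 * w * ∑ c ∈ R, (L.q c : ℂ) * v4e_W L 1 i c =
        2 * w * (m : ℂ) ^ 3 + 2 * m - 16 * ((v4e_g i : ℤ) : ℂ) * w * emb la * m + emb la ^ 2 * (H : ℂ) := by
  have h1 : ∀ c ∈ R, ∃ b H H' : A, Tm (pt L c) ^ 2 = emb la * (b : ℂ) ∧
      48 * Tm (pt L c) ^ 4 = Tm (pt L c) ^ 6 + 3 * Tm (emb la * pt L c) ^ 2 + emb la ^ 5 * (H : ℂ) ∧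
      th * (Tm (pt L c) * Tm (emb la * pt L c)) = -Tm (pt L c) ^ 4 + emb la ^ 3 * (H' : ℂ) :=
    fun c hc => v4e_point A hA (OT_pt L (hR.1 c hc))
  choose! b H H' hb hH hH' using h1
  have hqq : ∀ c ∈ R, L.q c = 1 ∨ L.q c = -1 := fun c hc => L.q_pm c (hR.1 c hc)
  obtain ⟨m, hm⟩ : ∃ m : A, m = ∑ c ∈ R, (L.q c : A) * b c := ⟨_, rfl⟩
  have hmc : emb la * (m : ℂ) = ∑ c ∈ R, (L.q c : ℂ) * Tm (pt L c) ^ 2 := by
    rw [hm]
    push_cast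
    rw [Finset.mul_sum]
    refine Finset.sum_congr rfl fun c hc => ?_
    rw [hb c hc]
    ring
  have hqc : (L.q la : ℂ) = -1 := by rw [hq]; norm_num
  have e1 : ∑ c ∈ R, (L.q c : ℂ) * Tm (emb la * pt L c) ^ 2 = -(emb la * (m : ℂ)) := by
    rw [v4e_perm_sq L hep hR, hqc, hmc]
    ring
  obtain ⟨P, hP⟩ : ∃ P : ℂ, P = ∑ c ∈ R, (L.q c : ℂ) * (Tm (pt L c) * Tm (emb la * pt L c)) := ⟨_, rfl⟩
  have e2 : ∑ c ∈ R, (L.q c : ℂ) * (Tm (emb la * pt L c) * Tm (emb la ^ 2 * pt L c)) = -P := by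
    rw [v4e_perm_mul L hep hR, hqc, hP]
    ring
  obtain ⟨M, hM⟩ : ∃ M : ℂ, M = ∑ c ∈ R, (L.q c : ℂ) * Tm (pt L c) ^ 4 := ⟨_, rfl⟩
  obtain ⟨x, hx⟩ := JX.a4b_cube A R b (fun c => L.q c) hqq
  rw [← hm] at hx
  have h3c : ((3 : A) : ℂ) = 3 := rfl
  have e3 : ∑ c ∈ R, (L.q c : ℂ) * Tm (pt L c) ^ 6 = emb la ^ 3 * ((m : ℂ) ^ 3 + 3 * x) := by
    have h2 := congrArg (fun y : A => (y : ℂ)) hx
    push_cast at h2
    rw [h3c] at h2
    have h4 : (m : ℂ) ^ 3 + 3 * x = ∑ c ∈ R, ((L.q c : ℂ) * (b c : ℂ) ^ 3) := by linear_combination -h2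
    rw [h4, Finset.mul_sum]
    refine Finset.sum_congr rfl fun c hc => ?_
    have h5 : Tm (pt L c) ^ 6 = (emb la * (b c : ℂ)) ^ 3 := by rw [← hb c hc]; ring
    rw [h5]
    ring
  obtain ⟨SH, hSH⟩ : ∃ y : A, y = ∑ c ∈ R, (L.q c : A) * H c := ⟨_, rfl⟩
  obtain ⟨SH', hSH'⟩ : ∃ y : A, y = ∑ c ∈ R, (L.q c : A) * H' c := ⟨_, rfl⟩
  have e4 : 48 * M = emb la ^ 3 * ((m : ℂ) ^ 3 + 3 * x) + 3 * (-(emb la * (m : ℂ))) + emb la ^ 5 * (SH : ℂ) := by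
    rw [← e3, ← e1, hM, hSH]
    push_cast
    rw [Finset.mul_sum, Finset.mul_sum, Finset.mul_sum, ← Finset.sum_add_distrib, ← Finset.sum_add_distrib]
    refine Finset.sum_congr rfl fun c hc => ?_
    linear_combination (L.q c : ℂ) * hH c hc
  have e5 : th * P = -M + emb la ^ 3 * (SH' : ℂ) := by
    rw [hP, hM, hSH']
    push_cast
    rw [Finset.mul_sum, Finset.mul_sum, ← Finset.sum_neg_distrib, ← Finset.sum_add_distrib]
    refine Finset.sum_congr rfl fun c hc => ?_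
    linear_combination (L.q c : ℂ) * hH' c hc
  have h3 := v4e_three
  have hw3 := CUL.w3
  have hl0 := CUL.la_ne
  have e6 : 16 * M = -w * emb la * (m : ℂ) ^ 3 + emb la ^ 3 * x - emb la * m - w * emb la ^ 3 * (SH : ℂ) := by
    have h5 : (3 : ℂ) ≠ 0 := by norm_num
    apply mul_left_cancel₀ h5
    have h6 : (3 : ℂ) * (-w * emb la) = emb la ^ 3 := by
      rw [h3]
      linear_combination emb la ^ 3 * hw3
    linear_combination e4 - (m : ℂ) ^ 3 * h6 - emb la ^ 2 * (SH : ℂ) * h6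
  refine ⟨b, m, hb, hm, fun i => ?_, fun i => ?_⟩
  · have h2 : (2 : ZMod 3) ≠ 1 := by decide
    rw [← e1]
    refine Finset.sum_congr rfl fun c _ => ?_
    rw [v4e_W, if_neg h2]
  · have h4 : ∑ c ∈ R, (L.q c : ℂ) * v4e_W L 1 i c = 2 * P - ((v4e_g i : ℤ) : ℂ) * (emb la * m) := by
      have h5 : 2 * P - ((v4e_g i : ℤ) : ℂ) * (emb la * m) = P - (-P) + ((v4e_g i : ℤ) : ℂ) * (-(emb la * m)) := by ring
      rw [h5, ← e1, ← e2, hP, ← Finset.sum_sub_distrib, Finset.mul_sum, ← Finset.sum_add_distrib]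
      refine Finset.sum_congr rfl fun c _ => ?_
      rw [v4e_W, if_pos rfl]
      ring
    refine ⟨32 * SH' - 2 * (x - wA A * SH), ?_⟩
    have hwc : ((wA A : A) : ℂ) = w := rfl
    have h32 : ((32 : A) : ℂ) = 32 := rfl
    have h2c : ((2 : A) : ℂ) = 2 := rfl
    push_cast
    rw [h4, hwc, h32, h2c]
    apply mul_left_cancel₀ hl0
    rw [th_eq] at e5
    linear_combination 32 * e5 - 2 * e6

end

end JGL
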