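import Pool.Agent.JGL.V4e2

/-!
# [JGL-V4e] part 3: the relation with the digits of `u₂ / λ`
-/

set_option autoImplicit false

open NumberField IsDedekindDomain Filter Topology
open scoped Classical ComplexConjugate

namespace JGL

open CM27 JZ
open CU (la eE)
open CUL (Nl ez si ta DS Cont LV IsRep rp cr mn mo zw OT GalU W3 W9)
open JL (N1 KD sD Psi6)

theorem v4e_pow {K : Type*} [CommRing K] {l v : K} (hl : l ^ 2 = 0) (hv : v = 1 - l) (i : ℕ) : v ^ i = 1 - (i : K) * l := by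
  induction i with
  | zero => simp
  | succ i ih =>
    rw [pow_succ, ih, hv]
    push_cast
    linear_combination (i : K) * hl

/-- computation modulo `λ²` -/
theorem v4e_fin {K : Type*} [CommRing K] {l v m y r B b₀ b₁ g : K} {i : ℕ} (hl : l ^ 2 = 0) (h3 : (3 : K) = 0)
    (hv : v = 1 - l) (hr : r ^ 2 = -v ^ i) (hB : B = b₀ + b₁ * l) (hb : b₀ ^ 3 = b₀) (hy : y = B * r)
    (hm : 2 * m = 2 * y - 8 * v * y ^ 3) (hg : g = 1 + i) :
    l * m = -(l * (r * b₀)) ∧ 2 * v * m ^ 3 + 2 * m - 16 * g * v * l * m = -(l * (r * b₁)) := by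
  obtain ⟨p, hp⟩ : ∃ p : K, p = v ^ i := ⟨_, rfl⟩
  have hp' : p = 1 - (i : K) * l := by rw [hp, v4e_pow hl hv]
  rw [← hp] at hr
  have hvp : v * p = 1 - ((i : K) + 1) * l := by
    rw [hv, hp']
    linear_combination (i : K) * hl
  have hB3 : B ^ 3 = b₀ := by
    rw [hB]
    linear_combination hb + (b₀ ^ 2 * b₁ * l) * h3 + (3 * b₀ * b₁ ^ 2 + b₁ ^ 3 * l) * hl
  have hy3 : y ^ 3 = -(p * (b₀ * r)) := by
    rw [hy]
    linear_combination r ^ 3 * hB3 + b₀ * r * hr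
  have hm1 : m = y - v * y ^ 3 := by
    linear_combination 2 * hm + (-m + y - 5 * v * y ^ 3) * h3
  obtain ⟨c, hc⟩ : ∃ c : K, c = 2 * b₀ + l * (b₁ - ((i : K) + 1) * b₀) := ⟨_, rfl⟩
  have hm2 : m = r * c := by
    rw [hm1, hy3, hy, hB, hc]
    linear_combination b₀ * r * hvp
  have hc3 : c ^ 3 = -b₀ := by
    rw [hc]
    obtain ⟨d, hd⟩ : ∃ d : K, d = b₁ - ((i : K) + 1) * b₀ := ⟨_, rfl⟩
    rw [← hd]
    linear_combination 8 * hb + (3 * b₀ + 4 * b₀ ^ 2 * l * d) * h3 + (6 * b₀ * d ^ 2 + d ^ 3 * l) * hl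
  have hm3 : m ^ 3 = p * (r * b₀) := by
    rw [hm2]
    linear_combination r ^ 3 * hc3 - b₀ * r * hr
  refine ⟨?_, ?_⟩
  · rw [hm2, hc]
    linear_combination (l * r * b₀) * h3 + r * (b₁ - ((i : K) + 1) * b₀) * hl
  · rw [hm3]
    obtain ⟨W, hW⟩ : ∃ W : K, W = 2 * v * (p * (r * b₀)) + 2 * m - 16 * g * v * l * m := ⟨_, rfl⟩
    rw [← hW]
    have h1 : W = 2 * (v * p) * (r * b₀) + 2 * m - g * v * l * m := by
      linear_combination hW - (5 * g * v * l * m) * h3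
    rw [hvp, hm2, hc, hv, hg] at h1
    linear_combination h1 + (-2 * l * i * r * b₀ - 2 * l * r * b₀ + l * r * b₁ + 2 * r * b₀) * h3 +
      (4 * i * r * b₀ - i * r * b₁ + i ^ 2 * r * b₀ + 3 * r * b₀ - r * b₁ +
        l * (-2 * i * r * b₀ + i * r * b₁ - i ^ 2 * r * b₀ - r * b₀ + r * b₁)) * hl

theorem v4e_gi {K : Type*} [CommRing K] (h3 : (3 : K) = 0) {i : ℕ} (hi : i < 3) :
    ((v4e_g (i : ZMod 3) : ℤ) : K) = 1 + (i : K) := by
  interval_cases i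
  · have : v4e_g ((0 : ℕ) : ZMod 3) = 1 := by decide
    rw [this]
    push_cast
    ring
  · have : v4e_g ((1 : ℕ) : ZMod 3) = -1 := by decide
    rw [this]
    push_cast
    linear_combination -h3
  · have : v4e_g ((2 : ℕ) : ZMod 3) = 0 := by decide
    rw [this]
    push_cast
    linear_combination -h3

section

variable (A : ValuationSubring ℂ) (hA : A.valuation 3 < 1)

include hA in
/-- `6 y + 8 y³ = -2 w² λ³ m + λ⁶ h`, `y = u₂ r` -/
theorem v4e_cube (L : Lev) (hep : L.ep = 0) {R : Finset Eis} (hR : IsR L R) {m' : ZMod 3} {r u₁ u₂ : ℂ}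
    (hN : N2 r (zw m' * ee L R) u₁ u₂) {b : Eis → A} {m : A}
    (hb : ∀ c ∈ R, Tm (pt L c) ^ 2 = emb la * (b c : ℂ)) (hm : m = ∑ c ∈ R, (L.q c : A) * b c) :
    ∃ h : A, 6 * (u₂ * r) + 8 * (u₂ * r) ^ 3 = -2 * w ^ 2 * emb la ^ 3 * (m : ℂ) + emb la ^ 6 * (h : ℂ) := by
  have hqq : ∀ c ∈ R, L.q c = 1 ∨ L.q c = -1 := fun c hc => L.q_pm c (hR.1 c hc)
  have hwc : ((wA A : A) : ℂ) = w := rfl
  have h3 := v4e_three
  -- the cube of `e`
  have e1 : (zw m' * ee L R) ^ 3 = ∏ c ∈ R, (1 + emb la ^ 3 * ((-wA A ^ 2 * b c : A) : ℂ)) ^ L.q c := by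
    have h1 := JX.a6_cube R (fun c => L.q c) (fun c => xw (pt L c)) (sum_R_q L hep hR) m'.val
    have h2 : zw m' * ee L R = w ^ m'.val * ∏ c ∈ R, xw (pt L c) ^ L.q c := rfl
    rw [h2, h1]
    refine Finset.prod_congr rfl fun c hc => ?_
    have h4 := ym_sq (OT_pt L (hR.1 c hc)).1
    have h5 : ym (pt L c) = th * Tm (pt L c) := by
      have h6 : th ≠ 0 := by
        intro h0
        have := th_sq
        rw [h0] at this
        norm_num at this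
      rw [Tm]
      field_simp
    have h7 : JX.U1 (xw (pt L c)) = 1 + emb la ^ 3 * ((-wA A ^ 2 * b c : A) : ℂ) := by
      rw [JX.U1]
      push_cast
      rw [hwc]
      rw [h5, mul_pow, th_sq, hb c hc, xm, mul_pow, CUL.w3, one_mul] at h4
      linear_combination h4 + emb la * (b c : ℂ) * h3
    rw [h7]
  have e2 := JX.a4_prod A hA R (fun c => -wA A ^ 2 * b c) (fun c => L.q c) hqq
  rw [← e1] at e2
  have hl0 := CUL.la_ne
  have h30 : A.valuation (3 : ℂ) ^ 3 = A.valuation (emb la ^ 6) := by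
    rw [← CUL.w_la A hA, ← pow_mul, ← map_pow]
  rw [h30] at e2
  obtain ⟨h, hh⟩ := JX.a5a_lift (pow_ne_zero 6 hl0) e2
  have e3 : ∑ c ∈ R, ((L.q c : ℂ) * ((-wA A ^ 2 * b c : A) : ℂ)) = -w ^ 2 * m := by
    rw [hm]
    push_cast
    rw [hwc, Finset.mul_sum]
    refine Finset.sum_congr rfl fun c _ => ?_
    ring
  rw [e3] at hh
  obtain ⟨-, -, hz, hz', hz0⟩ := hN
  obtain ⟨e, he⟩ : ∃ e, e = zw m' * ee L R := ⟨_, rfl⟩
  rw [← he] at hz hz' hz0 hh
  obtain ⟨l, hl⟩ : ∃ l : A, l = 1 - wA A := ⟨_, rfl⟩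
  have hlc : (l : ℂ) = emb la := by rw [hl]; exact coe_la A
  obtain ⟨κ, hκ⟩ : ∃ κ : A, κ = -wA A ^ 2 * m + l ^ 3 * h := ⟨_, rfl⟩
  have hκc : (κ : ℂ) = -w ^ 2 * m + emb la ^ 3 * h := by
    rw [hκ]
    push_cast
    rw [hwc, hlc]
  have hE : e ^ 3 = 1 + emb la ^ 3 * (κ : ℂ) := by
    rw [hκc]
    linear_combination hh
  obtain ⟨D', hD'⟩ := v4e_inv A hA (l ^ 2 * κ)
  have hD1 : e⁻¹ ^ 3 = (D' : ℂ) := by
    have h5 : e ^ 3 * (D' : ℂ) = 1 := by
      rw [hE]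
      push_cast at hD'
      rw [hlc] at hD'
      linear_combination hD'
    have h6 : e ^ 3 ≠ 0 := pow_ne_zero 3 hz0
    rw [inv_pow]
    exact inv_eq_of_mul_eq_one_right h5
  have hn : (u₁ + u₂ * r) * (u₁ - u₂ * r) = 1 := by rw [← hz, ← hz', mul_inv_cancel₀ hz0]
  refine ⟨2 * h - κ ^ 2 * D', ?_⟩
  have h2c : ((2 : A) : ℂ) = 2 := rfl
  push_cast
  rw [h2c]
  push_cast at hD'
  rw [hlc] at hD'
  have h7 : (u₁ + u₂ * r) ^ 3 - (u₁ - u₂ * r) ^ 3 = 6 * (u₂ * r) + 8 * (u₂ * r) ^ 3 := by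
    linear_combination 6 * (u₂ * r) * hn
  rw [← h7, ← hz, ← hz', hE, hD1]
  have h8 : (D' : ℂ) = 1 - emb la ^ 3 * κ + emb la ^ 6 * κ ^ 2 * D' := by
    linear_combination (1 - emb la ^ 3 * (κ : ℂ)) * hD'
  have h9 : 1 + emb la ^ 3 * (κ : ℂ) - D' = 2 * emb la ^ 3 * κ - emb la ^ 6 * κ ^ 2 * D' := by
    linear_combination -h8
  rw [h9, hκc]
  ring

include hA in
theorem v4e_small {y : ℂ} {κ : A} (h : 6 * y + 8 * y ^ 3 = emb la ^ 3 * (κ : ℂ)) :
    A.valuation y ≤ A.valuation (emb la) := by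
  by_contra hc
  push Not at hc
  have v2 := JZ.a1_two A hA
  have hl0 : 0 < A.valuation (emb la) := by
    rw [Valuation.pos_iff]
    exact CUL.la_ne
  have hy0 : 0 < A.valuation y := lt_trans hl0 hc
  have e1 : A.valuation (8 * y ^ 3) = A.valuation y ^ 3 := by
    have : (8 : ℂ) = 2 ^ 3 := by norm_num
    rw [this, map_mul, map_pow, map_pow, v2, one_pow, one_mul]
  have e2 : A.valuation (6 * y) = A.valuation (emb la) ^ 2 * A.valuation y := by
    have : (6 : ℂ) = 2 * 3 := by norm_num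
    rw [this, map_mul, map_mul, v2, one_mul, CUL.w_la A hA]
  have e3 : A.valuation (6 * y) < A.valuation (8 * y ^ 3) := by
    rw [e1, e2, pow_succ]
    exact mul_lt_mul_of_pos_right (pow_lt_pow_left₀ hc zero_le (by norm_num : (2 : ℕ) ≠ 0)) hy0
  have e4 : A.valuation (6 * y + 8 * y ^ 3) = A.valuation y ^ 3 := by
    rw [Valuation.map_add_eq_of_lt_right _ e3, e1]
  have e5 : A.valuation (6 * y + 8 * y ^ 3) ≤ A.valuation (emb la) ^ 3 := by
    rw [h, map_mul, map_pow]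
    calc A.valuation (emb la) ^ 3 * A.valuation (κ : ℂ) ≤ A.valuation (emb la) ^ 3 * 1 :=
          mul_le_mul' le_rfl (JX.a4b_le A κ)
      _ = _ := mul_one _
  rw [e4] at e5
  exact absurd (pow_lt_pow_left₀ hc zero_le (by norm_num : (3 : ℕ) ≠ 0)) (not_lt.2 e5)

include hA in
theorem v4e_quot {l : A} (hl : (l : ℂ) = emb la) {x : A} (h : Ideal.Quotient.mk (Ideal.span {l ^ 2}) x = 0) :
    A.valuation (x : ℂ) ≤ A.valuation 3 := by
  rw [Ideal.Quotient.eq_zero_iff_mem, Ideal.mem_span_singleton] at h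
  obtain ⟨c, hc⟩ := h
  have h1 : (x : ℂ) = emb la ^ 2 * (c : ℂ) := by
    rw [hc]
    push_cast
    rw [hl]
  rw [h1, map_mul, map_pow, CUL.w_la A hA]
  calc A.valuation 3 * A.valuation (c : ℂ) ≤ A.valuation 3 * 1 := mul_le_mul' le_rfl (JX.a4b_le A c)
    _ = _ := mul_one _

include hA in
theorem v4e_main (L : Lev) (hep : L.ep = 0) (hq : L.q la = -1) {R : Finset Eis} (hR : IsR L R) {i : ℕ} (hi : i < 3)
    {Ds : Eis} (hDs : Primary Ds) {r : ℂ} (hr : r ^ 2 = emb (-CU.om ^ i * Ds)) {m' : ZMod 3} {u₁ u₂ : ℂ}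
    (hN : N2 r (zw m' * ee L R) u₁ u₂) : ∃ β₀ β₁ : ℤ, A.valuation r = 1 ∧ A.valuation (u₂ / emb la) ≤ 1 ∧
      A.valuation (u₂ / emb la - ((β₀ : ℂ) + (β₁ : ℂ) * emb la)) ≤ A.valuation 3 ∧
      A.valuation (∑ c ∈ R, (L.q c : ℂ) * v4e_W L 2 i c - emb la * (r * β₀)) ≤ A.valuation 3 ∧
      A.valuation (w * ∑ c ∈ R, (L.q c : ℂ) * v4e_W L 1 i c + emb la * (r * β₁)) ≤ A.valuation 3 := by
  obtain ⟨b, m, hb, hm, hM2, hM1⟩ := v4e_M A hA L hep hq hR
  obtain ⟨h, hh⟩ := v4e_cube A hA L hep hR hN hb hm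
  obtain ⟨l, hl⟩ : ∃ l : A, l = 1 - wA A := ⟨_, rfl⟩
  have hlc : (l : ℂ) = emb la := by rw [hl]; exact coe_la A
  have hl0 := CUL.la_ne
  have hwc : ((wA A : A) : ℂ) = w := rfl
  have h2c : ((2 : A) : ℂ) = 2 := rfl
  have h3c : ((3 : A) : ℂ) = 3 := rfl
  have h8c : ((8 : A) : ℂ) = 8 := rfl
  have h16c : ((16 : A) : ℂ) = 16 := rfl
  -- `r` is a unit
  obtain ⟨D', hD'⟩ := hDs
  have hDC : emb Ds = 1 + 3 * emb D' := by
    have := congrArg emb hD'
    rw [map_sub, map_one, map_mul, map_ofNat] at this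
    linear_combination this
  have hr' : r ^ 2 = -w ^ i * (1 + 3 * emb D') := by
    rw [hr, map_mul, map_neg, map_pow, CUL.emb_om, hDC]
  have vr : A.valuation r = 1 := by
    have h1 : A.valuation (1 + 3 * emb D') = 1 := by
      apply Valuation.map_one_add_of_lt
      rw [map_mul]
      exact lt_of_le_of_lt (mul_le_mul' le_rfl (CUL.w_emb_le A D')) (by rwa [mul_one])
    have h2 : A.valuation r ^ 2 = 1 := by
      rw [← map_pow, hr', map_mul, h1, Valuation.map_neg, map_pow, CUL.w_w A, one_pow, mul_one]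
    exact (pow_eq_one_iff.1 h2).resolve_right (by norm_num)
  have r0 : r ≠ 0 := by
    rintro rfl
    rw [map_zero] at vr
    exact zero_ne_one vr
  obtain ⟨rA, hrA⟩ : ∃ rA : A, (rA : ℂ) = r := ⟨⟨_, (ValuationSubring.valuation_le_one_iff A _).1 vr.le⟩, rfl⟩
  -- `y = u₂ r = λ y'`
  have hsm := v4e_small A hA (y := u₂ * r) (κ := -2 * wA A ^ 2 * m + l ^ 3 * h) (by
    rw [hh]
    push_cast
    rw [hwc, hlc, h2c]
    ring)
  have vb : A.valuation (u₂ / emb la) ≤ 1 := by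
    rw [map_mul, vr, mul_one] at hsm
    rw [map_div₀]
    exact div_le_one_of_le₀ hsm zero_le
  obtain ⟨B, hB⟩ : ∃ B : A, (B : ℂ) = u₂ / emb la := ⟨⟨_, (ValuationSubring.valuation_le_one_iff A _).1 vb⟩, rfl⟩
  have hβK : u₂ / emb la ∈ CF.KK := by
    apply CF.KK.div_mem hN.2.1
    rw [CUL.mem_KK]
    exact ⟨1, -1, by rw [CUL.emb_la]; push_cast; ring⟩
  obtain ⟨β₀, β₁, hdig⟩ := JX.a4_dig A hA hβK vb
  refine ⟨β₀, β₁, vr, vb, hdig, ?_⟩
  have hu : u₂ = emb la * (B : ℂ) := by rw [hB]; field_simp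
  -- the equation for `m`
  have h3 := v4e_three
  have hw3 := CUL.w3
  have hm2 : 2 * ((B : ℂ) * r) - 8 * w * ((B : ℂ) * r) ^ 3 = 2 * (m : ℂ) - w * emb la ^ 3 * h := by
    apply mul_left_cancel₀ (pow_ne_zero 3 hl0)
    rw [hu] at hh
    linear_combination -w * hh + 2 * w * emb la * ((B : ℂ) * r) * h3 +
      (2 * emb la ^ 3 * (m : ℂ) - 2 * emb la ^ 3 * ((B : ℂ) * r)) * hw3
  -- the quotient modulo `λ²`
  obtain ⟨φ, hφ⟩ : ∃ φ : A →+* (A ⧸ Ideal.span {l ^ 2}), φ = Ideal.Quotient.mk (Ideal.span {l ^ 2}) := ⟨_, rfl⟩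
  have hφl : φ l ^ 2 = 0 := by
    rw [← map_pow, hφ, Ideal.Quotient.eq_zero_iff_mem]
    exact Ideal.mem_span_singleton_self _
  have hA3 : (3 : A) = -wA A ^ 2 * l ^ 2 := by
    apply Subtype.ext
    push_cast
    rw [h3c, hwc, hlc]
    exact h3
  have hφ3 : (3 : A ⧸ Ideal.span {l ^ 2}) = 0 := by
    have h1 : φ 3 = 0 := by
      rw [hA3, map_mul, map_pow φ l, hφl, mul_zero]
    rwa [map_ofNat] at h1
  have hl' : wA A = 1 - l := by rw [hl]; ring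
  have hφw : φ (wA A) = 1 - φ l := by
    have h1 := congrArg φ hl'
    rwa [map_sub, map_one] at h1
  obtain ⟨d, hd⟩ : ∃ d : A, (d : ℂ) = emb D' :=
    ⟨⟨_, (ValuationSubring.valuation_le_one_iff A _).1 (CUL.w_emb_le A D')⟩, rfl⟩
  have hrA2 : rA ^ 2 = -wA A ^ i * (1 + 3 * d) := by
    apply Subtype.ext
    push_cast
    rw [hrA, hwc, h3c, hd]
    exact hr'
  have f1 : φ rA ^ 2 = -φ (wA A) ^ i := by
    rw [← map_pow, hrA2]
    simp only [map_mul, map_neg, map_pow, map_add, map_one, map_ofNat]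
    rw [hφ3, zero_mul, add_zero, mul_one]
  obtain ⟨c, hc⟩ := JX.a5a_lift (by norm_num : (3 : ℂ) ≠ 0) hdig
  have hBA : B = (β₀ : A) + (β₁ : A) * l + 3 * c := by
    apply Subtype.ext
    push_cast
    rw [hB, hlc, h3c, ← hc]
    ring
  have f2 : φ B = (β₀ : A ⧸ Ideal.span {l ^ 2}) + β₁ * φ l := by
    rw [hBA]
    simp only [map_add, map_mul, map_intCast, map_ofNat]
    rw [hφ3, zero_mul, add_zero]
  have f3 : ((β₀ : ℤ) : A ⧸ Ideal.span {l ^ 2}) ^ 3 = β₀ := by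
    obtain ⟨q, hq⟩ := JX.a5a_int3 β₀
    have h1 := congrArg (fun z : ℤ => (z : A ⧸ Ideal.span {l ^ 2})) hq
    push_cast at h1
    linear_combination h1 + (q : A ⧸ Ideal.span {l ^ 2}) * hφ3
  have hm3 : 2 * (B * rA) - 8 * wA A * (B * rA) ^ 3 = 2 * m - wA A * l ^ 3 * h := by
    apply Subtype.ext
    push_cast
    rw [hrA, hwc, hlc, h2c, h8c]
    exact hm2
  have f4 : 2 * φ m = 2 * φ (B * rA) - 8 * φ (wA A) * φ (B * rA) ^ 3 := by
    have h1 := congrArg φ hm3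
    simp only [map_sub, map_mul, map_pow, map_ofNat] at h1 ⊢
    linear_combination -h1 + φ (wA A) * φ l * φ h * hφl
  obtain ⟨g1, g2⟩ := v4e_fin (i := i) hφl hφ3 hφw f1 f2 f3 (map_mul φ B rA) f4 (v4e_gi hφ3 hi)
  refine ⟨?_, ?_⟩
  · rw [hM2]
    have h1 : φ (-(l * m) - l * (rA * (β₀ : A))) = 0 := by
      simp only [map_sub, map_neg, map_mul, map_intCast]
      linear_combination -g1
    rw [hφ] at h1
    have h2 := v4e_quot A hA hlc h1
    push_cast at h2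
    rw [hlc, hrA] at h2
    exact h2
  · obtain ⟨H, hH⟩ := hM1 (i : ZMod 3)
    have h1 : φ (2 * wA A * m ^ 3 + 2 * m - 16 * ((v4e_g (i : ZMod 3) : ℤ) : A) * wA A * l * m + l ^ 2 * H +
        16 * (l * (rA * (β₁ : A)))) = 0 := by
      simp only [map_sub, map_add, map_mul, map_intCast, map_pow, map_ofNat]
      linear_combination g2 + φ H * hφl + 5 * φ l * φ rA * (β₁ : A ⧸ Ideal.span {l ^ 2}) * hφ3
    rw [hφ] at h1
    have h2 := v4e_quot A hA hlc h1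
    push_cast at h2
    rw [hlc, hrA, hwc, h2c, h16c, ← hH] at h2
    have h3 : 16 * w * ∑ c ∈ R, (L.q c : ℂ) * v4e_W L 1 (i : ZMod 3) c + 16 * (emb la * (r * (β₁ : ℂ))) =
        2 ^ 4 * (w * ∑ c ∈ R, (L.q c : ℂ) * v4e_W L 1 (i : ZMod 3) c + emb la * (r * (β₁ : ℂ))) := by ring
    rw [h3, map_mul, map_pow, JZ.a1_two A hA, one_pow, one_mul] at h2
    exact h2

end

end JGL
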