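import Pool.Agent.JGL.V4oZ

/-!
# [JGL-V4oY] `ep = 1`, `n = 4`, `v = 1`: the sum
-/

set_option autoImplicit false

open NumberField IsDedekindDomain Filter Topology
open scoped Classical ComplexConjugate

namespace JGL

open CM27 JZ
open CU (la eE)
open CUL (Nl ez si ta DS Cont LV IsRep rp cr mn mo zw OT GalU W3 W9)
open JL (N1 KD sD Psi6)

/-- the congruence for the exponent -/
theorem y_hc {η : ℤ} (hη : η = 1 ∨ η = -1) {i : ℕ} (hi : i < 3) {k : ZMod 3} {Ds : Eis} (hk : k = 2 - mn Ds) :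
    (3 : ℤ) ∣ (be i k * (-η) - 2 * al i) - (-η * (-(i : ℤ) ^ 2 - i + (Ds.re - 1 + Ds.im) / 3) - 1 + i) := by
  have hk' : ((k.val : ℤ) : ZMod 3) = ((2 - (Ds.re - 1 + Ds.im) / 3 : ℤ) : ZMod 3) := by
    rw [Int.cast_natCast, ZMod.natCast_val, ZMod.cast_id', id, hk]
    unfold mn
    push_cast
    ring
  have hd := (ZMod.intCast_eq_intCast_iff_dvd_sub _ _ 3).1 hk'
  obtain ⟨x, hx⟩ := hd
  generalize (Ds.re - 1 + Ds.im) / 3 = N at hx ⊢
  have h0 : be ((0 : ℕ) : ZMod 3) k = -1 - (k.val : ℤ) := by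
    unfold be
    rw [if_neg (by decide)]
  have h1 : be ((1 : ℕ) : ZMod 3) k = -(k.val : ℤ) := by
    unfold be
    rw [if_pos (by decide)]
  have h2 : be ((2 : ℕ) : ZMod 3) k = -1 - (k.val : ℤ) := by
    unfold be
    rw [if_neg (by decide)]
  have a0 : al ((0 : ℕ) : ZMod 3) = -1 := by decide
  have a1 : al ((1 : ℕ) : ZMod 3) = 0 := by decide
  have a2 : al ((2 : ℕ) : ZMod 3) = 1 := by decide
  generalize k.val = m at h0 h1 h2 hx
  have hi' : i = 0 ∨ i = 1 ∨ i = 2 := by omega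
  rcases hi' with rfl | rfl | rfl <;> rcases hη with rfl | rfl
  · rw [h0, a0]; push_cast at hx ⊢; omega
  · rw [h0, a0]; push_cast at hx ⊢; omega
  · rw [h1, a1]; push_cast at hx ⊢; omega
  · rw [h1, a1]; push_cast at hx ⊢; omega
  · rw [h2, a2]; push_cast at hx ⊢; omega
  · rw [h2, a2]; push_cast at hx ⊢; omega

theorem kap2_val (A : ValuationSubring ℂ) (hA : A.valuation 3 < 1) (k : ZMod 3) : A.valuation (kap2 k) = 1 := by
  have h2 : A.valuation (2 : ℂ) = 1 := by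
    have := CUL.w_int_unit A hA 2 (by norm_num)
    exact_mod_cast this
  have h4 : A.valuation (-4 : ℂ) = 1 := by
    have := CUL.w_int_unit A hA (-4) (by norm_num)
    exact_mod_cast this
  have h8 : A.valuation (8 : ℂ) = 1 := by
    have := CUL.w_int_unit A hA 8 (by norm_num)
    exact_mod_cast this
  unfold kap2
  split_ifs
  · rw [map_mul, h2, CUL.w_w, one_mul]
  · rw [map_mul, h4, CUL.w_w, one_mul]
  · rw [map_mul, h8, CUL.w_w, one_mul]

theorem zw_sub (A : ValuationSubring ℂ) (k : ZMod 3) : A.valuation (conj (zw k) - 1) ≤ A.valuation (emb la) := by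
  have h0 : A.valuation (conj (zw k) - 1) ≤ A.valuation (emb la) * 1 := by
    fin_cases k
    · have : conj (zw ((fun i => i) ⟨0, by norm_num⟩ : ZMod 3)) - 1 = 0 := by
        show conj (w ^ 0) - 1 = _
        rw [pow_zero, map_one, sub_self]
      rw [this, map_zero]
      exact zero_le
    · have : conj (zw ((fun i => i) ⟨1, by norm_num⟩ : ZMod 3)) - 1 = emb la * (w ^ 2) := by
        show conj (w ^ 1) - 1 = _
        rw [pow_one, CUL.conj_w, CUL.emb_la]
        linear_combination CUL.w3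
      rw [this, map_mul]
      refine mul_le_mul' le_rfl ?_
      rw [map_pow, CUL.w_w, one_pow]
    · have : conj (zw ((fun i => i) ⟨2, by norm_num⟩ : ZMod 3)) - 1 = emb la * (-1) := by
        show conj (w ^ 2) - 1 = _
        rw [map_pow, CUL.conj_w, CUL.emb_la]
        linear_combination w * CUL.w3
      rw [this, map_mul, Valuation.map_neg, map_one]
  rwa [mul_one] at h0

/-- `v = 1` -/
theorem V_4o2 (L : Lev) (hep : L.ep = 1) {η : ℤ} (hη : η = 1 ∨ η = -1) (hq : L.q la = -η)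
    {R : Finset Eis} (hR : IsR L R) (A : ValuationSubring ℂ)
    (hA : A.valuation 3 < 1) (i : ℕ) (hi : i < 3) {Ds : Eis} (hDs : Primary Ds) (hk : L.k = 2 - mn Ds) {r : ℂ}
    (hr : r ^ 2 = emb ((η : Eis) * CU.om ^ i * la * Ds)) (hgal : GalS L r) {u₁ u₂ : ℂ} (hN : N2 r (eo L R) u₁ u₂) :
    A.valuation (V4 L 2 i) ^ 6 ≤ A.valuation (emb la) ^ 23 ∧
      (A.valuation (V4 L 2 i) ^ 6 = A.valuation (emb la) ^ 23 ↔ ¬ Ln1 A η (-η * i) u₂) := by
  obtain ⟨D, hl, ho⟩ := rg_exists A hA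
  obtain ⟨y, y', φ, hOrb, hy1, hy2, hy3⟩ := orb_L L hep hR A hA D hl ho
  have hηsq : η * η = 1 := by rcases hη with rfl | rfl <;> norm_num
  have hr0 : r ≠ 0 := by
    intro h
    rw [h, zero_pow two_ne_zero] at hr
    rw [map_mul, map_mul, map_mul, map_pow, map_intCast, CUL.emb_om] at hr
    have h2 : (η : ℂ) ≠ 0 := by rcases hη with rfl | rfl <;> norm_num
    have h3 : emb Ds ≠ 0 := by
      intro h
      have h0 : Ds = 0 := emb_injective (by rw [h, map_zero])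
      rw [h0] at hDs
      obtain ⟨p1, p2⟩ := (primary_iff 0).1 hDs
      have : (0 : Eis).re = 0 := rfl
      omega
    have h4 : w ≠ 0 := by
      intro h
      have h5 := CUL.w3
      rw [h] at h5
      norm_num at h5
    exact mul_ne_zero (mul_ne_zero (mul_ne_zero h2 (pow_ne_zero _ h4)) CUL.la_ne) h3 hr.symm
  rw [hq] at hOrb hy2
  -- inverses
  have e1 : ∀ c ∈ R, ∃ z : A, (1 - y c) * z = 1 := by
    intro c hc
    obtain ⟨z, hz⟩ := D.hu (-(y' c))
    exact ⟨z, by rw [hOrb.hy c hc]; linear_combination hz⟩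
  have e2 : ∀ c ∈ R, ∃ z : A, (1 + y c) * z = 1 := by
    intro c hc
    obtain ⟨z, hz⟩ := D.hu (y' c)
    exact ⟨z, by rw [hOrb.hy c hc]; linear_combination hz⟩
  choose! u hu using e1
  choose! u' hu' using e2
  obtain ⟨M, X, g1, g2, hM1, h24, hS, hE⟩ := core hOrb u u' hu hu' ((al i : ℤ) : A) ((be i L.k : ℤ) : A)
  obtain ⟨hP, hP'⟩ := eo_prod L hR A hy1 hu hu'
  obtain ⟨hN1, hN2, hN3, hN4, hN5⟩ := hN
  -- rationality
  have hMr : ((D.l * M : A) : ℂ) / r ∈ CF.KK := by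
    have h1 := Mo_mem L hR hr0 hgal (j := 1) (by rw [hep])
    have h2 : Mo L R 1 = ((D.l * M : A) : ℂ) := by
      rw [← hM1]
      unfold Mo
      rw [AddSubmonoidClass.coe_finsetSum]
      refine Finset.sum_congr rfl fun c hc => ?_
      rw [pow_one, hy1 c hc]
    rw [← h2]; exact h1
  have h2 : (5 * (2 * (u₂ * r)) : ℂ) = ((2 * (10 * (D.l * M) + 10 * (D.l * M) ^ 3 + 8 * (D.l * M) ^ 5 +
      10 * (D.l ^ 3 * X) + 20 * (D.l * M) ^ 2 * (D.l ^ 3 * X)) + D.l ^ 7 * g2 : A) : ℂ) := by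
    rw [← hE]
    rw [Subring.coe_mul, AddSubgroupClass.coe_sub, hP, hP', z_num, hN3, ← hN3, hN4, hN3]
    ring
  obtain ⟨q, g, κ, hqv, hSg, hLn⟩ := digits4 A hA D hl ho hη hi hDs hr hN2 (c := be i L.k * (-η) - 2 * al i)
    (y_hc hη hi hk) (Sg := Sg D R y φ (((-η : ℤ) : ℤ) : A) ((al i : ℤ) : A) ((be i L.k : ℤ) : A)) (g1 := g1) hMr h24
    (by
      rw [hS]
      push_cast
      ring) h2
  rw [hLn]
  have hla := CUL.w_la_lt A hA
  have hl0 : ((D.l : A) : ℂ) ≠ 0 := by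
    intro h
    rw [h, zero_pow two_ne_zero] at hl
    exact CUL.la_ne hl.symm
  have vl : A.valuation ((D.l : A) : ℂ) ^ 2 = A.valuation (emb la) := by rw [← map_pow, hl]
  have vl1 : A.valuation ((D.l : A) : ℂ) < 1 := by
    by_contra hc
    push Not at hc
    have := one_le_pow₀ hc (n := 2)
    rw [vl] at this
    exact absurd hla (not_lt.2 this)
  -- the sum
  obtain ⟨W₀, hW₀⟩ : ∃ W₀ : ℂ, W₀ = ∑ c ∈ R, conj (L.chi c) * S4 (-1) 2 i L.k (pt L c) := ⟨_, rfl⟩
  have hdiff : A.valuation (W₀ - kap2 L.k * ((Sg D R y φ (((-η : ℤ) : ℤ) : A) ((al i : ℤ) : A)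
      ((be i L.k : ℤ) : A) : A) : ℂ)) ≤ A.valuation (emb la) ^ 2 := by
    have h3 : W₀ - kap2 L.k * ((Sg D R y φ (((-η : ℤ) : ℤ) : A) ((al i : ℤ) : A) ((be i L.k : ℤ) : A) : A) : ℂ) =
        ∑ c ∈ R, (conj (L.chi c) * S4 (-1) 2 i L.k (pt L c) - kap2 L.k *
          (((-((y c + y (φ (φ c))) * (D.l ^ 2 * ((al i : ℤ) : A) + ((((-η : ℤ) : ℤ) : A) * y (φ c)) ^ 2)) +
          D.l ^ 2 * ((be i L.k : ℤ) : A) * ((((-η : ℤ) : ℤ) : A) * y (φ c)) : A)) : ℂ)) := by
      rw [hW₀, Finset.sum_sub_distrib, ← Finset.mul_sum]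
      unfold Sg
      rw [AddSubmonoidClass.coe_finsetSum]
    rw [h3]
    refine Valuation.map_sum_le _ fun c hc => ?_
    have hqq : (L.q c : ℂ) * (L.q c : ℂ) = 1 := by
      have := q_sq L (hR.1 c hc)
      exact_mod_cast this
    obtain ⟨Y, hY⟩ : ∃ Y : ℂ, Y = (-((Tm (pt L c) + Tm (emb la ^ 2 * pt L c)) * (emb la * (al i : ℂ) +
      Tm (emb la * pt L c) ^ 2)) + emb la * (be i L.k : ℂ) * Tm (emb la * pt L c)) := ⟨_, rfl⟩
    have hT : (((-((y c + y (φ (φ c))) * (D.l ^ 2 * ((al i : ℤ) : A) + ((((-η : ℤ) : ℤ) : A) * y (φ c)) ^ 2)) +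
          D.l ^ 2 * ((be i L.k : ℤ) : A) * ((((-η : ℤ) : ℤ) : A) * y (φ c)) : A)) : ℂ) = (L.q c : ℂ) * Y := by
      have k1 := hy1 c hc
      have k2 := hy2 c hc
      have k3 := hy3 c hc
      push_cast at k2 ⊢
      rw [k1, k3, k2, hl, hY]
      linear_combination (-(L.q c : ℂ) * (Tm (pt L c) + Tm (emb la ^ 2 * pt L c)) * Tm (emb la * pt L c) ^ 2) * hqq
    have hTv : A.valuation ((L.q c : ℂ) * Y) ≤ A.valuation (emb la) := by
      have k1 : ((-((y c + y (φ (φ c))) * (D.l ^ 2 * ((al i : ℤ) : A) + ((((-η : ℤ) : ℤ) : A) * y (φ c)) ^ 2)) +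
          D.l ^ 2 * ((be i L.k : ℤ) : A) * ((((-η : ℤ) : ℤ) : A) * y (φ c)) : A)) = D.l ^ 2 *
          (-((y c + y (φ (φ c))) * (((al i : ℤ) : A) + ((((-η : ℤ) : ℤ) : A) * y' (φ c)) ^ 2)) +
          ((be i L.k : ℤ) : A) * ((((-η : ℤ) : ℤ) : A) * y (φ c))) := by
        rw [hOrb.hy _ (hOrb.hφ c hc)]
        ring
      rw [← hT, k1, Subring.coe_mul, Subring.coe_pow, map_mul, map_pow, vl]
      calc _ ≤ A.valuation (emb la) * 1 := mul_le_mul' le_rfl (z_le A _)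
        _ = _ := mul_one _
    have hS4 := S4_two A hA i L.k (OT_pt L (hR.1 c hc))
    rw [← hY] at hS4
    have hχ : conj (L.chi c) = (L.q c : ℂ) * conj (L.c c) := by
      unfold Lev.chi
      rw [map_mul, map_intCast]
    have h4 : conj (L.chi c) * S4 (-1) 2 i L.k (pt L c) - kap2 L.k * ((L.q c : ℂ) * Y) =
        (L.q c : ℂ) * conj (L.c c) * (S4 (-1) 2 i L.k (pt L c) - kap2 L.k * Y) +
          kap2 L.k * ((L.q c : ℂ) * Y) * (conj (L.c c) - 1) := by
      rw [hχ]; ring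
    obtain ⟨j, hj⟩ := L.c_cube c (hR.1 c hc)
    have hcv : A.valuation (conj (L.c c)) = 1 := by
      rw [hj]
      unfold zw
      rw [map_pow, CUL.conj_w, map_pow, map_pow, CUL.w_w, one_pow, one_pow]
    rw [hT, h4]
    refine Valuation.map_add_le _ ?_ ?_
    · rw [map_mul, map_mul, hcv, mul_one]
      calc _ ≤ 1 * A.valuation (emb la) ^ 2 := mul_le_mul' (CUL.w_int_le A _) hS4
        _ = _ := one_mul _
    · rw [map_mul, map_mul, kap2_val A hA, one_mul, pow_two]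
      refine mul_le_mul' hTv ?_
      rw [hj]; exact zw_sub A j
  obtain ⟨κ', hκ', ζ, hζ, hV⟩ := V4_eq L hR 2 i (by decide)
  rw [hep, pow_one, ← hW₀] at hV
  have vζ : A.valuation ζ = 1 := by
    have h3 : A.valuation ζ ^ 18 = 1 := by rw [← map_pow, hζ, map_one]
    exact (pow_eq_one_iff.1 h3).resolve_right (by norm_num)
  have vκ : A.valuation κ' ^ 6 * A.valuation (emb la) ^ 4 = 1 := by
    have h3 : κ' ^ 6 * emb la ^ 4 = 1 := by
      have h4 : κ' ^ 6 = (κ' ^ 3) ^ 2 := by ring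
      have h5 : (2 : ZMod 3).val = 2 := rfl
      rw [h4, hκ', h5]
      have := CUL.la_ne
      field_simp
    rw [← map_pow, ← map_pow, ← map_mul, h3, map_one]
  have hw0 : w ≠ 0 := by
    intro h
    have h5 := CUL.w3
    rw [h] at h5
    norm_num at h5
  have vθ : A.valuation (9 * th / (1 - w ^ 2) ^ 2) = A.valuation (emb la) ^ 3 := by
    have h3 : 9 * th / (1 - w ^ 2) ^ 2 = emb la ^ 3 * w := by
      have h4 : (1 - w ^ 2) = -(w ^ 2) * emb la := by
        rw [CUL.emb_la]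
        linear_combination -CUL.w3
      have h6 := CUL.la_ne
      rw [div_eq_iff (by rw [h4]; exact pow_ne_zero _ (mul_ne_zero (neg_ne_zero.2 (pow_ne_zero _ hw0)) h6)), h4, th_eq]
      linear_combination (-(emb la) * w ^ 5 * (emb la ^ 2 - 3 * w)) * CUL.la_sq - 9 * emb la * w * (w ^ 3 + 1) * CUL.w3
    rw [h3, map_mul, map_pow, CUL.w_w, mul_one]
  have vV : A.valuation (V4 L 2 i) ^ 6 = A.valuation (emb la) ^ 14 * A.valuation W₀ ^ 6 := by
    have hne : A.valuation (emb la) ≠ 0 := by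
      rw [Valuation.ne_zero_iff]; exact CUL.la_ne
    have h3 : A.valuation (V4 L 2 i) ^ 6 * A.valuation (emb la) ^ 4 =
        (A.valuation (emb la) ^ 14 * A.valuation W₀ ^ 6) * A.valuation (emb la) ^ 4 := by
      rw [hV, map_mul, map_mul, map_mul, vζ, vθ, one_mul, mul_pow, mul_pow]
      rw [mul_assoc (A.valuation κ' ^ 6), mul_right_comm, vκ, one_mul, ← pow_mul, mul_right_comm, ← pow_add]
    exact mul_right_cancel₀ (pow_ne_zero _ hne) h3
  -- the valuation of the sum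
  have v4096 : A.valuation (4096 : ℂ) = 1 := by
    have := CUL.w_int_unit A hA 4096 (by norm_num)
    exact_mod_cast this
  obtain ⟨S, hS'⟩ : ∃ S : A, S = Sg D R y φ (((-η : ℤ) : ℤ) : A) ((al i : ℤ) : A) ((be i L.k : ℤ) : A) := ⟨_, rfl⟩
  rw [← hS'] at hSg hdiff
  have vS : A.valuation (S : ℂ) = A.valuation ((D.l : A) : ℂ) ^ 3 * A.valuation ((q * (κ : A) + D.l ^ 2 * g : A) : ℂ) := by
    have h3 := congrArg (fun x : A => A.valuation (x : ℂ)) hSg
    beta_reduce at h3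
    rw [Subring.coe_mul, Subring.coe_mul, Subring.coe_pow, map_mul, map_mul, map_pow, z_num, v4096, one_mul] at h3
    exact h3
  have vl0 : 0 < A.valuation ((D.l : A) : ℂ) := by
    rw [zero_lt_iff, Valuation.ne_zero_iff]; exact hl0
  have hla2 : A.valuation (emb la) ^ 2 = A.valuation ((D.l : A) : ℂ) ^ 4 := by rw [← vl, ← pow_mul]
  rw [hla2] at hdiff
  have h43 : A.valuation ((D.l : A) : ℂ) ^ 4 < A.valuation ((D.l : A) : ℂ) ^ 3 :=
    pow_lt_pow_right_of_lt_one₀ vl0 vl1 (by norm_num)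
  have e23 : A.valuation (emb la) ^ 23 = A.valuation (emb la) ^ 14 * (A.valuation ((D.l : A) : ℂ) ^ 3) ^ 6 := by
    rw [← vl, ← pow_mul, ← pow_mul, ← pow_mul, ← pow_add]
  have hpos : 0 < A.valuation (emb la) ^ 14 := by
    rw [← vl, ← pow_mul, zero_lt_iff]
    exact pow_ne_zero _ vl0.ne'
  have hkS : A.valuation (kap2 L.k * (S : ℂ)) = A.valuation (S : ℂ) := by rw [map_mul, kap2_val A hA, one_mul]
  have hg2 : A.valuation ((D.l ^ 2 * g : A) : ℂ) ≤ A.valuation ((D.l : A) : ℂ) ^ 2 := by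
    rw [Subring.coe_mul, Subring.coe_pow, map_mul, map_pow]
    calc _ ≤ A.valuation ((D.l : A) : ℂ) ^ 2 * 1 := mul_le_mul' le_rfl (z_le A _)
      _ = _ := mul_one _
  have hl21 : A.valuation ((D.l : A) : ℂ) ^ 2 < 1 := by rw [vl]; exact hla
  by_cases h3κ : (3 : ℤ) ∣ κ
  · -- small
    have hκv : A.valuation ((q * (κ : A) + D.l ^ 2 * g : A) : ℂ) ≤ A.valuation ((D.l : A) : ℂ) ^ 2 := by
      rw [Subring.coe_add]
      refine Valuation.map_add_le _ ?_ hg2
      obtain ⟨m, hm⟩ := h3κ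
      rw [Subring.coe_mul, map_mul, hqv, one_mul]
      have h3 : (((κ : ℤ) : A) : ℂ) = 3 * (m : ℂ) := by
        rw [hm]; push_cast; rw [z_num]
      rw [h3, map_mul, ← CUL.w_la A hA, hla2]
      calc _ ≤ A.valuation ((D.l : A) : ℂ) ^ 4 * 1 := mul_le_mul' le_rfl (CUL.w_int_le A m)
        _ = A.valuation ((D.l : A) : ℂ) ^ 4 := mul_one _
        _ ≤ _ := pow_le_pow_right_of_le_one' vl1.le (by norm_num)
    have vS' : A.valuation (S : ℂ) < A.valuation ((D.l : A) : ℂ) ^ 3 := by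
      rw [vS]
      calc _ ≤ A.valuation ((D.l : A) : ℂ) ^ 3 * A.valuation ((D.l : A) : ℂ) ^ 2 := mul_le_mul' le_rfl hκv
        _ < A.valuation ((D.l : A) : ℂ) ^ 3 := by
          rw [← pow_add]
          exact pow_lt_pow_right_of_lt_one₀ vl0 vl1 (by norm_num)
    have vW : A.valuation W₀ < A.valuation ((D.l : A) : ℂ) ^ 3 := by
      have h3 : W₀ = (W₀ - kap2 L.k * (S : ℂ)) + kap2 L.k * (S : ℂ) := by ring
      rw [h3]
      exact Valuation.map_add_lt _ (lt_of_le_of_lt hdiff h43) (by rw [hkS]; exact vS')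
    have hlt : A.valuation (V4 L 2 i) ^ 6 < A.valuation (emb la) ^ 23 := by
      rw [vV, e23]
      exact mul_lt_mul_of_pos_left (pow_lt_pow_left₀ vW zero_le (by norm_num)) hpos
    exact ⟨hlt.le, ⟨fun h => absurd h hlt.ne, fun h => absurd h3κ h⟩⟩
  · have hκv : A.valuation ((q * (κ : A) + D.l ^ 2 * g : A) : ℂ) = 1 := by
      have h4 : A.valuation ((q * (κ : A) : A) : ℂ) = 1 := by
        rw [Subring.coe_mul, map_mul, hqv, one_mul]
        push_cast
        exact CUL.w_int_unit A hA κ h3κ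
      rw [Subring.coe_add, Valuation.map_add_eq_of_lt_left _ (by rw [h4]; exact lt_of_le_of_lt hg2 hl21), h4]
    have vS' : A.valuation (S : ℂ) = A.valuation ((D.l : A) : ℂ) ^ 3 := by rw [vS, hκv, mul_one]
    have vW : A.valuation W₀ = A.valuation ((D.l : A) : ℂ) ^ 3 := by
      have h3 : W₀ = kap2 L.k * (S : ℂ) + (W₀ - kap2 L.k * (S : ℂ)) := by ring
      rw [h3, Valuation.map_add_eq_of_lt_left _ (by rw [hkS, vS']; exact lt_of_le_of_lt hdiff h43), hkS, vS']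
    have heq : A.valuation (V4 L 2 i) ^ 6 = A.valuation (emb la) ^ 23 := by rw [vV, e23, vW]
    exact ⟨heq.le, ⟨fun _ => h3κ, fun _ => heq⟩⟩

end JGL
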