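import Pool.Agent.JGL.V4oA
import Pool.Agent.JGL.V4oY

/-!
# [JGL-V4o] `ep = 1`, `n = 4`: `V_4o1` (`v = 5`, V4oA.lean) and `V_4o2` (`v = 1`, V4oY.lean)
-/
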