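import Mathlib

/-!
# [JGL-V4o1] power sums in a ring with `λ = l²`, `λ = 1 - o`

The mathematics: `Pool/Agent/JGL/V4o.lean`. `S` is a commutative ring, `l` is in the Jacobson radical, `l ^ 2 = 1 - o`,
`o ^ 2 = -1 - o`.
-/

set_option autoImplicit false

namespace JGL

section core

variable {S : Type*} [CommRing S]

/-- The data. -/
structure Rg (S : Type*) [CommRing S] where
  l : S
  o : S
  hl : l ^ 2 = 1 - o
  ho : o ^ 2 = -1 - o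
  hu : ∀ x : S, ∃ y : S, (1 + l * x) * y = 1

variable (D : Rg S)

namespace Rg

theorem o3 : D.o ^ 3 = 1 := by
  linear_combination (D.o - 1) * D.ho

theorem l4 : D.l ^ 4 = -3 * D.o := by
  have h := D.hl
  have h2 := D.ho
  have : D.l ^ 4 = (D.l ^ 2) ^ 2 := by ring
  rw [this, h]
  linear_combination h2

theorem three : (3 : S) = -(D.o ^ 2 * D.l ^ 4) := by
  rw [D.l4]
  linear_combination -3 * D.o3

theorem nine : (9 : S) = D.o * D.l ^ 8 := by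
  have h : D.l ^ 8 = (D.l ^ 4) ^ 2 := by ring
  rw [h, D.l4]
  linear_combination -9 * D.o3

theorem t27 : (27 : S) = -D.l ^ 12 := by
  have h : D.l ^ 12 = (D.l ^ 4) ^ 3 := by ring
  rw [h, D.l4]
  linear_combination -27 * D.o3

/-- `θ = o λ` -/
def th : S := D.o * D.l ^ 2

theorem th_sq : D.th ^ 2 = -3 := by
  unfold th
  have h : (D.o * D.l ^ 2) ^ 2 = D.o ^ 2 * D.l ^ 4 := by ring
  rw [h]
  linear_combination D.three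

theorem th_cube : D.th ^ 3 = -3 * D.th := by
  linear_combination D.th * D.th_sq

include D in
theorem half : ∃ t : S, 2 * t = 1 := by
  obtain ⟨y, hy⟩ := D.hu (D.o ^ 2 * D.l ^ 3)
  refine ⟨-y, ?_⟩
  linear_combination hy - y * D.three

theorem inv3 (y' : S) : ∃ v : S, (1 + 3 * (D.l * y') ^ 2) * v = 1 := by
  obtain ⟨v, hv⟩ := D.hu (3 * (D.l * y' ^ 2))
  exact ⟨v, by linear_combination hv⟩

end Rg

/-- `sinh` part up to degree 5 -/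
def Shp (M x z : S) : S := 2 * M + 2 * M ^ 3 + 2 * x + 2 * M ^ 5 + 2 * z + 4 * M ^ 2 * x

/-- `cosh` part up to degree 4 -/
def Ch4 (M x : S) : S := 1 + 2 * M ^ 2 + 2 * M ^ 4 + 4 * M * x

/-- degree 6 -/
def Ch6 (M x z : S) : S := 2 * M ^ 6 + 4 * M ^ 3 * x + 2 * x ^ 2 + 4 * M * z

theorem key1 (l b M x z : S) : (1 + l * b) * (Ch4 (l * M) (l ^ 3 * x) + Ch6 (l * M) (l ^ 3 * x) (l ^ 5 * z) +
    Shp (l * M) (l ^ 3 * x) (l ^ 5 * z)) - l ^ 7 * (b * (Ch6 M x z + Ch6 (M + b) (x - M * b * (M + b))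
      (z - (M ^ 4 * b + 2 * M ^ 3 * b ^ 2 + 2 * M ^ 2 * b ^ 3 + M * b ^ 4)))) =
    (1 - l * b) * (Ch4 (l * (M + b)) (l ^ 3 * (x - M * b * (M + b))) +
      Ch6 (l * (M + b)) (l ^ 3 * (x - M * b * (M + b)))
        (l ^ 5 * (z - (M ^ 4 * b + 2 * M ^ 3 * b ^ 2 + 2 * M ^ 2 * b ^ 3 + M * b ^ 4))) +
      Shp (l * (M + b)) (l ^ 3 * (x - M * b * (M + b)))
        (l ^ 5 * (z - (M ^ 4 * b + 2 * M ^ 3 * b ^ 2 + 2 * M ^ 2 * b ^ 3 + M * b ^ 4)))) := by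
  unfold Ch4 Ch6 Shp
  ring

theorem key2 (l b M x z : S) : (1 - l * b) * (Ch4 (l * M) (l ^ 3 * x) + Ch6 (l * M) (l ^ 3 * x) (l ^ 5 * z) -
    Shp (l * M) (l ^ 3 * x) (l ^ 5 * z)) + l ^ 7 * (b * (Ch6 M x z + Ch6 (M + b) (x - M * b * (M + b))
      (z - (M ^ 4 * b + 2 * M ^ 3 * b ^ 2 + 2 * M ^ 2 * b ^ 3 + M * b ^ 4)))) =
    (1 + l * b) * (Ch4 (l * (M + b)) (l ^ 3 * (x - M * b * (M + b))) +
      Ch6 (l * (M + b)) (l ^ 3 * (x - M * b * (M + b)))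
        (l ^ 5 * (z - (M ^ 4 * b + 2 * M ^ 3 * b ^ 2 + 2 * M ^ 2 * b ^ 3 + M * b ^ 4))) -
      Shp (l * (M + b)) (l ^ 3 * (x - M * b * (M + b)))
        (l ^ 5 * (z - (M ^ 4 * b + 2 * M ^ 3 * b ^ 2 + 2 * M ^ 2 * b ^ 3 + M * b ^ 4)))) := by
  unfold Ch4 Ch6 Shp
  ring

/-- Power sums: `M₁ = l M`, `M₃ = M₁³ + 3 x₁`, `M₅ = M₁⁵ + 5 z₁`, `M₉ = M₁⁹ + 3 x₁³ + 9 v₁` and the products of the
`(1 + y) / (1 - y)` and of their inverses. -/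
theorem sums {ι : Type*} [DecidableEq ι] (R : Finset ι) (y y' u u' : ι → S) (hy : ∀ c ∈ R, y c = D.l * y' c)
    (hu : ∀ c ∈ R, (1 - y c) * u c = 1) (hu' : ∀ c ∈ R, (1 + y c) * u' c = 1) :
    ∃ M x z v g g' : S, ∑ c ∈ R, y c = D.l * M ∧
      ∑ c ∈ R, y c ^ 3 = (D.l * M) ^ 3 + 3 * (D.l ^ 3 * x) ∧
      ∑ c ∈ R, y c ^ 5 = (D.l * M) ^ 5 + 5 * (D.l ^ 5 * z) ∧
      ∑ c ∈ R, y c ^ 9 = (D.l * M) ^ 9 + 3 * (D.l ^ 3 * x) ^ 3 + 9 * (D.l ^ 9 * v) ∧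
      ∏ c ∈ R, ((1 + y c) * u c) =
        Ch4 (D.l * M) (D.l ^ 3 * x) + Ch6 (D.l * M) (D.l ^ 3 * x) (D.l ^ 5 * z) +
          Shp (D.l * M) (D.l ^ 3 * x) (D.l ^ 5 * z) + D.l ^ 7 * g ∧
      ∏ c ∈ R, ((1 - y c) * u' c) =
        Ch4 (D.l * M) (D.l ^ 3 * x) + Ch6 (D.l * M) (D.l ^ 3 * x) (D.l ^ 5 * z) -
          Shp (D.l * M) (D.l ^ 3 * x) (D.l ^ 5 * z) + D.l ^ 7 * g' := by
  induction R using Finset.induction_on with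
  | empty =>
    refine ⟨0, 0, 0, 0, 0, 0, ?_, ?_, ?_, ?_, ?_, ?_⟩
    · simp
    · simp
    · simp
    · simp
    · simp [Ch4, Ch6, Shp]
    · simp [Ch4, Ch6, Shp]
  | insert a R ha ih =>
    obtain ⟨M, x, z, v, g, g', h1, h3, h5, h9, hE, hE'⟩ := ih (fun c hc => hy c (Finset.mem_insert_of_mem hc))
      (fun c hc => hu c (Finset.mem_insert_of_mem hc)) (fun c hc => hu' c (Finset.mem_insert_of_mem hc))
    have hya := hy a (Finset.mem_insert_self a R)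
    have hua := hu a (Finset.mem_insert_self a R)
    have hua' := hu' a (Finset.mem_insert_self a R)
    set b := y' a with hb
    rw [hya] at hua hua'
    refine ⟨M + b, x - M * b * (M + b), z - (M ^ 4 * b + 2 * M ^ 3 * b ^ 2 + 2 * M ^ 2 * b ^ 3 + M * b ^ 4),
      v + x ^ 2 * (M * b * (M + b)) - x * (M * b * (M + b)) ^ 2 - (M ^ 3 + b ^ 3) ^ 2 * (M * b * (M + b)) -
        3 * (M ^ 3 + b ^ 3) * (M * b * (M + b)) ^ 2 - 3 * (M * b * (M + b)) ^ 3 +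
        M ^ 3 * b ^ 3 * (M * b * (M + b)),
      (g * (1 + D.l * b) + b * (Ch6 M x z + Ch6 (M + b) (x - M * b * (M + b))
        (z - (M ^ 4 * b + 2 * M ^ 3 * b ^ 2 + 2 * M ^ 2 * b ^ 3 + M * b ^ 4)))) * u a,
      (g' * (1 - D.l * b) - b * (Ch6 M x z + Ch6 (M + b) (x - M * b * (M + b))
        (z - (M ^ 4 * b + 2 * M ^ 3 * b ^ 2 + 2 * M ^ 2 * b ^ 3 + M * b ^ 4)))) * u' a, ?_, ?_, ?_, ?_, ?_, ?_⟩
    · rw [Finset.sum_insert ha, h1, hya]; ring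
    · rw [Finset.sum_insert ha, h3, hya]; ring
    · rw [Finset.sum_insert ha, h5, hya]; ring
    · rw [Finset.sum_insert ha, h9, hya]; ring
    · rw [Finset.prod_insert ha, hE, hya]
      linear_combination (u a) * (key1 D.l b M x z) +
        (Ch4 (D.l * (M + b)) (D.l ^ 3 * (x - M * b * (M + b))) +
            Ch6 (D.l * (M + b)) (D.l ^ 3 * (x - M * b * (M + b)))
              (D.l ^ 5 * (z - (M ^ 4 * b + 2 * M ^ 3 * b ^ 2 + 2 * M ^ 2 * b ^ 3 + M * b ^ 4))) +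
            Shp (D.l * (M + b)) (D.l ^ 3 * (x - M * b * (M + b)))
              (D.l ^ 5 * (z - (M ^ 4 * b + 2 * M ^ 3 * b ^ 2 + 2 * M ^ 2 * b ^ 3 + M * b ^ 4)))) * hua
    · rw [Finset.prod_insert ha, hE', hya]
      linear_combination (u' a) * (key2 D.l b M x z) +
        (Ch4 (D.l * (M + b)) (D.l ^ 3 * (x - M * b * (M + b))) +
            Ch6 (D.l * (M + b)) (D.l ^ 3 * (x - M * b * (M + b)))
              (D.l ^ 5 * (z - (M ^ 4 * b + 2 * M ^ 3 * b ^ 2 + 2 * M ^ 2 * b ^ 3 + M * b ^ 4))) -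
            Shp (D.l * (M + b)) (D.l ^ 3 * (x - M * b * (M + b)))
              (D.l ^ 5 * (z - (M ^ 4 * b + 2 * M ^ 3 * b ^ 2 + 2 * M ^ 2 * b ^ 3 + M * b ^ 4)))) * hua'

/-- `(R1)`, one term -/
theorem r1_term {e t y' : S} (hrel : -(D.th * (e * t)) * (1 + 3 * (D.l * y') ^ 2) = (D.l * y') ^ 3 + 3 * (D.l * y')) :
    ∃ g : S, -(D.th * (e * t)) = 3 * (D.l * y') - 8 * (D.l * y') ^ 3 + 24 * (D.l * y') ^ 5 + D.l ^ 15 * g := by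
  obtain ⟨v, hv⟩ := D.inv3 y'
  refine ⟨-(8 * D.o * y' ^ 7 * v), ?_⟩
  linear_combination v * hrel + (-(D.th * (e * t)) * (-1) + (3 * (D.l * y') - 8 * (D.l * y') ^ 3 + 24 * (D.l * y') ^ 5)) * hv
    - 8 * (D.l * y') ^ 7 * v * D.nine

/-- `(R2)`, one term -/
theorem r2_term {e t y' : S} (he : e ^ 2 = 1)
    (hrel : -(D.th * (e * t)) * (1 + 3 * (D.l * y') ^ 2) = (D.l * y') ^ 3 + 3 * (D.l * y')) :
    ∃ g : S, 3 * D.th * e * t ^ 3 = (D.l * y') ^ 9 + 9 * (D.l * y') ^ 7 + 27 * (D.l * y') ^ 3 + D.l ^ 17 * g := by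
  obtain ⟨v, hv⟩ := D.inv3 y'
  have h1 : (3 * D.th * e * t ^ 3) * (1 + 3 * (D.l * y') ^ 2) ^ 3 = ((D.l * y') ^ 3 + 3 * (D.l * y')) ^ 3 := by
    rw [← hrel]
    have h2 : e ^ 3 = e := by linear_combination e * he
    linear_combination (e ^ 3 * t ^ 3 * (1 + 3 * (D.l * y') ^ 2) ^ 3) * D.th_cube -
      (3 * D.th * t ^ 3 * (1 + 3 * (D.l * y') ^ 2) ^ 3) * h2
  refine ⟨((8 * y' ^ 5 + 27 * D.l ^ 2 * y' ^ 7 + 30 * D.l ^ 4 * y' ^ 9 + 10 * D.l ^ 8 * y' ^ 13 +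
    D.l ^ 10 * y' ^ 15) - 28 * D.o * D.l ^ 2 * y' ^ 11) * v ^ 3, ?_⟩
  have hv3 : (1 + 3 * (D.l * y') ^ 2) ^ 3 * v ^ 3 = 1 := by
    rw [← mul_pow, hv, one_pow]
  have h4 : ((D.l * y') ^ 3 + 3 * (D.l * y')) ^ 3 - ((D.l * y') ^ 9 + 9 * (D.l * y') ^ 7 + 27 * (D.l * y') ^ 3) *
      (1 + 3 * (D.l * y') ^ 2) ^ 3 = D.l ^ 17 * ((8 * y' ^ 5 + 27 * D.l ^ 2 * y' ^ 7 + 30 * D.l ^ 4 * y' ^ 9 +
      10 * D.l ^ 8 * y' ^ 13 + D.l ^ 10 * y' ^ 15) - 28 * D.o * D.l ^ 2 * y' ^ 11) := by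
    linear_combination (-8 * (D.l * y') ^ 5 - 27 * (D.l * y') ^ 7 - 30 * (D.l * y') ^ 9 - 10 * (D.l * y') ^ 13 -
      (D.l * y') ^ 15) * D.t27 - 28 * (D.l * y') ^ 11 * D.nine
  linear_combination v ^ 3 * h1 + v ^ 3 * h4 - (3 * D.th * e * t ^ 3 -
    ((D.l * y') ^ 9 + 9 * (D.l * y') ^ 7 + 27 * (D.l * y') ^ 3)) * hv3

/-- The situation: `y c = l y' c`, a map `φ` which preserves sums, `τ(λ z)` in terms of `τ(z)`. -/
structure Orb {ι : Type*} (D : Rg S) (R : Finset ι) (y y' : ι → S) (φ : ι → ι) (e : S) : Prop where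
  hy : ∀ c ∈ R, y c = D.l * y' c
  hφ : ∀ c ∈ R, φ c ∈ R
  sum : ∀ F : ι → S, ∑ c ∈ R, F (φ c) = ∑ c ∈ R, F c
  he : e ^ 2 = 1
  rel : ∀ c ∈ R, -(D.th * (e * y (φ c))) * (1 + 3 * y c ^ 2) = y c ^ 3 + 3 * y c

variable {D} {ι : Type*} {R : Finset ι} {y y' : ι → S} {φ : ι → ι} {e : S}

theorem Orb.rel' (h : Orb D R y y' φ e) {c : ι} (hc : c ∈ R) :
    -(D.th * (e * y (φ c))) * (1 + 3 * (D.l * y' c) ^ 2) = (D.l * y' c) ^ 3 + 3 * (D.l * y' c) := by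
  have := h.rel c hc
  rw [h.hy c hc] at this
  exact this

theorem Orb.r1 (h : Orb D R y y' φ e) : ∃ g : S, -(D.th * (e * ∑ c ∈ R, y c)) =
    3 * ∑ c ∈ R, y c - 8 * ∑ c ∈ R, y c ^ 3 + 24 * ∑ c ∈ R, y c ^ 5 + D.l ^ 15 * g := by
  have h1 : ∀ c ∈ R, ∃ g : S, -(D.th * (e * y (φ c))) = 3 * y c - 8 * y c ^ 3 + 24 * y c ^ 5 + D.l ^ 15 * g := by
    intro c hc
    obtain ⟨g, hg⟩ := r1_term D (h.rel' hc)
    exact ⟨g, by rw [hg, h.hy c hc]⟩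
  choose! g hg using h1
  refine ⟨∑ c ∈ R, g c, ?_⟩
  rw [← h.sum y, Finset.mul_sum, Finset.mul_sum, ← Finset.sum_neg_distrib, Finset.sum_congr rfl hg, h.sum y,
    Finset.sum_add_distrib, Finset.sum_add_distrib, Finset.sum_sub_distrib, ← Finset.mul_sum, ← Finset.mul_sum,
    ← Finset.mul_sum, ← Finset.mul_sum]

theorem Orb.r2 (h : Orb D R y y' φ e) : ∃ g : S, 3 * D.th * e * ∑ c ∈ R, y c ^ 3 =
    ∑ c ∈ R, y c ^ 9 + 9 * ∑ c ∈ R, y c ^ 7 + 27 * ∑ c ∈ R, y c ^ 3 + D.l ^ 17 * g := by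
  have h1 : ∀ c ∈ R, ∃ g : S, 3 * D.th * e * y (φ c) ^ 3 = y c ^ 9 + 9 * y c ^ 7 + 27 * y c ^ 3 + D.l ^ 17 * g := by
    intro c hc
    obtain ⟨g, hg⟩ := r2_term D h.he (h.rel' hc)
    exact ⟨g, by rw [hg, h.hy c hc]⟩
  choose! g hg using h1
  refine ⟨∑ c ∈ R, g c, ?_⟩
  rw [← h.sum (fun c => y c ^ 3), Finset.mul_sum, Finset.sum_congr rfl hg, h.sum (fun c => y c ^ 3),
    Finset.sum_add_distrib, Finset.sum_add_distrib, Finset.sum_add_distrib, ← Finset.mul_sum, ← Finset.mul_sum,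
    ← Finset.mul_sum]

/-- the leading sum -/
def Sg (D : Rg S) (R : Finset ι) (y : ι → S) (φ : ι → ι) (e α β : S) : S :=
  ∑ c ∈ R, (-((y c + y (φ (φ c))) * (D.l ^ 2 * α + (e * y (φ c)) ^ 2)) + D.l ^ 2 * β * (e * y (φ c)))

theorem Orb.sg (h : Orb D R y y' φ e) (α β : S) : ∃ g : S, D.th ^ 2 * Sg D R y φ e α β =
    D.th * e * ∑ c ∈ R, y c ^ 5 - ∑ c ∈ R, y c ^ 7 + D.th ^ 2 * D.l ^ 2 * (β * e - 2 * α) * ∑ c ∈ R, y c +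
      D.l ^ 9 * g := by
  -- `θ e y(φ c) = -(y³ + l⁵ h)`
  have h1 : ∀ c ∈ R, D.th * (e * y (φ c)) = -(y c ^ 3 + D.l ^ 5 * (-(D.o ^ 2 * y' c) - D.l ^ 4 * y' c ^ 2 * e * y' (φ c))) := by
    intro c hc
    have e1 := h.rel' hc
    have e2 : y (φ c) = D.l * y' (φ c) := h.hy _ (h.hφ c hc)
    have e3 : D.th = D.o * D.l ^ 2 := rfl
    rw [h.hy c hc]
    rw [e2, e3] at e1 ⊢
    linear_combination -e1 - (D.l * y' c) * D.three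
      - (D.l * y' c) ^ 2 * D.o * D.l ^ 2 * e * D.l * y' (φ c) * D.three + (D.l ^ 9 * y' c ^ 2 * e * y' (φ c)) * D.o3
  set k : ι → S := fun c => -(D.o ^ 2 * y' c) - D.l ^ 4 * y' c ^ 2 * e * y' (φ c) with hk
  have s1 : Sg D R y φ e α β = D.l ^ 2 * (β * e - 2 * α) * ∑ c ∈ R, y c - ∑ c ∈ R, y c * (e * y (φ c)) ^ 2 -
      ∑ c ∈ R, y (φ c) * (e * y c) ^ 2 := by
    have s2 := h.sum y
    have s3 := h.sum (fun c => y (φ c))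
    have s4 := h.sum (fun c => y (φ c) * (e * y c) ^ 2)
    beta_reduce at s3 s4
    have s5 : Sg D R y φ e α β = -(D.l ^ 2 * α) * ∑ c ∈ R, y c - D.l ^ 2 * α * ∑ c ∈ R, y (φ (φ c)) -
        ∑ c ∈ R, y c * (e * y (φ c)) ^ 2 - ∑ c ∈ R, y (φ (φ c)) * (e * y (φ c)) ^ 2 +
        D.l ^ 2 * β * e * ∑ c ∈ R, y (φ c) := by
      unfold Sg
      rw [Finset.mul_sum, Finset.mul_sum, Finset.mul_sum, ← Finset.sum_sub_distrib, ← Finset.sum_sub_distrib,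
        ← Finset.sum_sub_distrib, ← Finset.sum_add_distrib]
      exact Finset.sum_congr rfl fun c _ => by ring
    rw [s5, s3, s4, s2]
    ring
  have s6 : D.th ^ 2 * ∑ c ∈ R, y c * (e * y (φ c)) ^ 2 = ∑ c ∈ R, y c ^ 7 +
      D.l ^ 9 * ∑ c ∈ R, (2 * y' c ^ 4 * k c + D.l ^ 2 * y' c * k c ^ 2) := by
    rw [Finset.mul_sum, Finset.mul_sum, ← Finset.sum_add_distrib]
    refine Finset.sum_congr rfl fun c hc => ?_
    have e4 := h1 c hc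
    have e5 : D.th ^ 2 * (y c * (e * y (φ c)) ^ 2) = y c * (D.th * (e * y (φ c))) ^ 2 := by ring
    rw [e5, e4, h.hy c hc]
    ring
  have s7 : D.th ^ 2 * ∑ c ∈ R, y (φ c) * (e * y c) ^ 2 = -(D.th * e * ∑ c ∈ R, y c ^ 5) -
      D.l ^ 9 * ∑ c ∈ R, D.o * e * y' c ^ 2 * k c := by
    rw [Finset.mul_sum, Finset.mul_sum, Finset.mul_sum, ← Finset.sum_neg_distrib, ← Finset.sum_sub_distrib]
    refine Finset.sum_congr rfl fun c hc => ?_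
    have e4 := h1 c hc
    have e5 : D.th ^ 2 * (y (φ c) * (e * y c) ^ 2) = D.th * e * (D.th * (e * y (φ c))) * y c ^ 2 := by ring
    rw [e5, e4, h.hy c hc]
    unfold Rg.th
    ring
  refine ⟨-∑ c ∈ R, (2 * y' c ^ 4 * k c + D.l ^ 2 * y' c * k c ^ 2) + ∑ c ∈ R, D.o * e * y' c ^ 2 * k c, ?_⟩
  rw [s1]
  linear_combination -s6 - s7

/-- The first main formula. -/
theorem core [DecidableEq ι] (h : Orb D R y y' φ e) (u u' : ι → S) (hu : ∀ c ∈ R, (1 - y c) * u c = 1)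
    (hu' : ∀ c ∈ R, (1 + y c) * u' c = 1) (α β : S) :
    ∃ M X g1 g2 : S, ∑ c ∈ R, y c = D.l * M ∧
      24 * (D.l ^ 3 * X) = (D.l * M) * (3 + D.th * e - 8 * (D.l * M) ^ 2) ∧
      72 * (D.th ^ 2 * Sg D R y φ e α β) = 8 * (D.l * M) ^ 9 + 24 * (D.l ^ 3 * X) ^ 3 +
        18 * (5 + D.th * e) * (D.l * M) + 72 * (D.th ^ 2 * D.l ^ 2 * (β * e - 2 * α)) * (D.l * M) + D.l ^ 17 * g1 ∧
      5 * (∏ c ∈ R, ((1 + y c) * u c) - ∏ c ∈ R, ((1 - y c) * u' c)) = 2 * (10 * (D.l * M) + 10 * (D.l * M) ^ 3 +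
        8 * (D.l * M) ^ 5 + 10 * (D.l ^ 3 * X) + 20 * (D.l * M) ^ 2 * (D.l ^ 3 * X)) + D.l ^ 7 * g2 := by
  obtain ⟨M, x, z, v, g, g', a1, a3, a5, a9, hE, hE'⟩ := sums D R y y' u u' h.hy hu hu'
  obtain ⟨r1, hr1⟩ := h.r1
  obtain ⟨r2, hr2⟩ := h.r2
  obtain ⟨r3, hr3⟩ := h.sg α β
  obtain ⟨t, ht⟩ := D.half
  have he := h.he
  have ho3 := D.o3
  have hth := D.th_sq
  -- `M₁`, `M₃`, `M₅`, `M₇`, `M₉`
  set M1 := ∑ c ∈ R, y c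
  set M3 := ∑ c ∈ R, y c ^ 3
  set M5 := ∑ c ∈ R, y c ^ 5
  set M7 := ∑ c ∈ R, y c ^ 7
  set M9 := ∑ c ∈ R, y c ^ 9
  have h8 : 8 * t ^ 3 = 1 := by linear_combination (4 * t ^ 2 + 2 * t + 1) * ht
  obtain ⟨d, hd⟩ : ∃ d, d = M ^ 5 + 5 * z - D.l ^ 6 * t ^ 3 * D.o * r1 := ⟨_, rfl⟩
  obtain ⟨X, hX⟩ : ∃ X, X = x - D.l ^ 2 * d := ⟨_, rfl⟩
  have hx : x = X + D.l ^ 2 * d := by rw [hX]; ring
  have hth2 : D.th = D.o * D.l ^ 2 := rfl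
  have e1 : D.th * e * M1 + 3 * M1 - 8 * M3 + 24 * M5 + D.l ^ 15 * r1 = 0 := by linear_combination -hr1
  have b24 : 24 * (D.l ^ 3 * X) = M1 * (3 + D.th * e - 8 * M1 ^ 2) := by
    rw [hX, hd]
    linear_combination -8 * a3 + 24 * a5 - e1 + 3 * D.l ^ 11 * D.o * r1 * h8 + D.l ^ 11 * D.o * r1 * D.three -
      D.l ^ 15 * r1 * ho3 + 8 * (M1 ^ 2 + M1 * (D.l * M) + (D.l * M) ^ 2) * a1
  refine ⟨M, X, 8 * D.o * r3 + 8 * r2 + D.l ^ 4 * e * r1 * (-1) * (-1) - D.l ^ 10 * r1 - 24 * (M ^ 5 + 5 * z) +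
    8 * D.o * v - 8 * D.o ^ 2 * D.l ^ 2 * d * (-(D.o ^ 2 * X ^ 2) - D.o ^ 2 * D.l ^ 2 * X * d + d ^ 2),
    2 * (-(4 * D.o ^ 2 * D.l ^ 2 * d) + 2 * D.l ^ 4 * t ^ 3 * D.o * r1 + 20 * M ^ 2 * d) + 5 * (g - g'),
    a1, ?_, ?_, ?_⟩
  · rw [a1] at b24
    exact b24
  · have c1 : 72 * (D.th * e * M5) = 9 * M1 - 9 * D.th * e * M1 + 24 * D.th * e * M3 - 3 * D.th * e * D.l ^ 15 * r1 := by
      linear_combination 3 * D.th * e * hr1 * (-1) - 3 * e ^ 2 * M1 * hth + 9 * M1 * he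
    have c2 : 24 * (D.th * e * M3) = 8 * M9 + 72 * M7 + 216 * M3 + 8 * D.l ^ 17 * r2 := by
      linear_combination 8 * hr2
    have c3 : 216 * M3 = 27 * (3 * M1 + 24 * M5 + D.l ^ 15 * r1 + D.th * e * M1) := by
      linear_combination -27 * e1
    have c4 : 648 * M5 = -(24 * D.l ^ 17 * (M ^ 5 + 5 * z)) := by
      linear_combination 648 * a5 + 24 * D.l ^ 5 * (M ^ 5 + 5 * z) * D.t27
    have c5 : 3 * D.th * e * D.l ^ 15 * r1 = -(D.l ^ 21 * e * r1) := by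
      rw [hth2]
      linear_combination D.o * D.l ^ 17 * e * r1 * D.three - D.l ^ 21 * e * r1 * ho3
    have c6 : 27 * D.l ^ 15 * r1 = -(D.l ^ 27 * r1) := by
      linear_combination D.l ^ 15 * r1 * D.t27
    have c8 : 24 * (D.l ^ 3 * x) ^ 3 = 24 * (D.l ^ 3 * X) ^ 3 +
        D.l ^ 17 * (-(8 * D.o ^ 2 * D.l ^ 2 * d * (-(D.o ^ 2 * X ^ 2) - D.o ^ 2 * D.l ^ 2 * X * d + d ^ 2))) := by
      rw [hx]
      linear_combination 24 * D.l ^ 11 * d * (X ^ 2 + D.l ^ 2 * X * d) * D.three +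
        8 * D.l ^ 15 * d * (-(D.o ^ 2 * X ^ 2) - D.o ^ 2 * D.l ^ 2 * X * d + d ^ 2) * D.three
    have c9 : 72 * D.l ^ 9 * v = 8 * D.o * D.l ^ 17 * v := by
      linear_combination 8 * D.l ^ 9 * v * D.nine
    have c10 : 72 * D.l ^ 9 * r3 = 8 * D.o * D.l ^ 17 * r3 := by
      linear_combination 8 * D.l ^ 9 * r3 * D.nine
    linear_combination 72 * hr3 + c1 + c2 + c3 + c4 - c5 + c6 + 8 * a9 + c8 + c9 + c10 +
      (18 * (5 + D.th * e) + 72 * (D.th ^ 2 * D.l ^ 2 * (β * e - 2 * α))) * a1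
  · rw [hE, hE']
    unfold Shp
    rw [hx]
    linear_combination (8 * D.l ^ 5 * d) * D.three - 4 * D.l ^ 5 * hd

end core

end JGL
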