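import Pool.Agent.JGL.V4o1

/-!
# [JGL-V4o2] polynomial identities modulo powers of `x = λ`, `x² - 3 x + 3 = 0`, `o = 1 - x`, `θ = (1 - x) x`
-/

set_option autoImplicit false

namespace JGL

section ids

variable {S : Type*} [CommRing S]

theorem x_three {x : S} (hx : x ^ 2 - 3 * x + 3 = 0) : (3 : S) = x ^ 2 * (2 - x) := by
  linear_combination (x + 1) * hx

theorem w_id_p_z {x : S} (hx : x ^ 2 - 3 * x + 3 = 0) (b p c : S) :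
    (3 + (1 - x) * x * 1 - 12 * (x * (0 + b * x + x ^ 2 * p))) ^ 4 +
      192 * (3 + (1 - x) * x * 1 - 12 * (x * (0 + b * x + x ^ 2 * p))) * (x * (0 + b * x + x ^ 2 * p)) ^ 3 +
      9216 * (5 + (1 - x) * x * 1) + 36864 * ((1 - x) * x) ^ 2 * x * c =
    576 * ((1 - x) * x) * 1 * x ^ 2 * (b + 0 * (1 + 1) + 1 + c * 1) +
      x ^ 8 * (-1072 + 640 * x + 192 * b + 256 * p + 4160 * c - 128 * x * b - 128 * x * p - 1408 * x * c - 1152 * b ^ 2 + 3456 * p ^ 2 - 2304 * x * b * p - 3456 * x * p ^ 2 - 120960 * b * p ^ 2 - 80640 * b ^ 2 * p - 13440 * b ^ 3 - 40320 * p ^ 3 + 40320 * x * b * p ^ 2 + 40320 * x * b ^ 2 * p + 8960 * x * b ^ 3 - 663552 * b * p ^ 3 - 331776 * b ^ 2 * p ^ 2 + 18432 * b ^ 4 - 331776 * p ^ 4 + 442368 * x * b * p ^ 3 + 331776 * x * b ^ 2 *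 p ^ 2 + 73728 * x * b ^ 3 * p + 165888 * x * p ^ 4) := by
  linear_combination (15387 + 18495 * x + 10276 * x ^ 2 - 432 * x ^ 2 * b + 3887 * x ^ 3 - 1056 * x ^ 3 * b - 432 * x ^ 3 * p + 12096 * x ^ 3 * c + 660 * x ^ 4 - 432 * x ^ 4 * b - 864 * x ^ 4 * p - 12288 * x ^ 4 * c - 625 * x ^ 5 + 2592 * x ^ 4 * b ^ 2 + 192 * x ^ 5 * b - 432 * x ^ 5 * p - 4032 * x ^ 5 * c - 847 * x ^ 6 + 5184 * x ^ 5 * b * p + 4320 * x ^ 5 * b ^ 2 + 240 * x ^ 6 * b + 128 * x ^ 6 * p + 64 * x ^ 6 * c - 640 * x ^ 7 + 8640 * x ^ 6 * b * p + 2016 * x ^ 6 * b ^ 2 + 2592 * x ^ 6 * p ^ 2 + 128 * x ^ 7 * b + 176 * x ^ 7 * p + 1408 * x ^ 7 * c - 6720 * x ^ 6 * b ^ 3 + 4032 * x ^ 7 * b * p + 4320 * x ^ 7 * p ^ 2 - 20160 * x ^ 7 * b ^ 2 * p - 8960 * x ^ 7 * b ^ 3 + 864 * x ^ 8 * p ^ 2 +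 20160 * x ^ 8 * b * p ^ 2 + 13440 * x ^ 8 * p ^ 3 + 221184 * x ^ 8 * b * p ^ 3 + 110592 * x ^ 8 * b ^ 2 * p ^ 2 + 110592 * x ^ 8 * p ^ 4 + 6720 * x ^ 9 * p ^ 3 + 73728 * x ^ 9 * b * p ^ 3 + 55296 * x ^ 9 * p ^ 4 + 18432 * x ^ 10 * p ^ 4) * hx

theorem w_id_p_p {x : S} (hx : x ^ 2 - 3 * x + 3 = 0) (b p c : S) :
    (3 + (1 - x) * x * 1 - 12 * (x * (1 + b * x + x ^ 2 * p))) ^ 4 +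
      192 * (3 + (1 - x) * x * 1 - 12 * (x * (1 + b * x + x ^ 2 * p))) * (x * (1 + b * x + x ^ 2 * p)) ^ 3 +
      9216 * (5 + (1 - x) * x * 1) + 36864 * ((1 - x) * x) ^ 2 * x * c =
    576 * ((1 - x) * x) * 1 * x ^ 2 * (b + 1 * (1 + 1) + 1 + c * 1) +
      x ^ 8 * (1872 - 1152 * x + 22464 * b + 33664 * p + 4160 * c - 11264 * x * b - 11264 * x * p - 1408 * x * c + 140544 * b * p + 59136 * b ^ 2 + 33408 * p ^ 2 - 22272 * x * b * p - 23424 * x * b ^ 2 + 36864 * x * p ^ 2 - 120960 * b * p ^ 2 + 140544 * b ^ 2 * p + 60288 * b ^ 3 - 261504 * p ^ 3 + 261504 * x * b * p ^ 2 + 40320 * x * b ^ 2 * p - 15616 * x * b ^ 3 + 221184 * x * p ^ 3 - 663552 * b * p ^ 3 - 331776 * b ^ 2 * p ^ 2 + 18432 * b ^ 4 - 331776 * p ^ 4 + 442368 * x * b * p ^ 3 + 331776 * x * b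 ^ 2 * p ^ 2 + 73728 * x * b ^ 3 * p + 165888 * x * p ^ 4) := by
  linear_combination (15387 + 18063 * x + 12004 * x ^ 2 - 432 * x ^ 2 * b + 671 * x ^ 3 + 4128 * x ^ 3 * b - 432 * x ^ 3 * p + 12096 * x ^ 3 * c - 12 * x ^ 4 - 11952 * x ^ 4 * b + 4320 * x ^ 4 * p - 12288 * x ^ 4 * c + 1343 * x ^ 5 + 2592 * x ^ 4 * b ^ 2 + 1920 * x ^ 5 * b - 11952 * x ^ 5 * p - 4032 * x ^ 5 * c + 1585 * x ^ 6 + 5184 * x ^ 5 * b * p - 15840 * x ^ 5 * b ^ 2 + 11376 * x ^ 6 * b + 1856 * x ^ 6 * p + 64 * x ^ 6 * c + 1152 * x ^ 7 - 31680 * x ^ 6 * b * p + 12000 * x ^ 6 * b ^ 2 + 2592 * x ^ 6 * p ^ 2 + 11264 * x ^ 7 * b + 11312 * x ^ 7 * p + 1408 * x ^ 7 * c - 6720 * x ^ 6 * b ^ 3 + 24000 * x ^ 7 * b * p + 23424 * x ^ 7 * b ^ 2 - 15840 * x ^ 7 * p ^ 2 - 20160 * x ^ 7 * b ^ 2 *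 p + 15616 * x ^ 7 * b ^ 3 + 864 * x ^ 8 * p ^ 2 + 20160 * x ^ 8 * b * p ^ 2 + 87168 * x ^ 8 * p ^ 3 + 221184 * x ^ 8 * b * p ^ 3 + 110592 * x ^ 8 * b ^ 2 * p ^ 2 + 110592 * x ^ 8 * p ^ 4 + 6720 * x ^ 9 * p ^ 3 + 73728 * x ^ 9 * b * p ^ 3 + 55296 * x ^ 9 * p ^ 4 + 18432 * x ^ 10 * p ^ 4) * hx

theorem w_id_p_m {x : S} (hx : x ^ 2 - 3 * x + 3 = 0) (b p c : S) :
    (3 + (1 - x) * x * 1 - 12 * (x * ((-1) + b * x + x ^ 2 * p))) ^ 4 +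
      192 * (3 + (1 - x) * x * 1 - 12 * (x * ((-1) + b * x + x ^ 2 * p))) * (x * ((-1) + b * x + x ^ 2 * p)) ^ 3 +
      9216 * (5 + (1 - x) * x * 1) + 36864 * ((1 - x) * x) ^ 2 * x * c =
    576 * ((1 - x) * x) * 1 * x ^ 2 * (b + (-1) * (1 + 1) + 1 + c * 1) +
      x ^ 8 * (-1456 - 896 * x - 22080 * b - 60032 * p + 4160 * c + 19968 * x * b + 37888 * x * p - 1408 * x * c + 301824 * b * p + 86016 * b ^ 2 + 194688 * p ^ 2 - 129792 * x * b * p - 50304 * x * b ^ 2 - 43776 * x * p ^ 2 - 120960 * b * p ^ 2 - 301824 * b ^ 2 * p - 87168 * b ^ 3 + 180864 * p ^ 3 - 180864 * x * b * p ^ 2 + 40320 * x * b ^ 2 * p + 33536 * x * b ^ 3 - 221184 * x * p ^ 3 - 663552 * b * p ^ 3 - 331776 * b ^ 2 * p ^ 2 + 18432 * b ^ 4 - 331776 * p ^ 4 + 442368 * x * b * p ^ 3 + 331776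 * x * b ^ 2 * p ^ 2 + 73728 * x * b ^ 3 * p + 165888 * x * p ^ 4) := by
  linear_combination (15387 + 18927 * x + 13732 * x ^ 2 - 432 * x ^ 2 * b + 15743 * x ^ 3 - 6240 * x ^ 3 * b - 432 * x ^ 3 * p + 12096 * x ^ 3 * c + 17652 * x ^ 4 - 29232 * x ^ 4 * b - 6048 * x ^ 4 * p - 12288 * x ^ 4 * c + 9695 * x ^ 5 + 2592 * x ^ 4 * b ^ 2 - 55296 * x ^ 5 * b - 29232 * x ^ 5 * p - 4032 * x ^ 5 * c + 4145 * x ^ 6 + 5184 * x ^ 5 * b * p + 24480 * x ^ 5 * b ^ 2 - 37776 * x ^ 6 * b - 55360 * x ^ 6 * p + 64 * x ^ 6 * c + 896 * x ^ 7 + 48960 * x ^ 6 * b * p + 65760 * x ^ 6 * b ^ 2 + 2592 * x ^ 6 * p ^ 2 - 19968 * x ^ 7 * b - 37840 * x ^ 7 * p + 1408 * x ^ 7 * c - 6720 * x ^ 6 * b ^ 3 + 131520 * x ^ 7 * b * p + 50304 * x ^ 7 * b ^ 2 + 24480 * x ^ 7 * p ^ 2 - 20160 *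 x ^ 7 * b ^ 2 * p - 33536 * x ^ 7 * b ^ 3 + 864 * x ^ 8 * p ^ 2 + 20160 * x ^ 8 * b * p ^ 2 - 60288 * x ^ 8 * p ^ 3 + 221184 * x ^ 8 * b * p ^ 3 + 110592 * x ^ 8 * b ^ 2 * p ^ 2 + 110592 * x ^ 8 * p ^ 4 + 6720 * x ^ 9 * p ^ 3 + 73728 * x ^ 9 * b * p ^ 3 + 55296 * x ^ 9 * p ^ 4 + 18432 * x ^ 10 * p ^ 4) * hx

theorem w_id_m_z {x : S} (hx : x ^ 2 - 3 * x + 3 = 0) (b p c : S) :
    (3 + (1 - x) * x * (-1) - 12 * (x * (0 + b * x + x ^ 2 * p))) ^ 4 +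
      192 * (3 + (1 - x) * x * (-1) - 12 * (x * (0 + b * x + x ^ 2 * p))) * (x * (0 + b * x + x ^ 2 * p)) ^ 3 +
      9216 * (5 + (1 - x) * x * (-1)) + 36864 * ((1 - x) * x) ^ 2 * x * c =
    576 * ((1 - x) * x) * (-1) * x ^ 2 * (b + 0 * (1 + (-1)) + 1 + c * (-1)) +
      x ^ 8 * (-1200 + 496 * x - 192 * b - 256 * p + 4160 * c + 128 * x * b + 128 * x * p - 1408 * x * c + 6912 * b * p + 2304 * b ^ 2 + 3456 * p ^ 2 - 2304 * x * b * p - 1152 * x * b ^ 2 - 40320 * b ^ 2 * p - 13440 * b ^ 3 + 40320 * p ^ 3 - 40320 * x * b * p ^ 2 + 4480 * x * b ^ 3 - 40320 * x * p ^ 3 - 663552 * b * p ^ 3 - 331776 * b ^ 2 * p ^ 2 + 18432 * b ^ 4 - 331776 * p ^ 4 + 442368 * x * b * p ^ 3 + 331776 * x * b ^ 2 * p ^ 2 + 73728 * x * b ^ 3 * p + 165888 * x * p ^ 4) := by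
  linear_combination (15387 + 12279 * x + 10276 * x ^ 2 - 432 * x ^ 2 * b + 6335 * x ^ 3 + 192 * x ^ 3 * b - 432 * x ^ 3 * p + 12096 * x ^ 3 * c + 2748 * x ^ 4 - 432 * x ^ 4 * b - 12288 * x ^ 4 * c + 623 * x ^ 5 + 2592 * x ^ 4 * b ^ 2 - 192 * x ^ 5 * b - 432 * x ^ 5 * p - 4032 * x ^ 5 * c - 287 * x ^ 6 + 5184 * x ^ 5 * b * p + 864 * x ^ 5 * b ^ 2 - 240 * x ^ 6 * b - 128 * x ^ 6 * p + 64 * x ^ 6 * c - 496 * x ^ 7 + 1728 * x ^ 6 * b * p + 2016 * x ^ 6 * b ^ 2 + 2592 * x ^ 6 * p ^ 2 - 128 * x ^ 7 * b - 176 * x ^ 7 * p + 1408 * x ^ 7 * c - 6720 * x ^ 6 * b ^ 3 + 4032 * x ^ 7 * b * p + 1152 * x ^ 7 * b ^ 2 + 864 * x ^ 7 * p ^ 2 - 20160 * x ^ 7 * b ^ 2 * p - 4480 * x ^ 7 * b ^ 3 + 864 * x ^ 8 * p ^ 2 - 20160 * x ^ 8 * b * p ^ 2 - 13440 * x ^ 8 * p ^ 3 + 221184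 * x ^ 8 * b * p ^ 3 + 110592 * x ^ 8 * b ^ 2 * p ^ 2 + 110592 * x ^ 8 * p ^ 4 - 6720 * x ^ 9 * p ^ 3 + 73728 * x ^ 9 * b * p ^ 3 + 55296 * x ^ 9 * p ^ 4 + 18432 * x ^ 10 * p ^ 4) * hx

theorem w_id_m_p {x : S} (hx : x ^ 2 - 3 * x + 3 = 0) (b p c : S) :
    (3 + (1 - x) * x * (-1) - 12 * (x * (1 + b * x + x ^ 2 * p))) ^ 4 +
      192 * (3 + (1 - x) * x * (-1) - 12 * (x * (1 + b * x + x ^ 2 * p))) * (x * (1 + b * x + x ^ 2 * p)) ^ 3 +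
      9216 * (5 + (1 - x) * x * (-1)) + 36864 * ((1 - x) * x) ^ 2 * x * c =
    576 * ((1 - x) * x) * (-1) * x ^ 2 * (b + 1 * (1 + (-1)) + 1 + c * (-1)) +
      x ^ 8 * (-304 - 400 * x + 13248 * b + 26624 * p + 4160 * c - 8832 * x * b - 13312 * x * p - 1408 * x * c + 147456 * b * p + 49152 * b ^ 2 + 73728 * p ^ 2 - 49152 * x * b * p - 24576 * x * b ^ 2 + 180864 * b ^ 2 * p + 60288 * b ^ 3 - 180864 * p ^ 3 + 180864 * x * b * p ^ 2 - 20096 * x * b ^ 3 + 180864 * x * p ^ 3 - 663552 * b * p ^ 3 - 331776 * b ^ 2 * p ^ 2 + 18432 * b ^ 4 - 331776 * p ^ 4 + 442368 * x * b * p ^ 3 + 331776 * x * b ^ 2 * p ^ 2 + 73728 * x * b ^ 3 * p + 165888 * x * p ^ 4) := by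
  linear_combination (15387 + 11847 * x + 12868 * x ^ 2 - 432 * x ^ 2 * b + 47 * x ^ 3 + 5376 * x ^ 3 * b - 432 * x ^ 3 * p + 12096 * x ^ 3 * c + 6300 * x ^ 4 - 18864 * x ^ 4 * b + 5184 * x ^ 4 * p - 12288 * x ^ 4 * c + 3263 * x ^ 5 + 2592 * x ^ 4 * b ^ 2 + 14976 * x ^ 5 * b - 18864 * x ^ 5 * p - 4032 * x ^ 5 * c + 1505 * x ^ 6 + 5184 * x ^ 5 * b * p - 19296 * x ^ 5 * b ^ 2 + 13200 * x ^ 6 * b + 15040 * x ^ 6 * p + 64 * x ^ 6 * c + 400 * x ^ 7 - 38592 * x ^ 6 * b * p + 25440 * x ^ 6 * b ^ 2 + 2592 * x ^ 6 * p ^ 2 + 8832 * x ^ 7 * b + 13264 * x ^ 7 * p + 1408 * x ^ 7 * c - 6720 * x ^ 6 * b ^ 3 + 50880 * x ^ 7 * b * p + 24576 * x ^ 7 * b ^ 2 - 19296 * x ^ 7 * p ^ 2 - 20160 * x ^ 7 * b ^ 2 * p + 20096 * x ^ 7 * b ^ 3 + 864 * x ^ 8 * p ^ 2 - 20160 * x ^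 8 * b * p ^ 2 + 60288 * x ^ 8 * p ^ 3 + 221184 * x ^ 8 * b * p ^ 3 + 110592 * x ^ 8 * b ^ 2 * p ^ 2 + 110592 * x ^ 8 * p ^ 4 - 6720 * x ^ 9 * p ^ 3 + 73728 * x ^ 9 * b * p ^ 3 + 55296 * x ^ 9 * p ^ 4 + 18432 * x ^ 10 * p ^ 4) * hx

theorem w_id_m_m {x : S} (hx : x ^ 2 - 3 * x + 3 = 0) (b p c : S) :
    (3 + (1 - x) * x * (-1) - 12 * (x * ((-1) + b * x + x ^ 2 * p))) ^ 4 +
      192 * (3 + (1 - x) * x * (-1) - 12 * (x * ((-1) + b * x + x ^ 2 * p))) * (x * ((-1) + b * x + x ^ 2 * p)) ^ 3 +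
      9216 * (5 + (1 - x) * x * (-1)) + 36864 * ((1 - x) * x) ^ 2 * x * c =
    576 * ((1 - x) * x) * (-1) * x ^ 2 * (b + (-1) * (1 + (-1)) + 1 + c * (-1)) +
      x ^ 8 * (2768 - 3472 * x - 40512 * b - 80896 * p + 4160 * c + 27008 * x * b + 40448 * x * p - 1408 * x * c + 308736 * b * p + 102912 * b ^ 2 + 154368 * p ^ 2 - 102912 * x * b * p - 51456 * x * b ^ 2 - 261504 * b ^ 2 * p - 87168 * b ^ 3 + 261504 * p ^ 3 - 261504 * x * b * p ^ 2 + 29056 * x * b ^ 3 - 261504 * x * p ^ 3 - 663552 * b * p ^ 3 - 331776 * b ^ 2 * p ^ 2 + 18432 * b ^ 4 - 331776 * p ^ 4 + 442368 * x * b * p ^ 3 + 331776 * x * b ^ 2 * p ^ 2 + 73728 * x * b ^ 3 * p + 165888 * x * p ^ 4) := by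
  linear_combination (15387 + 12711 * x + 12868 * x ^ 2 - 432 * x ^ 2 * b + 14351 * x ^ 3 - 4992 * x ^ 3 * b - 432 * x ^ 3 * p + 12096 * x ^ 3 * c + 15516 * x ^ 4 - 22320 * x ^ 4 * b - 5184 * x ^ 4 * p - 12288 * x ^ 4 * c + 12575 * x ^ 5 + 2592 * x ^ 4 * b ^ 2 - 42240 * x ^ 5 * b - 22320 * x ^ 5 * p - 4032 * x ^ 5 * c + 7649 * x ^ 6 + 5184 * x ^ 5 * b * p + 21024 * x ^ 5 * b ^ 2 - 40560 * x ^ 6 * b - 42176 * x ^ 6 * p + 64 * x ^ 6 * c + 3472 * x ^ 7 + 42048 * x ^ 6 * b * p + 52320 * x ^ 6 * b ^ 2 + 2592 * x ^ 6 * p ^ 2 - 27008 * x ^ 7 * b - 40496 * x ^ 7 * p + 1408 * x ^ 7 * c - 6720 * x ^ 6 * b ^ 3 + 104640 * x ^ 7 * b * p + 51456 * x ^ 7 * b ^ 2 + 21024 * x ^ 7 * p ^ 2 - 20160 * x ^ 7 * b ^ 2 * p - 29056 * x ^ 7 * b ^ 3 + 864 * x ^ 8 * p ^ 2 - 20160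 * x ^ 8 * b * p ^ 2 - 87168 * x ^ 8 * p ^ 3 + 221184 * x ^ 8 * b * p ^ 3 + 110592 * x ^ 8 * b ^ 2 * p ^ 2 + 110592 * x ^ 8 * p ^ 4 - 6720 * x ^ 9 * p ^ 3 + 73728 * x ^ 9 * b * p ^ 3 + 55296 * x ^ 9 * p ^ 4 + 18432 * x ^ 10 * p ^ 4) * hx

/-- the expression of `V4` for a unit `m` -/
theorem w_id {x : S} (hx : x ^ 2 - 3 * x + 3 = 0) (b p c : S) {e a : ℤ} (he : e = 1 ∨ e = -1)
    (ha : a = 0 ∨ a = 1 ∨ a = -1) : ∃ G : S,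
    (3 + (1 - x) * x * e - 12 * (x * (a + b * x + x ^ 2 * p))) ^ 4 +
      192 * (3 + (1 - x) * x * e - 12 * (x * (a + b * x + x ^ 2 * p))) * (x * (a + b * x + x ^ 2 * p)) ^ 3 +
      9216 * (5 + (1 - x) * x * e) + 36864 * ((1 - x) * x) ^ 2 * x * c =
    576 * ((1 - x) * x) * e * x ^ 2 * (b + a * (1 + e) + 1 + c * e) + x ^ 8 * G := by
  rcases he with rfl | rfl <;> rcases ha with rfl | rfl | rfl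
  · exact ⟨_, by push_cast; exact w_id_p_z hx b p c⟩
  · exact ⟨_, by push_cast; exact w_id_p_p hx b p c⟩
  · exact ⟨_, by push_cast; exact w_id_p_m hx b p c⟩
  · exact ⟨_, by push_cast; exact w_id_m_z hx b p c⟩
  · exact ⟨_, by push_cast; exact w_id_m_p hx b p c⟩
  · exact ⟨_, by push_cast; exact w_id_m_m hx b p c⟩

theorem f_id_0p {x : S} (hx : x ^ 2 - 3 * x + 3 = 0) (a b c₁ c₂ N : S) :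
    2 * 1 * (1 - x) ^ 0 * (1 + 3 * N) * (1 + c₁ * x + c₂ * x ^ 2) ^ 2 -
      (12 * a + (1 - x) ^ 2 * x - (1 - x) * 1) *
        (-1 + (1 - x) * x * 1 + x * (a + b * x) * (1 + (1 - x) * x * 1)) ^ 2 =
    (-4 + 22 * a + 4 * c₁ + 24 * a ^ 2 + 12 * N * c₁) * x + (11 - 2 * b - 40 * a + 4 * N + 4 * c₂ + 24 * b * a + a ^ 2 + 12 * N * c₂ + 2 * c₁ ^ 2 - 12 * a ^ 3 + 6 * N * c₁ ^ 2) * x ^ 2 +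
      x ^ 3 * (-14 + 13 * x + 4 * b + 26 * a - 2 * N - 2 * x * b - 18 * x * a - 9 * x ^ 2 + 2 * b * a - 24 * a ^ 2 + 4 * c₁ * c₂ - 24 * x * b * a + x * b ^ 2 + 45 * x * a ^ 2 + 2 * x * c₂ ^ 2 - 6 * x ^ 2 * b + 14 * x ^ 2 * a + 4 * x ^ 3 - 24 * b * a ^ 2 - 24 * a ^ 3 + 12 * N * c₁ * c₂ - 48 * x * b * a ^ 2 - 12 * x * b ^ 2 * a + 12 * x * a ^ 3 + 6 * x * N * c₂ ^ 2 + 42 * x ^ 2 * b * a - 21 * x ^ 2 * a ^ 2 + 14 * x ^ 3 * b - 14 * x ^ 3 * a - x ^ 4 + 24 * x ^ 2 * b * a ^ 2 - 24 * x ^ 2 * b ^ 2 * a + 24 * x ^ 2 * a ^ 3 - 18 * x ^ 3 * b * a - 3 * x ^ 3 * b ^ 2 + x ^ 3 * a ^ 2 - 14 * x ^ 4 * b + 8 * x ^ 4 * a + 48 * x ^ 3 * b * a ^ 2 + 12 * x ^ 3 * b ^ 2 * a - 12 * x ^ 3 * a ^ 3 + 2 * x ^ 4 * b * a + 3 * x ^ 4 * b ^ 2 - 5 * x ^ 4 * a ^ 2 + 8 * x ^ 5 * b -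 2 * x ^ 5 * a - 24 * x ^ 4 * b * a ^ 2 + 24 * x ^ 4 * b ^ 2 * a - 10 * x ^ 5 * b * a + x ^ 5 * b ^ 2 + 4 * x ^ 5 * a ^ 2 - 2 * x ^ 6 * b - 12 * x ^ 5 * b ^ 2 * a + 8 * x ^ 6 * b * a - 5 * x ^ 6 * b ^ 2 - x ^ 6 * a ^ 2 - 2 * x ^ 7 * b * a + 4 * x ^ 7 * b ^ 2 - x ^ 8 * b ^ 2) := by
  linear_combination (1 + x - 4 * a + 2 * N - 4 * x * a + 2 * x * N) * hx

theorem f_id_0m {x : S} (hx : x ^ 2 - 3 * x + 3 = 0) (a b c₁ c₂ N : S) :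
    2 * (-1) * (1 - x) ^ 0 * (1 + 3 * N) * (1 + c₁ * x + c₂ * x ^ 2) ^ 2 -
      (12 * a + (1 - x) ^ 2 * x - (1 - x) * (-1)) *
        (-1 + (1 - x) * x * (-1) + x * (a + b * x) * (1 + (1 - x) * x * (-1))) ^ 2 =
    (-2 - 22 * a - 4 * c₁ + 24 * a ^ 2 - 12 * N * c₁) * x + (1 + 2 * b + 4 * a - 4 * N - 4 * c₂ + 24 * b * a - a ^ 2 - 12 * N * c₂ - 2 * c₁ ^ 2 - 12 * a ^ 3 - 6 * N * c₁ ^ 2) * x ^ 2 +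
      x ^ 3 * (6 - 5 * x + 22 * a + 2 * N - 6 * x * b - 6 * x * a - 3 * x ^ 2 - 2 * b * a - 22 * a ^ 2 - 4 * c₁ * c₂ - 20 * x * b * a - x * b ^ 2 + 47 * x * a ^ 2 - 2 * x * c₂ ^ 2 + 6 * x ^ 2 * b + 2 * x ^ 2 * a + 4 * x ^ 3 - 24 * b * a ^ 2 + 24 * a ^ 3 - 12 * N * c₁ * c₂ + 48 * x * b * a ^ 2 - 12 * x * b ^ 2 * a - 36 * x * a ^ 3 - 6 * x * N * c₂ ^ 2 + 46 * x ^ 2 * b * a + 2 * x ^ 2 * b ^ 2 - 27 * x ^ 2 * a ^ 2 + 2 * x ^ 3 * b - 10 * x ^ 3 * a - x ^ 4 - 72 * x ^ 2 * b * a ^ 2 + 24 * x ^ 2 * b ^ 2 * a + 24 * x ^ 2 * a ^ 3 - 30 * x ^ 3 * b * a - x ^ 3 * b ^ 2 + 7 * x ^ 3 * a ^ 2 - 10 * x ^ 4 * b + 8 * x ^ 4 * a + 48 * x ^ 3 * b * a ^ 2 - 36 * x ^ 3 * b ^ 2 * a - 12 * x ^ 3 * a ^ 3 + 14 * x ^ 4 * b * a - 3 * x ^ 4 * b ^ 2 - 7 * x ^ 4 * a ^ 2 + 8 * x ^ 5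 * b - 2 * x ^ 5 * a - 24 * x ^ 4 * b * a ^ 2 + 24 * x ^ 4 * b ^ 2 * a - 14 * x ^ 5 * b * a + 7 * x ^ 5 * b ^ 2 + 4 * x ^ 5 * a ^ 2 - 2 * x ^ 6 * b - 12 * x ^ 5 * b ^ 2 * a + 8 * x ^ 6 * b * a - 7 * x ^ 6 * b ^ 2 - x ^ 6 * a ^ 2 - 2 * x ^ 7 * b * a + 4 * x ^ 7 * b ^ 2 - x ^ 8 * b ^ 2) := by
  linear_combination (-1 - x - 4 * a - 2 * N - 4 * x * a - 2 * x * N) * hx

theorem f_id_1p {x : S} (hx : x ^ 2 - 3 * x + 3 = 0) (a b c₁ c₂ N : S) :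
    2 * 1 * (1 - x) ^ 1 * (1 + 3 * N) * (1 + c₁ * x + c₂ * x ^ 2) ^ 2 -
      (12 * a + (1 - x) ^ 2 * x - (1 - x) * 1) *
        (-1 + (1 - x) * x * 1 + x * (a + b * x) * (1 + (1 - x) * x * 1)) ^ 2 =
    (-6 + 22 * a - 6 * N + 4 * c₁ + 24 * a ^ 2 + 12 * N * c₁) * x + (11 - 2 * b - 40 * a + 4 * N - 4 * c₁ + 4 * c₂ + 24 * b * a + a ^ 2 - 12 * N * c₁ + 12 * N * c₂ + 2 * c₁ ^ 2 - 12 * a ^ 3 + 6 * N * c₁ ^ 2) * x ^ 2 +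
      x ^ 3 * (-14 + 13 * x + 4 * b + 26 * a - 2 * N - 4 * c₂ - 2 * x * b - 18 * x * a - 9 * x ^ 2 + 2 * b * a - 24 * a ^ 2 - 12 * N * c₂ + 4 * c₁ * c₂ - 2 * c₁ ^ 2 - 24 * x * b * a + x * b ^ 2 + 45 * x * a ^ 2 - 4 * x * c₁ * c₂ + 2 * x * c₂ ^ 2 - 6 * x ^ 2 * b + 14 * x ^ 2 * a + 4 * x ^ 3 - 24 * b * a ^ 2 - 24 * a ^ 3 + 12 * N * c₁ * c₂ - 6 * N * c₁ ^ 2 - 48 * x * b * a ^ 2 - 12 * x * b ^ 2 * a + 12 * x * a ^ 3 - 12 * x * N * c₁ * c₂ + 6 * x * N * c₂ ^ 2 + 42 * x ^ 2 * b * a - 21 * x ^ 2 * a ^ 2 - 2 * x ^ 2 * c₂ ^ 2 + 14 * x ^ 3 * b - 14 * x ^ 3 * a - x ^ 4 + 24 * x ^ 2 * b * a ^ 2 - 24 * x ^ 2 * b ^ 2 * a + 24 * x ^ 2 * a ^ 3 - 6 * x ^ 2 * N * c₂ ^ 2 - 18 * x ^ 3 * b * a - 3 * x ^ 3 * b ^ 2 + x ^ 3 * a ^ 2 - 14 * x ^ 4 * b + 8 * x ^ 4 * a + 48 * x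 ^ 3 * b * a ^ 2 + 12 * x ^ 3 * b ^ 2 * a - 12 * x ^ 3 * a ^ 3 + 2 * x ^ 4 * b * a + 3 * x ^ 4 * b ^ 2 - 5 * x ^ 4 * a ^ 2 + 8 * x ^ 5 * b - 2 * x ^ 5 * a - 24 * x ^ 4 * b * a ^ 2 + 24 * x ^ 4 * b ^ 2 * a - 10 * x ^ 5 * b * a + x ^ 5 * b ^ 2 + 4 * x ^ 5 * a ^ 2 - 2 * x ^ 6 * b - 12 * x ^ 5 * b ^ 2 * a + 8 * x ^ 6 * b * a - 5 * x ^ 6 * b ^ 2 - x ^ 6 * a ^ 2 - 2 * x ^ 7 * b * a + 4 * x ^ 7 * b ^ 2 - x ^ 8 * b ^ 2) := by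
  linear_combination (1 + x - 4 * a + 2 * N - 4 * x * a + 2 * x * N) * hx

theorem f_id_1m {x : S} (hx : x ^ 2 - 3 * x + 3 = 0) (a b c₁ c₂ N : S) :
    2 * (-1) * (1 - x) ^ 1 * (1 + 3 * N) * (1 + c₁ * x + c₂ * x ^ 2) ^ 2 -
      (12 * a + (1 - x) ^ 2 * x - (1 - x) * (-1)) *
        (-1 + (1 - x) * x * (-1) + x * (a + b * x) * (1 + (1 - x) * x * (-1))) ^ 2 =
    (-22 * a + 6 * N - 4 * c₁ + 24 * a ^ 2 - 12 * N * c₁) * x + (1 + 2 * b + 4 * a - 4 * N + 4 * c₁ - 4 * c₂ + 24 * b * a - a ^ 2 + 12 * N * c₁ - 12 * N * c₂ - 2 * c₁ ^ 2 - 12 * a ^ 3 - 6 * N * c₁ ^ 2) * x ^ 2 +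
      x ^ 3 * (6 - 5 * x + 22 * a + 2 * N + 4 * c₂ - 6 * x * b - 6 * x * a - 3 * x ^ 2 - 2 * b * a - 22 * a ^ 2 + 12 * N * c₂ - 4 * c₁ * c₂ + 2 * c₁ ^ 2 - 20 * x * b * a - x * b ^ 2 + 47 * x * a ^ 2 + 4 * x * c₁ * c₂ - 2 * x * c₂ ^ 2 + 6 * x ^ 2 * b + 2 * x ^ 2 * a + 4 * x ^ 3 - 24 * b * a ^ 2 + 24 * a ^ 3 - 12 * N * c₁ * c₂ + 6 * N * c₁ ^ 2 + 48 * x * b * a ^ 2 - 12 * x * b ^ 2 * a - 36 * x * a ^ 3 + 12 * x * N * c₁ * c₂ - 6 * x * N * c₂ ^ 2 + 46 * x ^ 2 * b * a + 2 * x ^ 2 * b ^ 2 - 27 * x ^ 2 * a ^ 2 + 2 * x ^ 2 * c₂ ^ 2 + 2 * x ^ 3 * b - 10 * x ^ 3 * a - x ^ 4 - 72 * x ^ 2 * b * a ^ 2 + 24 * x ^ 2 * b ^ 2 * a + 24 * x ^ 2 * a ^ 3 + 6 * x ^ 2 * N * c₂ ^ 2 - 30 * x ^ 3 * b * a - x ^ 3 * b ^ 2 + 7 * x ^ 3 * a ^ 2 - 10 * x ^ 4 * b + 8 * x ^ 4 * a + 48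 * x ^ 3 * b * a ^ 2 - 36 * x ^ 3 * b ^ 2 * a - 12 * x ^ 3 * a ^ 3 + 14 * x ^ 4 * b * a - 3 * x ^ 4 * b ^ 2 - 7 * x ^ 4 * a ^ 2 + 8 * x ^ 5 * b - 2 * x ^ 5 * a - 24 * x ^ 4 * b * a ^ 2 + 24 * x ^ 4 * b ^ 2 * a - 14 * x ^ 5 * b * a + 7 * x ^ 5 * b ^ 2 + 4 * x ^ 5 * a ^ 2 - 2 * x ^ 6 * b - 12 * x ^ 5 * b ^ 2 * a + 8 * x ^ 6 * b * a - 7 * x ^ 6 * b ^ 2 - x ^ 6 * a ^ 2 - 2 * x ^ 7 * b * a + 4 * x ^ 7 * b ^ 2 - x ^ 8 * b ^ 2) := by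
  linear_combination (-1 - x - 4 * a - 2 * N - 4 * x * a - 2 * x * N) * hx

theorem f_id_2p {x : S} (hx : x ^ 2 - 3 * x + 3 = 0) (a b c₁ c₂ N : S) :
    2 * 1 * (1 - x) ^ 2 * (1 + 3 * N) * (1 + c₁ * x + c₂ * x ^ 2) ^ 2 -
      (12 * a + (1 - x) ^ 2 * x - (1 - x) * 1) *
        (-1 + (1 - x) * x * 1 + x * (a + b * x) * (1 + (1 - x) * x * 1)) ^ 2 =
    (-8 + 22 * a - 12 * N + 4 * c₁ + 24 * a ^ 2 + 12 * N * c₁) * x + (13 - 2 * b - 40 * a + 10 * N - 8 * c₁ + 4 * c₂ + 24 * b * a + a ^ 2 - 24 * N * c₁ + 12 * N * c₂ + 2 * c₁ ^ 2 - 12 * a ^ 3 + 6 * N * c₁ ^ 2) * x ^ 2 +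
      x ^ 3 * (-14 + 13 * x + 4 * b + 26 * a - 2 * N + 4 * c₁ - 8 * c₂ - 2 * x * b - 18 * x * a + 4 * x * c₂ - 9 * x ^ 2 + 2 * b * a - 24 * a ^ 2 + 12 * N * c₁ - 24 * N * c₂ + 4 * c₁ * c₂ - 4 * c₁ ^ 2 - 24 * x * b * a + x * b ^ 2 + 45 * x * a ^ 2 + 12 * x * N * c₂ - 8 * x * c₁ * c₂ + 2 * x * c₁ ^ 2 + 2 * x * c₂ ^ 2 - 6 * x ^ 2 * b + 14 * x ^ 2 * a + 4 * x ^ 3 - 24 * b * a ^ 2 - 24 * a ^ 3 + 12 * N * c₁ * c₂ - 12 * N * c₁ ^ 2 - 48 * x * b * a ^ 2 - 12 * x * b ^ 2 * a + 12 * x * a ^ 3 - 24 * x * N * c₁ * c₂ + 6 * x * N * c₁ ^ 2 + 6 * x * N * c₂ ^ 2 + 42 * x ^ 2 * b * a - 21 * x ^ 2 * a ^ 2 + 4 * x ^ 2 * c₁ * c₂ - 4 * x ^ 2 * c₂ ^ 2 + 14 * x ^ 3 * b - 14 * x ^ 3 * a - x ^ 4 + 24 * x ^ 2 * b * a ^ 2 - 24 * x ^ 2 * b ^ 2 * a + 24 * x ^ 2 * a ^ 3 + 12 * x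 ^ 2 * N * c₁ * c₂ - 12 * x ^ 2 * N * c₂ ^ 2 - 18 * x ^ 3 * b * a - 3 * x ^ 3 * b ^ 2 + x ^ 3 * a ^ 2 + 2 * x ^ 3 * c₂ ^ 2 - 14 * x ^ 4 * b + 8 * x ^ 4 * a + 48 * x ^ 3 * b * a ^ 2 + 12 * x ^ 3 * b ^ 2 * a - 12 * x ^ 3 * a ^ 3 + 6 * x ^ 3 * N * c₂ ^ 2 + 2 * x ^ 4 * b * a + 3 * x ^ 4 * b ^ 2 - 5 * x ^ 4 * a ^ 2 + 8 * x ^ 5 * b - 2 * x ^ 5 * a - 24 * x ^ 4 * b * a ^ 2 + 24 * x ^ 4 * b ^ 2 * a - 10 * x ^ 5 * b * a + x ^ 5 * b ^ 2 + 4 * x ^ 5 * a ^ 2 - 2 * x ^ 6 * b - 12 * x ^ 5 * b ^ 2 * a + 8 * x ^ 6 * b * a - 5 * x ^ 6 * b ^ 2 - x ^ 6 * a ^ 2 - 2 * x ^ 7 * b * a + 4 * x ^ 7 * b ^ 2 - x ^ 8 * b ^ 2) := by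
  linear_combination (1 + x - 4 * a + 2 * N - 4 * x * a + 2 * x * N) * hx

theorem f_id_2m {x : S} (hx : x ^ 2 - 3 * x + 3 = 0) (a b c₁ c₂ N : S) :
    2 * (-1) * (1 - x) ^ 2 * (1 + 3 * N) * (1 + c₁ * x + c₂ * x ^ 2) ^ 2 -
      (12 * a + (1 - x) ^ 2 * x - (1 - x) * (-1)) *
        (-1 + (1 - x) * x * (-1) + x * (a + b * x) * (1 + (1 - x) * x * (-1))) ^ 2 =
    (2 - 22 * a + 12 * N - 4 * c₁ + 24 * a ^ 2 - 12 * N * c₁) * x + (-1 + 2 * b + 4 * a - 10 * N + 8 * c₁ - 4 * c₂ + 24 * b * a - a ^ 2 + 24 * N * c₁ - 12 * N * c₂ - 2 * c₁ ^ 2 - 12 * a ^ 3 - 6 * N * c₁ ^ 2) * x ^ 2 +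
      x ^ 3 * (6 - 5 * x + 22 * a + 2 * N - 4 * c₁ + 8 * c₂ - 6 * x * b - 6 * x * a - 4 * x * c₂ - 3 * x ^ 2 - 2 * b * a - 22 * a ^ 2 - 12 * N * c₁ + 24 * N * c₂ - 4 * c₁ * c₂ + 4 * c₁ ^ 2 - 20 * x * b * a - x * b ^ 2 + 47 * x * a ^ 2 - 12 * x * N * c₂ + 8 * x * c₁ * c₂ - 2 * x * c₁ ^ 2 - 2 * x * c₂ ^ 2 + 6 * x ^ 2 * b + 2 * x ^ 2 * a + 4 * x ^ 3 - 24 * b * a ^ 2 + 24 * a ^ 3 - 12 * N * c₁ * c₂ + 12 * N * c₁ ^ 2 + 48 * x * b * a ^ 2 - 12 * x * b ^ 2 * a - 36 * x * a ^ 3 + 24 * x * N * c₁ * c₂ - 6 * x * N * c₁ ^ 2 - 6 * x * N * c₂ ^ 2 + 46 * x ^ 2 * b * a + 2 * x ^ 2 * b ^ 2 - 27 * x ^ 2 * a ^ 2 - 4 * x ^ 2 * c₁ * c₂ + 4 * x ^ 2 * c₂ ^ 2 + 2 * x ^ 3 * b - 10 * x ^ 3 * a - x ^ 4 - 72 * x ^ 2 * b * a ^ 2 + 24 * x ^ 2 * b ^ 2 * a + 24 * x ^ 2 * a ^ 3 - 12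 * x ^ 2 * N * c₁ * c₂ + 12 * x ^ 2 * N * c₂ ^ 2 - 30 * x ^ 3 * b * a - x ^ 3 * b ^ 2 + 7 * x ^ 3 * a ^ 2 - 2 * x ^ 3 * c₂ ^ 2 - 10 * x ^ 4 * b + 8 * x ^ 4 * a + 48 * x ^ 3 * b * a ^ 2 - 36 * x ^ 3 * b ^ 2 * a - 12 * x ^ 3 * a ^ 3 - 6 * x ^ 3 * N * c₂ ^ 2 + 14 * x ^ 4 * b * a - 3 * x ^ 4 * b ^ 2 - 7 * x ^ 4 * a ^ 2 + 8 * x ^ 5 * b - 2 * x ^ 5 * a - 24 * x ^ 4 * b * a ^ 2 + 24 * x ^ 4 * b ^ 2 * a - 14 * x ^ 5 * b * a + 7 * x ^ 5 * b ^ 2 + 4 * x ^ 5 * a ^ 2 - 2 * x ^ 6 * b - 12 * x ^ 5 * b ^ 2 * a + 8 * x ^ 6 * b * a - 7 * x ^ 6 * b ^ 2 - x ^ 6 * a ^ 2 - 2 * x ^ 7 * b * a + 4 * x ^ 7 * b ^ 2 - x ^ 8 * b ^ 2) := by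
  linear_combination (-1 - x - 4 * a - 2 * N - 4 * x * a - 2 * x * N) * hx

end ids

end JGL
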