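import Pool.Agent.JGL.V4o2

/-!
# [JGL-V4o3] digits
-/

set_option autoImplicit false

namespace JGL

section dig

variable {S : Type*} [CommRing S] [IsDomain S]

/-- Extraction of digits. -/
theorem extr {x : S} (hx : x ^ 2 - 3 * x + 3 = 0) (hx0 : x ≠ 0) (hz : ∀ n : ℤ, x ∣ (n : S) → (3 : ℤ) ∣ n) {p q : ℤ}
    (h : x ^ 3 ∣ (p : S) * x + (q : S) * x ^ 2) : (3 : ℤ) ∣ p ∧ (3 : ℤ) ∣ q := by
  have h3 := x_three hx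
  obtain ⟨g, hg⟩ := h
  have h1 : (p : S) = x * (x * g - q) := by
    apply mul_right_cancel₀ hx0
    linear_combination hg
  have h2 : (3 : ℤ) ∣ p := hz p ⟨_, h1⟩
  refine ⟨h2, ?_⟩
  obtain ⟨k, rfl⟩ := h2
  apply hz
  refine ⟨g - (2 - x) * k, ?_⟩
  push_cast at h1
  apply mul_right_cancel₀ hx0
  linear_combination h1 - k * h3

theorem dvd_cast {p : ℤ} : (3 : ℤ) ∣ p ↔ ((p : ℤ) : ZMod 3) = 0 := by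
  rw [ZMod.intCast_zmod_eq_zero_iff_dvd]
  rfl

theorem f_fin_0p : ∀ a b c₁ c₂ N c : ZMod 3,
    -4 + 22 * a + 4 * c₁ + 24 * a ^ 2 + 12 * N * c₁ = 0 → 11 - 2 * b - 40 * a + 4 * N + 4 * c₂ + 24 * b * a + a ^ 2 + 12 * N * c₂ + 2 * c₁ ^ 2 - 12 * a ^ 3 + 6 * N * c₁ ^ 2 = 0 →
    c = 1 * (-0 ^ 2 - 0 + N) - 1 + 0 →
    (b + a * (1 + 1) + 1 + c * 1 = 0 ↔ c₂ + c₁ * (0 + 1) = 0) := by
  decide

theorem f_fin_0m : ∀ a b c₁ c₂ N c : ZMod 3,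
    -2 - 22 * a - 4 * c₁ + 24 * a ^ 2 - 12 * N * c₁ = 0 → 1 + 2 * b + 4 * a - 4 * N - 4 * c₂ + 24 * b * a - a ^ 2 - 12 * N * c₂ - 2 * c₁ ^ 2 - 12 * a ^ 3 - 6 * N * c₁ ^ 2 = 0 →
    c = (-1) * (-0 ^ 2 - 0 + N) - 1 + 0 →
    (b + a * (1 + (-1)) + 1 + c * (-1) = 0 ↔ c₂ + c₁ * (0 + (-1)) = 0) := by
  decide

theorem f_fin_1p : ∀ a b c₁ c₂ N c : ZMod 3,
    -6 + 22 * a - 6 * N + 4 * c₁ + 24 * a ^ 2 + 12 * N * c₁ = 0 → 11 - 2 * b - 40 * a + 4 * N - 4 * c₁ + 4 * c₂ + 24 * b * a + a ^ 2 - 12 * N * c₁ + 12 * N * c₂ + 2 * c₁ ^ 2 - 12 * a ^ 3 + 6 * N * c₁ ^ 2 = 0 →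
    c = 1 * (-1 ^ 2 - 1 + N) - 1 + 1 →
    (b + a * (1 + 1) + 1 + c * 1 = 0 ↔ c₂ + c₁ * (1 + 1) = 0) := by
  decide

theorem f_fin_1m : ∀ a b c₁ c₂ N c : ZMod 3,
    -22 * a + 6 * N - 4 * c₁ + 24 * a ^ 2 - 12 * N * c₁ = 0 → 1 + 2 * b + 4 * a - 4 * N + 4 * c₁ - 4 * c₂ + 24 * b * a - a ^ 2 + 12 * N * c₁ - 12 * N * c₂ - 2 * c₁ ^ 2 - 12 * a ^ 3 - 6 * N * c₁ ^ 2 = 0 →
    c = (-1) * (-1 ^ 2 - 1 + N) - 1 + 1 →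
    (b + a * (1 + (-1)) + 1 + c * (-1) = 0 ↔ c₂ + c₁ * (1 + (-1)) = 0) := by
  decide

theorem f_fin_2p : ∀ a b c₁ c₂ N c : ZMod 3,
    -8 + 22 * a - 12 * N + 4 * c₁ + 24 * a ^ 2 + 12 * N * c₁ = 0 → 13 - 2 * b - 40 * a + 10 * N - 8 * c₁ + 4 * c₂ + 24 * b * a + a ^ 2 - 24 * N * c₁ + 12 * N * c₂ + 2 * c₁ ^ 2 - 12 * a ^ 3 + 6 * N * c₁ ^ 2 = 0 →
    c = 1 * (-2 ^ 2 - 2 + N) - 1 + 2 →
    (b + a * (1 + 1) + 1 + c * 1 = 0 ↔ c₂ + c₁ * (2 + 1) = 0) := by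
  decide

theorem f_fin_2m : ∀ a b c₁ c₂ N c : ZMod 3,
    2 - 22 * a + 12 * N - 4 * c₁ + 24 * a ^ 2 - 12 * N * c₁ = 0 → -1 + 2 * b + 4 * a - 10 * N + 8 * c₁ - 4 * c₂ + 24 * b * a - a ^ 2 + 24 * N * c₁ - 12 * N * c₂ - 2 * c₁ ^ 2 - 12 * a ^ 3 - 6 * N * c₁ ^ 2 = 0 →
    c = (-1) * (-2 ^ 2 - 2 + N) - 1 + 2 →
    (b + a * (1 + (-1)) + 1 + c * (-1) = 0 ↔ c₂ + c₁ * (2 + (-1)) = 0) := by
  decide

/-- All cases together: the digits. -/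
theorem f_fin {x : S} (hx : x ^ 2 - 3 * x + 3 = 0) (hx0 : x ≠ 0) (hz : ∀ n : ℤ, x ∣ (n : S) → (3 : ℤ) ∣ n) {e : ℤ}
    (he : e = 1 ∨ e = -1) {i : ℕ} (hi : i < 3) {a b c₁ c₂ N c : ℤ}
    (h : x ^ 3 ∣ 2 * (e : S) * (1 - x) ^ i * (1 + 3 * (N : S)) * (1 + (c₁ : S) * x + c₂ * x ^ 2) ^ 2 -
      (12 * (a : S) + (1 - x) ^ 2 * x - (1 - x) * e) *
        (-1 + (1 - x) * x * e + x * (a + b * x) * (1 + (1 - x) * x * e)) ^ 2)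
    (hc : (3 : ℤ) ∣ c - (e * (-(i : ℤ) ^ 2 - i + N) - 1 + i)) :
    (3 : ℤ) ∣ b + a * (1 + e) + 1 + c * e ↔ (3 : ℤ) ∣ c₂ + c₁ * (i + e) := by
  have hc' : (c : ZMod 3) = e * (-(i : ZMod 3) ^ 2 - i + N) - 1 + i := by
    have := dvd_cast.1 hc
    push_cast at this
    linear_combination this
  rw [dvd_cast, dvd_cast]
  push_cast
  interval_cases i <;> rcases he with rfl | rfl
  · push_cast at h hc' ⊢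
    rw [f_id_0p hx] at h
    obtain ⟨h1, h2⟩ := extr hx hx0 hz (p := -4 + 22 * a + 4 * c₁ + 24 * a ^ 2 + 12 * N * c₁) (q := 11 - 2 * b - 40 * a + 4 * N + 4 * c₂ + 24 * b * a + a ^ 2 + 12 * N * c₂ + 2 * c₁ ^ 2 - 12 * a ^ 3 + 6 * N * c₁ ^ 2)
      (by push_cast; exact (dvd_add_left (Dvd.intro _ rfl)).1 h)
    rw [dvd_cast] at h1 h2
    push_cast at h1 h2
    exact f_fin_0p _ _ _ _ _ _ h1 h2 hc'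
  · push_cast at h hc' ⊢
    rw [f_id_0m hx] at h
    obtain ⟨h1, h2⟩ := extr hx hx0 hz (p := -2 - 22 * a - 4 * c₁ + 24 * a ^ 2 - 12 * N * c₁) (q := 1 + 2 * b + 4 * a - 4 * N - 4 * c₂ + 24 * b * a - a ^ 2 - 12 * N * c₂ - 2 * c₁ ^ 2 - 12 * a ^ 3 - 6 * N * c₁ ^ 2)
      (by push_cast; exact (dvd_add_left (Dvd.intro _ rfl)).1 h)
    rw [dvd_cast] at h1 h2
    push_cast at h1 h2
    exact f_fin_0m _ _ _ _ _ _ h1 h2 hc'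
  · push_cast at h hc' ⊢
    rw [f_id_1p hx] at h
    obtain ⟨h1, h2⟩ := extr hx hx0 hz (p := -6 + 22 * a - 6 * N + 4 * c₁ + 24 * a ^ 2 + 12 * N * c₁) (q := 11 - 2 * b - 40 * a + 4 * N - 4 * c₁ + 4 * c₂ + 24 * b * a + a ^ 2 - 12 * N * c₁ + 12 * N * c₂ + 2 * c₁ ^ 2 - 12 * a ^ 3 + 6 * N * c₁ ^ 2)
      (by push_cast; exact (dvd_add_left (Dvd.intro _ rfl)).1 h)
    rw [dvd_cast] at h1 h2
    push_cast at h1 h2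
    exact f_fin_1p _ _ _ _ _ _ h1 h2 hc'
  · push_cast at h hc' ⊢
    rw [f_id_1m hx] at h
    obtain ⟨h1, h2⟩ := extr hx hx0 hz (p := -22 * a + 6 * N - 4 * c₁ + 24 * a ^ 2 - 12 * N * c₁) (q := 1 + 2 * b + 4 * a - 4 * N + 4 * c₁ - 4 * c₂ + 24 * b * a - a ^ 2 + 12 * N * c₁ - 12 * N * c₂ - 2 * c₁ ^ 2 - 12 * a ^ 3 - 6 * N * c₁ ^ 2)
      (by push_cast; exact (dvd_add_left (Dvd.intro _ rfl)).1 h)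
    rw [dvd_cast] at h1 h2
    push_cast at h1 h2
    exact f_fin_1m _ _ _ _ _ _ h1 h2 hc'
  · push_cast at h hc' ⊢
    rw [f_id_2p hx] at h
    obtain ⟨h1, h2⟩ := extr hx hx0 hz (p := -8 + 22 * a - 12 * N + 4 * c₁ + 24 * a ^ 2 + 12 * N * c₁) (q := 13 - 2 * b - 40 * a + 10 * N - 8 * c₁ + 4 * c₂ + 24 * b * a + a ^ 2 - 24 * N * c₁ + 12 * N * c₂ + 2 * c₁ ^ 2 - 12 * a ^ 3 + 6 * N * c₁ ^ 2)
      (by push_cast; exact (dvd_add_left (Dvd.intro _ rfl)).1 h)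
    rw [dvd_cast] at h1 h2
    push_cast at h1 h2
    exact f_fin_2p _ _ _ _ _ _ h1 h2 hc'
  · push_cast at h hc' ⊢
    rw [f_id_2m hx] at h
    obtain ⟨h1, h2⟩ := extr hx hx0 hz (p := 2 - 22 * a + 12 * N - 4 * c₁ + 24 * a ^ 2 - 12 * N * c₁) (q := -1 + 2 * b + 4 * a - 10 * N + 8 * c₁ - 4 * c₂ + 24 * b * a - a ^ 2 + 24 * N * c₁ - 12 * N * c₂ - 2 * c₁ ^ 2 - 12 * a ^ 3 - 6 * N * c₁ ^ 2)
      (by push_cast; exact (dvd_add_left (Dvd.intro _ rfl)).1 h)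
    rw [dvd_cast] at h1 h2
    push_cast at h1 h2
    exact f_fin_2m _ _ _ _ _ _ h1 h2 hc'

end dig

end JGL
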