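import Pool.Agent.JGL.V4o3

/-!
# [JGL-V4o4] the two cases
-/

set_option autoImplicit false

namespace JGL

section cases

variable {S : Type*} [CommRing S] [IsDomain S]

/-- `m` a unit: the congruence for the digits of `u`. -/
theorem case1_u {x : S} (hx : x ^ 2 - 3 * x + 3 = 0) (hx0 : x ≠ 0) {e : ℤ} (he : e = 1 ∨ e = -1) (i : ℕ)
    {a b c₁ c₂ N b₀ : ℤ} (hb₀ : b₀ = 1 ∨ b₀ = -1) {m s u ρ p u₃ n g : S}
    (hs : s = -(e : S) * (1 - x) ^ i * (1 + 3 * (N + x * n)))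
    (h1 : 12 * (x * ρ) = 3 + (1 - x) * x * e - 8 * (x * m ^ 2 * s))
    (h2 : 10 * u = 20 * m + 20 * x * m ^ 3 * s + 16 * x ^ 2 * m ^ 5 * s ^ 2 + 10 * x * m * ρ +
      20 * x ^ 2 * m ^ 3 * s * ρ + x ^ 3 * g)
    (hρ : ρ = a + b * x + x ^ 2 * p) (hu : u = b₀ * (1 + c₁ * x + c₂ * x ^ 2 + x ^ 3 * u₃)) :
    x ^ 3 ∣ 2 * (e : S) * (1 - x) ^ i * (1 + 3 * (N : S)) * (1 + (c₁ : S) * x + c₂ * x ^ 2) ^ 2 -
      (12 * (a : S) + (1 - x) ^ 2 * x - (1 - x) * e) *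
        (-1 + (1 - x) * x * e + x * (a + b * x) * (1 + (1 - x) * x * e)) ^ 2 := by
  have h3 := x_three hx
  have he2 : (e : S) ^ 2 = 1 := by rcases he with rfl | rfl <;> push_cast <;> ring
  have hb2 : (b₀ : S) ^ 2 = 1 := by rcases hb₀ with rfl | rfl <;> push_cast <;> ring
  obtain ⟨O, hO⟩ : ∃ O, O = (1 - x) ^ i := ⟨_, rfl⟩
  obtain ⟨Ds, hDs⟩ : ∃ Ds, Ds = 1 + 3 * ((N : S) + x * n) := ⟨_, rfl⟩
  rw [← hO, ← hDs] at hs
  rw [← hO]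
  obtain ⟨U, hU⟩ : ∃ U, U = 1 + (c₁ : S) * x + c₂ * x ^ 2 + x ^ 3 * u₃ := ⟨_, rfl⟩
  obtain ⟨U', hU'⟩ : ∃ U', U' = 1 + (c₁ : S) * x + c₂ * x ^ 2 := ⟨_, rfl⟩
  rw [← hU] at hu
  rw [← hU']
  -- `ν = 8 x m² s`
  obtain ⟨ν, hν⟩ : ∃ ν, ν = 3 + (1 - x) * x * e - 12 * (x * ρ) := ⟨_, rfl⟩
  have hν' : 8 * (x * m ^ 2 * s) = ν := by rw [hν]; linear_combination h1
  obtain ⟨B, hB⟩ : ∃ B, B = 80 + 10 * ν + ν ^ 2 + 40 * (x * ρ) + 10 * ν * (x * ρ) := ⟨_, rfl⟩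
  obtain ⟨B', hB'⟩ : ∃ B', B' = -1 + (1 - x) * x * e + x * (a + b * x) * (1 + (1 - x) * x * e) := ⟨_, rfl⟩
  obtain ⟨R', hR'⟩ : ∃ R', R' = 12 * (a : S) + (1 - x) ^ 2 * x - (1 - x) * e := ⟨_, rfl⟩
  rw [← hB', ← hR']
  have k1 : 40 * u = m * B + 4 * x ^ 3 * g := by
    rw [hB, ← hν']
    linear_combination 4 * h2
  -- `R = 8 e m² O Ds`
  have k2 : 8 * e * m ^ 2 * O * Ds = 12 * ρ + (1 - x) ^ 2 * x - (1 - x) * e := by
    apply mul_left_cancel₀ hx0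
    rw [hs] at h1
    linear_combination -h1 - (x ^ 2 + x + 1) * hx
  obtain ⟨R, hR⟩ : ∃ R, R = 12 * ρ + (1 - x) ^ 2 * x - (1 - x) * e := ⟨_, rfl⟩
  rw [← hR] at k2
  -- the congruences
  have k3 : R = R' + x ^ 3 * (4 * (2 - x) * (b + x * p)) := by
    rw [hR, hR', hρ]
    linear_combination 4 * x * (b + x * p) * h3
  obtain ⟨q, hq⟩ : ∃ q, q = (a : S) + b * x + x ^ 2 * p := ⟨_, rfl⟩
  rw [← hq] at hρ
  have k4 : B = B' + x ^ 3 * (13 * x * (2 - x) ^ 2 + 5 * (2 - x) * (1 - x) * e - 41 * (2 - x) * q -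
      5 * (2 - x) * (1 - x) * e * (x * q) + 8 * x * (2 - x) * q ^ 2 + p * (1 + (1 - x) * x * e)) := by
    have k5 : B = 116 + 16 * ((1 - x) * x * e) + x * ρ * (-122 - 14 * ((1 - x) * x * e)) + 24 * (x * ρ) ^ 2 := by
      rw [hB, hν]
      linear_combination ((1 - x) ^ 2 * x ^ 2) * he2 + (x ^ 2 + x + 1) * hx
    have k6 : B' = -1 + (1 - x) * x * e + (x * q - x ^ 3 * p) * (1 + (1 - x) * x * e) := by
      rw [hB', hq]; ring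
    rw [k5, k6, hρ]
    linear_combination (13 * (3 + x ^ 2 * (2 - x)) + 5 * (1 - x) * x * e - 41 * x * q - 5 * (1 - x) * x * e * (x * q) +
      8 * (x * q) ^ 2) * h3
  obtain ⟨K, hK⟩ : ∃ K, K = 13 * x * (2 - x) ^ 2 + 5 * (2 - x) * (1 - x) * e - 41 * (2 - x) * q -
      5 * (2 - x) * (1 - x) * e * (x * q) + 8 * x * (2 - x) * q ^ 2 + p * (1 + (1 - x) * x * e) := ⟨_, rfl⟩
  rw [← hK] at k4
  have k7 : 12800 * e * O * Ds * U ^ 2 = R * B ^ 2 + x ^ 3 * ((8 * e * O * Ds) * (8 * m * B * g + 16 * x ^ 3 * g ^ 2)) := by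
    have k8 : 1600 * U ^ 2 = (m * B + 4 * x ^ 3 * g) ^ 2 := by
      rw [← k1, hu]
      linear_combination -1600 * U ^ 2 * hb2
    linear_combination 8 * e * O * Ds * k8 + B ^ 2 * k2
  have k9 : U = U' + x ^ 3 * u₃ := by rw [hU, hU']
  refine ⟨(8 * e * O * Ds) * (8 * m * B * g + 16 * x ^ 3 * g ^ 2) - 1422 * x * (2 - x) ^ 2 * e * O * Ds * U ^ 2 -
    2 * e * O * (2 - x) * n * U ^ 2 - 2 * e * O * (1 + 3 * N) * u₃ * (U + U') +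
    4 * (2 - x) * (b + x * p) * B ^ 2 + R' * K * (B + B'), ?_⟩
  linear_combination k7 - 1422 * (3 + x ^ 2 * (2 - x)) * (e * O * Ds * U ^ 2) * h3 - 2 * e * O * U ^ 2 * hDs -
    2 * e * O * U ^ 2 * x * n * h3 - 2 * e * O * (1 + 3 * N) * (U + U') * k9 + B ^ 2 * k3 + R' * (B + B') * k4

omit [IsDomain S] in
theorem Rg.hx (D : Rg S) : (D.l ^ 2) ^ 2 - 3 * D.l ^ 2 + 3 = 0 := by
  have h1 := D.ho
  have h2 : D.o = 1 - D.l ^ 2 := by linear_combination D.hl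
  rw [h2] at h1
  linear_combination h1

omit [IsDomain S] in
theorem Rg.o_eq (D : Rg S) : D.o = 1 - D.l ^ 2 := by linear_combination D.hl

omit [IsDomain S] in
theorem Rg.th_eq (D : Rg S) : D.th = (1 - D.l ^ 2) * D.l ^ 2 := by
  unfold Rg.th
  rw [← D.o_eq]

theorem case1 (D : Rg S) (hl0 : D.l ≠ 0) (hz : ∀ n : ℤ, D.l ∣ (n : S) → (3 : ℤ) ∣ n) {e : ℤ} (he : e = 1 ∨ e = -1)
    {i : ℕ} (hi : i < 3) {a b c₁ c₂ N c b₀ : ℤ} (ha : a = 0 ∨ a = 1 ∨ a = -1) (hb₀ : b₀ = 1 ∨ b₀ = -1)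
    {Sg M X g1 g2 r r' m m' u ρ p u₃ n : S} (hM : M = m * r)
    (hr : r ^ 2 = -(e : S) * D.o ^ i * (1 + 3 * (N + D.l ^ 2 * n))) (hX : 2 * X = M * ρ)
    (h24 : 24 * (D.l ^ 3 * X) = (D.l * M) * (3 + D.th * e - 8 * (D.l * M) ^ 2))
    (h1 : 72 * (D.th ^ 2 * Sg) = 8 * (D.l * M) ^ 9 + 24 * (D.l ^ 3 * X) ^ 3 + 18 * (5 + D.th * e) * (D.l * M) +
      72 * (D.th ^ 2 * D.l ^ 2 * c) * (D.l * M) + D.l ^ 17 * g1)
    (h2 : 5 * (2 * (u * (D.l * r))) = 2 * (10 * (D.l * M) + 10 * (D.l * M) ^ 3 + 8 * (D.l * M) ^ 5 +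
      10 * (D.l ^ 3 * X) + 20 * (D.l * M) ^ 2 * (D.l ^ 3 * X)) + D.l ^ 7 * g2)
    (hr' : r * r' = 1) (hm' : m * m' = 1) (hρ : ρ = a + b * D.l ^ 2 + D.l ^ 4 * p)
    (hu : u = b₀ * (1 + c₁ * D.l ^ 2 + c₂ * D.l ^ 4 + D.l ^ 6 * u₃))
    (hc : (3 : ℤ) ∣ c - (e * (-(i : ℤ) ^ 2 - i + N) - 1 + i)) :
    (∃ g : S, 4096 * Sg = D.l ^ 3 * (64 * D.o ^ 2 * e * M * ((b + a * (1 + e) + 1 + c * e : ℤ) : S) + D.l ^ 2 * g)) ∧
      ((3 : ℤ) ∣ b + a * (1 + e) + 1 + c * e ↔ (3 : ℤ) ∣ c₂ + c₁ * (i + e)) := by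
  have hx := D.hx
  have hx0 : D.l ^ 2 ≠ 0 := pow_ne_zero 2 hl0
  have hzx : ∀ n : ℤ, D.l ^ 2 ∣ (n : S) → (3 : ℤ) ∣ n := fun n h => hz n (dvd_trans (Dvd.intro_left D.l (by ring)) h)
  have hM0 : M ≠ 0 := by
    intro h
    have : (1 : S) = 0 := by
      calc (1 : S) = (m * m') * (r * r') := by rw [hm', hr', one_mul]
        _ = (m * r) * (m' * r') := by ring
        _ = 0 := by rw [← hM, h, zero_mul]
    exact one_ne_zero this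
  have hr0 : r ≠ 0 := by rintro rfl; rw [zero_mul] at hr'; exact zero_ne_one hr'
  -- (E1)
  have E1 : 12 * (D.l ^ 2 * ρ) = 3 + D.th * e - 8 * (D.l * M) ^ 2 := by
    apply mul_left_cancel₀ (mul_ne_zero hl0 hM0)
    linear_combination h24 - 12 * D.l ^ 3 * hX
  constructor
  · obtain ⟨G, hG⟩ := w_id hx (b : S) p (c : S) he ha
    have hG' : (8 * (D.l * M) ^ 2) ^ 4 + 192 * (8 * (D.l * M) ^ 2) * (D.l ^ 2 * ρ) ^ 3 + 9216 * (5 + D.th * e) +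
        36864 * D.th ^ 2 * D.l ^ 2 * c =
        576 * D.th * e * (D.l ^ 2) ^ 2 * (b + a * (1 + e) + 1 + c * e) + (D.l ^ 2) ^ 8 * G := by
      have e1 : 8 * (D.l * M) ^ 2 = 3 + D.th * e - 12 * (D.l ^ 2 * ρ) := by linear_combination E1
      rw [e1, hρ, D.th_eq]
      linear_combination hG
    have k1 : D.l ^ 12 * (4096 * Sg) = 512 * (72 * (D.th ^ 2 * Sg)) := by
      linear_combination 4096 * Sg * D.t27 - 36864 * Sg * D.th_sq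
    have k2 : 512 * (24 * (D.l ^ 3 * X) ^ 3) = (D.l * M) * (192 * (8 * (D.l * M) ^ 2) * (D.l ^ 2 * ρ) ^ 3) := by
      have : 8 * X ^ 3 = (M * ρ) ^ 3 := by rw [← hX]; ring
      linear_combination 1536 * D.l ^ 9 * this
    have k3 : (D.l * M) * (576 * D.th * e * (D.l ^ 2) ^ 2 * (b + a * (1 + e) + 1 + c * e)) =
        D.l ^ 12 * (D.l ^ 3 * (64 * D.o ^ 2 * e * M * (b + a * (1 + e) + 1 + c * e))) := by
      unfold Rg.th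
      linear_combination 64 * (D.l * M) * (D.o * D.l ^ 2) * e * D.l ^ 4 * (b + a * (1 + e) + 1 + c * e) * D.nine
    refine ⟨M * G + 512 * g1, ?_⟩
    apply mul_left_cancel₀ (pow_ne_zero 12 hl0)
    push_cast
    rw [k1, h1]
    linear_combination k2 + (D.l * M) * hG' + k3
  · have hf := case1_u (S := S) hx hx0 he i (a := a) (b := b) (c₁ := c₁) (c₂ := c₂) (N := N) (b₀ := b₀) hb₀
      (m := m) (s := r ^ 2) (u := u) (ρ := ρ) (p := p) (u₃ := u₃) (n := n) (g := g2 * r') (by rw [hr, D.o_eq])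
      (by rw [hM, D.th_eq] at E1; linear_combination E1) ?_ (by rw [hρ]; ring) (by rw [hu]; ring)
    · exact f_fin hx hx0 hzx he hi hf hc
    · apply mul_left_cancel₀ (mul_ne_zero hl0 hr0)
      have e2 : 2 * (D.l ^ 3 * X) = D.l ^ 3 * (m * r * ρ) := by rw [← hM, ← hX]; ring
      rw [hM] at h2
      linear_combination h2 + (10 + 20 * (D.l * (m * r)) ^ 2) * e2 - D.l ^ 7 * g2 * hr'

end cases

end JGL
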