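import Pool.Agent.JGL.V4o4

/-!
# [JGL-V4o5] the second case
-/

set_option autoImplicit false

namespace JGL

section cases

variable {S : Type*} [CommRing S]

theorem cg_mul {z a a' b b' g h : S} (h1 : a = a' + z * g) (h2 : b = b' + z * h) :
    ∃ k : S, a * b = a' * b' + z * k := by
  refine ⟨g * b' + a' * h + z * g * h, ?_⟩
  rw [h1, h2]; ring

theorem q_id {x : S} (hx : x ^ 2 - 3 * x + 3 = 0) {e : ℤ} (he : e = 1 ∨ e = -1) {i : ℕ} (hi : i < 3) {d₀ d₁ : ℤ}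
    (hd : d₀ = 0 ∨ d₀ = 1 ∨ d₀ = -1) (m₃ q n : S) : ∃ G : S,
    8 * (2 - x) * e * ((1 - x) ^ i * ((1 + 3 * n) * ((d₀ + d₁ * x + x ^ 2 * m₃) ^ 3 *
      ((1 - x) * e + x * (2 - x) - 8 * x ^ 4 * q) ^ 3))) +
      1024 * (2 - x) ^ 2 * (5 + (1 - x) * x * e) * (d₀ + d₁ * x + x ^ 2 * m₃) =
    -((d₁ + (1 + i - e) * d₀ : ℤ) : S) * x + x ^ 2 * G := by
  have h3 := x_three hx
  have he2 : (e : S) ^ 2 = 1 := by rcases he with rfl | rfl <;> push_cast <;> ring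
  have hd3 : (d₀ : S) ^ 3 = d₀ := by rcases hd with rfl | rfl | rfl <;> push_cast <;> ring
  have a1 : ∃ k : S, (1 - x) ^ i = (1 - i * x) + x ^ 2 * k := by
    interval_cases i
    · exact ⟨0, by push_cast; ring⟩
    · exact ⟨0, by push_cast; ring⟩
    · exact ⟨1, by push_cast; ring⟩
  have a2 : ∃ k : S, 1 + 3 * n = 1 + x ^ 2 * k := ⟨(2 - x) * n, by linear_combination n * h3⟩
  have a3 : ∃ k : S, (d₀ + d₁ * x + x ^ 2 * m₃) ^ 3 = d₀ + x ^ 2 * k := by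
    refine ⟨(2 - x) * d₀ ^ 2 * (x * (d₁ + x * m₃)) + 3 * d₀ * (d₁ + x * m₃) ^ 2 + x * (d₁ + x * m₃) ^ 3, ?_⟩
    linear_combination hd3 + d₀ ^ 2 * (x * (d₁ + x * m₃)) * h3
  have a4 : ∃ k : S, ((1 - x) * e + x * (2 - x) - 8 * x ^ 4 * q) ^ 3 = e + x ^ 2 * k := by
    refine ⟨(2 - x) * e ^ 2 * (x * (-e + 2 - x - 8 * x ^ 3 * q)) + 3 * e * (-e + 2 - x - 8 * x ^ 3 * q) ^ 2 +
      x * (-e + 2 - x - 8 * x ^ 3 * q) ^ 3, ?_⟩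
    linear_combination e * he2 + e ^ 2 * (x * (-e + 2 - x - 8 * x ^ 3 * q)) * h3
  obtain ⟨k1, hk1⟩ := a1
  obtain ⟨k2, hk2⟩ := a2
  obtain ⟨k3, hk3⟩ := a3
  obtain ⟨k4, hk4⟩ := a4
  obtain ⟨k5, hk5⟩ := cg_mul hk3 hk4
  obtain ⟨k6, hk6⟩ := cg_mul hk2 hk5
  obtain ⟨k7, hk7⟩ := cg_mul hk1 hk6
  rw [hk7]
  push_cast
  refine ⟨8 * (2 - x) * e * k7 + 1024 * (2 - x) ^ 2 * (5 + (1 - x) * x * e) * m₃ + 6832 * (2 - x) * d₀ +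
    (6827 * d₁ + d₀ * (-6829 - 5 * i + 1365 * e)) * x * (2 - x) + 8 * i * d₀ + 1024 * (d₀ * (5 - 4 * e - 4 * e) +
      d₁ * (-20 + 4 * e)) + x * (1024 * (d₀ * (e + 4 * e) + d₁ * (5 - 8 * e))) + x ^ 2 * (1024 * (-(e * d₀) + 5 * e * d₁)) -
      x ^ 3 * (1024 * (e * d₁)), ?_⟩
  linear_combination 8 * (2 - x) * (1 - i * x) * d₀ * he2 + (6832 * d₀ + (6827 * d₁ + d₀ * (-6829 - 5 * i + 1365 * e)) * x) * h3

theorem q_fin : ∀ (e d₀ d₁ e₁ e₂ i : ZMod 3), (e = 1 ∨ e = -1) → 80 * e₁ - 10 * e * d₀ = 0 →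
    80 * e₂ - 40 * e₁ - 160 * d₀ - 10 * (e * d₁ + (2 - e) * d₀) = 0 →
    (d₁ + (1 + i - e) * d₀ = 0 ↔ e₂ + e₁ * (i - e) = 0) := by
  decide

theorem case2 [IsDomain S] (D : Rg S) (hl0 : D.l ≠ 0) (hz : ∀ n : ℤ, D.l ∣ (n : S) → (3 : ℤ) ∣ n) {e : ℤ} (he : e = 1 ∨ e = -1)
    {i : ℕ} (hi : i < 3) {d₀ d₁ e₀ e₁ e₂ N : ℤ} (hd : d₀ = 0 ∨ d₀ = 1 ∨ d₀ = -1) (he₀ : e₀ = 0 ∨ e₀ = 1 ∨ e₀ = -1)
    {Sg M X g1 g2 r r' m u m₃ u₃ n c : S} (hM : M = D.l ^ 4 * (m * r))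
    (hr : r ^ 2 = -(e : S) * D.o ^ i * (1 + 3 * (N + D.l ^ 2 * n)))
    (h24 : 24 * (D.l ^ 3 * X) = (D.l * M) * (3 + D.th * e - 8 * (D.l * M) ^ 2))
    (h1 : 72 * (D.th ^ 2 * Sg) = 8 * (D.l * M) ^ 9 + 24 * (D.l ^ 3 * X) ^ 3 + 18 * (5 + D.th * e) * (D.l * M) +
      72 * (D.th ^ 2 * D.l ^ 2 * c) * (D.l * M) + D.l ^ 17 * g1)
    (h2 : 5 * (2 * (u * (D.l * r))) = 2 * (10 * (D.l * M) + 10 * (D.l * M) ^ 3 + 8 * (D.l * M) ^ 5 +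
      10 * (D.l ^ 3 * X) + 20 * (D.l * M) ^ 2 * (D.l ^ 3 * X)) + D.l ^ 7 * g2)
    (hr' : r * r' = 1) (hm : m = d₀ + d₁ * D.l ^ 2 + D.l ^ 4 * m₃)
    (hu : u = e₀ + e₁ * D.l ^ 2 + e₂ * D.l ^ 4 + D.l ^ 6 * u₃) :
    (∃ g : S, 4096 * Sg = D.l ^ 3 * (-(r * ((d₁ + (1 + i - e) * d₀ : ℤ) : S)) + D.l ^ 2 * g)) ∧ e₀ = 0 ∧
      ((3 : ℤ) ∣ d₁ + (1 + i - e) * d₀ ↔ (3 : ℤ) ∣ e₂ + e₁ * (i - e)) := by
  have hx := D.hx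
  have h3 := x_three hx
  have hx0 : D.l ^ 2 ≠ 0 := pow_ne_zero 2 hl0
  have hzx : ∀ n : ℤ, D.l ^ 2 ∣ (n : S) → (3 : ℤ) ∣ n := fun n h => hz n (dvd_trans (Dvd.intro_left D.l (by ring)) h)
  have hr0 : r ≠ 0 := by rintro rfl; rw [zero_mul] at hr'; exact zero_ne_one hr'
  have ho := D.o_eq
  have hth := D.th_eq
  obtain ⟨j, hj⟩ : ∃ j, j = (1 - D.l ^ 2) * (e : S) + D.l ^ 2 * (2 - D.l ^ 2) - 8 * (D.l ^ 2) ^ 4 * (m * r) ^ 2 := ⟨_, rfl⟩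
  have J1 : 8 * (2 - D.l ^ 2) * X = m * r * j := by
    apply mul_left_cancel₀ (pow_ne_zero 7 hl0)
    rw [hM, hth] at h24
    rw [hj]
    linear_combination h24 - 8 * D.l ^ 3 * X * h3 + (D.l ^ 5 * (m * r)) * h3
  constructor
  · obtain ⟨G, hG⟩ := q_id hx he hi (d₁ := d₁) hd m₃ ((m * r) ^ 2) ((N : S) + D.l ^ 2 * n)
    have hm' : m = (d₀ : S) + d₁ * D.l ^ 2 + (D.l ^ 2) ^ 2 * m₃ := by rw [hm]; ring
    have k1 : D.l ^ 12 * (4096 * Sg) = 512 * (72 * (D.th ^ 2 * Sg)) := by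
      linear_combination 4096 * Sg * D.t27 - 36864 * Sg * D.th_sq
    have k0 : (2 - D.l ^ 2) ^ 3 = -1 := by
      linear_combination -(D.l ^ 2 - 3) * hx
    have k2 : 512 * (24 * (D.l ^ 3 * X) ^ 3) = -(24 * D.l ^ 9 * (m * r * j) ^ 3) := by
      rw [← J1]
      linear_combination -(24 * D.l ^ 9 * 512 * X ^ 3) * k0 * (-1)
    have k3 : -(24 * D.l ^ 9 * (m * r * j) ^ 3) = D.l ^ 13 * r * (8 * (2 - D.l ^ 2) * e * (D.o ^ i * ((1 + 3 * ((N : S) + D.l ^ 2 * n)) *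
        (m ^ 3 * j ^ 3)))) := by
      linear_combination -(8 * D.l ^ 9 * (m * r * j) ^ 3) * h3 - (8 * D.l ^ 13 * (2 - D.l ^ 2) * m ^ 3 * j ^ 3 * r) * hr
    have k4 : 9216 * (5 + D.th * e) * (D.l * M) = D.l ^ 13 * r * (1024 * (2 - D.l ^ 2) ^ 2 * (5 + D.th * e) * m) := by
      rw [hM]
      linear_combination 1024 * (5 + D.th * e) * (D.l ^ 5 * (m * r)) * (3 + (D.l ^ 2) ^ 2 * (2 - D.l ^ 2)) * h3
    have k5 : 36864 * (D.th ^ 2 * D.l ^ 2 * c) * (D.l * M) = D.l ^ 17 * (4096 * D.o ^ 3 * D.l ^ 2 * c * (m * r)) := by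
      rw [hM]
      unfold Rg.th
      linear_combination 4096 * ((D.o * D.l ^ 2) ^ 2 * D.l ^ 2 * c) * (D.l * (D.l ^ 4 * (m * r))) * D.nine
    have k6 : 4096 * (D.l * M) ^ 9 = D.l ^ 17 * (4096 * D.l ^ 28 * (m * r) ^ 9) := by
      rw [hM]; ring
    rw [← hm', ← hj, ← hth, ← ho] at hG
    refine ⟨r * G + 512 * g1 + 4096 * D.l ^ 28 * (m * r) ^ 9 + 4096 * D.o ^ 3 * D.l ^ 2 * c * (m * r), ?_⟩
    apply mul_left_cancel₀ (pow_ne_zero 12 hl0)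
    rw [k1, h1]
    linear_combination k2 + k3 + k4 + k5 + k6 + D.l ^ 13 * r * hG
  · have hG2 : 40 * (2 - D.l ^ 2) * u = 80 * (2 - D.l ^ 2) * (D.l ^ 2) ^ 2 * m + 10 * D.l ^ 2 * m * j +
        (D.l ^ 2) ^ 3 * (80 * (2 - D.l ^ 2) * (m * r) ^ 2 * D.l ^ 8 * m + 64 * (2 - D.l ^ 2) * D.l ^ 18 * (m * r) ^ 4 * m +
          20 * D.l ^ 6 * (m * r) ^ 2 * m * j + 4 * (2 - D.l ^ 2) * g2 * r') := by
      apply mul_left_cancel₀ (mul_ne_zero hl0 hr0)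
      rw [hM] at h2
      linear_combination 4 * (2 - D.l ^ 2) * h2 + (10 * D.l ^ 3 + 20 * D.l ^ 3 * (D.l * (D.l ^ 4 * (m * r))) ^ 2) * J1 -
        4 * (2 - D.l ^ 2) * D.l ^ 7 * g2 * hr'
    obtain ⟨Gu, hGu⟩ : ∃ Gu, Gu = 80 * (2 - D.l ^ 2) * (m * r) ^ 2 * D.l ^ 8 * m + 64 * (2 - D.l ^ 2) * D.l ^ 18 * (m * r) ^ 4 * m +
          20 * D.l ^ 6 * (m * r) ^ 2 * m * j + 4 * (2 - D.l ^ 2) * g2 * r' := ⟨_, rfl⟩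
    rw [← hGu] at hG2
    obtain ⟨x, hxx⟩ : ∃ x, x = D.l ^ 2 := ⟨_, rfl⟩
    obtain ⟨q, hq⟩ : ∃ q, q = (m * r) ^ 2 := ⟨_, rfl⟩
    have hu' : u = e₀ + e₁ * x + e₂ * x ^ 2 + x ^ 3 * u₃ := by rw [hu, hxx]; ring
    have hm' : m = d₀ + d₁ * x + x ^ 2 * m₃ := by rw [hm, hxx]; ring
    rw [← hq] at hj
    rw [← hxx] at hj hG2 hx hx0 hzx
    have hz0 : (3 : ℤ) ∣ 80 * e₀ := by
      apply hzx
      refine ⟨40 * e₀ - 40 * (2 - x) * (e₁ + e₂ * x + x ^ 2 * u₃) + 80 * (2 - x) * x * m + 10 * m * j + x ^ 2 * Gu, ?_⟩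
      push_cast
      rw [hu'] at hG2
      linear_combination hG2
    have he00 : e₀ = 0 := by omega
    refine ⟨he00, ?_⟩
    have hK : m * j = d₀ * e + x * (d₁ * e + (2 - e) * d₀) + x ^ 2 * (m₃ * j + d₁ * (2 - e) -
        (d₀ + d₁ * x) * (1 + 8 * x ^ 2 * q)) := by
      have : m * j = (d₀ + d₁ * x) * j + x ^ 2 * m₃ * j := by rw [hm']; ring
      rw [this, hj]
      ring
    have hdv : x ^ 3 ∣ ((80 * e₁ - 10 * e * d₀ : ℤ) : S) * x +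
        ((80 * e₂ - 40 * e₁ - 160 * d₀ - 10 * (e * d₁ + (2 - e) * d₀) : ℤ) : S) * x ^ 2 := by
      refine ⟨Gu + 40 * e₂ - 40 * (2 - x) * u₃ + 80 * (2 * (d₁ + x * m₃) - m) + 10 * (m₃ * j + d₁ * (2 - e) -
        (d₀ + d₁ * x) * (1 + 8 * x ^ 2 * q)), ?_⟩
      push_cast
      rw [hu', he00] at hG2
      push_cast at hG2
      linear_combination hG2 + 10 * x * hK + 160 * x ^ 2 * hm'
    obtain ⟨f1, f2⟩ := extr hx hx0 hzx hdv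
    rw [dvd_cast] at f1 f2 ⊢
    rw [dvd_cast]
    push_cast at f1 f2 ⊢
    refine q_fin e d₀ d₁ e₁ e₂ i ?_ f1 f2
    rcases he with rfl | rfl
    · left; norm_num
    · right; norm_num

end cases

end JGL
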