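import Pool.Agent.JGL.V4
import Pool.Agent.JGL.Ln
import Pool.Agent.JGL.V23o5

/-!
# [JGL-V4oA] `ep = 1`, `n = 4`, `v = 5`

PROOF (notation of `V4oS.lean`, `a = 1`, `ρ = zw (2 - k)`). `P1(u) = p0 + p1 u + p2 u²`, `P2(u) = p0 u² + p1 u + p2` with `p = (-ρ w, 0, 1)` (`i = 2`),
`(0, 1, -ρ)` (`i = 0`), `(w, -w ρ, 0)` (`i = 1`). So `A = p0 + p1 + p2 ≡ 0`, `B = 2 (p2 - p0) ≡ 1 mod λ`, `C = p0 - p1 + p2`;
`[U^(2-e1) P1(u)/u₂ - U^e2 P2(u)] = ((A + B t + C t²)(1-t₂) U^(2-e1) - (A - B t + C t²)(1+t₂) U^e2)/((1-t)² (1+t₂))`. Modulo `λ = ℓ²` (valuation `≤ v(λ)`):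
`A, C t² ≡ 0`, so this is `≡ 2 B t ≡ 2 t` up to factors `≡ 1 mod ℓ`, and `t ∈ ℓ`: `S4 (-1) 1 i k z ≡ K t mod λ`, `K = (-2)^k.val * 2 * w⁴` for `OT z`,
`t = τ(λ z)`. So `∑_{c ∈ R} conj χ(c) S4(pt c) ≡ K ∑ q(c) τ(λ pt c) = K q(λ) M_1 mod λ` (`conj χ(c) ≡ q(c) mod λ`; the permutation of `R`, your
`v23o_perm`). `V4_eq`: `v(V4)^6 = v(κ)^6 v(9 θ/(1-w²)²)^6 v(∑)^6`, `v(κ)³ = 1/v(λ)`, `v(9 θ/(1-w²)²) = v(λ)³`: `v(V4)^6 = v(λ)^16 v(∑)^6`. `v(M_1)² ≤ v(λ)`
with equality iff `v(u₂) = 1` (your `v23o_e`, `v23o_u`). If `v(M_1)² = v(λ)` then `v(∑) = v(M_1)`, `v(∑)^6 = v(λ)^3`: equality; otherwise `v(M_1)² < v(λ)`,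
so `v(∑)² < v(λ)`.
-/

set_option autoImplicit false

open NumberField IsDedekindDomain Filter Topology
open scoped Classical ComplexConjugate

namespace JGL

open CM27 JZ
open CU (la eE)
open CUL (Nl ez si ta DS Cont LV IsRep rp cr mn mo zw OT GalU W3 W9)
open JL (N1 KD sD Psi6)

section

variable (A : ValuationSubring ℂ) (hA : A.valuation 3 < 1)
include hA

/-- `U ≡ 1` -/
theorem v4oA_U {s : ℂ} (hs : s ^ 2 = emb la) {z : ℂ} (hz : OT z) :
    A.valuation (Um z - (1 + 2 * Tm z)) ≤ A.valuation s ^ 2 ∧ A.valuation (Um z - 1) ≤ A.valuation s ∧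
      A.valuation (Um z) = 1 := by
  have h1 := (v23o_Um A hA hs hz (q := 1) (Or.inl rfl)).1
  rw [zpow_one, Int.cast_one, mul_one] at h1
  have hs1 := v23o_s_lt A hA hs
  have ht := v23o_tau A hA hs hz
  have h2 : A.valuation (Um z - 1) ≤ A.valuation s := by
    have e : Um z - 1 = (Um z - (1 + 2 * Tm z)) + 2 * Tm z := by ring
    rw [e]
    refine v23o_add_le A (h1.trans ?_) (v23o_mul_le_right A (JL.a1_two A hA).le ht)
    rw [pow_two]
    exact mul_le_of_le_one_right' hs1.le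
  refine ⟨h1, h2, ?_⟩
  have e : Um z = 1 + (Um z - 1) := by ring
  rw [e]
  exact v23o_one_add A hA (lt_of_le_of_lt h2 hs1)

theorem v4oA_pow {b : A.ValueGroup} {u : ℂ} (hu : A.valuation (u - 1) ≤ b) (hu1 : A.valuation u ≤ 1) (n : ℕ) :
    A.valuation (u ^ n - 1) ≤ b := by
  induction n with
  | zero => rw [pow_zero, sub_self, map_zero]; exact zero_le
  | succ n ih =>
    have e : u ^ (n + 1) - 1 = (u - 1) * u ^ n + (u ^ n - 1) := by ring
    rw [e]
    refine v23o_add_le A (v23o_mul_le_left A hu ?_) ih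
    rw [map_pow]
    exact pow_le_one' hu1 n

/-- the polynomials -/
theorem v4oA_coef (i k : ZMod 3) : ∃ p0 p1 p2 : ℂ, A.valuation p0 ≤ 1 ∧ A.valuation p1 ≤ 1 ∧ A.valuation p2 ≤ 1 ∧
    A.valuation (p0 + p1 + p2) ≤ A.valuation (emb la) ∧ A.valuation (p2 - p0) = 1 ∧
    (∀ u, P1 1 i k u = p0 + p1 * u + p2 * u ^ 2) ∧ ∀ u, P2 1 i k u = p0 * u ^ 2 + p1 * u + p2 := by
  have hz : ∀ j : ZMod 3, A.valuation (1 - zw j) ≤ A.valuation (emb la) := by
    intro j
    have hw : A.valuation (1 + w) ≤ 1 := by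
      have : (1 : ℂ) + w = emb (1 + CU.om) := by rw [map_add, map_one, CUL.emb_om]
      rw [this]
      exact CUL.w_emb_le A _
    rcases CUL.l5_zw_cases j with h | h | h
    · rw [h, CUL.zw_zero, sub_self, map_zero]
      exact zero_le
    · rw [h, CUL.zw_one, ← CUL.emb_la]
    · rw [h, CUL.zw_two]
      have e : 1 - w ^ 2 = emb la * (1 + w) := by rw [CUL.emb_la]; ring
      rw [e]
      exact v23o_mul_le_left A le_rfl hw
  have hzv : ∀ j : ZMod 3, A.valuation (zw j) = 1 := fun j => CUL.w_zw A j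
  have hw1 : A.valuation w = 1 := CUL.w_w A
  have hl := CUL.w_la_lt A hA
  have h1 : A.valuation (1 : ℂ) ≤ 1 := by rw [map_one]
  have h0 : A.valuation (0 : ℂ) ≤ 1 := by rw [map_zero]; exact zero_le
  have hρw : zw (2 - k) * w = zw (2 - k + 1) := by rw [CUL.zw_add, CUL.zw_one]
  rcases CUL.l5_zw_cases i with h | h | h
  · refine ⟨0, 1, -zw (2 - k), h0, h1, by rw [Valuation.map_neg, hzv], ?_, ?_, ?_, ?_⟩
    · rw [zero_add, ← sub_eq_add_neg]
      exact hz _
    · rw [sub_zero, Valuation.map_neg, hzv]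
    · intro u
      simp only [P1, h, if_true]
      rw [if_neg (by decide)]
      ring
    · intro u
      simp only [P2, h, if_true]
      rw [if_neg (by decide)]
      ring
  · refine ⟨w, -(w * zw (2 - k)), 0, hw1.le, by rw [Valuation.map_neg, map_mul, hw1, hzv, mul_one], h0, ?_, ?_, ?_, ?_⟩
    · rw [add_zero, ← sub_eq_add_neg]
      have e : w - w * zw (2 - k) = w * (1 - zw (2 - k)) := by ring
      rw [e]
      exact v23o_mul_le_right A hw1.le (hz _)
    · rw [zero_sub, Valuation.map_neg, hw1]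
    · intro u
      simp only [P1, h, if_true]
      rw [if_neg (by decide), if_neg (by decide)]
      ring
    · intro u
      simp only [P2, h, if_true]
      rw [if_neg (by decide), if_neg (by decide)]
      ring
  · refine ⟨-(zw (2 - k) * w), 0, 1, by rw [Valuation.map_neg, hρw, hzv], h0, h1, ?_, ?_, ?_, ?_⟩
    · have e : -(zw (2 - k) * w) + 0 + 1 = 1 - zw (2 - k + 1) := by rw [hρw]; ring
      rw [e]
      exact hz _
    · have e : (1 : ℂ) - -(zw (2 - k) * w) = 2 - (1 - zw (2 - k + 1)) := by rw [hρw]; ring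
      have h2 := JL.a1_two A hA
      have h3 : A.valuation (1 - zw (2 - k + 1)) < A.valuation 2 := by
        rw [h2]
        exact lt_of_le_of_lt (hz _) hl
      rw [e, Valuation.map_sub_eq_of_lt_left _ h3, h2]
    · intro u
      simp only [P1, h, if_true]
      ring
    · intro u
      simp only [P2, h, if_true]
      ring

/-- the leading term of the summand -/
theorem v4oA_S4 {s : ℂ} (hs : s ^ 2 = emb la) {r : ℂ} (hr : 4 * r ^ 3 = -1) (i k : ZMod 3) : ∃ K : ℂ,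
    A.valuation K = 1 ∧ ∀ z, OT z → A.valuation (S4 (-1) 1 i k z - K * Tm (emb la * z)) ≤ A.valuation s ^ 2 := by
  obtain ⟨p0, p1, p2, v0, v1, v2, vA, vB, hP1, hP2⟩ := v4oA_coef A hA i k
  have hs1 := v23o_s_lt A hA hs
  have hls : A.valuation (emb la) = A.valuation s ^ 2 := by rw [← map_pow, hs]
  have hss : A.valuation s ^ 2 ≤ A.valuation s := by
    rw [pow_two]
    exact mul_le_of_le_one_right' hs1.le
  have h2 := JL.a1_two A hA
  have h4 := JL.a1_four A hA
  have hrv := JL.r_val A hA hr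
  have hw1 : A.valuation w = 1 := CUL.w_w A
  have h1w : A.valuation (1 + w) = 1 := by
    have e : (1 : ℂ) + w = -w ^ 2 := by rw [CUL.w2]; ring
    rw [e, Valuation.map_neg, map_pow, hw1, one_pow]
  have hone : A.valuation (1 : ℂ) ≤ 1 := by rw [map_one]
  refine ⟨(2 * (w * r)) ^ k.val * (1 + w) * (1 + w) * (4 * (p2 - p0)), ?_, ?_⟩
  · rw [map_mul, map_mul, map_mul, map_pow, map_mul, map_mul, map_mul, h2, hw1, hrv, h1w, h4, vB]
    simp
  · intro z hz
    have hz1 : OT (emb la * z) := CUL.u7_la_mul hz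
    have hz2 : OT (emb la ^ 2 * z) := by
      have e : emb la ^ 2 * z = emb la * (emb la * z) := by ring
      rw [e]
      exact CUL.u7_la_mul hz1
    obtain ⟨a1, a2, a3⟩ := v4oA_U A hA hs hz
    obtain ⟨b1, b2, b3⟩ := v4oA_U A hA hs hz1
    obtain ⟨c1, c2, c3⟩ := v4oA_U A hA hs hz2
    have ht := v23o_tau A hA hs hz1
    have hx := JL.x_close A hA hr hz
    have hxv := CUL.w_x A hA hz
    rw [S4, hP1, hP2]
    obtain ⟨U, hU⟩ : ∃ U, U = Um z := ⟨_, rfl⟩
    obtain ⟨U₁, hU1⟩ : ∃ U, U = Um (emb la * z) := ⟨_, rfl⟩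
    obtain ⟨U₂, hU2⟩ : ∃ U, U = Um (emb la ^ 2 * z) := ⟨_, rfl⟩
    obtain ⟨t, ht'⟩ : ∃ t, t = Tm (emb la * z) := ⟨_, rfl⟩
    rw [← hU] at a1 a2 a3
    rw [← hU1, ← ht'] at b1
    rw [← hU1] at b2 b3
    rw [← hU2] at c2 c3
    rw [← ht'] at ht
    rw [← hU, ← hU1, ← hU2, ← ht']
    have n2 := v23o_ne_of A hA c3
    -- the polynomials
    have hd : A.valuation (U₁ - 1) ≤ A.valuation s := b2
    have q1 : A.valuation (p0 + p1 * U₁ + p2 * U₁ ^ 2) ≤ A.valuation s := by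
      have e : p0 + p1 * U₁ + p2 * U₁ ^ 2 = (p0 + p1 + p2) + (U₁ - 1) * (p1 + p2 * (U₁ + 1)) := by ring
      rw [e]
      refine v23o_add_le A ((vA.trans hls.le).trans hss) (v23o_mul_le_left A hd (v23o_add_le A v1
        (v23o_mul_le_right A v2 (v23o_add_le A b3.le hone))))
    have q2 : A.valuation (p0 * U₁ ^ 2 + p1 * U₁ + p2) ≤ A.valuation s := by
      have e : p0 * U₁ ^ 2 + p1 * U₁ + p2 = (p0 + p1 + p2) + (U₁ - 1) * (p1 + p0 * (U₁ + 1)) := by ring
      rw [e]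
      refine v23o_add_le A ((vA.trans hls.le).trans hss) (v23o_mul_le_left A hd (v23o_add_le A v1
        (v23o_mul_le_right A v0 (v23o_add_le A b3.le hone))))
    have q3 : A.valuation (U ^ (2 - e1 k 1) / U₂ - 1) ≤ A.valuation s := by
      have e : U ^ (2 - e1 k 1) / U₂ - 1 = ((U ^ (2 - e1 k 1) - 1) - (U₂ - 1)) / U₂ := by
        field_simp
        ring
      rw [e, map_div₀, c3, div_one]
      exact v23o_sub_le A (v4oA_pow A hA a2 a3.le _) c2
    have q4 : A.valuation (U ^ e2 k 1 - 1) ≤ A.valuation s := v4oA_pow A hA a2 a3.le _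
    have hBr : A.valuation (U ^ (2 - e1 k 1) * (p0 + p1 * U₁ + p2 * U₁ ^ 2) / U₂ +
        -1 * U ^ e2 k 1 * (p0 * U₁ ^ 2 + p1 * U₁ + p2) - 4 * (p2 - p0) * t) ≤ A.valuation s ^ 2 := by
      have e : U ^ (2 - e1 k 1) * (p0 + p1 * U₁ + p2 * U₁ ^ 2) / U₂ +
        -1 * U ^ e2 k 1 * (p0 * U₁ ^ 2 + p1 * U₁ + p2) - 4 * (p2 - p0) * t =
        (U ^ (2 - e1 k 1) / U₂ - 1) * (p0 + p1 * U₁ + p2 * U₁ ^ 2) -
          (U ^ e2 k 1 - 1) * (p0 * U₁ ^ 2 + p1 * U₁ + p2) +
          (p2 - p0) * ((U₁ - 1) * (U₁ - 1) + 2 * (U₁ - (1 + 2 * t))) := by ring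
      rw [e, pow_two (A.valuation s)]
      refine v23o_add_le A (v23o_sub_le A (v23o_mul_le A q3 q1) (v23o_mul_le A q4 q2)) ?_
      refine v23o_mul_le_right A vB.le (v23o_add_le A (v23o_mul_le A hd hd) (v23o_mul_le_right A h2.le ?_))
      rw [← pow_two]
      exact b1
    -- the factor
    have hf1 : A.valuation (1 + w * U₁ - (1 + w)) ≤ A.valuation s := by
      have e : 1 + w * U₁ - (1 + w) = w * (U₁ - 1) := by ring
      rw [e]
      exact v23o_mul_le_right A hw1.le b2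
    have hf2 : A.valuation (1 + w * U₂ - (1 + w)) ≤ A.valuation s := by
      have e : 1 + w * U₂ - (1 + w) = w * (U₂ - 1) := by ring
      rw [e]
      exact v23o_mul_le_right A hw1.le c2
    have hg0 : A.valuation (xm z * (1 + U) - 2 * (w * r)) ≤ A.valuation s := by
      have e : xm z * (1 + U) - 2 * (w * r) = w * (xw z * (U - 1) + 2 * (xw z - r)) := by rw [xm]; ring
      rw [e]
      refine v23o_mul_le_right A hw1.le (v23o_add_le A (v23o_mul_le_right A hxv.le a2) (v23o_mul_le_right A h2.le ?_))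
      exact (hx.trans hls.le).trans hss
    have hgv : A.valuation (2 * (w * r)) ≤ 1 := by
      rw [map_mul, map_mul, h2, hw1, hrv]
      simp
    have hgv' : A.valuation (xm z * (1 + U)) ≤ 1 := by
      rw [xm]
      exact v23o_mul_le_right A (v23o_mul_le_right A hw1.le hxv.le) (v23o_add_le A hone a3.le)
    have hg : A.valuation ((xm z * (1 + U)) ^ k.val - (2 * (w * r)) ^ k.val) ≤ A.valuation s := by
      generalize k.val = n
      induction n with
      | zero => rw [pow_zero, pow_zero, sub_self, map_zero]; exact zero_le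
      | succ n ih =>
        have e : (xm z * (1 + U)) ^ (n + 1) - (2 * (w * r)) ^ (n + 1) =
            (xm z * (1 + U) - 2 * (w * r)) * (xm z * (1 + U)) ^ n +
            (2 * (w * r)) * ((xm z * (1 + U)) ^ n - (2 * (w * r)) ^ n) := by ring
        rw [e]
        refine v23o_add_le A (v23o_mul_le_left A hg0 ?_) (v23o_mul_le_right A hgv ih)
        rw [map_pow]
        exact pow_le_one' hgv' n
    have hgk : A.valuation ((2 * (w * r)) ^ k.val) ≤ 1 := by
      rw [map_pow]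
      exact pow_le_one' hgv _
    have hgk' : A.valuation ((xm z * (1 + U)) ^ k.val) ≤ 1 := by
      rw [map_pow]
      exact pow_le_one' hgv' _
    have hf1' : A.valuation (1 + w * U₁) ≤ 1 := v23o_add_le A hone (v23o_mul_le_right A hw1.le b3.le)
    have hf2' : A.valuation (1 + w * U₂) ≤ 1 := v23o_add_le A hone (v23o_mul_le_right A hw1.le c3.le)
    have hBrv : A.valuation (4 * (p2 - p0) * t) ≤ A.valuation s :=
      v23o_mul_le_right A (v23o_mul_le_right A h4.le vB.le) ht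
    obtain ⟨G, hG⟩ : ∃ G, G = (xm z * (1 + U)) ^ k.val := ⟨_, rfl⟩
    obtain ⟨G', hG'⟩ : ∃ G, G = (2 * (w * r)) ^ k.val := ⟨_, rfl⟩
    obtain ⟨B, hB⟩ : ∃ B, B = U ^ (2 - e1 k 1) * (p0 + p1 * U₁ + p2 * U₁ ^ 2) / U₂ +
        -1 * U ^ e2 k 1 * (p0 * U₁ ^ 2 + p1 * U₁ + p2) := ⟨_, rfl⟩
    rw [← hG, ← hG', ← hB]
    rw [← hG, ← hG'] at hg
    rw [← hG] at hgk'
    rw [← hG'] at hgk
    rw [← hB] at hBr
    have e : G * (1 + w * U₁) * (1 + w * U₂) * B - G' * (1 + w) * (1 + w) * (4 * (p2 - p0)) * t =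
        G * (1 + w * U₁) * (1 + w * U₂) * (B - 4 * (p2 - p0) * t) +
        ((G - G') * ((1 + w * U₁) * (1 + w * U₂)) + G' * ((1 + w * U₁ - (1 + w)) * (1 + w * U₂) +
          (1 + w) * (1 + w * U₂ - (1 + w)))) * (4 * (p2 - p0) * t) := by ring
    rw [e]
    refine v23o_add_le A (v23o_mul_le_right A (v23o_mul_le_right A (v23o_mul_le_right A hgk' hf1') hf2') hBr) ?_
    rw [pow_two (A.valuation s)]
    refine v23o_mul_le A (v23o_add_le A (v23o_mul_le_left A hg (v23o_mul_le_right A hf1' hf2'))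
      (v23o_mul_le_right A hgk (v23o_add_le A (v23o_mul_le_left A hf1 hf2') (v23o_mul_le_right A h1w.le hf2)))) hBrv

end

/-- `v = 5` -/
theorem V_4o1 (L : Lev) (hep : L.ep = 1) {η : ℤ} (hη : η = 1 ∨ η = -1) (hq : L.q la = -η)
    {R : Finset Eis} (hR : IsR L R) (A : ValuationSubring ℂ)
    (hA : A.valuation 3 < 1) (i : ℕ) (hi : i < 3) {Ds : Eis} (hDs : Primary Ds) (hk : L.k = 2 - mn Ds) {r : ℂ}
    (hr : r ^ 2 = emb ((η : Eis) * CU.om ^ i * la * Ds)) (hgal : GalS L r) {u₁ u₂ : ℂ} (hN : N2 r (eo L R) u₁ u₂) :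
    A.valuation (V4 L 1 i) ^ 6 ≤ A.valuation (emb la) ^ 19 ∧
      (A.valuation (V4 L 1 i) ^ 6 = A.valuation (emb la) ^ 19 ↔ A.valuation u₂ = 1) := by
  obtain ⟨s, hs⟩ := v23o_exists_s
  obtain ⟨r₀, hr₀⟩ := JL.exists_r
  have hs1 := v23o_s_lt A hA hs
  have hs0 := v23o_s_ne A hA hs
  have hl0 := CUL.v2_wla A
  have hls : A.valuation s ^ 2 = A.valuation (emb la) := by rw [← map_pow, hs]
  have hrv := v23o_r A hA hη hDs hr
  obtain ⟨K, hK, hS4⟩ := v4oA_S4 A hA hs hr₀ (i : ZMod 3) L.k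
  obtain ⟨κ, hκ, ζ, hζ, hV⟩ := V4_eq L hR 1 (i : ZMod 3) (by decide)
  rw [hep, pow_one] at hV
  have hlt : A.valuation s ^ 2 < A.valuation s := by
    rw [pow_two]
    calc A.valuation s * A.valuation s < A.valuation s * 1 := mul_lt_mul_of_pos_left hs1 (zero_lt_iff.2 hs0)
      _ = _ := mul_one _
  obtain ⟨S, hS⟩ : ∃ S, S = ∑ c ∈ R, conj (L.chi c) * S4 (-1) 1 i L.k (pt L c) := ⟨_, rfl⟩
  rw [← hS] at hV
  have h1 : A.valuation (S - K * ((L.q la : ℂ) * Mo L R 1)) ≤ A.valuation s ^ 2 := by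
    rw [← v23o_perm L hep hR, hS, Finset.mul_sum, ← Finset.sum_sub_distrib]
    refine v23o_sum_le A R _ fun c hc => ?_
    have hcop := hR.1 c hc
    have hOT := OT_pt L hcop
    have h2 := hS4 _ hOT
    have hOT' : OT (emb la * pt L c) := CUL.u7_la_mul hOT
    have ht := v23o_tau A hA hs hOT'
    have hc1 := v23o_conj_c A hA L hcop
    have hcv : A.valuation (conj (L.c c)) ≤ 1 := by
      obtain ⟨j, hj⟩ := L.c_cube c hcop
      rw [hj, CUL.zw_conj, CUL.w_zw A]
    have e : conj (L.chi c) * S4 (-1) 1 i L.k (pt L c) - K * ((L.q c : ℂ) * Tm (pt L (la * c))) =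
        (L.q c : ℂ) * (conj (L.c c) * (S4 (-1) 1 i L.k (pt L c) - K * Tm (emb la * pt L c)) +
          (conj (L.c c) - 1) * (K * Tm (emb la * pt L c))) := by
      rw [Lev.chi, map_mul, map_intCast, v23o_pt_la]
      ring
    rw [e]
    refine v23o_mul_le_right A (CUL.w_int_le A _) (v23o_add_le A (v23o_mul_le_right A hcv h2) ?_)
    refine v23o_mul_le_left A (hc1.trans hls.ge) (v23o_mul_le_right A hK.le (ht.trans hs1.le))
  have hM := v23o_M1 A hA L hR hs
  have hqv : A.valuation (L.q la : ℂ) = 1 := by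
    rcases q_la_pm L with h | h
    · rw [h, Int.cast_one, map_one]
    · rw [h, Int.cast_neg, Int.cast_one, Valuation.map_neg, map_one]
  have hKM : A.valuation (K * ((L.q la : ℂ) * Mo L R 1)) = A.valuation (Mo L R 1) := by
    rw [map_mul, map_mul, hK, hqv, one_mul, one_mul]
  have hSle : A.valuation S ≤ A.valuation s := by
    have e : S = (S - K * ((L.q la : ℂ) * Mo L R 1)) + K * ((L.q la : ℂ) * Mo L R 1) := by ring
    rw [e]
    exact v23o_add_le A (h1.trans hlt.le) (by rw [hKM]; exact hM)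
  have hSiff : A.valuation S = A.valuation s ↔ A.valuation (Mo L R 1) = A.valuation s := by
    constructor
    · intro h
      have e : K * ((L.q la : ℂ) * Mo L R 1) = S - (S - K * ((L.q la : ℂ) * Mo L R 1)) := by ring
      rw [← hKM, e, Valuation.map_sub_eq_of_lt_left, h]
      rw [h]
      exact lt_of_le_of_lt h1 hlt
    · intro h
      have e : S = K * ((L.q la : ℂ) * Mo L R 1) + (S - K * ((L.q la : ℂ) * Mo L R 1)) := by ring
      rw [e, Valuation.map_add_eq_of_lt_left, hKM, h]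
      rw [hKM, h]
      exact lt_of_le_of_lt h1 hlt
  -- the factor
  have hζ1 : A.valuation ζ = 1 := by
    have h8 : A.valuation ζ ^ 18 = 1 := by rw [← map_pow, hζ, map_one]
    exact (pow_eq_one_iff.1 h8).resolve_right (by norm_num)
  have hκ3 : A.valuation κ ^ 3 * A.valuation (emb la) = 1 := by
    have h9 : (1 : ZMod 3).val = 1 := rfl
    rw [← map_pow, hκ, h9, pow_one, ← map_mul, one_div, inv_mul_cancel₀ CUL.la_ne, map_one]
  have h3 : A.valuation (3 : ℂ) = A.valuation (emb la) ^ 2 := (CUL.w_la A hA).symm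
  have hfac : A.valuation (9 * th / (1 - w ^ 2) ^ 2) = A.valuation (emb la) ^ 3 := by
    have h9 : (9 : ℂ) = 3 * 3 := by norm_num
    have e : A.valuation (1 - w ^ 2) = A.valuation (emb la) := by
      have e1 : 1 - w ^ 2 = emb la * (1 + w) := by rw [CUL.emb_la]; ring
      have e2 : (1 : ℂ) + w = -w ^ 2 := by rw [CUL.w2]; ring
      rw [e1, e2, map_mul, Valuation.map_neg, map_pow, CUL.w_w A, one_pow, mul_one]
    rw [map_div₀, map_pow, e, map_mul, h9, map_mul, h3, v23o_th A hA, div_eq_iff (pow_ne_zero 2 hl0), ← pow_add, ← pow_succ,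
      ← pow_add]
  have hV6 : A.valuation (V4 L 1 i) ^ 6 = A.valuation (emb la) ^ 16 * A.valuation S ^ 6 := by
    rw [hV, map_mul, map_mul, map_mul, hζ1, one_mul, hfac, mul_pow, mul_pow]
    have e : A.valuation κ ^ 6 * (A.valuation (emb la) ^ 3) ^ 6 =
        (A.valuation κ ^ 3 * A.valuation (emb la)) ^ 2 * A.valuation (emb la) ^ 16 := by
      rw [mul_pow, ← pow_mul, ← pow_mul, mul_assoc, ← pow_add]
    rw [e, hκ3, one_pow, one_mul]
  have hl19 : A.valuation (emb la) ^ 19 = A.valuation (emb la) ^ 16 * A.valuation s ^ 6 := by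
    have e : A.valuation s ^ 6 = (A.valuation s ^ 2) ^ 3 := by rw [← pow_mul]
    rw [e, hls, ← pow_add]
  rw [← v23o_u A hA L hR hs hrv hN, ← hSiff, hV6, hl19]
  refine ⟨mul_le_mul' le_rfl (pow_le_pow_left' hSle 6), ?_, ?_⟩
  · intro h
    have h5 := mul_left_cancel₀ (pow_ne_zero 16 hl0) h
    exact (pow_left_inj₀ zero_le zero_le (by norm_num)).1 h5
  · intro h
    rw [h]

end JGL
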