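import Pool.Agent.JGL.Ln
import Pool.Agent.JX.A4a
import Pool.Agent.JX.A4b

/-!
# [JGL-V4oK] digits of the elements of `ℚ(ω)`, the line

PROOF of `kk_digit`: `JX.a4_dig` gives integers `β₀, β₁` with `v(b - (β₀ + β₁ λ)) ≤ v(3) = v(λ)²`, so `v(b - β₀) ≤ v(λ)`; `d ≡ β₀ mod 3`,
`d ∈ {0, 1, -1}`, `v(b - d) ≤ v(λ)`, `b' = (b - d)/λ`, in `CF.KK` because `d`, `emb la` are.
PROOF of `ln1_iff`: the condition of `Ln1` for `b, t` reads (valuation `≤ v(λ)³`)
`(e₀ - b) + (e₁ - t η) λ + (e₂ - t (-η i - 1 - b²)) λ² ≡ 0 mod λ³`. The valuation of `e₀ - b` is then `< 1`, so `3 ∣ e₀ - b`, so `e₀ = b`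
(both in `{0, 1, -1}`); then `v(e₁ - t η) < 1`, `3 ∣ e₁ - t η` (`CUL.w_int_unit`), `v(3 λ) = v(λ)³`, so `3 ∣ e₂ - t (-η i - 1 - b²)`. So with
`t ≡ η e₁`: `e₂ - η e₁ (-η i - 1 - e₀²) = e₂ + e₁ (i + η (1 + e₀²))` (`η² = 1`). Conversely take `b = e₀`, `t = η e₁`.
-/

set_option autoImplicit false

open NumberField IsDedekindDomain Filter Topology
open scoped Classical ComplexConjugate

namespace JGL

open CM27 JZ
open CU (la eE)
open CUL (Nl ez si ta DS Cont LV IsRep rp cr mn mo zw OT GalU W3 W9)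

theorem kk_digit (A : ValuationSubring ℂ) (hA : A.valuation 3 < 1) {b : ℂ} (hb : b ∈ CF.KK) (hv : A.valuation b ≤ 1) :
    ∃ (d : ℤ) (b' : ℂ), (d = 0 ∨ d = 1 ∨ d = -1) ∧ b' ∈ CF.KK ∧ A.valuation b' ≤ 1 ∧ b = d + emb la * b' := by
  obtain ⟨β₀, β₁, h⟩ := JX.a4_dig A hA hb hv
  obtain ⟨d, m, hd, hm⟩ : ∃ d m : ℤ, (d = 0 ∨ d = 1 ∨ d = -1) ∧ β₀ = d + 3 * m := by
    have h0 : β₀ % 3 = 0 ∨ β₀ % 3 = 1 ∨ β₀ % 3 = 2 := by omega
    rcases h0 with h0 | h0 | h0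
    · exact ⟨0, β₀ / 3, Or.inl rfl, by omega⟩
    · exact ⟨1, β₀ / 3, Or.inr (Or.inl rfl), by omega⟩
    · exact ⟨-1, β₀ / 3 + 1, Or.inr (Or.inr rfl), by omega⟩
  have hla := CUL.w_la_lt A hA
  have h3 : A.valuation 3 ≤ A.valuation (emb la) := by
    rw [← CUL.w_la A hA]
    exact pow_le_of_le_one zero_le hla.le two_ne_zero
  refine ⟨d, (b - d) / emb la, hd, div_mem (sub_mem hb (intCast_mem _ _)) (JX.ta_KK _), ?_, ?_⟩
  · have h1 : b - d = (b - ((β₀ : ℂ) + (β₁ : ℂ) * emb la)) + (emb la * (β₁ : ℂ) + 3 * (m : ℂ)) := by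
      rw [hm]; push_cast; ring
    have h2 : A.valuation (b - d) ≤ A.valuation (emb la) := by
      rw [h1]
      refine Valuation.map_add_le _ (h.trans h3) (Valuation.map_add_le _ ?_ ?_)
      · rw [map_mul]
        calc _ ≤ A.valuation (emb la) * 1 := mul_le_mul' le_rfl (CUL.w_int_le A _)
          _ = _ := mul_one _
      · rw [map_mul]
        calc _ ≤ A.valuation (emb la) * 1 := mul_le_mul' h3 (CUL.w_int_le A _)
          _ = _ := mul_one _
    rw [map_div₀]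
    exact div_le_one_of_le₀ h2 zero_le
  · have := CUL.la_ne
    field_simp
    ring

/-- integers `x`, `y` with `v(x + y λ) ≤ v(λ)²` -/
theorem k_two (A : ValuationSubring ℂ) (hA : A.valuation 3 < 1) {x y : ℤ}
    (h : A.valuation ((x : ℂ) + y * emb la) ≤ A.valuation (emb la) ^ 2) : (3 : ℤ) ∣ x ∧ (3 : ℤ) ∣ y := by
  have hla := CUL.w_la_lt A hA
  have hne : A.valuation (emb la) ≠ 0 := (Valuation.ne_zero_iff _).2 CUL.la_ne
  have hpos : 0 < A.valuation (emb la) := zero_lt_iff.2 hne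
  have h21 : A.valuation (emb la) ^ 2 < A.valuation (emb la) := by
    rw [pow_two]
    calc _ < A.valuation (emb la) * 1 := mul_lt_mul_of_pos_left hla hpos
      _ = _ := mul_one _
  have vy : A.valuation ((y : ℂ) * emb la) ≤ A.valuation (emb la) := by
    rw [map_mul]
    calc _ ≤ 1 * A.valuation (emb la) := mul_le_mul' (CUL.w_int_le A _) le_rfl
      _ = _ := one_mul _
  have h3x : (3 : ℤ) ∣ x := by
    by_contra hx
    have h1 := CUL.w_int_unit A hA x hx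
    have h2 : A.valuation ((x : ℂ) + y * emb la) = 1 := by
      rw [Valuation.map_add_eq_of_lt_left _ (by rw [h1]; exact lt_of_le_of_lt vy hla), h1]
    rw [h2] at h
    exact absurd (h.trans_lt h21) (not_lt.2 hla.le)
  refine ⟨h3x, ?_⟩
  by_contra hy
  have h1 := CUL.w_int_unit A hA y hy
  obtain ⟨m, hm⟩ := h3x
  have h2 : A.valuation (x : ℂ) ≤ A.valuation (emb la) ^ 2 := by
    rw [hm, CUL.w_la A hA]
    push_cast
    rw [map_mul]
    calc _ ≤ A.valuation 3 * 1 := mul_le_mul' le_rfl (CUL.w_int_le A _)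
      _ = _ := mul_one _
  have h3 : (y : ℂ) * emb la = ((x : ℂ) + y * emb la) - x := by ring
  have h4 : A.valuation ((y : ℂ) * emb la) ≤ A.valuation (emb la) ^ 2 := by
    rw [h3]
    exact (Valuation.map_sub _ _ _).trans (max_le h h2)
  rw [map_mul, h1, one_mul] at h4
  exact absurd h21 (not_lt.2 h4)

theorem ln1_iff (A : ValuationSubring ℂ) (hA : A.valuation 3 < 1) {η : ℤ} (hη : η = 1 ∨ η = -1) (i : ℤ)
    {e₀ e₁ e₂ : ℤ} (he₀ : e₀ = 0 ∨ e₀ = 1 ∨ e₀ = -1) {u u₃ : ℂ} (hu₃ : A.valuation u₃ ≤ 1)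
    (hu : u = e₀ + e₁ * emb la + e₂ * emb la ^ 2 + emb la ^ 3 * u₃) :
    Ln1 A η (-η * i) u ↔ (3 : ℤ) ∣ e₂ + e₁ * (i + η * (1 + e₀ ^ 2)) := by
  have hla := CUL.w_la_lt A hA
  have hne : A.valuation (emb la) ≠ 0 := (Valuation.ne_zero_iff _).2 CUL.la_ne
  have hpos : 0 < A.valuation (emb la) := zero_lt_iff.2 hne
  have hηsq : η * η = 1 := by rcases hη with rfl | rfl <;> norm_num
  have v3 : A.valuation (emb la ^ 3 * u₃) ≤ A.valuation (emb la) ^ 3 := by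
    rw [map_mul, map_pow]
    calc _ ≤ A.valuation (emb la) ^ 3 * 1 := mul_le_mul' le_rfl hu₃
      _ = _ := mul_one _
  constructor
  · rintro ⟨b, t, hb, h⟩
    have h1 : u - ((b : ℂ) + (t : ℂ) * (emb la * ((η : ℂ) + ((-η * i - 1 - b ^ 2 : ℤ) : ℂ) * emb la))) =
        (((e₀ - b : ℤ) : ℂ) + emb la * (((e₁ - t * η : ℤ) : ℂ) + ((e₂ - t * (-η * i - 1 - b ^ 2) : ℤ) : ℂ) * emb la)) +
          emb la ^ 3 * u₃ := by
      rw [hu]; push_cast; ring
    rw [h1] at h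
    have h2 : A.valuation (((e₀ - b : ℤ) : ℂ) + emb la * (((e₁ - t * η : ℤ) : ℂ) +
        ((e₂ - t * (-η * i - 1 - b ^ 2) : ℤ) : ℂ) * emb la)) ≤ A.valuation (emb la) ^ 3 := by
      have h3 : (((e₀ - b : ℤ) : ℂ) + emb la * (((e₁ - t * η : ℤ) : ℂ) +
        ((e₂ - t * (-η * i - 1 - b ^ 2) : ℤ) : ℂ) * emb la)) = ((((e₀ - b : ℤ) : ℂ) + emb la * (((e₁ - t * η : ℤ) : ℂ) +
        ((e₂ - t * (-η * i - 1 - b ^ 2) : ℤ) : ℂ) * emb la)) + emb la ^ 3 * u₃) - emb la ^ 3 * u₃ := by ring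
      rw [h3]
      exact (Valuation.map_sub _ _ _).trans (max_le h v3)
    have hle : A.valuation (((e₁ - t * η : ℤ) : ℂ) + ((e₂ - t * (-η * i - 1 - b ^ 2) : ℤ) : ℂ) * emb la) ≤ 1 := by
      refine Valuation.map_add_le _ (CUL.w_int_le A _) ?_
      rw [map_mul]
      exact mul_le_one' (CUL.w_int_le A _) hla.le
    have h4 : (3 : ℤ) ∣ e₀ - b := by
      by_contra hx
      have h5 := CUL.w_int_unit A hA _ hx
      have h6 : A.valuation (emb la * (((e₁ - t * η : ℤ) : ℂ) + ((e₂ - t * (-η * i - 1 - b ^ 2) : ℤ) : ℂ) * emb la)) < 1 := by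
        rw [map_mul]
        calc _ ≤ A.valuation (emb la) * 1 := mul_le_mul' le_rfl hle
          _ < 1 := by rw [mul_one]; exact hla
      rw [Valuation.map_add_eq_of_lt_left _ (by rw [h5]; exact h6), h5] at h2
      exact absurd (pow_lt_one₀ zero_le hla (n := 3) (by norm_num)) (not_lt.2 h2)
    have h5 : b = e₀ := by
      rcases hb with rfl | rfl | rfl <;> rcases he₀ with rfl | rfl | rfl <;> omega
    have h33 : A.valuation (emb la) ^ 3 = A.valuation (emb la) * A.valuation (emb la) ^ 2 := by rw [← pow_succ']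
    rw [h5, sub_self, Int.cast_zero, zero_add, map_mul, h33] at h2
    have h6 := le_of_mul_le_mul_left h2 hpos
    obtain ⟨⟨k1, hk1⟩, ⟨k2, hk2⟩⟩ := k_two A hA h6
    exact ⟨k2 + η * k1 * (η * i + 1 + e₀ ^ 2), by
      linear_combination hk2 + η * (η * i + 1 + e₀ ^ 2) * hk1 + (t * (η * i + 1 + e₀ ^ 2) - e₁ * i) * hηsq⟩
  · rintro ⟨m, hm⟩
    refine ⟨e₀, η * e₁, he₀, ?_⟩
    have h1 : u - ((e₀ : ℂ) + ((η * e₁ : ℤ) : ℂ) * (emb la * ((η : ℂ) + ((-η * i - 1 - e₀ ^ 2 : ℤ) : ℂ) * emb la))) =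
        emb la ^ 2 * (3 * (m : ℂ)) + emb la ^ 3 * u₃ := by
      have hm' : (e₂ : ℂ) + e₁ * (i + η * (1 + e₀ ^ 2)) = 3 * m := by exact_mod_cast hm
      have hη' : (η : ℂ) * η = 1 := by exact_mod_cast hηsq
      rw [hu]; push_cast
      linear_combination (emb la ^ 2) * hm' + (emb la ^ 2 * e₁ * i - e₁ * emb la) * hη'
    rw [h1]
    refine Valuation.map_add_le _ ?_ v3
    rw [map_mul, map_mul, map_pow, ← CUL.w_la A hA]
    calc _ ≤ A.valuation (emb la) ^ 2 * (A.valuation (emb la) ^ 2 * 1) :=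
          mul_le_mul' le_rfl (mul_le_mul' le_rfl (CUL.w_int_le A _))
      _ = A.valuation (emb la) ^ 4 := by rw [mul_one, ← pow_add]
      _ ≤ _ := pow_le_pow_right_of_le_one' hla.le (by norm_num)

end JGL
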