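import Pool.Agent.JGL.V4o5
import Pool.Agent.JGL.T
import Pool.Agent.JGL.Bc
import Pool.Agent.JGL.Ba

/-!
# [JGL-V4oO] the orbit structure and the product `eo`

PROOF of `rg_exists`: `ℓ` a square root of `emb la` in `ℂ`, `v(ℓ)² = v(λ) < 1`; `o = w`; `(1 + l x)` has valuation `1`, so it is a unit of `A`.
PROOF of `orb_L`: `φ` from `perm_R` with `g = la` (`la_cop`). `y c = q(c) τ(pt c)` is in `A`, `v(y c)² ≤ v(λ) = v(l)²` (`Tm_val`, `OT_pt`), so
`y c = l y' c`. The function `g(x) = q(x) τ(pt x)` is periodic modulo `f` and invariant under units (`unit_act`: `q ζ = s^ep = s`,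
`y(ζ z) = s y(z)`; `τ = ym/θ = -yw/θ`), multiplicative behaviour: `q(c) τ(pt(la c)) = q(c) q(la c) g(la c) = q(la) g(φ c)`, and
`q(c) τ(pt (la² c)) = q(la)² g(la² c) = g(φ (φ c))`. `emb la * pt c = pt (la c)`. The relation is `Tm_la` multiplied by `q(c)` (`q(c)² = 1`).
PROOF of `eo_prod`: `Um z = (1 + τ)/(1 - τ)` (`Um_eq`), `q = 1`: factor `(1 + y)/(1 - y)`; `q = -1`: `((1+τ)/(1-τ))⁻¹ = (1 - τ)/(1 + τ) = (1 + y)/(1 - y)`.
-/

set_option autoImplicit false

open NumberField IsDedekindDomain Filter Topology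
open scoped Classical ComplexConjugate

namespace JGL

open CM27 JZ
open CU (la eE)
open CUL (Nl ez si ta DS Cont LV IsRep rp cr mn mo zw OT GalU W3 W9)

theorem rg_exists (A : ValuationSubring ℂ) (hA : A.valuation 3 < 1) :
    ∃ D : Rg A, ((D.l : A) : ℂ) ^ 2 = emb la ∧ ((D.o : A) : ℂ) = w := by
  have hla := CUL.w_la_lt A hA
  obtain ⟨s, hs⟩ : ∃ s : ℂ, s ^ 2 = emb la := IsAlgClosed.exists_pow_nat_eq _ (by norm_num)
  have vs2 : A.valuation s ^ 2 < 1 := by rw [← map_pow, hs]; exact hla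
  have vs : A.valuation s < 1 := by
    by_contra h
    push Not at h
    exact absurd vs2 (not_lt.2 (one_le_pow₀ h))
  have hsm : s ∈ A := (ValuationSubring.valuation_le_one_iff A _).1 vs.le
  have hom : w ∈ A := (ValuationSubring.valuation_le_one_iff A _).1 (CUL.w_w A).le
  refine ⟨⟨⟨s, hsm⟩, ⟨w, hom⟩, ?_, ?_, ?_⟩, hs, rfl⟩
  · apply Subtype.ext
    show s ^ 2 = 1 - w
    rw [hs, CUL.emb_la]
  · apply Subtype.ext
    show w ^ 2 = -1 - w
    exact CUL.w2
  · intro x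
    have h1 : A.valuation (s * (x : ℂ)) < 1 := by
      rw [map_mul]
      calc _ ≤ A.valuation s * 1 := mul_le_mul' le_rfl ((ValuationSubring.valuation_le_one_iff A _).2 x.2)
        _ < 1 := by rw [mul_one]; exact vs
    have h2 : A.valuation (1 + s * (x : ℂ)) = 1 := Valuation.map_one_add_of_lt _ h1
    have h3 : (1 + s * (x : ℂ)) ≠ 0 := by
      intro h
      rw [h, map_zero] at h2
      exact zero_ne_one h2
    refine ⟨⟨(1 + s * (x : ℂ))⁻¹, (ValuationSubring.valuation_le_one_iff A _).1 (by rw [map_inv₀, h2, inv_one])⟩, ?_⟩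
    apply Subtype.ext
    show (1 + s * (x : ℂ)) * (1 + s * (x : ℂ))⁻¹ = 1
    exact mul_inv_cancel₀ h3

/-- invariance of `q(x) τ(pt x)` -/
theorem o_inv (L : Lev) (hep : L.ep = 1) {ζ x y : Eis} (hζ : IsUnit ζ) (hd : L.f ∣ x - ζ * y) :
    (L.q x : ℂ) * Tm (pt L x) = (L.q y : ℂ) * Tm (pt L y) := by
  obtain ⟨s, j, hs, hq, -, hu⟩ := unit_act L hζ
  obtain ⟨-, hy⟩ := hu y
  have hss : (s : ℂ) * s = 1 := by
    rcases hs with rfl | rfl <;> norm_num
  have e1 : L.q x = L.q ζ * L.q y := by rw [L.q_per _ _ hd, L.q_mul]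
  rw [hep, pow_one] at hq
  rw [hq] at e1
  have e2 : Tm (pt L x) = (s : ℂ) * Tm (pt L y) := by
    rw [Tm, Tm, ym, ym, (pt_congr_xw L hd).2, hy]
    ring
  have e3 : (L.q x : ℂ) = s * L.q y := by exact_mod_cast congrArg (Int.cast : ℤ → ℂ) e1
  rw [e2, e3]
  linear_combination ((L.q y : ℂ) * Tm (pt L y)) * hss

theorem o_la (L : Lev) (x : Eis) : (L.q (la * x) : ℂ) * Tm (pt L (la * x)) =
    (L.q la : ℂ) * ((L.q x : ℂ) * Tm (emb la * pt L x)) := by
  have h1 : pt L (la * x) = emb la * pt L x := by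
    unfold pt
    rw [map_mul, mul_div_assoc]
  rw [h1, L.q_mul]
  push_cast
  ring

theorem orb_L (L : Lev) (hep : L.ep = 1) {R : Finset Eis} (hR : IsR L R) (A : ValuationSubring ℂ)
    (hA : A.valuation 3 < 1) (D : Rg A) (hl : ((D.l : A) : ℂ) ^ 2 = emb la) (ho : ((D.o : A) : ℂ) = w) :
    ∃ (y y' : Eis → A) (φ : Eis → Eis), Orb D R y y' φ (((L.q la : ℤ) : A)) ∧
      (∀ c ∈ R, ((y c : A) : ℂ) = (L.q c : ℂ) * Tm (pt L c)) ∧
      (∀ c ∈ R, (L.q la : ℂ) * ((y (φ c) : A) : ℂ) = (L.q c : ℂ) * Tm (emb la * pt L c)) ∧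
      (∀ c ∈ R, ((y (φ (φ c)) : A) : ℂ) = (L.q c : ℂ) * Tm (emb la ^ 2 * pt L c)) := by
  have hl0 : ((D.l : A) : ℂ) ≠ 0 := by
    intro h
    rw [h, zero_pow two_ne_zero] at hl
    exact CUL.la_ne hl.symm
  have vl0 : A.valuation ((D.l : A) : ℂ) ≠ 0 := (Valuation.ne_zero_iff _).2 hl0
  have e : ∀ x : Eis, IsCoprime x L.f → ∃ y y' : A, (y : ℂ) = (L.q x : ℂ) * Tm (pt L x) ∧ y = D.l * y' := by
    intro x hx
    have h1 : A.valuation (Tm (pt L x)) ≤ A.valuation ((D.l : A) : ℂ) := by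
      have h2 : A.valuation (Tm (pt L x)) ^ 2 ≤ A.valuation ((D.l : A) : ℂ) ^ 2 := by
        rw [← map_pow A.valuation ((D.l : A) : ℂ), hl]
        exact Tm_val A hA (OT_pt L hx)
      exact (pow_le_pow_iff_left₀ zero_le zero_le (by norm_num)).1 h2
    have h2 : A.valuation ((L.q x : ℂ) * Tm (pt L x)) ≤ A.valuation ((D.l : A) : ℂ) := by
      rw [map_mul]
      calc _ ≤ 1 * A.valuation ((D.l : A) : ℂ) := mul_le_mul' (CUL.w_int_le A _) h1
        _ = _ := one_mul _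
    have h3 : A.valuation (((L.q x : ℂ) * Tm (pt L x)) / ((D.l : A) : ℂ)) ≤ 1 := by
      rw [map_div₀]
      exact div_le_one_of_le₀ h2 zero_le
    refine ⟨⟨(L.q x : ℂ) * Tm (pt L x), (ValuationSubring.valuation_le_one_iff A _).1
      (h2.trans ((ValuationSubring.valuation_le_one_iff A _).2 D.l.2))⟩,
      ⟨_, (ValuationSubring.valuation_le_one_iff A _).1 h3⟩, rfl, ?_⟩
    apply Subtype.ext
    show (L.q x : ℂ) * Tm (pt L x) = ((D.l : A) : ℂ) * (((L.q x : ℂ) * Tm (pt L x)) / ((D.l : A) : ℂ))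
    field_simp
  choose! y y' hy hy' using e
  obtain ⟨φ, h1, -, h2⟩ := perm_R L hR (la_cop L)
  have hqla : (L.q la : ℂ) * L.q la = 1 := by
    rcases q_la_pm L with h | h <;> rw [h] <;> norm_num
  have k1 : ∀ c ∈ R, ((y (φ c) : A) : ℂ) = (L.q la : ℂ) * ((L.q c : ℂ) * Tm (emb la * pt L c)) := by
    intro c hc
    obtain ⟨h5, ζ, hζ, hd⟩ := h1 c hc
    rw [hy _ (hR.1 _ h5), ← o_inv L hep hζ hd, o_la]
  have k2 : ∀ c ∈ R, (L.q la : ℂ) * ((y (φ c) : A) : ℂ) = (L.q c : ℂ) * Tm (emb la * pt L c) := by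
    intro c hc
    rw [k1 c hc]
    linear_combination ((L.q c : ℂ) * Tm (emb la * pt L c)) * hqla
  have k3 : ∀ c ∈ R, ((y (φ (φ c)) : A) : ℂ) = (L.q c : ℂ) * Tm (emb la ^ 2 * pt L c) := by
    intro c hc
    obtain ⟨h5, ζ, hζ, hd⟩ := h1 c hc
    obtain ⟨h6, ζ', hζ', hd'⟩ := h1 _ h5
    have h7 : L.f ∣ la * (la * c) - ζ * (la * φ c) := by
      obtain ⟨t, ht⟩ := hd
      exact ⟨la * t, by linear_combination la * ht⟩
    rw [hy _ (hR.1 _ h6), ← o_inv L hep hζ' hd', ← o_inv L hep hζ h7, o_la]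
    have h8 : pt L (la * c) = emb la * pt L c := by
      unfold pt
      rw [map_mul, mul_div_assoc]
    rw [h8, L.q_mul]
    have h9 : emb la * (emb la * pt L c) = emb la ^ 2 * pt L c := by ring
    rw [h9]
    push_cast
    linear_combination ((L.q c : ℂ) * Tm (emb la ^ 2 * pt L c)) * hqla
  refine ⟨y, y', φ, ⟨fun c hc => hy' c (hR.1 c hc), fun c hc => (h1 c hc).1, ?_, ?_, ?_⟩, fun c hc => hy c (hR.1 c hc), k2, k3⟩
  · intro F
    apply Subtype.ext
    rw [AddSubmonoidClass.coe_finsetSum, AddSubmonoidClass.coe_finsetSum]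
    exact h2 (fun c => (F c : ℂ))
  · rcases q_la_pm L with h | h <;> rw [h] <;> norm_num
  · intro c hc
    apply Subtype.ext
    have hT := Tm_la (OT_pt L (hR.1 c hc))
    have hqq : (L.q c : ℂ) * (L.q c : ℂ) = 1 := by
      have := q_sq L (hR.1 c hc)
      exact_mod_cast this
    have h3 := k2 c hc
    have h4 := hy c (hR.1 c hc)
    unfold Rg.th
    push_cast
    rw [h3, h4, hl, ho]
    rw [th_eq] at hT
    have h5 : (((3 : A)) : ℂ) = 3 := map_ofNat A.subtype 3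
    rw [h5]
    linear_combination (L.q c : ℂ) * hT + (-(3 * (L.q c : ℂ) * Tm (pt L c) ^ 2 * (w * emb la) * Tm (emb la * pt L c)) -
      (L.q c : ℂ) * Tm (pt L c) ^ 3) * hqq

theorem eo_prod (L : Lev) {R : Finset Eis} (hR : IsR L R) (A : ValuationSubring ℂ)
    {y u u' : Eis → A} (hy : ∀ c ∈ R, ((y c : A) : ℂ) = (L.q c : ℂ) * Tm (pt L c))
    (hu : ∀ c ∈ R, (1 - y c) * u c = 1) (hu' : ∀ c ∈ R, (1 + y c) * u' c = 1) :
    ((∏ c ∈ R, ((1 + y c) * u c) : A) : ℂ) = eo L R ∧ ((∏ c ∈ R, ((1 - y c) * u' c) : A) : ℂ) = (eo L R)⁻¹ := by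
  have h1 : ∀ c ∈ R, (((1 + y c) * u c : A) : ℂ) = Um (pt L c) ^ L.q c := by
    intro c hc
    have h2 := congrArg Subtype.val (hu c hc)
    have h2' := congrArg Subtype.val (hu' c hc)
    push_cast at h2 h2' ⊢
    rw [hy c hc] at h2 h2' ⊢
    rw [Um_eq]
    rcases L.q_pm c (hR.1 c hc) with h | h
    · rw [h] at h2 h2' ⊢
      push_cast at h2 h2' ⊢
      rw [zpow_one]
      have h3 : (1 - Tm (pt L c)) ≠ 0 := by
        intro h4
        rw [one_mul, h4, zero_mul] at h2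
        exact zero_ne_one h2
      rw [eq_div_iff h3]
      linear_combination (1 + Tm (pt L c)) * h2
    · rw [h] at h2 h2' ⊢
      push_cast at h2 h2' ⊢
      rw [zpow_neg_one, inv_div]
      have h3 : (1 + Tm (pt L c)) ≠ 0 := by
        intro h4
        have h5 : (1 - -1 * Tm (pt L c)) = 0 := by linear_combination h4
        rw [h5, zero_mul] at h2
        exact zero_ne_one h2
      rw [eq_div_iff h3]
      linear_combination (1 - Tm (pt L c)) * h2
  have h2 : ((∏ c ∈ R, ((1 + y c) * u c) : A) : ℂ) = eo L R := by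
    unfold eo
    rw [SubmonoidClass.coe_finsetProd]
    exact Finset.prod_congr rfl h1
  refine ⟨h2, ?_⟩
  apply eq_inv_of_mul_eq_one_left
  rw [← h2, ← Subring.coe_mul, ← Finset.prod_mul_distrib]
  have h3 : ∏ c ∈ R, ((1 - y c) * u' c * ((1 + y c) * u c)) = 1 := by
    apply Finset.prod_eq_one
    intro c hc
    linear_combination ((1 + y c) * u' c) * hu c hc + hu' c hc
  rw [h3]
  rfl

end JGL
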