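import Pool.Agent.JGL.V4
import Pool.Agent.JL.A1

/-!
# [JGL-V4oS] the leading term of the summand `S4` for `a = 2`

`θ = th = w λ`, `λ = emb la = 1 - w`, `s = τ(z)`, `t = τ(λ z)`, `t₂ = τ(λ² z)`, `U = Um z = (1+s)/(1-s)`, `u = Um (λ z) = (1+t)/(1-t)`,
`u₂ = Um (λ² z)`, `x = xm z`, `v(s), v(t), v(t₂) ≤ v(λ)^(1/2)` (`Tm_val`; `OT (emb la * z)` by `CUL.u7_la_mul`), `v(x + 1) ≤ v(λ)^(1/2)`:
`CUL.w_xk` (`v(xw z + zw 2)³ = v(3) = v(λ)²`, `x + 1 = w (xw z + w²)`). Let `ℓ` be a square root of `emb la` in `ℂ`; all bounds are powers of `v(ℓ) < 1`.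

PROOF. `1 + w u = -w² (1 + θ t)/(1 - t)`, same for `u₂`. For `P1(u) = p0 + p1 u + p2 u²`, `P2(u) = p0 u² + p1 u + p2`:
`P1(u) = (A + B t + C t²)/(1-t)²`, `P2(u) = (A - B t + C t²)/(1-t)²`, `A = p0 + p1 + p2`, `B = 2 (p2 - p0)`, `C = p0 - p1 + p2`.
(`i = 2`: `p = (wσ, wσ², 1)`; `i = 0`: `p = (wσ², 1, σ)`; `i = 1`: `p = (w, wσ, wσ²)`, `σ = zw k`.) In all nine cases `A = λ al + λ² (..)`,
`B = λ be + λ² (..)`, `C = 1 + λ (..)` with elements of `ℤ[w]` (`al = 0, ±1` for `i = 1`, `i = 2, 0`; check by `w² = -1 - w`; `3 = λ² (2 - λ)`).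
`k = 0` (`e1 = 1, e2 = 2`): `U P1/u₂ - U² P2 = 2 Y (1+s)/((1-s)² (1-t)² (1+t₂))`, `Y = -(s+t₂)(A + C t²) + B t (1 + s t₂)`.
`k = 2` (`e1 = 2, e2 = 1`): `P1/u₂ - U P2 = 2 Y /((1-s)(1-t)²(1+t₂))`, `x (1+U) = 2 x/(1-s)`.
`k = 1` (`e1 = 0, e2 = 0`): `U² P1/u₂ - P2 = 2 Y₁/((1-s)² (1-t)² (1+t₂))`, `Y₁ = (A + C t²)(2 s - t₂ (1+s²)) + B t (1 + s² - 2 s t₂)`.
So `S4 = K W Y` with `W ≡ 1 mod ℓ` a product of `(1 ± s)^(±1)`, .., `(1 + θ t)`, `(-x)^k`, and `K = 2 w⁴, -4 w⁴, 8 w⁴` for `k = 0, 1, 2`.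
`Y, Y₁ ≡ -(s + t₂)(λ al + t²) + λ be t mod ℓ⁴` (`3 s (A + C t²)`, `t₂ s² (A + ..)`, `B t s t₂`, `λ² t`, `λ t² s` have valuation `≤ v(ℓ)⁴`), and the right
side has valuation `≤ v(ℓ)³`. Hence `S4 ≡ kap2 k * (...) mod ℓ⁴ = λ²` (`w⁴ = w`).
-/

set_option autoImplicit false

open NumberField IsDedekindDomain Filter Topology
open scoped Classical ComplexConjugate

namespace JGL

open CM27 JZ
open CU (la eE)
open CUL (Nl ez si ta DS Cont LV IsRep rp cr mn mo zw OT GalU W3 W9)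
open JL (N1 KD sD Psi6)

/-- the constant -/
noncomputable def kap2 (k : ZMod 3) : ℂ := if k = 0 then 2 * w else if k = 1 then -4 * w else 8 * w

def al (i : ZMod 3) : ℤ := (i.val : ℤ) - 1

def be (i k : ZMod 3) : ℤ := if i = 1 then -(k.val : ℤ) else -1 - (k.val : ℤ)

section

open CU CUL

theorem v4os_abc0 (k : ZMod 3) : ∃ a0 a1 b0 b1 c0 c1 : ℤ,
    (w * zw k ^ 2) + 1 + zw k = emb la * (al 0 : ℂ) + emb la ^ 2 * ((a0 : ℂ) + (a1 : ℂ) * w) ∧
    2 * (zw k - (w * zw k ^ 2)) = emb la * (be 0 k : ℂ) + emb la ^ 2 * ((b0 : ℂ) + (b1 : ℂ) * w) ∧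
    (w * zw k ^ 2) - 1 + zw k = 1 + emb la * ((c0 : ℂ) + (c1 : ℂ) * w) := by
  have hw : w ^ 2 + w + 1 = 0 := by rw [w2]; ring
  have hz0 : zw 0 = 1 := by simp [zw]
  have hz1 : zw 1 = w := by
    have : (1 : ZMod 3).val = 1 := rfl
    rw [zw, this, pow_one]
  have hz2 : zw 2 = w ^ 2 := by
    have : (2 : ZMod 3).val = 2 := rfl
    rw [zw, this]
  have hal0 : al 0 = -1 := rfl
  have hbe00 : be 0 0 = -1 := rfl
  have hbe01 : be 0 1 = -2 := rfl
  have hbe02 : be 0 2 = -3 := rfl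
  have hk : k = 0 ∨ k = 1 ∨ k = 2 := by revert k; decide
  rcases hk with rfl | rfl | rfl
  · refine ⟨1, 1, 2, 1, -1, 0, ?_, ?_, ?_⟩
    · rw [emb_la, hz0, hal0]; push_cast; linear_combination ((2) * w ^ 0 + (-1) * w ^ 1) * hw
    · rw [emb_la, hz0, hbe00]; push_cast; linear_combination ((1) * w ^ 0 + (-1) * w ^ 1) * hw
    · rw [emb_la, hz0]; push_cast; linear_combination (0) * hw
  · refine ⟨1, 1, 0, 0, -1, 0, ?_, ?_, ?_⟩
    · rw [emb_la, hz1, hal0]; push_cast; linear_combination ((1) * w ^ 0) * hw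
    · rw [emb_la, hz1, hbe01]; push_cast; linear_combination ((2) * w ^ 0 + (-2) * w ^ 1) * hw
    · rw [emb_la, hz1]; push_cast; linear_combination ((-1) * w ^ 0 + (1) * w ^ 1) * hw
  · refine ⟨1, 0, 2, 1, -2, -2, ?_, ?_, ?_⟩
    · rw [emb_la, hz2, hal0]; push_cast; linear_combination ((1) * w ^ 0 + (-1) * w ^ 2 + (1) * w ^ 3) * hw
    · rw [emb_la, hz2, hbe02]; push_cast; linear_combination ((1) * w ^ 0 + (-1) * w ^ 1 + (2) * w ^ 2 + (-2) * w ^ 3) * hw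
    · rw [emb_la, hz2]; push_cast; linear_combination ((-1) * w ^ 2 + (1) * w ^ 3) * hw

theorem v4os_abc1 (k : ZMod 3) : ∃ a0 a1 b0 b1 c0 c1 : ℤ,
    w + (w * zw k) + (w * zw k ^ 2) = emb la * (al 1 : ℂ) + emb la ^ 2 * ((a0 : ℂ) + (a1 : ℂ) * w) ∧
    2 * ((w * zw k ^ 2) - w) = emb la * (be 1 k : ℂ) + emb la ^ 2 * ((b0 : ℂ) + (b1 : ℂ) * w) ∧
    w - (w * zw k) + (w * zw k ^ 2) = 1 + emb la * ((c0 : ℂ) + (c1 : ℂ) * w) := by
  have hw : w ^ 2 + w + 1 = 0 := by rw [w2]; ring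
  have hz0 : zw 0 = 1 := by simp [zw]
  have hz1 : zw 1 = w := by
    have : (1 : ZMod 3).val = 1 := rfl
    rw [zw, this, pow_one]
  have hz2 : zw 2 = w ^ 2 := by
    have : (2 : ZMod 3).val = 2 := rfl
    rw [zw, this]
  have hal1 : al 1 = 0 := rfl
  have hbe10 : be 1 0 = 0 := rfl
  have hbe11 : be 1 1 = -1 := rfl
  have hbe12 : be 1 2 = -2 := rfl
  have hk : k = 0 ∨ k = 1 ∨ k = 2 := by revert k; decide
  rcases hk with rfl | rfl | rfl
  · refine ⟨-1, 0, 0, 0, -1, 0, ?_, ?_, ?_⟩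
    · rw [emb_la, hz0, hal1]; push_cast; linear_combination ((1) * w ^ 0) * hw
    · rw [emb_la, hz0, hbe10]; push_cast; linear_combination (0) * hw
    · rw [emb_la, hz0]; push_cast; linear_combination (0) * hw
  · refine ⟨0, 0, 2, 1, 0, 1, ?_, ?_, ?_⟩
    · rw [emb_la, hz1, hal1]; push_cast; linear_combination ((1) * w ^ 1) * hw
    · rw [emb_la, hz1, hbe11]; push_cast; linear_combination ((-1) * w ^ 0 + (1) * w ^ 1) * hw
    · rw [emb_la, hz1]; push_cast; linear_combination ((-1) * w ^ 0 + (1) * w ^ 1) * hw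
  · refine ⟨0, 0, 2, 0, -2, -1, ?_, ?_, ?_⟩
    · rw [emb_la, hz2, hal1]; push_cast; linear_combination ((1) * w ^ 1 + (-1) * w ^ 2 + (1) * w ^ 3) * hw
    · rw [emb_la, hz2, hbe12]; push_cast; linear_combination ((-2) * w ^ 2 + (2) * w ^ 3) * hw
    · rw [emb_la, hz2]; push_cast; linear_combination ((1) * w ^ 0 + (-1) * w ^ 1 + (-1) * w ^ 2 + (1) * w ^ 3) * hw

theorem v4os_abc2 (k : ZMod 3) : ∃ a0 a1 b0 b1 c0 c1 : ℤ,
    (w * zw k) + (w * zw k ^ 2) + 1 = emb la * (al 2 : ℂ) + emb la ^ 2 * ((a0 : ℂ) + (a1 : ℂ) * w) ∧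
    2 * (1 - (w * zw k)) = emb la * (be 2 k : ℂ) + emb la ^ 2 * ((b0 : ℂ) + (b1 : ℂ) * w) ∧
    (w * zw k) - (w * zw k ^ 2) + 1 = 1 + emb la * ((c0 : ℂ) + (c1 : ℂ) * w) := by
  have hw : w ^ 2 + w + 1 = 0 := by rw [w2]; ring
  have hz0 : zw 0 = 1 := by simp [zw]
  have hz1 : zw 1 = w := by
    have : (1 : ZMod 3).val = 1 := rfl
    rw [zw, this, pow_one]
  have hz2 : zw 2 = w ^ 2 := by
    have : (2 : ZMod 3).val = 2 := rfl
    rw [zw, this]
  have hal2 : al 2 = 1 := rfl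
  have hbe20 : be 2 0 = -1 := rfl
  have hbe21 : be 2 1 = -2 := rfl
  have hbe22 : be 2 2 = -3 := rfl
  have hk : k = 0 ∨ k = 1 ∨ k = 2 := by revert k; decide
  rcases hk with rfl | rfl | rfl
  · refine ⟨-1, 0, 2, 1, 0, 0, ?_, ?_, ?_⟩
    · rw [emb_la, hz0, hal2]; push_cast; linear_combination ((1) * w ^ 0) * hw
    · rw [emb_la, hz0, hbe20]; push_cast; linear_combination ((1) * w ^ 0 + (-1) * w ^ 1) * hw
    · rw [emb_la, hz0]; push_cast; linear_combination (0) * hw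
  · refine ⟨0, 0, 2, 2, -1, -1, ?_, ?_, ?_⟩
    · rw [emb_la, hz1, hal2]; push_cast; linear_combination ((1) * w ^ 1) * hw
    · rw [emb_la, hz1, hbe21]; push_cast; linear_combination ((2) * w ^ 0 + (-2) * w ^ 1) * hw
    · rw [emb_la, hz1]; push_cast; linear_combination ((1) * w ^ 0 + (-1) * w ^ 1) * hw
  · refine ⟨0, 0, 2, 1, 1, 1, ?_, ?_, ?_⟩
    · rw [emb_la, hz2, hal2]; push_cast; linear_combination ((1) * w ^ 1 + (-1) * w ^ 2 + (1) * w ^ 3) * hw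
    · rw [emb_la, hz2, hbe22]; push_cast; linear_combination ((3) * w ^ 0 + (-3) * w ^ 1) * hw
    · rw [emb_la, hz2]; push_cast; linear_combination ((-1) * w ^ 0 + (1) * w ^ 1 + (1) * w ^ 2 + (-1) * w ^ 3) * hw

/-! ### rational identities -/

theorem v4os_fac {θ t : ℂ} (hθ : θ = w * emb la) (h3 : 1 - t ≠ 0) :
    1 + w * ((1 + t) / (1 - t)) = -w ^ 2 * ((1 + θ * t) * (1 - t)⁻¹) := by
  have hw : w ^ 2 + w + 1 = 0 := by rw [w2]; ring
  rw [hθ, emb_la]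
  field_simp
  linear_combination (1 - t + 2 * w * t - w ^ 2 * t) * hw

theorem v4os_k0 {s t t2 a b c : ℂ} (h1 : 1 - s ≠ 0) (h2 : 1 + s ≠ 0) (h3 : 1 - t ≠ 0)
    (h4 : 1 - t2 ≠ 0) (h5 : 1 + t2 ≠ 0) :
    ((1 + s) / (1 - s)) ^ 1 * ((a + b * t + c * t ^ 2) / (1 - t) ^ 2) / ((1 + t2) / (1 - t2)) +
      (-1) * ((1 + s) / (1 - s)) ^ 2 * ((a - b * t + c * t ^ 2) / (1 - t) ^ 2)
    = 2 * ((1 + s) * ((1 - s)⁻¹) ^ 2 * ((1 - t)⁻¹) ^ 2 * (1 + t2)⁻¹) *
      (-(s + t2) * (a + c * t ^ 2) + b * t * (1 + s * t2)) := by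
  field_simp
  ring

theorem v4os_k1 {s t t2 a b c : ℂ} (h1 : 1 - s ≠ 0) (h2 : 1 + s ≠ 0) (h3 : 1 - t ≠ 0)
    (h4 : 1 - t2 ≠ 0) (h5 : 1 + t2 ≠ 0) :
    ((1 + s) / (1 - s)) ^ 2 * ((a + b * t + c * t ^ 2) / (1 - t) ^ 2) / ((1 + t2) / (1 - t2)) +
      (-1) * ((1 + s) / (1 - s)) ^ 0 * ((a - b * t + c * t ^ 2) / (1 - t) ^ 2)
    = 2 * (((1 - s)⁻¹) ^ 2 * ((1 - t)⁻¹) ^ 2 * (1 + t2)⁻¹) *
      ((a + c * t ^ 2) * (2 * s - t2 * (1 + s ^ 2)) + b * t * (1 + s ^ 2 - 2 * s * t2)) := by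
  field_simp
  ring

theorem v4os_k2 {s t t2 a b c : ℂ} (h1 : 1 - s ≠ 0) (h2 : 1 + s ≠ 0) (h3 : 1 - t ≠ 0)
    (h4 : 1 - t2 ≠ 0) (h5 : 1 + t2 ≠ 0) :
    ((1 + s) / (1 - s)) ^ 0 * ((a + b * t + c * t ^ 2) / (1 - t) ^ 2) / ((1 + t2) / (1 - t2)) +
      (-1) * ((1 + s) / (1 - s)) ^ 1 * ((a - b * t + c * t ^ 2) / (1 - t) ^ 2)
    = 2 * ((1 - s)⁻¹ * ((1 - t)⁻¹) ^ 2 * (1 + t2)⁻¹) *
      (-(s + t2) * (a + c * t ^ 2) + b * t * (1 + s * t2)) := by
  field_simp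
  ring

theorem v4os_P (i k : ZMod 3) : ∃ a b c a' b' c' : ℂ,
    (∀ A : ValuationSubring ℂ, A.valuation a' ≤ 1 ∧ A.valuation b' ≤ 1 ∧ A.valuation c' ≤ 1) ∧
    a = emb la * (al i : ℂ) + emb la ^ 2 * a' ∧ b = emb la * (be i k : ℂ) + emb la ^ 2 * b' ∧
    c = 1 + emb la * c' ∧
    ∀ t : ℂ, 1 - t ≠ 0 → P1 2 i k ((1 + t) / (1 - t)) = (a + b * t + c * t ^ 2) / (1 - t) ^ 2 ∧
      P2 2 i k ((1 + t) / (1 - t)) = (a - b * t + c * t ^ 2) / (1 - t) ^ 2 := by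
  have hint : ∀ (A : ValuationSubring ℂ) (m n : ℤ), A.valuation ((m : ℂ) + (n : ℂ) * w) ≤ 1 := by
    intro A m n
    have e : (m : ℂ) + (n : ℂ) * w = emb ((m : Eis) + (n : Eis) * om) := by
      rw [map_add, map_mul, CUL.emb_om, map_intCast, map_intCast]
    rw [e]
    exact w_emb_le A _
  have hi : i = 0 ∨ i = 1 ∨ i = 2 := by revert i; decide
  have d1 : ¬ ((2 : ZMod 3) = 1) := by decide
  have d2 : ¬ ((0 : ZMod 3) = 2) := by decide
  have d3 : ¬ ((1 : ZMod 3) = 2) := by decide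
  have d4 : ¬ ((1 : ZMod 3) = 0) := by decide
  rcases hi with rfl | rfl | rfl
  · obtain ⟨a0, a1, b0, b1, c0, c1, ha, hb, hc⟩ := v4os_abc0 k
    refine ⟨_, _, _, _, _, _, fun A => ⟨hint A a0 a1, hint A b0 b1, hint A c0 c1⟩, ha, hb, hc, ?_⟩
    intro t ht
    simp only [P1, P2, if_neg d1, if_neg d2, if_true]
    constructor <;> (field_simp; ring)
  · obtain ⟨a0, a1, b0, b1, c0, c1, ha, hb, hc⟩ := v4os_abc1 k
    refine ⟨_, _, _, _, _, _, fun A => ⟨hint A a0 a1, hint A b0 b1, hint A c0 c1⟩, ha, hb, hc, ?_⟩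
    intro t ht
    simp only [P1, P2, if_neg d1, if_neg d3, if_neg d4]
    constructor <;> (field_simp; ring)
  · obtain ⟨a0, a1, b0, b1, c0, c1, ha, hb, hc⟩ := v4os_abc2 k
    refine ⟨_, _, _, _, _, _, fun A => ⟨hint A a0 a1, hint A b0 b1, hint A c0 c1⟩, ha, hb, hc, ?_⟩
    intro t ht
    simp only [P1, P2, if_neg d1, if_true]
    constructor <;> (field_simp; ring)

/-! ### congruences -/

section val

variable (A : ValuationSubring ℂ) {q : A.ValueGroup}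

theorem v4os_one_val (hq : q < 1) {y : ℂ} (h : A.valuation (y - 1) ≤ q) : A.valuation y = 1 := by
  have e : y = 1 + (y - 1) := by ring
  rw [e, Valuation.map_add_eq_of_lt_left _ (by rw [map_one]; exact lt_of_le_of_lt h hq), map_one]

theorem v4os_one_mul (hq : q < 1) {y y' : ℂ} (h : A.valuation (y - 1) ≤ q) (h' : A.valuation (y' - 1) ≤ q) :
    A.valuation (y * y' - 1) ≤ q := by
  have e : y * y' - 1 = (y - 1) * y' + (y' - 1) := by ring
  rw [e]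
  refine Valuation.map_add_le _ ?_ h'
  rw [map_mul, v4os_one_val A hq h', mul_one]
  exact h

theorem v4os_one_inv (hq : q < 1) {y : ℂ} (h : A.valuation (y - 1) ≤ q) : A.valuation (y⁻¹ - 1) ≤ q := by
  have hv := v4os_one_val A hq h
  have hy : y ≠ 0 := by
    rintro rfl
    rw [map_zero] at hv
    exact zero_ne_one hv
  have e : y⁻¹ - 1 = -((y - 1) * y⁻¹) := by field_simp; ring
  rw [e, Valuation.map_neg, map_mul, map_inv₀, hv, inv_one, mul_one]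
  exact h

theorem v4os_fin {K W Y Y0 : ℂ} (hq : q < 1) (hK : A.valuation K ≤ 1) (hW : A.valuation (W - 1) ≤ q)
    (hY : A.valuation (Y - Y0) ≤ q ^ 4) (h0 : A.valuation Y0 ≤ q ^ 3) :
    A.valuation (K * W * Y - K * Y0) ≤ q ^ 4 := by
  have e : K * W * Y - K * Y0 = K * (W * (Y - Y0) + (W - 1) * Y0) := by ring
  rw [e, map_mul]
  refine (mul_le_mul' hK (Valuation.map_add_le _ ?_ ?_)).trans (by rw [one_mul])
  · rw [map_mul, v4os_one_val A hq hW, one_mul]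
    exact hY
  · rw [map_mul, pow_succ' q 3]
    exact mul_le_mul' hW h0

theorem v4os_Y0 {s t t2 L : ℂ} (m n : ℤ) (hL : A.valuation L ≤ q ^ 2) (hs : A.valuation s ≤ q)
    (ht : A.valuation t ≤ q) (ht2 : A.valuation t2 ≤ q) :
    A.valuation (-((s + t2) * (L * (m : ℂ) + t ^ 2)) + L * (n : ℂ) * t) ≤ q ^ 3 := by
  have vi : ∀ n : ℤ, A.valuation (n : ℂ) ≤ 1 := fun n =>
    (A.valuation_le_one_iff _).2 (intCast_mem A n)
  refine Valuation.map_add_le _ ?_ ?_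
  · rw [Valuation.map_neg, map_mul, pow_succ' q 2]
    refine mul_le_mul' (Valuation.map_add_le _ hs ht2) (Valuation.map_add_le _ ?_ ?_)
    · rw [map_mul]
      exact (mul_le_mul' hL (vi m)).trans (by rw [mul_one])
    · rw [map_pow]
      exact pow_le_pow_left' ht 2
  · rw [map_mul, map_mul, pow_succ q 2]
    exact mul_le_mul' ((mul_le_mul' hL (vi n)).trans (by rw [mul_one])) ht

theorem v4os_Y {s t t2 L a b c a' b' c' : ℂ} (m n : ℤ) (hq : q < 1) (hL : A.valuation L ≤ q ^ 2)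
    (hs : A.valuation s ≤ q) (ht : A.valuation t ≤ q) (ht2 : A.valuation t2 ≤ q)
    (ha' : A.valuation a' ≤ 1) (hb' : A.valuation b' ≤ 1) (hc' : A.valuation c' ≤ 1)
    (ha : a = L * (m : ℂ) + L ^ 2 * a') (hb : b = L * (n : ℂ) + L ^ 2 * b') (hc : c = 1 + L * c') :
    A.valuation ((-(s + t2) * (a + c * t ^ 2) + b * t * (1 + s * t2)) -
      (-((s + t2) * (L * (m : ℂ) + t ^ 2)) + L * (n : ℂ) * t)) ≤ q ^ 4 := by
  have hq1 : q ≤ 1 := hq.le
  have hst : A.valuation (s + t2) ≤ q := Valuation.map_add_le _ hs ht2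
  have hs1 : A.valuation s ≤ 1 := hs.trans hq1
  have ht1 : A.valuation t ≤ 1 := ht.trans hq1
  have ht21 : A.valuation t2 ≤ 1 := ht2.trans hq1
  have vi : ∀ n : ℤ, A.valuation (n : ℂ) ≤ 1 := fun n =>
    (A.valuation_le_one_iff _).2 (intCast_mem A n)
  have hLL : A.valuation (L ^ 2) ≤ q ^ 4 := by
    rw [map_pow, show q ^ 4 = (q ^ 2) ^ 2 by rw [← pow_mul]]
    exact pow_le_pow_left' hL 2
  have htt : A.valuation (t ^ 2) ≤ q ^ 2 := by
    rw [map_pow]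
    exact pow_le_pow_left' ht 2
  have hb1 : A.valuation (L * (n : ℂ) + L ^ 2 * b') ≤ q ^ 2 := by
    refine Valuation.map_add_le _ ?_ ?_
    · rw [map_mul]
      exact (mul_le_mul' hL (vi n)).trans (by rw [mul_one])
    · rw [map_mul]
      have hq42 : q ^ 4 ≤ q ^ 2 := pow_le_pow_right_of_le_one' hq1 (by norm_num)
      exact (mul_le_mul' (hLL.trans hq42) hb').trans (by rw [mul_one])
  have e : (-(s + t2) * (a + c * t ^ 2) + b * t * (1 + s * t2)) -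
      (-((s + t2) * (L * (m : ℂ) + t ^ 2)) + L * (n : ℂ) * t) =
      -((s + t2) * (L ^ 2 * a' + L * c' * t ^ 2)) + (L ^ 2 * b' * t + (L * (n : ℂ) + L ^ 2 * b') * (t * (s * t2))) := by
    rw [ha, hb, hc]
    ring
  rw [e]
  refine Valuation.map_add_le _ ?_ (Valuation.map_add_le _ ?_ ?_)
  · rw [Valuation.map_neg, map_mul, ← one_mul (q ^ 4)]
    refine mul_le_mul' (hst.trans hq1) (Valuation.map_add_le _ ?_ ?_)
    · rw [map_mul]
      exact (mul_le_mul' hLL ha').trans (by rw [mul_one])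
    · rw [map_mul, map_mul, show q ^ 4 = q ^ 2 * 1 * q ^ 2 by rw [mul_one, ← pow_add]]
      exact mul_le_mul' (mul_le_mul' hL hc') htt
  · rw [map_mul, map_mul, show q ^ 4 = q ^ 4 * 1 * 1 by rw [mul_one, mul_one]]
    exact mul_le_mul' (mul_le_mul' hLL hb') ht1
  · rw [map_mul, map_mul, map_mul, show q ^ 4 = q ^ 2 * (q * (1 * q)) by rw [one_mul, ← pow_two, ← pow_add]]
    exact mul_le_mul' hb1 (mul_le_mul' ht (mul_le_mul' hs1 ht2))

theorem v4os_Y1 {s t t2 L a b c a' b' c' : ℂ} (m n : ℤ) (hq : q < 1) (hL : A.valuation L ≤ q ^ 2)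
    (h3 : A.valuation 3 ≤ q ^ 4)
    (hs : A.valuation s ≤ q) (ht : A.valuation t ≤ q) (ht2 : A.valuation t2 ≤ q)
    (ha' : A.valuation a' ≤ 1) (hb' : A.valuation b' ≤ 1) (hc' : A.valuation c' ≤ 1)
    (ha : a = L * (m : ℂ) + L ^ 2 * a') (hb : b = L * (n : ℂ) + L ^ 2 * b') (hc : c = 1 + L * c') :
    A.valuation (((a + c * t ^ 2) * (2 * s - t2 * (1 + s ^ 2)) + b * t * (1 + s ^ 2 - 2 * s * t2)) -
      (-((s + t2) * (L * (m : ℂ) + t ^ 2)) + L * (n : ℂ) * t)) ≤ q ^ 4 := by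
  have hq1 : q ≤ 1 := hq.le
  have hst : A.valuation (s + t2) ≤ q := Valuation.map_add_le _ hs ht2
  have hs1 : A.valuation s ≤ 1 := hs.trans hq1
  have ht1 : A.valuation t ≤ 1 := ht.trans hq1
  have ht21 : A.valuation t2 ≤ 1 := ht2.trans hq1
  have vi : ∀ n : ℤ, A.valuation (n : ℂ) ≤ 1 := fun n =>
    (A.valuation_le_one_iff _).2 (intCast_mem A n)
  have hLL : A.valuation (L ^ 2) ≤ q ^ 4 := by
    rw [map_pow, show q ^ 4 = (q ^ 2) ^ 2 by rw [← pow_mul]]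
    exact pow_le_pow_left' hL 2
  have htt : A.valuation (t ^ 2) ≤ q ^ 2 := by
    rw [map_pow]
    exact pow_le_pow_left' ht 2
  have hss : A.valuation (s ^ 2) ≤ q ^ 2 := by
    rw [map_pow]
    exact pow_le_pow_left' hs 2
  have hq42 : q ^ 4 ≤ q ^ 2 := pow_le_pow_right_of_le_one' hq1 (by norm_num)
  have hb1 : A.valuation (L * (n : ℂ) + L ^ 2 * b') ≤ q ^ 2 := by
    refine Valuation.map_add_le _ ?_ ?_
    · rw [map_mul]
      exact (mul_le_mul' hL (vi n)).trans (by rw [mul_one])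
    · rw [map_mul]
      exact (mul_le_mul' (hLL.trans hq42) hb').trans (by rw [mul_one])
  have hac : A.valuation (L * (m : ℂ) + L ^ 2 * a' + (t ^ 2 + L * c' * t ^ 2)) ≤ q ^ 2 := by
    refine Valuation.map_add_le _ (Valuation.map_add_le _ ?_ ?_) (Valuation.map_add_le _ htt ?_)
    · rw [map_mul]
      exact (mul_le_mul' hL (vi m)).trans (by rw [mul_one])
    · rw [map_mul]
      exact (mul_le_mul' (hLL.trans hq42) ha').trans (by rw [mul_one])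
    · rw [map_mul, map_mul, show q ^ 2 = q ^ 2 * 1 * 1 by rw [mul_one, mul_one]]
      exact mul_le_mul' (mul_le_mul' hL hc') (htt.trans (pow_le_one' hq1 2))
  have e : ((a + c * t ^ 2) * (2 * s - t2 * (1 + s ^ 2)) + b * t * (1 + s ^ 2 - 2 * s * t2)) -
      (-((s + t2) * (L * (m : ℂ) + t ^ 2)) + L * (n : ℂ) * t) =
      (L * (m : ℂ) + L ^ 2 * a' + (t ^ 2 + L * c' * t ^ 2)) * (3 * s - t2 * s ^ 2) +
      (-((s + t2) * (L ^ 2 * a' + L * c' * t ^ 2)) + (L ^ 2 * b' * t +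
        (L * (n : ℂ) + L ^ 2 * b') * (t * (s * (s - 2 * t2))))) := by
    rw [ha, hb, hc]
    ring
  rw [e]
  refine Valuation.map_add_le _ ?_ (Valuation.map_add_le _ ?_ (Valuation.map_add_le _ ?_ ?_))
  · rw [map_mul, show q ^ 4 = q ^ 2 * q ^ 2 by rw [← pow_add]]
    refine mul_le_mul' hac (Valuation.map_sub_le _ ?_ ?_)
    · rw [map_mul]
      exact (mul_le_mul' (h3.trans hq42) hs1).trans (by rw [mul_one])
    · rw [map_mul]
      exact (mul_le_mul' ht21 hss).trans (by rw [one_mul])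
  · rw [Valuation.map_neg, map_mul, ← one_mul (q ^ 4)]
    refine mul_le_mul' (hst.trans hq1) (Valuation.map_add_le _ ?_ ?_)
    · rw [map_mul]
      exact (mul_le_mul' hLL ha').trans (by rw [mul_one])
    · rw [map_mul, map_mul, show q ^ 4 = q ^ 2 * 1 * q ^ 2 by rw [mul_one, ← pow_add]]
      exact mul_le_mul' (mul_le_mul' hL hc') htt
  · rw [map_mul, map_mul, show q ^ 4 = q ^ 4 * 1 * 1 by rw [mul_one, mul_one]]
    exact mul_le_mul' (mul_le_mul' hLL hb') ht1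
  · rw [map_mul, map_mul, map_mul, show q ^ 4 = q ^ 2 * (q * (q * 1)) by rw [mul_one, ← pow_two, ← pow_add]]
    refine mul_le_mul' hb1 (mul_le_mul' ht (mul_le_mul' hs (Valuation.map_sub_le _ hs1 ?_)))
    have v2 : A.valuation (2 : ℂ) ≤ 1 := by
      simpa using vi 2
    rw [map_mul]
    exact (mul_le_mul' v2 ht21).trans (by rw [mul_one])

end val

end

theorem S4_two (A : ValuationSubring ℂ) (hA : A.valuation 3 < 1) (i k : ZMod 3) {z : ℂ} (hz : OT z) :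
    A.valuation (S4 (-1) 2 i k z - kap2 k * (-((Tm z + Tm (emb la ^ 2 * z)) * (emb la * (al i : ℂ) + Tm (emb la * z) ^ 2)) +
      emb la * (be i k : ℂ) * Tm (emb la * z))) ≤ A.valuation (emb la) ^ 2 := by
  obtain ⟨l, hl⟩ := IsAlgClosed.exists_pow_nat_eq (emb la) (n := 2) (by norm_num)
  have hla : A.valuation (emb la) = A.valuation l ^ 2 := by rw [← hl, map_pow]
  have hla1 : A.valuation (emb la) < 1 := CUL.w_la_lt A hA
  have h3 : A.valuation 3 = A.valuation l ^ 4 := by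
    rw [← CUL.w_la A hA, hla, ← pow_mul]
  set q := A.valuation l with hqdef
  have hq : q < 1 := by
    rw [hla] at hla1
    by_contra hc
    push Not at hc
    exact absurd hla1 (not_lt.2 (one_le_pow_of_one_le' hc 2))
  have hz1 : OT (emb la * z) := CUL.u7_la_mul hz
  have hz2 : OT (emb la ^ 2 * z) := by
    have := CUL.u7_la_mul hz1
    rwa [← mul_assoc, ← pow_two] at this
  have hTq : ∀ y : ℂ, OT y → A.valuation (Tm y) ≤ q := by
    intro y hy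
    have := Tm_val A hA hy
    rw [hla] at this
    exact (pow_le_pow_iff_left₀ zero_le zero_le two_ne_zero).1 this
  have vs := hTq z hz
  have vt := hTq _ hz1
  have vt2 := hTq _ hz2
  have hS : S4 (-1) 2 i k z = (xm z * (1 + Um z)) ^ k.val * (1 + w * Um (emb la * z)) * (1 + w * Um (emb la ^ 2 * z)) *
      (Um z ^ (2 - e1 k 2) * P1 2 i k (Um (emb la * z)) / Um (emb la ^ 2 * z) +
      (-1) * Um z ^ e2 k 2 * P2 2 i k (Um (emb la * z))) := rfl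
  rw [hS, Um_eq z, Um_eq (emb la * z), Um_eq (emb la ^ 2 * z)]
  have hx : A.valuation (-xm z - 1) ≤ q := by
    have e : -xm z - 1 = -(w * (xw z + zw 2)) := by
      have h2 : zw 2 = w ^ 2 := by
        have : (2 : ZMod 3).val = 2 := rfl
        rw [zw, this]
      rw [h2, xm]
      linear_combination CUL.w3
    rw [e, Valuation.map_neg, map_mul, CUL.w_w A, one_mul]
    have h4 : A.valuation (xw z + zw 2) ^ 3 ≤ q ^ 3 := by
      rw [CUL.w_xk A hA hz 2, h3]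
      exact pow_le_pow_right_of_le_one' hq.le (by norm_num)
    exact (pow_le_pow_iff_left₀ zero_le zero_le three_ne_zero).1 h4
  have vth : A.valuation th ≤ 1 := by
    rw [th_eq, map_mul, CUL.w_w A, one_mul]
    exact hla1.le
  have vK : ∀ n : ℤ, A.valuation ((n : ℂ) * w) ≤ 1 := by
    intro n
    rw [map_mul, CUL.w_w A, mul_one]
    exact (A.valuation_le_one_iff _).2 (intCast_mem A n)
  have hnz : ∀ y : ℂ, A.valuation (y - 1) ≤ q → y ≠ 0 := by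
    intro y hy h0
    have := v4os_one_val A hq hy
    rw [h0, map_zero] at this
    exact zero_ne_one this
  obtain ⟨a, b, c, a', b', c', hv, ha, hb, hc, hP⟩ := v4os_P i k
  obtain ⟨va', vb', vc'⟩ := hv A
  rw [hla, ← pow_mul]
  generalize Tm z = s at vs ⊢
  generalize Tm (emb la * z) = t at vt ⊢
  generalize Tm (emb la ^ 2 * z) = t2 at vt2 ⊢
  generalize xm z = x at hx ⊢
  have o1 : A.valuation ((1 - s) - 1) ≤ q := by
    rw [show (1 - s) - 1 = -s by ring, Valuation.map_neg]; exact vs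
  have o2 : A.valuation ((1 + s) - 1) ≤ q := by
    rw [show (1 + s) - 1 = s by ring]; exact vs
  have o3 : A.valuation ((1 - t) - 1) ≤ q := by
    rw [show (1 - t) - 1 = -t by ring, Valuation.map_neg]; exact vt
  have o4 : A.valuation ((1 - t2) - 1) ≤ q := by
    rw [show (1 - t2) - 1 = -t2 by ring, Valuation.map_neg]; exact vt2
  have o5 : A.valuation ((1 + t2) - 1) ≤ q := by
    rw [show (1 + t2) - 1 = t2 by ring]; exact vt2
  have o6 : A.valuation ((1 + th * t) - 1) ≤ q := by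
    rw [show (1 + th * t) - 1 = th * t by ring, map_mul]
    exact (mul_le_mul' vth vt).trans (by rw [one_mul])
  have o7 : A.valuation ((1 + th * t2) - 1) ≤ q := by
    rw [show (1 + th * t2) - 1 = th * t2 by ring, map_mul]
    exact (mul_le_mul' vth vt2).trans (by rw [one_mul])
  have n1 := hnz _ o1
  have n2 := hnz _ o2
  have n3 := hnz _ o3
  have n4 := hnz _ o4
  have n5 := hnz _ o5
  rw [(hP t n3).1, (hP t n3).2, v4os_fac th_eq n3, v4os_fac th_eq n4]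
  have i1 := v4os_one_inv A hq o1
  have i3 := v4os_one_inv A hq o3
  have i4 := v4os_one_inv A hq o4
  have i5 := v4os_one_inv A hq o5
  have oc : A.valuation ((1 + th * t) * (1 - t)⁻¹ * ((1 + th * t2) * (1 - t2)⁻¹) - 1) ≤ q :=
    v4os_one_mul A hq (v4os_one_mul A hq o6 i3) (v4os_one_mul A hq o7 i4)
  have hw4 : (w : ℂ) ^ 2 * w ^ 2 = w := by linear_combination w * CUL.w3
  have hq3 : A.valuation (3 : ℂ) ≤ q ^ 4 := h3.le
  have hL2 : A.valuation (emb la) ≤ q ^ 2 := hla.le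
  have hY0 := v4os_Y0 A (al i) (be i k) hL2 vs vt vt2
  have hk3 : ∀ k : ZMod 3, k = 0 ∨ k = 1 ∨ k = 2 := by decide
  rcases hk3 k with rfl | rfl | rfl
  · have he1 : 2 - e1 0 2 = 1 := rfl
    have he2 : e2 0 2 = 2 := rfl
    have hkv : (0 : ZMod 3).val = 0 := rfl
    have hkap : kap2 0 = ((2 : ℤ) : ℂ) * w := by simp [kap2]
    rw [he1, he2, hkv, v4os_k0 n1 n2 n3 n4 n5, hkap]
    have hY := v4os_Y A (al i) (be i 0) hq hL2 vs vt vt2 va' vb' vc' ha hb hc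
    have hW : A.valuation (((1 + th * t) * (1 - t)⁻¹ * ((1 + th * t2) * (1 - t2)⁻¹)) *
        ((1 + s) * ((1 - s)⁻¹ * (1 - s)⁻¹) * ((1 - t)⁻¹ * (1 - t)⁻¹) * (1 + t2)⁻¹) - 1) ≤ q :=
      v4os_one_mul A hq oc (v4os_one_mul A hq (v4os_one_mul A hq (v4os_one_mul A hq o2
        (v4os_one_mul A hq i1 i1)) (v4os_one_mul A hq i3 i3)) i5)
    have hf := v4os_fin A hq (vK 2) hW hY hY0
    refine le_of_eq_of_le ?_ hf
    congr 1
    congr 1
    generalize (1 - s)⁻¹ = u1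
    generalize (1 - t)⁻¹ = u3
    generalize (1 - t2)⁻¹ = u4
    generalize (1 + t2)⁻¹ = u5
    push_cast
    linear_combination (2 * ((1 + th * t) * u3 * ((1 + th * t2) * u4)) * ((1 + s) * (u1 * u1) * (u3 * u3) * u5) *
      (-(s + t2) * (a + c * t ^ 2) + b * t * (1 + s * t2))) * hw4
  · have he1 : 2 - e1 1 2 = 2 := rfl
    have he2 : e2 1 2 = 0 := rfl
    have hkv : (1 : ZMod 3).val = 1 := rfl
    have hkap : kap2 1 = ((-4 : ℤ) : ℂ) * w := by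
      rw [kap2, if_neg (by decide), if_pos rfl]; push_cast; ring
    rw [he1, he2, hkv, v4os_k1 n1 n2 n3 n4 n5, hkap]
    have hY := v4os_Y1 A (al i) (be i 1) hq hL2 hq3 vs vt vt2 va' vb' vc' ha hb hc
    have hW : A.valuation (((1 + th * t) * (1 - t)⁻¹ * ((1 + th * t2) * (1 - t2)⁻¹)) *
        (-x * (1 - s)⁻¹ * (((1 - s)⁻¹ * (1 - s)⁻¹) * ((1 - t)⁻¹ * (1 - t)⁻¹) * (1 + t2)⁻¹)) - 1) ≤ q :=
      v4os_one_mul A hq oc (v4os_one_mul A hq (v4os_one_mul A hq hx i1)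
        (v4os_one_mul A hq (v4os_one_mul A hq (v4os_one_mul A hq i1 i1) (v4os_one_mul A hq i3 i3)) i5))
    have hf := v4os_fin A hq (vK (-4)) hW hY hY0
    refine le_of_eq_of_le ?_ hf
    congr 1
    congr 1
    have hx2 : x * (1 + (1 + s) / (1 - s)) = 2 * x * (1 - s)⁻¹ := by
      field_simp
      ring
    rw [hx2]
    generalize (1 - s)⁻¹ = u1
    generalize (1 - t)⁻¹ = u3
    generalize (1 - t2)⁻¹ = u4
    generalize (1 + t2)⁻¹ = u5
    push_cast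
    linear_combination (4 * x * u1 * ((1 + th * t) * u3 * ((1 + th * t2) * u4)) * ((u1 * u1) * (u3 * u3) * u5) *
      ((a + c * t ^ 2) * (2 * s - t2 * (1 + s ^ 2)) + b * t * (1 + s ^ 2 - 2 * s * t2))) * hw4
  · have he1 : 2 - e1 2 2 = 0 := rfl
    have he2 : e2 2 2 = 1 := rfl
    have hkv : (2 : ZMod 3).val = 2 := rfl
    have hkap : kap2 2 = ((8 : ℤ) : ℂ) * w := by
      rw [kap2, if_neg (by decide), if_neg (by decide)]; push_cast; ring
    rw [he1, he2, hkv, v4os_k2 n1 n2 n3 n4 n5, hkap]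
    have hY := v4os_Y A (al i) (be i 2) hq hL2 vs vt vt2 va' vb' vc' ha hb hc
    have hW : A.valuation (((1 + th * t) * (1 - t)⁻¹ * ((1 + th * t2) * (1 - t2)⁻¹)) *
        ((-x * (1 - s)⁻¹) * (-x * (1 - s)⁻¹) * ((1 - s)⁻¹ * ((1 - t)⁻¹ * (1 - t)⁻¹) * (1 + t2)⁻¹)) - 1) ≤ q :=
      v4os_one_mul A hq oc (v4os_one_mul A hq (v4os_one_mul A hq (v4os_one_mul A hq hx i1) (v4os_one_mul A hq hx i1))
        (v4os_one_mul A hq (v4os_one_mul A hq i1 (v4os_one_mul A hq i3 i3)) i5))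
    have hf := v4os_fin A hq (vK 8) hW hY hY0
    refine le_of_eq_of_le ?_ hf
    congr 1
    congr 1
    have hx2 : x * (1 + (1 + s) / (1 - s)) = 2 * x * (1 - s)⁻¹ := by
      field_simp
      ring
    rw [hx2]
    generalize (1 - s)⁻¹ = u1
    generalize (1 - t)⁻¹ = u3
    generalize (1 - t2)⁻¹ = u4
    generalize (1 + t2)⁻¹ = u5
    push_cast
    linear_combination (8 * x ^ 2 * u1 ^ 2 * ((1 + th * t) * u3 * ((1 + th * t2) * u4)) * (u1 * (u3 * u3) * u5) *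
      (-(s + t2) * (a + c * t ^ 2) + b * t * (1 + s * t2))) * hw4

end JGL
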