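import Pool.Agent.JGL.V4oK
import Pool.Agent.JGL.V4oS
import Pool.Agent.JGL.V4oO
import Pool.Agent.JGL.G
import Pool.Agent.JGL.B

/-!
# [JGL-V4oZ] `ep = 1`, `n = 4`, `v = 1`: assembly
-/

set_option autoImplicit false

open NumberField IsDedekindDomain Filter Topology
open scoped Classical ComplexConjugate

namespace JGL

open CM27 JZ
open CU (la eE)
open CUL (Nl ez si ta DS Cont LV IsRep rp cr mn mo zw OT GalU W3 W9)
open JL (N1 KD sD Psi6)

section aux

variable (A : ValuationSubring ℂ)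

theorem z_le (x : A) : A.valuation (x : ℂ) ≤ 1 := (ValuationSubring.valuation_le_one_iff A _).2 x.2

theorem z_lift {x : ℂ} (h : A.valuation x ≤ 1) : ∃ y : A, (y : ℂ) = x :=
  ⟨⟨x, (ValuationSubring.valuation_le_one_iff A _).1 h⟩, rfl⟩

/-- elements of valuation one are units -/
theorem z_inv {x : A} (h : A.valuation (x : ℂ) = 1) : ∃ y : A, x * y = 1 := by
  have h0 : (x : ℂ) ≠ 0 := by
    intro h1
    rw [h1, map_zero] at h
    exact zero_ne_one h
  obtain ⟨y, hy⟩ := z_lift A (x := (x : ℂ)⁻¹) (by rw [map_inv₀, h, inv_one])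
  refine ⟨y, Subtype.ext ?_⟩
  push_cast
  rw [hy, mul_inv_cancel₀ h0]

theorem z_unit {x y : A} (h : x * y = 1) : A.valuation (x : ℂ) = 1 := by
  have h1 : A.valuation (x : ℂ) * A.valuation (y : ℂ) = 1 := by
    rw [← map_mul]
    have := congrArg (Subtype.val) h
    push_cast at this
    rw [this, map_one]
  refine le_antisymm (z_le A x) ?_
  by_contra hc
  push Not at hc
  have h2 : A.valuation (x : ℂ) * A.valuation (y : ℂ) < 1 := by
    calc A.valuation (x : ℂ) * A.valuation (y : ℂ) ≤ A.valuation (x : ℂ) * 1 := mul_le_mul' le_rfl (z_le A y)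
      _ < 1 := by rw [mul_one]; exact hc
  rw [h1] at h2
  exact lt_irrefl _ h2

/-- divisibility in `A` -/
theorem z_dvd {x y : A} (h : A.valuation (y : ℂ) ≤ A.valuation (x : ℂ)) (hx : x ≠ 0) : ∃ z : A, y = x * z := by
  have h0 : (x : ℂ) ≠ 0 := by
    intro h1
    exact hx (Subtype.ext h1)
  obtain ⟨z, hz⟩ := z_lift A (x := (y : ℂ) / (x : ℂ)) (by
    rw [map_div₀]
    exact div_le_one_of_le₀ h zero_le)
  refine ⟨z, Subtype.ext ?_⟩
  push_cast
  rw [hz]
  field_simp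

theorem z_num (n : ℕ) [n.AtLeastTwo] : ((OfNat.ofNat n : A) : ℂ) = OfNat.ofNat n :=
  map_ofNat A.subtype n

end aux

/-- The digits for `v = 1`. -/
theorem digits4 (A : ValuationSubring ℂ) (hA : A.valuation 3 < 1) (D : Rg A) (hl : ((D.l : A) : ℂ) ^ 2 = emb la)
    (ho : ((D.o : A) : ℂ) = w) {η : ℤ} (hη : η = 1 ∨ η = -1) {i : ℕ} (hi : i < 3) {Ds : Eis} (hDs : Primary Ds)
    {r u₂ : ℂ} (hr : r ^ 2 = emb ((η : Eis) * CU.om ^ i * la * Ds)) (hu₂ : u₂ ∈ CF.KK) {c : ℤ}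
    (hc : (3 : ℤ) ∣ c - (-η * (-(i : ℤ) ^ 2 - i + (Ds.re - 1 + Ds.im) / 3) - 1 + i))
    {Sg M X g1 g2 : A} (hMr : ((D.l * M : A) : ℂ) / r ∈ CF.KK)
    (h24 : 24 * (D.l ^ 3 * X) = (D.l * M) * (3 + D.th * ((-η : ℤ) : A) - 8 * (D.l * M) ^ 2))
    (h1 : 72 * (D.th ^ 2 * Sg) = 8 * (D.l * M) ^ 9 + 24 * (D.l ^ 3 * X) ^ 3 + 18 * (5 + D.th * ((-η : ℤ) : A)) * (D.l * M) +
      72 * (D.th ^ 2 * D.l ^ 2 * (c : A)) * (D.l * M) + D.l ^ 17 * g1)
    (h2 : (5 * (2 * (u₂ * r)) : ℂ) = ((2 * (10 * (D.l * M) + 10 * (D.l * M) ^ 3 + 8 * (D.l * M) ^ 5 +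
      10 * (D.l ^ 3 * X) + 20 * (D.l * M) ^ 2 * (D.l ^ 3 * X)) + D.l ^ 7 * g2 : A) : ℂ)) :
    ∃ (q g : A) (κ : ℤ), A.valuation (q : ℂ) = 1 ∧ 4096 * Sg = D.l ^ 3 * (q * (κ : A) + D.l ^ 2 * g) ∧
      (Ln1 A η (-η * i) u₂ ↔ (3 : ℤ) ∣ κ) := by
  have hla := CUL.w_la_lt A hA
  have hl0' : ((D.l : A) : ℂ) ≠ 0 := by
    intro h
    rw [h, zero_pow two_ne_zero] at hl
    exact CUL.la_ne hl.symm
  have hl0 : D.l ≠ 0 := by
    intro h
    apply hl0'
    rw [h]; rfl
  have vl : A.valuation ((D.l : A) : ℂ) ^ 2 = A.valuation (emb la) := by rw [← map_pow, hl]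
  have vl1 : A.valuation ((D.l : A) : ℂ) < 1 := by
    by_contra hc
    push Not at hc
    have := one_le_pow₀ hc (n := 2)
    rw [vl] at this
    exact absurd hla (not_lt.2 this)
  have hz : ∀ n : ℤ, D.l ∣ ((n : ℤ) : A) → (3 : ℤ) ∣ n := by
    rintro n ⟨k, hk⟩
    by_contra h3
    have h4 := CUL.w_int_unit A hA n h3
    have h5 : ((n : ℤ) : ℂ) = ((D.l : A) : ℂ) * (k : ℂ) := by
      have := congrArg Subtype.val hk
      push_cast at this
      exact this
    rw [h5, map_mul] at h4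
    have h6 : A.valuation ((D.l : A) : ℂ) * A.valuation (k : ℂ) < 1 := by
      calc A.valuation ((D.l : A) : ℂ) * A.valuation (k : ℂ) ≤ A.valuation ((D.l : A) : ℂ) * 1 :=
            mul_le_mul' le_rfl (z_le A k)
        _ < 1 := by rw [mul_one]; exact vl1
    exact absurd h4 h6.ne
  -- `Ds`
  obtain ⟨p1, p2⟩ := (primary_iff Ds).1 hDs
  obtain ⟨N, n, hN, hNn⟩ : ∃ N n : ℤ, N = (Ds.re - 1 + Ds.im) / 3 ∧ emb Ds = 1 + 3 * ((N : ℂ) + emb la * (n : ℂ)) := by
    refine ⟨(Ds.re - 1 + Ds.im) / 3, -(Ds.im / 3), rfl, ?_⟩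
    obtain ⟨a', ha'⟩ : ∃ a' : ℤ, Ds.re = 1 + 3 * a' := ⟨(Ds.re - 1) / 3, by omega⟩
    obtain ⟨b', hb'⟩ : ∃ b' : ℤ, Ds.im = 3 * b' := ⟨Ds.im / 3, by omega⟩
    have e1 : (Ds.re - 1 + Ds.im) / 3 = a' + b' := by omega
    have e2 : Ds.im / 3 = b' := by omega
    rw [e1, e2, emb_apply, ha', hb', CUL.emb_la]
    push_cast
    ring
  rw [← hN] at hc
  -- `r = l r₁`
  have hrr : (r / ((D.l : A) : ℂ)) ^ 2 = (η : ℂ) * w ^ i * emb Ds := by
    rw [div_pow, hr, hl, map_mul, map_mul, map_mul, map_intCast, map_pow, CUL.emb_om]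
    field_simp [CUL.la_ne]
  have vη : A.valuation (η : ℂ) = 1 := CUL.w_int_unit A hA η (by rcases hη with rfl | rfl <;> norm_num)
  have vDs : A.valuation (emb Ds) = 1 := by
    apply CUL.w_emb_unit A hA
    intro h
    have h5 := CUL.w_emb_lt A hA h
    have h6 : A.valuation (emb Ds) = 1 := by
      rw [hNn]
      apply Valuation.map_one_add_of_lt
      rw [map_mul]
      calc A.valuation 3 * A.valuation ((N : ℂ) + emb la * (n : ℂ)) ≤ A.valuation 3 * 1 := by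
            refine mul_le_mul' le_rfl ?_
            rw [ValuationSubring.valuation_le_one_iff]
            exact add_mem (intCast_mem A _) (mul_mem ((ValuationSubring.valuation_le_one_iff A _).1 (CUL.w_emb_le A _))
              (intCast_mem A _))
        _ < 1 := by rw [mul_one]; exact hA
    exact absurd h6 h5.ne
  have vr1 : A.valuation (r / ((D.l : A) : ℂ)) = 1 := by
    have h5 : A.valuation (r / ((D.l : A) : ℂ)) ^ 2 = 1 := by
      rw [← map_pow, hrr, map_mul, map_mul, map_pow, vη, vDs, CUL.w_w, one_pow, one_mul, one_mul]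
    exact (pow_eq_one_iff.1 h5).resolve_right (by norm_num)
  obtain ⟨r₁, hr₁⟩ := z_lift A (x := r / ((D.l : A) : ℂ)) vr1.le
  obtain ⟨r', hr'⟩ := z_inv A (x := r₁) (by rw [hr₁]; exact vr1)
  have hrl : r = ((D.l : A) : ℂ) * (r₁ : ℂ) := by rw [hr₁]; field_simp
  have hrsq : r₁ ^ 2 = -(((-η : ℤ) : ℤ) : A) * D.o ^ i * (1 + 3 * ((N : A) + D.l ^ 2 * (n : A))) := by
    apply Subtype.ext
    push_cast
    rw [hr₁, hrr, hl, ho, hNn, z_num]
    ring
  -- `m`
  obtain ⟨m, hm⟩ : ∃ m : A, m = M * r' := ⟨_, rfl⟩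
  have hMm : M = m * r₁ := by rw [hm]; linear_combination -M * hr'
  have hmK : ((m : A) : ℂ) ∈ CF.KK := by
    have h5 : ((m : A) : ℂ) = ((D.l * M : A) : ℂ) / r := by
      rw [hMm, hrl]
      push_cast
      have h6 : (r₁ : ℂ) ≠ 0 := by
        intro h7
        have := congrArg Subtype.val hr'
        push_cast at this
        rw [h7, zero_mul] at this
        exact zero_ne_one this
      field_simp
    rw [h5]; exact hMr
  -- `u₂`
  obtain ⟨K, hK⟩ : ∃ K : A, K = 20 * M + 20 * D.l ^ 2 * M ^ 3 + 16 * D.l ^ 4 * M ^ 5 + 20 * D.l ^ 2 * X +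
    40 * D.l ^ 4 * M ^ 2 * X + D.l ^ 6 * g2 := ⟨_, rfl⟩
  have hK' : (2 * (10 * (D.l * M) + 10 * (D.l * M) ^ 3 + 8 * (D.l * M) ^ 5 +
      10 * (D.l ^ 3 * X) + 20 * (D.l * M) ^ 2 * (D.l ^ 3 * X)) + D.l ^ 7 * g2 : A) = D.l * K := by
    rw [hK]; ring
  have hr0 : (r₁ : ℂ) ≠ 0 := by
    intro h7
    have := congrArg Subtype.val hr'
    push_cast at this
    rw [h7, zero_mul] at this
    exact zero_ne_one this
  have hu1 : 10 * u₂ * (r₁ : ℂ) = (K : ℂ) := by
    apply mul_left_cancel₀ hl0'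
    have h5 := h2
    rw [hK', hrl] at h5
    push_cast at h5
    linear_combination h5
  have v10 : A.valuation (10 : ℂ) = 1 := by
    have := CUL.w_int_unit A hA 10 (by norm_num)
    exact_mod_cast this
  have vu : A.valuation u₂ ≤ 1 := by
    have h5 := congrArg A.valuation hu1
    rw [map_mul, map_mul, v10, hr₁, vr1, one_mul, mul_one] at h5
    rw [h5]; exact z_le A K
  obtain ⟨u, hu⟩ := z_lift A vu
  have h2' : 5 * (2 * (u * (D.l * r₁))) = 2 * (10 * (D.l * M) + 10 * (D.l * M) ^ 3 + 8 * (D.l * M) ^ 5 +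
      10 * (D.l ^ 3 * X) + 20 * (D.l * M) ^ 2 * (D.l ^ 3 * X)) + D.l ^ 7 * g2 := by
    rw [hK']
    apply Subtype.ext
    push_cast
    rw [z_num, z_num, hu]
    linear_combination ((D.l : A) : ℂ) * hu1
  -- digits of `m` and `u₂`
  have hη' : -η = 1 ∨ -η = -1 := by omega
  obtain ⟨e₀, ua, he₀, hua1, hua2, hua3⟩ := kk_digit A hA hu₂ vu
  obtain ⟨e₁, ub, he₁, hub1, hub2, hub3⟩ := kk_digit A hA hua1 hua2
  obtain ⟨e₂, uc, he₂, huc1, huc2, huc3⟩ := kk_digit A hA hub1 hub2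
  obtain ⟨u₃, hu₃⟩ := z_lift A huc2
  have hudig : u₂ = e₀ + e₁ * emb la + e₂ * emb la ^ 2 + emb la ^ 3 * uc := by
    rw [hua3, hub3, huc3]; ring
  have hudigA : u = e₀ + e₁ * D.l ^ 2 + e₂ * D.l ^ 4 + D.l ^ 6 * u₃ := by
    apply Subtype.ext
    push_cast
    rw [hu, hu₃, hudig, ← hl]
    ring
  have hLn := ln1_iff A hA hη (i : ℤ) he₀ huc2 hudig
  obtain ⟨d, mm, hd, hmm1, hmm2, hmm3⟩ := kk_digit A hA hmK (z_le A m)
  have vlx : ∀ x : ℂ, A.valuation x ≤ 1 → A.valuation (emb la * x) < 1 := by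
    intro x hx
    rw [map_mul]
    calc A.valuation (emb la) * A.valuation x ≤ A.valuation (emb la) * 1 := mul_le_mul' le_rfl hx
      _ < 1 := by rw [mul_one]; exact hla
  have vunit : ∀ (d : ℤ) (x : ℂ), ¬ (3 : ℤ) ∣ d → A.valuation x ≤ 1 → A.valuation ((d : ℂ) + emb la * x) = 1 := by
    intro d x hd hx
    rw [Valuation.map_add_eq_of_lt_left _ (by rw [CUL.w_int_unit A hA d hd]; exact vlx x hx), CUL.w_int_unit A hA d hd]
  have hwK : w ∈ CF.KK := by
    have := JX.ta_KK CU.om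
    rwa [CUL.emb_om] at this
  have he0 : A.valuation (((-η : ℤ) : ℤ) : ℂ) = 1 :=
    CUL.w_int_unit A hA (-η) (by rcases hη with rfl | rfl <;> norm_num)
  have vo : A.valuation ((D.o : A) : ℂ) = 1 := by rw [ho, CUL.w_w]
  have vr1' : A.valuation (r₁ : ℂ) = 1 := by rw [hr₁]; exact vr1
  by_cases hd0 : d = 0
  · -- case 2
    subst hd0
    rw [Int.cast_zero, zero_add] at hmm3
    obtain ⟨mA, hmA⟩ := z_lift A hmm2
    have hmA' : m = D.l ^ 2 * mA := by
      apply Subtype.ext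
      push_cast
      rw [hl, hmA, hmm3]
    obtain ⟨d', mm', hd', hmm1', hmm2', hmm3'⟩ := kk_digit A hA hmm1 hmm2
    -- the digit `d'` is zero
    have hd'0 : d' = 0 := by
      by_contra hd'0
      have hd3 : ¬ (3 : ℤ) ∣ d' := by omega
      have vmA : A.valuation (mA : ℂ) = 1 := by rw [hmA, hmm3']; exact vunit d' mm' hd3 hmm2'
      have h5 : mA * r₁ * (D.o * ((-η : ℤ) : A)) = D.l ^ 2 * (mA * r₁ * (D.o ^ 2 + 8 * D.l ^ 2 * (mA * r₁) ^ 2) -
          8 * D.o ^ 2 * X) := by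
        apply mul_left_cancel₀ (pow_ne_zero 5 hl0)
        rw [hMm, hmA'] at h24
        unfold Rg.th at h24
        linear_combination -h24 + (8 * D.l ^ 3 * X - D.l ^ 3 * (mA * r₁)) * D.three
      have h6 := congrArg (fun x : A => A.valuation (x : ℂ)) h5
      beta_reduce at h6
      rw [Subring.coe_mul, Subring.coe_mul, Subring.coe_mul, Subring.coe_mul, map_mul, map_mul, map_mul, Subring.coe_pow, hl,
        vmA, vr1', vo, one_mul, one_mul] at h6
      have h8 := vlx (((mA * r₁ * (D.o ^ 2 + 8 * D.l ^ 2 * (mA * r₁) ^ 2) - 8 * D.o ^ 2 * X : A) : ℂ)) (z_le A _)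
      rw [← h6] at h8
      have h9 : A.valuation ((((-η : ℤ) : ℤ) : A) : ℂ) = 1 := by
        push_cast
        push_cast at he0
        exact he0
      rw [h9, one_mul] at h8
      exact lt_irrefl _ h8
    subst hd'0
    rw [Int.cast_zero, zero_add] at hmm3'
    obtain ⟨d₀, m1, hd₀, hm11, hm12, hm13⟩ := kk_digit A hA hmm1' hmm2'
    obtain ⟨d₁, m2, hd₁, hm21, hm22, hm23⟩ := kk_digit A hA hm11 hm12
    obtain ⟨m₃, hm₃⟩ := z_lift A hm22
    obtain ⟨mB, hmB⟩ := z_lift A hmm2'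
    have hMB : M = D.l ^ 4 * (mB * r₁) := by
      apply Subtype.ext
      rw [hMm, hmA']
      push_cast
      rw [hmA, hmB, hmm3', ← hl]
      ring
    have hmBdig : mB = d₀ + d₁ * D.l ^ 2 + D.l ^ 4 * m₃ := by
      apply Subtype.ext
      push_cast
      rw [hmB, hm₃, hm13, hm23, ← hl]
      ring
    obtain ⟨⟨g, hg⟩, he00, hκ⟩ := case2 D hl0 hz hη' hi (d₀ := d₀) (d₁ := d₁) (e₀ := e₀) (e₁ := e₁) (e₂ := e₂) (N := N)
      hd₀ he₀ hMB hrsq h24 h1 h2' hr' hmBdig hudigA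
    refine ⟨-r₁, g, d₁ + (1 + i - -η) * d₀, ?_, by rw [hg]; ring, ?_⟩
    · push_cast
      rw [Valuation.map_neg, vr1']
    · rw [hLn, hκ, he00]
      have : e₂ + e₁ * ((i : ℤ) + η * (1 + 0 ^ 2)) = e₂ + e₁ * ((i : ℤ) - -η) := by ring
      rw [this]
  · -- case 1
    have hd3 : ¬ (3 : ℤ) ∣ d := by omega
    have vm : A.valuation (m : ℂ) = 1 := by rw [hmm3]; exact vunit d mm hd3 hmm2
    obtain ⟨m', hm'⟩ := z_inv A vm
    obtain ⟨ρ, hρ⟩ : ∃ ρ : A, ρ = 2 * X * (r' * m') := ⟨_, rfl⟩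
    have hX : 2 * X = M * ρ := by
      rw [hρ, hMm]
      linear_combination -(2 * X * r₁ * r') * hm' - 2 * X * hr'
    have vM : A.valuation (M : ℂ) = 1 := by
      rw [hMm]; push_cast; rw [map_mul, vm, vr1', one_mul]
    have hM0 : M ≠ 0 := by
      rintro rfl
      rw [ZeroMemClass.coe_zero, map_zero] at vM
      exact zero_ne_one vM
    have E1 : 12 * (D.l ^ 2 * ρ) = 3 + D.th * ((-η : ℤ) : A) - 8 * (D.l * M) ^ 2 := by
      apply mul_left_cancel₀ (mul_ne_zero hl0 hM0)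
      linear_combination h24 - 12 * D.l ^ 3 * hX
    have hρK : (ρ : ℂ) ∈ CF.KK := by
      have h5 : (ρ : ℂ) = (3 + w * emb la * ((-η : ℤ) : ℂ) - 8 * (((m : A) : ℂ) ^ 2 *
          emb ((η : Eis) * CU.om ^ i * la * Ds))) / (12 * emb la) := by
        have h6 := congrArg Subtype.val E1
        unfold Rg.th at h6
        push_cast at h6
        rw [z_num, z_num, z_num, ho, hl] at h6
        have h7 : ((D.l : A) : ℂ) * (M : ℂ) = (m : ℂ) * r := by
          rw [hMm, hrl]; push_cast; ring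
        rw [h7] at h6
        rw [← hr, eq_div_iff (mul_ne_zero (by norm_num) CUL.la_ne)]
        push_cast
        linear_combination h6
      rw [h5]
      refine div_mem (sub_mem (add_mem ?_ (mul_mem (mul_mem hwK (JX.ta_KK _)) (intCast_mem _ _))) ?_) ?_
      · exact_mod_cast (natCast_mem CF.KK 3)
      · exact mul_mem (by exact_mod_cast (natCast_mem CF.KK 8)) (mul_mem (pow_mem hmK 2) (JX.ta_KK _))
      · exact mul_mem (by exact_mod_cast (natCast_mem CF.KK 12)) (JX.ta_KK _)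
    obtain ⟨a, ρa, ha, ha1, ha2, ha3⟩ := kk_digit A hA hρK (z_le A ρ)
    obtain ⟨b, ρb, hb, hb1, hb2, hb3⟩ := kk_digit A hA ha1 ha2
    obtain ⟨p, hp⟩ := z_lift A hb2
    have hρdig : ρ = a + b * D.l ^ 2 + D.l ^ 4 * p := by
      apply Subtype.ext
      push_cast
      rw [hp, ha3, hb3, ← hl]
      ring
    -- `e₀ ≠ 0`
    have he₀' : e₀ = 1 ∨ e₀ = -1 := by
      refine he₀.resolve_left ?_
      rintro rfl
      have h5 : 20 * M = D.l ^ 2 * (10 * (e₁ + e₂ * D.l ^ 2 + D.l ^ 4 * u₃) * r₁ - (20 * M ^ 3 + 16 * D.l ^ 2 * M ^ 5 +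
          20 * X + 40 * D.l ^ 2 * M ^ 2 * X + D.l ^ 4 * g2)) := by
        have h6 : 10 * u * r₁ = K := by
          apply Subtype.ext
          push_cast
          rw [z_num, hu]
          exact hu1
        rw [hudigA, hK] at h6
        push_cast at h6
        linear_combination -h6
      have h6 := congrArg (fun x : A => A.valuation (x : ℂ)) h5
      beta_reduce at h6
      rw [Subring.coe_mul, Subring.coe_mul, map_mul, map_mul, Subring.coe_pow, hl, z_num, vM, mul_one] at h6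
      have h7 : A.valuation (20 : ℂ) = 1 := by
        have := CUL.w_int_unit A hA 20 (by norm_num)
        exact_mod_cast this
      rw [h7] at h6
      have h8 := vlx (((10 * (e₁ + e₂ * D.l ^ 2 + D.l ^ 4 * u₃) * r₁ - (20 * M ^ 3 + 16 * D.l ^ 2 * M ^ 5 +
          20 * X + 40 * D.l ^ 2 * M ^ 2 * X + D.l ^ 4 * g2) : A) : ℂ)) (z_le A _)
      rw [map_mul, ← h6] at h8
      exact lt_irrefl _ h8
    have hee : (e₀ : A) * e₀ = 1 := by rcases he₀' with rfl | rfl <;> push_cast <;> ring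
    obtain ⟨⟨g, hg⟩, hκ⟩ := case1 D hl0 hz hη' hi (a := a) (b := b) (c₁ := e₀ * e₁) (c₂ := e₀ * e₂) (N := N) (c := c) (b₀ := e₀)
      ha he₀' (u₃ := e₀ * u₃) hMm hrsq hX h24 h1 h2' hr' hm' hρdig (by
        rw [hudigA]; push_cast
        linear_combination (-(e₁ : A) * D.l ^ 2 - e₂ * D.l ^ 4 - D.l ^ 6 * u₃) * hee) hc
    refine ⟨64 * D.o ^ 2 * ((-η : ℤ) : A) * M, g, b + a * (1 + -η) + 1 + c * -η, ?_, hg, ?_⟩
    · push_cast
      rw [z_num, map_mul, map_mul, map_mul, map_pow, vo, vM]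
      have h7 : A.valuation (64 : ℂ) = 1 := by
        have := CUL.w_int_unit A hA 64 (by norm_num)
        exact_mod_cast this
      rw [h7]
      push_cast at he0
      rw [he0]
      simp
    · rw [hLn, hκ]
      rcases he₀' with rfl | rfl
      · constructor
        · rintro ⟨k, hk⟩
          exact ⟨k - η * e₁, by linear_combination hk⟩
        · rintro ⟨k, hk⟩
          exact ⟨k + η * e₁, by linear_combination hk⟩
      · constructor
        · rintro ⟨k, hk⟩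
          exact ⟨-k + η * e₁, by linear_combination -hk⟩
        · rintro ⟨k, hk⟩
          exact ⟨-k + η * e₁, by linear_combination -hk⟩

end JGL
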