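import Pool.Agent.JGL.U
import Pool.Agent.JGL.C
import Pool.Agent.JGL.V2e
import Pool.Agent.JGL.V3e
import Pool.Agent.JGL.V4e
import Pool.Agent.JGL.V23o
import Pool.Agent.JGL.V4o

/-!
# [JGL-Z1] the valuation of `V √D / (4 D)^(1/3)` for all types at `λ`
-/

set_option autoImplicit false

open NumberField IsDedekindDomain Filter Topology
open scoped Classical ComplexConjugate

namespace JGL

open CM27 JZ
open CU (la eE)
open CUL (Nl ez si ta DS Cont LV IsRep rp cr mn mo zw OT GalU W3 W9)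
open JL (N1 KD sD Psi6)

theorem z_conv {Γ : Type*} [LinearOrderedCommGroupWithZero Γ] {l V s t : Γ} {v n a b c : ℕ} (hl : l ≠ 0)
    (hs : s ^ 2 = l ^ v) (ht : t ^ 3 = l ^ v) (ha : a * c = 6) (hb : b * c + v = 6 * n) :
    (V ^ a ≤ l ^ b ↔ V * s / t ≤ l ^ n) ∧ (V ^ a = l ^ b ↔ V * s / t = l ^ n) := by
  have hlv : l ^ v ≠ 0 := pow_ne_zero _ hl
  have hc : c ≠ 0 := by
    rintro rfl
    rw [mul_zero] at ha
    exact absurd ha (by norm_num)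
  have e1 : (V * s / t) ^ 6 = (V ^ a) ^ c * l ^ v := by
    have e2 : (V * s / t) ^ 6 = V ^ 6 * (s ^ 2) ^ 3 / (t ^ 3) ^ 2 := by
      rw [div_pow, mul_pow, ← pow_mul, ← pow_mul]
    rw [e2, hs, ht, ← pow_mul V a c, ha]
    rw [div_eq_iff (pow_ne_zero _ hlv), mul_assoc, ← pow_succ']
  have e3 : (l ^ n) ^ 6 = (l ^ b) ^ c * l ^ v := by
    rw [← pow_mul, ← pow_mul, ← pow_add, hb, mul_comm]
  constructor
  · rw [← pow_le_pow_iff_left₀ (zero_le (a := V * s / t)) (zero_le (a := l ^ n)) (by norm_num : (6 : ℕ) ≠ 0), e1, e3]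
    rw [mul_le_mul_iff_left₀ (zero_lt_iff.2 hlv), pow_le_pow_iff_left₀ zero_le zero_le hc]
  · rw [← pow_left_inj₀ (zero_le (a := V * s / t)) (zero_le (a := l ^ n)) (by norm_num : (6 : ℕ) ≠ 0), e1, e3]
    rw [mul_left_inj' hlv, pow_left_inj₀ zero_le zero_le hc]

variable {D : Eis}

/-- the conditions at `λ`, bad reduction -/
def ClL (d : Dat D) : Prop :=
  (d.v = 0 → d.i = 0 → ¬ (d.η = -1 ∧ d.L.k = 1) ∧ ¬ (d.η = 1 ∧ d.L.k = 0)) ∧
  (d.v = 2 ∨ d.v = 4 → d.η = -1) ∧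
  (d.v = 3 → d.i = 0 → d.L.k ≠ 2) ∧
  (d.v = 3 → d.i ≠ 0 → (d.η = 1 → (d.i : ZMod 3) ≠ -1) ∧ (d.η = -1 → (d.i : ZMod 3) ≠ 1))

theorem z_etaInt (d : Dat D) : ∃ η : ℤ, (η = 1 ∨ η = -1) ∧ d.η = (η : Eis) := by
  rcases d.hη with h | h
  · exact ⟨1, Or.inl rfl, by rw [h]; rfl⟩
  · exact ⟨-1, Or.inr rfl, by rw [h]; rfl⟩

theorem z_D_ne (d : Dat D) : D ≠ 0 := by
  intro h0
  have h1 : emb D = emb d.D₁ * emb d.m ^ 2 := by
    rw [← map_pow, ← map_mul]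
    exact congrArg emb d.hD
  have h2 : emb D = 0 := by rw [h0, map_zero]
  rw [h2] at h1
  exact mul_ne_zero (CUL.l2_emb_ne d.Q.sqf.ne_zero) (pow_ne_zero _ (CUL.l2_emb_ne d.hm)) h1.symm

theorem z_emb_la : emb la ≠ 0 := CUL.la_ne

theorem z_val_D (d : Dat D) (A : ValuationSubring ℂ) (hA : A.valuation 3 < 1) :
    A.valuation (emb D) = A.valuation (emb la) ^ d.v := by
  have hη : ¬ la ∣ d.η * CU.om ^ d.i := by
    intro h
    refine CUL.la_prime.not_isUnit (isUnit_of_dvd_unit h ?_)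
    refine IsUnit.mul ?_ (CU.om_unit.pow _)
    rcases d.hη with h | h
    · rw [h]; exact isUnit_one
    · rw [h]; exact isUnit_one.neg
  have hDs : ¬ la ∣ d.Ds := CUL.primary_not_la d.hDs
  have h1 : A.valuation (emb D) = A.valuation (emb (d.η * CU.om ^ d.i * la ^ d.v * d.Ds)) :=
    congrArg (fun x => A.valuation (emb x)) d.hD'
  rw [h1, map_mul, map_mul, CUL.w_emb_unit A hA _ hDs, map_mul, map_mul, CUL.w_emb_unit A hA _ hη, one_mul, mul_one,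
    map_pow, map_pow]

/-- the square root of `D` over the one of `D₁` -/
theorem z_s (d : Dat D) {s : ℂ} (hs : s ^ 2 = emb D) : ∃ κ : ℂ, κ ∈ CF.KK ∧ κ ≠ 0 ∧ s = κ * sD d.D₁ := by
  have h1 : s ^ 2 = (emb d.m * sD d.D₁) ^ 2 := by
    have h2 := congrArg emb d.hD
    rw [map_mul, map_pow] at h2
    rw [hs, mul_pow, JL.sD_sq, h2, mul_comm]
  have hm0 : emb d.m ≠ 0 := CUL.l2_emb_ne d.hm
  rcases sq_eq_sq_iff_eq_or_eq_neg.1 h1 with h | h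
  · exact ⟨emb d.m, JL.F0_emb_mem _, hm0, h⟩
  · exact ⟨-emb d.m, neg_mem (JL.F0_emb_mem _), neg_ne_zero.2 hm0, by rw [h]; ring⟩

theorem z_r (d : Dat D) {s c r : ℂ} (hs : s ^ 2 = emb D) (hc : c ∈ CF.KK) (hc0 : c ≠ 0) (hr : s = c * r) {e : ℂ}
    (h : N1 (sD d.D₁) e) : ∃ u₁ u₂, N2 r e u₁ u₂ := by
  obtain ⟨κ, h1, h2, h3⟩ := z_s d hs
  refine n2_of d h (mul_mem h1 (inv_mem hc)) (mul_ne_zero h2 (inv_ne_zero hc0)) ?_
  rw [mul_right_comm, ← h3, hr, mul_comm c r, mul_assoc, mul_inv_cancel₀ hc0, mul_one]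

theorem z_vs (d : Dat D) (A : ValuationSubring ℂ) (hA : A.valuation 3 < 1) {s t : ℂ} (hs : s ^ 2 = emb D)
    (ht : t ^ 3 = emb (4 * D)) : A.valuation s ^ 2 = A.valuation (emb la) ^ d.v ∧
      A.valuation t ^ 3 = A.valuation (emb la) ^ d.v := by
  have h4 : ¬ la ∣ 4 := by rw [CUL.la_dvd_iff]; decide
  constructor
  · rw [← map_pow, hs, z_val_D d A hA]
  · rw [← map_pow, ht, map_mul, map_mul, z_val_D d A hA, CUL.w_emb_unit A hA _ h4, one_mul]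

theorem z_sigma {σ : ℂ ≃+* ℂ} (hσ : σ w = w) {z : ℂ} (hz : z ∈ CF.KK) : σ z = z := by
  obtain ⟨x, y, rfl⟩ := (CUL.mem_KK z).1 hz
  rw [map_add, map_mul, map_ratCast, map_ratCast, hσ]

theorem z_hgal (d : Dat D) {κ r : ℂ} (hκ : κ ∈ CF.KK) (h : r = κ * sD d.D₁) : GalS d.L r := by
  obtain ⟨M₀, h0, h1⟩ := d.Q.gal (sD d.D₁) (JL.sD_sq _)
  have hdom : IsDomain Eis := emb_injective.isDomain emb
  refine ⟨M₀ * d.L.f, mul_ne_zero h0 (f_ne d.L), fun σ hσ M g hM hd hg => ?_⟩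
  have h2 : σ (sD d.D₁) = (d.Q.L.q g : ℂ) * sD d.D₁ := h1 σ hσ M g hM ((Dvd.intro _ rfl).trans hd) hg
  have hc : IsCoprime g d.L.f := IsCoprime.of_isCoprime_of_dvd_right hg.2.1 ((Dvd.intro_left _ rfl).trans hd)
  show σ r = (d.L.q g : ℂ) * r
  rw [h, map_mul, h2, z_sigma hσ hκ, d.ov.hq g hc]
  ring

/-- everything about `r`, `c r = √D` -/
theorem z_pack (d : Dat D) {s c r : ℂ} (hs : s ^ 2 = emb D) (hc : c ∈ CF.KK) (hc0 : c ≠ 0) (hr : s = c * r) {e : ℂ}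
    (h : N1 (sD d.D₁) e) : GalS d.L r ∧ ∃ u₁ u₂, N2 r e u₁ u₂ := by
  refine ⟨?_, z_r d hs hc hc0 hr h⟩
  obtain ⟨κ, h1, h2, h3⟩ := z_s d hs
  refine z_hgal d (mul_mem h1 (inv_mem hc)) ?_
  rw [mul_right_comm, ← h3, hr, mul_comm c r, mul_assoc, mul_inv_cancel₀ hc0, mul_one]

theorem z_la_mem (n : ℕ) : emb la ^ n ∈ CF.KK := pow_mem (JL.F0_emb_mem _) _

theorem z_embD (d : Dat D) : emb D = emb d.η * emb CU.om ^ d.i * emb la ^ d.v * emb d.Ds := by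
  rw [← map_pow, ← map_pow, ← map_mul, ← map_mul, ← map_mul]
  exact congrArg emb d.hD'

theorem z_ep0 (d : Dat D) (h : d.v % 2 = 0) : d.L.ep = 0 := d.hep.trans h

theorem z_ep1 (d : Dat D) (h : d.v % 2 = 1) : d.L.ep = 1 := d.hep.trans h

theorem z_int {a b : ℤ} (h : (a : Eis) = (b : Eis)) : a = b := by
  have h1 := congrArg QuadraticAlgebra.re h
  simpa using h1

theorem z_q0 (d : Dat D) (h : d.L.ep = 0) {η : ℤ} (hη : d.η = (η : Eis)) : d.L.q la = η := by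
  have h1 := d.q_la
  rw [if_pos h, hη] at h1
  exact z_int h1

theorem z_q1 (d : Dat D) (h : d.L.ep = 1) {η : ℤ} (hη : d.η = (η : Eis)) : d.L.q la = -η := by
  have h1 := d.q_la
  rw [if_neg (by rw [h]; norm_num), hη] at h1
  refine z_int ?_
  rw [h1]
  push_cast
  rfl

theorem z_three (d : Dat D) : (3 : Eis) ∣ d.η * d.Ds - d.η := by
  have h : (3 : Eis) ∣ d.Ds - 1 := d.hDs
  have e : d.η * d.Ds - d.η = d.η * (d.Ds - 1) := by ring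
  rw [e]
  exact h.mul_left _

theorem z_om_ne : emb CU.om ≠ 0 := CUL.l2_emb_ne CU.om_unit.ne_zero

theorem z_om3 (i : ℕ) : emb CU.om ^ i * (emb CU.om ^ i) ^ 2 - 1 = 0 := by
  have h1 : emb CU.om ^ 3 = 1 := by rw [CUL.emb_om, CUL.w3]
  have h2 : emb CU.om ^ i * (emb CU.om ^ i) ^ 2 = (emb CU.om ^ 3) ^ i := by ring
  rw [h2, h1, one_pow, sub_self]

theorem z_r0 (s : ℂ) (i : ℕ) : s = emb CU.om ^ (2 * i) * (s * emb CU.om ^ i) := by
  have h := z_om3 i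
  have e : emb CU.om ^ (2 * i) = (emb CU.om ^ i) ^ 2 := by ring
  rw [e]
  linear_combination -s * h

/-- `v = 0`, `i = 0` -/
theorem z_0a (d : Dat D) (h : ClL d) (hv : d.v = 0) (hi : d.i = 0) (A : ValuationSubring ℂ) (hA : A.valuation 3 < 1)
    {s t : ℂ} (hs : s ^ 2 = emb D) (ht : t ^ 3 = emb (4 * D)) :
    A.valuation (V2 d.L * s / t) ≤ A.valuation (emb la) ^ 2 ∧
      (A.valuation (V2 d.L * s / t) = A.valuation (emb la) ^ 2 ↔ JG.UCG D) := by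
  have hep := z_ep0 d (by rw [hv])
  obtain ⟨R, hR⟩ := exists_R d.L
  obtain ⟨m, hm, hU⟩ := unitE_even d.Q d.ov hep hR
  have hq : (d.L.q la : Eis) = d.η := by
    have h1 := d.q_la
    rwa [if_pos hep] at h1
  obtain ⟨hgal, u₁, u₂, hN⟩ := z_pack d hs (one_mem _) one_ne_zero (one_mul s).symm hU.1
  have hr : s ^ 2 = emb (d.η * d.Ds) := by
    rw [hs, z_embD d, hv, hi, pow_zero, pow_zero, mul_one, mul_one, map_mul]
  obtain ⟨h1, h2⟩ := V_2e d.L hep d.hη hq (h.1 hv hi) hR A hA (z_three d) hr hm hN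
  have h3 := crit_0a d hv hi A hA hU (ee_one d.L hep hR A hA m) hr hN
  obtain ⟨h4, h5⟩ := z_vs d A hA hs ht
  obtain ⟨h6, h7⟩ := z_conv (V := A.valuation (V2 d.L)) (a := 1) (b := 2) (c := 6) (n := 2) (CUL.v2_wla A) h4 h5
    (by norm_num) (by rw [hv])
  rw [map_div₀, map_mul, ← h6, ← h7, pow_one, h2, h3]
  exact ⟨h1, Iff.rfl⟩

/-- `v = 0`, `i ≠ 0` -/
theorem z_0b (d : Dat D) (h : ClL d) (hv : d.v = 0) (hi : d.i ≠ 0) (A : ValuationSubring ℂ) (hA : A.valuation 3 < 1)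
    {s t : ℂ} (hs : s ^ 2 = emb D) (ht : t ^ 3 = emb (4 * D)) :
    A.valuation (V3 d.L d.i * s / t) ≤ A.valuation (emb la) ^ 3 ∧
      (A.valuation (V3 d.L d.i * s / t) = A.valuation (emb la) ^ 3 ↔ JG.UCG D) := by
  have hep := z_ep0 d (by rw [hv])
  obtain ⟨R, hR⟩ := exists_R d.L
  obtain ⟨m, hm, hU⟩ := unitE_even d.Q d.ov hep hR
  obtain ⟨η, hη, hη'⟩ := z_etaInt d
  have hq := z_q0 d hep hη'
  have hi12 : d.i = 1 ∨ d.i = 2 := by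
    have := d.hi
    omega
  obtain ⟨hgal, u₁, u₂, hN⟩ := z_pack d hs (c := emb CU.om ^ (2 * d.i)) (r := s * emb CU.om ^ d.i) (pow_mem (JL.F0_emb_mem _) _) (pow_ne_zero _ z_om_ne) (z_r0 s d.i)  hU.1
  have hr : (s * emb CU.om ^ d.i) ^ 2 = emb (d.η * d.Ds) := by
    rw [mul_pow, hs, z_embD d, hv, pow_zero, mul_one, map_mul]
    linear_combination emb d.η * emb d.Ds * z_om3 d.i
  obtain ⟨h1, h2⟩ := V_3e d.L hep hη hq hR A hA hi12 (by rw [← hη']; exact z_three d) hr hm hN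
  have h3 := crit_0b d hv hi A hA hη' hU (ee_one d.L hep hR A hA m) hr hN
  obtain ⟨h4, h5⟩ := z_vs d A hA hs ht
  obtain ⟨h6, h7⟩ := z_conv (V := A.valuation (V3 d.L d.i)) (a := 1) (b := 3) (c := 6) (n := 3) (CUL.v2_wla A) h4 h5
    (by norm_num) (by rw [hv])
  rw [map_div₀, map_mul, ← h6, ← h7, pow_one, h2, h3]
  exact ⟨h1, Iff.rfl⟩

/-- `v = 2` -/
theorem z_2 (d : Dat D) (h : ClL d) (hv : d.v = 2) (A : ValuationSubring ℂ) (hA : A.valuation 3 < 1)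
    {s t : ℂ} (hs : s ^ 2 = emb D) (ht : t ^ 3 = emb (4 * D)) :
    A.valuation (V4 d.L 1 d.i * s / t) ≤ A.valuation (emb la) ^ 4 ∧
      (A.valuation (V4 d.L 1 d.i * s / t) = A.valuation (emb la) ^ 4 ↔ JG.UCG D) := by
  have hep := z_ep0 d (by rw [hv])
  obtain ⟨R, hR⟩ := exists_R d.L
  obtain ⟨m, hm, hU⟩ := unitE_even d.Q d.ov hep hR
  have hη : d.η = -1 := h.2.1 (Or.inl hv)
  have hq : d.L.q la = -1 := z_q0 d hep (by rw [hη]; rfl)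
  obtain ⟨hgal, u₁, u₂, hN⟩ := z_pack d hs (c := emb la ^ 1) (r := s / emb la ^ 1) (z_la_mem 1) (pow_ne_zero _ z_emb_la) (mul_div_cancel₀ _ (pow_ne_zero _ z_emb_la)).symm hU.1
  have hr : (s / emb la ^ 1) ^ 2 = emb (-CU.om ^ d.i * d.Ds) := by
    rw [div_pow, hs, z_embD d, hv, hη, div_eq_iff (pow_ne_zero _ (pow_ne_zero _ z_emb_la)), map_neg, map_one, map_mul, map_neg, map_pow]
    ring
  have hr' : (s / emb la ^ 1) ^ 2 = emb (d.η * CU.om ^ d.i * d.Ds) := by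
    rw [hr, hη]
    congr 1
    ring
  obtain ⟨h1, h2⟩ := V_4e1 d.L hep hq hR A hA d.i d.hi d.hDs d.hk hr hgal hm hN
  have h3 := crit_2 d hv A hA hU (ee_one d.L hep hR A hA m) hr' hN
  obtain ⟨h4, h5⟩ := z_vs d A hA hs ht
  obtain ⟨h6, h7⟩ := z_conv (V := A.valuation (V4 d.L 1 d.i)) (a := 3) (b := 11) (c := 2) (n := 4) (CUL.v2_wla A) h4 h5
    (by norm_num) (by rw [hv])
  rw [map_div₀, map_mul, ← h6, ← h7, h2, h3]
  exact ⟨h1, Iff.rfl⟩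

/-- `v = 4` -/
theorem z_4 (d : Dat D) (h : ClL d) (hv : d.v = 4) (A : ValuationSubring ℂ) (hA : A.valuation 3 < 1)
    {s t : ℂ} (hs : s ^ 2 = emb D) (ht : t ^ 3 = emb (4 * D)) :
    A.valuation (V4 d.L 2 d.i * s / t) ≤ A.valuation (emb la) ^ 4 ∧
      (A.valuation (V4 d.L 2 d.i * s / t) = A.valuation (emb la) ^ 4 ↔ JG.UCG D) := by
  have hep := z_ep0 d (by rw [hv])
  obtain ⟨R, hR⟩ := exists_R d.L
  obtain ⟨m, hm, hU⟩ := unitE_even d.Q d.ov hep hR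
  have hη : d.η = -1 := h.2.1 (Or.inr hv)
  have hq : d.L.q la = -1 := z_q0 d hep (by rw [hη]; rfl)
  obtain ⟨hgal, u₁, u₂, hN⟩ := z_pack d hs (c := emb la ^ 2) (r := s / emb la ^ 2) (z_la_mem 2) (pow_ne_zero _ z_emb_la) (mul_div_cancel₀ _ (pow_ne_zero _ z_emb_la)).symm hU.1
  have hr : (s / emb la ^ 2) ^ 2 = emb (-CU.om ^ d.i * d.Ds) := by
    rw [div_pow, hs, z_embD d, hv, hη, div_eq_iff (pow_ne_zero _ (pow_ne_zero _ z_emb_la)), map_neg, map_one, map_mul, map_neg, map_pow]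
    ring
  have hr' : (s / emb la ^ 2) ^ 2 = emb (d.η * CU.om ^ d.i * d.Ds) := by
    rw [hr, hη]
    congr 1
    ring
  obtain ⟨h1, h2⟩ := V_4e2 d.L hep hq hR A hA d.i d.hi d.hDs d.hk hr hgal hm hN
  have h3 := crit_4 d hv A hA hU (ee_one d.L hep hR A hA m) hr' hN
  obtain ⟨h4, h5⟩ := z_vs d A hA hs ht
  obtain ⟨h6, h7⟩ := z_conv (V := A.valuation (V4 d.L 2 d.i)) (a := 3) (b := 10) (c := 2) (n := 4) (CUL.v2_wla A) h4 h5
    (by norm_num) (by rw [hv])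
  rw [map_div₀, map_mul, ← h6, ← h7, h2, h3]
  exact ⟨h1, Iff.rfl⟩

/-- `v = 3` -/
theorem z_3a (d : Dat D) (h : ClL d) (hv : d.v = 3) (hi : d.i = 0) (A : ValuationSubring ℂ) (hA : A.valuation 3 < 1)
    {s t : ℂ} (hs : s ^ 2 = emb D) (ht : t ^ 3 = emb (4 * D)) :
    A.valuation (V2 d.L * s / t) ≤ A.valuation (emb la) ^ 2 ∧
      (A.valuation (V2 d.L * s / t) = A.valuation (emb la) ^ 2 ↔ JG.UCG D) := by
  have hep := z_ep1 d (by rw [hv])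
  obtain ⟨R, hR⟩ := exists_R d.L
  have hU := unitE_odd d.Q d.ov hep hR
  obtain ⟨η, hη, hη'⟩ := z_etaInt d
  obtain ⟨hgal, u₁, u₂, hN⟩ := z_pack d hs (c := emb la ^ 1) (r := s / emb la ^ 1) (z_la_mem 1) (pow_ne_zero _ z_emb_la) (mul_div_cancel₀ _ (pow_ne_zero _ z_emb_la)).symm hU.1
  have hr : (s / emb la ^ 1) ^ 2 = emb (d.η * CU.om ^ d.i * la * d.Ds) := by
    rw [div_pow, hs, z_embD d, hv, div_eq_iff (pow_ne_zero _ (pow_ne_zero _ z_emb_la)), map_mul, map_mul, map_mul, map_pow]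
    ring
  have hr0 : (s / emb la ^ 1) ^ 2 = emb ((η : Eis) * la * d.Ds) := by
    rw [hr, hη', hi, pow_zero, mul_one]
  obtain ⟨h1, h2⟩ := V_2o d.L hep hη (z_q1 d hep hη') (h.2.2.1 hv hi) hR A hA d.hDs d.hk hr0 hgal hN
  have h3 := crit_35 d (Or.inl hv) A hA hU (eo_one d.L hR A hA) hr hN
  obtain ⟨h4, h5⟩ := z_vs d A hA hs ht
  obtain ⟨h6, h7⟩ := z_conv (V := A.valuation (V2 d.L)) (a := 2) (b := 3) (c := 3) (n := 2) (CUL.v2_wla A) h4 h5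
    (by norm_num) (by rw [hv])
  rw [map_div₀, map_mul, ← h6, ← h7, h2, h3]
  exact ⟨h1, Iff.rfl⟩

/-- `v = 3` -/
theorem z_3b (d : Dat D) (h : ClL d) (hv : d.v = 3) (hi : d.i ≠ 0) (A : ValuationSubring ℂ) (hA : A.valuation 3 < 1)
    {s t : ℂ} (hs : s ^ 2 = emb D) (ht : t ^ 3 = emb (4 * D)) :
    A.valuation (V3 d.L d.i * s / t) ≤ A.valuation (emb la) ^ 3 ∧
      (A.valuation (V3 d.L d.i * s / t) = A.valuation (emb la) ^ 3 ↔ JG.UCG D) := by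
  have hep := z_ep1 d (by rw [hv])
  obtain ⟨R, hR⟩ := exists_R d.L
  have hU := unitE_odd d.Q d.ov hep hR
  obtain ⟨η, hη, hη'⟩ := z_etaInt d
  have hi12 : d.i = 1 ∨ d.i = 2 := by
    have := d.hi
    omega
  have hi3 : (d.i : ZMod 3) ≠ -(η : ZMod 3) := by
    obtain ⟨g1, g2⟩ := h.2.2.2 hv hi
    rcases hη with hh | hh
    · rw [hh]
      refine fun h8 => g1 (by rw [hη', hh]; rfl) ?_
      rw [h8]
      simp
    · rw [hh]
      refine fun h8 => g2 (by rw [hη', hh]; rfl) ?_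
      rw [h8]
      simp
  obtain ⟨hgal, u₁, u₂, hN⟩ := z_pack d hs (c := emb la ^ 1) (r := s / emb la ^ 1) (z_la_mem 1) (pow_ne_zero _ z_emb_la) (mul_div_cancel₀ _ (pow_ne_zero _ z_emb_la)).symm hU.1
  have hr : (s / emb la ^ 1) ^ 2 = emb (d.η * CU.om ^ d.i * la * d.Ds) := by
    rw [div_pow, hs, z_embD d, hv, div_eq_iff (pow_ne_zero _ (pow_ne_zero _ z_emb_la)), map_mul, map_mul, map_mul, map_pow]
    ring
  have hr0 : (s / emb la ^ 1) ^ 2 = emb ((η : Eis) * CU.om ^ d.i * la * d.Ds) := by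
    rw [hr, hη']
  obtain ⟨h1, h2⟩ := V_3o d.L hep hη (z_q1 d hep hη') hR A hA hi12 hi3 d.hDs d.hk hr0 hgal hN
  have h3 := crit_35 d (Or.inl hv) A hA hU (eo_one d.L hR A hA) hr hN
  obtain ⟨h4, h5⟩ := z_vs d A hA hs ht
  obtain ⟨h6, h7⟩ := z_conv (V := A.valuation (V3 d.L d.i)) (a := 2) (b := 5) (c := 3) (n := 3) (CUL.v2_wla A) h4 h5
    (by norm_num) (by rw [hv])
  rw [map_div₀, map_mul, ← h6, ← h7, h2, h3]
  exact ⟨h1, Iff.rfl⟩

/-- `v = 5` -/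
theorem z_5 (d : Dat D) (h : ClL d) (hv : d.v = 5) (A : ValuationSubring ℂ) (hA : A.valuation 3 < 1)
    {s t : ℂ} (hs : s ^ 2 = emb D) (ht : t ^ 3 = emb (4 * D)) :
    A.valuation (V4 d.L 1 d.i * s / t) ≤ A.valuation (emb la) ^ 4 ∧
      (A.valuation (V4 d.L 1 d.i * s / t) = A.valuation (emb la) ^ 4 ↔ JG.UCG D) := by
  have hep := z_ep1 d (by rw [hv])
  obtain ⟨R, hR⟩ := exists_R d.L
  have hU := unitE_odd d.Q d.ov hep hR
  obtain ⟨η, hη, hη'⟩ := z_etaInt d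
  obtain ⟨hgal, u₁, u₂, hN⟩ := z_pack d hs (c := emb la ^ 2) (r := s / emb la ^ 2) (z_la_mem 2) (pow_ne_zero _ z_emb_la) (mul_div_cancel₀ _ (pow_ne_zero _ z_emb_la)).symm hU.1
  have hr : (s / emb la ^ 2) ^ 2 = emb (d.η * CU.om ^ d.i * la * d.Ds) := by
    rw [div_pow, hs, z_embD d, hv, div_eq_iff (pow_ne_zero _ (pow_ne_zero _ z_emb_la)), map_mul, map_mul, map_mul, map_pow]
    ring
  have hr0 : (s / emb la ^ 2) ^ 2 = emb ((η : Eis) * CU.om ^ d.i * la * d.Ds) := by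
    rw [hr, hη']
  obtain ⟨h1, h2⟩ := V_4o1 d.L hep hη (z_q1 d hep hη') hR A hA d.i d.hi d.hDs d.hk hr0 hgal hN
  have h3 := crit_35 d (Or.inr hv) A hA hU (eo_one d.L hR A hA) hr hN
  obtain ⟨h4, h5⟩ := z_vs d A hA hs ht
  obtain ⟨h6, h7⟩ := z_conv (V := A.valuation (V4 d.L 1 d.i)) (a := 6) (b := 19) (c := 1) (n := 4) (CUL.v2_wla A) h4 h5
    (by norm_num) (by rw [hv])
  rw [map_div₀, map_mul, ← h6, ← h7, h2, h3]
  exact ⟨h1, Iff.rfl⟩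

/-- `v = 1` -/
theorem z_1 (d : Dat D) (h : ClL d) (hv : d.v = 1) (A : ValuationSubring ℂ) (hA : A.valuation 3 < 1)
    {s t : ℂ} (hs : s ^ 2 = emb D) (ht : t ^ 3 = emb (4 * D)) :
    A.valuation (V4 d.L 2 d.i * s / t) ≤ A.valuation (emb la) ^ 4 ∧
      (A.valuation (V4 d.L 2 d.i * s / t) = A.valuation (emb la) ^ 4 ↔ JG.UCG D) := by
  have hep := z_ep1 d (by rw [hv])
  obtain ⟨R, hR⟩ := exists_R d.L
  have hU := unitE_odd d.Q d.ov hep hR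
  obtain ⟨η, hη, hη'⟩ := z_etaInt d
  obtain ⟨hgal, u₁, u₂, hN⟩ := z_pack d hs (c := emb la ^ 0) (r := s / emb la ^ 0) (z_la_mem 0) (pow_ne_zero _ z_emb_la) (mul_div_cancel₀ _ (pow_ne_zero _ z_emb_la)).symm hU.1
  have hr : (s / emb la ^ 0) ^ 2 = emb (d.η * CU.om ^ d.i * la * d.Ds) := by
    rw [div_pow, hs, z_embD d, hv, div_eq_iff (pow_ne_zero _ (pow_ne_zero _ z_emb_la)), map_mul, map_mul, map_mul, map_pow]
    ring
  have hr0 : (s / emb la ^ 0) ^ 2 = emb ((η : Eis) * CU.om ^ d.i * la * d.Ds) := by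
    rw [hr, hη']
  obtain ⟨h1, h2⟩ := V_4o2 d.L hep hη (z_q1 d hep hη') hR A hA d.i d.hi d.hDs d.hk hr0 hgal hN
  have h3 := crit_1 d hv A hA hη' hU (eo_one d.L hR A hA) hr hN
  obtain ⟨h4, h5⟩ := z_vs d A hA hs ht
  obtain ⟨h6, h7⟩ := z_conv (V := A.valuation (V4 d.L 2 d.i)) (a := 6) (b := 23) (c := 1) (n := 4) (CUL.v2_wla A) h4 h5
    (by norm_num) (by rw [hv])
  rw [map_div₀, map_mul, ← h6, ← h7, h2, h3]
  exact ⟨h1, Iff.rfl⟩

end JGL
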