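import Pool.Agent.JGL.Z1
import Pool.Agent.JGL.H
import Pool.Agent.JGL.G
import Pool.Agent.JGL.D

/-!
# [JGL-Z2] the central value, bad reduction at `λ`
-/

set_option autoImplicit false

open NumberField IsDedekindDomain Filter Topology
open scoped Classical ComplexConjugate

namespace JGL

open CM27 JZ
open CU (la eE)
open CUL (Nl ez si ta DS Cont LV IsRep rp cr mn mo zw OT GalU W3 W9)
open JL (N1 KD sD Psi6)

variable {D : Eis}

theorem val_all (d : Dat D) (h : ClL d) (A : ValuationSubring ℂ) (hA : A.valuation 3 < 1)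
    {s t : ℂ} (hs : s ^ 2 = emb D) (ht : t ^ 3 = emb (4 * D)) :
    A.valuation (VV d.L (-(d.v : ZMod 3)) d.i * s / t) ≤ A.valuation (emb la) ^ nn (-(d.v : ZMod 3)) d.i ∧
      (A.valuation (VV d.L (-(d.v : ZMod 3)) d.i * s / t) = A.valuation (emb la) ^ nn (-(d.v : ZMod 3)) d.i ↔
        JG.UCG D) := by
  have hv6 := d.hv
  have hi3 := d.hi
  have hi0 : (d.i : ZMod 3) = 0 ↔ d.i = 0 := by
    rcases (by omega : d.i = 0 ∨ d.i = 1 ∨ d.i = 2) with h1 | h1 | h1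
    · rw [h1]; simp
    · rw [h1]; exact iff_of_false (by decide) (by decide)
    · rw [h1]; exact iff_of_false (by decide) (by decide)
  rcases (by omega : d.v = 0 ∨ d.v = 1 ∨ d.v = 2 ∨ d.v = 3 ∨ d.v = 4 ∨ d.v = 5) with hv | hv | hv | hv | hv | hv
  · have ha : -(d.v : ZMod 3) = 0 := by rw [hv]; decide
    unfold VV nn
    rw [if_pos ha, if_pos ha]
    by_cases hi : d.i = 0
    · rw [if_pos (hi0.2 hi), if_pos (hi0.2 hi)]
      exact z_0a d h hv hi A hA hs ht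
    · rw [if_neg (fun h1 => hi (hi0.1 h1)), if_neg (fun h1 => hi (hi0.1 h1))]
      exact z_0b d h hv hi A hA hs ht
  · have ha : -(d.v : ZMod 3) = 2 := by rw [hv]; decide
    unfold VV nn
    rw [ha, if_neg (by decide), if_neg (by decide)]
    exact z_1 d h hv A hA hs ht
  · have ha : -(d.v : ZMod 3) = 1 := by rw [hv]; decide
    unfold VV nn
    rw [ha, if_neg (by decide), if_neg (by decide)]
    exact z_2 d h hv A hA hs ht
  · have ha : -(d.v : ZMod 3) = 0 := by rw [hv]; decide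
    unfold VV nn
    rw [if_pos ha, if_pos ha]
    by_cases hi : d.i = 0
    · rw [if_pos (hi0.2 hi), if_pos (hi0.2 hi)]
      exact z_3a d h hv hi A hA hs ht
    · rw [if_neg (fun h1 => hi (hi0.1 h1)), if_neg (fun h1 => hi (hi0.1 h1))]
      exact z_3b d h hv hi A hA hs ht
  · have ha : -(d.v : ZMod 3) = 2 := by rw [hv]; decide
    unfold VV nn
    rw [ha, if_neg (by decide), if_neg (by decide)]
    exact z_4 d h hv A hA hs ht
  · have ha : -(d.v : ZMod 3) = 1 := by rw [hv]; decide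
    unfold VV nn
    rw [ha, if_neg (by decide), if_neg (by decide)]
    exact z_5 d h hv A hA hs ht

/-- the computation of the norm -/
theorem z2_norm {u : ℂ} (hu : ‖u‖ = 1) {s t V L f : ℂ} (ht0 : t ≠ 0) {N M : ℝ} (hN : 0 < N) (hM : 0 < M) {n : ℕ}
    (hs : ‖s‖ ^ 2 = N) (ht : ‖t‖ ^ 3 = 4 * N) (hL : ‖L‖ ^ 2 = 3) (hf : ‖f‖ ^ 2 = M) (O : ℂ) {k : ℝ} (hk : 0 < k) :
    ‖u * O / (L ^ n * f) * V‖ ^ 2 =
      4 * ‖V * s / t‖ ^ 2 / (3 ^ n * M * k) * k / (4 * N) ^ ((1 : ℝ) / 3) * ‖O‖ ^ 2 := by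
  have ht2 : (4 * N) ^ ((1 : ℝ) / 3) = ‖t‖ := by
    rw [← ht, ← Real.rpow_natCast, ← Real.rpow_mul (norm_nonneg _)]
    norm_num
  have ht' : ‖t‖ ≠ 0 := norm_ne_zero_iff.2 ht0
  have hs0 : ‖s‖ ≠ 0 := by
    intro h0
    rw [h0] at hs
    norm_num at hs
    exact hN.ne hs
  have hLn : (‖L‖ ^ n) ^ 2 = 3 ^ n := by rw [← pow_mul, mul_comm, pow_mul, hL]
  have hf0 : ‖f‖ ≠ 0 := by
    intro h0
    rw [h0] at hf
    norm_num at hf
    exact hM.ne hf
  rw [ht2, norm_mul, norm_div, norm_mul, norm_mul, norm_pow, norm_div, norm_mul, hu]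
  have e1 : (1 * ‖O‖ / (‖L‖ ^ n * ‖f‖) * ‖V‖) ^ 2 = ‖O‖ ^ 2 * ‖V‖ ^ 2 / (3 ^ n * M) := by
    rw [mul_pow, div_pow, mul_pow, mul_pow, hLn, hf]
    ring
  have h3n : (3 : ℝ) ^ n ≠ 0 := by positivity
  have hN4 : N = ‖t‖ ^ 3 / 4 := by rw [ht]; ring
  rw [e1, div_pow, mul_pow, hs, hN4]
  field_simp

theorem z2_padic {n : ℕ} {N kap : ℕ} (hN : ¬ 3 ∣ N) (hk : ¬ 3 ∣ kap) (hN0 : N ≠ 0) (hk0 : kap ≠ 0) {x : ℚ} (hx : x ≠ 0) :
    padicValRat 3 (4 * x / (3 ^ n * N * kap)) = padicValRat 3 x - n := by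
  have hp : Fact (Nat.Prime 3) := ⟨Nat.prime_three⟩
  have h4 : padicValRat 3 (4 : ℚ) = 0 := by
    have : (4 : ℚ) = ((4 : ℕ) : ℚ) := by norm_num
    rw [this, padicValRat.of_nat, padicValNat.eq_zero_of_not_dvd (by norm_num)]
    rfl
  have h3 : padicValRat 3 ((3 : ℚ) ^ n) = n := by
    have h31 : padicValRat 3 (3 : ℚ) = 1 := by
      have h3 := padicValRat.self (p := 3) (by norm_num)
      exact_mod_cast h3
    rw [padicValRat.pow (3 : ℚ), h31, mul_one]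
  have hN' : padicValRat 3 (N : ℚ) = 0 := by
    rw [padicValRat.of_nat, padicValNat.eq_zero_of_not_dvd hN]
    rfl
  have hk' : padicValRat 3 (kap : ℚ) = 0 := by
    rw [padicValRat.of_nat, padicValNat.eq_zero_of_not_dvd hk]
    rfl
  have hN0' : (N : ℚ) ≠ 0 := Nat.cast_ne_zero.2 hN0
  have hk0' : (kap : ℚ) ≠ 0 := Nat.cast_ne_zero.2 hk0
  have h3n : (3 : ℚ) ^ n ≠ 0 := by positivity
  rw [padicValRat.div (mul_ne_zero (by norm_num) hx) (mul_ne_zero (mul_ne_zero h3n hN0') hk0'),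
    padicValRat.mul (by norm_num) hx, padicValRat.mul (mul_ne_zero h3n hN0') hk0', padicValRat.mul h3n hN0', h4, h3,
    hN', hk']
  ring

theorem z2_kap (h : ¬ JG.GoodL D) : (¬ 3 ∣ JG.kap D) ∧ JG.kap D ≠ 0 := by
  unfold JG.kap
  rw [if_neg h, mul_one]
  split_ifs
  · exact ⟨by norm_num, by norm_num⟩
  · exact ⟨by norm_num, by norm_num⟩

/-- the statement on the central value for bad reduction at `λ` -/
theorem lval_bad (d : Dat D) (h : ClL d) (hG : ¬ JG.GoodL D) : JG.LValG D := by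
  obtain ⟨Φ, h1, h2, h3⟩ := L_entireD d hG
  refine ⟨d.p₂, d.pl, d.val₂, d.vall, Φ, h1, h2, ?_⟩
  obtain ⟨u, hu, hLV⟩ := LV_eq d.L (-(d.v : ZMod 3)) d.i
  obtain ⟨A, hA⟩ := CUL.exists_A
  obtain ⟨s, hs⟩ : ∃ s : ℂ, s ^ 2 = emb D := IsAlgClosed.exists_pow_nat_eq _ (by norm_num)
  obtain ⟨t, ht⟩ : ∃ t : ℂ, t ^ 3 = emb (4 * D) := IsAlgClosed.exists_pow_nat_eq _ (by norm_num)
  obtain ⟨n, hn⟩ : ∃ n, n = nn (-(d.v : ZMod 3)) d.i := ⟨_, rfl⟩
  obtain ⟨V, hV⟩ : ∃ V, V = VV d.L (-(d.v : ZMod 3)) d.i := ⟨_, rfl⟩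
  obtain ⟨hval, hiff⟩ := val_all d h A hA hs ht
  have hD0 : emb D ≠ 0 := CUL.l2_emb_ne (z_D_ne d)
  have hD4 : emb (4 * D) ≠ 0 := by
    rw [map_mul, map_ofNat]
    exact mul_ne_zero (by norm_num) hD0
  have ht0 : t ≠ 0 := by
    rintro rfl
    rw [zero_pow three_ne_zero] at ht
    exact hD4 ht.symm
  obtain ⟨κ, hκ1, hκ2, hκ3⟩ := z_s d hs
  have hb : V * s / t ∈ CF.KK := by
    rw [hV]
    exact b_mem d.L _ _ ht0 (z_hgal d hκ1 hκ3) (d.gal t ht)
  rw [← hV, ← hn] at hval hiff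
  rw [← hn, ← hV] at hLV
  have hf3 : ¬ 3 ∣ d.L.f.norm.natAbs := by
    intro h5
    exact CUL.x2_norm (CUL.primary_not_la d.L.hf) (Int.natCast_dvd.2 h5)
  have hfpos : 0 < d.L.f.norm := CM27.a1_norm_pos (f_ne d.L)
  have hf0 : d.L.f.norm.natAbs ≠ 0 := Int.natAbs_ne_zero.2 hfpos.ne'
  obtain ⟨hk3, hk0⟩ := z2_kap (D := D) hG
  have hNR : (0 : ℝ) < ‖emb D‖ := norm_pos_iff.2 hD0
  have hM : ((d.L.f.norm.natAbs : ℕ) : ℝ) = ‖emb d.L.f‖ ^ 2 := by
    rw [norm_emb_sq, Nat.cast_natAbs, Int.cast_abs, abs_of_pos (by exact_mod_cast hfpos)]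
  have hMpos : (0 : ℝ) < ((d.L.f.norm.natAbs : ℕ) : ℝ) := by
    exact_mod_cast Nat.pos_of_ne_zero hf0
  have hkpos : (0 : ℝ) < ((JG.kap D : ℕ) : ℝ) := by
    exact_mod_cast Nat.pos_of_ne_zero hk0
  have e4 : ‖emb (4 * D)‖ = 4 * ‖emb D‖ := by
    rw [map_mul, norm_mul, map_ofNat]
    norm_num
  have hL2 : ‖emb la‖ ^ 2 = 3 := by
    rw [norm_emb_sq, CUL.g6_norm_la]
    norm_num
  have hnorm := z2_norm (u := u) hu (s := s) (t := t) (V := V) (L := emb la) (f := emb d.L.f) ht0 hNR hMpos (n := n)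
    (by rw [← norm_pow, hs]) (by rw [← norm_pow, ht, e4]) hL2 hM.symm OmC hkpos
  have hcon : Φ 1 * conj (Φ 1) = ((‖Φ 1‖ ^ 2 : ℝ) : ℂ) := by
    rw [Complex.mul_conj, Complex.normSq_eq_norm_sq]
  have hla : A.valuation (emb la) ^ 2 = A.valuation 3 := by
    exact CUL.w_la A hA
  have h30 : A.valuation (3 : ℂ) ≠ 0 := (map_ne_zero _).2 three_ne_zero
  have h3pos : 0 < A.valuation (3 : ℂ) := zero_lt_iff.2 h30
  by_cases hb0 : V * s / t = 0
  · refine ⟨0, ?_, Or.inl rfl, ?_⟩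
    · rw [hcon, h3, hLV, hnorm, hb0]
      simp
    · rw [← hiff, hb0, map_zero]
      constructor
      · rintro ⟨h0, -⟩
        exact absurd rfl h0
      · intro h5
        exact absurd h5.symm (pow_ne_zero _ (CUL.v2_wla A))
  · obtain ⟨x, hx, hxx, hxv⟩ := CUL.val_KK A hA hb hb0
    have hx2 : ‖V * s / t‖ ^ 2 = (x : ℝ) := by
      rw [Complex.mul_conj, Complex.normSq_eq_norm_sq] at hxx
      exact_mod_cast hxx
    have hpv := z2_padic (n := n) hf3 hk3 hf0 hk0 hx.ne'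
    have hsq : A.valuation (V * s / t) ^ 2 = A.valuation 3 ^ (padicValRat 3 x) := hxv
    have hln : (A.valuation (emb la) ^ n) ^ 2 = A.valuation 3 ^ (n : ℤ) := by
      rw [← pow_mul, mul_comm, pow_mul, hla, zpow_natCast]
    refine ⟨4 * x / (3 ^ n * d.L.f.norm.natAbs * JG.kap D), ?_, Or.inr ?_, ?_⟩
    · rw [hcon, h3, hLV, hnorm, hx2, CUL.z_norm_OmC, e4]
      push_cast
      ring
    · rw [hpv]
      by_contra hlt
      rw [not_le] at hlt
      have h5 : A.valuation (3 : ℂ) ^ padicValRat 3 x ≤ A.valuation (3 : ℂ) ^ (n : ℤ) := by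
        rw [← hsq, ← hln]
        exact pow_le_pow_left' hval 2
      have h6 := zpow_lt_zpow_right_of_lt_one₀ h3pos hA (by omega : padicValRat 3 x < (n : ℤ))
      exact absurd h5 (not_le.2 h6)
    · rw [← hiff, hpv]
      constructor
      · rintro ⟨-, h5⟩
        have h6 : A.valuation (V * s / t) ^ 2 = (A.valuation (emb la) ^ n) ^ 2 := by
          rw [hsq, hln, (by omega : padicValRat 3 x = (n : ℤ))]
        exact (pow_left_inj₀ zero_le zero_le two_ne_zero).1 h6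
      · intro h5
        constructor
        · have : (0 : ℚ) < 4 * x / (3 ^ n * d.L.f.norm.natAbs * JG.kap D) := by
            have hf0' : (0 : ℚ) < d.L.f.norm.natAbs := by exact_mod_cast Nat.pos_of_ne_zero hf0
            have hk0' : (0 : ℚ) < JG.kap D := by exact_mod_cast Nat.pos_of_ne_zero hk0
            positivity
          exact this.ne'
        · have h6 : A.valuation (3 : ℂ) ^ (padicValRat 3 x) = A.valuation (3 : ℂ) ^ (n : ℤ) := by
            rw [← hsq, h5, hln]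
          have h7 := CUL.z_zpow_inj h30 hA h6
          omega

end JGL
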